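import Mathlib

/-!
A fixed smooth bump function on three dimensional Euclidean space and its rescalings.
-/

open MeasureTheory Set Metric Filter Topology
open scoped ContDiff RealInnerProductSpace

namespace Pool.Agent.R210

/-- Three dimensional Euclidean space. -/
abbrev E := EuclideanSpace ℝ (Fin 3)

/-- The fixed bump function: `1` on the ball of radius `1/2`, `0` off the unit ball. -/
noncomputable def bump : ContDiffBump (0 : E) := ⟨1 / 2, 1, by norm_num, by norm_num⟩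

theorem bump_smooth : ContDiff ℝ ∞ (bump : E → ℝ) := bump.contDiff

theorem bump_nonneg (z : E) : 0 ≤ bump z := bump.nonneg

theorem bump_le_one (z : E) : bump z ≤ 1 := bump.le_one

theorem bump_one {z : E} (hz : ‖z‖ ≤ 1 / 2) : bump z = 1 :=
  bump.one_of_mem_closedBall (by rw [mem_closedBall_zero_iff]; exact hz)

theorem bump_zero {z : E} (hz : 1 ≤ ‖z‖) : bump z = 0 :=
  bump.zero_of_le_dist (by rw [dist_zero_right]; exact hz)

theorem bump_compact : HasCompactSupport (bump : E → ℝ) := bump.hasCompactSupport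

/-- The rescaled bump function. -/
noncomputable def eta (ρ : ℝ) (z : E) : ℝ := bump (ρ⁻¹ • z)

theorem eta_nonneg (ρ : ℝ) (z : E) : 0 ≤ eta ρ z := bump_nonneg _

theorem eta_le_one (ρ : ℝ) (z : E) : eta ρ z ≤ 1 := bump_le_one _

theorem eta_smooth (ρ : ℝ) : ContDiff ℝ ∞ (eta ρ) :=
  bump_smooth.comp (contDiff_const_smul _)

theorem norm_inv_smul {ρ : ℝ} (hρ : 0 < ρ) (z : E) : ‖ρ⁻¹ • z‖ = ‖z‖ / ρ := by
  rw [norm_smul, norm_inv, Real.norm_eq_abs, abs_of_pos hρ]
  field_simp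

theorem eta_one {ρ : ℝ} (hρ : 0 < ρ) {z : E} (hz : ‖z‖ ≤ ρ / 2) : eta ρ z = 1 := by
  refine bump_one ?_
  rw [norm_inv_smul hρ, div_le_iff₀ hρ]
  linarith

theorem eta_zero {ρ : ℝ} (hρ : 0 < ρ) {z : E} (hz : ρ ≤ ‖z‖) : eta ρ z = 0 := by
  refine bump_zero ?_
  rw [norm_inv_smul hρ, le_div_iff₀ hρ]
  linarith

theorem eta_support {ρ : ℝ} (hρ : 0 < ρ) : Function.support (eta ρ) ⊆ ball 0 ρ := by
  intro z hz
  rw [mem_ball_zero_iff]
  by_contra h
  exact hz (eta_zero hρ (not_lt.1 h))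

theorem eta_tsupport {ρ : ℝ} (hρ : 0 < ρ) : tsupport (eta ρ) ⊆ closedBall 0 ρ :=
  closure_minimal ((eta_support hρ).trans ball_subset_closedBall) isClosed_closedBall

theorem eta_compact {ρ : ℝ} (hρ : 0 < ρ) : HasCompactSupport (eta ρ) :=
  HasCompactSupport.of_support_subset_isCompact (isCompact_closedBall 0 ρ)
    ((eta_support hρ).trans ball_subset_closedBall)

theorem exists_fderiv_bump : ∃ L : ℝ, 1 ≤ L ∧ ∀ z, ‖fderiv ℝ (bump : E → ℝ) z‖ ≤ L := by
  obtain ⟨C, hC⟩ := (bump_compact.fderiv (𝕜 := ℝ)).exists_bound_of_continuous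
    (bump_smooth.continuous_fderiv (by norm_num))
  exact ⟨max C 1, le_max_right _ _, fun z => (hC z).trans (le_max_left _ _)⟩

/-- A bound of the derivative of the bump function. -/
noncomputable def LL : ℝ := exists_fderiv_bump.choose

theorem one_le_LL : 1 ≤ LL := exists_fderiv_bump.choose_spec.1

theorem fderiv_bump_le (z : E) : ‖fderiv ℝ (bump : E → ℝ) z‖ ≤ LL :=
  exists_fderiv_bump.choose_spec.2 z

theorem fderiv_eta (ρ : ℝ) (z : E) :
    fderiv ℝ (eta ρ) z = ρ⁻¹ • fderiv ℝ (bump : E → ℝ) (ρ⁻¹ • z) := by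
  have h : HasFDerivAt (eta ρ) ((fderiv ℝ (bump : E → ℝ) (ρ⁻¹ • z)).comp
      (ρ⁻¹ • ContinuousLinearMap.id ℝ E)) z := by
    have h1 : HasFDerivAt (bump : E → ℝ) (fderiv ℝ (bump : E → ℝ) (ρ⁻¹ • z)) (ρ⁻¹ • z) :=
      (bump_smooth.differentiable (by norm_num) _).hasFDerivAt
    exact h1.comp z ((hasFDerivAt_id z).const_smul ρ⁻¹)
  rw [h.fderiv]
  ext v
  simp

theorem fderiv_eta_le {ρ : ℝ} (hρ : 0 < ρ) (z : E) : ‖fderiv ℝ (eta ρ) z‖ ≤ LL / ρ := by
  rw [fderiv_eta, norm_smul, norm_inv, Real.norm_eq_abs, abs_of_pos hρ, inv_mul_eq_div]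
  exact div_le_div_of_nonneg_right (fderiv_bump_le _) hρ.le

theorem fderiv_eta_zero {ρ : ℝ} (hρ : 0 < ρ) {z : E} (hz : z ∉ closedBall (0 : E) ρ) :
    fderiv ℝ (eta ρ) z = 0 := by
  have h : z ∉ tsupport (eta ρ) := fun h => hz (eta_tsupport hρ h)
  have := image_eq_zero_of_notMem_tsupport
    (f := fderiv ℝ (eta ρ)) (x := z) (fun h' => h (tsupport_fderiv_subset ℝ h'))
  exact this

/-- Finitely many translates of the bump function cover the unit ball. -/
theorem exists_cover : ∃ t : Finset E, ∀ u : E, ‖u‖ ≤ 1 → 1 ≤ ∑ z ∈ t, bump (u - z) := by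
  obtain ⟨t, ht, hcov⟩ := (isCompact_closedBall (0 : E) 1).finite_cover_balls
    (e := 1 / 2) (by norm_num)
  refine ⟨hcov.1.toFinset, fun u hu => ?_⟩
  have := hcov.2
  have h1 : u ∈ ⋃ x ∈ t, ball x (1 / 2) := this (by rw [mem_closedBall_zero_iff]; exact hu)
  simp only [mem_iUnion, mem_ball] at h1
  obtain ⟨x, hx, hux⟩ := h1
  have h2 : bump (u - x) = 1 := bump_one (by rw [← dist_eq_norm]; exact hux.le)
  calc (1 : ℝ) = bump (u - x) := h2.symm
    _ ≤ ∑ z ∈ hcov.1.toFinset, bump (u - z) :=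
      Finset.single_le_sum (f := fun z => bump (u - z)) (fun z _ => bump_nonneg _)
        (hcov.1.mem_toFinset.2 hx)

/-- The centres of the covering. -/
noncomputable def tt : Finset E := exists_cover.choose

theorem tt_cover (u : E) (hu : ‖u‖ ≤ 1) : 1 ≤ ∑ z ∈ tt, bump (u - z) := exists_cover.choose_spec u hu

theorem eta_cover {ρ : ℝ} (hρ : 0 < ρ) (u : E) (hu : ‖u‖ ≤ ρ) :
    1 ≤ ∑ z ∈ tt, eta ρ (u - ρ • z) := by
  have h := tt_cover (ρ⁻¹ • u) (by rw [norm_inv_smul hρ, div_le_one hρ]; exact hu)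
  refine h.trans (le_of_eq (Finset.sum_congr rfl fun z _ => ?_))
  unfold eta
  congr 1
  rw [smul_sub, smul_smul, inv_mul_cancel₀ hρ.ne', one_smul]

end Pool.Agent.R210
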