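import Pool.Agent.R210.Diss2

/-!
The estimate of the production of enstrophy at a fixed time.
-/

open MeasureTheory Set Metric Filter Topology
open scoped ContDiff ENNReal
open H459R3.NS

namespace Pool.Agent.R210

section

variable {v : V → V} (hv : ∀ i, SP (fun x => v x i))

include hv in
theorem int_G2_cu : ∫ x in cube, G2 (cu v) x ≤ 6 * palin v := by
  have hs : ∀ m a b : Fin 3, IntegrableOn (fun x => pd m (pd a (fun y => v y b)) x ^ 2) cube :=
    fun m a b => integrableOn_cube ((((hv b).pd a).pd m).cont.pow 2)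
  have h1 : ∀ x, G2 (cu v) x
      ≤ ∑ m, ∑ a, ∑ b, 2 * pd m (pd a (fun y => v y b)) x ^ 2 := by
    intro x
    have e1 : ∀ i m, pd m (fun y => cu v y i) x ^ 2
        ≤ 2 * pd m (pd (ia i) (fun y => v y (ib i))) x ^ 2
          + 2 * pd m (pd (ib i) (fun y => v y (ia i))) x ^ 2 := by
      intro i m
      rw [cu_fun, pd_sub' ((hv _).pd _) ((hv _).pd _)]
      nlinarith [sq_nonneg (pd m (pd (ia i) (fun y => v y (ib i))) x
        + pd m (pd (ib i) (fun y => v y (ia i))) x)]
    have e2 : ∀ m, ∑ i, pd m (fun y => cu v y i) x ^ 2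
        ≤ ∑ a, ∑ b, 2 * pd m (pd a (fun y => v y b)) x ^ 2 := by
      intro m
      refine (Finset.sum_le_sum fun i _ => e1 i m).trans ?_
      simp only [Fin.sum_univ_three]
      show (2 * pd m (pd 1 (fun y => v y 2)) x ^ 2 + 2 * pd m (pd 2 (fun y => v y 1)) x ^ 2)
        + (2 * pd m (pd 2 (fun y => v y 0)) x ^ 2 + 2 * pd m (pd 0 (fun y => v y 2)) x ^ 2)
        + (2 * pd m (pd 0 (fun y => v y 1)) x ^ 2 + 2 * pd m (pd 1 (fun y => v y 0)) x ^ 2) ≤ _
      have a0 := sq_nonneg (pd m (pd 0 (fun y => v y 0)) x)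
      have a1 := sq_nonneg (pd m (pd 1 (fun y => v y 1)) x)
      have a2 := sq_nonneg (pd m (pd 2 (fun y => v y 2)) x)
      linarith
    unfold G2 gr2
    rw [Finset.sum_comm]
    exact Finset.sum_le_sum fun m _ => e2 m
  have h2 : ∫ x in cube, G2 (cu v) x
      ≤ ∫ x in cube, ∑ m, ∑ a, ∑ b, 2 * pd m (pd a (fun y => v y b)) x ^ 2 := by
    refine setIntegral_mono (integrableOn_cube (G2_cont (sp_cu hv))) ?_ h1
    exact integrable_finsetSum _ fun m _ => integrable_finsetSum _ fun a _ =>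
      integrable_finsetSum _ fun b _ => (hs m a b).const_mul 2
  refine h2.trans ?_
  have e3 : ∫ x in cube, ∑ m, ∑ a, ∑ b, 2 * pd m (pd a (fun y => v y b)) x ^ 2
      = ∑ m, ∑ a, ∑ b, 2 * ∫ x in cube, pd m (pd a (fun y => v y b)) x ^ 2 := by
    rw [integral_finsetSum _ fun m _ => integrable_finsetSum _ fun a _ =>
      integrable_finsetSum _ fun b _ => (hs m a b).const_mul 2]
    refine Finset.sum_congr rfl fun m _ => ?_
    rw [integral_finsetSum _ fun a _ => integrable_finsetSum _ fun b _ => (hs m a b).const_mul 2]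
    refine Finset.sum_congr rfl fun a _ => ?_
    rw [integral_finsetSum _ fun b _ => (hs m a b).const_mul 2]
    exact Finset.sum_congr rfl fun b _ => integral_const_mul _ _
  rw [e3]
  have e4 : ∑ m, ∑ a, ∑ b, 2 * ∫ x in cube, pd m (pd a (fun y => v y b)) x ^ 2
      = ∑ a, ∑ b, 2 * ∑ m, ∫ x in cube, pd m (pd a (fun y => v y b)) x ^ 2 := by
    rw [Finset.sum_comm]
    refine Finset.sum_congr rfl fun a _ => ?_
    rw [Finset.sum_comm]
    exact Finset.sum_congr rfl fun b _ => by rw [Finset.mul_sum]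
  rw [e4]
  have h3 : ∀ a b : Fin 3, ∑ m, ∫ x in cube, pd m (pd a (fun y => v y b)) x ^ 2
      ≤ ∫ x in cube, lap (fun y => v y b) x ^ 2 := by
    intro a b
    have h4 := grd_pd_le_lap (hv b) a
    rw [← grd_sq, ← nrm_sq]
    exact pow_le_pow_left₀ (grd_nonneg _) h4 2
  have h5 : ∑ a : Fin 3, ∑ b, 2 * ∑ m, ∫ x in cube, pd m (pd a (fun y => v y b)) x ^ 2
      ≤ ∑ _a : Fin 3, ∑ b, 2 * ∫ x in cube, lap (fun y => v y b) x ^ 2 :=
    Finset.sum_le_sum fun a _ => Finset.sum_le_sum fun b _ =>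
      mul_le_mul_of_nonneg_left (h3 a b) (by norm_num)
  refine h5.trans (le_of_eq ?_)
  unfold palin
  simp only [Finset.sum_const, Finset.card_univ, Fintype.card_fin, nsmul_eq_mul]
  rw [← Finset.mul_sum]
  push_cast
  ring

/-- The divergence of the part above the threshold and the dissipation. -/
theorem dv_Dis {K : ℝ} (hK : 0 < K) : ∃ N : ℝ, 0 ≤ N ∧ ∀ v : V → V, (∀ i, SP (fun x => v x i)) →
    ∫ x in cube, dv (cw K (cu v)) x ^ 2 ≤ N * Dis v := by
  set M : ℝ := Real.sqrt (1 + 2 * K ^ 2) with hM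
  have hM0 : 0 < M := Real.sqrt_pos.2 (by positivity)
  have hQ := CQ_nonneg
  refine ⟨144 * CQ ^ 2 * M ^ 3, by positivity, fun v hv => ?_⟩
  have hom := sp_cu hv
  have hdiv : ∀ x, dv (cu v) x = 0 := by
    intro x
    have hc : ∀ a b i, pd a (pd b (fun y => v y i)) x = pd b (pd a (fun y => v y i)) x :=
      fun a b i => congrFun (pd_comm (hv i) a b) x
    unfold dv
    simp_rw [cu_fun]
    simp only [Fin.sum_univ_three]
    rw [pd_sub' ((hv _).pd _) ((hv _).pd _), pd_sub' ((hv _).pd _) ((hv _).pd _),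
      pd_sub' ((hv _).pd _) ((hv _).pd _)]
    show (pd 0 (pd 1 (fun y => v y 2)) x - pd 0 (pd 2 (fun y => v y 1)) x)
      + (pd 1 (pd 2 (fun y => v y 0)) x - pd 1 (pd 0 (fun y => v y 2)) x)
      + (pd 2 (pd 0 (fun y => v y 1)) x - pd 2 (pd 1 (fun y => v y 0)) x) = 0
    rw [hc 0 1 2, hc 0 2 1, hc 1 2 0]
    ring
  have hgc : ∀ i, Continuous fun x => 1 / hf (cu v x i) ^ 3 * gr2 (fun y => cu v y i) x := by
    intro i
    refine Continuous.mul ?_ (gr2_cont (hom i))
    refine continuous_const.div ?_ fun x => (pow_pos (hf_pos _) 3).ne'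
    exact (hf_smooth.continuous.comp (hom i).cont).pow 3
  have e1 : 144 * CQ ^ 2 * M ^ 3 * Dis v = ∫ x in cube, 144 * CQ ^ 2 * M ^ 3
      * ∑ i, 1 / hf (cu v x i) ^ 3 * gr2 (fun y => cu v y i) x := by
    rw [integral_const_mul, integral_finsetSum _ fun i _ => integrableOn_cube (hgc i)]
    rfl
  rw [e1]
  refine setIntegral_mono (integrableOn_cube ((sp_dv (sp_cw hom K)).cont.pow 2))
    (integrableOn_cube (continuous_const.mul (continuous_finsetSum _ fun i _ => hgc i)))
    fun x => ?_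
  show dv (cw K (cu v)) x ^ 2 ≤ 144 * CQ ^ 2 * M ^ 3
      * ∑ i, 1 / hf (cu v x i) ^ 3 * gr2 (fun y => cu v y i) x
  have hS0 : 0 ≤ ∑ i, 1 / hf (cu v x i) ^ 3 * gr2 (fun y => cu v y i) x :=
    Finset.sum_nonneg fun i _ => by
      have := hf_pos (cu v x i)
      have := gr2_nonneg (fun y => cu v y i) x
      positivity
  rcases lt_or_ge (2 * K ^ 2) (rsq (cu v x)) with h | h
  · rw [(dv_cw_le hom hK hdiv x).2 h]
    have : 0 ≤ 144 * CQ ^ 2 * M ^ 3 := by positivity
    have := mul_nonneg this hS0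
    simpa using this
  · refine (dv_cw_le hom hK hdiv x).1.trans ?_
    have h1 : G2 (cu v) x ≤ M ^ 3 * ∑ i, 1 / hf (cu v x i) ^ 3 * gr2 (fun y => cu v y i) x := by
      unfold G2
      rw [Finset.mul_sum]
      refine Finset.sum_le_sum fun i _ => ?_
      have h2 : hf (cu v x i) ≤ M := by
        unfold hf
        refine Real.sqrt_le_sqrt ?_
        have := sq_le_rsq (cu v x) i
        linarith
      have h3 := hf_pos (cu v x i)
      have h4 : 1 ≤ M ^ 3 * (1 / hf (cu v x i) ^ 3) := by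
        rw [mul_one_div, one_le_div (by positivity)]
        exact pow_le_pow_left₀ h3.le h2 3
      have h5 := gr2_nonneg (fun y => cu v y i) x
      calc gr2 (fun y => cu v y i) x = 1 * gr2 (fun y => cu v y i) x := (one_mul _).symm
        _ ≤ M ^ 3 * (1 / hf (cu v x i) ^ 3) * gr2 (fun y => cu v y i) x :=
            mul_le_mul_of_nonneg_right h4 h5
        _ = _ := by ring
    calc 144 * CQ ^ 2 * G2 (cu v) x ≤ 144 * CQ ^ 2
          * (M ^ 3 * ∑ i, 1 / hf (cu v x i) ^ 3 * gr2 (fun y => cu v y i) x) :=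
          mul_le_mul_of_nonneg_left h1 (by positivity)
      _ = _ := by ring

include hv in
/-- The difference of the productions. -/
theorem Nw_diff {K : ℝ} (hK : 0 < K) :
    |Nw (cu v) v - Nw (cw K (cu v)) v| ≤ 7 * K * enstrophy v := by
  have hom := sp_cu hv
  have hw := sp_cw hom K
  have s1 : SP (fun x => ∑ i, ∑ j, cu v x i * cu v x j * pd i (fun y => v y j) x) :=
    SP.sum fun i _ => SP.sum fun j _ => ((hom i).mul (hom j)).mul ((hv j).pd i)
  have s2 : SP (fun x => ∑ i, ∑ j, cw K (cu v) x i * cw K (cu v) x j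
      * pd i (fun y => v y j) x) :=
    SP.sum fun i _ => SP.sum fun j _ => ((hw i).mul (hw j)).mul ((hv j).pd i)
  have hc2 : Continuous fun x => ∑ i, ∑ j, pd j (fun y => v y i) x ^ 2 :=
    continuous_finsetSum _ fun i _ => continuous_finsetSum _ fun j _ => ((hv i).pd j).cont.pow 2
  have i1 : IntegrableOn (fun x => K * ∑ i, ∑ j, pd j (fun y => v y i) x ^ 2) cube :=
    (integrableOn_cube hc2).const_mul _
  have i2 : IntegrableOn (fun x => 3 * K * rsq (cu v x)) cube := (sp_rsq hom).int.const_mul _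
  have h1 : |Nw (cu v) v - Nw (cw K (cu v)) v|
      ≤ ∫ x in cube, (3 * K * rsq (cu v x) + K * ∑ i, ∑ j, pd j (fun y => v y i) x ^ 2) := by
    unfold Nw
    rw [← integral_sub s1.int s2.int, ← Real.norm_eq_abs]
    refine norm_integral_le_of_norm_le (i2.add i1) (Filter.Eventually.of_forall fun x => ?_)
    rw [Real.norm_eq_abs, ← Finset.sum_sub_distrib]
    simp_rw [← Finset.sum_sub_distrib]
    have h2 : ∀ i j, |cu v x i * cu v x j * pd i (fun y => v y j) x
        - cw K (cu v) x i * cw K (cu v) x j * pd i (fun y => v y j) x|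
        ≤ K * (cu v x i ^ 2 + pd i (fun y => v y j) x ^ 2) := by
      intro i j
      rw [← sub_mul, abs_mul]
      have h3 := cw_quad (om := cu v) hK x i j
      set a := |cu v x i| with ha
      set b := |pd i (fun y => v y j) x| with hb
      have ha2 : cu v x i ^ 2 = a ^ 2 := (sq_abs _).symm
      have hb2 : pd i (fun y => v y j) x ^ 2 = b ^ 2 := (sq_abs _).symm
      rw [ha2, hb2]
      have hb0 : 0 ≤ b := abs_nonneg _
      have h4 := mul_le_mul_of_nonneg_right h3 hb0
      have h5 : 0 ≤ K * (a - b) ^ 2 := by positivity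
      nlinarith
    refine (Finset.abs_sum_le_sum_abs _ _).trans ((Finset.sum_le_sum fun i _ =>
      (Finset.abs_sum_le_sum_abs _ _).trans (Finset.sum_le_sum fun j _ => h2 i j)).trans
        (le_of_eq ?_))
    simp only [rsq, Fin.sum_univ_three]
    ring
  rw [integral_add i2 i1, integral_const_mul, integral_const_mul, int_grad hv] at h1
  have h6 := int_rsq_cu hv
  have h7 : 3 * K * (∫ x in cube, rsq (cu v x)) ≤ 3 * K * (2 * enstrophy v) :=
    mul_le_mul_of_nonneg_left h6 (by positivity)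
  linarith

include hv in
theorem cub_eq_Nw (hdiv : ∀ x, ∑ i, pd i (fun y => v y i) x = 0) :
    -cub (fun i y => v y i) = Nw (cu v) v := by
  rw [Pool.Agent.W268.NS.cub_eq_stretch hv hdiv]
  unfold Nw Pool.Agent.W268.NS.stretchRate
  congr 1
  funext x
  refine Finset.sum_congr rfl fun i _ => Finset.sum_congr rfl fun j _ => ?_
  show cu v x i * pd i (fun y => v y j) x * cu v x j = _
  ring

end

/-- The estimate at a fixed time. -/
theorem comb {β ε B K : ℝ} (hβ0 : 1 / 3 ≤ β) (hβ1 : β < 1) (hε : 0 < ε) (hB : 0 ≤ B)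
    (hK : 0 < K) : ∃ C' : ℝ, 0 ≤ C' ∧
    ∀ (v : V → V) (c m : ℝ), (∀ i, SP (fun x => v x i)) →
      (∀ x, ∑ i, pd i (fun y => v y i) x = 0) →
      (∀ x y, K ^ 2 < rsq (cu v x) → K ^ 2 < rsq (cu v y) →
        rsq (crossProduct (cu v x) (cu v y))
          ≤ (c * en (x - y) ^ β) ^ 2 * (rsq (cu v x) * rsq (cu v y))) → 1 ≤ c → 1 ≤ m →
      c ≤ B * m ^ ((3 * β - 1) / 6) → enstrophy v ≤ m → Dis v ≤ m →
      -(2 * cub (fun i y => v y i)) ≤ ε * palin v + C' * m * enstrophy v := by
  obtain ⟨N, hN0, hN⟩ := dv_Dis hK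
  have hQ := CQ_nonneg
  set A : ℝ := 2 + 288 * CQ ^ 2 with hA
  have hA0 : 0 < A := by positivity
  obtain ⟨C1, hC10, hC1⟩ := prod_final (β := β) (ε := ε / (12 * A)) (B := B) (N := N + 2)
    (L := 2 * K) hβ0 hβ1 (by positivity) hB (by positivity) (by positivity)
  refine ⟨4 * C1 + 14 * K, by positivity, fun v c m hv hdiv hcoh hc hm hcm hym hDm => ?_⟩
  have hom := sp_cu hv
  have hm0 : 0 < m := by linarith
  have hw := sp_cw hom K
  have hl : ∀ i, SP (fun x => (cu v x - cw K (cu v) x) i) := fun i => (hom i).sub (hw i)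
  have hy0 := enstrophy_nonneg v
  have hP0 := palin_nonneg v
  have hr1 : ∫ x in cube, rsq (cw K (cu v) x) ≤ 2 * enstrophy v := by
    refine le_trans ?_ (int_rsq_cu hv)
    exact setIntegral_mono (sp_rsq hw).int (sp_rsq hom).int fun x => rsq_cw_le K x
  have h1 := hC1 v (cw K (cu v)) (fun x => cu v x - cw K (cu v) x) c m hv hw hl hdiv
    (fun x => by simp) (fun x i => cw_diff hK x i) (cw_coh hK hcoh) hc hm hcm
    (by nlinarith) ((hN v hv).trans (by nlinarith [Dis_nonneg v])) hym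
  have h2 : ∫ x in cube, G2 (cw K (cu v)) x ≤ A * (6 * palin v) := by
    have h3 : ∫ x in cube, G2 (cw K (cu v)) x ≤ ∫ x in cube, A * G2 (cu v) x :=
      setIntegral_mono (integrableOn_cube (G2_cont hw))
        (integrableOn_cube (continuous_const.mul (G2_cont hom))) fun x => G2_cw_le hom hK x
    rw [integral_const_mul] at h3
    exact h3.trans (mul_le_mul_of_nonneg_left (int_G2_cu hv) hA0.le)
  have h4 : ε / (12 * A) * (∫ x in cube, G2 (cw K (cu v)) x) ≤ ε / 2 * palin v := by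
    calc ε / (12 * A) * (∫ x in cube, G2 (cw K (cu v)) x)
        ≤ ε / (12 * A) * (A * (6 * palin v)) := mul_le_mul_of_nonneg_left h2 (by positivity)
      _ = ε / 2 * palin v := by field_simp; ring
  have h5 : C1 * m * (∫ x in cube, rsq (cw K (cu v) x)) ≤ C1 * m * (2 * enstrophy v) :=
    mul_le_mul_of_nonneg_left hr1 (by positivity)
  have h6 := abs_le.1 (Nw_diff hv hK)
  have h7 := abs_le.1 h1
  have h8 := cub_eq_Nw hv hdiv
  have h9 : K * enstrophy v ≤ K * m * enstrophy v := by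
    refine mul_le_mul_of_nonneg_right ?_ hy0
    exact le_mul_of_one_le_right hK.le hm
  linarith [h6.2, h7.2]

end Pool.Agent.R210
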