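import Pool.Agent.R210.Prod6

/-!
Compositions with smooth functions of one variable; the part of the vorticity above a threshold.
-/

open MeasureTheory Set Metric Filter Topology
open scoped ContDiff ENNReal
open H459R3.NS

namespace Pool.Agent.R210

theorem sp_comp {φ : ℝ → ℝ} (hφ : ContDiff ℝ ∞ φ) {f : V → ℝ} (hf : SP f) :
    SP (fun x => φ (f x)) where
  smooth := hφ.comp hf.smooth
  per := fun i x => by simp only [hf.per i x]

theorem pd_comp {φ : ℝ → ℝ} (hφ : ContDiff ℝ ∞ φ) {f : V → ℝ} (hf : SP f) (j : Fin 3) (x : V) :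
    pd j (fun y => φ (f y)) x = deriv φ (f x) * pd j f x := by
  have h1 : HasDerivAt φ (deriv φ (f x)) (f x) :=
    (hφ.differentiable (by norm_num) _).hasDerivAt
  have h2 : HasFDerivAt (fun y => φ (f y)) _ x := h1.comp_hasFDerivAt x (hf.diff x).hasFDerivAt
  unfold pd
  rw [h2.fderiv]
  simp

theorem sp_cmul (a : ℝ) {f : V → ℝ} (hf : SP f) : SP (fun x => a * f x) where
  smooth := contDiff_const.mul hf.smooth
  per := fun i x => by simp only [hf.per i x]

theorem pd_cmul (a : ℝ) {f : V → ℝ} (hf : SP f) (j : Fin 3) (x : V) :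
    pd j (fun y => a * f y) x = a * pd j f x := by
  unfold pd
  rw [fderiv_const_mul (hf.diff x)]
  rfl

/-- The cutoff function: zero below one, one above two. -/
noncomputable def chi (s : ℝ) : ℝ := Real.smoothTransition (s - 1)

theorem chi_smooth : ContDiff ℝ ∞ chi :=
  Real.smoothTransition.contDiff.comp (contDiff_id.sub contDiff_const)

theorem chi_nonneg (s : ℝ) : 0 ≤ chi s := Real.smoothTransition.nonneg _
theorem chi_le_one (s : ℝ) : chi s ≤ 1 := Real.smoothTransition.le_one _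
theorem chi_zero {s : ℝ} (h : s ≤ 1) : chi s = 0 :=
  Real.smoothTransition.zero_of_nonpos (by linarith)
theorem chi_one {s : ℝ} (h : 2 ≤ s) : chi s = 1 :=
  Real.smoothTransition.one_of_one_le (by linarith)

theorem dchi_zero {s : ℝ} (h : 2 < s) : deriv chi s = 0 := by
  have h1 : chi =ᶠ[𝓝 s] fun _ => 1 := by
    filter_upwards [Ioi_mem_nhds h] with r hr
    exact chi_one (le_of_lt hr)
  rw [h1.deriv_eq]
  simp

theorem exists_CQ : ∃ C : ℝ, 0 ≤ C ∧ ∀ s, |deriv chi s| ≤ C := by
  have hc : Continuous (deriv chi) := chi_smooth.continuous_deriv (by norm_num)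
  obtain ⟨C, hC⟩ := (isCompact_Icc (a := (0 : ℝ)) (b := 3)).exists_bound_of_continuousOn
    hc.continuousOn
  have hC0 : 0 ≤ C := (norm_nonneg _).trans (hC 0 ⟨le_rfl, by norm_num⟩)
  refine ⟨C, hC0, fun s => ?_⟩
  rcases lt_or_ge s 0 with h | h
  · have h1 : chi =ᶠ[𝓝 s] fun _ => 0 := by
      filter_upwards [Iio_mem_nhds h] with r hr
      exact chi_zero (le_of_lt (hr.trans one_pos))
    rw [h1.deriv_eq]
    simpa using hC0
  · rcases le_or_gt s 3 with h2 | h2
    · exact hC s ⟨h, h2⟩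
    · rw [dchi_zero (by linarith)]
      simpa using hC0

/-- The bound of the derivative of the cutoff function. -/
noncomputable def CQ : ℝ := exists_CQ.choose
theorem CQ_nonneg : 0 ≤ CQ := exists_CQ.choose_spec.1
theorem dchi_le (s : ℝ) : |deriv chi s| ≤ CQ := exists_CQ.choose_spec.2 s

/-- The part of the field above the threshold `K`. -/
noncomputable def cw (K : ℝ) (om : V → V) (x : V) : V := fun i => chi (K⁻¹ ^ 2 * rsq (om x)) * om x i

section

variable {om : V → V} (hom : ∀ i, SP (fun x => om x i))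

include hom in
theorem sp_rsq : SP (fun x => rsq (om x)) := by
  have h1 : (fun x => rsq (om x)) = fun x => ∑ i, om x i * om x i := by
    funext x
    unfold rsq
    exact Finset.sum_congr rfl fun i _ => by ring
  rw [h1]
  exact SP.sum fun i _ => (hom i).mul (hom i)

include hom in
theorem pd_rsq (m : Fin 3) (x : V) :
    pd m (fun y => rsq (om y)) x = 2 * ∑ j, om x j * pd m (fun y => om y j) x := by
  have h1 : (fun x => rsq (om x)) = fun x => ∑ i, om x i * om x i := by
    funext x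
    unfold rsq
    exact Finset.sum_congr rfl fun i _ => by ring
  rw [h1, pd_sum fun i _ => (hom i).mul (hom i), Finset.mul_sum]
  refine Finset.sum_congr rfl fun i _ => ?_
  rw [pd_mul (hom i) (hom i)]
  ring

include hom in
theorem sp_chi (K : ℝ) : SP (fun x => chi (K⁻¹ ^ 2 * rsq (om x))) :=
  sp_comp chi_smooth (sp_cmul _ (sp_rsq hom))

include hom in
theorem sp_cw (K : ℝ) (i : Fin 3) : SP (fun x => cw K om x i) := (sp_chi hom K).mul (hom i)

include hom in
theorem pd_chi (K : ℝ) (m : Fin 3) (x : V) : pd m (fun x => chi (K⁻¹ ^ 2 * rsq (om x))) x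
    = deriv chi (K⁻¹ ^ 2 * rsq (om x))
      * (K⁻¹ ^ 2 * (2 * ∑ j, om x j * pd m (fun y => om y j) x)) := by
  rw [pd_comp chi_smooth (sp_cmul _ (sp_rsq hom)), pd_cmul _ (sp_rsq hom), pd_rsq hom]

theorem cw_zero {K : ℝ} (hK : 0 < K) {x : V} (h : rsq (om x) ≤ K ^ 2) : cw K om x = 0 := by
  funext i
  have : K⁻¹ ^ 2 * rsq (om x) ≤ 1 := by
    rw [inv_pow, inv_mul_le_iff₀ (by positivity), mul_one]
    exact h
  show chi (K⁻¹ ^ 2 * rsq (om x)) * om x i = 0
  rw [chi_zero this, zero_mul]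

theorem cw_one {K : ℝ} (hK : 0 < K) {x : V} (h : 2 * K ^ 2 ≤ rsq (om x)) : cw K om x = om x := by
  funext i
  have : 2 ≤ K⁻¹ ^ 2 * rsq (om x) := by
    rw [inv_pow, ← div_eq_inv_mul, le_div_iff₀ (by positivity)]
    exact h
  show chi (K⁻¹ ^ 2 * rsq (om x)) * om x i = om x i
  rw [chi_one this, one_mul]

theorem rsq_cw_le (K : ℝ) (x : V) : rsq (cw K om x) ≤ rsq (om x) := by
  have e : cw K om x = chi (K⁻¹ ^ 2 * rsq (om x)) • om x := rfl
  rw [e, rsq_smul]
  have h0 := chi_nonneg (K⁻¹ ^ 2 * rsq (om x))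
  have h1 := chi_le_one (K⁻¹ ^ 2 * rsq (om x))
  have h2 : chi (K⁻¹ ^ 2 * rsq (om x)) ^ 2 ≤ 1 := pow_le_one₀ h0 h1
  have := rsq_nonneg (om x)
  nlinarith

/-- The difference is bounded. -/
theorem cw_diff {K : ℝ} (hK : 0 < K) (x : V) (i : Fin 3) : |(om x - cw K om x) i| ≤ 2 * K := by
  rcases le_or_gt (2 * K ^ 2) (rsq (om x)) with h | h
  · rw [cw_one hK h]
    simp only [sub_self, Pi.zero_apply, abs_zero]
    positivity
  · have h0 := chi_nonneg (K⁻¹ ^ 2 * rsq (om x))
    have h1 := chi_le_one (K⁻¹ ^ 2 * rsq (om x))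
    have e : (om x - cw K om x) i = (1 - chi (K⁻¹ ^ 2 * rsq (om x))) * om x i := by
      simp only [Pi.sub_apply, cw]; ring
    rw [e, abs_mul, abs_of_nonneg (by linarith)]
    have h2 : |om x i| ≤ 2 * K := by
      refine abs_le_of_sq_le_sq ?_ (by positivity)
      have := sq_le_rsq (om x) i
      nlinarith
    calc (1 - chi (K⁻¹ ^ 2 * rsq (om x))) * |om x i| ≤ 1 * |om x i| :=
          mul_le_mul_of_nonneg_right (by linarith) (abs_nonneg _)
      _ ≤ 2 * K := by rw [one_mul]; exact h2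

/-- The difference of the quadratic forms. -/
theorem cw_quad {K : ℝ} (hK : 0 < K) (x : V) (i j : Fin 3) :
    |om x i * om x j - cw K om x i * cw K om x j| ≤ 2 * K * |om x i| := by
  rcases le_or_gt (2 * K ^ 2) (rsq (om x)) with h | h
  · rw [cw_one hK h]
    simp only [sub_self, abs_zero]
    positivity
  · have h0 := chi_nonneg (K⁻¹ ^ 2 * rsq (om x))
    have h1 := chi_le_one (K⁻¹ ^ 2 * rsq (om x))
    set a := chi (K⁻¹ ^ 2 * rsq (om x)) with ha
    have e : om x i * om x j - cw K om x i * cw K om x j = (1 - a ^ 2) * (om x i * om x j) := by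
      simp only [cw, ← ha]; ring
    have ha2 : a ^ 2 ≤ 1 := pow_le_one₀ h0 h1
    have ha3 : 0 ≤ a ^ 2 := sq_nonneg a
    rw [e, abs_mul, abs_mul, abs_of_nonneg (by linarith)]
    have h2 : |om x j| ≤ 2 * K := by
      refine abs_le_of_sq_le_sq ?_ (by positivity)
      have := sq_le_rsq (om x) j
      nlinarith
    have h3 : |om x i| * |om x j| ≤ |om x i| * (2 * K) := mul_le_mul_of_nonneg_left h2 (abs_nonneg _)
    have h4 : 0 ≤ |om x i| * |om x j| := by positivity
    nlinarith

/-- The coherence of the part above the threshold. -/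
theorem cw_coh {K c β : ℝ} (hK : 0 < K)
    (h : ∀ x y, K ^ 2 < rsq (om x) → K ^ 2 < rsq (om y) →
      rsq (crossProduct (om x) (om y)) ≤ (c * en (x - y) ^ β) ^ 2 * (rsq (om x) * rsq (om y))) :
    CohV (cw K om) c β := by
  intro x y
  have e : ∀ x, cw K om x = chi (K⁻¹ ^ 2 * rsq (om x)) • om x := fun x => rfl
  rcases le_or_gt (rsq (om x)) (K ^ 2) with hx | hx
  · rw [cw_zero hK hx]
    simp only [map_zero, LinearMap.zero_apply]
    have : rsq (0 : V) = 0 := by simp [rsq]
    rw [this]; simp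
  rcases le_or_gt (rsq (om y)) (K ^ 2) with hy | hy
  · rw [cw_zero hK hy]
    simp only [map_zero]
    have : rsq (0 : V) = 0 := by simp [rsq]
    rw [this]; simp
  rw [e x, e y]
  simp only [map_smul, LinearMap.smul_apply]
  rw [rsq_smul, rsq_smul, rsq_smul, rsq_smul]
  have h1 := h x y hx hy
  have h2 := mul_le_mul_of_nonneg_left h1
    (mul_nonneg (sq_nonneg (chi (K⁻¹ ^ 2 * rsq (om y)))) (sq_nonneg (chi (K⁻¹ ^ 2 * rsq (om x)))))
  linarith

include hom in
/-- The derivatives of the part above the threshold. -/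
theorem pd_cw {K : ℝ} (hK : 0 < K) (m i : Fin 3) (x : V) :
    (pd m (fun y => cw K om y i) x - chi (K⁻¹ ^ 2 * rsq (om x)) * pd m (fun y => om y i) x) ^ 2
      ≤ 16 * CQ ^ 2 * G2 om x ∧
    (2 * K ^ 2 < rsq (om x) → pd m (fun y => cw K om y i) x
      = chi (K⁻¹ ^ 2 * rsq (om x)) * pd m (fun y => om y i) x) := by
  have e1 : pd m (fun y => cw K om y i) x = chi (K⁻¹ ^ 2 * rsq (om x)) * pd m (fun y => om y i) x
      + pd m (fun x => chi (K⁻¹ ^ 2 * rsq (om x))) x * om x i :=
    pd_mul (sp_chi hom K) (hom i) m x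
  have e2 := pd_chi hom K m x
  set s := K⁻¹ ^ 2 * rsq (om x) with hs
  set S := ∑ j, om x j * pd m (fun y => om y j) x with hS
  have e3 : pd m (fun y => cw K om y i) x - chi s * pd m (fun y => om y i) x
      = deriv chi s * (K⁻¹ ^ 2 * (2 * S)) * om x i := by
    rw [e1, e2]; ring
  have hs2 : 2 * K ^ 2 < rsq (om x) → 2 < s := by
    intro h
    rw [hs, inv_pow, ← div_eq_inv_mul, lt_div_iff₀ (by positivity)]
    exact h
  refine ⟨?_, fun h => ?_⟩
  · rw [e3]
    rcases lt_or_ge (2 * K ^ 2) (rsq (om x)) with h | h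
    · rw [dchi_zero (hs2 h)]
      have := G2_nonneg om x
      have := CQ_nonneg
      ring_nf
      positivity
    · have hg : S ^ 2 ≤ rsq (om x) * G2 om x := by
        refine (cs3 (om x) (fun j => pd m (fun y => om y j) x)).trans
          (mul_le_mul_of_nonneg_left ?_ (rsq_nonneg _))
        unfold rsq G2 gr2
        refine Finset.sum_le_sum fun j _ => ?_
        exact Finset.single_le_sum (f := fun i => pd i (fun y => om y j) x ^ 2)
          (fun i _ => sq_nonneg _) (Finset.mem_univ m)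
      have h1 : deriv chi s ^ 2 ≤ CQ ^ 2 := by
        rw [← sq_abs]; exact pow_le_pow_left₀ (abs_nonneg _) (dchi_le s) 2
      have h2 := sq_le_rsq (om x) i
      have hr := rsq_nonneg (om x)
      have hG := G2_nonneg om x
      have h3 : rsq (om x) * om x i ^ 2 ≤ 2 * K ^ 2 * (2 * K ^ 2) :=
        mul_le_mul h (h2.trans h) (sq_nonneg _) (by positivity)
      have h4 : S ^ 2 * om x i ^ 2 ≤ 4 * K ^ 4 * G2 om x := by
        calc S ^ 2 * om x i ^ 2 ≤ rsq (om x) * G2 om x * om x i ^ 2 :=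
              mul_le_mul_of_nonneg_right hg (sq_nonneg _)
          _ = rsq (om x) * om x i ^ 2 * G2 om x := by ring
          _ ≤ 2 * K ^ 2 * (2 * K ^ 2) * G2 om x := mul_le_mul_of_nonneg_right h3 hG
          _ = _ := by ring
      calc (deriv chi s * (K⁻¹ ^ 2 * (2 * S)) * om x i) ^ 2
          = deriv chi s ^ 2 * (4 * K⁻¹ ^ 4 * (S ^ 2 * om x i ^ 2)) := by ring
        _ ≤ CQ ^ 2 * (4 * K⁻¹ ^ 4 * (4 * K ^ 4 * G2 om x)) := by
            refine mul_le_mul h1 ?_ (by positivity) (by positivity)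
            exact mul_le_mul_of_nonneg_left h4 (by positivity)
        _ = 16 * CQ ^ 2 * G2 om x := by field_simp; ring
  · have h1 : pd m (fun y => cw K om y i) x - chi s * pd m (fun y => om y i) x = 0 := by
      rw [e3, dchi_zero (hs2 h)]; ring
    linarith

include hom in
theorem G2_cw_le {K : ℝ} (hK : 0 < K) (x : V) :
    G2 (cw K om) x ≤ (2 + 288 * CQ ^ 2) * G2 om x := by
  have h1 : ∀ i m, pd m (fun y => cw K om y i) x ^ 2
      ≤ 2 * pd m (fun y => om y i) x ^ 2 + 32 * CQ ^ 2 * G2 om x := by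
    intro i m
    have h2 := (pd_cw hom hK m i x).1
    set a := pd m (fun y => cw K om y i) x
    set b := pd m (fun y => om y i) x
    set k := chi (K⁻¹ ^ 2 * rsq (om x)) with hk
    have hk0 : 0 ≤ k := chi_nonneg _
    have hk1 : k ≤ 1 := chi_le_one _
    have h3 : a ^ 2 ≤ 2 * (k * b) ^ 2 + 2 * (a - k * b) ^ 2 := by
      nlinarith [sq_nonneg (a - 2 * (k * b))]
    have h4 : (k * b) ^ 2 ≤ b ^ 2 := by
      rw [mul_pow]
      exact mul_le_of_le_one_left (sq_nonneg _) (pow_le_one₀ hk0 hk1)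
    linarith
  have h5 : G2 (cw K om) x ≤ ∑ i : Fin 3, ∑ m : Fin 3, (2 * pd m (fun y => om y i) x ^ 2
      + 32 * CQ ^ 2 * G2 om x) := by
    unfold G2 gr2
    exact Finset.sum_le_sum fun i _ => Finset.sum_le_sum fun m _ => h1 i m
  refine h5.trans (le_of_eq ?_)
  simp only [Finset.sum_add_distrib, Finset.sum_const, Finset.card_univ, Fintype.card_fin,
    nsmul_eq_mul]
  have h6 : ∑ i : Fin 3, ∑ m : Fin 3, 2 * pd m (fun y => om y i) x ^ 2 = 2 * G2 om x := by
    unfold G2 gr2
    rw [Finset.mul_sum]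
    exact Finset.sum_congr rfl fun i _ => by rw [Finset.mul_sum]
  rw [h6]
  push_cast
  ring

include hom in
/-- The divergence of the part above the threshold. -/
theorem dv_cw_le {K : ℝ} (hK : 0 < K) (hdiv : ∀ x, dv om x = 0) (x : V) :
    dv (cw K om) x ^ 2 ≤ 144 * CQ ^ 2 * G2 om x ∧
    (2 * K ^ 2 < rsq (om x) → dv (cw K om) x = 0) := by
  set k := chi (K⁻¹ ^ 2 * rsq (om x)) with hk
  have e1 : dv (cw K om) x = ∑ i, (pd i (fun y => cw K om y i) x - k * pd i (fun y => om y i) x) := by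
    rw [Finset.sum_sub_distrib, ← Finset.mul_sum]
    have := hdiv x
    unfold dv at this ⊢
    rw [this]; ring
  refine ⟨?_, fun h => ?_⟩
  · rw [e1]
    have h1 := Finset.sum_mul_sq_le_sq_mul_sq Finset.univ (fun _ : Fin 3 => (1 : ℝ))
      (fun i => pd i (fun y => cw K om y i) x - k * pd i (fun y => om y i) x)
    simp only [one_mul, one_pow, Finset.sum_const, Finset.card_univ, Fintype.card_fin,
      nsmul_eq_mul, mul_one] at h1
    refine h1.trans ?_
    have h2 : ∑ i, (pd i (fun y => cw K om y i) x - k * pd i (fun y => om y i) x) ^ 2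
        ≤ ∑ _i : Fin 3, 16 * CQ ^ 2 * G2 om x :=
      Finset.sum_le_sum fun i _ => (pd_cw hom hK i i x).1
    simp only [Finset.sum_const, Finset.card_univ, Fintype.card_fin, nsmul_eq_mul] at h2
    push_cast at h2 ⊢
    linarith
  · rw [e1]
    refine Finset.sum_eq_zero fun i _ => ?_
    rw [(pd_cw hom hK i i x).2 h]
    ring

end

end Pool.Agent.R210
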