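import Pool.Agent.R210.Cut

/-!
The vorticity equation and the dissipation at bounded vorticity.
-/

open MeasureTheory Set Metric Filter Topology
open scoped ContDiff ENNReal
open H459R3.NS

namespace Pool.Agent.R210

section

variable {ν T : ℝ} {u : ℝ → V → V} {p : ℝ → V → ℝ}

/-- The two indices of the component `i` of the curl. -/
def ia (i : Fin 3) : Fin 3 := ![1, 2, 0] i
/-- The two indices of the component `i` of the curl. -/
def ib (i : Fin 3) : Fin 3 := ![2, 0, 1] i

theorem cu_ab (F : V → V) (x : V) (i : Fin 3) :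
    cu F x i = pd (ia i) (fun y => F y (ib i)) x - pd (ib i) (fun y => F y (ia i)) x := by
  fin_cases i <;> rfl

theorem cu_fun (F : V → V) (i : Fin 3) :
    (fun x => cu F x i)
      = fun x => pd (ia i) (fun y => F y (ib i)) x - pd (ib i) (fun y => F y (ia i)) x :=
  funext fun x => cu_ab F x i

theorem smooth_cu (h : IsSol ν T u p) (i : Fin 3) :
    ContDiffOn ℝ ∞ (fun z : ℝ × V => cu (u z.1) z.2 i) (Ico 0 T ×ˢ univ) := by
  have e : (fun z : ℝ × V => cu (u z.1) z.2 i)
      = fun z : ℝ × V => pd (ia i) (fun y => u z.1 y (ib i)) z.2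
        - pd (ib i) (fun y => u z.1 y (ia i)) z.2 := by
    funext z
    exact cu_ab _ _ _
  rw [e]
  exact (contDiffOn_pd (f := fun s y => u s y (ib i)) (h.smooth_c _) _).sub
    (contDiffOn_pd (f := fun s y => u s y (ia i)) (h.smooth_c _) _)

theorem hasDerivAt_pd (h : IsSol ν T u p) {t : ℝ} (ht : t ∈ Ioo 0 T) (a b : Fin 3) (x : V) :
    HasDerivAt (fun s => pd a (fun y => u s y b) x)
      (ν * lap (pd a (fun y => u t y b)) x
        - (∑ j, (u t x j * pd j (pd a (fun y => u t y b)) x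
          + pd a (fun y => u t y j) x * pd j (fun y => u t y b) x))
        - pd a (pd b (p t)) x) t := by
  have hI : t ∈ Ico 0 T := ⟨ht.1.le, ht.2⟩
  set v : Fin 3 → V → ℝ := fun i y => u t y i with hv
  have hsp : ∀ i, SP (v i) := fun i => h.sp hI i
  have hG : ContDiffOn ℝ ∞ (fun z : ℝ × V => pd a (fun y => u z.1 y b) z.2)
      (Ico 0 T ×ˢ univ) := contDiffOn_pd (f := fun s y => u s y b) (h.smooth_c b) a
  have hG1 : ContDiffOn ℝ 1 (fun z : ℝ × V => pd a (fun y => u z.1 y b) z.2)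
      (Ioo 0 T ×ˢ univ) :=
    mono_Ioo (f := fun s x => pd a (fun y => u s y b) x) hG (by norm_cast)
  have h3 := hasDerivAt_slice (F := fun s x => pd a (fun y => u s y b) x) hG1 ht x
  have h4 := dt_pd (f := fun s y => u s y b) (h.smooth_c b) ht a x
  rw [H459R3.NS.dt_eq (f := fun s => pd a (fun y => u s y b)) hG ht x] at h4
  rw [h4] at h3
  refine h3.congr_deriv ?_
  have e1 : dt (fun s y => u s y b) t = fun x => ν * lap (v b) x - conv v b x - pd b (p t) x :=
    funext fun x => h.dt_eq ht b x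
  rw [e1]
  have s1 : SP (fun x => ν * lap (v b) x) := sp_cmul ν (hsp b).lap
  have s2 : SP (conv v b) := sp_conv hsp b
  have s3 : SP (pd b (p t)) := (h.sp_p hI).pd b
  rw [pd_sub' (s1.sub s2) s3, pd_sub' s1 s2, pd_cmul ν (hsp b).lap]
  have e2 : pd a (lap (v b)) x = lap (pd a (v b)) x := by rw [lap_pd (hsp b)]
  have e3 : pd a (conv v b) x = ∑ j, (v j x * pd j (pd a (v b)) x + pd a (v j) x * pd j (v b) x) := by
    unfold conv
    rw [pd_sum (fun j _ => (hsp j).mul ((hsp b).pd j)) a x]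
    refine Finset.sum_congr rfl fun j _ => ?_
    rw [pd_mul (hsp j) ((hsp b).pd j), pd_comm (hsp b) a j]
  rw [e2, e3]

theorem lap_sub' {f g : V → ℝ} (hf : SP f) (hg : SP g) (x : V) :
    lap (fun y => f y - g y) x = lap f x - lap g x := by
  unfold lap
  rw [← Finset.sum_sub_distrib]
  refine Finset.sum_congr rfl fun j _ => ?_
  have : pd j (fun y => f y - g y) = fun y => pd j f y - pd j g y :=
    funext fun y => pd_sub' hf hg j y
  rw [this, pd_sub' (hf.pd j) (hg.pd j)]

/-- The vorticity equation. -/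
theorem vort_eq (h : IsSol ν T u p) {t : ℝ} (ht : t ∈ Ioo 0 T) (i : Fin 3) (x : V) :
    HasDerivAt (fun s => cu (u s) x i)
      (ν * lap (fun y => cu (u t) y i) x - (∑ j, u t x j * pd j (fun y => cu (u t) y i) x)
        + ∑ j, cu (u t) x j * pd j (fun y => u t y i) x) t := by
  have hI : t ∈ Ico 0 T := ⟨ht.1.le, ht.2⟩
  have hsp : ∀ i, SP (fun y => u t y i) := fun i => h.sp hI i
  have hdiv : ∑ i, pd i (fun y => u t y i) x = 0 := h.divfree t hI x
  have e0 : (fun s => cu (u s) x i) = fun s => pd (ia i) (fun y => u s y (ib i)) x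
      - pd (ib i) (fun y => u s y (ia i)) x := funext fun s => cu_ab _ _ _
  rw [e0]
  refine ((hasDerivAt_pd h ht (ia i) (ib i) x).sub (hasDerivAt_pd h ht (ib i) (ia i) x)).congr_deriv
    ?_
  have e1 : lap (fun y => cu (u t) y i) x = lap (pd (ia i) (fun y => u t y (ib i))) x
      - lap (pd (ib i) (fun y => u t y (ia i))) x := by
    rw [cu_fun]
    exact lap_sub' ((hsp _).pd _) ((hsp _).pd _) x
  have e2 : ∀ j, pd j (fun y => cu (u t) y i) x = pd j (pd (ia i) (fun y => u t y (ib i))) x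
      - pd j (pd (ib i) (fun y => u t y (ia i))) x := by
    intro j
    rw [cu_fun]
    exact pd_sub' ((hsp _).pd _) ((hsp _).pd _) j x
  have e3 : pd (ia i) (pd (ib i) (p t)) x = pd (ib i) (pd (ia i) (p t)) x :=
    congrFun (pd_comm (h.sp_p hI) _ _) x
  rw [e1, e3]
  simp_rw [e2]
  set M : Fin 3 → Fin 3 → ℝ := fun a b => pd a (fun y => u t y b) x with hM
  have e4 : ∀ j, cu (u t) x j = M (ia j) (ib j) - M (ib j) (ia j) := fun j => cu_ab _ _ _
  simp_rw [e4]
  have hd : M 0 0 + M 1 1 + M 2 2 = 0 := by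
    rw [Fin.sum_univ_three] at hdiv
    exact hdiv
  have key : (∑ j, (M (ia i) j * M j (ib i))) - (∑ j, (M (ib i) j * M j (ia i)))
      = -∑ j, (M (ia j) (ib j) - M (ib j) (ia j)) * M j i := by
    fin_cases i
    · simp only [Fin.sum_univ_three]
      show (M 1 0 * M 0 2 + M 1 1 * M 1 2 + M 1 2 * M 2 2)
        - (M 2 0 * M 0 1 + M 2 1 * M 1 1 + M 2 2 * M 2 1)
        = -((M 1 2 - M 2 1) * M 0 0 + (M 2 0 - M 0 2) * M 1 0 + (M 0 1 - M 1 0) * M 2 0)
      linear_combination (M 1 2 - M 2 1) * hd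
    · simp only [Fin.sum_univ_three]
      show (M 2 0 * M 0 0 + M 2 1 * M 1 0 + M 2 2 * M 2 0)
        - (M 0 0 * M 0 2 + M 0 1 * M 1 2 + M 0 2 * M 2 2)
        = -((M 1 2 - M 2 1) * M 0 1 + (M 2 0 - M 0 2) * M 1 1 + (M 0 1 - M 1 0) * M 2 1)
      linear_combination (M 2 0 - M 0 2) * hd
    · simp only [Fin.sum_univ_three]
      show (M 0 0 * M 0 1 + M 0 1 * M 1 1 + M 0 2 * M 2 1)
        - (M 1 0 * M 0 0 + M 1 1 * M 1 0 + M 1 2 * M 2 0)
        = -((M 1 2 - M 2 1) * M 0 2 + (M 2 0 - M 0 2) * M 1 2 + (M 0 1 - M 1 0) * M 2 2)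
      linear_combination (M 0 1 - M 1 0) * hd
  have e5 : ∑ j, u t x j * (pd j (pd (ia i) (fun y => u t y (ib i))) x
      - pd j (pd (ib i) (fun y => u t y (ia i))) x)
      = (∑ j, u t x j * pd j (pd (ia i) (fun y => u t y (ib i))) x)
        - ∑ j, u t x j * pd j (pd (ib i) (fun y => u t y (ia i))) x := by
    rw [← Finset.sum_sub_distrib]
    exact Finset.sum_congr rfl fun j _ => by ring
  rw [e5, Finset.sum_add_distrib, Finset.sum_add_distrib]
  have k2 : (∑ j, pd (ia i) (fun y => u t y j) x * pd j (fun y => u t y (ib i)) x)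
      = ∑ j, (M (ia i) j * M j (ib i)) := rfl
  have k3 : (∑ j, pd (ib i) (fun y => u t y j) x * pd j (fun y => u t y (ia i)) x)
      = ∑ j, (M (ib i) j * M j (ia i)) := rfl
  have k4 : ∑ j, (M (ia j) (ib j) - M (ib j) (ia j)) * pd j (fun y => u t y i) x
      = ∑ j, (M (ia j) (ib j) - M (ib j) (ia j)) * M j i := rfl
  rw [k2, k3, k4]
  linarith

/-- The convex function. -/
noncomputable def hf (r : ℝ) : ℝ := Real.sqrt (1 + r ^ 2)

theorem hf_smooth : ContDiff ℝ ∞ hf := by
  unfold hf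
  refine ContDiff.sqrt (contDiff_const.add (contDiff_id.pow 2)) fun r => ?_
  positivity

theorem hf_nonneg (r : ℝ) : 0 ≤ hf r := Real.sqrt_nonneg _

theorem hf_pos (r : ℝ) : 0 < hf r := Real.sqrt_pos.2 (by positivity)

theorem hf_sq (r : ℝ) : hf r ^ 2 = 1 + r ^ 2 := Real.sq_sqrt (by positivity)

theorem hasDerivAt_hf (r : ℝ) : HasDerivAt hf (r / hf r) r := by
  have h1 : HasDerivAt (fun r : ℝ => 1 + r ^ 2) (2 * r) r := by
    simpa using ((hasDerivAt_id r).pow 2).const_add 1
  have h2 := h1.sqrt (by positivity : (1 : ℝ) + r ^ 2 ≠ 0)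
  refine h2.congr_deriv ?_
  show 2 * r / (2 * hf r) = r / hf r
  have := hf_pos r
  field_simp

theorem deriv_hf (r : ℝ) : deriv hf r = r / hf r := (hasDerivAt_hf r).deriv

theorem hasDerivAt_dhf (r : ℝ) : HasDerivAt (deriv hf) (1 / hf r ^ 3) r := by
  have h0 := hf_pos r
  have h1 : deriv hf = fun r => r / hf r := funext deriv_hf
  rw [h1]
  have h2 : HasDerivAt (fun r : ℝ => r / hf r) _ r :=
    (hasDerivAt_id r).div (hasDerivAt_hf r) h0.ne'
  refine h2.congr_deriv ?_
  have h3 := hf_sq r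
  simp only [id]
  rw [div_eq_div_iff (by positivity) (by positivity)]
  field_simp
  linarith [h3]

theorem dhf_smooth : ContDiff ℝ ∞ (deriv hf) := by
  have := contDiff_infty_iff_deriv.1 hf_smooth
  exact this.2

theorem abs_dhf_le (r : ℝ) : |deriv hf r| ≤ 1 := by
  rw [deriv_hf, abs_div, abs_of_pos (hf_pos r), div_le_one (hf_pos r)]
  refine abs_le_of_sq_le_sq ?_ (hf_nonneg r)
  rw [hf_sq]; linarith

/-- The dissipation. -/
noncomputable def Dis (v : V → V) : ℝ :=
  ∑ i, ∫ x in cube, 1 / hf (cu v x i) ^ 3 * gr2 (fun y => cu v y i) x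

theorem Dis_nonneg (v : V → V) : 0 ≤ Dis v :=
  Finset.sum_nonneg fun i _ => integral_nonneg fun x => by
    have := hf_pos (cu v x i)
    have := gr2_nonneg (fun y => cu v y i) x
    positivity

/-- The total of the convex function. -/
noncomputable def EH (v : V → V) : ℝ := ∑ i, ∫ x in cube, hf (cu v x i)

theorem EH_nonneg (v : V → V) : 0 ≤ EH v :=
  Finset.sum_nonneg fun i _ => integral_nonneg fun x => hf_nonneg _

theorem rsq_cu_le (v : V → V) (x : V) :
    rsq (cu v x) ≤ 2 * ∑ i, ∑ j, pd j (fun y => v y i) x ^ 2 := by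
  unfold rsq
  rw [Fin.sum_univ_three]
  simp only [Fin.sum_univ_three]
  show (pd 1 (fun y => v y 2) x - pd 2 (fun y => v y 1) x) ^ 2
    + (pd 2 (fun y => v y 0) x - pd 0 (fun y => v y 2) x) ^ 2
    + (pd 0 (fun y => v y 1) x - pd 1 (fun y => v y 0) x) ^ 2 ≤ _
  nlinarith [sq_nonneg (pd 1 (fun y => v y 2) x + pd 2 (fun y => v y 1) x),
    sq_nonneg (pd 2 (fun y => v y 0) x + pd 0 (fun y => v y 2) x),
    sq_nonneg (pd 0 (fun y => v y 1) x + pd 1 (fun y => v y 0) x),
    sq_nonneg (pd 0 (fun y => v y 0) x), sq_nonneg (pd 1 (fun y => v y 1) x),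
    sq_nonneg (pd 2 (fun y => v y 2) x)]

theorem int_grad {v : V → V} (hv : ∀ i, SP (fun x => v x i)) :
    ∫ x in cube, ∑ i, ∑ j, pd j (fun y => v y i) x ^ 2 = enstrophy v := by
  have hs : ∀ i j, IntegrableOn (fun x => pd j (fun y => v y i) x ^ 2) cube := fun i j =>
    integrableOn_cube (((hv i).pd j).cont.pow 2)
  unfold enstrophy
  rw [integral_finsetSum _ fun i _ => integrable_finsetSum _ fun j _ => hs i j]
  refine Finset.sum_congr rfl fun i _ => ?_
  exact integral_finsetSum _ fun j _ => hs i j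

theorem int_rsq_cu {v : V → V} (hv : ∀ i, SP (fun x => v x i)) :
    ∫ x in cube, rsq (cu v x) ≤ 2 * enstrophy v := by
  rw [← int_grad hv, ← integral_const_mul]
  refine setIntegral_mono (sp_rsq (sp_cu hv)).int ?_ fun x => rsq_cu_le v x
  exact integrableOn_cube (continuous_const.mul (continuous_finsetSum _ fun i _ =>
    continuous_finsetSum _ fun j _ => ((hv i).pd j).cont.pow 2))

end

end Pool.Agent.R210
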