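import Pool.Agent.R210.Diss

/-!
The bound of the dissipation at bounded vorticity.
-/

open MeasureTheory Set Metric Filter Topology
open scoped ContDiff ENNReal
open H459R3.NS

namespace Pool.Agent.R210

variable {ν T : ℝ} {u : ℝ → V → V} {p : ℝ → V → ℝ}

theorem ddhf (r : ℝ) : deriv (deriv hf) r = 1 / hf r ^ 3 := (hasDerivAt_dhf r).deriv

theorem EH_hasDerivAt (h : IsSol ν T u p) {t : ℝ} (ht : t ∈ Ioo 0 T) :
    HasDerivAt (fun s => EH (u s)) (-(ν * Dis (u t))
      + ∑ i, ∫ x in cube, deriv hf (cu (u t) x i)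
        * ∑ j, cu (u t) x j * pd j (fun y => u t y i) x) t := by
  have hI : t ∈ Ico 0 T := ⟨ht.1.le, ht.2⟩
  have hsp : ∀ i, SP (fun y => u t y i) := fun i => h.sp hI i
  have hom : ∀ i, SP (fun y => cu (u t) y i) := sp_cu hsp
  have hdiv : ∀ x, ∑ i, pd i (fun y => u t y i) x = 0 := h.divfree t hI
  have h1 : ∀ i, HasDerivAt (fun s => ∫ x in cube, hf (cu (u s) x i))
      (-(ν * ∫ x in cube, 1 / hf (cu (u t) x i) ^ 3 * gr2 (fun y => cu (u t) y i) x)
        + ∫ x in cube, deriv hf (cu (u t) x i)
        * ∑ j, cu (u t) x j * pd j (fun y => u t y i) x) t := by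
    intro i
    have hF : ContDiffOn ℝ 1 (fun z : ℝ × V => hf (cu (u z.1) z.2 i)) (Ioo 0 T ×ˢ univ) :=
      (hf_smooth.of_le (by norm_cast)).comp_contDiffOn
        (mono_Ioo (f := fun s y => cu (u s) y i) (smooth_cu h i) (by norm_cast))
    have key := hasDerivAt_int (F := fun s x => hf (cu (u s) x i)) hF ht
    refine key.congr_deriv ?_
    have e1 : ∀ x, deriv (fun s => hf (cu (u s) x i)) t
        = ν * (lap (fun y => cu (u t) y i) x * deriv hf (cu (u t) x i))
          - (∑ j, u t x j * pd j (fun y => hf (cu (u t) y i)) x)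
          + deriv hf (cu (u t) x i) * ∑ j, cu (u t) x j * pd j (fun y => u t y i) x := by
      intro x
      have h2 := (hasDerivAt_hf (cu (u t) x i)).comp t (vort_eq h ht i x)
      have h3 : deriv (fun s => hf (cu (u s) x i)) t = _ := h2.deriv
      rw [h3, ← deriv_hf]
      have e2 : ∀ j, pd j (fun y => hf (cu (u t) y i)) x
          = deriv hf (cu (u t) x i) * pd j (fun y => cu (u t) y i) x := fun j =>
        pd_comp hf_smooth (hom i) j x
      simp_rw [e2]
      have e3 : ∑ j, u t x j * (deriv hf (cu (u t) x i) * pd j (fun y => cu (u t) y i) x)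
          = deriv hf (cu (u t) x i) * ∑ j, u t x j * pd j (fun y => cu (u t) y i) x := by
        rw [Finset.mul_sum]
        exact Finset.sum_congr rfl fun j _ => by ring
      rw [e3]
      ring
    simp_rw [e1]
    have s1 : SP (fun x => deriv hf (cu (u t) x i)) := sp_comp dhf_smooth (hom i)
    have s2 : SP (fun x => hf (cu (u t) x i)) := sp_comp hf_smooth (hom i)
    have i1 : IntegrableOn (fun x => ν * (lap (fun y => cu (u t) y i) x
        * deriv hf (cu (u t) x i))) cube := ((hom i).lap.mul s1).int.const_mul ν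
    have i2 : IntegrableOn (fun x => ∑ j, u t x j * pd j (fun y => hf (cu (u t) y i)) x) cube :=
      (SP.sum fun j _ => (hsp j).mul (s2.pd j)).int
    have i3 : IntegrableOn (fun x => deriv hf (cu (u t) x i)
        * ∑ j, cu (u t) x j * pd j (fun y => u t y i) x) cube :=
      (s1.mul (SP.sum fun j _ => (hom j).mul ((hsp i).pd j))).int
    have i12 : IntegrableOn (fun x => ν * (lap (fun y => cu (u t) y i) x
        * deriv hf (cu (u t) x i)) - ∑ j, u t x j * pd j (fun y => hf (cu (u t) y i)) x) cube :=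
      i1.sub i2
    rw [integral_add i12 i3, integral_sub i1 i2, integral_const_mul,
      int_lap_mul (hom i) s1]
    have e4 : ∫ x in cube, ∑ j, u t x j * pd j (fun y => hf (cu (u t) y i)) x = 0 := by
      rw [integral_finsetSum _ fun j _ => ((hsp j).mul (s2.pd j)).int]
      exact int_press (v := fun i y => u t y i) hsp hdiv s2
    have e5 : ∑ j, ∫ x in cube, pd j (fun y => cu (u t) y i) x
        * pd j (fun x => deriv hf (cu (u t) x i)) x
        = ∫ x in cube, 1 / hf (cu (u t) x i) ^ 3 * gr2 (fun y => cu (u t) y i) x := by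
      rw [← integral_finsetSum _ fun j _ => (((hom i).pd j).mul (s1.pd j)).int]
      congr 1
      funext x
      unfold gr2
      rw [Finset.mul_sum]
      refine Finset.sum_congr rfl fun j _ => ?_
      rw [pd_comp dhf_smooth (hom i), ddhf]
      ring
    rw [e4, e5]
    ring
  have h2 : HasDerivAt (fun s => EH (u s)) _ t := HasDerivAt.fun_sum fun i _ => h1 i
  refine h2.congr_deriv ?_
  rw [Finset.sum_add_distrib, Finset.sum_neg_distrib, ← Finset.mul_sum]
  rfl

theorem stretch_le (h : IsSol ν T u p) {t : ℝ} (ht : t ∈ Ioo 0 T) :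
    ∑ i, ∫ x in cube, deriv hf (cu (u t) x i)
        * ∑ j, cu (u t) x j * pd j (fun y => u t y i) x ≤ 4 * enstrophy (u t) := by
  have hI : t ∈ Ico 0 T := ⟨ht.1.le, ht.2⟩
  have hsp : ∀ i, SP (fun y => u t y i) := fun i => h.sp hI i
  have hom : ∀ i, SP (fun y => cu (u t) y i) := sp_cu hsp
  have s1 : ∀ i, SP (fun x => deriv hf (cu (u t) x i)
        * ∑ j, cu (u t) x j * pd j (fun y => u t y i) x) := fun i =>
    (sp_comp dhf_smooth (hom i)).mul (SP.sum fun j _ => (hom j).mul ((hsp i).pd j))
  rw [← integral_finsetSum _ fun i _ => (s1 i).int]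
  have hg := int_grad hsp
  have hc2 : Continuous fun x => ∑ i, ∑ j, pd j (fun y => u t y i) x ^ 2 :=
    continuous_finsetSum _ fun i _ => continuous_finsetSum _ fun j _ => ((hsp i).pd j).cont.pow 2
  have i1 : IntegrableOn (fun x => ∑ i, ∑ j, pd j (fun y => u t y i) x ^ 2) cube :=
    integrableOn_cube hc2
  have i2 : IntegrableOn (fun x => rsq (cu (u t) x)) cube := (sp_rsq hom).int
  have h1 : ∫ x in cube, ∑ i, deriv hf (cu (u t) x i)
        * ∑ j, cu (u t) x j * pd j (fun y => u t y i) x
      ≤ ∫ x in cube, (3 / 2 * rsq (cu (u t) x)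
        + 1 / 2 * ∑ i, ∑ j, pd j (fun y => u t y i) x ^ 2) := by
    refine setIntegral_mono (SP.sum fun i _ => s1 i).int
      ((i2.const_mul _).add (i1.const_mul _)) fun x => ?_
    have h2 : ∀ i, deriv hf (cu (u t) x i) * ∑ j, cu (u t) x j * pd j (fun y => u t y i) x
        ≤ ∑ j, (1 / 2 * cu (u t) x j ^ 2 + 1 / 2 * pd j (fun y => u t y i) x ^ 2) := by
      intro i
      rw [Finset.mul_sum]
      refine Finset.sum_le_sum fun j _ => ?_
      have h3 := abs_le.1 (abs_dhf_le (cu (u t) x i))
      set d := deriv hf (cu (u t) x i)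
      set a := cu (u t) x j
      set b := pd j (fun y => u t y i) x
      have h4 : d * (a * b) ≤ |a * b| := by
        calc d * (a * b) ≤ |d * (a * b)| := le_abs_self _
          _ = |d| * |a * b| := abs_mul _ _
          _ ≤ 1 * |a * b| := mul_le_mul_of_nonneg_right (abs_dhf_le _) (abs_nonneg _)
          _ = |a * b| := one_mul _
      refine h4.trans ?_
      rw [abs_le]
      constructor
      · nlinarith [sq_nonneg (a + b)]
      · nlinarith [sq_nonneg (a - b)]
    refine (Finset.sum_le_sum fun i _ => h2 i).trans (le_of_eq ?_)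
    simp only [rsq, Fin.sum_univ_three]
    ring
  have h5 : ∫ x in cube, (3 / 2 * rsq (cu (u t) x)
        + 1 / 2 * ∑ i, ∑ j, pd j (fun y => u t y i) x ^ 2)
      = 3 / 2 * (∫ x in cube, rsq (cu (u t) x)) + 1 / 2 * enstrophy (u t) := by
    have j1 : IntegrableOn (fun x => 3 / 2 * rsq (cu (u t) x)) cube := i2.const_mul _
    have j2 : IntegrableOn (fun x => 1 / 2 * ∑ i, ∑ j, pd j (fun y => u t y i) x ^ 2) cube :=
      i1.const_mul _
    rw [integral_add j1 j2, integral_const_mul, integral_const_mul, hg]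
  have h6 := int_rsq_cu hsp
  have h7 := enstrophy_nonneg (u t)
  linarith

theorem smooth_pd_cu (h : IsSol ν T u p) (i j : Fin 3) :
    ContDiffOn ℝ ∞ (fun z : ℝ × V => pd j (fun y => cu (u z.1) y i) z.2) (Ico 0 T ×ˢ univ) :=
  contDiffOn_pd (f := fun s y => cu (u s) y i) (smooth_cu h i) j

theorem Dis_continuousOn (h : IsSol ν T u p) : ContinuousOn (fun s => Dis (u s)) (Ico 0 T) := by
  unfold Dis
  refine continuousOn_finsetSum _ fun i _ => ?_
  refine continuousOn_int (F := fun s x => 1 / hf (cu (u s) x i) ^ 3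
    * gr2 (fun y => cu (u s) y i) x) ?_
  refine ContinuousOn.mul ?_ ?_
  · refine continuousOn_const.div ?_ fun z _ => (pow_pos (hf_pos _) 3).ne'
    exact (hf_smooth.continuous.comp_continuousOn (smooth_cu h i).continuousOn).pow 3
  · unfold gr2
    exact continuousOn_finsetSum _ fun j _ => (smooth_pd_cu h i j).continuousOn.pow 2

theorem EH_continuousOn (h : IsSol ν T u p) : ContinuousOn (fun s => EH (u s)) (Ico 0 T) := by
  unfold EH
  refine continuousOn_finsetSum _ fun i _ => ?_
  exact continuousOn_int (F := fun s x => hf (cu (u s) x i))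
    (hf_smooth.continuous.comp_continuousOn (smooth_cu h i).continuousOn)

/-- The dissipation at bounded vorticity is integrable in time. -/
theorem int_Dis (h : IsSol ν T u p) (hν : 0 < ν) {t : ℝ} (ht : t ∈ Ico 0 T) :
    ∫ s in (0 : ℝ)..t, Dis (u s) ≤ (EH (u 0) + 4 * ∫ s in (0 : ℝ)..t, enstrophy (u s)) / ν := by
  have hsub : Icc 0 t ⊆ Ico 0 T := fun s hs => ⟨hs.1, hs.2.trans_lt ht.2⟩
  have hDc : ContinuousOn (fun s => Dis (u s)) (Icc 0 t) := (Dis_continuousOn h).mono hsub
  have hyc : ContinuousOn (fun s => enstrophy (u s)) (Icc 0 t) :=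
    h.enstrophy_continuousOn.mono hsub
  have i1 : IntervalIntegrable (fun s => Dis (u s)) volume 0 t :=
    (intervalIntegrable_iff_integrableOn_Icc_of_le ht.1).2 hDc.integrableOn_Icc
  have i2 : IntervalIntegrable (fun s => enstrophy (u s)) volume 0 t :=
    (intervalIntegrable_iff_integrableOn_Icc_of_le ht.1).2 hyc.integrableOn_Icc
  have hg1 : IntegrableOn (fun s => -(ν * Dis (u s)) + 4 * enstrophy (u s)) (Icc 0 t) :=
    ((hDc.integrableOn_Icc.const_mul ν).neg).add (hyc.integrableOn_Icc.const_mul 4)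
  have h1 := intervalIntegral.sub_le_integral_of_hasDeriv_right_of_le ht.1
    ((EH_continuousOn h).mono hsub)
    (fun s hs => (EH_hasDerivAt h ⟨hs.1, hs.2.trans ht.2⟩).hasDerivWithinAt) hg1
    (fun s hs => by
      have := stretch_le h (t := s) ⟨hs.1, hs.2.trans ht.2⟩
      linarith)
  have j1 : IntervalIntegrable (fun s => -(ν * Dis (u s))) volume 0 t := (i1.const_mul ν).neg
  have j2 : IntervalIntegrable (fun s => 4 * enstrophy (u s)) volume 0 t := i2.const_mul 4
  rw [intervalIntegral.integral_add j1 j2, intervalIntegral.integral_neg,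
    intervalIntegral.integral_const_mul, intervalIntegral.integral_const_mul] at h1
  have h2 := EH_nonneg (u t)
  rw [le_div_iff₀ hν]
  linarith

end Pool.Agent.R210
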