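import Pool.Agent.R210.Comb

/-!
The criterion: the direction of the vorticity is Hoelder continuous with exponent at least `1/3`.
-/

open MeasureTheory Set Metric Filter Topology
open scoped ContDiff ENNReal
open H459R3.NS

namespace Pool.Agent.R210

theorem cub_bound {v : V → V} (hv : ∀ i, SP (fun x => v x i)) :
    ∃ M : ℝ, 0 ≤ M ∧ -(2 * cub (fun i y => v y i)) ≤ M * enstrophy v := by
  have hc : Continuous fun x => ∑ i, ∑ m, |pd m (fun y => v y i) x| :=
    continuous_finsetSum _ fun i _ => continuous_finsetSum _ fun m _ => ((hv i).pd m).cont.abs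
  obtain ⟨C, hC⟩ := (isCompact_Icc (a := (0 : V)) (b := 1)).exists_bound_of_continuousOn
    hc.continuousOn
  have hC' : ∀ x ∈ cube, ∀ i m, |pd m (fun y => v y i) x| ≤ C := by
    intro x hx i m
    refine le_trans ?_ ((le_abs_self _).trans (hC x hx))
    refine le_trans ?_ (Finset.single_le_sum (f := fun i => ∑ m, |pd m (fun y => v y i) x|)
      (fun i _ => Finset.sum_nonneg fun m _ => abs_nonneg _) (Finset.mem_univ i))
    exact Finset.single_le_sum (f := fun m => |pd m (fun y => v y i) x|)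
      (fun m _ => abs_nonneg _) (Finset.mem_univ m)
  have hC0 : 0 ≤ C := (abs_nonneg _).trans (hC' 0 ⟨le_rfl, zero_le_one⟩ 0 0)
  have hy := enstrophy_nonneg v
  have hterm : ∀ i j m : Fin 3, |∫ x in cube, pd m (fun y => v y i) x
      * (pd i (fun y => v y j) x * pd m (fun y => v y j) x)| ≤ C * enstrophy v := by
    intro i j m
    have j1 : IntegrableOn (fun x => pd i (fun y => v y j) x ^ 2) cube :=
      integrableOn_cube (((hv j).pd i).cont.pow 2)
    have j2 : IntegrableOn (fun x => pd m (fun y => v y j) x ^ 2) cube :=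
      integrableOn_cube (((hv j).pd m).cont.pow 2)
    have h1 : |∫ x in cube, pd m (fun y => v y i) x
        * (pd i (fun y => v y j) x * pd m (fun y => v y j) x)|
        ≤ ∫ x in cube, (C / 2 * pd i (fun y => v y j) x ^ 2
          + C / 2 * pd m (fun y => v y j) x ^ 2) := by
      rw [← Real.norm_eq_abs]
      refine norm_integral_le_of_norm_le ((j1.const_mul _).add (j2.const_mul _)) ?_
      refine (ae_restrict_iff' measurableSet_Icc).2 (Filter.Eventually.of_forall fun x hx => ?_)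
      rw [Real.norm_eq_abs, abs_mul, abs_mul]
      have h2 := hC' x hx i m
      set a := |pd i (fun y => v y j) x| with ha
      set b := |pd m (fun y => v y j) x| with hb
      have ha2 : pd i (fun y => v y j) x ^ 2 = a ^ 2 := (sq_abs _).symm
      have hb2 : pd m (fun y => v y j) x ^ 2 = b ^ 2 := (sq_abs _).symm
      rw [ha2, hb2]
      have ha0 : 0 ≤ a := abs_nonneg _
      have hb0 : 0 ≤ b := abs_nonneg _
      have h3 : |pd m (fun y => v y i) x| * (a * b) ≤ C * (a * b) :=
        mul_le_mul_of_nonneg_right h2 (by positivity)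
      have h4 : 0 ≤ C * (a - b) ^ 2 := by positivity
      nlinarith
    rw [integral_add (j1.const_mul _) (j2.const_mul _), integral_const_mul,
      integral_const_mul] at h1
    have h5 := mul_le_mul_of_nonneg_left (en_term_le v i j) (by positivity : 0 ≤ C / 2)
    have h6 := mul_le_mul_of_nonneg_left (en_term_le v m j) (by positivity : 0 ≤ C / 2)
    linarith
  refine ⟨54 * C, by positivity, ?_⟩
  have h1 : |cub (fun i y => v y i)| ≤ 27 * (C * enstrophy v) := by
    unfold cub
    refine (Pool.Agent.W268.NS.abs_sum3 fun i => Pool.Agent.W268.NS.abs_sum3 fun j =>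
      Pool.Agent.W268.NS.abs_sum3 fun m => hterm i j m).trans (le_of_eq ?_)
    ring
  have h2 := (abs_le.1 h1).1
  linarith

/-- The majorant of the constant. -/
theorem exists_m0 {β T : ℝ} (hβ : 1 / 3 ≤ β) {c : ℝ → ℝ}
    (hc : MemLp c (6 / ENNReal.ofReal (3 * β - 1)) (volume.restrict (Ioo 0 T))) :
    ∃ (m0 : ℝ → ℝ) (B : ℝ), 0 ≤ B ∧ (∀ t, 1 ≤ m0 t) ∧ IntegrableOn m0 (Ioo 0 T) ∧
      ∀ᵐ t ∂volume.restrict (Ioo 0 T), max |c t| 1 ≤ B * m0 t ^ ((3 * β - 1) / 6) := by
  rcases hβ.eq_or_lt with h | h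
  · have e1 : 3 * β - 1 = 0 := by rw [← h]; norm_num
    rw [e1] at hc ⊢
    simp only [ENNReal.ofReal_zero] at hc
    rw [ENNReal.div_zero (by norm_num)] at hc
    refine ⟨fun _ => 1, max (eLpNorm c ⊤ (volume.restrict (Ioo 0 T))).toReal 1, by positivity,
      fun _ => le_rfl, by simp [integrableOn_const_iff], ?_⟩
    have h1 := ae_le_eLpNormEssSup (f := c) (μ := volume.restrict (Ioo 0 T))
    filter_upwards [h1] with t ht
    rw [zero_div, Real.rpow_zero, mul_one]
    refine max_le_max ?_ le_rfl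
    have h2 : ‖c t‖ₑ ≤ eLpNorm c ⊤ (volume.restrict (Ioo 0 T)) := by
      rw [eLpNorm_exponent_top]; exact ht
    have h3 := (ENNReal.toReal_le_toReal (by simp) hc.eLpNorm_ne_top).2 h2
    rwa [toReal_enorm, Real.norm_eq_abs] at h3
  · have ha : 0 < 3 * β - 1 := by linarith
    set a : ℝ := 6 / (3 * β - 1) with hadef
    have ha0 : 0 < a := by positivity
    have e1 : 6 / ENNReal.ofReal (3 * β - 1) = ENNReal.ofReal a := by
      rw [hadef, ENNReal.ofReal_div_of_pos ha]
      norm_num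
    rw [e1] at hc
    have h1 := hc.integrable_norm_rpow (by simpa using ha0) ENNReal.ofReal_ne_top
    rw [ENNReal.toReal_ofReal ha0.le] at h1
    refine ⟨fun t => 1 + |c t| ^ a, 1, zero_le_one, fun t => ?_, ?_, ?_⟩
    · have := Real.rpow_nonneg (abs_nonneg (c t)) a
      linarith
    · have h2 : IntegrableOn (fun _ : ℝ => (1 : ℝ)) (Ioo 0 T) := by simp [integrableOn_const_iff]
      exact h2.add h1
    · refine Filter.Eventually.of_forall fun t => ?_
      have e2 : (3 * β - 1) / 6 = 1 / a := by rw [hadef]; field_simp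
      rw [e2, one_mul]
      have h2 := Real.rpow_nonneg (abs_nonneg (c t)) a
      refine max_le ?_ ?_
      · calc |c t| = (|c t| ^ a) ^ (1 / a) := by
              rw [← Real.rpow_mul (abs_nonneg _), mul_one_div, div_self ha0.ne', Real.rpow_one]
          _ ≤ _ := Real.rpow_le_rpow h2 (by linarith) (by positivity)
      · exact Real.one_le_rpow (by linarith) (by positivity)

/-- The criterion. -/
theorem criterion {ν T : ℝ} {u : ℝ → V → V} {p : ℝ → V → ℝ} (h : IsSol ν T u p) (hν : 0 < ν)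
    {β K : ℝ} (hβ0 : 1 / 3 ≤ β) (hβ1 : β < 1) {c : ℝ → ℝ}
    (hc : MemLp c (6 / ENNReal.ofReal (3 * β - 1)) (volume.restrict (Ioo 0 T)))
    (hcoh : ∀ᵐ t ∂volume.restrict (Ioo 0 T), ∀ x y, K < en (cu (u t) x) → K < en (cu (u t) y) →
      en (crossProduct (cu (u t) x) (cu (u t) y))
        ≤ c t * en (x - y) ^ β * (en (cu (u t) x) * en (cu (u t) y))) :
    (∃ A, ∀ t ∈ Ico 0 T, enstrophy (u t) ≤ A) ∧ ∃ M, ∀ t ∈ Ico 0 T, ∀ x i, |u t x i| ≤ M := by
  classical
  rcases le_or_gt T 0 with hT | hT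
  · have : Ico 0 T = ∅ := Ico_eq_empty (by linarith)
    rw [this]
    exact ⟨⟨0, fun t ht => absurd ht (notMem_empty t)⟩, ⟨0, fun t ht => absurd ht (notMem_empty t)⟩⟩
  set L : ℝ := max K 1 with hL
  have hL0 : 0 < L := lt_max_of_lt_right one_pos
  obtain ⟨m0, B, hB0, hm01, hm0i, hm0⟩ := exists_m0 hβ0 hc
  obtain ⟨C', hC'0, hC'⟩ := comb (β := β) (ε := ν) (B := B) (K := L) hβ0 hβ1 hν hB0 hL0
  set m : ℝ → ℝ := fun s => m0 s + enstrophy (u s) + Dis (u s) with hm
  have hy0 : ∀ s, 0 ≤ enstrophy (u s) := fun s => enstrophy_nonneg _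
  have hD0 : ∀ s, 0 ≤ Dis (u s) := fun s => Dis_nonneg _
  have hm1 : ∀ s, 1 ≤ m s := fun s => by
    have := hm01 s; have := hy0 s; have := hD0 s
    simp only [hm]; linarith
  set P : ℝ → Prop := fun s => (∀ x y, K < en (cu (u s) x) → K < en (cu (u s) y) →
      en (crossProduct (cu (u s) x) (cu (u s) y))
        ≤ c s * en (x - y) ^ β * (en (cu (u s) x) * en (cu (u s) y))) ∧
      max |c s| 1 ≤ B * m0 s ^ ((3 * β - 1) / 6) with hP
  have hPae : ∀ᵐ s ∂volume.restrict (Ioo 0 T), P s := by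
    filter_upwards [hcoh, hm0] with s h1 h2
    exact ⟨h1, h2⟩
  have hMex : ∀ s, ∃ M : ℝ, s ∈ Ioo 0 T → 0 ≤ M ∧
      -(2 * cub (fun i y => u s y i)) ≤ M * enstrophy (u s) := by
    intro s
    by_cases hs : s ∈ Ioo 0 T
    · obtain ⟨M, hM1, hM2⟩ := cub_bound (v := u s) fun i => h.sp ⟨hs.1.le, hs.2⟩ i
      exact ⟨M, fun _ => ⟨hM1, hM2⟩⟩
    · exact ⟨0, fun h => absurd h hs⟩
  choose M hM using hMex
  set g : ℝ → ℝ := fun s => if P s then C' * m s else M s with hg
  have hgood : ∀ s ∈ Ioo 0 T, P s →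
      -(2 * cub (fun i y => u s y i)) ≤ ν * palin (u s) + C' * m s * enstrophy (u s) := by
    intro s hs hPs
    have hI : s ∈ Ico 0 T := ⟨hs.1.le, hs.2⟩
    refine hC' (u s) (max |c s| 1) (m s) (fun i => h.sp hI i) (h.divfree s hI) ?_
      (le_max_right _ _) (hm1 s) ?_ ?_ ?_
    · intro x y hx hy
      have hen : ∀ z : V, L ^ 2 < rsq z → K < en z := by
        intro z hz
        rw [← en_sq] at hz
        exact (le_max_left K 1).trans_lt (lt_of_pow_lt_pow_left₀ 2 (en_nonneg _) hz)
      have h1 := hPs.1 x y (hen _ hx) (hen _ hy)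
      have h2 : 0 ≤ en (x - y) ^ β := Real.rpow_nonneg (en_nonneg _) _
      have h3 : 0 ≤ en (cu (u s) x) * en (cu (u s) y) := mul_nonneg (en_nonneg _) (en_nonneg _)
      have h4 : en (crossProduct (cu (u s) x) (cu (u s) y))
          ≤ max |c s| 1 * en (x - y) ^ β * (en (cu (u s) x) * en (cu (u s) y)) := by
        refine h1.trans (mul_le_mul_of_nonneg_right (mul_le_mul_of_nonneg_right ?_ h2) h3)
        exact (le_abs_self _).trans (le_max_left _ _)
      have h5 := pow_le_pow_left₀ (en_nonneg _) h4 2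
      rw [en_sq] at h5
      refine h5.trans (le_of_eq ?_)
      rw [← en_sq (cu (u s) x), ← en_sq (cu (u s) y)]
      ring
    · refine hPs.2.trans (mul_le_mul_of_nonneg_left ?_ hB0)
      refine Real.rpow_le_rpow (by linarith [hm01 s]) ?_ (by linarith)
      have := hy0 s; have := hD0 s
      simp only [hm]; linarith
    · have := hm01 s; have := hD0 s
      simp only [hm]; linarith
    · have := hm01 s; have := hy0 s
      simp only [hm]; linarith
  -- integrability
  have hEc : ∀ t ∈ Ico 0 T, ContinuousOn (fun s => enstrophy (u s)) (Icc 0 t) := fun t ht =>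
    h.enstrophy_continuousOn.mono fun s hs => ⟨hs.1, hs.2.trans_lt ht.2⟩
  have hDc : ∀ t ∈ Ico 0 T, ContinuousOn (fun s => Dis (u s)) (Icc 0 t) := fun t ht =>
    (Dis_continuousOn h).mono fun s hs => ⟨hs.1, hs.2.trans_lt ht.2⟩
  have hsub : ∀ t ∈ Ico 0 T, Ioc 0 t ⊆ Ioo 0 T := fun t ht s hs => ⟨hs.1, hs.2.trans_lt ht.2⟩
  have hi0 : ∀ t ∈ Ico 0 T, IntegrableOn m0 (Ioc 0 t) := fun t ht => hm0i.mono_set (hsub t ht)
  have hi1 : ∀ t ∈ Ico 0 T, IntegrableOn (fun s => enstrophy (u s)) (Ioc 0 t) := fun t ht =>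
    (hEc t ht).integrableOn_Icc.mono_set Ioc_subset_Icc_self
  have hi2 : ∀ t ∈ Ico 0 T, IntegrableOn (fun s => Dis (u s)) (Ioc 0 t) := fun t ht =>
    (hDc t ht).integrableOn_Icc.mono_set Ioc_subset_Icc_self
  have him : ∀ t ∈ Ico 0 T, IntegrableOn m (Ioc 0 t) := fun t ht =>
    ((hi0 t ht).add (hi1 t ht)).add (hi2 t ht)
  have hgae : ∀ t ∈ Ico 0 T, (fun s => C' * m s) =ᵐ[volume.restrict (Ioc 0 t)] g := by
    intro t ht
    have h1 : ∀ᵐ s ∂volume.restrict (Ioc 0 t), P s :=
      ae_mono (Measure.restrict_mono (hsub t ht) le_rfl) hPae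
    filter_upwards [h1] with s hs
    simp only [hg, if_pos hs]
  have hgi : ∀ t ∈ Ico 0 T, IntegrableOn g (Icc 0 t) := by
    intro t ht
    rw [integrableOn_Icc_iff_integrableOn_Ioc]
    exact ((him t ht).const_mul C').congr (hgae t ht)
  set E0 : ℝ := energy (u 0) / (2 * ν) with hE0
  have hres := h.gron hν (g := g) (δ := 1)
    (B := C' * ((∫ s in Ioo 0 T, m0 s) + E0 + (EH (u 0) + 4 * E0) / ν)) one_pos ?_ hgi ?_ ?_
  · exact ⟨⟨_, hres.1⟩, hres.2⟩
  · intro s hs
    simp only [hg]
    split_ifs with hPs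
    · exact mul_nonneg hC'0 (by linarith [hm1 s])
    · exact (hM s hs).1
  · intro t ht
    rw [intervalIntegral.integral_of_le ht.1, ← integral_congr_ae (hgae t ht),
      integral_const_mul]
    refine mul_le_mul_of_nonneg_left ?_ hC'0
    have e1 : ∫ s in Ioc 0 t, m s = (∫ s in Ioc 0 t, m0 s) + (∫ s in Ioc 0 t, enstrophy (u s))
        + ∫ s in Ioc 0 t, Dis (u s) := by
      have i01 : IntegrableOn (fun s => m0 s + enstrophy (u s)) (Ioc 0 t) :=
        (hi0 t ht).add (hi1 t ht)
      simp only [hm]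
      rw [integral_add i01 (hi2 t ht), integral_add (hi0 t ht) (hi1 t ht)]
    have a1 : ∫ s in Ioc 0 t, m0 s ≤ ∫ s in Ioo 0 T, m0 s :=
      setIntegral_mono_set hm0i (Filter.Eventually.of_forall fun s => zero_le_one.trans (hm01 s))
        (hsub t ht).eventuallyLE
    have a2 := h.int_enstrophy hν ht
    have a3 := int_Dis h hν ht
    rw [intervalIntegral.integral_of_le ht.1] at a2
    rw [intervalIntegral.integral_of_le ht.1, intervalIntegral.integral_of_le ht.1] at a3
    have a4 : (EH (u 0) + 4 * ∫ s in Ioc 0 t, enstrophy (u s)) / ν ≤ (EH (u 0) + 4 * E0) / ν := by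
      refine div_le_div_of_nonneg_right ?_ hν.le
      linarith
    rw [e1]
    linarith
  · intro s hs
    simp only [hg]
    split_ifs with hPs
    · have := hgood s hs hPs
      linarith
    · have h1 := (hM s hs).2
      have h2 : 0 ≤ (2 - 1) * (ν * palin (u s)) := by
        have := palin_nonneg (u s)
        positivity
      linarith

end Pool.Agent.R210
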