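import Pool.Agent.R210.Bump

/-!
Local averages of the length of a vector field and their derivatives in a direction in which the
field is nearly parallel to a constant vector.
-/

open MeasureTheory Set Metric Filter Topology
open scoped ContDiff RealInnerProductSpace

namespace Pool.Agent.R210

/-- The weighted integral of `|w|` over the ball of radius `ρ` with centre `x`. -/
noncomputable def MM (w : E → E) (ρ : ℝ) (x : E) : ℝ := ∫ y, eta ρ (y - x) * ‖w y‖

/-- The function `g` bounds the divergence of `sign (e · w) w` in every ball in which the field `w`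
is nearly parallel to the unit vector `e`. -/
def Ren (w : E → E) (g : E → ℝ) : Prop :=
  ∀ (e x : E) (r : ℝ), ‖e‖ = 1 →
    (∀ᵐ y, y ∈ ball x r → ‖w y‖ ^ 2 - ⟪e, w y⟫ ^ 2 ≤ ‖w y‖ ^ 2 / 4) →
    ∀ ψ : E → ℝ, ContDiff ℝ ∞ ψ → HasCompactSupport ψ → tsupport ψ ⊆ ball x r →
      |∫ y, Real.sign ⟪e, w y⟫ * fderiv ℝ ψ y (w y)| ≤ ∫ y, |ψ y| * g y

/-- The sine of the angle between `w p` and `w y` is at most `c |p - y|^β`. -/
def Coh (w : E → E) (c β : ℝ) (p y : E) : Prop :=
  ‖w p‖ ^ 2 * ‖w y‖ ^ 2 - ⟪w p, w y⟫ ^ 2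
    ≤ (c * ‖p - y‖ ^ β) ^ 2 * (‖w p‖ ^ 2 * ‖w y‖ ^ 2)

/-- The assumptions on the vector field. -/
structure Tube (w : E → E) (g : E → ℝ) (c β W D : ℝ) : Prop where
  meas : AEStronglyMeasurable w volume
  sq : ∀ x, IntegrableOn (fun y => ‖w y‖ ^ 2) (ball x 1)
  bd : ∀ x, ∫ y in ball x 1, ‖w y‖ ^ 2 ≤ W ^ 2
  gmeas : AEStronglyMeasurable g volume
  g0 : ∀ y, 0 ≤ g y
  gsq : ∀ x, IntegrableOn (fun y => g y ^ 2) (ball x 1)
  gbd : ∀ x, ∫ y in ball x 1, g y ^ 2 ≤ D ^ 2
  W0 : 0 ≤ W
  D0 : 0 ≤ D
  coh : ∀ᵐ p, ∀ᵐ y, Coh w c β p y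
  ren : Ren w g

theorem locInt_of_sq {F : Type*} [NormedAddCommGroup F] {f : E → F}
    (hm : AEStronglyMeasurable f volume)
    (h : ∀ x, IntegrableOn (fun y => ‖f y‖ ^ 2) (ball x 1)) : LocallyIntegrable f volume := by
  intro x
  refine ⟨ball x 1, ball_mem_nhds x one_pos, ?_⟩
  have h1 : IntegrableOn (fun y => 1 + ‖f y‖ ^ 2) (ball x 1) :=
    (integrableOn_const (measure_ball_lt_top).ne).add (h x)
  refine Integrable.mono' h1 hm.restrict (Filter.Eventually.of_forall fun y => ?_)
  nlinarith [norm_nonneg (f y), sq_nonneg (‖f y‖ - 1)]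

theorem locInt_norm {F : Type*} [NormedAddCommGroup F] {f : E → F}
    (h : LocallyIntegrable f volume) : LocallyIntegrable (fun y => ‖f y‖) volume := by
  intro x
  obtain ⟨s, hs, hi⟩ := h x
  exact ⟨s, hs, hi.norm⟩

/-- The Cauchy-Schwarz inequality on a set of finite measure. -/
theorem setInt_le_sqrt {f : E → ℝ} {s : Set E} (hs : MeasurableSet s) (hf : volume s ≠ ⊤)
    (hm : AEStronglyMeasurable f volume) (h0 : ∀ y, 0 ≤ f y)
    (h : IntegrableOn (fun y => f y ^ 2) s) :
    (∫ y in s, f y) ^ 2 ≤ (volume s).toReal * ∫ y in s, f y ^ 2 := by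
  have hfi : IntegrableOn f s := by
    have h1 : IntegrableOn (fun y => 1 + f y ^ 2) s := (integrableOn_const hf).add h
    refine Integrable.mono' h1 hm.restrict (Filter.Eventually.of_forall fun y => ?_)
    rw [Real.norm_eq_abs, abs_of_nonneg (h0 y)]
    nlinarith [h0 y, sq_nonneg (f y - 1)]
  set I := ∫ y in s, f y with hI
  set J := ∫ y in s, f y ^ 2 with hJ
  set m := (volume s).toReal with hm'
  have hm0 : 0 ≤ m := ENNReal.toReal_nonneg
  have hI0 : 0 ≤ I := setIntegral_nonneg hs fun y _ => h0 y
  have key : ∀ a : ℝ, 0 ≤ J - 2 * a * I + a ^ 2 * m := by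
    intro a
    have h1 : 0 ≤ ∫ y in s, (f y - a) ^ 2 := setIntegral_nonneg hs fun y _ => sq_nonneg _
    have h2 : ∫ y in s, (f y - a) ^ 2 = J - 2 * a * I + a ^ 2 * m := by
      have e : ∀ y, (f y - a) ^ 2 = f y ^ 2 - 2 * a * f y + a ^ 2 := fun y => by ring
      simp_rw [e]
      have i1 : IntegrableOn (fun y => 2 * a * f y) s := hfi.const_mul _
      have i2 : IntegrableOn (fun y => f y ^ 2 - 2 * a * f y) s := h.sub i1
      have i3 : IntegrableOn (fun _ : E => a ^ 2) s := integrableOn_const hf
      rw [integral_add i2 i3, integral_sub h i1, integral_const_mul, setIntegral_const]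
      simp only [smul_eq_mul, Measure.real]
      ring
    rw [← h2]; exact h1
  rcases hm0.eq_or_lt with h3 | h3
  · have h4 : volume s = 0 := by
      have := h3.symm
      rw [hm', ENNReal.toReal_eq_zero_iff] at this
      exact this.resolve_right hf
    have h5 : I = 0 := by
      rw [hI, Measure.restrict_eq_zero.2 h4, integral_zero_measure]
    rw [h5, ← h3]; simp
  · have h4 := key (I / m)
    have h5 : J - 2 * (I / m) * I + (I / m) ^ 2 * m = J - I ^ 2 / m := by
      field_simp
      ring
    rw [h5] at h4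
    have h6 : I ^ 2 / m ≤ J := by linarith
    rw [div_le_iff₀ h3] at h6
    linarith

section

variable {w : E → E} {ρ : ℝ}

theorem MM_nonneg (w : E → E) (ρ : ℝ) (x : E) : 0 ≤ MM w ρ x :=
  integral_nonneg fun _ => mul_nonneg (eta_nonneg _ _) (norm_nonneg _)

theorem eta_sub_zero (hρ : 0 < ρ) {x y : E} (h : y ∉ ball x ρ) : eta ρ (y - x) = 0 := by
  refine eta_zero hρ ?_
  rw [mem_ball, dist_eq_norm] at h
  exact not_lt.1 h

theorem eta_mul_integrable (hρ : 0 < ρ) {f : E → ℝ} (hf : LocallyIntegrable f volume) (x : E) :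
    Integrable (fun y => eta ρ (y - x) * f y) := by
  have h1 : IntegrableOn f (closedBall x ρ) := hf.integrableOn_isCompact (isCompact_closedBall _ _)
  have h2 : IntegrableOn (fun y => eta ρ (y - x) * f y) (closedBall x ρ) := by
    refine Integrable.mono h1 ?_ (Filter.Eventually.of_forall fun y => ?_)
    · exact (((eta_smooth ρ).continuous.comp (continuous_id.sub continuous_const)).measurable
        |>.aestronglyMeasurable).mul h1.aestronglyMeasurable
    · rw [norm_mul, Real.norm_eq_abs, abs_of_nonneg (eta_nonneg _ _)]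
      exact mul_le_of_le_one_left (norm_nonneg _) (eta_le_one _ _)
  refine (integrableOn_iff_integrable_of_support_subset ?_).1 h2
  intro y hy
  by_contra hc
  refine hy ?_
  simp only
  rw [eta_sub_zero hρ (fun h => hc (ball_subset_closedBall h)), zero_mul]

theorem MM_le (hρ : 0 < ρ) (hw : LocallyIntegrable w volume) (x : E) :
    MM w ρ x ≤ ∫ y in ball x ρ, ‖w y‖ := by
  have hn : LocallyIntegrable (fun y => ‖w y‖) volume := locInt_norm hw
  have hi : IntegrableOn (fun y => ‖w y‖) (ball x ρ) :=
    (hn.integrableOn_isCompact (isCompact_closedBall x ρ)).mono_set ball_subset_closedBall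
  unfold MM
  rw [← integral_indicator measurableSet_ball]
  refine integral_mono (eta_mul_integrable hρ hn x) (hi.integrable_indicator measurableSet_ball)
    fun y => ?_
  simp only [indicator]
  split_ifs with h
  · exact mul_le_of_le_one_left (norm_nonneg _) (eta_le_one _ _)
  · rw [eta_sub_zero hρ h, zero_mul]

/-- The integral over a ball is at most a sum of weighted integrals. -/
theorem ball_le_sum (hρ : 0 < ρ) (hw : LocallyIntegrable w volume) (x : E) :
    ∫ y in ball x ρ, ‖w y‖ ≤ ∑ z ∈ tt, MM w ρ (x + ρ • z) := by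
  have hn : LocallyIntegrable (fun y => ‖w y‖) volume := locInt_norm hw
  have hi : IntegrableOn (fun y => ‖w y‖) (ball x ρ) :=
    (hn.integrableOn_isCompact (isCompact_closedBall x ρ)).mono_set ball_subset_closedBall
  unfold MM
  rw [← integral_finsetSum _ fun z _ => eta_mul_integrable hρ hn _,
    ← integral_indicator measurableSet_ball]
  refine integral_mono (hi.integrable_indicator measurableSet_ball)
    (integrable_finsetSum _ fun z _ => eta_mul_integrable hρ hn _) fun y => ?_
  simp only [indicator]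
  split_ifs with h
  · rw [← Finset.sum_mul]
    have h1 := eta_cover hρ (y - x) (by
      rw [mem_ball, dist_eq_norm] at h; exact h.le)
    have h2 : ∑ z ∈ tt, eta ρ (y - (x + ρ • z)) = ∑ z ∈ tt, eta ρ (y - x - ρ • z) :=
      Finset.sum_congr rfl fun z _ => by rw [sub_sub]
    rw [h2]
    exact le_mul_of_one_le_left (norm_nonneg _) h1
  · exact Finset.sum_nonneg fun z _ => mul_nonneg (eta_nonneg _ _) (norm_nonneg _)

/-- The derivative of the weighted integral in the direction `e`. -/
theorem MM_hasDerivAt (hρ : 0 < ρ) (hw : LocallyIntegrable w volume) (x e : E) (s₀ : ℝ) :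
    HasDerivAt (fun s : ℝ => MM w ρ (x + s • e))
      (-∫ y, fderiv ℝ (eta ρ) (y - (x + s₀ • e)) e * ‖w y‖) s₀ := by
  have hn : LocallyIntegrable (fun y => ‖w y‖) volume := locInt_norm hw
  set R : ℝ := ρ + (|s₀| + 1) * ‖e‖ with hR
  have hi : IntegrableOn (fun y => ‖w y‖) (closedBall x R) :=
    hn.integrableOn_isCompact (isCompact_closedBall x R)
  have hfc : Continuous (fderiv ℝ (eta ρ)) := (eta_smooth ρ).continuous_fderiv (by norm_num)
  have key := (hasDerivAt_integral_of_dominated_loc_of_deriv_le (s := ball s₀ 1)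
    (F := fun s y => eta ρ (y - (x + s • e)) * ‖w y‖)
    (F' := fun s y => -(fderiv ℝ (eta ρ) (y - (x + s • e)) e * ‖w y‖))
    (bound := indicator (closedBall x R) fun y => (LL / ρ * ‖e‖) * ‖w y‖) (μ := volume)
    (x₀ := s₀) (ball_mem_nhds _ one_pos) ?_ ?_ ?_ ?_ ?_ ?_).2
  · rw [integral_neg] at key
    exact key
  · exact Filter.Eventually.of_forall fun s => (eta_mul_integrable hρ hn _).aestronglyMeasurable
  · exact eta_mul_integrable hρ hn _
  · refine (AEStronglyMeasurable.mul ?_ hn.aestronglyMeasurable).neg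
    exact ((hfc.comp (continuous_id.sub continuous_const)).clm_apply
      continuous_const).aestronglyMeasurable
  · refine Filter.Eventually.of_forall fun y s hs => ?_
    rw [mem_ball, Real.dist_eq] at hs
    rw [norm_neg, norm_mul, norm_norm]
    simp only [indicator]
    split_ifs with h
    · refine mul_le_mul_of_nonneg_right ?_ (norm_nonneg _)
      exact ((fderiv ℝ (eta ρ) _).le_opNorm e).trans
        (mul_le_mul_of_nonneg_right (fderiv_eta_le hρ _) (norm_nonneg _))
    · have h1 : y - (x + s • e) ∉ closedBall (0 : E) ρ := by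
        intro h2
        refine h ?_
        rw [mem_closedBall, dist_eq_norm]
        rw [mem_closedBall_zero_iff] at h2
        have h3 : y - x = (y - (x + s • e)) + s • e := by abel
        have h4 : |s| ≤ |s₀| + 1 := by
          have := abs_sub_abs_le_abs_sub s s₀
          linarith
        calc ‖y - x‖ ≤ ‖y - (x + s • e)‖ + ‖s • e‖ := by rw [h3]; exact norm_add_le _ _
          _ ≤ ρ + |s| * ‖e‖ := by rw [norm_smul, Real.norm_eq_abs]; linarith
          _ ≤ R := by
            rw [hR]
            have := mul_le_mul_of_nonneg_right h4 (norm_nonneg e)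
            linarith
      rw [fderiv_eta_zero hρ h1]
      simp
  · exact IntegrableOn.integrable_indicator (Integrable.const_mul hi (LL / ρ * ‖e‖))
      measurableSet_closedBall
  · refine Filter.Eventually.of_forall fun y s _ => ?_
    have h1 : HasDerivAt (fun s : ℝ => y - (x + s • e)) (-e) s := by
      have := ((hasDerivAt_id s).smul_const e).const_add x
      simpa using this.const_sub y
    have h2 : HasFDerivAt (eta ρ) (fderiv ℝ (eta ρ) (y - (x + s • e))) (y - (x + s • e)) :=
      ((eta_smooth ρ).differentiable (by norm_num) _).hasFDerivAt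
    have h3 := (h2.comp_hasDerivAt s h1).mul_const ‖w y‖
    refine h3.congr_deriv ?_
    rw [map_neg, neg_mul]

end

end Pool.Agent.R210
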