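import Pool.Agent.R210.Flux1

/-!
One step along the direction of the field.
-/

open MeasureTheory Set Metric Filter Topology
open scoped ContDiff RealInnerProductSpace

namespace Pool.Agent.R210

/-- The error constant of one step. -/
noncomputable def K1 : ℝ := 9 * LL * (tt.card + 1)

theorem K1_pos : 0 < K1 := by
  have := one_le_LL
  unfold K1
  positivity

theorem fderiv_eta_zero' {ρ : ℝ} (hρ : 0 < ρ) {z : E} (hz : ρ ≤ ‖z‖) :
    fderiv ℝ (eta ρ) z = 0 := by
  refine IsLocalMin.fderiv_eq_zero ?_
  refine Filter.Eventually.of_forall fun y => ?_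
  rw [eta_zero hρ hz]
  exact eta_nonneg _ _

/-- The distance of `|w| e` from `± w`. -/
theorem norm_sub_sign {e w : E} {δ : ℝ} (he : ‖e‖ = 1) (hδ0 : 0 ≤ δ)
    (h1 : ‖w‖ ^ 2 - ⟪e, w⟫ ^ 2 ≤ ‖w‖ ^ 2 / 4)
    (h2 : ‖w‖ ^ 2 - ⟪e, w⟫ ^ 2 ≤ δ ^ 2 * ‖w‖ ^ 2) :
    ‖‖w‖ • e - Real.sign ⟪e, w⟫ • w‖ ≤ 3 / 2 * δ * ‖w‖ := by
  set a := ⟪e, w⟫ with ha
  set n := ‖w‖ with hn
  have hn0 : 0 ≤ n := norm_nonneg _
  by_cases h0 : a = 0
  · have h3 : n = 0 := by
      rw [h0] at h1
      nlinarith
    have hw : w = 0 := norm_eq_zero.1 h3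
    rw [h3, hw]; simp
  · have hs : Real.sign a * a = |a| := by
      rcases lt_or_gt_of_ne h0 with h | h
      · rw [Real.sign_of_neg h, abs_of_neg h]; ring
      · rw [Real.sign_of_pos h, abs_of_pos h]; ring
    have hs2 : Real.sign a ^ 2 = 1 := by
      rcases lt_or_gt_of_ne h0 with h | h
      · rw [Real.sign_of_neg h]; norm_num
      · rw [Real.sign_of_pos h]; norm_num
    have hle : |a| ≤ n := by
      have := abs_real_inner_le_norm e w
      rw [he, one_mul] at this
      exact this
    have key : ‖n • e - Real.sign a • w‖ ^ 2 = 2 * n ^ 2 - 2 * n * |a| := by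
      have hs3 : |Real.sign a| ^ 2 = 1 := by rw [sq_abs, hs2]
      rw [norm_sub_sq_real, norm_smul, norm_smul, inner_smul_left, inner_smul_right, he, ← ha,
        ← hs, Real.norm_eq_abs, Real.norm_eq_abs, mul_pow, sq_abs, mul_pow, hs3, ← hn]
      simp only [conj_trivial]
      ring
    have h5 : ‖n • e - Real.sign a • w‖ ^ 2 ≤ (3 / 2 * δ * n) ^ 2 := by
      rw [key]
      have h6 : a ^ 2 ≤ n * |a| := by
        rw [← sq_abs]; nlinarith [abs_nonneg a]
      nlinarith [mul_nonneg (sq_nonneg δ) (sq_nonneg n)]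
    exact le_of_sq_le_sq h5 (by positivity)

variable {w : E → E} {g : E → ℝ} {c β W D ρ A : ℝ}

theorem Tube.locInt (h : Tube w g c β W D) : LocallyIntegrable w volume :=
  locInt_of_sq h.meas h.sq

theorem Tube.glocInt (h : Tube w g c β W D) : LocallyIntegrable g volume :=
  locInt_of_sq h.gmeas (by simpa using h.gsq)

theorem rpow6 (hρ : 0 < ρ) (hβ1 : β ≤ 1) : (6 * ρ) ^ β ≤ 6 * ρ ^ β := by
  rw [Real.mul_rpow (by norm_num) hρ.le]
  refine mul_le_mul_of_nonneg_right ?_ (Real.rpow_nonneg hρ.le _)
  calc (6 : ℝ) ^ β ≤ 6 ^ (1 : ℝ) := Real.rpow_le_rpow_of_exponent_le (by norm_num) hβ1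
    _ = 6 := Real.rpow_one _

/-- The weighted integral of the length of the field does not decrease much in the direction of
the field. -/
theorem Tube.step (h : Tube w g c β W D) (hβ0 : 0 ≤ β) (hβ1 : β ≤ 1) (hc : 0 ≤ c) (hρ : 0 < ρ)
    (hA : ∀ x, MM w ρ x ≤ A) (h7 : c * (7 * ρ) ^ β ≤ 1 / 2) {x e p : E} (he : ‖e‖ = 1)
    (hp : p ∈ ball x ρ)
    (had : ∀ᵐ y, ‖w y‖ ^ 2 - ⟪e, w y⟫ ^ 2 ≤ (c * ‖p - y‖ ^ β) ^ 2 * ‖w y‖ ^ 2) :
    MM w ρ x - 4 * K1 * (c * ρ ^ β) * A - 4 * ρ * ∫ y in ball x (5 * ρ), g y
      ≤ MM w ρ (x + (4 * ρ) • e) := by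
  have hw := h.locInt
  have hn : LocallyIntegrable (fun y => ‖w y‖) volume := locInt_norm hw
  have hg := h.glocInt
  have hA0 : 0 ≤ A := (MM_nonneg w ρ 0).trans (hA 0)
  have hfc : Continuous (fderiv ℝ (eta ρ)) := (eta_smooth ρ).continuous_fderiv (by norm_num)
  set G := ∫ y in ball x (5 * ρ), g y with hG
  set K : ℝ := K1 * (c * ρ ^ β) * A / ρ + G with hK
  have hgi : IntegrableOn g (ball x (5 * ρ)) :=
    (hg.integrableOn_isCompact (isCompact_closedBall x (5 * ρ))).mono_set ball_subset_closedBall
  -- the bound of the derivative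
  have key : ∀ s ∈ Icc (0 : ℝ) (4 * ρ),
      -K ≤ -∫ y, fderiv ℝ (eta ρ) (y - (x + s • e)) e * ‖w y‖ := by
    intro s hs
    set x' := x + s • e with hx'
    have hxx : ‖x' - x‖ ≤ 4 * ρ := by
      rw [hx', add_sub_cancel_left, norm_smul, he, mul_one, Real.norm_eq_abs, abs_of_nonneg hs.1]
      exact hs.2
    have hpx : ‖p - x‖ < ρ := by rw [← dist_eq_norm]; exact hp
    have hdist : ∀ (y : E) (r : ℝ), ‖y - x'‖ ≤ r → ‖p - y‖ ≤ 5 * ρ + r := by
      intro y r hy
      have e1 : p - y = (p - x) - (x' - x) - (y - x') := by abel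
      rw [e1]
      have := norm_sub_le ((p - x) - (x' - x)) (y - x')
      have h2 := norm_sub_le (p - x) (x' - x)
      linarith
    -- the field is nearly parallel to `e`
    have hcone : ∀ᵐ y, y ∈ ball x' (2 * ρ) → ‖w y‖ ^ 2 - ⟪e, w y⟫ ^ 2 ≤ ‖w y‖ ^ 2 / 4 := by
      filter_upwards [had] with y hy hy2
      rw [mem_ball, dist_eq_norm] at hy2
      have h1 := hdist y (2 * ρ) hy2.le
      refine hy.trans ?_
      have h2 : c * ‖p - y‖ ^ β ≤ 1 / 2 := by
        refine le_trans ?_ h7
        refine mul_le_mul_of_nonneg_left ?_ hc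
        exact Real.rpow_le_rpow (norm_nonneg _) (by linarith) hβ0
      have h3 : 0 ≤ c * ‖p - y‖ ^ β := mul_nonneg hc (Real.rpow_nonneg (norm_nonneg _) _)
      have h4 : (c * ‖p - y‖ ^ β) ^ 2 ≤ 1 / 4 := by nlinarith
      nlinarith [sq_nonneg ‖w y‖]
    -- the flux
    set ψ : E → ℝ := fun y => eta ρ (y - x') with hψ
    have hψs : ContDiff ℝ ∞ ψ := (eta_smooth ρ).comp (contDiff_id.sub contDiff_const)
    have hψsupp : Function.support ψ ⊆ ball x' ρ := by
      intro y hy
      by_contra hc'
      exact hy (eta_sub_zero hρ hc')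
    have hψc : HasCompactSupport ψ := HasCompactSupport.of_support_subset_isCompact
      (isCompact_closedBall x' ρ) (hψsupp.trans ball_subset_closedBall)
    have hψt : tsupport ψ ⊆ ball x' (2 * ρ) :=
      (closure_minimal (hψsupp.trans ball_subset_closedBall) isClosed_closedBall).trans
        (closedBall_subset_ball (by linarith))
    have hflux := h.ren e x' (2 * ρ) he hcone ψ hψs hψc hψt
    have hfd : ∀ y, fderiv ℝ ψ y = fderiv ℝ (eta ρ) (y - x') := fun y => by
      have h1 : HasFDerivAt (eta ρ) (fderiv ℝ (eta ρ) (y - x')) (y - x') :=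
        ((eta_smooth ρ).differentiable (by norm_num) _).hasFDerivAt
      have h2 : HasFDerivAt (fun y => y - x') (ContinuousLinearMap.id ℝ E) y :=
        (hasFDerivAt_id y).sub_const x'
      have h3 := h1.comp y h2
      rw [ContinuousLinearMap.comp_id] at h3
      exact h3.fderiv
    simp_rw [hfd] at hflux
    have hb1 : ∫ y, |ψ y| * g y ≤ G := by
      rw [hG, ← integral_indicator measurableSet_ball]
      refine integral_mono ?_ (hgi.integrable_indicator measurableSet_ball) fun y => ?_
      · have := eta_mul_integrable hρ hg x'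
        refine this.congr (Filter.Eventually.of_forall fun y => ?_)
        simp only [hψ, abs_of_nonneg (eta_nonneg _ _)]
      · simp only [indicator]
        split_ifs with hy
        · rw [abs_of_nonneg (eta_nonneg _ _)]
          exact mul_le_of_le_one_left (h.g0 y) (eta_le_one _ _)
        · have : ψ y = 0 := by
            refine eta_sub_zero hρ fun h' => hy ?_
            rw [mem_ball, dist_eq_norm] at h' ⊢
            have e1 : y - x = (y - x') + (x' - x) := by abel
            rw [e1]
            have := norm_add_le (y - x') (x' - x)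
            linarith
          rw [this]; simp
    -- integrability
    have hsm : AEStronglyMeasurable (fun y => Real.sign ⟪e, w y⟫) volume := by
      have h1 : AEMeasurable (fun y => ⟪e, w y⟫) volume :=
        (aestronglyMeasurable_const.inner h.meas).aemeasurable
      have h2 : Measurable Real.sign := by
        have : Real.sign = fun r : ℝ => if r < 0 then (-1 : ℝ) else if 0 < r then 1 else 0 := by
          funext r; rfl
        rw [this]
        exact Measurable.ite measurableSet_Iio measurable_const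
          (Measurable.ite measurableSet_Ioi measurable_const measurable_const)
      exact (h2.comp_aemeasurable h1).aestronglyMeasurable
    have hsb : ∀ r : ℝ, |Real.sign r| ≤ 1 := by
      intro r
      rcases Real.sign_apply_eq r with h1 | h1 | h1 <;> rw [h1] <;> norm_num
    have hbd : Integrable (indicator (closedBall x' ρ) fun y => (LL / ρ) * ‖w y‖) :=
      IntegrableOn.integrable_indicator (Integrable.const_mul
        (hn.integrableOn_isCompact (isCompact_closedBall x' ρ)) (LL / ρ)) measurableSet_closedBall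
    have i1 : Integrable (fun y => fderiv ℝ (eta ρ) (y - x') e * ‖w y‖) := by
      refine Integrable.mono' hbd ?_ (Filter.Eventually.of_forall fun y => ?_)
      · exact (((hfc.comp (continuous_id.sub continuous_const)).clm_apply
          continuous_const).aestronglyMeasurable).mul hn.aestronglyMeasurable
      · simp only [indicator]
        split_ifs with hy
        · rw [norm_mul, norm_norm]
          refine mul_le_mul_of_nonneg_right ?_ (norm_nonneg _)
          refine ((fderiv ℝ (eta ρ) _).le_opNorm e).trans ?_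
          rw [he, mul_one]
          exact fderiv_eta_le hρ _
        · rw [fderiv_eta_zero hρ (by
            intro h'; refine hy ?_
            rw [mem_closedBall_zero_iff] at h'
            rw [mem_closedBall, dist_eq_norm]; exact h')]
          simp
    have i2 : Integrable (fun y => Real.sign ⟪e, w y⟫ * fderiv ℝ (eta ρ) (y - x') (w y)) := by
      refine Integrable.mono' hbd ?_ (Filter.Eventually.of_forall fun y => ?_)
      · refine hsm.mul ?_
        have h1 : AEStronglyMeasurable (fun y => fderiv ℝ (eta ρ) (y - x')) volume :=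
          (hfc.comp (continuous_id.sub continuous_const)).aestronglyMeasurable
        exact (ContinuousLinearMap.id ℝ (E →L[ℝ] ℝ)).aestronglyMeasurable_comp₂ h1 h.meas
      · simp only [indicator]
        split_ifs with hy
        · rw [norm_mul, Real.norm_eq_abs]
          have h1 : ‖fderiv ℝ (eta ρ) (y - x') (w y)‖ ≤ LL / ρ * ‖w y‖ :=
            ((fderiv ℝ (eta ρ) _).le_opNorm _).trans
              (mul_le_mul_of_nonneg_right (fderiv_eta_le hρ _) (norm_nonneg _))
          calc |Real.sign ⟪e, w y⟫| * ‖fderiv ℝ (eta ρ) (y - x') (w y)‖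
              ≤ 1 * ‖fderiv ℝ (eta ρ) (y - x') (w y)‖ :=
                mul_le_mul_of_nonneg_right (hsb _) (norm_nonneg _)
            _ ≤ LL / ρ * ‖w y‖ := by rw [one_mul]; exact h1
        · rw [fderiv_eta_zero hρ (by
            intro h'; refine hy ?_
            rw [mem_closedBall_zero_iff] at h'
            rw [mem_closedBall, dist_eq_norm]; exact h')]
          simp
    -- the difference
    set δ : ℝ := c * (6 * ρ) ^ β with hδ
    have hδ0 : 0 ≤ δ := mul_nonneg hc (Real.rpow_nonneg (by linarith) _)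
    have hwi : IntegrableOn (fun y => ‖w y‖) (ball x' ρ) :=
      (hn.integrableOn_isCompact (isCompact_closedBall x' ρ)).mono_set ball_subset_closedBall
    have hdiff : |∫ y, (fderiv ℝ (eta ρ) (y - x') e * ‖w y‖
        - Real.sign ⟪e, w y⟫ * fderiv ℝ (eta ρ) (y - x') (w y))|
        ≤ LL / ρ * (3 / 2 * δ) * ∫ y in ball x' ρ, ‖w y‖ := by
      rw [← integral_const_mul, ← integral_indicator measurableSet_ball, ← Real.norm_eq_abs]
      refine norm_integral_le_of_norm_le
        (IntegrableOn.integrable_indicator (Integrable.const_mul hwi _) measurableSet_ball) ?_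
      filter_upwards [had, hcone] with y hy1 hy2
      simp only [indicator]
      split_ifs with hy
      · rw [mem_ball, dist_eq_norm] at hy
        have e1 : fderiv ℝ (eta ρ) (y - x') e * ‖w y‖
            - Real.sign ⟪e, w y⟫ * fderiv ℝ (eta ρ) (y - x') (w y)
            = fderiv ℝ (eta ρ) (y - x') (‖w y‖ • e - Real.sign ⟪e, w y⟫ • w y) := by
          rw [map_sub, map_smul, map_smul, smul_eq_mul, smul_eq_mul]
          ring
        rw [e1]
        have h1 := norm_sub_sign he hδ0 (hy2 (by
          rw [mem_ball, dist_eq_norm]; linarith)) (by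
          refine hy1.trans ?_
          refine mul_le_mul_of_nonneg_right ?_ (sq_nonneg _)
          refine pow_le_pow_left₀ (mul_nonneg hc (Real.rpow_nonneg (norm_nonneg _) _)) ?_ 2
          refine mul_le_mul_of_nonneg_left ?_ hc
          refine Real.rpow_le_rpow (norm_nonneg _) ?_ hβ0
          have := hdist y ρ hy.le
          linarith)
        calc ‖fderiv ℝ (eta ρ) (y - x') (‖w y‖ • e - Real.sign ⟪e, w y⟫ • w y)‖
            ≤ ‖fderiv ℝ (eta ρ) (y - x')‖ * ‖‖w y‖ • e - Real.sign ⟪e, w y⟫ • w y‖ :=
              (fderiv ℝ (eta ρ) _).le_opNorm _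
          _ ≤ LL / ρ * (3 / 2 * δ * ‖w y‖) := by
              have := one_le_LL
              exact mul_le_mul (fderiv_eta_le hρ _) h1 (norm_nonneg _) (by positivity)
          _ = LL / ρ * (3 / 2 * δ) * ‖w y‖ := by ring
      · rw [mem_ball, dist_eq_norm, not_lt] at hy
        rw [fderiv_eta_zero' hρ hy]
        simp
    have hball : ∫ y in ball x' ρ, ‖w y‖ ≤ (tt.card + 1) * A := by
      refine (ball_le_sum hρ hw x').trans ((Finset.sum_le_sum fun z _ => hA _).trans ?_)
      rw [Finset.sum_const, nsmul_eq_mul]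
      nlinarith
    rw [integral_sub i1 i2] at hdiff
    have h10 : ∫ y, fderiv ℝ (eta ρ) (y - x') e * ‖w y‖
        ≤ LL / ρ * (3 / 2 * δ) * (∫ y in ball x' ρ, ‖w y‖) + G := by
      have a1 := (abs_le.1 hdiff).2
      have a2 := (abs_le.1 (hflux.trans hb1)).2
      linarith
    have h11 : LL / ρ * (3 / 2 * δ) * (∫ y in ball x' ρ, ‖w y‖) ≤ K1 * (c * ρ ^ β) * A / ρ := by
      have hδ6 : δ ≤ 6 * (c * ρ ^ β) := by
        have := mul_le_mul_of_nonneg_left (rpow6 hρ hβ1) hc
        rw [hδ]; linarith
      have hL := one_le_LL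
      have hcρ : 0 ≤ c * ρ ^ β := mul_nonneg hc (Real.rpow_nonneg hρ.le _)
      calc LL / ρ * (3 / 2 * δ) * (∫ y in ball x' ρ, ‖w y‖)
          ≤ LL / ρ * (3 / 2 * (6 * (c * ρ ^ β))) * ((tt.card + 1) * A) := by
            refine mul_le_mul ?_ hball (integral_nonneg fun _ => norm_nonneg _) (by positivity)
            refine mul_le_mul_of_nonneg_left ?_ (by positivity)
            linarith
        _ = K1 * (c * ρ ^ β) * A / ρ := by
            unfold K1
            field_simp
            ring
    linarith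
  -- the mean value theorem
  have hder := fun s => MM_hasDerivAt (w := w) hρ hw x e s
  have hmv := (convex_Icc (0 : ℝ) (4 * ρ)).mul_sub_le_image_sub_of_le_deriv
    (f := fun s => MM w ρ (x + s • e)) (C := -K)
    (fun s _ => (hder s).continuousAt.continuousWithinAt)
    (fun s _ => (hder s).differentiableAt.differentiableWithinAt)
    (fun s hs => by
      rw [(hder s).deriv]
      exact key s (interior_subset hs))
    0 ⟨le_rfl, by linarith⟩ (4 * ρ) ⟨by linarith, le_rfl⟩ (by linarith)
  simp only [zero_smul, add_zero, sub_zero] at hmv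
  have h12 : -K * (4 * ρ) = -(4 * K1 * (c * ρ ^ β) * A) - 4 * ρ * G := by
    rw [hK]
    field_simp
    ring
  rw [h12] at hmv
  linarith

end Pool.Agent.R210
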