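import Pool.Agent.R210.Flux2

/-!
Chains of balls along the field: the averages of the length of the field over small balls.
-/

open MeasureTheory Set Metric Filter Topology
open scoped ContDiff RealInnerProductSpace

namespace Pool.Agent.R210

variable {w : E → E} {g : E → ℝ} {c β W D ρ A : ℝ}

theorem exists_good (hρ : 0 < ρ) {x : E} {P : E → Prop} (hP : ∀ᵐ y, P y) (hM : 0 < MM w ρ x) :
    ∃ p ∈ ball x ρ, w p ≠ 0 ∧ P p := by
  by_contra hcon
  push Not at hcon
  refine hM.ne' ?_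
  unfold MM
  refine integral_eq_zero_of_ae ?_
  filter_upwards [hP] with y hy
  by_cases hb : y ∈ ball x ρ
  · have : w y = 0 := by
      by_contra h0
      exact hcon y hb h0 hy
    rw [this]; simp
  · rw [eta_sub_zero hρ hb]; simp

/-- The direction of the field at a point. -/
theorem adapted_of_coh {p y : E} (hp : w p ≠ 0) (h : Coh w c β p y) :
    ‖w y‖ ^ 2 - ⟪(‖w p‖⁻¹) • w p, w y⟫ ^ 2 ≤ (c * ‖p - y‖ ^ β) ^ 2 * ‖w y‖ ^ 2 := by
  have hn : 0 < ‖w p‖ := norm_pos_iff.2 hp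
  unfold Coh at h
  rw [real_inner_smul_left, mul_pow]
  have h1 : ‖w y‖ ^ 2 - ‖w p‖⁻¹ ^ 2 * ⟪w p, w y⟫ ^ 2
      = (‖w p‖ ^ 2 * ‖w y‖ ^ 2 - ⟪w p, w y⟫ ^ 2) / ‖w p‖ ^ 2 := by
    field_simp
  rw [h1, div_le_iff₀ (by positivity)]
  refine h.trans (le_of_eq ?_)
  ring

/-- The choice of the direction. -/
theorem Tube.exists_dir (h : Tube w g c β W D) (hβ0 : 0 ≤ β) (hβ1 : β ≤ 1) (hc : 0 ≤ c)
    (hρ : 0 < ρ) (hA : ∀ x, MM w ρ x ≤ A) (h7 : c * (7 * ρ) ^ β ≤ 1 / 2) {n : ℕ}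
    (hn : (c * ((4 * n + 2) * ρ) ^ β) ^ 2 ≤ 3 / 4) {x₀ p₀ : E} (hp₀ : w p₀ ≠ 0)
    (hpx₀ : p₀ ∈ ball x₀ ρ) (hS : ∀ᵐ y, Coh w c β p₀ y) (x : E) :
    ∃ e : E, ‖e‖ = 1 ∧ 1 / 2 ≤ ⟪e, (‖w p₀‖⁻¹) • w p₀⟫ ∧ (‖x - x₀‖ ≤ 4 * n * ρ →
      MM w ρ x - 4 * K1 * (c * ρ ^ β) * A - 4 * ρ * ∫ y in ball x (5 * ρ), g y
        ≤ MM w ρ (x + (4 * ρ) • e)) := by
  have hn₀ : 0 < ‖w p₀‖ := norm_pos_iff.2 hp₀
  set e₀ : E := (‖w p₀‖⁻¹) • w p₀ with he₀
  have hone : ‖e₀‖ = 1 := by
    rw [he₀, norm_smul, norm_inv, norm_norm, inv_mul_cancel₀ hn₀.ne']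
  have hA0 : 0 ≤ A := (MM_nonneg w ρ 0).trans (hA 0)
  have hee : (1 : ℝ) / 2 ≤ ⟪e₀, e₀⟫ := by
    rw [real_inner_self_eq_norm_sq, hone]; norm_num
  by_cases hx : ‖x - x₀‖ ≤ 4 * n * ρ
  swap
  · exact ⟨e₀, hone, hee, fun h' => absurd h' hx⟩
  rcases (MM_nonneg w ρ x).eq_or_lt with hM | hM
  · refine ⟨e₀, hone, hee, fun _ => ?_⟩
    have h1 : 0 ≤ 4 * K1 * (c * ρ ^ β) * A := by
      have := K1_pos
      have := Real.rpow_nonneg hρ.le β
      positivity
    have h2 : 0 ≤ 4 * ρ * ∫ y in ball x (5 * ρ), g y :=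
      mul_nonneg (by linarith) (integral_nonneg fun y => h.g0 y)
    have h3 := MM_nonneg w ρ (x + (4 * ρ) • e₀)
    linarith
  · obtain ⟨p, hpb, hp0, hpS, hpc⟩ := exists_good hρ (h.coh.and hS) hM
    have hnp : 0 < ‖w p‖ := norm_pos_iff.2 hp0
    set f : E := (‖w p‖⁻¹) • w p with hf
    have hfone : ‖f‖ = 1 := by
      rw [hf, norm_smul, norm_inv, norm_norm, inv_mul_cancel₀ hnp.ne']
    have had : ∀ᵐ y, ‖w y‖ ^ 2 - ⟪f, w y⟫ ^ 2 ≤ (c * ‖p - y‖ ^ β) ^ 2 * ‖w y‖ ^ 2 := by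
      filter_upwards [hpS] with y hy
      exact adapted_of_coh hp0 hy
    have hdist : ‖p₀ - p‖ ≤ (4 * n + 2) * ρ := by
      rw [mem_ball, dist_eq_norm] at hpb hpx₀
      have e1 : p₀ - p = (p₀ - x₀) - (x - x₀) - (p - x) := by abel
      rw [e1]
      have h1 := norm_sub_le ((p₀ - x₀) - (x - x₀)) (p - x)
      have h2 := norm_sub_le (p₀ - x₀) (x - x₀)
      linarith
    have hsq : 1 / 4 ≤ ⟪f, e₀⟫ ^ 2 := by
      have h1 := adapted_of_coh hp₀ hpc
      rw [← he₀] at h1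
      have h2 : (c * ‖p₀ - p‖ ^ β) ^ 2 ≤ 3 / 4 := by
        refine le_trans (pow_le_pow_left₀ (mul_nonneg hc (Real.rpow_nonneg (norm_nonneg _) _)) ?_ 2)
          hn
        exact mul_le_mul_of_nonneg_left (Real.rpow_le_rpow (norm_nonneg _) hdist hβ0) hc
      have h3 : ⟪f, e₀⟫ = ‖w p‖⁻¹ * ⟪e₀, w p⟫ := by
        rw [real_inner_comm, hf, real_inner_smul_right]
      rw [h3, mul_pow]
      have h4 : ‖w p‖ ^ 2 - ⟪e₀, w p⟫ ^ 2 ≤ 3 / 4 * ‖w p‖ ^ 2 :=
        h1.trans (mul_le_mul_of_nonneg_right h2 (sq_nonneg _))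
      have h5 : ‖w p‖⁻¹ ^ 2 * ⟪e₀, w p⟫ ^ 2 = ⟪e₀, w p⟫ ^ 2 / ‖w p‖ ^ 2 := by field_simp
      rw [h5, le_div_iff₀ (by positivity)]
      linarith
    by_cases hpos : 0 ≤ ⟪f, e₀⟫
    · refine ⟨f, hfone, ?_, fun _ => h.step hβ0 hβ1 hc hρ hA h7 hfone hpb had⟩
      nlinarith
    · refine ⟨-f, by rw [norm_neg, hfone], ?_, fun _ => h.step hβ0 hβ1 hc hρ hA h7
        (by rw [norm_neg, hfone]) hpb ?_⟩
      · rw [inner_neg_left]
        push Not at hpos
        nlinarith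
      · filter_upwards [had] with y hy
        rw [inner_neg_left, neg_sq]
        exact hy

/-- The chain of balls. -/
theorem Tube.exists_chain (h : Tube w g c β W D) (hβ0 : 0 ≤ β) (hβ1 : β ≤ 1) (hc : 0 ≤ c)
    (hρ : 0 < ρ) (hA : ∀ x, MM w ρ x ≤ A) (h7 : c * (7 * ρ) ^ β ≤ 1 / 2) {n : ℕ}
    (hn : (c * ((4 * n + 2) * ρ) ^ β) ^ 2 ≤ 3 / 4) {x₀ : E} (hx₀ : 0 < MM w ρ x₀) :
    ∃ (x : ℕ → E) (e₀ : E), x 0 = x₀ ∧ ‖e₀‖ = 1 ∧ (∀ i, ‖x (i + 1) - x i‖ = 4 * ρ) ∧
      (∀ i, 2 * ρ ≤ ⟪x (i + 1) - x i, e₀⟫) ∧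
      (∀ i ≤ n, MM w ρ (x i) - 4 * K1 * (c * ρ ^ β) * A - 4 * ρ * ∫ y in ball (x i) (5 * ρ), g y
        ≤ MM w ρ (x (i + 1))) := by
  obtain ⟨p₀, hpb, hp0, hpS⟩ := exists_good hρ h.coh hx₀
  have hn₀ : 0 < ‖w p₀‖ := norm_pos_iff.2 hp0
  choose e he1 he2 he3 using fun x => h.exists_dir hβ0 hβ1 hc hρ hA h7 hn hp0 hpb hpS x
  set x : ℕ → E := fun k => Nat.rec x₀ (fun _ y => y + (4 * ρ) • e y) k with hx
  have hsucc : ∀ i, x (i + 1) = x i + (4 * ρ) • e (x i) := fun i => rfl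
  have hd : ∀ i, ‖x (i + 1) - x i‖ = 4 * ρ := by
    intro i
    rw [hsucc, add_sub_cancel_left, norm_smul, he1, mul_one, Real.norm_eq_abs,
      abs_of_pos (by linarith)]
  have hdist : ∀ i : ℕ, ‖x i - x₀‖ ≤ 4 * i * ρ := by
    intro i
    induction i with
    | zero => simp [hx]
    | succ k ih =>
      have e1 : x (k + 1) - x₀ = (x (k + 1) - x k) + (x k - x₀) := by abel
      rw [e1]
      refine (norm_add_le _ _).trans ?_
      rw [hd]
      push_cast
      linarith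
  refine ⟨x, (‖w p₀‖⁻¹) • w p₀, rfl, ?_, hd, ?_, ?_⟩
  · rw [norm_smul, norm_inv, norm_norm, inv_mul_cancel₀ hn₀.ne']
  · intro i
    rw [hsucc, add_sub_cancel_left, inner_smul_left]
    simp only [conj_trivial]
    nlinarith [he2 (x i)]
  · intro i hi
    rw [hsucc]
    refine he3 (x i) ((hdist i).trans ?_)
    have : (i : ℝ) ≤ n := by exact_mod_cast hi
    nlinarith

/-- The balls of the chain have bounded overlap. -/
theorem overlap (hρ : 0 < ρ) {x : ℕ → E} {e₀ : E} (he : ‖e₀‖ = 1)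
    (hd : ∀ i, ‖x (i + 1) - x i‖ = 4 * ρ) (hs : ∀ i, 2 * ρ ≤ ⟪x (i + 1) - x i, e₀⟫) {m : ℕ}
    (hm : (4 * m + 5) * ρ ≤ 1) {f : E → ℝ} (hf0 : ∀ y, 0 ≤ f y)
    (hf : IntegrableOn f (ball (x 0) 1)) :
    ∑ i ∈ Finset.range m, ∫ y in ball (x i) (5 * ρ), f y ≤ 5 * ∫ y in ball (x 0) 1, f y := by
  have hdist : ∀ i : ℕ, ‖x i - x 0‖ ≤ 4 * i * ρ := by
    intro i
    induction i with
    | zero => simp
    | succ k ih =>
      have e1 : x (k + 1) - x 0 = (x (k + 1) - x k) + (x k - x 0) := by abel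
      rw [e1]
      refine (norm_add_le _ _).trans ?_
      rw [hd]
      push_cast
      linarith
  have hsep : ∀ i k : ℕ, 2 * ρ * k ≤ ⟪x (i + k) - x i, e₀⟫ := by
    intro i k
    induction k with
    | zero => simp
    | succ k ih =>
      have e1 : x (i + (k + 1)) - x i = (x (i + k + 1) - x (i + k)) + (x (i + k) - x i) := by
        rw [← add_assoc]; abel
      rw [e1, inner_add_left]
      have := hs (i + k)
      push_cast
      linarith
  have hsub : ∀ i ∈ Finset.range m, ball (x i) (5 * ρ) ⊆ ball (x 0) 1 := by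
    intro i hi y hy
    rw [mem_ball, dist_eq_norm] at hy ⊢
    have e1 : y - x 0 = (y - x i) + (x i - x 0) := by abel
    rw [e1]
    have h1 := norm_add_le (y - x i) (x i - x 0)
    have h2 := hdist i
    have h3 : (i : ℝ) ≤ m := by exact_mod_cast (Finset.mem_range.1 hi).le
    nlinarith
  have hcount : ∀ y : E, ∑ i ∈ Finset.range m, (ball (x i) (5 * ρ)).indicator (fun _ => (1 : ℝ)) y
      ≤ 5 := by
    intro y
    classical
    set S := (Finset.range m).filter fun i => y ∈ ball (x i) (5 * ρ) with hS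
    have e1 : ∑ i ∈ Finset.range m, (ball (x i) (5 * ρ)).indicator (fun _ => (1 : ℝ)) y
        = S.card := by
      rw [hS, Finset.card_filter]
      push_cast
      refine Finset.sum_congr rfl fun i _ => ?_
      simp only [indicator]
    rw [e1]
    rcases S.eq_empty_or_nonempty with h0 | h0
    · rw [h0]; simp
    · have hsub : S ⊆ Finset.Icc (S.min' h0) (S.min' h0 + 4) := by
        intro j hj
        have hle := S.min'_le j hj
        rw [Finset.mem_Icc]
        refine ⟨hle, ?_⟩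
        set i := S.min' h0 with hi
        have hiS : i ∈ S := S.min'_mem h0
        have hi1 := (Finset.mem_filter.1 hiS).2
        have hj1 := (Finset.mem_filter.1 hj).2
        rw [mem_ball, dist_eq_norm] at hi1 hj1
        obtain ⟨k, rfl⟩ := Nat.exists_eq_add_of_le hle
        have h1 := hsep i k
        have h2 : ⟪x (i + k) - x i, e₀⟫ ≤ ‖x (i + k) - x i‖ := by
          have := real_inner_le_norm (x (i + k) - x i) e₀
          rw [he, mul_one] at this
          exact this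
        have h3 : ‖x (i + k) - x i‖ < 10 * ρ := by
          have e2 : x (i + k) - x i = (y - x i) - (y - x (i + k)) := by abel
          rw [e2]
          have := norm_sub_le (y - x i) (y - x (i + k))
          linarith
        have h4 : (k : ℝ) < 5 := by
          have : 2 * ρ * k < 2 * ρ * 5 := by linarith
          exact lt_of_mul_lt_mul_left this (by linarith)
        have h5 : k < 5 := by exact_mod_cast h4
        omega
      have := Finset.card_le_card hsub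
      rw [Nat.card_Icc] at this
      have h6 : S.card ≤ 5 := by omega
      exact_mod_cast h6
  have hi : ∀ i ∈ Finset.range m, Integrable ((ball (x i) (5 * ρ)).indicator f) := fun i hi =>
    (hf.mono_set (hsub i hi)).integrable_indicator measurableSet_ball
  calc ∑ i ∈ Finset.range m, ∫ y in ball (x i) (5 * ρ), f y
      = ∑ i ∈ Finset.range m, ∫ y, (ball (x i) (5 * ρ)).indicator f y :=
        Finset.sum_congr rfl fun i _ => (integral_indicator measurableSet_ball).symm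
    _ = ∫ y, ∑ i ∈ Finset.range m, (ball (x i) (5 * ρ)).indicator f y :=
        (integral_finsetSum _ hi).symm
    _ ≤ ∫ y, (ball (x 0) 1).indicator (fun y => 5 * f y) y := by
        refine integral_mono (integrable_finsetSum _ hi)
          (IntegrableOn.integrable_indicator (Integrable.const_mul hf 5) measurableSet_ball)
          fun y => ?_
        by_cases hy : y ∈ ball (x 0) 1
        · rw [indicator_of_mem hy]
          have e1 : ∑ i ∈ Finset.range m, (ball (x i) (5 * ρ)).indicator f y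
              = (∑ i ∈ Finset.range m, (ball (x i) (5 * ρ)).indicator (fun _ => (1 : ℝ)) y) * f y := by
            rw [Finset.sum_mul]
            refine Finset.sum_congr rfl fun i _ => ?_
            simp only [indicator]
            split_ifs <;> simp
          rw [e1]
          exact mul_le_mul_of_nonneg_right (hcount y) (hf0 y)
        · rw [indicator_of_notMem hy]
          refine le_of_eq (Finset.sum_eq_zero fun i hi => ?_)
          exact indicator_of_notMem (fun h' => hy (hsub i hi h')) _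
    _ = 5 * ∫ y in ball (x 0) 1, f y := by
        rw [integral_indicator measurableSet_ball, integral_const_mul]

end Pool.Agent.R210
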