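import Pool.Agent.R210.Flux3

/-!
The flux tube estimate: the averages of the length of a divergence free field with Hoelder
continuous direction over small balls.
-/

open MeasureTheory Set Metric Filter Topology
open scoped ContDiff RealInnerProductSpace

namespace Pool.Agent.R210

variable {w : E → E} {g : E → ℝ} {c β W D ρ A : ℝ}

/-- The volume of the unit ball. -/
noncomputable def v3 : ℝ := (volume (ball (0 : E) 1)).toReal

theorem v3_pos : 0 < v3 :=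
  ENNReal.toReal_pos (measure_ball_pos volume _ one_pos).ne' measure_ball_lt_top.ne

theorem vol_ball (x : E) {r : ℝ} (hr : 0 ≤ r) : (volume (ball x r)).toReal = v3 * r ^ 3 := by
  rw [Measure.addHaar_ball volume x hr, ENNReal.toReal_mul, ENNReal.toReal_ofReal (by positivity)]
  have : Module.finrank ℝ E = 3 := by simp [E]
  rw [this, v3]
  ring

theorem Tube.MM_sq_le (h : Tube w g c β W D) (hρ : 0 < ρ) (hρ1 : ρ ≤ 1) (x : E) :
    MM w ρ x ^ 2 ≤ v3 * ρ ^ 3 * ∫ y in ball x ρ, ‖w y‖ ^ 2 := by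
  have h1 := MM_le hρ h.locInt x
  have h2 : MM w ρ x ^ 2 ≤ (∫ y in ball x ρ, ‖w y‖) ^ 2 :=
    pow_le_pow_left₀ (MM_nonneg w ρ x) h1 2
  refine h2.trans ?_
  rw [← vol_ball x hρ.le]
  exact setInt_le_sqrt measurableSet_ball measure_ball_lt_top.ne h.meas.norm
    (fun y => norm_nonneg _) ((h.sq x).mono_set (ball_subset_ball hρ1))

theorem Tube.MM_bdd (h : Tube w g c β W D) (hρ : 0 < ρ) (hρ1 : ρ ≤ 1) (x : E) :
    MM w ρ x ^ 2 ≤ v3 * ρ ^ 3 * W ^ 2 := by
  refine (h.MM_sq_le hρ hρ1 x).trans ?_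
  refine mul_le_mul_of_nonneg_left ?_ (by have := v3_pos; positivity)
  refine le_trans ?_ (h.bd x)
  exact setIntegral_mono_set (h.sq x) (Filter.Eventually.of_forall fun y => sq_nonneg _)
    (ball_subset_ball hρ1).eventuallyLE

/-- The estimate with a given number of steps. -/
theorem Tube.avg (h : Tube w g c β W D) (hβ0 : 0 ≤ β) (hβ1 : β ≤ 1) (hc : 0 ≤ c)
    (hρ : 0 < ρ) (h7 : c * (7 * ρ) ^ β ≤ 1 / 2) {m : ℕ} (hm1 : 1 ≤ m)
    (hm : (c * ((4 * m + 2) * ρ) ^ β) ^ 2 ≤ 3 / 4) (hmK : 4 * K1 * m * (c * ρ ^ β) ≤ 1 / 8)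
    (hmρ : (4 * m + 5) * ρ ≤ 1) (x : E) :
    MM w ρ x ^ 2 ≤ 640000 * v3 * (ρ ^ 3 * W ^ 2 / m + ρ ^ 5 * m * D ^ 2) := by
  have hv := v3_pos
  have hm0 : (0 : ℝ) < m := by exact_mod_cast hm1
  have hρ5 : 5 * ρ ≤ 1 := by nlinarith
  have hρ1 : ρ ≤ 1 := by linarith
  have hbdd : BddAbove (range (MM w ρ)) := by
    refine ⟨Real.sqrt (v3 * ρ ^ 3 * W ^ 2), ?_⟩
    rintro _ ⟨y, rfl⟩
    exact Real.le_sqrt_of_sq_le (h.MM_bdd hρ hρ1 y)
  set A := ⨆ x, MM w ρ x with hA'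
  have hA : ∀ x, MM w ρ x ≤ A := fun x => le_ciSup hbdd x
  have hA0 : 0 ≤ A := (MM_nonneg w ρ 0).trans (hA 0)
  have hR0 : 0 ≤ 640000 * v3 * (ρ ^ 3 * W ^ 2 / m + ρ ^ 5 * m * D ^ 2) := by positivity
  suffices hA2 : A ^ 2 ≤ 640000 * v3 * (ρ ^ 3 * W ^ 2 / m + ρ ^ 5 * m * D ^ 2) from
    (pow_le_pow_left₀ (MM_nonneg w ρ x) (hA x) 2).trans hA2
  rcases hA0.eq_or_lt with hA1 | hA1
  · rw [← hA1]; simpa using hR0
  obtain ⟨x₀, hx₀⟩ : ∃ x₀, A / 2 < MM w ρ x₀ := exists_lt_of_lt_ciSup (by linarith)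
  obtain ⟨y, e₀, hy0, he, hd, hs, hstep⟩ := h.exists_chain hβ0 hβ1 hc hρ hA h7 hm
    (x₀ := x₀) (by linarith)
  set G : ℕ → ℝ := fun i => ∫ z in ball (y i) (5 * ρ), g z with hG
  have hG0 : ∀ i, 0 ≤ G i := fun i => integral_nonneg fun z => h.g0 z
  set Λ := ∑ i ∈ Finset.range m, G i with hΛ
  have hlow : ∀ j ≤ m, MM w ρ x₀ - j * (4 * K1 * (c * ρ ^ β) * A)
      - 4 * ρ * ∑ i ∈ Finset.range j, G i ≤ MM w ρ (y j) := by
    intro j
    induction j with
    | zero => intro _; simp [hy0]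
    | succ k ih =>
      intro hk
      have h1 := ih (by omega)
      have h2 := hstep k (by omega)
      rw [Finset.sum_range_succ]
      push_cast
      simp only [hG] at h1 ⊢
      nlinarith
  have hlow2 : ∀ j ≤ m, A / 2 - A / 8 - 4 * ρ * Λ ≤ MM w ρ (y j) := by
    intro j hj
    refine le_trans ?_ (hlow j hj)
    have h1 : ∑ i ∈ Finset.range j, G i ≤ Λ :=
      Finset.sum_le_sum_of_subset_of_nonneg (by
        intro i hi; rw [Finset.mem_range] at hi ⊢; omega) fun i _ _ => hG0 i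
    have h2 : (j : ℝ) ≤ m := by exact_mod_cast hj
    have h3 : 0 ≤ 4 * K1 * (c * ρ ^ β) := by
      have := K1_pos
      have := Real.rpow_nonneg hρ.le β
      positivity
    have h4 : (j : ℝ) * (4 * K1 * (c * ρ ^ β) * A) ≤ A / 8 := by
      calc (j : ℝ) * (4 * K1 * (c * ρ ^ β) * A) ≤ m * (4 * K1 * (c * ρ ^ β) * A) :=
            mul_le_mul_of_nonneg_right h2 (mul_nonneg h3 hA0)
        _ = (4 * K1 * m * (c * ρ ^ β)) * A := by ring
        _ ≤ 1 / 8 * A := mul_le_mul_of_nonneg_right hmK hA0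
        _ = A / 8 := by ring
    have h5 : 4 * ρ * ∑ i ∈ Finset.range j, G i ≤ 4 * ρ * Λ :=
      mul_le_mul_of_nonneg_left h1 (by linarith)
    linarith
  rcases le_or_gt (4 * ρ * Λ) (A / 8) with hcase | hcase
  · -- the field is large along the chain
    have h1 : ∀ j ∈ Finset.range m, (A / 4) ^ 2
        ≤ v3 * ρ ^ 3 * ∫ z in ball (y j) (5 * ρ), ‖w z‖ ^ 2 := by
      intro j hj
      have h2 := hlow2 j (Finset.mem_range.1 hj).le
      have h3 : A / 4 ≤ MM w ρ (y j) := by linarith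
      have h4 : (A / 4) ^ 2 ≤ MM w ρ (y j) ^ 2 := pow_le_pow_left₀ (by linarith) h3 2
      refine h4.trans ((h.MM_sq_le hρ hρ1 _).trans ?_)
      refine mul_le_mul_of_nonneg_left ?_ (by positivity)
      refine setIntegral_mono_set ((h.sq _).mono_set (ball_subset_ball hρ5))
        (Filter.Eventually.of_forall fun y => sq_nonneg _)
        (ball_subset_ball (by linarith)).eventuallyLE
    have h2 := Finset.sum_le_sum h1
    rw [Finset.sum_const, Finset.card_range, nsmul_eq_mul, ← Finset.mul_sum] at h2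
    have h3 := overlap hρ he hd hs hmρ (f := fun z => ‖w z‖ ^ 2) (fun z => sq_nonneg _) (h.sq _)
    have h4 := h.bd (y 0)
    have h5 : (m : ℝ) * (A / 4) ^ 2 ≤ v3 * ρ ^ 3 * (5 * W ^ 2) := by
      refine h2.trans (mul_le_mul_of_nonneg_left ?_ (by positivity))
      linarith
    have h6 : A ^ 2 ≤ 80 * v3 * (ρ ^ 3 * W ^ 2 / m) := by
      have : A ^ 2 = 16 * ((m : ℝ) * (A / 4) ^ 2) / m := by field_simp; ring
      rw [this, div_le_iff₀ hm0]
      have e1 : 80 * v3 * (ρ ^ 3 * W ^ 2 / m) * m = 16 * (v3 * ρ ^ 3 * (5 * W ^ 2)) := by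
        field_simp; ring
      rw [e1]
      linarith
    refine h6.trans ?_
    have h7 : 0 ≤ v3 * (ρ ^ 3 * W ^ 2 / m) := by positivity
    have h8 : 0 ≤ v3 * (ρ ^ 5 * m * D ^ 2) := by positivity
    nlinarith
  · -- the sources are large
    have h1 : ∀ i ∈ Finset.range m, G i ^ 2
        ≤ v3 * (5 * ρ) ^ 3 * ∫ z in ball (y i) (5 * ρ), g z ^ 2 := by
      intro i _
      rw [← vol_ball (y i) (by linarith : (0 : ℝ) ≤ 5 * ρ)]
      exact setInt_le_sqrt measurableSet_ball measure_ball_lt_top.ne h.gmeas h.g0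
        ((h.gsq _).mono_set (ball_subset_ball hρ5))
    have h2 : Λ ^ 2 ≤ m * ∑ i ∈ Finset.range m, G i ^ 2 := by
      have := sq_sum_le_card_mul_sum_sq (s := Finset.range m) (f := G)
      rwa [Finset.card_range] at this
    have h3 := Finset.sum_le_sum h1
    rw [← Finset.mul_sum] at h3
    have h4 := overlap hρ he hd hs hmρ (f := fun z => g z ^ 2) (fun z => sq_nonneg _) (h.gsq _)
    have h5 := h.gbd (y 0)
    have h6 : Λ ^ 2 ≤ m * (v3 * (5 * ρ) ^ 3 * (5 * D ^ 2)) := by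
      refine h2.trans (mul_le_mul_of_nonneg_left ?_ hm0.le)
      refine h3.trans (mul_le_mul_of_nonneg_left ?_ (by positivity))
      linarith
    have hΛ0 : 0 ≤ Λ := Finset.sum_nonneg fun i _ => hG0 i
    have h7 : A ^ 2 ≤ (32 * ρ * Λ) ^ 2 := pow_le_pow_left₀ hA0 (by linarith) 2
    have h8 : (32 * ρ * Λ) ^ 2 = 1024 * ρ ^ 2 * Λ ^ 2 := by ring
    have h9 : 1024 * ρ ^ 2 * Λ ^ 2 ≤ 1024 * ρ ^ 2 * (m * (v3 * (5 * ρ) ^ 3 * (5 * D ^ 2))) :=
      mul_le_mul_of_nonneg_left h6 (by positivity)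
    have h10 : 1024 * ρ ^ 2 * (m * (v3 * (5 * ρ) ^ 3 * (5 * D ^ 2)))
        = 640000 * v3 * (ρ ^ 5 * m * D ^ 2) := by ring
    have h11 : 0 ≤ 640000 * v3 * (ρ ^ 3 * W ^ 2 / m) := by positivity
    rw [mul_add]
    linarith

/-- The constant `κ`. -/
noncomputable def kap (β : ℝ) : ℝ := min (1 / (32 * K1)) (2⁻¹ ^ (1 / β) / 6)

theorem K1_ge : 9 ≤ K1 := by
  have h1 := one_le_LL
  have h2 : (0 : ℝ) ≤ tt.card := Nat.cast_nonneg _
  unfold K1
  nlinarith

theorem kap_pos (β : ℝ) : 0 < kap β := by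
  have := K1_pos
  exact lt_min (by positivity) (by positivity)

theorem kap_le (β : ℝ) : kap β ≤ 1 / 288 := by
  refine (min_le_left _ _).trans ?_
  have := K1_ge
  rw [div_le_div_iff₀ (by linarith) (by norm_num)]
  linarith

theorem kap_cond (hβ0 : 0 < β) (hβ1 : β ≤ 1) (hc : 1 ≤ c) (hρ : 0 < ρ) (hρ1 : ρ ≤ 1) {m : ℕ}
    (hm1 : 1 ≤ m) (hm : m * (c * ρ ^ β) ≤ kap β) :
    c * (7 * ρ) ^ β ≤ 1 / 2 ∧ (c * ((4 * m + 2) * ρ) ^ β) ^ 2 ≤ 3 / 4 ∧
      4 * K1 * m * (c * ρ ^ β) ≤ 1 / 8 ∧ (4 * m + 5) * ρ ≤ 1 := by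
  have hm0 : (1 : ℝ) ≤ m := by exact_mod_cast hm1
  have hκ := kap_pos β
  have hκ1 := kap_le β
  have hrp : 0 < ρ ^ β := Real.rpow_pos_of_pos hρ _
  have hcr : 0 < c * ρ ^ β := by positivity
  have h1 : c * ρ ^ β ≤ kap β := by nlinarith
  -- `m ρ ≤ κ`
  have hρβ : ρ ≤ ρ ^ β := by
    calc ρ = ρ ^ (1 : ℝ) := (Real.rpow_one _).symm
      _ ≤ ρ ^ β := Real.rpow_le_rpow_of_exponent_ge hρ hρ1 hβ1
  have hmρ : m * ρ ≤ kap β := by
    refine le_trans ?_ hm
    refine mul_le_mul_of_nonneg_left ?_ (by linarith)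
    nlinarith
  refine ⟨?_, ?_, ?_, ?_⟩
  · have h2 : (7 * ρ) ^ β ≤ 7 * ρ ^ β := by
      rw [Real.mul_rpow (by norm_num) hρ.le]
      refine mul_le_mul_of_nonneg_right ?_ hrp.le
      calc (7 : ℝ) ^ β ≤ 7 ^ (1 : ℝ) := Real.rpow_le_rpow_of_exponent_le (by norm_num) hβ1
        _ = 7 := Real.rpow_one _
    have h3 := mul_le_mul_of_nonneg_left h2 (by linarith : 0 ≤ c)
    linarith
  · have h2 : c * ((4 * m + 2) * ρ) ^ β ≤ 1 / 2 := by
      have h3 : ((4 * m + 2) * ρ) ^ β ≤ (6 * (m * ρ)) ^ β := by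
        refine Real.rpow_le_rpow (by positivity) ?_ hβ0.le
        nlinarith
      -- `m ρ = (m c ρ^β) ρ^(1-β) / c`
      have h4 : m * ρ ≤ kap β * (ρ ^ (1 - β) / c) := by
        have e1 : m * ρ = (m * (c * ρ ^ β)) * (ρ ^ (1 - β) / c) := by
          have : ρ ^ β * ρ ^ (1 - β) = ρ := by
            rw [← Real.rpow_add hρ]; simp
          field_simp
          linarith
        rw [e1]
        refine mul_le_mul_of_nonneg_right hm ?_
        have := Real.rpow_pos_of_pos hρ (1 - β)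
        positivity
      have h5 : (6 * (m * ρ)) ^ β ≤ (6 * kap β) ^ β * (ρ ^ (1 - β) / c) ^ β := by
        have h6 : 0 ≤ ρ ^ (1 - β) / c := by
          have := Real.rpow_pos_of_pos hρ (1 - β)
          positivity
        rw [← Real.mul_rpow (by linarith) h6]
        refine Real.rpow_le_rpow (by positivity) ?_ hβ0.le
        linarith
      have h7 : (6 * kap β) ^ β ≤ 1 / 2 := by
        have h8 : 6 * kap β ≤ 2⁻¹ ^ (1 / β) := by
          have := min_le_right (1 / (32 * K1)) ((2 : ℝ)⁻¹ ^ (1 / β) / 6)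
          have h9 : kap β ≤ 2⁻¹ ^ (1 / β) / 6 := this
          linarith
        calc (6 * kap β) ^ β ≤ (2⁻¹ ^ (1 / β)) ^ β := Real.rpow_le_rpow (by linarith) h8 hβ0.le
          _ = 2⁻¹ := by
            rw [← Real.rpow_mul (by norm_num), one_div, inv_mul_cancel₀ hβ0.ne', Real.rpow_one]
          _ = 1 / 2 := by norm_num
      have h10 : c * (ρ ^ (1 - β) / c) ^ β ≤ 1 := by
        have e1 : c * (ρ ^ (1 - β) / c) ^ β = (c * ρ ^ β) ^ (1 - β) := by
          have hp := Real.rpow_pos_of_pos hρ (1 - β)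
          have hc0 : 0 < c := by linarith
          rw [Real.div_rpow hp.le hc0.le, Real.mul_rpow hc0.le hrp.le, ← Real.rpow_mul hρ.le,
            ← Real.rpow_mul hρ.le, mul_comm (1 - β) β, Real.rpow_sub hc0, Real.rpow_one]
          field_simp
        rw [e1]
        exact Real.rpow_le_one hcr.le (by linarith) (by linarith)
      calc c * ((4 * m + 2) * ρ) ^ β ≤ c * ((6 * kap β) ^ β * (ρ ^ (1 - β) / c) ^ β) :=
            mul_le_mul_of_nonneg_left (h3.trans h5) (by linarith)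
        _ = (6 * kap β) ^ β * (c * (ρ ^ (1 - β) / c) ^ β) := by ring
        _ ≤ 1 / 2 * 1 := by
            refine mul_le_mul h7 h10 ?_ (by norm_num)
            have := Real.rpow_pos_of_pos hρ (1 - β)
            positivity
        _ = 1 / 2 := by ring
    have h3 : 0 ≤ c * ((4 * m + 2) * ρ) ^ β := by positivity
    nlinarith
  · have h2 : kap β ≤ 1 / (32 * K1) := min_le_left _ _
    have hK := K1_pos
    have h3 : 4 * K1 * (m * (c * ρ ^ β)) ≤ 4 * K1 * (1 / (32 * K1)) :=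
      mul_le_mul_of_nonneg_left (hm.trans h2) (by positivity)
    have h4 : 4 * K1 * (1 / (32 * K1)) = 1 / 8 := by field_simp; norm_num
    nlinarith
  · nlinarith

/-- The constant of the flux tube estimate. -/
noncomputable def CF (β : ℝ) : ℝ := 640000 * v3 * (2 / kap β + 3)

theorem CF_pos (β : ℝ) : 0 < CF β := by
  have := v3_pos
  have := kap_pos β
  unfold CF
  positivity

/-- **The flux tube estimate.** -/
theorem Tube.flux (h : Tube w g c β W D) (hβ0 : 0 < β) (hβ1 : β ≤ 1) (hc : 1 ≤ c)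
    (hρ : 0 < ρ) (hρ1 : ρ ≤ 1) (hκ : c * ρ ^ β ≤ kap β) (x : E) :
    MM w ρ x ^ 2 ≤ CF β * (c * ρ ^ (3 + β) * W ^ 2 + ρ ^ 4 * (W * D)) := by
  have hv := v3_pos
  have hκ0 := kap_pos β
  have hκ1 := kap_le β
  have hrp : 0 < ρ ^ β := Real.rpow_pos_of_pos hρ _
  have hcr : 0 < c * ρ ^ β := by positivity
  have hW := h.W0
  have hD := h.D0
  have hrp3 : ρ ^ (3 + β) = ρ ^ 3 * ρ ^ β := by
    rw [Real.rpow_add hρ]; norm_cast
  set a : ℝ := kap β / (c * ρ ^ β) with ha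
  have ha1 : 1 ≤ a := by rw [ha, one_le_div hcr]; exact hκ
  -- a general step count
  have key : ∀ m : ℕ, 1 ≤ m → (m : ℝ) ≤ a →
      MM w ρ x ^ 2 ≤ 640000 * v3 * (ρ ^ 3 * W ^ 2 / m + ρ ^ 5 * m * D ^ 2) := by
    intro m hm1 hm
    have h1 : m * (c * ρ ^ β) ≤ kap β := by rwa [ha, le_div_iff₀ hcr] at hm
    obtain ⟨h7, h2, h3, h4⟩ := kap_cond hβ0 hβ1 hc hρ hρ1 hm1 h1
    exact h.avg hβ0.le hβ1 (by linarith) hρ h7 hm1 h2 h3 h4 x
  have hfl : ∀ b : ℝ, 1 ≤ b → 1 ≤ ⌊b⌋₊ ∧ (⌊b⌋₊ : ℝ) ≤ b ∧ 1 / (⌊b⌋₊ : ℝ) ≤ 2 / b := by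
    intro b hb
    have h1 : 1 ≤ ⌊b⌋₊ := Nat.le_floor (by exact_mod_cast hb)
    have h2 : (⌊b⌋₊ : ℝ) ≤ b := Nat.floor_le (by linarith)
    have h3 : b < ⌊b⌋₊ + 1 := Nat.lt_floor_add_one b
    have h4 : (1 : ℝ) ≤ ⌊b⌋₊ := by exact_mod_cast h1
    refine ⟨h1, h2, ?_⟩
    rw [div_le_div_iff₀ (by linarith) (by linarith)]
    linarith
  have hWD0 : 0 ≤ ρ ^ 4 * (W * D) := by positivity
  have hX0 : 0 ≤ c * ρ ^ (3 + β) * W ^ 2 := by
    have := Real.rpow_pos_of_pos hρ (3 + β)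
    positivity
  have ha2 : 2 / a = 2 / kap β * (c * ρ ^ β) := by rw [ha]; field_simp
  rcases hD.eq_or_lt with hD0 | hD0
  · obtain ⟨h1, h2, h3⟩ := hfl a ha1
    have h4 := key _ h1 h2
    rw [← hD0] at h4
    refine h4.trans ?_
    unfold CF
    have h5 : ρ ^ 3 * W ^ 2 / ⌊a⌋₊ ≤ 2 / kap β * (c * ρ ^ (3 + β) * W ^ 2) := by
      calc ρ ^ 3 * W ^ 2 / ⌊a⌋₊ = ρ ^ 3 * W ^ 2 * (1 / ⌊a⌋₊) := by ring
        _ ≤ ρ ^ 3 * W ^ 2 * (2 / a) := mul_le_mul_of_nonneg_left h3 (by positivity)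
        _ = 2 / kap β * (c * ρ ^ (3 + β) * W ^ 2) := by rw [ha2, hrp3]; ring
    rw [← hD0]
    have h6 : 640000 * v3 * (ρ ^ 3 * W ^ 2 / ⌊a⌋₊ + ρ ^ 5 * ⌊a⌋₊ * (0 : ℝ) ^ 2)
        = 640000 * v3 * (ρ ^ 3 * W ^ 2 / ⌊a⌋₊) := by ring
    rw [h6]
    have h7 : 640000 * v3 * (2 / kap β + 3) * (c * ρ ^ (3 + β) * W ^ 2 + ρ ^ 4 * (W * 0))
        = 640000 * v3 * (2 / kap β * (c * ρ ^ (3 + β) * W ^ 2))
          + 640000 * v3 * 3 * (c * ρ ^ (3 + β) * W ^ 2) := by ring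
    rw [h7]
    have h8 := mul_le_mul_of_nonneg_left h5 (by positivity : 0 ≤ 640000 * v3)
    have h9 : 0 ≤ 640000 * v3 * 3 * (c * ρ ^ (3 + β) * W ^ 2) := by positivity
    linarith
  · rcases le_or_gt W (ρ * D) with hcase | hcase
    · refine (h.MM_bdd hρ hρ1 x).trans ?_
      have h1 : ρ ^ 3 * W ^ 2 ≤ ρ ^ 4 * (W * D) := by
        have e1 : ρ ^ 4 * (W * D) = ρ ^ 3 * (W * (ρ * D)) := by ring
        rw [e1]
        refine mul_le_mul_of_nonneg_left ?_ (by positivity)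
        rw [pow_two]
        exact mul_le_mul_of_nonneg_left hcase hW
      unfold CF
      have h2 : 0 ≤ 2 / kap β := by positivity
      calc v3 * ρ ^ 3 * W ^ 2 = v3 * (ρ ^ 3 * W ^ 2) := by ring
        _ ≤ v3 * (ρ ^ 4 * (W * D)) := mul_le_mul_of_nonneg_left h1 hv.le
        _ ≤ 640000 * v3 * (2 / kap β + 3) * (ρ ^ 4 * (W * D)) := by
            refine mul_le_mul_of_nonneg_right ?_ hWD0
            nlinarith
        _ ≤ 640000 * v3 * (2 / kap β + 3) * (c * ρ ^ (3 + β) * W ^ 2 + ρ ^ 4 * (W * D)) := by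
            refine mul_le_mul_of_nonneg_left (by linarith) (by positivity)
    · set b : ℝ := W / (ρ * D) with hb
      have hρD : 0 < ρ * D := by positivity
      have hb1 : 1 ≤ b := by rw [hb, one_le_div hρD]; exact hcase.le
      have hWpos : 0 < W := hρD.trans hcase
      have hmin : 1 ≤ min a b := le_min ha1 hb1
      obtain ⟨h1, h2, h3⟩ := hfl (min a b) hmin
      have h4 := key _ h1 (h2.trans (min_le_left _ _))
      refine h4.trans ?_
      set m := ⌊min a b⌋₊ with hm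
      have hm0 : (0 : ℝ) < m := by exact_mod_cast h1
      have ha0 : 0 < a := by linarith
      have hb0 : 0 < b := by linarith
      have h5 : (2 : ℝ) / min a b ≤ 2 / a + 2 / b := by
        rcases le_total a b with h | h
        · rw [min_eq_left h]
          have : 0 < 2 / b := by positivity
          linarith
        · rw [min_eq_right h]
          have : 0 < 2 / a := by positivity
          linarith
      have h6 : ρ ^ 3 * W ^ 2 / m ≤ 2 / kap β * (c * ρ ^ (3 + β) * W ^ 2)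
          + 2 * (ρ ^ 4 * (W * D)) := by
        calc ρ ^ 3 * W ^ 2 / m = ρ ^ 3 * W ^ 2 * (1 / m) := by ring
          _ ≤ ρ ^ 3 * W ^ 2 * (2 / a + 2 / b) :=
              mul_le_mul_of_nonneg_left (h3.trans h5) (by positivity)
          _ = 2 / kap β * (c * ρ ^ (3 + β) * W ^ 2) + 2 * (ρ ^ 4 * (W * D)) := by
              rw [ha2, hrp3, hb]
              field_simp
      have h7 : ρ ^ 5 * m * D ^ 2 ≤ ρ ^ 4 * (W * D) := by
        have h8 : (m : ℝ) ≤ b := h2.trans (min_le_right _ _)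
        calc ρ ^ 5 * m * D ^ 2 = ρ ^ 5 * D ^ 2 * m := by ring
          _ ≤ ρ ^ 5 * D ^ 2 * b := mul_le_mul_of_nonneg_left h8 (by positivity)
          _ = ρ ^ 4 * (W * D) := by
              rw [hb]
              field_simp
      unfold CF
      calc 640000 * v3 * (ρ ^ 3 * W ^ 2 / m + ρ ^ 5 * m * D ^ 2)
          ≤ 640000 * v3 * (2 / kap β * (c * ρ ^ (3 + β) * W ^ 2)
            + 2 * (ρ ^ 4 * (W * D)) + ρ ^ 4 * (W * D)) :=
            mul_le_mul_of_nonneg_left (by linarith) (by positivity)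
        _ ≤ 640000 * v3 * ((2 / kap β + 3) * (c * ρ ^ (3 + β) * W ^ 2 + ρ ^ 4 * (W * D))) := by
            refine mul_le_mul_of_nonneg_left ?_ (by positivity)
            have h9 : 0 < 2 / kap β := by positivity
            nlinarith
        _ = 640000 * v3 * (2 / kap β + 3) * (c * ρ ^ (3 + β) * W ^ 2 + ρ ^ 4 * (W * D)) := by ring

end Pool.Agent.R210
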