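import Mathlib

/-!
An interpolation inequality: dyadic approximations with decreasing `L²` errors and slowly growing
bounds.
-/

open MeasureTheory Set Filter Topology
open scoped ENNReal

namespace Pool.Agent.R210

variable {X : Type*} [MeasurableSpace X] {μ : Measure X} {F : Type*} [NormedAddCommGroup F]

theorem eLpNorm_le_of_bound {g : X → F} {q B m : ℝ} (hq : 2 < q) (hB : 0 ≤ B) (hm : 0 ≤ m)
    (h1 : ∀ᵐ x ∂μ, ‖g x‖ ≤ B) (h2 : ∫⁻ x, ‖g x‖ₑ ^ (2 : ℝ) ∂μ ≤ ENNReal.ofReal m) :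
    eLpNorm g (ENNReal.ofReal q) μ ≤ ENNReal.ofReal ((B ^ (q - 2) * m) ^ (1 / q)) := by
  have hq0 : 0 < q := by linarith
  rw [eLpNorm_eq_lintegral_rpow_enorm_toReal (by simpa using hq0) ENNReal.ofReal_ne_top,
    ENNReal.toReal_ofReal hq0.le]
  have h3 : ∫⁻ x, ‖g x‖ₑ ^ q ∂μ ≤ ENNReal.ofReal (B ^ (q - 2) * m) := by
    calc ∫⁻ x, ‖g x‖ₑ ^ q ∂μ ≤ ∫⁻ x, ENNReal.ofReal (B ^ (q - 2)) * ‖g x‖ₑ ^ (2 : ℝ) ∂μ := by
          refine lintegral_mono_ae ?_
          filter_upwards [h1] with x hx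
          have e1 : ‖g x‖ₑ ^ q = ‖g x‖ₑ ^ (q - 2) * ‖g x‖ₑ ^ (2 : ℝ) := by
            rw [← ENNReal.rpow_add_of_nonneg _ _ (by linarith) (by norm_num)]
            congr 1; ring
          rw [e1]
          refine mul_le_mul_left ?_ _
          rw [← ofReal_norm, ENNReal.ofReal_rpow_of_nonneg (norm_nonneg _) (by linarith)]
          exact ENNReal.ofReal_le_ofReal (Real.rpow_le_rpow (norm_nonneg _) hx (by linarith))
      _ = ENNReal.ofReal (B ^ (q - 2)) * ∫⁻ x, ‖g x‖ₑ ^ (2 : ℝ) ∂μ :=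
          lintegral_const_mul' _ _ ENNReal.ofReal_ne_top
      _ ≤ ENNReal.ofReal (B ^ (q - 2)) * ENNReal.ofReal m := mul_le_mul_right h2 _
      _ = ENNReal.ofReal (B ^ (q - 2) * m) :=
          (ENNReal.ofReal_mul (Real.rpow_nonneg hB _)).symm
  calc (∫⁻ x, ‖g x‖ₑ ^ q ∂μ) ^ (1 / q) ≤ ENNReal.ofReal (B ^ (q - 2) * m) ^ (1 / q) :=
        ENNReal.rpow_le_rpow h3 (by positivity)
    _ = ENNReal.ofReal ((B ^ (q - 2) * m) ^ (1 / q)) :=
        ENNReal.ofReal_rpow_of_nonneg (mul_nonneg (Real.rpow_nonneg hB _) hm) (by positivity)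

/-- The interpolation inequality. -/
theorem interp {q s : ℝ} (hq : 2 < q) (hs : 0 ≤ s) (hsq : s * (q - 2) < 2) : ∃ C : ℝ, 0 < C ∧
    ∀ (X : Type) [MeasurableSpace X] (μ : Measure X) (F : Type) [NormedAddCommGroup F]
      (f : X → F) (g : ℕ → X → F) (Λ a y : ℝ), 0 ≤ Λ → 0 ≤ a → 0 ≤ y →
      (∀ k, AEStronglyMeasurable (g k) μ) →
      (∀ k : ℕ, ∀ᵐ x ∂μ, ‖g k x‖ ≤ Λ * 2 ^ (s * k)) →
      (∀ k : ℕ, ∫⁻ x, ‖g (k + 1) x - g k x‖ₑ ^ (2 : ℝ) ∂μ ≤ ENNReal.ofReal (a * 4⁻¹ ^ k)) →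
      ∫⁻ x, ‖g 0 x‖ₑ ^ (2 : ℝ) ∂μ ≤ ENNReal.ofReal y →
      (∀ᵐ x ∂μ, Tendsto (fun k => g k x) atTop (𝓝 (f x))) →
      ∫⁻ x, ‖f x‖ₑ ^ q ∂μ ≤ ENNReal.ofReal (C * (Λ ^ (q - 2) * (a + y))) := by
  have hq0 : 0 < q := by linarith
  set r : ℝ := 2 ^ ((s * (q - 2) - 2) / q) with hr
  have hr0 : 0 < r := by positivity
  have hr1 : r < 1 := by
    refine Real.rpow_lt_one_of_one_lt_of_neg (by norm_num) ?_
    exact div_neg_of_neg_of_pos (by linarith) hq0
  set c1 : ℝ := (2 * 2 ^ s) ^ ((q - 2) / q) with hc1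
  have hc10 : 0 < c1 := by positivity
  set C0 : ℝ := 1 + c1 * (1 - r)⁻¹ with hC0
  have hinv : 0 < (1 - r)⁻¹ := inv_pos.2 (by linarith)
  have hC0p : 0 < C0 := by positivity
  refine ⟨C0 ^ q, by positivity, ?_⟩
  intro X _ μ F _ f g Λ a y hΛ ha hy hm hb hd h0 hlim
  set N : ℝ := (Λ ^ (q - 2) * (a + y)) ^ (1 / q) with hN
  have hΛq : 0 ≤ Λ ^ (q - 2) := Real.rpow_nonneg hΛ _
  have hN0 : 0 ≤ N := by positivity
  -- the increments
  have hinc : ∀ k : ℕ, eLpNorm (g (k + 1) - g k) (ENNReal.ofReal q) μ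
      ≤ ENNReal.ofReal (c1 * N * r ^ k) := by
    intro k
    have hB : ∀ᵐ x ∂μ, ‖(g (k + 1) - g k) x‖ ≤ Λ * 2 * 2 ^ s * 2 ^ (s * k) := by
      filter_upwards [hb (k + 1), hb k] with x h1 h2
      have h3 : (2 : ℝ) ^ (s * ((k + 1 : ℕ) : ℝ)) = 2 ^ s * 2 ^ (s * k) := by
        rw [← Real.rpow_add (by norm_num)]
        congr 1; push_cast; ring
      rw [h3] at h1
      have h4 : (1 : ℝ) ≤ 2 ^ s := Real.one_le_rpow (by norm_num) hs
      have h5 : 0 ≤ (2 : ℝ) ^ (s * k) := by positivity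
      have h6 : Λ * 2 ^ (s * k) ≤ Λ * (2 ^ s * 2 ^ (s * k)) := by
        refine mul_le_mul_of_nonneg_left ?_ hΛ
        nlinarith
      refine (norm_sub_le _ _).trans ?_
      linarith
    refine (eLpNorm_le_of_bound hq (by positivity) (by positivity) hB (hd k)).trans ?_
    refine ENNReal.ofReal_le_ofReal (le_of_eq_of_le (b := c1 * r ^ k
      * (Λ ^ (q - 2) * a) ^ (1 / q)) ?_ ?_)
    · have e1 : (Λ * 2 * 2 ^ s * 2 ^ (s * (k : ℝ))) ^ (q - 2) * (a * 4⁻¹ ^ k)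
          = (2 * 2 ^ s) ^ (q - 2) * (2 ^ ((s * (q - 2) - 2) * k)) * (Λ ^ (q - 2) * a) := by
        have e2 : Λ * 2 * 2 ^ s * 2 ^ (s * (k : ℝ)) = Λ * (2 * 2 ^ s) * 2 ^ (s * (k : ℝ)) := by ring
        rw [e2, Real.mul_rpow (by positivity) (by positivity), Real.mul_rpow hΛ (by positivity),
          ← Real.rpow_mul (by norm_num)]
        have e3 : (4⁻¹ : ℝ) ^ k = 2 ^ (-2 * (k : ℝ)) := by
          rw [Real.rpow_mul (by norm_num), Real.rpow_natCast]
          congr 1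
          rw [Real.rpow_neg (by norm_num)]
          norm_num
        rw [e3]
        have e4 : (s * (q - 2) - 2) * (k : ℝ) = s * k * (q - 2) + -2 * k := by ring
        rw [e4, Real.rpow_add (by norm_num)]
        ring
      rw [e1, Real.mul_rpow (by positivity) (by positivity),
        Real.mul_rpow (by positivity) (by positivity), ← Real.rpow_mul (by positivity),
        ← Real.rpow_mul (by norm_num)]
      have e5 : (q - 2) * (1 / q) = (q - 2) / q := by ring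
      have e6 : (2 : ℝ) ^ ((s * (q - 2) - 2) * k * (1 / q)) = r ^ k := by
        rw [hr, ← Real.rpow_natCast, ← Real.rpow_mul (by norm_num)]
        congr 1; ring
      rw [e5, e6]
    · have h1 : (Λ ^ (q - 2) * a) ^ (1 / q) ≤ N :=
        Real.rpow_le_rpow (by positivity) (mul_le_mul_of_nonneg_left (by linarith) hΛq)
          (by positivity)
      calc c1 * r ^ k * (Λ ^ (q - 2) * a) ^ (1 / q) ≤ c1 * r ^ k * N :=
            mul_le_mul_of_nonneg_left h1 (by positivity)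
        _ = c1 * N * r ^ k := by ring
  -- the approximations
  have happ : ∀ K : ℕ, eLpNorm (g K) (ENNReal.ofReal q) μ ≤ ENNReal.ofReal (C0 * N) := by
    intro K
    have hsum : g K = g 0 + ∑ k ∈ Finset.range K, (g (k + 1) - g k) := by
      rw [Finset.sum_range_sub]; abel
    have hq1 : (1 : ℝ≥0∞) ≤ ENNReal.ofReal q := by
      rw [← ENNReal.ofReal_one]; exact ENNReal.ofReal_le_ofReal (by linarith)
    rw [hsum]
    refine (eLpNorm_add_le (hm 0) (Finset.aestronglyMeasurable_sum _ fun k _ =>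
      (hm (k + 1)).sub (hm k)) hq1).trans ?_
    have h1 : eLpNorm (g 0) (ENNReal.ofReal q) μ ≤ ENNReal.ofReal N := by
      have hB : ∀ᵐ x ∂μ, ‖g 0 x‖ ≤ Λ := by
        filter_upwards [hb 0] with x hx
        simpa using hx
      refine (eLpNorm_le_of_bound hq hΛ hy hB h0).trans (ENNReal.ofReal_le_ofReal ?_)
      exact Real.rpow_le_rpow (by positivity) (mul_le_mul_of_nonneg_left (by linarith) hΛq)
          (by positivity)
    have h2 : eLpNorm (∑ k ∈ Finset.range K, (g (k + 1) - g k)) (ENNReal.ofReal q) μ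
        ≤ ENNReal.ofReal (c1 * N * (1 - r)⁻¹) := by
      refine (eLpNorm_sum_le (fun k _ => (hm (k + 1)).sub (hm k)) hq1).trans ?_
      refine (Finset.sum_le_sum fun k _ => hinc k).trans ?_
      rw [← ENNReal.ofReal_sum_of_nonneg (fun k _ => by positivity)]
      refine ENNReal.ofReal_le_ofReal ?_
      rw [← Finset.mul_sum]
      refine mul_le_mul_of_nonneg_left ?_ (by positivity)
      exact (Summable.sum_le_tsum _ (fun k _ => by positivity)
        (summable_geometric_of_lt_one hr0.le hr1)).trans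
        (tsum_geometric_of_lt_one hr0.le hr1).le
    refine (add_le_add h1 h2).trans ?_
    rw [← ENNReal.ofReal_add hN0 (by positivity)]
    refine ENNReal.ofReal_le_ofReal (le_of_eq ?_)
    rw [hC0]; ring
  -- the limit
  have hfin := Lp.eLpNorm_le_of_ae_tendsto (p := ENNReal.ofReal q) (u := atTop)
    (f := g) (g := f) (C := ENNReal.ofReal (C0 * N)) (Filter.Eventually.of_forall happ) hm hlim
  rw [eLpNorm_eq_lintegral_rpow_enorm_toReal (by simpa using hq0) ENNReal.ofReal_ne_top,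
    ENNReal.toReal_ofReal hq0.le] at hfin
  have h5 := ENNReal.rpow_le_rpow hfin hq0.le
  rw [← ENNReal.rpow_mul, one_div, inv_mul_cancel₀ hq0.ne', ENNReal.rpow_one,
    ENNReal.ofReal_rpow_of_nonneg (by positivity) hq0.le, Real.mul_rpow hC0p.le hN0, hN,
    ← Real.rpow_mul (by positivity), one_div, inv_mul_cancel₀ hq0.ne', Real.rpow_one] at h5
  exact h5

end Pool.Agent.R210
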