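import Pool.Agent.R210.MollL2

/-!
The cube of the length of a periodic field.
-/

open MeasureTheory Set Filter Topology
open scoped ENNReal ContDiff
open H459R3.NS

namespace Pool.Agent.R210

theorem G2_nonneg (w : V → V) (x : V) : 0 ≤ G2 w x := Finset.sum_nonneg fun _ _ => gr2_nonneg _ _

theorem G2_cont {w : V → V} (hw : ∀ i, SP (fun x => w x i)) : Continuous (G2 w) :=
  continuous_finsetSum _ fun i _ => gr2_cont (hw i)

theorem ofReal_int {f : V → ℝ} (hc : Continuous f) (h0 : ∀ x, 0 ≤ f x) :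
    ∫⁻ x in cube, ENNReal.ofReal (f x) = ENNReal.ofReal (∫ x in cube, f x) :=
  (ofReal_integral_eq_lintegral_ofReal (integrableOn_cube hc) (Filter.Eventually.of_forall h0)).symm

/-- The interpolation inequality for the third power. -/
theorem L3_le {s : ℝ} (hs0 : 0 ≤ s) (hs2 : s < 2) : ∃ C : ℝ, 0 < C ∧
    ∀ (w : V → V) (ρ Λ : ℝ), (∀ i, SP (fun x => w x i)) → 0 < ρ → 0 ≤ Λ →
      (∀ τ : ℝ, 0 < τ → τ ≤ ρ → ∀ x, mo phi τ (fun y => en (w y)) x ≤ Λ * (ρ / τ) ^ s) →
      ∫ x in cube, en (w x) ^ 3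
        ≤ C * (Λ * (ρ ^ 2 * (∫ x in cube, G2 w x) + ∫ x in cube, rsq (w x))) := by
  obtain ⟨C, hC0, hC⟩ := interp (q := 3) (s := s) (by norm_num) hs0 (by norm_num; exact hs2)
  refine ⟨C * 3, by positivity, fun w ρ Λ hw hρ hΛ hb => ?_⟩
  have hf := f_cont hw
  set D := ∫ x in cube, G2 w x with hD
  set Y := ∫ x in cube, rsq (w x) with hY
  have hD0 : 0 ≤ D := integral_nonneg fun x => G2_nonneg _ _
  have hY0 : 0 ≤ Y := integral_nonneg fun x => rsq_nonneg _
  have hDl : ∫⁻ x in cube, ENNReal.ofReal (G2 w x) = ENNReal.ofReal D :=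
    ofReal_int (G2_cont hw) fun x => G2_nonneg _ _
  have hYl : ∫⁻ x in cube, ENNReal.ofReal (rsq (w x)) = ENNReal.ofReal Y :=
    ofReal_int (f := fun x => rsq (w x)) (rsq_smooth.continuous.comp (w_cont hw))
      fun x => rsq_nonneg _
  set τ : ℕ → ℝ := fun k => ρ * 2⁻¹ ^ k with hτ
  have hτ0 : ∀ k, 0 < τ k := fun k => by simp only [hτ]; positivity
  have hτ1 : ∀ k, τ k ≤ ρ := fun k => by
    simp only [hτ]
    exact mul_le_of_le_one_right hρ.le (pow_le_one₀ (by norm_num) (by norm_num))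
  set g : ℕ → V → ℝ := fun k x => mo phi (τ k) (fun y => en (w y)) x with hg
  have hgc : ∀ k, Continuous (g k) := fun k =>
    (mo_cont phi_smooth.continuous phi_compact hf (f_per hw)).comp
      (continuous_const.prodMk continuous_id)
  have hg0 : ∀ k x, 0 ≤ g k x := fun k x =>
    integral_nonneg fun z => mul_nonneg (phi_nonneg z) (en_nonneg _)
  have hsq : ∀ a : ℝ, ‖a‖ₑ ^ (2 : ℝ) = ENNReal.ofReal (a ^ 2) := by
    intro a
    rw [← ofReal_norm, ENNReal.ofReal_rpow_of_nonneg (norm_nonneg _) (by norm_num)]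
    congr 1
    rw [Real.norm_eq_abs]
    norm_cast
    exact sq_abs a
  have key := hC V (volume.restrict cube) ℝ (fun x => en (w x)) g Λ (5 / 2 * ρ ^ 2 * D) Y hΛ
    (by positivity) hY0 (fun k => (hgc k).aestronglyMeasurable) ?_ ?_ ?_ ?_
  · have h3 : ∫⁻ x in cube, ‖en (w x)‖ₑ ^ (3 : ℝ)
        = ENNReal.ofReal (∫ x in cube, en (w x) ^ 3) := by
      rw [← ofReal_int (f := fun x => en (w x) ^ 3) (hf.pow 3) fun x => pow_nonneg (en_nonneg _) 3]
      refine lintegral_congr fun x => ?_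
      rw [← ofReal_norm, ENNReal.ofReal_rpow_of_nonneg (norm_nonneg _) (by norm_num)]
      congr 1
      rw [Real.norm_eq_abs, abs_of_nonneg (en_nonneg _)]
      norm_cast
    rw [h3] at key
    have h4 : (0 : ℝ) ≤ C * (Λ ^ ((3 : ℝ) - 2) * (5 / 2 * ρ ^ 2 * D + Y)) := by positivity
    have h5 := (ENNReal.ofReal_le_ofReal_iff h4).1 key
    refine h5.trans ?_
    have h6 : Λ ^ ((3 : ℝ) - 2) = Λ := by
      norm_num
    rw [h6]
    have h7 : 0 ≤ Λ * (ρ ^ 2 * D) := by positivity
    have h8 : 0 ≤ Λ * Y := by positivity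
    have h9 : Λ * (5 / 2 * ρ ^ 2 * D + Y) ≤ 3 * (Λ * (ρ ^ 2 * D + Y)) := by nlinarith
    calc C * (Λ * (5 / 2 * ρ ^ 2 * D + Y)) ≤ C * (3 * (Λ * (ρ ^ 2 * D + Y))) :=
          mul_le_mul_of_nonneg_left h9 hC0.le
      _ = C * 3 * (Λ * (ρ ^ 2 * D + Y)) := by ring
  · intro k
    refine Filter.Eventually.of_forall fun x => ?_
    rw [Real.norm_eq_abs, abs_of_nonneg (hg0 k x)]
    refine (hb (τ k) (hτ0 k) (hτ1 k) x).trans (le_of_eq ?_)
    congr 1
    have e1 : ρ / τ k = 2 ^ (k : ℝ) := by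
      simp only [hτ]
      rw [Real.rpow_natCast, inv_pow]
      field_simp
    rw [e1, ← Real.rpow_mul (by norm_num)]
    congr 1; ring
  · intro k
    have h1 := mo_err hw (τ (k + 1))
    have h2 := mo_err hw (τ k)
    rw [hDl, ← ENNReal.ofReal_mul (sq_nonneg _)] at h1 h2
    have hpt : ∀ x, ‖g (k + 1) x - g k x‖ₑ ^ (2 : ℝ)
        ≤ ENNReal.ofReal (2 * (en (w x) - g (k + 1) x) ^ 2)
          + ENNReal.ofReal (2 * (en (w x) - g k x) ^ 2) := by
      intro x
      rw [hsq, ← ENNReal.ofReal_add (by positivity) (by positivity)]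
      refine ENNReal.ofReal_le_ofReal ?_
      nlinarith [sq_nonneg ((en (w x) - g (k + 1) x) + (en (w x) - g k x))]
    refine (lintegral_mono hpt).trans ?_
    rw [lintegral_add_left' ?_]
    · have e2 : ∀ j : ℕ, ∫⁻ x in cube, ENNReal.ofReal (2 * (en (w x) - g j x) ^ 2)
          = ENNReal.ofReal 2 * ∫⁻ x in cube, ENNReal.ofReal ((en (w x) - g j x) ^ 2) := by
        intro j
        rw [← lintegral_const_mul' _ _ ENNReal.ofReal_ne_top]
        refine lintegral_congr fun x => ?_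
        rw [ENNReal.ofReal_mul (by norm_num)]
      rw [e2, e2]
      refine (add_le_add (mul_le_mul_right h1 _) (mul_le_mul_right h2 _)).trans ?_
      rw [← ENNReal.ofReal_mul (by norm_num), ← ENNReal.ofReal_mul (by norm_num),
        ← ENNReal.ofReal_add (by positivity) (by positivity)]
      refine ENNReal.ofReal_le_ofReal (le_of_eq ?_)
      simp only [hτ]
      have e3 : (4⁻¹ : ℝ) ^ k = (2⁻¹ ^ k) ^ 2 := by
        rw [← pow_mul, mul_comm, pow_mul]; norm_num
      rw [e3]; ring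
    · exact (ENNReal.continuous_ofReal.comp (continuous_const.mul
        ((hf.sub (hgc _)).pow 2))).measurable.aemeasurable
  · have h1 := mo_L2 hw (τ 0)
    rw [hYl] at h1
    refine le_trans (le_of_eq ?_) h1
    exact lintegral_congr fun x => hsq _
  · refine Filter.Eventually.of_forall fun x => ?_
    have h1 : Tendsto τ atTop (𝓝 0) := by
      have := (tendsto_pow_atTop_nhds_zero_of_lt_one (r := (2⁻¹ : ℝ)) (by norm_num)
        (by norm_num)).const_mul ρ
      simpa [hτ] using this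
    have h2 : Continuous fun t => mo phi t (fun y => en (w y)) x :=
      (mo_cont phi_smooth.continuous phi_compact hf (f_per hw)).comp
        (continuous_id.prodMk continuous_const)
    have h3 := (h2.tendsto 0).comp h1
    rw [mo_zero] at h3
    exact h3

end Pool.Agent.R210
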