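import Pool.Agent.R210.Per0

/-!
Radial mollifiers in three dimensional space.
-/

open MeasureTheory Set Filter Topology
open scoped ENNReal ContDiff
open H459R3.NS

namespace Pool.Agent.R210

/-- The square of the Euclidean length. -/
noncomputable def rsq (z : V) : ℝ := ∑ i, z i ^ 2

theorem rsq_nonneg (z : V) : 0 ≤ rsq z := Finset.sum_nonneg fun i _ => sq_nonneg _

theorem rsq_smooth : ContDiff ℝ ∞ rsq :=
  ContDiff.sum fun i _ => (contDiff_apply ℝ ℝ i).pow 2

theorem rsq_neg (z : V) : rsq (-z) = rsq z := by simp [rsq]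

theorem rsq_smul (t : ℝ) (z : V) : rsq (t • z) = t ^ 2 * rsq z := by
  simp [rsq, mul_pow, Finset.mul_sum]

theorem rsq_hasFDerivAt (z : V) : HasFDerivAt rsq
    (∑ i, (2 * z i) • (ContinuousLinearMap.proj i : V →L[ℝ] ℝ)) z := by
  unfold rsq
  refine HasFDerivAt.fun_sum fun i _ => ?_
  have h1 : HasFDerivAt (fun z : V => z i) (ContinuousLinearMap.proj i : V →L[ℝ] ℝ) z :=
    (ContinuousLinearMap.proj (R := ℝ) i : V →L[ℝ] ℝ).hasFDerivAt
  have := h1.pow 2
  simpa using this

theorem sq_le_rsq (z : V) (i : Fin 3) : z i ^ 2 ≤ rsq z :=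
  Finset.single_le_sum (f := fun i => z i ^ 2) (fun i _ => sq_nonneg _) (Finset.mem_univ i)

/-- The profile. -/
noncomputable def hh (s : ℝ) : ℝ := expNegInvGlue (1 - s)

theorem hh_smooth : ContDiff ℝ ∞ hh := expNegInvGlue.contDiff.comp (contDiff_const.sub contDiff_id)

theorem hh_nonneg (s : ℝ) : 0 ≤ hh s := expNegInvGlue.nonneg _

theorem hh_zero {s : ℝ} (hs : 1 ≤ s) : hh s = 0 := expNegInvGlue.zero_of_nonpos (by linarith)

theorem hh_pos {s : ℝ} (hs : s < 1) : 0 < hh s := expNegInvGlue.pos_of_pos (by linarith)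

/-- Its primitive. -/
noncomputable def PP (s : ℝ) : ℝ := (∫ τ in (1 : ℝ)..s, hh τ) / 2

theorem PP_hasDerivAt (s : ℝ) : HasDerivAt PP (hh s / 2) s :=
  (hh_smooth.continuous.integral_hasStrictDerivAt 1 s).hasDerivAt.div_const 2

theorem PP_smooth : ContDiff ℝ ∞ PP := by
  rw [contDiff_infty_iff_deriv]
  refine ⟨fun s => (PP_hasDerivAt s).differentiableAt, ?_⟩
  have : deriv PP = fun s => hh s / 2 := funext fun s => (PP_hasDerivAt s).deriv
  rw [this]
  exact hh_smooth.div_const 2

theorem PP_zero {s : ℝ} (hs : 1 ≤ s) : PP s = 0 := by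
  unfold PP
  have : ∫ τ in (1 : ℝ)..s, hh τ = ∫ τ in (1 : ℝ)..s, (0 : ℝ) := by
    refine intervalIntegral.integral_congr fun τ hτ => ?_
    rw [uIcc_of_le hs] at hτ
    exact hh_zero hτ.1
  rw [this]
  simp

/-- The total mass of the profile. -/
noncomputable def ZZ : ℝ := ∫ z : V, hh (rsq z)

theorem ball_sub_rsq {z : V} (hz : rsq z < 1) : z ∈ Metric.closedBall (0 : V) 1 := by
  rw [mem_closedBall_zero_iff, pi_norm_le_iff_of_nonneg zero_le_one]
  intro i
  rw [Real.norm_eq_abs]
  have := sq_le_rsq z i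
  have h2 : |z i| ^ 2 ≤ 1 ^ 2 := by rw [sq_abs, one_pow]; linarith
  exact le_of_sq_le_sq h2 zero_le_one

theorem hcs_of_rsq {F : Type*} [Zero F] {f : V → F} (hf : ∀ z, 1 ≤ rsq z → f z = 0) :
    HasCompactSupport f := by
  refine HasCompactSupport.of_support_subset_isCompact (isCompact_closedBall (0 : V) 1) ?_
  intro z hz
  refine ball_sub_rsq ?_
  by_contra h
  exact hz (hf z (not_lt.1 h))

theorem hh_rsq_cont : Continuous fun z : V => hh (rsq z) :=
  hh_smooth.continuous.comp rsq_smooth.continuous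

theorem hh_rsq_int : Integrable fun z : V => hh (rsq z) :=
  hh_rsq_cont.integrable_of_hasCompactSupport (hcs_of_rsq fun _ hz => hh_zero hz)

theorem ZZ_pos : 0 < ZZ := by
  refine (integral_pos_iff_support_of_nonneg (fun z => hh_nonneg _) hh_rsq_int).2 ?_
  have h1 : IsOpen (Function.support fun z : V => hh (rsq z)) := hh_rsq_cont.isOpen_support
  refine h1.measure_pos volume ⟨0, ?_⟩
  have : rsq 0 = 0 := by simp [rsq]
  show hh (rsq 0) ≠ 0
  rw [this]
  exact (hh_pos one_pos).ne'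

/-- The mollifier. -/
noncomputable def phi (z : V) : ℝ := hh (rsq z) / ZZ

/-- The potential of the mollifier. -/
noncomputable def psi (z : V) : ℝ := PP (rsq z) / ZZ

theorem phi_smooth : ContDiff ℝ ∞ phi := (hh_smooth.comp rsq_smooth).div_const _

theorem psi_smooth : ContDiff ℝ ∞ psi := (PP_smooth.comp rsq_smooth).div_const _

theorem phi_nonneg (z : V) : 0 ≤ phi z := div_nonneg (hh_nonneg _) ZZ_pos.le

theorem phi_zero {z : V} (hz : 1 ≤ rsq z) : phi z = 0 := by
  unfold phi; rw [hh_zero hz, zero_div]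

theorem psi_zero {z : V} (hz : 1 ≤ rsq z) : psi z = 0 := by
  unfold psi; rw [PP_zero hz, zero_div]

theorem phi_compact : HasCompactSupport phi := hcs_of_rsq fun _ hz => phi_zero hz

theorem psi_compact : HasCompactSupport psi := hcs_of_rsq fun _ hz => psi_zero hz

theorem phi_int : Integrable phi :=
  phi_smooth.continuous.integrable_of_hasCompactSupport phi_compact

theorem integral_phi : ∫ z, phi z = 1 := by
  unfold phi
  rw [integral_div]
  exact div_self ZZ_pos.ne'

theorem pd_psi (i : Fin 3) (z : V) : pd i psi z = z i * phi z := by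
  have h1 : HasFDerivAt psi ((hh (rsq z) / 2 / ZZ) •
      (∑ i, (2 * z i) • (ContinuousLinearMap.proj i : V →L[ℝ] ℝ))) z := by
    have := ((PP_hasDerivAt (rsq z)).comp_hasFDerivAt z (rsq_hasFDerivAt z)).mul_const (ZZ⁻¹)
    refine (this.congr_fderiv ?_).congr_of_eventuallyEq
      (Filter.Eventually.of_forall fun z => by simp [psi, div_eq_mul_inv])
    rw [smul_smul]
    congr 1
    field_simp
  unfold pd
  rw [h1.fderiv]
  simp [phi, Pi.single_apply]
  field_simp

/-- A smooth function with compact support: bounds of the derivatives. -/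
theorem exists_bound_cs {f : V → ℝ} (hf : Continuous f) (hc : HasCompactSupport f) :
    ∃ C : ℝ, 0 ≤ C ∧ ∀ z, |f z| ≤ C := by
  obtain ⟨C, hC⟩ := hc.exists_bound_of_continuous hf
  exact ⟨max C 0, le_max_right _ _, fun z => (hC z).trans (le_max_left _ _)⟩

theorem pd_smooth {f : V → ℝ} (hf : ContDiff ℝ ∞ f) (i : Fin 3) : ContDiff ℝ ∞ (pd i f) :=
  (hf.fderiv_right (m := ∞) (by norm_cast)).clm_apply contDiff_const

theorem pd_compact {f : V → ℝ} (hf : HasCompactSupport f) (i : Fin 3) :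
    HasCompactSupport (pd i f) := by
  have h1 := hf.fderiv (𝕜 := ℝ)
  exact h1.comp_left (g := fun L : V →L[ℝ] ℝ => L (Pi.single i 1)) (by simp)

theorem pd_zero_of_rsq {f : V → ℝ} (hf : ContDiff ℝ ∞ f) (h0 : ∀ z, 1 ≤ rsq z → f z = 0)
    (i : Fin 3) (z : V) (hz : 1 ≤ rsq z) : pd i f z = 0 := by
  -- the function vanishes on the ray from `z`
  have h1 : ∀ s : ℝ, 0 < s → pd i f ((1 + s) • z) = 0 := by
    intro s hs
    have h2 : 1 < rsq ((1 + s) • z) := by
      rw [rsq_smul]
      nlinarith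
    have h3 : f =ᶠ[𝓝 ((1 + s) • z)] fun _ => 0 := by
      have : {y : V | 1 < rsq y} ∈ 𝓝 ((1 + s) • z) :=
        (isOpen_lt continuous_const rsq_smooth.continuous).mem_nhds h2
      filter_upwards [this] with y hy
      exact h0 y (le_of_lt hy)
    unfold pd
    rw [h3.fderiv_eq]
    simp
  have h2 : Tendsto (fun s : ℝ => pd i f ((1 + s) • z)) (𝓝[>] 0) (𝓝 (pd i f (((1 : ℝ) + 0) • z))) := by
    have hc : Continuous fun s : ℝ => pd i f ((1 + s) • z) :=
      (pd_smooth hf i).continuous.comp (by fun_prop)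
    exact (hc.tendsto 0).mono_left nhdsWithin_le_nhds
  have h3 : Tendsto (fun s : ℝ => pd i f ((1 + s) • z)) (𝓝[>] 0) (𝓝 0) := by
    refine tendsto_const_nhds.congr' ?_
    filter_upwards [self_mem_nhdsWithin] with s hs
    exact (h1 s hs).symm
  have := tendsto_nhds_unique h2 h3
  simpa using this

/-- A common bound for the kernels. -/
theorem exists_BB : ∃ B : ℝ, 1 ≤ B ∧ (∀ z, |phi z| ≤ B) ∧ (∀ z, |psi z| ≤ B) ∧
    (∀ i z, |pd i psi z| ≤ B) ∧ (∀ i k z, |pd k (pd i psi) z| ≤ B) := by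
  obtain ⟨B1, h1, h1'⟩ := exists_bound_cs phi_smooth.continuous phi_compact
  obtain ⟨B2, h2, h2'⟩ := exists_bound_cs psi_smooth.continuous psi_compact
  choose B3 h3 h3' using fun i => exists_bound_cs (pd_smooth psi_smooth i).continuous
    (pd_compact psi_compact i)
  choose B4 h4 h4' using fun (p : Fin 3 × Fin 3) => exists_bound_cs
    (pd_smooth (pd_smooth psi_smooth p.1) p.2).continuous
    (pd_compact (pd_compact psi_compact p.1) p.2)
  have s3 : 0 ≤ ∑ i, B3 i := Finset.sum_nonneg fun i _ => h3 i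
  have s4 : 0 ≤ ∑ p, B4 p := Finset.sum_nonneg fun i _ => h4 i
  refine ⟨1 + B1 + B2 + ∑ i, B3 i + ∑ p, B4 p, by linarith, fun z => ?_, fun z => ?_,
    fun i z => ?_, fun i k z => ?_⟩
  · linarith [h1' z]
  · linarith [h2' z]
  · have := Finset.single_le_sum (f := B3) (fun i _ => h3 i) (Finset.mem_univ i)
    linarith [h3' i z]
  · have := Finset.single_le_sum (f := B4) (fun i _ => h4 i) (Finset.mem_univ (i, k))
    linarith [h4' (i, k) z]

/-- The bound of the kernels. -/
noncomputable def BB : ℝ := exists_BB.choose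

theorem one_le_BB : 1 ≤ BB := exists_BB.choose_spec.1
theorem phi_le (z : V) : |phi z| ≤ BB := exists_BB.choose_spec.2.1 z
theorem psi_le (z : V) : |psi z| ≤ BB := exists_BB.choose_spec.2.2.1 z
theorem pd_psi_le (i : Fin 3) (z : V) : |pd i psi z| ≤ BB := exists_BB.choose_spec.2.2.2.1 i z
theorem pd_pd_psi_le (i k : Fin 3) (z : V) : |pd k (pd i psi) z| ≤ BB :=
  exists_BB.choose_spec.2.2.2.2 i k z

end Pool.Agent.R210
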