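import Pool.Agent.R210.Flux2
import Pool.Agent.R210.Prof

/-!
Radial weights and the derivative of the weighted integrals with respect to the scale.
-/

open MeasureTheory Set Metric Filter Topology
open scoped ContDiff RealInnerProductSpace

namespace Pool.Agent.R210

theorem hh_anti : Antitone hh := fun a b hab => expNegInvGlue.monotone (by linarith)

theorem dhh_nonpos (s : ℝ) : deriv hh s ≤ 0 := hh_anti.deriv_nonpos

theorem hh_le_one (s : ℝ) : hh s ≤ 1 := by
  unfold hh expNegInvGlue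
  split_ifs with h
  · exact zero_le_one
  · rw [Real.exp_le_one_iff]
    have : 0 < (1 - s)⁻¹ := inv_pos.2 (by linarith)
    linarith

theorem hh_hasDerivAt (s : ℝ) : HasDerivAt hh (deriv hh s) s :=
  (hh_smooth.differentiable (by norm_num) s).hasDerivAt

theorem dhh_cont : Continuous (deriv hh) := hh_smooth.continuous_deriv (by norm_num)

theorem dhh_zero {s : ℝ} (hs : 1 ≤ s) : deriv hh s = 0 := by
  refine IsLocalMin.deriv_eq_zero ?_
  refine Filter.Eventually.of_forall fun y => ?_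
  rw [hh_zero hs]
  exact hh_nonneg y

theorem exists_HB : ∃ B : ℝ, 1 ≤ B ∧ ∀ s : ℝ, 0 ≤ s → |deriv hh s| ≤ B := by
  obtain ⟨C, hC⟩ := (isCompact_Icc (a := (0 : ℝ)) (b := 1)).exists_bound_of_continuousOn
    dhh_cont.continuousOn
  refine ⟨max C 1, le_max_right _ _, fun s hs => ?_⟩
  rcases le_or_gt s 1 with h | h
  · exact (hC s ⟨hs, h⟩).trans (le_max_left _ _)
  · rw [dhh_zero h.le, abs_zero]
    exact zero_le_one.trans (le_max_right _ _)

/-- A bound of the derivative of the profile. -/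
noncomputable def HB : ℝ := exists_HB.choose

theorem one_le_HB : 1 ≤ HB := exists_HB.choose_spec.1

theorem dhh_le {s : ℝ} (hs : 0 ≤ s) : |deriv hh s| ≤ HB := exists_HB.choose_spec.2 s hs

/-- The radial weight. -/
noncomputable def ze (s : ℝ) (z : E) : ℝ := hh (‖z‖ ^ 2 / s ^ 2)

theorem ze_nonneg (s : ℝ) (z : E) : 0 ≤ ze s z := hh_nonneg _

theorem ze_le_one (s : ℝ) (z : E) : ze s z ≤ 1 := hh_le_one _

theorem ze_arg {s : ℝ} (hs : 0 < s) {z : E} (hz : s ≤ ‖z‖) : 1 ≤ ‖z‖ ^ 2 / s ^ 2 := by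
  rw [one_le_div (by positivity)]
  exact pow_le_pow_left₀ hs.le hz 2

theorem ze_zero {s : ℝ} (hs : 0 < s) {z : E} (hz : s ≤ ‖z‖) : ze s z = 0 :=
  hh_zero (ze_arg hs hz)

theorem ze_smooth (s : ℝ) : ContDiff ℝ ∞ (ze s) :=
  hh_smooth.comp ((contDiff_norm_sq ℝ).div_const _)

theorem ze_ge {s : ℝ} (hs : 0 < s) {z : E} (hz : ‖z‖ ≤ s / 2) : hh (1 / 4) ≤ ze s z := by
  refine hh_anti ?_
  rw [div_le_iff₀ (by positivity)]
  have := pow_le_pow_left₀ (norm_nonneg z) hz 2
  linarith

/-- The weighted integral of `f` at the scale `s`. -/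
noncomputable def Mz (f : E → ℝ) (s : ℝ) (x : E) : ℝ := ∫ y, ze s (y - x) * f y

section

variable {f : E → ℝ} (hf : Continuous f) (hf0 : ∀ y, 0 ≤ f y)

theorem ze_sub_zero {s : ℝ} (hs : 0 < s) {x y : E} (h : y ∉ ball x s) : ze s (y - x) = 0 := by
  refine ze_zero hs ?_
  rw [mem_ball, dist_eq_norm] at h
  exact not_lt.1 h

include hf in
theorem intOn_ball (x : E) (s : ℝ) : IntegrableOn f (ball x s) :=
  (hf.continuousOn.integrableOn_compact (isCompact_closedBall x s)).mono_set ball_subset_closedBall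

theorem supp_int {g : E → ℝ} (hg : Continuous g) {x : E} {s : ℝ}
    (h0 : ∀ y, y ∉ closedBall x s → g y = 0) : Integrable g := by
  refine hg.integrable_of_hasCompactSupport ?_
  refine HasCompactSupport.of_support_subset_isCompact (isCompact_closedBall x s) ?_
  intro y hy
  by_contra hc
  exact hy (h0 y hc)

include hf in
theorem Mz_int {s : ℝ} (hs : 0 < s) (x : E) : Integrable fun y => ze s (y - x) * f y := by
  refine supp_int (((ze_smooth s).continuous.comp (by fun_prop)).mul hf) (x := x) (s := s)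
    fun y hy => ?_
  rw [ze_sub_zero hs (fun h => hy (ball_subset_closedBall h)), zero_mul]

include hf0 in
theorem Mz_nonneg (s : ℝ) (x : E) : 0 ≤ Mz f s x :=
  integral_nonneg fun _ => mul_nonneg (ze_nonneg _ _) (hf0 _)

include hf hf0 in
theorem Mz_le {s : ℝ} (hs : 0 < s) (x : E) : Mz f s x ≤ ∫ y in ball x s, f y := by
  unfold Mz
  rw [← integral_indicator measurableSet_ball]
  refine integral_mono (Mz_int hf hs x) ((intOn_ball hf x s).integrable_indicator
    measurableSet_ball) fun y => ?_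
  simp only [indicator]
  split_ifs with h
  · exact mul_le_of_le_one_left (hf0 y) (ze_le_one _ _)
  · rw [ze_sub_zero hs h, zero_mul]

/-- The derivative of the weight with respect to the scale. -/
theorem ze_hasDerivAt {s : ℝ} (hs : 0 < s) (z : E) :
    HasDerivAt (fun s => ze s z) (deriv hh (‖z‖ ^ 2 / s ^ 2) * (-(2 * ‖z‖ ^ 2) / s ^ 3)) s := by
  have h1 : HasDerivAt (fun s : ℝ => ‖z‖ ^ 2 / s ^ 2) (-(2 * ‖z‖ ^ 2) / s ^ 3) s := by
    have h2 := (hasDerivAt_pow 2 s).inv (by positivity)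
    have h3 := h2.const_mul (‖z‖ ^ 2)
    refine (h3.congr_deriv ?_).congr_of_eventuallyEq (Filter.Eventually.of_forall fun s => ?_)
    · push_cast
      field_simp
    · simp [div_eq_mul_inv]
  exact (hh_hasDerivAt _).comp s h1

include hf in
theorem Mz_hasDerivAt {s₀ : ℝ} (hs₀ : 0 < s₀) (x : E) :
    HasDerivAt (fun s => Mz f s x)
      (∫ y, deriv hh (‖y - x‖ ^ 2 / s₀ ^ 2) * (-(2 * ‖y - x‖ ^ 2) / s₀ ^ 3) * f y) s₀ := by
  have hnear : Ioo (s₀ / 2) (2 * s₀) ∈ 𝓝 s₀ := Ioo_mem_nhds (by linarith) (by linarith)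
  set R : ℝ := 2 * s₀ with hR
  have key := (hasDerivAt_integral_of_dominated_loc_of_deriv_le (s := Ioo (s₀ / 2) R)
    (F := fun s y => ze s (y - x) * f y)
    (F' := fun s y => deriv hh (‖y - x‖ ^ 2 / s ^ 2) * (-(2 * ‖y - x‖ ^ 2) / s ^ 3) * f y)
    (bound := indicator (closedBall x R) fun y => HB * (2 * R ^ 2 / (s₀ / 2) ^ 3) * |f y|)
    (μ := volume) (x₀ := s₀) hnear ?_ ?_ ?_ ?_ ?_ ?_).2
  · exact key
  · filter_upwards [hnear] with s hs
    exact (Mz_int hf (by linarith [hs.1]) x).aestronglyMeasurable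
  · exact Mz_int hf hs₀ x
  · refine Continuous.aestronglyMeasurable ?_
    refine Continuous.mul (Continuous.mul ?_ ?_) hf
    · exact dhh_cont.comp (by fun_prop)
    · fun_prop
  · refine Filter.Eventually.of_forall fun y s hs => ?_
    have hs0 : 0 < s := by linarith [hs.1]
    simp only [indicator]
    split_ifs with h
    · rw [norm_mul, norm_mul, Real.norm_eq_abs, Real.norm_eq_abs, Real.norm_eq_abs]
      refine mul_le_mul_of_nonneg_right ?_ (abs_nonneg _)
      have h1 : |-(2 * ‖y - x‖ ^ 2) / s ^ 3| ≤ 2 * R ^ 2 / (s₀ / 2) ^ 3 := by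
        rw [abs_div, abs_neg, abs_of_nonneg (by positivity : 0 ≤ 2 * ‖y - x‖ ^ 2),
          abs_of_pos (by positivity : 0 < s ^ 3)]
        rw [mem_closedBall, dist_eq_norm] at h
        refine div_le_div₀ (by positivity) ?_ (by positivity) ?_
        · have := pow_le_pow_left₀ (norm_nonneg _) h 2
          linarith
        · exact pow_le_pow_left₀ (by linarith) hs.1.le 3
      exact mul_le_mul (dhh_le (by positivity)) h1 (abs_nonneg _)
        (by linarith [one_le_HB])
    · rw [dhh_zero]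
      · simp
      · refine ze_arg hs0 ?_
        rw [mem_closedBall, dist_eq_norm, not_le] at h
        linarith [hs.2]
  · refine IntegrableOn.integrable_indicator ?_ measurableSet_closedBall
    exact (continuous_const.mul hf.abs).continuousOn.integrableOn_compact
      (isCompact_closedBall x R)
  · refine Filter.Eventually.of_forall fun y s hs => ?_
    exact (ze_hasDerivAt (by linarith [hs.1]) (y - x)).mul_const _

end

/-- The test function. -/
noncomputable def tf (s : ℝ) (x e y : E) : ℝ := ⟪e, y - x⟫ * ze s (y - x)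

theorem tf_smooth (s : ℝ) (x e : E) : ContDiff ℝ ∞ (tf s x e) :=
  (contDiff_const.inner ℝ (contDiff_id.sub contDiff_const)).mul
    ((ze_smooth s).comp (contDiff_id.sub contDiff_const))

theorem tf_supp {s : ℝ} (hs : 0 < s) (x e : E) : Function.support (tf s x e) ⊆ ball x s := by
  intro y hy
  by_contra hc
  refine hy ?_
  simp only [tf]
  rw [ze_sub_zero hs hc, mul_zero]

theorem tf_tsupp {s : ℝ} (hs : 0 < s) (x e : E) : tsupport (tf s x e) ⊆ closedBall x s :=
  closure_minimal ((tf_supp hs x e).trans ball_subset_closedBall) isClosed_closedBall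

theorem tf_compact {s : ℝ} (hs : 0 < s) (x e : E) : HasCompactSupport (tf s x e) :=
  HasCompactSupport.of_support_subset_isCompact (isCompact_closedBall x s)
    ((tf_supp hs x e).trans ball_subset_closedBall)

theorem tf_fderiv (s : ℝ) (x e y v : E) : fderiv ℝ (tf s x e) y v
    = ⟪e, v⟫ * ze s (y - x)
      + ⟪e, y - x⟫ * (deriv hh (‖y - x‖ ^ 2 / s ^ 2) * (2 * ⟪y - x, v⟫ / s ^ 2)) := by
  have h1 : HasFDerivAt (fun y : E => ⟪e, y - x⟫) (innerSL ℝ e) y := by
    have := (innerSL ℝ e).hasFDerivAt (x := y - x)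
    exact this.comp y ((hasFDerivAt_id y).sub_const x)
  have h2 : HasFDerivAt (fun y : E => ‖y - x‖ ^ 2) (2 • (innerSL ℝ (y - x))) y := by
    have := (hasStrictFDerivAt_norm_sq (y - x)).hasFDerivAt
    exact this.comp y ((hasFDerivAt_id y).sub_const x)
  have h3 : HasFDerivAt (fun y : E => ‖y - x‖ ^ 2 / s ^ 2)
      ((s ^ 2)⁻¹ • (2 • (innerSL ℝ (y - x)))) y := by
    have := h2.mul_const ((s ^ 2)⁻¹)
    exact this
  have h4 : HasFDerivAt (fun y : E => ze s (y - x))
      (deriv hh (‖y - x‖ ^ 2 / s ^ 2) • ((s ^ 2)⁻¹ • (2 • (innerSL ℝ (y - x))))) y :=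
    (hh_hasDerivAt _).comp_hasFDerivAt y h3
  have h5 := (h1.mul h4).fderiv
  have h6 : fderiv ℝ (tf s x e) y = _ := h5
  rw [h6]
  simp [inner_sub_left]
  ring

theorem tf_fderiv_le {s : ℝ} (hs : 0 < s) (x : E) {e : E} (he : ‖e‖ = 1) (y : E) :
    ‖fderiv ℝ (tf s x e) y‖ ≤ 1 + 2 * HB := by
  have hB := one_le_HB
  refine ContinuousLinearMap.opNorm_le_bound _ (by linarith) fun v => ?_
  rw [tf_fderiv, Real.norm_eq_abs]
  have h1 : |⟪e, v⟫ * ze s (y - x)| ≤ ‖v‖ := by
    rw [abs_mul, abs_of_nonneg (ze_nonneg _ _)]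
    have h2 := abs_real_inner_le_norm e v
    rw [he, one_mul] at h2
    exact (mul_le_of_le_one_right (abs_nonneg _) (ze_le_one _ _)).trans h2
  have h3 : |⟪e, y - x⟫ * (deriv hh (‖y - x‖ ^ 2 / s ^ 2) * (2 * ⟪y - x, v⟫ / s ^ 2))|
      ≤ 2 * HB * ‖v‖ := by
    rcases le_or_gt s ‖y - x‖ with h | h
    · rw [dhh_zero (ze_arg hs h)]
      simp only [zero_mul, mul_zero, abs_zero]
      have := norm_nonneg v
      positivity
    · have a1 : |⟪e, y - x⟫| ≤ s := by
        have h2 := abs_real_inner_le_norm e (y - x)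
        rw [he, one_mul] at h2
        linarith
      have a2 : |2 * ⟪y - x, v⟫ / s ^ 2| ≤ 2 * ‖v‖ / s := by
        have h2 := abs_real_inner_le_norm (y - x) v
        rw [abs_div, abs_mul, abs_of_pos (by positivity : 0 < s ^ 2), abs_two,
          div_le_div_iff₀ (by positivity) hs]
        have h4 : ‖y - x‖ * ‖v‖ ≤ s * ‖v‖ := mul_le_mul_of_nonneg_right h.le (norm_nonneg _)
        calc 2 * |⟪y - x, v⟫| * s ≤ 2 * (s * ‖v‖) * s := by
              refine mul_le_mul_of_nonneg_right ?_ hs.le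
              linarith
          _ = 2 * ‖v‖ * s ^ 2 := by ring
      rw [abs_mul, abs_mul]
      have a3 : |deriv hh (‖y - x‖ ^ 2 / s ^ 2)| ≤ HB := dhh_le (by positivity)
      calc |⟪e, y - x⟫| * (|deriv hh (‖y - x‖ ^ 2 / s ^ 2)| * |2 * ⟪y - x, v⟫ / s ^ 2|)
          ≤ s * (HB * (2 * ‖v‖ / s)) :=
            mul_le_mul a1 (mul_le_mul a3 a2 (abs_nonneg _) (by linarith))
              (mul_nonneg (abs_nonneg _) (abs_nonneg _)) hs.le
        _ = 2 * HB * ‖v‖ := by field_simp
  refine (abs_add_le _ _).trans ?_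
  linarith

end Pool.Agent.R210
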