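import Pool.Agent.R210.Flux4

/-!
Renormalization for continuously differentiable fields.
-/

open MeasureTheory Set Metric Filter Topology
open scoped ContDiff RealInnerProductSpace

namespace Pool.Agent.R210

/-- The standard basis. -/
noncomputable def ei (i : Fin 3) : E := EuclideanSpace.single i 1

/-- The divergence. -/
noncomputable def dvE (w : E → E) (y : E) : ℝ := ∑ i, fderiv ℝ w y (ei i) i

theorem E_sum (v : E) : v = ∑ i, v i • ei i := by
  ext j
  simp [ei, Pi.single_apply]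

theorem lin_sum {F : Type*} [NormedAddCommGroup F] [NormedSpace ℝ F] (L : E →L[ℝ] F) (v : E) :
    L v = ∑ i, v i • L (ei i) := by
  conv_lhs => rw [E_sum v]
  rw [map_sum]
  exact Finset.sum_congr rfl fun i _ => map_smul _ _ _

/-- The smooth approximation of the sign. -/
noncomputable def tau (ε s : ℝ) : ℝ := s / Real.sqrt (ε + s ^ 2)

theorem tau_abs_le {ε : ℝ} (hε : 0 < ε) (s : ℝ) : |tau ε s| ≤ 1 := by
  have h0 : 0 < ε + s ^ 2 := by positivity
  have h1 : |s| ≤ Real.sqrt (ε + s ^ 2) := Real.abs_le_sqrt (by linarith)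
  have h2 : 0 < Real.sqrt (ε + s ^ 2) := Real.sqrt_pos.2 h0
  unfold tau
  rw [abs_div, abs_of_pos h2, div_le_one h2]
  exact h1

theorem tau_hasDerivAt {ε : ℝ} (hε : 0 < ε) (s : ℝ) :
    HasDerivAt (tau ε) (ε / (Real.sqrt (ε + s ^ 2)) ^ 3) s := by
  have h0 : 0 < ε + s ^ 2 := by positivity
  have h2 : 0 < Real.sqrt (ε + s ^ 2) := Real.sqrt_pos.2 h0
  have h3 : HasDerivAt (fun s : ℝ => ε + s ^ 2) (2 * s) s := by
    simpa using (hasDerivAt_pow 2 s).const_add ε
  have h4 := h3.sqrt h0.ne'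
  have h5 := (hasDerivAt_id s).div h4 h2.ne'
  refine h5.congr_deriv ?_
  have h6 : Real.sqrt (ε + s ^ 2) ^ 2 = ε + s ^ 2 := Real.sq_sqrt h0.le
  simp only [id]
  field_simp
  rw [h6]
  ring

theorem tau_contDiff {ε : ℝ} (hε : 0 < ε) : ContDiff ℝ ∞ (tau ε) := by
  unfold tau
  refine contDiff_id.div ?_ fun s => ?_
  · exact (contDiff_const.add (contDiff_id.pow 2)).sqrt fun s => by
      have : 0 < ε + s ^ 2 := by positivity
      exact this.ne'
  · have : 0 < ε + s ^ 2 := by positivity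
    exact (Real.sqrt_pos.2 this).ne'

theorem tau_tendsto (s : ℝ) : Tendsto (fun n : ℕ => tau (1 / ((n : ℝ) + 1)) s) atTop
    (𝓝 (Real.sign s)) := by
  by_cases hs : s = 0
  · simp [hs, tau]
  · have h1 : Tendsto (fun n : ℕ => Real.sqrt (1 / ((n : ℝ) + 1) + s ^ 2)) atTop
        (𝓝 (Real.sqrt (0 + s ^ 2))) :=
      (Real.continuous_sqrt.tendsto _).comp ((tendsto_one_div_add_atTop_nhds_zero_nat).add_const _)
    have h2 : Real.sqrt (0 + s ^ 2) = |s| := by rw [zero_add, Real.sqrt_sq_eq_abs]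
    rw [h2] at h1
    have h3 := (tendsto_const_nhds (x := s)).div h1 (abs_ne_zero.2 hs)
    have h4 : Real.sign s = s / |s| := by
      rcases lt_or_gt_of_ne hs with h | h
      · rw [Real.sign_of_neg h, abs_of_neg h]; field_simp
      · rw [Real.sign_of_pos h, abs_of_pos h]; field_simp
    rw [h4]
    exact h3

theorem err_tendsto (s : ℝ) : Tendsto (fun n : ℕ =>
    (1 / ((n : ℝ) + 1)) / (Real.sqrt (1 / ((n : ℝ) + 1) + s ^ 2)) ^ 3 * |s|) atTop (𝓝 0) := by
  by_cases hs : s = 0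
  · simp [hs]
  · have h1 : Tendsto (fun n : ℕ => Real.sqrt (1 / ((n : ℝ) + 1) + s ^ 2)) atTop
        (𝓝 (Real.sqrt (0 + s ^ 2))) :=
      (Real.continuous_sqrt.tendsto _).comp ((tendsto_one_div_add_atTop_nhds_zero_nat).add_const _)
    have h2 : Real.sqrt (0 + s ^ 2) = |s| := by rw [zero_add, Real.sqrt_sq_eq_abs]
    rw [h2] at h1
    have h3 := (tendsto_one_div_add_atTop_nhds_zero_nat (𝕜 := ℝ)).div (h1.pow 3)
      (pow_ne_zero 3 (abs_ne_zero.2 hs))
    have h4 := h3.mul_const |s|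
    simpa using h4

theorem err_le {ε : ℝ} (hε : 0 < ε) (s : ℝ) : ε / (Real.sqrt (ε + s ^ 2)) ^ 3 * |s| ≤ 1 := by
  have h0 : 0 < ε + s ^ 2 := by positivity
  have h1 : |s| ≤ Real.sqrt (ε + s ^ 2) := Real.abs_le_sqrt (by linarith)
  have h2 : 0 < Real.sqrt (ε + s ^ 2) := Real.sqrt_pos.2 h0
  have h6 : Real.sqrt (ε + s ^ 2) ^ 2 = ε + s ^ 2 := Real.sq_sqrt h0.le
  rw [div_mul_eq_mul_div, div_le_one (by positivity)]
  have h7 : Real.sqrt (ε + s ^ 2) ^ 3 = (ε + s ^ 2) * Real.sqrt (ε + s ^ 2) := by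
    rw [pow_succ, h6]
  rw [h7]
  exact mul_le_mul (by nlinarith [sq_nonneg s]) h1 (abs_nonneg _) h0.le

/-- Integration by parts against a test function. -/
theorem int_fderiv_test {f : E → ℝ} (hf : ContDiff ℝ 1 f) {ψ : E → ℝ} (hψ : ContDiff ℝ ∞ ψ)
    (hc : HasCompactSupport ψ) (v : E) :
    ∫ y, f y * fderiv ℝ ψ y v = -∫ y, fderiv ℝ f y v * ψ y := by
  have h1 : Continuous fun y => fderiv ℝ ψ y v :=
    (hψ.continuous_fderiv (by norm_num)).clm_apply continuous_const
  have h2 : Continuous fun y => fderiv ℝ f y v :=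
    (hf.continuous_fderiv one_ne_zero).clm_apply continuous_const
  have h3 : HasCompactSupport fun y => fderiv ℝ ψ y v :=
    (hc.fderiv (𝕜 := ℝ)).comp_left (g := fun L : E →L[ℝ] ℝ => L v) (by simp)
  refine integral_mul_fderiv_eq_neg_fderiv_mul_of_integrable ?_ ?_ ?_
    (fun y _ => hf.differentiable one_ne_zero y) (fun y _ => hψ.differentiable (by norm_num) y)
  · exact (h2.mul hψ.continuous).integrable_of_hasCompactSupport hc.mul_left
  · exact (hf.continuous.mul h1).integrable_of_hasCompactSupport h3.mul_left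
  · exact (hf.continuous.mul hψ.continuous).integrable_of_hasCompactSupport hc.mul_left

theorem fderiv_coord {w : E → E} {y : E} (hw : DifferentiableAt ℝ w y) (v : E) (i : Fin 3) :
    fderiv ℝ (fun z => w z i) y v = fderiv ℝ w y v i := by
  have h1 : HasFDerivAt (fun z => w z i)
      ((EuclideanSpace.proj i : E →L[ℝ] ℝ).comp (fderiv ℝ w y)) y :=
    (EuclideanSpace.proj i : E →L[ℝ] ℝ).hasFDerivAt.comp y hw.hasFDerivAt
  rw [h1.fderiv]
  rfl

/-- The integrated divergence of the renormalized field. -/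
theorem int_tau {w : E → E} (hw : ContDiff ℝ 1 w) {e : E} {ε : ℝ} (hε : 0 < ε) {ψ : E → ℝ}
    (hψ : ContDiff ℝ ∞ ψ) (hc : HasCompactSupport ψ) :
    ∫ y, tau ε ⟪e, w y⟫ * fderiv ℝ ψ y (w y)
      = -∫ y, (tau ε ⟪e, w y⟫ * dvE w y
        + ε / (Real.sqrt (ε + ⟪e, w y⟫ ^ 2)) ^ 3 * ⟪e, fderiv ℝ w y (w y)⟫) * ψ y := by
  have hs : ContDiff ℝ 1 fun y => ⟪e, w y⟫ := contDiff_const.inner ℝ hw
  have hτ : ContDiff ℝ 1 fun y => tau ε ⟪e, w y⟫ :=
    ((tau_contDiff hε).of_le (by norm_cast)).comp hs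
  have hwi : ∀ i, ContDiff ℝ 1 fun y => w y i := fun i =>
    (EuclideanSpace.proj i : E →L[ℝ] ℝ).contDiff.comp hw
  have hfi : ∀ i, ContDiff ℝ 1 fun y => tau ε ⟪e, w y⟫ * w y i := fun i => hτ.mul (hwi i)
  have hfd : ∀ i y, fderiv ℝ (fun y => tau ε ⟪e, w y⟫ * w y i) y (ei i)
      = tau ε ⟪e, w y⟫ * fderiv ℝ w y (ei i) i
        + ε / (Real.sqrt (ε + ⟪e, w y⟫ ^ 2)) ^ 3 * ⟪e, fderiv ℝ w y (ei i)⟫ * w y i := by
    intro i y
    have h1 : HasFDerivAt w (fderiv ℝ w y) y := (hw.differentiable one_ne_zero y).hasFDerivAt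
    have h2 : HasFDerivAt (fun z => ⟪e, w z⟫) ((innerSL ℝ e).comp (fderiv ℝ w y)) y :=
      (innerSL ℝ e).hasFDerivAt.comp y h1
    have h3 := (tau_hasDerivAt hε ⟪e, w y⟫).comp_hasFDerivAt y h2
    have h4 : HasFDerivAt (fun z => w z i)
        ((EuclideanSpace.proj i : E →L[ℝ] ℝ).comp (fderiv ℝ w y)) y :=
      (EuclideanSpace.proj i : E →L[ℝ] ℝ).hasFDerivAt.comp y h1
    have h5 := h3.mul h4
    have h6 : fderiv ℝ (fun y => tau ε ⟪e, w y⟫ * w y i) y = _ := h5.fderiv
    rw [h6]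
    simp
    ring
  have hsum : ∀ y, tau ε ⟪e, w y⟫ * fderiv ℝ ψ y (w y)
      = ∑ i, tau ε ⟪e, w y⟫ * w y i * fderiv ℝ ψ y (ei i) := by
    intro y
    rw [lin_sum (fderiv ℝ ψ y) (w y), Finset.mul_sum]
    refine Finset.sum_congr rfl fun i _ => ?_
    rw [smul_eq_mul]; ring
  have hi1 : ∀ i, Integrable fun y => tau ε ⟪e, w y⟫ * w y i * fderiv ℝ ψ y (ei i) := by
    intro i
    have h1 : Continuous fun y => fderiv ℝ ψ y (ei i) :=
      (hψ.continuous_fderiv (by norm_num)).clm_apply continuous_const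
    have h3 : HasCompactSupport fun y => fderiv ℝ ψ y (ei i) :=
      (hc.fderiv (𝕜 := ℝ)).comp_left (g := fun L : E →L[ℝ] ℝ => L (ei i)) (by simp)
    exact ((hfi i).continuous.mul h1).integrable_of_hasCompactSupport h3.mul_left
  have hi2 : ∀ i, Integrable fun y =>
      fderiv ℝ (fun y => tau ε ⟪e, w y⟫ * w y i) y (ei i) * ψ y := by
    intro i
    have h2 : Continuous fun y => fderiv ℝ (fun y => tau ε ⟪e, w y⟫ * w y i) y (ei i) :=
      ((hfi i).continuous_fderiv one_ne_zero).clm_apply continuous_const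
    exact (h2.mul hψ.continuous).integrable_of_hasCompactSupport hc.mul_left
  simp_rw [hsum]
  rw [integral_finsetSum _ fun i _ => hi1 i]
  simp_rw [fun i => int_fderiv_test (hfi i) hψ hc (ei i)]
  rw [Finset.sum_neg_distrib, ← integral_finsetSum _ fun i _ => hi2 i]
  congr 1
  refine integral_congr_ae (Filter.Eventually.of_forall fun y => ?_)
  simp only [hfd]
  rw [← Finset.sum_mul, Finset.sum_add_distrib, ← Finset.mul_sum]
  congr 2
  have h7 : fderiv ℝ w y (w y) = ∑ i, w y i • fderiv ℝ w y (ei i) := lin_sum _ _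
  rw [h7, inner_sum, Finset.mul_sum]
  refine Finset.sum_congr rfl fun i _ => ?_
  rw [inner_smul_right]; ring

/-- Renormalization for continuously differentiable fields. -/
theorem ren_smooth {w : E → E} (hw : ContDiff ℝ 1 w) : Ren w fun y => |dvE w y| := by
  intro e x r he hcone ψ hψ hc hsupp
  set S : E → ℝ := fun y => ⟪e, w y⟫ with hS
  have hSc : Continuous S := continuous_const.inner hw.continuous
  have hdv : Continuous (dvE w) := by
    unfold dvE
    refine continuous_finsetSum _ fun i _ => ?_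
    exact (EuclideanSpace.proj i : E →L[ℝ] ℝ).continuous.comp
      ((hw.continuous_fderiv one_ne_zero).clm_apply continuous_const)
  have hfψ : Continuous fun y => fderiv ℝ ψ y (w y) :=
    (hψ.continuous_fderiv (by norm_num)).clm_apply hw.continuous
  have hcsf : HasCompactSupport fun y => fderiv ℝ ψ y (w y) := by
    refine (hc.fderiv (𝕜 := ℝ)).mono fun y hy => ?_
    intro h0
    exact hy (by simp [h0])
  have hif : Integrable fun y => fderiv ℝ ψ y (w y) := hfψ.integrable_of_hasCompactSupport hcsf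
  set εn : ℕ → ℝ := fun n => 1 / ((n : ℝ) + 1) with hεn
  have hεp : ∀ n, 0 < εn n := fun n => by simp only [hεn]; positivity
  -- the left side
  have hlim1 : Tendsto (fun n => ∫ y, tau (εn n) (S y) * fderiv ℝ ψ y (w y)) atTop
      (𝓝 (∫ y, Real.sign (S y) * fderiv ℝ ψ y (w y))) := by
    refine tendsto_integral_of_dominated_convergence (fun y => |fderiv ℝ ψ y (w y)|) ?_ hif.abs
      ?_ ?_
    · exact fun n => (((tau_contDiff (hεp n)).continuous.comp hSc).mul hfψ).aestronglyMeasurable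
    · refine fun n => Filter.Eventually.of_forall fun y => ?_
      rw [norm_mul, Real.norm_eq_abs, Real.norm_eq_abs]
      exact mul_le_of_le_one_left (abs_nonneg _) (tau_abs_le (hεp n) _)
    · exact Filter.Eventually.of_forall fun y => (tau_tendsto (S y)).mul_const _
  -- the error
  set R : ℕ → E → ℝ := fun n y => εn n / (Real.sqrt (εn n + S y ^ 2)) ^ 3
    * ⟪e, fderiv ℝ w y (w y)⟫ * ψ y with hR
  have hDwc : Continuous fun y => ‖fderiv ℝ w y‖ := (hw.continuous_fderiv one_ne_zero).norm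
  have hbd : Integrable fun y => 2 * ‖fderiv ℝ w y‖ * |ψ y| :=
    ((continuous_const.mul hDwc).mul hψ.continuous.abs).integrable_of_hasCompactSupport
      (hc.comp_left (g := fun r : ℝ => |r|) (by simp)).mul_left
  have hψ0 : ∀ y, y ∉ ball x r → ψ y = 0 := fun y hy =>
    image_eq_zero_of_notMem_tsupport fun h => hy (hsupp h)
  have hRb : ∀ n, ∀ᵐ y, ‖R n y‖ ≤ εn n / (Real.sqrt (εn n + S y ^ 2)) ^ 3 * |S y|
      * (2 * ‖fderiv ℝ w y‖ * |ψ y|) := by
    intro n
    filter_upwards [hcone] with y hy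
    by_cases hyb : y ∈ ball x r
    · have h1 := hy hyb
      have h2 : ‖w y‖ ≤ 2 * |S y| := by
        have h3 : ‖w y‖ ^ 2 ≤ (2 * |S y|) ^ 2 := by
          rw [mul_pow, sq_abs]
          have : S y ^ 2 = ⟪e, w y⟫ ^ 2 := rfl
          rw [this]
          nlinarith [sq_nonneg (⟪e, w y⟫ : ℝ)]
        exact le_of_sq_le_sq h3 (by positivity)
      have h4 : |⟪e, fderiv ℝ w y (w y)⟫| ≤ ‖fderiv ℝ w y‖ * (2 * |S y|) := by
        refine (abs_real_inner_le_norm _ _).trans ?_
        rw [he, one_mul]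
        exact ((fderiv ℝ w y).le_opNorm _).trans (mul_le_mul_of_nonneg_left h2 (norm_nonneg _))
      have h5 : 0 ≤ εn n / (Real.sqrt (εn n + S y ^ 2)) ^ 3 := by
        have := (hεp n).le
        positivity
      simp only [hR]
      rw [norm_mul, norm_mul, Real.norm_eq_abs, Real.norm_eq_abs, Real.norm_eq_abs,
        abs_of_nonneg h5]
      calc εn n / (Real.sqrt (εn n + S y ^ 2)) ^ 3 * |⟪e, fderiv ℝ w y (w y)⟫| * |ψ y|
          ≤ εn n / (Real.sqrt (εn n + S y ^ 2)) ^ 3 * (‖fderiv ℝ w y‖ * (2 * |S y|)) * |ψ y| :=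
            mul_le_mul_of_nonneg_right (mul_le_mul_of_nonneg_left h4 h5) (abs_nonneg _)
        _ = _ := by ring
    · simp [hR, hψ0 y hyb]
  have hsq : ∀ n y, 0 < Real.sqrt (εn n + S y ^ 2) := fun n y => by
    have := hεp n
    exact Real.sqrt_pos.2 (by positivity)
  have hRc : ∀ n, Continuous (R n) := by
    intro n
    simp only [hR]
    refine Continuous.mul (Continuous.mul ?_ ?_) hψ.continuous
    · refine continuous_const.div ?_ fun y => (pow_pos (hsq n y) 3).ne'
      exact (Real.continuous_sqrt.comp (continuous_const.add (hSc.pow 2))).pow 3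
    · exact continuous_const.inner ((hw.continuous_fderiv one_ne_zero).clm_apply hw.continuous)
  have hlim2 : Tendsto (fun n => ∫ y, R n y) atTop (𝓝 (∫ y : E, (0 : ℝ))) := by
    refine tendsto_integral_of_dominated_convergence (fun y => 2 * ‖fderiv ℝ w y‖ * |ψ y|)
      (fun n => (hRc n).aestronglyMeasurable) hbd ?_ ?_
    · intro n
      filter_upwards [hRb n] with y hy
      refine hy.trans ?_
      exact mul_le_of_le_one_left (by positivity) (err_le (hεp n) _)
    · filter_upwards [ae_all_iff.2 hRb] with y hy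
      refine squeeze_zero_norm hy ?_
      have := (err_tendsto (S y)).mul_const (2 * ‖fderiv ℝ w y‖ * |ψ y|)
      rw [zero_mul] at this
      exact this
  rw [integral_zero] at hlim2
  -- the bound
  have hbound : ∀ n, |∫ y, tau (εn n) (S y) * fderiv ℝ ψ y (w y)|
      ≤ (∫ y, |ψ y| * |dvE w y|) + |∫ y, R n y| := by
    intro n
    have h1 := int_tau hw (e := e) (hεp n) hψ hc
    have hi1 : Integrable fun y => tau (εn n) (S y) * dvE w y * ψ y :=
      ((((tau_contDiff (hεp n)).continuous.comp hSc).mul hdv).mul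
        hψ.continuous).integrable_of_hasCompactSupport hc.mul_left
    have hi2 : Integrable (R n) := (hRc n).integrable_of_hasCompactSupport hc.mul_left
    have h2 : ∫ y, (tau (εn n) ⟪e, w y⟫ * dvE w y
        + εn n / (Real.sqrt (εn n + ⟪e, w y⟫ ^ 2)) ^ 3 * ⟪e, fderiv ℝ w y (w y)⟫) * ψ y
        = (∫ y, tau (εn n) (S y) * dvE w y * ψ y) + ∫ y, R n y := by
      rw [← integral_add hi1 hi2]
      refine integral_congr_ae (Filter.Eventually.of_forall fun y => ?_)
      simp only [hR, hS]; ring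
    have h3 : ∫ y, tau (εn n) (S y) * fderiv ℝ ψ y (w y)
        = -((∫ y, tau (εn n) (S y) * dvE w y * ψ y) + ∫ y, R n y) := by rw [← h2]; exact h1
    rw [h3, abs_neg]
    refine (abs_add_le _ _).trans (add_le_add ?_ le_rfl)
    rw [← Real.norm_eq_abs]
    refine norm_integral_le_of_norm_le ((hψ.continuous.abs.mul
      hdv.abs).integrable_of_hasCompactSupport
      (hc.comp_left (g := fun r : ℝ => |r|) (by simp)).mul_right)
      (Filter.Eventually.of_forall fun y => ?_)
    rw [norm_mul, norm_mul, Real.norm_eq_abs, Real.norm_eq_abs, Real.norm_eq_abs, mul_comm]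
    refine mul_le_mul_of_nonneg_left ?_ (abs_nonneg _)
    exact mul_le_of_le_one_left (abs_nonneg _) (tau_abs_le (hεp n) _)
  have hfin := le_of_tendsto_of_tendsto' hlim1.abs (tendsto_const_nhds.add hlim2.abs) hbound
  simpa using hfin

end Pool.Agent.R210
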