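import Pool.Agent.R210.L3
import Pool.Agent.R210.RenS

/-!
The flux tube estimate for periodic fields.
-/

open MeasureTheory Set Metric Filter Topology
open scoped ContDiff RealInnerProductSpace ENNReal
open H459R3.NS

namespace Pool.Agent.R210

/-- The Euclidean ball. -/
def eb (x : V) (ρ : ℝ) : Set V := {y | rsq (y - x) < ρ ^ 2}

theorem isOpen_eb (x : V) (ρ : ℝ) : IsOpen (eb x ρ) :=
  isOpen_lt (rsq_smooth.continuous.comp (continuous_id.sub continuous_const)) continuous_const

theorem measurable_eb (x : V) (ρ : ℝ) : MeasurableSet (eb x ρ) := (isOpen_eb x ρ).measurableSet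

theorem eb_sub_box {x y : V} (h : y ∈ eb x 1) : y - x ∈ box := by
  have h1 : rsq (y - x) < 1 := by simpa [eb] using h
  have h2 : ∀ i, |(y - x) i| ≤ 1 := by
    intro i
    have h3 := sq_le_rsq (y - x) i
    have h4 : |(y - x) i| ^ 2 ≤ 1 ^ 2 := by rw [sq_abs, one_pow]; linarith
    exact le_of_sq_le_sq h4 zero_le_one
  refine ⟨fun i => ?_, fun i => ?_⟩
  · exact (abs_le.1 (h2 i)).1
  · have := (abs_le.1 (h2 i)).2
    simp only [Pi.ofNat_apply]
    linarith

theorem eb_int {F : V → ℝ} (hF : Continuous F) (hp : Per F) (h0 : ∀ x, 0 ≤ F x) (x : V) :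
    IntegrableOn F (eb x 1) ∧ ∫ y in eb x 1, F y ≤ 27 * ∫ y in cube, F y := by
  have h1 : ∫⁻ y in eb x 1, ENNReal.ofReal (F y) ≤ ENNReal.ofReal (27 * ∫ y in cube, F y) := by
    have hsub : eb x 1 ⊆ (fun y => y - x) ⁻¹' box := fun y hy => eb_sub_box hy
    have hmp : MeasurePreserving (fun y : V => y + x) volume volume :=
      measurePreserving_add_right _ x
    have h2 := hmp.setLIntegral_comp_preimage_emb (measurableEmbedding_addRight x)
      (fun y => ENNReal.ofReal (F y)) ((fun y => y - x) ⁻¹' box)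
    have h3 : (fun y : V => y + x) ⁻¹' ((fun y => y - x) ⁻¹' box) = box := by
      ext y; simp
    rw [h3] at h2
    calc ∫⁻ y in eb x 1, ENNReal.ofReal (F y)
        ≤ ∫⁻ y in (fun y => y - x) ⁻¹' box, ENNReal.ofReal (F y) := lintegral_mono_set hsub
      _ = ∫⁻ y in box, ENNReal.ofReal (F (y + x)) := h2.symm
      _ ≤ 27 * ∫⁻ y in cube, ENNReal.ofReal (F (y + x)) :=
          lintegral_box_le (h := fun y => ENNReal.ofReal (F (y + x)))
            (ENNReal.continuous_ofReal.comp (hF.comp (by fun_prop))).measurable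
            (fun i y => by simp only [per_comp_add hp x i y])
      _ = 27 * ∫⁻ y in cube, ENNReal.ofReal (F y) := by
          congr 1
          exact lint_shift (f := fun y => ENNReal.ofReal (F y))
            (fun i y => by simp only [hp i y]) x
      _ = ENNReal.ofReal (27 * ∫ y in cube, F y) := by
          rw [ofReal_int hF h0, ENNReal.ofReal_mul (by norm_num)]
          norm_num
  have hi : IntegrableOn F (eb x 1) := by
    refine ⟨hF.aestronglyMeasurable.restrict, ?_⟩
    rw [hasFiniteIntegral_iff_ofReal (Filter.Eventually.of_forall h0)]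
    exact h1.trans_lt ENNReal.ofReal_lt_top
  refine ⟨hi, ?_⟩
  rw [← ofReal_integral_eq_lintegral_ofReal hi (Filter.Eventually.of_forall h0)] at h1
  exact (ENNReal.ofReal_le_ofReal_iff (mul_nonneg (by norm_num)
    (integral_nonneg fun y => h0 y))).1 h1

/-- The transferred field. -/
noncomputable def lift (w : V → V) (y : E) : E := WithLp.toLp 2 (w (WithLp.ofLp y))

theorem norm_toLp (a : V) : ‖(WithLp.toLp 2 a : E)‖ = en a := by
  rw [EuclideanSpace.norm_eq]
  unfold en rsq
  simp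

theorem norm_lift (w : V → V) (y : E) : ‖lift w y‖ = en (w (WithLp.ofLp y)) := norm_toLp _

theorem inner_lift (a b : V) :
    ⟪(WithLp.toLp 2 a : E), (WithLp.toLp 2 b : E)⟫ = ∑ i, a i * b i := by
  rw [PiLp.inner_apply]
  exact Finset.sum_congr rfl fun i _ => by simp [mul_comm]

theorem lagrange (a b : V) : rsq a * rsq b - (∑ i, a i * b i) ^ 2 = rsq (crossProduct a b) := by
  simp only [rsq, Fin.sum_univ_three, cross_apply, Matrix.cons_val_zero, Matrix.cons_val_one,
    Matrix.cons_val]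
  ring

/-- The transfer of integrals. -/
theorem int_ball_lift {F : V → ℝ} (x : E) {ρ : ℝ} (hρ : 0 < ρ) :
    ∫ y in ball x ρ, F (WithLp.ofLp y) = ∫ y in eb (WithLp.ofLp x) ρ, F y := by
  have hmp : MeasurePreserving (fun y : E => (WithLp.ofLp y : V)) volume volume :=
    PiLp.volume_preserving_ofLp (Fin 3)
  have hemb : MeasurableEmbedding (fun y : E => (WithLp.ofLp y : V)) :=
    (MeasurableEquiv.toLp 2 (Fin 3 → ℝ)).symm.measurableEmbedding
  have h1 := hmp.setIntegral_preimage_emb hemb F (eb (WithLp.ofLp x) ρ)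
  rw [← h1]
  congr 2
  ext y
  rw [mem_ball, dist_eq_norm, mem_preimage]
  have h2 : ‖y - x‖ = en (WithLp.ofLp y - WithLp.ofLp x) := by
    rw [← norm_toLp]
    rfl
  rw [h2]
  unfold eb
  rw [mem_ofPred_eq, ← en_sq]
  constructor
  · intro h
    exact pow_lt_pow_left₀ h (en_nonneg _) two_ne_zero
  · intro h
    exact lt_of_pow_lt_pow_left₀ 2 hρ.le h

theorem intOn_ball_lift {F : V → ℝ} (x : E) {ρ : ℝ} (hρ : 0 < ρ)
    (h : IntegrableOn F (eb (WithLp.ofLp x) ρ)) :
    IntegrableOn (fun y : E => F (WithLp.ofLp y)) (ball x ρ) := by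
  have hmp : MeasurePreserving (fun y : E => (WithLp.ofLp y : V)) volume volume :=
    PiLp.volume_preserving_ofLp (Fin 3)
  have hemb : MeasurableEmbedding (fun y : E => (WithLp.ofLp y : V)) :=
    (MeasurableEquiv.toLp 2 (Fin 3 → ℝ)).symm.measurableEmbedding
  have h1 := (hmp.integrableOn_comp_preimage hemb (f := F) (s := eb (WithLp.ofLp x) ρ)).2 h
  have h2 : (fun y : E => (WithLp.ofLp y : V)) ⁻¹' (eb (WithLp.ofLp x) ρ) = ball x ρ := by
    ext y
    rw [mem_ball, dist_eq_norm, mem_preimage]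
    have h2 : ‖y - x‖ = en (WithLp.ofLp y - WithLp.ofLp x) := by
      rw [← norm_toLp]
      rfl
    rw [h2]
    unfold eb
    rw [mem_ofPred_eq, ← en_sq]
    constructor
    · intro h
      exact lt_of_pow_lt_pow_left₀ 2 hρ.le h
    · intro h
      exact pow_lt_pow_left₀ h (en_nonneg _) two_ne_zero
  rw [h2] at h1
  exact h1

/-- The direction of the field is Hoelder continuous. -/
def CohV (w : V → V) (c β : ℝ) : Prop := ∀ x y,
  rsq (crossProduct (w x) (w y)) ≤ (c * en (x - y) ^ β) ^ 2 * (rsq (w x) * rsq (w y))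

/-- The divergence. -/
noncomputable def dv (w : V → V) (x : V) : ℝ := ∑ i, pd i (fun y => w y i) x

section

variable {w : V → V} (hw : ∀ i, SP (fun x => w x i))

include hw in
theorem sp_dv : SP (dv w) := SP.sum fun i _ => (hw i).pd i

include hw in
theorem lift_smooth : ContDiff ℝ ∞ (lift w) := by
  have h1 : ContDiff ℝ ∞ w := contDiff_pi.2 fun i => (hw i).smooth
  have h2 : ContDiff ℝ ∞ (fun y : E => (WithLp.ofLp y : V)) :=
    (EuclideanSpace.equiv (Fin 3) ℝ).contDiff
  have h3 : ContDiff ℝ ∞ (fun y : V => (WithLp.toLp 2 y : E)) :=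
    (EuclideanSpace.equiv (Fin 3) ℝ).symm.contDiff
  exact h3.comp (h1.comp h2)

include hw in
theorem dvE_lift (y : E) : dvE (lift w) y = dv w (WithLp.ofLp y) := by
  unfold dvE dv
  refine Finset.sum_congr rfl fun i _ => ?_
  rw [← fderiv_coord ((lift_smooth hw).differentiable (by norm_num) y)]
  have h1 : HasFDerivAt (fun z : V => w z i) (fderiv ℝ (fun z : V => w z i) (WithLp.ofLp y))
      (WithLp.ofLp y) := ((hw i).smooth.differentiable (by norm_num) _).hasFDerivAt
  have h2 : HasFDerivAt (fun y : E => (WithLp.ofLp y : V))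
      ((EuclideanSpace.equiv (Fin 3) ℝ : E ≃L[ℝ] V) : E →L[ℝ] V) y :=
    (EuclideanSpace.equiv (Fin 3) ℝ).hasFDerivAt
  have h3 : HasFDerivAt (fun z : E => lift w z i)
      ((fderiv ℝ (fun z : V => w z i) (WithLp.ofLp y)).comp
        ((EuclideanSpace.equiv (Fin 3) ℝ : E ≃L[ℝ] V) : E →L[ℝ] V)) y := h1.comp y h2
  rw [h3.fderiv]
  unfold pd
  rw [ContinuousLinearMap.comp_apply]
  congr 1

include hw in
theorem tube_lift {c β : ℝ} (hcoh : CohV w c β) :
    Tube (lift w) (fun y => |dvE (lift w) y|) c β (Real.sqrt (27 * ∫ x in cube, rsq (w x)))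
      (Real.sqrt (27 * ∫ x in cube, dv w x ^ 2)) := by
  have hc1 : Continuous fun x => rsq (w x) := rsq_smooth.continuous.comp (w_cont hw)
  have hp1 : Per fun x => rsq (w x) := fun i x => by simp only [w_per hw i x]
  have hc2 : Continuous fun x => dv w x ^ 2 := (sp_dv hw).cont.pow 2
  have hp2 : Per fun x => dv w x ^ 2 := fun i x => by simp only [(sp_dv hw).per i x]
  have e1 : ∀ y : E, ‖lift w y‖ ^ 2 = rsq (w (WithLp.ofLp y)) := fun y => by
    rw [norm_lift, en_sq]
  have e2 : ∀ y : E, |dvE (lift w) y| ^ 2 = dv w (WithLp.ofLp y) ^ 2 := fun y => by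
    rw [sq_abs, dvE_lift hw]
  have hdc : Continuous fun y => |dvE (lift w) y| := by
    have : (fun y => |dvE (lift w) y|) = fun y : E => |dv w (WithLp.ofLp y)| := by
      funext y; rw [dvE_lift hw]
    rw [this]
    exact ((sp_dv hw).cont.comp (EuclideanSpace.equiv (Fin 3) ℝ).continuous).abs
  refine ⟨(lift_smooth hw).continuous.aestronglyMeasurable, fun x => ?_, fun x => ?_,
    hdc.aestronglyMeasurable, fun y => abs_nonneg _, fun x => ?_, fun x => ?_,
    Real.sqrt_nonneg _, Real.sqrt_nonneg _, ?_, ren_smooth ((lift_smooth hw).of_le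
      (by norm_cast))⟩
  · simp_rw [e1]
    exact intOn_ball_lift (F := fun x => rsq (w x)) x one_pos
      (eb_int hc1 hp1 (fun x => rsq_nonneg _) _).1
  · simp_rw [e1]
    rw [int_ball_lift (F := fun x => rsq (w x)) x one_pos, Real.sq_sqrt (mul_nonneg (by norm_num)
      (integral_nonneg fun x => rsq_nonneg _))]
    exact (eb_int hc1 hp1 (fun x => rsq_nonneg _) _).2
  · simp_rw [e2]
    exact intOn_ball_lift (F := fun x => dv w x ^ 2) x one_pos
      (eb_int hc2 hp2 (fun x => sq_nonneg _) _).1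
  · simp_rw [e2]
    rw [int_ball_lift (F := fun x => dv w x ^ 2) x one_pos, Real.sq_sqrt (mul_nonneg (by norm_num)
      (integral_nonneg fun x => sq_nonneg _))]
    exact (eb_int hc2 hp2 (fun x => sq_nonneg _) _).2
  · refine Filter.Eventually.of_forall fun p => Filter.Eventually.of_forall fun y => ?_
    unfold Coh
    have h1 := hcoh (WithLp.ofLp p) (WithLp.ofLp y)
    have h2 : ‖p - y‖ = en (WithLp.ofLp p - WithLp.ofLp y) := by
      rw [← norm_toLp]; rfl
    have h3 : ⟪lift w p, lift w y⟫ = ∑ i, w (WithLp.ofLp p) i * w (WithLp.ofLp y) i :=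
      inner_lift _ _
    rw [e1, e1, h2, h3, lagrange]
    exact h1

/-- The constant of the flux tube estimate for periodic fields. -/
noncomputable def CG (β : ℝ) : ℝ := (tt.card + 1) * Real.sqrt (CF β * 27)

theorem CG_pos (β : ℝ) : 0 < CG β := by
  have := CF_pos β
  unfold CG
  positivity

include hw in
/-- The flux tube estimate for periodic fields. -/
theorem flux_per {c β ρ : ℝ} (hcoh : CohV w c β) (hβ0 : 0 < β) (hβ1 : β ≤ 1) (hc : 1 ≤ c)
    (hρ : 0 < ρ) (hρ1 : ρ ≤ 1) (hκ : c * ρ ^ β ≤ kap β) (x : V) :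
    ∫ y in eb x ρ, en (w y) ≤ CG β * Real.sqrt (c * ρ ^ (3 + β) * (∫ x in cube, rsq (w x))
      + ρ ^ 4 * (Real.sqrt (∫ x in cube, rsq (w x)) * Real.sqrt (∫ x in cube, dv w x ^ 2))) := by
  set Y := ∫ x in cube, rsq (w x) with hY
  set Z := ∫ x in cube, dv w x ^ 2 with hZ
  have hY0 : 0 ≤ Y := integral_nonneg fun x => rsq_nonneg _
  have hZ0 : 0 ≤ Z := integral_nonneg fun x => sq_nonneg _
  have ht := tube_lift hw hcoh
  have hfl := fun x => ht.flux hβ0 hβ1 hc hρ hρ1 hκ x
  set R := c * ρ ^ (3 + β) * Y + ρ ^ 4 * (Real.sqrt Y * Real.sqrt Z) with hR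
  have hR1 : c * ρ ^ (3 + β) * Real.sqrt (27 * Y) ^ 2
      + ρ ^ 4 * (Real.sqrt (27 * Y) * Real.sqrt (27 * Z)) = 27 * R := by
    rw [Real.sq_sqrt (by positivity), Real.sqrt_mul (by norm_num), Real.sqrt_mul (by norm_num), hR]
    have : Real.sqrt 27 * Real.sqrt 27 = 27 := Real.mul_self_sqrt (by norm_num)
    calc c * ρ ^ (3 + β) * (27 * Y) + ρ ^ 4 * (Real.sqrt 27 * Real.sqrt Y
          * (Real.sqrt 27 * Real.sqrt Z))
        = c * ρ ^ (3 + β) * (27 * Y) + ρ ^ 4 * ((Real.sqrt 27 * Real.sqrt 27)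
          * (Real.sqrt Y * Real.sqrt Z)) := by ring
      _ = _ := by rw [this]; ring
  have hM : ∀ x, MM (lift w) ρ x ≤ Real.sqrt (CF β * 27) * Real.sqrt R := by
    intro x
    have h1 := hfl x
    rw [hR1] at h1
    have h2 : MM (lift w) ρ x ≤ Real.sqrt (CF β * (27 * R)) := Real.le_sqrt_of_sq_le h1
    refine h2.trans (le_of_eq ?_)
    rw [← mul_assoc, Real.sqrt_mul (by have := CF_pos β; positivity)]
  have h1 := int_ball_lift (F := fun y => en (w y)) (WithLp.toLp 2 x : E) hρ
  have h2 : ∫ y in ball (WithLp.toLp 2 x : E) ρ, en (w (WithLp.ofLp y))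
      = ∫ y in ball (WithLp.toLp 2 x : E) ρ, ‖lift w y‖ := by
    simp_rw [norm_lift]
  have h3 := ball_le_sum hρ ht.locInt (WithLp.toLp 2 x : E)
  have h4 : ∑ z ∈ tt, MM (lift w) ρ (WithLp.toLp 2 x + ρ • z)
      ≤ (tt.card + 1) * (Real.sqrt (CF β * 27) * Real.sqrt R) := by
    refine (Finset.sum_le_sum fun z _ => hM _).trans ?_
    rw [Finset.sum_const, nsmul_eq_mul]
    have : 0 ≤ Real.sqrt (CF β * 27) * Real.sqrt R := by positivity
    nlinarith
  have h5 : ∫ y in eb x ρ, en (w y) = ∫ y in ball (WithLp.toLp 2 x : E) ρ, ‖lift w y‖ := by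
    rw [← h2, h1]
  rw [h5]
  refine (h3.trans h4).trans (le_of_eq ?_)
  unfold CG
  ring

end

end Pool.Agent.R210
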