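import Pool.Agent.R210.M2
import Pool.Agent.R210.Trans

/-!
Divergence free fields with Hoelder continuous direction are nearly invariant in some direction.
-/

open MeasureTheory Set Metric Filter Topology
open scoped ContDiff RealInnerProductSpace
open H459R3.NS

namespace Pool.Agent.R210

theorem norm_ei (i : Fin 3) : ‖ei i‖ = 1 := by
  unfold ei
  simp

theorem fderiv_zero_of_tsupp {ψ : E → ℝ} {x : E} {ρ : ℝ} (hs : tsupport ψ ⊆ ball x ρ) {y : E}
    (hy : y ∉ ball x ρ) : fderiv ℝ ψ y = 0 :=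
  image_eq_zero_of_notMem_tsupport (fun h' => hy (hs (tsupport_fderiv_subset ℝ h')))

/-- The integrated divergence. -/
theorem int_dv_zero {w : E → E} (hw : ContDiff ℝ 1 w) (hdiv : ∀ y, dvE w y = 0) {ψ : E → ℝ}
    (hψ : ContDiff ℝ ∞ ψ) (hc : HasCompactSupport ψ) : ∫ y, fderiv ℝ ψ y (w y) = 0 := by
  have hwi : ∀ i, ContDiff ℝ 1 fun y => w y i := fun i =>
    (EuclideanSpace.proj i : E →L[ℝ] ℝ).contDiff.comp hw
  have hsum : ∀ y, fderiv ℝ ψ y (w y) = ∑ i, w y i * fderiv ℝ ψ y (ei i) := by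
    intro y
    rw [lin_sum (fderiv ℝ ψ y) (w y)]
    exact Finset.sum_congr rfl fun i _ => by rw [smul_eq_mul]
  have hi1 : ∀ i, Integrable fun y => w y i * fderiv ℝ ψ y (ei i) := by
    intro i
    have h1 : Continuous fun y => fderiv ℝ ψ y (ei i) :=
      (hψ.continuous_fderiv (by norm_num)).clm_apply continuous_const
    have h3 : HasCompactSupport fun y => fderiv ℝ ψ y (ei i) :=
      (hc.fderiv (𝕜 := ℝ)).comp_left (g := fun L : E →L[ℝ] ℝ => L (ei i)) (by simp)
    exact ((hwi i).continuous.mul h1).integrable_of_hasCompactSupport h3.mul_left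
  have hi2 : ∀ i, Integrable fun y => fderiv ℝ (fun y => w y i) y (ei i) * ψ y := by
    intro i
    have h2 : Continuous fun y => fderiv ℝ (fun y => w y i) y (ei i) :=
      ((hwi i).continuous_fderiv one_ne_zero).clm_apply continuous_const
    exact (h2.mul hψ.continuous).integrable_of_hasCompactSupport hc.mul_left
  simp_rw [hsum]
  rw [integral_finsetSum _ fun i _ => hi1 i]
  simp_rw [fun i => int_fderiv_test (hwi i) hψ hc (ei i)]
  rw [Finset.sum_neg_distrib, ← integral_finsetSum _ fun i _ => hi2 i, neg_eq_zero]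
  have h1 : ∀ y, ∑ i, fderiv ℝ (fun y => w y i) y (ei i) * ψ y = 0 := by
    intro y
    rw [← Finset.sum_mul]
    have h2 : ∑ i, fderiv ℝ (fun y => w y i) y (ei i) = dvE w y := by
      unfold dvE
      exact Finset.sum_congr rfl fun i _ => fderiv_coord (hw.differentiable one_ne_zero y) _ i
    rw [h2, hdiv, zero_mul]
  simp_rw [h1]
  exact integral_zero _ _

theorem rpow2 {ρ β : ℝ} (hρ : 0 < ρ) (hβ1 : β ≤ 1) : (2 * ρ) ^ β ≤ 2 * ρ ^ β := by
  rw [Real.mul_rpow (by norm_num) hρ.le]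
  refine mul_le_mul_of_nonneg_right ?_ (Real.rpow_nonneg hρ.le _)
  calc (2 : ℝ) ^ β ≤ 2 ^ (1 : ℝ) := Real.rpow_le_rpow_of_exponent_le (by norm_num) hβ1
    _ = 2 := Real.rpow_one _

section

variable {w : E → E} {c β : ℝ}

/-- The comparison of the two integrals. -/
theorem cmp_int (hw : Continuous w) {x : E} {ρ : ℝ} {ψ : E → ℝ} {L : ℝ} (hψ : ContDiff ℝ ∞ ψ)
    (hs : tsupport ψ ⊆ ball x ρ) (hL : ∀ y, ‖fderiv ℝ ψ y‖ ≤ L) {g : E → E} {e : E}
    {F : E → ℝ} (hF : Continuous F) (hg : ∀ y ∈ ball x ρ, ‖‖w y‖ • e - g y‖ ≤ F y)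
    (hgi : Integrable fun y => fderiv ℝ ψ y (g y)) (h0 : ∫ y, fderiv ℝ ψ y (g y) = 0) :
    |∫ y, ‖w y‖ * fderiv ℝ ψ y e| ≤ L * ∫ y in ball x ρ, F y := by
  have hL0 : 0 ≤ L := (norm_nonneg _).trans (hL 0)
  have i1 : Integrable fun y => ‖w y‖ * fderiv ℝ ψ y e := by
    refine supp_int (x := x) (s := ρ) ?_ fun y hy => ?_
    · exact hw.norm.mul ((hψ.continuous_fderiv (by norm_num)).clm_apply continuous_const)
    · rw [fderiv_zero_of_tsupp hs (fun h => hy (ball_subset_closedBall h))]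
      simp
  have h1 : ∫ y, ‖w y‖ * fderiv ℝ ψ y e
      = ∫ y, (‖w y‖ * fderiv ℝ ψ y e - fderiv ℝ ψ y (g y)) := by
    rw [integral_sub i1 hgi, h0, sub_zero]
  rw [h1, ← Real.norm_eq_abs, ← integral_const_mul, ← integral_indicator measurableSet_ball]
  refine norm_integral_le_of_norm_le ?_ (Filter.Eventually.of_forall fun y => ?_)
  · refine IntegrableOn.integrable_indicator ?_ measurableSet_ball
    exact intOn_ball (continuous_const.mul hF) x ρ
  · simp only [indicator]
    split_ifs with hy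
    · have e1 : ‖w y‖ * fderiv ℝ ψ y e - fderiv ℝ ψ y (g y)
          = fderiv ℝ ψ y (‖w y‖ • e - g y) := by
        rw [map_sub, map_smul, smul_eq_mul]
      rw [e1]
      exact ((fderiv ℝ ψ y).le_opNorm _).trans
        (mul_le_mul (hL y) (hg y hy) (norm_nonneg _) hL0)
    · rw [fderiv_zero_of_tsupp hs hy]
      simp

/-- Coherence up to sign. -/
theorem str_sine (hw : ContDiff ℝ 1 w) (hdiv : ∀ y, dvE w y = 0) (hβ0 : 0 ≤ β) (hβ1 : β ≤ 1)
    (hc : 0 ≤ c) (hcoh : ∀ p y, Coh w c β p y) {R : ℝ} (hR : c * (2 * R) ^ β ≤ 1 / 2) :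
    Str (fun y => ‖w y‖) (3 * c) β 0 R := by
  intro x ρ hρ hρR
  by_cases hp : ∃ p ∈ ball x ρ, w p ≠ 0
  swap
  · push Not at hp
    refine ⟨ei 0, norm_ei 0, fun ψ L hψ hcs hs hL => ?_⟩
    have hL0 : 0 ≤ L := (norm_nonneg _).trans (hL 0)
    have h1 : ∀ y, ‖w y‖ * fderiv ℝ ψ y (ei 0) = 0 := by
      intro y
      by_cases hy : y ∈ ball x ρ
      · rw [hp y hy]; simp
      · rw [fderiv_zero_of_tsupp hs hy]; simp
    simp_rw [h1]
    rw [integral_zero, abs_zero]
    have h2 : 0 ≤ ∫ y in ball x ρ, ‖w y‖ := integral_nonneg fun y => norm_nonneg _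
    have := Real.rpow_nonneg hρ.le β
    positivity
  · obtain ⟨p, hpx, hp0⟩ := hp
    have hn : 0 < ‖w p‖ := norm_pos_iff.2 hp0
    set e : E := (‖w p‖⁻¹) • w p with he
    have he1 : ‖e‖ = 1 := by
      rw [he, norm_smul, norm_inv, norm_norm, inv_mul_cancel₀ hn.ne']
    refine ⟨e, he1, fun ψ L hψ hcs hs hL => ?_⟩
    have hL0 : 0 ≤ L := (norm_nonneg _).trans (hL 0)
    set δ : ℝ := c * (2 * ρ) ^ β with hδ
    have hδ0 : 0 ≤ δ := mul_nonneg hc (Real.rpow_nonneg (by linarith) _)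
    have hδ1 : δ ≤ 1 / 2 := by
      refine le_trans ?_ hR
      exact mul_le_mul_of_nonneg_left (Real.rpow_le_rpow (by linarith) (by linarith) hβ0) hc
    have hdist : ∀ y ∈ ball x ρ, c * ‖p - y‖ ^ β ≤ δ := by
      intro y hy
      rw [mem_ball, dist_eq_norm] at hy hpx
      refine mul_le_mul_of_nonneg_left (Real.rpow_le_rpow (norm_nonneg _) ?_ hβ0) hc
      have e1 : p - y = (p - x) - (y - x) := by abel
      rw [e1]
      have := norm_sub_le (p - x) (y - x)
      linarith
    have had : ∀ y ∈ ball x ρ, ‖w y‖ ^ 2 - ⟪e, w y⟫ ^ 2 ≤ δ ^ 2 * ‖w y‖ ^ 2 := by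
      intro y hy
      refine (adapted_of_coh hp0 (hcoh p y)).trans (mul_le_mul_of_nonneg_right ?_ (sq_nonneg _))
      exact pow_le_pow_left₀ (mul_nonneg hc (Real.rpow_nonneg (norm_nonneg _) _)) (hdist y hy) 2
    have hcone : ∀ y ∈ ball x ρ, ‖w y‖ ^ 2 - ⟪e, w y⟫ ^ 2 ≤ ‖w y‖ ^ 2 / 4 := by
      intro y hy
      refine (had y hy).trans ?_
      have : δ ^ 2 ≤ 1 / 4 := by nlinarith
      nlinarith [sq_nonneg ‖w y‖]
    have hren := ren_smooth hw e x ρ he1 (Filter.Eventually.of_forall fun y hy => hcone y hy)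
      ψ hψ hcs hs
    have h0 : ∫ y, |ψ y| * |dvE w y| = 0 := by
      simp_rw [hdiv, abs_zero, mul_zero]
      exact integral_zero _ _
    rw [h0] at hren
    have h00 : ∫ y, fderiv ℝ ψ y (Real.sign ⟪e, w y⟫ • w y) = 0 := by
      have := abs_nonpos_iff.1 hren
      rw [← this]
      congr 1
      funext y
      rw [map_smul, smul_eq_mul]
    have hsb : ∀ r : ℝ, |Real.sign r| ≤ 1 := by
      intro r
      rcases Real.sign_apply_eq r with h1 | h1 | h1 <;> rw [h1] <;> norm_num
    have hgi : Integrable fun y => fderiv ℝ ψ y (Real.sign ⟪e, w y⟫ • w y) := by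
      have hi : Integrable fun y => fderiv ℝ ψ y (w y) := by
        refine supp_int (x := x) (s := ρ) ?_ fun y hy => ?_
        · exact (hψ.continuous_fderiv (by norm_num)).clm_apply hw.continuous
        · rw [fderiv_zero_of_tsupp hs (fun h => hy (ball_subset_closedBall h))]
          simp
      refine Integrable.mono' hi.norm ?_ (Filter.Eventually.of_forall fun y => ?_)
      · have h1 : Measurable fun y => ⟪e, w y⟫ :=
          (continuous_const.inner hw.continuous).measurable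
        have h2 : Measurable Real.sign := by
          have : Real.sign = fun r : ℝ => if r < 0 then (-1 : ℝ) else if 0 < r then 1 else 0 := by
            funext r; rfl
          rw [this]
          exact Measurable.ite measurableSet_Iio measurable_const
            (Measurable.ite measurableSet_Ioi measurable_const measurable_const)
        have h3 : (fun y => fderiv ℝ ψ y (Real.sign ⟪e, w y⟫ • w y))
            = fun y => Real.sign ⟪e, w y⟫ * fderiv ℝ ψ y (w y) := by
          funext y; rw [map_smul, smul_eq_mul]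
        rw [h3]
        exact ((h2.comp h1).mul (((hψ.continuous_fderiv (by norm_num)).clm_apply
          hw.continuous).measurable)).aestronglyMeasurable
      · rw [map_smul, norm_smul, Real.norm_eq_abs]
        exact mul_le_of_le_one_left (norm_nonneg _) (hsb _)
    have h1 := cmp_int (g := fun y => Real.sign ⟪e, w y⟫ • w y) (e := e)
      (F := fun y => 3 / 2 * δ * ‖w y‖) hw.continuous hψ hs hL
      (continuous_const.mul hw.continuous.norm)
      (fun y hy => norm_sub_sign he1 hδ0 (hcone y hy) (had y hy)) hgi h00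
    refine h1.trans ?_
    rw [integral_const_mul]
    refine mul_le_mul_of_nonneg_left ?_ hL0
    have h2 : 0 ≤ ∫ y in ball x ρ, ‖w y‖ := integral_nonneg fun y => norm_nonneg _
    have h3 : 3 / 2 * δ ≤ 3 * c * ρ ^ β := by
      have := mul_le_mul_of_nonneg_left (rpow2 hρ hβ1) hc
      rw [hδ]; linarith
    rw [zero_mul, add_zero]
    exact mul_le_mul_of_nonneg_right h3 h2

/-- Coherence of the direction above a threshold. -/
theorem str_dir (hw : ContDiff ℝ 1 w) (hdiv : ∀ y, dvE w y = 0) (hβ0 : 0 ≤ β) (hβ1 : β ≤ 1)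
    (hc : 0 ≤ c) {K : ℝ} (hK : 0 ≤ K) (hdir : ∀ p y, K < ‖w p‖ → K < ‖w y‖ →
      ‖‖w y‖ • w p - ‖w p‖ • w y‖ ≤ c * ‖p - y‖ ^ β * (‖w p‖ * ‖w y‖)) (R : ℝ) :
    Str (fun y => ‖w y‖) (2 * c) β (2 * K * v3) R := by
  have hv := v3_pos
  intro x ρ hρ hρR
  have hvol : ∀ a : ℝ, ∫ _ in ball x ρ, a = a * (v3 * ρ ^ 3) := by
    intro a
    rw [setIntegral_const, smul_eq_mul, ← vol_ball x hρ.le]
    simp only [Measure.real]
    ring
  have hI0 : 0 ≤ ∫ y in ball x ρ, ‖w y‖ := integral_nonneg fun y => norm_nonneg _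
  have hρβ := Real.rpow_nonneg hρ.le β
  by_cases hp : ∃ p ∈ ball x ρ, K < ‖w p‖
  swap
  · push Not at hp
    refine ⟨ei 0, norm_ei 0, fun ψ L hψ hcs hs hL => ?_⟩
    have hL0 : 0 ≤ L := (norm_nonneg _).trans (hL 0)
    have h1 := cmp_int (g := fun _ => (0 : E)) (e := ei 0) (F := fun y => ‖w y‖) hw.continuous
      hψ hs hL hw.continuous.norm (fun y _ => by rw [sub_zero, norm_smul, norm_ei, mul_one,
        norm_norm]) (by simp) (by simp)
    refine h1.trans (mul_le_mul_of_nonneg_left ?_ hL0)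
    have h2 : ∫ y in ball x ρ, ‖w y‖ ≤ ∫ _ in ball x ρ, K :=
      setIntegral_mono_on (intOn_ball hw.continuous.norm x ρ)
        (integrableOn_const (measure_ball_lt_top).ne) measurableSet_ball hp
    rw [hvol] at h2
    have h3 : 0 ≤ 2 * c * ρ ^ β * ∫ y in ball x ρ, ‖w y‖ := by positivity
    have h4 : 0 ≤ K * (v3 * ρ ^ 3) := by positivity
    linarith
  · obtain ⟨p, hpx, hpK⟩ := hp
    have hn : 0 < ‖w p‖ := hK.trans_lt hpK
    set e : E := (‖w p‖⁻¹) • w p with he
    have he1 : ‖e‖ = 1 := by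
      rw [he, norm_smul, norm_inv, norm_norm, inv_mul_cancel₀ hn.ne']
    refine ⟨e, he1, fun ψ L hψ hcs hs hL => ?_⟩
    have hL0 : 0 ≤ L := (norm_nonneg _).trans (hL 0)
    set δ : ℝ := c * (2 * ρ) ^ β with hδ
    have hδ0 : 0 ≤ δ := mul_nonneg hc (Real.rpow_nonneg (by linarith) _)
    have hgi : Integrable fun y => fderiv ℝ ψ y (w y) := by
      refine supp_int (x := x) (s := ρ) ?_ fun y hy => ?_
      · exact (hψ.continuous_fderiv (by norm_num)).clm_apply hw.continuous
      · rw [fderiv_zero_of_tsupp hs (fun h => hy (ball_subset_closedBall h))]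
        simp
    have hpt : ∀ y ∈ ball x ρ, ‖‖w y‖ • e - w y‖ ≤ δ * ‖w y‖ + 2 * K := by
      intro y hy
      rcases lt_or_ge K ‖w y‖ with h | h
      · have h1 := hdir p y hpK h
        have h2 : ‖w y‖ • e - w y = (‖w p‖⁻¹) • (‖w y‖ • w p - ‖w p‖ • w y) := by
          rw [he, smul_sub, smul_smul, smul_smul, smul_smul, inv_mul_cancel₀ hn.ne', one_smul,
            mul_comm]
        have h3 : c * ‖p - y‖ ^ β ≤ δ := by
          rw [mem_ball, dist_eq_norm] at hy hpx
          refine mul_le_mul_of_nonneg_left (Real.rpow_le_rpow (norm_nonneg _) ?_ hβ0) hc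
          have e1 : p - y = (p - x) - (y - x) := by abel
          rw [e1]
          have := norm_sub_le (p - x) (y - x)
          linarith
        rw [h2, norm_smul, norm_inv, norm_norm, inv_mul_le_iff₀ hn]
        calc ‖‖w y‖ • w p - ‖w p‖ • w y‖ ≤ c * ‖p - y‖ ^ β * (‖w p‖ * ‖w y‖) := h1
          _ ≤ δ * (‖w p‖ * ‖w y‖) := mul_le_mul_of_nonneg_right h3 (by positivity)
          _ ≤ ‖w p‖ * (δ * ‖w y‖ + 2 * K) := by nlinarith
      · have h1 : ‖‖w y‖ • e - w y‖ ≤ ‖w y‖ + ‖w y‖ := by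
          refine (norm_sub_le _ _).trans ?_
          rw [norm_smul, he1, mul_one, norm_norm]
        have h2 : 0 ≤ δ * ‖w y‖ := by positivity
        linarith
    have h1 := cmp_int (g := w) (e := e) (F := fun y => δ * ‖w y‖ + 2 * K) hw.continuous hψ hs hL
      ((continuous_const.mul hw.continuous.norm).add continuous_const) hpt hgi
      (int_dv_zero hw hdiv hψ hcs)
    refine h1.trans (mul_le_mul_of_nonneg_left ?_ hL0)
    have i1 : IntegrableOn (fun y => δ * ‖w y‖) (ball x ρ) :=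
      intOn_ball (continuous_const.mul hw.continuous.norm) x ρ
    have i2 : IntegrableOn (fun _ : E => 2 * K) (ball x ρ) :=
      integrableOn_const (measure_ball_lt_top).ne
    rw [integral_add i1 i2, integral_const_mul, hvol]
    have h3 : δ ≤ 2 * c * ρ ^ β := by
      have := mul_le_mul_of_nonneg_left (rpow2 hρ hβ1) hc
      rw [hδ]; linarith
    have h4 := mul_le_mul_of_nonneg_right h3 hI0
    linarith

end

end Pool.Agent.R210
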