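import Pool.Agent.R210.Prod3

/-!
The production of enstrophy: the estimate.
-/

open MeasureTheory Set Metric Filter Topology
open scoped ContDiff ENNReal
open H459R3.NS

namespace Pool.Agent.R210

theorem swap_U1 {G : V → V → ℝ} (hG : Continuous fun p : V × V => G p.1 p.2) :
    ∫ x in cube, ∫ z in U1, G x z = ∫ z in U1, ∫ x in cube, G x z := by
  refine integral_integral_swap ?_
  rw [Measure.prod_restrict]
  have h2 : IntegrableOn (fun p : V × V => G p.1 p.2) (cube ×ˢ closedBall (0 : V) 1)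
      (volume.prod volume) := by
    rw [← Measure.volume_eq_prod]
    exact hG.continuousOn.integrableOn_compact (isCompact_Icc.prod (isCompact_closedBall _ _))
  exact h2.mono_set (prod_mono subset_rfl U1_sub)

theorem cont_U1 {G : V → V → ℝ} (hG : Continuous fun p : V × V => G p.1 p.2) :
    Continuous fun x => ∫ z in U1, G x z := by
  have hf : IsFiniteMeasure (volume.restrict U1) := ⟨by
    rw [Measure.restrict_apply_univ]; exact lt_top_iff_ne_top.2 U1_fin⟩
  refine continuous_iff_continuousAt.2 fun x₀ => ?_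
  have hcomp : IsCompact (closedBall x₀ 1 ×ˢ closedBall (0 : V) 1) :=
    (isCompact_closedBall x₀ 1).prod (isCompact_closedBall _ _)
  obtain ⟨C, hC⟩ := hcomp.exists_bound_of_continuousOn hG.continuousOn
  refine continuousAt_of_dominated (bound := fun _ => C) ?_ ?_ (integrable_const _) ?_
  · exact Filter.Eventually.of_forall fun x =>
      (hG.comp (continuous_const.prodMk continuous_id)).aestronglyMeasurable
  · filter_upwards [closedBall_mem_nhds x₀ one_pos] with x hx
    rw [ae_restrict_iff' measurable_U1]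
    exact Filter.Eventually.of_forall fun z hz => hC (x, z) ⟨hx, U1_sub hz⟩
  · exact Filter.Eventually.of_forall fun z =>
      (hG.comp (continuous_id.prodMk continuous_const)).continuousAt

theorem young3 {a b : ℝ} (ha : 0 ≤ a) (hb : 0 ≤ b) : a ^ 2 * b ≤ 2 / 3 * a ^ 3 + 1 / 3 * b ^ 3 := by
  nlinarith [mul_nonneg (by linarith : 0 ≤ 2 * a + b) (sq_nonneg (a - b))]

/-- The integral which controls the production at the scale `t`. -/
noncomputable def Aw (w : V → V) (t : ℝ) : ℝ :=
  ∫ x in cube, rsq (w x) * ∫ z in U1, en (w (x - t • z))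

section

variable {w : V → V} (hw : ∀ i, SP (fun x => w x i))

include hw in
theorem fshift_cont (t : ℝ) : Continuous fun p : V × V => en (w (p.1 - t • p.2)) :=
  (f_cont hw).comp (by fun_prop)

include hw in
theorem rsqw_cont : Continuous fun x => rsq (w x) := rsq_smooth.continuous.comp (w_cont hw)

include hw in
theorem Aw_near (t : ℝ) : Aw w t ≤ vU * ∫ x in cube, en (w x) ^ 3 := by
  have hf := f_cont hw
  have hfs := fshift_cont hw t
  set X := ∫ x in cube, en (w x) ^ 3 with hX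
  have hcol : ∀ x, Continuous fun z : V => en (w (x - t • z)) := fun x =>
    hfs.comp (continuous_const.prodMk continuous_id)
  have h1 : ∀ x, rsq (w x) * ∫ z in U1, en (w (x - t • z))
      ≤ 2 / 3 * vU * en (w x) ^ 3 + 1 / 3 * ∫ z in U1, en (w (x - t • z)) ^ 3 := by
    intro x
    rw [← integral_const_mul]
    have j1 : IntegrableOn (fun _ : V => 2 / 3 * en (w x) ^ 3) U1 := int_U1 continuous_const
    have j2 : IntegrableOn (fun z : V => 1 / 3 * en (w (x - t • z)) ^ 3) U1 :=
      int_U1 (continuous_const.mul ((hcol x).pow 3))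
    have e1 : 2 / 3 * vU * en (w x) ^ 3 + 1 / 3 * ∫ z in U1, en (w (x - t • z)) ^ 3
        = ∫ z in U1, (2 / 3 * en (w x) ^ 3 + 1 / 3 * en (w (x - t • z)) ^ 3) := by
      rw [integral_add j1 j2, setIntegral_const, integral_const_mul]
      simp only [smul_eq_mul, Measure.real, vU]
      ring
    rw [e1]
    refine setIntegral_mono (int_U1 (continuous_const.mul (hcol x)))
      ((int_U1 (f := fun _ => 2 / 3 * en (w x) ^ 3) continuous_const).add
        (int_U1 (f := fun z => 1 / 3 * en (w (x - t • z)) ^ 3)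
          (continuous_const.mul ((hcol x).pow 3)))) fun z => ?_
    have := young3 (en_nonneg (w x)) (en_nonneg (w (x - t • z)))
    rw [en_sq] at this
    exact this
  have hS3 : Continuous fun x => ∫ z in U1, en (w (x - t • z)) ^ 3 :=
    cont_U1 (G := fun x z => en (w (x - t • z)) ^ 3) (hfs.pow 3)
  have hS1 : Continuous fun x => ∫ z in U1, en (w (x - t • z)) :=
    cont_U1 (G := fun x z => en (w (x - t • z))) hfs
  have h2 : Aw w t ≤ ∫ x in cube, (2 / 3 * vU * en (w x) ^ 3
      + 1 / 3 * ∫ z in U1, en (w (x - t • z)) ^ 3) :=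
    setIntegral_mono (integrableOn_cube ((rsqw_cont hw).mul hS1))
      (integrableOn_cube ((continuous_const.mul (hf.pow 3)).add (continuous_const.mul hS3))) h1
  refine h2.trans (le_of_eq ?_)
  have i1 : IntegrableOn (fun x => 2 / 3 * vU * en (w x) ^ 3) cube :=
    integrableOn_cube (continuous_const.mul (hf.pow 3))
  have i2 : IntegrableOn (fun x => 1 / 3 * ∫ z in U1, en (w (x - t • z)) ^ 3) cube :=
    integrableOn_cube (continuous_const.mul hS3)
  rw [integral_add i1 i2, integral_const_mul, integral_const_mul,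
    swap_U1 (G := fun x z => en (w (x - t • z)) ^ 3) (hfs.pow 3)]
  have h3 : ∀ z : V, ∫ x in cube, en (w (x - t • z)) ^ 3 = X := by
    intro z
    have := int_shift (f := fun x => en (w x) ^ 3) (fun i x => by simp only [w_per hw i x]) (-(t • z))
    simpa [sub_eq_add_neg] using this
  simp_rw [h3]
  rw [setIntegral_const]
  simp only [smul_eq_mul, Measure.real, vU]
  ring

include hw in
theorem Aw_far (t : ℝ) {S : ℝ} (hS : ∀ x, ∫ z in U1, en (w (x - t • z)) ≤ S) :
    Aw w t ≤ S * ∫ x in cube, rsq (w x) := by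
  have hS1 : Continuous fun x => ∫ z in U1, en (w (x - t • z)) :=
    cont_U1 (G := fun x z => en (w (x - t • z))) (fshift_cont hw t)
  rw [← integral_const_mul]
  refine setIntegral_mono (integrableOn_cube ((rsqw_cont hw).mul hS1))
    (integrableOn_cube (continuous_const.mul (rsqw_cont hw))) fun x => ?_
  show rsq (w x) * _ ≤ S * rsq (w x)
  rw [mul_comm]
  exact mul_le_mul_of_nonneg_right (hS x) (rsq_nonneg _)

theorem en_smul (t : ℝ) (z : V) : en (t • z) = |t| * en z := by
  unfold en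
  rw [rsq_smul, Real.sqrt_mul (sq_nonneg t), Real.sqrt_sq_eq_abs]

theorem CohV.en_le {c β : ℝ} (h : CohV w c β) (hc : 0 ≤ c) (x y : V) :
    en (crossProduct (w x) (w y)) ≤ c * en (x - y) ^ β * (en (w x) * en (w y)) := by
  have h1 := h x y
  have h2 : 0 ≤ c * en (x - y) ^ β * (en (w x) * en (w y)) := by
    have := en_nonneg (w x)
    have := en_nonneg (w y)
    have := Real.rpow_nonneg (en_nonneg (x - y)) β
    positivity
  refine le_of_sq_le_sq ?_ h2
  rw [en_sq]
  refine h1.trans (le_of_eq ?_)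
  rw [← en_sq (w x), ← en_sq (w y)]
  ring

include hw in
/-- The production of the coherent part at the scale `t`. -/
theorem Iww_le {c β : ℝ} (h : CohV w c β) (hc : 0 ≤ c) (hβ : 0 ≤ β) {t : ℝ} (ht : 0 < t) :
    |t * ∫ x in cube, Zf w w t x| ≤ 3 * BB * c * t ^ (β - 1) * Aw w t := by
  have hB := one_le_BB
  have hZ : Continuous fun x => Zf w w t x := (Zf_cont hw hw).comp
    (continuous_const.prodMk continuous_id)
  have hS1 : Continuous fun x => ∫ z in U1, en (w (x - t • z)) :=
    cont_U1 (G := fun x z => en (w (x - t • z))) (fshift_cont hw t)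
  rw [← integral_const_mul, Aw, ← integral_const_mul, ← Real.norm_eq_abs]
  refine norm_integral_le_of_norm_le (integrableOn_cube (continuous_const.mul
    ((rsqw_cont hw).mul hS1))) (Filter.Eventually.of_forall fun x => ?_)
  rw [Real.norm_eq_abs, abs_mul, abs_of_pos ht]
  have h1 := Zf_le (w := w) hw t x
  have hcc : Continuous fun z : V => en (crossProduct (w x) (w (x - t • z))) :=
    en_cont.comp (cross_cont continuous_const ((w_cont hw).comp (by fun_prop)))
  have h2 : ∫ z in U1, en (crossProduct (w x) (w (x - t • z)))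
      ≤ ∫ z in U1, c * t ^ β * en (w x) * en (w (x - t • z)) := by
    refine setIntegral_mono_on (int_U1 hcc) (int_U1 (continuous_const.mul
      ((fshift_cont hw t).comp (continuous_const.prodMk continuous_id)))) measurable_U1
      fun z hz => ?_
    refine (h.en_le hc x (x - t • z)).trans ?_
    have e1 : x - (x - t • z) = t • z := by abel
    have h3 : en (t • z) ≤ t := by
      rw [en_smul, abs_of_pos ht]
      refine mul_le_of_le_one_right ht.le ?_
      unfold en
      rw [← Real.sqrt_one]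
      exact Real.sqrt_le_sqrt (le_of_lt hz)
    rw [e1]
    have h4 : en (t • z) ^ β ≤ t ^ β := Real.rpow_le_rpow (en_nonneg _) h3 hβ
    have h5 : 0 ≤ en (w x) * en (w (x - t • z)) := mul_nonneg (en_nonneg _) (en_nonneg _)
    calc c * en (t • z) ^ β * (en (w x) * en (w (x - t • z)))
        ≤ c * t ^ β * (en (w x) * en (w (x - t • z))) :=
          mul_le_mul_of_nonneg_right (mul_le_mul_of_nonneg_left h4 hc) h5
      _ = _ := by ring
  rw [integral_const_mul] at h2
  set I := ∫ z in U1, en (w (x - t • z)) with hI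
  have hI0 : 0 ≤ I := integral_nonneg fun z => en_nonneg _
  have h6 : t ^ 2 * |Zf w w t x| ≤ 3 * BB * (c * t ^ β) * (rsq (w x) * I) := by
    refine h1.trans ?_
    calc 3 * BB * (en (w x) * ∫ z in U1, en (crossProduct (w x) (w (x - t • z))))
        ≤ 3 * BB * (en (w x) * (c * t ^ β * en (w x) * I)) := by
          refine mul_le_mul_of_nonneg_left ?_ (by positivity)
          exact mul_le_mul_of_nonneg_left h2 (en_nonneg _)
      _ = 3 * BB * (c * t ^ β) * (en (w x) ^ 2 * I) := by ring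
      _ = _ := by rw [en_sq]
  have h7 : t ^ β = t * t ^ (β - 1) := by
    rw [Real.rpow_sub ht, Real.rpow_one]; field_simp
  rw [h7] at h6
  have h8 : t * (t * |Zf w w t x|) ≤ t * (3 * BB * c * t ^ (β - 1) * (rsq (w x) * I)) := by
    calc t * (t * |Zf w w t x|) = t ^ 2 * |Zf w w t x| := by ring
      _ ≤ _ := h6
      _ = _ := by ring
  exact le_of_mul_le_mul_left h8 ht

end

/-- The bound of the averages at the scale `t`. -/
noncomputable def Rf (c β Y q t : ℝ) : ℝ := Real.sqrt (c * t ^ (β - 3) * Y + q / t ^ 2)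

theorem Rf_nonneg (c β Y q t : ℝ) : 0 ≤ Rf c β Y q t := Real.sqrt_nonneg _

theorem Rf_eq {c β Y q t : ℝ} (ht : 0 < t) :
    Real.sqrt (c * t ^ (3 + β) * Y + t ^ 4 * q) * t⁻¹ ^ 3 = Rf c β Y q t := by
  have h1 : t⁻¹ ^ 3 = Real.sqrt (t⁻¹ ^ 6) := by
    have : t⁻¹ ^ 6 = (t⁻¹ ^ 3) ^ 2 := by ring
    rw [this, Real.sqrt_sq (by positivity)]
  rw [h1, ← Real.sqrt_mul' _ (by positivity)]
  unfold Rf
  congr 1
  have h2 : t ^ (3 + β) * t⁻¹ ^ 6 = t ^ (β - 3) := by
    have h3 : t⁻¹ ^ 6 = t ^ (-6 : ℝ) := by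
      rw [Real.rpow_neg ht.le, inv_pow]
      norm_cast
    rw [h3, ← Real.rpow_add ht]
    congr 1; ring
  calc (c * t ^ (3 + β) * Y + t ^ 4 * q) * t⁻¹ ^ 6
      = c * (t ^ (3 + β) * t⁻¹ ^ 6) * Y + q * (t ^ 4 * t⁻¹ ^ 6) := by ring
    _ = _ := by
      rw [h2]
      congr 1
      field_simp

theorem Rf_small {c β Y q t ρ : ℝ} (hq : 0 ≤ q) (hβ : β ≤ 1)
    (ht : 0 < t) (htρ : t ≤ ρ) :
    Rf c β Y q t ≤ Rf c β Y q ρ * (ρ / t) ^ ((3 - β) / 2) := by
  have hρ : 0 < ρ := ht.trans_le htρ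
  have h1 : 1 ≤ ρ / t := by rw [one_le_div ht]; exact htρ
  have h0 : 0 < ρ / t := by positivity
  have e1 : (ρ / t) ^ ((3 - β) / 2) = Real.sqrt ((ρ / t) ^ (3 - β)) := by
    rw [Real.sqrt_eq_rpow, ← Real.rpow_mul h0.le]
    congr 1; ring
  unfold Rf
  rw [e1, ← Real.sqrt_mul' _ (Real.rpow_nonneg h0.le _)]
  refine Real.sqrt_le_sqrt ?_
  have e2 : ρ ^ (β - 3) * (ρ / t) ^ (3 - β) = t ^ (β - 3) := by
    rw [Real.div_rpow hρ.le ht.le, mul_div_assoc', ← Real.rpow_add hρ]
    have : β - 3 + (3 - β) = 0 := by ring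
    rw [this, Real.rpow_zero, one_div, ← Real.rpow_neg ht.le]
    congr 1; ring
  have e3 : (ρ / t) ^ (2 : ℝ) ≤ (ρ / t) ^ (3 - β) :=
    Real.rpow_le_rpow_of_exponent_le h1 (by linarith)
  have e4 : (ρ / t) ^ (2 : ℝ) = ρ ^ 2 / t ^ 2 := by
    norm_cast
    rw [div_pow]
  rw [e4] at e3
  have e5 : q / t ^ 2 ≤ q / ρ ^ 2 * (ρ / t) ^ (3 - β) := by
    calc q / t ^ 2 = q / ρ ^ 2 * (ρ ^ 2 / t ^ 2) := by field_simp
      _ ≤ _ := mul_le_mul_of_nonneg_left e3 (by positivity)
  calc c * t ^ (β - 3) * Y + q / t ^ 2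
      ≤ c * (ρ ^ (β - 3) * (ρ / t) ^ (3 - β)) * Y + q / ρ ^ 2 * (ρ / t) ^ (3 - β) := by
        rw [e2]; linarith
    _ = _ := by ring

theorem Rf_large {c β Y q t ρ : ℝ} (hc : 0 ≤ c) (hY : 0 ≤ Y) (hβ : β ≤ 1)
    (hρ : 0 < ρ) (htρ : ρ ≤ t) : Rf c β Y q t ≤ Rf c β Y q ρ * (ρ / t) := by
  have ht : 0 < t := hρ.trans_le htρ
  have e1 : ρ / t = Real.sqrt ((ρ / t) ^ 2) := by rw [Real.sqrt_sq (by positivity)]
  unfold Rf
  rw [e1, ← Real.sqrt_mul' _ (by positivity)]
  refine Real.sqrt_le_sqrt ?_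
  have e2 : t ^ (β - 3) ≤ ρ ^ (β - 3) * (ρ / t) ^ 2 := by
    have e3 : t ^ (β - 3) = t ^ (β - 1) / t ^ 2 := by
      have : β - 3 = (β - 1) - 2 := by ring
      rw [this, Real.rpow_sub ht]
      norm_cast
    have e4 : ρ ^ (β - 3) * (ρ / t) ^ 2 = ρ ^ (β - 1) / t ^ 2 := by
      have : β - 3 = (β - 1) - 2 := by ring
      rw [this, Real.rpow_sub hρ]
      have : ρ ^ (2 : ℝ) = ρ ^ 2 := by norm_cast
      rw [this]
      field_simp
    rw [e3, e4]
    refine div_le_div_of_nonneg_right ?_ (by positivity)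
    exact Real.rpow_le_rpow_of_nonpos hρ htρ (by linarith)
  have e5 : q / t ^ 2 = q / ρ ^ 2 * (ρ / t) ^ 2 := by field_simp
  calc c * t ^ (β - 3) * Y + q / t ^ 2
      ≤ c * (ρ ^ (β - 3) * (ρ / t) ^ 2) * Y + q / ρ ^ 2 * (ρ / t) ^ 2 := by
        rw [← e5]
        have := mul_le_mul_of_nonneg_right (mul_le_mul_of_nonneg_left e2 hc) hY
        linarith
    _ = _ := by ring

end Pool.Agent.R210
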