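import Pool.Agent.R210.M3
import Pool.Agent.R210.Prod4

/-!
The Morrey bound for periodic divergence free fields with Hoelder continuous direction.
-/

open MeasureTheory Set Metric Filter Topology
open scoped ContDiff RealInnerProductSpace
open H459R3.NS

namespace Pool.Agent.R210

/-- The direction of the field is Hoelder continuous where the field is large. -/
def DirV (w : V → V) (K c β : ℝ) : Prop := ∀ x y, K < en (w x) → K < en (w y) →
  en (en (w y) • w x - en (w x) • w y) ≤ c * en (x - y) ^ β * (en (w x) * en (w y))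

theorem Str.mono {f : E → ℝ} (hf0 : ∀ y, 0 ≤ f y) {c c' β K K' R : ℝ} (h : Str f c β K R)
    (hc : c ≤ c') (hK : K ≤ K') : Str f c' β K' R := by
  intro x ρ hρ hρR
  obtain ⟨e, he, h1⟩ := h x ρ hρ hρR
  refine ⟨e, he, fun ψ L hψ hcs hs hL => ?_⟩
  have hL0 : 0 ≤ L := (norm_nonneg _).trans (hL 0)
  refine (h1 ψ L hψ hcs hs hL).trans (mul_le_mul_of_nonneg_left ?_ hL0)
  have h2 : 0 ≤ ∫ y in ball x ρ, f y := integral_nonneg fun y => hf0 y
  have h3 := Real.rpow_nonneg hρ.le β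
  have h4 : c * ρ ^ β * (∫ y in ball x ρ, f y) ≤ c' * ρ ^ β * ∫ y in ball x ρ, f y :=
    mul_le_mul_of_nonneg_right (mul_le_mul_of_nonneg_right hc h3) h2
  have h5 : K * ρ ^ 3 ≤ K' * ρ ^ 3 := mul_le_mul_of_nonneg_right hK (by positivity)
  linarith

/-- The bound of the scale. -/
noncomputable def a0 (β : ℝ) : ℝ := min (1 / 4) ((1 - 2⁻¹ ^ β) / (24 * (1 + 2 * HB) * CN))

theorem q_lt {β : ℝ} (hβ : 0 < β) : (2⁻¹ : ℝ) ^ β < 1 :=
  Real.rpow_lt_one (by norm_num) (by norm_num) hβ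

theorem a0_pos {β : ℝ} (hβ : 0 < β) : 0 < a0 β := by
  have h1 := q_lt hβ
  have h2 := one_le_HB
  have h3 := CN_pos
  refine lt_min (by norm_num) (div_pos (by linarith) (by positivity))

theorem a0_le (β : ℝ) : a0 β ≤ 1 := (min_le_left _ _).trans (by norm_num)

/-- The constant of the Morrey bound. -/
noncomputable def CM (β : ℝ) : ℝ := 4 * CN * (27 + 8 * (1 + 2 * HB) * v3 / (1 - 2⁻¹ ^ β))

theorem CM_pos {β : ℝ} (hβ : 0 < β) : 0 < CM β := by
  have h1 := q_lt hβ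
  have h2 := one_le_HB
  have h3 := CN_pos
  have h4 := v3_pos
  have h5 : 0 < 1 - (2⁻¹ : ℝ) ^ β := by linarith
  unfold CM
  positivity

section

variable {w : V → V} (hw : ∀ i, SP (fun x => w x i))

include hw in
theorem str_per (hdiv : ∀ x, dv w x = 0) {c β K T : ℝ} (hβ0 : 0 < β) (hβ1 : β ≤ 1) (hc : 0 ≤ c)
    (hK : 0 ≤ K) (h : CohV w c β ∨ DirV w K c β) (hT0 : 0 < T) (hT : c * T ^ β ≤ a0 β) :
    Str (fun y => ‖lift w y‖) (3 * c) β (2 * K * v3) T := by
  have hv := v3_pos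
  have hlw : ContDiff ℝ 1 (lift w) := (lift_smooth hw).of_le (by norm_cast)
  have hdv : ∀ y, dvE (lift w) y = 0 := fun y => by rw [dvE_lift hw, hdiv]
  have en0 : ∀ p y : E, ‖p - y‖ = en (WithLp.ofLp p - WithLp.ofLp y) := by
    intro p y
    rw [← norm_toLp]; rfl
  rcases h with h | h
  · have hcoh : ∀ p y, Coh (lift w) c β p y := by
      intro p y
      unfold Coh
      have h1 := h (WithLp.ofLp p) (WithLp.ofLp y)
      have e1 : ∀ y : E, ‖lift w y‖ ^ 2 = rsq (w (WithLp.ofLp y)) := fun y => by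
        rw [norm_lift, en_sq]
      have h3 : ⟪lift w p, lift w y⟫ = ∑ i, w (WithLp.ofLp p) i * w (WithLp.ofLp y) i :=
        inner_lift _ _
      rw [e1, e1, en0, h3, lagrange]
      exact h1
    have hR : c * (2 * T) ^ β ≤ 1 / 2 := by
      have h1 := mul_le_mul_of_nonneg_left (rpow2 hT0 hβ1) hc
      have h2 : a0 β ≤ 1 / 4 := min_le_left _ _
      linarith
    exact (str_sine hlw hdv hβ0.le hβ1 hc hcoh hR).mono (fun y => norm_nonneg _) le_rfl
      (by positivity)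
  · have hdir : ∀ p y, K < ‖lift w p‖ → K < ‖lift w y‖ →
        ‖‖lift w y‖ • lift w p - ‖lift w p‖ • lift w y‖
          ≤ c * ‖p - y‖ ^ β * (‖lift w p‖ * ‖lift w y‖) := by
      intro p y hp hy
      have h1 := h (WithLp.ofLp p) (WithLp.ofLp y) (by rwa [norm_lift] at hp)
        (by rwa [norm_lift] at hy)
      rw [en0 p y, norm_lift, norm_lift]
      refine le_trans (le_of_eq ?_) h1
      exact norm_toLp (en (w (WithLp.ofLp y)) • w (WithLp.ofLp p)
        - en (w (WithLp.ofLp p)) • w (WithLp.ofLp y))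
    exact (str_dir hlw hdv hβ0.le hβ1 hc hK hdir T).mono (fun y => norm_nonneg _)
      (by linarith) le_rfl

include hw in
/-- The Morrey bound. -/
theorem morrey_per (hdiv : ∀ x, dv w x = 0) {c β K T : ℝ} (hβ0 : 0 < β) (hβ1 : β ≤ 1)
    (hc : 0 ≤ c) (hK : 0 ≤ K) (h : CohV w c β ∨ DirV w K c β) (hT0 : 0 < T) (hT1 : T ≤ 1)
    (hT : c * T ^ β ≤ a0 β) {τ : ℝ} (hτ : 0 < τ) (hτT : τ ≤ T) (x : V) :
    ∫ y in eb x τ, en (w y) ≤ CM β * ((∫ x in cube, en (w x)) + K) / T * τ := by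
  have hHB := one_le_HB
  have hCN := CN_pos
  have hv := v3_pos
  have hq := q_lt hβ0
  have h1q : 0 < 1 - (2⁻¹ : ℝ) ^ β := by linarith
  set I := ∫ x in cube, en (w x) with hI
  have hI0 : 0 ≤ I := integral_nonneg fun x => en_nonneg _
  have hS := str_per hw hdiv hβ0 hβ1 hc hK h hT0 hT
  have hlc : Continuous fun y : E => ‖lift w y‖ := (lift_smooth hw).continuous.norm
  have hball : ∀ (x : E) (r : ℝ), 0 < r → ∫ y in ball x r, ‖lift w y‖
      = ∫ y in eb (WithLp.ofLp x) r, en (w y) := by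
    intro x r hr
    rw [← int_ball_lift (F := fun y => en (w y)) x hr]
    simp_rw [norm_lift]
  have hW : ∀ x : E, ∫ y in ball x T, ‖lift w y‖ ≤ 27 * I := by
    intro x
    rw [hball x T hT0]
    have h1 := eb_int (f_cont hw) (f_per hw) (fun x => en_nonneg _) (WithLp.ofLp x)
    refine le_trans ?_ h1.2
    refine setIntegral_mono_set h1.1 (Filter.Eventually.of_forall fun y => en_nonneg _) ?_
    refine LE.le.eventuallyLE fun y hy => ?_
    unfold eb at hy ⊢
    rw [mem_ofPred_eq] at hy ⊢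
    nlinarith
  have hac : 2 * (1 + 2 * HB) * CN * (3 * c * T ^ β) ≤ (1 - 2⁻¹ ^ β) / 4 := by
    have h1 : c * T ^ β ≤ (1 - 2⁻¹ ^ β) / (24 * (1 + 2 * HB) * CN) := hT.trans (min_le_right _ _)
    rw [le_div_iff₀ (by positivity)] at h1
    linarith
  have h1 := hS.morrey hlc (fun y => norm_nonneg _) hβ0 hβ1 (by positivity) (by positivity) hT0
    hac hW hτ hτT (WithLp.toLp 2 x : E)
  rw [hball _ _ hτ] at h1
  refine h1.trans (mul_le_mul_of_nonneg_right ?_ hτ.le)
  have h2 : 4 * (1 + 2 * HB) * (2 * K * v3) * T ^ 2 / (1 - 2⁻¹ ^ β)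
      ≤ 8 * (1 + 2 * HB) * v3 / (1 - 2⁻¹ ^ β) * (K / T) := by
    have h3 : T ^ 2 ≤ 1 / T := by
      rw [le_div_iff₀ hT0]
      have h4 : T ^ 2 ≤ 1 := pow_le_one₀ hT0.le hT1
      nlinarith
    calc 4 * (1 + 2 * HB) * (2 * K * v3) * T ^ 2 / (1 - 2⁻¹ ^ β)
        = 8 * (1 + 2 * HB) * v3 / (1 - 2⁻¹ ^ β) * K * T ^ 2 := by ring
      _ ≤ 8 * (1 + 2 * HB) * v3 / (1 - 2⁻¹ ^ β) * K * (1 / T) :=
          mul_le_mul_of_nonneg_left h3 (by positivity)
      _ = _ := by ring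
  set D : ℝ := 8 * (1 + 2 * HB) * v3 / (1 - 2⁻¹ ^ β) with hD
  have hD0 : 0 ≤ D := by positivity
  unfold CM
  rw [← hD]
  calc 4 * CN * (27 * I / T + 4 * (1 + 2 * HB) * (2 * K * v3) * T ^ 2 / (1 - 2⁻¹ ^ β))
      ≤ 4 * CN * (27 * I / T + D * (K / T)) := by
        refine mul_le_mul_of_nonneg_left ?_ (by positivity)
        linarith
    _ ≤ 4 * CN * (27 + D) * (I + K) / T := by
        have e1 : 4 * CN * (27 + D) * (I + K) / T
            = 4 * CN * (27 * I / T + D * (K / T)) + 4 * CN * ((27 * K + D * I) / T) := by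
          field_simp
          ring
        rw [e1]
        have : 0 ≤ 4 * CN * ((27 * K + D * I) / T) := by positivity
        linarith

include hw in
/-- The bound of the averages. -/
theorem avg_per (hdiv : ∀ x, dv w x = 0) {c β K T : ℝ} (hβ0 : 0 < β) (hβ1 : β ≤ 1)
    (hc : 0 ≤ c) (hK : 0 ≤ K) (h : CohV w c β ∨ DirV w K c β) (hT0 : 0 < T) (hT1 : T ≤ 1)
    (hT : c * T ^ β ≤ a0 β) {τ : ℝ} (hτ : 0 < τ) (hτT : τ ≤ T) (x : V) :
    ∫ z in U1, en (w (x - τ • z)) ≤ CM β * ((∫ x in cube, en (w x)) + K) / T / τ ^ 2 := by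
  rw [int_U1_scale (f := fun y => en (w y)) hτ x]
  have h1 := morrey_per hw hdiv hβ0 hβ1 hc hK h hT0 hT1 hT hτ hτT x
  have h2 := mul_le_mul_of_nonneg_left h1 (by positivity : 0 ≤ τ⁻¹ ^ 3)
  refine h2.trans (le_of_eq ?_)
  field_simp

/-- The coherence above a threshold. -/
theorem DirV.coh {K c β : ℝ} (h : DirV w K c β) (hK : 0 ≤ K) (x y : V) (hx : K < en (w x))
    (hy : K < en (w y)) : rsq (crossProduct (w x) (w y))
      ≤ (c * en (x - y) ^ β) ^ 2 * (rsq (w x) * rsq (w y)) := by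
  have h1 := h x y hx hy
  set a := w x with ha
  set b := w y with hb
  have ha0 : 0 < en a := hK.trans_lt hx
  have hb0 : 0 < en b := hK.trans_lt hy
  have h2 := pow_le_pow_left₀ (en_nonneg _) h1 2
  rw [en_sq] at h2
  have e1 : (c * en (x - y) ^ β * (en a * en b)) ^ 2
      = (c * en (x - y) ^ β) ^ 2 * (rsq a * rsq b) := by
    rw [← en_sq a, ← en_sq b]; ring
  rw [e1] at h2
  refine le_trans ?_ h2
  -- `|a × b|² = |a|²|b|² - (a·b)² ≤ 2 |a||b| (|a||b| - a·b)`
  have h3 : rsq (en b • a - en a • b) = 2 * (en a * en b) * (en a * en b - ∑ i, a i * b i) := by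
    have e2 : rsq (en b • a - en a • b)
        = en b ^ 2 * rsq a + en a ^ 2 * rsq b - 2 * (en a * en b) * ∑ i, a i * b i := by
      simp only [rsq, Fin.sum_univ_three, Pi.sub_apply, Pi.smul_apply, smul_eq_mul]
      ring
    rw [e2, ← en_sq a, ← en_sq b]
    ring
  rw [h3, ← lagrange, ← en_sq a, ← en_sq b]
  set s := ∑ i, a i * b i with hs
  have h4 : s ^ 2 ≤ (en a * en b) ^ 2 := by
    have := cs3 a b
    rw [← en_sq a, ← en_sq b, ← mul_pow] at this
    exact this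
  have h5 : 0 < en a * en b := by positivity
  have h6 := abs_le_of_sq_le_sq' h4 h5.le
  nlinarith [sq_nonneg (en a * en b - s)]

end

end Pool.Agent.R210
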