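import Pool.Agent.R210.Prod5

/-!
The trace estimate: a density with the critical Morrey bound.
-/

open MeasureTheory Set Filter Topology
open scoped ENNReal ContDiff
open H459R3.NS

namespace Pool.Agent.R210

/-- The interpolation inequality for a general power. -/
theorem Lq_le {q s : ℝ} (hq : 2 < q) (hs0 : 0 ≤ s) (hsq : s * (q - 2) < 2) : ∃ C : ℝ, 0 < C ∧
    ∀ (w : V → V) (ρ Λ : ℝ), (∀ i, SP (fun x => w x i)) → 0 < ρ → 0 ≤ Λ →
      (∀ τ : ℝ, 0 < τ → τ ≤ ρ → ∀ x, mo phi τ (fun y => en (w y)) x ≤ Λ * (ρ / τ) ^ s) →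
      ∫ x in cube, en (w x) ^ q
        ≤ C * (Λ ^ (q - 2) * (ρ ^ 2 * (∫ x in cube, G2 w x) + ∫ x in cube, rsq (w x))) := by
  obtain ⟨C, hC0, hC⟩ := interp (q := q) (s := s) hq hs0 hsq
  have hq0 : 0 ≤ q := by linarith
  refine ⟨C * 3, by positivity, fun w ρ Λ hw hρ hΛ hb => ?_⟩
  have hf := f_cont hw
  set D := ∫ x in cube, G2 w x with hD
  set Y := ∫ x in cube, rsq (w x) with hY
  have hD0 : 0 ≤ D := integral_nonneg fun x => G2_nonneg _ _
  have hY0 : 0 ≤ Y := integral_nonneg fun x => rsq_nonneg _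
  have hDl : ∫⁻ x in cube, ENNReal.ofReal (G2 w x) = ENNReal.ofReal D :=
    ofReal_int (G2_cont hw) fun x => G2_nonneg _ _
  have hYl : ∫⁻ x in cube, ENNReal.ofReal (rsq (w x)) = ENNReal.ofReal Y :=
    ofReal_int (f := fun x => rsq (w x)) (rsq_smooth.continuous.comp (w_cont hw))
      fun x => rsq_nonneg _
  set τ : ℕ → ℝ := fun k => ρ * 2⁻¹ ^ k with hτ
  have hτ0 : ∀ k, 0 < τ k := fun k => by simp only [hτ]; positivity
  have hτ1 : ∀ k, τ k ≤ ρ := fun k => by
    simp only [hτ]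
    exact mul_le_of_le_one_right hρ.le (pow_le_one₀ (by norm_num) (by norm_num))
  set g : ℕ → V → ℝ := fun k x => mo phi (τ k) (fun y => en (w y)) x with hg
  have hgc : ∀ k, Continuous (g k) := fun k =>
    (mo_cont phi_smooth.continuous phi_compact hf (f_per hw)).comp
      (continuous_const.prodMk continuous_id)
  have hg0 : ∀ k x, 0 ≤ g k x := fun k x =>
    integral_nonneg fun z => mul_nonneg (phi_nonneg z) (en_nonneg _)
  have hsq : ∀ a : ℝ, ‖a‖ₑ ^ (2 : ℝ) = ENNReal.ofReal (a ^ 2) := by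
    intro a
    rw [← ofReal_norm, ENNReal.ofReal_rpow_of_nonneg (norm_nonneg _) (by norm_num)]
    congr 1
    rw [Real.norm_eq_abs]
    norm_cast
    exact sq_abs a
  have key := hC V (volume.restrict cube) ℝ (fun x => en (w x)) g Λ (5 / 2 * ρ ^ 2 * D) Y hΛ
    (by positivity) hY0 (fun k => (hgc k).aestronglyMeasurable) ?_ ?_ ?_ ?_
  · have h3 : ∫⁻ x in cube, ‖en (w x)‖ₑ ^ q
        = ENNReal.ofReal (∫ x in cube, en (w x) ^ q) := by
      rw [← ofReal_int (f := fun x => en (w x) ^ q) (hf.rpow_const fun x => Or.inr hq0)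
        fun x => Real.rpow_nonneg (en_nonneg _) _]
      refine lintegral_congr fun x => ?_
      rw [← ofReal_norm, ENNReal.ofReal_rpow_of_nonneg (norm_nonneg _) hq0]
      congr 1
      rw [Real.norm_eq_abs, abs_of_nonneg (en_nonneg _)]
    rw [h3] at key
    have hΛq : 0 ≤ Λ ^ (q - 2) := Real.rpow_nonneg hΛ _
    have h4 : (0 : ℝ) ≤ C * (Λ ^ (q - 2) * (5 / 2 * ρ ^ 2 * D + Y)) := by positivity
    have h5 := (ENNReal.ofReal_le_ofReal_iff h4).1 key
    refine h5.trans ?_
    have h7 : 0 ≤ Λ ^ (q - 2) * (ρ ^ 2 * D) := by positivity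
    have h8 : 0 ≤ Λ ^ (q - 2) * Y := by positivity
    have h9 : Λ ^ (q - 2) * (5 / 2 * ρ ^ 2 * D + Y) ≤ 3 * (Λ ^ (q - 2) * (ρ ^ 2 * D + Y)) := by
      nlinarith
    calc C * (Λ ^ (q - 2) * (5 / 2 * ρ ^ 2 * D + Y))
        ≤ C * (3 * (Λ ^ (q - 2) * (ρ ^ 2 * D + Y))) := mul_le_mul_of_nonneg_left h9 hC0.le
      _ = C * 3 * (Λ ^ (q - 2) * (ρ ^ 2 * D + Y)) := by ring
  · intro k
    refine Filter.Eventually.of_forall fun x => ?_
    rw [Real.norm_eq_abs, abs_of_nonneg (hg0 k x)]
    refine (hb (τ k) (hτ0 k) (hτ1 k) x).trans (le_of_eq ?_)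
    congr 1
    have e1 : ρ / τ k = 2 ^ (k : ℝ) := by
      simp only [hτ]
      rw [Real.rpow_natCast, inv_pow]
      field_simp
    rw [e1, ← Real.rpow_mul (by norm_num)]
    congr 1; ring
  · intro k
    have h1 := mo_err hw (τ (k + 1))
    have h2 := mo_err hw (τ k)
    rw [hDl, ← ENNReal.ofReal_mul (sq_nonneg _)] at h1 h2
    have hpt : ∀ x, ‖g (k + 1) x - g k x‖ₑ ^ (2 : ℝ)
        ≤ ENNReal.ofReal (2 * (en (w x) - g (k + 1) x) ^ 2)
          + ENNReal.ofReal (2 * (en (w x) - g k x) ^ 2) := by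
      intro x
      rw [hsq, ← ENNReal.ofReal_add (by positivity) (by positivity)]
      refine ENNReal.ofReal_le_ofReal ?_
      nlinarith [sq_nonneg ((en (w x) - g (k + 1) x) + (en (w x) - g k x))]
    refine (lintegral_mono hpt).trans ?_
    rw [lintegral_add_left' ?_]
    · have e2 : ∀ j : ℕ, ∫⁻ x in cube, ENNReal.ofReal (2 * (en (w x) - g j x) ^ 2)
          = ENNReal.ofReal 2 * ∫⁻ x in cube, ENNReal.ofReal ((en (w x) - g j x) ^ 2) := by
        intro j
        rw [← lintegral_const_mul' _ _ ENNReal.ofReal_ne_top]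
        refine lintegral_congr fun x => ?_
        rw [ENNReal.ofReal_mul (by norm_num)]
      rw [e2, e2]
      refine (add_le_add (mul_le_mul_right h1 _) (mul_le_mul_right h2 _)).trans ?_
      rw [← ENNReal.ofReal_mul (by norm_num), ← ENNReal.ofReal_mul (by norm_num),
        ← ENNReal.ofReal_add (by positivity) (by positivity)]
      refine ENNReal.ofReal_le_ofReal (le_of_eq ?_)
      simp only [hτ]
      have e3 : (4⁻¹ : ℝ) ^ k = (2⁻¹ ^ k) ^ 2 := by
        rw [← pow_mul, mul_comm, pow_mul]; norm_num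
      rw [e3]; ring
    · exact (ENNReal.continuous_ofReal.comp (continuous_const.mul
        ((hf.sub (hgc _)).pow 2))).measurable.aemeasurable
  · have h1 := mo_L2 hw (τ 0)
    rw [hYl] at h1
    refine le_trans (le_of_eq ?_) h1
    exact lintegral_congr fun x => hsq _
  · refine Filter.Eventually.of_forall fun x => ?_
    have h1 : Tendsto τ atTop (𝓝 0) := by
      have := (tendsto_pow_atTop_nhds_zero_of_lt_one (r := (2⁻¹ : ℝ)) (by norm_num)
        (by norm_num)).const_mul ρ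
      simpa [hτ] using this
    have h2 : Continuous fun t => mo phi t (fun y => en (w y)) x :=
      (mo_cont phi_smooth.continuous phi_compact hf (f_per hw)).comp
        (continuous_id.prodMk continuous_const)
    have h3 := (h2.tendsto 0).comp h1
    rw [mo_zero] at h3
    exact h3

theorem vU_pos : 0 < vU := by
  refine ENNReal.toReal_pos (isOpen_U1.measure_pos volume ⟨0, ?_⟩).ne' U1_fin
  have : rsq (0 : V) = 0 := by simp [rsq]
  show rsq (0 : V) < 1
  rw [this]; norm_num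

/-- Jensen's inequality over the unit ball. -/
theorem jensen_U1 {q : ℝ} (hq : 1 < q) {g : V → ℝ} (hg : Continuous g) (h0 : ∀ z, 0 ≤ g z) :
    (∫ z in U1, g z) ^ q ≤ vU ^ (q - 1) * ∫ z in U1, g z ^ q := by
  have hv := vU_pos
  have hq0 : 0 < q := by linarith
  set S := ∫ z in U1, g z with hS
  have hS0 : 0 ≤ S := integral_nonneg h0
  set m : ℝ := S / vU with hm
  have hm0 : 0 ≤ m := by positivity
  have hSm : S = m * vU := by rw [hm]; field_simp
  have hpt : ∀ z, q * m ^ (q - 1) * g z - (q - 1) * m ^ q ≤ g z ^ q := by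
    intro z
    have h1 := Real.young_inequality_of_nonneg (h0 z) (Real.rpow_nonneg hm0 (q - 1))
      (Real.HolderConjugate.conjExponent hq)
    have e1 : (m ^ (q - 1)) ^ (Real.conjExponent q) = m ^ q := by
      rw [← Real.rpow_mul hm0]
      congr 1
      unfold Real.conjExponent
      have : q - 1 ≠ 0 := by linarith
      field_simp
    rw [e1] at h1
    have e2 : m ^ q / Real.conjExponent q = (q - 1) * m ^ q / q := by
      unfold Real.conjExponent
      have : q - 1 ≠ 0 := by linarith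
      field_simp
    rw [e2, ← add_div, le_div_iff₀ hq0] at h1
    linarith
  have hgq : Continuous fun z => g z ^ q := hg.rpow_const fun z => Or.inr hq0.le
  have h1 : ∫ z in U1, (q * m ^ (q - 1) * g z - (q - 1) * m ^ q) ≤ ∫ z in U1, g z ^ q :=
    setIntegral_mono ((int_U1 (continuous_const.mul hg)).sub (int_U1 continuous_const))
      (int_U1 hgq) hpt
  have i1 : IntegrableOn (fun z => q * m ^ (q - 1) * g z) U1 := int_U1 (continuous_const.mul hg)
  have i2 : IntegrableOn (fun _ : V => (q - 1) * m ^ q) U1 := int_U1 continuous_const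
  rw [integral_sub i1 i2, integral_const_mul, ← hS, setIntegral_const] at h1
  simp only [smul_eq_mul, Measure.real] at h1
  have hvd : (volume U1).toReal = vU := rfl
  rw [hvd] at h1
  have hmq : m ^ (q - 1) * m = m ^ q := by
    rcases hm0.eq_or_lt with h | h
    · rw [← h, Real.zero_rpow hq0.ne', mul_zero]
    · rw [Real.rpow_sub h, Real.rpow_one]; field_simp
  have h2 : vU * m ^ q ≤ ∫ z in U1, g z ^ q := by
    have e3 : q * m ^ (q - 1) * S - vU * ((q - 1) * m ^ q) = vU * m ^ q := by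
      calc q * m ^ (q - 1) * S - vU * ((q - 1) * m ^ q)
          = q * vU * (m ^ (q - 1) * m) - vU * ((q - 1) * m ^ q) := by rw [hSm]; ring
        _ = vU * m ^ q := by rw [hmq]; ring
    linarith
  calc S ^ q = vU ^ (q - 1) * (vU * m ^ q) := by
        rw [hSm, Real.mul_rpow hm0 hv.le, Real.rpow_sub hv, Real.rpow_one]
        field_simp
    _ ≤ _ := mul_le_mul_of_nonneg_left h2 (Real.rpow_nonneg hv.le _)

/-- **The trace estimate** at the scale `t`. -/
theorem near_le {β : ℝ} (hβ0 : 0 < β) (hβ1 : β ≤ 1) : ∃ C : ℝ, 0 < C ∧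
    ∀ (w : V → V) (ρ Λ : ℝ), (∀ i, SP (fun x => w x i)) → 0 < ρ → 0 ≤ Λ →
      (∀ τ : ℝ, 0 < τ → τ ≤ ρ → ∀ x, ∫ z in U1, en (w (x - τ • z)) ≤ Λ / τ ^ 2) →
      ∀ t : ℝ, 0 < t → t ≤ ρ → Aw w t
        ≤ C * (Λ * (ρ / t) ^ (β / 2)
          * ((∫ x in cube, G2 w x) + (∫ x in cube, rsq (w x)) / ρ ^ 2)) := by
  set η : ℝ := β / 4 with hη
  have hη0 : 0 < η := by positivity
  have hη1 : η ≤ 1 / 4 := by rw [hη]; linarith
  set q : ℝ := 3 - η with hq
  have hq2 : 2 < q := by rw [hq]; linarith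
  have hq0 : 0 < q := by linarith
  obtain ⟨C1, hC10, hC1⟩ := Lq_le (q := q) (s := 2) hq2 (by norm_num) (by rw [hq]; linarith)
  have hB := one_le_BB
  have hv := vU_pos
  refine ⟨(1 + vU ^ q) * (C1 * BB ^ (1 - η)), by positivity, fun w ρ Λ hw hρ hΛ hb t ht htρ => ?_⟩
  have hf := f_cont hw
  set G := ∫ x in cube, G2 w x with hG
  set Y := ∫ x in cube, rsq (w x) with hY
  have hG0 : 0 ≤ G := integral_nonneg fun x => G2_nonneg _ _
  have hY0 : 0 ≤ Y := integral_nonneg fun x => rsq_nonneg _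
  have hfq : Continuous fun x => en (w x) ^ q := hf.rpow_const fun x => Or.inr hq0.le
  -- the power
  have h1 := hC1 w ρ (BB * Λ / ρ ^ 2) hw hρ (by positivity) fun τ hτ0 hτρ x => by
    refine (mo_phi_S hw τ x).trans ?_
    have h2 := mul_le_mul_of_nonneg_left (hb τ hτ0 hτρ x) (by linarith : 0 ≤ BB)
    refine h2.trans (le_of_eq ?_)
    have : (ρ / τ) ^ (2 : ℝ) = (ρ / τ) ^ 2 := by norm_cast
    rw [this]
    field_simp
  rw [← hG, ← hY] at h1
  set N := ∫ x in cube, en (w x) ^ q with hN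
  have hN0 : 0 ≤ N := integral_nonneg fun x => Real.rpow_nonneg (en_nonneg _) _
  -- the function
  set S : V → ℝ := fun x => ∫ z in U1, en (w (x - t • z)) with hS
  have hfs := fshift_cont hw t
  have hcol : ∀ x, Continuous fun z : V => en (w (x - t • z)) := fun x =>
    hfs.comp (continuous_const.prodMk continuous_id)
  have hSc : Continuous S := cont_U1 (G := fun x z => en (w (x - t • z))) hfs
  have hS0 : ∀ x, 0 ≤ S x := fun x => integral_nonneg fun z => en_nonneg _
  have hSq : Continuous fun x => S x ^ q := hSc.rpow_const fun x => Or.inr hq0.le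
  have hSle : ∀ x, S x ≤ Λ / t ^ 2 := fun x => hb t ht htρ x
  have hLt : 0 ≤ Λ / t ^ 2 := by positivity
  -- Jensen
  have h2 : ∫ x in cube, S x ^ q ≤ vU ^ q * N := by
    have hfsq : Continuous fun p : V × V => en (w (p.1 - t • p.2)) ^ q :=
      hfs.rpow_const fun x => Or.inr hq0.le
    have h3 : ∫ x in cube, S x ^ q
        ≤ ∫ x in cube, vU ^ (q - 1) * ∫ z in U1, en (w (x - t • z)) ^ q := by
      refine setIntegral_mono (integrableOn_cube hSq) (integrableOn_cube (continuous_const.mul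
        (cont_U1 (G := fun x z => en (w (x - t • z)) ^ q) hfsq))) fun x => ?_
      exact jensen_U1 (by linarith) (hcol x) fun z => en_nonneg _
    rw [integral_const_mul, swap_U1 (G := fun x z => en (w (x - t • z)) ^ q) hfsq] at h3
    have h4 : ∀ z : V, ∫ x in cube, en (w (x - t • z)) ^ q = N := by
      intro z
      have := int_shift (f := fun x => en (w x) ^ q) (fun i x => by simp only [w_per hw i x])
        (-(t • z))
      simpa [sub_eq_add_neg] using this
    simp_rw [h4] at h3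
    rw [setIntegral_const] at h3
    simp only [smul_eq_mul, Measure.real] at h3
    have hvd : (volume U1).toReal = vU := rfl
    rw [hvd] at h3
    refine h3.trans (le_of_eq ?_)
    rw [← mul_assoc]
    congr 1
    rw [Real.rpow_sub hv, Real.rpow_one]
    field_simp
  -- pointwise
  have hpt : ∀ x, rsq (w x) * S x ≤ (Λ / t ^ 2) ^ η * (en (w x) ^ q + S x ^ q) := by
    intro x
    set a := en (w x) with ha
    set b := S x with hb'
    have ha0 : 0 ≤ a := en_nonneg _
    have hb0 : 0 ≤ b := hS0 x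
    have e1 : rsq (w x) = a ^ 2 := (en_sq _).symm
    rw [e1]
    rcases hb0.eq_or_lt with h | h
    · rw [← h, mul_zero]
      have := Real.rpow_nonneg ha0 q
      have := Real.rpow_nonneg hLt η
      have := Real.rpow_nonneg (le_refl (0 : ℝ)) q
      positivity
    · have h3 : b ^ η ≤ (Λ / t ^ 2) ^ η := Real.rpow_le_rpow hb0 (hSle x) hη0.le
      have h4 : a ^ 2 * b ^ (1 - η) ≤ a ^ q + b ^ q := by
        have hbη : 0 ≤ b ^ (1 - η) := Real.rpow_nonneg hb0 _
        rcases le_total a b with hab | hab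
        · have h5 : a ^ 2 * b ^ (1 - η) ≤ b ^ 2 * b ^ (1 - η) :=
            mul_le_mul_of_nonneg_right (pow_le_pow_left₀ ha0 hab 2) hbη
          have h6 : b ^ 2 * b ^ (1 - η) = b ^ q := by
            have : b ^ 2 = b ^ (2 : ℝ) := by norm_cast
            rw [this, ← Real.rpow_add h]
            congr 1; rw [hq]; ring
          have := Real.rpow_nonneg ha0 q
          linarith
        · have ha1 : 0 < a := h.trans_le hab
          have h5 : a ^ 2 * b ^ (1 - η) ≤ a ^ 2 * a ^ (1 - η) :=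
            mul_le_mul_of_nonneg_left (Real.rpow_le_rpow hb0 hab (by linarith)) (sq_nonneg _)
          have h6 : a ^ 2 * a ^ (1 - η) = a ^ q := by
            have : a ^ 2 = a ^ (2 : ℝ) := by norm_cast
            rw [this, ← Real.rpow_add ha1]
            congr 1; rw [hq]; ring
          have := Real.rpow_nonneg hb0 q
          linarith
      have h7 : b = b ^ η * b ^ (1 - η) := by
        rw [← Real.rpow_add h]
        simp
      have h8 : 0 ≤ a ^ q + b ^ q :=
        add_nonneg (Real.rpow_nonneg ha0 _) (Real.rpow_nonneg hb0 _)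
      calc a ^ 2 * b = b ^ η * (a ^ 2 * b ^ (1 - η)) := by
            conv_lhs => rw [h7]
            ring
        _ ≤ b ^ η * (a ^ q + b ^ q) :=
            mul_le_mul_of_nonneg_left h4 (Real.rpow_nonneg hb0 _)
        _ ≤ (Λ / t ^ 2) ^ η * (a ^ q + b ^ q) := mul_le_mul_of_nonneg_right h3 h8
  have h3 : Aw w t ≤ (Λ / t ^ 2) ^ η * ((1 + vU ^ q) * N) := by
    have h4 : Aw w t ≤ ∫ x in cube, (Λ / t ^ 2) ^ η * (en (w x) ^ q + S x ^ q) :=
      setIntegral_mono (integrableOn_cube ((rsqw_cont hw).mul hSc))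
        (integrableOn_cube (continuous_const.mul (hfq.add hSq))) hpt
    rw [integral_const_mul, integral_add (integrableOn_cube hfq) (integrableOn_cube hSq)] at h4
    refine h4.trans (mul_le_mul_of_nonneg_left ?_ (Real.rpow_nonneg hLt _))
    linarith
  refine h3.trans ?_
  have h5 : (Λ / t ^ 2) ^ η * ((1 + vU ^ q) * N)
      ≤ (Λ / t ^ 2) ^ η * ((1 + vU ^ q) * (C1 * ((BB * Λ / ρ ^ 2) ^ (q - 2) * (ρ ^ 2 * G + Y)))) := by
    refine mul_le_mul_of_nonneg_left (mul_le_mul_of_nonneg_left h1 (by positivity))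
      (Real.rpow_nonneg hLt _)
  refine h5.trans (le_of_eq ?_)
  have e1 : q - 2 = 1 - η := by rw [hq]; ring
  rw [e1]
  have e2 : (BB * Λ / ρ ^ 2) ^ (1 - η) = BB ^ (1 - η) * (Λ / ρ ^ 2) ^ (1 - η) := by
    rw [mul_div_assoc, Real.mul_rpow (by linarith) (by positivity)]
  have e3 : (Λ / t ^ 2) ^ η * (Λ / ρ ^ 2) ^ (1 - η) * ρ ^ 2 = Λ * (ρ / t) ^ (β / 2) := by
    rcases hΛ.eq_or_lt with h | h
    · rw [← h, zero_div, zero_div, Real.zero_rpow hη0.ne']; ring
    · have a1 : (Λ / t ^ 2) ^ η = Λ ^ η / t ^ (2 * η) := by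
        rw [Real.div_rpow hΛ (by positivity)]
        congr 1
        rw [← Real.rpow_natCast, ← Real.rpow_mul ht.le]
        norm_num
      have a2 : (Λ / ρ ^ 2) ^ (1 - η) = Λ ^ (1 - η) / ρ ^ (2 - 2 * η) := by
        rw [Real.div_rpow hΛ (by positivity)]
        congr 1
        rw [← Real.rpow_natCast, ← Real.rpow_mul hρ.le]
        congr 1
        push_cast; ring
      have a3 : ρ ^ 2 = ρ ^ (2 - 2 * η) * ρ ^ (2 * η) := by
        rw [← Real.rpow_add hρ]
        have : 2 - 2 * η + 2 * η = ((2 : ℕ) : ℝ) := by push_cast; ring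
        rw [this, Real.rpow_natCast]
      have a4 : Λ ^ η * Λ ^ (1 - η) = Λ := by
        rw [← Real.rpow_add h]; simp
      have a5 : (ρ / t) ^ (β / 2) = ρ ^ (2 * η) / t ^ (2 * η) := by
        rw [Real.div_rpow hρ.le ht.le]
        have : β / 2 = 2 * η := by rw [hη]; ring
        rw [this]
      have p1 : 0 < t ^ (2 * η) := Real.rpow_pos_of_pos ht _
      have p2 : 0 < ρ ^ (2 - 2 * η) := Real.rpow_pos_of_pos hρ _
      rw [a1, a2, a3, a5]
      have e5 : Λ ^ η / t ^ (2 * η) * (Λ ^ (1 - η) / ρ ^ (2 - 2 * η))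
          * (ρ ^ (2 - 2 * η) * ρ ^ (2 * η))
          = (Λ ^ η * Λ ^ (1 - η)) * (ρ ^ (2 * η) / t ^ (2 * η)) := by
        field_simp
      rw [e5, a4]
  have e4 : ρ ^ 2 * G + Y = ρ ^ 2 * (G + Y / ρ ^ 2) := by field_simp
  rw [e2, e4]
  calc (Λ / t ^ 2) ^ η * ((1 + vU ^ q) * (C1 * (BB ^ (1 - η) * (Λ / ρ ^ 2) ^ (1 - η)
        * (ρ ^ 2 * (G + Y / ρ ^ 2)))))
      = (1 + vU ^ q) * (C1 * BB ^ (1 - η))
        * (((Λ / t ^ 2) ^ η * (Λ / ρ ^ 2) ^ (1 - η) * ρ ^ 2) * (G + Y / ρ ^ 2)) := by ring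
    _ = _ := by rw [e3]

end Pool.Agent.R210
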