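import Pool.Agent.R210.M5

/-!
The production of enstrophy of a coherent field with the critical Morrey bound.
-/

open MeasureTheory Set Metric Filter Topology
open scoped ContDiff ENNReal
open H459R3.NS

namespace Pool.Agent.R210

/-- The estimate of the production with a free scale. -/
theorem prod_mor {β : ℝ} (hβ0 : 0 < β) (hβ1 : β ≤ 1) : ∃ C : ℝ, 0 < C ∧
    ∀ (v w l : V → V) (c T ρ Y L Λ : ℝ), (∀ i, SP (fun x => v x i)) →
      (∀ i, SP (fun x => w x i)) → (∀ i, SP (fun x => l x i)) → (∀ x, dv v x = 0) →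
      (∀ x, cu v x = w x + l x) → (∀ x i, |l x i| ≤ L) → CohV w c β → 0 ≤ c → T ≤ 1 →
      0 < ρ → ρ ≤ T → Y = ∫ x in cube, rsq (w x) → 0 ≤ Λ →
      (∀ τ : ℝ, 0 < τ → τ ≤ T → ∀ x, ∫ z in U1, en (w (x - τ • z)) ≤ Λ / τ ^ 2) →
      |Nw w v| ≤ C * (c * Λ * ρ ^ β * ((∫ x in cube, G2 w x) + Y / ρ ^ 2))
        + 3 * Real.sqrt (BB * (T⁻¹ ^ 3 * (27 * enstrophy v))) * Y
        + T * (36 * BB * vU * L * (Real.sqrt (∫ x in cube, G2 w x) * Real.sqrt Y)) := by
  obtain ⟨C3, hC30, hC3⟩ := near_le hβ0 hβ1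
  have hB := one_le_BB
  have hvU := vU_nonneg
  have h2β : 0 < 2 - β := by linarith
  refine ⟨3 * BB * (2 * C3 / β + 1 / (2 - β)), by positivity,
    fun v w l c T ρ Y L Λ hv hw hl hdiv hwl hL hcoh hc0 hT hρ hρT hY hΛ hb => ?_⟩
  have hT0 : 0 < T := hρ.trans_le hρT
  have hY0 : 0 ≤ Y := by rw [hY]; exact integral_nonneg fun x => rsq_nonneg _
  set G := ∫ x in cube, G2 w x with hGd
  have hG0 : 0 ≤ G := integral_nonneg fun x => G2_nonneg _ _
  set X := G + Y / ρ ^ 2 with hX
  have hX0 : 0 ≤ X := by positivity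
  have h3 := hC3 w ρ Λ hw hρ hΛ fun τ hτ0 hτρ x => hb τ hτ0 (hτρ.trans hρT) x
  rw [← hGd, ← hY, ← hX] at h3
  -- the term of scale one
  set M := Real.sqrt (BB * (T⁻¹ ^ 3 * (27 * enstrophy v))) with hM
  have hMle : ∀ x i j, |mo phi T (pd i (fun y => v y j)) x| ≤ M := by
    intro x i j
    refine (mo_phi_le ((hv j).pd i) hT0 hT x).trans (Real.sqrt_le_sqrt ?_)
    have := en_term_le v i j
    have h2 : 0 ≤ T⁻¹ ^ 3 := by positivity
    exact mul_le_mul_of_nonneg_left (mul_le_mul_of_nonneg_left (by linarith) h2) (by linarith)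
  have hterm1 : |∫ x in cube, ∑ i, ∑ j, w x i * w x j * mo phi T (pd i (fun y => v y j)) x|
      ≤ 3 * M * Y := by
    rw [hY, ← integral_const_mul, ← Real.norm_eq_abs]
    refine norm_integral_le_of_norm_le (integrableOn_cube
      (continuous_const.mul (rsqw_cont hw))) (Filter.Eventually.of_forall fun x => ?_)
    rw [Real.norm_eq_abs]
    exact rsq_sum_le fun i j => hMle x i j
  -- continuity
  have hcw : Continuous fun t : ℝ => ∫ x in cube, Zf w w t x :=
    continuous_parametric_integral_of_continuous (μ := volume) (f := fun t x => Zf w w t x)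
      (Zf_cont hw hw) isCompact_Icc
  have hcl : Continuous fun t : ℝ => ∫ x in cube, Zf w l t x :=
    continuous_parametric_integral_of_continuous (μ := volume) (f := fun t x => Zf w l t x)
      (Zf_cont hw hl) isCompact_Icc
  have hcw' : Continuous fun t : ℝ => t * ∫ x in cube, Zf w w t x := continuous_id.mul hcw
  have hcl' : Continuous fun t : ℝ => t * ∫ x in cube, Zf w l t x := continuous_id.mul hcl
  -- the small scales
  have hnear : |∫ t in (0 : ℝ)..ρ, t * ∫ x in cube, Zf w w t x|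
      ≤ 3 * BB * c * (C3 * (Λ * X)) * (2 * ρ ^ β / β) := by
    have e1 : ∫ t in (0 : ℝ)..ρ, 3 * BB * c * (C3 * (Λ * X)) * ρ ^ (β / 2) * t ^ (β / 2 - 1)
        = 3 * BB * c * (C3 * (Λ * X)) * (2 * ρ ^ β / β) := by
      rw [intervalIntegral.integral_const_mul, integral_rpow (Or.inl (by linarith))]
      have : β / 2 - 1 + 1 = β / 2 := by ring
      rw [this, Real.zero_rpow (by positivity), sub_zero]
      have e2 : ρ ^ β = ρ ^ (β / 2) * ρ ^ (β / 2) := by
        rw [← Real.rpow_add hρ]; congr 1; ring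
      rw [e2]
      field_simp
    rw [← e1, ← Real.norm_eq_abs]
    refine intervalIntegral.norm_integral_le_of_norm_le hρ.le
      (Filter.Eventually.of_forall fun t ht => ?_)
      ((intervalIntegral.intervalIntegrable_rpow' (by linarith)).const_mul _)
    rw [Real.norm_eq_abs]
    refine (Iww_le hw hcoh hc0 hβ0.le ht.1).trans ?_
    have h5 := h3 t ht.1 ht.2
    have h6 : 0 ≤ 3 * BB * c * t ^ (β - 1) := by
      have := Real.rpow_nonneg ht.1.le (β - 1)
      positivity
    have e3 : t ^ (β - 1) * (ρ / t) ^ (β / 2) = ρ ^ (β / 2) * t ^ (β / 2 - 1) := by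
      rw [Real.div_rpow hρ.le ht.1.le, mul_div_assoc', mul_comm (t ^ (β - 1)), mul_div_assoc,
        ← Real.rpow_sub ht.1]
      congr 2; ring
    calc 3 * BB * c * t ^ (β - 1) * Aw w t
        ≤ 3 * BB * c * t ^ (β - 1) * (C3 * (Λ * (ρ / t) ^ (β / 2) * X)) :=
          mul_le_mul_of_nonneg_left h5 h6
      _ = 3 * BB * c * (C3 * (Λ * X)) * (t ^ (β - 1) * (ρ / t) ^ (β / 2)) := by ring
      _ = _ := by rw [e3]; ring
  -- the large scales
  have hfar : |∫ t in ρ..T, t * ∫ x in cube, Zf w w t x|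
      ≤ 3 * BB * c * (Λ * X) * (ρ ^ β / (2 - β)) := by
    have hne : β - 3 ≠ -1 := by intro h; linarith
    have h0 : (0 : ℝ) ∉ uIcc ρ T := by
      rw [uIcc_of_le hρT]
      intro h
      linarith [h.1]
    have e1 : ∫ t in ρ..T, 3 * BB * c * (Λ * Y) * t ^ (β - 3)
        = 3 * BB * c * (Λ * Y) * ((ρ ^ (β - 2) - T ^ (β - 2)) / (2 - β)) := by
      rw [intervalIntegral.integral_const_mul, integral_rpow (Or.inr ⟨hne, h0⟩)]
      have : β - 3 + 1 = -(2 - β) := by ring
      rw [this]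
      have e2 : -(2 - β) = β - 2 := by ring
      rw [div_neg, ← neg_div, neg_sub, e2]
    have e3 : 3 * BB * c * (Λ * Y) * ((ρ ^ (β - 2) - T ^ (β - 2)) / (2 - β))
        ≤ 3 * BB * c * (Λ * X) * (ρ ^ β / (2 - β)) := by
      have e4 : ρ ^ (β - 2) = ρ ^ β / ρ ^ 2 := by
        rw [Real.rpow_sub hρ]
        norm_cast
      have e6 : (ρ ^ (β - 2) - T ^ (β - 2)) / (2 - β) ≤ ρ ^ (β - 2) / (2 - β) := by
        refine div_le_div_of_nonneg_right ?_ h2β.le
        have := Real.rpow_nonneg hT0.le (β - 2)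
        linarith
      have e7 : 0 ≤ 3 * BB * c * (Λ * Y) := by positivity
      have hρβ := Real.rpow_nonneg hρ.le β
      calc 3 * BB * c * (Λ * Y) * ((ρ ^ (β - 2) - T ^ (β - 2)) / (2 - β))
          ≤ 3 * BB * c * (Λ * Y) * (ρ ^ (β - 2) / (2 - β)) :=
            mul_le_mul_of_nonneg_left e6 e7
        _ = 3 * BB * c * Λ * (ρ ^ β / (2 - β)) * (Y / ρ ^ 2) := by rw [e4]; ring
        _ ≤ 3 * BB * c * Λ * (ρ ^ β / (2 - β)) * X := by
            refine mul_le_mul_of_nonneg_left ?_ (by positivity)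
            rw [hX]; linarith
        _ = _ := by ring
    rw [← Real.norm_eq_abs]
    refine le_trans ?_ e3
    rw [← e1]
    refine intervalIntegral.norm_integral_le_of_norm_le hρT
      (Filter.Eventually.of_forall fun t ht => ?_)
      ((intervalIntegral.intervalIntegrable_rpow (Or.inr h0)).const_mul _)
    rw [Real.norm_eq_abs]
    have ht0 : 0 < t := hρ.trans ht.1
    refine (Iww_le hw hcoh hc0 hβ0.le ht0).trans ?_
    have h4 := Aw_far hw t fun x => hb t ht0 ht.2 x
    rw [← hY] at h4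
    have h6 : 0 ≤ 3 * BB * c * t ^ (β - 1) := by
      have := Real.rpow_nonneg ht0.le (β - 1)
      positivity
    have e5 : t ^ (β - 3) = t ^ (β - 1) / t ^ 2 := by
      have : β - 3 = (β - 1) - 2 := by ring
      rw [this, Real.rpow_sub ht0 (β - 1) 2]
      norm_cast
    calc 3 * BB * c * t ^ (β - 1) * Aw w t
        ≤ 3 * BB * c * t ^ (β - 1) * (Λ / t ^ 2 * Y) := mul_le_mul_of_nonneg_left h4 h6
      _ = _ := by rw [e5]; ring
  -- the bounded part
  have hlow : |∫ t in (0 : ℝ)..T, t * ∫ x in cube, Zf w l t x|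
      ≤ T * (36 * BB * vU * L * (Real.sqrt G * Real.sqrt Y)) := by
    rw [← Real.norm_eq_abs]
    have h4 := intervalIntegral.norm_integral_le_of_norm_le_const (a := (0 : ℝ)) (b := T)
      (f := fun t => t * ∫ x in cube, Zf w l t x)
      (C := 36 * BB * vU * L * (Real.sqrt G * Real.sqrt Y)) fun t ht => by
        rw [uIoc_of_le hT0.le] at ht
        rw [Real.norm_eq_abs, abs_mul, abs_of_pos ht.1, hY]
        exact Jl_le hw hl hL ht.1.le
    rw [sub_zero, abs_of_pos hT0] at h4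
    linarith
  have hsum : |∫ t in (0 : ℝ)..T, (-(t * ∫ x in cube, Zf w w t x) - t * ∫ x in cube, Zf w l t x)|
      ≤ 3 * BB * c * (C3 * (Λ * X)) * (2 * ρ ^ β / β)
        + 3 * BB * c * (Λ * X) * (ρ ^ β / (2 - β))
        + T * (36 * BB * vU * L * (Real.sqrt G * Real.sqrt Y)) := by
    have e1 : ∫ t in (0 : ℝ)..T, (-(t * ∫ x in cube, Zf w w t x) - t * ∫ x in cube, Zf w l t x)
        = -((∫ t in (0 : ℝ)..ρ, t * ∫ x in cube, Zf w w t x)
          + ∫ t in ρ..T, t * ∫ x in cube, Zf w w t x)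
          - ∫ t in (0 : ℝ)..T, t * ∫ x in cube, Zf w l t x := by
      rw [intervalIntegral.integral_add_adjacent_intervals (hcw'.intervalIntegrable _ _)
        (hcw'.intervalIntegrable _ _), ← intervalIntegral.integral_neg]
      exact intervalIntegral.integral_sub (hcw'.neg.intervalIntegrable _ _)
        (hcl'.intervalIntegrable _ _)
    rw [e1]
    have a1 := abs_le.1 hnear
    have a2 := abs_le.1 hfar
    have a3 := abs_le.1 hlow
    rw [abs_le]
    constructor
    · linarith [a1.2, a2.2, a3.2]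
    · linarith [a1.1, a2.1, a3.1]
  rw [Nw_eq hv hw hl hdiv hwl hT0.le]
  refine (abs_add_le _ _).trans ((add_le_add hterm1 hsum).trans ?_)
  have e9 : 3 * BB * (2 * C3 / β + 1 / (2 - β)) * (c * Λ * ρ ^ β * X)
      = 3 * BB * c * (C3 * (Λ * X)) * (2 * ρ ^ β / β)
        + 3 * BB * c * (Λ * X) * (ρ ^ β / (2 - β)) := by
    field_simp
  rw [e9]
  linarith

end Pool.Agent.R210
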