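import Pool.Agent.R210.M4
import Pool.Agent.R210.M6
import Pool.Agent.R210.Comb

/-!
The estimate of the production of enstrophy at a fixed time.
-/

open MeasureTheory Set Metric Filter Topology
open scoped ContDiff ENNReal
open H459R3.NS

namespace Pool.Agent.R210

/-- The curl is divergence free. -/
theorem dv_cu {v : V → V} (hv : ∀ i, SP (fun x => v x i)) (x : V) : dv (cu v) x = 0 := by
  have hc : ∀ a b i, pd a (pd b (fun y => v y i)) x = pd b (pd a (fun y => v y i)) x :=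
    fun a b i => congrFun (pd_comm (hv i) a b) x
  unfold dv
  simp_rw [cu_fun]
  simp only [Fin.sum_univ_three]
  rw [pd_sub' ((hv _).pd _) ((hv _).pd _), pd_sub' ((hv _).pd _) ((hv _).pd _),
    pd_sub' ((hv _).pd _) ((hv _).pd _)]
  show (pd 0 (pd 1 (fun y => v y 2)) x - pd 0 (pd 2 (fun y => v y 1)) x)
    + (pd 1 (pd 2 (fun y => v y 0)) x - pd 1 (pd 0 (fun y => v y 2)) x)
    + (pd 2 (pd 0 (fun y => v y 1)) x - pd 2 (pd 1 (fun y => v y 0)) x) = 0
  rw [hc 0 1 2, hc 0 2 1, hc 1 2 0]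
  ring

/-- The estimate at a fixed time. -/
theorem comb2 {β ε K J : ℝ} (hβ0 : 0 < β) (hβ1 : β ≤ 1) (hε : 0 < ε) (hK : 0 < K) (hJ : 0 ≤ J) :
    ∃ C' : ℝ, 0 ≤ C' ∧
    ∀ (v : V → V) (c m : ℝ), (∀ i, SP (fun x => v x i)) →
      (∀ x, ∑ i, pd i (fun y => v y i) x = 0) →
      (CohV (cu v) c β ∨ DirV (cu v) K c β) → 1 ≤ c → 1 ≤ m →
      c ^ (2 * (1 + β) / β ^ 2) ≤ m → enstrophy v ≤ m → ∫ x in cube, en (cu v x) ≤ J →
      -(2 * cub (fun i y => v y i)) ≤ ε * palin v + C' * m * enstrophy v := by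
  have hQ := CQ_nonneg
  have hBB := one_le_BB
  have hvU := vU_nonneg
  obtain ⟨C, hC0, hC⟩ := prod_mor hβ0 hβ1
  have ha := a0_pos hβ0
  have ha1 := a0_le β
  have hCM := CM_pos hβ0
  set a := a0 β with hadef
  clear_value a
  set Q : ℝ := 2 * (1 + β) / β ^ 2 with hQdef
  have hQ0 : 0 < Q := by positivity
  set A : ℝ := 2 + 288 * CQ ^ 2 with hA
  have hA0 : 0 < A := by positivity
  set ε' : ℝ := ε / (24 * A) with hε'
  have hε'0 : 0 < ε' := by positivity
  set P : ℝ := 36 * BB * vU * (2 * K) with hP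
  have hP0 : 0 ≤ P := by positivity
  set D : ℝ := C * (a * (CM β * (J + K))) with hD
  have hD0 : 0 ≤ D := by positivity
  set κ : ℝ := min 1 (ε' / (D + 1)) with hκ
  have hκ0 : 0 < κ := lt_min one_pos (by positivity)
  have hκ1 : κ ≤ 1 := min_le_left _ _
  have hDκ : D * κ ≤ ε' := by
    have h1 : κ ≤ ε' / (D + 1) := min_le_right _ _
    have h2 : D * κ ≤ (D + 1) * (ε' / (D + 1)) :=
      mul_le_mul (by linarith) h1 hκ0.le (by linarith)
    refine h2.trans (le_of_eq ?_)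
    field_simp
  set N1 : ℝ := κ⁻¹ ^ (2 / β) * a⁻¹ ^ Q with hN1
  have hN10 : 0 ≤ N1 := by positivity
  set N2 : ℝ := 3 * Real.sqrt (27 * BB * a⁻¹ ^ Q) with hN2
  have hN20 : 0 ≤ N2 := by positivity
  refine ⟨4 * (ε' * N1 + N2 + P ^ 2 / (4 * ε')) + 14 * K, by positivity,
    fun v c m hv hdiv hcoh hc hm hcm hym hIJ => ?_⟩
  have hom := sp_cu hv
  have hm0 : 0 < m := by linarith
  have hc0 : 0 < c := by linarith
  have hw := sp_cw hom K
  have hl : ∀ i, SP (fun x => (cu v x - cw K (cu v) x) i) := fun i => (hom i).sub (hw i)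
  have hy0 := enstrophy_nonneg v
  have hP0' := palin_nonneg v
  -- the scale
  set T : ℝ := (a / c) ^ (1 / β) with hT
  have hac : 0 < a / c := by positivity
  have hac1 : a / c ≤ 1 := by rw [div_le_one hc0]; linarith
  have hT0 : 0 < T := Real.rpow_pos_of_pos hac _
  have hT1 : T ≤ 1 := Real.rpow_le_one hac.le hac1 (by positivity)
  have hTβ : T ^ β = a / c := by
    rw [hT, ← Real.rpow_mul hac.le, one_div, inv_mul_cancel₀ hβ0.ne', Real.rpow_one]
  have hcT : c * T ^ β = a := by rw [hTβ]; field_simp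
  set ρ : ℝ := T ^ (1 + 1 / β) * κ ^ (1 / β) with hρ
  have hρ0 : 0 < ρ := by positivity
  have hρT : ρ ≤ T := by
    have h1 : κ ^ (1 / β) ≤ 1 := Real.rpow_le_one hκ0.le hκ1 (by positivity)
    have h2 : T ^ (1 + 1 / β) ≤ T := by
      calc T ^ (1 + 1 / β) ≤ T ^ (1 : ℝ) :=
            Real.rpow_le_rpow_of_exponent_ge hT0 hT1 (by
              have : 0 < 1 / β := by positivity
              linarith)
        _ = T := Real.rpow_one _
    calc ρ ≤ T * 1 := mul_le_mul h2 h1 (by positivity) hT0.le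
      _ = T := mul_one _
  have hρβ : ρ ^ β = T * T ^ β * κ := by
    rw [hρ, Real.mul_rpow (by positivity) (by positivity), ← Real.rpow_mul hT0.le,
      ← Real.rpow_mul hκ0.le]
    have e1 : (1 + 1 / β) * β = 1 + β := by field_simp; ring
    have e2 : 1 / β * β = 1 := by field_simp
    rw [e1, e2, Real.rpow_one, Real.rpow_add hT0, Real.rpow_one]
  have hTi : T⁻¹ = (c / a) ^ (1 / β) := by
    rw [hT, ← Real.inv_rpow hac.le, inv_div]
  have hca1 : 1 ≤ c / a := by rw [one_le_div ha]; linarith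
  have hca0 : 0 < c / a := by positivity
  have hcaQ : (c / a) ^ Q = a⁻¹ ^ Q * c ^ Q := by
    rw [div_eq_mul_inv, mul_comm, Real.mul_rpow (by positivity) hc0.le]
  have hcaQm : (c / a) ^ Q ≤ a⁻¹ ^ Q * m := by
    rw [hcaQ]
    exact mul_le_mul_of_nonneg_left hcm (by positivity)
  have hρ2 : 1 / ρ ^ 2 ≤ N1 * m := by
    have e1 : 1 / ρ ^ 2 = κ⁻¹ ^ (2 / β) * (c / a) ^ Q := by
      have a1 : (1 : ℝ) / ρ ^ 2 = ρ⁻¹ ^ (2 : ℝ) := by
        rw [one_div, ← inv_pow]; norm_cast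
      have a2 : ρ⁻¹ = (c / a) ^ ((1 / β) * (1 + 1 / β)) * κ⁻¹ ^ (1 / β) := by
        rw [hρ, mul_inv, ← Real.inv_rpow hT0.le, ← Real.inv_rpow hκ0.le, hTi,
          ← Real.rpow_mul hca0.le]
      rw [a1, a2, Real.mul_rpow (by positivity) (by positivity), ← Real.rpow_mul hca0.le,
        ← Real.rpow_mul (by positivity), mul_comm]
      congr 2
      · ring
      · rw [hQdef]; field_simp; ring
    rw [e1, hN1, mul_assoc]
    exact mul_le_mul_of_nonneg_left hcaQm (by positivity)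
  have hT3 : T⁻¹ ^ 3 ≤ a⁻¹ ^ Q * m := by
    have e1 : T⁻¹ ^ 3 = (c / a) ^ (3 / β) := by
      rw [hTi, ← Real.rpow_natCast, ← Real.rpow_mul hca0.le]
      congr 1; push_cast; ring
    rw [e1]
    refine le_trans (Real.rpow_le_rpow_of_exponent_le hca1 ?_) hcaQm
    rw [hQdef, div_le_div_iff₀ hβ0 (by positivity)]
    nlinarith
  clear_value ρ
  clear_value T
  -- the Morrey bound
  set Λ : ℝ := CM β * (J + K) / T with hΛ
  have hΛ0 : 0 ≤ Λ := by positivity
  have hmor : ∀ τ : ℝ, 0 < τ → τ ≤ T → ∀ x,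
      ∫ z in U1, en (cw K (cu v) (x - τ • z)) ≤ Λ / τ ^ 2 := by
    intro τ hτ0 hτT x
    have h1 := avg_per (w := cu v) (c := c) (β := β) (K := K) (T := T) hom (dv_cu hv) hβ0 hβ1
      hc0.le hK.le hcoh hT0 hT1 (by rw [hcT, hadef]) hτ0 hτT x
    have h2 : ∫ z in U1, en (cw K (cu v) (x - τ • z)) ≤ ∫ z in U1, en (cu v (x - τ • z)) := by
      have g1 : Continuous fun z : V => x - τ • z := by fun_prop
      have g2 : Continuous fun z : V => en (cw K (cu v) (x - τ • z)) := (f_cont hw).comp g1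
      have g3 : Continuous fun z : V => en (cu v (x - τ • z)) := (f_cont hom).comp g1
      exact setIntegral_mono (int_U1 g2) (int_U1 g3) fun z => Real.sqrt_le_sqrt (rsq_cw_le K _)
    refine h2.trans (h1.trans ?_)
    refine div_le_div_of_nonneg_right ?_ (by positivity)
    rw [hΛ]
    refine div_le_div_of_nonneg_right ?_ hT0.le
    exact mul_le_mul_of_nonneg_left (by linarith) hCM.le
  -- the coherence
  have hcohw : CohV (cw K (cu v)) c β := by
    refine cw_coh hK ?_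
    intro x y hx hy
    rcases hcoh with h | h
    · exact h x y
    · have hen : ∀ z : V, K ^ 2 < rsq z → K < en z := by
        intro z hz
        rw [← en_sq] at hz
        exact lt_of_pow_lt_pow_left₀ 2 (en_nonneg _) hz
      exact h.coh hK.le x y (hen _ hx) (hen _ hy)
  have hr1 : ∫ x in cube, rsq (cw K (cu v) x) ≤ 2 * enstrophy v := by
    refine le_trans ?_ (int_rsq_cu hv)
    exact setIntegral_mono (sp_rsq hw).int (sp_rsq hom).int fun x => rsq_cw_le K x
  set Y := ∫ x in cube, rsq (cw K (cu v) x) with hY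
  have hY0 : 0 ≤ Y := integral_nonneg fun x => rsq_nonneg _
  set G := ∫ x in cube, G2 (cw K (cu v)) x with hG
  have hG0 : 0 ≤ G := integral_nonneg fun x => G2_nonneg _ _
  have h1 := hC v (cw K (cu v)) (fun x => cu v x - cw K (cu v) x) c T ρ Y (2 * K) Λ hv hw hl hdiv
    (fun x => by simp) (fun x i => cw_diff hK x i) hcohw hc0.le hT1 hρ0 hρT hY hΛ0 hmor
  rw [← hG, ← hP] at h1
  have b1 : C * (c * Λ * ρ ^ β * (G + Y / ρ ^ 2)) ≤ ε' * G + ε' * N1 * m * Y := by
    have e1 : C * (c * Λ * ρ ^ β) = D * κ := by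
      rw [hρβ, hΛ, hD]
      calc C * (c * (CM β * (J + K) / T) * (T * T ^ β * κ))
          = C * ((c * T ^ β) * (CM β * (J + K))) * κ := by field_simp
        _ = _ := by rw [hcT]
    have e2 : C * (c * Λ * ρ ^ β * (G + Y / ρ ^ 2)) = (D * κ) * (G + 1 / ρ ^ 2 * Y) := by
      rw [← e1]; ring
    rw [e2]
    have h2 : 0 ≤ G + 1 / ρ ^ 2 * Y := by positivity
    calc (D * κ) * (G + 1 / ρ ^ 2 * Y) ≤ ε' * (G + 1 / ρ ^ 2 * Y) :=
          mul_le_mul_of_nonneg_right hDκ h2
      _ ≤ ε' * (G + N1 * m * Y) := by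
          refine mul_le_mul_of_nonneg_left ?_ hε'0.le
          have := mul_le_mul_of_nonneg_right hρ2 hY0
          linarith
      _ = _ := by ring
  have b2 : 3 * Real.sqrt (BB * (T⁻¹ ^ 3 * (27 * enstrophy v))) * Y ≤ N2 * m * Y := by
    refine mul_le_mul_of_nonneg_right ?_ hY0
    have h2 : BB * (T⁻¹ ^ 3 * (27 * enstrophy v)) ≤ 27 * BB * a⁻¹ ^ Q * m ^ 2 := by
      have h3 : T⁻¹ ^ 3 * (27 * enstrophy v) ≤ a⁻¹ ^ Q * m * (27 * m) :=
        mul_le_mul hT3 (by linarith) (by positivity) (by positivity)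
      calc BB * (T⁻¹ ^ 3 * (27 * enstrophy v)) ≤ BB * (a⁻¹ ^ Q * m * (27 * m)) :=
            mul_le_mul_of_nonneg_left h3 (by linarith)
        _ = _ := by ring
    have h3 := Real.sqrt_le_sqrt h2
    rw [Real.sqrt_mul (by positivity : 0 ≤ 27 * BB * a⁻¹ ^ Q), Real.sqrt_sq hm0.le] at h3
    rw [hN2]
    linarith
  have b3 : T * (P * (Real.sqrt G * Real.sqrt Y)) ≤ ε' * G + P ^ 2 / (4 * ε') * m * Y := by
    have h2 : T * (P * (Real.sqrt G * Real.sqrt Y)) ≤ P * (Real.sqrt G * Real.sqrt Y) :=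
      mul_le_of_le_one_left (by positivity) hT1
    refine h2.trans ?_
    have eG := Real.sq_sqrt hG0
    have eY := Real.sq_sqrt hY0
    have h3 : ε' * G + P ^ 2 / (4 * ε') * Y - P * (Real.sqrt G * Real.sqrt Y)
        = (2 * ε' * Real.sqrt G - P * Real.sqrt Y) ^ 2 / (4 * ε') := by
      have : (2 * ε' * Real.sqrt G - P * Real.sqrt Y) ^ 2
          = 4 * ε' ^ 2 * G - 4 * ε' * P * (Real.sqrt G * Real.sqrt Y) + P ^ 2 * Y := by
        calc (2 * ε' * Real.sqrt G - P * Real.sqrt Y) ^ 2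
            = 4 * ε' ^ 2 * Real.sqrt G ^ 2 - 4 * ε' * P * (Real.sqrt G * Real.sqrt Y)
              + P ^ 2 * Real.sqrt Y ^ 2 := by ring
          _ = _ := by rw [eG, eY]
      rw [this]
      field_simp
      ring
    have h4 : 0 ≤ (2 * ε' * Real.sqrt G - P * Real.sqrt Y) ^ 2 / (4 * ε') := by positivity
    have h5 : P ^ 2 / (4 * ε') * Y ≤ P ^ 2 / (4 * ε') * m * Y := by
      have : 0 ≤ P ^ 2 / (4 * ε') := by positivity
      refine mul_le_mul_of_nonneg_right ?_ hY0
      exact le_mul_of_one_le_right this hm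
    linarith
  have h2 : G ≤ A * (6 * palin v) := by
    have h3 : G ≤ ∫ x in cube, A * G2 (cu v) x :=
      setIntegral_mono (integrableOn_cube (G2_cont hw))
        (integrableOn_cube (continuous_const.mul (G2_cont hom))) fun x => G2_cw_le hom hK x
    rw [integral_const_mul] at h3
    exact h3.trans (mul_le_mul_of_nonneg_left (int_G2_cu hv) hA0.le)
  have h4 : 4 * (ε' * G) ≤ ε * palin v := by
    calc 4 * (ε' * G) ≤ 4 * (ε' * (A * (6 * palin v))) := by
          have := mul_le_mul_of_nonneg_left h2 hε'0.le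
          linarith
      _ = ε * palin v := by rw [hε']; field_simp; ring
  set N3 : ℝ := ε' * N1 + N2 + P ^ 2 / (4 * ε') with hN3
  have hN30 : 0 ≤ N3 := by positivity
  have h5 : N3 * m * Y ≤ N3 * m * (2 * enstrophy v) :=
    mul_le_mul_of_nonneg_left hr1 (by positivity)
  have h6 := abs_le.1 (Nw_diff hv hK)
  have h7 := abs_le.1 h1
  have h8 := cub_eq_Nw hv hdiv
  have h9 : K * enstrophy v ≤ K * m * enstrophy v := by
    refine mul_le_mul_of_nonneg_right ?_ hy0
    exact le_mul_of_one_le_right hK.le hm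
  have h10 : Nw (cw K (cu v)) v ≤ 2 * (ε' * G) + N3 * m * Y := by
    have e3 : N3 * m * Y = ε' * N1 * m * Y + N2 * m * Y + P ^ 2 / (4 * ε') * m * Y := by
      rw [hN3]; ring
    rw [e3]
    linarith [h7.2]
  have e4 : (4 * N3 + 14 * K) * m * enstrophy v
      = 2 * (N3 * m * (2 * enstrophy v)) + 14 * (K * m * enstrophy v) := by ring
  rw [e4]
  linarith [h6.2]

end Pool.Agent.R210
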