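import Pool.Agent.R210.M7
import Pool.Agent.R210.Fin

/-!
The criterion: the direction of the vorticity is Hoelder continuous with an arbitrary positive
exponent.
-/

open MeasureTheory Set Metric Filter Topology
open scoped ContDiff ENNReal
open H459R3.NS

namespace Pool.Agent.R210

theorem en_le_sum (a : V) : en a ≤ ∑ i, |a i| := by
  have h0 : 0 ≤ ∑ i, |a i| := Finset.sum_nonneg fun i _ => abs_nonneg _
  refine le_of_sq_le_sq ?_ h0
  rw [en_sq]
  unfold rsq
  simp only [Fin.sum_univ_three]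
  have h1 := abs_nonneg (a 0)
  have h2 := abs_nonneg (a 1)
  have h3 := abs_nonneg (a 2)
  rw [← sq_abs (a 0), ← sq_abs (a 1), ← sq_abs (a 2)]
  nlinarith [mul_nonneg h1 h2, mul_nonneg h1 h3, mul_nonneg h2 h3]

theorem abs_le_hf (r : ℝ) : |r| ≤ hf r := by
  refine le_of_sq_le_sq ?_ (hf_nonneg r)
  rw [hf_sq, sq_abs]
  linarith

/-- The integral of the length of the vorticity. -/
theorem int_en_le {v : V → V} (hv : ∀ i, SP (fun x => v x i)) :
    ∫ x in cube, en (cu v x) ≤ EH v := by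
  have hom := sp_cu hv
  have hc : ∀ i, Continuous fun x => hf (cu v x i) := fun i =>
    hf_smooth.continuous.comp (hom i).cont
  unfold EH
  rw [← integral_finsetSum _ fun i _ => integrableOn_cube (hc i)]
  refine setIntegral_mono (integrableOn_cube (f_cont hom))
    (integrableOn_cube (continuous_finsetSum _ fun i _ => hc i)) fun x => ?_
  exact (en_le_sum _).trans (Finset.sum_le_sum fun i _ => abs_le_hf _)

variable {ν T : ℝ} {u : ℝ → V → V} {p : ℝ → V → ℝ}

/-- The a priori bound of the integral of the length of the vorticity. -/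
theorem EH_le (h : IsSol ν T u p) (hν : 0 < ν) {t : ℝ} (ht : t ∈ Ico 0 T) :
    EH (u t) ≤ EH (u 0) + 4 * ∫ s in (0 : ℝ)..t, enstrophy (u s) := by
  have hsub : Icc 0 t ⊆ Ico 0 T := fun s hs => ⟨hs.1, hs.2.trans_lt ht.2⟩
  have hyc : ContinuousOn (fun s => enstrophy (u s)) (Icc 0 t) :=
    h.enstrophy_continuousOn.mono hsub
  have hg1 : IntegrableOn (fun s => 4 * enstrophy (u s)) (Icc 0 t) :=
    hyc.integrableOn_Icc.const_mul 4
  have h1 := intervalIntegral.sub_le_integral_of_hasDeriv_right_of_le ht.1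
    ((EH_continuousOn h).mono hsub)
    (fun s hs => (EH_hasDerivAt h ⟨hs.1, hs.2.trans ht.2⟩).hasDerivWithinAt) hg1
    (fun s hs => by
      have h2 := stretch_le h (t := s) ⟨hs.1, hs.2.trans ht.2⟩
      have h3 : 0 ≤ ν * Dis (u s) := mul_nonneg hν.le (Dis_nonneg _)
      linarith)
  rw [intervalIntegral.integral_const_mul] at h1
  linarith

/-- The criterion. -/
theorem criterion2 (h : IsSol ν T u p) (hν : 0 < ν) {β K : ℝ} (hβ0 : 0 < β) (hβ1 : β ≤ 1)
    {c : ℝ → ℝ}
    (hc : MemLp c (ENNReal.ofReal (2 * (1 + β) / β ^ 2)) (volume.restrict (Ioo 0 T)))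
    (hdir : ∀ᵐ t ∂volume.restrict (Ioo 0 T),
      (∀ x y, en (crossProduct (cu (u t) x) (cu (u t) y))
        ≤ c t * en (x - y) ^ β * (en (cu (u t) x) * en (cu (u t) y))) ∨
      (∀ x y, K < en (cu (u t) x) → K < en (cu (u t) y) →
        en (en (cu (u t) y) • cu (u t) x - en (cu (u t) x) • cu (u t) y)
          ≤ c t * en (x - y) ^ β * (en (cu (u t) x) * en (cu (u t) y)))) :
    (∃ A, ∀ t ∈ Ico 0 T, enstrophy (u t) ≤ A) ∧ ∃ M, ∀ t ∈ Ico 0 T, ∀ x i, |u t x i| ≤ M := by
  classical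
  rcases le_or_gt T 0 with hT | hT
  · have : Ico 0 T = ∅ := Ico_eq_empty (by linarith)
    rw [this]
    exact ⟨⟨0, fun t ht => absurd ht (notMem_empty t)⟩, ⟨0, fun t ht => absurd ht (notMem_empty t)⟩⟩
  set L : ℝ := max K 1 with hL
  have hL0 : 0 < L := lt_max_of_lt_right one_pos
  set E0 : ℝ := energy (u 0) / (2 * ν) with hE0
  have hE : ∀ t ∈ Ico 0 T, ∫ s in (0 : ℝ)..t, enstrophy (u s) ≤ E0 := fun t ht =>
    h.int_enstrophy hν ht
  set J : ℝ := EH (u 0) + 4 * E0 with hJ
  have hJt : ∀ t ∈ Ico 0 T, ∫ x in cube, en (cu (u t) x) ≤ J := by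
    intro t ht
    have h1 := int_en_le (v := u t) fun i => h.sp ht i
    have h2 := EH_le h hν ht
    have h3 := hE t ht
    rw [hJ]; linarith
  have hJ0 : 0 ≤ J := (integral_nonneg fun x => en_nonneg _).trans (hJt 0 ⟨le_rfl, hT⟩)
  set Q : ℝ := 2 * (1 + β) / β ^ 2 with hQ
  have hQ0 : 0 < Q := by positivity
  obtain ⟨C', hC'0, hC'⟩ := comb2 (β := β) (ε := ν) (K := L) (J := J) hβ0 hβ1 hν hL0 hJ0
  have hci : IntegrableOn (fun t => |c t| ^ Q) (Ioo 0 T) := by
    have h1 := hc.integrable_norm_rpow (by simpa using hQ0) ENNReal.ofReal_ne_top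
    rw [ENNReal.toReal_ofReal hQ0.le] at h1
    exact h1
  set m0 : ℝ → ℝ := fun s => 1 + |c s| ^ Q with hm0
  have hm01 : ∀ s, 1 ≤ m0 s := fun s => by
    have := Real.rpow_nonneg (abs_nonneg (c s)) Q
    simp only [hm0]; linarith
  have hm0i : IntegrableOn m0 (Ioo 0 T) := by
    have h2 : IntegrableOn (fun _ : ℝ => (1 : ℝ)) (Ioo 0 T) := by simp [integrableOn_const_iff]
    exact h2.add hci
  set m : ℝ → ℝ := fun s => m0 s + enstrophy (u s) with hm
  have hy0 : ∀ s, 0 ≤ enstrophy (u s) := fun s => enstrophy_nonneg _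
  have hm1 : ∀ s, 1 ≤ m s := fun s => by
    have := hm01 s; have := hy0 s
    simp only [hm]; linarith
  set P : ℝ → Prop := fun s =>
      (∀ x y, en (crossProduct (cu (u s) x) (cu (u s) y))
        ≤ c s * en (x - y) ^ β * (en (cu (u s) x) * en (cu (u s) y))) ∨
      (∀ x y, K < en (cu (u s) x) → K < en (cu (u s) y) →
        en (en (cu (u s) y) • cu (u s) x - en (cu (u s) x) • cu (u s) y)
          ≤ c s * en (x - y) ^ β * (en (cu (u s) x) * en (cu (u s) y))) with hP
  have hMex : ∀ s, ∃ M : ℝ, s ∈ Ioo 0 T → 0 ≤ M ∧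
      -(2 * cub (fun i y => u s y i)) ≤ M * enstrophy (u s) := by
    intro s
    by_cases hs : s ∈ Ioo 0 T
    · obtain ⟨M, hM1, hM2⟩ := cub_bound (v := u s) fun i => h.sp ⟨hs.1.le, hs.2⟩ i
      exact ⟨M, fun _ => ⟨hM1, hM2⟩⟩
    · exact ⟨0, fun h => absurd h hs⟩
  choose M hM using hMex
  set g : ℝ → ℝ := fun s => if P s then C' * m s else M s with hg
  have hgood : ∀ s ∈ Ioo 0 T, P s →
      -(2 * cub (fun i y => u s y i)) ≤ ν * palin (u s) + C' * m s * enstrophy (u s) := by
    intro s hs hPs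
    have hI : s ∈ Ico 0 T := ⟨hs.1.le, hs.2⟩
    have hcc : ∀ x y : V, c s * en (x - y) ^ β * (en (cu (u s) x) * en (cu (u s) y))
        ≤ max |c s| 1 * en (x - y) ^ β * (en (cu (u s) x) * en (cu (u s) y)) := by
      intro x y
      have h2 : 0 ≤ en (x - y) ^ β := Real.rpow_nonneg (en_nonneg _) _
      have h3 : 0 ≤ en (cu (u s) x) * en (cu (u s) y) := mul_nonneg (en_nonneg _) (en_nonneg _)
      refine mul_le_mul_of_nonneg_right (mul_le_mul_of_nonneg_right ?_ h2) h3
      exact (le_abs_self _).trans (le_max_left _ _)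
    refine hC' (u s) (max |c s| 1) (m s) (fun i => h.sp hI i) (h.divfree s hI) ?_
      (le_max_right _ _) (hm1 s) ?_ ?_ (hJt s hI)
    · rcases hPs with h1 | h1
      · left
        intro x y
        have h5 := pow_le_pow_left₀ (en_nonneg _) ((h1 x y).trans (hcc x y)) 2
        rw [en_sq] at h5
        refine h5.trans (le_of_eq ?_)
        rw [← en_sq (cu (u s) x), ← en_sq (cu (u s) y)]
        ring
      · right
        intro x y hx hy
        exact (h1 x y ((le_max_left K 1).trans_lt hx) ((le_max_left K 1).trans_lt hy)).trans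
          (hcc x y)
    · have h2 : max |c s| 1 ^ Q ≤ 1 + |c s| ^ Q := by
        have h3 := Real.rpow_nonneg (abs_nonneg (c s)) Q
        rcases max_cases |c s| 1 with h4 | h4
        · rw [h4.1]; linarith
        · rw [h4.1, Real.one_rpow]; linarith
      have := hy0 s
      simp only [hm, hm0]; linarith
    · have := hm01 s
      simp only [hm]; linarith
  -- integrability
  have hEc : ∀ t ∈ Ico 0 T, ContinuousOn (fun s => enstrophy (u s)) (Icc 0 t) := fun t ht =>
    h.enstrophy_continuousOn.mono fun s hs => ⟨hs.1, hs.2.trans_lt ht.2⟩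
  have hsub : ∀ t ∈ Ico 0 T, Ioc 0 t ⊆ Ioo 0 T := fun t ht s hs => ⟨hs.1, hs.2.trans_lt ht.2⟩
  have hi0 : ∀ t ∈ Ico 0 T, IntegrableOn m0 (Ioc 0 t) := fun t ht => hm0i.mono_set (hsub t ht)
  have hi1 : ∀ t ∈ Ico 0 T, IntegrableOn (fun s => enstrophy (u s)) (Ioc 0 t) := fun t ht =>
    (hEc t ht).integrableOn_Icc.mono_set Ioc_subset_Icc_self
  have him : ∀ t ∈ Ico 0 T, IntegrableOn m (Ioc 0 t) := fun t ht => (hi0 t ht).add (hi1 t ht)
  have hgae : ∀ t ∈ Ico 0 T, (fun s => C' * m s) =ᵐ[volume.restrict (Ioc 0 t)] g := by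
    intro t ht
    have h1 : ∀ᵐ s ∂volume.restrict (Ioc 0 t), P s :=
      ae_mono (Measure.restrict_mono (hsub t ht) le_rfl) hdir
    filter_upwards [h1] with s hs
    simp only [hg, if_pos hs]
  have hgi : ∀ t ∈ Ico 0 T, IntegrableOn g (Icc 0 t) := by
    intro t ht
    rw [integrableOn_Icc_iff_integrableOn_Ioc]
    exact ((him t ht).const_mul C').congr (hgae t ht)
  have hres := h.gron hν (g := g) (δ := 1)
    (B := C' * ((∫ s in Ioo 0 T, m0 s) + E0)) one_pos ?_ hgi ?_ ?_
  · exact ⟨⟨_, hres.1⟩, hres.2⟩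
  · intro s hs
    simp only [hg]
    split_ifs with hPs
    · exact mul_nonneg hC'0 (by linarith [hm1 s])
    · exact (hM s hs).1
  · intro t ht
    rw [intervalIntegral.integral_of_le ht.1, ← integral_congr_ae (hgae t ht),
      integral_const_mul]
    refine mul_le_mul_of_nonneg_left ?_ hC'0
    have e1 : ∫ s in Ioc 0 t, m s = (∫ s in Ioc 0 t, m0 s) + ∫ s in Ioc 0 t, enstrophy (u s) := by
      simp only [hm]
      exact integral_add (hi0 t ht) (hi1 t ht)
    have a1 : ∫ s in Ioc 0 t, m0 s ≤ ∫ s in Ioo 0 T, m0 s :=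
      setIntegral_mono_set hm0i (Filter.Eventually.of_forall fun s => zero_le_one.trans (hm01 s))
        (hsub t ht).eventuallyLE
    have a2 := hE t ht
    rw [intervalIntegral.integral_of_le ht.1] at a2
    rw [e1]
    linarith
  · intro s hs
    simp only [hg]
    split_ifs with hPs
    · have := hgood s hs hPs
      linarith
    · have h1 := (hM s hs).2
      have h2 : 0 ≤ (2 - 1) * (ν * palin (u s)) := by
        have := palin_nonneg (u s)
        positivity
      linarith

end Pool.Agent.R210
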