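import Pool.Agent.R210.Trans

/-!
Smoothness of mollifications; the curl.
-/

open MeasureTheory Set Metric Filter Topology
open scoped ContDiff ENNReal
open H459R3.NS

namespace Pool.Agent.R210

/-- The mollification of vector valued functions. -/
noncomputable def mov {F : Type} [NormedAddCommGroup F] [NormedSpace ℝ F] (K : V → ℝ) (t : ℝ)
    (g : V → F) (x : V) : F := ∫ z, K z • g (x - t • z)

theorem mov_hasFDerivAt {F : Type} [NormedAddCommGroup F] [NormedSpace ℝ F] {K : V → ℝ}
    (hK : Continuous K) (hc : HasCompactSupport K) {g : V → F} (hg : ContDiff ℝ ∞ g) (t : ℝ)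
    (x₀ : V) : HasFDerivAt (mov K t g) (mov K t (fderiv ℝ g) x₀) x₀ := by
  have hgf : Continuous (fderiv ℝ g) := hg.continuous_fderiv (by norm_num)
  have hcomp : IsCompact ((fun p : V × V => p.1 - t • p.2) '' (closedBall x₀ 1 ×ˢ tsupport K)) :=
    ((isCompact_closedBall x₀ 1).prod hc).image (by fun_prop)
  obtain ⟨C, hC⟩ := hcomp.exists_bound_of_continuousOn hgf.continuousOn
  refine hasFDerivAt_integral_of_dominated_of_fderiv_le (s := ball x₀ 1)
    (F := fun x z => K z • g (x - t • z)) (F' := fun x z => K z • fderiv ℝ g (x - t • z))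
    (bound := fun z => |K z| * C) (ball_mem_nhds _ one_pos) ?_ ?_ ?_ ?_ ?_ ?_
  · exact Filter.Eventually.of_forall fun x =>
      (hK.smul (hg.continuous.comp (by fun_prop))).aestronglyMeasurable
  · exact (hK.smul (hg.continuous.comp (by fun_prop))).integrable_of_hasCompactSupport
      hc.smul_right
  · exact (hK.smul (hgf.comp (by fun_prop))).aestronglyMeasurable
  · refine Filter.Eventually.of_forall fun z x hx => ?_
    rw [norm_smul, Real.norm_eq_abs]
    by_cases hz : z ∈ tsupport K
    · exact mul_le_mul_of_nonneg_left (hC _ ⟨(x, z), ⟨ball_subset_closedBall hx, hz⟩, rfl⟩)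
        (abs_nonneg _)
    · rw [image_eq_zero_of_notMem_tsupport hz]; simp
  · have h1 : Continuous fun z : V => |K z| * C := hK.abs.mul continuous_const
    exact h1.integrable_of_hasCompactSupport
      ((hc.comp_left (g := fun r : ℝ => |r|) (by simp)).mul_right)
  · refine Filter.Eventually.of_forall fun z x _ => ?_
    have h1 : HasFDerivAt g (fderiv ℝ g (x - t • z)) (x - t • z) :=
      (hg.differentiable (by norm_num) _).hasFDerivAt
    have h2 : HasFDerivAt (fun x : V => x - t • z) (ContinuousLinearMap.id ℝ V) x :=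
      (hasFDerivAt_id x).sub_const _
    have h3 := (h1.comp x h2).const_smul (K z)
    rw [ContinuousLinearMap.comp_id] at h3
    exact h3

theorem mov_contDiff {K : V → ℝ} (hK : Continuous K) (hc : HasCompactSupport K) (t : ℝ) (n : ℕ) :
    ∀ {F : Type} [NormedAddCommGroup F] [NormedSpace ℝ F] {g : V → F}, ContDiff ℝ ∞ g →
      ContDiff ℝ n (mov K t g) := by
  induction n with
  | zero =>
    intro F _ _ g hg
    rw [Nat.cast_zero, contDiff_zero]
    exact continuous_iff_continuousAt.2 fun x => (mov_hasFDerivAt hK hc hg t x).continuousAt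
  | succ n ih =>
    intro F _ _ g hg
    push_cast
    rw [contDiff_succ_iff_hasFDerivAt]
    exact ⟨mov K t (fderiv ℝ g), ih (hg.fderiv_right (m := ∞) (by norm_cast)),
      fun x => mov_hasFDerivAt hK hc hg t x⟩

theorem mo_eq_mov (K : V → ℝ) (t : ℝ) (g : V → ℝ) : mo K t g = mov K t g := rfl

theorem sp_mo {K g : V → ℝ} (hK : Continuous K) (hc : HasCompactSupport K) (hg : SP g) (t : ℝ) :
    SP (mo K t g) where
  smooth := by
    rw [mo_eq_mov, contDiff_infty]
    exact fun n => mov_contDiff hK hc t n hg.smooth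
  per := by
    intro i x
    unfold mo
    congr 1
    funext z
    have : x + Pi.single i 1 - t • z = (x - t • z) + Pi.single i 1 := by abel
    rw [this, hg.per i]

theorem pd_mo {K g : V → ℝ} (hK : Continuous K) (hc : HasCompactSupport K) (hg : SP g) (t : ℝ)
    (i : Fin 3) (x : V) : pd i (mo K t g) x = mo K t (pd i g) x := by
  have h1 := mov_hasFDerivAt hK hc hg.smooth t x
  unfold pd
  rw [mo_eq_mov, h1.fderiv]
  unfold mov mo
  have h2 : Integrable fun z => K z • fderiv ℝ g (x - t • z) :=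
    (hK.smul ((hg.smooth.continuous_fderiv (by norm_num)).comp
      (by fun_prop))).integrable_of_hasCompactSupport hc.smul_right
  rw [ContinuousLinearMap.integral_apply h2]
  rfl

theorem pd_sub' {f g : V → ℝ} (hf : SP f) (hg : SP g) (i : Fin 3) (x : V) :
    pd i (fun y => f y - g y) x = pd i f x - pd i g x := by
  unfold pd
  have h := fderiv_fun_sub (𝕜 := ℝ) (hf.diff x) (hg.diff x)
  rw [h]; rfl

/-- The curl. -/
noncomputable def cu (F : V → V) (x : V) : V :=
  ![pd 1 (fun y => F y 2) x - pd 2 (fun y => F y 1) x,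
    pd 2 (fun y => F y 0) x - pd 0 (fun y => F y 2) x,
    pd 0 (fun y => F y 1) x - pd 1 (fun y => F y 0) x]

theorem vort_eq_cu (v : V → V) : Pool.Agent.W268.NS.vort v = cu v := rfl

section

variable {F : V → V} (hF : ∀ i, SP (fun x => F x i))

include hF in
theorem sp_cu (i : Fin 3) : SP (fun x => cu F x i) := by
  fin_cases i
  · exact SP.sub ((hF 2).pd 1) ((hF 1).pd 2)
  · exact SP.sub ((hF 0).pd 2) ((hF 2).pd 0)
  · exact SP.sub ((hF 1).pd 0) ((hF 0).pd 1)

end

/-- The Laplacian of a divergence free field. -/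
theorem lap_curl {v : V → V} (hv : ∀ i, SP (fun y => v y i)) (hdiv : ∀ x, dv v x = 0)
    (j : Fin 3) (x : V) : lap (fun y => v y j) x = -cu (cu v) x j := by
  have hd : ∀ k, pd k (pd 0 (fun y => v y 0)) x + pd k (pd 1 (fun y => v y 1)) x
      + pd k (pd 2 (fun y => v y 2)) x = 0 := by
    intro k
    have h1 : dv v = fun _ => 0 := funext hdiv
    have h2 : pd k (dv v) x = 0 := by
      rw [h1]; unfold pd; simp
    have h3 : pd k (dv v) x = ∑ i, pd k (pd i (fun y => v y i)) x := by
      unfold dv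
      exact pd_sum (fun i _ => (hv i).pd i) k x
    rw [h2, Fin.sum_univ_three] at h3
    linarith
  have hc : ∀ a b i, pd a (pd b (fun y => v y i)) x = pd b (pd a (fun y => v y i)) x :=
    fun a b i => congrFun (pd_comm (hv i) a b) x
  fin_cases j
  · have e1 : cu (cu v) x 0 = (pd 1 (pd 0 (fun y => v y 1)) x - pd 1 (pd 1 (fun y => v y 0)) x)
        - (pd 2 (pd 2 (fun y => v y 0)) x - pd 2 (pd 0 (fun y => v y 2)) x) := by
      rw [← pd_sub' ((hv 1).pd 0) ((hv 0).pd 1), ← pd_sub' ((hv 0).pd 2) ((hv 2).pd 0)]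
      rfl
    show lap (fun y => v y 0) x = -cu (cu v) x 0
    rw [e1]
    unfold lap
    rw [Fin.sum_univ_three]
    have := hd 0
    have h1 := hc 1 0 1
    have h2 := hc 2 0 2
    linarith
  · have e1 : cu (cu v) x 1 = (pd 2 (pd 1 (fun y => v y 2)) x - pd 2 (pd 2 (fun y => v y 1)) x)
        - (pd 0 (pd 0 (fun y => v y 1)) x - pd 0 (pd 1 (fun y => v y 0)) x) := by
      rw [← pd_sub' ((hv 2).pd 1) ((hv 1).pd 2), ← pd_sub' ((hv 1).pd 0) ((hv 0).pd 1)]
      rfl
    show lap (fun y => v y 1) x = -cu (cu v) x 1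
    rw [e1]
    unfold lap
    rw [Fin.sum_univ_three]
    have := hd 1
    have h1 := hc 0 1 0
    have h2 := hc 2 1 2
    linarith
  · have e1 : cu (cu v) x 2 = (pd 0 (pd 2 (fun y => v y 0)) x - pd 0 (pd 0 (fun y => v y 2)) x)
        - (pd 1 (pd 1 (fun y => v y 2)) x - pd 1 (pd 2 (fun y => v y 1)) x) := by
      rw [← pd_sub' ((hv 0).pd 2) ((hv 2).pd 0), ← pd_sub' ((hv 2).pd 1) ((hv 1).pd 2)]
      rfl
    show lap (fun y => v y 2) x = -cu (cu v) x 2
    rw [e1]
    unfold lap
    rw [Fin.sum_univ_three]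
    have := hd 2
    have h1 := hc 0 2 0
    have h2 := hc 1 2 1
    linarith

/-- The kernel form of the mollified second derivatives. -/
theorem mo_pd2 {g : V → ℝ} (hg : SP g) (i k : Fin 3) (t : ℝ) (x : V) :
    mo (pd k (pd i psi)) t g x = t ^ 2 * mo psi t (pd i (pd k g)) x := by
  rw [mo_pd (pd_smooth psi_smooth i) (pd_compact psi_compact i) hg.smooth,
    mo_pd psi_smooth psi_compact (hg.pd k).smooth]
  ring

end Pool.Agent.R210
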