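import Pool.Agent.R210.Prof

/-!
Mollification of smooth periodic functions.
-/

open MeasureTheory Set Filter Topology
open scoped ENNReal ContDiff
open H459R3.NS

namespace Pool.Agent.R210

/-- The mollification of `g` with the kernel `K` at scale `t`. -/
noncomputable def mo (K : V → ℝ) (t : ℝ) (g : V → ℝ) (x : V) : ℝ := ∫ z, K z * g (x - t • z)

theorem fderiv_eq_sum (g : V → ℝ) (y v : V) : fderiv ℝ g y v = ∑ i, v i * pd i g y := by
  conv_lhs => rw [← Finset.univ_sum_single v]
  rw [map_sum]
  refine Finset.sum_congr rfl fun i _ => ?_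
  have : (Pi.single i (v i) : V) = v i • Pi.single i (1 : ℝ) := by
    rw [← Pi.single_smul]; simp
  rw [this, map_smul, smul_eq_mul]
  rfl

theorem mo_int {K g : V → ℝ} (hK : Continuous K) (hc : HasCompactSupport K) (hg : Continuous g)
    (t : ℝ) (x : V) : Integrable fun z => K z * g (x - t • z) :=
  (hK.mul (hg.comp (by fun_prop))).integrable_of_hasCompactSupport hc.mul_right

theorem mo_add {K g h : V → ℝ} (hK : Continuous K) (hc : HasCompactSupport K) (hg : Continuous g)
    (hh : Continuous h) (t : ℝ) (x : V) :
    mo K t (fun y => g y + h y) x = mo K t g x + mo K t h x := by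
  unfold mo
  rw [← integral_add (mo_int hK hc hg t x) (mo_int hK hc hh t x)]
  congr 1; funext z; ring

theorem mo_sub {K g h : V → ℝ} (hK : Continuous K) (hc : HasCompactSupport K) (hg : Continuous g)
    (hh : Continuous h) (t : ℝ) (x : V) :
    mo K t (fun y => g y - h y) x = mo K t g x - mo K t h x := by
  unfold mo
  rw [← integral_sub (mo_int hK hc hg t x) (mo_int hK hc hh t x)]
  congr 1; funext z; ring

/-- Integration by parts in the kernel. -/
theorem mo_pd {K g : V → ℝ} (hK : ContDiff ℝ ∞ K) (hc : HasCompactSupport K) (hg : ContDiff ℝ ∞ g)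
    (i : Fin 3) (t : ℝ) (x : V) : mo (pd i K) t g x = t * mo K t (pd i g) x := by
  have hd : ∀ z, HasFDerivAt (fun z : V => g (x - t • z))
      (-(t • fderiv ℝ g (x - t • z))) z := by
    intro z
    have h1 : HasFDerivAt g (fderiv ℝ g (x - t • z)) (x - t • z) :=
      (hg.differentiable (by norm_num) _).hasFDerivAt
    have h2 : HasFDerivAt (fun z : V => x - t • z) (-(t • ContinuousLinearMap.id ℝ V)) z :=
      ((hasFDerivAt_id z).const_smul t).const_sub x
    refine (h1.comp z h2).congr_fderiv ?_
    ext v
    simp
  have hgs : ContDiff ℝ ∞ (fun z : V => g (x - t • z)) := hg.comp (by fun_prop)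
  have e1 : ∀ z, fderiv ℝ (fun z : V => g (x - t • z)) z (Pi.single i 1)
      = -(t * pd i g (x - t • z)) := by
    intro z
    rw [(hd z).fderiv]
    simp [pd]
  have key := integral_mul_fderiv_eq_neg_fderiv_mul_of_integrable (μ := (volume : Measure V))
    (f := K) (g := fun z : V => g (x - t • z)) (v := Pi.single i 1) ?_ ?_ ?_
    (fun y _ => hK.differentiable (by norm_num) y) (fun y _ => hgs.differentiable (by norm_num) y)
  · simp_rw [e1] at key
    unfold mo
    have e2 : ∫ z, K z * -(t * pd i g (x - t • z)) = -(t * ∫ z, K z * pd i g (x - t • z)) := by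
      rw [← integral_const_mul, ← integral_neg]
      congr 1; funext z; ring
    rw [e2] at key
    have e3 : ∫ z, pd i K z * g (x - t • z) = ∫ z, fderiv ℝ K z (Pi.single i 1) * g (x - t • z) := rfl
    rw [e3]
    linarith
  · exact mo_int (pd_smooth hK i).continuous (pd_compact hc i) hg.continuous t x
  · simp_rw [e1]
    exact (hK.continuous.mul ((((pd_smooth hg i).continuous.comp (by fun_prop)).const_mul t
      |>.neg))).integrable_of_hasCompactSupport hc.mul_right
  · exact mo_int hK.continuous hc hg.continuous t x

/-- A periodic continuous function is bounded. -/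
theorem per_bound {F : Type*} [NormedAddCommGroup F] {g : V → F} (hg : Continuous g) (hp : Per g) :
    ∃ C : ℝ, 0 ≤ C ∧ ∀ x, ‖g x‖ ≤ C := by
  have hcub : IsCompact cube := isCompact_Icc
  obtain ⟨C, hC⟩ := hcub.exists_bound_of_continuousOn hg.continuousOn
  refine ⟨max C 0, le_max_right _ _, fun x => ?_⟩
  have h1 := hp.int (fun i => -⌊x i⌋) x
  have h2 : x + (fun i => ((-⌊x i⌋ : ℤ) : ℝ)) ∈ cube := by
    refine ⟨fun i => ?_, fun i => ?_⟩
    · have := Int.floor_le (x i)
      simp only [Pi.add_apply, Pi.zero_apply]
      push_cast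
      linarith
    · have := Int.lt_floor_add_one (x i)
      simp only [Pi.add_apply, Pi.one_apply]
      push_cast
      linarith
  rw [← h1]
  exact (hC _ h2).trans (le_max_left _ _)

theorem mo_hasDerivAt {g : V → ℝ} (hg : SP g) (t : ℝ) (x : V) :
    HasDerivAt (fun t => mo phi t g x) (-(t * mo psi t (lap g) x)) t := by
  obtain ⟨C, hC0, hC⟩ := per_bound (hg.smooth.continuous_fderiv (by norm_num)) hg.per.fderiv
  have hcont : ∀ t : ℝ, Continuous fun z => phi z * g (x - t • z) := fun t =>
    phi_smooth.continuous.mul (hg.cont.comp (by fun_prop))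
  have key := (hasDerivAt_integral_of_dominated_loc_of_deriv_le (s := univ)
    (F := fun t z => phi z * g (x - t • z))
    (F' := fun t z => phi z * (-(fderiv ℝ g (x - t • z) z)))
    (bound := fun z => |phi z| * (C * ‖z‖)) (μ := (volume : Measure V))
    (x₀ := t) univ_mem ?_ ?_ ?_ ?_ ?_ ?_).2
  · refine key.congr_deriv ?_
    have e1 : ∀ z, phi z * (-(fderiv ℝ g (x - t • z) z))
        = -∑ i, pd i psi z * pd i g (x - t • z) := by
      intro z
      rw [fderiv_eq_sum]
      simp_rw [pd_psi]
      rw [mul_neg, Finset.mul_sum]
      congr 1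
      exact Finset.sum_congr rfl fun i _ => by ring
    simp_rw [e1]
    rw [integral_neg, integral_finsetSum _ fun i _ =>
      mo_int (pd_smooth psi_smooth i).continuous (pd_compact psi_compact i) (hg.pd i).cont t x]
    congr 1
    have e2 : ∀ i, ∫ z, pd i psi z * pd i g (x - t • z) = t * mo psi t (pd i (pd i g)) x :=
      fun i => mo_pd psi_smooth psi_compact (hg.pd i).smooth i t x
    simp_rw [e2]
    rw [← Finset.mul_sum]
    congr 1
    unfold mo lap
    rw [← integral_finsetSum _ fun i _ => mo_int psi_smooth.continuous psi_compact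
      ((hg.pd i).pd i).cont t x]
    congr 1
    funext z
    rw [Finset.mul_sum]
  · exact Filter.Eventually.of_forall fun t => (hcont t).aestronglyMeasurable
  · exact mo_int phi_smooth.continuous phi_compact hg.cont t x
  · refine Continuous.aestronglyMeasurable ?_
    refine phi_smooth.continuous.mul (Continuous.neg ?_)
    exact ((hg.smooth.continuous_fderiv (by norm_num)).comp (by fun_prop)).clm_apply continuous_id
  · refine Filter.Eventually.of_forall fun z s _ => ?_
    rw [norm_mul, norm_neg, Real.norm_eq_abs]
    refine mul_le_mul_of_nonneg_left ?_ (abs_nonneg _)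
    exact ((fderiv ℝ g _).le_opNorm z).trans (mul_le_mul_of_nonneg_right (hC _) (norm_nonneg _))
  · have h1 : Continuous fun z : V => |phi z| * (C * ‖z‖) :=
      phi_smooth.continuous.abs.mul (continuous_const.mul continuous_norm)
    refine h1.integrable_of_hasCompactSupport ?_
    exact (phi_compact.comp_left (g := fun r : ℝ => |r|) (by simp)).mul_right
  · refine Filter.Eventually.of_forall fun z s _ => ?_
    have h1 : HasDerivAt (fun s : ℝ => x - s • z) (-z) s := by
      have := (hasDerivAt_id s).smul_const z
      simpa using this.const_sub x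
    have h2 : HasFDerivAt g (fderiv ℝ g (x - s • z)) (x - s • z) :=
      (hg.smooth.differentiable (by norm_num) _).hasFDerivAt
    have h3 := (h2.comp_hasDerivAt s h1).const_mul (phi z)
    refine h3.congr_deriv ?_
    rw [map_neg]

theorem mo_zero (g : V → ℝ) (x : V) : mo phi 0 g x = g x := by
  unfold mo
  simp_rw [zero_smul, sub_zero]
  rw [integral_mul_const, integral_phi, one_mul]

theorem mo_cont {K g : V → ℝ} (hK : Continuous K) (hc : HasCompactSupport K) (hg : Continuous g)
    (hp : Per g) : Continuous fun p : ℝ × V => mo K p.1 g p.2 := by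
  obtain ⟨C, hC0, hC⟩ := per_bound hg hp
  unfold mo
  refine continuous_of_dominated (bound := fun z => |K z| * C) ?_ ?_ ?_ ?_
  · exact fun p => (hK.mul (hg.comp (by fun_prop))).aestronglyMeasurable
  · refine fun p => Filter.Eventually.of_forall fun z => ?_
    rw [norm_mul, Real.norm_eq_abs]
    exact mul_le_mul_of_nonneg_left (hC _) (abs_nonneg _)
  · have h1 : Continuous fun z : V => |K z| * C := hK.abs.mul continuous_const
    exact h1.integrable_of_hasCompactSupport
      ((hc.comp_left (g := fun r : ℝ => |r|) (by simp)).mul_right)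
  · refine Filter.Eventually.of_forall fun z => ?_
    exact continuous_const.mul (hg.comp (by fun_prop))

/-- The representation of a smooth periodic function by its Laplacian at all scales. -/
theorem mo_repr {g : V → ℝ} (hg : SP g) (T : ℝ) (x : V) :
    g x = mo phi T g x + ∫ t in (0 : ℝ)..T, t * mo psi t (lap g) x := by
  have hc : Continuous fun t => mo psi t (lap g) x :=
    (mo_cont psi_smooth.continuous psi_compact hg.lap.cont hg.lap.per).comp
      (continuous_id.prodMk continuous_const)
  have h1 := intervalIntegral.integral_eq_sub_of_hasDerivAt (a := 0) (b := T)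
    (f := fun t => mo phi t g x) (f' := fun t => -(t * mo psi t (lap g) x))
    (fun t _ => mo_hasDerivAt hg t x)
    ((continuous_id.mul hc).neg.intervalIntegrable _ _)
  rw [intervalIntegral.integral_neg] at h1
  simp only [mo_zero] at h1
  linarith

end Pool.Agent.R210
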