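import Pool.Agent.R210.Moll
import Pool.Agent.R210.Interp

/-!
Mollification of periodic functions in `L²`.
-/

open MeasureTheory Set Filter Topology
open scoped ENNReal ContDiff
open H459R3.NS

namespace Pool.Agent.R210

theorem sq_int_le {φ : ℝ → ℝ} (hφ : Continuous φ) :
    (∫ s in (0 : ℝ)..1, φ s) ^ 2 ≤ ∫ s in (0 : ℝ)..1, φ s ^ 2 := by
  set m := ∫ s in (0 : ℝ)..1, φ s with hm
  have h1 : 0 ≤ ∫ s in (0 : ℝ)..1, (φ s - m) ^ 2 :=
    intervalIntegral.integral_nonneg zero_le_one fun s _ => sq_nonneg _
  have h2 : ∫ s in (0 : ℝ)..1, (φ s - m) ^ 2 = (∫ s in (0 : ℝ)..1, φ s ^ 2) - m ^ 2 := by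
    have e : ∀ s, (φ s - m) ^ 2 = φ s ^ 2 - 2 * m * φ s + m ^ 2 := fun s => by ring
    simp_rw [e]
    have i1 : IntervalIntegrable (fun s => φ s ^ 2) volume 0 1 := (hφ.pow 2).intervalIntegrable _ _
    have i2 : IntervalIntegrable (fun s => 2 * m * φ s) volume 0 1 :=
      (continuous_const.mul hφ).intervalIntegrable _ _
    rw [intervalIntegral.integral_add (i1.sub i2) (by simp), intervalIntegral.integral_sub i1 i2,
      intervalIntegral.integral_const_mul]
    simp only [intervalIntegral.integral_const, sub_zero, one_smul]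
    rw [← hm]; ring
  linarith

theorem per_comp_add {F : Type*} {f : V → F} (hf : Per f) (h : V) : Per fun x => f (x + h) := by
  intro i x
  show f (x + Pi.single i 1 + h) = f (x + h)
  rw [← hf i (x + h)]
  congr 1
  abel

theorem per_comp_sub {F : Type*} {f : V → F} (hf : Per f) (h : V) : Per fun x => f (x - h) := by
  simpa [sub_eq_add_neg] using per_comp_add hf (-h)

theorem sp_shift {g : V → ℝ} (hg : SP g) (h : V) : SP fun x => g (x - h) where
  smooth := hg.smooth.comp (by fun_prop)
  per := per_comp_sub hg.per h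

/-- The square of the length of the gradient. -/
noncomputable def gr2 (g : V → ℝ) (x : V) : ℝ := ∑ i, pd i g x ^ 2

theorem gr2_cont {g : V → ℝ} (hg : SP g) : Continuous (gr2 g) :=
  continuous_finsetSum _ fun i _ => (hg.pd i).cont.pow 2

theorem gr2_per {g : V → ℝ} (hg : SP g) : Per (gr2 g) := by
  intro i x
  unfold gr2
  exact Finset.sum_congr rfl fun j _ => by rw [(hg.pd j).per i x]

theorem gr2_nonneg (g : V → ℝ) (x : V) : 0 ≤ gr2 g x := Finset.sum_nonneg fun i _ => sq_nonneg _

theorem cs3 (a b : V) : (∑ i, a i * b i) ^ 2 ≤ rsq a * rsq b := by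
  unfold rsq
  exact Finset.sum_mul_sq_le_sq_mul_sq Finset.univ a b

/-- The translation estimate. -/
theorem trans_le {g : V → ℝ} (hg : SP g) (h : V) :
    ∫⁻ x in cube, ENNReal.ofReal ((g (x + h) - g x) ^ 2)
      ≤ ENNReal.ofReal (rsq h) * ∫⁻ x in cube, ENNReal.ofReal (gr2 g x) := by
  have hpt : ∀ x, ENNReal.ofReal ((g (x + h) - g x) ^ 2)
      ≤ ∫⁻ s in Ioc (0 : ℝ) 1, ENNReal.ofReal (rsq h) * ENNReal.ofReal (gr2 g (x + s • h)) := by
    intro x
    have hd : ∀ s : ℝ, HasDerivAt (fun s : ℝ => g (x + s • h)) (fderiv ℝ g (x + s • h) h) s := by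
      intro s
      have h1 : HasDerivAt (fun s : ℝ => x + s • h) h s := by
        simpa using ((hasDerivAt_id s).smul_const h).const_add x
      exact ((hg.smooth.differentiable (by norm_num) _).hasFDerivAt).comp_hasDerivAt s h1
    have hc : Continuous fun s : ℝ => fderiv ℝ g (x + s • h) h :=
      ((hg.smooth.continuous_fderiv (by norm_num)).comp (by fun_prop)).clm_apply continuous_const
    have h1 := intervalIntegral.integral_eq_sub_of_hasDerivAt (a := 0) (b := 1)
      (fun s _ => hd s) (hc.intervalIntegrable _ _)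
    simp only [one_smul, zero_smul, add_zero] at h1
    rw [← h1]
    have hcs : Continuous fun s : ℝ => gr2 g (x + s • h) := (gr2_cont hg).comp (by fun_prop)
    have h2 : (∫ s in (0 : ℝ)..1, fderiv ℝ g (x + s • h) h) ^ 2
        ≤ ∫ s in (0 : ℝ)..1, rsq h * gr2 g (x + s • h) := by
      refine (sq_int_le hc).trans ?_
      refine intervalIntegral.integral_mono zero_le_one ((hc.pow 2).intervalIntegrable _ _)
        ((continuous_const.mul hcs).intervalIntegrable _ _) fun s => ?_
      show (fderiv ℝ g (x + s • h) h) ^ 2 ≤ rsq h * gr2 g (x + s • h)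
      rw [fderiv_eq_sum]
      exact cs3 h fun i => pd i g (x + s • h)
    refine (ENNReal.ofReal_le_ofReal h2).trans ?_
    rw [intervalIntegral.integral_of_le zero_le_one, ofReal_integral_eq_lintegral_ofReal]
    · refine lintegral_mono fun s => ?_
      rw [ENNReal.ofReal_mul (rsq_nonneg h)]
    · exact ((continuous_const.mul hcs).integrableOn_Icc (a := 0) (b := 1)).mono_set
        Ioc_subset_Icc_self
    · exact Filter.Eventually.of_forall fun s => mul_nonneg (rsq_nonneg h) (gr2_nonneg _ _)
  have hcont2 : Continuous fun p : V × ℝ =>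
      ENNReal.ofReal (rsq h) * ENNReal.ofReal (gr2 g (p.1 + p.2 • h)) := by
    refine ENNReal.continuous_const_mul ENNReal.ofReal_ne_top |>.comp ?_
    exact ENNReal.continuous_ofReal.comp ((gr2_cont hg).comp (by fun_prop))
  calc ∫⁻ x in cube, ENNReal.ofReal ((g (x + h) - g x) ^ 2)
      ≤ ∫⁻ x in cube, ∫⁻ s in Ioc (0 : ℝ) 1,
          ENNReal.ofReal (rsq h) * ENNReal.ofReal (gr2 g (x + s • h)) := lintegral_mono hpt
    _ = ∫⁻ s in Ioc (0 : ℝ) 1, ∫⁻ x in cube,
          ENNReal.ofReal (rsq h) * ENNReal.ofReal (gr2 g (x + s • h)) :=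
        lintegral_lintegral_swap hcont2.measurable.aemeasurable
    _ = ∫⁻ s in Ioc (0 : ℝ) 1,
          ENNReal.ofReal (rsq h) * ∫⁻ x in cube, ENNReal.ofReal (gr2 g x) := by
        refine lintegral_congr fun s => ?_
        rw [lintegral_const_mul' _ _ ENNReal.ofReal_ne_top]
        congr 1
        exact lint_shift (f := fun x => ENNReal.ofReal (gr2 g x))
          (fun i x => by simp only [gr2_per hg i x]) (s • h)
    _ = ENNReal.ofReal (rsq h) * ∫⁻ x in cube, ENNReal.ofReal (gr2 g x) := by
        rw [lintegral_const]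
        simp

/-- The Euclidean length. -/
noncomputable def en (a : V) : ℝ := Real.sqrt (rsq a)

theorem en_nonneg (a : V) : 0 ≤ en a := Real.sqrt_nonneg _

theorem en_sq (a : V) : en a ^ 2 = rsq a := Real.sq_sqrt (rsq_nonneg a)

theorem en_cont : Continuous en := Real.continuous_sqrt.comp rsq_smooth.continuous

theorem en_sub_sq (a b : V) : (en a - en b) ^ 2 ≤ rsq (a - b) := by
  have h1 : rsq (a - b) = rsq a + rsq b - 2 * ∑ i, a i * b i := by
    unfold rsq
    rw [Finset.mul_sum, ← Finset.sum_add_distrib, ← Finset.sum_sub_distrib]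
    exact Finset.sum_congr rfl fun i _ => by simp; ring
  have h2 : (en a - en b) ^ 2 = rsq a + rsq b - 2 * (en a * en b) := by
    have := en_sq a
    have := en_sq b
    nlinarith
  have h3 : ∑ i, a i * b i ≤ en a * en b := by
    have := cs3 a b
    rw [← en_sq, ← en_sq, ← mul_pow] at this
    exact le_of_sq_le_sq this (mul_nonneg (en_nonneg _) (en_nonneg _)) |>.trans le_rfl
  rw [h1, h2]; linarith

/-- The weighted Jensen inequality. -/
theorem jensen_phi {G : V → ℝ} (hG : Continuous G) :
    (∫ z, phi z * G z) ^ 2 ≤ ∫ z, phi z * G z ^ 2 := by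
  have i1 : Integrable fun z => phi z * G z :=
    (phi_smooth.continuous.mul hG).integrable_of_hasCompactSupport phi_compact.mul_right
  have i2 : Integrable fun z => phi z * G z ^ 2 :=
    (phi_smooth.continuous.mul (hG.pow 2)).integrable_of_hasCompactSupport phi_compact.mul_right
  set m := ∫ z, phi z * G z with hm
  have h1 : 0 ≤ ∫ z, phi z * (G z - m) ^ 2 :=
    integral_nonneg fun z => mul_nonneg (phi_nonneg z) (sq_nonneg _)
  have h2 : ∫ z, phi z * (G z - m) ^ 2 = (∫ z, phi z * G z ^ 2) - m ^ 2 := by
    have e : ∀ z, phi z * (G z - m) ^ 2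
        = phi z * G z ^ 2 - 2 * m * (phi z * G z) + m ^ 2 * phi z := fun z => by ring
    simp_rw [e]
    have i3 : Integrable fun z => 2 * m * (phi z * G z) := i1.const_mul _
    have i4 : Integrable fun z => phi z * G z ^ 2 - 2 * m * (phi z * G z) := i2.sub i3
    have i5 : Integrable fun z => m ^ 2 * phi z := phi_int.const_mul _
    rw [integral_add i4 i5, integral_sub i2 i3, integral_const_mul, integral_const_mul,
      integral_phi, ← hm]
    ring
  linarith

section

variable {w : V → V} (hw : ∀ i, SP (fun x => w x i))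

/-- The sum of the squares of all the derivatives. -/
noncomputable def G2 (w : V → V) (x : V) : ℝ := ∑ i, gr2 (fun y => w y i) x

include hw in
theorem w_cont : Continuous w := continuous_pi fun i => (hw i).cont

include hw in
theorem w_per : Per w := fun i x => funext fun j => (hw j).per i x

include hw in
theorem f_cont : Continuous fun x => en (w x) := en_cont.comp (w_cont hw)

include hw in
theorem f_per : Per fun x => en (w x) := fun i x => by simp only [w_per hw i x]

include hw in
theorem trans_en (h : V) :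
    ∫⁻ x in cube, ENNReal.ofReal ((en (w x) - en (w (x - h))) ^ 2)
      ≤ ENNReal.ofReal (rsq h) * ∫⁻ x in cube, ENNReal.ofReal (G2 w x) := by
  calc ∫⁻ x in cube, ENNReal.ofReal ((en (w x) - en (w (x - h))) ^ 2)
      ≤ ∫⁻ x in cube, ∑ i, ENNReal.ofReal ((w (x + -h) i - w x i) ^ 2) := by
        refine lintegral_mono fun x => ?_
        rw [← ENNReal.ofReal_sum_of_nonneg fun i _ => sq_nonneg _]
        refine ENNReal.ofReal_le_ofReal ((en_sub_sq _ _).trans (le_of_eq ?_))
        unfold rsq
        refine Finset.sum_congr rfl fun i _ => ?_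
        simp only [Pi.sub_apply, sub_eq_add_neg]
        ring
    _ = ∑ i, ∫⁻ x in cube, ENNReal.ofReal ((w (x + -h) i - w x i) ^ 2) := by
        rw [lintegral_finsetSum' _ fun i _ => ?_]
        refine Measurable.aemeasurable (Continuous.measurable ?_)
        exact ENNReal.continuous_ofReal.comp
          ((((hw i).cont.comp (by fun_prop)).sub (hw i).cont).pow 2)
    _ ≤ ∑ i, ENNReal.ofReal (rsq (-h)) * ∫⁻ x in cube, ENNReal.ofReal (gr2 (fun y => w y i) x) :=
        Finset.sum_le_sum fun i _ => trans_le (hw i) (-h)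
    _ = ENNReal.ofReal (rsq h) * ∫⁻ x in cube, ENNReal.ofReal (G2 w x) := by
        rw [← Finset.mul_sum, rsq_neg]
        congr 1
        have e1 : ∀ x, ENNReal.ofReal (G2 w x)
            = ∑ i, ENNReal.ofReal (gr2 (fun y => w y i) x) := fun x => by
          unfold G2
          rw [ENNReal.ofReal_sum_of_nonneg fun i _ => gr2_nonneg _ _]
        simp_rw [e1]
        have e2 := lintegral_finsetSum' (μ := volume.restrict cube) Finset.univ
          (f := fun i x => ENNReal.ofReal (gr2 (fun y => w y i) x))
          fun i _ => (ENNReal.continuous_ofReal.comp (gr2_cont (hw i))).measurable.aemeasurable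
        exact e2.symm

include hw in
/-- The `L²` error of the mollification. -/
theorem mo_err (t : ℝ) :
    ∫⁻ x in cube, ENNReal.ofReal ((en (w x) - mo phi t (fun y => en (w y)) x) ^ 2)
      ≤ ENNReal.ofReal (t ^ 2) * ∫⁻ x in cube, ENNReal.ofReal (G2 w x) := by
  have hf := f_cont hw
  have hpt : ∀ x, ENNReal.ofReal ((en (w x) - mo phi t (fun y => en (w y)) x) ^ 2)
      ≤ ∫⁻ z, ENNReal.ofReal (phi z) * ENNReal.ofReal ((en (w x) - en (w (x - t • z))) ^ 2) := by
    intro x
    have hc : Continuous fun z : V => en (w x) - en (w (x - t • z)) :=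
      continuous_const.sub (hf.comp (by fun_prop))
    have e1 : en (w x) - mo phi t (fun y => en (w y)) x
        = ∫ z, phi z * (en (w x) - en (w (x - t • z))) := by
      unfold mo
      simp_rw [mul_sub]
      rw [integral_sub (phi_int.mul_const _) (mo_int phi_smooth.continuous phi_compact hf t x),
        integral_mul_const, integral_phi, one_mul]
    rw [e1]
    refine (ENNReal.ofReal_le_ofReal (jensen_phi hc)).trans ?_
    rw [ofReal_integral_eq_lintegral_ofReal]
    · refine lintegral_mono fun z => ?_
      rw [ENNReal.ofReal_mul (phi_nonneg z)]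
    · exact (phi_smooth.continuous.mul (hc.pow 2)).integrable_of_hasCompactSupport
        phi_compact.mul_right
    · exact Filter.Eventually.of_forall fun z => mul_nonneg (phi_nonneg z) (sq_nonneg _)
  have hcont2 : Continuous fun p : V × V =>
      ENNReal.ofReal (phi p.2) * ENNReal.ofReal ((en (w p.1) - en (w (p.1 - t • p.2))) ^ 2) := by
    have : (fun p : V × V => ENNReal.ofReal (phi p.2)
        * ENNReal.ofReal ((en (w p.1) - en (w (p.1 - t • p.2))) ^ 2))
        = fun p : V × V => ENNReal.ofReal (phi p.2
          * (en (w p.1) - en (w (p.1 - t • p.2))) ^ 2) := by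
      funext p
      rw [ENNReal.ofReal_mul (phi_nonneg _)]
    rw [this]
    exact ENNReal.continuous_ofReal.comp ((phi_smooth.continuous.comp continuous_snd).mul
      (((hf.comp continuous_fst).sub (hf.comp (by fun_prop))).pow 2))
  set I := ∫⁻ x in cube, ENNReal.ofReal (G2 w x) with hI
  calc ∫⁻ x in cube, ENNReal.ofReal ((en (w x) - mo phi t (fun y => en (w y)) x) ^ 2)
      ≤ ∫⁻ x in cube, ∫⁻ z, ENNReal.ofReal (phi z)
          * ENNReal.ofReal ((en (w x) - en (w (x - t • z))) ^ 2) := lintegral_mono hpt
    _ = ∫⁻ z, ∫⁻ x in cube, ENNReal.ofReal (phi z)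
          * ENNReal.ofReal ((en (w x) - en (w (x - t • z))) ^ 2) :=
        lintegral_lintegral_swap hcont2.measurable.aemeasurable
    _ ≤ ∫⁻ z, ENNReal.ofReal (phi z) * (ENNReal.ofReal (t ^ 2) * I) := by
        refine lintegral_mono fun z => ?_
        rw [lintegral_const_mul' _ _ ENNReal.ofReal_ne_top]
        by_cases hz : 1 ≤ rsq z
        · rw [phi_zero hz]; simp
        · refine mul_le_mul_right ((trans_en hw (t • z)).trans ?_) _
          refine mul_le_mul_left (ENNReal.ofReal_le_ofReal ?_) _
          rw [rsq_smul]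
          nlinarith [sq_nonneg t, not_le.1 hz]
    _ = ENNReal.ofReal (t ^ 2) * I := by
        rw [lintegral_mul_const' _ _ ?_]
        · rw [← ofReal_integral_eq_lintegral_ofReal phi_int
            (Filter.Eventually.of_forall phi_nonneg), integral_phi]
          simp
        · refine ENNReal.mul_ne_top ENNReal.ofReal_ne_top ?_
          rw [hI]
          have hc : Continuous (G2 w) := continuous_finsetSum _ fun i _ => gr2_cont (hw i)
          have hi : IntegrableOn (G2 w) cube := integrableOn_cube hc
          rw [← ofReal_integral_eq_lintegral_ofReal hi (Filter.Eventually.of_forall fun x =>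
            Finset.sum_nonneg fun i _ => gr2_nonneg _ _)]
          exact ENNReal.ofReal_ne_top

include hw in
/-- The mollification does not increase the `L²` norm. -/
theorem mo_L2 (t : ℝ) :
    ∫⁻ x in cube, ENNReal.ofReal ((mo phi t (fun y => en (w y)) x) ^ 2)
      ≤ ∫⁻ x in cube, ENNReal.ofReal (rsq (w x)) := by
  have hf := f_cont hw
  have hpt : ∀ x, ENNReal.ofReal ((mo phi t (fun y => en (w y)) x) ^ 2)
      ≤ ∫⁻ z, ENNReal.ofReal (phi z) * ENNReal.ofReal (rsq (w (x - t • z))) := by
    intro x
    have hc : Continuous fun z : V => en (w (x - t • z)) := hf.comp (by fun_prop)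
    unfold mo
    refine (ENNReal.ofReal_le_ofReal (jensen_phi hc)).trans ?_
    rw [ofReal_integral_eq_lintegral_ofReal]
    · refine lintegral_mono fun z => ?_
      rw [ENNReal.ofReal_mul (phi_nonneg z), en_sq]
    · exact (phi_smooth.continuous.mul (hc.pow 2)).integrable_of_hasCompactSupport
        phi_compact.mul_right
    · exact Filter.Eventually.of_forall fun z => mul_nonneg (phi_nonneg z) (sq_nonneg _)
  have hcont2 : Continuous fun p : V × V =>
      ENNReal.ofReal (phi p.2) * ENNReal.ofReal (rsq (w (p.1 - t • p.2))) := by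
    have : (fun p : V × V => ENNReal.ofReal (phi p.2) * ENNReal.ofReal (rsq (w (p.1 - t • p.2))))
        = fun p : V × V => ENNReal.ofReal (phi p.2 * rsq (w (p.1 - t • p.2))) := by
      funext p
      rw [ENNReal.ofReal_mul (phi_nonneg _)]
    rw [this]
    exact ENNReal.continuous_ofReal.comp ((phi_smooth.continuous.comp continuous_snd).mul
      (rsq_smooth.continuous.comp ((w_cont hw).comp (by fun_prop))))
  calc ∫⁻ x in cube, ENNReal.ofReal ((mo phi t (fun y => en (w y)) x) ^ 2)
      ≤ ∫⁻ x in cube, ∫⁻ z, ENNReal.ofReal (phi z) * ENNReal.ofReal (rsq (w (x - t • z))) :=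
        lintegral_mono hpt
    _ = ∫⁻ z, ∫⁻ x in cube, ENNReal.ofReal (phi z) * ENNReal.ofReal (rsq (w (x - t • z))) :=
        lintegral_lintegral_swap hcont2.measurable.aemeasurable
    _ = ∫⁻ z, ENNReal.ofReal (phi z) * ∫⁻ x in cube, ENNReal.ofReal (rsq (w x)) := by
        refine lintegral_congr fun z => ?_
        rw [lintegral_const_mul' _ _ ENNReal.ofReal_ne_top]
        congr 1
        have := lint_shift (f := fun x => ENNReal.ofReal (rsq (w x)))
          (fun i x => by simp only [w_per hw i x]) (-(t • z))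
        simpa [sub_eq_add_neg] using this
    _ = ∫⁻ x in cube, ENNReal.ofReal (rsq (w x)) := by
        rw [lintegral_mul_const' _ _ ?_]
        · rw [← ofReal_integral_eq_lintegral_ofReal phi_int
            (Filter.Eventually.of_forall phi_nonneg), integral_phi]
          simp
        · have hi : IntegrableOn (fun x => rsq (w x)) cube :=
            integrableOn_cube (rsq_smooth.continuous.comp (w_cont hw))
          rw [← ofReal_integral_eq_lintegral_ofReal hi (Filter.Eventually.of_forall fun x =>
            rsq_nonneg _)]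
          exact ENNReal.ofReal_ne_top

end

end Pool.Agent.R210
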