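import Pool.Agent.R210.M3

/-!
The local monotonicity formula and the local Morrey bound.
-/

open MeasureTheory Set Metric Filter Topology
open scoped ContDiff RealInnerProductSpace

namespace Pool.Agent.R210

/-- In every ball of radius at most `R` in `U` there is a direction in which the density `f` is
nearly invariant. -/
def LStr (f : E → ℝ) (c β K R : ℝ) (U : Set E) : Prop :=
  ∀ (x : E) (ρ : ℝ), 0 < ρ → ρ ≤ R → ball x ρ ⊆ U → ∃ e : E, ‖e‖ = 1 ∧
    ∀ (ψ : E → ℝ) (L : ℝ), ContDiff ℝ ∞ ψ → HasCompactSupport ψ → tsupport ψ ⊆ ball x ρ →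
      (∀ y, ‖fderiv ℝ ψ y‖ ≤ L) →
      |∫ y, f y * fderiv ℝ ψ y e| ≤ L * (c * ρ ^ β * (∫ y in ball x ρ, f y) + K * ρ ^ 3)

/-- Finitely many translates of the weight cover the unit ball. -/
theorem exists_cover3 : ∃ t : Finset E, (∀ z ∈ t, ‖z‖ ≤ 1) ∧ ∀ u : E, ‖u‖ ≤ 1 →
    hh (1 / 4) ≤ ∑ z ∈ t, ze 1 (u - z) := by
  obtain ⟨t, ht, hcov⟩ := (isCompact_closedBall (0 : E) 1).finite_cover_balls
    (e := 1 / 2) (by norm_num)
  refine ⟨hcov.1.toFinset, fun z hz => ?_, fun u hu => ?_⟩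
  · have := ht (hcov.1.mem_toFinset.1 hz)
    rwa [mem_closedBall_zero_iff] at this
  · have := hcov.2
    have h1 : u ∈ ⋃ x ∈ t, ball x (1 / 2) := this (by rw [mem_closedBall_zero_iff]; exact hu)
    simp only [mem_iUnion, mem_ball] at h1
    obtain ⟨x, hx, hux⟩ := h1
    have h2 : hh (1 / 4) ≤ ze 1 (u - x) := ze_ge one_pos (by rw [← dist_eq_norm]; exact hux.le)
    exact h2.trans (Finset.single_le_sum (f := fun z => ze 1 (u - z)) (fun z _ => ze_nonneg _ _)
          (hcov.1.mem_toFinset.2 hx))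

/-- The centres of the covering. -/
noncomputable def t3 : Finset E := exists_cover3.choose

theorem t3_le {z : E} (hz : z ∈ t3) : ‖z‖ ≤ 1 := exists_cover3.choose_spec.1 z hz

theorem t3_cover (u : E) (hu : ‖u‖ ≤ 1) : hh (1 / 4) ≤ ∑ z ∈ t3, ze 1 (u - z) :=
  exists_cover3.choose_spec.2 u hu

theorem ze_cover3 {ρ : ℝ} (hρ : 0 < ρ) (u : E) (hu : ‖u‖ ≤ ρ) :
    hh (1 / 4) ≤ ∑ z ∈ t3, ze ρ (u - ρ • z) := by
  have h := t3_cover (ρ⁻¹ • u) (by rw [norm_inv_smul hρ, div_le_one hρ]; exact hu)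
  refine h.trans (le_of_eq (Finset.sum_congr rfl fun z _ => ?_))
  unfold ze
  congr 1
  have e1 : u - ρ • z = ρ • (ρ⁻¹ • u - z) := by
    rw [smul_sub, smul_smul, mul_inv_cancel₀ hρ.ne', one_smul]
  rw [e1, norm_smul, Real.norm_eq_abs, abs_of_pos hρ]
  field_simp

/-- The covering constant. -/
noncomputable def C3 : ℝ := (t3.card + 1) / hh (1 / 4)

theorem C3_pos : 0 < C3 := by
  have : 0 < hh (1 / 4) := hh_pos (by norm_num)
  unfold C3
  positivity

section

variable {f : E → ℝ} (hf : Continuous f) (hf0 : ∀ y, 0 ≤ f y)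

include hf hf0 in
/-- The integral over a ball is at most a sum of weighted integrals. -/
theorem ball_le_Mz3 {ρ A : ℝ} (hρ : 0 < ρ) {x : E} (hA : ∀ y ∈ closedBall x ρ, Mz f ρ y ≤ A) :
    ∫ y in ball x ρ, f y ≤ C3 * A := by
  have hh0 : 0 < hh (1 / 4) := hh_pos (by norm_num)
  have hA0 : 0 ≤ A := (Mz_nonneg hf0 ρ x).trans (hA x (mem_closedBall_self hρ.le))
  have h1 : hh (1 / 4) * ∫ y in ball x ρ, f y ≤ ∑ z ∈ t3, Mz f ρ (x + ρ • z) := by
    rw [← integral_const_mul]
    unfold Mz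
    rw [← integral_finsetSum _ fun z _ => Mz_int hf hρ _, ← integral_indicator measurableSet_ball]
    have hi : IntegrableOn (fun y => hh (1 / 4) * f y) (ball x ρ) :=
      (intOn_ball hf x ρ).const_mul _
    refine integral_mono (hi.integrable_indicator measurableSet_ball)
      (integrable_finsetSum _ fun z _ => Mz_int hf hρ _) fun y => ?_
    simp only [indicator]
    split_ifs with h
    · rw [← Finset.sum_mul]
      have h1 := ze_cover3 hρ (y - x) (by
        rw [mem_ball, dist_eq_norm] at h; exact h.le)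
      have h2 : ∑ z ∈ t3, ze ρ (y - (x + ρ • z)) = ∑ z ∈ t3, ze ρ (y - x - ρ • z) :=
        Finset.sum_congr rfl fun z _ => by rw [sub_sub]
      rw [h2]
      exact mul_le_mul_of_nonneg_right h1 (hf0 y)
    · exact Finset.sum_nonneg fun z _ => mul_nonneg (ze_nonneg _ _) (hf0 _)
  have h2 : ∑ z ∈ t3, Mz f ρ (x + ρ • z) ≤ (t3.card + 1) * A := by
    refine (Finset.sum_le_sum fun z hz => hA _ ?_).trans ?_
    · rw [mem_closedBall, dist_eq_norm, add_sub_cancel_left, norm_smul, Real.norm_eq_abs,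
        abs_of_pos hρ]
      exact mul_le_of_le_one_right hρ.le (t3_le hz)
    · rw [Finset.sum_const, nsmul_eq_mul]
      nlinarith
  unfold C3
  rw [div_mul_eq_mul_div, le_div_iff₀ hh0]
  linarith

include hf hf0 in
/-- The local monotonicity formula. -/
theorem LStr.step {c β K R : ℝ} {U : Set E} (h : LStr f c β K R U) (hc : 0 ≤ c) (hK : 0 ≤ K)
    {ρ : ℝ} (hρ : 0 < ρ) (h2 : 2 * ρ ≤ R) {x : E} (hx : ball x (2 * ρ) ⊆ U) :
    Mz f ρ x / ρ ≤ Mz f (2 * ρ) x / (2 * ρ)
      + (1 + 2 * HB) * (c * (2 * ρ) ^ β * (∫ y in ball x (2 * ρ), f y) + K * (2 * ρ) ^ 3) / ρ := by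
  obtain ⟨e, he, hψ⟩ := h x (2 * ρ) (by linarith) h2 hx
  set Q : ℝ := c * (2 * ρ) ^ β * (∫ y in ball x (2 * ρ), f y) + K * (2 * ρ) ^ 3 with hQ
  have hQ0 : 0 ≤ Q := by
    have h3 : 0 ≤ ∫ y in ball x (2 * ρ), f y := integral_nonneg fun y => hf0 y
    have := Real.rpow_nonneg (by linarith : 0 ≤ 2 * ρ) β
    positivity
  have hB := one_le_HB
  have hder : ∀ s : ℝ, 0 < s → HasDerivAt (fun s => Mz f s x / s)
      (((∫ y, deriv hh (‖y - x‖ ^ 2 / s ^ 2) * (-(2 * ‖y - x‖ ^ 2) / s ^ 3) * f y) * s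
        - Mz f s x * 1) / s ^ 2) s := fun s hs =>
    (Mz_hasDerivAt hf hs x).div (hasDerivAt_id s) hs.ne'
  have key : ∀ s ∈ Ioo ρ (2 * ρ), -((1 + 2 * HB) * Q / ρ ^ 2)
      ≤ ((∫ y, deriv hh (‖y - x‖ ^ 2 / s ^ 2) * (-(2 * ‖y - x‖ ^ 2) / s ^ 3) * f y) * s
        - Mz f s x * 1) / s ^ 2 := by
    intro s hs
    have hs0 : 0 < s := hρ.trans hs.1
    have h3 := hψ (tf s x e) (1 + 2 * HB) (tf_smooth s x e) (tf_compact hs0 x e)
      ((tf_tsupp hs0 x e).trans (closedBall_subset_ball hs.2)) (tf_fderiv_le hs0 x he)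
    -- integrability
    have i1 : Integrable fun y =>
        deriv hh (‖y - x‖ ^ 2 / s ^ 2) * (-(2 * ‖y - x‖ ^ 2) / s ^ 3) * f y := by
      refine supp_int ?_ (x := x) (s := s) fun y hy => ?_
      · refine Continuous.mul (Continuous.mul ?_ ?_) hf
        · exact dhh_cont.comp (by fun_prop)
        · fun_prop
      · rw [dhh_zero, zero_mul, zero_mul]
        refine ze_arg hs0 ?_
        rw [mem_closedBall, dist_eq_norm, not_le] at hy
        exact hy.le
    have i2 : Integrable fun y => ze s (y - x) * f y := Mz_int hf hs0 x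
    have i3 : Integrable fun y => f y * fderiv ℝ (tf s x e) y e := by
      refine supp_int ?_ (x := x) (s := s) fun y hy => ?_
      · exact hf.mul (((tf_smooth s x e).continuous_fderiv (by norm_num)).clm_apply
          continuous_const)
      · have h4 : y ∉ tsupport (tf s x e) := fun h' => hy (tf_tsupp hs0 x e h')
        have h5 : fderiv ℝ (tf s x e) y = 0 :=
          image_eq_zero_of_notMem_tsupport (fun h' => h4 (tsupport_fderiv_subset ℝ h'))
        rw [h5]; simp
    have h4 : -∫ y, f y * fderiv ℝ (tf s x e) y e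
        ≤ (∫ y, deriv hh (‖y - x‖ ^ 2 / s ^ 2) * (-(2 * ‖y - x‖ ^ 2) / s ^ 3) * f y) * s
          - Mz f s x := by
      unfold Mz
      rw [← integral_mul_const, ← integral_sub (i1.mul_const s) i2, ← integral_neg]
      refine integral_mono i3.neg ((i1.mul_const s).sub i2) fun y => ?_
      simp only
      rw [tf_fderiv, real_inner_self_eq_norm_sq, he]
      set z := y - x with hz
      set d := deriv hh (‖z‖ ^ 2 / s ^ 2) with hd
      have hd0 : d ≤ 0 := dhh_nonpos _
      have h5 : ⟪e, z⟫ ^ 2 ≤ ‖z‖ ^ 2 := by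
        have h6 := abs_real_inner_le_norm e z
        rw [he, one_mul] at h6
        rw [← sq_abs]
        exact pow_le_pow_left₀ (abs_nonneg _) h6 2
      have h6 : ⟪z, e⟫ = ⟪e, z⟫ := real_inner_comm _ _
      rw [h6]
      have h7 : (d * (-(2 * ‖z‖ ^ 2) / s ^ 3) * f y * s - ze s z * f y)
          - -(f y * (1 ^ 2 * ze s z + ⟪e, z⟫ * (d * (2 * ⟪e, z⟫ / s ^ 2))))
          = (-d) * f y * (2 * (‖z‖ ^ 2 - ⟪e, z⟫ ^ 2) / s ^ 2) := by
        field_simp
        ring
      have h8 : 0 ≤ (-d) * f y * (2 * (‖z‖ ^ 2 - ⟪e, z⟫ ^ 2) / s ^ 2) := by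
        refine mul_nonneg (mul_nonneg (by linarith) (hf0 y)) ?_
        refine div_nonneg (by linarith) (by positivity)
      linarith
    have h5 := (abs_le.1 h3).2
    have h6 : -((1 + 2 * HB) * Q) ≤ (∫ y, deriv hh (‖y - x‖ ^ 2 / s ^ 2)
        * (-(2 * ‖y - x‖ ^ 2) / s ^ 3) * f y) * s - Mz f s x * 1 := by
      rw [mul_one]; linarith
    rw [le_div_iff₀ (by positivity)]
    refine le_trans ?_ h6
    rw [neg_mul, neg_le_neg_iff]
    have h7 : ρ ^ 2 ≤ s ^ 2 := pow_le_pow_left₀ hρ.le hs.1.le 2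
    have h8 : 0 ≤ (1 + 2 * HB) * Q := by positivity
    rw [div_mul_eq_mul_div, le_div_iff₀ (by positivity)]
    exact mul_le_mul_of_nonneg_left h7 h8
  have hmv := (convex_Icc ρ (2 * ρ)).mul_sub_le_image_sub_of_le_deriv
    (f := fun s => Mz f s x / s) (C := -((1 + 2 * HB) * Q / ρ ^ 2))
    (fun s hs => (hder s (hρ.trans_le hs.1)).continuousAt.continuousWithinAt)
    (fun s hs => (hder s (hρ.trans_le (interior_subset hs).1)).differentiableAt.differentiableWithinAt)
    (fun s hs => by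
      rw [interior_Icc] at hs
      rw [(hder s (hρ.trans hs.1)).deriv]
      exact key s hs)
    ρ ⟨le_rfl, by linarith⟩ (2 * ρ) ⟨by linarith, le_rfl⟩ (by linarith)
  have h9 : -((1 + 2 * HB) * Q / ρ ^ 2) * (2 * ρ - ρ) = -((1 + 2 * HB) * Q / ρ) := by
    field_simp
    ring
  rw [h9] at hmv
  linarith

include hf hf0 in
/-- The local Morrey bound. -/
theorem LStr.morrey {c β K R W : ℝ} {U : Set E} (h : LStr f c β K R U) (hβ0 : 0 < β)
    (hβ1 : β ≤ 1) (hc : 0 ≤ c) (hK : 0 ≤ K) (hR : 0 < R)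
    (ha : 2 * (1 + 2 * HB) * C3 * (c * R ^ β) ≤ (1 - 2⁻¹ ^ β) / 4) (hW0 : 0 ≤ W)
    (hW : ∀ x, closedBall x R ⊆ U → ∫ y in ball x R, f y ≤ W) {ρ : ℝ} (hρ : 0 < ρ) (hρR : ρ ≤ R)
    {x : E} (hx : closedBall x (3 * R) ⊆ U) :
    ∫ y in ball x ρ, f y
      ≤ 4 * C3 * (W / R + 4 * (1 + 2 * HB) * K * R ^ 2 / (1 - 2⁻¹ ^ β)) * ρ := by
  have hB := one_le_HB
  have hCN := C3_pos
  set L : ℝ := 1 + 2 * HB with hL
  have hL0 : 0 < L := by linarith
  set q : ℝ := 2⁻¹ ^ β with hq
  have hq0 : 0 < q := by positivity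
  have hq1 : q < 1 := Real.rpow_lt_one (by norm_num) (by norm_num) hβ0
  have hq2 : 2⁻¹ ≤ q := by
    calc (2⁻¹ : ℝ) = 2⁻¹ ^ (1 : ℝ) := (Real.rpow_one _).symm
      _ ≤ 2⁻¹ ^ β := Real.rpow_le_rpow_of_exponent_ge (by norm_num) (by norm_num) hβ1
  set Γ : ℝ := W / R + 4 * L * K * R ^ 2 / (1 - q) with hΓ
  have h1q : 0 < 1 - q := by linarith
  have hΓ0 : 0 ≤ Γ := by positivity
  have hΓb : 2 * L * K * R ^ 2 ≤ Γ * (1 - q) / 2 := by
    have h1 : 4 * L * K * R ^ 2 / (1 - q) ≤ Γ := by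
      rw [hΓ]
      have : 0 ≤ W / R := by positivity
      linarith
    rw [div_le_iff₀ h1q] at h1
    linarith
  set r : ℕ → ℝ := fun k => R * 2⁻¹ ^ k with hr
  have hr0 : ∀ k, 0 < r k := fun k => by simp only [hr]; positivity
  have hrR : ∀ k, r k ≤ R := fun k => by
    simp only [hr]
    exact mul_le_of_le_one_right hR.le (pow_le_one₀ (by norm_num) (by norm_num))
  have hr2 : ∀ k, 2 * r (k + 1) = r k := fun k => by
    simp only [hr]
    rw [pow_succ]; ring
  have hrβ : ∀ k, r k ^ β = R ^ β * q ^ k := fun k => by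
    simp only [hr]
    rw [Real.mul_rpow hR.le (by positivity), hq, ← Real.rpow_natCast, ← Real.rpow_natCast,
      ← Real.rpow_mul (by norm_num), ← Real.rpow_mul (by norm_num)]
    congr 2; ring
  have hmain : ∀ k : ℕ, ∀ x, closedBall x (3 * R - 2 * r k) ⊆ U →
      Mz f (r k) x ≤ Γ * (2 - q ^ k) * r k := by
    intro k
    induction k with
    | zero =>
      intro x hx
      have e0 : r 0 = R := by simp [hr]
      rw [e0] at hx
      rw [e0, pow_zero]
      have e1 : 3 * R - 2 * R = R := by ring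
      rw [e1] at hx
      refine (Mz_le hf hf0 hR x).trans ((hW x hx).trans ?_)
      have h1 : W = W / R * R := by field_simp
      have h2 : W / R ≤ Γ := by
        rw [hΓ]
        have : 0 ≤ 4 * L * K * R ^ 2 / (1 - q) := by positivity
        linarith
      calc W = W / R * R := h1
        _ ≤ Γ * R := mul_le_mul_of_nonneg_right h2 hR.le
        _ = Γ * (2 - 1) * R := by ring
    | succ k ih =>
      intro x hx
      rw [hr2] at hx
      have hRk := hrR k
      have hball : ball x (r k) ⊆ U := by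
        refine (ball_subset_closedBall.trans (closedBall_subset_closedBall ?_)).trans hx
        linarith
      have hcen : ∀ y ∈ closedBall x (r k), Mz f (r k) y ≤ Γ * (2 - q ^ k) * r k := by
        intro y hy
        refine ih y ((closedBall_subset_closedBall' ?_).trans hx)
        rw [mem_closedBall] at hy
        linarith
      have h1 := h.step hf hf0 hc hK (hr0 (k + 1)) (by rw [hr2]; exact hrR k)
        (by rw [hr2]; exact hball)
      rw [hr2, ← hL] at h1
      set A := Γ * (2 - q ^ k) with hA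
      have hqk : q ^ k ≤ 1 := pow_le_one₀ hq0.le hq1.le
      have hqk0 : 0 < q ^ k := by positivity
      have hA0 : 0 ≤ A := mul_nonneg hΓ0 (by linarith)
      have hA2 : A ≤ 2 * Γ := by
        rw [hA]
        nlinarith
      have h2 : Mz f (r k) x / r k ≤ A := by
        rw [div_le_iff₀ (hr0 k)]
        exact hcen x (mem_closedBall_self (hr0 k).le)
      have h3 : ∫ y in ball x (r k), f y ≤ C3 * (A * r k) := ball_le_Mz3 hf hf0 (hr0 k) hcen
      have h4 : L * (c * r k ^ β * (∫ y in ball x (r k), f y) + K * r k ^ 3) / r (k + 1)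
          ≤ 2 * L * (c * r k ^ β * (C3 * A) + K * r k ^ 2) := by
        rw [div_le_iff₀ (hr0 _)]
        have e1 : 2 * L * (c * r k ^ β * (C3 * A) + K * r k ^ 2) * r (k + 1)
            = L * (c * r k ^ β * (C3 * (A * r k)) + K * r k ^ 3) := by
          have := hr2 k
          calc 2 * L * (c * r k ^ β * (C3 * A) + K * r k ^ 2) * r (k + 1)
              = L * (c * r k ^ β * (C3 * A) + K * r k ^ 2) * (2 * r (k + 1)) := by ring
            _ = _ := by rw [this]; ring
        rw [e1]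
        refine mul_le_mul_of_nonneg_left ?_ hL0.le
        have : 0 ≤ c * r k ^ β := mul_nonneg hc (Real.rpow_nonneg (hr0 k).le _)
        have := mul_le_mul_of_nonneg_left h3 this
        linarith
      have h5 : 2 * L * (c * r k ^ β * (C3 * A)) ≤ (1 - q) / 4 * q ^ k * A := by
        rw [hrβ]
        calc 2 * L * (c * (R ^ β * q ^ k) * (C3 * A))
            = (2 * L * C3 * (c * R ^ β)) * (q ^ k * A) := by ring
          _ ≤ (1 - q) / 4 * (q ^ k * A) := mul_le_mul_of_nonneg_right ha (by positivity)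
          _ = _ := by ring
      have h6 : r k ^ 2 ≤ R ^ 2 * q ^ k := by
        simp only [hr]
        rw [mul_pow]
        refine mul_le_mul_of_nonneg_left ?_ (by positivity)
        have e2 : ((2⁻¹ : ℝ) ^ k) ^ 2 = (4⁻¹ : ℝ) ^ k := by
          rw [← pow_mul, mul_comm, pow_mul]; norm_num
        rw [e2]
        refine pow_le_pow_left₀ (by norm_num) ?_ k
        refine le_trans ?_ hq2
        norm_num
      have h7 : 2 * L * (K * r k ^ 2) ≤ Γ * (1 - q) / 2 * q ^ k := by
        calc 2 * L * (K * r k ^ 2) ≤ 2 * L * (K * (R ^ 2 * q ^ k)) := by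
              refine mul_le_mul_of_nonneg_left (mul_le_mul_of_nonneg_left h6 hK) (by positivity)
          _ = (2 * L * K * R ^ 2) * q ^ k := by ring
          _ ≤ Γ * (1 - q) / 2 * q ^ k := mul_le_mul_of_nonneg_right hΓb hqk0.le
      have h8 : (1 - q) / 4 * q ^ k * A ≤ (1 - q) / 4 * q ^ k * (2 * Γ) :=
        mul_le_mul_of_nonneg_left hA2 (by positivity)
      have h9 : Mz f (r (k + 1)) x / r (k + 1) ≤ Γ * (2 - q ^ (k + 1)) := by
        have e3 : Γ * (2 - q ^ (k + 1)) = A + (1 - q) / 4 * q ^ k * (2 * Γ)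
            + Γ * (1 - q) / 2 * q ^ k := by
          rw [hA, pow_succ]; ring
        rw [e3]
        have e4 : 2 * L * (c * r k ^ β * (C3 * A) + K * r k ^ 2)
            = 2 * L * (c * r k ^ β * (C3 * A)) + 2 * L * (K * r k ^ 2) := by ring
        rw [e4] at h4
        linarith
      rwa [div_le_iff₀ (hr0 _)] at h9
  -- the scale
  obtain ⟨k, hk1, hk2⟩ : ∃ k : ℕ, r (k + 1) < ρ ∧ ρ ≤ r k := by
    have h1 : 0 < ρ / R := by positivity
    have h2 : ρ / R ≤ 1 := by rwa [div_le_one hR]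
    obtain ⟨k, hk1, hk2⟩ := exists_nat_pow_near_of_lt_one h1 h2
      (y := (2⁻¹ : ℝ)) (by norm_num) (by norm_num)
    refine ⟨k, ?_, ?_⟩
    · simp only [hr]
      rw [lt_div_iff₀ hR] at hk1
      linarith
    · simp only [hr]
      rw [div_le_iff₀ hR] at hk2
      linarith
  have h1 : ∫ y in ball x (r k), f y ≤ C3 * (Γ * 2 * r k) := by
    refine ball_le_Mz3 hf hf0 (hr0 k) fun y hy => (hmain k y ?_).trans ?_
    · refine (closedBall_subset_closedBall' ?_).trans hx
      rw [mem_closedBall] at hy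
      have := hr0 k
      linarith
    · exact mul_le_mul_of_nonneg_right
        (mul_le_mul_of_nonneg_left (by have := pow_pos hq0 k; linarith : 2 - q ^ k ≤ 2) hΓ0)
        (hr0 k).le
  have h2 : ∫ y in ball x ρ, f y ≤ ∫ y in ball x (r k), f y :=
    setIntegral_mono_set (intOn_ball hf x _) (Filter.Eventually.of_forall hf0)
      (ball_subset_ball hk2).eventuallyLE
  have h3 : r k ≤ 2 * ρ := by
    have := hr2 k
    linarith
  calc ∫ y in ball x ρ, f y ≤ C3 * (Γ * 2 * r k) := h2.trans h1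
    _ = 2 * C3 * Γ * r k := by ring
    _ ≤ 2 * C3 * Γ * (2 * ρ) := mul_le_mul_of_nonneg_left h3 (by positivity)
    _ = 4 * C3 * Γ * ρ := by ring

end

/-- The integrated divergence, local version. -/
theorem int_dv_zero' {w : E → E} (hw : ContDiff ℝ 1 w) {U : Set E} (hdiv : ∀ y ∈ U, dvE w y = 0)
    {ψ : E → ℝ} (hψ : ContDiff ℝ ∞ ψ) (hc : HasCompactSupport ψ) (hs : tsupport ψ ⊆ U) :
    ∫ y, fderiv ℝ ψ y (w y) = 0 := by
  have hwi : ∀ i, ContDiff ℝ 1 fun y => w y i := fun i =>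
    (EuclideanSpace.proj i : E →L[ℝ] ℝ).contDiff.comp hw
  have hsum : ∀ y, fderiv ℝ ψ y (w y) = ∑ i, w y i * fderiv ℝ ψ y (ei i) := by
    intro y
    rw [lin_sum (fderiv ℝ ψ y) (w y)]
    exact Finset.sum_congr rfl fun i _ => by rw [smul_eq_mul]
  have hi1 : ∀ i, Integrable fun y => w y i * fderiv ℝ ψ y (ei i) := by
    intro i
    have h1 : Continuous fun y => fderiv ℝ ψ y (ei i) :=
      (hψ.continuous_fderiv (by norm_num)).clm_apply continuous_const
    have h3 : HasCompactSupport fun y => fderiv ℝ ψ y (ei i) :=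
      (hc.fderiv (𝕜 := ℝ)).comp_left (g := fun L : E →L[ℝ] ℝ => L (ei i)) (by simp)
    exact ((hwi i).continuous.mul h1).integrable_of_hasCompactSupport h3.mul_left
  have hi2 : ∀ i, Integrable fun y => fderiv ℝ (fun y => w y i) y (ei i) * ψ y := by
    intro i
    have h2 : Continuous fun y => fderiv ℝ (fun y => w y i) y (ei i) :=
      ((hwi i).continuous_fderiv one_ne_zero).clm_apply continuous_const
    exact (h2.mul hψ.continuous).integrable_of_hasCompactSupport hc.mul_left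
  simp_rw [hsum]
  rw [integral_finsetSum _ fun i _ => hi1 i]
  simp_rw [fun i => int_fderiv_test (hwi i) hψ hc (ei i)]
  rw [Finset.sum_neg_distrib, ← integral_finsetSum _ fun i _ => hi2 i, neg_eq_zero]
  have h1 : ∀ y, ∑ i, fderiv ℝ (fun y => w y i) y (ei i) * ψ y = 0 := by
    intro y
    rw [← Finset.sum_mul]
    have h2 : ∑ i, fderiv ℝ (fun y => w y i) y (ei i) = dvE w y := by
      unfold dvE
      exact Finset.sum_congr rfl fun i _ => fderiv_coord (hw.differentiable one_ne_zero y) _ i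
    rw [h2]
    by_cases hy : y ∈ U
    · rw [hdiv y hy, zero_mul]
    · rw [image_eq_zero_of_notMem_tsupport (fun h => hy (hs h)), mul_zero]
  simp_rw [h1]
  exact integral_zero _ _

/-- The local direction coherence above a threshold. -/
theorem lstr_dir {w : E → E} {c β : ℝ} (hw : ContDiff ℝ 1 w) {U : Set E}
    (hdiv : ∀ y ∈ U, dvE w y = 0) (hβ0 : 0 ≤ β) (hβ1 : β ≤ 1)
    (hc : 0 ≤ c) {K : ℝ} (hK : 0 ≤ K) (hdir : ∀ p ∈ U, ∀ y ∈ U, K < ‖w p‖ → K < ‖w y‖ →
      ‖‖w y‖ • w p - ‖w p‖ • w y‖ ≤ c * ‖p - y‖ ^ β * (‖w p‖ * ‖w y‖)) (R : ℝ) :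
    LStr (fun y => ‖w y‖) (2 * c) β (2 * K * v3) R U := by
  have hv := v3_pos
  intro x ρ hρ hρR hU
  have hvol : ∀ a : ℝ, ∫ _ in ball x ρ, a = a * (v3 * ρ ^ 3) := by
    intro a
    rw [setIntegral_const, smul_eq_mul, ← vol_ball x hρ.le]
    simp only [Measure.real]
    ring
  have hI0 : 0 ≤ ∫ y in ball x ρ, ‖w y‖ := integral_nonneg fun y => norm_nonneg _
  have hρβ := Real.rpow_nonneg hρ.le β
  by_cases hp : ∃ p ∈ ball x ρ, K < ‖w p‖
  swap
  · push Not at hp
    refine ⟨ei 0, norm_ei 0, fun ψ L hψ hcs hs hL => ?_⟩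
    have hL0 : 0 ≤ L := (norm_nonneg _).trans (hL 0)
    have h1 := cmp_int (g := fun _ => (0 : E)) (e := ei 0) (F := fun y => ‖w y‖) hw.continuous
      hψ hs hL hw.continuous.norm (fun y _ => by rw [sub_zero, norm_smul, norm_ei, mul_one,
        norm_norm]) (by simp) (by simp)
    refine h1.trans (mul_le_mul_of_nonneg_left ?_ hL0)
    have h2 : ∫ y in ball x ρ, ‖w y‖ ≤ ∫ _ in ball x ρ, K :=
      setIntegral_mono_on (intOn_ball hw.continuous.norm x ρ)
        (integrableOn_const (measure_ball_lt_top).ne) measurableSet_ball hp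
    rw [hvol] at h2
    have h3 : 0 ≤ 2 * c * ρ ^ β * ∫ y in ball x ρ, ‖w y‖ := by positivity
    have h4 : 0 ≤ K * (v3 * ρ ^ 3) := by positivity
    linarith
  · obtain ⟨p, hpx, hpK⟩ := hp
    have hn : 0 < ‖w p‖ := hK.trans_lt hpK
    set e : E := (‖w p‖⁻¹) • w p with he
    have he1 : ‖e‖ = 1 := by
      rw [he, norm_smul, norm_inv, norm_norm, inv_mul_cancel₀ hn.ne']
    refine ⟨e, he1, fun ψ L hψ hcs hs hL => ?_⟩
    have hL0 : 0 ≤ L := (norm_nonneg _).trans (hL 0)
    set δ : ℝ := c * (2 * ρ) ^ β with hδ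
    have hδ0 : 0 ≤ δ := mul_nonneg hc (Real.rpow_nonneg (by linarith) _)
    have hgi : Integrable fun y => fderiv ℝ ψ y (w y) := by
      refine supp_int (x := x) (s := ρ) ?_ fun y hy => ?_
      · exact (hψ.continuous_fderiv (by norm_num)).clm_apply hw.continuous
      · rw [fderiv_zero_of_tsupp hs (fun h => hy (ball_subset_closedBall h))]
        simp
    have hpt : ∀ y ∈ ball x ρ, ‖‖w y‖ • e - w y‖ ≤ δ * ‖w y‖ + 2 * K := by
      intro y hy
      rcases lt_or_ge K ‖w y‖ with h | h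
      · have h1 := hdir p (hU hpx) y (hU hy) hpK h
        have h2 : ‖w y‖ • e - w y = (‖w p‖⁻¹) • (‖w y‖ • w p - ‖w p‖ • w y) := by
          rw [he, smul_sub, smul_smul, smul_smul, smul_smul, inv_mul_cancel₀ hn.ne', one_smul,
            mul_comm]
        have h3 : c * ‖p - y‖ ^ β ≤ δ := by
          rw [mem_ball, dist_eq_norm] at hy hpx
          refine mul_le_mul_of_nonneg_left (Real.rpow_le_rpow (norm_nonneg _) ?_ hβ0) hc
          have e1 : p - y = (p - x) - (y - x) := by abel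
          rw [e1]
          have := norm_sub_le (p - x) (y - x)
          linarith
        rw [h2, norm_smul, norm_inv, norm_norm, inv_mul_le_iff₀ hn]
        calc ‖‖w y‖ • w p - ‖w p‖ • w y‖ ≤ c * ‖p - y‖ ^ β * (‖w p‖ * ‖w y‖) := h1
          _ ≤ δ * (‖w p‖ * ‖w y‖) := mul_le_mul_of_nonneg_right h3 (by positivity)
          _ ≤ ‖w p‖ * (δ * ‖w y‖ + 2 * K) := by nlinarith
      · have h1 : ‖‖w y‖ • e - w y‖ ≤ ‖w y‖ + ‖w y‖ := by
          refine (norm_sub_le _ _).trans ?_
          rw [norm_smul, he1, mul_one, norm_norm]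
        have h2 : 0 ≤ δ * ‖w y‖ := by positivity
        linarith
    have h1 := cmp_int (g := w) (e := e) (F := fun y => δ * ‖w y‖ + 2 * K) hw.continuous hψ hs hL
      ((continuous_const.mul hw.continuous.norm).add continuous_const) hpt hgi
      (int_dv_zero' hw hdiv hψ hcs (hs.trans hU))
    refine h1.trans (mul_le_mul_of_nonneg_left ?_ hL0)
    have i1 : IntegrableOn (fun y => δ * ‖w y‖) (ball x ρ) :=
      intOn_ball (continuous_const.mul hw.continuous.norm) x ρ
    have i2 : IntegrableOn (fun _ : E => 2 * K) (ball x ρ) :=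
      integrableOn_const (measure_ball_lt_top).ne
    rw [integral_add i1 i2, integral_const_mul, hvol]
    have h3 : δ ≤ 2 * c * ρ ^ β := by
      have := mul_le_mul_of_nonneg_left (rpow2 hρ hβ1) hc
      rw [hδ]; linarith
    have h4 := mul_le_mul_of_nonneg_right h3 hI0
    linarith

end Pool.Agent.R210
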