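import Pool.Agent.R210.N6
import Pool.Agent.H459R3.NS.Sob

/-!
The transport term of the localized enstrophy balance.
-/

open MeasureTheory Set Metric Filter Topology
open scoped ContDiff ENNReal
open H459R3.NS

namespace Pool.Agent.R210

theorem cs2 {f g : V → ℝ} (hf : Continuous f) (hg : Continuous g) :
    (∫ x in cube, f x * g x) ^ 2 ≤ (∫ x in cube, f x ^ 2) * ∫ x in cube, g x ^ 2 := by
  have h1 := cs_cube (f := fun x => f x ^ 2) (g := fun x => g x ^ 2) (hf.pow 2) (hg.pow 2)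
    (fun x => sq_nonneg _) fun x => sq_nonneg _
  simp only [Real.sqrt_sq_eq_abs] at h1
  have hf0 : 0 ≤ ∫ x in cube, f x ^ 2 := integral_nonneg fun x => sq_nonneg _
  have hg0 : 0 ≤ ∫ x in cube, g x ^ 2 := integral_nonneg fun x => sq_nonneg _
  have h2 : |∫ x in cube, f x * g x| ≤ ∫ x in cube, |f x| * |g x| := by
    refine abs_integral_le_integral_abs.trans (le_of_eq ?_)
    congr 1
    funext x
    exact abs_mul _ _
  have h3 := h2.trans h1
  have h4 := pow_le_pow_left₀ (abs_nonneg _) h3 2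
  rw [sq_abs, mul_pow, Real.sq_sqrt hf0, Real.sq_sqrt hg0] at h4
  exact h4

theorem sob6 : ∃ C : ℝ, 0 < C ∧ ∀ f : V → ℝ, SP f →
    ∫ x in cube, f x ^ 6 ≤ C * ((∑ j, ∫ x in cube, pd j f x ^ 2) + ∫ x in cube, f x ^ 2) ^ 3 := by
  obtain ⟨C, hC0, hC⟩ := sobolev
  refine ⟨C ^ 6 + 1, by positivity, fun f hf => ?_⟩
  set S := (∑ j, ∫ x in cube, pd j f x ^ 2) + ∫ x in cube, f x ^ 2 with hS
  have hS0 : 0 ≤ S := add_nonneg (Finset.sum_nonneg fun j _ => integral_nonneg fun x => sq_nonneg _)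
    (integral_nonneg fun x => sq_nonneg _)
  have h1 := hC f hf
  rw [eLpNorm_eq_lintegral_rpow_enorm_toReal (by norm_num) (by norm_num)] at h1
  have h6 : (6 : ℝ≥0∞).toReal = 6 := by norm_num
  rw [h6] at h1
  have h2 := ENNReal.rpow_le_rpow h1 (by norm_num : (0 : ℝ) ≤ 6)
  rw [← ENNReal.rpow_mul, one_div_mul_cancel (by norm_num : (6 : ℝ) ≠ 0), ENNReal.rpow_one] at h2
  have h3 : ∫⁻ x in cube, ‖f x‖ₑ ^ (6 : ℝ) = ENNReal.ofReal (∫ x in cube, f x ^ 6) := by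
    rw [← ofReal_int (f := fun x => f x ^ 6) (hf.cont.pow 6)
      fun x => Even.pow_nonneg (by decide) _]
    congr 1
    funext x
    rw [Real.enorm_eq_ofReal_abs]
    have e1 : ((6 : ℕ) : ℝ) = 6 := by norm_num
    rw [← e1, ENNReal.rpow_natCast, ← ENNReal.ofReal_pow (abs_nonneg _)]
    congr 1
    exact Even.pow_abs (by decide) _
  rw [h3] at h2
  have h4 : ENNReal.ofReal (C * Real.sqrt S) ^ (6 : ℝ) = ENNReal.ofReal (C ^ 6 * S ^ 3) := by
    have e1 : ((6 : ℕ) : ℝ) = 6 := by norm_num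
    rw [← e1, ENNReal.rpow_natCast, ← ENNReal.ofReal_pow (by positivity)]
    congr 1
    rw [mul_pow]
    congr 1
    calc Real.sqrt S ^ 6 = (Real.sqrt S ^ 2) ^ 3 := by ring
      _ = S ^ 3 := by rw [Real.sq_sqrt hS0]
  rw [h4, ENNReal.ofReal_le_ofReal_iff (by positivity)] at h2
  refine h2.trans ?_
  have : 0 ≤ S ^ 3 := by positivity
  linarith

theorem int_G2_eq {w : V → V} (hw : ∀ i, SP (fun x => w x i)) :
    ∫ x in cube, G2 w x = ∑ i, ∑ j, ∫ x in cube, pd j (fun y => w y i) x ^ 2 := by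
  unfold G2 gr2
  have c1 : ∀ i j, Continuous fun x => pd j (fun y => w y i) x ^ 2 := fun i j =>
    ((hw i).pd j).cont.pow 2
  have c2 : ∀ i, Continuous fun x => ∑ j, pd j (fun y => w y i) x ^ 2 := fun i =>
    continuous_finsetSum _ fun j _ => c1 i j
  rw [integral_finsetSum _ fun i _ => integrableOn_cube (c2 i)]
  refine Finset.sum_congr rfl fun i _ => ?_
  exact integral_finsetSum _ fun j _ => integrableOn_cube (c1 i j)

theorem int_G2_enst {v : V → V} (hv : ∀ i, SP (fun x => v x i)) :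
    ∫ x in cube, G2 v x = enstrophy v := int_G2_eq hv

theorem sob_vec : ∃ C : ℝ, 0 < C ∧ ∀ w : V → V, (∀ i, SP (fun x => w x i)) →
    ∫ x in cube, rsq (w x) ^ 3
      ≤ C * ((∫ x in cube, G2 w x) + ∫ x in cube, rsq (w x)) ^ 3 := by
  obtain ⟨C, hC0, hC⟩ := sob6
  refine ⟨27 * C, by positivity, fun w hw => ?_⟩
  set S := (∫ x in cube, G2 w x) + ∫ x in cube, rsq (w x) with hS
  have h1 : ∀ i, ∫ x in cube, w x i ^ 6 ≤ C * S ^ 3 := by
    intro i
    refine (hC _ (hw i)).trans (mul_le_mul_of_nonneg_left (pow_le_pow_left₀ ?_ ?_ 3) hC0.le)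
    · exact add_nonneg (Finset.sum_nonneg fun j _ => integral_nonneg fun x => sq_nonneg _)
        (integral_nonneg fun x => sq_nonneg _)
    · refine add_le_add ?_ ?_
      · rw [int_G2_eq hw]
        exact Finset.single_le_sum (f := fun i => ∑ j, ∫ x in cube, pd j (fun y => w y i) x ^ 2)
          (fun i _ => Finset.sum_nonneg fun j _ => integral_nonneg fun x => sq_nonneg _)
          (Finset.mem_univ i)
      · exact setIntegral_mono (integrableOn_cube ((hw i).cont.pow 2)) (sp_rsq hw).int fun x =>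
          sq_le_rsq (w x) i
  have h2 : ∀ x, rsq (w x) ^ 3 ≤ 9 * ∑ i, w x i ^ 6 := by
    intro x
    simp only [rsq, Fin.sum_univ_three]
    set a := w x 0 ^ 2 with ha
    set b := w x 1 ^ 2 with hb
    set c := w x 2 ^ 2 with hc
    have e1 : w x 0 ^ 6 = a ^ 3 := by rw [ha]; ring
    have e2 : w x 1 ^ 6 = b ^ 3 := by rw [hb]; ring
    have e3 : w x 2 ^ 6 = c ^ 3 := by rw [hc]; ring
    rw [e1, e2, e3]
    have ha0 : 0 ≤ a := sq_nonneg _
    have hb0 : 0 ≤ b := sq_nonneg _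
    have hc0 : 0 ≤ c := sq_nonneg _
    nlinarith [mul_nonneg (add_nonneg ha0 hb0) (sq_nonneg (a - b)),
      mul_nonneg (add_nonneg hb0 hc0) (sq_nonneg (b - c)),
      mul_nonneg (add_nonneg hc0 ha0) (sq_nonneg (c - a)),
      mul_nonneg (add_nonneg (add_nonneg ha0 hb0) hc0) (sq_nonneg (a - b)),
      mul_nonneg (add_nonneg (add_nonneg ha0 hb0) hc0) (sq_nonneg (b - c)),
      mul_nonneg (add_nonneg (add_nonneg ha0 hb0) hc0) (sq_nonneg (c - a))]
  have h3 : ∫ x in cube, rsq (w x) ^ 3 ≤ ∫ x in cube, 9 * ∑ i, w x i ^ 6 :=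
    setIntegral_mono (integrableOn_cube ((sp_rsq hw).cont.pow 3))
      (integrableOn_cube (continuous_const.mul (continuous_finsetSum _ fun i _ =>
        (hw i).cont.pow 6))) h2
  have c6 : ∀ i, Continuous fun x => w x i ^ 6 := fun i => (hw i).cont.pow 6
  rw [integral_const_mul, integral_finsetSum _ fun i _ => integrableOn_cube (c6 i)] at h3
  have h4 := Finset.sum_le_sum fun i (_ : i ∈ Finset.univ) => h1 i
  rw [Finset.sum_const, Finset.card_univ, Fintype.card_fin, nsmul_eq_mul] at h4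
  push_cast at h4
  linarith

theorem abstr {ε C e b Y W X Z P1 P3 P4 Sv SG TR : ℝ} (hε : 0 < ε) (hC : 0 < C) (he : 0 ≤ e)
    (hb : 0 ≤ b) (hY : 0 ≤ Y) (hX : 0 ≤ X) (hZ : 0 ≤ Z)
    (hP4 : 0 ≤ P4) (hSv : 0 ≤ Sv) (hW2 : W ≤ 2 * e)
    (h1 : TR ^ 2 ≤ X * Z) (h2 : Z ^ 2 ≤ Y * W) (h3 : X ^ 2 ≤ P1 * P3) (h4 : P1 ^ 2 ≤ Sv * X)
    (h5 : P3 ^ 2 ≤ Y * P4) (h6 : P4 ^ 2 ≤ Y * SG) (h7 : Sv ≤ C * e ^ 3) (h8 : SG ≤ C * b ^ 3) :
    TR ≤ ε * b + (1 + C / ε) * (e * (1 + Y)) := by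
  -- `X² ≤ C e² Y b`
  have hX2 : X ^ 2 ≤ C * e ^ 2 * Y * b := by
    have hbas : 0 ≤ C * e ^ 2 * Y * b := by positivity
    rcases hX.eq_or_lt with h0 | h0
    · rw [← h0]
      simpa using hbas
    have a1 : X ^ 4 ≤ Sv * X * (Y * P4) := by
      have b1 : X ^ 4 ≤ (P1 * P3) ^ 2 := by
        calc X ^ 4 = (X ^ 2) ^ 2 := by ring
          _ ≤ _ := pow_le_pow_left₀ (by positivity) h3 2
      rw [mul_pow] at b1
      refine b1.trans (mul_le_mul h4 h5 (sq_nonneg _) (by positivity))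
    have a2 : X ^ 3 ≤ Sv * (Y * P4) := by
      have : X * X ^ 3 ≤ X * (Sv * (Y * P4)) := by
        calc X * X ^ 3 = X ^ 4 := by ring
          _ ≤ _ := a1
          _ = _ := by ring
      exact le_of_mul_le_mul_left this h0
    have a3 : X ^ 6 ≤ Sv ^ 2 * (Y ^ 2 * (Y * SG)) := by
      calc X ^ 6 = (X ^ 3) ^ 2 := by ring
        _ ≤ (Sv * (Y * P4)) ^ 2 := pow_le_pow_left₀ (by positivity) a2 2
        _ = Sv ^ 2 * (Y ^ 2 * P4 ^ 2) := by ring
        _ ≤ _ := mul_le_mul_of_nonneg_left (mul_le_mul_of_nonneg_left h6 (sq_nonneg _))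
            (sq_nonneg _)
    have a4 : X ^ 6 ≤ (C * e ^ 2 * Y * b) ^ 3 := by
      have b1 : Sv ^ 2 ≤ (C * e ^ 3) ^ 2 := pow_le_pow_left₀ hSv h7 2
      calc X ^ 6 ≤ Sv ^ 2 * (Y ^ 2 * (Y * SG)) := a3
        _ ≤ Sv ^ 2 * (Y ^ 2 * (Y * (C * b ^ 3))) := by
            refine mul_le_mul_of_nonneg_left (mul_le_mul_of_nonneg_left
              (mul_le_mul_of_nonneg_left h8 hY) (sq_nonneg _)) (sq_nonneg _)
        _ ≤ (C * e ^ 3) ^ 2 * (Y ^ 2 * (Y * (C * b ^ 3))) :=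
            mul_le_mul_of_nonneg_right b1 (by positivity)
        _ = _ := by ring
    have a5 : (X ^ 2) ^ 3 ≤ (C * e ^ 2 * Y * b) ^ 3 := by
      calc (X ^ 2) ^ 3 = X ^ 6 := by ring
        _ ≤ _ := a4
    exact le_of_pow_le_pow_left₀ three_ne_zero (by positivity) a5
  have hTR4 : TR ^ 4 ≤ 2 * C * e ^ 3 * Y ^ 2 * b := by
    calc TR ^ 4 = (TR ^ 2) ^ 2 := by ring
      _ ≤ (X * Z) ^ 2 := pow_le_pow_left₀ (sq_nonneg _) h1 2
      _ = X ^ 2 * Z ^ 2 := by ring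
      _ ≤ (C * e ^ 2 * Y * b) * (Y * W) := mul_le_mul hX2 h2 (sq_nonneg _) (by positivity)
      _ ≤ (C * e ^ 2 * Y * b) * (Y * (2 * e)) :=
          mul_le_mul_of_nonneg_left (mul_le_mul_of_nonneg_left hW2 hY) (by positivity)
      _ = _ := by ring
  set k : ℝ := 1 + C / ε with hk
  have hk1 : 1 ≤ k := by rw [hk]; have : 0 ≤ C / ε := by positivity
                         linarith
  set q : ℝ := k * (e * (1 + Y)) with hq
  have hq0 : 0 ≤ q := by positivity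
  have hεb : 0 ≤ ε * b := by positivity
  have h9 : 4 * (ε * b) * q ^ 3 ≤ (ε * b + q) ^ 4 := by
    have : (ε * b + q) ^ 4 = (ε * b) ^ 4 + 4 * (ε * b) ^ 3 * q + 6 * (ε * b) ^ 2 * q ^ 2
        + 4 * (ε * b) * q ^ 3 + q ^ 4 := by ring
    rw [this]
    have : 0 ≤ (ε * b) ^ 4 + 4 * (ε * b) ^ 3 * q + 6 * (ε * b) ^ 2 * q ^ 2 + q ^ 4 := by
      positivity
    linarith
  have h10 : 2 * C * e ^ 3 * Y ^ 2 * b ≤ 4 * (ε * b) * q ^ 3 := by
    have b1 : Y ^ 2 ≤ (1 + Y) ^ 3 := by nlinarith [pow_nonneg hY 3]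
    have b2 : C ≤ ε * k ^ 3 := by
      have b3 : C ≤ ε * k := by
        rw [hk]
        have : ε * (1 + C / ε) = ε + C := by field_simp
        rw [this]; linarith
      have b4 : k ≤ k ^ 3 := le_self_pow₀ hk1 (by norm_num)
      exact b3.trans (mul_le_mul_of_nonneg_left b4 hε.le)
    have b5 : 0 ≤ e ^ 3 * b := by positivity
    calc 2 * C * e ^ 3 * Y ^ 2 * b = 2 * (C * Y ^ 2) * (e ^ 3 * b) := by ring
      _ ≤ 2 * ((ε * k ^ 3) * (1 + Y) ^ 3) * (e ^ 3 * b) := by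
          refine mul_le_mul_of_nonneg_right ?_ b5
          have := mul_le_mul b2 b1 (sq_nonneg _) (by positivity)
          linarith
      _ ≤ 4 * ((ε * k ^ 3) * (1 + Y) ^ 3) * (e ^ 3 * b) := by
          refine mul_le_mul_of_nonneg_right ?_ b5
          have : 0 ≤ (ε * k ^ 3) * (1 + Y) ^ 3 := by positivity
          linarith
      _ = 4 * (ε * b) * q ^ 3 := by rw [hq]; ring
  by_contra hlt
  push Not at hlt
  have h11 : (ε * b + q) ^ 4 < TR ^ 4 := pow_lt_pow_left₀ hlt (by positivity) (by norm_num)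
  linarith

/-- The transport term. -/
theorem transp {ε : ℝ} (hε : 0 < ε) : ∃ C : ℝ, 0 ≤ C ∧ ∀ (v : V → V) (χ : V → ℝ),
    (∀ i, SP (fun x => v x i)) → SP χ → (∀ x, 0 ≤ χ x) →
    ∫ x in cube, en (v x) * (χ x ^ 3 * rsq (cu v x))
      ≤ ε * ((∫ x in cube, G2 (fun x => χ x ^ 2 • cu v x) x)
          + ∫ x in cube, rsq (χ x ^ 2 • cu v x))
        + C * ((enstrophy v + ∫ x in cube, rsq (v x))
          * (1 + ∫ x in cube, rsq (χ x ^ 2 • cu v x))) := by
  obtain ⟨C, hC0, hC⟩ := sob_vec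
  refine ⟨1 + C / ε, by positivity, fun v χ hv hχ hχ0 => ?_⟩
  have hom := sp_cu hv
  have hχ2 : SP fun x => χ x ^ 2 := by
    have := hχ.mul hχ
    have e : (fun x => χ x ^ 2) = fun x => χ x * χ x := by funext x; ring
    rw [e]; exact this
  have hG : ∀ i, SP (fun x => (χ x ^ 2 • cu v x) i) := sp_fw hχ2 hom
  have ca : Continuous fun x => en (v x) := f_cont hv
  have cg : Continuous fun x => en (χ x ^ 2 • cu v x) := f_cont hG
  have cw' : Continuous fun x => en (cu v x) := f_cont hom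
  have cs : Continuous fun x => Real.sqrt (en (χ x ^ 2 • cu v x)) := Real.continuous_sqrt.comp cg
  have hg0 : ∀ x, 0 ≤ en (χ x ^ 2 • cu v x) := fun x => en_nonneg _
  have hsq : ∀ x, Real.sqrt (en (χ x ^ 2 • cu v x)) ^ 2 = en (χ x ^ 2 • cu v x) := fun x =>
    Real.sq_sqrt (hg0 x)
  have hen : ∀ x, en (χ x ^ 2 • cu v x) = χ x ^ 2 * en (cu v x) := fun x => by
    rw [en_smul, abs_of_nonneg (sq_nonneg _)]
  have hW := int_rsq_cu hv
  have hE0 := enstrophy_nonneg v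
  have hr0 : 0 ≤ ∫ x in cube, rsq (v x) := integral_nonneg fun x => rsq_nonneg _
  refine abstr (W := ∫ x in cube, rsq (cu v x))
    (X := ∫ x in cube, (en (v x) * en (χ x ^ 2 • cu v x)) ^ 2)
    (Z := ∫ x in cube, (χ x * en (cu v x)) ^ 2)
    (P1 := ∫ x in cube, (en (v x) ^ 2 * Real.sqrt (en (χ x ^ 2 • cu v x))) ^ 2)
    (P3 := ∫ x in cube, (en (χ x ^ 2 • cu v x) * Real.sqrt (en (χ x ^ 2 • cu v x))) ^ 2)
    (P4 := ∫ x in cube, (en (χ x ^ 2 • cu v x) ^ 2) ^ 2)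
    (Sv := ∫ x in cube, rsq (v x) ^ 3)
    (SG := ∫ x in cube, rsq (χ x ^ 2 • cu v x) ^ 3)
    hε hC0 (by positivity) ?_ ?_ ?_ ?_ ?_ ?_ ?_ ?_ ?_ ?_ ?_ ?_ ?_ ?_ ?_
  · exact add_nonneg (integral_nonneg fun x => G2_nonneg _ _)
      (integral_nonneg fun x => rsq_nonneg _)
  · exact integral_nonneg fun x => rsq_nonneg _
  · exact integral_nonneg fun x => sq_nonneg _
  · exact integral_nonneg fun x => sq_nonneg _
  · exact integral_nonneg fun x => sq_nonneg _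
  · exact integral_nonneg fun x => pow_nonneg (rsq_nonneg _) 3
  · linarith
  · -- TR
    refine le_trans (le_of_eq ?_) (cs2 (ca.mul cg) (hχ.cont.mul cw'))
    congr 2
    funext x
    rw [hen, ← en_sq (cu v x)]
    ring
  · -- Z
    have e1 : ∫ x in cube, rsq (χ x ^ 2 • cu v x) = ∫ x in cube, en (χ x ^ 2 • cu v x) ^ 2 := by
      simp_rw [en_sq]
    have e2 : ∫ x in cube, rsq (cu v x) = ∫ x in cube, en (cu v x) ^ 2 := by simp_rw [en_sq]
    rw [e1, e2]
    refine le_trans (le_of_eq ?_) (cs2 cg cw')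
    congr 2
    funext x
    rw [hen]
    ring
  · -- X
    refine le_trans (le_of_eq ?_) (cs2 ((ca.pow 2).mul cs) (cg.mul cs))
    congr 2
    funext x
    have := hsq x
    calc (en (v x) * en (χ x ^ 2 • cu v x)) ^ 2
        = en (v x) ^ 2 * en (χ x ^ 2 • cu v x) * en (χ x ^ 2 • cu v x) := by ring
      _ = en (v x) ^ 2 * en (χ x ^ 2 • cu v x) * Real.sqrt (en (χ x ^ 2 • cu v x)) ^ 2 := by
          rw [this]
      _ = _ := by ring
  · -- P1
    have e1 : ∫ x in cube, rsq (v x) ^ 3 = ∫ x in cube, (en (v x) ^ 3) ^ 2 := by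
      congr 1
      funext x
      rw [← en_sq]; ring
    rw [e1]
    refine le_trans (le_of_eq ?_) (cs2 (ca.pow 3) (ca.mul cg))
    congr 2
    funext x
    have := hsq x
    calc (en (v x) ^ 2 * Real.sqrt (en (χ x ^ 2 • cu v x))) ^ 2
        = en (v x) ^ 4 * Real.sqrt (en (χ x ^ 2 • cu v x)) ^ 2 := by ring
      _ = en (v x) ^ 4 * en (χ x ^ 2 • cu v x) := by rw [this]
      _ = _ := by ring
  · -- P3
    have e1 : ∫ x in cube, rsq (χ x ^ 2 • cu v x) = ∫ x in cube, en (χ x ^ 2 • cu v x) ^ 2 := by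
      simp_rw [en_sq]
    rw [e1]
    refine le_trans (le_of_eq ?_) (cs2 cg (cg.pow 2))
    congr 2
    funext x
    have := hsq x
    calc (en (χ x ^ 2 • cu v x) * Real.sqrt (en (χ x ^ 2 • cu v x))) ^ 2
        = en (χ x ^ 2 • cu v x) ^ 2 * Real.sqrt (en (χ x ^ 2 • cu v x)) ^ 2 := by ring
      _ = en (χ x ^ 2 • cu v x) ^ 2 * en (χ x ^ 2 • cu v x) := by rw [this]
      _ = _ := by ring
  · -- P4
    have e1 : ∫ x in cube, rsq (χ x ^ 2 • cu v x) = ∫ x in cube, en (χ x ^ 2 • cu v x) ^ 2 := by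
      simp_rw [en_sq]
    have e2 : ∫ x in cube, rsq (χ x ^ 2 • cu v x) ^ 3
        = ∫ x in cube, (en (χ x ^ 2 • cu v x) ^ 3) ^ 2 := by
      congr 1
      funext x
      rw [← en_sq]; ring
    rw [e1, e2]
    refine le_trans (le_of_eq ?_) (cs2 cg (cg.pow 3))
    congr 2
    funext x
    ring
  · have := hC v hv
    rwa [int_G2_enst hv] at this
  · exact hC _ hG

end Pool.Agent.R210
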