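import Pool.Agent.R210.N6
import Pool.Agent.R210.Diss

/-!
Periodic fields which solve the Navier-Stokes equations on an open set: the vorticity equation.
-/

open MeasureTheory Set Metric Filter Topology
open scoped ContDiff ENNReal
open H459R3.NS

namespace Pool.Agent.R210

/-- A periodic field which solves the Navier-Stokes equations with the force `f` on `O`. -/
structure LP (ν T : ℝ) (u : ℝ → V → V) (p : ℝ → V → ℝ) (f : ℝ → V → V) (O : Set V) : Prop where
  openO : IsOpen O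
  smooth_c : ∀ i, ContDiffOn ℝ ∞ (fun z : ℝ × V => u z.1 z.2 i) (Ico 0 T ×ˢ univ)
  sp : ∀ t ∈ Ico 0 T, ∀ i, SP (fun x => u t x i)
  sp_p : ∀ t ∈ Ioo 0 T, SP (p t)
  sp_f : ∀ t ∈ Ioo 0 T, ∀ i, SP (fun x => f t x i)
  divfree : ∀ t ∈ Ico 0 T, ∀ x ∈ O, dv (u t) x = 0
  momentum : ∀ t ∈ Ioo 0 T, ∀ x ∈ O, ∀ i,
    deriv (fun s => u s x i) t + ∑ j, u t x j * pd j (fun y => u t y i) x
      = ν * lap (fun y => u t y i) x - pd i (p t) x + f t x i

section

variable {ν T : ℝ} {u : ℝ → V → V} {p : ℝ → V → ℝ} {f : ℝ → V → V} {O : Set V}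

theorem LP.smooth_cu (h : LP ν T u p f O) (i : Fin 3) :
    ContDiffOn ℝ ∞ (fun z : ℝ × V => cu (u z.1) z.2 i) (Ico 0 T ×ˢ univ) := by
  have e : (fun z : ℝ × V => cu (u z.1) z.2 i)
      = fun z : ℝ × V => pd (ia i) (fun y => u z.1 y (ib i)) z.2
        - pd (ib i) (fun y => u z.1 y (ia i)) z.2 := by
    funext z
    exact cu_ab _ _ _
  rw [e]
  exact (contDiffOn_pd (f := fun s y => u s y (ib i)) (h.smooth_c _) _).sub
    (contDiffOn_pd (f := fun s y => u s y (ia i)) (h.smooth_c _) _)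

theorem pd_congr_nhds {f g : V → ℝ} {x : V} (h : f =ᶠ[𝓝 x] g) (j : Fin 3) :
    pd j f x = pd j g x := by
  unfold pd
  rw [h.fderiv_eq]

theorem LP.hasDerivAt_pd (h : LP ν T u p f O) {t : ℝ} (ht : t ∈ Ioo 0 T) (a b : Fin 3) {x : V}
    (hx : x ∈ O) :
    HasDerivAt (fun s => pd a (fun y => u s y b) x)
      (ν * lap (pd a (fun y => u t y b)) x
        - (∑ j, (u t x j * pd j (pd a (fun y => u t y b)) x
          + pd a (fun y => u t y j) x * pd j (fun y => u t y b) x))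
        - pd a (pd b (p t)) x + pd a (fun y => f t y b) x) t := by
  have hI : t ∈ Ico 0 T := ⟨ht.1.le, ht.2⟩
  set v : Fin 3 → V → ℝ := fun i y => u t y i with hv
  have hsp : ∀ i, SP (v i) := fun i => h.sp t hI i
  have hG : ContDiffOn ℝ ∞ (fun z : ℝ × V => pd a (fun y => u z.1 y b) z.2)
      (Ico 0 T ×ˢ univ) := contDiffOn_pd (f := fun s y => u s y b) (h.smooth_c b) a
  have hG1 : ContDiffOn ℝ 1 (fun z : ℝ × V => pd a (fun y => u z.1 y b) z.2)
      (Ioo 0 T ×ˢ univ) :=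
    mono_Ioo (f := fun s x => pd a (fun y => u s y b) x) hG (by norm_cast)
  have h3 := hasDerivAt_slice (F := fun s x => pd a (fun y => u s y b) x) hG1 ht x
  have h4 := dt_pd (f := fun s y => u s y b) (h.smooth_c b) ht a x
  rw [H459R3.NS.dt_eq (f := fun s => pd a (fun y => u s y b)) hG ht x] at h4
  rw [h4] at h3
  refine h3.congr_deriv ?_
  have e1 : dt (fun s y => u s y b) t
      =ᶠ[𝓝 x] fun x => ν * lap (v b) x - conv v b x - pd b (p t) x + f t x b := by
    filter_upwards [h.openO.mem_nhds hx] with y hy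
    have h5 := h.momentum t ht y hy b
    have h6 : dt (fun s y => u s y b) t y = deriv (fun s => u s y b) t := rfl
    rw [h6]
    have h7 : conv v b y = ∑ j, u t y j * pd j (fun y => u t y b) y := rfl
    rw [h7]
    linarith
  rw [pd_congr_nhds e1]
  have s1 : SP (fun x => ν * lap (v b) x) := sp_cmul ν (hsp b).lap
  have s2 : SP (conv v b) := sp_conv hsp b
  have s3 : SP (pd b (p t)) := (h.sp_p t ht).pd b
  have s4 : SP (fun x => f t x b) := h.sp_f t ht b
  rw [pd_add' ((s1.sub s2).sub s3) s4, pd_sub' (s1.sub s2) s3, pd_sub' s1 s2,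
    pd_cmul ν (hsp b).lap]
  have e2 : pd a (lap (v b)) x = lap (pd a (v b)) x := by rw [lap_pd (hsp b)]
  have e3 : pd a (conv v b) x = ∑ j, (v j x * pd j (pd a (v b)) x + pd a (v j) x * pd j (v b) x) := by
    unfold conv
    rw [pd_sum (fun j _ => (hsp j).mul ((hsp b).pd j)) a x]
    refine Finset.sum_congr rfl fun j _ => ?_
    rw [pd_mul (hsp j) ((hsp b).pd j), pd_comm (hsp b) a j]
  rw [e2, e3]

/-- The vorticity equation. -/
theorem LP.vort_eq (h : LP ν T u p f O) {t : ℝ} (ht : t ∈ Ioo 0 T) (i : Fin 3) {x : V}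
    (hx : x ∈ O) :
    HasDerivAt (fun s => cu (u s) x i)
      (ν * lap (fun y => cu (u t) y i) x - (∑ j, u t x j * pd j (fun y => cu (u t) y i) x)
        + (∑ j, cu (u t) x j * pd j (fun y => u t y i) x) + cu (f t) x i) t := by
  have hI : t ∈ Ico 0 T := ⟨ht.1.le, ht.2⟩
  have hsp : ∀ i, SP (fun y => u t y i) := fun i => h.sp t hI i
  have hdiv : dv (u t) x = 0 := h.divfree t hI x hx
  have e0 : (fun s => cu (u s) x i) = fun s => pd (ia i) (fun y => u s y (ib i)) x
      - pd (ib i) (fun y => u s y (ia i)) x := funext fun s => cu_ab _ _ _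
  rw [e0]
  refine ((h.hasDerivAt_pd ht (ia i) (ib i) hx).sub
    (h.hasDerivAt_pd ht (ib i) (ia i) hx)).congr_deriv ?_
  have e1 : lap (fun y => cu (u t) y i) x = lap (pd (ia i) (fun y => u t y (ib i))) x
      - lap (pd (ib i) (fun y => u t y (ia i))) x := by
    rw [cu_fun]
    exact lap_sub' ((hsp _).pd _) ((hsp _).pd _) x
  have e2 : ∀ j, pd j (fun y => cu (u t) y i) x = pd j (pd (ia i) (fun y => u t y (ib i))) x
      - pd j (pd (ib i) (fun y => u t y (ia i))) x := by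
    intro j
    rw [cu_fun]
    exact pd_sub' ((hsp _).pd _) ((hsp _).pd _) j x
  have e3 : pd (ia i) (pd (ib i) (p t)) x = pd (ib i) (pd (ia i) (p t)) x :=
    congrFun (pd_comm (h.sp_p t ht) _ _) x
  have e6 : cu (f t) x i = pd (ia i) (fun y => f t y (ib i)) x - pd (ib i) (fun y => f t y (ia i)) x :=
    cu_ab _ _ _
  rw [e1, e3, e6]
  simp_rw [e2]
  set M : Fin 3 → Fin 3 → ℝ := fun a b => pd a (fun y => u t y b) x with hM
  have e4 : ∀ j, cu (u t) x j = M (ia j) (ib j) - M (ib j) (ia j) := fun j => cu_ab _ _ _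
  simp_rw [e4]
  have hd : M 0 0 + M 1 1 + M 2 2 = 0 := by
    unfold dv at hdiv
    rw [Fin.sum_univ_three] at hdiv
    exact hdiv
  have key : (∑ j, (M (ia i) j * M j (ib i))) - (∑ j, (M (ib i) j * M j (ia i)))
      = -∑ j, (M (ia j) (ib j) - M (ib j) (ia j)) * M j i := by
    fin_cases i
    · simp only [Fin.sum_univ_three]
      show (M 1 0 * M 0 2 + M 1 1 * M 1 2 + M 1 2 * M 2 2)
        - (M 2 0 * M 0 1 + M 2 1 * M 1 1 + M 2 2 * M 2 1)
        = -((M 1 2 - M 2 1) * M 0 0 + (M 2 0 - M 0 2) * M 1 0 + (M 0 1 - M 1 0) * M 2 0)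
      linear_combination (M 1 2 - M 2 1) * hd
    · simp only [Fin.sum_univ_three]
      show (M 2 0 * M 0 0 + M 2 1 * M 1 0 + M 2 2 * M 2 0)
        - (M 0 0 * M 0 2 + M 0 1 * M 1 2 + M 0 2 * M 2 2)
        = -((M 1 2 - M 2 1) * M 0 1 + (M 2 0 - M 0 2) * M 1 1 + (M 0 1 - M 1 0) * M 2 1)
      linear_combination (M 2 0 - M 0 2) * hd
    · simp only [Fin.sum_univ_three]
      show (M 0 0 * M 0 1 + M 0 1 * M 1 1 + M 0 2 * M 2 1)
        - (M 1 0 * M 0 0 + M 1 1 * M 1 0 + M 1 2 * M 2 0)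
        = -((M 1 2 - M 2 1) * M 0 2 + (M 2 0 - M 0 2) * M 1 2 + (M 0 1 - M 1 0) * M 2 2)
      linear_combination (M 0 1 - M 1 0) * hd
  have e5 : ∑ j, u t x j * (pd j (pd (ia i) (fun y => u t y (ib i))) x
      - pd j (pd (ib i) (fun y => u t y (ia i))) x)
      = (∑ j, u t x j * pd j (pd (ia i) (fun y => u t y (ib i))) x)
        - ∑ j, u t x j * pd j (pd (ib i) (fun y => u t y (ia i))) x := by
    rw [← Finset.sum_sub_distrib]
    exact Finset.sum_congr rfl fun j _ => by ring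
  rw [e5, Finset.sum_add_distrib, Finset.sum_add_distrib]
  have k2 : (∑ j, pd (ia i) (fun y => u t y j) x * pd j (fun y => u t y (ib i)) x)
      = ∑ j, (M (ia i) j * M j (ib i)) := rfl
  have k3 : (∑ j, pd (ib i) (fun y => u t y j) x * pd j (fun y => u t y (ia i)) x)
      = ∑ j, (M (ib i) j * M j (ia i)) := rfl
  have k4 : ∑ j, (M (ia j) (ib j) - M (ib j) (ia j)) * pd j (fun y => u t y i) x
      = ∑ j, (M (ia j) (ib j) - M (ib j) (ia j)) * M j i := rfl
  rw [k2, k3, k4]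
  linarith

end

end Pool.Agent.R210
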