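import Pool.Agent.R210.N7
import Pool.Agent.R210.N8
import Pool.Agent.R210.N9

/-!
Static identities for the localized enstrophy.
-/

open MeasureTheory Set Metric Filter Topology
open scoped ContDiff ENNReal
open H459R3.NS

namespace Pool.Agent.R210

theorem sp_sq {f : V → ℝ} (hf : SP f) : SP fun x => f x ^ 2 := by
  have e : (fun x => f x ^ 2) = fun x => f x * f x := by funext x; ring
  rw [e]; exact hf.mul hf

theorem pd_sq {f : V → ℝ} (hf : SP f) (j : Fin 3) (x : V) :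
    pd j (fun y => f y ^ 2) x = 2 * (f x * pd j f x) := by
  have e : (fun x => f x ^ 2) = fun x => f x * f x := by funext x; ring
  rw [e, pd_mul hf hf]
  ring

theorem sp_gr2 {g : V → ℝ} (hg : SP g) : SP (gr2 g) := by
  have e : gr2 g = fun x => ∑ i, pd i g x ^ 2 := rfl
  rw [e]
  exact SP.sum fun i _ => sp_sq (hg.pd i)

theorem sp_G2 {w : V → V} (hw : ∀ i, SP (fun x => w x i)) : SP (G2 w) := by
  have e : G2 w = fun x => ∑ i, gr2 (fun y => w y i) x := rfl
  rw [e]
  exact SP.sum fun i _ => sp_gr2 (hw i)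

theorem s_lap {w φ : V → ℝ} (hw : SP w) (hφ : SP φ) :
    ∫ x in cube, φ x ^ 2 * (w x * lap w x)
      ≤ -(1 / 2 * ∫ x in cube, φ x ^ 2 * gr2 w x) + 2 * ∫ x in cube, gr2 φ x * w x ^ 2 := by
  have hφ2 := sp_sq hφ
  have hg : SP fun x => φ x ^ 2 * w x := hφ2.mul hw
  have h1 := int_lap_mul hw hg
  have e1 : ∫ x in cube, φ x ^ 2 * (w x * lap w x) = ∫ x in cube, lap w x * (φ x ^ 2 * w x) := by
    congr 1
    funext x
    ring
  have e2 : ∀ j x, pd j (fun x => φ x ^ 2 * w x) x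
      = φ x ^ 2 * pd j w x + 2 * (φ x * pd j φ x) * w x := by
    intro j x
    rw [pd_mul hφ2 hw, pd_sq hφ]
  rw [e1, h1, ← Finset.sum_neg_distrib]
  have i1 : ∀ j, SP fun x => φ x ^ 2 * pd j w x ^ 2 := fun j => hφ2.mul (sp_sq (hw.pd j))
  have i2 : ∀ j, SP fun x => pd j φ x ^ 2 * w x ^ 2 := fun j =>
    (sp_sq (hφ.pd j)).mul (sp_sq hw)
  have h2 : ∀ j, -∫ x in cube, pd j w x * pd j (fun x => φ x ^ 2 * w x) x
      ≤ -(1 / 2 * ∫ x in cube, φ x ^ 2 * pd j w x ^ 2)
        + 2 * ∫ x in cube, pd j φ x ^ 2 * w x ^ 2 := by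
    intro j
    have e3 : ∫ x in cube, (-(1 / 2) * (φ x ^ 2 * pd j w x ^ 2) + 2 * (pd j φ x ^ 2 * w x ^ 2))
        = -(1 / 2 * ∫ x in cube, φ x ^ 2 * pd j w x ^ 2)
          + 2 * ∫ x in cube, pd j φ x ^ 2 * w x ^ 2 := by
      rw [integral_add ((i1 j).int.const_mul _) ((i2 j).int.const_mul _), integral_const_mul,
        integral_const_mul]
      ring
    rw [← e3, ← integral_neg]
    refine setIntegral_mono ((hw.pd j).mul (hg.pd j)).int.neg
      (((i1 j).int.const_mul _).add ((i2 j).int.const_mul _)) fun x => ?_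
    beta_reduce
    rw [e2]
    nlinarith [sq_nonneg (φ x * pd j w x + 2 * (pd j φ x * w x))]
  refine (Finset.sum_le_sum fun j _ => h2 j).trans (le_of_eq ?_)
  rw [Finset.sum_add_distrib, Finset.sum_neg_distrib, ← Finset.mul_sum, ← Finset.mul_sum,
    ← integral_finsetSum _ fun j _ => (i1 j).int, ← integral_finsetSum _ fun j _ => (i2 j).int]
  unfold gr2
  simp_rw [Finset.mul_sum, Finset.sum_mul]

theorem s_tr {w φ : V → ℝ} {v : V → V} (hw : SP w) (hφ : SP φ) (hv : ∀ i, SP (fun x => v x i))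
    (hd : ∀ x, φ x ≠ 0 → dv v x = 0) :
    ∫ x in cube, φ x ^ 2 * (w x * ∑ j, v x j * pd j w x)
      = -∫ x in cube, φ x * (∑ j, v x j * pd j φ x) * w x ^ 2 := by
  have hφ2 := sp_sq hφ
  have hw2 := sp_sq hw
  have hF : ∀ j, SP fun x => φ x ^ 2 * (v x j * w x ^ 2) := fun j => hφ2.mul ((hv j).mul hw2)
  have h1 : ∫ x in cube, ∑ j, pd j (fun x => φ x ^ 2 * (v x j * w x ^ 2)) x = 0 := by
    rw [integral_finsetSum _ fun j _ => ((hF j).pd j).int]
    exact Finset.sum_eq_zero fun j _ => int_pd_zero (hF j) j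
  have e1 : ∀ x, ∑ j, pd j (fun x => φ x ^ 2 * (v x j * w x ^ 2)) x
      = 2 * (φ x ^ 2 * (w x * ∑ j, v x j * pd j w x))
        + 2 * (φ x * (∑ j, v x j * pd j φ x) * w x ^ 2) := by
    intro x
    have e2 : ∀ j, pd j (fun x => φ x ^ 2 * (v x j * w x ^ 2)) x
        = 2 * (φ x ^ 2 * (w x * (v x j * pd j w x)))
          + 2 * (φ x * (v x j * pd j φ x) * w x ^ 2)
          + φ x ^ 2 * w x ^ 2 * pd j (fun y => v y j) x := by
      intro j
      rw [pd_mul hφ2 ((hv j).mul hw2), pd_sq hφ, pd_mul (hv j) hw2, pd_sq hw]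
      ring
    simp_rw [e2]
    rw [Finset.sum_add_distrib, Finset.sum_add_distrib, ← Finset.mul_sum, ← Finset.mul_sum,
      ← Finset.mul_sum, ← Finset.mul_sum, ← Finset.mul_sum, ← Finset.sum_mul, ← Finset.mul_sum]
    have e3 : φ x ^ 2 * w x ^ 2 * ∑ j, pd j (fun y => v y j) x = 0 := by
      by_cases h : φ x = 0
      · rw [h]; ring
      · have := hd x h
        unfold dv at this
        rw [this]; ring
    rw [e3, add_zero]
  simp_rw [e1] at h1
  have s1 : SP fun x => φ x ^ 2 * (w x * ∑ j, v x j * pd j w x) :=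
    hφ2.mul (hw.mul (SP.sum fun j _ => (hv j).mul (hw.pd j)))
  have s2 : SP fun x => φ x * (∑ j, v x j * pd j φ x) * w x ^ 2 :=
    (hφ.mul (SP.sum fun j _ => (hv j).mul (hφ.pd j))).mul hw2
  rw [integral_add (s1.int.const_mul 2) (s2.int.const_mul 2), integral_const_mul,
    integral_const_mul] at h1
  linarith

theorem G2_eq_cu (v : V → V) (x : V) : G2 v x = rsq (cu v x)
    + ∑ i, ∑ j, pd j (fun y => v y i) x * pd i (fun y => v y j) x := by
  unfold G2 gr2 rsq
  simp only [Fin.sum_univ_three, cu_ab]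
  simp only [ia, ib, Matrix.cons_val_zero, Matrix.cons_val_one, Matrix.cons_val]
  ring

/-- The gradient is controlled by the curl. -/
theorem grad_le {v : V → V} {φ : V → ℝ} {M : ℝ} (hv : ∀ i, SP (fun x => v x i)) (hφ : SP φ)
    (hd : ∀ x, φ x ≠ 0 → dv v x = 0) (hM : ∀ x, gr2 φ x ≤ M) :
    ∫ x in cube, φ x ^ 2 * G2 v x
      ≤ 2 * (∫ x in cube, φ x ^ 2 * rsq (cu v x)) + 4 * M * ∫ x in cube, rsq (v x) := by
  have hφ2 := sp_sq hφ
  have hF : ∀ i j, SP fun x => φ x ^ 2 * (v x i * pd i (fun y => v y j) x) := fun i j =>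
    hφ2.mul ((hv i).mul ((hv j).pd i))
  have h1 : ∫ x in cube, ∑ i, ∑ j, pd j (fun x => φ x ^ 2 * (v x i * pd i (fun y => v y j) x)) x
      = 0 := by
    rw [integral_finsetSum _ fun i _ => (SP.sum fun j _ => (hF i j).pd j).int]
    refine Finset.sum_eq_zero fun i _ => ?_
    rw [integral_finsetSum _ fun j _ => ((hF i j).pd j).int]
    exact Finset.sum_eq_zero fun j _ => int_pd_zero (hF i j) j
  have hopen : IsOpen {x | φ x ≠ 0} := isOpen_ne_fun hφ.cont continuous_const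
  have e1 : ∀ x, ∑ i, ∑ j, pd j (fun x => φ x ^ 2 * (v x i * pd i (fun y => v y j) x)) x
      = (∑ i, ∑ j, 2 * (φ x * pd j φ x) * (v x i * pd i (fun y => v y j) x))
        + φ x ^ 2 * ∑ i, ∑ j, pd j (fun y => v y i) x * pd i (fun y => v y j) x := by
    intro x
    have e2 : ∀ i j, pd j (fun x => φ x ^ 2 * (v x i * pd i (fun y => v y j) x)) x
        = 2 * (φ x * pd j φ x) * (v x i * pd i (fun y => v y j) x)
          + φ x ^ 2 * (pd j (fun y => v y i) x * pd i (fun y => v y j) x)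
          + φ x ^ 2 * (v x i * pd i (pd j (fun y => v y j)) x) := by
      intro i j
      rw [pd_mul hφ2 ((hv i).mul ((hv j).pd i)), pd_sq hφ, pd_mul (hv i) ((hv j).pd i),
        pd_comm (hv j) j i]
      ring
    simp_rw [e2, Finset.sum_add_distrib]
    have e3 : ∑ i, ∑ j, φ x ^ 2 * (v x i * pd i (pd j (fun y => v y j)) x) = 0 := by
      by_cases h : φ x = 0
      · rw [h]; simp
      · refine Finset.sum_eq_zero fun i _ => ?_
        have e4 : pd i (fun y => ∑ j, pd j (fun z => v z j) y) x = 0 := by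
          have : (fun y => ∑ j, pd j (fun z => v z j) y) =ᶠ[𝓝 x] fun _ => (0 : ℝ) := by
            filter_upwards [hopen.mem_nhds h] with y hy
            exact hd y hy
          rw [pd_congr_nhds this]
          unfold pd
          simp
        rw [pd_sum (fun j _ => (hv j).pd j)] at e4
        rw [← Finset.mul_sum, ← Finset.mul_sum, e4]
        ring
    rw [e3, add_zero]
    congr 1
    simp_rw [Finset.mul_sum]
  simp_rw [e1] at h1
  have s1 : SP fun x => ∑ i, ∑ j, 2 * (φ x * pd j φ x) * (v x i * pd i (fun y => v y j) x) :=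
    SP.sum fun i _ => SP.sum fun j _ => (sp_cmul 2 (hφ.mul (hφ.pd j))).mul
      ((hv i).mul ((hv j).pd i))
  have s2 : SP fun x => φ x ^ 2 * ∑ i, ∑ j, pd j (fun y => v y i) x * pd i (fun y => v y j) x :=
    hφ2.mul (SP.sum fun i _ => SP.sum fun j _ => ((hv i).pd j).mul ((hv j).pd i))
  rw [integral_add s1.int s2.int] at h1
  have s3 : SP fun x => φ x ^ 2 * rsq (cu v x) := hφ2.mul (sp_rsq (sp_cu hv))
  have s4 : SP fun x => φ x ^ 2 * G2 v x := hφ2.mul (sp_G2 hv)
  have h2 : ∫ x in cube, φ x ^ 2 * G2 v x = (∫ x in cube, φ x ^ 2 * rsq (cu v x))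
      + ∫ x in cube, φ x ^ 2 * ∑ i, ∑ j, pd j (fun y => v y i) x * pd i (fun y => v y j) x := by
    rw [← integral_add s3.int s2.int]
    congr 1
    funext x
    rw [G2_eq_cu]
    ring
  have h3 : -∫ x in cube, ∑ i, ∑ j, 2 * (φ x * pd j φ x) * (v x i * pd i (fun y => v y j) x)
      ≤ 1 / 2 * (∫ x in cube, φ x ^ 2 * G2 v x) + 2 * M * ∫ x in cube, rsq (v x) := by
    rw [← integral_neg, ← integral_const_mul, ← integral_const_mul,
      ← integral_add (s4.int.const_mul _) ((sp_rsq hv).int.const_mul _)]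
    refine setIntegral_mono s1.int.neg ((s4.int.const_mul _).add
      ((sp_rsq hv).int.const_mul _)) fun x => ?_
    have h5 : 2 * (gr2 φ x * rsq (v x)) ≤ 2 * M * rsq (v x) := by
      have := mul_le_mul_of_nonneg_right (hM x) (rsq_nonneg (v x))
      linarith
    refine le_trans ?_ (add_le_add le_rfl h5)
    unfold G2 gr2 rsq
    simp only [Fin.sum_univ_three]
    set a := φ x
    nlinarith [sq_nonneg (a * pd 0 (fun y => v y 0) x + 2 * (pd 0 φ x * v x 0)),
      sq_nonneg (a * pd 0 (fun y => v y 1) x + 2 * (pd 1 φ x * v x 0)),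
      sq_nonneg (a * pd 0 (fun y => v y 2) x + 2 * (pd 2 φ x * v x 0)),
      sq_nonneg (a * pd 1 (fun y => v y 0) x + 2 * (pd 0 φ x * v x 1)),
      sq_nonneg (a * pd 1 (fun y => v y 1) x + 2 * (pd 1 φ x * v x 1)),
      sq_nonneg (a * pd 1 (fun y => v y 2) x + 2 * (pd 2 φ x * v x 1)),
      sq_nonneg (a * pd 2 (fun y => v y 0) x + 2 * (pd 0 φ x * v x 2)),
      sq_nonneg (a * pd 2 (fun y => v y 1) x + 2 * (pd 1 φ x * v x 2)),
      sq_nonneg (a * pd 2 (fun y => v y 2) x + 2 * (pd 2 φ x * v x 2))]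
  linarith

end Pool.Agent.R210
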