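import Pool.Agent.R210.N10

/-!
The evolution of the localized enstrophy.
-/

open MeasureTheory Set Metric Filter Topology
open scoped ContDiff ENNReal
open H459R3.NS

namespace Pool.Agent.R210

/-- The integrand of the derivative of the localized enstrophy, at one component. -/
noncomputable def rhsI (ν : ℝ) (v g : V → V) (i : Fin 3) (x : V) : ℝ :=
  ν * lap (fun y => cu v y i) x - (∑ j, v x j * pd j (fun y => cu v y i) x)
    + (∑ j, cu v x j * pd j (fun y => v y i) x) + cu g x i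

/-- The derivative of the localized enstrophy. -/
noncomputable def JJ (ν : ℝ) (φ : V → ℝ) (v g : V → V) : ℝ :=
  ∫ x in cube, φ x ^ 2 * ∑ i, 2 * (cu v x i * rhsI ν v g i x)

theorem LP.Y_hasDerivAt {ν T : ℝ} {u : ℝ → V → V} {p : ℝ → V → ℝ} {f : ℝ → V → V} {O : Set V}
    (h : LP ν T u p f O) {φ : V → ℝ} (hφ : SP φ) (hφO : ∀ x, φ x ≠ 0 → x ∈ O) {t : ℝ}
    (ht : t ∈ Ioo 0 T) :
    HasDerivAt (fun s => ∫ x in cube, φ x ^ 2 * rsq (cu (u s) x)) (JJ ν φ (u t) (f t)) t := by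
  have hF : ContDiffOn ℝ 1 (fun z : ℝ × V => φ z.2 ^ 2 * rsq (cu (u z.1) z.2))
      (Ioo 0 T ×ˢ univ) := by
    have h1 : ContDiffOn ℝ 1 (fun z : ℝ × V => ∑ i, cu (u z.1) z.2 i ^ 2) (Ioo 0 T ×ˢ univ) :=
      ContDiffOn.sum fun i _ =>
        (mono_Ioo (f := fun s y => cu (u s) y i) (h.smooth_cu i) (by norm_cast)).pow 2
    have h2 : ContDiff ℝ 1 (fun z : ℝ × V => φ z.2 ^ 2) :=
      ((hφ.smooth.of_le (by norm_cast)).comp contDiff_snd).pow 2
    exact h2.contDiffOn.mul h1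
  have key := hasDerivAt_int (F := fun s x => φ x ^ 2 * rsq (cu (u s) x)) hF ht
  refine key.congr_deriv ?_
  unfold JJ
  congr 1
  funext x
  by_cases hx : φ x = 0
  · rw [hx]
    simp
  · have hxO := hφO x hx
    have h1 : HasDerivAt (fun s => φ x ^ 2 * rsq (cu (u s) x))
        (φ x ^ 2 * ∑ i, 2 * (cu (u t) x i * rhsI ν (u t) (f t) i x)) t := by
      refine HasDerivAt.const_mul _ ?_
      have h2 : HasDerivAt (fun s => ∑ i, cu (u s) x i ^ 2)
          (∑ i, 2 * (cu (u t) x i * rhsI ν (u t) (f t) i x)) t := by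
        refine HasDerivAt.fun_sum fun i _ => ?_
        refine ((h.vort_eq ht i hxO).pow 2).congr_deriv ?_
        unfold rhsI
        push_cast
        ring
      exact h2
    exact h1.deriv

theorem int_lin4 {A B C D : V → ℝ} (hA : SP A) (hB : SP B) (hC : SP C) (hD : SP D)
    (a b c d : ℝ) : ∫ x in cube, (a * A x - b * B x + c * C x + d * D x)
      = a * (∫ x in cube, A x) - b * (∫ x in cube, B x) + c * (∫ x in cube, C x)
        + d * ∫ x in cube, D x := by
  have iA := hA.int.const_mul a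
  have iB := hB.int.const_mul b
  have iC := hC.int.const_mul c
  have iD := hD.int.const_mul d
  have h1 : ∫ x in cube, (a * A x - b * B x + c * C x + d * D x)
      = (∫ x in cube, (a * A x - b * B x + c * C x)) + ∫ x in cube, d * D x :=
    integral_add ((iA.sub iB).add iC) iD
  have h2 : ∫ x in cube, (a * A x - b * B x + c * C x)
      = (∫ x in cube, (a * A x - b * B x)) + ∫ x in cube, c * C x :=
    integral_add (iA.sub iB) iC
  have h3 : ∫ x in cube, (a * A x - b * B x)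
      = (∫ x in cube, a * A x) - ∫ x in cube, b * B x := integral_sub iA iB
  rw [h1, h2, h3, integral_const_mul, integral_const_mul, integral_const_mul, integral_const_mul]

theorem sqrt_mul_le {a b c d : ℝ} (h : a ^ 2 ≤ b * c) (hb : b ≤ d ^ 2) (hc : 0 ≤ c) (hd : 0 ≤ d) :
    |a| ≤ d * Real.sqrt c := by
  refine abs_le_of_sq_le_sq ?_ (by positivity)
  rw [mul_pow, Real.sq_sqrt hc]
  exact h.trans (mul_le_mul_of_nonneg_right hb hc)

/-- The bound of the derivative. -/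
theorem JJ_le {ν M : ℝ} (hν : 0 < ν) {χ : V → ℝ} (hχ : SP χ)
    (hχ0 : ∀ x, 0 ≤ χ x) (hχ1 : ∀ x, χ x ≤ 1) (hM : ∀ x, gr2 χ x ≤ M ^ 2) (hM0 : 0 ≤ M)
    {v g : V → V} (hv : ∀ i, SP (fun x => v x i)) (hg : ∀ i, SP (fun x => g x i))
    (hd : ∀ x, χ x ≠ 0 → dv v x = 0) {F : ℝ} (hF : ∀ x, χ x ≠ 0 → rsq (cu g x) ≤ F) (hF0 : 0 ≤ F) :
    JJ ν (fun x => χ x ^ 2) v g
      ≤ -(ν * ∫ x in cube, (χ x ^ 2) ^ 2 * G2 (cu v) x) + 32 * ν * M ^ 2 * enstrophy v
        + 4 * M * (∫ x in cube, en (v x) * (χ x ^ 3 * rsq (cu v x)))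
        + 2 * Nw (fun x => χ x ^ 2 • cu v x) v
        + (∫ x in cube, (χ x ^ 2) ^ 2 * rsq (cu v x)) + F := by
  have hφ : SP fun x => χ x ^ 2 := sp_sq hχ
  have hφ2 : SP fun x => (χ x ^ 2) ^ 2 := sp_sq hφ
  have hom := sp_cu hv
  have hcg := sp_cu hg
  have hdφ : ∀ x, χ x ^ 2 ≠ 0 → dv v x = 0 := fun x hx => hd x fun h => hx (by rw [h]; ring)
  -- the four parts
  have s1 : ∀ i, SP fun x => (χ x ^ 2) ^ 2 * (cu v x i * lap (fun y => cu v y i) x) := fun i =>
    hφ2.mul ((hom i).mul (hom i).lap)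
  have s2 : ∀ i, SP fun x => (χ x ^ 2) ^ 2
      * (cu v x i * ∑ j, v x j * pd j (fun y => cu v y i) x) := fun i =>
    hφ2.mul ((hom i).mul (SP.sum fun j _ => (hv j).mul ((hom i).pd j)))
  have s3 : ∀ i, SP fun x => (χ x ^ 2) ^ 2
      * (cu v x i * ∑ j, cu v x j * pd j (fun y => v y i) x) := fun i =>
    hφ2.mul ((hom i).mul (SP.sum fun j _ => (hom j).mul ((hv i).pd j)))
  have s4 : ∀ i, SP fun x => (χ x ^ 2) ^ 2 * (cu v x i * cu g x i) := fun i =>
    hφ2.mul ((hom i).mul (hcg i))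
  have e1 : JJ ν (fun x => χ x ^ 2) v g
      = 2 * ν * (∑ i, ∫ x in cube, (χ x ^ 2) ^ 2 * (cu v x i * lap (fun y => cu v y i) x))
        - 2 * (∑ i, ∫ x in cube, (χ x ^ 2) ^ 2
          * (cu v x i * ∑ j, v x j * pd j (fun y => cu v y i) x))
        + 2 * (∑ i, ∫ x in cube, (χ x ^ 2) ^ 2
          * (cu v x i * ∑ j, cu v x j * pd j (fun y => v y i) x))
        + 2 * ∑ i, ∫ x in cube, (χ x ^ 2) ^ 2 * (cu v x i * cu g x i) := by
    rw [← integral_finsetSum _ fun i _ => (s1 i).int, ← integral_finsetSum _ fun i _ => (s2 i).int,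
      ← integral_finsetSum _ fun i _ => (s3 i).int, ← integral_finsetSum _ fun i _ => (s4 i).int,
      ← int_lin4 (SP.sum fun i _ => s1 i) (SP.sum fun i _ => s2 i) (SP.sum fun i _ => s3 i)
        (SP.sum fun i _ => s4 i)]
    unfold JJ rhsI
    congr 1
    funext x
    simp only [Fin.sum_univ_three]
    ring
  -- diffusion
  have h1 : ∑ i, ∫ x in cube, (χ x ^ 2) ^ 2 * (cu v x i * lap (fun y => cu v y i) x)
      ≤ -(1 / 2 * ∫ x in cube, (χ x ^ 2) ^ 2 * G2 (cu v) x) + 16 * M ^ 2 * enstrophy v := by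
    have a1 : ∀ i, _ := fun i => s_lap (hom i) hφ
    refine (Finset.sum_le_sum fun i _ => a1 i).trans ?_
    rw [Finset.sum_add_distrib, Finset.sum_neg_distrib, ← Finset.mul_sum, ← Finset.mul_sum]
    have a2 : ∑ i, ∫ x in cube, (χ x ^ 2) ^ 2 * gr2 (fun y => cu v y i) x
        = ∫ x in cube, (χ x ^ 2) ^ 2 * G2 (cu v) x := by
      rw [← integral_finsetSum _ fun i _ => (hφ2.mul (sp_gr2 (hom i))).int]
      congr 1
      funext x
      unfold G2
      rw [Finset.mul_sum]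
    have a3 : ∑ i, ∫ x in cube, gr2 (fun x => χ x ^ 2) x * cu v x i ^ 2
        ≤ 4 * M ^ 2 * ∫ x in cube, rsq (cu v x) := by
      rw [← integral_finsetSum _ fun i _ => ((sp_gr2 hφ).mul (sp_sq (hom i))).int,
        ← integral_const_mul]
      refine setIntegral_mono (SP.sum fun i _ => (sp_gr2 hφ).mul (sp_sq (hom i))).int
        ((sp_rsqG hom).int.const_mul _) fun x => ?_
      beta_reduce
      rw [← Finset.mul_sum]
      refine mul_le_mul_of_nonneg_right ?_ (rsq_nonneg _)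
      have b1 : gr2 (fun x => χ x ^ 2) x = 4 * (χ x ^ 2 * gr2 χ x) := by
        unfold gr2
        simp_rw [pd_sq hχ, Fin.sum_univ_three]
        ring
      rw [b1]
      have b2 : χ x ^ 2 ≤ 1 := pow_le_one₀ (hχ0 x) (hχ1 x)
      have b3 := gr2_nonneg χ x
      have b4 := hM x
      nlinarith [sq_nonneg (χ x)]
    have a4 := int_rsq_cu hv
    rw [a2]
    have a5 : 4 * M ^ 2 * ∫ x in cube, rsq (cu v x) ≤ 4 * M ^ 2 * (2 * enstrophy v) :=
      mul_le_mul_of_nonneg_left a4 (by positivity)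
    linarith
  -- transport
  have h2 : -∑ i, ∫ x in cube, (χ x ^ 2) ^ 2
      * (cu v x i * ∑ j, v x j * pd j (fun y => cu v y i) x)
      ≤ 2 * M * ∫ x in cube, en (v x) * (χ x ^ 3 * rsq (cu v x)) := by
    have a1 : ∀ i, _ := fun i => s_tr (hom i) hφ hv hdφ
    simp_rw [a1]
    rw [Finset.sum_neg_distrib, neg_neg]
    have a2 : ∀ i, SP fun x => χ x ^ 2 * (∑ j, v x j * pd j (fun x => χ x ^ 2) x)
        * cu v x i ^ 2 := fun i =>
      (hφ.mul (SP.sum fun j _ => (hv j).mul (hφ.pd j))).mul (sp_sq (hom i))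
    have cv : Continuous fun x => en (v x) := f_cont hv
    rw [← integral_finsetSum _ fun i _ => (a2 i).int, ← integral_const_mul]
    refine setIntegral_mono (SP.sum fun i _ => a2 i).int (integrableOn_cube
      (continuous_const.mul (cv.mul ((hχ.cont.pow 3).mul (sp_rsqG hom).cont)))) fun x => ?_
    beta_reduce
    rw [← Finset.mul_sum]
    have b0 : ∑ i, cu v x i ^ 2 = rsq (cu v x) := rfl
    rw [b0]
    have b1 : ∑ j, v x j * pd j (fun x => χ x ^ 2) x = 2 * χ x * ∑ j, v x j * pd j χ x := by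
      simp_rw [pd_sq hχ, Fin.sum_univ_three]
      ring
    rw [b1]
    have b2 : ∑ j, v x j * pd j χ x ≤ M * en (v x) := by
      have c1 := cs3 (fun j => pd j χ x) (v x)
      have c2 : rsq (fun j => pd j χ x) ≤ M ^ 2 := hM x
      have c3 := sqrt_mul_le c1 c2 (rsq_nonneg _) hM0
      refine (le_abs_self _).trans (le_trans (le_of_eq ?_) c3)
      congr 1
      exact Finset.sum_congr rfl fun j _ => mul_comm _ _
    have b3 := rsq_nonneg (cu v x)
    have b4 : 0 ≤ χ x ^ 3 := pow_nonneg (hχ0 x) 3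
    calc χ x ^ 2 * (2 * χ x * ∑ j, v x j * pd j χ x) * rsq (cu v x)
        = 2 * (χ x ^ 3 * rsq (cu v x)) * ∑ j, v x j * pd j χ x := by ring
      _ ≤ 2 * (χ x ^ 3 * rsq (cu v x)) * (M * en (v x)) :=
          mul_le_mul_of_nonneg_left b2 (by positivity)
      _ = 2 * M * (en (v x) * (χ x ^ 3 * rsq (cu v x))) := by ring
  -- stretching
  have h3 : ∑ i, ∫ x in cube, (χ x ^ 2) ^ 2
      * (cu v x i * ∑ j, cu v x j * pd j (fun y => v y i) x)
      = Nw (fun x => χ x ^ 2 • cu v x) v := by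
    rw [← integral_finsetSum _ fun i _ => (s3 i).int]
    unfold Nw
    congr 1
    funext x
    simp only [Fin.sum_univ_three, Pi.smul_apply, smul_eq_mul]
    ring
  -- force
  have h4 : 2 * ∑ i, ∫ x in cube, (χ x ^ 2) ^ 2 * (cu v x i * cu g x i)
      ≤ (∫ x in cube, (χ x ^ 2) ^ 2 * rsq (cu v x)) + F := by
    have a0 : (volume : Measure V).real cube = 1 := by rw [measureReal_def, volume_cube]; rfl
    have a1 : F = ∫ _ in cube, F := by
      rw [setIntegral_const, a0, one_smul]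
    rw [a1, ← integral_finsetSum _ fun i _ => (s4 i).int, ← integral_const_mul,
      ← integral_add (hφ2.mul (sp_rsqG hom)).int (integrableOn_cube continuous_const)]
    refine setIntegral_mono ((SP.sum fun i _ => s4 i).int.const_mul 2)
      ((hφ2.mul (sp_rsqG hom)).int.add (integrableOn_cube continuous_const)) fun x => ?_
    beta_reduce
    have b1 : (χ x ^ 2) ^ 2 ≤ 1 := pow_le_one₀ (sq_nonneg _) (pow_le_one₀ (hχ0 x) (hχ1 x))
    have b2 : (χ x ^ 2) ^ 2 * rsq (cu g x) ≤ F := by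
      by_cases hx : χ x = 0
      · rw [hx]; simpa using hF0
      · have b3 := hF x hx
        have b4 := rsq_nonneg (cu g x)
        nlinarith [sq_nonneg (χ x ^ 2)]
    have b5 : 2 * ∑ i, (χ x ^ 2) ^ 2 * (cu v x i * cu g x i)
        ≤ (χ x ^ 2) ^ 2 * rsq (cu v x) + (χ x ^ 2) ^ 2 * rsq (cu g x) := by
      unfold rsq
      simp only [Fin.sum_univ_three]
      nlinarith [mul_nonneg (sq_nonneg (χ x ^ 2)) (sq_nonneg (cu v x 0 - cu g x 0)),
        mul_nonneg (sq_nonneg (χ x ^ 2)) (sq_nonneg (cu v x 1 - cu g x 1)),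
        mul_nonneg (sq_nonneg (χ x ^ 2)) (sq_nonneg (cu v x 2 - cu g x 2))]
    linarith
  rw [e1, h3]
  have h5 := mul_le_mul_of_nonneg_left h1 (by positivity : 0 ≤ 2 * ν)
  linarith

end Pool.Agent.R210
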