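import Pool.Agent.R210.N11

/-!
The differential inequality and the bound of the localized enstrophy.
-/

open MeasureTheory Set Metric Filter Topology
open scoped ContDiff ENNReal
open H459R3.NS

namespace Pool.Agent.R210

theorem log_gron {y y' : ℝ → ℝ} {a T : ℝ} {G : ℝ → ℝ} {P : ℝ → Prop}
    (hy : ∀ t ∈ Ico a T, 0 ≤ y t) (hd : ∀ t ∈ Ico a T, HasDerivAt y (y' t) t)
    (hG0 : ∀ t, 0 ≤ G t) (hGi : IntegrableOn G (Ioo a T))
    (hP : ∀ᵐ t ∂volume.restrict (Ioo a T), P t)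
    (hle : ∀ t ∈ Ioo a T, P t → y' t ≤ G t * (1 + y t)) : ∃ A, ∀ t ∈ Ico a T, y t ≤ A := by
  classical
  refine ⟨Real.exp (Real.log (1 + y a) + ∫ s in Ioo a T, G s), fun t ht => ?_⟩
  set φ : ℝ → ℝ := fun s => if P s then G s else y' s / (1 + y s) with hφ
  have hat : a ≤ t := ht.1
  have hIa : a ∈ Ico a T := ⟨le_rfl, ht.1.trans_lt ht.2⟩
  have hsub : Ioc a t ⊆ Ioo a T := fun s hs => ⟨hs.1, hs.2.trans_lt ht.2⟩
  have hsubI : Icc a t ⊆ Ico a T := fun s hs => ⟨hs.1, hs.2.trans_lt ht.2⟩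
  have hLd : ∀ s ∈ Ico a T, HasDerivAt (fun s => Real.log (1 + y s)) (y' s / (1 + y s)) s := by
    intro s hs
    have h1 : HasDerivAt (fun s => 1 + y s) (y' s) s := (hd s hs).const_add 1
    exact h1.log (by have := hy s hs; positivity)
  have hae : G =ᵐ[volume.restrict (Ioc a t)] φ := by
    have h1 : ∀ᵐ s ∂volume.restrict (Ioc a t), P s :=
      ae_mono (Measure.restrict_mono hsub le_rfl) hP
    filter_upwards [h1] with s hs
    simp only [hφ, if_pos hs]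
  have hφi : IntegrableOn φ (Icc a t) := by
    rw [integrableOn_Icc_iff_integrableOn_Ioc]
    exact (hGi.mono_set hsub).congr hae
  have h1 := intervalIntegral.sub_le_integral_of_hasDeriv_right_of_le hat
    (fun s hs => (hLd s (hsubI hs)).continuousAt.continuousWithinAt)
    (fun s hs => (hLd s (hsubI ⟨hs.1.le, hs.2.le⟩)).hasDerivWithinAt) hφi
    (fun s hs => by
      have hs' : s ∈ Ioo a T := ⟨hs.1, hs.2.trans ht.2⟩
      have hpos : 0 < 1 + y s := by have := hy s ⟨hs'.1.le, hs'.2⟩; linarith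
      simp only [hφ]
      split_ifs with hPs
      · rw [div_le_iff₀ hpos]
        exact hle s hs' hPs
      · exact le_rfl)
  rw [intervalIntegral.integral_of_le hat, ← integral_congr_ae hae] at h1
  have h2 : ∫ s in Ioc a t, G s ≤ ∫ s in Ioo a T, G s :=
    setIntegral_mono_set hGi (Filter.Eventually.of_forall hG0) hsub.eventuallyLE
  have hpos : 0 < 1 + y t := by have := hy t ht; linarith
  have h3 : Real.log (1 + y t) ≤ Real.log (1 + y a) + ∫ s in Ioo a T, G s := by linarith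
  have h4 := (Real.log_le_iff_le_exp hpos).1 h3
  linarith

theorem diffineq {β ν K E0 R1 M F : ℝ} (hβ0 : 0 < β) (hβ1 : β ≤ 1) (hν : 0 < ν) (hK : 0 < K)
    (hE0 : 0 ≤ E0) (hR1 : 0 < R1) (hR11 : R1 ≤ 1) (hM0 : 0 ≤ M) (hF0 : 0 ≤ F) :
    ∃ C : ℝ, 0 ≤ C ∧ ∀ (v g : V → V) (χ : V → ℝ) (c m : ℝ), (∀ i, SP (fun x => v x i)) →
      (∀ i, SP (fun x => g x i)) → SP χ → (∀ x, 0 ≤ χ x) → (∀ x, χ x ≤ 1) →
      (∀ x, gr2 χ x ≤ M ^ 2) →
      (∀ x, χ x ≠ 0 → (∀ y ∈ eb x R1, dv v y = 0) ∧ DirL (cu v) K c β (eb x R1)) →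
      (∀ x, χ x ≠ 0 → rsq (cu g x) ≤ F) →
      1 ≤ c → 1 ≤ m → c ^ ((1 + 2 * β) / β ^ 2) ≤ m → ∫ x in cube, rsq (v x) ≤ E0 ^ 2 →
      JJ ν (fun x => χ x ^ 2) v g
        ≤ C * (m + enstrophy v) * (1 + ∫ x in cube, (χ x ^ 2) ^ 2 * rsq (cu v x)) := by
  obtain ⟨C1, hC1, hst⟩ := stat (ε := ν / 4) (M1 := 4 * M ^ 2) hβ0 hβ1 (by positivity) hK hE0 hR1
    hR11 (by positivity)
  have hε2 : 0 < ν / (32 * (M + 1)) := by positivity
  obtain ⟨C2, hC2, htr⟩ := transp hε2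
  refine ⟨34 * ν * M ^ 2 + ν / 8 + 4 * M * C2 * (1 + E0 ^ 2) + 2 * C1 + 1 + F, by positivity, ?_⟩
  intro v g χ c m hv hg hχ hχ0 hχ1 hM hdir hgF hc hm hcm hE
  have hφ : SP fun x => χ x ^ 2 := sp_sq hχ
  have hφ2 : SP fun x => (χ x ^ 2) ^ 2 := sp_sq hφ
  have hom := sp_cu hv
  have hself : ∀ x : V, x ∈ eb x R1 := fun x => by
    show rsq (x - x) < R1 ^ 2
    rw [sub_self]
    have : rsq (0 : V) = 0 := by simp [rsq]
    rw [this]; positivity
  have hM1 : ∀ x, gr2 (fun x => χ x ^ 2) x ≤ 4 * M ^ 2 := by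
    intro x
    have b1 : gr2 (fun x => χ x ^ 2) x = 4 * (χ x ^ 2 * gr2 χ x) := by
      unfold gr2
      simp_rw [pd_sq hχ, Fin.sum_univ_three]
      ring
    rw [b1]
    have b2 : χ x ^ 2 ≤ 1 := pow_le_one₀ (hχ0 x) (hχ1 x)
    have b3 := gr2_nonneg χ x
    have b4 := hM x
    nlinarith [sq_nonneg (χ x)]
  have hJ := JJ_le hν hχ hχ0 hχ1 hM hM0 hv hg (fun x hx => (hdir x hx).1 x (hself x)) hgF hF0
  have hS := hst v (fun x => χ x ^ 2) c m hv hφ (fun x => sq_nonneg _)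
    (fun x => pow_le_one₀ (hχ0 x) (hχ1 x)) hM1
    (fun x hx => hdir x fun h => hx (by rw [h]; ring)) hc hm hcm hE
  have hT := htr v χ hv hχ hχ0
  have hrs : ∫ x in cube, rsq (χ x ^ 2 • cu v x) = ∫ x in cube, (χ x ^ 2) ^ 2 * rsq (cu v x) := by
    simp_rw [rsq_smul]
  rw [hrs] at hT
  set D := ∫ x in cube, (χ x ^ 2) ^ 2 * G2 (cu v) x with hD
  set y := ∫ x in cube, (χ x ^ 2) ^ 2 * rsq (cu v x) with hy
  set T3 := ∫ x in cube, en (v x) * (χ x ^ 3 * rsq (cu v x)) with hT3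
  set e := enstrophy v with he
  set N := Nw (fun x => χ x ^ 2 • cu v x) v with hN
  have hD0 : 0 ≤ D := integral_nonneg fun x => mul_nonneg (sq_nonneg _) (G2_nonneg _ _)
  have hy0 : 0 ≤ y := integral_nonneg fun x => mul_nonneg (sq_nonneg _) (rsq_nonneg _)
  have he0 : 0 ≤ e := enstrophy_nonneg v
  have hGle : ∫ x in cube, G2 (fun x => χ x ^ 2 • cu v x) x ≤ 2 * D + 16 * M ^ 2 * e := by
    have a1 : ∫ x in cube, G2 (fun x => χ x ^ 2 • cu v x) x
        ≤ ∫ x in cube, (2 * ((χ x ^ 2) ^ 2 * G2 (cu v) x) + 8 * M ^ 2 * rsq (cu v x)) := by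
      refine setIntegral_mono (sp_G2 (sp_fw hφ hom)).int
        (((hφ2.mul (sp_G2 hom)).int.const_mul 2).add ((sp_rsqG hom).int.const_mul _)) fun x => ?_
      refine (G2_fw hφ hom x).trans ?_
      have := mul_le_mul_of_nonneg_right (hM1 x) (rsq_nonneg (cu v x))
      beta_reduce
      linarith
    have a2 : ∫ x in cube, (2 * ((χ x ^ 2) ^ 2 * G2 (cu v) x) + 8 * M ^ 2 * rsq (cu v x))
        = 2 * D + 8 * M ^ 2 * ∫ x in cube, rsq (cu v x) := by
      rw [integral_add ((hφ2.mul (sp_G2 hom)).int.const_mul 2) ((sp_rsqG hom).int.const_mul _),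
        integral_const_mul, integral_const_mul]
    have a3 := mul_le_mul_of_nonneg_left (int_rsq_cu hv) (by positivity : 0 ≤ 8 * M ^ 2)
    rw [a2] at a1
    linarith
  have hT' : T3 ≤ ν / (32 * (M + 1)) * (2 * D + 16 * M ^ 2 * e + y)
      + C2 * ((e + E0 ^ 2) * (1 + y)) := by
    refine hT.trans (add_le_add (mul_le_mul_of_nonneg_left (by linarith) hε2.le)
      (mul_le_mul_of_nonneg_left (mul_le_mul_of_nonneg_right (by linarith) (by linarith)) hC2))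
  have hq : 4 * M * (ν / (32 * (M + 1))) ≤ ν / 8 := by
    rw [← mul_div_assoc, div_le_div_iff₀ (by positivity) (by norm_num)]
    nlinarith
  have hT'' : 4 * M * T3 ≤ ν / 8 * (2 * D + 16 * M ^ 2 * e + y)
      + 4 * M * C2 * ((e + E0 ^ 2) * (1 + y)) := by
    have a1 := mul_le_mul_of_nonneg_left hT' (by positivity : 0 ≤ 4 * M)
    have a2 : 0 ≤ 2 * D + 16 * M ^ 2 * e + y := by positivity
    have a3 := mul_le_mul_of_nonneg_right hq a2
    calc 4 * M * T3 ≤ _ := a1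
      _ = 4 * M * (ν / (32 * (M + 1))) * (2 * D + 16 * M ^ 2 * e + y)
          + 4 * M * C2 * ((e + E0 ^ 2) * (1 + y)) := by ring
      _ ≤ _ := by linarith
  have hN' : 2 * N ≤ ν / 2 * D + 2 * C1 * (m * y + e) := by
    have := (le_abs_self N).trans hS
    linarith
  set Q := (m + e) * (1 + y) with hQ
  have q1 : e ≤ Q := by rw [hQ]; nlinarith [mul_nonneg he0 hy0]
  have q2 : y ≤ Q := by rw [hQ]; nlinarith [mul_nonneg he0 hy0]
  have q3 : 1 ≤ Q := by rw [hQ]; nlinarith [mul_nonneg he0 hy0]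
  have q4 : (e + E0 ^ 2) * (1 + y) ≤ (1 + E0 ^ 2) * Q := by
    rw [hQ]
    have : e + E0 ^ 2 ≤ (1 + E0 ^ 2) * (m + e) := by nlinarith [sq_nonneg E0]
    calc (e + E0 ^ 2) * (1 + y) ≤ (1 + E0 ^ 2) * (m + e) * (1 + y) :=
          mul_le_mul_of_nonneg_right this (by linarith)
      _ = _ := by ring
  have q5 : m * y + e ≤ Q := by rw [hQ]; nlinarith [mul_nonneg he0 hy0]
  have r1 : 34 * ν * M ^ 2 * e ≤ 34 * ν * M ^ 2 * Q :=
    mul_le_mul_of_nonneg_left q1 (by positivity)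
  have r2 : ν / 8 * y ≤ ν / 8 * Q := mul_le_mul_of_nonneg_left q2 (by positivity)
  have r3 : 4 * M * C2 * ((e + E0 ^ 2) * (1 + y)) ≤ 4 * M * C2 * ((1 + E0 ^ 2) * Q) :=
    mul_le_mul_of_nonneg_left q4 (by positivity)
  have r4 : 2 * C1 * (m * y + e) ≤ 2 * C1 * Q := mul_le_mul_of_nonneg_left q5 (by positivity)
  have r5 : F ≤ F * Q := le_mul_of_one_le_right hF0 q3
  have r6 : 0 ≤ ν * D := by positivity
  calc JJ ν (fun x => χ x ^ 2) v g
      ≤ (34 * ν * M ^ 2 + ν / 8 + 4 * M * C2 * (1 + E0 ^ 2) + 2 * C1 + 1 + F) * Q := by linarith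
    _ = _ := by rw [hQ]; ring

/-- The bound of the localized enstrophy up to the final time. -/
theorem LP.bound {ν T : ℝ} {u : ℝ → V → V} {p : ℝ → V → ℝ} {f : ℝ → V → V} {O : Set V}
    (h : LP ν T u p f O) (hν : 0 < ν) (hT : 0 < T) {β K E0 R1 F : ℝ} (hβ0 : 0 < β) (hβ1 : β ≤ 1)
    (hE0 : 0 ≤ E0) (hR1 : 0 < R1) (hR11 : R1 ≤ 1) (hF0 : 0 ≤ F)
    {χ : V → ℝ} (hχ : SP χ) (hχ0 : ∀ x, 0 ≤ χ x) (hχ1 : ∀ x, χ x ≤ 1)
    (hχO : ∀ x, χ x ≠ 0 → eb x R1 ⊆ O)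
    (hE : ∀ t ∈ Ioo 0 T, ∫ x in cube, rsq (u t x) ≤ E0 ^ 2)
    (hen : IntegrableOn (fun t => enstrophy (u t)) (Ioo 0 T))
    (hF : ∀ t ∈ Ioo 0 T, ∀ x ∈ O, rsq (cu (f t) x) ≤ F)
    {c : ℝ → ℝ}
    (hc : MemLp c (ENNReal.ofReal ((1 + 2 * β) / β ^ 2)) (volume.restrict (Ioo 0 T)))
    (hdir : ∀ᵐ t ∂volume.restrict (Ioo 0 T), ∀ x, χ x ≠ 0 → DirL (cu (u t)) K (c t) β (eb x R1)) :
    ∃ A : ℝ, ∀ t ∈ Ico (T / 2) T, ∫ x in cube, (χ x ^ 2) ^ 2 * rsq (cu (u t) x) ≤ A := by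
  -- the bound of the gradient of the cut-off
  obtain ⟨M, hM0, hM⟩ : ∃ M : ℝ, 0 ≤ M ∧ ∀ x, gr2 χ x ≤ M ^ 2 := by
    obtain ⟨B, hB0, hB⟩ := per_bound (gr2_cont hχ) (gr2_per hχ)
    refine ⟨B + 1, by positivity, fun x => ?_⟩
    have h1 : gr2 χ x ≤ B := (le_abs_self _).trans (hB x)
    nlinarith
  set L : ℝ := max K 1 with hL
  have hL0 : 0 < L := lt_max_of_lt_right one_pos
  obtain ⟨C, hC0, hC⟩ := diffineq (M := M) hβ0 hβ1 hν hL0 hE0 hR1 hR11 hM0 hF0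
  set Q : ℝ := (1 + 2 * β) / β ^ 2 with hQ
  have hQ0 : 0 < Q := by positivity
  have hci : IntegrableOn (fun t => |c t| ^ Q) (Ioo 0 T) := by
    have h1 := hc.integrable_norm_rpow (by simpa using hQ0) ENNReal.ofReal_ne_top
    rw [ENNReal.toReal_ofReal hQ0.le] at h1
    exact h1
  set m : ℝ → ℝ := fun s => 1 + |c s| ^ Q with hm
  have hm1 : ∀ s, 1 ≤ m s := fun s => by
    have := Real.rpow_nonneg (abs_nonneg (c s)) Q
    simp only [hm]; linarith
  have hmi : IntegrableOn m (Ioo 0 T) := by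
    have h2 : IntegrableOn (fun _ : ℝ => (1 : ℝ)) (Ioo 0 T) := by simp [integrableOn_const_iff]
    exact h2.add hci
  have hφ : SP fun x => χ x ^ 2 := sp_sq hχ
  have hself : ∀ x : V, x ∈ eb x R1 := fun x => by
    show rsq (x - x) < R1 ^ 2
    rw [sub_self]
    have : rsq (0 : V) = 0 := by simp [rsq]
    rw [this]; positivity
  have hsubI : ∀ t ∈ Ico (T / 2) T, t ∈ Ioo 0 T := fun t ht => ⟨by linarith [ht.1], ht.2⟩
  refine log_gron (P := fun t => ∀ x, χ x ≠ 0 → DirL (cu (u t)) K (c t) β (eb x R1))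
    (G := fun s => C * (m s + enstrophy (u s))) (fun t ht => ?_)
    (fun t ht => h.Y_hasDerivAt hφ (fun x hx => ?_) (hsubI t ht)) (fun s => ?_) ?_ ?_ ?_
  · exact integral_nonneg fun x => mul_nonneg (sq_nonneg _) (rsq_nonneg _)
  · exact hχO x (fun h => hx (by rw [h]; ring)) (hself x)
  · have := hm1 s
    have := enstrophy_nonneg (u s)
    positivity
  · have h1 : IntegrableOn (fun s => C * (m s + enstrophy (u s))) (Ioo 0 T) :=
      (hmi.add hen).const_mul C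
    exact h1.mono_set (Ioo_subset_Ioo (by linarith) le_rfl)
  · exact ae_mono (Measure.restrict_mono (Ioo_subset_Ioo (by linarith) le_rfl) le_rfl) hdir
  · intro t ht hPt
    have htI : t ∈ Ioo 0 T := ⟨by linarith [ht.1], ht.2⟩
    have htI' : t ∈ Ico 0 T := ⟨htI.1.le, htI.2⟩
    refine hC (u t) (f t) χ (max |c t| 1) (m t) (h.sp t htI') (h.sp_f t htI) hχ hχ0 hχ1 hM ?_ ?_
      (le_max_right _ _) (hm1 t) ?_ (hE t htI)
    · intro x hx
      refine ⟨fun y hy => h.divfree t htI' y (hχO x hx hy), fun y hy z hz h1 h2 => ?_⟩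
      refine (hPt x hx y hy z hz ((le_max_left K 1).trans_lt h1)
        ((le_max_left K 1).trans_lt h2)).trans ?_
      have h3 : 0 ≤ en (y - z) ^ β := Real.rpow_nonneg (en_nonneg _) _
      have h4 : 0 ≤ en (cu (u t) y) * en (cu (u t) z) := mul_nonneg (en_nonneg _) (en_nonneg _)
      refine mul_le_mul_of_nonneg_right (mul_le_mul_of_nonneg_right ?_ h3) h4
      exact (le_abs_self _).trans (le_max_left _ _)
    · intro x hx
      exact hF t htI x (hχO x hx (hself x))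
    · rcases max_cases |c t| 1 with h4 | h4
      · rw [h4.1]
        simp only [hm]; linarith
      · rw [h4.1, Real.one_rpow]
        exact hm1 t

end Pool.Agent.R210
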