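import Pool.Agent.R210.N12
import Pool.Agent.W12.MD.RIESZ0
import Pool.Agent.W382.ME.COUNT2
import Pool.Agent.TH305.LW.Fin5

/-!
Periodization of a localized solution.
-/

open MeasureTheory Set Metric Filter Topology
open scoped ContDiff ENNReal
open H459R3.NS
open Pool.Agent.W12.MD.R0 (rnd prd prd_per prd_eq prd_smooth prd_sp round_eq_of cel int_cel
  cel_abs ball_cel cel_meas cel_int)

namespace Pool.Agent.R210

theorem prd_joint {F : ℝ → V → ℝ} {S : Set ℝ} (hS : IsOpen S)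
    (hF : ContDiffOn ℝ ∞ (fun z : ℝ × V => F z.1 z.2) (S ×ˢ univ))
    (h0 : ∀ t, ∀ z ∉ ball (0 : V) (1 / 4), F t z = 0) :
    ContDiffOn ℝ ∞ (fun z : ℝ × V => prd (F z.1) z.2) (S ×ˢ univ) := by
  rintro ⟨t, x0⟩ ⟨ht, -⟩
  refine ContDiffAt.contDiffWithinAt ?_
  by_cases h : ∀ i, |x0 i - round (x0 i)| ≤ 1 / 4
  · have h1 : (fun z : ℝ × V => prd (F z.1) z.2) =ᶠ[𝓝 (t, x0)]
        fun z => F z.1 (z.2 - rnd x0) := by
      have h2 : ∀ᶠ z : ℝ × V in 𝓝 (t, x0), z.2 ∈ ball x0 (1 / 4) :=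
        continuous_snd.continuousAt.preimage_mem_nhds
          (ball_mem_nhds x0 (by norm_num : (0 : ℝ) < 1 / 4))
      filter_upwards [h2] with z hz
      have e : rnd z.2 = rnd x0 := by
        funext i
        simp only [rnd]
        congr 1
        refine round_eq_of ?_
        have h2 : |z.2 i - x0 i| < 1 / 4 := by
          have := (norm_le_pi_norm (z.2 - x0) i).trans_lt (by rwa [← dist_eq_norm])
          exact this
        have h3 := abs_add_le (z.2 i - x0 i) (x0 i - round (x0 i))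
        rw [show z.2 i - x0 i + (x0 i - round (x0 i)) = z.2 i - round (x0 i) by ring] at h3
        linarith [h i]
      unfold prd
      rw [e]
    refine ContDiffAt.congr_of_eventuallyEq ?_ h1
    have h3 : ContDiffAt ℝ ∞ (fun z : ℝ × V => F z.1 z.2) (t, x0 - rnd x0) :=
      hF.contDiffAt ((hS.prod isOpen_univ).mem_nhds ⟨ht, mem_univ _⟩)
    exact ContDiffAt.comp (t, x0) (g := fun z : ℝ × V => F z.1 z.2)
      (f := fun z : ℝ × V => (z.1, z.2 - rnd x0)) h3 (by fun_prop)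
  · push Not at h
    obtain ⟨i, hi⟩ := h
    have h1 : (fun z : ℝ × V => prd (F z.1) z.2) =ᶠ[𝓝 (t, x0)] fun _ => 0 := by
      have h2 : ∀ᶠ z : ℝ × V in 𝓝 (t, x0), z.2 ∈ ball x0 (|x0 i - round (x0 i)| - 1 / 4) :=
        continuous_snd.continuousAt.preimage_mem_nhds
          (ball_mem_nhds x0 (by linarith : (0 : ℝ) < |x0 i - round (x0 i)| - 1 / 4))
      filter_upwards [h2] with z hz
      unfold prd
      refine h0 _ _ fun hb => ?_
      rw [mem_ball_zero_iff] at hb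
      have h2 : |(z.2 - rnd z.2) i| < 1 / 4 := (norm_le_pi_norm (z.2 - rnd z.2) i).trans_lt hb
      simp only [rnd, Pi.sub_apply] at h2
      have h3 : |z.2 i - x0 i| < |x0 i - round (x0 i)| - 1 / 4 := by
        have := (norm_le_pi_norm (z.2 - x0) i).trans_lt (by rwa [← dist_eq_norm])
        exact this
      have h4 := round_le (x0 i) (round (z.2 i))
      have h5 := abs_add_le (x0 i - z.2 i) (z.2 i - round (z.2 i))
      rw [show x0 i - z.2 i + (z.2 i - round (z.2 i)) = x0 i - round (z.2 i) by ring,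
        abs_sub_comm (x0 i) (z.2 i)] at h5
      linarith
    exact (contDiffAt_const (c := (0 : ℝ))).congr_of_eventuallyEq h1

theorem cut_joint {g : ℝ → V → ℝ} {T t0 lam : ℝ} {Ω : Set V} {x0 : V} {ζ : V → ℝ}
    (hΩ : IsOpen Ω) (hg : ContDiffOn ℝ ∞ (fun z : ℝ × V => g z.1 z.2) (Ioo 0 T ×ˢ Ω))
    (hζ : ContDiff ℝ ∞ ζ) (hs : ∀ z ∉ ball (0 : V) (1 / 4), ζ z = 0)
    (hl : ∀ z ∈ closedBall (0 : V) (1 / 4), x0 + lam • z ∈ Ω) :
    ContDiffOn ℝ ∞ (fun z : ℝ × V => ζ z.2 * g (t0 + z.1) (x0 + lam • z.2))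
      (Ioo (-t0) (T - t0) ×ˢ univ) := by
  rintro ⟨t, z⟩ ⟨ht, -⟩
  refine ContDiffAt.contDiffWithinAt ?_
  by_cases hz : z ∈ closedBall (0 : V) (1 / 4)
  · have h1 : ContDiffAt ℝ ∞ (fun z : ℝ × V => g z.1 z.2) (t0 + t, x0 + lam • z) := by
      refine hg.contDiffAt ((isOpen_Ioo.prod hΩ).mem_nhds ⟨?_, hl z hz⟩)
      constructor
      · have := ht.1; simp only at this; linarith
      · have := ht.2; simp only at this; linarith
    have h2 : ContDiffAt ℝ ∞ (fun z : ℝ × V => g (t0 + z.1) (x0 + lam • z.2)) (t, z) :=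
      ContDiffAt.comp (t, z) (g := fun z : ℝ × V => g z.1 z.2)
        (f := fun z : ℝ × V => (t0 + z.1, x0 + lam • z.2)) h1 (by fun_prop)
    exact (hζ.comp contDiff_snd).contDiffAt.mul h2
  · have h1 : (fun z : ℝ × V => ζ z.2 * g (t0 + z.1) (x0 + lam • z.2)) =ᶠ[𝓝 (t, z)]
        fun _ => 0 := by
      have h2 : ∀ᶠ y : ℝ × V in 𝓝 (t, z), y.2 ∈ (closedBall (0 : V) (1 / 4))ᶜ :=
        continuous_snd.continuousAt.preimage_mem_nhds (isClosed_closedBall.isOpen_compl.mem_nhds hz)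
      filter_upwards [h2] with y hy
      rw [hs y.2 fun h => hy (ball_subset_closedBall h), zero_mul]
    exact (contDiffAt_const (c := (0 : ℝ))).congr_of_eventuallyEq h1

/-- The cut-off of the localization. -/
noncomputable def zt : ContDiffBump (0 : V) := ⟨3 / 16, 1 / 4, by norm_num, by norm_num⟩

theorem zt_out : ∀ z ∉ ball (0 : V) (1 / 4), (zt : V → ℝ) z = 0 := fun z hz => by
  refine zt.zero_of_le_dist ?_
  rw [mem_ball, not_lt] at hz
  exact hz

theorem zt_one {z : V} (hz : z ∈ ball (0 : V) (3 / 16)) : (zt : V → ℝ) z = 1 :=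
  zt.one_of_mem_closedBall (ball_subset_closedBall hz)

/-- The localized, rescaled and periodized function. -/
noncomputable def per1 (t0 lam : ℝ) (x0 : V) (h : ℝ → V → ℝ) (t : ℝ) (z : V) : ℝ :=
  prd (fun z => zt z * h (t0 + t) (x0 + lam • z)) z

/-- A point of the lattice. -/
def kv (k : Fin 3 → ℤ) : V := fun i => (k i : ℝ)

/-- The cells. -/
def O3 : Set V := ⋃ k : Fin 3 → ℤ, ball (kv k) (3 / 16)

theorem isOpen_O3 : IsOpen O3 := isOpen_iUnion fun _ => isOpen_ball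

section

variable {t0 lam T : ℝ} {x0 : V} {Ω : Set V} {h : ℝ → V → ℝ}

theorem per1_per (t : ℝ) : Per (per1 t0 lam x0 h t) := prd_per _

theorem rnd_eq {k : Fin 3 → ℤ} {z : V} (hz : z ∈ ball (kv k) (1 / 2)) : rnd z = kv k := by
  funext i
  simp only [rnd, kv]
  congr 1
  refine round_eq_of ?_
  have := (norm_le_pi_norm (z - kv k) i).trans_lt (by rwa [← dist_eq_norm])
  exact this

theorem per1_eq {k : Fin 3 → ℤ} {z : V} (hz : z ∈ ball (kv k) (3 / 16)) (t : ℝ) :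
    per1 t0 lam x0 h t z = h (t0 + t) ((x0 - lam • kv k) + lam • z) := by
  unfold per1 prd
  rw [rnd_eq (ball_subset_ball (by norm_num) hz)]
  have h1 : z - kv k ∈ ball (0 : V) (3 / 16) := by
    rw [mem_ball_zero_iff, ← dist_eq_norm]
    exact hz
  beta_reduce
  rw [zt_one h1, one_mul]
  congr 1
  rw [smul_sub]
  abel

theorem per1_smooth (hΩ : IsOpen Ω)
    (hg : ContDiffOn ℝ ∞ (fun z : ℝ × V => h z.1 z.2) (Ioo 0 T ×ˢ Ω))
    (hl : ∀ z ∈ closedBall (0 : V) (1 / 4), x0 + lam • z ∈ Ω) :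
    ContDiffOn ℝ ∞ (fun z : ℝ × V => per1 t0 lam x0 h z.1 z.2)
      (Ioo (-t0) (T - t0) ×ˢ univ) :=
  prd_joint (F := fun t z => zt z * h (t0 + t) (x0 + lam • z)) isOpen_Ioo
    (cut_joint hΩ hg zt.contDiff zt_out hl) fun t z hz => by rw [zt_out z hz, zero_mul]

theorem per1_sp (hΩ : IsOpen Ω)
    (hg : ContDiffOn ℝ ∞ (fun z : ℝ × V => h z.1 z.2) (Ioo 0 T ×ˢ Ω))
    (hl : ∀ z ∈ closedBall (0 : V) (1 / 4), x0 + lam • z ∈ Ω) {t : ℝ}
    (ht : t ∈ Ioo (-t0) (T - t0)) : SP (per1 t0 lam x0 h t) where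
  smooth := by
    rw [← contDiffOn_univ]
    exact (per1_smooth hΩ hg hl).comp (f := fun z : V => (t, z)) (by fun_prop)
      fun z _ => ⟨ht, mem_univ _⟩
  per := per1_per t

theorem mem_cell {k : Fin 3 → ℤ} {z : V} (hl : ∀ z ∈ closedBall (0 : V) (1 / 4), x0 + lam • z ∈ Ω)
    (hz : z ∈ ball (kv k) (3 / 16)) : (x0 - lam • kv k) + lam • z ∈ Ω := by
  have h1 : (x0 - lam • kv k) + lam • z = x0 + lam • (z - kv k) := by
    rw [smul_sub]
    abel
  rw [h1]
  refine hl _ ?_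
  rw [mem_closedBall_zero_iff, ← dist_eq_norm]
  have : dist z (kv k) < 3 / 16 := hz
  linarith

end

theorem cd_pd {h : V → ℝ} {Ω : Set V} (hΩ : IsOpen Ω) (hh : ContDiffOn ℝ ∞ h Ω) (j : Fin 3) :
    ContDiffOn ℝ ∞ (pd j h) Ω :=
  (hh.fderiv_of_isOpen hΩ (by norm_cast)).clm_apply contDiffOn_const

theorem aff_pd {W h : V → ℝ} {Ω N : Set V} {c lam : ℝ} {a : V} (hΩ : IsOpen Ω) (hN : IsOpen N)
    (hh : ContDiffOn ℝ ∞ h Ω) (hmem : ∀ z ∈ N, a + lam • z ∈ Ω)
    (hW : ∀ z ∈ N, W z = c * h (a + lam • z)) (j : Fin 3) :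
    ∀ z ∈ N, pd j W z = c * lam * pd j h (a + lam • z) := by
  intro z hz
  have h1 : W =ᶠ[𝓝 z] fun z => c * h (a + lam • z) := by
    filter_upwards [hN.mem_nhds hz] with y hy using hW y hy
  rw [pd_congr_nhds h1]
  have hd : DifferentiableAt ℝ h (a + lam • z) :=
    (hh.contDiffAt (hΩ.mem_nhds (hmem z hz))).differentiableAt (by norm_cast)
  have h2 : HasFDerivAt (fun z : V => a + lam • z) (lam • ContinuousLinearMap.id ℝ V) z :=
    ((hasFDerivAt_id z).const_smul lam).const_add a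
  have h3 : HasFDerivAt (fun z => c * h (a + lam • z))
      (c • (fderiv ℝ h (a + lam • z)).comp (lam • ContinuousLinearMap.id ℝ V)) z :=
    (hd.hasFDerivAt.comp z h2).const_mul c
  unfold pd
  rw [h3.fderiv]
  simp only [ContinuousLinearMap.smul_apply, ContinuousLinearMap.comp_apply,
    ContinuousLinearMap.id_apply, map_smul, smul_eq_mul]
  ring

end Pool.Agent.R210
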