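import Pool.Agent.R210.N13

/-!
A solution on an open set gives a periodic field which solves the equations on the cells.
-/

open MeasureTheory Set Metric Filter Topology
open scoped ContDiff ENNReal
open H459R3.NS

namespace Pool.Agent.R210

/-- The localized velocity. -/
noncomputable def wl (t0 lam : ℝ) (x0 : V) (u : ℝ → V → V) (t : ℝ) (z : V) : V := fun i =>
  lam⁻¹ * per1 t0 lam x0 (fun s y => u s y i) t z

/-- The localized pressure. -/
noncomputable def ql (t0 lam : ℝ) (x0 : V) (p : ℝ → V → ℝ) (t : ℝ) (z : V) : ℝ :=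
  lam⁻¹ ^ 2 * per1 t0 lam x0 p t z

/-- The residual. -/
noncomputable def rl (ν : ℝ) (w : ℝ → V → V) (q : ℝ → V → ℝ) (t : ℝ) (z : V) : V := fun i =>
  dt (fun s y => w s y i) t z + conv (fun i y => w t y i) i z - ν * lap (fun y => w t y i) z
    + pd i (q t) z

open W221.NS (OSolF nsq gsq)

section

variable {ν T E F : ℝ} {Ω : Set V} {u : ℝ → V → V} {p : ℝ → V → ℝ} {f : ℝ → V → V}

theorem f_smooth (h : OSolF ν T E F Ω u p f) {t : ℝ} (ht : t ∈ Ioo 0 T) (i : Fin 3) :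
    ContDiffOn ℝ ∞ (fun y => f t y i) Ω := by
  have hU : IsOpen (Ioo 0 T ×ˢ Ω) := isOpen_Ioo.prod h.openO
  have hc : ∀ i, ContDiffOn ℝ ∞ (fun z : ℝ × V => u z.1 z.2 i) (Ioo 0 T ×ˢ Ω) := fun i =>
    (contDiffOn_pi.1 h.smooth_u) i
  have hemb : ContDiffOn ℝ ∞ (fun y : V => (t, y)) Ω := by fun_prop
  have hmap : MapsTo (fun y : V => (t, y)) Ω (Ioo 0 T ×ˢ Ω) := fun y hy => ⟨ht, hy⟩
  have hs : ∀ i, ContDiffOn ℝ ∞ (fun y => u t y i) Ω := fun i =>
    (hc i).comp (f := fun y : V => (t, y)) hemb hmap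
  have hp : ContDiffOn ℝ ∞ (p t) Ω :=
    h.smooth_p.comp (f := fun y : V => (t, y)) hemb hmap
  have h1 : ContDiffOn ℝ ∞ (fun y => deriv (fun s => u s y i) t) Ω := by
    have h2 : ContDiffOn ℝ ∞ (fun z : ℝ × V => fderiv ℝ (fun z : ℝ × V => u z.1 z.2 i) z (1, 0))
        (Ioo 0 T ×ˢ Ω) := ((hc i).fderiv_of_isOpen hU (by norm_cast)).clm_apply contDiffOn_const
    refine (h2.comp (f := fun y : V => (t, y)) hemb hmap).congr fun y hy => ?_
    have h3 : DifferentiableAt ℝ (fun z : ℝ × V => u z.1 z.2 i) (t, y) :=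
      ((hc i).contDiffAt (hU.mem_nhds ⟨ht, hy⟩)).differentiableAt (by norm_cast)
    have h4 : HasDerivAt (fun s : ℝ => ((s, y) : ℝ × V)) (1, 0) t :=
      (hasDerivAt_id t).prodMk (hasDerivAt_const t y)
    have h5 := h3.hasFDerivAt.comp_hasDerivAt t h4
    exact h5.deriv
  have h6 : ContDiffOn ℝ ∞ (fun y => deriv (fun s => u s y i) t
      + (∑ j, u t y j * pd j (fun y => u t y i) y)
      - ν * (∑ j, pd j (pd j (fun y => u t y i)) y) + pd i (p t) y) Ω := by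
    refine ((h1.add (ContDiffOn.sum fun j _ => (hs j).mul (cd_pd h.openO (hs i) j))).sub
      (contDiffOn_const.mul (ContDiffOn.sum fun j _ =>
        cd_pd h.openO (cd_pd h.openO (hs i) j) j))).add (cd_pd h.openO hp i)
  refine h6.congr fun y hy => ?_
  have := h.momentum t ht y hy i
  linarith

variable {t0 lam : ℝ} {x0 : V}

theorem wl_smooth (h : OSolF ν T E F Ω u p f)
    (hl : ∀ z ∈ closedBall (0 : V) (1 / 4), x0 + lam • z ∈ Ω) (i : Fin 3) :
    ContDiffOn ℝ ∞ (fun z : ℝ × V => wl t0 lam x0 u z.1 z.2 i) (Ioo (-t0) (T - t0) ×ˢ univ) :=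
  contDiffOn_const.mul (per1_smooth h.openO ((contDiffOn_pi.1 h.smooth_u) i) hl)

theorem wl_sp (h : OSolF ν T E F Ω u p f)
    (hl : ∀ z ∈ closedBall (0 : V) (1 / 4), x0 + lam • z ∈ Ω) {t : ℝ}
    (ht : t ∈ Ioo (-t0) (T - t0)) (i : Fin 3) : SP (fun z => wl t0 lam x0 u t z i) :=
  sp_cmul _ (per1_sp h.openO ((contDiffOn_pi.1 h.smooth_u) i) hl ht)

theorem ql_sp (h : OSolF ν T E F Ω u p f)
    (hl : ∀ z ∈ closedBall (0 : V) (1 / 4), x0 + lam • z ∈ Ω) {t : ℝ}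
    (ht : t ∈ Ioo (-t0) (T - t0)) : SP (ql t0 lam x0 p t) :=
  sp_cmul _ (per1_sp h.openO h.smooth_p hl ht)

/-- The derivatives in a cell. -/
theorem wl_pd (h : OSolF ν T E F Ω u p f) (hlam : lam ≠ 0)
    (hl : ∀ z ∈ closedBall (0 : V) (1 / 4), x0 + lam • z ∈ Ω) {t : ℝ}
    (ht : t ∈ Ioo (-t0) (T - t0)) {k : Fin 3 → ℤ} (i j : Fin 3) :
    ∀ z ∈ ball (kv k) (3 / 16), pd j (fun z => wl t0 lam x0 u t z i) z
      = pd j (fun y => u (t0 + t) y i) ((x0 - lam • kv k) + lam • z) := by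
  intro z hz
  have ht' : t0 + t ∈ Ioo 0 T := ⟨by linarith [ht.1], by linarith [ht.2]⟩
  have hs : ContDiffOn ℝ ∞ (fun y => u (t0 + t) y i) Ω :=
    ((contDiffOn_pi.1 h.smooth_u) i).comp (f := fun y : V => (t0 + t, y)) (by fun_prop)
      fun y hy => ⟨ht', hy⟩
  have h1 := aff_pd (W := fun z => wl t0 lam x0 u t z i) (h := fun y => u (t0 + t) y i)
    (N := ball (kv k) (3 / 16)) (c := lam⁻¹) (lam := lam) (a := x0 - lam • kv k) h.openO
    isOpen_ball hs (fun z hz => mem_cell hl hz)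
    (fun z hz => by
      show lam⁻¹ * per1 t0 lam x0 (fun s y => u s y i) t z = _
      rw [per1_eq hz]) j z hz
  rw [h1, inv_mul_cancel₀ hlam, one_mul]

theorem wl_pd2 (h : OSolF ν T E F Ω u p f) (hlam : lam ≠ 0)
    (hl : ∀ z ∈ closedBall (0 : V) (1 / 4), x0 + lam • z ∈ Ω) {t : ℝ}
    (ht : t ∈ Ioo (-t0) (T - t0)) {k : Fin 3 → ℤ} (i j m : Fin 3) :
    ∀ z ∈ ball (kv k) (3 / 16), pd m (pd j (fun z => wl t0 lam x0 u t z i)) z
      = lam * pd m (pd j (fun y => u (t0 + t) y i)) ((x0 - lam • kv k) + lam • z) := by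
  intro z hz
  have ht' : t0 + t ∈ Ioo 0 T := ⟨by linarith [ht.1], by linarith [ht.2]⟩
  have hs : ContDiffOn ℝ ∞ (fun y => u (t0 + t) y i) Ω :=
    ((contDiffOn_pi.1 h.smooth_u) i).comp (f := fun y : V => (t0 + t, y)) (by fun_prop)
      fun y hy => ⟨ht', hy⟩
  have h1 := aff_pd (W := pd j (fun z => wl t0 lam x0 u t z i))
    (h := pd j (fun y => u (t0 + t) y i))
    (N := ball (kv k) (3 / 16)) (c := 1) (lam := lam) (a := x0 - lam • kv k) h.openO
    isOpen_ball (cd_pd h.openO hs j) (fun z hz => mem_cell hl hz)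
    (fun z hz => by rw [one_mul]; exact wl_pd h hlam hl ht i j z hz) m z hz
  rw [h1, one_mul]

theorem ql_pd (h : OSolF ν T E F Ω u p f) (hlam : lam ≠ 0)
    (hl : ∀ z ∈ closedBall (0 : V) (1 / 4), x0 + lam • z ∈ Ω) {t : ℝ}
    (ht : t ∈ Ioo (-t0) (T - t0)) {k : Fin 3 → ℤ} (j : Fin 3) :
    ∀ z ∈ ball (kv k) (3 / 16), pd j (ql t0 lam x0 p t) z
      = lam⁻¹ * pd j (p (t0 + t)) ((x0 - lam • kv k) + lam • z) := by
  intro z hz
  have ht' : t0 + t ∈ Ioo 0 T := ⟨by linarith [ht.1], by linarith [ht.2]⟩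
  have hs : ContDiffOn ℝ ∞ (p (t0 + t)) Ω :=
    h.smooth_p.comp (f := fun y : V => (t0 + t, y)) (by fun_prop) fun y hy => ⟨ht', hy⟩
  have h1 := aff_pd (W := ql t0 lam x0 p t) (h := p (t0 + t))
    (N := ball (kv k) (3 / 16)) (c := lam⁻¹ ^ 2) (lam := lam) (a := x0 - lam • kv k) h.openO
    isOpen_ball hs (fun z hz => mem_cell hl hz)
    (fun z hz => by
      show lam⁻¹ ^ 2 * per1 t0 lam x0 p t z = _
      rw [per1_eq hz]) j z hz
  rw [h1]
  congr 1
  field_simp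

/-- The residual in a cell. -/
theorem rl_eq (h : OSolF ν T E F Ω u p f) (hlam : lam ≠ 0)
    (hl : ∀ z ∈ closedBall (0 : V) (1 / 4), x0 + lam • z ∈ Ω) {t : ℝ}
    (ht : t ∈ Ioo (-t0) (T - t0)) {k : Fin 3 → ℤ} (i : Fin 3) :
    ∀ z ∈ ball (kv k) (3 / 16),
      rl (ν / lam ^ 2) (wl t0 lam x0 u) (ql t0 lam x0 p) t z i
        = lam⁻¹ * f (t0 + t) ((x0 - lam • kv k) + lam • z) i := by
  intro z hz
  have ht' : t0 + t ∈ Ioo 0 T := ⟨by linarith [ht.1], by linarith [ht.2]⟩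
  set y := (x0 - lam • kv k) + lam • z with hy
  have hyΩ : y ∈ Ω := mem_cell hl hz
  have h1 := h.momentum (t0 + t) ht' y hyΩ i
  have h2 : dt (fun s y => wl t0 lam x0 u s y i) t z
      = lam⁻¹ * deriv (fun s => u s y i) (t0 + t) := by
    unfold dt
    have e1 : (fun s => wl t0 lam x0 u s z i) = fun s => lam⁻¹ * u (t0 + s) y i := by
      funext s
      show lam⁻¹ * per1 t0 lam x0 (fun s y => u s y i) s z = _
      rw [per1_eq hz]
    rw [e1, deriv_const_mul_field]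
    congr 1
    exact deriv_comp_const_add (f := fun s => u s y i) (a := t0) (x := t)
  have h3 : conv (fun i y => wl t0 lam x0 u t y i) i z
      = lam⁻¹ * ∑ j, u (t0 + t) y j * pd j (fun y => u (t0 + t) y i) y := by
    unfold conv
    rw [Finset.mul_sum]
    refine Finset.sum_congr rfl fun j _ => ?_
    rw [wl_pd h hlam hl ht i j z hz]
    have e2 : wl t0 lam x0 u t z j = lam⁻¹ * u (t0 + t) y j := by
      show lam⁻¹ * per1 t0 lam x0 (fun s y => u s y j) t z = _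
      rw [per1_eq hz]
    beta_reduce
    rw [e2]
    ring
  have h4 : lap (fun y => wl t0 lam x0 u t y i) z
      = lam * ∑ j, pd j (pd j (fun y => u (t0 + t) y i)) y := by
    unfold lap
    rw [Finset.mul_sum]
    exact Finset.sum_congr rfl fun j _ => wl_pd2 h hlam hl ht i j j z hz
  show dt (fun s y => wl t0 lam x0 u s y i) t z + conv (fun i y => wl t0 lam x0 u t y i) i z
    - ν / lam ^ 2 * lap (fun y => wl t0 lam x0 u t y i) z + pd i (ql t0 lam x0 p t) z = _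
  rw [h2, h3, h4, ql_pd h hlam hl ht i z hz]
  have e3 : ν / lam ^ 2 * (lam * ∑ j, pd j (pd j (fun y => u (t0 + t) y i)) y)
      = lam⁻¹ * (ν * ∑ j, pd j (pd j (fun y => u (t0 + t) y i)) y) := by
    field_simp
  rw [e3]
  have e4 : f (t0 + t) y i = deriv (fun s => u s y i) (t0 + t)
      + (∑ j, u (t0 + t) y j * pd j (fun y => u (t0 + t) y i) y)
      - ν * (∑ j, pd j (pd j (fun y => u (t0 + t) y i)) y) + pd i (p (t0 + t)) y := by
    linarith
  rw [e4]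
  ring

theorem rl_pd (h : OSolF ν T E F Ω u p f) (hlam : lam ≠ 0)
    (hl : ∀ z ∈ closedBall (0 : V) (1 / 4), x0 + lam • z ∈ Ω) {t : ℝ}
    (ht : t ∈ Ioo (-t0) (T - t0)) {k : Fin 3 → ℤ} (i j : Fin 3) :
    ∀ z ∈ ball (kv k) (3 / 16),
      pd j (fun z => rl (ν / lam ^ 2) (wl t0 lam x0 u) (ql t0 lam x0 p) t z i) z
        = pd j (fun y => f (t0 + t) y i) ((x0 - lam • kv k) + lam • z) := by
  intro z hz
  have ht' : t0 + t ∈ Ioo 0 T := ⟨by linarith [ht.1], by linarith [ht.2]⟩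
  have h1 := aff_pd (W := fun z => rl (ν / lam ^ 2) (wl t0 lam x0 u) (ql t0 lam x0 p) t z i)
    (h := fun y => f (t0 + t) y i)
    (N := ball (kv k) (3 / 16)) (c := lam⁻¹) (lam := lam) (a := x0 - lam • kv k) h.openO
    isOpen_ball (f_smooth h ht' i) (fun z hz => mem_cell hl hz)
    (fun z hz => rl_eq h hlam hl ht i z hz) j z hz
  rw [h1, inv_mul_cancel₀ hlam, one_mul]

theorem rl_sp (h : OSolF ν T E F Ω u p f) (ht0 : 0 < t0)
    (hl : ∀ z ∈ closedBall (0 : V) (1 / 4), x0 + lam • z ∈ Ω) {t : ℝ}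
    (ht : t ∈ Ioo 0 (T - t0)) (μ : ℝ) (i : Fin 3) :
    SP (fun z => rl μ (wl t0 lam x0 u) (ql t0 lam x0 p) t z i) := by
  have ht1 : t ∈ Ioo (-t0) (T - t0) := ⟨by linarith [ht.1], ht.2⟩
  have hsub : Ico 0 (T - t0) ×ˢ (univ : Set V) ⊆ Ioo (-t0) (T - t0) ×ˢ univ :=
    prod_mono (fun s hs => ⟨by linarith [hs.1], hs.2⟩) subset_rfl
  have hw := fun i => wl_sp h hl ht1 i
  have h1 : SP (dt (fun s y => wl t0 lam x0 u s y i) t) :=
    ⟨contDiff_dt (f := fun s y => wl t0 lam x0 u s y i) ((wl_smooth h hl i).mono hsub) ht, by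
      intro j x
      unfold dt
      congr 1
      funext s
      show lam⁻¹ * per1 t0 lam x0 (fun s y => u s y i) s (x + Pi.single j 1)
        = lam⁻¹ * per1 t0 lam x0 (fun s y => u s y i) s x
      rw [per1_per s j x]⟩
  exact ((h1.add (sp_conv (v := fun i y => wl t0 lam x0 u t y i) hw i)).sub
    (sp_cmul μ (hw i).lap)).add ((ql_sp h hl ht1).pd i)

/-- The localized problem. -/
theorem LP_of (h : OSolF ν T E F Ω u p f) (ht0 : 0 < t0) (hlam : lam ≠ 0)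
    (hl : ∀ z ∈ closedBall (0 : V) (1 / 4), x0 + lam • z ∈ Ω) :
    LP (ν / lam ^ 2) (T - t0) (wl t0 lam x0 u) (ql t0 lam x0 p)
      (rl (ν / lam ^ 2) (wl t0 lam x0 u) (ql t0 lam x0 p)) O3 where
  openO := isOpen_O3
  smooth_c i := (wl_smooth h hl i).mono
    (prod_mono (fun s hs => ⟨by linarith [hs.1], hs.2⟩) subset_rfl)
  sp t ht i := wl_sp h hl ⟨by linarith [ht.1], ht.2⟩ i
  sp_p t ht := ql_sp h hl ⟨by linarith [ht.1], ht.2⟩
  sp_f t ht i := rl_sp h ht0 hl ht _ i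
  divfree t ht x hx := by
    obtain ⟨k, hk⟩ := mem_iUnion.1 hx
    have ht1 : t ∈ Ioo (-t0) (T - t0) := ⟨by linarith [ht.1], ht.2⟩
    unfold dv
    simp_rw [wl_pd h hlam hl ht1 _ _ x hk]
    exact h.divfree _ ⟨by linarith [ht1.1], by linarith [ht1.2]⟩ _ (mem_cell hl hk)
  momentum t _ x _ i := by
    show deriv (fun s => wl t0 lam x0 u s x i) t
      + ∑ j, wl t0 lam x0 u t x j * pd j (fun y => wl t0 lam x0 u t y i) x
      = ν / lam ^ 2 * lap (fun y => wl t0 lam x0 u t y i) x - pd i (ql t0 lam x0 p t) x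
        + (dt (fun s y => wl t0 lam x0 u s y i) t x + conv (fun i y => wl t0 lam x0 u t y i) i x
          - ν / lam ^ 2 * lap (fun y => wl t0 lam x0 u t y i) x + pd i (ql t0 lam x0 p t) x)
    unfold dt conv
    ring

end

end Pool.Agent.R210
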