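import Pool.Agent.R210.N14

/-!
Bounds of the localized field.
-/

open MeasureTheory Set Metric Filter Topology
open scoped ContDiff ENNReal
open H459R3.NS
open Pool.Agent.W12.MD.R0 (rnd prd prd_per prd_eq prd_smooth prd_sp round_eq_of cel int_cel
  cel_abs ball_cel cel_meas cel_int)
open W221.NS (OSolF nsq gsq)

namespace Pool.Agent.R210

theorem int_cell {g : V → ℝ} (hg : Per g) :
    ∫ x in cube, g x = ∫ x in ball (0 : V) (1 / 2), g x := by
  rw [int_cel hg]
  refine setIntegral_congr_set (Filter.EventuallyLE.antisymm ?_ ball_cel.eventuallyLE)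
  rw [ae_le_set]
  refine measure_mono_null (t := sphere (0 : V) (1 / 2)) (fun z hz => ?_)
    (Measure.addHaar_sphere volume (0 : V) (1 / 2))
  have h1 : ‖z‖ ≤ 1 / 2 := by
    rw [pi_norm_le_iff_of_nonneg (by norm_num)]
    exact fun i => cel_abs hz.1 i
  have h2 : ¬ ‖z‖ < 1 / 2 := fun h => hz.2 (mem_ball_zero_iff.2 h)
  rw [mem_sphere_zero_iff_norm]
  exact le_antisymm h1 (not_lt.1 h2)

theorem zt_le (z : V) : (zt : V → ℝ) z ≤ 1 := zt.le_one
theorem zt_nonneg (z : V) : 0 ≤ (zt : V → ℝ) z := zt.nonneg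

theorem exists_BZ : ∃ B : ℝ, 0 ≤ B ∧ ∀ (j : Fin 3) (z : V), |pd j (zt : V → ℝ) z| ≤ B := by
  have h1 : Continuous (fderiv ℝ (zt : V → ℝ)) := zt.contDiff.continuous_fderiv (n := ∞) (by norm_cast)
  obtain ⟨B, hB⟩ := (zt.hasCompactSupport.fderiv (𝕜 := ℝ)).exists_bound_of_continuous h1
  refine ⟨|B|, abs_nonneg B, fun j z => ?_⟩
  unfold pd
  rw [← Real.norm_eq_abs]
  refine ((fderiv ℝ (zt : V → ℝ) z).le_opNorm _).trans ?_
  have h2 : ‖(Pi.single j 1 : V)‖ = 1 := by rw [Pi.norm_single, norm_one]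
  rw [h2, mul_one]
  exact (hB z).trans (le_abs_self B)

section

variable {ν T E F : ℝ} {Ω : Set V} {u : ℝ → V → V} {p : ℝ → V → ℝ} {f : ℝ → V → V}
  {t0 lam : ℝ} {x0 : V}

theorem per1_ball {h : ℝ → V → ℝ} {z : V} (hz : z ∈ ball (0 : V) (1 / 2)) (t : ℝ) :
    per1 t0 lam x0 h t z = zt z * h (t0 + t) (x0 + lam • z) :=
  prd_eq (f := fun z => zt z * h (t0 + t) (x0 + lam • z))
    (fun z hz => by rw [zt_out z hz, zero_mul])
    fun i => ((norm_le_pi_norm z i).trans_lt (mem_ball_zero_iff.1 hz)).le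

theorem int_aff {G : V → ℝ} (hG : ContinuousOn G Ω)
    (hl : ∀ z ∈ closedBall (0 : V) (1 / 2), x0 + lam • z ∈ Ω) :
    IntegrableOn (fun z => G (x0 + lam • z)) (ball (0 : V) (1 / 2)) := by
  have h1 : ContinuousOn (fun z => G (x0 + lam • z)) (closedBall (0 : V) (1 / 2)) :=
    hG.comp (f := fun z : V => x0 + lam • z) (by fun_prop) fun z hz => hl z hz
  exact (h1.integrableOn_compact (isCompact_closedBall _ _)).mono_set ball_subset_closedBall

theorem slice_u (h : OSolF ν T E F Ω u p f) {s : ℝ} (hs : s ∈ Ioo 0 T) (i : Fin 3) :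
    ContDiffOn ℝ ∞ (fun y => u s y i) Ω :=
  ((contDiffOn_pi.1 h.smooth_u) i).comp (f := fun y : V => (s, y)) (by fun_prop)
    fun y hy => ⟨hs, hy⟩

theorem nsq_cont (h : OSolF ν T E F Ω u p f) {s : ℝ} (hs : s ∈ Ioo 0 T) :
    ContinuousOn (nsq (u s)) Ω :=
  continuousOn_finsetSum _ fun i _ => (slice_u h hs i).continuousOn.pow 2

theorem gsq_cont (h : OSolF ν T E F Ω u p f) {s : ℝ} (hs : s ∈ Ioo 0 T) :
    ContinuousOn (gsq (u s)) Ω :=
  continuousOn_finsetSum _ fun i _ => continuousOn_finsetSum _ fun j _ =>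
    (cd_pd h.openO (slice_u h hs i) j).continuousOn.pow 2

theorem ball_sub (hlam : 0 < lam) (hl : ∀ z ∈ closedBall (0 : V) (1 / 2), x0 + lam • z ∈ Ω)
    {ρ : ℝ} (hρ : ρ ≤ 1 / 2) : closedBall x0 (lam * ρ) ⊆ Ω := by
  intro y hy
  have h1 := hl (lam⁻¹ • (y - x0)) (by
    rw [mem_closedBall_zero_iff, norm_smul, norm_inv, Real.norm_eq_abs, abs_of_pos hlam,
      inv_mul_le_iff₀ hlam, ← dist_eq_norm]
    have h2 : dist y x0 ≤ lam * ρ := hy
    have h3 := mul_le_mul_of_nonneg_left hρ hlam.le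
    linarith)
  rwa [smul_inv_smul₀ hlam.ne', add_sub_cancel] at h1

theorem wl_energy (h : OSolF ν T E F Ω u p f) (hlam : 0 < lam)
    (hl : ∀ z ∈ closedBall (0 : V) (1 / 2), x0 + lam • z ∈ Ω) {t : ℝ}
    (ht : t ∈ Ioo (-t0) (T - t0)) :
    ∫ x in cube, rsq (wl t0 lam x0 u t x) ≤ lam⁻¹ ^ 5 * E ^ 2 := by
  have ht' : t0 + t ∈ Ioo 0 T := ⟨by linarith [ht.1], by linarith [ht.2]⟩
  have hl4 : ∀ z ∈ closedBall (0 : V) (1 / 4), x0 + lam • z ∈ Ω := fun z hz =>
    hl z (closedBall_subset_closedBall (by norm_num) hz)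
  have hsp := fun i => wl_sp (p := p) (f := f) h hl4 ht i
  have hr := sp_rsqG hsp
  rw [int_cell hr.per]
  have h1 : ∫ z in ball (0 : V) (1 / 2), rsq (wl t0 lam x0 u t z)
      ≤ ∫ z in ball (0 : V) (1 / 2), lam⁻¹ ^ 2 * nsq (u (t0 + t)) (x0 + lam • z) := by
    refine setIntegral_mono_on ?_ ((int_aff (nsq_cont h ht') hl).const_mul _) measurableSet_ball
      fun z hz => ?_
    · exact (hr.cont.continuousOn.integrableOn_compact (isCompact_closedBall _ _)).mono_set
        ball_subset_closedBall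
    · have h2 : ∀ i, wl t0 lam x0 u t z i ^ 2 ≤ lam⁻¹ ^ 2 * u (t0 + t) (x0 + lam • z) i ^ 2 := by
        intro i
        have e : wl t0 lam x0 u t z i = lam⁻¹ * (zt z * u (t0 + t) (x0 + lam • z) i) := by
          show lam⁻¹ * per1 t0 lam x0 (fun s y => u s y i) t z = _
          rw [per1_ball hz]
        rw [e, mul_pow, mul_pow]
        refine mul_le_mul_of_nonneg_left ?_ (sq_nonneg _)
        exact mul_le_of_le_one_left (sq_nonneg _) (pow_le_one₀ (zt_nonneg z) (zt_le z))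
      unfold rsq nsq
      rw [Finset.mul_sum]
      exact Finset.sum_le_sum fun i _ => h2 i
  refine h1.trans ?_
  rw [integral_const_mul, W382.ME.cov (nsq (u (t0 + t))) x0 hlam]
  have h2 : ∫ y in ball x0 (lam * (1 / 2)), nsq (u (t0 + t)) y ≤ E ^ 2 := by
    refine le_trans (setIntegral_mono_set (h.en_int _ ht') ?_ ?_) (h.en _ ht')
    · exact Filter.Eventually.of_forall fun y => Finset.sum_nonneg fun i _ => sq_nonneg _
    · exact (ball_subset_closedBall.trans (ball_sub hlam hl le_rfl)).eventuallyLE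
  have h3 : 0 < lam⁻¹ := inv_pos.2 hlam
  calc lam⁻¹ ^ 2 * ((lam ^ 3)⁻¹ * ∫ y in ball x0 (lam * (1 / 2)), nsq (u (t0 + t)) y)
      = lam⁻¹ ^ 5 * ∫ y in ball x0 (lam * (1 / 2)), nsq (u (t0 + t)) y := by
        rw [← inv_pow]; ring
    _ ≤ lam⁻¹ ^ 5 * E ^ 2 := mul_le_mul_of_nonneg_left h2 (by positivity)

theorem wl_enst {B : ℝ} (hB : ∀ (j : Fin 3) (z : V), |pd j (zt : V → ℝ) z| ≤ B)
    (h : OSolF ν T E F Ω u p f) (hlam : 0 < lam)
    (hl : ∀ z ∈ closedBall (0 : V) (1 / 2), x0 + lam • z ∈ Ω) {t : ℝ}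
    (ht : t ∈ Ioo (-t0) (T - t0)) :
    enstrophy (wl t0 lam x0 u t) ≤ 6 * B ^ 2 * lam⁻¹ ^ 5 * E ^ 2
      + 2 * lam⁻¹ ^ 3 * ∫ y in ball x0 (lam * (1 / 2)), gsq (u (t0 + t)) y := by
  have ht' : t0 + t ∈ Ioo 0 T := ⟨by linarith [ht.1], by linarith [ht.2]⟩
  have hl4 : ∀ z ∈ closedBall (0 : V) (1 / 4), x0 + lam • z ∈ Ω := fun z hz =>
    hl z (closedBall_subset_closedBall (by norm_num) hz)
  have hsp := fun i => wl_sp (p := p) (f := f) h hl4 ht i
  have hG := sp_G2 hsp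
  have h0 : 0 < lam⁻¹ := inv_pos.2 hlam
  rw [← int_G2_enst hsp, int_cell hG.per]
  have i1 := int_aff (lam := lam) (x0 := x0) (nsq_cont h ht') hl
  have i2 := int_aff (lam := lam) (x0 := x0) (gsq_cont h ht') hl
  have h1 : ∫ z in ball (0 : V) (1 / 2), G2 (wl t0 lam x0 u t) z
      ≤ ∫ z in ball (0 : V) (1 / 2), (6 * B ^ 2 * lam⁻¹ ^ 2 * nsq (u (t0 + t)) (x0 + lam • z)
        + 2 * gsq (u (t0 + t)) (x0 + lam • z)) := by
    refine setIntegral_mono_on ?_ ((i1.const_mul _).add (i2.const_mul _)) measurableSet_ball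
      fun z hz => ?_
    · exact (hG.cont.continuousOn.integrableOn_compact (isCompact_closedBall _ _)).mono_set
        ball_subset_closedBall
    · have hzΩ : x0 + lam • z ∈ Ω := hl z (ball_subset_closedBall hz)
      have h2 : ∀ i j, pd j (fun y => wl t0 lam x0 u t y i) z ^ 2
          ≤ 2 * B ^ 2 * lam⁻¹ ^ 2 * u (t0 + t) (x0 + lam • z) i ^ 2
            + 2 * pd j (fun y => u (t0 + t) y i) (x0 + lam • z) ^ 2 := by
        intro i j
        have e : (fun y => wl t0 lam x0 u t y i) =ᶠ[𝓝 z]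
            fun z => lam⁻¹ * (zt z * u (t0 + t) (x0 + lam • z) i) := by
          filter_upwards [isOpen_ball.mem_nhds hz] with y hy
          show lam⁻¹ * per1 t0 lam x0 (fun s y => u s y i) t y = _
          rw [per1_ball hy]
        rw [pd_congr_nhds e]
        have hd : DifferentiableAt ℝ (fun y => u (t0 + t) y i) (x0 + lam • z) :=
          ((slice_u h ht' i).contDiffAt (h.openO.mem_nhds hzΩ)).differentiableAt (by norm_cast)
        have h3 : HasFDerivAt (fun z : V => x0 + lam • z) (lam • ContinuousLinearMap.id ℝ V) z :=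
          ((hasFDerivAt_id z).const_smul lam).const_add x0
        have h4 : HasFDerivAt (fun z => u (t0 + t) (x0 + lam • z) i)
            ((fderiv ℝ (fun y => u (t0 + t) y i) (x0 + lam • z)).comp
              (lam • ContinuousLinearMap.id ℝ V)) z :=
          HasFDerivAt.comp z (g := fun y => u (t0 + t) y i) (f := fun z : V => x0 + lam • z)
            hd.hasFDerivAt h3
        have h5 : HasFDerivAt (zt : V → ℝ) (fderiv ℝ (zt : V → ℝ) z) z :=
          ((zt.contDiff (n := 1)).differentiable (by norm_num) z).hasFDerivAt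
        have h6 := (h5.mul h4).const_mul lam⁻¹
        have e2 : pd j (fun z => lam⁻¹ * (zt z * u (t0 + t) (x0 + lam • z) i)) z
            = lam⁻¹ * (zt z * (lam * pd j (fun y => u (t0 + t) y i) (x0 + lam • z))
              + u (t0 + t) (x0 + lam • z) i * pd j (zt : V → ℝ) z) := by
          unfold pd
          have h7 : HasFDerivAt (fun z => lam⁻¹ * (zt z * u (t0 + t) (x0 + lam • z) i)) _ z := h6
          rw [h7.fderiv]
          simp only [smul_apply, add_apply, ContinuousLinearMap.comp_apply,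
            ContinuousLinearMap.id_apply, map_smul, smul_eq_mul]
        rw [e2]
        have e3 : lam⁻¹ * (zt z * (lam * pd j (fun y => u (t0 + t) y i) (x0 + lam • z))
              + u (t0 + t) (x0 + lam • z) i * pd j (zt : V → ℝ) z)
            = zt z * pd j (fun y => u (t0 + t) y i) (x0 + lam • z)
              + lam⁻¹ * u (t0 + t) (x0 + lam • z) i * pd j (zt : V → ℝ) z := by
          field_simp
        rw [e3]
        set a := pd j (fun y => u (t0 + t) y i) (x0 + lam • z)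
        set b := lam⁻¹ * u (t0 + t) (x0 + lam • z) i
        have b1 : (zt z * a) ^ 2 ≤ a ^ 2 := by
          rw [mul_pow]
          exact mul_le_of_le_one_left (sq_nonneg _) (pow_le_one₀ (zt_nonneg z) (zt_le z))
        have b2 : (b * pd j (zt : V → ℝ) z) ^ 2 ≤ B ^ 2 * b ^ 2 := by
          rw [mul_pow, mul_comm]
          refine mul_le_mul_of_nonneg_right ?_ (sq_nonneg _)
          rw [← sq_abs]
          exact pow_le_pow_left₀ (abs_nonneg _) (hB j z) 2
        have b3 : 2 * B ^ 2 * lam⁻¹ ^ 2 * u (t0 + t) (x0 + lam • z) i ^ 2 = 2 * (B ^ 2 * b ^ 2) := by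
          simp only [b]; ring
        rw [b3]
        nlinarith [sq_nonneg (zt z * a - b * pd j (zt : V → ℝ) z)]
      have h3 : G2 (wl t0 lam x0 u t) z
          ≤ ∑ i, ∑ j, (2 * B ^ 2 * lam⁻¹ ^ 2 * u (t0 + t) (x0 + lam • z) i ^ 2
            + 2 * pd j (fun y => u (t0 + t) y i) (x0 + lam • z) ^ 2) :=
        Finset.sum_le_sum fun i _ => Finset.sum_le_sum fun j _ => h2 i j
      refine h3.trans (le_of_eq ?_)
      unfold nsq gsq
      simp only [Fin.sum_univ_three]
      ring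
  refine h1.trans ?_
  rw [integral_add (i1.const_mul _) (i2.const_mul _), integral_const_mul, integral_const_mul,
    W382.ME.cov (nsq (u (t0 + t))) x0 hlam, W382.ME.cov (gsq (u (t0 + t))) x0 hlam]
  have h2 : ∫ y in ball x0 (lam * (1 / 2)), nsq (u (t0 + t)) y ≤ E ^ 2 := by
    refine le_trans (setIntegral_mono_set (h.en_int _ ht') ?_ ?_) (h.en _ ht')
    · exact Filter.Eventually.of_forall fun y => Finset.sum_nonneg fun i _ => sq_nonneg _
    · exact (ball_subset_closedBall.trans (ball_sub hlam hl le_rfl)).eventuallyLE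
  have h3 : 6 * B ^ 2 * lam⁻¹ ^ 2 * ((lam ^ 3)⁻¹ * ∫ y in ball x0 (lam * (1 / 2)),
      nsq (u (t0 + t)) y) ≤ 6 * B ^ 2 * lam⁻¹ ^ 5 * E ^ 2 := by
    calc _ = 6 * B ^ 2 * lam⁻¹ ^ 5 * ∫ y in ball x0 (lam * (1 / 2)), nsq (u (t0 + t)) y := by
          rw [← inv_pow]; ring
      _ ≤ _ := mul_le_mul_of_nonneg_left h2 (by positivity)
  have h4 : 2 * ((lam ^ 3)⁻¹ * ∫ y in ball x0 (lam * (1 / 2)), gsq (u (t0 + t)) y)
      = 2 * lam⁻¹ ^ 3 * ∫ y in ball x0 (lam * (1 / 2)), gsq (u (t0 + t)) y := by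
    rw [← inv_pow]; ring
  rw [h4]
  linarith

end

end Pool.Agent.R210
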