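import Pool.Agent.R210.N15

/-!
The local regularity theorem: the direction of the vorticity is Hoelder continuous near a point.
-/

open MeasureTheory Set Metric Filter Topology
open scoped ContDiff ENNReal
open H459R3.NS
open Pool.Agent.W12.MD.R0 (rnd prd prd_per prd_eq prd_smooth prd_sp round_eq_of cel int_cel
  cel_abs ball_cel cel_meas cel_int)
open W221.NS (OSolF nsq gsq Sing Bd3)

namespace Pool.Agent.R210

/-- The inner cut-off. -/
noncomputable def bi : ContDiffBump (0 : V) := ⟨1 / 32, 1 / 16, by norm_num, by norm_num⟩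

theorem bi_out : ∀ z ∉ ball (0 : V) (1 / 4), (bi : V → ℝ) z = 0 := fun z hz => by
  refine bi.zero_of_le_dist ?_
  rw [mem_ball, not_lt] at hz
  refine le_trans ?_ hz
  show (1 / 16 : ℝ) ≤ 1 / 4
  norm_num

/-- The periodized inner cut-off. -/
noncomputable def chl (x : V) : ℝ := prd (bi : V → ℝ) x

theorem chl_sp : SP chl := prd_sp bi.contDiff bi_out
theorem chl_nonneg (x : V) : 0 ≤ chl x := bi.nonneg
theorem chl_le (x : V) : chl x ≤ 1 := bi.le_one

theorem chl_one {x : V} (hx : x ∈ ball (0 : V) (1 / 32)) : chl x = 1 := by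
  have h1 : chl x = (bi : V → ℝ) x := prd_eq bi_out fun i => by
    have := (norm_le_pi_norm x i).trans_lt (mem_ball_zero_iff.1 hx)
    rw [Real.norm_eq_abs] at this
    linarith
  rw [h1]
  exact bi.one_of_mem_closedBall (ball_subset_closedBall hx)

theorem chl_supp {x : V} (hx : chl x ≠ 0) : ∃ k : Fin 3 → ℤ, x ∈ ball (kv k) (1 / 16) := by
  refine ⟨fun i => round (x i), ?_⟩
  by_contra h
  refine hx (bi.zero_of_le_dist ?_)
  rw [mem_ball, not_lt, dist_eq_norm] at h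
  rw [dist_zero_right]
  exact h

theorem eb_sub {x : V} {k : Fin 3 → ℤ} (hx : x ∈ ball (kv k) (1 / 16)) :
    eb x (1 / 8) ⊆ ball (kv k) (3 / 16) := by
  intro y hy
  have h1 : rsq (y - x) < (1 / 8) ^ 2 := hy
  have h2 : ‖y - x‖ < 1 / 8 := by
    rw [pi_norm_lt_iff (by norm_num)]
    intro i
    have h3 : (y - x) i ^ 2 ≤ rsq (y - x) :=
      Finset.single_le_sum (f := fun i => (y - x) i ^ 2) (fun i _ => sq_nonneg _)
        (Finset.mem_univ i)
    rw [Real.norm_eq_abs]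
    exact abs_lt_of_sq_lt_sq (h3.trans_lt h1) (by norm_num)
  have h3 := dist_triangle y x (kv k)
  rw [mem_ball]
  rw [← dist_eq_norm] at h2
  have h4 : dist x (kv k) < 1 / 16 := hx
  linarith

section

variable {ν T E F : ℝ} {Ω : Set V} {u : ℝ → V → V} {p : ℝ → V → ℝ} {f : ℝ → V → V}
  {t0 lam : ℝ} {x0 : V}

theorem wl_cu (h : OSolF ν T E F Ω u p f) (hlam : lam ≠ 0)
    (hl : ∀ z ∈ closedBall (0 : V) (1 / 4), x0 + lam • z ∈ Ω) {t : ℝ}
    (ht : t ∈ Ioo (-t0) (T - t0)) {k : Fin 3 → ℤ} {z : V} (hz : z ∈ ball (kv k) (3 / 16)) :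
    cu (wl t0 lam x0 u t) z = cu (u (t0 + t)) ((x0 - lam • kv k) + lam • z) := by
  funext i
  rw [cu_ab, cu_ab, wl_pd h hlam hl ht _ _ z hz, wl_pd h hlam hl ht _ _ z hz]

theorem rl_cu (h : OSolF ν T E F Ω u p f) (hlam : lam ≠ 0)
    (hl : ∀ z ∈ closedBall (0 : V) (1 / 4), x0 + lam • z ∈ Ω) {t : ℝ}
    (ht : t ∈ Ioo (-t0) (T - t0)) {z : V} (hz : z ∈ O3) :
    rsq (cu (rl (ν / lam ^ 2) (wl t0 lam x0 u) (ql t0 lam x0 p) t) z) ≤ 12 * F ^ 2 := by
  obtain ⟨k, hk⟩ := mem_iUnion.1 hz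
  have hyΩ := mem_cell (x0 := x0) (lam := lam) hl hk
  have ht' : t0 + t ∈ Ioo 0 T := ⟨by linarith [ht.1], by linarith [ht.2]⟩
  have h1 : ∀ i, cu (rl (ν / lam ^ 2) (wl t0 lam x0 u) (ql t0 lam x0 p) t) z i ^ 2
      ≤ 4 * F ^ 2 := by
    intro i
    rw [cu_ab, rl_pd h hlam hl ht _ _ z hk, rl_pd h hlam hl ht _ _ z hk]
    have a1 := (h.force _ ht' _ hyΩ (ib i)).2.1 (ia i)
    have a2 := (h.force _ ht' _ hyΩ (ia i)).2.1 (ib i)
    rw [abs_le] at a1 a2
    nlinarith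
  unfold rsq
  rw [Fin.sum_univ_three]
  linarith [h1 0, h1 1, h1 2]

theorem wl_G2 (h : OSolF ν T E F Ω u p f) (hlam : lam ≠ 0)
    (hl : ∀ z ∈ closedBall (0 : V) (1 / 4), x0 + lam • z ∈ Ω) {t : ℝ}
    (ht : t ∈ Ioo (-t0) (T - t0)) {z : V} (hz : z ∈ ball (0 : V) (3 / 16)) :
    G2 (wl t0 lam x0 u t) z = gsq (u (t0 + t)) (x0 + lam • z) := by
  have h0 : kv 0 = 0 := by funext i; simp [kv]
  have hz' : z ∈ ball (kv 0) (3 / 16) := by rwa [h0]
  have h1 := fun i j => wl_pd (p := p) (f := f) h hlam hl ht i j z hz'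
  simp only [h0, smul_zero, sub_zero] at h1
  unfold G2 gr2 gsq
  simp_rw [h1]

theorem wl_dir (h : OSolF ν T E F Ω u p f) (hlam : 0 < lam) (hlam1 : lam ≤ 1)
    (hl : ∀ z ∈ closedBall (0 : V) (1 / 4), x0 + lam • z ∈ Ω) {t : ℝ}
    (ht : t ∈ Ioo (-t0) (T - t0)) {K c β r : ℝ} (hβ : 0 < β) (hr : lam ≤ r)
    (hdir : DirL (cu (u (t0 + t))) K c β (ball x0 r)) {x : V} (hx : chl x ≠ 0) :
    DirL (cu (wl t0 lam x0 u t)) K |c| β (eb x (1 / 8)) := by
  obtain ⟨k, hk⟩ := chl_supp hx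
  have hsub := eb_sub hk
  have hin : ∀ y ∈ eb x (1 / 8), (x0 - lam • kv k) + lam • y ∈ ball x0 r := by
    intro y hy
    have h1 : dist y (kv k) < 3 / 16 := hsub hy
    have h2 : (x0 - lam • kv k) + lam • y - x0 = lam • (y - kv k) := by
      rw [smul_sub]; abel
    rw [mem_ball, dist_eq_norm, h2, norm_smul, Real.norm_eq_abs, abs_of_pos hlam, ← dist_eq_norm]
    nlinarith [dist_nonneg (x := y) (y := kv k)]
  intro y hy z hz hy1 hz1
  rw [wl_cu h hlam.ne' hl ht (hsub hy)] at hy1 ⊢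
  rw [wl_cu h hlam.ne' hl ht (hsub hz)] at hz1 ⊢
  refine (hdir _ (hin y hy) _ (hin z hz) hy1 hz1).trans ?_
  have e : (x0 - lam • kv k) + lam • y - ((x0 - lam • kv k) + lam • z) = lam • (y - z) := by
    rw [smul_sub]; abel
  rw [e]
  refine mul_le_mul_of_nonneg_right ?_ (mul_nonneg (en_nonneg _) (en_nonneg _))
  have h1 : en (lam • (y - z)) ≤ en (y - z) := by
    rw [en_smul, abs_of_pos hlam]
    exact mul_le_of_le_one_left (en_nonneg _) hlam1
  have h2 : en (lam • (y - z)) ^ β ≤ en (y - z) ^ β :=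
    Real.rpow_le_rpow (en_nonneg _) h1 hβ.le
  have h3 : 0 ≤ en (lam • (y - z)) ^ β := Real.rpow_nonneg (en_nonneg _) _
  calc c * en (lam • (y - z)) ^ β ≤ |c| * en (lam • (y - z)) ^ β :=
        mul_le_mul_of_nonneg_right (le_abs_self c) h3
    _ ≤ |c| * en (y - z) ^ β := mul_le_mul_of_nonneg_left h2 (abs_nonneg c)

theorem wl_enst_cont (h : OSolF ν T E F Ω u p f) (ht0 : 0 < t0)
    (hl : ∀ z ∈ closedBall (0 : V) (1 / 4), x0 + lam • z ∈ Ω) :
    ContinuousOn (fun t => enstrophy (wl t0 lam x0 u t)) (Ico 0 (T - t0)) := by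
  have hs : ∀ i, ContDiffOn ℝ ∞ (fun z : ℝ × V => wl t0 lam x0 u z.1 z.2 i)
      (Ico 0 (T - t0) ×ˢ univ) := fun i => (wl_smooth h hl i).mono
    (prod_mono (fun s hs => ⟨by linarith [hs.1], hs.2⟩) subset_rfl)
  refine continuousOn_finsetSum _ fun i _ => continuousOn_finsetSum _ fun j _ => ?_
  exact continuousOn_int (F := fun s x => pd j (fun y => wl t0 lam x0 u s y i) x ^ 2)
    ((contDiffOn_pd (f := fun s y => wl t0 lam x0 u s y i) (hs i) j).continuousOn.pow 2)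

theorem wl_enst_int (h : OSolF ν T E F Ω u p f) (ht0 : 0 < t0) (hlam : 0 < lam)
    (hl : ∀ z ∈ closedBall (0 : V) (1 / 2), x0 + lam • z ∈ Ω)
    (hfin : ∫⁻ t in Ioo 0 T, ∫⁻ y in Ω, ENNReal.ofReal (gsq (u t) y) ≠ ⊤) :
    IntegrableOn (fun t => enstrophy (wl t0 lam x0 u t)) (Ioo 0 (T - t0)) := by
  have hl4 : ∀ z ∈ closedBall (0 : V) (1 / 4), x0 + lam • z ∈ Ω := fun z hz =>
    hl z (closedBall_subset_closedBall (by norm_num) hz)
  obtain ⟨B, hB0, hB⟩ := exists_BZ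
  have hm : AEStronglyMeasurable (fun t => enstrophy (wl t0 lam x0 u t))
      (volume.restrict (Ioo 0 (T - t0))) :=
    ((wl_enst_cont h ht0 hl4).mono Ioo_subset_Ico_self).aestronglyMeasurable measurableSet_Ioo
  refine ⟨hm, ?_⟩
  set A1 : ℝ := 6 * B ^ 2 * lam⁻¹ ^ 5 * E ^ 2 with hA1
  set A2 : ℝ := 2 * lam⁻¹ ^ 3 with hA2
  have h0 : 0 < lam⁻¹ := inv_pos.2 hlam
  have hA10 : 0 ≤ A1 := by positivity
  have hA20 : 0 ≤ A2 := by positivity
  set H : ℝ → ℝ≥0∞ := fun t => ∫⁻ y in Ω, ENNReal.ofReal (gsq (u t) y) with hH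
  have h1 : ∀ t ∈ Ioo 0 (T - t0), ‖enstrophy (wl t0 lam x0 u t)‖ₑ
      ≤ ENNReal.ofReal A1 + ENNReal.ofReal A2 * H (t0 + t) := by
    intro t ht
    have ht1 : t ∈ Ioo (-t0) (T - t0) := ⟨by linarith [ht.1], ht.2⟩
    have ht' : t0 + t ∈ Ioo 0 T := ⟨by linarith [ht1.1], by linarith [ht1.2]⟩
    have a1 := wl_enst hB h hlam hl ht1
    rw [Real.enorm_eq_ofReal (enstrophy_nonneg _)]
    have a3 : 0 ≤ ∫ y in ball x0 (lam * (1 / 2)), gsq (u (t0 + t)) y :=
      integral_nonneg fun y =>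
        Finset.sum_nonneg fun i _ => Finset.sum_nonneg fun j _ => sq_nonneg _
    have a4 : enstrophy (wl t0 lam x0 u t)
        ≤ A1 + A2 * ∫ y in ball x0 (lam * (1 / 2)), gsq (u (t0 + t)) y := a1
    refine (ENNReal.ofReal_le_ofReal a4).trans ?_
    rw [ENNReal.ofReal_add hA10 (mul_nonneg hA20 a3), ENNReal.ofReal_mul hA20]
    refine add_le_add le_rfl (mul_le_mul_right ?_ _)
    have a2 : IntegrableOn (gsq (u (t0 + t))) (ball x0 (lam * (1 / 2))) :=
      (((gsq_cont h ht').mono (ball_sub hlam hl le_rfl)).integrableOn_compact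
        (isCompact_closedBall _ _)).mono_set ball_subset_closedBall
    rw [ofReal_integral_eq_lintegral_ofReal a2 (Filter.Eventually.of_forall fun y =>
      Finset.sum_nonneg fun i _ => Finset.sum_nonneg fun j _ => sq_nonneg _)]
    exact lintegral_mono_set (ball_subset_closedBall.trans (ball_sub hlam hl le_rfl))
  have h2 : ∫⁻ t in Ioo 0 (T - t0), H (t0 + t) ≤ ∫⁻ t in Ioo 0 T, H t := by
    have e := lintegral_add_left_eq_self (μ := (volume : Measure ℝ)) ((Ioo 0 T).indicator H) t0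
    rw [← lintegral_indicator measurableSet_Ioo, ← lintegral_indicator measurableSet_Ioo, ← e]
    refine lintegral_mono fun t => ?_
    by_cases ht : t ∈ Ioo 0 (T - t0)
    · rw [indicator_of_mem ht, indicator_of_mem (by
        constructor
        · linarith [ht.1]
        · linarith [ht.2])]
    · rw [indicator_of_notMem ht]
      exact zero_le
  have h3 : ∫⁻ t in Ioo 0 (T - t0), ‖enstrophy (wl t0 lam x0 u t)‖ₑ
      ≤ ENNReal.ofReal A1 * volume (Ioo 0 (T - t0))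
        + ENNReal.ofReal A2 * ∫⁻ t in Ioo 0 T, H t := by
    refine (setLIntegral_mono' measurableSet_Ioo h1).trans ?_
    rw [lintegral_add_left measurable_const, setLIntegral_const,
      lintegral_const_mul' _ _ ENNReal.ofReal_ne_top]
    exact add_le_add le_rfl (mul_le_mul_right h2 _)
  refine lt_of_le_of_lt h3 (ENNReal.add_lt_top.2 ⟨?_, ?_⟩)
  · refine ENNReal.mul_lt_top ENNReal.ofReal_lt_top ?_
    rw [Real.volume_Ioo]
    exact ENNReal.ofReal_lt_top
  · exact ENNReal.mul_lt_top ENNReal.ofReal_lt_top (lt_top_iff_ne_top.2 hfin)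

end

/-- The gradient is bounded in `L²` near the point, up to the final time. -/
theorem local_grad {ν T E F : ℝ} {Ω : Set V} {u : ℝ → V → V} {p : ℝ → V → ℝ} {f : ℝ → V → V}
    (hν : 0 < ν) (h : OSolF ν T E F Ω u p f)
    (hfin : ∫⁻ t in Ioo 0 T, ∫⁻ y in Ω, ENNReal.ofReal (gsq (u t) y) ≠ ⊤) {x0 : V} (hx0 : x0 ∈ Ω)
    {β K r T1 : ℝ} (hβ0 : 0 < β) (hβ1 : β ≤ 1) (hr : 0 < r) (hT1 : 0 ≤ T1) (hT1T : T1 < T)
    {c : ℝ → ℝ}
    (hc : MemLp c (ENNReal.ofReal ((1 + 2 * β) / β ^ 2)) (volume.restrict (Ioo T1 T)))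
    (hdir : ∀ᵐ t ∂volume.restrict (Ioo T1 T), DirL (cu (u t)) K (c t) β (ball x0 r)) :
    ∃ ρ A t1 : ℝ, 0 < ρ ∧ t1 < T ∧ 0 < t1 ∧ closedBall x0 ρ ⊆ Ω ∧ 0 ≤ A ∧
      ∀ t ∈ Ico t1 T, ∫ y in ball x0 ρ, gsq (u t) y ≤ A := by
  obtain ⟨ρ, hρ, hρΩ⟩ := Metric.nhds_basis_closedBall.mem_iff.1 (h.openO.mem_nhds hx0)
  set lam : ℝ := min 1 (min r ρ) with hlam'
  have hlam : 0 < lam := lt_min one_pos (lt_min hr hρ)
  have hlam1 : lam ≤ 1 := min_le_left _ _
  have hlamr : lam ≤ r := (min_le_right _ _).trans (min_le_left _ _)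
  have hlamρ : lam ≤ ρ := (min_le_right _ _).trans (min_le_right _ _)
  have hl : ∀ z ∈ closedBall (0 : V) (1 / 2), x0 + lam • z ∈ Ω := by
    intro z hz
    refine hρΩ ?_
    rw [mem_closedBall, dist_eq_norm, add_sub_cancel_left, norm_smul, Real.norm_eq_abs,
      abs_of_pos hlam]
    rw [mem_closedBall_zero_iff] at hz
    nlinarith [norm_nonneg z]
  have hl4 : ∀ z ∈ closedBall (0 : V) (1 / 4), x0 + lam • z ∈ Ω := fun z hz =>
    hl z (closedBall_subset_closedBall (by norm_num) hz)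
  set t0 : ℝ := (T1 + T) / 2 with ht0'
  have ht0 : 0 < t0 := by rw [ht0']; linarith
  have hT'pos : 0 < T - t0 := by rw [ht0']; linarith
  have hT1t0 : T1 ≤ t0 := by rw [ht0']; linarith
  have hLP := LP_of h ht0 hlam.ne' hl4
  have h0 : 0 < lam⁻¹ := inv_pos.2 hlam
  -- the translation in time
  have hpre : (fun t : ℝ => t0 + t) ⁻¹' Ioo t0 T = Ioo 0 (T - t0) := by
    rw [preimage_const_add_Ioo, sub_self]
  have hMP : MeasurePreserving (fun t : ℝ => t0 + t) (volume.restrict (Ioo 0 (T - t0)))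
      (volume.restrict (Ioo t0 T)) := by
    have h1 := (measurePreserving_add_left (volume : Measure ℝ) t0).restrict_preimage
      (measurableSet_Ioo (a := t0) (b := T))
    rwa [hpre] at h1
  have hc' : MemLp (fun t => |c (t0 + t)|) (ENNReal.ofReal ((1 + 2 * β) / β ^ 2))
      (volume.restrict (Ioo 0 (T - t0))) := by
    have h1 : MemLp c (ENNReal.ofReal ((1 + 2 * β) / β ^ 2)) (volume.restrict (Ioo t0 T)) :=
      hc.mono_measure (Measure.restrict_mono (Ioo_subset_Ioo hT1t0 le_rfl) le_rfl)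
    exact (h1.comp_measurePreserving hMP).norm
  have hdir1 : ∀ᵐ t ∂volume.restrict (Ioo t0 T), DirL (cu (u t)) K (c t) β (ball x0 r) :=
    ae_mono (Measure.restrict_mono (Ioo_subset_Ioo hT1t0 le_rfl) le_rfl) hdir
  have hdir2 : ∀ᵐ t ∂volume.restrict (Ioo 0 (T - t0)), ∀ x, chl x ≠ 0 →
      DirL (cu (wl t0 lam x0 u t)) K (|c (t0 + t)|) β (eb x (1 / 8)) := by
    filter_upwards [hMP.quasiMeasurePreserving.ae hdir1, ae_restrict_mem measurableSet_Ioo]
      with t ht1 ht2 x hx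
    exact wl_dir h hlam hlam1 hl4 ⟨by linarith [ht2.1], ht2.2⟩ hβ0 hlamr ht1 hx
  obtain ⟨A, hA⟩ := hLP.bound (E0 := Real.sqrt (lam⁻¹ ^ 5 * E ^ 2)) (R1 := 1 / 8)
    (F := 12 * F ^ 2) (χ := chl) (K := K) (β := β) (by positivity) hT'pos hβ0 hβ1
    (Real.sqrt_nonneg _) (by norm_num) (by norm_num) (by positivity) chl_sp chl_nonneg chl_le
    (fun x hx => by
      obtain ⟨k, hk⟩ := chl_supp hx
      exact (eb_sub hk).trans (subset_iUnion (fun k => ball (kv k) (3 / 16)) k))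
    (fun t ht => by
      rw [Real.sq_sqrt (by positivity)]
      exact wl_energy h hlam hl ⟨by linarith [ht.1], ht.2⟩)
    (wl_enst_int h ht0 hlam hl hfin)
    (fun t ht x hx => rl_cu h hlam.ne' hl4 ⟨by linarith [ht.1], ht.2⟩ hx) hc' hdir2
  obtain ⟨M, hM0, hM⟩ := per_bound (gr2_cont (sp_sq chl_sp)) (gr2_per (sp_sq chl_sp))
  set A1 : ℝ := 2 * A + 4 * M * (lam⁻¹ ^ 5 * E ^ 2) with hA1
  have hgr : ∀ s ∈ Ico ((T - t0) / 2) (T - t0),
      ∫ x in ball x0 (lam * (1 / 32)), gsq (u (t0 + s)) x ≤ lam ^ 3 * A1 := by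
    intro s hs
    have hs1 : s ∈ Ioo (-t0) (T - t0) := ⟨by linarith [hs.1], hs.2⟩
    have hs2 : s ∈ Ico 0 (T - t0) := ⟨by linarith [hs.1], hs.2⟩
    have hsp := hLP.sp s hs2
    have hs' : t0 + s ∈ Ioo 0 T := ⟨by linarith [hs1.1], by linarith [hs1.2]⟩
    have hself : ∀ x : V, x ∈ eb x (1 / 8) := fun x => by
      show rsq (x - x) < (1 / 8) ^ 2
      rw [sub_self]
      have : rsq (0 : V) = 0 := by simp [rsq]
      rw [this]; positivity
    have a1 := grad_le (M := M) hsp (sp_sq chl_sp) (fun x hx => by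
      have hx' : chl x ≠ 0 := fun h => hx (by rw [h]; ring)
      obtain ⟨k, hk⟩ := chl_supp hx'
      exact hLP.divfree s hs2 x (((eb_sub hk).trans
        (subset_iUnion (fun k => ball (kv k) (3 / 16)) k)) (hself x)))
      fun x => (le_abs_self _).trans (hM x)
    have a2 := hA s hs
    have a3 := wl_energy (x0 := x0) h hlam hl hs1
    have a4 : ∫ x in cube, (chl x ^ 2) ^ 2 * G2 (wl t0 lam x0 u s) x ≤ A1 := by
      refine a1.trans ?_
      have : 4 * M * ∫ x in cube, rsq (wl t0 lam x0 u s x) ≤ 4 * M * (lam⁻¹ ^ 5 * E ^ 2) :=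
        mul_le_mul_of_nonneg_left a3 (by positivity)
      rw [hA1]
      linarith
    have hP : SP fun x => (chl x ^ 2) ^ 2 * G2 (wl t0 lam x0 u s) x :=
      (sp_sq (sp_sq chl_sp)).mul (sp_G2 hsp)
    rw [int_cell hP.per] at a4
    have a5 : ∫ x in ball (0 : V) (1 / 32), gsq (u (t0 + s)) (x0 + lam • x) ≤ A1 := by
      refine le_trans ?_ a4
      have b1 : ∫ x in ball (0 : V) (1 / 32), gsq (u (t0 + s)) (x0 + lam • x)
          = ∫ x in ball (0 : V) (1 / 32), (chl x ^ 2) ^ 2 * G2 (wl t0 lam x0 u s) x := by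
        refine setIntegral_congr_fun measurableSet_ball fun x hx => ?_
        beta_reduce
        rw [chl_one hx, wl_G2 h hlam.ne' hl4 hs1 (ball_subset_ball (by norm_num) hx)]
        ring
      rw [b1]
      refine setIntegral_mono_set ((hP.cont.continuousOn.integrableOn_compact
        (isCompact_closedBall _ _)).mono_set ball_subset_closedBall)
        (Filter.Eventually.of_forall fun x => mul_nonneg (sq_nonneg _) (G2_nonneg _ _))
        (ball_subset_ball (by norm_num)).eventuallyLE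
    rw [W382.ME.cov (gsq (u (t0 + s))) x0 hlam] at a5
    rw [inv_mul_le_iff₀ (by positivity)] at a5
    exact a5
  refine ⟨lam * (1 / 32), max 0 (lam ^ 3 * A1), t0 + (T - t0) / 2, by positivity, by linarith,
    by linarith, ball_sub hlam hl (by norm_num), le_max_left _ _, fun t ht => ?_⟩
  have h1 := hgr (t - t0) ⟨by linarith [ht.1], by linarith [ht.2]⟩
  rw [add_sub_cancel] at h1
  exact h1.trans (le_max_right _ _)

theorem local_reg {ν T E F : ℝ} {Ω : Set V} {u : ℝ → V → V} {p : ℝ → V → ℝ} {f : ℝ → V → V}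
    (hν : 0 < ν) (h : OSolF ν T E F Ω u p f)
    (hfin : ∫⁻ t in Ioo 0 T, ∫⁻ y in Ω, ENNReal.ofReal (gsq (u t) y) ≠ ⊤) {x0 : V} (hx0 : x0 ∈ Ω)
    {β K r T1 : ℝ} (hβ0 : 0 < β) (hβ1 : β ≤ 1) (hr : 0 < r) (hT1 : 0 ≤ T1) (hT1T : T1 < T)
    {c : ℝ → ℝ}
    (hc : MemLp c (ENNReal.ofReal ((1 + 2 * β) / β ^ 2)) (volume.restrict (Ioo T1 T)))
    (hdir : ∀ᵐ t ∂volume.restrict (Ioo T1 T), DirL (cu (u t)) K (c t) β (ball x0 r)) :
    ¬ Sing T u x0 := by
  intro hS
  obtain ⟨ρ, A, t1, hρ, ht1T, ht1, hρΩ, hA0, hA⟩ := local_grad hν h hfin hx0 hβ0 hβ1 hr hT1 hT1T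
    hc hdir
  have hT : 0 < T := ht1.trans ht1T
  obtain ⟨C, hC, H⟩ := Pool.Agent.TH305.LW.omega_final5
  have hsub : ball x0 ρ ⊆ Ω := ball_subset_closedBall.trans hρΩ
  have h' : OSolF ν T E F (ball x0 ρ) u p f :=
    { openO := isOpen_ball
      smooth_u := h.smooth_u.mono (prod_mono subset_rfl hsub)
      smooth_p := h.smooth_p.mono (prod_mono subset_rfl hsub)
      divfree := fun t ht x hx => h.divfree t ht x (hsub hx)
      momentum := fun t ht x hx => h.momentum t ht x (hsub hx)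
      force := fun t ht x hx => h.force t ht x (hsub hx)
      en_int := fun t ht => (h.en_int t ht).mono_set hsub
      en := fun t ht => le_trans (setIntegral_mono_set (h.en_int _ ht)
        (Filter.Eventually.of_forall fun y => Finset.sum_nonneg fun i _ => sq_nonneg _)
        hsub.eventuallyLE) (h.en _ ht) }
  have hfin' : ∫⁻ t in Ioo 0 T, ∫⁻ y in ball x0 ρ, ENNReal.ofReal (gsq (u t) y) ≠ ⊤ :=
    ne_top_of_le_ne_top hfin (lintegral_mono fun t => lintegral_mono_set hsub)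
  obtain ⟨-, -, H3⟩ := H ν T E F (ball x0 ρ) {x0} u p f hν hT h'
    (Or.inl ⟨isCompact_singleton, singleton_subset_iff.2 (mem_ball_self hρ)⟩) hfin'
  have hbd : ∀ t ∈ Ico t1 T, ∫⁻ y in ball x0 ρ, ENNReal.ofReal (gsq (u t) y)
      ≤ ENNReal.ofReal A := by
    intro t ht
    have ht' : t ∈ Ioo 0 T := ⟨by linarith [ht.1], ht.2⟩
    have a2 : IntegrableOn (gsq (u t)) (ball x0 ρ) :=
      (((gsq_cont h ht').mono hρΩ).integrableOn_compact
        (isCompact_closedBall _ _)).mono_set ball_subset_closedBall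
    rw [← ofReal_integral_eq_lintegral_ofReal a2 (Filter.Eventually.of_forall fun y =>
      Finset.sum_nonneg fun i _ => Finset.sum_nonneg fun j _ => sq_nonneg _)]
    exact ENNReal.ofReal_le_ofReal (hA t ht)
  have hsν : 0 < ν * Real.sqrt ν := by positivity
  set M : ℝ := ν * Real.sqrt ν / (2 * C) with hM
  have hM0 : 0 < M := by positivity
  have key := H3 M hM0.le (Or.inl ?_) {x0} (fun x hx => by
    rw [Finset.mem_singleton] at hx
    rw [hx]
    exact ⟨mem_ball_self hρ, hS⟩)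
  · rw [Finset.card_singleton, hM] at key
    have : C * (ν * Real.sqrt ν / (2 * C)) / (ν * Real.sqrt ν) = 1 / 2 := by
      field_simp
    rw [this] at key
    norm_num at key
  · refine Filter.Eventually.frequently ?_
    have hev : ∀ᶠ η in 𝓝[>] (0 : ℝ), η ∈ Ioo 0 (min (T - t1) ((M / (A + 1)) ^ 2)) :=
      Ioo_mem_nhdsGT (lt_min (by linarith) (by positivity))
    filter_upwards [hev] with η hη
    have hη0 : 0 < η := hη.1
    have hη1 : η < T - t1 := hη.2.trans_le (min_le_left _ _)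
    have hη2 : η < (M / (A + 1)) ^ 2 := hη.2.trans_le (min_le_right _ _)
    have b1 : ∫⁻ t in Ioo (T - η) T, ENNReal.ofReal (((T - t) / η) ^ (1 / 1152 : ℝ)) *
        ∫⁻ y in ball x0 ρ, ENNReal.ofReal (gsq (u t) y)
        ≤ ∫⁻ _ in Ioo (T - η) T, ENNReal.ofReal A := by
      refine setLIntegral_mono' measurableSet_Ioo fun t ht => ?_
      have c1 : ENNReal.ofReal (((T - t) / η) ^ (1 / 1152 : ℝ)) ≤ 1 := by
        rw [← ENNReal.ofReal_one]
        refine ENNReal.ofReal_le_ofReal (Real.rpow_le_one ?_ ?_ (by norm_num))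
        · exact div_nonneg (by linarith [ht.2]) hη0.le
        · rw [div_le_one hη0]
          linarith [ht.1]
      calc _ ≤ 1 * ENNReal.ofReal A :=
            mul_le_mul' c1 (hbd t ⟨by linarith [ht.1], ht.2⟩)
        _ = _ := one_mul _
    refine b1.trans ?_
    rw [setLIntegral_const, Real.volume_Ioo, ← ENNReal.ofReal_mul hA0]
    refine ENNReal.ofReal_le_ofReal ?_
    have c2 : Real.sqrt η * Real.sqrt η = η := Real.mul_self_sqrt hη0.le
    have c3 : Real.sqrt η < M / (A + 1) := by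
      rw [Real.sqrt_lt' (by positivity)]
      exact hη2
    have c4 : (A + 1) * Real.sqrt η ≤ M := by
      rw [lt_div_iff₀ (by positivity)] at c3
      linarith
    have c5 : 0 ≤ Real.sqrt η := Real.sqrt_nonneg _
    calc A * (T - (T - η)) = A * Real.sqrt η * Real.sqrt η := by rw [mul_assoc, c2]; ring
      _ ≤ ((A + 1) * Real.sqrt η) * Real.sqrt η := by nlinarith
      _ ≤ M * Real.sqrt η := mul_le_mul_of_nonneg_right c4 c5

end Pool.Agent.R210
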