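import Pool.Agent.R210.N1
import Pool.Agent.R210.M4

/-!
The vorticity in a ball is bounded by the energy if its direction is coherent.
-/

open MeasureTheory Set Metric Filter Topology
open scoped ContDiff RealInnerProductSpace
open H459R3.NS

namespace Pool.Agent.R210

theorem ofLp_smooth {g : V → ℝ} (hg : SP g) : ContDiff ℝ ∞ fun y : E => g (WithLp.ofLp y) :=
  hg.smooth.comp (EuclideanSpace.equiv (Fin 3) ℝ).contDiff

theorem fderiv_ofLp {g : V → ℝ} (hg : SP g) (y : E) (k : Fin 3) :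
    fderiv ℝ (fun y : E => g (WithLp.ofLp y)) y (ei k) = pd k g (WithLp.ofLp y) := by
  have h1 : HasFDerivAt g (fderiv ℝ g (WithLp.ofLp y)) (WithLp.ofLp y) :=
    (hg.smooth.differentiable (by norm_num) _).hasFDerivAt
  have h2 : HasFDerivAt (fun y : E => (WithLp.ofLp y : V))
      ((EuclideanSpace.equiv (Fin 3) ℝ : E ≃L[ℝ] V) : E →L[ℝ] V) y :=
    (EuclideanSpace.equiv (Fin 3) ℝ).hasFDerivAt
  have h3 : HasFDerivAt (fun y : E => g (WithLp.ofLp y))
      ((fderiv ℝ g (WithLp.ofLp y)).comp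
        ((EuclideanSpace.equiv (Fin 3) ℝ : E ≃L[ℝ] V) : E →L[ℝ] V)) y := h1.comp y h2
  rw [h3.fderiv]
  unfold pd
  rw [ContinuousLinearMap.comp_apply]
  congr 1

theorem test_pd {g : V → ℝ} (hg : SP g) {ψ : E → ℝ} (hψ : ContDiff ℝ ∞ ψ)
    (hc : HasCompactSupport ψ) {L : ℝ} (hL : ∀ y, ‖fderiv ℝ ψ y‖ ≤ L) {x : E} {ρ : ℝ}
    (hs : tsupport ψ ⊆ ball x ρ) (k : Fin 3) :
    |∫ y, pd k g (WithLp.ofLp y) * ψ y| ≤ L * ∫ y in ball x ρ, |g (WithLp.ofLp y)| := by
  have h1 := int_fderiv_test ((ofLp_smooth hg).of_le (by norm_cast)) hψ hc (ei k)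
  simp_rw [fderiv_ofLp hg] at h1
  rw [← abs_neg, ← h1, ← integral_const_mul, ← integral_indicator measurableSet_ball]
  have hgc : Continuous fun y : E => |g (WithLp.ofLp y)| := (ofLp_smooth hg).continuous.abs
  have hii : IntegrableOn (fun y : E => L * |g (WithLp.ofLp y)|) (ball x ρ) :=
    (intOn_ball hgc x ρ).const_mul L
  refine abs_integral_le_integral_abs.trans (integral_mono_of_nonneg
    (Filter.Eventually.of_forall fun y => abs_nonneg _)
    (hii.integrable_indicator measurableSet_ball)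
    (Filter.Eventually.of_forall fun y => ?_))
  simp only [indicator]
  split_ifs with h
  · rw [abs_mul, mul_comm]
    refine mul_le_mul_of_nonneg_right ?_ (abs_nonneg _)
    have h2 := (fderiv ℝ ψ y).le_opNorm (ei k)
    rw [norm_ei, mul_one, Real.norm_eq_abs] at h2
    exact h2.trans (hL y)
  · rw [fderiv_zero_of_tsupp hs h]
    simp

theorem zes_fderiv (s : ℝ) (x y v : E) : fderiv ℝ (fun y : E => ze s (y - x)) y v
    = deriv hh (‖y - x‖ ^ 2 / s ^ 2) * (2 * ⟪y - x, v⟫ / s ^ 2) := by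
  have h2 : HasFDerivAt (fun y : E => ‖y - x‖ ^ 2) (2 • (innerSL ℝ (y - x))) y := by
    have := (hasStrictFDerivAt_norm_sq (y - x)).hasFDerivAt
    exact this.comp y ((hasFDerivAt_id y).sub_const x)
  have h3 : HasFDerivAt (fun y : E => ‖y - x‖ ^ 2 / s ^ 2)
      ((s ^ 2)⁻¹ • (2 • (innerSL ℝ (y - x)))) y := by
    have := h2.mul_const ((s ^ 2)⁻¹)
    exact this
  have h4 : HasFDerivAt (fun y : E => ze s (y - x))
      (deriv hh (‖y - x‖ ^ 2 / s ^ 2) • ((s ^ 2)⁻¹ • (2 • (innerSL ℝ (y - x))))) y :=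
    (hh_hasDerivAt _).comp_hasFDerivAt y h3
  rw [h4.fderiv]
  have e : (deriv hh (‖y - x‖ ^ 2 / s ^ 2) • ((s ^ 2)⁻¹ • (2 • (innerSL ℝ (y - x))))) v
      = deriv hh (‖y - x‖ ^ 2 / s ^ 2) * ((s ^ 2)⁻¹ * (2 • ⟪y - x, v⟫)) := rfl
  rw [e, two_nsmul]
  ring

theorem zes_fderiv_le {s : ℝ} (hs : 0 < s) (x y : E) :
    ‖fderiv ℝ (fun y : E => ze s (y - x)) y‖ ≤ 2 * HB / s := by
  have hB := one_le_HB
  refine ContinuousLinearMap.opNorm_le_bound _ (by positivity) fun v => ?_
  rw [zes_fderiv, Real.norm_eq_abs]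
  rcases le_or_gt s ‖y - x‖ with h | h
  · rw [dhh_zero (ze_arg hs h)]
    simp only [zero_mul, abs_zero]
    have := norm_nonneg v
    positivity
  · have a2 : |2 * ⟪y - x, v⟫ / s ^ 2| ≤ 2 * ‖v‖ / s := by
      have h2 := abs_real_inner_le_norm (y - x) v
      rw [abs_div, abs_mul, abs_of_pos (by positivity : 0 < s ^ 2), abs_two,
        div_le_div_iff₀ (by positivity) hs]
      have h4 : ‖y - x‖ * ‖v‖ ≤ s * ‖v‖ := mul_le_mul_of_nonneg_right h.le (norm_nonneg _)
      calc 2 * |⟪y - x, v⟫| * s ≤ 2 * (s * ‖v‖) * s := by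
            refine mul_le_mul_of_nonneg_right ?_ hs.le
            linarith
        _ = 2 * ‖v‖ * s ^ 2 := by ring
    rw [abs_mul]
    have a3 : |deriv hh (‖y - x‖ ^ 2 / s ^ 2)| ≤ HB := dhh_le (by positivity)
    calc |deriv hh (‖y - x‖ ^ 2 / s ^ 2)| * |2 * ⟪y - x, v⟫ / s ^ 2|
        ≤ HB * (2 * ‖v‖ / s) := mul_le_mul a3 a2 (abs_nonneg _) (by linarith)
      _ = 2 * HB / s * ‖v‖ := by ring

theorem zes_tsupp {s : ℝ} (hs : 0 < s) (x : E) :
    tsupport (fun y : E => ze s (y - x)) ⊆ closedBall x s := by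
  refine closure_minimal (fun y hy => ?_) isClosed_closedBall
  by_contra hc
  refine hy ?_
  show ze s (y - x) = 0
  exact ze_sub_zero hs fun h => hc (ball_subset_closedBall h)

theorem zes_compact {s : ℝ} (hs : 0 < s) (x : E) :
    HasCompactSupport (fun y : E => ze s (y - x)) :=
  HasCompactSupport.of_support_subset_isCompact (isCompact_closedBall x s)
    ((subset_tsupport _).trans (zes_tsupp hs x))

theorem zes_smooth (s : ℝ) (x : E) : ContDiff ℝ ∞ (fun y : E => ze s (y - x)) :=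
  (ze_smooth s).comp (contDiff_id.sub contDiff_const)

section

variable {v : V → V} (hv : ∀ i, SP (fun x => v x i))

include hv in
theorem abs_coord_int (x : E) (ρ : ℝ) (i : Fin 3) :
    ∫ y in ball x ρ, |v (WithLp.ofLp y) i| ≤ ∫ y in ball x ρ, en (v (WithLp.ofLp y)) := by
  have h1 : Continuous fun y : E => |v (WithLp.ofLp y) i| := (ofLp_smooth (hv i)).continuous.abs
  have h2 : Continuous fun y : E => en (v (WithLp.ofLp y)) :=
    (f_cont hv).comp (EuclideanSpace.equiv (Fin 3) ℝ).continuous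
  exact setIntegral_mono (intOn_ball h1 x ρ) (intOn_ball h2 x ρ) fun y => abs_le_en _ _

include hv in
theorem test_cu {ψ : E → ℝ} (hψ : ContDiff ℝ ∞ ψ)
    (hc : HasCompactSupport ψ) {L : ℝ} (hL : ∀ y, ‖fderiv ℝ ψ y‖ ≤ L) {x : E} {ρ : ℝ}
    (hs : tsupport ψ ⊆ ball x ρ) (i : Fin 3) :
    |∫ y, cu v (WithLp.ofLp y) i * ψ y| ≤ 2 * L * ∫ y in ball x ρ, en (v (WithLp.ofLp y)) := by
  have hL0 : 0 ≤ L := (norm_nonneg _).trans (hL x)
  have key : ∀ a b j k : Fin 3, (∀ y, cu v y i = pd a (fun z => v z j) y - pd b (fun z => v z k) y) →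
      |∫ y, cu v (WithLp.ofLp y) i * ψ y| ≤ 2 * L * ∫ y in ball x ρ, en (v (WithLp.ofLp y)) := by
    intro a b j k h
    have hi : ∀ (a j : Fin 3), Integrable fun y : E => pd a (fun z => v z j) (WithLp.ofLp y) * ψ y :=
      fun a j => ((ofLp_smooth ((hv j).pd a)).continuous.mul hψ.continuous).integrable_of_hasCompactSupport
        hc.mul_left
    have h1 : ∫ y : E, cu v (WithLp.ofLp y) i * ψ y
        = (∫ y : E, pd a (fun z => v z j) (WithLp.ofLp y) * ψ y)
          - ∫ y : E, pd b (fun z => v z k) (WithLp.ofLp y) * ψ y := by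
      rw [← integral_sub (hi a j) (hi b k)]
      congr 1
      funext y
      rw [h]; ring
    rw [h1]
    have h2 := (test_pd (hv j) hψ hc hL hs a).trans
      (mul_le_mul_of_nonneg_left (abs_coord_int hv x ρ j) hL0)
    have h3 := (test_pd (hv k) hψ hc hL hs b).trans
      (mul_le_mul_of_nonneg_left (abs_coord_int hv x ρ k) hL0)
    refine (abs_sub _ _).trans ?_
    linarith
  fin_cases i
  · exact key 1 2 2 1 fun y => rfl
  · exact key 2 0 0 2 fun y => rfl
  · exact key 0 1 1 0 fun y => rfl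

theorem abs_inner_sum {e : E} (he : ‖e‖ = 1) : ∀ i, |e i| ≤ 1 := by
  intro i
  have h1 : |e i| ≤ ‖e‖ := by
    have := PiLp.norm_apply_le e i
    rwa [Real.norm_eq_abs] at this
  rwa [he] at h1

include hv in
/-- The bound by the energy. -/
theorem energy_ball {K c β R : ℝ} (hβ0 : 0 ≤ β) (hc : 0 ≤ c) (hK : 0 ≤ K) (hR : 0 < R) {x : E}
    (hdir : ∀ p ∈ ball x (2 * R), ∀ y ∈ ball x (2 * R), K < ‖lift (cu v) p‖ →
      K < ‖lift (cu v) y‖ →
      ‖‖lift (cu v) y‖ • lift (cu v) p - ‖lift (cu v) p‖ • lift (cu v) y‖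
        ≤ c * ‖p - y‖ ^ β * (‖lift (cu v) p‖ * ‖lift (cu v) y‖))
    (h4 : c * (4 * R) ^ β ≤ 1 / 2) :
    hh (1 / 4) * ∫ y in ball x R, ‖lift (cu v) y‖
      ≤ 12 * HB / R * (∫ y in ball x (4 * R), en (v (WithLp.ofLp y))) + 24 * v3 * K * R ^ 3 := by
  set w := lift (cu v) with hw
  have hwc : Continuous w := (lift_smooth (sp_cu hv)).continuous
  have hv3 := v3_pos
  have hHB := one_le_HB
  have hh0 : 0 < hh (1 / 4) := hh_pos (by norm_num)
  have hvol : ∀ (a r : ℝ), 0 ≤ r → ∫ _ in ball x r, a = a * (v3 * r ^ 3) := by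
    intro a r hr
    rw [setIntegral_const, smul_eq_mul, ← vol_ball x hr]
    simp only [Measure.real]
    ring
  have hI0 : 0 ≤ ∫ y in ball x (4 * R), en (v (WithLp.ofLp y)) :=
    integral_nonneg fun y => en_nonneg _
  set ψ : E → ℝ := fun y => ze (2 * R) (y - x) with hψd
  have h2R : 0 < 2 * R := by linarith
  have hψ : ContDiff ℝ ∞ ψ := zes_smooth _ _
  have hψc : HasCompactSupport ψ := zes_compact h2R x
  have hψs : tsupport ψ ⊆ ball x (4 * R) := (zes_tsupp h2R x).trans
    (closedBall_subset_ball (by linarith))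
  have hψL : ∀ y, ‖fderiv ℝ ψ y‖ ≤ HB / R := by
    intro y
    refine (zes_fderiv_le h2R x y).trans (le_of_eq ?_)
    field_simp
  have iψ : ∀ {f : E → ℝ}, Continuous f → Integrable fun y => ψ y * f y := fun hf =>
    (hψ.continuous.mul hf).integrable_of_hasCompactSupport hψc.mul_right
  -- lower bound of the weighted integral
  have hlow : hh (1 / 4) * ∫ y in ball x R, ‖w y‖ ≤ ∫ y, ψ y * ‖w y‖ := by
    rw [← integral_const_mul, ← integral_indicator measurableSet_ball]
    have hii : IntegrableOn (fun y : E => hh (1 / 4) * ‖w y‖) (ball x R) :=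
      (intOn_ball hwc.norm x R).const_mul _
    refine integral_mono (hii.integrable_indicator measurableSet_ball) (iψ hwc.norm) fun y => ?_
    simp only [indicator]
    split_ifs with h
    · refine mul_le_mul_of_nonneg_right (ze_ge h2R ?_) (norm_nonneg _)
      rw [mem_ball, dist_eq_norm] at h
      linarith
    · exact mul_nonneg (ze_nonneg _ _) (norm_nonneg _)
  refine hlow.trans ?_
  have hψ0 : ∀ y, y ∉ ball x (2 * R) → ψ y = 0 := fun y hy => ze_sub_zero h2R hy
  have hcst : ∫ y, ψ y * (3 * K) ≤ 24 * v3 * K * R ^ 3 := by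
    have h1 : ∫ y, ψ y * (3 * K) ≤ ∫ _ in ball x (2 * R), 3 * K := by
      rw [← integral_indicator measurableSet_ball]
      refine integral_mono (iψ continuous_const)
        ((integrableOn_const (measure_ball_lt_top).ne).integrable_indicator measurableSet_ball)
        fun y => ?_
      simp only [indicator]
      split_ifs with h
      · exact mul_le_of_le_one_left (by positivity) (ze_le_one _ _)
      · rw [hψ0 y h, zero_mul]
    refine h1.trans (le_of_eq ?_)
    rw [hvol _ _ h2R.le]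
    ring
  by_cases hp : ∃ p ∈ ball x (2 * R), K < ‖w p‖
  swap
  · push Not at hp
    have h1 : ∫ y, ψ y * ‖w y‖ ≤ ∫ y, ψ y * (3 * K) := by
      refine integral_mono (iψ hwc.norm) (iψ continuous_const) fun y => ?_
      by_cases hy : y ∈ ball x (2 * R)
      · have := hp y hy
        exact mul_le_mul_of_nonneg_left (by linarith) (ze_nonneg _ _)
      · show ψ y * ‖w y‖ ≤ ψ y * (3 * K)
        rw [hψ0 y hy, zero_mul, zero_mul]
    have h2 : 0 ≤ 12 * HB / R * ∫ y in ball x (4 * R), en (v (WithLp.ofLp y)) := by positivity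
    linarith
  · obtain ⟨p, hpx, hpK⟩ := hp
    have hn : 0 < ‖w p‖ := hK.trans_lt hpK
    set e : E := (‖w p‖⁻¹) • w p with he
    have he1 : ‖e‖ = 1 := by
      rw [he, norm_smul, norm_inv, norm_norm, inv_mul_cancel₀ hn.ne']
    have hpt : ∀ y, ψ y * ‖w y‖ ≤ 2 * (ψ y * ⟪e, w y⟫) + ψ y * (3 * K) := by
      intro y
      by_cases hy : y ∈ ball x (2 * R)
      · have h0 : 0 ≤ ψ y := ze_nonneg _ _
        have h1 : ‖w y‖ ≤ 2 * ⟪e, w y⟫ + 3 * K := by
          rcases lt_or_ge K ‖w y‖ with h | h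
          · have h2 := hdir p hpx y hy hpK h
            have h3 : ‖w y‖ • e - w y = (‖w p‖⁻¹) • (‖w y‖ • w p - ‖w p‖ • w y) := by
              rw [he, smul_sub, smul_smul, smul_smul, smul_smul, inv_mul_cancel₀ hn.ne', one_smul,
                mul_comm]
            have h5 : c * ‖p - y‖ ^ β ≤ 1 / 2 := by
              refine le_trans (mul_le_mul_of_nonneg_left (Real.rpow_le_rpow (norm_nonneg _) ?_
                hβ0) hc) h4
              rw [mem_ball, dist_eq_norm] at hy hpx
              have e1 : p - y = (p - x) - (y - x) := by abel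
              rw [e1]
              have := norm_sub_le (p - x) (y - x)
              linarith
            have h6 : ‖‖w y‖ • e - w y‖ ≤ 1 / 2 * ‖w y‖ := by
              rw [h3, norm_smul, norm_inv, norm_norm, inv_mul_le_iff₀ hn]
              calc ‖‖w y‖ • w p - ‖w p‖ • w y‖ ≤ c * ‖p - y‖ ^ β * (‖w p‖ * ‖w y‖) := h2
                _ ≤ 1 / 2 * (‖w p‖ * ‖w y‖) := mul_le_mul_of_nonneg_right h5 (by positivity)
                _ = ‖w p‖ * (1 / 2 * ‖w y‖) := by ring
            have h7 : ⟪e, w y⟫ = ‖w y‖ - ⟪e, ‖w y‖ • e - w y⟫ := by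
              rw [inner_sub_right, inner_smul_right, real_inner_self_eq_norm_sq, he1]
              ring
            have h8 : ⟪e, ‖w y‖ • e - w y⟫ ≤ 1 / 2 * ‖w y‖ := by
              refine (real_inner_le_norm _ _).trans ?_
              rw [he1, one_mul]
              exact h6
            linarith
          · have h2 := abs_real_inner_le_norm e (w y)
            rw [he1, one_mul] at h2
            have h3 := neg_abs_le (⟪e, w y⟫ : ℝ)
            linarith
        calc ψ y * ‖w y‖ ≤ ψ y * (2 * ⟪e, w y⟫ + 3 * K) := mul_le_mul_of_nonneg_left h1 h0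
          _ = _ := by ring
      · rw [hψ0 y hy]; simp
    have hci : Continuous fun y => ⟪e, w y⟫ := continuous_const.inner hwc
    have h1 : ∫ y, ψ y * ‖w y‖ ≤ 2 * (∫ y, ψ y * ⟪e, w y⟫) + ∫ y, ψ y * (3 * K) := by
      rw [← integral_const_mul, ← integral_add ((iψ hci).const_mul 2) (iψ continuous_const)]
      exact integral_mono (iψ hwc.norm) (((iψ hci).const_mul 2).add (iψ continuous_const)) hpt
    have hinn : ∀ y, ⟪e, w y⟫ = ∑ i, e i * cu v (WithLp.ofLp y) i := by
      intro y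
      rw [PiLp.inner_apply]
      exact Finset.sum_congr rfl fun i _ => by
        simp only [RCLike.inner_apply, conj_trivial]
        rw [mul_comm]
        rfl
    have hcw : ∀ i, Continuous fun y : E => cu v (WithLp.ofLp y) i := fun i =>
      (ofLp_smooth (sp_cu hv i)).continuous
    have h2 : ∫ y, ψ y * ⟪e, w y⟫ = ∑ i, e i * ∫ y, cu v (WithLp.ofLp y) i * ψ y := by
      simp_rw [← integral_const_mul]
      rw [← integral_finsetSum _ fun i _ => ?_]
      · congr 1
        funext y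
        rw [hinn, Finset.mul_sum]
        exact Finset.sum_congr rfl fun i _ => by ring
      · have := (iψ (hcw i)).const_mul (e i)
        refine this.congr (Filter.Eventually.of_forall fun y => ?_)
        simp only
        ring
    have h3 : ∫ y, ψ y * ⟪e, w y⟫
        ≤ 6 * (HB / R) * ∫ y in ball x (4 * R), en (v (WithLp.ofLp y)) := by
      rw [h2]
      have h5 : ∀ i, e i * ∫ y, cu v (WithLp.ofLp y) i * ψ y
          ≤ 2 * (HB / R) * ∫ y in ball x (4 * R), en (v (WithLp.ofLp y)) := by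
        intro i
        refine (le_abs_self _).trans ?_
        rw [abs_mul]
        have h6 := test_cu hv hψ hψc hψL hψs i
        have h7 := abs_inner_sum he1 i
        calc |e i| * |∫ y, cu v (WithLp.ofLp y) i * ψ y|
            ≤ 1 * (2 * (HB / R) * ∫ y in ball x (4 * R), en (v (WithLp.ofLp y))) :=
              mul_le_mul h7 h6 (abs_nonneg _) zero_le_one
          _ = _ := by ring
      rw [Fin.sum_univ_three]
      have := h5 0
      have := h5 1
      have := h5 2
      linarith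
    have e1 : 12 * HB / R * (∫ y in ball x (4 * R), en (v (WithLp.ofLp y)))
        = 2 * (6 * (HB / R) * ∫ y in ball x (4 * R), en (v (WithLp.ofLp y))) := by ring
    linarith

end

end Pool.Agent.R210
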