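import Pool.Agent.R210.N2
import Pool.Agent.R210.M7

/-!
The local Morrey bound for the vorticity.
-/

open MeasureTheory Set Metric Filter Topology
open scoped ContDiff RealInnerProductSpace
open H459R3.NS

namespace Pool.Agent.R210

/-- The direction of the field is Hoelder continuous in `U` where the field is large. -/
def DirL (w : V → V) (K c β : ℝ) (U : Set V) : Prop := ∀ x ∈ U, ∀ y ∈ U, K < en (w x) →
  K < en (w y) →
  en (en (w y) • w x - en (w x) • w y) ≤ c * en (x - y) ^ β * (en (w x) * en (w y))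

/-- The bound of the scale. -/
noncomputable def a3 (β : ℝ) : ℝ := min (1 / 8) ((1 - 2⁻¹ ^ β) / (16 * (1 + 2 * HB) * C3))

theorem a3_pos {β : ℝ} (hβ : 0 < β) : 0 < a3 β := by
  have h1 := q_lt hβ
  have h2 := one_le_HB
  have h3 := C3_pos
  refine lt_min (by norm_num) (div_pos (by linarith) (by positivity))

theorem a3_le (β : ℝ) : a3 β ≤ 1 := (min_le_left _ _).trans (by norm_num)

/-- The constant of the local Morrey bound. -/
noncomputable def CG3 (β : ℝ) : ℝ :=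
  4 * C3 * ((hh (1 / 4))⁻¹ * (12 * HB * Real.sqrt (1728 * v3) + 24 * v3)
    + 8 * (1 + 2 * HB) * v3 / (1 - 2⁻¹ ^ β))

theorem CG3_pos {β : ℝ} (hβ : 0 < β) : 0 < CG3 β := by
  have h1 := q_lt hβ
  have h2 := one_le_HB
  have h3 := C3_pos
  have h4 := v3_pos
  have h5 : 0 < 1 - (2⁻¹ : ℝ) ^ β := by linarith
  have h6 : 0 < hh (1 / 4) := hh_pos (by norm_num)
  unfold CG3
  positivity

theorem mem_eb_iff {x : E} {z : V} {r : ℝ} (hr : 0 < r) :
    WithLp.ofLp x ∈ eb z r ↔ x ∈ ball (WithLp.toLp 2 z : E) r := by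
  rw [mem_ball, dist_eq_norm]
  have h2 : ‖x - WithLp.toLp 2 z‖ = en (WithLp.ofLp x - z) := by
    rw [← norm_toLp]
    rfl
  rw [h2]
  unfold eb
  rw [mem_ofPred_eq, ← en_sq]
  constructor
  · intro h
    exact lt_of_pow_lt_pow_left₀ 2 hr.le h
  · intro h
    exact pow_lt_pow_left₀ h (en_nonneg _) two_ne_zero

section

variable {v : V → V} (hv : ∀ i, SP (fun x => v x i))

include hv in
theorem eb_en_le {ρ : ℝ} (hρ : 0 < ρ) (hρ1 : ρ ≤ 1) (x : E) :
    ∫ y in ball x ρ, en (v (WithLp.ofLp y))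
      ≤ Real.sqrt (v3 * ρ ^ 3 * (27 * ∫ x in cube, rsq (v x))) := by
  have hc : Continuous fun y : E => en (v (WithLp.ofLp y)) :=
    (f_cont hv).comp (EuclideanSpace.equiv (Fin 3) ℝ).continuous
  refine Real.le_sqrt_of_sq_le ?_
  refine (setInt_le_sqrt measurableSet_ball (measure_ball_lt_top).ne hc.aestronglyMeasurable
    (fun y => en_nonneg _) (intOn_ball (hc.pow 2) x ρ)).trans ?_
  rw [vol_ball x hρ.le]
  refine mul_le_mul_of_nonneg_left ?_ (by have := v3_pos; positivity)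
  simp_rw [en_sq]
  rw [int_ball_lift (F := fun y => rsq (v y)) x hρ]
  have h1 := eb_int (F := fun y => rsq (v y)) (rsq_smooth.continuous.comp (w_cont hv))
    (fun i x => by simp only [w_per hv i x]) (fun x => rsq_nonneg _) (WithLp.ofLp x)
  refine le_trans (setIntegral_mono_set h1.1 (Filter.Eventually.of_forall fun y => rsq_nonneg _)
    (LE.le.eventuallyLE fun y hy => ?_)) h1.2
  unfold eb at hy ⊢
  rw [mem_ofPred_eq] at hy ⊢
  nlinarith

include hv in
/-- The local Morrey bound. -/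
theorem morrey_loc {z₀ : V} {r c β K R : ℝ} (hr : 0 < r) (hr1 : r ≤ 1) (hβ0 : 0 < β)
    (hβ1 : β ≤ 1) (hc : 0 ≤ c) (hK : 0 ≤ K) (hdir : DirL (cu v) K c β (eb z₀ r)) (hR0 : 0 < R)
    (hRr : R ≤ r / 16) (hR : c * R ^ β ≤ a3 β) {τ : ℝ} (hτ : 0 < τ) (hτR : τ ≤ R) {x : V}
    (hx : x ∈ eb z₀ (r / 4)) :
    ∫ y in eb x τ, en (cu v y)
      ≤ CG3 β * (Real.sqrt ((∫ x in cube, rsq (v x)) / R) + K) * τ := by
  have hHB := one_le_HB
  have hC3 := C3_pos
  have hv3 := v3_pos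
  have hq := q_lt hβ0
  have h1q : 0 < 1 - (2⁻¹ : ℝ) ^ β := by linarith
  have hh0 : 0 < hh (1 / 4) := hh_pos (by norm_num)
  set E2 := ∫ x in cube, rsq (v x) with hE2
  have hE20 : 0 ≤ E2 := integral_nonneg fun x => rsq_nonneg _
  set z : E := WithLp.toLp 2 z₀ with hz
  set w := lift (cu v) with hw
  have hwsp := sp_cu hv
  have hws : ContDiff ℝ 1 w := (lift_smooth hwsp).of_le (by norm_cast)
  have hdv : ∀ y, dvE w y = 0 := fun y => by rw [hw, dvE_lift hwsp, dv_cu hv]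
  have en0 : ∀ p y : E, ‖p - y‖ = en (WithLp.ofLp p - WithLp.ofLp y) := by
    intro p y
    rw [← norm_toLp]; rfl
  have hdirE : ∀ p ∈ ball z r, ∀ y ∈ ball z r, K < ‖w p‖ → K < ‖w y‖ →
      ‖‖w y‖ • w p - ‖w p‖ • w y‖ ≤ c * ‖p - y‖ ^ β * (‖w p‖ * ‖w y‖) := by
    intro p hpz y hyz hp hy
    have h1 := hdir (WithLp.ofLp p) ((mem_eb_iff hr).2 hpz) (WithLp.ofLp y) ((mem_eb_iff hr).2 hyz)
      (by rwa [hw, norm_lift] at hp) (by rwa [hw, norm_lift] at hy)
    rw [en0 p y, hw, norm_lift, norm_lift]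
    refine le_trans (le_of_eq ?_) h1
    exact norm_toLp (en (cu v (WithLp.ofLp y)) • cu v (WithLp.ofLp p)
      - en (cu v (WithLp.ofLp p)) • cu v (WithLp.ofLp y))
  have hsub : ball z (r / 2) ⊆ ball z r := ball_subset_ball (by linarith)
  have hS := lstr_dir hws (U := ball z (r / 2)) (fun y _ => hdv y) hβ0.le hβ1 hc hK
    (fun p hp y hy => hdirE p (hsub hp) y (hsub hy)) R
  have hlc : Continuous fun y : E => ‖w y‖ := hws.continuous.norm
  set W : ℝ := (hh (1 / 4))⁻¹ * (12 * HB / R * Real.sqrt (v3 * (4 * R) ^ 3 * (27 * E2))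
    + 24 * v3 * K * R ^ 3) with hWd
  have hW0 : 0 ≤ W := by positivity
  have h4 : c * (4 * R) ^ β ≤ 1 / 2 := by
    have h5 : (4 * R) ^ β ≤ 4 * R ^ β := by
      rw [Real.mul_rpow (by norm_num) hR0.le]
      refine mul_le_mul_of_nonneg_right ?_ (by positivity)
      calc (4 : ℝ) ^ β ≤ 4 ^ (1 : ℝ) := Real.rpow_le_rpow_of_exponent_le (by norm_num) hβ1
        _ = 4 := Real.rpow_one _
    have h6 : a3 β ≤ 1 / 8 := min_le_left _ _
    have h7 := mul_le_mul_of_nonneg_left h5 hc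
    linarith
  have hW : ∀ x, closedBall x R ⊆ ball z (r / 2) → ∫ y in ball x R, ‖w y‖ ≤ W := by
    intro x hx
    have hxz : x ∈ ball z (r / 2) := hx (mem_closedBall_self hR0.le)
    rw [mem_ball] at hxz
    have hsub2 : ball x (2 * R) ⊆ ball z r := by
      intro y hy
      rw [mem_ball] at hy ⊢
      have := dist_triangle y x z
      linarith
    have h5 := energy_ball hv hβ0.le hc hK hR0 (fun p hp y hy => hdirE p (hsub2 hp) y (hsub2 hy)) h4
    have h6 := eb_en_le hv (ρ := 4 * R) (by linarith) (by linarith) x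
    rw [hWd, inv_mul_eq_div, le_div_iff₀ hh0, mul_comm]
    refine h5.trans ?_
    have h7 : 0 ≤ 12 * HB / R := by positivity
    have := mul_le_mul_of_nonneg_left h6 h7
    linarith
  have ha : 2 * (1 + 2 * HB) * C3 * (2 * c * R ^ β) ≤ (1 - 2⁻¹ ^ β) / 4 := by
    have h1 : c * R ^ β ≤ (1 - 2⁻¹ ^ β) / (16 * (1 + 2 * HB) * C3) := hR.trans (min_le_right _ _)
    rw [le_div_iff₀ (by positivity)] at h1
    linarith
  have hxb : closedBall (WithLp.toLp 2 x : E) (3 * R) ⊆ ball z (r / 2) := by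
    have h5 : (WithLp.toLp 2 x : E) ∈ ball z (r / 4) :=
      (mem_eb_iff (x := (WithLp.toLp 2 x : E)) (by linarith)).1 hx
    intro y hy
    rw [mem_ball] at h5 ⊢
    rw [mem_closedBall] at hy
    have := dist_triangle y (WithLp.toLp 2 x : E) z
    linarith
  have h1 := hS.morrey hlc (fun y => norm_nonneg _) hβ0 hβ1 (by positivity) (by positivity) hR0
    ha hW0 hW hτ hτR hxb
  have hball : ∫ y in ball (WithLp.toLp 2 x : E) τ, ‖w y‖ = ∫ y in eb x τ, en (cu v y) := by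
    have h5 := int_ball_lift (F := fun y => en (cu v y)) (WithLp.toLp 2 x : E) hτ
    rw [← h5]
    simp_rw [hw, norm_lift]
  rw [hball] at h1
  refine h1.trans (mul_le_mul_of_nonneg_right ?_ hτ.le)
  have hR1 : R ≤ 1 := by linarith
  have hsq : 0 ≤ Real.sqrt (E2 / R) := Real.sqrt_nonneg _
  have h2 : 4 * (1 + 2 * HB) * (2 * K * v3) * R ^ 2 / (1 - 2⁻¹ ^ β)
      ≤ 8 * (1 + 2 * HB) * v3 / (1 - 2⁻¹ ^ β) * K := by
    rw [div_mul_eq_mul_div]
    refine div_le_div_of_nonneg_right ?_ h1q.le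
    have h5 : R ^ 2 ≤ 1 := pow_le_one₀ hR0.le hR1
    have h6 : 0 ≤ 8 * (1 + 2 * HB) * v3 * K := by positivity
    calc 4 * (1 + 2 * HB) * (2 * K * v3) * R ^ 2 = 8 * (1 + 2 * HB) * v3 * K * R ^ 2 := by ring
      _ ≤ _ := mul_le_of_le_one_right h6 h5
  have h3 : W / R ≤ (hh (1 / 4))⁻¹ * (12 * HB * Real.sqrt (1728 * v3) * Real.sqrt (E2 / R)
      + 24 * v3 * K) := by
    rw [hWd, mul_div_assoc]
    refine mul_le_mul_of_nonneg_left ?_ (inv_nonneg.2 hh0.le)
    rw [add_div]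
    have e1 : Real.sqrt (v3 * (4 * R) ^ 3 * (27 * E2))
        = Real.sqrt (1728 * v3) * Real.sqrt (E2 / R) * R ^ 2 := by
      have : v3 * (4 * R) ^ 3 * (27 * E2) = (1728 * v3) * (E2 / R) * (R ^ 2) ^ 2 := by
        field_simp
        ring
      rw [this, Real.sqrt_mul (by positivity), Real.sqrt_mul (by positivity),
        Real.sqrt_sq (by positivity)]
    have e2 : 12 * HB / R * Real.sqrt (v3 * (4 * R) ^ 3 * (27 * E2)) / R
        = 12 * HB * Real.sqrt (1728 * v3) * Real.sqrt (E2 / R) := by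
      rw [e1]
      field_simp
    have e3 : 24 * v3 * K * R ^ 3 / R ≤ 24 * v3 * K := by
      have h5 : R ^ 2 ≤ 1 := pow_le_one₀ hR0.le hR1
      have h6 : 0 ≤ 24 * v3 * K := by positivity
      calc 24 * v3 * K * R ^ 3 / R = 24 * v3 * K * R ^ 2 := by field_simp
        _ ≤ _ := mul_le_of_le_one_right h6 h5
    rw [e2]
    linarith
  have h8 : 0 ≤ (hh (1 / 4))⁻¹ * (12 * HB * Real.sqrt (1728 * v3) + 24 * v3) := by positivity
  have h9 : 0 ≤ 8 * (1 + 2 * HB) * v3 / (1 - 2⁻¹ ^ β) := by positivity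
  have h10 : 0 ≤ (hh (1 / 4))⁻¹ * (12 * HB * Real.sqrt (1728 * v3)) := by positivity
  have h11 : 0 ≤ (hh (1 / 4))⁻¹ * (24 * v3) := by positivity
  unfold CG3
  calc 4 * C3 * (W / R + 4 * (1 + 2 * HB) * (2 * K * v3) * R ^ 2 / (1 - 2⁻¹ ^ β))
      ≤ 4 * C3 * ((hh (1 / 4))⁻¹ * (12 * HB * Real.sqrt (1728 * v3) * Real.sqrt (E2 / R)
        + 24 * v3 * K) + 8 * (1 + 2 * HB) * v3 / (1 - 2⁻¹ ^ β) * K) :=
        mul_le_mul_of_nonneg_left (add_le_add h3 h2) (by positivity)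
    _ ≤ 4 * C3 * (((hh (1 / 4))⁻¹ * (12 * HB * Real.sqrt (1728 * v3) + 24 * v3)
        + 8 * (1 + 2 * HB) * v3 / (1 - 2⁻¹ ^ β)) * (Real.sqrt (E2 / R) + K)) := by
        refine mul_le_mul_of_nonneg_left ?_ (by positivity)
        have a1 := mul_nonneg h10 hK
        have a2 := mul_nonneg h11 hsq
        have a3 := mul_nonneg h9 hsq
        nlinarith
    _ = _ := by ring

include hv in
/-- The averaged form of the local Morrey bound. -/
theorem avg_loc {z₀ : V} {r c β K R : ℝ} (hr : 0 < r) (hr1 : r ≤ 1) (hβ0 : 0 < β)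
    (hβ1 : β ≤ 1) (hc : 0 ≤ c) (hK : 0 ≤ K) (hdir : DirL (cu v) K c β (eb z₀ r)) (hR0 : 0 < R)
    (hRr : R ≤ r / 16) (hR : c * R ^ β ≤ a3 β) {τ : ℝ} (hτ : 0 < τ) (hτR : τ ≤ R) {x : V}
    (hx : x ∈ eb z₀ (r / 4)) :
    ∫ z in U1, en (cu v (x - τ • z))
      ≤ CG3 β * (Real.sqrt ((∫ x in cube, rsq (v x)) / R) + K) / τ ^ 2 := by
  have h1 := morrey_loc hv hr hr1 hβ0 hβ1 hc hK hdir hR0 hRr hR hτ hτR hx
  rw [int_U1_scale (f := fun y => en (cu v y)) hτ, inv_pow, inv_mul_eq_div, div_le_div_iff₀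
    (by positivity) (by positivity)]
  calc (∫ y in eb x τ, en (cu v y)) * τ ^ 2
      ≤ (CG3 β * (Real.sqrt ((∫ x in cube, rsq (v x)) / R) + K) * τ) * τ ^ 2 :=
        mul_le_mul_of_nonneg_right h1 (by positivity)
    _ = _ := by ring

end

end Pool.Agent.R210
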