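import Pool.Agent.R210.Prod4

/-!
A trace inequality: the integral of a square against the averages of a density in a Morrey space.
-/

open MeasureTheory Set Metric Filter Topology
open scoped ContDiff ENNReal
open H459R3.NS

namespace Pool.Agent.R210

/-- The integral of `|G|²` against the averages of `f` at the scale `s`. -/
noncomputable def It (G : V → V) (f : V → ℝ) (s : ℝ) : ℝ :=
  ∫ x in cube, rsq (G x) * ∫ z in U1, f (x - s • z)

theorem prod_U1 {H : V × V → ℝ} (hH : Continuous H) : IntegrableOn H (U1 ×ˢ cube) volume ∧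
    ∫ p in U1 ×ˢ cube, H p = ∫ z in U1, ∫ x in cube, H (z, x) := by
  have h1 : IntegrableOn H (U1 ×ˢ cube) volume :=
    (hH.continuousOn.integrableOn_compact ((isCompact_closedBall (0 : V) 1).prod
      (isCompact_Icc : IsCompact cube))).mono_set (prod_mono U1_sub subset_rfl)
  refine ⟨h1, ?_⟩
  rw [Measure.volume_eq_prod] at h1 ⊢
  exact setIntegral_prod H h1

theorem sp_rsqG {G : V → V} (hG : ∀ i, SP (fun x => G x i)) : SP (fun x => rsq (G x)) := by
  have h1 : SP (fun x => ∑ i, G x i * G x i) := SP.sum fun i _ => (hG i).mul (hG i)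
  have h2 : (fun x => rsq (G x)) = fun x => ∑ i, G x i * G x i := by
    funext x
    exact Finset.sum_congr rfl fun i _ => by ring
  rw [h2]; exact h1

/-- The gradient of `|G|²`. -/
theorem fderiv_rsq_le {G : V → V} (hG : ∀ i, SP (fun x => G x i)) (x : V) {z : V}
    (hz : rsq z ≤ 1) :
    |fderiv ℝ (fun x => rsq (G x)) x z| ≤ Real.sqrt (rsq (G x)) * Real.sqrt (4 * G2 G x) := by
  rw [← Real.sqrt_mul (rsq_nonneg _)]
  refine Real.abs_le_sqrt ?_
  rw [fderiv_eq_sum]
  have h1 := cs3 z fun k => pd k (fun x => rsq (G x)) x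
  refine h1.trans ?_
  have h2 : ∀ k, pd k (fun x => rsq (G x)) x = 2 * ∑ i, G x i * pd k (fun y => G y i) x := by
    intro k
    have e1 : (fun x => rsq (G x)) = fun x => ∑ i, G x i * G x i := by
      funext x
      exact Finset.sum_congr rfl fun i _ => by ring
    rw [e1, pd_sum (fun i _ => (hG i).mul (hG i)) k x, Finset.mul_sum]
    refine Finset.sum_congr rfl fun i _ => ?_
    unfold pd
    have h3 := fderiv_fun_mul (𝕜 := ℝ) ((hG i).diff x) ((hG i).diff x)
    rw [h3]
    simp only [FunLike.coe_add, FunLike.coe_smul, Pi.add_apply, Pi.smul_apply, smul_eq_mul]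
    ring
  have h3 : rsq (fun k => pd k (fun x => rsq (G x)) x) ≤ 4 * (rsq (G x) * G2 G x) := by
    have h4 : ∀ k, pd k (fun x => rsq (G x)) x ^ 2
        ≤ 4 * (rsq (G x) * ∑ i, pd k (fun y => G y i) x ^ 2) := by
      intro k
      rw [h2, mul_pow]
      have h5 := cs3 (G x) fun i => pd k (fun y => G y i) x
      have h6 : rsq (fun i => pd k (fun y => G y i) x) = ∑ i, pd k (fun y => G y i) x ^ 2 := rfl
      rw [h6] at h5
      linarith
    calc rsq (fun k => pd k (fun x => rsq (G x)) x)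
        = ∑ k, pd k (fun x => rsq (G x)) x ^ 2 := rfl
      _ ≤ ∑ k, 4 * (rsq (G x) * ∑ i, pd k (fun y => G y i) x ^ 2) :=
          Finset.sum_le_sum fun k _ => h4 k
      _ = 4 * (rsq (G x) * ∑ k, ∑ i, pd k (fun y => G y i) x ^ 2) := by
          rw [Finset.mul_sum, Finset.mul_sum]
      _ = 4 * (rsq (G x) * G2 G x) := by
          rw [Finset.sum_comm]
          rfl
  have h4 := rsq_nonneg (fun k => pd k (fun x => rsq (G x)) x)
  calc rsq z * rsq (fun k => pd k (fun x => rsq (G x)) x)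
      ≤ 1 * rsq (fun k => pd k (fun x => rsq (G x)) x) := mul_le_mul_of_nonneg_right hz h4
    _ ≤ rsq (G x) * (4 * G2 G x) := by linarith

section

variable {G : V → V} (hG : ∀ i, SP (fun x => G x i)) {f : V → ℝ} (hf : Continuous f)
  (hp : Per f) (hf0 : ∀ x, 0 ≤ f x)

include hf hp in
theorem shift_back {F : V → V → ℝ} (hF : Continuous fun p : V × V => F p.1 p.2)
    (hFp : ∀ z, Per (F z)) (s : ℝ) :
    ∫ z in U1, ∫ x in cube, F z (x + s • z) * f x
      = ∫ x in cube, ∫ z in U1, F z x * f (x - s • z) := by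
  have hc : Continuous fun p : V × V => F p.2 p.1 * f (p.1 - s • p.2) :=
    (hF.comp (continuous_snd.prodMk continuous_fst)).mul (hf.comp (by fun_prop))
  rw [swap_U1 (G := fun x z => F z x * f (x - s • z)) hc]
  congr 1
  funext z
  have h1 := int_shift (f := fun x => F z x * f (x - s • z)) (fun i x => by
    simp only [hFp z i x]
    have : x + Pi.single i 1 - s • z = (x - s • z) + Pi.single i 1 := by abel
    rw [this, hp i]) (s • z)
  rw [← h1]
  congr 1
  funext x
  rw [add_sub_cancel_right]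

include hf in
theorem J_hasDerivAt {g : V → ℝ} (hg : SP g) (s₀ : ℝ) :
    HasDerivAt (fun s : ℝ => ∫ z in U1, ∫ x in cube, g (x + s • z) * f x)
      (∫ z in U1, ∫ x in cube, fderiv ℝ g (x + s₀ • z) z * f x) s₀ := by
  have hgf : Continuous (fderiv ℝ g) := hg.smooth.continuous_fderiv (by norm_num)
  have hc1 : ∀ s : ℝ, Continuous fun p : V × V => g (p.2 + s • p.1) * f p.2 := fun s =>
    (hg.cont.comp (by fun_prop)).mul (hf.comp continuous_snd)
  have hc2 : Continuous fun q : ℝ × V × V => fderiv ℝ g (q.2.2 + q.1 • q.2.1) q.2.1 * f q.2.2 := by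
    refine Continuous.mul ?_ (hf.comp (by fun_prop))
    exact (hgf.comp (by fun_prop)).clm_apply (by fun_prop)
  have hc3 : ∀ s : ℝ, Continuous fun p : V × V => fderiv ℝ g (p.2 + s • p.1) p.1 * f p.2 :=
    fun s => hc2.comp (by fun_prop : Continuous fun p : V × V => ((s, p) : ℝ × V × V))
  have e1 : (fun s : ℝ => ∫ z in U1, ∫ x in cube, g (x + s • z) * f x)
      = fun s : ℝ => ∫ p in U1 ×ˢ cube, g (p.2 + s • p.1) * f p.2 := by
    funext s
    exact ((prod_U1 (hc1 s)).2).symm
  have e2 : ∫ z in U1, ∫ x in cube, fderiv ℝ g (x + s₀ • z) z * f x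
      = ∫ p in U1 ×ˢ cube, fderiv ℝ g (p.2 + s₀ • p.1) p.1 * f p.2 := ((prod_U1 (hc3 s₀)).2).symm
  rw [e1, e2]
  have hcomp : IsCompact (closedBall s₀ 1 ×ˢ (closedBall (0 : V) 1 ×ˢ cube)) :=
    (isCompact_closedBall _ _).prod ((isCompact_closedBall _ _).prod isCompact_Icc)
  obtain ⟨C, hC⟩ := hcomp.exists_bound_of_continuousOn hc2.continuousOn
  have hm : MeasurableSet (U1 ×ˢ cube) := measurable_U1.prod measurableSet_Icc
  have hfin : volume (U1 ×ˢ cube) ≠ ⊤ := by
    refine ne_top_of_le_ne_top ?_ (measure_mono (prod_mono U1_sub (subset_rfl : cube ⊆ cube)))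
    exact ((isCompact_closedBall (0 : V) 1).prod (isCompact_Icc : IsCompact cube)).measure_lt_top.ne
  refine (hasDerivAt_integral_of_dominated_loc_of_deriv_le (s := ball s₀ 1)
    (F := fun (s : ℝ) (p : V × V) => g (p.2 + s • p.1) * f p.2)
    (F' := fun (s : ℝ) (p : V × V) => fderiv ℝ g (p.2 + s • p.1) p.1 * f p.2)
    (bound := fun _ => C)
    (ball_mem_nhds _ one_pos) ?_ ?_ ?_ ?_ ?_ ?_).2
  · exact Filter.Eventually.of_forall fun s => (hc1 s).aestronglyMeasurable
  · exact (prod_U1 (hc1 s₀)).1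
  · exact (hc3 s₀).aestronglyMeasurable
  · rw [ae_restrict_iff' hm]
    exact Filter.Eventually.of_forall fun p hp s hs =>
      hC (s, p) ⟨ball_subset_closedBall hs, U1_sub hp.1, hp.2⟩
  · exact integrableOn_const hfin
  · refine Filter.Eventually.of_forall fun p s _ => ?_
    have h1 : HasFDerivAt g (fderiv ℝ g (p.2 + s • p.1)) (p.2 + s • p.1) :=
      (hg.smooth.differentiable (by norm_num) _).hasFDerivAt
    have h2 : HasDerivAt (fun s : ℝ => p.2 + s • p.1) p.1 s := by
      have := ((hasDerivAt_id s).smul_const p.1).const_add p.2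
      simpa using this
    exact (h1.comp_hasDerivAt s h2).mul_const (f p.2)

include hf hp hG in
theorem It_hasDerivAt (s₀ : ℝ) : HasDerivAt (It G f)
    (∫ x in cube, ∫ z in U1, fderiv ℝ (fun x => rsq (G x)) x z * f (x - s₀ • z)) s₀ := by
  have hg := sp_rsqG hG
  have hgf : Continuous (fderiv ℝ fun x => rsq (G x)) :=
    hg.smooth.continuous_fderiv (by norm_num)
  have e1 : It G f = fun s : ℝ => ∫ z in U1, ∫ x in cube, rsq (G (x + s • z)) * f x := by
    funext s
    symm
    rw [shift_back hf hp (F := fun _ x => rsq (G x)) (hg.cont.comp continuous_snd)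
      (fun _ => hg.per) s]
    unfold It
    congr 1
    funext x
    exact integral_const_mul _ _
  have e2 := shift_back hf hp (F := fun z x => fderiv ℝ (fun x => rsq (G x)) x z)
    ((hgf.comp continuous_snd).clm_apply continuous_fst) (fun z i x => by
      have h1 := (hg.pd 0)
      simp only [fderiv_eq_sum]
      refine Finset.sum_congr rfl fun k _ => ?_
      rw [(hg.pd k).per i x]) s₀
  rw [e1, ← e2]
  exact J_hasDerivAt hf hg s₀

include hf in
theorem Sf_cont (s : ℝ) : Continuous fun x => ∫ z in U1, f (x - s • z) :=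
  cont_U1 (G := fun x z => f (x - s • z)) (hf.comp (by fun_prop))

include hf hf0 hG in
theorem It_deriv_le {s Λ : ℝ} (hs : 0 < s) (hΛ : 0 ≤ Λ)
    (hb : ∀ x, G x ≠ 0 → ∫ z in U1, f (x - s • z) ≤ Λ / s ^ 2) :
    |∫ x in cube, ∫ z in U1, fderiv ℝ (fun x => rsq (G x)) x z * f (x - s • z)|
      ≤ 2 * (Real.sqrt (Λ * ∫ x in cube, G2 G x) / s) * Real.sqrt (It G f s) := by
  have hSc := Sf_cont hf s
  have hS0 : ∀ x, 0 ≤ ∫ z in U1, f (x - s • z) := fun x => integral_nonneg fun z => hf0 _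
  have hGc : Continuous fun x => rsq (G x) := (sp_rsqG hG).cont
  have h1 : ∀ x, |∫ z in U1, fderiv ℝ (fun x => rsq (G x)) x z * f (x - s • z)|
      ≤ Real.sqrt (4 * G2 G x)
        * Real.sqrt (Λ / s ^ 2 * (rsq (G x) * ∫ z in U1, f (x - s • z))) := by
    intro x
    set S := ∫ z in U1, f (x - s • z) with hS
    have h2 : |∫ z in U1, fderiv ℝ (fun x => rsq (G x)) x z * f (x - s • z)|
        ≤ Real.sqrt (rsq (G x)) * Real.sqrt (4 * G2 G x) * S := by
      rw [hS, ← integral_const_mul, ← Real.norm_eq_abs]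
      refine norm_integral_le_of_norm_le (int_U1 (continuous_const.mul (hf.comp (by fun_prop))))
        ?_
      rw [ae_restrict_iff' measurable_U1]
      refine Filter.Eventually.of_forall fun z hz => ?_
      rw [Real.norm_eq_abs, abs_mul, abs_of_nonneg (hf0 _)]
      have hz' : rsq z < 1 := hz
      exact mul_le_mul_of_nonneg_right (fderiv_rsq_le hG x hz'.le) (hf0 _)
    refine h2.trans ?_
    have h3 : Real.sqrt (rsq (G x)) * S
        ≤ Real.sqrt (Λ / s ^ 2 * (rsq (G x) * S)) := by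
      refine Real.le_sqrt_of_sq_le ?_
      rw [mul_pow, Real.sq_sqrt (rsq_nonneg _)]
      by_cases hx : G x = 0
      · rw [hx]
        simp [rsq]
      · have h4 := hb x hx
        have h5 := mul_le_mul_of_nonneg_right h4 (hS0 x)
        rw [← hS] at h5
        have h6 := mul_le_mul_of_nonneg_left h5 (rsq_nonneg (G x))
        calc rsq (G x) * S ^ 2 = rsq (G x) * (S * S) := by ring
          _ ≤ rsq (G x) * (Λ / s ^ 2 * S) := h6
          _ = _ := by ring
    calc Real.sqrt (rsq (G x)) * Real.sqrt (4 * G2 G x) * S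
        = Real.sqrt (4 * G2 G x) * (Real.sqrt (rsq (G x)) * S) := by ring
      _ ≤ _ := mul_le_mul_of_nonneg_left h3 (Real.sqrt_nonneg _)
  have hc1 : Continuous fun x => 4 * G2 G x := continuous_const.mul (G2_cont hG)
  have hc2 : Continuous fun x => Λ / s ^ 2 * (rsq (G x) * ∫ z in U1, f (x - s • z)) :=
    continuous_const.mul (hGc.mul hSc)
  have h01 : ∀ x, 0 ≤ 4 * G2 G x := fun x => mul_nonneg (by norm_num) (G2_nonneg _ _)
  have h02 : ∀ x, 0 ≤ Λ / s ^ 2 * (rsq (G x) * ∫ z in U1, f (x - s • z)) := fun x =>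
    mul_nonneg (by positivity) (mul_nonneg (rsq_nonneg _) (hS0 x))
  have h2 : |∫ x in cube, ∫ z in U1, fderiv ℝ (fun x => rsq (G x)) x z * f (x - s • z)|
      ≤ ∫ x in cube, Real.sqrt (4 * G2 G x)
        * Real.sqrt (Λ / s ^ 2 * (rsq (G x) * ∫ z in U1, f (x - s • z))) := by
    rw [← Real.norm_eq_abs]
    refine norm_integral_le_of_norm_le (integrableOn_cube
      ((Real.continuous_sqrt.comp hc1).mul (Real.continuous_sqrt.comp hc2)))
      (Filter.Eventually.of_forall fun x => ?_)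
    rw [Real.norm_eq_abs]
    exact h1 x
  refine h2.trans ((cs_cube hc1 hc2 h01 h02).trans (le_of_eq ?_))
  rw [integral_const_mul, integral_const_mul]
  have h3 : ∫ x in cube, rsq (G x) * ∫ z in U1, f (x - s • z) = It G f s := rfl
  have hG20 : 0 ≤ ∫ x in cube, G2 G x := integral_nonneg fun x => G2_nonneg _ _
  have hI0 : 0 ≤ It G f s := integral_nonneg fun x => mul_nonneg (rsq_nonneg _) (hS0 x)
  rw [h3, Real.sqrt_mul (by norm_num), Real.sqrt_mul (by positivity), Real.sqrt_mul hΛ,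
    Real.sqrt_div hΛ, Real.sqrt_sq hs.le]
  have h4 : Real.sqrt 4 = 2 := by
    rw [show (4 : ℝ) = 2 ^ 2 by norm_num]
    exact Real.sqrt_sq (by norm_num)
  rw [h4]
  ring

include hf hp hf0 hG in
/-- The trace inequality. -/
theorem trace_le {ρ Λ : ℝ} (hρ : 0 < ρ) (hΛ : 0 ≤ Λ)
    (hb : ∀ s : ℝ, 0 < s → s ≤ ρ → ∀ x, G x ≠ 0 → ∫ z in U1, f (x - s • z) ≤ Λ / s ^ 2) {t : ℝ}
    (ht : 0 < t) (htρ : t ≤ ρ) :
    It G f t ≤ 2 * Λ * ((∫ x in cube, rsq (G x)) / ρ ^ 2
      + Real.log (ρ / t) ^ 2 * ∫ x in cube, G2 G x) := by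
  set D := ∫ x in cube, G2 G x with hD
  have hD0 : 0 ≤ D := integral_nonneg fun x => G2_nonneg _ _
  set a := Real.sqrt (Λ * D) with ha
  have ha0 : 0 ≤ a := Real.sqrt_nonneg _
  have hS0 : ∀ (s : ℝ) x, 0 ≤ ∫ z in U1, f (x - s • z) := fun s x =>
    integral_nonneg fun z => hf0 _
  have hI0 : ∀ s, 0 ≤ It G f s := fun s =>
    integral_nonneg fun x => mul_nonneg (rsq_nonneg _) (hS0 s x)
  set L := Real.log (ρ / t) with hL
  have hL0 : 0 ≤ L := Real.log_nonneg (by rw [le_div_iff₀ ht]; linarith)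
  -- the differential inequality
  have key : ∀ ε : ℝ, 0 < ε → Real.sqrt (It G f t + ε) ≤ Real.sqrt (It G f ρ + ε) + a * L := by
    intro ε hε
    have hpos : ∀ s, 0 < It G f s + ε := fun s => by have := hI0 s; linarith
    have hder : ∀ s : ℝ, 0 < s → HasDerivAt (fun s => Real.sqrt (It G f s + ε) + a * Real.log s)
        ((∫ x in cube, ∫ z in U1, fderiv ℝ (fun x => rsq (G x)) x z * f (x - s • z))
          / (2 * Real.sqrt (It G f s + ε)) + a * s⁻¹) s := fun s hs =>
      (((It_hasDerivAt hG hf hp s).add_const ε).sqrt (hpos s).ne').add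
        ((Real.hasDerivAt_log hs.ne').const_mul a)
    have hmono : MonotoneOn (fun s => Real.sqrt (It G f s + ε) + a * Real.log s) (Icc t ρ) := by
      refine monotoneOn_of_deriv_nonneg (convex_Icc t ρ) ?_ ?_ ?_
      · exact fun s hs => (hder s (ht.trans_le hs.1)).continuousAt.continuousWithinAt
      · intro s hs
        rw [interior_Icc] at hs
        exact (hder s (ht.trans hs.1)).differentiableAt.differentiableWithinAt
      · intro s hs
        rw [interior_Icc] at hs
        have hs0 : 0 < s := ht.trans hs.1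
        rw [(hder s hs0).deriv]
        have h1 := It_deriv_le hG hf hf0 hs0 hΛ (hb s hs0 hs.2.le)
        rw [← hD, ← ha] at h1
        have h2 := (abs_le.1 h1).1
        have h3 : Real.sqrt (It G f s) ≤ Real.sqrt (It G f s + ε) :=
          Real.sqrt_le_sqrt (by linarith)
        have h4 : 0 < Real.sqrt (It G f s + ε) := Real.sqrt_pos.2 (hpos s)
        have h5 : -(a * s⁻¹) ≤ (∫ x in cube, ∫ z in U1,
            fderiv ℝ (fun x => rsq (G x)) x z * f (x - s • z))
            / (2 * Real.sqrt (It G f s + ε)) := by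
          rw [le_div_iff₀ (by positivity)]
          refine le_trans ?_ h2
          have h6 : 0 ≤ a / s := by positivity
          have h7 := mul_le_mul_of_nonneg_left h3 h6
          have e1 : a * s⁻¹ = a / s := by ring
          rw [e1]
          linarith
        linarith
    have h1 := hmono ⟨le_rfl, htρ⟩ ⟨htρ, le_rfl⟩ htρ
    simp only at h1
    have h2 : L = Real.log ρ - Real.log t := by rw [hL, Real.log_div hρ.ne' ht.ne']
    rw [h2]
    linarith
  -- the bound at the scale `ρ`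
  have hρb : It G f ρ ≤ Λ / ρ ^ 2 * ∫ x in cube, rsq (G x) := by
    unfold It
    rw [← integral_const_mul]
    refine integral_mono (integrableOn_cube ((sp_rsqG hG).cont.mul (Sf_cont hf ρ)))
      (integrableOn_cube (continuous_const.mul (sp_rsqG hG).cont)) fun x => ?_
    simp only
    by_cases hx : G x = 0
    · rw [hx]; simp [rsq]
    · rw [mul_comm]
      exact mul_le_mul_of_nonneg_right (hb ρ hρ le_rfl x hx) (rsq_nonneg _)
  have ha2 : a ^ 2 = Λ * D := Real.sq_sqrt (by positivity)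
  refine le_of_forall_pos_le_add fun ε hε => ?_
  have hε2 : 0 < ε / 2 := by linarith
  have h1 := key (ε / 2) hε2
  have h2 : It G f t + ε / 2 ≤ (Real.sqrt (It G f ρ + ε / 2) + a * L) ^ 2 := by
    have h3 : 0 ≤ It G f t + ε / 2 := by have := hI0 t; linarith
    calc It G f t + ε / 2 = Real.sqrt (It G f t + ε / 2) ^ 2 := (Real.sq_sqrt h3).symm
      _ ≤ _ := pow_le_pow_left₀ (Real.sqrt_nonneg _) h1 2
  have h3 : Real.sqrt (It G f ρ + ε / 2) ^ 2 = It G f ρ + ε / 2 :=
    Real.sq_sqrt (by have := hI0 ρ; linarith)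
  have h4 : (Real.sqrt (It G f ρ + ε / 2) + a * L) ^ 2
      ≤ 2 * (It G f ρ + ε / 2) + 2 * (a ^ 2 * L ^ 2) := by
    nlinarith [sq_nonneg (Real.sqrt (It G f ρ + ε / 2) - a * L)]
  rw [ha2] at h4
  have h5 : 2 * Λ * ((∫ x in cube, rsq (G x)) / ρ ^ 2 + L ^ 2 * D)
      = 2 * (Λ / ρ ^ 2 * ∫ x in cube, rsq (G x)) + 2 * (Λ * D * L ^ 2) := by ring
  rw [h5]
  linarith

end

/-- The logarithm is bounded by a power. -/
theorem log_sq_le {β : ℝ} (hβ : 0 < β) {x : ℝ} (hx : 1 ≤ x) :
    Real.log x ^ 2 ≤ 16 / β ^ 2 * x ^ (β / 2) := by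
  have h1 := Real.log_le_rpow_div (zero_le_one.trans hx) (by positivity : 0 < β / 4)
  have h2 := Real.log_nonneg hx
  have h3 := pow_le_pow_left₀ h2 h1 2
  refine h3.trans (le_of_eq ?_)
  rw [div_pow, ← Real.rpow_natCast (x ^ (β / 4)) 2, ← Real.rpow_mul (zero_le_one.trans hx)]
  have : β / 4 * ((2 : ℕ) : ℝ) = β / 2 := by push_cast; ring
  rw [this]
  ring

end Pool.Agent.R210
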