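import Pool.Agent.R210.Prod5
import Pool.Agent.R210.N4

/-!
The localized production of enstrophy.
-/

open MeasureTheory Set Metric Filter Topology
open scoped ContDiff ENNReal
open H459R3.NS

namespace Pool.Agent.R210

/-- The Laplacian of a field. -/
theorem lap_curl_gen {v : V → V} (hv : ∀ i, SP (fun y => v y i)) (j : Fin 3) (x : V) :
    lap (fun y => v y j) x = pd j (dv v) x - cu (cu v) x j := by
  have hd : ∀ k, pd k (dv v) x = pd k (pd 0 (fun y => v y 0)) x + pd k (pd 1 (fun y => v y 1)) x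
      + pd k (pd 2 (fun y => v y 2)) x := by
    intro k
    have h3 : pd k (dv v) x = ∑ i, pd k (pd i (fun y => v y i)) x := by
      unfold dv
      exact pd_sum (fun i _ => (hv i).pd i) k x
    rw [Fin.sum_univ_three] at h3
    exact h3
  have hc : ∀ a b i, pd a (pd b (fun y => v y i)) x = pd b (pd a (fun y => v y i)) x :=
    fun a b i => congrFun (pd_comm (hv i) a b) x
  fin_cases j
  · have e1 : cu (cu v) x 0 = (pd 1 (pd 0 (fun y => v y 1)) x - pd 1 (pd 1 (fun y => v y 0)) x)
        - (pd 2 (pd 2 (fun y => v y 0)) x - pd 2 (pd 0 (fun y => v y 2)) x) := by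
      rw [← pd_sub' ((hv 1).pd 0) ((hv 0).pd 1), ← pd_sub' ((hv 0).pd 2) ((hv 2).pd 0)]
      rfl
    show lap (fun y => v y 0) x = pd 0 (dv v) x - cu (cu v) x 0
    rw [e1]
    unfold lap
    rw [Fin.sum_univ_three]
    have := hd 0
    have h1 := hc 1 0 1
    have h2 := hc 2 0 2
    linarith
  · have e1 : cu (cu v) x 1 = (pd 2 (pd 1 (fun y => v y 2)) x - pd 2 (pd 2 (fun y => v y 1)) x)
        - (pd 0 (pd 0 (fun y => v y 1)) x - pd 0 (pd 1 (fun y => v y 0)) x) := by
      rw [← pd_sub' ((hv 2).pd 1) ((hv 1).pd 2), ← pd_sub' ((hv 1).pd 0) ((hv 0).pd 1)]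
      rfl
    show lap (fun y => v y 1) x = pd 1 (dv v) x - cu (cu v) x 1
    rw [e1]
    unfold lap
    rw [Fin.sum_univ_three]
    have := hd 1
    have h1 := hc 0 1 0
    have h2 := hc 2 1 2
    linarith
  · have e1 : cu (cu v) x 2 = (pd 0 (pd 2 (fun y => v y 0)) x - pd 0 (pd 0 (fun y => v y 2)) x)
        - (pd 1 (pd 1 (fun y => v y 2)) x - pd 1 (pd 2 (fun y => v y 1)) x) := by
      rw [← pd_sub' ((hv 0).pd 2) ((hv 2).pd 0), ← pd_sub' ((hv 2).pd 1) ((hv 1).pd 2)]
      rfl
    show lap (fun y => v y 2) x = pd 2 (dv v) x - cu (cu v) x 2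
    rw [e1]
    unfold lap
    rw [Fin.sum_univ_three]
    have := hd 2
    have h1 := hc 0 2 0
    have h2 := hc 1 2 1
    linarith

theorem pd_zero_of {g : V → ℝ} {U : Set V} (hU : IsOpen U) (h : ∀ y ∈ U, g y = 0) (i : Fin 3)
    {y : V} (hy : y ∈ U) : pd i g y = 0 := by
  have h1 : g =ᶠ[𝓝 y] fun _ => 0 := by
    filter_upwards [hU.mem_nhds hy] with z hz
    exact h z hz
  unfold pd
  rw [h1.fderiv_eq]
  simp

theorem mo_psi_zero {g : V → ℝ} {U : Set V} (h : ∀ y ∈ U, g y = 0) {T t : ℝ} {x : V}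
    (hx : eb x T ⊆ U) (ht : 0 ≤ t) (htT : t ≤ T) (hT : 0 < T) : mo psi t g x = 0 := by
  unfold mo
  refine integral_eq_zero_of_ae (Filter.Eventually.of_forall fun z => ?_)
  by_cases hz : 1 ≤ rsq z
  · simp only [psi_zero hz, zero_mul, Pi.zero_apply]
  · push Not at hz
    have h1 : x - t • z ∈ eb x T := by
      unfold eb
      rw [mem_ofPred_eq]
      have e1 : x - t • z - x = -(t • z) := by abel
      have e2 : rsq (-(t • z)) = t ^ 2 * rsq z := by
        simp only [rsq, Finset.mul_sum, Pi.neg_apply, Pi.smul_apply, smul_eq_mul]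
        exact Finset.sum_congr rfl fun i _ => by ring
      rw [e1, e2]
      have h2 := rsq_nonneg z
      have h3 : t ^ 2 ≤ T ^ 2 := pow_le_pow_left₀ ht htT 2
      have h4 : 0 < T ^ 2 := by positivity
      nlinarith
    simp only [h _ (hx h1), mul_zero, Pi.zero_apply]

section

variable {v w l G : V → V} (hv : ∀ i, SP (fun x => v x i)) (hw : ∀ i, SP (fun x => w x i))
  (hl : ∀ i, SP (fun x => l x i)) (hG : ∀ i, SP (fun x => G x i))

include hv hw hl in
theorem mo_lap_gen (hwl : ∀ x, cu v x = w x + l x) (i j : Fin 3) (t : ℝ)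
    (x : V) : mo psi t (lap (pd i (fun y => v y j))) x
      = mo psi t (pd i (pd j (dv v))) x - mo psi t (pd i (fun y => cu w y j)) x
        - mo psi t (pd i (fun y => cu l y j)) x := by
  have hd := sp_dv hv
  have e1 : lap (pd i (fun y => v y j))
      = fun y => pd i (pd j (dv v)) y
        + (-(pd i (fun y => cu w y j) y + pd i (fun y => cu l y j) y)) := by
    rw [lap_pd (hv j)]
    have e2 : lap (fun y => v y j) = fun y => pd j (dv v) y - (cu w y j + cu l y j) := by
      funext y
      rw [lap_curl_gen hv, ← cu_add hw hl]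
      have : cu v = fun y => w y + l y := funext hwl
      rw [this]
    rw [e2]
    funext y
    rw [pd_sub' (hd.pd j) (SP.add (sp_cu hw j) (sp_cu hl j)), pd_add' (sp_cu hw j) (sp_cu hl j)]
    ring
  rw [e1]
  have c1 : Continuous fun y => -(pd i (fun y => cu w y j) y + pd i (fun y => cu l y j) y) :=
    (((sp_cu hw j).pd i).cont.add ((sp_cu hl j).pd i).cont).neg
  rw [mo_add psi_smooth.continuous psi_compact ((hd.pd j).pd i).cont c1 t x]
  have h1 := mo_add psi_smooth.continuous psi_compact ((sp_cu hw j).pd i).cont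
    ((sp_cu hl j).pd i).cont t x
  have h2 : mo psi t (fun y => -(pd i (fun y => cu w y j) y + pd i (fun y => cu l y j) y)) x
      = -mo psi t (fun y => pd i (fun y => cu w y j) y + pd i (fun y => cu l y j) y) x := by
    unfold mo
    rw [← integral_neg]
    congr 1; funext z; ring
  rw [h2, h1]; ring

include hv hw hl hG in
/-- The localized production as a sum of the contributions of the scales. -/
theorem Nw_loc {U : Set V} (hU : IsOpen U) (hdiv : ∀ x ∈ U, dv v x = 0)
    (hwl : ∀ x, cu v x = w x + l x) {T : ℝ} (hT : 0 < T) (hsup : ∀ x, G x ≠ 0 → eb x T ⊆ U) :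
    Nw G v = (∫ x in cube, ∑ i, ∑ j, G x i * G x j * mo phi T (pd i (fun y => v y j)) x)
      + ∫ t in (0 : ℝ)..T, (-(t * ∫ x in cube, Zf G w t x) - t * ∫ x in cube, Zf G l t x) := by
  have hZw := Zf_cont hG hw
  have hZl := Zf_cont hG hl
  have hm : ∀ i j, SP (mo phi T (pd i (fun y => v y j))) := fun i j =>
    sp_mo phi_smooth.continuous phi_compact ((hv j).pd i) T
  have hpt : ∀ x, ∑ i, ∑ j, G x i * G x j * pd i (fun y => v y j) x
      = (∑ i, ∑ j, G x i * G x j * mo phi T (pd i (fun y => v y j)) x)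
        + ∫ t in (0 : ℝ)..T, (-(t * Zf G w t x) - t * Zf G l t x) := by
    intro x
    have hcont : ∀ i j, Continuous fun t => mo psi t (lap (pd i (fun y => v y j))) x := fun i j =>
      (mo_cont psi_smooth.continuous psi_compact ((hv j).pd i).lap.cont
        ((hv j).pd i).lap.per).comp (continuous_id.prodMk continuous_const)
    have hc1 : ∀ i j, Continuous fun t => G x i * G x j
        * (t * mo psi t (lap (pd i (fun y => v y j))) x) := fun i j =>
      continuous_const.mul (continuous_id.mul (hcont i j))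
    have hc2 : ∀ i, Continuous fun t => ∑ j, G x i * G x j
        * (t * mo psi t (lap (pd i (fun y => v y j))) x) := fun i =>
      continuous_finsetSum _ fun j _ => hc1 i j
    have h1 : ∀ i j, G x i * G x j * pd i (fun y => v y j) x
        = G x i * G x j * mo phi T (pd i (fun y => v y j)) x
          + ∫ t in (0 : ℝ)..T, G x i * G x j * (t * mo psi t (lap (pd i (fun y => v y j))) x) := by
      intro i j
      rw [intervalIntegral.integral_const_mul, ← mul_add, ← mo_repr ((hv j).pd i) T x]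
    have h2 : ∀ i, ∑ j, G x i * G x j * pd i (fun y => v y j) x
        = (∑ j, G x i * G x j * mo phi T (pd i (fun y => v y j)) x)
          + ∫ t in (0 : ℝ)..T, ∑ j, G x i * G x j
            * (t * mo psi t (lap (pd i (fun y => v y j))) x) := by
      intro i
      rw [intervalIntegral.integral_finsetSum fun j _ => (hc1 i j).intervalIntegrable _ _,
        ← Finset.sum_add_distrib]
      exact Finset.sum_congr rfl fun j _ => h1 i j
    have h3 : ∑ i, ∑ j, G x i * G x j * pd i (fun y => v y j) x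
        = (∑ i, ∑ j, G x i * G x j * mo phi T (pd i (fun y => v y j)) x)
          + ∫ t in (0 : ℝ)..T, ∑ i, ∑ j, G x i * G x j
            * (t * mo psi t (lap (pd i (fun y => v y j))) x) := by
      rw [intervalIntegral.integral_finsetSum fun i _ => (hc2 i).intervalIntegrable _ _,
        ← Finset.sum_add_distrib]
      exact Finset.sum_congr rfl fun i _ => h2 i
    rw [h3]
    congr 1
    refine intervalIntegral.integral_congr fun t ht => ?_
    rw [uIcc_of_le hT.le] at ht
    unfold Zf
    rw [Finset.mul_sum, Finset.mul_sum, ← Finset.sum_neg_distrib, ← Finset.sum_sub_distrib]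
    refine Finset.sum_congr rfl fun i _ => ?_
    rw [Finset.mul_sum, Finset.mul_sum, ← Finset.sum_neg_distrib, ← Finset.sum_sub_distrib]
    refine Finset.sum_congr rfl fun j _ => ?_
    by_cases hx : G x = 0
    · rw [hx]
      simp
    · have hz : mo psi t (pd i (pd j (dv v))) x = 0 :=
        mo_psi_zero (fun y hy => pd_zero_of hU (fun z hz => pd_zero_of hU hdiv j hz) i hy)
          (hsup x hx) ht.1 ht.2 hT
      rw [mo_lap_gen hv hw hl hwl, hz]
      ring
  unfold Nw
  simp_rw [hpt]
  have hHc : Continuous fun p : ℝ × V => -(p.1 * Zf G w p.1 p.2) - p.1 * Zf G l p.1 p.2 :=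
    ((continuous_fst.mul hZw).neg).sub (continuous_fst.mul hZl)
  have hIc : Continuous fun x => ∫ t in (0 : ℝ)..T, (-(t * Zf G w t x) - t * Zf G l t x) := by
    have := intervalIntegral.continuous_parametric_intervalIntegral_of_continuous'
      (μ := volume) (f := fun (x : V) (t : ℝ) => -(t * Zf G w t x) - t * Zf G l t x)
      (hHc.comp (continuous_snd.prodMk continuous_fst)) 0 T
    exact this
  rw [integral_add (SP.sum fun i _ => SP.sum fun j _ => ((hG i).mul (hG j)).mul (hm i j)).int
    (integrableOn_cube hIc), swap_int hHc hT.le]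
  congr 1
  refine intervalIntegral.integral_congr fun t _ => ?_
  have c1 : Continuous fun x => Zf G w t x := hZw.comp (continuous_const.prodMk continuous_id)
  have c2 : Continuous fun x => Zf G l t x := hZl.comp (continuous_const.prodMk continuous_id)
  have i1 : IntegrableOn (fun x => -(t * Zf G w t x)) cube :=
    integrableOn_cube (continuous_const.mul c1).neg
  have i2 : IntegrableOn (fun x => t * Zf G l t x) cube := integrableOn_cube (continuous_const.mul c2)
  rw [integral_sub i1 i2, integral_neg, integral_const_mul, integral_const_mul]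

include hw hG in
/-- The production of the coherent part at the scale `t`. -/
theorem IGw_le {c β t : ℝ} (hc : 0 ≤ c) (hβ : 0 ≤ β) (ht : 0 < t)
    (h : ∀ x y, G x ≠ 0 → y ∈ eb x t → en (crossProduct (G x) (w y))
      ≤ c * en (x - y) ^ β * (en (G x) * en (w y))) :
    |t * ∫ x in cube, Zf G w t x| ≤ 3 * BB * c * t ^ (β - 1) * It G (fun y => en (w y)) t := by
  have hB := one_le_BB
  have hZ : Continuous fun x => Zf G w t x := (Zf_cont hG hw).comp
    (continuous_const.prodMk continuous_id)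
  have hS1 : Continuous fun x => ∫ z in U1, en (w (x - t • z)) :=
    cont_U1 (G := fun x z => en (w (x - t • z))) (fshift_cont hw t)
  rw [← integral_const_mul, It, ← integral_const_mul, ← Real.norm_eq_abs]
  refine norm_integral_le_of_norm_le (integrableOn_cube (continuous_const.mul
    ((rsqw_cont hG).mul hS1))) (Filter.Eventually.of_forall fun x => ?_)
  rw [Real.norm_eq_abs, abs_mul, abs_of_pos ht]
  have h1 := Zf_le (w := G) hw t x
  have hcc : Continuous fun z : V => en (crossProduct (G x) (w (x - t • z))) :=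
    en_cont.comp (cross_cont continuous_const ((w_cont hw).comp (by fun_prop)))
  have h2 : ∫ z in U1, en (crossProduct (G x) (w (x - t • z)))
      ≤ ∫ z in U1, c * t ^ β * en (G x) * en (w (x - t • z)) := by
    refine setIntegral_mono_on (int_U1 hcc) (int_U1 (continuous_const.mul
      ((fshift_cont hw t).comp (continuous_const.prodMk continuous_id)))) measurable_U1
      fun z hz => ?_
    by_cases hx : G x = 0
    · rw [hx]
      have e0 : en (0 : V) = 0 := by simp [en, rsq]
      simp only [map_zero, LinearMap.zero_apply, e0, mul_zero, zero_mul, le_refl]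
    · have hz' : rsq z < 1 := hz
      have hmem : x - t • z ∈ eb x t := by
        unfold eb
        rw [mem_ofPred_eq]
        have e1 : x - t • z - x = -(t • z) := by abel
        have e2 : rsq (-(t • z)) = t ^ 2 * rsq z := by
          simp only [rsq, Finset.mul_sum, Pi.neg_apply, Pi.smul_apply, smul_eq_mul]
          exact Finset.sum_congr rfl fun i _ => by ring
        rw [e1, e2]
        have : 0 < t ^ 2 := by positivity
        nlinarith
      refine (h x (x - t • z) hx hmem).trans ?_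
      have e1 : x - (x - t • z) = t • z := by abel
      have h3 : en (t • z) ≤ t := by
        rw [en_smul, abs_of_pos ht]
        refine mul_le_of_le_one_right ht.le ?_
        unfold en
        rw [← Real.sqrt_one]
        exact Real.sqrt_le_sqrt (le_of_lt hz)
      rw [e1]
      have h4 : en (t • z) ^ β ≤ t ^ β := Real.rpow_le_rpow (en_nonneg _) h3 hβ
      have h5 : 0 ≤ en (G x) * en (w (x - t • z)) := mul_nonneg (en_nonneg _) (en_nonneg _)
      calc c * en (t • z) ^ β * (en (G x) * en (w (x - t • z)))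
          ≤ c * t ^ β * (en (G x) * en (w (x - t • z))) :=
            mul_le_mul_of_nonneg_right (mul_le_mul_of_nonneg_left h4 hc) h5
        _ = _ := by ring
  rw [integral_const_mul] at h2
  set I := ∫ z in U1, en (w (x - t • z)) with hI
  have hI0 : 0 ≤ I := integral_nonneg fun z => en_nonneg _
  have h6 : t ^ 2 * |Zf G w t x| ≤ 3 * BB * (c * t ^ β) * (rsq (G x) * I) := by
    refine h1.trans ?_
    calc 3 * BB * (en (G x) * ∫ z in U1, en (crossProduct (G x) (w (x - t • z))))
        ≤ 3 * BB * (en (G x) * (c * t ^ β * en (G x) * I)) := by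
          refine mul_le_mul_of_nonneg_left ?_ (by positivity)
          exact mul_le_mul_of_nonneg_left h2 (en_nonneg _)
      _ = 3 * BB * (c * t ^ β) * (en (G x) ^ 2 * I) := by ring
      _ = _ := by rw [en_sq]
  have h7 : t ^ β = t * t ^ (β - 1) := by
    rw [Real.rpow_sub ht, Real.rpow_one]; field_simp
  rw [h7] at h6
  have h8 : t * (t * |Zf G w t x|) ≤ t * (3 * BB * c * t ^ (β - 1) * (rsq (G x) * I)) := by
    calc t * (t * |Zf G w t x|) = t ^ 2 * |Zf G w t x| := by ring
      _ ≤ _ := h6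
      _ = _ := by ring
  exact le_of_mul_le_mul_left h8 ht

end

/-- The localized production. -/
theorem prod_loc {β : ℝ} (hβ0 : 0 < β) (hβ1 : β ≤ 1) : ∃ C : ℝ, 0 < C ∧
    ∀ (v w l G : V → V) (U : Set V) (c T ρ Y L Λ M : ℝ), (∀ i, SP (fun x => v x i)) →
      (∀ i, SP (fun x => w x i)) → (∀ i, SP (fun x => l x i)) → (∀ i, SP (fun x => G x i)) →
      IsOpen U → (∀ x ∈ U, dv v x = 0) → (∀ x, G x ≠ 0 → eb x T ⊆ U) →
      (∀ x, cu v x = w x + l x) → (∀ x i, |l x i| ≤ L) →
      (∀ x y, G x ≠ 0 → y ∈ eb x T → en (crossProduct (G x) (w y))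
        ≤ c * en (x - y) ^ β * (en (G x) * en (w y))) → 0 ≤ c → 0 < ρ → ρ ≤ T →
      Y = ∫ x in cube, rsq (G x) → 0 ≤ Λ →
      (∀ τ : ℝ, 0 < τ → τ ≤ T → ∀ x, G x ≠ 0 → ∫ z in U1, en (w (x - τ • z)) ≤ Λ / τ ^ 2) →
      (∀ x i j, |mo phi T (pd i (fun y => v y j)) x| ≤ M) →
      |Nw G v| ≤ C * (c * Λ * ρ ^ β * ((∫ x in cube, G2 G x) + Y / ρ ^ 2)) + 3 * M * Y
        + T * (36 * BB * vU * L * (Real.sqrt (∫ x in cube, G2 G x) * Real.sqrt Y)) := by
  have hB := one_le_BB
  have hvU := vU_nonneg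
  have h2β : 0 < 2 - β := by linarith
  obtain ⟨C3, hC3⟩ : ∃ C3 : ℝ, C3 = 2 * (1 + 16 / β ^ 2) := ⟨_, rfl⟩
  have hC30 : 0 < C3 := by rw [hC3]; positivity
  refine ⟨3 * BB * (2 * C3 / β + 1 / (2 - β)), by positivity,
    fun v w l G U c T ρ Y L Λ M hv hw hl hG hU hdiv hsup hwl hL hcoh hc0 hρ hρT hY hΛ hb hM => ?_⟩
  have hT0 : 0 < T := hρ.trans_le hρT
  have hY0 : 0 ≤ Y := by rw [hY]; exact integral_nonneg fun x => rsq_nonneg _
  set D := ∫ x in cube, G2 G x with hDd
  have hD0 : 0 ≤ D := integral_nonneg fun x => G2_nonneg _ _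
  set X := D + Y / ρ ^ 2 with hX
  have hX0 : 0 ≤ X := by positivity
  have hfc : Continuous fun y => en (w y) := f_cont hw
  have hcoh' : ∀ t : ℝ, 0 < t → t ≤ T → ∀ x y, G x ≠ 0 → y ∈ eb x t →
      en (crossProduct (G x) (w y)) ≤ c * en (x - y) ^ β * (en (G x) * en (w y)) := by
    intro t ht htT x y hx hy
    refine hcoh x y hx ?_
    unfold eb at hy ⊢
    rw [mem_ofPred_eq] at hy ⊢
    have := pow_le_pow_left₀ ht.le htT 2
    linarith
  have h3 : ∀ t : ℝ, 0 < t → t ≤ ρ →
      It G (fun y => en (w y)) t ≤ C3 * (Λ * (ρ / t) ^ (β / 2) * X) := by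
    intro t ht htρ
    have h1 := trace_le hG hfc (f_per hw) (fun y => en_nonneg _) hρ hΛ
      (fun s hs hsρ x hx => hb s hs (hsρ.trans hρT) x hx) ht htρ
    rw [← hDd, ← hY] at h1
    refine h1.trans ?_
    have hx1 : 1 ≤ ρ / t := by rw [le_div_iff₀ ht]; linarith
    have h4 := log_sq_le hβ0 hx1
    have h5 : 1 ≤ (ρ / t) ^ (β / 2) := Real.one_le_rpow hx1 (by positivity)
    have h6 : Y / ρ ^ 2 ≤ (ρ / t) ^ (β / 2) * (Y / ρ ^ 2) :=
      le_mul_of_one_le_left (by positivity) h5
    have h7 := mul_le_mul_of_nonneg_right h4 hD0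
    have h8 : 0 ≤ (ρ / t) ^ (β / 2) * (Y / ρ ^ 2) := by positivity
    have h9 : 0 ≤ 16 / β ^ 2 := by positivity
    have h10 : 0 ≤ (ρ / t) ^ (β / 2) * D := by positivity
    calc 2 * Λ * (Y / ρ ^ 2 + Real.log (ρ / t) ^ 2 * D)
        ≤ 2 * Λ * ((ρ / t) ^ (β / 2) * (Y / ρ ^ 2) + 16 / β ^ 2 * (ρ / t) ^ (β / 2) * D) :=
          mul_le_mul_of_nonneg_left (add_le_add h6 h7) (by positivity)
      _ ≤ 2 * Λ * ((1 + 16 / β ^ 2) * ((ρ / t) ^ (β / 2) * X)) := by
          refine mul_le_mul_of_nonneg_left ?_ (by positivity)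
          rw [hX]
          nlinarith [mul_nonneg h9 h8]
      _ = C3 * (Λ * (ρ / t) ^ (β / 2) * X) := by rw [hC3]; ring
  have hterm1 : |∫ x in cube, ∑ i, ∑ j, G x i * G x j * mo phi T (pd i (fun y => v y j)) x|
      ≤ 3 * M * Y := by
    rw [hY, ← integral_const_mul, ← Real.norm_eq_abs]
    refine norm_integral_le_of_norm_le (integrableOn_cube
      (continuous_const.mul (rsqw_cont hG))) (Filter.Eventually.of_forall fun x => ?_)
    rw [Real.norm_eq_abs]
    exact rsq_sum_le fun i j => hM x i j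
  -- continuity
  have hcw : Continuous fun t : ℝ => ∫ x in cube, Zf G w t x :=
    continuous_parametric_integral_of_continuous (μ := volume) (f := fun t x => Zf G w t x)
      (Zf_cont hG hw) isCompact_Icc
  have hcl : Continuous fun t : ℝ => ∫ x in cube, Zf G l t x :=
    continuous_parametric_integral_of_continuous (μ := volume) (f := fun t x => Zf G l t x)
      (Zf_cont hG hl) isCompact_Icc
  have hcw' : Continuous fun t : ℝ => t * ∫ x in cube, Zf G w t x := continuous_id.mul hcw
  have hcl' : Continuous fun t : ℝ => t * ∫ x in cube, Zf G l t x := continuous_id.mul hcl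
  -- the small scales
  have hnear : |∫ t in (0 : ℝ)..ρ, t * ∫ x in cube, Zf G w t x|
      ≤ 3 * BB * c * (C3 * (Λ * X)) * (2 * ρ ^ β / β) := by
    have e1 : ∫ t in (0 : ℝ)..ρ, 3 * BB * c * (C3 * (Λ * X)) * ρ ^ (β / 2) * t ^ (β / 2 - 1)
        = 3 * BB * c * (C3 * (Λ * X)) * (2 * ρ ^ β / β) := by
      rw [intervalIntegral.integral_const_mul, integral_rpow (Or.inl (by linarith))]
      have : β / 2 - 1 + 1 = β / 2 := by ring
      rw [this, Real.zero_rpow (by positivity), sub_zero]
      have e2 : ρ ^ β = ρ ^ (β / 2) * ρ ^ (β / 2) := by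
        rw [← Real.rpow_add hρ]; congr 1; ring
      rw [e2]
      field_simp
    rw [← e1, ← Real.norm_eq_abs]
    refine intervalIntegral.norm_integral_le_of_norm_le hρ.le
      (Filter.Eventually.of_forall fun t ht => ?_)
      ((intervalIntegral.intervalIntegrable_rpow' (by linarith)).const_mul _)
    rw [Real.norm_eq_abs]
    refine (IGw_le hw hG hc0 hβ0.le ht.1 (hcoh' t ht.1 (ht.2.trans hρT))).trans ?_
    have h5 := h3 t ht.1 ht.2
    have h6 : 0 ≤ 3 * BB * c * t ^ (β - 1) := by
      have := Real.rpow_nonneg ht.1.le (β - 1)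
      positivity
    have e3 : t ^ (β - 1) * (ρ / t) ^ (β / 2) = ρ ^ (β / 2) * t ^ (β / 2 - 1) := by
      rw [Real.div_rpow hρ.le ht.1.le, mul_div_assoc', mul_comm (t ^ (β - 1)), mul_div_assoc,
        ← Real.rpow_sub ht.1]
      congr 2; ring
    calc 3 * BB * c * t ^ (β - 1) * It G (fun y => en (w y)) t
        ≤ 3 * BB * c * t ^ (β - 1) * (C3 * (Λ * (ρ / t) ^ (β / 2) * X)) :=
          mul_le_mul_of_nonneg_left h5 h6
      _ = 3 * BB * c * (C3 * (Λ * X)) * (t ^ (β - 1) * (ρ / t) ^ (β / 2)) := by ring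
      _ = _ := by rw [e3]; ring
  -- the large scales
  have hfar : |∫ t in ρ..T, t * ∫ x in cube, Zf G w t x|
      ≤ 3 * BB * c * (Λ * X) * (ρ ^ β / (2 - β)) := by
    have hne : β - 3 ≠ -1 := by intro h; linarith
    have h0 : (0 : ℝ) ∉ uIcc ρ T := by
      rw [uIcc_of_le hρT]
      intro h
      linarith [h.1]
    have e1 : ∫ t in ρ..T, 3 * BB * c * (Λ * Y) * t ^ (β - 3)
        = 3 * BB * c * (Λ * Y) * ((ρ ^ (β - 2) - T ^ (β - 2)) / (2 - β)) := by
      rw [intervalIntegral.integral_const_mul, integral_rpow (Or.inr ⟨hne, h0⟩)]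
      have : β - 3 + 1 = -(2 - β) := by ring
      rw [this]
      have e2 : -(2 - β) = β - 2 := by ring
      rw [div_neg, ← neg_div, neg_sub, e2]
    have e3 : 3 * BB * c * (Λ * Y) * ((ρ ^ (β - 2) - T ^ (β - 2)) / (2 - β))
        ≤ 3 * BB * c * (Λ * X) * (ρ ^ β / (2 - β)) := by
      have e4 : ρ ^ (β - 2) = ρ ^ β / ρ ^ 2 := by
        rw [Real.rpow_sub hρ]
        norm_cast
      have e6 : (ρ ^ (β - 2) - T ^ (β - 2)) / (2 - β) ≤ ρ ^ (β - 2) / (2 - β) := by
        refine div_le_div_of_nonneg_right ?_ h2β.le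
        have := Real.rpow_nonneg hT0.le (β - 2)
        linarith
      have e7 : 0 ≤ 3 * BB * c * (Λ * Y) := by positivity
      have hρβ := Real.rpow_nonneg hρ.le β
      calc 3 * BB * c * (Λ * Y) * ((ρ ^ (β - 2) - T ^ (β - 2)) / (2 - β))
          ≤ 3 * BB * c * (Λ * Y) * (ρ ^ (β - 2) / (2 - β)) :=
            mul_le_mul_of_nonneg_left e6 e7
        _ = 3 * BB * c * Λ * (ρ ^ β / (2 - β)) * (Y / ρ ^ 2) := by rw [e4]; ring
        _ ≤ 3 * BB * c * Λ * (ρ ^ β / (2 - β)) * X := by
            refine mul_le_mul_of_nonneg_left ?_ (by positivity)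
            rw [hX]; linarith
        _ = _ := by ring
    rw [← Real.norm_eq_abs]
    refine le_trans ?_ e3
    rw [← e1]
    refine intervalIntegral.norm_integral_le_of_norm_le hρT
      (Filter.Eventually.of_forall fun t ht => ?_)
      ((intervalIntegral.intervalIntegrable_rpow (Or.inr h0)).const_mul _)
    rw [Real.norm_eq_abs]
    have ht0 : 0 < t := hρ.trans ht.1
    refine (IGw_le hw hG hc0 hβ0.le ht0 (hcoh' t ht0 ht.2)).trans ?_
    have h4 : It G (fun y => en (w y)) t ≤ Λ / t ^ 2 * Y := by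
      unfold It
      rw [hY, ← integral_const_mul]
      refine integral_mono (integrableOn_cube ((sp_rsqG hG).cont.mul (Sf_cont hfc t)))
        (integrableOn_cube (continuous_const.mul (sp_rsqG hG).cont)) fun x => ?_
      simp only
      by_cases hx : G x = 0
      · rw [hx]; simp [rsq]
      · rw [mul_comm]
        exact mul_le_mul_of_nonneg_right (hb t ht0 ht.2 x hx) (rsq_nonneg _)
    have h6 : 0 ≤ 3 * BB * c * t ^ (β - 1) := by
      have := Real.rpow_nonneg ht0.le (β - 1)
      positivity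
    have e5 : t ^ (β - 3) = t ^ (β - 1) / t ^ 2 := by
      have : β - 3 = (β - 1) - 2 := by ring
      rw [this, Real.rpow_sub ht0 (β - 1) 2]
      norm_cast
    calc 3 * BB * c * t ^ (β - 1) * It G (fun y => en (w y)) t
        ≤ 3 * BB * c * t ^ (β - 1) * (Λ / t ^ 2 * Y) := mul_le_mul_of_nonneg_left h4 h6
      _ = _ := by rw [e5]; ring
  -- the bounded part
  have hlow : |∫ t in (0 : ℝ)..T, t * ∫ x in cube, Zf G l t x|
      ≤ T * (36 * BB * vU * L * (Real.sqrt D * Real.sqrt Y)) := by
    rw [← Real.norm_eq_abs]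
    have h4 := intervalIntegral.norm_integral_le_of_norm_le_const (a := (0 : ℝ)) (b := T)
      (f := fun t => t * ∫ x in cube, Zf G l t x)
      (C := 36 * BB * vU * L * (Real.sqrt D * Real.sqrt Y)) fun t ht => by
        rw [uIoc_of_le hT0.le] at ht
        rw [Real.norm_eq_abs, abs_mul, abs_of_pos ht.1, hY]
        exact Jl_le hG hl hL ht.1.le
    rw [sub_zero, abs_of_pos hT0] at h4
    linarith
  have hsum : |∫ t in (0 : ℝ)..T, (-(t * ∫ x in cube, Zf G w t x) - t * ∫ x in cube, Zf G l t x)|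
      ≤ 3 * BB * c * (C3 * (Λ * X)) * (2 * ρ ^ β / β)
        + 3 * BB * c * (Λ * X) * (ρ ^ β / (2 - β))
        + T * (36 * BB * vU * L * (Real.sqrt D * Real.sqrt Y)) := by
    have e1 : ∫ t in (0 : ℝ)..T, (-(t * ∫ x in cube, Zf G w t x) - t * ∫ x in cube, Zf G l t x)
        = -((∫ t in (0 : ℝ)..ρ, t * ∫ x in cube, Zf G w t x)
          + ∫ t in ρ..T, t * ∫ x in cube, Zf G w t x)
          - ∫ t in (0 : ℝ)..T, t * ∫ x in cube, Zf G l t x := by
      rw [intervalIntegral.integral_add_adjacent_intervals (hcw'.intervalIntegrable _ _)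
        (hcw'.intervalIntegrable _ _), ← intervalIntegral.integral_neg]
      exact intervalIntegral.integral_sub (hcw'.neg.intervalIntegrable _ _)
        (hcl'.intervalIntegrable _ _)
    rw [e1]
    have a1 := abs_le.1 hnear
    have a2 := abs_le.1 hfar
    have a3 := abs_le.1 hlow
    rw [abs_le]
    constructor
    · linarith [a1.2, a2.2, a3.2]
    · linarith [a1.1, a2.1, a3.1]
  rw [Nw_loc hv hw hl hG hU hdiv hwl hT0 hsup]
  refine (abs_add_le _ _).trans ((add_le_add hterm1 hsum).trans ?_)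
  have e9 : 3 * BB * (2 * C3 / β + 1 / (2 - β)) * (c * Λ * ρ ^ β * X)
      = 3 * BB * c * (C3 * (Λ * X)) * (2 * ρ ^ β / β)
        + 3 * BB * c * (Λ * X) * (ρ ^ β / (2 - β)) := by
    field_simp
  rw [e9]
  linarith

end Pool.Agent.R210
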