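import Pool.Agent.R210.N3
import Pool.Agent.R210.N5
import Pool.Agent.R210.Comb

/-!
The localized estimate at a fixed time.
-/

open MeasureTheory Set Metric Filter Topology
open scoped ContDiff ENNReal
open H459R3.NS

namespace Pool.Agent.R210

theorem exists_BP : ∃ B : ℝ, 1 ≤ B ∧ ∀ (i : Fin 3) (z : V), |pd i phi z| ≤ B := by
  have h : ∀ i : Fin 3, ∃ C : ℝ, ∀ z, |pd i phi z| ≤ C := fun i => by
    obtain ⟨C, hC⟩ := (pd_compact phi_compact i).exists_bound_of_continuous
      (pd_smooth phi_smooth i).continuous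
    exact ⟨C, fun z => hC z⟩
  choose C hC using h
  refine ⟨1 + ∑ i, |C i|, by
    have : 0 ≤ ∑ i, |C i| := Finset.sum_nonneg fun i _ => abs_nonneg _
    linarith, fun i z => ?_⟩
  have h1 := hC i z
  have h2 : |C i| ≤ ∑ i, |C i| :=
    Finset.single_le_sum (f := fun i => |C i|) (fun i _ => abs_nonneg _) (Finset.mem_univ i)
  linarith [le_abs_self (C i)]

/-- The bound of the gradient of the kernel. -/
noncomputable def BP : ℝ := exists_BP.choose

theorem one_le_BP : 1 ≤ BP := exists_BP.choose_spec.1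

theorem pd_phi_le (i : Fin 3) (z : V) : |pd i phi z| ≤ BP := exists_BP.choose_spec.2 i z

theorem pd_phi_zero (i : Fin 3) {z : V} (hz : 1 ≤ rsq z) : pd i phi z = 0 := by
  rcases hz.eq_or_lt with h | h
  · have h0 : IsLocalMin phi z := by
      refine Filter.Eventually.of_forall fun y => ?_
      show phi z ≤ phi y
      rw [phi_zero hz]
      exact phi_nonneg y
    unfold pd
    rw [h0.fderiv_eq_zero]
    simp
  · have h1 : phi =ᶠ[𝓝 z] fun _ => 0 := by
      filter_upwards [(isOpen_lt continuous_const rsq_smooth.continuous).mem_nhds h] with y hy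
      exact phi_zero (le_of_lt hy)
    unfold pd
    rw [h1.fderiv_eq]
    simp

/-- The mollified gradient is bounded by the energy. -/
theorem mo_pd_energy {g : V → ℝ} (hg : SP g) {t E2 : ℝ} (ht : 0 < t) (ht1 : t ≤ 1)
    (hE : ∫ x in cube, g x ^ 2 ≤ E2) (i : Fin 3) (x : V) :
    |mo phi t (pd i g) x| ≤ BP * Real.sqrt (vU * (t⁻¹ ^ 5 * (27 * E2))) := by
  have hB := one_le_BP
  have hE0 : 0 ≤ E2 := (integral_nonneg fun x => sq_nonneg _).trans hE
  have h1 := mo_pd phi_smooth phi_compact hg.smooth i t x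
  have hc : Continuous fun z : V => g (x - t • z) := hg.cont.comp (by fun_prop)
  have h2 : |mo (pd i phi) t g x| ≤ BP * ∫ z in U1, |g (x - t • z)| := by
    unfold mo
    rw [← integral_const_mul, ← integral_indicator measurable_U1, ← Real.norm_eq_abs]
    refine norm_integral_le_of_norm_le (IntegrableOn.integrable_indicator
      (int_U1 (continuous_const.mul hc.abs)) measurable_U1)
      (Filter.Eventually.of_forall fun z => ?_)
    rw [Real.norm_eq_abs, abs_mul]
    by_cases hz : z ∈ U1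
    · rw [indicator_of_mem hz]
      exact mul_le_mul_of_nonneg_right (pd_phi_le i z) (abs_nonneg _)
    · rw [indicator_of_notMem hz, pd_phi_zero i (not_lt.1 hz)]
      simp
  have h3 : ∫ z in U1, |g (x - t • z)| ≤ Real.sqrt (vU * (t⁻¹ ^ 3 * (27 * E2))) := by
    refine Real.le_sqrt_of_sq_le ?_
    have h4 := jensen_U1 (q := 2) (by norm_num) hc.abs (fun z => abs_nonneg _)
    have e1 : (2 : ℝ) - 1 = 1 := by norm_num
    rw [e1, Real.rpow_one] at h4
    have e2 : ∀ r : ℝ, r ^ (2 : ℝ) = r ^ 2 := fun r => by norm_cast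
    simp only [e2, sq_abs] at h4
    refine h4.trans (mul_le_mul_of_nonneg_left ?_ vU_nonneg)
    refine (int_U1_le (f := fun y => g y ^ 2) (hg.cont.pow 2)
      (fun i x => by simp only [hg.per i x]) (fun x => sq_nonneg _) ht ht1 x).trans ?_
    exact mul_le_mul_of_nonneg_left (by linarith) (by positivity)
  have h5 : |mo phi t (pd i g) x| = t⁻¹ * |mo (pd i phi) t g x| := by
    rw [h1, abs_mul, abs_of_pos ht]
    field_simp
  rw [h5]
  have h6 : vU * (t⁻¹ ^ 5 * (27 * E2)) = (vU * (t⁻¹ ^ 3 * (27 * E2))) * t⁻¹ ^ 2 := by ring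
  rw [h6, Real.sqrt_mul (by have := vU_nonneg; positivity), Real.sqrt_sq (by positivity)]
  calc t⁻¹ * |mo (pd i phi) t g x|
      ≤ t⁻¹ * (BP * Real.sqrt (vU * (t⁻¹ ^ 3 * (27 * E2)))) :=
        mul_le_mul_of_nonneg_left (h2.trans (mul_le_mul_of_nonneg_left h3 (by linarith)))
          (by positivity)
    _ = _ := by ring

section

variable {φ : V → ℝ} (hφ : SP φ) {w v : V → V} (hw : ∀ i, SP (fun x => w x i))
  (hv : ∀ i, SP (fun x => v x i))

include hφ hw in
theorem sp_fw (i : Fin 3) : SP (fun x => (φ x • w x) i) := hφ.mul (hw i)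

include hφ hw in
/-- The gradient of a product. -/
theorem G2_fw (x : V) : G2 (fun x => φ x • w x) x
    ≤ 2 * (φ x ^ 2 * G2 w x) + 2 * (gr2 φ x * rsq (w x)) := by
  have h1 : ∀ i j, pd i (fun y => (φ y • w y) j) x ^ 2
      ≤ 2 * (φ x ^ 2 * pd i (fun y => w y j) x ^ 2) + 2 * (pd i φ x ^ 2 * w x j ^ 2) := by
    intro i j
    have e1 : pd i (fun y => (φ y • w y) j) x
        = φ x * pd i (fun y => w y j) x + pd i φ x * w x j := pd_mul hφ (hw j) i x
    rw [e1]
    nlinarith [sq_nonneg (φ x * pd i (fun y => w y j) x - pd i φ x * w x j)]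
  unfold G2 gr2 rsq
  calc ∑ j, ∑ i, pd i (fun y => (φ y • w y) j) x ^ 2
      ≤ ∑ j, ∑ i, (2 * (φ x ^ 2 * pd i (fun y => w y j) x ^ 2)
        + 2 * (pd i φ x ^ 2 * w x j ^ 2)) :=
        Finset.sum_le_sum fun j _ => Finset.sum_le_sum fun i _ => h1 i j
    _ = _ := by
        simp only [Fin.sum_univ_three]
        ring

theorem rsq_fw (x : V) : rsq (φ x • w x) = φ x ^ 2 * rsq (w x) := rsq_smul _ _

include hφ hv in
/-- The difference of the localized productions. -/
theorem Nw_diff_loc {K : ℝ} (hK : 0 < K) (hφ0 : ∀ x, φ x ^ 2 ≤ 1) :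
    |Nw (fun x => φ x • cu v x) v - Nw (fun x => φ x • cw K (cu v) x) v|
      ≤ 7 * K * enstrophy v := by
  have hom := sp_cu hv
  have hw := sp_cw hom K
  have s1 : SP (fun x => ∑ i, ∑ j, (φ x • cu v x) i * (φ x • cu v x) j * pd i (fun y => v y j) x) :=
    SP.sum fun i _ => SP.sum fun j _ => ((sp_fw hφ hom i).mul (sp_fw hφ hom j)).mul ((hv j).pd i)
  have s2 : SP (fun x => ∑ i, ∑ j, (φ x • cw K (cu v) x) i * (φ x • cw K (cu v) x) j
      * pd i (fun y => v y j) x) :=
    SP.sum fun i _ => SP.sum fun j _ => ((sp_fw hφ hw i).mul (sp_fw hφ hw j)).mul ((hv j).pd i)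
  have hc2 : Continuous fun x => ∑ i, ∑ j, pd j (fun y => v y i) x ^ 2 :=
    continuous_finsetSum _ fun i _ => continuous_finsetSum _ fun j _ => ((hv i).pd j).cont.pow 2
  have i1 : IntegrableOn (fun x => K * ∑ i, ∑ j, pd j (fun y => v y i) x ^ 2) cube :=
    (integrableOn_cube hc2).const_mul _
  have i2 : IntegrableOn (fun x => 3 * K * rsq (cu v x)) cube := (sp_rsq hom).int.const_mul _
  have h1 : |Nw (fun x => φ x • cu v x) v - Nw (fun x => φ x • cw K (cu v) x) v|
      ≤ ∫ x in cube, (3 * K * rsq (cu v x) + K * ∑ i, ∑ j, pd j (fun y => v y i) x ^ 2) := by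
    unfold Nw
    rw [← integral_sub s1.int s2.int, ← Real.norm_eq_abs]
    refine norm_integral_le_of_norm_le (i2.add i1) (Filter.Eventually.of_forall fun x => ?_)
    rw [Real.norm_eq_abs, ← Finset.sum_sub_distrib]
    simp_rw [← Finset.sum_sub_distrib]
    have h2 : ∀ i j, |(φ x • cu v x) i * (φ x • cu v x) j * pd i (fun y => v y j) x
        - (φ x • cw K (cu v) x) i * (φ x • cw K (cu v) x) j * pd i (fun y => v y j) x|
        ≤ K * (cu v x i ^ 2 + pd i (fun y => v y j) x ^ 2) := by
      intro i j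
      have e1 : (φ x • cu v x) i * (φ x • cu v x) j * pd i (fun y => v y j) x
          - (φ x • cw K (cu v) x) i * (φ x • cw K (cu v) x) j * pd i (fun y => v y j) x
          = φ x ^ 2 * ((cu v x i * cu v x j - cw K (cu v) x i * cw K (cu v) x j)
            * pd i (fun y => v y j) x) := by
        simp only [Pi.smul_apply, smul_eq_mul]
        ring
      rw [e1, abs_mul, abs_of_nonneg (sq_nonneg _), abs_mul]
      refine (mul_le_of_le_one_left (by positivity) (hφ0 x)).trans ?_
      have h3 := cw_quad (om := cu v) hK x i j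
      set a := |cu v x i| with ha
      set b := |pd i (fun y => v y j) x| with hb
      have ha2 : cu v x i ^ 2 = a ^ 2 := (sq_abs _).symm
      have hb2 : pd i (fun y => v y j) x ^ 2 = b ^ 2 := (sq_abs _).symm
      rw [ha2, hb2]
      have hb0 : 0 ≤ b := abs_nonneg _
      have h4 := mul_le_mul_of_nonneg_right h3 hb0
      have h5 : 0 ≤ K * (a - b) ^ 2 := by positivity
      nlinarith
    refine (Finset.abs_sum_le_sum_abs _ _).trans ((Finset.sum_le_sum fun i _ =>
      (Finset.abs_sum_le_sum_abs _ _).trans (Finset.sum_le_sum fun j _ => h2 i j)).trans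
        (le_of_eq ?_))
    simp only [rsq, Fin.sum_univ_three]
    ring
  rw [integral_add i2 i1, integral_const_mul, integral_const_mul, int_grad hv] at h1
  have h6 := int_rsq_cu hv
  have h7 : 3 * K * (∫ x in cube, rsq (cu v x)) ≤ 3 * K * (2 * enstrophy v) :=
    mul_le_mul_of_nonneg_left h6 (by positivity)
  linarith

end

/-- The coherence above a threshold. -/
theorem DirL.coh {w : V → V} {K c β : ℝ} {U : Set V} (h : DirL w K c β U) (hK : 0 ≤ K) {x y : V}
    (hxU : x ∈ U) (hyU : y ∈ U) (hx : K < en (w x)) (hy : K < en (w y)) :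
    rsq (crossProduct (w x) (w y))
      ≤ (c * en (x - y) ^ β) ^ 2 * (rsq (w x) * rsq (w y)) := by
  have h1 := h x hxU y hyU hx hy
  set a := w x with ha
  set b := w y with hb
  have ha0 : 0 < en a := hK.trans_lt hx
  have hb0 : 0 < en b := hK.trans_lt hy
  have h2 := pow_le_pow_left₀ (en_nonneg _) h1 2
  rw [en_sq] at h2
  have e1 : (c * en (x - y) ^ β * (en a * en b)) ^ 2
      = (c * en (x - y) ^ β) ^ 2 * (rsq a * rsq b) := by
    rw [← en_sq a, ← en_sq b]; ring
  rw [e1] at h2
  refine le_trans ?_ h2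
  have h3 : rsq (en b • a - en a • b) = 2 * (en a * en b) * (en a * en b - ∑ i, a i * b i) := by
    have e2 : rsq (en b • a - en a • b)
        = en b ^ 2 * rsq a + en a ^ 2 * rsq b - 2 * (en a * en b) * ∑ i, a i * b i := by
      simp only [rsq, Fin.sum_univ_three, Pi.sub_apply, Pi.smul_apply, smul_eq_mul]
      ring
    rw [e2, ← en_sq a, ← en_sq b]
    ring
  rw [h3, ← lagrange, ← en_sq a, ← en_sq b]
  set s := ∑ i, a i * b i with hs
  have h4 : s ^ 2 ≤ (en a * en b) ^ 2 := by
    have := cs3 a b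
    rw [← en_sq a, ← en_sq b, ← mul_pow] at this
    exact this
  have h5 : 0 < en a * en b := by positivity
  have h6 := abs_le_of_sq_le_sq' h4 h5.le
  nlinarith [sq_nonneg (en a * en b - s)]

theorem cw_cross_le {w : V → V} {K c β : ℝ} {U : Set V} (h : DirL w K c β U) (hK : 0 < K)
    (hc : 0 ≤ c) {x y : V} (hxU : x ∈ U) (hyU : y ∈ U) (a : ℝ) :
    en (crossProduct (a • cw K w x) (cw K w y))
      ≤ c * en (x - y) ^ β * (en (a • cw K w x) * en (cw K w y)) := by
  have hen : ∀ z : V, K ^ 2 < rsq z → K < en z := by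
    intro z hz
    rw [← en_sq] at hz
    exact lt_of_pow_lt_pow_left₀ 2 (en_nonneg _) hz
  have e0 : en (0 : V) = 0 := by simp [en, rsq]
  rcases le_or_gt (rsq (w x)) (K ^ 2) with hx | hx
  · rw [cw_zero hK hx]
    simp only [smul_zero, map_zero, LinearMap.zero_apply, e0, zero_mul, mul_zero, le_refl]
  rcases le_or_gt (rsq (w y)) (K ^ 2) with hy | hy
  · rw [cw_zero hK hy]
    simp only [map_zero, e0, mul_zero, le_refl]
  have h1 := h.coh hK.le hxU hyU (hen _ hx) (hen _ hy)
  set p := chi (K⁻¹ ^ 2 * rsq (w x)) with hp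
  set q := chi (K⁻¹ ^ 2 * rsq (w y)) with hq
  have ex : cw K w x = p • w x := rfl
  have ey : cw K w y = q • w y := rfl
  have h2 : 0 ≤ c * en (x - y) ^ β * (en (a • cw K w x) * en (cw K w y)) := by
    have := en_nonneg (a • cw K w x)
    have := en_nonneg (cw K w y)
    have := Real.rpow_nonneg (en_nonneg (x - y)) β
    positivity
  refine le_of_sq_le_sq ?_ h2
  have e1 : crossProduct (a • cw K w x) (cw K w y) = (a * p * q) • crossProduct (w x) (w y) := by
    rw [ex, ey, smul_smul]
    simp only [map_smul, LinearMap.smul_apply, smul_smul]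
    congr 1
    ring
  rw [en_sq, e1, rsq_smul]
  calc (a * p * q) ^ 2 * rsq (crossProduct (w x) (w y))
      ≤ (a * p * q) ^ 2 * ((c * en (x - y) ^ β) ^ 2 * (rsq (w x) * rsq (w y))) :=
        mul_le_mul_of_nonneg_left h1 (sq_nonneg _)
    _ = (c * en (x - y) ^ β * (en (a • cw K w x) * en (cw K w y))) ^ 2 := by
        have e2 : en (a • cw K w x) ^ 2 = (a * p) ^ 2 * rsq (w x) := by
          rw [en_sq, ex, smul_smul, rsq_smul]
        have e3 : en (cw K w y) ^ 2 = q ^ 2 * rsq (w y) := by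
          rw [en_sq, ey, rsq_smul]
        calc (a * p * q) ^ 2 * ((c * en (x - y) ^ β) ^ 2 * (rsq (w x) * rsq (w y)))
            = (c * en (x - y) ^ β) ^ 2 * (((a * p) ^ 2 * rsq (w x)) * (q ^ 2 * rsq (w y))) := by
              ring
          _ = (c * en (x - y) ^ β) ^ 2 * (en (a • cw K w x) ^ 2 * en (cw K w y) ^ 2) := by
              rw [e2, e3]
          _ = _ := by ring

end Pool.Agent.R210
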