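import Pool.Agent.R210.N6

/-!
The localized estimate of the production at a fixed time.
-/

open MeasureTheory Set Metric Filter Topology
open scoped ContDiff ENNReal
open H459R3.NS

namespace Pool.Agent.R210

theorem stat {β ε K E0 R1 M1 : ℝ} (hβ0 : 0 < β) (hβ1 : β ≤ 1) (hε : 0 < ε) (hK : 0 < K)
    (hE0 : 0 ≤ E0) (hR1 : 0 < R1) (hR11 : R1 ≤ 1) (hM1 : 0 ≤ M1) : ∃ C' : ℝ, 0 ≤ C' ∧
    ∀ (v : V → V) (φ : V → ℝ) (c m : ℝ), (∀ i, SP (fun x => v x i)) → SP φ →
      (∀ x, 0 ≤ φ x) → (∀ x, φ x ≤ 1) → (∀ x, gr2 φ x ≤ M1) →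
      (∀ x, φ x ≠ 0 → (∀ y ∈ eb x R1, dv v y = 0) ∧ DirL (cu v) K c β (eb x R1)) →
      1 ≤ c → 1 ≤ m → c ^ ((1 + 2 * β) / β ^ 2) ≤ m → ∫ x in cube, rsq (v x) ≤ E0 ^ 2 →
      |Nw (fun x => φ x • cu v x) v| ≤ ε * (∫ x in cube, φ x ^ 2 * G2 (cu v) x)
        + C' * (m * (∫ x in cube, φ x ^ 2 * rsq (cu v x)) + enstrophy v) := by
  have hQ := CQ_nonneg
  have hBB := one_le_BB
  have hBP := one_le_BP
  have hvU := vU_nonneg
  obtain ⟨C, hC0, hC⟩ := prod_loc hβ0 hβ1
  have ha3 := a3_pos hβ0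
  have ha31 := a3_le β
  have hCM := CG3_pos hβ0
  obtain ⟨a, hadef⟩ : ∃ a : ℝ, a = min (a3 β) ((R1 / 16) ^ β) := ⟨_, rfl⟩
  have ha : 0 < a := by rw [hadef]; exact lt_min ha3 (by positivity)
  have haa3 : a ≤ a3 β := by rw [hadef]; exact min_le_left _ _
  have haR : a ≤ (R1 / 16) ^ β := by rw [hadef]; exact min_le_right _ _
  have ha1 : a ≤ 1 := haa3.trans ha31
  set Q : ℝ := (1 + 2 * β) / β ^ 2 with hQdef
  have hQ0 : 0 < Q := by positivity
  set A : ℝ := 2 + 288 * CQ ^ 2 with hA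
  have hA0 : 0 < A := by positivity
  set ε' : ℝ := ε / (4 * A) with hε'
  have hε'0 : 0 < ε' := by positivity
  set P : ℝ := 36 * BB * vU * (2 * K) with hP
  have hP0 : 0 ≤ P := by positivity
  set D : ℝ := C * (a * (CG3 β * (E0 + K))) with hD
  have hD0 : 0 ≤ D := by positivity
  set κ : ℝ := min 1 (ε' / (D + 1)) with hκ
  have hκ0 : 0 < κ := lt_min one_pos (by positivity)
  have hκ1 : κ ≤ 1 := min_le_left _ _
  have hDκ : D * κ ≤ ε' := by
    have h1 : κ ≤ ε' / (D + 1) := min_le_right _ _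
    have h2 : D * κ ≤ (D + 1) * (ε' / (D + 1)) :=
      mul_le_mul (by linarith) h1 hκ0.le (by linarith)
    refine h2.trans (le_of_eq ?_)
    field_simp
  set N1 : ℝ := κ⁻¹ ^ (2 / β) * a⁻¹ ^ Q with hN1
  have hN10 : 0 ≤ N1 := by positivity
  set N2 : ℝ := 3 * (BP * (Real.sqrt (27 * vU * E0 ^ 2) * a⁻¹ ^ Q)) with hN2
  have hN20 : 0 ≤ N2 := by positivity
  set N3 : ℝ := ε' * N1 + N2 + P ^ 2 / (4 * ε') with hN3
  have hN30 : 0 ≤ N3 := by positivity
  refine ⟨N3 + 8 * ε' * M1 + 7 * K, by positivity,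
    fun v φ c m hv hφ hφ0 hφ1 hφM hloc hc hm hcm hE => ?_⟩
  have hom := sp_cu hv
  have hm0 : 0 < m := by linarith
  have hc0 : 0 < c := by linarith
  have hw := sp_cw hom K
  have hl : ∀ i, SP (fun x => (cu v x - cw K (cu v) x) i) := fun i => (hom i).sub (hw i)
  have hy0 := enstrophy_nonneg v
  have hφsq : ∀ x, φ x ^ 2 ≤ 1 := fun x => pow_le_one₀ (hφ0 x) (hφ1 x)
  -- the scale
  set T : ℝ := (a / c) ^ (1 / β) with hT
  have hac : 0 < a / c := by positivity
  have hac1 : a / c ≤ 1 := by rw [div_le_one hc0]; linarith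
  have hT0 : 0 < T := Real.rpow_pos_of_pos hac _
  have hT1 : T ≤ 1 := Real.rpow_le_one hac.le hac1 (by positivity)
  have hTβ : T ^ β = a / c := by
    rw [hT, ← Real.rpow_mul hac.le, one_div, inv_mul_cancel₀ hβ0.ne', Real.rpow_one]
  have hcT : c * T ^ β = a := by rw [hTβ]; field_simp
  have hTR : T ≤ R1 / 16 := by
    have h1 : a / c ≤ (R1 / 16) ^ β := (div_le_self ha.le hc).trans haR
    have h2 := Real.rpow_le_rpow hac.le h1 (by positivity : 0 ≤ 1 / β)
    rwa [← Real.rpow_mul (by positivity : 0 ≤ R1 / 16), mul_one_div_cancel hβ0.ne',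
      Real.rpow_one] at h2
  set s : ℝ := Real.sqrt T with hs
  have hs0 : 0 < s := Real.sqrt_pos.2 hT0
  have hs1 : s ≤ 1 := by
    rw [hs, ← Real.sqrt_one]
    exact Real.sqrt_le_sqrt hT1
  have hsT : s = T ^ (1 / 2 : ℝ) := Real.sqrt_eq_rpow T
  set ρ : ℝ := T ^ (1 + 1 / (2 * β)) * κ ^ (1 / β) with hρ
  have hρ0 : 0 < ρ := by positivity
  have hρT : ρ ≤ T := by
    have h1 : κ ^ (1 / β) ≤ 1 := Real.rpow_le_one hκ0.le hκ1 (by positivity)
    have h2 : T ^ (1 + 1 / (2 * β)) ≤ T := by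
      calc T ^ (1 + 1 / (2 * β)) ≤ T ^ (1 : ℝ) :=
            Real.rpow_le_rpow_of_exponent_ge hT0 hT1 (by
              have : 0 < 1 / (2 * β) := by positivity
              linarith)
        _ = T := Real.rpow_one _
    calc ρ ≤ T * 1 := mul_le_mul h2 h1 (by positivity) hT0.le
      _ = T := mul_one _
  have hρβ : ρ ^ β = T ^ β * s * κ := by
    rw [hρ, Real.mul_rpow (by positivity) (by positivity), ← Real.rpow_mul hT0.le,
      ← Real.rpow_mul hκ0.le]
    have e1 : (1 + 1 / (2 * β)) * β = β + 1 / 2 := by field_simp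
    have e2 : 1 / β * β = 1 := by field_simp
    rw [e1, e2, Real.rpow_one, Real.rpow_add hT0, hsT]
  have hTi : T⁻¹ = (c / a) ^ (1 / β) := by
    rw [hT, ← Real.inv_rpow hac.le, inv_div]
  have hca1 : 1 ≤ c / a := by rw [one_le_div ha]; linarith
  have hca0 : 0 < c / a := by positivity
  have hcaQ : (c / a) ^ Q = a⁻¹ ^ Q * c ^ Q := by
    rw [div_eq_mul_inv, mul_comm, Real.mul_rpow (by positivity) hc0.le]
  have hcaQm : (c / a) ^ Q ≤ a⁻¹ ^ Q * m := by
    rw [hcaQ]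
    exact mul_le_mul_of_nonneg_left hcm (by positivity)
  have hρ2 : 1 / ρ ^ 2 ≤ N1 * m := by
    have e1 : 1 / ρ ^ 2 = κ⁻¹ ^ (2 / β) * (c / a) ^ Q := by
      have a1 : (1 : ℝ) / ρ ^ 2 = ρ⁻¹ ^ (2 : ℝ) := by
        rw [one_div, ← inv_pow]; norm_cast
      have a2 : ρ⁻¹ = (c / a) ^ ((1 / β) * (1 + 1 / (2 * β))) * κ⁻¹ ^ (1 / β) := by
        rw [hρ, mul_inv, ← Real.inv_rpow hT0.le, ← Real.inv_rpow hκ0.le, hTi,
          ← Real.rpow_mul hca0.le]
      rw [a1, a2, Real.mul_rpow (by positivity) (by positivity), ← Real.rpow_mul hca0.le,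
        ← Real.rpow_mul (by positivity), mul_comm]
      congr 2
      · ring
      · rw [hQdef]; field_simp; ring
    rw [e1, hN1, mul_assoc]
    exact mul_le_mul_of_nonneg_left hcaQm (by positivity)
  have hT5 : Real.sqrt (vU * (T⁻¹ ^ 5 * (27 * E0 ^ 2)))
      ≤ Real.sqrt (27 * vU * E0 ^ 2) * (a⁻¹ ^ Q * m) := by
    have e1 : T⁻¹ ^ 5 = (c / a) ^ (5 / β) := by
      rw [hTi, ← Real.rpow_natCast, ← Real.rpow_mul hca0.le]
      congr 1; push_cast; ring
    have e2 : T⁻¹ ^ 5 ≤ ((c / a) ^ Q) ^ 2 := by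
      rw [e1, ← Real.rpow_natCast ((c / a) ^ Q) 2, ← Real.rpow_mul hca0.le]
      refine Real.rpow_le_rpow_of_exponent_le hca1 ?_
      rw [hQdef, div_mul_eq_mul_div, div_le_div_iff₀ hβ0 (by positivity)]
      push_cast
      nlinarith
    have e3 : vU * (T⁻¹ ^ 5 * (27 * E0 ^ 2)) ≤ 27 * vU * E0 ^ 2 * ((c / a) ^ Q) ^ 2 := by
      have : 0 ≤ 27 * vU * E0 ^ 2 := by positivity
      calc vU * (T⁻¹ ^ 5 * (27 * E0 ^ 2)) = 27 * vU * E0 ^ 2 * T⁻¹ ^ 5 := by ring
        _ ≤ _ := mul_le_mul_of_nonneg_left e2 this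
    refine (Real.sqrt_le_sqrt e3).trans ?_
    rw [Real.sqrt_mul (by positivity), Real.sqrt_sq (by positivity)]
    exact mul_le_mul_of_nonneg_left hcaQm (Real.sqrt_nonneg _)
  clear_value ρ
  clear_value T
  -- the Morrey bound
  set Λ : ℝ := CG3 β * (E0 + K) / s with hΛ
  have hΛ0 : 0 ≤ Λ := by positivity
  have hmem : ∀ x : V, x ∈ eb x (R1 / 4) := by
    intro x
    unfold eb
    rw [mem_ofPred_eq, sub_self]
    have : rsq (0 : V) = 0 := by simp [rsq]
    rw [this]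
    positivity
  have hφG : ∀ x, (fun x => φ x • cw K (cu v) x) x ≠ 0 → φ x ≠ 0 := by
    intro x hx h
    apply hx
    show φ x • cw K (cu v) x = 0
    rw [h, zero_smul]
  have hmor : ∀ τ : ℝ, 0 < τ → τ ≤ T → ∀ x, (fun x => φ x • cw K (cu v) x) x ≠ 0 →
      ∫ z in U1, en (cw K (cu v) (x - τ • z)) ≤ Λ / τ ^ 2 := by
    intro τ hτ0 hτT x hx
    have h1 := avg_loc hv hR1 hR11 hβ0 hβ1 hc0.le hK.le (hloc x (hφG x hx)).2 hT0 hTR
      (by rw [hcT]; exact haa3) hτ0 hτT (hmem x)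
    have h2 : ∫ z in U1, en (cw K (cu v) (x - τ • z)) ≤ ∫ z in U1, en (cu v (x - τ • z)) := by
      have g1 : Continuous fun z : V => x - τ • z := by fun_prop
      have g2 : Continuous fun z : V => en (cw K (cu v) (x - τ • z)) := (f_cont hw).comp g1
      have g3 : Continuous fun z : V => en (cu v (x - τ • z)) := (f_cont hom).comp g1
      exact setIntegral_mono (int_U1 g2) (int_U1 g3) fun z => Real.sqrt_le_sqrt (rsq_cw_le K _)
    refine h2.trans (h1.trans ?_)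
    refine div_le_div_of_nonneg_right ?_ (by positivity)
    rw [hΛ, mul_div_assoc]
    refine mul_le_mul_of_nonneg_left ?_ hCM.le
    have h3 : Real.sqrt ((∫ x in cube, rsq (v x)) / T) ≤ E0 / s := by
      rw [Real.sqrt_div (integral_nonneg fun x => rsq_nonneg _)]
      refine div_le_div_of_nonneg_right ?_ hs0.le
      exact Real.sqrt_le_iff.2 ⟨hE0, hE⟩
    have h4 : K ≤ K / s := by
      rw [le_div_iff₀ hs0]
      exact mul_le_of_le_one_right hK.le hs1
    rw [add_div]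
    linarith
  -- the coherence
  have hebT : ∀ x : V, eb x T ⊆ eb x R1 := by
    intro x y hy
    unfold eb at hy ⊢
    rw [mem_ofPred_eq] at hy ⊢
    have h1 : T ≤ R1 := by linarith
    have := pow_le_pow_left₀ hT0.le h1 2
    linarith
  have hself : ∀ x : V, x ∈ eb x R1 := by
    intro x
    unfold eb
    rw [mem_ofPred_eq, sub_self]
    have : rsq (0 : V) = 0 := by simp [rsq]
    rw [this]
    positivity
  have hcohw : ∀ x y, (fun x => φ x • cw K (cu v) x) x ≠ 0 → y ∈ eb x T →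
      en (crossProduct ((fun x => φ x • cw K (cu v) x) x) (cw K (cu v) y))
        ≤ c * en (x - y) ^ β * (en ((fun x => φ x • cw K (cu v) x) x) * en (cw K (cu v) y)) :=
    fun x y hx hy => cw_cross_le (hloc x (hφG x hx)).2 hK hc0.le (hself x) (hebT x hy) (φ x)
  have hG := sp_fw hφ hw
  have hr1 : ∫ x in cube, rsq (φ x • cw K (cu v) x) ≤ ∫ x in cube, φ x ^ 2 * rsq (cu v x) := by
    refine setIntegral_mono (sp_rsq hG).int
      (integrableOn_cube ((hφ.cont.pow 2).mul (sp_rsq hom).cont)) fun x => ?_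
    simp only
    rw [rsq_fw]
    exact mul_le_mul_of_nonneg_left (rsq_cw_le K x) (sq_nonneg _)
  set Y := ∫ x in cube, rsq (φ x • cw K (cu v) x) with hY
  have hY0 : 0 ≤ Y := integral_nonneg fun x => rsq_nonneg _
  set G := ∫ x in cube, G2 (fun x => φ x • cw K (cu v) x) x with hGd
  have hG0 : 0 ≤ G := integral_nonneg fun x => G2_nonneg _ _
  set y := ∫ x in cube, φ x ^ 2 * rsq (cu v x) with hy
  set D' := ∫ x in cube, φ x ^ 2 * G2 (cu v) x with hD'
  -- the set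
  set U : Set V := ⋃ x ∈ {x | φ x ≠ 0}, eb x R1 with hU
  have hUo : IsOpen U := isOpen_biUnion fun x _ => isOpen_eb x R1
  have hUd : ∀ y ∈ U, dv v y = 0 := by
    intro y hy
    rw [hU, mem_iUnion₂] at hy
    obtain ⟨x, hx, hxy⟩ := hy
    exact (hloc x hx).1 y hxy
  have hUs : ∀ x, (fun x => φ x • cw K (cu v) x) x ≠ 0 → eb x T ⊆ U := by
    intro x hx y hy
    rw [hU, mem_iUnion₂]
    exact ⟨x, hφG x hx, hebT x hy⟩
  set M : ℝ := BP * Real.sqrt (vU * (T⁻¹ ^ 5 * (27 * E0 ^ 2))) with hM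
  have hMle : ∀ x i j, |mo phi T (pd i (fun y => v y j)) x| ≤ M := by
    intro x i j
    refine mo_pd_energy (hv j) hT0 hT1 ?_ i x
    refine le_trans ?_ hE
    exact setIntegral_mono (integrableOn_cube ((hv j).cont.pow 2)) (sp_rsq hv).int fun x =>
      sq_le_rsq (v x) j
  have h1 := hC v (cw K (cu v)) (fun x => cu v x - cw K (cu v) x)
    (fun x => φ x • cw K (cu v) x) U c T ρ Y (2 * K) Λ M hv hw hl hG hUo hUd hUs
    (fun x => by simp) (fun x i => cw_diff hK x i) hcohw hc0.le hρ0 hρT hY hΛ0 hmor hMle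
  rw [← hGd, ← hP] at h1
  have b1 : C * (c * Λ * ρ ^ β * (G + Y / ρ ^ 2)) ≤ ε' * G + ε' * N1 * m * Y := by
    have e1 : C * (c * Λ * ρ ^ β) = D * κ := by
      rw [hρβ, hΛ, hD]
      calc C * (c * (CG3 β * (E0 + K) / s) * (T ^ β * s * κ))
          = C * ((c * T ^ β) * (CG3 β * (E0 + K))) * κ := by field_simp
        _ = _ := by rw [hcT]
    have e2 : C * (c * Λ * ρ ^ β * (G + Y / ρ ^ 2)) = (D * κ) * (G + 1 / ρ ^ 2 * Y) := by
      rw [← e1]; ring
    rw [e2]
    have h2 : 0 ≤ G + 1 / ρ ^ 2 * Y := by positivity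
    calc (D * κ) * (G + 1 / ρ ^ 2 * Y) ≤ ε' * (G + 1 / ρ ^ 2 * Y) :=
          mul_le_mul_of_nonneg_right hDκ h2
      _ ≤ ε' * (G + N1 * m * Y) := by
          refine mul_le_mul_of_nonneg_left ?_ hε'0.le
          have := mul_le_mul_of_nonneg_right hρ2 hY0
          linarith
      _ = _ := by ring
  have b2 : 3 * M * Y ≤ N2 * m * Y := by
    refine mul_le_mul_of_nonneg_right ?_ hY0
    have h3 := mul_le_mul_of_nonneg_left hT5 (by linarith : 0 ≤ BP)
    rw [hN2, hM]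
    linarith
  have b3 : T * (P * (Real.sqrt G * Real.sqrt Y)) ≤ ε' * G + P ^ 2 / (4 * ε') * m * Y := by
    have h2 : T * (P * (Real.sqrt G * Real.sqrt Y)) ≤ P * (Real.sqrt G * Real.sqrt Y) :=
      mul_le_of_le_one_left (by positivity) hT1
    refine h2.trans ?_
    have eG := Real.sq_sqrt hG0
    have eY := Real.sq_sqrt hY0
    have h3 : ε' * G + P ^ 2 / (4 * ε') * Y - P * (Real.sqrt G * Real.sqrt Y)
        = (2 * ε' * Real.sqrt G - P * Real.sqrt Y) ^ 2 / (4 * ε') := by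
      have : (2 * ε' * Real.sqrt G - P * Real.sqrt Y) ^ 2
          = 4 * ε' ^ 2 * G - 4 * ε' * P * (Real.sqrt G * Real.sqrt Y) + P ^ 2 * Y := by
        calc (2 * ε' * Real.sqrt G - P * Real.sqrt Y) ^ 2
            = 4 * ε' ^ 2 * Real.sqrt G ^ 2 - 4 * ε' * P * (Real.sqrt G * Real.sqrt Y)
              + P ^ 2 * Real.sqrt Y ^ 2 := by ring
          _ = _ := by rw [eG, eY]
      rw [this]
      field_simp
      ring
    have h4 : 0 ≤ (2 * ε' * Real.sqrt G - P * Real.sqrt Y) ^ 2 / (4 * ε') := by positivity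
    have h5 : P ^ 2 / (4 * ε') * Y ≤ P ^ 2 / (4 * ε') * m * Y := by
      have : 0 ≤ P ^ 2 / (4 * ε') := by positivity
      refine mul_le_mul_of_nonneg_right ?_ hY0
      exact le_mul_of_one_le_right this hm
    linarith
  have hrw : ∫ x in cube, rsq (cw K (cu v) x) ≤ 2 * enstrophy v := by
    refine le_trans ?_ (int_rsq_cu hv)
    exact setIntegral_mono (sp_rsq hw).int (sp_rsq hom).int fun x => rsq_cw_le K x
  have h2 : G ≤ 2 * (A * D') + 4 * (M1 * enstrophy v) := by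
    have i1 : IntegrableOn (fun x => 2 * (A * (φ x ^ 2 * G2 (cu v) x))) cube :=
      integrableOn_cube (continuous_const.mul (continuous_const.mul
        ((hφ.cont.pow 2).mul (G2_cont hom))))
    have i2 : IntegrableOn (fun x => 2 * (M1 * rsq (cw K (cu v) x))) cube :=
      integrableOn_cube (continuous_const.mul (continuous_const.mul (sp_rsq hw).cont))
    have h3 : G ≤ ∫ x in cube, (2 * (A * (φ x ^ 2 * G2 (cu v) x))
        + 2 * (M1 * rsq (cw K (cu v) x))) := by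
      refine setIntegral_mono (integrableOn_cube (G2_cont hG)) (i1.add i2) fun x => ?_
      refine (G2_fw hφ hw x).trans ?_
      have h4 := mul_le_mul_of_nonneg_left (G2_cw_le hom hK x) (sq_nonneg (φ x))
      have h5 := mul_le_mul_of_nonneg_right (hφM x) (rsq_nonneg (cw K (cu v) x))
      rw [← hA] at h4
      linarith
    rw [integral_add i1 i2, integral_const_mul, integral_const_mul, integral_const_mul,
      integral_const_mul] at h3
    have h4 := mul_le_mul_of_nonneg_left hrw hM1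
    linarith
  have h4 : 2 * (ε' * G) ≤ ε * D' + 8 * ε' * M1 * enstrophy v := by
    have h5 := mul_le_mul_of_nonneg_left h2 hε'0.le
    have e1 : 2 * (ε' * (2 * (A * D'))) = ε * D' := by rw [hε']; field_simp; ring
    linarith
  have h5 : N3 * m * Y ≤ N3 * m * y :=
    mul_le_mul_of_nonneg_left hr1 (by positivity)
  have h6 := abs_le.1 (Nw_diff_loc hφ hv hK hφsq)
  have h7 := abs_le.1 h1
  have e3 : N3 * m * Y = ε' * N1 * m * Y + N2 * m * Y + P ^ 2 / (4 * ε') * m * Y := by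
    rw [hN3]; ring
  have hy00 : 0 ≤ y := integral_nonneg fun x => mul_nonneg (sq_nonneg _) (rsq_nonneg _)
  have h8 : 0 ≤ (8 * ε' * M1 + 7 * K) * (m * y) := by positivity
  have h9 : 0 ≤ N3 * enstrophy v := by positivity
  have h10 : |Nw (fun x => φ x • cw K (cu v) x) v| ≤ 2 * (ε' * G) + N3 * m * Y := by
    rw [e3]
    linarith
  have h11 := abs_le.1 h10
  rw [abs_le]
  constructor
  · linarith [h6.1, h11.1]
  · linarith [h6.2, h11.2]

end Pool.Agent.R210
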