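import Pool.Agent.W268.NS.Fin

/-!
Integrals of periodic functions over the period cell.
-/

open MeasureTheory Set Filter Topology
open scoped ENNReal Pointwise
open H459R3.NS

namespace Pool.Agent.R210

theorem per_span {F : Type*} {f : V → F} (hf : Per f)
    (g : Submodule.span ℤ (Set.range (Pi.basisFun ℝ (Fin 3)))) (x : V) : f (g +ᵥ x) = f x := by
  obtain ⟨v, hv⟩ := g
  have key : ∀ v ∈ Submodule.span ℤ (Set.range (Pi.basisFun ℝ (Fin 3))), ∀ x, f (v + x) = f x := by
    intro v hv
    induction hv using Submodule.span_induction with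
    | mem v hv =>
      obtain ⟨i, rfl⟩ := hv
      intro x
      rw [Pi.basisFun_apply, add_comm]
      exact hf i x
    | zero => intro x; rw [zero_add]
    | add a b _ _ ha hb => intro x; rw [add_assoc, ha, hb]
    | smul n a _ ha =>
      intro x
      induction n using Int.induction_on generalizing x with
      | zero => rw [zero_smul, zero_add]
      | succ k ih => rw [add_smul, one_smul, add_assoc, ih, ha]
      | pred k ih =>
        rw [sub_smul, one_smul]
        have h1 := ha ((-(k : ℤ)) • a - a + x)
        have e1 : a + ((-(k : ℤ)) • a - a + x) = (-(k : ℤ)) • a + x := by abel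
        rw [e1, ih] at h1
        exact h1.symm
  exact key v hv x

/-- The half open cell. -/
def dom : Set V := ZSpan.fundamentalDomain (Pi.basisFun ℝ (Fin 3))

theorem dom_ae : dom =ᵐ[volume] cube := by
  have h1 : dom = Set.pi univ fun _ : Fin 3 => Ico (0 : ℝ) 1 := by
    ext x
    simp [dom, ZSpan.mem_fundamentalDomain]
  have h2 : cube = Icc (0 : V) 1 := rfl
  rw [h1, h2]
  exact Measure.univ_pi_Ico_ae_eq_Icc (μ := fun _ : Fin 3 => (volume : Measure ℝ))
    (f := (0 : V)) (g := (1 : V))

theorem int_shift {F : Type*} [NormedAddCommGroup F] [NormedSpace ℝ F] {f : V → F} (hf : Per f)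
    (h : V) : ∫ x in cube, f (x + h) = ∫ x in cube, f x := by
  have hD : IsAddFundamentalDomain (Submodule.span ℤ (Set.range (Pi.basisFun ℝ (Fin 3)))) dom
      (volume : Measure V) := ZSpan.isAddFundamentalDomain _ _
  have hmp : MeasurePreserving (fun x : V => x - h) volume volume := measurePreserving_sub_right _ h
  have hinv : VAddInvariantMeasure (Submodule.span ℤ (Set.range (Pi.basisFun ℝ (Fin 3)))) V
      (volume : Measure V) := ⟨fun g s _ => measure_preimage_add volume (g : V) s⟩
  have hD' : IsAddFundamentalDomain (Submodule.span ℤ (Set.range (Pi.basisFun ℝ (Fin 3))))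
      ((fun x : V => x - h) ⁻¹' dom) (volume : Measure V) := by
    refine hD.preimage_of_equiv hmp.quasiMeasurePreserving (e := id) Function.bijective_id ?_
    intro g x
    simp only [id]
    show (g +ᵥ x) - h = g +ᵥ (x - h)
    rw [Submodule.vadd_def, Submodule.vadd_def, vadd_eq_add, vadd_eq_add]
    abel
  have h1 : ∫ x in dom, f x = ∫ x in (fun x : V => x - h) ⁻¹' dom, f x :=
    hD.setIntegral_eq hD' (per_span hf)
  have hmp2 : MeasurePreserving (fun x : V => x + h) volume volume := measurePreserving_add_right _ h
  have h2 := hmp2.setIntegral_preimage_emb (measurableEmbedding_addRight h) f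
    ((fun x : V => x - h) ⁻¹' dom)
  have h3 : (fun x : V => x + h) ⁻¹' ((fun x : V => x - h) ⁻¹' dom) = dom := by
    ext x; simp
  rw [h3] at h2
  rw [← setIntegral_congr_set dom_ae, ← setIntegral_congr_set dom_ae, h2, h1]

theorem lint_shift {f : V → ℝ≥0∞} (hf : Per f)
    (h : V) : ∫⁻ x in cube, f (x + h) = ∫⁻ x in cube, f x := by
  have hD : IsAddFundamentalDomain (Submodule.span ℤ (Set.range (Pi.basisFun ℝ (Fin 3)))) dom
      (volume : Measure V) := ZSpan.isAddFundamentalDomain _ _
  have hmp : MeasurePreserving (fun x : V => x - h) volume volume := measurePreserving_sub_right _ h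
  have hinv : VAddInvariantMeasure (Submodule.span ℤ (Set.range (Pi.basisFun ℝ (Fin 3)))) V
      (volume : Measure V) := ⟨fun g s _ => measure_preimage_add volume (g : V) s⟩
  have hD' : IsAddFundamentalDomain (Submodule.span ℤ (Set.range (Pi.basisFun ℝ (Fin 3))))
      ((fun x : V => x - h) ⁻¹' dom) (volume : Measure V) := by
    refine hD.preimage_of_equiv hmp.quasiMeasurePreserving (e := id) Function.bijective_id ?_
    intro g x
    simp only [id]
    show (g +ᵥ x) - h = g +ᵥ (x - h)
    rw [Submodule.vadd_def, Submodule.vadd_def, vadd_eq_add, vadd_eq_add]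
    abel
  have h1 : ∫⁻ x in dom, f x = ∫⁻ x in (fun x : V => x - h) ⁻¹' dom, f x :=
    hD.setLIntegral_eq hD' f (per_span hf)
  have hmp2 : MeasurePreserving (fun x : V => x + h) volume volume := measurePreserving_add_right _ h
  have h2 := hmp2.setLIntegral_comp_preimage_emb (measurableEmbedding_addRight h) f
    ((fun x : V => x - h) ⁻¹' dom)
  have h3 : (fun x : V => x + h) ⁻¹' ((fun x : V => x - h) ⁻¹' dom) = dom := by
    ext x; simp
  rw [h3] at h2
  rw [← setLIntegral_congr dom_ae, ← setLIntegral_congr dom_ae, h2, h1]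

end Pool.Agent.R210
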