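import Pool.Agent.R210.MoS

/-!
Estimates of the nonlinear term at one scale.
-/

open MeasureTheory Set Metric Filter Topology
open scoped ContDiff ENNReal
open H459R3.NS

namespace Pool.Agent.R210

/-- The Euclidean unit ball. -/
def U1 : Set V := {z | rsq z < 1}

theorem isOpen_U1 : IsOpen U1 := isOpen_lt rsq_smooth.continuous continuous_const

theorem measurable_U1 : MeasurableSet U1 := isOpen_U1.measurableSet

theorem U1_sub : U1 ⊆ closedBall (0 : V) 1 := fun _ hz => ball_sub_rsq hz

theorem U1_fin : volume U1 ≠ ⊤ :=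
  ((measure_mono U1_sub).trans_lt (isCompact_closedBall (0 : V) 1).measure_lt_top).ne

/-- The volume of the unit ball. -/
noncomputable def vU : ℝ := (volume U1).toReal

theorem vU_nonneg : 0 ≤ vU := ENNReal.toReal_nonneg

theorem int_U1 {f : V → ℝ} (hf : Continuous f) : IntegrableOn f U1 :=
  (hf.continuousOn.integrableOn_compact (isCompact_closedBall (0 : V) 1)).mono_set U1_sub

/-- The nonlinear term at the scale `t`. -/
noncomputable def Zf (w F : V → V) (t : ℝ) (x : V) : ℝ :=
  ∑ i, ∑ j, w x i * w x j * mo psi t (pd i (fun y => cu F y j)) x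

theorem triple_le (a b : V) (H : Fin 3 → V) {B : ℝ} (hB : 0 ≤ B) (hH : ∀ i k, |H i k| ≤ B) :
    |∑ i, ∑ j, a i * a j * (crossProduct (H i) b) j|
      ≤ 3 * B * (en a * en (crossProduct a b)) := by
  set n := crossProduct a b with hn
  have e1 : ∑ i, ∑ j, a i * a j * (crossProduct (H i) b) j = -∑ i, a i * ∑ k, H i k * n k := by
    rw [hn]
    simp only [Fin.sum_univ_three, cross_apply, Matrix.cons_val_zero, Matrix.cons_val_one,
      Matrix.cons_val]
    ring
  rw [e1, abs_neg]
  have h1 : ∀ i, (∑ k, H i k * n k) ^ 2 ≤ 3 * B ^ 2 * rsq n := by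
    intro i
    refine (cs3 (H i) n).trans (mul_le_mul_of_nonneg_right ?_ (rsq_nonneg _))
    unfold rsq
    have h2 : ∀ k, H i k ^ 2 ≤ B ^ 2 := fun k => by
      rw [← sq_abs]; exact pow_le_pow_left₀ (abs_nonneg _) (hH i k) 2
    refine (Finset.sum_le_sum fun k _ => h2 k).trans (le_of_eq ?_)
    simp
  have h3 : (∑ i, a i * ∑ k, H i k * n k) ^ 2 ≤ rsq a * (9 * B ^ 2 * rsq n) := by
    refine (cs3 a fun i => ∑ k, H i k * n k).trans
      (mul_le_mul_of_nonneg_left ?_ (rsq_nonneg _))
    unfold rsq
    refine (Finset.sum_le_sum fun i _ => h1 i).trans (le_of_eq ?_)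
    unfold rsq
    simp
    ring
  have h4 : (∑ i, a i * ∑ k, H i k * n k) ^ 2 ≤ (3 * B * (en a * en n)) ^ 2 := by
    refine h3.trans (le_of_eq ?_)
    rw [← en_sq, ← en_sq]; ring
  have h5 : 0 ≤ 3 * B * (en a * en n) := by
    have := en_nonneg a
    have := en_nonneg n
    positivity
  exact abs_le_of_sq_le_sq h4 h5

theorem cross_cont {f g : V → V} (hf : Continuous f) (hg : Continuous g) :
    Continuous fun x => crossProduct (f x) (g x) := by
  have h1 : ∀ i, Continuous fun x => f x i := fun i => (continuous_apply i).comp hf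
  have h2 : ∀ i, Continuous fun x => g x i := fun i => (continuous_apply i).comp hg
  refine continuous_pi fun i => ?_
  fin_cases i
  · simp only [cross_apply]
    exact ((h1 1).mul (h2 2)).sub ((h1 2).mul (h2 1))
  · simp only [cross_apply]
    exact ((h1 2).mul (h2 0)).sub ((h1 0).mul (h2 2))
  · simp only [cross_apply]
    exact ((h1 0).mul (h2 1)).sub ((h1 1).mul (h2 0))

/-- The kernels. -/
noncomputable def Hk (i : Fin 3) (z : V) : V := fun k => pd k (pd i psi) z

theorem Hk_le (i k : Fin 3) (z : V) : |Hk i z k| ≤ BB := pd_pd_psi_le i k z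

theorem Hk_zero (i : Fin 3) {z : V} (hz : 1 ≤ rsq z) : Hk i z = 0 := by
  funext k
  exact pd_zero_of_rsq (pd_smooth psi_smooth i)
    (fun z hz => pd_zero_of_rsq psi_smooth (fun z hz => psi_zero hz) i z hz) k z hz

theorem Hk_cont (i k : Fin 3) : Continuous fun z => Hk i z k :=
  (pd_smooth (pd_smooth psi_smooth i) k).continuous

section

variable {w F : V → V} (hF : ∀ i, SP (fun x => F x i))

include hF in
/-- The mollified derivatives of the curl. -/
theorem mo_curl (i j : Fin 3) (t : ℝ) (x : V) :
    (Integrable fun z => (crossProduct (Hk i z) (F (x - t • z))) j) ∧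
    t ^ 2 * mo psi t (pd i (fun y => cu F y j)) x
      = ∫ z, (crossProduct (Hk i z) (F (x - t • z))) j := by
  have hi : ∀ k m, Integrable fun z => Hk i z k * F (x - t • z) m := fun k m =>
    mo_int (pd_smooth (pd_smooth psi_smooth i) k).continuous
      (pd_compact (pd_compact psi_compact i) k) (hF m).cont t x
  have key : ∀ k m k' m' : Fin 3, ∀ g : V → ℝ,
      (g = fun y => pd k (fun y => F y m) y - pd k' (fun y => F y m') y) →
      t ^ 2 * mo psi t (pd i g) x
        = ∫ z, (Hk i z k * F (x - t • z) m - Hk i z k' * F (x - t • z) m') := by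
    intro k m k' m' g hg
    have e1 : pd i g = fun y => pd i (pd k (fun y => F y m)) y - pd i (pd k' (fun y => F y m')) y := by
      funext y
      rw [hg]
      exact pd_sub' ((hF m).pd k) ((hF m').pd k') i y
    rw [e1, mo_sub psi_smooth.continuous psi_compact (((hF m).pd k).pd i).cont
      (((hF m').pd k').pd i).cont, mul_sub, ← mo_pd2 (hF m), ← mo_pd2 (hF m'),
      integral_sub (hi k m) (hi k' m')]
    rfl
  fin_cases j
  · refine ⟨?_, ?_⟩
    · simp only [cross_apply]
      exact (hi 1 2).sub (hi 2 1)
    · simp only [cross_apply]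
      exact key 1 2 2 1 _ rfl
  · refine ⟨?_, ?_⟩
    · simp only [cross_apply]
      exact (hi 2 0).sub (hi 0 2)
    · simp only [cross_apply]
      exact key 2 0 0 2 _ rfl
  · refine ⟨?_, ?_⟩
    · simp only [cross_apply]
      exact (hi 0 1).sub (hi 1 0)
    · simp only [cross_apply]
      exact key 0 1 1 0 _ rfl

include hF in
theorem Zf_le (t : ℝ) (x : V) : t ^ 2 * |Zf w F t x|
    ≤ 3 * BB * (en (w x) * ∫ z in U1, en (crossProduct (w x) (F (x - t • z)))) := by
  have hFc : Continuous F := w_cont hF
  have hcc : Continuous fun z : V => en (crossProduct (w x) (F (x - t • z))) :=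
    en_cont.comp (cross_cont continuous_const (hFc.comp (by fun_prop)))
  have h1 : t ^ 2 * Zf w F t x
      = ∫ z, ∑ i, ∑ j, w x i * w x j * (crossProduct (Hk i z) (F (x - t • z))) j := by
    rw [integral_finsetSum _ fun i _ => integrable_finsetSum _ fun j _ =>
      (mo_curl hF i j t x).1.const_mul _]
    unfold Zf
    rw [Finset.mul_sum]
    refine Finset.sum_congr rfl fun i _ => ?_
    rw [integral_finsetSum _ fun j _ => (mo_curl hF i j t x).1.const_mul _, Finset.mul_sum]
    refine Finset.sum_congr rfl fun j _ => ?_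
    rw [integral_const_mul, ← (mo_curl hF i j t x).2]
    ring
  have h2 : t ^ 2 * |Zf w F t x| = |t ^ 2 * Zf w F t x| := by
    rw [abs_mul, abs_of_nonneg (sq_nonneg t)]
  rw [h2, h1, ← Real.norm_eq_abs]
  have h3 : 3 * BB * (en (w x) * ∫ z in U1, en (crossProduct (w x) (F (x - t • z))))
      = ∫ z, U1.indicator (fun z => 3 * BB * (en (w x)
        * en (crossProduct (w x) (F (x - t • z))))) z := by
    rw [integral_indicator measurable_U1, integral_const_mul, integral_const_mul]
  rw [h3]
  refine norm_integral_le_of_norm_le ?_ (Filter.Eventually.of_forall fun z => ?_)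
  · refine IntegrableOn.integrable_indicator (int_U1 ?_) measurable_U1
    exact continuous_const.mul (continuous_const.mul hcc)
  · by_cases hz : z ∈ U1
    · rw [indicator_of_mem hz, Real.norm_eq_abs]
      exact triple_le (w x) (F (x - t • z)) (fun i => Hk i z) (by linarith [one_le_BB])
        fun i k => Hk_le i k z
    · rw [indicator_of_notMem hz]
      have hz' : 1 ≤ rsq z := not_lt.1 hz
      have : ∑ i, ∑ j, w x i * w x j * (crossProduct (Hk i z) (F (x - t • z))) j = 0 := by
        refine Finset.sum_eq_zero fun i _ => Finset.sum_eq_zero fun j _ => ?_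
        rw [Hk_zero i hz']
        simp
      rw [this]; simp

/-- A bound of the mollified curl. -/
theorem mo_cu_le {l : V → V} (hl : ∀ i, SP (fun x => l x i)) {L : ℝ} (hL : ∀ x i, |l x i| ≤ L)
    {t : ℝ} (ht : 0 ≤ t) (j : Fin 3) (x : V) :
    t * |mo psi t (fun y => cu l y j) x| ≤ 2 * BB * vU * L := by
  have hL0 : 0 ≤ L := (abs_nonneg _).trans (hL 0 0)
  have hk : ∀ k m : Fin 3, |mo (pd k psi) t (fun y => l y m) x| ≤ BB * vU * L := by
    intro k m
    unfold mo
    have h3 : BB * vU * L = ∫ z, U1.indicator (fun _ : V => BB * L) z := by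
      rw [integral_indicator measurable_U1, setIntegral_const]
      simp only [smul_eq_mul, Measure.real, vU]
      ring
    rw [h3, ← Real.norm_eq_abs]
    refine norm_integral_le_of_norm_le ?_ (Filter.Eventually.of_forall fun z => ?_)
    · exact IntegrableOn.integrable_indicator (integrableOn_const U1_fin) measurable_U1
    · by_cases hz : z ∈ U1
      · rw [indicator_of_mem hz, norm_mul, Real.norm_eq_abs, Real.norm_eq_abs]
        exact mul_le_mul (pd_psi_le k z) (hL _ m) (abs_nonneg _) (by linarith [one_le_BB])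
      · rw [indicator_of_notMem hz]
        have : pd k psi z = 0 :=
          pd_zero_of_rsq psi_smooth (fun z hz => psi_zero hz) k z (not_lt.1 hz)
        rw [this]; simp
  have key : ∀ k m k' m' : Fin 3, ∀ g : V → ℝ,
      (g = fun y => pd k (fun y => l y m) y - pd k' (fun y => l y m') y) →
      t * |mo psi t g x| ≤ 2 * BB * vU * L := by
    intro k m k' m' g hg
    have e1 : t * mo psi t g x = mo (pd k psi) t (fun y => l y m) x
        - mo (pd k' psi) t (fun y => l y m') x := by
      rw [hg, mo_sub psi_smooth.continuous psi_compact ((hl m).pd k).cont ((hl m').pd k').cont,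
        mo_pd psi_smooth psi_compact (hl m).smooth, mo_pd psi_smooth psi_compact (hl m').smooth]
      ring
    have e2 : t * |mo psi t g x| = |t * mo psi t g x| := by rw [abs_mul, abs_of_nonneg ht]
    rw [e2, e1]
    refine (abs_sub _ _).trans ?_
    linarith [hk k m, hk k' m']
  fin_cases j
  · exact key 1 2 2 1 _ rfl
  · exact key 2 0 0 2 _ rfl
  · exact key 0 1 1 0 _ rfl

end

end Pool.Agent.R210
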