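import Pool.Agent.R210.Prod1

/-!
The part of the production which comes from the bounded part of the vorticity, and the part of
scale one.
-/

open MeasureTheory Set Metric Filter Topology
open scoped ContDiff ENNReal
open H459R3.NS

namespace Pool.Agent.R210

theorem abs_le_en (a : V) (i : Fin 3) : |a i| ≤ en a := by
  refine abs_le_of_sq_le_sq ?_ (en_nonneg a)
  rw [en_sq]
  exact sq_le_rsq a i

theorem abs_pd_le (w : V → V) (i j : Fin 3) (x : V) :
    |pd i (fun y => w y j) x| ≤ Real.sqrt (G2 w x) := by
  refine Real.abs_le_sqrt ?_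
  unfold G2
  refine le_trans ?_ (Finset.single_le_sum (f := fun j => gr2 (fun y => w y j) x)
    (fun j _ => gr2_nonneg _ _) (Finset.mem_univ j))
  unfold gr2
  exact Finset.single_le_sum (f := fun i => pd i (fun y => w y j) x ^ 2)
    (fun i _ => sq_nonneg _) (Finset.mem_univ i)

/-- The Cauchy-Schwarz inequality over the period cell. -/
theorem cs_cube {f g : V → ℝ} (hf : Continuous f) (hg : Continuous g) (hf0 : ∀ x, 0 ≤ f x)
    (hg0 : ∀ x, 0 ≤ g x) :
    ∫ x in cube, Real.sqrt (f x) * Real.sqrt (g x)
      ≤ Real.sqrt (∫ x in cube, f x) * Real.sqrt (∫ x in cube, g x) := by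
  set a := ∫ x in cube, f x with ha
  set b := ∫ x in cube, g x with hb
  have ha0 : 0 ≤ a := integral_nonneg fun x => hf0 x
  have hb0 : 0 ≤ b := integral_nonneg fun x => hg0 x
  have hi : IntegrableOn (fun x => Real.sqrt (f x) * Real.sqrt (g x)) cube :=
    integrableOn_cube ((Real.continuous_sqrt.comp hf).mul (Real.continuous_sqrt.comp hg))
  have key : ∀ ε : ℝ, 0 < ε → ∫ x in cube, Real.sqrt (f x) * Real.sqrt (g x)
      ≤ Real.sqrt (a + ε) * Real.sqrt (b + ε) := by
    intro ε hε
    have pa : 0 < a + ε := by linarith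
    have pb : 0 < b + ε := by linarith
    set r : ℝ := Real.sqrt (a + ε) with hr
    set s : ℝ := Real.sqrt (b + ε) with hs
    have hr0 : 0 < r := Real.sqrt_pos.2 pa
    have hs0 : 0 < s := Real.sqrt_pos.2 pb
    have hr2 : r ^ 2 = a + ε := Real.sq_sqrt pa.le
    have hs2 : s ^ 2 = b + ε := Real.sq_sqrt pb.le
    have h1 : ∀ x, Real.sqrt (f x) * Real.sqrt (g x) ≤ s / (2 * r) * f x + r / (2 * s) * g x := by
      intro x
      have e1 := Real.sq_sqrt (hf0 x)
      have e2 := Real.sq_sqrt (hg0 x)
      have h2 : s / (2 * r) * f x + r / (2 * s) * g x - Real.sqrt (f x) * Real.sqrt (g x)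
          = (s * Real.sqrt (f x) - r * Real.sqrt (g x)) ^ 2 / (2 * r * s) := by
        conv_lhs => rw [← e1, ← e2]
        rw [Real.sqrt_sq (Real.sqrt_nonneg _), Real.sqrt_sq (Real.sqrt_nonneg _)]
        field_simp
        ring
      have h3 : 0 ≤ (s * Real.sqrt (f x) - r * Real.sqrt (g x)) ^ 2 / (2 * r * s) := by positivity
      linarith
    have h2 : ∫ x in cube, Real.sqrt (f x) * Real.sqrt (g x)
        ≤ ∫ x in cube, (s / (2 * r) * f x + r / (2 * s) * g x) :=
      setIntegral_mono hi (((integrableOn_cube hf).const_mul _).add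
        ((integrableOn_cube hg).const_mul _)) h1
    rw [integral_add ((integrableOn_cube hf).const_mul _) ((integrableOn_cube hg).const_mul _),
      integral_const_mul, integral_const_mul, ← ha, ← hb] at h2
    refine h2.trans ?_
    have h3 : s / (2 * r) * a + r / (2 * s) * b ≤ s / (2 * r) * r ^ 2 + r / (2 * s) * s ^ 2 := by
      rw [hr2, hs2]
      have : 0 < s / (2 * r) := by positivity
      have : 0 < r / (2 * s) := by positivity
      nlinarith
    refine h3.trans (le_of_eq ?_)
    field_simp
    ring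
  have hlim : Tendsto (fun ε : ℝ => Real.sqrt (a + ε) * Real.sqrt (b + ε)) (𝓝[>] 0)
      (𝓝 (Real.sqrt (a + 0) * Real.sqrt (b + 0))) := by
    have : Continuous fun ε : ℝ => Real.sqrt (a + ε) * Real.sqrt (b + ε) :=
      (Real.continuous_sqrt.comp (by fun_prop)).mul (Real.continuous_sqrt.comp (by fun_prop))
    exact (this.tendsto 0).mono_left nhdsWithin_le_nhds
  rw [add_zero, add_zero] at hlim
  refine ge_of_tendsto hlim ?_
  filter_upwards [self_mem_nhdsWithin] with ε hε
  exact key ε hε

section

variable {w l : V → V} (hw : ∀ i, SP (fun x => w x i)) (hl : ∀ i, SP (fun x => l x i))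

include hw hl in
/-- The part of the production which comes from a bounded part of the vorticity. -/
theorem Jl_le {L : ℝ} (hL : ∀ x i, |l x i| ≤ L) {t : ℝ} (ht : 0 ≤ t) :
    t * |∫ x in cube, Zf w l t x| ≤ 36 * BB * vU * L
      * (Real.sqrt (∫ x in cube, G2 w x) * Real.sqrt (∫ x in cube, rsq (w x))) := by
  have hL0 : 0 ≤ L := (abs_nonneg _).trans (hL 0 0)
  have hB := one_le_BB
  have hv := vU_nonneg
  have hmo : ∀ j, SP (mo psi t (fun y => cu l y j)) := fun j =>
    sp_mo psi_smooth.continuous psi_compact (sp_cu hl j) t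
  have hww : ∀ i j, SP fun x => w x i * w x j := fun i j => (hw i).mul (hw j)
  have e1 : ∀ x, Zf w l t x
      = ∑ i, ∑ j, w x i * w x j * pd i (mo psi t (fun y => cu l y j)) x := by
    intro x
    unfold Zf
    refine Finset.sum_congr rfl fun i _ => Finset.sum_congr rfl fun j _ => ?_
    rw [pd_mo psi_smooth.continuous psi_compact (sp_cu hl j)]
  have hsp : ∀ i j, SP fun x => w x i * w x j * pd i (mo psi t (fun y => cu l y j)) x :=
    fun i j => (hww i j).mul ((hmo j).pd i)
  have e2 : ∫ x in cube, Zf w l t x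
      = -∫ x in cube, ∑ i, ∑ j, pd i (fun y => w y i * w y j) x
        * mo psi t (fun y => cu l y j) x := by
    simp_rw [e1]
    rw [integral_finsetSum _ fun i _ => (SP.sum fun j _ => hsp i j).int,
      integral_finsetSum _ fun i _ => (SP.sum fun j _ => ((hww i j).pd i).mul (hmo j)).int,
      ← Finset.sum_neg_distrib]
    refine Finset.sum_congr rfl fun i _ => ?_
    rw [integral_finsetSum _ fun j _ => (hsp i j).int,
      integral_finsetSum _ fun j _ => (((hww i j).pd i).mul (hmo j)).int,
      ← Finset.sum_neg_distrib]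
    refine Finset.sum_congr rfl fun j _ => ?_
    have := ibp (hww i j) (hmo j) i
    linarith
  have hGc : Continuous (G2 w) := G2_cont hw
  have hYc : Continuous fun x => rsq (w x) := rsq_smooth.continuous.comp (w_cont hw)
  have e3 : t * |∫ x in cube, Zf w l t x|
      = |∫ x in cube, t * ∑ i, ∑ j, pd i (fun y => w y i * w y j) x
        * mo psi t (fun y => cu l y j) x| := by
    rw [e2, abs_neg, integral_const_mul, abs_mul, abs_of_nonneg ht]
  rw [e3, ← Real.norm_eq_abs]
  have h4 : 36 * BB * vU * L
      * (Real.sqrt (∫ x in cube, G2 w x) * Real.sqrt (∫ x in cube, rsq (w x)))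
      ≥ ∫ x in cube, 36 * BB * vU * L * (Real.sqrt (G2 w x) * Real.sqrt (rsq (w x))) := by
    rw [integral_const_mul]
    refine mul_le_mul_of_nonneg_left ?_ (by positivity)
    exact cs_cube hGc hYc (fun x => G2_nonneg _ _) fun x => rsq_nonneg _
  refine le_trans ?_ h4
  refine norm_integral_le_of_norm_le ?_ (Filter.Eventually.of_forall fun x => ?_)
  · exact integrableOn_cube (continuous_const.mul ((Real.continuous_sqrt.comp hGc).mul
      (Real.continuous_sqrt.comp hYc)))
  · set g := Real.sqrt (G2 w x) with hg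
    have hg0 : 0 ≤ g := Real.sqrt_nonneg _
    have hen : Real.sqrt (rsq (w x)) = en (w x) := rfl
    rw [hen]
    have hterm : ∀ i j, |t * (pd i (fun y => w y i * w y j) x
        * mo psi t (fun y => cu l y j) x)| ≤ 2 * (g * en (w x)) * (2 * BB * vU * L) := by
      intro i j
      have h5 : |pd i (fun y => w y i * w y j) x| ≤ 2 * (g * en (w x)) := by
        rw [pd_mul (hw i) (hw j)]
        refine (abs_add_le _ _).trans ?_
        rw [abs_mul, abs_mul]
        have a1 := abs_le_en (w x) i
        have a2 := abs_le_en (w x) j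
        have b1 := abs_pd_le w i j x
        have b2 := abs_pd_le w i i x
        have c1 : |w x i| * |pd i (fun y => w y j) x| ≤ en (w x) * g :=
          mul_le_mul a1 b1 (abs_nonneg _) (en_nonneg _)
        have c2 : |pd i (fun y => w y i) x| * |w x j| ≤ g * en (w x) :=
          mul_le_mul b2 a2 (abs_nonneg _) hg0
        linarith
      have h6 := mo_cu_le hl hL ht j x
      have e4 : t * (pd i (fun y => w y i * w y j) x * mo psi t (fun y => cu l y j) x)
          = pd i (fun y => w y i * w y j) x * (t * mo psi t (fun y => cu l y j) x) := by ring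
      rw [e4, abs_mul]
      refine mul_le_mul h5 ?_ (abs_nonneg _) (by have := en_nonneg (w x); positivity)
      rw [abs_mul, abs_of_nonneg ht]
      exact h6
    rw [Real.norm_eq_abs, Finset.mul_sum]
    refine (Finset.abs_sum_le_sum_abs _ _).trans ?_
    have h7 : ∀ i : Fin 3, |t * ∑ j, pd i (fun y => w y i * w y j) x
        * mo psi t (fun y => cu l y j) x| ≤ 3 * (2 * (g * en (w x)) * (2 * BB * vU * L)) := by
      intro i
      rw [Finset.mul_sum]
      refine (Finset.abs_sum_le_sum_abs _ _).trans ?_
      refine (Finset.sum_le_sum fun j _ => hterm i j).trans (le_of_eq ?_)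
      simp
    refine (Finset.sum_le_sum fun i _ => h7 i).trans (le_of_eq ?_)
    simp
    ring

/-- A scaled integral over the unit ball. -/
theorem int_U1_scale {f : V → ℝ} {t : ℝ} (ht : 0 < t) (x : V) :
    ∫ z in U1, f (x - t • z) = t⁻¹ ^ 3 * ∫ y in eb x t, f y := by
  have h1 : ∫ z in U1, f (x - t • z) = ∫ z, (eb x t).indicator f (x - t • z) := by
    rw [← integral_indicator measurable_U1]
    congr 1
    funext z
    have h2 : rsq (x - t • z - x) = t ^ 2 * rsq z := by
      have : x - t • z - x = -(t • z) := by abel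
      rw [this, rsq_neg, rsq_smul]
    have h3 : x - t • z ∈ eb x t ↔ z ∈ U1 := by
      unfold eb U1
      rw [mem_ofPred_eq, mem_ofPred_eq, h2]
      have ht2 : 0 < t ^ 2 := by positivity
      constructor
      · intro h; nlinarith
      · intro h; nlinarith
    by_cases hz : z ∈ U1
    · rw [indicator_of_mem hz, indicator_of_mem (h3.2 hz)]
    · rw [indicator_of_notMem hz, indicator_of_notMem (fun h => hz (h3.1 h))]
  rw [h1]
  have h4 := Measure.integral_comp_smul (volume : Measure V)
    (fun y => (eb x t).indicator f (x - y)) t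
  have h5 : ∫ y, (eb x t).indicator f (x - y) = ∫ y, (eb x t).indicator f y :=
    integral_sub_left_eq_self _ _ _
  rw [h4, h5, integral_indicator (measurable_eb x t)]
  simp only [smul_eq_mul, Module.finrank_fintype_fun_eq_card, Fintype.card_fin]
  rw [abs_of_pos (by positivity), inv_pow]

theorem int_U1_le {f : V → ℝ} (hf : Continuous f) (hp : Per f) (h0 : ∀ x, 0 ≤ f x) {t : ℝ}
    (ht : 0 < t) (ht1 : t ≤ 1) (x : V) :
    ∫ z in U1, f (x - t • z) ≤ t⁻¹ ^ 3 * (27 * ∫ x in cube, f x) := by
  rw [int_U1_scale ht x]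
  refine mul_le_mul_of_nonneg_left ?_ (by positivity)
  have h1 := eb_int hf hp h0 x
  refine le_trans ?_ h1.2
  refine setIntegral_mono_set h1.1 (Filter.Eventually.of_forall h0) ?_
  refine LE.le.eventuallyLE fun y hy => ?_
  unfold eb at hy ⊢
  rw [mem_ofPred_eq] at hy ⊢
  nlinarith

/-- The mollified gradient is bounded. -/
theorem mo_phi_le {f : V → ℝ} (hf : SP f) {t : ℝ} (ht : 0 < t) (ht1 : t ≤ 1) (x : V) :
    |mo phi t f x| ≤ Real.sqrt (BB * (t⁻¹ ^ 3 * (27 * ∫ x in cube, f x ^ 2))) := by
  refine Real.abs_le_sqrt ?_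
  unfold mo
  have hc : Continuous fun z : V => f (x - t • z) := hf.cont.comp (by fun_prop)
  refine (jensen_phi hc).trans ?_
  have h1 : ∫ z, phi z * f (x - t • z) ^ 2 ≤ ∫ z in U1, BB * f (x - t • z) ^ 2 := by
    rw [← integral_indicator measurable_U1]
    refine integral_mono ((phi_smooth.continuous.mul (hc.pow 2)).integrable_of_hasCompactSupport
      phi_compact.mul_right) (IntegrableOn.integrable_indicator
        (int_U1 (continuous_const.mul (hc.pow 2))) measurable_U1) fun z => ?_
    by_cases hz : z ∈ U1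
    · rw [indicator_of_mem hz]
      exact mul_le_mul_of_nonneg_right ((le_abs_self _).trans (phi_le z)) (sq_nonneg _)
    · rw [indicator_of_notMem hz]
      simp only
      rw [phi_zero (not_lt.1 hz), zero_mul]
  refine h1.trans ?_
  rw [integral_const_mul]
  refine mul_le_mul_of_nonneg_left ?_ (by linarith [one_le_BB])
  exact int_U1_le (f := fun y => f y ^ 2) (hf.cont.pow 2) (fun i x => by simp only [hf.per i x])
    (fun x => sq_nonneg _) ht ht1 x

end

end Pool.Agent.R210
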