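import Pool.Agent.R210.Prod2

/-!
The production of enstrophy: decomposition into scales.
-/

open MeasureTheory Set Metric Filter Topology
open scoped ContDiff ENNReal
open H459R3.NS

namespace Pool.Agent.R210

theorem lap_pd {f : V → ℝ} (hf : SP f) (i : Fin 3) : lap (pd i f) = pd i (lap f) := by
  funext x
  have h1 : pd i (lap f) x = ∑ j, pd i (pd j (pd j f)) x := by
    unfold lap
    exact pd_sum (fun j _ => (hf.pd j).pd j) i x
  rw [h1]
  unfold lap
  refine Finset.sum_congr rfl fun j _ => ?_
  rw [pd_comm hf j i, pd_comm (hf.pd j) j i]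

theorem pd_add' {f g : V → ℝ} (hf : SP f) (hg : SP g) (i : Fin 3) (x : V) :
    pd i (fun y => f y + g y) x = pd i f x + pd i g x := by
  unfold pd
  have h := fderiv_fun_add (𝕜 := ℝ) (hf.diff x) (hg.diff x)
  rw [h]; rfl

theorem cu_add {F G : V → V} (hF : ∀ i, SP (fun x => F x i)) (hG : ∀ i, SP (fun x => G x i))
    (x : V) (j : Fin 3) : cu (fun y => F y + G y) x j = cu F x j + cu G x j := by
  have h : ∀ k m, pd k (fun y => (F y + G y) m) x
      = pd k (fun y => F y m) x + pd k (fun y => G y m) x := fun k m =>
    pd_add' (hF m) (hG m) k x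
  fin_cases j
  · show pd 1 (fun y => (F y + G y) 2) x - pd 2 (fun y => (F y + G y) 1) x
      = (pd 1 (fun y => F y 2) x - pd 2 (fun y => F y 1) x)
        + (pd 1 (fun y => G y 2) x - pd 2 (fun y => G y 1) x)
    rw [h, h]; ring
  · show pd 2 (fun y => (F y + G y) 0) x - pd 0 (fun y => (F y + G y) 2) x
      = (pd 2 (fun y => F y 0) x - pd 0 (fun y => F y 2) x)
        + (pd 2 (fun y => G y 0) x - pd 0 (fun y => G y 2) x)
    rw [h, h]; ring
  · show pd 0 (fun y => (F y + G y) 1) x - pd 1 (fun y => (F y + G y) 0) x
      = (pd 0 (fun y => F y 1) x - pd 1 (fun y => F y 0) x)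
        + (pd 0 (fun y => G y 1) x - pd 1 (fun y => G y 0) x)
    rw [h, h]; ring

/-- Exchange of the integrals. -/
theorem swap_int {H : ℝ → V → ℝ} (hH : Continuous fun p : ℝ × V => H p.1 p.2) {T : ℝ}
    (hT : 0 ≤ T) : ∫ x in cube, ∫ t in (0 : ℝ)..T, H t x = ∫ t in (0 : ℝ)..T, ∫ x in cube, H t x := by
  rw [intervalIntegral.integral_of_le hT]
  simp_rw [intervalIntegral.integral_of_le hT]
  have h1 : Integrable (fun p : V × ℝ => H p.2 p.1)
      ((volume.restrict cube).prod (volume.restrict (Ioc 0 T))) := by
    rw [Measure.prod_restrict]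
    have hc : Continuous fun p : V × ℝ => H p.2 p.1 :=
      hH.comp (continuous_snd.prodMk continuous_fst)
    have h2 : IntegrableOn (fun p : V × ℝ => H p.2 p.1) (cube ×ˢ Icc 0 T)
        (volume.prod volume) := by
      rw [← Measure.volume_eq_prod]
      exact hc.continuousOn.integrableOn_compact (isCompact_Icc.prod isCompact_Icc)
    exact h2.mono_set (prod_mono subset_rfl Ioc_subset_Icc_self)
  exact integral_integral_swap h1

section

variable {v w l : V → V} (hv : ∀ i, SP (fun x => v x i)) (hw : ∀ i, SP (fun x => w x i))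
  (hl : ∀ i, SP (fun x => l x i))

include hv hw hl in
theorem mo_lap (hdiv : ∀ x, dv v x = 0) (hwl : ∀ x, cu v x = w x + l x) (i j : Fin 3) (t : ℝ)
    (x : V) : mo psi t (lap (pd i (fun y => v y j))) x
      = -mo psi t (pd i (fun y => cu w y j)) x - mo psi t (pd i (fun y => cu l y j)) x := by
  have e1 : lap (pd i (fun y => v y j))
      = fun y => -(pd i (fun y => cu w y j) y + pd i (fun y => cu l y j) y) := by
    rw [lap_pd (hv j)]
    have e2 : lap (fun y => v y j) = fun y => -(cu w y j + cu l y j) := by
      funext y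
      rw [lap_curl hv hdiv, ← cu_add hw hl]
      have : cu v = fun y => w y + l y := funext hwl
      rw [this]
    rw [e2]
    funext y
    have e3 : pd i (fun y => -(cu w y j + cu l y j)) y = -pd i (fun y => cu w y j + cu l y j) y := by
      unfold pd
      have := fderiv_fun_neg (𝕜 := ℝ) (f := fun y => cu w y j + cu l y j) (x := y)
      rw [this]; rfl
    rw [e3, pd_add' (sp_cu hw j) (sp_cu hl j)]
  rw [e1]
  have h1 := mo_add psi_smooth.continuous psi_compact ((sp_cu hw j).pd i).cont
    ((sp_cu hl j).pd i).cont t x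
  have h2 : mo psi t (fun y => -(pd i (fun y => cu w y j) y + pd i (fun y => cu l y j) y)) x
      = -mo psi t (fun y => pd i (fun y => cu w y j) y + pd i (fun y => cu l y j) y) x := by
    unfold mo
    rw [← integral_neg]
    congr 1; funext z; ring
  rw [h2, h1]; ring

include hw hl in
theorem Zf_cont : Continuous fun p : ℝ × V => Zf w l p.1 p.2 := by
  unfold Zf
  refine continuous_finsetSum _ fun i _ => continuous_finsetSum _ fun j _ => ?_
  refine Continuous.mul (Continuous.mul ?_ ?_) ?_
  · exact (hw i).cont.comp continuous_snd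
  · exact (hw j).cont.comp continuous_snd
  · exact mo_cont psi_smooth.continuous psi_compact ((sp_cu hl j).pd i).cont ((sp_cu hl j).pd i).per

/-- The production of enstrophy by the field `w`. -/
noncomputable def Nw (w v : V → V) : ℝ :=
  ∫ x in cube, ∑ i, ∑ j, w x i * w x j * pd i (fun y => v y j) x

include hv hw hl in
/-- The production as a sum of the contributions of the scales. -/
theorem Nw_eq (hdiv : ∀ x, dv v x = 0) (hwl : ∀ x, cu v x = w x + l x) {T : ℝ} (hT : 0 ≤ T) :
    Nw w v = (∫ x in cube, ∑ i, ∑ j, w x i * w x j * mo phi T (pd i (fun y => v y j)) x)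
      + ∫ t in (0 : ℝ)..T, (-(t * ∫ x in cube, Zf w w t x) - t * ∫ x in cube, Zf w l t x) := by
  have hZw := Zf_cont hw hw
  have hZl := Zf_cont hw hl
  have hm : ∀ i j, SP (mo phi T (pd i (fun y => v y j))) := fun i j =>
    sp_mo phi_smooth.continuous phi_compact ((hv j).pd i) T
  have hpt : ∀ x, ∑ i, ∑ j, w x i * w x j * pd i (fun y => v y j) x
      = (∑ i, ∑ j, w x i * w x j * mo phi T (pd i (fun y => v y j)) x)
        + ∫ t in (0 : ℝ)..T, (-(t * Zf w w t x) - t * Zf w l t x) := by
    intro x
    have hcont : ∀ i j, Continuous fun t => mo psi t (lap (pd i (fun y => v y j))) x := fun i j =>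
      (mo_cont psi_smooth.continuous psi_compact ((hv j).pd i).lap.cont
        ((hv j).pd i).lap.per).comp (continuous_id.prodMk continuous_const)
    have hc1 : ∀ i j, Continuous fun t => w x i * w x j
        * (t * mo psi t (lap (pd i (fun y => v y j))) x) := fun i j =>
      continuous_const.mul (continuous_id.mul (hcont i j))
    have hc2 : ∀ i, Continuous fun t => ∑ j, w x i * w x j
        * (t * mo psi t (lap (pd i (fun y => v y j))) x) := fun i =>
      continuous_finsetSum _ fun j _ => hc1 i j
    have h1 : ∀ i j, w x i * w x j * pd i (fun y => v y j) x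
        = w x i * w x j * mo phi T (pd i (fun y => v y j)) x
          + ∫ t in (0 : ℝ)..T, w x i * w x j * (t * mo psi t (lap (pd i (fun y => v y j))) x) := by
      intro i j
      rw [intervalIntegral.integral_const_mul, ← mul_add, ← mo_repr ((hv j).pd i) T x]
    have h2 : ∀ i, ∑ j, w x i * w x j * pd i (fun y => v y j) x
        = (∑ j, w x i * w x j * mo phi T (pd i (fun y => v y j)) x)
          + ∫ t in (0 : ℝ)..T, ∑ j, w x i * w x j
            * (t * mo psi t (lap (pd i (fun y => v y j))) x) := by
      intro i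
      rw [intervalIntegral.integral_finsetSum fun j _ => (hc1 i j).intervalIntegrable _ _,
        ← Finset.sum_add_distrib]
      exact Finset.sum_congr rfl fun j _ => h1 i j
    have h3 : ∑ i, ∑ j, w x i * w x j * pd i (fun y => v y j) x
        = (∑ i, ∑ j, w x i * w x j * mo phi T (pd i (fun y => v y j)) x)
          + ∫ t in (0 : ℝ)..T, ∑ i, ∑ j, w x i * w x j
            * (t * mo psi t (lap (pd i (fun y => v y j))) x) := by
      rw [intervalIntegral.integral_finsetSum fun i _ => (hc2 i).intervalIntegrable _ _,
        ← Finset.sum_add_distrib]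
      exact Finset.sum_congr rfl fun i _ => h2 i
    rw [h3]
    congr 1
    refine intervalIntegral.integral_congr fun t _ => ?_
    unfold Zf
    rw [Finset.mul_sum, Finset.mul_sum, ← Finset.sum_neg_distrib, ← Finset.sum_sub_distrib]
    refine Finset.sum_congr rfl fun i _ => ?_
    rw [Finset.mul_sum, Finset.mul_sum, ← Finset.sum_neg_distrib, ← Finset.sum_sub_distrib]
    refine Finset.sum_congr rfl fun j _ => ?_
    rw [mo_lap hv hw hl hdiv hwl]
    ring
  unfold Nw
  simp_rw [hpt]
  have hHc : Continuous fun p : ℝ × V => -(p.1 * Zf w w p.1 p.2) - p.1 * Zf w l p.1 p.2 :=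
    ((continuous_fst.mul hZw).neg).sub (continuous_fst.mul hZl)
  have hIc : Continuous fun x => ∫ t in (0 : ℝ)..T, (-(t * Zf w w t x) - t * Zf w l t x) := by
    have := intervalIntegral.continuous_parametric_intervalIntegral_of_continuous'
      (μ := volume) (f := fun (x : V) (t : ℝ) => -(t * Zf w w t x) - t * Zf w l t x)
      (hHc.comp (continuous_snd.prodMk continuous_fst)) 0 T
    exact this
  rw [integral_add (SP.sum fun i _ => SP.sum fun j _ => ((hw i).mul (hw j)).mul (hm i j)).int
    (integrableOn_cube hIc), swap_int hHc hT]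
  congr 1
  refine intervalIntegral.integral_congr fun t _ => ?_
  have c1 : Continuous fun x => Zf w w t x := hZw.comp (continuous_const.prodMk continuous_id)
  have c2 : Continuous fun x => Zf w l t x := hZl.comp (continuous_const.prodMk continuous_id)
  have i1 : IntegrableOn (fun x => -(t * Zf w w t x)) cube :=
    integrableOn_cube (continuous_const.mul c1).neg
  have i2 : IntegrableOn (fun x => t * Zf w l t x) cube := integrableOn_cube (continuous_const.mul c2)
  rw [integral_sub i1 i2, integral_neg, integral_const_mul, integral_const_mul]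

end

end Pool.Agent.R210
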