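import Pool.Agent.R210.Prod4

/-!
The production of enstrophy: the estimate with a free scale.
-/

open MeasureTheory Set Metric Filter Topology
open scoped ContDiff ENNReal
open H459R3.NS

namespace Pool.Agent.R210

section

variable {w : V → V} (hw : ∀ i, SP (fun x => w x i))

include hw in
theorem S_le {c β T t Y q : ℝ} (hcoh : CohV w c β) (hβ0 : 0 < β) (hβ1 : β ≤ 1) (hc : 1 ≤ c)
    (hT : T ≤ 1) (hκ : c * T ^ β ≤ kap β) (ht : 0 < t) (htT : t ≤ T)
    (hY : Y = ∫ x in cube, rsq (w x))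
    (hq : q = Real.sqrt Y * Real.sqrt (∫ x in cube, dv w x ^ 2)) (x : V) :
    ∫ z in U1, en (w (x - t • z)) ≤ CG β * Rf c β Y q t := by
  have hk : c * t ^ β ≤ kap β :=
    (mul_le_mul_of_nonneg_left (Real.rpow_le_rpow ht.le htT hβ0.le) (by linarith)).trans hκ
  have h1 := flux_per hw hcoh hβ0 hβ1 hc ht (htT.trans hT) hk x
  rw [← hY, ← hq] at h1
  rw [int_U1_scale (f := fun y => en (w y)) ht x, ← Rf_eq ht]
  have h2 : 0 ≤ t⁻¹ ^ 3 := by positivity
  have h3 := mul_le_mul_of_nonneg_left h1 h2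
  refine h3.trans (le_of_eq ?_)
  ring

include hw in
theorem mo_phi_S (t : ℝ) (x : V) :
    mo phi t (fun y => en (w y)) x ≤ BB * ∫ z in U1, en (w (x - t • z)) := by
  unfold mo
  have hc : Continuous fun z : V => en (w (x - t • z)) :=
    (fshift_cont hw t).comp (continuous_const.prodMk continuous_id)
  rw [← integral_const_mul, ← integral_indicator measurable_U1]
  refine integral_mono ((phi_smooth.continuous.mul hc).integrable_of_hasCompactSupport
    phi_compact.mul_right) (IntegrableOn.integrable_indicator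
      (int_U1 (continuous_const.mul hc)) measurable_U1) fun z => ?_
  by_cases hz : z ∈ U1
  · rw [indicator_of_mem hz]
    exact mul_le_mul_of_nonneg_right ((le_abs_self _).trans (phi_le z)) (en_nonneg _)
  · rw [indicator_of_notMem hz]
    simp only
    rw [phi_zero (not_lt.1 hz), zero_mul]

end

theorem X3_le {β : ℝ} (hβ0 : 0 < β) (hβ1 : β ≤ 1) : ∃ C : ℝ, 0 < C ∧
    ∀ (w : V → V) (c T ρ Y q : ℝ), (∀ i, SP (fun x => w x i)) → CohV w c β → 1 ≤ c → T ≤ 1 →
      c * T ^ β ≤ kap β → 0 < ρ → ρ ≤ T → Y = ∫ x in cube, rsq (w x) →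
      q = Real.sqrt Y * Real.sqrt (∫ x in cube, dv w x ^ 2) →
      ∫ x in cube, en (w x) ^ 3
        ≤ C * (Rf c β Y q ρ * (ρ ^ 2 * (∫ x in cube, G2 w x) + Y)) := by
  obtain ⟨C, hC0, hC⟩ := L3_le (s := (3 - β) / 2) (by linarith) (by linarith)
  have hB := one_le_BB
  have hG := CG_pos β
  refine ⟨C * (BB * CG β), by positivity, fun w c T ρ Y q hw hcoh hc hT hκ hρ hρT hY hq => ?_⟩
  have hR := Rf_nonneg c β Y q ρ
  have hq0 : 0 ≤ q := by rw [hq]; positivity
  have h1 := hC w ρ (BB * CG β * Rf c β Y q ρ) hw hρ (by positivity) fun τ hτ0 hτρ x => by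
    refine (mo_phi_S hw τ x).trans ?_
    have h2 := S_le hw hcoh hβ0 hβ1 hc hT hκ hτ0 (hτρ.trans hρT) hY hq x
    have h3 := Rf_small (c := c) (Y := Y) hq0 hβ1 hτ0 hτρ
    calc BB * ∫ z in U1, en (w (x - τ • z)) ≤ BB * (CG β * Rf c β Y q τ) :=
          mul_le_mul_of_nonneg_left h2 (by linarith)
      _ ≤ BB * (CG β * (Rf c β Y q ρ * (ρ / τ) ^ ((3 - β) / 2))) := by
          refine mul_le_mul_of_nonneg_left (mul_le_mul_of_nonneg_left h3 hG.le) (by linarith)
      _ = _ := by ring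
  rw [← hY] at h1
  refine h1.trans (le_of_eq ?_)
  ring

theorem rsq_sum_le {a : V} {m : Fin 3 → Fin 3 → ℝ} {M : ℝ} (hm : ∀ i j, |m i j| ≤ M) :
    |∑ i, ∑ j, a i * a j * m i j| ≤ 3 * M * rsq a := by
  have hM : 0 ≤ M := (abs_nonneg _).trans (hm 0 0)
  have h1 : ∀ i j, |a i * a j * m i j| ≤ M * ((a i ^ 2 + a j ^ 2) / 2) := by
    intro i j
    rw [abs_mul, mul_comm M]
    refine mul_le_mul ?_ (hm i j) (abs_nonneg _) (by positivity)
    rw [abs_le]
    constructor
    · nlinarith [sq_nonneg (a i + a j)]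
    · nlinarith [sq_nonneg (a i - a j)]
  refine (Finset.abs_sum_le_sum_abs _ _).trans ((Finset.sum_le_sum fun i _ =>
    (Finset.abs_sum_le_sum_abs _ _).trans (Finset.sum_le_sum fun j _ => h1 i j)).trans
      (le_of_eq ?_))
  simp only [rsq, Fin.sum_univ_three]
  ring

theorem en_term_le (v : V → V) (i j : Fin 3) :
    ∫ x in cube, pd i (fun y => v y j) x ^ 2 ≤ enstrophy v := by
  unfold enstrophy
  refine le_trans ?_ (Finset.single_le_sum (f := fun i => ∑ j, ∫ x in cube,
    pd j (fun y => v y i) x ^ 2) (fun i _ => Finset.sum_nonneg fun j _ =>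
      integral_nonneg fun x => sq_nonneg _) (Finset.mem_univ j))
  exact Finset.single_le_sum (f := fun i => ∫ x in cube, pd i (fun y => v y j) x ^ 2)
    (fun i _ => integral_nonneg fun x => sq_nonneg _) (Finset.mem_univ i)

/-- The estimate of the production with a free scale. -/
theorem prod_main {β : ℝ} (hβ0 : 0 < β) (hβ1 : β < 1) : ∃ C : ℝ, 0 < C ∧
    ∀ (v w l : V → V) (c T ρ Y q L : ℝ), (∀ i, SP (fun x => v x i)) →
      (∀ i, SP (fun x => w x i)) → (∀ i, SP (fun x => l x i)) → (∀ x, dv v x = 0) →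
      (∀ x, cu v x = w x + l x) → (∀ x i, |l x i| ≤ L) → CohV w c β → 1 ≤ c → T ≤ 1 →
      c * T ^ β ≤ kap β → 0 < ρ → ρ ≤ T → Y = ∫ x in cube, rsq (w x) →
      q = Real.sqrt Y * Real.sqrt (∫ x in cube, dv w x ^ 2) →
      |Nw w v| ≤ C * (c * ρ ^ β * (Rf c β Y q ρ * (ρ ^ 2 * (∫ x in cube, G2 w x) + Y)))
        + 3 * Real.sqrt (BB * (T⁻¹ ^ 3 * (27 * enstrophy v))) * Y
        + T * (36 * BB * vU * L * (Real.sqrt (∫ x in cube, G2 w x) * Real.sqrt Y)) := by
  obtain ⟨C3, hC30, hC3⟩ := X3_le hβ0 hβ1.le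
  have hB := one_le_BB
  have hG := CG_pos β
  have hvU := vU_nonneg
  have h1β : 0 < 1 - β := by linarith
  refine ⟨3 * BB * (vU * C3 / β + CG β / (1 - β)), by positivity,
    fun v w l c T ρ Y q L hv hw hl hdiv hwl hL hcoh hc hT hκ hρ hρT hY hq => ?_⟩
  have hT0 : 0 < T := hρ.trans_le hρT
  have hR := Rf_nonneg c β Y q ρ
  have hc0 : 0 ≤ c := by linarith
  have hY0 : 0 ≤ Y := by rw [hY]; exact integral_nonneg fun x => rsq_nonneg _
  have hq0 : 0 ≤ q := by rw [hq]; positivity
  set G := ∫ x in cube, G2 w x with hGd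
  have hG0 : 0 ≤ G := integral_nonneg fun x => G2_nonneg _ _
  set R := Rf c β Y q ρ with hRd
  set X := ρ ^ 2 * G + Y with hX
  have hX0 : 0 ≤ X := by positivity
  have h3 := hC3 w c T ρ Y q hw hcoh hc hT hκ hρ hρT hY hq
  rw [← hGd, ← hX, ← hRd] at h3
  -- the term of scale one
  set M := Real.sqrt (BB * (T⁻¹ ^ 3 * (27 * enstrophy v))) with hM
  have hMle : ∀ x i j, |mo phi T (pd i (fun y => v y j)) x| ≤ M := by
    intro x i j
    refine (mo_phi_le ((hv j).pd i) hT0 hT x).trans (Real.sqrt_le_sqrt ?_)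
    have := en_term_le v i j
    have h2 : 0 ≤ T⁻¹ ^ 3 := by positivity
    exact mul_le_mul_of_nonneg_left (mul_le_mul_of_nonneg_left (by linarith) h2) (by linarith)
  have hterm1 : |∫ x in cube, ∑ i, ∑ j, w x i * w x j * mo phi T (pd i (fun y => v y j)) x|
      ≤ 3 * M * Y := by
    rw [hY, ← integral_const_mul, ← Real.norm_eq_abs]
    refine norm_integral_le_of_norm_le (integrableOn_cube
      (continuous_const.mul (rsqw_cont hw))) (Filter.Eventually.of_forall fun x => ?_)
    rw [Real.norm_eq_abs]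
    exact rsq_sum_le fun i j => hMle x i j
  -- continuity
  have hcw : Continuous fun t : ℝ => ∫ x in cube, Zf w w t x :=
    continuous_parametric_integral_of_continuous (μ := volume) (f := fun t x => Zf w w t x)
      (Zf_cont hw hw) isCompact_Icc
  have hcl : Continuous fun t : ℝ => ∫ x in cube, Zf w l t x :=
    continuous_parametric_integral_of_continuous (μ := volume) (f := fun t x => Zf w l t x)
      (Zf_cont hw hl) isCompact_Icc
  have hcw' : Continuous fun t : ℝ => t * ∫ x in cube, Zf w w t x := continuous_id.mul hcw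
  have hcl' : Continuous fun t : ℝ => t * ∫ x in cube, Zf w l t x := continuous_id.mul hcl
  -- the small scales
  have hnear : |∫ t in (0 : ℝ)..ρ, t * ∫ x in cube, Zf w w t x|
      ≤ 3 * BB * c * (vU * (C3 * (R * X))) * (ρ ^ β / β) := by
    have e1 : ∫ t in (0 : ℝ)..ρ, 3 * BB * c * (vU * (C3 * (R * X))) * t ^ (β - 1)
        = 3 * BB * c * (vU * (C3 * (R * X))) * (ρ ^ β / β) := by
      rw [intervalIntegral.integral_const_mul, integral_rpow (Or.inl (by linarith))]
      have : β - 1 + 1 = β := by ring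
      rw [this, Real.zero_rpow hβ0.ne', sub_zero]
    rw [← e1, ← Real.norm_eq_abs]
    refine intervalIntegral.norm_integral_le_of_norm_le hρ.le
      (Filter.Eventually.of_forall fun t ht => ?_)
      ((intervalIntegral.intervalIntegrable_rpow' (by linarith)).const_mul _)
    rw [Real.norm_eq_abs]
    refine (Iww_le hw hcoh hc0 hβ0.le ht.1).trans ?_
    have h4 := Aw_near hw t
    have h5 : Aw w t ≤ vU * (C3 * (R * X)) := h4.trans (mul_le_mul_of_nonneg_left h3 hvU)
    have h6 : 0 ≤ 3 * BB * c * t ^ (β - 1) := by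
      have := Real.rpow_nonneg ht.1.le (β - 1)
      positivity
    calc 3 * BB * c * t ^ (β - 1) * Aw w t ≤ 3 * BB * c * t ^ (β - 1) * (vU * (C3 * (R * X))) :=
          mul_le_mul_of_nonneg_left h5 h6
      _ = _ := by ring
  -- the large scales
  have hfar : |∫ t in ρ..T, t * ∫ x in cube, Zf w w t x|
      ≤ 3 * BB * c * (CG β * (R * Y)) * (ρ ^ β / (1 - β)) := by
    have hne : β - 2 ≠ -1 := by intro h; linarith
    have h0 : (0 : ℝ) ∉ uIcc ρ T := by
      rw [uIcc_of_le hρT]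
      intro h
      linarith [h.1]
    have e1 : ∫ t in ρ..T, 3 * BB * c * (CG β * (R * Y)) * ρ * t ^ (β - 2)
        = 3 * BB * c * (CG β * (R * Y)) * ρ * ((ρ ^ (β - 1) - T ^ (β - 1)) / (1 - β)) := by
      rw [intervalIntegral.integral_const_mul, integral_rpow (Or.inr ⟨hne, h0⟩)]
      have : β - 2 + 1 = -(1 - β) := by ring
      rw [this]
      have e2 : -(1 - β) = β - 1 := by ring
      rw [div_neg, ← neg_div, neg_sub, e2]
    have e3 : 3 * BB * c * (CG β * (R * Y)) * ρ * ((ρ ^ (β - 1) - T ^ (β - 1)) / (1 - β))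
        ≤ 3 * BB * c * (CG β * (R * Y)) * (ρ ^ β / (1 - β)) := by
      have e4 : ρ ^ β = ρ * ρ ^ (β - 1) := by
        rw [Real.rpow_sub hρ, Real.rpow_one]; field_simp
      have e6 : (ρ ^ (β - 1) - T ^ (β - 1)) / (1 - β) ≤ ρ ^ (β - 1) / (1 - β) := by
        refine div_le_div_of_nonneg_right ?_ h1β.le
        have := Real.rpow_nonneg hT0.le (β - 1)
        linarith
      have e7 : 0 ≤ 3 * BB * c * (CG β * (R * Y)) * ρ := by positivity
      calc 3 * BB * c * (CG β * (R * Y)) * ρ * ((ρ ^ (β - 1) - T ^ (β - 1)) / (1 - β))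
          ≤ 3 * BB * c * (CG β * (R * Y)) * ρ * (ρ ^ (β - 1) / (1 - β)) :=
            mul_le_mul_of_nonneg_left e6 e7
        _ = _ := by rw [e4]; ring
    rw [← Real.norm_eq_abs]
    refine le_trans ?_ e3
    rw [← e1]
    refine intervalIntegral.norm_integral_le_of_norm_le hρT
      (Filter.Eventually.of_forall fun t ht => ?_)
      ((intervalIntegral.intervalIntegrable_rpow (Or.inr h0)).const_mul _)
    rw [Real.norm_eq_abs]
    have ht0 : 0 < t := hρ.trans ht.1
    refine (Iww_le hw hcoh hc0 hβ0.le ht0).trans ?_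
    have h4 := Aw_far hw t fun x => S_le hw hcoh hβ0 hβ1.le hc hT hκ ht0 ht.2 hY hq x
    rw [← hY] at h4
    have h5 : Aw w t ≤ CG β * (R * (ρ / t)) * Y := by
      refine h4.trans (mul_le_mul_of_nonneg_right (mul_le_mul_of_nonneg_left ?_ hG.le) hY0)
      exact Rf_large hc0 hY0 hβ1.le hρ ht.1.le
    have h6 : 0 ≤ 3 * BB * c * t ^ (β - 1) := by
      have := Real.rpow_nonneg ht0.le (β - 1)
      positivity
    have e5 : t ^ (β - 2) = t ^ (β - 1) / t := by
      have : β - 2 = (β - 1) - 1 := by ring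
      rw [this, Real.rpow_sub ht0 (β - 1) 1, Real.rpow_one]
    calc 3 * BB * c * t ^ (β - 1) * Aw w t
        ≤ 3 * BB * c * t ^ (β - 1) * (CG β * (R * (ρ / t)) * Y) :=
          mul_le_mul_of_nonneg_left h5 h6
      _ = _ := by rw [e5]; ring
  -- the bounded part
  have hlow : |∫ t in (0 : ℝ)..T, t * ∫ x in cube, Zf w l t x|
      ≤ T * (36 * BB * vU * L * (Real.sqrt G * Real.sqrt Y)) := by
    rw [← Real.norm_eq_abs]
    have h4 := intervalIntegral.norm_integral_le_of_norm_le_const (a := (0 : ℝ)) (b := T)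
      (f := fun t => t * ∫ x in cube, Zf w l t x)
      (C := 36 * BB * vU * L * (Real.sqrt G * Real.sqrt Y)) fun t ht => by
        rw [uIoc_of_le hT0.le] at ht
        rw [Real.norm_eq_abs, abs_mul, abs_of_pos ht.1, hY]
        exact Jl_le hw hl hL ht.1.le
    rw [sub_zero, abs_of_pos hT0] at h4
    linarith
  have hsum : |∫ t in (0 : ℝ)..T, (-(t * ∫ x in cube, Zf w w t x) - t * ∫ x in cube, Zf w l t x)|
      ≤ 3 * BB * c * (vU * (C3 * (R * X))) * (ρ ^ β / β)
        + 3 * BB * c * (CG β * (R * Y)) * (ρ ^ β / (1 - β))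
        + T * (36 * BB * vU * L * (Real.sqrt G * Real.sqrt Y)) := by
    have e1 : ∫ t in (0 : ℝ)..T, (-(t * ∫ x in cube, Zf w w t x) - t * ∫ x in cube, Zf w l t x)
        = -((∫ t in (0 : ℝ)..ρ, t * ∫ x in cube, Zf w w t x)
          + ∫ t in ρ..T, t * ∫ x in cube, Zf w w t x)
          - ∫ t in (0 : ℝ)..T, t * ∫ x in cube, Zf w l t x := by
      rw [intervalIntegral.integral_add_adjacent_intervals (hcw'.intervalIntegrable _ _)
        (hcw'.intervalIntegrable _ _), ← intervalIntegral.integral_neg]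
      exact intervalIntegral.integral_sub (hcw'.neg.intervalIntegrable _ _)
        (hcl'.intervalIntegrable _ _)
    rw [e1]
    have a1 := abs_le.1 hnear
    have a2 := abs_le.1 hfar
    have a3 := abs_le.1 hlow
    rw [abs_le]
    constructor
    · linarith [a1.2, a2.2, a3.2]
    · linarith [a1.1, a2.1, a3.1]
  rw [Nw_eq hv hw hl hdiv hwl hT0.le]
  refine (abs_add_le _ _).trans ((add_le_add hterm1 hsum).trans ?_)
  have hYX : Y ≤ X := by
    rw [hX]
    have : 0 ≤ ρ ^ 2 * G := by positivity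
    linarith
  have hρβ := Real.rpow_nonneg hρ.le β
  have h7 : 3 * BB * c * (CG β * (R * Y)) * (ρ ^ β / (1 - β))
      ≤ 3 * BB * c * (CG β * (R * X)) * (ρ ^ β / (1 - β)) := by
    refine mul_le_mul_of_nonneg_right ?_ (by positivity)
    exact mul_le_mul_of_nonneg_left (mul_le_mul_of_nonneg_left
      (mul_le_mul_of_nonneg_left hYX hR) hG.le) (by positivity)
  have e9 : 3 * BB * (vU * C3 / β + CG β / (1 - β)) * (c * ρ ^ β * (R * X))
      = 3 * BB * c * (vU * (C3 * (R * X))) * (ρ ^ β / β)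
        + 3 * BB * c * (CG β * (R * X)) * (ρ ^ β / (1 - β)) := by
    field_simp
  rw [e9]
  linarith

end Pool.Agent.R210
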