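import Pool.Agent.R210.Prod5

/-!
The choice of the scale in the estimate of the production of enstrophy.
-/

open MeasureTheory Set Metric Filter Topology
open scoped ContDiff ENNReal
open H459R3.NS

namespace Pool.Agent.R210

theorem rpow_le_self {m θ : ℝ} (hm : 1 ≤ m) (hθ : θ ≤ 1) : m ^ θ ≤ m := by
  have := Real.rpow_le_rpow_of_exponent_le hm hθ
  rwa [Real.rpow_one] at this

/-- A bound of a power of a product. -/
theorem pow_prod_le {A m θ η : ℝ} (hA : 0 ≤ A) (hm : 1 ≤ m) (hθη : θ * η ≤ 1) :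
    (A * m ^ θ) ^ η ≤ A ^ η * m := by
  have hm0 : 0 ≤ m := by linarith
  rw [Real.mul_rpow hA (Real.rpow_nonneg hm0 _), ← Real.rpow_mul hm0]
  exact mul_le_mul_of_nonneg_left (rpow_le_self hm hθη) (Real.rpow_nonneg hA _)

/-- The choice of the scale. -/
theorem choose_rho {β C k ε B N : ℝ} (hβ0 : 1 / 3 ≤ β) (hβ1 : β < 1) (hC : 0 < C) (hk0 : 0 < k)
    (hk1 : k ≤ 1) (hε : 0 < ε) (hB : 0 ≤ B) (hN : 0 ≤ N) : ∃ C' : ℝ, 0 < C' ∧
    ∀ c m Y q : ℝ, 1 ≤ c → 1 ≤ m → 0 ≤ Y → 0 ≤ q → c ≤ B * m ^ ((3 * β - 1) / 6) → Y ≤ N * m →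
      q ≤ N * m → ∃ ρ T : ℝ, 0 < ρ ∧ ρ ≤ T ∧ T ≤ 1 ∧ c * T ^ β ≤ k ∧ T⁻¹ ^ 3 ≤ C' * m ∧
        ρ⁻¹ ^ 2 ≤ C' * m ∧ C * (c * ρ ^ β * (Rf c β Y q ρ * ρ ^ 2)) ≤ ε := by
  have hβ : 0 < β := by linarith
  set K0 : ℝ := (B / k) ^ (3 / β) with hK0
  set K1 : ℝ := (2 * C ^ 2 * B ^ 3 * N / ε ^ 2) ^ (2 / (3 * β + 1)) with hK1
  set K2 : ℝ := (2 * C ^ 2 * B ^ 2 * N / ε ^ 2) ^ (1 / (β + 1)) with hK2
  have hK00 : 0 ≤ K0 := by positivity
  have hK10 : 0 ≤ K1 := by positivity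
  have hK20 : 0 ≤ K2 := by positivity
  refine ⟨3 * (K0 + K1 + K2) + 1, by positivity, fun c m Y q hc hm hY hq hcm hYm hqm => ?_⟩
  have hc0 : 0 < c := by linarith
  have hm0 : 0 < m := by linarith
  set e : ℝ := (3 * β - 1) / 6 with he
  have he0 : 0 ≤ e := by rw [he]; linarith
  have hme : 0 ≤ m ^ e := Real.rpow_nonneg hm0.le _
  -- the scale one
  set T : ℝ := (k / c) ^ (1 / β) with hT
  have hkc : 0 < k / c := by positivity
  have hkc1 : k / c ≤ 1 := by rw [div_le_one hc0]; linarith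
  have hT0 : 0 < T := Real.rpow_pos_of_pos hkc _
  have hT1 : T ≤ 1 := Real.rpow_le_one hkc.le hkc1 (by positivity)
  have hTβ : T ^ β = k / c := by
    rw [hT, ← Real.rpow_mul hkc.le, one_div, inv_mul_cancel₀ hβ.ne', Real.rpow_one]
  have hTk : c * T ^ β ≤ k := by rw [hTβ]; exact le_of_eq (by field_simp)
  have hTi1 : 1 ≤ T⁻¹ := one_le_inv_iff₀.2 ⟨hT0, hT1⟩
  have hT3 : T⁻¹ ^ 3 ≤ K0 * m := by
    have e1 : T⁻¹ ^ 3 = (c / k) ^ (3 / β) := by
      rw [hT, ← Real.inv_rpow hkc.le, inv_div, ← Real.rpow_natCast, ← Real.rpow_mul (by positivity)]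
      congr 1; push_cast; ring
    rw [e1]
    have h1 : c / k ≤ B / k * m ^ e := by
      rw [div_mul_eq_mul_div]
      exact div_le_div_of_nonneg_right hcm hk0.le
    refine (Real.rpow_le_rpow (by positivity) h1 (by positivity)).trans ?_
    refine pow_prod_le (by positivity) hm ?_
    rw [he]
    have : (3 * β - 1) / 6 * (3 / β) = (3 * β - 1) / (2 * β) := by field_simp; ring
    rw [this, div_le_one (by positivity)]
    linarith
  -- the scale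
  set A1 : ℝ := 2 * C ^ 2 * c ^ 3 * Y / ε ^ 2 with hA1
  set A2 : ℝ := 2 * C ^ 2 * c ^ 2 * q / ε ^ 2 with hA2
  have hA10 : 0 ≤ A1 := by positivity
  have hA20 : 0 ≤ A2 := by positivity
  set r1 : ℝ := A1 ^ (1 / (3 * β + 1)) with hr1
  set r2 : ℝ := A2 ^ (1 / (2 * β + 2)) with hr2
  have hr10 : 0 ≤ r1 := Real.rpow_nonneg hA10 _
  have hr20 : 0 ≤ r2 := Real.rpow_nonneg hA20 _
  set r : ℝ := T⁻¹ + r1 + r2 with hr
  have hr0 : 0 < r := by
    have : 0 < T⁻¹ := by positivity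
    positivity
  have hA1r : A1 ≤ r ^ (3 * β + 1) := by
    have h1 : A1 = r1 ^ (3 * β + 1) := by
      rw [hr1, ← Real.rpow_mul hA10, one_div, inv_mul_cancel₀ (by positivity), Real.rpow_one]
    rw [h1]
    exact Real.rpow_le_rpow hr10 (by rw [hr]; have : 0 < T⁻¹ := by positivity
                                     linarith) (by positivity)
  have hA2r : A2 ≤ r ^ (2 * β + 2) := by
    have h1 : A2 = r2 ^ (2 * β + 2) := by
      rw [hr2, ← Real.rpow_mul hA20, one_div, inv_mul_cancel₀ (by positivity), Real.rpow_one]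
    rw [h1]
    exact Real.rpow_le_rpow hr20 (by rw [hr]; have : 0 < T⁻¹ := by positivity
                                     linarith) (by positivity)
  have hr1s : r1 ^ 2 ≤ K1 * m := by
    have e1 : r1 ^ 2 = A1 ^ (2 / (3 * β + 1)) := by
      rw [hr1, ← Real.rpow_natCast, ← Real.rpow_mul hA10]
      congr 1; push_cast; ring
    rw [e1]
    have h1 : A1 ≤ 2 * C ^ 2 * B ^ 3 * N / ε ^ 2 * m ^ (3 * e + 1) := by
      have h2 : c ^ 3 ≤ (B * m ^ e) ^ 3 := pow_le_pow_left₀ hc0.le hcm 3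
      have h3 : m ^ (3 * e + 1) = (m ^ e) ^ 3 * m := by
        rw [Real.rpow_add hm0, Real.rpow_one]
        congr 1
        rw [← Real.rpow_natCast, ← Real.rpow_mul hm0.le]
        congr 1; push_cast; ring
      have h4 : c ^ 3 * Y ≤ (B * m ^ e) ^ 3 * (N * m) :=
        mul_le_mul h2 hYm hY (by positivity)
      rw [hA1, h3]
      calc 2 * C ^ 2 * c ^ 3 * Y / ε ^ 2 = 2 * C ^ 2 / ε ^ 2 * (c ^ 3 * Y) := by ring
        _ ≤ 2 * C ^ 2 / ε ^ 2 * ((B * m ^ e) ^ 3 * (N * m)) :=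
            mul_le_mul_of_nonneg_left h4 (by positivity)
        _ = _ := by ring
    refine (Real.rpow_le_rpow hA10 h1 (by positivity)).trans ?_
    refine pow_prod_le (by positivity) hm ?_
    have : (3 * e + 1) * (2 / (3 * β + 1)) = 1 := by
      rw [he]; field_simp; ring
    rw [this]
  have hr2s : r2 ^ 2 ≤ K2 * m := by
    have e1 : r2 ^ 2 = A2 ^ (1 / (β + 1)) := by
      rw [hr2, ← Real.rpow_natCast, ← Real.rpow_mul hA20]
      congr 1; push_cast; field_simp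
    rw [e1]
    have h1 : A2 ≤ 2 * C ^ 2 * B ^ 2 * N / ε ^ 2 * m ^ (2 * e + 1) := by
      have h2 : c ^ 2 ≤ (B * m ^ e) ^ 2 := pow_le_pow_left₀ hc0.le hcm 2
      have h3 : m ^ (2 * e + 1) = (m ^ e) ^ 2 * m := by
        rw [Real.rpow_add hm0, Real.rpow_one]
        congr 1
        rw [← Real.rpow_natCast, ← Real.rpow_mul hm0.le]
        congr 1; push_cast; ring
      have h4 : c ^ 2 * q ≤ (B * m ^ e) ^ 2 * (N * m) :=
        mul_le_mul h2 hqm hq (by positivity)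
      rw [hA2, h3]
      calc 2 * C ^ 2 * c ^ 2 * q / ε ^ 2 = 2 * C ^ 2 / ε ^ 2 * (c ^ 2 * q) := by ring
        _ ≤ 2 * C ^ 2 / ε ^ 2 * ((B * m ^ e) ^ 2 * (N * m)) :=
            mul_le_mul_of_nonneg_left h4 (by positivity)
        _ = _ := by ring
    refine (Real.rpow_le_rpow hA20 h1 (by positivity)).trans ?_
    refine pow_prod_le (by positivity) hm ?_
    have : (2 * e + 1) * (1 / (β + 1)) = (3 * β + 2) / (3 * (β + 1)) := by
      rw [he]; field_simp; ring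
    rw [this, div_le_one (by positivity)]
    linarith
  have hT2 : T⁻¹ ^ 2 ≤ K0 * m := by
    refine le_trans ?_ hT3
    exact pow_le_pow_right₀ hTi1 (by norm_num)
  refine ⟨r⁻¹, T, by positivity, ?_, hT1, hTk, ?_, ?_, ?_⟩
  · rw [inv_le_comm₀ hr0 hT0, hr]
    linarith
  · refine hT3.trans (mul_le_mul_of_nonneg_right ?_ hm0.le)
    linarith
  · rw [inv_inv]
    have h1 : r ^ 2 ≤ 3 * (T⁻¹ ^ 2 + r1 ^ 2 + r2 ^ 2) := by
      rw [hr]
      have g1 := sq_nonneg (T⁻¹ - r1)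
      have g2 := sq_nonneg (T⁻¹ - r2)
      have g3 := sq_nonneg (r1 - r2)
      have e9 : 3 * (T⁻¹ ^ 2 + r1 ^ 2 + r2 ^ 2) - (T⁻¹ + r1 + r2) ^ 2
          = (T⁻¹ - r1) ^ 2 + (T⁻¹ - r2) ^ 2 + (r1 - r2) ^ 2 := by ring
      linarith
    have e10 : (3 * (K0 + K1 + K2) + 1) * m = 3 * (K0 * m + K1 * m + K2 * m) + m := by ring
    rw [e10]
    linarith
  · set ρ := r⁻¹ with hρ
    have hρ0 : 0 < ρ := by positivity
    have hR := Rf_nonneg c β Y q ρ
    have hρβ := Real.rpow_nonneg hρ0.le β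
    refine le_of_sq_le_sq ?_ hε.le
    have e1 : (C * (c * ρ ^ β * (Rf c β Y q ρ * ρ ^ 2))) ^ 2
        = C ^ 2 * c ^ 2 * ((ρ ^ β) ^ 2 * ρ ^ 4) * Rf c β Y q ρ ^ 2 := by ring
    have e2 : Rf c β Y q ρ ^ 2 = c * ρ ^ (β - 3) * Y + q / ρ ^ 2 := by
      unfold Rf
      exact Real.sq_sqrt (by have := Real.rpow_nonneg hρ0.le (β - 3); positivity)
    have e3 : (ρ ^ β) ^ 2 * ρ ^ 4 * ρ ^ (β - 3) = ρ ^ (3 * β + 1) := by
      have a1 : (ρ ^ β) ^ 2 = ρ ^ (2 * β) := by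
        rw [← Real.rpow_natCast, ← Real.rpow_mul hρ0.le]; congr 1; push_cast; ring
      have a2 : ρ ^ 4 = ρ ^ (4 : ℝ) := by norm_cast
      rw [a1, a2, ← Real.rpow_add hρ0, ← Real.rpow_add hρ0]
      congr 1; ring
    have e4 : (ρ ^ β) ^ 2 * ρ ^ 4 / ρ ^ 2 = ρ ^ (2 * β + 2) := by
      have a1 : (ρ ^ β) ^ 2 = ρ ^ (2 * β) := by
        rw [← Real.rpow_natCast, ← Real.rpow_mul hρ0.le]; congr 1; push_cast; ring
      have a2 : ρ ^ 2 = ρ ^ (2 : ℝ) := by norm_cast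
      have a3 : (ρ ^ β) ^ 2 * ρ ^ 4 / ρ ^ 2 = (ρ ^ β) ^ 2 * ρ ^ 2 := by field_simp
      rw [a3, a1, a2, ← Real.rpow_add hρ0]
    have e5 : C ^ 2 * c ^ 2 * ((ρ ^ β) ^ 2 * ρ ^ 4) * (c * ρ ^ (β - 3) * Y + q / ρ ^ 2)
        = ε ^ 2 / 2 * (A1 * ρ ^ (3 * β + 1) + A2 * ρ ^ (2 * β + 2)) := by
      rw [← e3, ← e4, hA1, hA2]
      field_simp
    rw [e1, e2, e5]
    have h1 : A1 * ρ ^ (3 * β + 1) ≤ 1 := by
      rw [hρ, Real.inv_rpow hr0.le, ← div_eq_mul_inv, div_le_one (Real.rpow_pos_of_pos hr0 _)]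
      exact hA1r
    have h2 : A2 * ρ ^ (2 * β + 2) ≤ 1 := by
      rw [hρ, Real.inv_rpow hr0.le, ← div_eq_mul_inv, div_le_one (Real.rpow_pos_of_pos hr0 _)]
      exact hA2r
    have h3 : 0 < ε ^ 2 := by positivity
    nlinarith

/-- The estimate of the production. -/
theorem prod_final {β ε B N L : ℝ} (hβ0 : 1 / 3 ≤ β) (hβ1 : β < 1) (hε : 0 < ε) (hB : 0 ≤ B)
    (hN : 0 ≤ N) (hL0 : 0 ≤ L) : ∃ C' : ℝ, 0 ≤ C' ∧
    ∀ (v w l : V → V) (c m : ℝ), (∀ i, SP (fun x => v x i)) →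
      (∀ i, SP (fun x => w x i)) → (∀ i, SP (fun x => l x i)) → (∀ x, dv v x = 0) →
      (∀ x, cu v x = w x + l x) → (∀ x i, |l x i| ≤ L) → CohV w c β → 1 ≤ c → 1 ≤ m →
      c ≤ B * m ^ ((3 * β - 1) / 6) → ∫ x in cube, rsq (w x) ≤ N * m →
      ∫ x in cube, dv w x ^ 2 ≤ N * m → enstrophy v ≤ m →
      |Nw w v| ≤ ε * (∫ x in cube, G2 w x) + C' * m * ∫ x in cube, rsq (w x) := by
  have hβ : 0 < β := by linarith
  obtain ⟨C, hC0, hC⟩ := prod_main hβ hβ1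
  have hk := kap_pos β
  obtain ⟨C1, hC10, hC1⟩ := choose_rho (C := C) (k := min (kap β) 1) (ε := ε / 2) (B := B) (N := N)
    hβ0 hβ1 hC0 (lt_min hk one_pos) (min_le_right _ _) (by positivity) hB hN
  have hBB := one_le_BB
  have hvU := vU_nonneg
  set P : ℝ := 36 * BB * vU * L with hP
  have hP0 : 0 ≤ P := by positivity
  refine ⟨ε / 2 * C1 + 3 * Real.sqrt (BB * (C1 * 27)) + P ^ 2 / (2 * ε), by positivity,
    fun v w l c m hv hw hl hdiv hwl hL hcoh hc hm hcm hYm hZm hym => ?_⟩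
  have hm0 : 0 < m := by linarith
  set Y := ∫ x in cube, rsq (w x) with hY
  set Z := ∫ x in cube, dv w x ^ 2 with hZ
  set G := ∫ x in cube, G2 w x with hG
  have hY0 : 0 ≤ Y := integral_nonneg fun x => rsq_nonneg _
  have hZ0 : 0 ≤ Z := integral_nonneg fun x => sq_nonneg _
  have hG0 : 0 ≤ G := integral_nonneg fun x => G2_nonneg _ _
  set q := Real.sqrt Y * Real.sqrt Z with hq
  have hq0 : 0 ≤ q := by positivity
  have hqm : q ≤ N * m := by
    have h1 : Real.sqrt Y ≤ Real.sqrt (N * m) := Real.sqrt_le_sqrt hYm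
    have h2 : Real.sqrt Z ≤ Real.sqrt (N * m) := Real.sqrt_le_sqrt hZm
    calc q ≤ Real.sqrt (N * m) * Real.sqrt (N * m) :=
          mul_le_mul h1 h2 (Real.sqrt_nonneg _) (Real.sqrt_nonneg _)
      _ = N * m := Real.mul_self_sqrt (by positivity)
  obtain ⟨ρ, T, hρ0, hρT, hT1, hTk, hT3, hρ2, hmain⟩ := hC1 c m Y q hc hm hY0 hq0 hcm hYm hqm
  have hT0 : 0 < T := hρ0.trans_le hρT
  have h1 := hC v w l c T ρ Y q L hv hw hl hdiv hwl hL hcoh hc hT1
    (hTk.trans (min_le_left _ _)) hρ0 hρT hY hq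
  rw [← hG, ← hP] at h1
  have a1 : C * (c * ρ ^ β * (Rf c β Y q ρ * (ρ ^ 2 * G + Y)))
      ≤ ε / 2 * G + ε / 2 * C1 * m * Y := by
    have e1 : C * (c * ρ ^ β * (Rf c β Y q ρ * (ρ ^ 2 * G + Y)))
        = C * (c * ρ ^ β * (Rf c β Y q ρ * ρ ^ 2)) * (G + ρ⁻¹ ^ 2 * Y) := by
      field_simp
    rw [e1]
    have h2 : 0 ≤ G + ρ⁻¹ ^ 2 * Y := by positivity
    calc C * (c * ρ ^ β * (Rf c β Y q ρ * ρ ^ 2)) * (G + ρ⁻¹ ^ 2 * Y)
        ≤ ε / 2 * (G + ρ⁻¹ ^ 2 * Y) := mul_le_mul_of_nonneg_right hmain h2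
      _ ≤ ε / 2 * (G + C1 * m * Y) := by
          refine mul_le_mul_of_nonneg_left ?_ (by positivity)
          have := mul_le_mul_of_nonneg_right hρ2 hY0
          linarith
      _ = _ := by ring
  have a2 : 3 * Real.sqrt (BB * (T⁻¹ ^ 3 * (27 * enstrophy v))) * Y
      ≤ 3 * Real.sqrt (BB * (C1 * 27)) * m * Y := by
    refine mul_le_mul_of_nonneg_right ?_ hY0
    have h2 : BB * (T⁻¹ ^ 3 * (27 * enstrophy v)) ≤ BB * (C1 * 27) * m ^ 2 := by
      have h3 : T⁻¹ ^ 3 * (27 * enstrophy v) ≤ C1 * m * (27 * m) :=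
        mul_le_mul hT3 (by linarith) (mul_nonneg (by norm_num) (enstrophy_nonneg _))
          (by positivity)
      calc BB * (T⁻¹ ^ 3 * (27 * enstrophy v)) ≤ BB * (C1 * m * (27 * m)) :=
            mul_le_mul_of_nonneg_left h3 (by linarith)
        _ = _ := by ring
    have h3 := Real.sqrt_le_sqrt h2
    rw [Real.sqrt_mul (by positivity : 0 ≤ BB * (C1 * 27)), Real.sqrt_sq hm0.le] at h3
    linarith
  have a3 : T * (P * (Real.sqrt G * Real.sqrt Y)) ≤ ε / 2 * G + P ^ 2 / (2 * ε) * m * Y := by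
    have h2 : T * (P * (Real.sqrt G * Real.sqrt Y)) ≤ P * (Real.sqrt G * Real.sqrt Y) :=
      mul_le_of_le_one_left (by positivity) hT1
    refine h2.trans ?_
    have eG := Real.sq_sqrt hG0
    have eY := Real.sq_sqrt hY0
    have h3 : ε / 2 * G + P ^ 2 / (2 * ε) * Y - P * (Real.sqrt G * Real.sqrt Y)
        = (ε * Real.sqrt G - P * Real.sqrt Y) ^ 2 / (2 * ε) := by
      have : (ε * Real.sqrt G - P * Real.sqrt Y) ^ 2
          = ε ^ 2 * G - 2 * ε * P * (Real.sqrt G * Real.sqrt Y) + P ^ 2 * Y := by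
        calc (ε * Real.sqrt G - P * Real.sqrt Y) ^ 2
            = ε ^ 2 * Real.sqrt G ^ 2 - 2 * ε * P * (Real.sqrt G * Real.sqrt Y)
              + P ^ 2 * Real.sqrt Y ^ 2 := by ring
          _ = _ := by rw [eG, eY]
      rw [this]
      field_simp
      ring
    have h4 : 0 ≤ (ε * Real.sqrt G - P * Real.sqrt Y) ^ 2 / (2 * ε) := by positivity
    have h5 : P ^ 2 / (2 * ε) * Y ≤ P ^ 2 / (2 * ε) * m * Y := by
      have : 0 ≤ P ^ 2 / (2 * ε) := by positivity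
      refine mul_le_mul_of_nonneg_right ?_ hY0
      exact le_mul_of_one_le_right this hm
    linarith
  refine h1.trans ?_
  calc _ ≤ (ε / 2 * G + ε / 2 * C1 * m * Y) + 3 * Real.sqrt (BB * (C1 * 27)) * m * Y
        + (ε / 2 * G + P ^ 2 / (2 * ε) * m * Y) := add_le_add (add_le_add a1 a2) a3
    _ = _ := by ring

end Pool.Agent.R210
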