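import Pool.Agent.R210.N2

/-!
The flux of a nearly unidirectional divergence free field and the Morrey bound.
-/

open MeasureTheory Set Metric Filter Topology
open scoped ContDiff RealInnerProductSpace
open H459R3.NS

namespace Pool.Agent.R210

theorem dhh_formula (s : ℝ) : deriv hh s = -((1 - s)⁻¹ ^ 2 * hh s) := by
  have h1 := expNegInvGlue.hasDerivAt_polynomial_eval_inv_mul 1 (1 - s)
  simp only [Polynomial.eval_one, one_mul, Polynomial.derivative_one, sub_zero, mul_one,
    Polynomial.eval_pow, Polynomial.eval_X] at h1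
  have h2 : HasDerivAt (fun s : ℝ => 1 - s) (-1) s := by
    simpa using (hasDerivAt_id s).const_sub 1
  have h3 := h1.comp s h2
  have h4 : deriv hh s = (1 - s)⁻¹ ^ 2 * expNegInvGlue (1 - s) * -1 := h3.deriv
  rw [h4]
  unfold hh
  ring

/-- The lower bound of the derivative of the step. -/
noncomputable def c1 : ℝ := 4 / 9 * hh (1 / 2)

theorem c1_pos : 0 < c1 := by
  have : 0 < hh (1 / 2) := hh_pos (by norm_num)
  unfold c1
  positivity

theorem dhh_ge {s : ℝ} (h1 : -(1 / 2) ≤ s) (h2 : s ≤ 1 / 2) : c1 ≤ -deriv hh s := by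
  rw [dhh_formula, neg_neg]
  unfold c1
  have h3 : hh (1 / 2) ≤ hh s := hh_anti h2
  have h4 : (2 / 3 : ℝ) ≤ (1 - s)⁻¹ := by
    rw [le_inv_comm₀ (by norm_num) (by linarith)]
    linarith
  have h5 : (4 / 9 : ℝ) ≤ (1 - s)⁻¹ ^ 2 := by nlinarith
  exact mul_le_mul h5 h3 (hh_nonneg _) (by positivity)

/-- The test function. -/
noncomputable def tq (r R : ℝ) (e x y : E) : ℝ :=
  hh (-⟪e, y - x⟫ / r) * hh (4 * ⟪e, y - x⟫ ^ 2 / R ^ 2)
    * hh (1 + ((‖y - x‖ ^ 2 - ⟪e, y - x⟫ ^ 2) - (r + ⟪e, y - x⟫ / 2) ^ 2) / r ^ 2)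

theorem tq_smooth (r R : ℝ) (e x : E) : ContDiff ℝ ∞ (tq r R e x) := by
  have h1 : ContDiff ℝ ∞ fun y : E => ⟪e, y - x⟫ :=
    (contDiff_const.inner ℝ (contDiff_id.sub contDiff_const))
  have h2 : ContDiff ℝ ∞ fun y : E => ‖y - x‖ ^ 2 :=
    (contDiff_norm_sq ℝ).comp (contDiff_id.sub contDiff_const)
  refine ((hh_smooth.comp ?_).mul (hh_smooth.comp ?_)).mul (hh_smooth.comp ?_)
  · exact h1.neg.div_const _
  · exact (contDiff_const.mul (h1.pow 2)).div_const _
  · exact contDiff_const.add (((h2.sub (h1.pow 2)).sub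
      ((contDiff_const.add (h1.div_const 2)).pow 2)).div_const _)

theorem tq_supp {r R : ℝ} {e x y : E} (hr : 0 < r) (hrR : 8 * r ≤ R)
    (h : tq r R e x y ≠ 0) : ‖y - x‖ < 5 / 8 * R := by
  have hR : 0 < R := by linarith
  unfold tq at h
  set ζ : ℝ := ⟪e, y - x⟫ with hζ
  have h1 : hh (-ζ / r) ≠ 0 := left_ne_zero_of_mul (left_ne_zero_of_mul h)
  have h2 : hh (4 * ζ ^ 2 / R ^ 2) ≠ 0 := right_ne_zero_of_mul (left_ne_zero_of_mul h)
  have h3 := right_ne_zero_of_mul h
  have g1 : -ζ / r < 1 := by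
    by_contra hc
    exact h1 (hh_zero (not_lt.1 hc))
  have g2 : 4 * ζ ^ 2 / R ^ 2 < 1 := by
    by_contra hc
    exact h2 (hh_zero (not_lt.1 hc))
  have g3 : ((‖y - x‖ ^ 2 - ζ ^ 2) - (r + ζ / 2) ^ 2) / r ^ 2 < 0 := by
    by_contra hc
    exact h3 (hh_zero (by linarith))
  rw [div_lt_iff₀ hr] at g1
  rw [div_lt_iff₀ (by positivity)] at g2
  rw [div_lt_iff₀ (by positivity)] at g3
  have g4 : ζ < R / 2 := by nlinarith
  have g5 : 0 < r + ζ / 2 := by linarith
  have g6 : r + ζ / 2 < 3 / 8 * R := by linarith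
  have g7 : (r + ζ / 2) ^ 2 < (3 / 8 * R) ^ 2 := pow_lt_pow_left₀ g6 g5.le two_ne_zero
  have g8 : ‖y - x‖ ^ 2 < (5 / 8 * R) ^ 2 := by nlinarith
  exact lt_of_pow_lt_pow_left₀ 2 (by positivity) g8

theorem tq_tsupp {r R : ℝ} {e x : E} (hr : 0 < r) (hrR : 8 * r ≤ R) :
    tsupport (tq r R e x) ⊆ closedBall x (5 / 8 * R) := by
  refine closure_minimal (fun y hy => ?_) isClosed_closedBall
  rw [mem_closedBall, dist_eq_norm]
  exact (tq_supp hr hrR hy).le

theorem tq_tsupp' {r R : ℝ} {e x : E} (hr : 0 < r) (hrR : 8 * r ≤ R) :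
    tsupport (tq r R e x) ⊆ ball x R :=
  (tq_tsupp hr hrR).trans (closedBall_subset_ball (by linarith))

theorem tq_compact {r R : ℝ} {e x : E} (hr : 0 < r) (hrR : 8 * r ≤ R) :
    HasCompactSupport (tq r R e x) :=
  HasCompactSupport.of_support_subset_isCompact (isCompact_closedBall x (5 / 8 * R))
    ((subset_tsupport _).trans (tq_tsupp hr hrR))

theorem tq_fderiv (r R : ℝ) (e x y w : E) : fderiv ℝ (tq r R e x) y w
    = deriv hh (-⟪e, y - x⟫ / r) * (-⟪e, w⟫ / r) * hh (4 * ⟪e, y - x⟫ ^ 2 / R ^ 2)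
        * hh (1 + ((‖y - x‖ ^ 2 - ⟪e, y - x⟫ ^ 2) - (r + ⟪e, y - x⟫ / 2) ^ 2) / r ^ 2)
      + hh (-⟪e, y - x⟫ / r) * (deriv hh (4 * ⟪e, y - x⟫ ^ 2 / R ^ 2)
          * (8 * ⟪e, y - x⟫ * ⟪e, w⟫ / R ^ 2))
        * hh (1 + ((‖y - x‖ ^ 2 - ⟪e, y - x⟫ ^ 2) - (r + ⟪e, y - x⟫ / 2) ^ 2) / r ^ 2)
      + hh (-⟪e, y - x⟫ / r) * hh (4 * ⟪e, y - x⟫ ^ 2 / R ^ 2)
        * (deriv hh (1 + ((‖y - x‖ ^ 2 - ⟪e, y - x⟫ ^ 2) - (r + ⟪e, y - x⟫ / 2) ^ 2) / r ^ 2)
          * ((2 * (⟪y - x, w⟫ - ⟪e, y - x⟫ * ⟪e, w⟫) - (r + ⟪e, y - x⟫ / 2) * ⟪e, w⟫)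
            / r ^ 2)) := by
  set z : E := y - x with hz
  set a : ℝ := ⟪e, z⟫ with ha
  set b : ℝ := ⟪e, w⟫ with hb
  have hline : HasDerivAt (fun s : ℝ => y + s • w) w 0 := by
    simpa using ((hasDerivAt_id (0 : ℝ)).smul_const w).const_add y
  have hF : HasFDerivAt (tq r R e x) (fderiv ℝ (tq r R e x) y) (y + (0 : ℝ) • w) := by
    rw [zero_smul, add_zero]
    exact ((tq_smooth r R e x).differentiable (by norm_num) y).hasFDerivAt
  have h1 : HasDerivAt (fun s : ℝ => tq r R e x (y + s • w)) (fderiv ℝ (tq r R e x) y w) 0 :=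
    HasFDerivAt.comp_hasDerivAt (f := fun s : ℝ => y + s • w) (0 : ℝ) hF hline
  refine h1.unique ?_
  -- the scalar functions
  have e1 : ∀ s : ℝ, (⟪e, y + s • w - x⟫ : ℝ) = a + s * b := by
    intro s
    have : y + s • w - x = z + s • w := by rw [hz]; abel
    rw [this, inner_add_right, inner_smul_right]
  have e2 : ∀ s : ℝ, ‖y + s • w - x‖ ^ 2 = ‖z‖ ^ 2 + 2 * s * ⟪z, w⟫ + s ^ 2 * ‖w‖ ^ 2 := by
    intro s
    have : y + s • w - x = z + s • w := by rw [hz]; abel
    rw [this, norm_add_sq_real, inner_smul_right, norm_smul, mul_pow, Real.norm_eq_abs, sq_abs]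
    ring
  have e3 : (fun s : ℝ => tq r R e x (y + s • w)) = fun s : ℝ =>
      hh (-(a + s * b) / r) * hh (4 * (a + s * b) ^ 2 / R ^ 2)
        * hh (1 + ((‖z‖ ^ 2 + 2 * s * ⟪z, w⟫ + s ^ 2 * ‖w‖ ^ 2 - (a + s * b) ^ 2)
          - (r + (a + s * b) / 2) ^ 2) / r ^ 2) := by
    funext s
    unfold tq
    rw [e1, e2]
  rw [e3]
  have d0 : HasDerivAt (fun s : ℝ => a + s * b) b 0 := by
    simpa using ((hasDerivAt_id (0 : ℝ)).mul_const b).const_add a
  have d1 : HasDerivAt (fun s : ℝ => -(a + s * b) / r) (-b / r) 0 := d0.neg.div_const r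
  have d2 : HasDerivAt (fun s : ℝ => 4 * (a + s * b) ^ 2 / R ^ 2) (8 * a * b / R ^ 2) 0 := by
    have := ((d0.pow 2).const_mul 4).div_const (R ^ 2)
    refine this.congr_deriv ?_
    simp
    ring
  have d3 : HasDerivAt (fun s : ℝ => 1 + ((‖z‖ ^ 2 + 2 * s * ⟪z, w⟫ + s ^ 2 * ‖w‖ ^ 2
      - (a + s * b) ^ 2) - (r + (a + s * b) / 2) ^ 2) / r ^ 2)
      ((2 * (⟪z, w⟫ - a * b) - (r + a / 2) * b) / r ^ 2) 0 := by
    have q1 : HasDerivAt (fun s : ℝ => ‖z‖ ^ 2 + 2 * s * ⟪z, w⟫ + s ^ 2 * ‖w‖ ^ 2)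
        (2 * ⟪z, w⟫) 0 := by
      have p1 : HasDerivAt (fun s : ℝ => 2 * s * ⟪z, w⟫) (2 * ⟪z, w⟫) 0 := by
        have := ((hasDerivAt_id (0 : ℝ)).const_mul 2).mul_const (⟪z, w⟫ : ℝ)
        simpa using this
      have p2 : HasDerivAt (fun s : ℝ => s ^ 2 * ‖w‖ ^ 2) 0 0 := by
        have := ((hasDerivAt_id (0 : ℝ)).pow 2).mul_const (‖w‖ ^ 2)
        simpa using this
      have := (p1.const_add (‖z‖ ^ 2)).add p2
      exact this.congr_deriv (by ring)
    have q2 : HasDerivAt (fun s : ℝ => (a + s * b) ^ 2) (2 * a * b) 0 := by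
      have := d0.pow 2
      refine this.congr_deriv ?_
      simp
    have q3 : HasDerivAt (fun s : ℝ => (r + (a + s * b) / 2) ^ 2) ((r + a / 2) * b) 0 := by
      have := ((d0.div_const 2).const_add r).pow 2
      refine this.congr_deriv ?_
      simp
      ring
    have := (((q1.sub q2).sub q3).div_const (r ^ 2)).const_add 1
    refine this.congr_deriv ?_
    ring
  have f1 := (hh_hasDerivAt (-(a + 0 * b) / r)).comp 0 d1
  have f2 := (hh_hasDerivAt (4 * (a + 0 * b) ^ 2 / R ^ 2)).comp 0 d2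
  have f3 := (hh_hasDerivAt (1 + ((‖z‖ ^ 2 + 2 * 0 * ⟪z, w⟫ + 0 ^ 2 * ‖w‖ ^ 2
      - (a + 0 * b) ^ 2) - (r + (a + 0 * b) / 2) ^ 2) / r ^ 2)).comp 0 d3
  have := (f1.mul f2).mul f3
  refine this.congr_deriv ?_
  simp only [Function.comp_def, zero_mul, add_zero, mul_zero, ne_eq, OfNat.ofNat_ne_zero,
    not_false_eq_true, zero_pow, Pi.mul_apply]
  ring

/-- The constant of the flux bound. -/
noncomputable def CFx : ℝ := 8 * HB / (c1 * hh (1 / 4) * hh (11 / 16))

theorem CFx_pos : 0 < CFx := by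
  have h1 := c1_pos
  have h2 : 0 < hh (1 / 4) := hh_pos (by norm_num)
  have h3 : 0 < hh (11 / 16) := hh_pos (by norm_num)
  have h4 := one_le_HB
  unfold CFx
  positivity

theorem cone_flux {w : E → E} (hw : ContDiff ℝ 1 w) {x e : E} {K R r : ℝ} (he : ‖e‖ = 1)
    (hK : 0 ≤ K) (hr : 0 < r) (hrR : 8 * r ≤ R) (hdiv : ∀ y ∈ ball x R, dvE w y = 0)
    (hdir : ∀ y ∈ ball x R, ‖‖w y‖ • e - w y‖ ≤ 1 / 8 * ‖w y‖ + 2 * K) :
    ∫ y in ball x (r / 2), ‖w y‖
      ≤ CFx * (r / R) * ((∫ y in ball x R, ‖w y‖) + 8 * K * (v3 * R ^ 3)) := by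
  have hR : 0 < R := by linarith
  have hHB := one_le_HB
  have hc1 := c1_pos
  have hh4 : 0 < hh (1 / 4) := hh_pos (by norm_num)
  have hh11 : 0 < hh (11 / 16) := hh_pos (by norm_num)
  set W : E → E := fun y => w y + (8 * K) • e with hWd
  have hW : ContDiff ℝ 1 W := hw.add contDiff_const
  have hdivW : ∀ y ∈ ball x R, dvE W y = 0 := by
    intro y hy
    rw [← hdiv y hy]
    unfold dvE
    have : fderiv ℝ W y = fderiv ℝ w y := by
      rw [hWd]
      exact fderiv_add_const _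
    rw [this]
  have h0 := int_dv_zero' hW hdivW (tq_smooth r R e x) (tq_compact hr hrR) (tq_tsupp' hr hrR)
  have hci : Continuous fun y => ⟪e, W y⟫ := continuous_const.inner hW.continuous
  -- the positive field
  have hpos : ∀ y ∈ ball x R, 2 * (1 / 8 * ‖w y‖ + 2 * K) ≤ ⟪e, W y⟫ ∧
      1 / 2 * ‖w y‖ ≤ ⟪e, W y⟫ ∧ ⟪e, W y⟫ ≤ ‖w y‖ + 8 * K := by
    intro y hy
    have h1 := hdir y hy
    have h2 : ⟪e, w y⟫ = ‖w y‖ - ⟪e, ‖w y‖ • e - w y⟫ := by
      rw [inner_sub_right, inner_smul_right, real_inner_self_eq_norm_sq, he]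
      ring
    have h3 : ⟪e, ‖w y‖ • e - w y⟫ ≤ 1 / 8 * ‖w y‖ + 2 * K := by
      refine (real_inner_le_norm _ _).trans ?_
      rw [he, one_mul]
      exact h1
    have h4 : ⟪e, w y⟫ ≤ ‖w y‖ := by
      refine (real_inner_le_norm _ _).trans ?_
      rw [he, one_mul]
    have h5 : ⟪e, W y⟫ = ⟪e, w y⟫ + 8 * K := by
      rw [hWd]
      simp only
      rw [inner_add_right, inner_smul_right, real_inner_self_eq_norm_sq, he]
      ring
    have h6 := norm_nonneg (w y)
    rw [h5]
    refine ⟨?_, ?_, ?_⟩ <;> linarith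
  have hkey : ∀ y, indicator (ball x (r / 2)) (fun y => c1 * hh (1 / 4) * hh (11 / 16) / r
      * ⟪e, W y⟫) y - indicator (ball x R) (fun y => 4 * HB / R * ⟪e, W y⟫) y
      ≤ fderiv ℝ (tq r R e x) y (W y) := by
    intro y
    by_cases hy : y ∈ ball x R
    swap
    · have hy2 : y ∉ ball x (r / 2) := fun h => hy (ball_subset_ball (by linarith) h)
      rw [indicator_of_notMem hy, indicator_of_notMem hy2,
        fderiv_zero_of_tsupp (tq_tsupp' hr hrR) hy]
      simp
    obtain ⟨p1, p2, p3⟩ := hpos y hy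
    have hw0 : 0 ≤ ⟪e, W y⟫ := by
      have := norm_nonneg (w y)
      linarith
    rw [indicator_of_mem hy]
    rw [tq_fderiv]
    set z : E := y - x with hz
    set a : ℝ := ⟪e, z⟫ with ha
    set b : ℝ := ⟪e, W y⟫ with hb
    set A : ℝ := -a / r with hA
    set B : ℝ := 4 * a ^ 2 / R ^ 2 with hB
    set P : ℝ := 1 + ((‖z‖ ^ 2 - a ^ 2) - (r + a / 2) ^ 2) / r ^ 2 with hP
    clear_value z
    -- the orthogonal part
    have hq : ‖z - a • e‖ ^ 2 = ‖z‖ ^ 2 - a ^ 2 := by
      rw [norm_sub_sq_real, inner_smul_right, norm_smul, he, mul_one, Real.norm_eq_abs, sq_abs,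
        real_inner_comm, ← ha]
      ring
    have horth : ⟪z, W y⟫ - a * b ≤ ‖z - a • e‖ * (1 / 8 * ‖w y‖ + 2 * K) := by
      have g1 : ⟪z, W y⟫ - a * b = ⟪z - a • e, W y⟫ := by
        rw [inner_sub_left, inner_smul_left]
        simp [hb]
      have g2 : ⟪z - a • e, e⟫ = 0 := by
        rw [inner_sub_left, inner_smul_left, real_inner_self_eq_norm_sq, he, real_inner_comm,
          ← ha]
        simp
      have g3 : ⟪z - a • e, W y⟫ = ⟪z - a • e, -(‖w y‖ • e - w y)⟫ := by
        rw [hWd]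
        simp only
        rw [inner_add_right, inner_smul_right, g2, inner_neg_right, inner_sub_right,
          inner_smul_right, g2]
        ring
      rw [g1, g3]
      refine (real_inner_le_norm _ _).trans ?_
      rw [norm_neg]
      exact mul_le_mul_of_nonneg_left (hdir y hy) (norm_nonneg _)
    -- the third term
    have t3 : 0 ≤ hh A * hh B * (deriv hh P * ((2 * (⟪z, W y⟫ - a * b) - (r + a / 2) * b)
        / r ^ 2)) := by
      rcases le_or_gt 1 A with h | h
      · rw [hh_zero h]; simp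
      rcases le_or_gt 1 P with h' | h'
      · rw [dhh_zero h']; simp
      have g1 : 0 < r + a / 2 := by
        rw [hA, div_lt_iff₀ hr] at h
        linarith
      have g2 : ‖z - a • e‖ ≤ r + a / 2 := by
        refine le_of_sq_le_sq ?_ g1.le
        rw [hq]
        have : ((‖z‖ ^ 2 - a ^ 2) - (r + a / 2) ^ 2) / r ^ 2 < 0 := by linarith
        rw [div_lt_iff₀ (by positivity)] at this
        linarith
      have g3 : 2 * (⟪z, W y⟫ - a * b) - (r + a / 2) * b ≤ 0 := by
        have g4 : 2 * (⟪z, W y⟫ - a * b) ≤ ‖z - a • e‖ * b := by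
          have := mul_le_mul_of_nonneg_left p1 (norm_nonneg (z - a • e))
          linarith
        have g5 := mul_le_mul_of_nonneg_right g2 hw0
        linarith
      have g6 := dhh_nonpos P
      have g7 : (2 * (⟪z, W y⟫ - a * b) - (r + a / 2) * b) / r ^ 2 ≤ 0 :=
        div_nonpos_of_nonpos_of_nonneg g3 (by positivity)
      exact mul_nonneg (mul_nonneg (hh_nonneg _) (hh_nonneg _)) (mul_nonneg_of_nonpos_of_nonpos g6 g7)
    -- the second term
    have t2 : -(4 * HB / R * b) ≤ hh A * (deriv hh B * (8 * a * b / R ^ 2)) * hh P := by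
      have hAP : 0 ≤ hh A * hh P := mul_nonneg (hh_nonneg _) (hh_nonneg _)
      have hAP1 : hh A * hh P ≤ 1 := mul_le_one₀ (hh_le_one _) (hh_nonneg _) (hh_le_one _)
      have e1 : hh A * (deriv hh B * (8 * a * b / R ^ 2)) * hh P
          = (hh A * hh P) * (deriv hh B * (8 * a * b / R ^ 2)) := by ring
      rw [e1]
      have hX : 0 ≤ 4 * HB / R * b := by positivity
      have g1 : -(4 * HB / R * b) ≤ deriv hh B * (8 * a * b / R ^ 2) := by
        rcases le_or_gt 1 B with h | h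
        · rw [dhh_zero h, zero_mul]; linarith
        rcases le_or_gt a 0 with ha0 | ha0
        · have g2 : 8 * a * b / R ^ 2 ≤ 0 :=
            div_nonpos_of_nonpos_of_nonneg (by nlinarith) (by positivity)
          have := mul_nonneg_of_nonpos_of_nonpos (dhh_nonpos B) g2
          linarith
        · have g2 : a ≤ R / 2 := by
            rw [hB, div_lt_iff₀ (by positivity)] at h
            nlinarith
          have g3 : |deriv hh B| ≤ HB := dhh_le (by rw [hB]; positivity)
          have g4 : 8 * a * b / R ^ 2 ≤ 4 * b / R := by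
            rw [div_le_div_iff₀ (by positivity) hR]
            have : a * (b * R) ≤ R / 2 * (b * R) := mul_le_mul_of_nonneg_right g2 (by positivity)
            nlinarith
          have g5 : 0 ≤ 8 * a * b / R ^ 2 := by positivity
          have g6 : |deriv hh B * (8 * a * b / R ^ 2)| ≤ HB * (4 * b / R) := by
            rw [abs_mul, abs_of_nonneg g5]
            exact mul_le_mul g3 g4 g5 (by linarith)
          have g7 := (abs_le.1 g6).1
          have e2 : HB * (4 * b / R) = 4 * HB / R * b := by ring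
          rw [e2] at g7
          exact g7
      rcases le_or_gt 0 (deriv hh B * (8 * a * b / R ^ 2)) with h | h
      · have := mul_nonneg hAP h
        linarith
      · have : deriv hh B * (8 * a * b / R ^ 2)
            ≤ (hh A * hh P) * (deriv hh B * (8 * a * b / R ^ 2)) := by
          nlinarith
        linarith
    -- the first term
    have t1 : indicator (ball x (r / 2)) (fun y => c1 * hh (1 / 4) * hh (11 / 16) / r
        * ⟪e, W y⟫) y ≤ deriv hh A * (-b / r) * hh B * hh P := by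
      have e1 : deriv hh A * (-b / r) * hh B * hh P
          = (-deriv hh A) * hh B * hh P / r * b := by ring
      rw [e1]
      by_cases hy2 : y ∈ ball x (r / 2)
      · rw [indicator_of_mem hy2]
        refine mul_le_mul_of_nonneg_right ?_ hw0
        refine div_le_div_of_nonneg_right ?_ hr.le
        rw [mem_ball, dist_eq_norm, ← hz] at hy2
        have g1 : |a| ≤ ‖z‖ := by
          have := abs_real_inner_le_norm e z
          rwa [he, one_mul] at this
        have g2 : |a| ≤ r / 2 := g1.trans hy2.le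
        have g3 := abs_le.1 g2
        have g4 : c1 ≤ -deriv hh A := by
          refine dhh_ge ?_ ?_
          · rw [hA, le_div_iff₀ hr]; linarith
          · rw [hA, div_le_iff₀ hr]; linarith
        have g5 : hh (1 / 4) ≤ hh B := by
          refine hh_anti ?_
          rw [hB, div_le_iff₀ (by positivity)]
          have : a ^ 2 ≤ (r / 2) ^ 2 := by
            rw [← sq_abs]; exact pow_le_pow_left₀ (abs_nonneg _) g2 2
          nlinarith
        have g6 : hh (11 / 16) ≤ hh P := by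
          refine hh_anti ?_
          have q1 : ((‖z‖ ^ 2 - a ^ 2) - (r + a / 2) ^ 2) / r ^ 2 ≤ -(5 / 16) := by
            rw [div_le_iff₀ (by positivity)]
            have q2 : ‖z‖ ^ 2 ≤ (r / 2) ^ 2 := pow_le_pow_left₀ (norm_nonneg _) hy2.le 2
            have q3 : (3 / 4 * r) ^ 2 ≤ (r + a / 2) ^ 2 :=
              pow_le_pow_left₀ (by positivity) (by linarith) 2
            nlinarith [sq_nonneg a]
          rw [hP]; linarith
        exact mul_le_mul (mul_le_mul g4 g5 hh4.le (hc1.le.trans g4)) g6 hh11.le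
          (mul_nonneg (hc1.le.trans g4) (hh_nonneg _))
      · rw [indicator_of_notMem hy2]
        have g1 : 0 ≤ -deriv hh A := by have := dhh_nonpos A; linarith
        have g2 := hh_nonneg B
        have g3 := hh_nonneg P
        positivity
    linarith
  -- integration
  have i1 : IntegrableOn (fun y => c1 * hh (1 / 4) * hh (11 / 16) / r * ⟪e, W y⟫)
      (ball x (r / 2)) := intOn_ball (continuous_const.mul hci) _ _
  have i2 : IntegrableOn (fun y => 4 * HB / R * ⟪e, W y⟫) (ball x R) :=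
    intOn_ball (continuous_const.mul hci) _ _
  have i3 : Integrable fun y => fderiv ℝ (tq r R e x) y (W y) := by
    refine supp_int (x := x) (s := R) ?_ fun y hy => ?_
    · exact ((tq_smooth r R e x).continuous_fderiv (by norm_num)).clm_apply hW.continuous
    · rw [fderiv_zero_of_tsupp (tq_tsupp' hr hrR) (fun h => hy (ball_subset_closedBall h))]
      simp
  have h1 := integral_mono ((i1.integrable_indicator measurableSet_ball).sub
    (i2.integrable_indicator measurableSet_ball)) i3 hkey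
  rw [h0, integral_sub' (i1.integrable_indicator measurableSet_ball)
    (i2.integrable_indicator measurableSet_ball), integral_indicator measurableSet_ball,
    integral_indicator measurableSet_ball, integral_const_mul, integral_const_mul] at h1
  have hvol : ∀ (a r : ℝ), 0 ≤ r → ∫ _ in ball x r, a = a * (v3 * r ^ 3) := by
    intro a r hr
    rw [setIntegral_const, smul_eq_mul, ← vol_ball x hr]
    simp only [Measure.real]
    ring
  have h2 : 1 / 2 * ∫ y in ball x (r / 2), ‖w y‖ ≤ ∫ y in ball x (r / 2), ⟪e, W y⟫ := by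
    rw [← integral_const_mul]
    exact setIntegral_mono_on ((intOn_ball hw.continuous.norm _ _).const_mul _)
      (intOn_ball hci _ _) measurableSet_ball
      fun y hy => (hpos y (ball_subset_ball (by linarith) hy)).2.1
  have h3 : ∫ y in ball x R, ⟪e, W y⟫ ≤ (∫ y in ball x R, ‖w y‖) + 8 * K * (v3 * R ^ 3) := by
    have hc : IntegrableOn (fun _ : E => 8 * K) (ball x R) :=
      integrableOn_const (measure_ball_lt_top).ne
    rw [← hvol (8 * K) R hR.le, ← integral_add (intOn_ball hw.continuous.norm _ _) hc]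
    exact setIntegral_mono_on (intOn_ball hci _ _)
      ((intOn_ball hw.continuous.norm _ _).add hc) measurableSet_ball
      fun y hy => (hpos y hy).2.2
  set I1 := ∫ y in ball x (r / 2), ‖w y‖ with hI1
  set I2 := ∫ y in ball x (r / 2), ⟪e, W y⟫ with hI2
  set I3 := ∫ y in ball x R, ⟪e, W y⟫ with hI3
  set c0 : ℝ := c1 * hh (1 / 4) * hh (11 / 16) with hc0
  have hc00 : 0 < c0 := by positivity
  have h4 : c0 / r * (1 / 2 * I1) ≤ 4 * HB / R * I3 := by
    have := mul_le_mul_of_nonneg_left h2 (by positivity : 0 ≤ c0 / r)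
    linarith
  have h5 : I1 ≤ CFx * (r / R) * I3 := by
    have e1 : I1 = (2 * r / c0) * (c0 / r * (1 / 2 * I1)) := by field_simp
    have e2 : CFx * (r / R) * I3 = (2 * r / c0) * (4 * HB / R * I3) := by
      unfold CFx
      rw [← hc0]
      field_simp
      ring
    rw [e1, e2]
    exact mul_le_mul_of_nonneg_left h4 (by positivity)
  refine h5.trans (mul_le_mul_of_nonneg_left h3 ?_)
  have := CFx_pos
  positivity

end Pool.Agent.R210
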