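import Pool.Agent.R210.Q10
import Pool.Agent.R210.N16

/-!
The local regularity theorem: the direction of the vorticity has small oscillation near a point.
-/

open MeasureTheory Set Metric Filter Topology
open scoped ContDiff ENNReal
open H459R3.NS
open Pool.Agent.W12.MD.R0 (rnd prd prd_per prd_eq prd_smooth prd_sp round_eq_of cel int_cel
  cel_abs ball_cel cel_meas cel_int)
open W221.NS (OSolF nsq gsq Sing Bd3)

namespace Pool.Agent.R210

section bump

variable (b : ContDiffBump (0 : V)) (hb : b.rOut ≤ 1 / 16)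

include hb in
theorem bg_out : ∀ z ∉ ball (0 : V) (1 / 4), (b : V → ℝ) z = 0 := fun z hz => by
  refine b.zero_of_le_dist ?_
  rw [mem_ball, not_lt] at hz
  linarith

/-- The periodized inner cut-off. -/
noncomputable def chg (x : V) : ℝ := prd (b : V → ℝ) x

include hb in
theorem chg_sp : SP (chg b) := prd_sp b.contDiff (bg_out b hb)

theorem chg_nonneg (x : V) : 0 ≤ chg b x := b.nonneg

theorem chg_le (x : V) : chg b x ≤ 1 := b.le_one

include hb in
theorem chg_one {x : V} (hx : x ∈ ball (0 : V) b.rIn) : chg b x = 1 := by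
  have h1 : chg b x = (b : V → ℝ) x := prd_eq (bg_out b hb) fun i => by
    have := (norm_le_pi_norm x i).trans_lt (mem_ball_zero_iff.1 hx)
    rw [Real.norm_eq_abs] at this
    have := b.rIn_lt_rOut
    linarith
  rw [h1]
  exact b.one_of_mem_closedBall (ball_subset_closedBall hx)

theorem chg_supp {x : V} (hx : chg b x ≠ 0) : ∃ k : Fin 3 → ℤ, x ∈ ball (kv k) b.rOut := by
  refine ⟨fun i => round (x i), ?_⟩
  by_contra h
  refine hx (b.zero_of_le_dist ?_)
  rw [mem_ball, not_lt, dist_eq_norm] at h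
  rw [dist_zero_right]
  exact h

end bump

section

variable {ν T E F : ℝ} {Ω : Set V} {u : ℝ → V → V} {p : ℝ → V → ℝ} {f : ℝ → V → V}
  {t0 lam : ℝ} {x0 : V}

theorem wl_dirC (h : OSolF ν T E F Ω u p f) (hlam : 0 < lam)
    (hl : ∀ z ∈ closedBall (0 : V) (1 / 4), x0 + lam • z ∈ Ω) {t : ℝ}
    (ht : t ∈ Ioo (-t0) (T - t0)) {K δ r : ℝ} (hr : lam ≤ r)
    (hdir : DirL (cu (u (t0 + t))) K δ 0 (ball x0 r)) {k : Fin 3 → ℤ} {x : V}
    (hk : x ∈ ball (kv k) (1 / 16)) :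
    DirL (cu (wl t0 lam x0 u t)) K δ 0 (eb x (1 / 8)) := by
  have hsub := eb_sub hk
  have hin : ∀ y ∈ eb x (1 / 8), (x0 - lam • kv k) + lam • y ∈ ball x0 r := by
    intro y hy
    have h1 : dist y (kv k) < 3 / 16 := hsub hy
    have h2 : (x0 - lam • kv k) + lam • y - x0 = lam • (y - kv k) := by
      rw [smul_sub]; abel
    rw [mem_ball, dist_eq_norm, h2, norm_smul, Real.norm_eq_abs, abs_of_pos hlam, ← dist_eq_norm]
    nlinarith [dist_nonneg (x := y) (y := kv k)]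
  intro y hy z hz hy1 hz1
  rw [wl_cu h hlam.ne' hl ht (hsub hy)] at hy1 ⊢
  rw [wl_cu h hlam.ne' hl ht (hsub hz)] at hz1 ⊢
  refine (hdir _ (hin y hy) _ (hin z hz) hy1 hz1).trans (le_of_eq ?_)
  rw [Real.rpow_zero, Real.rpow_zero]

theorem norm_lt_of_eb {x y : V} {r : ℝ} (hr : 0 < r) (hy : y ∈ eb x r) : ‖y - x‖ < r := by
  have h1 : rsq (y - x) < r ^ 2 := hy
  rw [pi_norm_lt_iff hr]
  intro i
  have h3 : (y - x) i ^ 2 ≤ rsq (y - x) := sq_le_rsq _ i
  rw [Real.norm_eq_abs]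
  exact abs_lt_of_sq_lt_sq (h3.trans_lt h1) hr.le

theorem wl_uni (h : OSolF ν T E F Ω u p f) (hlam : 0 < lam) (hlam1 : lam ≤ 1)
    (hl : ∀ z ∈ closedBall (0 : V) (1 / 4), x0 + lam • z ∈ Ω) {t : ℝ}
    (ht : t ∈ Ioo (-t0) (T - t0)) {K δ r s T1 : ℝ} {e : V} (hs : s + 2 * T1 ≤ 3 / 16)
    (hsr : s + 2 * T1 ≤ r) (hT1 : 0 < T1)
    (hu : Uni (cu (u (t0 + t))) e δ K (ball x0 r)) {k : Fin 3 → ℤ} {x : V}
    (hk : x ∈ ball (kv k) s) :
    Uni (cu (wl t0 lam x0 u t)) e δ K (eb x (2 * T1)) := by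
  intro y hy
  have h1 : ‖y - x‖ < 2 * T1 := norm_lt_of_eb (by linarith) hy
  have h2 : dist y (kv k) < s + 2 * T1 := by
    have h3 := dist_triangle y x (kv k)
    rw [← dist_eq_norm] at h1
    have h4 : dist x (kv k) < s := hk
    linarith
  rw [wl_cu h hlam.ne' hl ht (z := y) (k := k) (mem_ball.2 (h2.trans_le hs))]
  refine hu _ ?_
  have h3 : (x0 - lam • kv k) + lam • y - x0 = lam • (y - kv k) := by
    rw [smul_sub]; abel
  rw [mem_ball, dist_eq_norm, h3, norm_smul, Real.norm_eq_abs, abs_of_pos hlam, ← dist_eq_norm]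
  nlinarith [dist_nonneg (x := y) (y := kv k)]

end

/-- A bound of the gradient in `L²` near the point, up to the final time, implies regularity. -/
theorem reg_of_grad {ν T E F : ℝ} {Ω : Set V} {u : ℝ → V → V} {p : ℝ → V → ℝ} {f : ℝ → V → V}
    (hν : 0 < ν) (h : OSolF ν T E F Ω u p f)
    (hfin : ∫⁻ t in Ioo 0 T, ∫⁻ y in Ω, ENNReal.ofReal (gsq (u t) y) ≠ ⊤) {x0 : V}
    (hg : ∃ ρ A t1 : ℝ, 0 < ρ ∧ t1 < T ∧ 0 < t1 ∧ closedBall x0 ρ ⊆ Ω ∧ 0 ≤ A ∧
      ∀ t ∈ Ico t1 T, ∫ y in ball x0 ρ, gsq (u t) y ≤ A) :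
    ¬ Sing T u x0 := by
  intro hS
  obtain ⟨ρ, A, t1, hρ, ht1T, ht1, hρΩ, hA0, hA⟩ := hg
  have hT : 0 < T := ht1.trans ht1T
  obtain ⟨C, hC, H⟩ := Pool.Agent.TH305.LW.omega_final5
  have hsub : ball x0 ρ ⊆ Ω := ball_subset_closedBall.trans hρΩ
  have h' : OSolF ν T E F (ball x0 ρ) u p f :=
    { openO := isOpen_ball
      smooth_u := h.smooth_u.mono (prod_mono subset_rfl hsub)
      smooth_p := h.smooth_p.mono (prod_mono subset_rfl hsub)
      divfree := fun t ht x hx => h.divfree t ht x (hsub hx)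
      momentum := fun t ht x hx => h.momentum t ht x (hsub hx)
      force := fun t ht x hx => h.force t ht x (hsub hx)
      en_int := fun t ht => (h.en_int t ht).mono_set hsub
      en := fun t ht => le_trans (setIntegral_mono_set (h.en_int _ ht)
        (Filter.Eventually.of_forall fun y => Finset.sum_nonneg fun i _ => sq_nonneg _)
        hsub.eventuallyLE) (h.en _ ht) }
  have hfin' : ∫⁻ t in Ioo 0 T, ∫⁻ y in ball x0 ρ, ENNReal.ofReal (gsq (u t) y) ≠ ⊤ :=
    ne_top_of_le_ne_top hfin (lintegral_mono fun t => lintegral_mono_set hsub)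
  obtain ⟨-, -, H3⟩ := H ν T E F (ball x0 ρ) {x0} u p f hν hT h'
    (Or.inl ⟨isCompact_singleton, singleton_subset_iff.2 (mem_ball_self hρ)⟩) hfin'
  have hbd : ∀ t ∈ Ico t1 T, ∫⁻ y in ball x0 ρ, ENNReal.ofReal (gsq (u t) y)
      ≤ ENNReal.ofReal A := by
    intro t ht
    have ht' : t ∈ Ioo 0 T := ⟨by linarith [ht.1], ht.2⟩
    have a2 : IntegrableOn (gsq (u t)) (ball x0 ρ) :=
      (((gsq_cont h ht').mono hρΩ).integrableOn_compact
        (isCompact_closedBall _ _)).mono_set ball_subset_closedBall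
    rw [← ofReal_integral_eq_lintegral_ofReal a2 (Filter.Eventually.of_forall fun y =>
      Finset.sum_nonneg fun i _ => Finset.sum_nonneg fun j _ => sq_nonneg _)]
    exact ENNReal.ofReal_le_ofReal (hA t ht)
  have hsν : 0 < ν * Real.sqrt ν := by positivity
  set M : ℝ := ν * Real.sqrt ν / (2 * C) with hM
  have hM0 : 0 < M := by positivity
  have key := H3 M hM0.le (Or.inl ?_) {x0} (fun x hx => by
    rw [Finset.mem_singleton] at hx
    rw [hx]
    exact ⟨mem_ball_self hρ, hS⟩)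
  · rw [Finset.card_singleton, hM] at key
    have : C * (ν * Real.sqrt ν / (2 * C)) / (ν * Real.sqrt ν) = 1 / 2 := by
      field_simp
    rw [this] at key
    norm_num at key
  · refine Filter.Eventually.frequently ?_
    have hev : ∀ᶠ η in 𝓝[>] (0 : ℝ), η ∈ Ioo 0 (min (T - t1) ((M / (A + 1)) ^ 2)) :=
      Ioo_mem_nhdsGT (lt_min (by linarith) (by positivity))
    filter_upwards [hev] with η hη
    have hη0 : 0 < η := hη.1
    have hη1 : η < T - t1 := hη.2.trans_le (min_le_left _ _)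
    have hη2 : η < (M / (A + 1)) ^ 2 := hη.2.trans_le (min_le_right _ _)
    have b1 : ∫⁻ t in Ioo (T - η) T, ENNReal.ofReal (((T - t) / η) ^ (1 / 1152 : ℝ)) *
        ∫⁻ y in ball x0 ρ, ENNReal.ofReal (gsq (u t) y)
        ≤ ∫⁻ _ in Ioo (T - η) T, ENNReal.ofReal A := by
      refine setLIntegral_mono' measurableSet_Ioo fun t ht => ?_
      have c1 : ENNReal.ofReal (((T - t) / η) ^ (1 / 1152 : ℝ)) ≤ 1 := by
        rw [← ENNReal.ofReal_one]
        refine ENNReal.ofReal_le_ofReal (Real.rpow_le_one ?_ ?_ (by norm_num))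
        · exact div_nonneg (by linarith [ht.2]) hη0.le
        · rw [div_le_one hη0]
          linarith [ht.1]
      calc _ ≤ 1 * ENNReal.ofReal A :=
            mul_le_mul' c1 (hbd t ⟨by linarith [ht.1], ht.2⟩)
        _ = _ := one_mul _
    refine b1.trans ?_
    rw [setLIntegral_const, Real.volume_Ioo, ← ENNReal.ofReal_mul hA0]
    refine ENNReal.ofReal_le_ofReal ?_
    have c2 : Real.sqrt η * Real.sqrt η = η := Real.mul_self_sqrt hη0.le
    have c3 : Real.sqrt η < M / (A + 1) := by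
      rw [Real.sqrt_lt' (by positivity)]
      exact hη2
    have c4 : (A + 1) * Real.sqrt η ≤ M := by
      rw [lt_div_iff₀ (by positivity)] at c3
      linarith
    have c5 : 0 ≤ Real.sqrt η := Real.sqrt_nonneg _
    calc A * (T - (T - η)) = A * Real.sqrt η * Real.sqrt η := by rw [mul_assoc, c2]; ring
      _ ≤ ((A + 1) * Real.sqrt η) * Real.sqrt η := by nlinarith
      _ ≤ M * Real.sqrt η := mul_le_mul_of_nonneg_right c4 c5

/-- The local regularity theorem. -/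
theorem local_regC {ν T E F : ℝ} {Ω : Set V} {u : ℝ → V → V} {p : ℝ → V → ℝ} {f : ℝ → V → V}
    (hν : 0 < ν) (h : OSolF ν T E F Ω u p f)
    (hfin : ∫⁻ t in Ioo 0 T, ∫⁻ y in Ω, ENNReal.ofReal (gsq (u t) y) ≠ ⊤) {x0 : V} (hx0 : x0 ∈ Ω)
    {K0 r0 T0 : ℝ} (hK0 : 0 ≤ K0) (hr0 : 0 < r0) (hT0 : 0 ≤ T0) (hT0T : T0 < T)
    (hco : ∀ᵐ t ∂volume.restrict (Ioo T0 T), DirL (cu (u t)) K0 (1 / 8) 0 (ball x0 r0)) :
    ∃ δ : ℝ, 0 < δ ∧ ∀ K1 r1 T1 : ℝ, 0 ≤ K1 → 0 < r1 → T1 < T →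
      (∀ᵐ t ∂volume.restrict (Ioo T1 T), DirL (cu (u t)) K1 δ 0 (ball x0 r1)) →
      ¬ Sing T u x0 := by
  obtain ⟨ρ, hρ, hρΩ⟩ := Metric.nhds_basis_closedBall.mem_iff.1 (h.openO.mem_nhds hx0)
  set lam : ℝ := min 1 (min r0 ρ) with hlam'
  have hlam : 0 < lam := lt_min one_pos (lt_min hr0 hρ)
  have hlam1 : lam ≤ 1 := min_le_left _ _
  have hlamr : lam ≤ r0 := (min_le_right _ _).trans (min_le_left _ _)
  have hlamρ : lam ≤ ρ := (min_le_right _ _).trans (min_le_right _ _)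
  have hl : ∀ z ∈ closedBall (0 : V) (1 / 2), x0 + lam • z ∈ Ω := by
    intro z hz
    refine hρΩ ?_
    rw [mem_closedBall, dist_eq_norm, add_sub_cancel_left, norm_smul, Real.norm_eq_abs,
      abs_of_pos hlam]
    rw [mem_closedBall_zero_iff] at hz
    nlinarith [norm_nonneg z]
  have hl4 : ∀ z ∈ closedBall (0 : V) (1 / 4), x0 + lam • z ∈ Ω := fun z hz =>
    hl z (closedBall_subset_closedBall (by norm_num) hz)
  have h0 : 0 < lam⁻¹ := inv_pos.2 hlam
  obtain ⟨δ, hδ0, hδ8, hB⟩ := boundC (ν := ν / lam ^ 2) (K0 := K0)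
    (E0 := Real.sqrt (lam⁻¹ ^ 5 * E ^ 2)) (R1 := 1 / 8) (by positivity) hK0 (by norm_num)
    (by norm_num)
  refine ⟨δ, hδ0, fun K1 r1 T1' hK1 hr1 hT1T hfi => reg_of_grad hν h hfin ?_⟩
  set t0 : ℝ := (max T0 T1' + T) / 2 with ht0'
  have hmx : max T0 T1' < T := max_lt hT0T hT1T
  have hmx0 : 0 ≤ max T0 T1' := hT0.trans (le_max_left _ _)
  have ht0 : 0 < t0 := by rw [ht0']; linarith
  have hT'pos : 0 < T - t0 := by rw [ht0']; linarith
  have hT0t0 : T0 ≤ t0 := by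
    have := le_max_left T0 T1'
    rw [ht0']; linarith
  have hT1t0 : T1' ≤ t0 := by
    have := le_max_right T0 T1'
    rw [ht0']; linarith
  have hLP := LP_of h ht0 hlam.ne' hl4
  -- the scales
  set s : ℝ := min (1 / 16) (r1 / 4) with hs
  have hs0 : 0 < s := lt_min (by norm_num) (by positivity)
  have hs16 : s ≤ 1 / 16 := min_le_left _ _
  have hsr : s ≤ r1 / 4 := min_le_right _ _
  set T1 : ℝ := min (1 / 2048) (r1 / 8) with hT1
  have hT10 : 0 < T1 := lt_min (by norm_num) (by positivity)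
  have hT1a : T1 ≤ 1 / 2048 := min_le_left _ _
  have hT1r : T1 ≤ r1 / 8 := min_le_right _ _
  set b : ContDiffBump (0 : V) := ⟨s / 2, s, by positivity, by linarith⟩ with hb
  have hbout : b.rOut = s := rfl
  have hbin : b.rIn = s / 2 := rfl
  have hb16 : b.rOut ≤ 1 / 16 := hs16
  have hsp := chg_sp b hb16
  -- the translation in time
  have hpre : (fun t : ℝ => t0 + t) ⁻¹' Ioo t0 T = Ioo 0 (T - t0) := by
    rw [preimage_const_add_Ioo, sub_self]
  have hMP : MeasurePreserving (fun t : ℝ => t0 + t) (volume.restrict (Ioo 0 (T - t0)))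
      (volume.restrict (Ioo t0 T)) := by
    have h1 := (measurePreserving_add_left (volume : Measure ℝ) t0).restrict_preimage
      (measurableSet_Ioo (a := t0) (b := T))
    rwa [hpre] at h1
  have hco1 : ∀ᵐ t ∂volume.restrict (Ioo t0 T), DirL (cu (u t)) K0 (1 / 8) 0 (ball x0 r0) :=
    ae_mono (Measure.restrict_mono (Ioo_subset_Ioo hT0t0 le_rfl) le_rfl) hco
  have hfi1 : ∀ᵐ t ∂volume.restrict (Ioo t0 T), DirL (cu (u t)) K1 δ 0 (ball x0 r1) :=
    ae_mono (Measure.restrict_mono (Ioo_subset_Ioo hT1t0 le_rfl) le_rfl) hfi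
  have hco2 : ∀ᵐ t ∂volume.restrict (Ioo 0 (T - t0)), ∀ x, chg b x ≠ 0 →
      DirL (cu (wl t0 lam x0 u t)) K0 (1 / 8) 0 (eb x (1 / 8)) := by
    filter_upwards [hMP.quasiMeasurePreserving.ae hco1, ae_restrict_mem measurableSet_Ioo]
      with t ht1 ht2 x hx
    obtain ⟨k, hk⟩ := chg_supp b hx
    exact wl_dirC h hlam hl4 ⟨by linarith [ht2.1], ht2.2⟩ hlamr ht1 (ball_subset_ball hs16 hk)
  have hfi2 : ∀ᵐ t ∂volume.restrict (Ioo 0 (T - t0)), ∃ e : V, en e = 1 ∧ ∀ x, chg b x ≠ 0 →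
      Uni (cu (wl t0 lam x0 u t)) e δ K1 (eb x (2 * T1)) := by
    filter_upwards [hMP.quasiMeasurePreserving.ae hfi1, ae_restrict_mem measurableSet_Ioo]
      with t ht1 ht2
    obtain ⟨e, he, hu⟩ := ht1.uni hδ0.le hK1
    refine ⟨e, he, fun x hx => ?_⟩
    obtain ⟨k, hk⟩ := chg_supp b hx
    exact wl_uni h hlam hlam1 hl4 ⟨by linarith [ht2.1], ht2.2⟩ (by linarith) (by linarith) hT10
      hu hk
  obtain ⟨A, hA⟩ := hB hLP hT'pos (F := 12 * F ^ 2) hK1 hT10 (by linarith) (by positivity) hsp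
    (chg_nonneg b) (chg_le b)
    (fun x hx => by
      obtain ⟨k, hk⟩ := chg_supp b hx
      exact (eb_sub (ball_subset_ball hs16 hk)).trans
        (subset_iUnion (fun k => ball (kv k) (3 / 16)) k))
    (fun t ht => by
      rw [Real.sq_sqrt (by positivity)]
      exact wl_energy h hlam hl ⟨by linarith [ht.1], ht.2⟩)
    (wl_enst_int h ht0 hlam hl hfin)
    (fun t ht x hx => rl_cu h hlam.ne' hl4 ⟨by linarith [ht.1], ht.2⟩ hx) hco2 hfi2
  obtain ⟨M, hM0, hM⟩ := per_bound (gr2_cont (sp_sq hsp)) (gr2_per (sp_sq hsp))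
  set A1 : ℝ := 2 * A + 4 * M * (lam⁻¹ ^ 5 * E ^ 2) with hA1
  have hgr : ∀ t ∈ Ico ((T - t0) / 2) (T - t0),
      ∫ x in ball x0 (lam * (s / 2)), gsq (u (t0 + t)) x ≤ lam ^ 3 * A1 := by
    intro t ht
    have hs1 : t ∈ Ioo (-t0) (T - t0) := ⟨by linarith [ht.1], ht.2⟩
    have hs2 : t ∈ Ico 0 (T - t0) := ⟨by linarith [ht.1], ht.2⟩
    have hsp' := hLP.sp t hs2
    have hself : ∀ x : V, x ∈ eb x (1 / 8) := fun x => by
      show rsq (x - x) < (1 / 8) ^ 2
      rw [sub_self]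
      have : rsq (0 : V) = 0 := by simp [rsq]
      rw [this]; positivity
    have a1 := grad_le (M := M) hsp' (sp_sq hsp) (fun x hx => by
      have hx' : chg b x ≠ 0 := fun h => hx (by rw [h]; ring)
      obtain ⟨k, hk⟩ := chg_supp b hx'
      exact hLP.divfree t hs2 x (((eb_sub (ball_subset_ball hs16 hk)).trans
        (subset_iUnion (fun k => ball (kv k) (3 / 16)) k)) (hself x)))
      fun x => (le_abs_self _).trans (hM x)
    have a2 := hA t ht
    have a3 := wl_energy (x0 := x0) h hlam hl hs1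
    have a4 : ∫ x in cube, (chg b x ^ 2) ^ 2 * G2 (wl t0 lam x0 u t) x ≤ A1 := by
      refine a1.trans ?_
      have : 4 * M * ∫ x in cube, rsq (wl t0 lam x0 u t x) ≤ 4 * M * (lam⁻¹ ^ 5 * E ^ 2) :=
        mul_le_mul_of_nonneg_left a3 (by positivity)
      rw [hA1]
      linarith
    have hP : SP fun x => (chg b x ^ 2) ^ 2 * G2 (wl t0 lam x0 u t) x :=
      (sp_sq (sp_sq hsp)).mul (sp_G2 hsp')
    rw [int_cell hP.per] at a4
    have a5 : ∫ x in ball (0 : V) (s / 2), gsq (u (t0 + t)) (x0 + lam • x) ≤ A1 := by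
      refine le_trans ?_ a4
      have b1 : ∫ x in ball (0 : V) (s / 2), gsq (u (t0 + t)) (x0 + lam • x)
          = ∫ x in ball (0 : V) (s / 2), (chg b x ^ 2) ^ 2 * G2 (wl t0 lam x0 u t) x := by
        refine setIntegral_congr_fun measurableSet_ball fun x hx => ?_
        beta_reduce
        rw [chg_one b hb16 (x := x) hx, wl_G2 h hlam.ne' hl4 hs1
          (ball_subset_ball (by linarith) hx)]
        ring
      rw [b1]
      refine setIntegral_mono_set ((hP.cont.continuousOn.integrableOn_compact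
        (isCompact_closedBall _ _)).mono_set ball_subset_closedBall)
        (Filter.Eventually.of_forall fun x => mul_nonneg (sq_nonneg _) (G2_nonneg _ _))
        (ball_subset_ball (by linarith)).eventuallyLE
    rw [W382.ME.cov (gsq (u (t0 + t))) x0 hlam] at a5
    rw [inv_mul_le_iff₀ (by positivity)] at a5
    exact a5
  refine ⟨lam * (s / 2), max 0 (lam ^ 3 * A1), t0 + (T - t0) / 2, by positivity, by linarith,
    by linarith, ball_sub hlam hl (by linarith), le_max_left _ _, fun t ht => ?_⟩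
  have h1 := hgr (t - t0) ⟨by linarith [ht.1], by linarith [ht.2]⟩
  rw [add_sub_cancel] at h1
  exact h1.trans (le_max_right _ _)

theorem DirL.mono {w : V → V} {K K' δ : ℝ} {U : Set V} (h : DirL w K δ 0 U) (hK : K ≤ K') :
    DirL w K' δ 0 U := fun x hx y hy h1 h2 => h x hx y hy (hK.trans_lt h1) (hK.trans_lt h2)

/-- At an interior singular point the direction of the vorticity oscillates by a fixed amount. -/
theorem sing_osc {ν T E F : ℝ} {Ω : Set V} {u : ℝ → V → V} {p : ℝ → V → ℝ} {f : ℝ → V → V}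
    (hν : 0 < ν) (h : OSolF ν T E F Ω u p f)
    (hfin : ∫⁻ t in Ioo 0 T, ∫⁻ y in Ω, ENNReal.ofReal (gsq (u t) y) ≠ ⊤) {x0 : V} (hx0 : x0 ∈ Ω)
    (hT : 0 < T) (hS : Sing T u x0) : ∃ δ : ℝ, 0 < δ ∧ ∀ K r T1 : ℝ, 0 < r → T1 < T →
      ¬ ∀ᵐ t ∂volume.restrict (Ioo T1 T), DirL (cu (u t)) K δ 0 (ball x0 r) := by
  by_contra hcon
  push Not at hcon
  obtain ⟨K0, r0, T0, hr0, hT0, hco⟩ := hcon (1 / 8) (by norm_num)
  have hco' : ∀ᵐ t ∂volume.restrict (Ioo (max 0 T0) T),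
      DirL (cu (u t)) (max K0 0) (1 / 8) 0 (ball x0 r0) := by
    have h1 := ae_mono (Measure.restrict_mono (Ioo_subset_Ioo (le_max_right 0 T0) (le_refl T))
      le_rfl) hco
    filter_upwards [h1] with t ht
    exact ht.mono (le_max_left _ _)
  obtain ⟨δ, hδ, H⟩ := local_regC hν h hfin hx0 (le_max_right K0 0) hr0 (le_max_left 0 T0)
    (max_lt hT hT0) hco'
  obtain ⟨K1, r1, T1, hr1, hT1, hfi⟩ := hcon δ hδ
  refine H (max K1 0) r1 T1 (le_max_right _ _) hr1 hT1 ?_ hS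
  filter_upwards [hfi] with t ht
  exact ht.mono (le_max_left _ _)

end Pool.Agent.R210
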