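import Pool.Agent.R210.Q11
import Pool.Agent.W221.NS.Fin4

/-!
Periodic solutions: existence of singular points, and the oscillation of the vorticity direction.
-/

open MeasureTheory Set Metric Filter Topology
open scoped ContDiff ENNReal
open H459R3.NS W221.NS W221.NS.B

namespace Pool.Agent.R210

/-- An unbounded periodic solution has a singular point. -/
theorem sing_exists {T : ℝ} {u : ℝ → V → V} (hT : 0 < T)
    (hc : ContinuousOn (fun z : ℝ × V => u z.1 z.2) (Ico 0 T ×ˢ univ))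
    (hp : ∀ t ∈ Ico 0 T, Per (u t)) (hunb : ¬ ∃ M : ℝ, ∀ t ∈ Ico 0 T, ∀ x, ‖u t x‖ ≤ M) :
    ∃ x0 ∈ cube, Sing T u x0 := by
  by_contra hcon
  push Not at hcon
  refine hunb ?_
  have hcub : IsCompact cube := isCompact_Icc
  have key : ∃ δ : ℝ, 0 < δ ∧ ∃ B : ℝ, ∀ t ∈ Ioo (T - δ) T, ∀ y ∈ cube, ‖u t y‖ ≤ B := by
    refine hcub.induction_on
      (p := fun s => ∃ δ : ℝ, 0 < δ ∧ ∃ B : ℝ, ∀ t ∈ Ioo (T - δ) T, ∀ y ∈ s, ‖u t y‖ ≤ B)
      ?_ ?_ ?_ ?_
    · exact ⟨1, one_pos, 0, fun t _ y hy => absurd hy (notMem_empty y)⟩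
    · rintro s t hst ⟨δ, hδ, B, hB⟩
      exact ⟨δ, hδ, B, fun t ht y hy => hB t ht y (hst hy)⟩
    · rintro s t ⟨δ, hδ, B, hB⟩ ⟨δ', hδ', B', hB'⟩
      refine ⟨min δ δ', lt_min hδ hδ', max B B', fun τ hτ y hy => ?_⟩
      rcases hy with hy | hy
      · exact (hB τ ⟨by linarith [hτ.1, min_le_left δ δ'], hτ.2⟩ y hy).trans (le_max_left _ _)
      · exact (hB' τ ⟨by linarith [hτ.1, min_le_right δ δ'], hτ.2⟩ y hy).trans (le_max_right _ _)
    · intro x hx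
      have h1 := hcon x hx
      rw [Sing] at h1
      push Not at h1
      obtain ⟨δ, hδ, B, hB⟩ := h1
      exact ⟨ball x δ, mem_nhdsWithin_of_mem_nhds (ball_mem_nhds x hδ), δ, hδ, B, hB⟩
  obtain ⟨δ, hδ, B, hB⟩ := key
  have hcomp : IsCompact (Icc (0 : ℝ) (max 0 (T - δ / 2)) ×ˢ cube) := isCompact_Icc.prod hcub
  have hlt : max 0 (T - δ / 2) < T := max_lt hT (by linarith)
  obtain ⟨C, hC⟩ := hcomp.exists_bound_of_continuousOn
    (hc.mono (prod_mono (fun t ht => ⟨ht.1, ht.2.trans_lt hlt⟩) (subset_univ _)))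
  refine ⟨max B C, fun t ht x => ?_⟩
  have h1 := (hp t ht).int (fun i => -⌊x i⌋) x
  have h2 : x + (fun i => ((-⌊x i⌋ : ℤ) : ℝ)) ∈ cube := by
    refine ⟨fun i => ?_, fun i => ?_⟩
    · have := Int.floor_le (x i)
      simp only [Pi.add_apply, Pi.zero_apply]
      push_cast
      linarith
    · have := Int.lt_floor_add_one (x i)
      simp only [Pi.add_apply, Pi.one_apply]
      push_cast
      linarith
  rw [← h1]
  rcases le_or_gt t (max 0 (T - δ / 2)) with h3 | h3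
  · exact (hC (t, _) ⟨⟨ht.1, h3⟩, h2⟩).trans (le_max_right _ _)
  · exact (hB t ⟨by linarith [(le_max_right 0 (T - δ / 2)).trans_lt h3], ht.2⟩ _ h2).trans
      (le_max_left _ _)

/-- At a singular point of a periodic solution the direction of the vorticity oscillates. -/
theorem peri_osc {ν T F : ℝ} {u : ℝ → V → V} {p : ℝ → V → ℝ} {f : ℝ → V → V} (hν : 0 < ν)
    (hT : 0 < T) (hu' : IsSolF ν T F u p f) {x0 : V} (hx0 : x0 ∈ cube) (hS : Sing T u x0) :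
    ∃ δ : ℝ, 0 < δ ∧ ∀ K r T1 : ℝ, 0 < r → T1 < T →
      ¬ ∀ᵐ t ∂volume.restrict (Ioo T1 T), DirL (cu (u t)) K δ 0 (ball x0 r) := by
  obtain ⟨h5a, h5b⟩ := p_pero
  have hu : IsSolF ν T |F| u p f :=
    { hu' with force := fun t ht => bd3_mono (le_abs_self F) (hu'.force t ht) }
  obtain ⟨⟨E, hE, hEn⟩, hint⟩ := p_pen3 ν T |F| u p f hν hT (abs_nonneg F) hu
  have hO : OSolF ν T (15 * E) |F| (ball 0 3) u p f := h5a ν T E |F| u p f hT hE hu hEn
  have hsp : ∀ t ∈ Ioo 0 T, SPV (u t) := fun t ht =>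
    ⟨slice_ico hu.smooth_u ⟨ht.1.le, ht.2⟩, hu.per_u t ⟨ht.1.le, ht.2⟩⟩
  have hfin : ∫⁻ t in Ioo 0 T, ∫⁻ y in ball (0 : V) 3, ENNReal.ofReal (gsq (u t) y) ≠ ⊤ := by
    have h1 : ∫⁻ t in Ioo 0 T, ∫⁻ y in ball (0 : V) 3, ENNReal.ofReal (gsq (u t) y)
        = ∫⁻ t in Ioo 0 T, ENNReal.ofReal (216 * enstrophy (u t)) := by
      apply setLIntegral_congr_fun measurableSet_Ioo
      intro t ht
      exact h5b _ (hsp t ht)
    rw [h1]
    exact ((hint.const_mul 216).lintegral_lt_top).ne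
  exact sing_osc hν hO hfin (cube_sub hx0) hT hS

end Pool.Agent.R210
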