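import Pool.Agent.R210.Q1
import Pool.Agent.R210.N3

/-!
The Morrey bound of the vorticity if its direction has small oscillation.
-/

open MeasureTheory Set Metric Filter Topology
open scoped ContDiff RealInnerProductSpace
open H459R3.NS

namespace Pool.Agent.R210

theorem en_add_le (a b : V) : en (a + b) ≤ en a + en b := by
  rw [← norm_toLp, ← norm_toLp, ← norm_toLp]
  exact norm_add_le (WithLp.toLp 2 a : E) (WithLp.toLp 2 b : E)

theorem en_sub_le (a b : V) : en (a - b) ≤ en a + en b := by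
  rw [← norm_toLp, ← norm_toLp, ← norm_toLp]
  exact norm_sub_le (WithLp.toLp 2 a : E) (WithLp.toLp 2 b : E)

theorem en_single : en (Pi.single 0 1 : V) = 1 := by
  unfold en rsq
  rw [Fin.sum_univ_three]
  simp

/-- The field is nearly parallel to `e` in `U`, where it is large. -/
def Uni (w : V → V) (e : V) (δ K : ℝ) (U : Set V) : Prop :=
  ∀ y ∈ U, en (en (w y) • e - w y) ≤ δ * en (w y) + 2 * K

theorem DirL.uni {w : V → V} {K δ : ℝ} {U : Set V} (h : DirL w K δ 0 U) (hδ : 0 ≤ δ)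
    (hK : 0 ≤ K) : ∃ e : V, en e = 1 ∧ Uni w e δ K U := by
  by_cases hp : ∃ p ∈ U, K < en (w p)
  · obtain ⟨p, hpU, hpK⟩ := hp
    have hn : 0 < en (w p) := hK.trans_lt hpK
    refine ⟨(en (w p))⁻¹ • w p, ?_, fun y hy => ?_⟩
    · rw [en_smul, abs_of_pos (inv_pos.2 hn), inv_mul_cancel₀ hn.ne']
    · rcases lt_or_ge K (en (w y)) with hyK | hyK
      · have h1 := h p hpU y hy hpK hyK
        rw [Real.rpow_zero, mul_one] at h1
        have h2 : en (w y) • ((en (w p))⁻¹ • w p) - w y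
            = (en (w p))⁻¹ • (en (w y) • w p - en (w p) • w y) := by
          rw [smul_sub, smul_smul, smul_smul, smul_smul, inv_mul_cancel₀ hn.ne', one_smul,
            mul_comm]
        rw [h2, en_smul, abs_of_pos (inv_pos.2 hn), inv_mul_le_iff₀ hn]
        have h3 : 0 ≤ en (w p) * (2 * K) := by positivity
        calc en (en (w y) • w p - en (w p) • w y) ≤ δ * (en (w p) * en (w y)) := h1
          _ ≤ en (w p) * (δ * en (w y) + 2 * K) := by linarith
      · have h1 : en (en (w y) • (en (w p))⁻¹ • w p - w y) ≤ en (w y) + en (w y) := by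
          refine (en_sub_le _ _).trans ?_
          rw [en_smul, en_smul, abs_of_pos (inv_pos.2 hn), inv_mul_cancel₀ hn.ne', mul_one,
            abs_of_nonneg (en_nonneg _)]
        have h2 : 0 ≤ δ * en (w y) := mul_nonneg hδ (en_nonneg _)
        linarith
  · push Not at hp
    refine ⟨Pi.single 0 1, en_single, fun y hy => ?_⟩
    have h1 := hp y hy
    have h2 : en (en (w y) • (Pi.single 0 1 : V) - w y) ≤ en (w y) + en (w y) := by
      refine (en_sub_le _ _).trans ?_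
      rw [en_smul, en_single, mul_one, abs_of_nonneg (en_nonneg _)]
    have h3 : 0 ≤ δ * en (w y) := mul_nonneg hδ (en_nonneg _)
    linarith

/-- The constant of the Morrey bound. -/
noncomputable def LC (E0 K r : ℝ) : ℝ :=
  2 * CFx / (r / 16) * ((hh (1 / 4))⁻¹ * (12 * HB / (r / 16)
    * Real.sqrt (v3 * (4 * (r / 16)) ^ 3 * (27 * E0 ^ 2)) + 24 * v3 * K * (r / 16) ^ 3)
      + 8 * K * (v3 * (r / 16) ^ 3))

theorem LC_nonneg {E0 K r : ℝ} (hr : 0 < r) (hK : 0 ≤ K) : 0 ≤ LC E0 K r := by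
  have h1 := CFx_pos
  have h2 := one_le_HB
  have h3 := v3_pos
  have h4 : 0 < hh (1 / 4) := hh_pos (by norm_num)
  unfold LC
  positivity

section

variable {v : V → V} (hv : ∀ i, SP (fun x => v x i))

include hv in
theorem avg_cone {z₀ : V} {r K E0 : ℝ} (hr : 0 < r) (hr1 : r ≤ 1) (hK : 0 ≤ K)
    (hdir : DirL (cu v) K (1 / 8) 0 (eb z₀ r)) (hE : ∫ x in cube, rsq (v x) ≤ E0 ^ 2)
    {τ : ℝ} (hτ : 0 < τ) (hτR : τ ≤ r / 256) {x : V} (hx : x ∈ eb z₀ (r / 4)) :
    ∫ z in U1, en (cu v (x - τ • z)) ≤ LC E0 K r / τ ^ 2 := by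
  have hHB := one_le_HB
  have hCF := CFx_pos
  have hv3 := v3_pos
  have hh0 : 0 < hh (1 / 4) := hh_pos (by norm_num)
  obtain ⟨R, hR⟩ : ∃ R, R = r / 16 := ⟨_, rfl⟩
  have hR0 : 0 < R := by rw [hR]; positivity
  set z : E := WithLp.toLp 2 z₀ with hz
  set xE : E := WithLp.toLp 2 x with hxE
  set w := lift (cu v) with hw
  have hwsp := sp_cu hv
  have hws : ContDiff ℝ 1 w := (lift_smooth hwsp).of_le (by norm_cast)
  have hdv : ∀ y, dvE w y = 0 := fun y => by rw [hw, dvE_lift hwsp, dv_cu hv]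
  have hxz : xE ∈ ball z (r / 4) := (mem_eb_iff (x := xE) (by linarith)).1 hx
  have hsub2 : ball xE (2 * R) ⊆ ball z r := by
    intro y hy
    rw [mem_ball] at hy hxz ⊢
    have := dist_triangle y xE z
    linarith
  have en0 : ∀ p y : E, ‖p - y‖ = en (WithLp.ofLp p - WithLp.ofLp y) := by
    intro p y
    rw [← norm_toLp]; rfl
  have hdirE : ∀ p ∈ ball xE (2 * R), ∀ y ∈ ball xE (2 * R), K < ‖w p‖ → K < ‖w y‖ →
      ‖‖w y‖ • w p - ‖w p‖ • w y‖ ≤ 1 / 8 * ‖p - y‖ ^ (0 : ℝ) * (‖w p‖ * ‖w y‖) := by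
    intro p hpz y hyz hp hy
    have h1 := hdir (WithLp.ofLp p) ((mem_eb_iff hr).2 (hsub2 hpz)) (WithLp.ofLp y)
      ((mem_eb_iff hr).2 (hsub2 hyz))
      (by rwa [hw, norm_lift] at hp) (by rwa [hw, norm_lift] at hy)
    rw [en0 p y, hw, norm_lift, norm_lift]
    refine le_trans (le_of_eq ?_) h1
    exact norm_toLp (en (cu v (WithLp.ofLp y)) • cu v (WithLp.ofLp p)
      - en (cu v (WithLp.ofLp p)) • cu v (WithLp.ofLp y))
  have h1 := energy_ball hv le_rfl (by norm_num) hK hR0 hdirE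
    (by rw [Real.rpow_zero]; norm_num)
  have h2 := eb_en_le hv (ρ := 4 * R) (by linarith) (by linarith) xE
  -- the direction
  obtain ⟨e, he, hue⟩ := hdir.uni (by norm_num) hK
  have huE : ∀ y ∈ ball xE R, ‖‖w y‖ • (WithLp.toLp 2 e : E) - w y‖ ≤ 1 / 8 * ‖w y‖ + 2 * K := by
    intro y hy
    have h3 := hue (WithLp.ofLp y) ((mem_eb_iff hr).2 (hsub2 (ball_subset_ball (by linarith) hy)))
    rw [hw, norm_lift]
    refine le_trans (le_of_eq ?_) h3
    exact norm_toLp (en (cu v (WithLp.ofLp y)) • e - cu v (WithLp.ofLp y))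
  have h3 := cone_flux hws (x := xE) (e := (WithLp.toLp 2 e : E)) (K := K) (R := R) (r := 2 * τ)
    (by rw [norm_toLp, he]) hK (by linarith) (by linarith) (fun y _ => hdv y) huE
  have e1 : 2 * τ / 2 = τ := by ring
  rw [e1] at h3
  have hball : ∫ y in ball xE τ, ‖w y‖ = ∫ y in eb x τ, en (cu v y) := by
    have h5 := int_ball_lift (F := fun y => en (cu v y)) xE hτ
    rw [← h5]
    simp_rw [hw, norm_lift]
  rw [hball] at h3
  have hsq : Real.sqrt (v3 * (4 * R) ^ 3 * (27 * ∫ x in cube, rsq (v x)))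
      ≤ Real.sqrt (v3 * (4 * R) ^ 3 * (27 * E0 ^ 2)) := by
    refine Real.sqrt_le_sqrt (mul_le_mul_of_nonneg_left ?_ (by positivity))
    linarith
  have h4 : ∫ y in ball xE R, ‖w y‖ ≤ (hh (1 / 4))⁻¹ * (12 * HB / R
      * Real.sqrt (v3 * (4 * R) ^ 3 * (27 * E0 ^ 2)) + 24 * v3 * K * R ^ 3) := by
    rw [inv_mul_eq_div, le_div_iff₀ hh0, mul_comm]
    refine h1.trans ?_
    have h7 : 0 ≤ 12 * HB / R := by positivity
    have := mul_le_mul_of_nonneg_left (h2.trans hsq) h7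
    linarith
  rw [int_U1_scale (f := fun y => en (cu v y)) hτ, inv_pow, inv_mul_eq_div, div_le_div_iff₀
    (by positivity) (by positivity)]
  have h5 : ∫ y in eb x τ, en (cu v y) ≤ LC E0 K r * τ := by
    refine h3.trans ?_
    unfold LC
    rw [← hR]
    have h6 : 0 ≤ CFx * (2 * τ / R) := by positivity
    calc CFx * (2 * τ / R) * ((∫ y in ball xE R, ‖w y‖) + 8 * K * (v3 * R ^ 3))
        ≤ CFx * (2 * τ / R) * ((hh (1 / 4))⁻¹ * (12 * HB / R
            * Real.sqrt (v3 * (4 * R) ^ 3 * (27 * E0 ^ 2)) + 24 * v3 * K * R ^ 3)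
          + 8 * K * (v3 * R ^ 3)) := mul_le_mul_of_nonneg_left (by linarith) h6
      _ = _ := by ring
  calc (∫ y in eb x τ, en (cu v y)) * τ ^ 2 ≤ (LC E0 K r * τ) * τ ^ 2 :=
        mul_le_mul_of_nonneg_right h5 (by positivity)
    _ = _ := by ring

end

end Pool.Agent.R210
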