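import Pool.Agent.R210.MoS
import Pool.Agent.R210.Prod4
import Pool.Agent.H459R3.NS.Phys2

/-!
The square function estimate for the mollifications.
-/

open MeasureTheory Set Metric Filter Topology
open scoped ContDiff ENNReal
open H459R3.NS

namespace Pool.Agent.R210

theorem mo_U1 {K : V → ℝ} (h0 : ∀ z, 1 ≤ rsq z → K z = 0) (t : ℝ) (g : V → ℝ) (x : V) :
    mo K t g x = ∫ z in U1, K z * g (x - t • z) := by
  unfold mo
  rw [← integral_indicator measurable_U1]
  congr 1
  funext z
  by_cases hz : z ∈ U1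
  · rw [indicator_of_mem hz]
  · rw [indicator_of_notMem hz, h0 z (not_lt.1 hz), zero_mul]

theorem swap_U1c {G : V → V → ℂ} (hG : Continuous fun p : V × V => G p.1 p.2) :
    ∫ x in cube, ∫ z in U1, G x z = ∫ z in U1, ∫ x in cube, G x z := by
  refine integral_integral_swap ?_
  rw [Measure.prod_restrict]
  have h2 : IntegrableOn (fun p : V × V => G p.1 p.2) (cube ×ˢ closedBall (0 : V) 1)
      (volume.prod volume) := by
    rw [← Measure.volume_eq_prod]
    exact hG.continuousOn.integrableOn_compact (isCompact_Icc.prod (isCompact_closedBall _ _))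
  exact h2.mono_set (prod_mono subset_rfl U1_sub)

theorem fr_mo {K : V → ℝ} (hK : Continuous K) (h0 : ∀ z, 1 ≤ rsq z → K z = 0) {F : V → ℝ}
    (hF : SP F) (s : ℝ) (k : K3) :
    fr (mo K s F) k = (∫ z in U1, (K z : ℂ) * ee (-k) (s • z)) * fr F k := by
  have h1 : fr (mo K s F) k
      = ∫ x in cube, ∫ z in U1, ee (-k) x * ((K z : ℂ) * (F (x - s • z) : ℂ)) := by
    unfold fr fc
    refine integral_congr_ae (Filter.Eventually.of_forall fun x => ?_)
    simp only
    have e0 : ((∫ z in U1, K z * F (x - s • z) : ℝ) : ℂ)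
        = ∫ z in U1, ((K z * F (x - s • z) : ℝ) : ℂ) := integral_ofReal.symm
    rw [mo_U1 h0, integral_const_mul, e0]
    simp
  rw [h1, swap_U1c, ← integral_mul_const]
  · refine integral_congr_ae (Filter.Eventually.of_forall fun z => ?_)
    simp only
    have hp : Per fun x : V => ee (-k) (x + s • z) * (F x : ℂ) := by
      intro i x
      have e1 : x + Pi.single i 1 + s • z = (x + s • z) + Pi.single i 1 := by abel
      simp only
      rw [e1, ee_per (-k) i, hF.per i]
    have h2 := int_shift hp (-(s • z))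
    have h3 : ∀ x : V, ee (-k) (x + -(s • z) + s • z) * (F (x + -(s • z)) : ℂ)
        = ee (-k) x * (F (x - s • z) : ℂ) := by
      intro x
      rw [neg_add_cancel_right, sub_eq_add_neg]
    simp_rw [h3] at h2
    have h4 : ∫ x in cube, ee (-k) x * ((K z : ℂ) * (F (x - s • z) : ℂ))
        = (K z : ℂ) * ∫ x in cube, ee (-k) x * (F (x - s • z) : ℂ) := by
      rw [← integral_const_mul]
      congr 1
      funext x
      ring
    rw [h4, h2]
    have h5 : ∀ x : V, ee (-k) (x + s • z) * (F x : ℂ)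
        = ee (-k) (s • z) * (ee (-k) x * (F x : ℂ)) := by
      intro x
      rw [ee_add]; ring
    simp_rw [h5]
    rw [integral_const_mul]
    unfold fr fc
    ring
  · refine ((ee_continuous (-k)).comp continuous_fst).mul
      ((Complex.continuous_ofReal.comp (hK.comp continuous_snd)).mul
        (Complex.continuous_ofReal.comp (hF.cont.comp (by fun_prop))))

/-- The mass of the kernel. -/
noncomputable def mK (K : V → ℝ) : ℝ := ∫ z in U1, |K z|

theorem mK_nonneg (K : V → ℝ) : 0 ≤ mK K := integral_nonneg fun z => abs_nonneg _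

theorem norm_mult_le (K : V → ℝ) (s : ℝ) (k : K3) :
    ‖∫ z in U1, (K z : ℂ) * ee (-k) (s • z)‖ ≤ mK K := by
  refine (norm_integral_le_integral_norm _).trans (le_of_eq ?_)
  unfold mK
  congr 1
  funext z
  rw [norm_mul, norm_ee, mul_one, Complex.norm_real, Real.norm_eq_abs]

theorem norm_fr_mo {K : V → ℝ} (hK : Continuous K) (h0 : ∀ z, 1 ≤ rsq z → K z = 0) {F : V → ℝ}
    (hF : SP F) (s : ℝ) (k : K3) : ‖fr (mo K s F) k‖ ≤ mK K * ‖fr F k‖ := by
  rw [fr_mo hK h0 hF, norm_mul]
  exact mul_le_mul_of_nonneg_right (norm_mult_le K s k) (norm_nonneg _)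

theorem fr_smul' {F : V → ℝ} (s : ℝ) (k : K3) :
    fr (fun x => s * F x) k = (s : ℂ) * fr F k := by
  unfold fr fc
  rw [← integral_const_mul]
  congr 1
  funext x
  push_cast
  ring

theorem norm_fr_pd {F : V → ℝ} (hF : SP F) (j : Fin 3) (k : K3) :
    ‖fr (pd j F) k‖ = 2 * Real.pi * |(k j : ℝ)| * ‖fr F k‖ := by
  rw [fr_pd hF]
  unfold D
  rw [norm_mul, norm_mul, norm_mul, norm_mul]
  simp only [Complex.norm_I, mul_one, Complex.norm_real, Complex.norm_ofNat, Complex.norm_intCast,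
    Real.norm_eq_abs]
  rw [abs_of_pos Real.pi_pos]

theorem exists_N (k : K3) : ∃ j, |(k j : ℝ)| = N k := by
  obtain ⟨j, -, hj⟩ := Finset.exists_mem_eq_sup (Finset.univ : Finset (Fin 3))
    Finset.univ_nonempty fun j => (k j).natAbs
  refine ⟨j, ?_⟩
  unfold N
  rw [hj]
  rw [← Int.cast_abs, Int.abs_eq_natAbs]
  simp

theorem abs_le_N' (k : K3) (j : Fin 3) : |(k j : ℝ)| ≤ N k := by
  have := abs_le_N k j
  rwa [Complex.norm_intCast] at this

/-- The scale function. -/
noncomputable def gk (n s : ℝ) : ℝ := 4 * n ^ 2 * s / (1 + n ^ 2 * s ^ 2) ^ 2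

theorem gk_nonneg (n : ℝ) {s : ℝ} (hs : 0 ≤ s) : 0 ≤ gk n s := by
  unfold gk
  positivity

theorem gk_cont (n : ℝ) : Continuous (gk n) := by
  unfold gk
  refine Continuous.div (by fun_prop) (by fun_prop) fun s => ?_
  positivity

theorem lint_gk (n : ℝ) {T : ℝ} (hT : 0 < T) :
    ∫⁻ s in Ioo 0 T, ENNReal.ofReal (gk n s) ≤ ENNReal.ofReal 2 := by
  have hd : ∀ s : ℝ, HasDerivAt (fun s : ℝ => -2 / (1 + n ^ 2 * s ^ 2)) (gk n s) s := by
    intro s
    have h1 : HasDerivAt (fun s : ℝ => 1 + n ^ 2 * s ^ 2) (2 * n ^ 2 * s) s := by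
      have := ((hasDerivAt_id s).pow 2).const_mul (n ^ 2)
      refine (this.const_add 1).congr_deriv ?_
      simp
      ring
    have h2 := (h1.inv (by positivity)).const_mul (-2)
    refine (h2.congr_deriv ?_).congr_of_eventuallyEq (Filter.Eventually.of_forall fun s => ?_)
    · unfold gk
      field_simp
      ring
    · simp [div_eq_mul_inv]
  have hi : IntervalIntegrable (gk n) volume 0 T := (gk_cont n).intervalIntegrable _ _
  have h1 := intervalIntegral.integral_eq_sub_of_hasDerivAt (fun s _ => hd s) hi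
  have h2 : IntegrableOn (gk n) (Ioo 0 T) :=
    ((intervalIntegrable_iff_integrableOn_Ioo_of_le hT.le).1 hi)
  rw [← ofReal_integral_eq_lintegral_ofReal h2]
  · refine ENNReal.ofReal_le_ofReal ?_
    rw [← integral_Ioc_eq_integral_Ioo, ← intervalIntegral.integral_of_le hT.le, h1]
    have h3 : 0 ≤ 2 / (1 + n ^ 2 * T ^ 2) := by positivity
    have h4 : -2 / (1 + n ^ 2 * (0 : ℝ) ^ 2) = -2 := by norm_num
    rw [h4, neg_div]
    linarith
  · rw [EventuallyLE, ae_restrict_iff' measurableSet_Ioo]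
    exact Filter.Eventually.of_forall fun s hs => gk_nonneg n hs.1.le

theorem freq_bound (i : Fin 3) : ∃ A : ℝ, 0 ≤ A ∧ ∀ (F : V → ℝ) (s : ℝ) (k : K3), SP F → 0 < s →
    s⁻¹ * ‖fr (mo (pd i psi) s F) k‖ ^ 2 ≤ (A * ‖fr F k‖) ^ 2 * gk (N k) s := by
  set B1 : ℝ := mK psi with hB1
  set B2 : ℝ := ∑ j, mK (pd j (pd i psi)) with hB2
  have hB10 : 0 ≤ B1 := mK_nonneg _
  have hB20 : 0 ≤ B2 := Finset.sum_nonneg fun j _ => mK_nonneg _
  have hpi : 1 ≤ 2 * Real.pi := by
    have := Real.pi_gt_three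
    linarith
  refine ⟨2 * Real.pi * B1 + B2, by positivity, fun F s k hF hs => ?_⟩
  set A : ℝ := 2 * Real.pi * B1 + B2 with hA
  set n : ℝ := ((N k : ℕ) : ℝ) with hn
  have hn0 : 0 ≤ n := by rw [hn]; positivity
  set X : ℝ := ‖fr (mo (pd i psi) s F) k‖ with hX
  set Y : ℝ := ‖fr F k‖ with hY
  have hX0 : 0 ≤ X := norm_nonneg _
  have hY0 : 0 ≤ Y := norm_nonneg _
  have hps := pd_smooth psi_smooth i
  have hpz : ∀ z, 1 ≤ rsq z → pd i psi z = 0 := pd_zero_of_rsq psi_smooth (fun _ hz => psi_zero hz) i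
  have hpc := pd_compact psi_compact i
  -- the small scales
  have h1 : X ≤ A * (s * n) * Y := by
    have e1 : mo (pd i psi) s F = fun x => s * mo psi s (pd i F) x := by
      funext x
      exact mo_pd psi_smooth psi_compact hF.smooth i s x
    have h2 : X ≤ s * (B1 * (2 * Real.pi * n * Y)) := by
      rw [hX, e1, fr_smul', norm_mul, Complex.norm_real, Real.norm_eq_abs, abs_of_pos hs]
      refine mul_le_mul_of_nonneg_left ?_ hs.le
      refine (norm_fr_mo psi_smooth.continuous (fun z hz => psi_zero hz) (hF.pd i) s k).trans ?_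
      refine mul_le_mul_of_nonneg_left ?_ hB10
      rw [norm_fr_pd hF]
      exact mul_le_mul_of_nonneg_right (mul_le_mul_of_nonneg_left (abs_le_N' k i) (by positivity))
        hY0
    have h3 : 0 ≤ B2 * (s * n) * Y := by positivity
    rw [hA]
    linarith
  -- the large scales
  have h2 : (s * n) * X ≤ A * Y := by
    obtain ⟨j, hj⟩ := exists_N k
    have e1 : mo (pd j (pd i psi)) s F = fun x => s * mo (pd i psi) s (pd j F) x := by
      funext x
      exact mo_pd hps hpc hF.smooth j s x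
    have h3 : s * (2 * Real.pi * n * X) = ‖fr (mo (pd j (pd i psi)) s F) k‖ := by
      rw [e1, fr_smul', norm_mul, Complex.norm_real, Real.norm_eq_abs, abs_of_pos hs]
      congr 1
      rw [fr_mo hps.continuous hpz (hF.pd j), norm_mul, norm_fr_pd hF, hj, hX,
        fr_mo hps.continuous hpz hF, norm_mul]
      ring
    have h4 : ‖fr (mo (pd j (pd i psi)) s F) k‖ ≤ B2 * Y := by
      refine (norm_fr_mo (pd_smooth hps j).continuous (pd_zero_of_rsq hps hpz j) hF s k).trans ?_
      refine mul_le_mul_of_nonneg_right ?_ hY0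
      exact Finset.single_le_sum (f := fun j => mK (pd j (pd i psi))) (fun j _ => mK_nonneg _)
        (Finset.mem_univ j)
    rw [← h3] at h4
    have h5 : s * n * X ≤ s * (2 * Real.pi * n * X) := by
      have h6 : 0 ≤ s * n * X := by positivity
      nlinarith
    have h6 : 0 ≤ 2 * Real.pi * B1 * Y := by positivity
    rw [hA]
    linarith
  -- the combination
  have h3 : (1 + (s * n) ^ 2) * X ≤ 2 * (A * (s * n) * Y) := by
    have h4 : 0 ≤ s * n := by positivity
    have h5 := mul_le_mul_of_nonneg_left h2 h4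
    nlinarith
  have h4 : 0 < 1 + (s * n) ^ 2 := by positivity
  have h5 : X ≤ 2 * (A * (s * n) * Y) / (1 + (s * n) ^ 2) := by
    rw [le_div_iff₀ h4]; linarith
  have h6 : X ^ 2 ≤ (2 * (A * (s * n) * Y) / (1 + (s * n) ^ 2)) ^ 2 := pow_le_pow_left₀ hX0 h5 2
  calc s⁻¹ * X ^ 2 ≤ s⁻¹ * (2 * (A * (s * n) * Y) / (1 + (s * n) ^ 2)) ^ 2 :=
        mul_le_mul_of_nonneg_left h6 (by positivity)
    _ = (A * Y) ^ 2 * gk n s := by
        unfold gk
        field_simp
        ring

theorem sq_fun (i : Fin 3) : ∃ C : ℝ, 0 ≤ C ∧ ∀ (F : V → ℝ) (T : ℝ), SP F → 0 < T →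
    ∫⁻ s in Ioo 0 T, ENNReal.ofReal (s⁻¹ * ∫ x in cube, mo (pd i psi) s F x ^ 2)
      ≤ ENNReal.ofReal (C * ∫ x in cube, F x ^ 2) := by
  obtain ⟨A, hA, hf⟩ := freq_bound i
  refine ⟨2 * A ^ 2, by positivity, fun F T hF hT => ?_⟩
  have hps := pd_smooth psi_smooth i
  have hpc := pd_compact psi_compact i
  have hFs : Summable fun k => ‖fr F k‖ ^ 2 := summable_sq (rap_fr hF).summable
  have h1 : ∀ s : ℝ, 0 < s → ENNReal.ofReal (s⁻¹ * ∫ x in cube, mo (pd i psi) s F x ^ 2)
      ≤ ∑' k, ENNReal.ofReal ((A * ‖fr F k‖) ^ 2) * ENNReal.ofReal (gk (N k) s) := by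
    intro s hs
    have hm : SP (mo (pd i psi) s F) := sp_mo hps.continuous hpc hF s
    rw [← n2_fr hm, n2_sq, ← tsum_mul_left, ENNReal.ofReal_tsum_of_nonneg]
    · refine ENNReal.tsum_le_tsum fun k => ?_
      rw [← ENNReal.ofReal_mul (sq_nonneg _)]
      exact ENNReal.ofReal_le_ofReal (hf F s k hF hs)
    · intro k; positivity
    · exact (summable_sq (rap_fr hm).summable).mul_left _
  calc ∫⁻ s in Ioo 0 T, ENNReal.ofReal (s⁻¹ * ∫ x in cube, mo (pd i psi) s F x ^ 2)
      ≤ ∫⁻ s in Ioo 0 T, ∑' k, ENNReal.ofReal ((A * ‖fr F k‖) ^ 2) * ENNReal.ofReal (gk (N k) s) :=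
        setLIntegral_mono' measurableSet_Ioo fun s hs => h1 s hs.1
    _ = ∑' k, ∫⁻ s in Ioo 0 T, ENNReal.ofReal ((A * ‖fr F k‖) ^ 2) * ENNReal.ofReal (gk (N k) s) :=
        lintegral_tsum fun k => (((gk_cont (N k)).measurable.ennreal_ofReal).const_mul
          _).aemeasurable
    _ ≤ ∑' k, ENNReal.ofReal ((A * ‖fr F k‖) ^ 2) * ENNReal.ofReal 2 := by
        refine ENNReal.tsum_le_tsum fun k => ?_
        rw [lintegral_const_mul' _ _ ENNReal.ofReal_ne_top]
        exact mul_le_mul_right (lint_gk _ hT) _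
    _ = ENNReal.ofReal (2 * A ^ 2 * ∫ x in cube, F x ^ 2) := by
        rw [← n2_fr hF, n2_sq, ← tsum_mul_left, ENNReal.ofReal_tsum_of_nonneg]
        · refine tsum_congr fun k => ?_
          rw [← ENNReal.ofReal_mul (sq_nonneg _)]
          congr 1
          ring
        · intro k; positivity
        · exact hFs.mul_left _

end Pool.Agent.R210
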