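import Pool.Agent.R210.Q3
import Pool.Agent.R210.N8

/-!
The localized square function estimate.
-/

open MeasureTheory Set Metric Filter Topology
open scoped ContDiff ENNReal
open H459R3.NS

namespace Pool.Agent.R210

/-- The square function up to the scale `τ`. -/
noncomputable def Sk (i : Fin 3) (h : V → ℝ) (τ : ℝ) (x : V) : ℝ :=
  ∫ t in (0 : ℝ)..τ, t * mo psi t (pd i h) x ^ 2

theorem Sk_integrand_cont {h : V → ℝ} (hh : SP h) (i : Fin 3) :
    Continuous fun p : V × ℝ => p.2 * mo psi p.2 (pd i h) p.1 ^ 2 := by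
  have h1 := mo_cont psi_smooth.continuous psi_compact (hh.pd i).cont (hh.pd i).per
  have h2 : Continuous fun p : V × ℝ => mo psi p.2 (pd i h) p.1 :=
    h1.comp (continuous_snd.prodMk continuous_fst)
  exact continuous_snd.mul (h2.pow 2)

theorem Sk_cont {h : V → ℝ} (hh : SP h) (i : Fin 3) {τ : V → ℝ} (hτ : Continuous τ) :
    Continuous fun x => Sk i h (τ x) x :=
  intervalIntegral.continuous_parametric_intervalIntegral_of_continuous
    (f := fun x t => t * mo psi t (pd i h) x ^ 2) (Sk_integrand_cont hh i) hτ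

theorem Sk_nonneg (i : Fin 3) (h : V → ℝ) {τ : ℝ} (hτ : 0 ≤ τ) (x : V) : 0 ≤ Sk i h τ x := by
  unfold Sk
  refine intervalIntegral.integral_nonneg hτ fun t ht => ?_
  exact mul_nonneg ht.1 (sq_nonneg _)

theorem cs_U1 {g : V → ℝ} (hg : Continuous g) :
    (∫ z in U1, g z) ^ 2 ≤ vU * ∫ z in U1, g z ^ 2 := by
  have h1 := integral_mul_sq_le (μ := volume.restrict U1) (a := fun _ : V => (1 : ℝ)) (b := g)
    (int_U1 (by fun_prop)) (int_U1 (hg.pow 2)) (int_U1 (by fun_prop))
  simp only [one_mul, one_pow] at h1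
  refine h1.trans (le_of_eq ?_)
  rw [setIntegral_const]
  simp [vU, Measure.real]

/-- The weight of the commutator. -/
noncomputable def wt (χ : V → ℝ) (M t : ℝ) (y : V) : ℝ := 2 * χ y ^ 2 / (χ y ^ 2 + M ^ 2 * t ^ 2)

/-- The density of the commutator. -/
noncomputable def qq (χ h : V → ℝ) (M t : ℝ) (y : V) : ℝ := (χ y * |h y| * wt χ M t y) ^ 2

theorem qq_cont {χ h : V → ℝ} (hχ : Continuous χ) (hh : Continuous h) {M t : ℝ} (hM : 0 < M)
    (ht : 0 < t) : Continuous fun y => χ y * |h y| * wt χ M t y := by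
  unfold wt
  refine (hχ.mul hh.abs).mul (Continuous.div (by fun_prop) (by fun_prop) fun y => ?_)
  positivity

theorem qq_meas {χ h : V → ℝ} (hχ : Continuous χ) (hh : Continuous h) (M : ℝ) :
    Measurable fun p : ℝ × V => qq χ h M p.1 p.2 := by
  have h1 := hχ.measurable
  have h2 := hh.measurable
  unfold qq wt
  fun_prop

theorem comm_le {χ h : V → ℝ} (hχ : SP χ) (hh : SP h) (hχ0 : ∀ x, 0 ≤ χ x) {M : ℝ} (hM : 0 < M)
    (hLip : ∀ x y, |χ x - χ y| ≤ M * en (x - y)) (i : Fin 3) {t : ℝ} (ht : 0 < t) {x : V}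
    (htx : t ≤ χ x / (2 * M)) :
    χ x ^ 4 * (t * mo psi t (pd i h) x ^ 2)
      ≤ 2 * (t * mo psi t (pd i (fun y => χ y ^ 2 * h y)) x ^ 2)
        + 18 * M ^ 2 * BB ^ 2 * vU * t * ∫ z in U1, qq χ h M t (x - t • z) := by
  have hBB := one_le_BB
  have hvU := vU_nonneg
  set κ : V → ℝ := pd i psi with hκ
  have hκs : ContDiff ℝ ∞ κ := pd_smooth psi_smooth i
  have hκ0 : ∀ z, 1 ≤ rsq z → κ z = 0 := pd_zero_of_rsq psi_smooth (fun _ hz => psi_zero hz) i
  have hF : SP fun y => χ y ^ 2 * h y := by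
    have : (fun y => χ y ^ 2 * h y) = fun y => (χ y * χ y) * h y := by funext y; ring
    rw [this]
    exact (hχ.mul hχ).mul hh
  have e1 : mo κ t h x = t * mo psi t (pd i h) x := mo_pd psi_smooth psi_compact hh.smooth i t x
  have e2 : mo κ t (fun y => χ y ^ 2 * h y) x = t * mo psi t (pd i (fun y => χ y ^ 2 * h y)) x :=
    mo_pd psi_smooth psi_compact hF.smooth i t x
  have htx' : 2 * M * t ≤ χ x := by
    rw [le_div_iff₀ (by positivity)] at htx
    linarith
  -- the commutator
  have hg : Continuous fun z : V => x - t • z := by fun_prop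
  have hq := (qq_cont hχ.cont hh.cont hM ht).comp hg
  have hR : |χ x ^ 2 * mo κ t h x - mo κ t (fun y => χ y ^ 2 * h y) x|
      ≤ 3 * M * BB * t * ∫ z in U1, χ (x - t • z) * |h (x - t • z)| * wt χ M t (x - t • z) := by
    rw [mo_U1 hκ0, mo_U1 hκ0, ← integral_const_mul, ← integral_sub, ← integral_const_mul]
    · refine abs_integral_le_integral_abs.trans (setIntegral_mono_on (int_U1 ?_) (int_U1 ?_)
        measurable_U1 fun z hz => ?_)
      · exact ((continuous_const.mul (hκs.continuous.mul (hh.cont.comp hg))).sub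
          (hκs.continuous.mul (hF.cont.comp hg))).abs
      · exact continuous_const.mul hq
      · set y : V := x - t • z with hy
        have hz1 : en z ≤ 1 := by
          unfold en
          rw [← Real.sqrt_one]
          exact Real.sqrt_le_sqrt (le_of_lt hz)
        have hxy : en (x - y) ≤ t := by
          have : x - y = t • z := by rw [hy]; abel
          rw [this, en_smul, abs_of_pos ht]
          exact mul_le_of_le_one_right ht.le hz1
        have h1 := abs_le.1 ((hLip x y).trans (mul_le_mul_of_nonneg_left hxy hM.le))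
        have h2 : M * t ≤ χ y := by linarith
        have h3 : χ x ≤ 2 * χ y := by linarith
        have hy0 := hχ0 y
        have hx0 := hχ0 x
        have h4 : 1 ≤ wt χ M t y := by
          unfold wt
          have h5 : (M * t) ^ 2 ≤ χ y ^ 2 := pow_le_pow_left₀ (by positivity) h2 2
          rw [one_le_div (by positivity)]
          nlinarith
        have h5 : |χ x ^ 2 - χ y ^ 2| ≤ 3 * M * t * χ y := by
          have e3 : χ x ^ 2 - χ y ^ 2 = (χ x - χ y) * (χ x + χ y) := by ring
          rw [e3, abs_mul, abs_of_nonneg (by linarith : 0 ≤ χ x + χ y)]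
          have h6 : |χ x - χ y| ≤ M * t := (hLip x y).trans (mul_le_mul_of_nonneg_left hxy hM.le)
          calc |χ x - χ y| * (χ x + χ y) ≤ M * t * (3 * χ y) :=
                mul_le_mul h6 (by linarith) (by linarith) (by positivity)
            _ = 3 * M * t * χ y := by ring
        have e4 : χ x ^ 2 * (κ z * h y) - κ z * (χ y ^ 2 * h y)
            = κ z * ((χ x ^ 2 - χ y ^ 2) * h y) := by ring
        rw [e4, abs_mul, abs_mul]
        have h6 : |κ z| ≤ BB := pd_psi_le i z
        have h7 : |χ x ^ 2 - χ y ^ 2| * |h y| ≤ 3 * M * t * χ y * |h y| :=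
          mul_le_mul_of_nonneg_right h5 (abs_nonneg _)
        have h8 : 0 ≤ 3 * M * t * χ y * |h y| := by positivity
        calc |κ z| * (|χ x ^ 2 - χ y ^ 2| * |h y|) ≤ BB * (3 * M * t * χ y * |h y|) :=
              mul_le_mul h6 h7 (by positivity) (by linarith)
          _ ≤ BB * (3 * M * t * χ y * |h y|) * wt χ M t y :=
              le_mul_of_one_le_right (by positivity) h4
          _ = _ := by ring
    · exact int_U1 (continuous_const.mul (hκs.continuous.mul (hh.cont.comp hg)))
    · exact int_U1 (hκs.continuous.mul (hF.cont.comp hg))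
  set I := ∫ z in U1, χ (x - t • z) * |h (x - t • z)| * wt χ M t (x - t • z) with hI
  have hI2 : I ^ 2 ≤ vU * ∫ z in U1, qq χ h M t (x - t • z) := cs_U1 hq
  set a := χ x ^ 2 * mo κ t h x with ha
  set b := mo κ t (fun y => χ y ^ 2 * h y) x with hb
  have hab : a ^ 2 ≤ 2 * b ^ 2 + 2 * (3 * M * BB * t * I) ^ 2 := by
    have h1 : (a - b) ^ 2 ≤ (3 * M * BB * t * I) ^ 2 := by
      rw [← sq_abs (a - b)]
      exact pow_le_pow_left₀ (abs_nonneg _) hR 2
    nlinarith [sq_nonneg (a - 2 * b)]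
  have h1 : t * (χ x ^ 4 * (t * mo psi t (pd i h) x ^ 2)) = a ^ 2 := by
    rw [ha, e1]; ring
  have h2 : t * (2 * (t * mo psi t (pd i (fun y => χ y ^ 2 * h y)) x ^ 2)) = 2 * b ^ 2 := by
    rw [e2]; ring
  have h3 : 2 * (3 * M * BB * t * I) ^ 2
      ≤ t * (18 * M ^ 2 * BB ^ 2 * vU * t * ∫ z in U1, qq χ h M t (x - t • z)) := by
    have h4 : 0 ≤ 18 * M ^ 2 * BB ^ 2 * t ^ 2 := by positivity
    have h5 := mul_le_mul_of_nonneg_left hI2 h4
    calc 2 * (3 * M * BB * t * I) ^ 2 = 18 * M ^ 2 * BB ^ 2 * t ^ 2 * I ^ 2 := by ring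
      _ ≤ _ := h5
      _ = _ := by ring
  refine le_of_mul_le_mul_left ?_ ht
  rw [h1, mul_add, h2]
  linarith

theorem lint_wt (a M : ℝ) (hM : 0 < M) {T : ℝ} (hT : 0 < T) :
    ∫⁻ t in Ioo 0 T, ENNReal.ofReal (t * (2 * a ^ 2 / (a ^ 2 + M ^ 2 * t ^ 2)) ^ 2)
      ≤ ENNReal.ofReal (2 * (a ^ 2 / M ^ 2)) := by
  by_cases ha : a = 0
  · subst ha
    simp
  have hn : ∀ t : ℝ, t * (2 * a ^ 2 / (a ^ 2 + M ^ 2 * t ^ 2)) ^ 2
      = a ^ 2 / M ^ 2 * gk (M / a) t := by
    intro t
    unfold gk
    have h1 : a ^ 2 + M ^ 2 * t ^ 2 ≠ 0 := by positivity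
    have h2 : 1 + (M / a) ^ 2 * t ^ 2 ≠ 0 := by positivity
    field_simp
    ring
  simp_rw [hn]
  have h0 : 0 ≤ a ^ 2 / M ^ 2 := by positivity
  simp_rw [ENNReal.ofReal_mul h0]
  rw [lintegral_const_mul' _ _ ENNReal.ofReal_ne_top, mul_comm (2 : ℝ), ENNReal.ofReal_mul h0]
  exact mul_le_mul_right (lint_gk _ hT) _

theorem lint_qq {χ h : V → ℝ} (hχ : SP χ) (hh : SP h) {M T : ℝ} (hM : 0 < M) (hT : 0 < T) :
    ∫⁻ x in cube, ∫⁻ t in Ioo 0 T, ENNReal.ofReal t
        * ∫⁻ z in U1, ENNReal.ofReal (qq χ h M t (x - t • z))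
      ≤ ENNReal.ofReal (2 * vU / M ^ 2 * ∫ x in cube, χ x ^ 4 * h x ^ 2) := by
  have hqm := qq_meas hχ.cont hh.cont M
  have hm1 : Measurable fun p : (V × ℝ) × V => ENNReal.ofReal (qq χ h M p.1.2 (p.1.1 - p.1.2 • p.2)) := by
    have h1 : Continuous fun p : (V × ℝ) × V => (p.1.2, p.1.1 - p.1.2 • p.2) := by fun_prop
    exact (hqm.comp h1.measurable).ennreal_ofReal
  have hm2 : Measurable fun p : V × ℝ => ENNReal.ofReal p.2
      * ∫⁻ z in U1, ENNReal.ofReal (qq χ h M p.2 (p.1 - p.2 • z)) :=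
    measurable_snd.ennreal_ofReal.mul hm1.lintegral_prod_right'
  have hper : ∀ t, Per fun x => ENNReal.ofReal (qq χ h M t x) := by
    intro t j x
    simp only [qq, wt, hχ.per j x, hh.per j x]
  rw [lintegral_lintegral_swap hm2.aemeasurable]
  have hin : ∀ t : ℝ, ∫⁻ x in cube, ENNReal.ofReal t
        * ∫⁻ z in U1, ENNReal.ofReal (qq χ h M t (x - t • z))
      = ENNReal.ofReal vU * ∫⁻ x in cube, ENNReal.ofReal (t * 1) * ENNReal.ofReal (qq χ h M t x) := by
    intro t
    rw [lintegral_const_mul' _ _ ENNReal.ofReal_ne_top]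
    have hm3 : Measurable fun p : V × V => ENNReal.ofReal (qq χ h M t (p.1 - t • p.2)) := by
      have h1 : Continuous fun p : V × V => (t, p.1 - t • p.2) := by fun_prop
      exact (hqm.comp h1.measurable).ennreal_ofReal
    rw [lintegral_lintegral_swap hm3.aemeasurable]
    have h2 : ∀ z : V, ∫⁻ x in cube, ENNReal.ofReal (qq χ h M t (x - t • z))
        = ∫⁻ x in cube, ENNReal.ofReal (qq χ h M t x) := by
      intro z
      have := lint_shift (hper t) (-(t • z))
      simpa [sub_eq_add_neg] using this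
    simp_rw [h2]
    rw [lintegral_const, Measure.restrict_apply_univ, mul_one,
      lintegral_const_mul' _ _ ENNReal.ofReal_ne_top]
    have h3 : volume U1 = ENNReal.ofReal vU := by
      unfold vU
      rw [ENNReal.ofReal_toReal U1_fin]
    rw [h3]
    ring
  simp_rw [hin]
  have hm4 : Measurable fun p : ℝ × V => ENNReal.ofReal (p.1 * 1) * ENNReal.ofReal (qq χ h M p.1 p.2) :=
    (measurable_fst.mul_const 1).ennreal_ofReal.mul hqm.ennreal_ofReal
  rw [lintegral_const_mul' _ _ ENNReal.ofReal_ne_top, lintegral_lintegral_swap hm4.aemeasurable]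
  have hx : ∀ x : V, ∫⁻ t in Ioo 0 T, ENNReal.ofReal (t * 1) * ENNReal.ofReal (qq χ h M t x)
      ≤ ENNReal.ofReal (2 / M ^ 2 * (χ x ^ 4 * h x ^ 2)) := by
    intro x
    have h1 : ∀ t ∈ Ioo 0 T, ENNReal.ofReal (t * 1) * ENNReal.ofReal (qq χ h M t x)
        = ENNReal.ofReal (χ x ^ 2 * h x ^ 2)
          * ENNReal.ofReal (t * (2 * χ x ^ 2 / (χ x ^ 2 + M ^ 2 * t ^ 2)) ^ 2) := by
      intro t ht
      rw [← ENNReal.ofReal_mul (by have := ht.1; linarith), ← ENNReal.ofReal_mul (by positivity)]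
      congr 1
      unfold qq wt
      rw [mul_pow, mul_pow, sq_abs]
      ring
    rw [setLIntegral_congr_fun measurableSet_Ioo h1,
      lintegral_const_mul' _ _ ENNReal.ofReal_ne_top]
    calc ENNReal.ofReal (χ x ^ 2 * h x ^ 2) * ∫⁻ t in Ioo 0 T,
          ENNReal.ofReal (t * (2 * χ x ^ 2 / (χ x ^ 2 + M ^ 2 * t ^ 2)) ^ 2)
        ≤ ENNReal.ofReal (χ x ^ 2 * h x ^ 2) * ENNReal.ofReal (2 * (χ x ^ 2 / M ^ 2)) :=
          mul_le_mul_right (lint_wt _ M hM hT) _
      _ = _ := by
          rw [← ENNReal.ofReal_mul (by positivity)]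
          congr 1
          ring
  refine (mul_le_mul_right (lintegral_mono hx) _).trans (le_of_eq ?_)
  have hc : Continuous fun x => χ x ^ 4 * h x ^ 2 := (hχ.cont.pow 4).mul (hh.cont.pow 2)
  have hi : IntegrableOn (fun x => 2 / M ^ 2 * (χ x ^ 4 * h x ^ 2)) cube :=
    integrableOn_cube (continuous_const.mul hc)
  rw [← ofReal_integral_eq_lintegral_ofReal hi (Filter.Eventually.of_forall fun x => by positivity),
    ← ENNReal.ofReal_mul vU_nonneg, integral_const_mul]
  congr 1
  ring

theorem lsq (i : Fin 3) : ∃ C : ℝ, 0 ≤ C ∧ ∀ (χ h : V → ℝ) (M T : ℝ), SP χ → SP h →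
    (∀ x, 0 ≤ χ x) → 0 < M → (∀ x y, |χ x - χ y| ≤ M * en (x - y)) → 0 < T →
    ∫ x in cube, χ x ^ 4 * Sk i h (min T (χ x / (2 * M))) x
      ≤ C * ∫ x in cube, χ x ^ 4 * h x ^ 2 := by
  obtain ⟨C, hC, hsq⟩ := sq_fun i
  have hBB := one_le_BB
  have hvU := vU_nonneg
  refine ⟨2 * C + 36 * BB ^ 2 * vU ^ 2, by positivity, fun χ h M T hχ hh hχ0 hM hLip hT => ?_⟩
  set F : V → ℝ := fun y => χ y ^ 2 * h y with hF
  have hFs : SP F := by
    have : F = fun y => (χ y * χ y) * h y := by funext y; rw [hF]; ring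
    rw [this]
    exact (hχ.mul hχ).mul hh
  set Y : ℝ := ∫ x in cube, χ x ^ 4 * h x ^ 2 with hY
  have hFY : ∫ x in cube, F x ^ 2 = Y := by
    rw [hY]
    congr 1
    funext x
    rw [hF]; ring
  have hY0 : 0 ≤ Y := integral_nonneg fun x => by positivity
  set τ : V → ℝ := fun x => min T (χ x / (2 * M)) with hτ
  have hτc : Continuous τ := continuous_const.min (hχ.cont.div_const _)
  have hτ0 : ∀ x, 0 ≤ τ x := fun x => le_min hT.le (div_nonneg (hχ0 x) (by positivity))
  have hcont : Continuous fun x => χ x ^ 4 * Sk i h (τ x) x :=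
    (hχ.cont.pow 4).mul (Sk_cont hh i hτc)
  have hnn : ∀ x, 0 ≤ χ x ^ 4 * Sk i h (τ x) x := fun x =>
    mul_nonneg (by positivity) (Sk_nonneg i h (hτ0 x) x)
  set c : ℝ := 18 * M ^ 2 * BB ^ 2 * vU with hc
  have hc0 : 0 ≤ c := by positivity
  -- the pointwise bound
  have hpt : ∀ x, ENNReal.ofReal (χ x ^ 4 * Sk i h (τ x) x)
      ≤ (∫⁻ t in Ioo 0 T, ENNReal.ofReal (2 * (t * mo psi t (pd i F) x ^ 2)))
        + ENNReal.ofReal c * ∫⁻ t in Ioo 0 T, ENNReal.ofReal t
          * ∫⁻ z in U1, ENNReal.ofReal (qq χ h M t (x - t • z)) := by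
    intro x
    have hsec : Continuous fun t : ℝ => χ x ^ 4 * (t * mo psi t (pd i h) x ^ 2) :=
      continuous_const.mul ((Sk_integrand_cont hh i).comp (continuous_const.prodMk continuous_id))
    have h1 : χ x ^ 4 * Sk i h (τ x) x
        = ∫ t in Ioo 0 (τ x), χ x ^ 4 * (t * mo psi t (pd i h) x ^ 2) := by
      unfold Sk
      rw [← intervalIntegral.integral_const_mul, intervalIntegral.integral_of_le (hτ0 x),
        integral_Ioc_eq_integral_Ioo]
    have hi : IntegrableOn (fun t : ℝ => χ x ^ 4 * (t * mo psi t (pd i h) x ^ 2)) (Ioo 0 (τ x)) :=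
      (intervalIntegrable_iff_integrableOn_Ioo_of_le (hτ0 x)).1 (hsec.intervalIntegrable _ _)
    rw [h1, ofReal_integral_eq_lintegral_ofReal hi]
    · calc ∫⁻ t in Ioo 0 (τ x), ENNReal.ofReal (χ x ^ 4 * (t * mo psi t (pd i h) x ^ 2))
          ≤ ∫⁻ t in Ioo 0 (τ x), (ENNReal.ofReal (2 * (t * mo psi t (pd i F) x ^ 2))
            + ENNReal.ofReal c * (ENNReal.ofReal t
              * ∫⁻ z in U1, ENNReal.ofReal (qq χ h M t (x - t • z)))) := by
            refine setLIntegral_mono' measurableSet_Ioo fun t ht => ?_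
            have hle := comm_le hχ hh hχ0 hM hLip i ht.1 (x := x)
              (ht.2.le.trans (min_le_right _ _))
            refine (ENNReal.ofReal_le_ofReal hle).trans ?_
            have hqi : IntegrableOn (fun z => qq χ h M t (x - t • z)) U1 :=
              int_U1 (((qq_cont hχ.cont hh.cont hM ht.1).comp (by fun_prop : Continuous fun z : V =>
                x - t • z)).pow 2)
            have hq0 : ∀ y, 0 ≤ qq χ h M t y := fun y => sq_nonneg _
            rw [ENNReal.ofReal_add (by have := ht.1; positivity)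
              (by
                have := ht.1
                exact mul_nonneg (by positivity) (integral_nonneg fun z => hq0 _)),
              ← ofReal_integral_eq_lintegral_ofReal hqi (Filter.Eventually.of_forall fun z => hq0 _),
              ← ENNReal.ofReal_mul ht.1.le, ← ENNReal.ofReal_mul hc0]
            refine add_le_add le_rfl (ENNReal.ofReal_le_ofReal (le_of_eq ?_))
            rw [hc]; ring
        _ ≤ ∫⁻ t in Ioo 0 T, (ENNReal.ofReal (2 * (t * mo psi t (pd i F) x ^ 2))
            + ENNReal.ofReal c * (ENNReal.ofReal t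
              * ∫⁻ z in U1, ENNReal.ofReal (qq χ h M t (x - t • z)))) :=
            lintegral_mono_set (Ioo_subset_Ioo le_rfl (min_le_left _ _))
        _ = _ := by
            rw [lintegral_add_left, lintegral_const_mul' _ _ ENNReal.ofReal_ne_top]
            have : Continuous fun t : ℝ => 2 * (t * mo psi t (pd i F) x ^ 2) :=
              continuous_const.mul ((Sk_integrand_cont hFs i).comp
                (continuous_const.prodMk continuous_id))
            exact this.measurable.ennreal_ofReal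
    · rw [EventuallyLE, ae_restrict_iff' measurableSet_Ioo]
      exact Filter.Eventually.of_forall fun t ht => by
        have := ht.1
        show 0 ≤ χ x ^ 4 * (t * mo psi t (pd i h) x ^ 2)
        positivity
  have hG1 : ∫⁻ x in cube, ∫⁻ t in Ioo 0 T, ENNReal.ofReal (2 * (t * mo psi t (pd i F) x ^ 2))
      ≤ ENNReal.ofReal (2 * C * Y) := by
    have hm : Measurable fun p : V × ℝ => ENNReal.ofReal (2 * (p.2 * mo psi p.2 (pd i F) p.1 ^ 2)) :=
      (continuous_const.mul (Sk_integrand_cont hFs i)).measurable.ennreal_ofReal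
    rw [lintegral_lintegral_swap hm.aemeasurable]
    have h1 : ∀ t ∈ Ioo 0 T, ∫⁻ x in cube, ENNReal.ofReal (2 * (t * mo psi t (pd i F) x ^ 2))
        = ENNReal.ofReal 2 * ENNReal.ofReal (t⁻¹ * ∫ x in cube, mo (pd i psi) t F x ^ 2) := by
      intro t ht
      have ht0 := ht.1
      rw [← ENNReal.ofReal_mul (by norm_num)]
      have hcx : Continuous fun x => 2 * (t * mo psi t (pd i F) x ^ 2) :=
        continuous_const.mul ((Sk_integrand_cont hFs i).comp (continuous_id.prodMk continuous_const))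
      rw [← ofReal_integral_eq_lintegral_ofReal (integrableOn_cube hcx)
        (Filter.Eventually.of_forall fun x => by positivity), integral_const_mul,
        integral_const_mul]
      congr 2
      have h2 : ∀ x, mo (pd i psi) t F x ^ 2 = t ^ 2 * mo psi t (pd i F) x ^ 2 := by
        intro x
        rw [mo_pd psi_smooth psi_compact hFs.smooth]; ring
      simp_rw [h2]
      rw [integral_const_mul]
      field_simp
    rw [setLIntegral_congr_fun measurableSet_Ioo h1,
      lintegral_const_mul' _ _ ENNReal.ofReal_ne_top]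
    refine (mul_le_mul_right (hsq F T hFs hT) _).trans (le_of_eq ?_)
    rw [hFY, ← ENNReal.ofReal_mul (by norm_num)]
    congr 1
    ring
  have hG2 : ∫⁻ x in cube, ENNReal.ofReal c * ∫⁻ t in Ioo 0 T, ENNReal.ofReal t
      * ∫⁻ z in U1, ENNReal.ofReal (qq χ h M t (x - t • z))
      ≤ ENNReal.ofReal (36 * BB ^ 2 * vU ^ 2 * Y) := by
    rw [lintegral_const_mul' _ _ ENNReal.ofReal_ne_top]
    refine (mul_le_mul_right (lint_qq hχ hh hM hT) _).trans (le_of_eq ?_)
    rw [← ENNReal.ofReal_mul hc0, ← hY]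
    congr 1
    rw [hc]
    field_simp
    ring
  have hfin : ENNReal.ofReal (∫ x in cube, χ x ^ 4 * Sk i h (τ x) x)
      ≤ ENNReal.ofReal ((2 * C + 36 * BB ^ 2 * vU ^ 2) * Y) := by
    rw [ofReal_integral_eq_lintegral_ofReal (integrableOn_cube hcont)
      (Filter.Eventually.of_forall hnn)]
    refine (lintegral_mono hpt).trans ?_
    rw [lintegral_add_left]
    · refine (add_le_add hG1 hG2).trans (le_of_eq ?_)
      rw [← ENNReal.ofReal_add (by positivity) (by positivity)]
      congr 1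
      ring
    · have hm : Measurable fun p : V × ℝ =>
          ENNReal.ofReal (2 * (p.2 * mo psi p.2 (pd i F) p.1 ^ 2)) :=
        (continuous_const.mul (Sk_integrand_cont hFs i)).measurable.ennreal_ofReal
      exact hm.lintegral_prod_right'
  exact (ENNReal.ofReal_le_ofReal_iff (by positivity)).1 hfin

end Pool.Agent.R210
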