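import Pool.Agent.R210.Q2
import Pool.Agent.R210.Q4
import Pool.Agent.R210.N7

/-!
Pointwise bounds by the square function.
-/

open MeasureTheory Set Metric Filter Topology
open scoped ContDiff ENNReal
open H459R3.NS

namespace Pool.Agent.R210

theorem cs_int {g : ℝ → ℝ} (hg : Continuous g) {t : ℝ} (ht : 0 ≤ t) :
    |∫ s in (0 : ℝ)..t, s * g s| ≤ t * Real.sqrt (∫ s in (0 : ℝ)..t, s * g s ^ 2) := by
  have hI0 : 0 ≤ ∫ s in (0 : ℝ)..t, s * g s ^ 2 :=
    intervalIntegral.integral_nonneg ht fun s hs => mul_nonneg hs.1 (sq_nonneg _)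
  have c1 : Continuous fun s : ℝ => s * g s := continuous_id.mul hg
  have c2 : Continuous fun s : ℝ => s * g s ^ 2 := continuous_id.mul (hg.pow 2)
  have hR : ∀ {f : ℝ → ℝ}, Continuous f → IntegrableOn f (Ioc 0 t) := fun hf =>
    (hf.continuousOn.integrableOn_compact isCompact_Icc).mono_set Ioc_subset_Icc_self
  have h1 := integral_mul_sq_le (μ := volume.restrict (Ioc 0 t)) (a := fun s : ℝ => Real.sqrt s)
    (b := fun s => Real.sqrt s * g s) (hR (by fun_prop)) (hR (by fun_prop)) (hR (by fun_prop))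
  have e1 : ∫ s in Ioc 0 t, Real.sqrt s * (Real.sqrt s * g s) = ∫ s in (0 : ℝ)..t, s * g s := by
    rw [intervalIntegral.integral_of_le ht]
    refine setIntegral_congr_fun measurableSet_Ioc fun s hs => ?_
    rw [← mul_assoc, Real.mul_self_sqrt hs.1.le]
  have e2 : ∫ s in Ioc 0 t, Real.sqrt s ^ 2 = t ^ 2 / 2 := by
    have : ∫ s in Ioc 0 t, Real.sqrt s ^ 2 = ∫ s in (0 : ℝ)..t, s := by
      rw [intervalIntegral.integral_of_le ht]
      exact setIntegral_congr_fun measurableSet_Ioc fun s hs => Real.sq_sqrt hs.1.le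
    rw [this, integral_id]
    ring
  have e3 : ∫ s in Ioc 0 t, (Real.sqrt s * g s) ^ 2 = ∫ s in (0 : ℝ)..t, s * g s ^ 2 := by
    rw [intervalIntegral.integral_of_le ht]
    refine setIntegral_congr_fun measurableSet_Ioc fun s hs => ?_
    rw [mul_pow, Real.sq_sqrt hs.1.le]
  rw [e1, e2, e3] at h1
  refine abs_le_of_sq_le_sq ?_ (by positivity)
  rw [mul_pow, Real.sq_sqrt hI0]
  have : 0 ≤ t ^ 2 := sq_nonneg t
  nlinarith

/-- The full square function of the gradient. -/
noncomputable def SS (w : V → V) (τ : ℝ) (x : V) : ℝ :=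
  ∑ i, ∑ l, ∑ m, Sk i (pd l (fun y => w y m)) τ x

/-- The average over the ball of radius `t`. -/
noncomputable def Va (w : V → V) (t : ℝ) (x : V) : ℝ := ∫ z in U1, en (w (x - t • z))

theorem en_le_sum3 (a : V) : en a ≤ ∑ i, |a i| := by
  have h0 : 0 ≤ ∑ i, |a i| := Finset.sum_nonneg fun i _ => abs_nonneg _
  refine le_of_sq_le_sq ?_ h0
  rw [en_sq]
  unfold rsq
  rw [Fin.sum_univ_three, Fin.sum_univ_three, ← sq_abs (a 0), ← sq_abs (a 1), ← sq_abs (a 2)]
  have h1 := abs_nonneg (a 0)
  have h2 := abs_nonneg (a 1)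
  have h3 := abs_nonneg (a 2)
  nlinarith [mul_nonneg h1 h2, mul_nonneg h1 h3, mul_nonneg h2 h3]

theorem Va_nonneg (w : V → V) (t : ℝ) (x : V) : 0 ≤ Va w t x := integral_nonneg fun _ => en_nonneg _

section

variable {w : V → V} (hw : ∀ i, SP (fun x => w x i))

include hw in
theorem Sk_mono (i l m : Fin 3) {t τ : ℝ} (ht : 0 ≤ t) (htτ : t ≤ τ) (x : V) :
    Sk i (pd l (fun y => w y m)) t x ≤ Sk i (pd l (fun y => w y m)) τ x := by
  have hc : Continuous fun s : ℝ => s * mo psi s (pd i (pd l (fun y => w y m))) x ^ 2 :=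
    (Sk_integrand_cont ((hw m).pd l) i).comp (continuous_const.prodMk continuous_id)
  unfold Sk
  rw [← intervalIntegral.integral_add_adjacent_intervals (hc.intervalIntegrable 0 t)
    (hc.intervalIntegrable t τ)]
  have : 0 ≤ ∫ s in t..τ, s * mo psi s (pd i (pd l (fun y => w y m))) x ^ 2 :=
    intervalIntegral.integral_nonneg htτ fun s hs => mul_nonneg (ht.trans hs.1) (sq_nonneg _)
  linarith

theorem SS_nonneg (w : V → V) {τ : ℝ} (hτ : 0 ≤ τ) (x : V) : 0 ≤ SS w τ x :=
  Finset.sum_nonneg fun i _ => Finset.sum_nonneg fun _ _ => Finset.sum_nonneg fun _ _ =>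
    Sk_nonneg i _ hτ x

theorem Sk_le_SS (w : V → V) (i l m : Fin 3) {τ : ℝ} (hτ : 0 ≤ τ) (x : V) :
    Sk i (pd l (fun y => w y m)) τ x ≤ SS w τ x := by
  unfold SS
  refine le_trans ?_ (Finset.single_le_sum (f := fun i => ∑ l, ∑ m,
    Sk i (pd l (fun y => w y m)) τ x) (fun i _ => Finset.sum_nonneg fun _ _ =>
      Finset.sum_nonneg fun _ _ => Sk_nonneg i _ hτ x) (Finset.mem_univ i))
  refine le_trans ?_ (Finset.single_le_sum (f := fun l => ∑ m,
    Sk i (pd l (fun y => w y m)) τ x) (fun _ _ =>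
      Finset.sum_nonneg fun _ _ => Sk_nonneg i _ hτ x) (Finset.mem_univ l))
  exact Finset.single_le_sum (f := fun m => Sk i (pd l (fun y => w y m)) τ x)
    (fun _ _ => Sk_nonneg i _ hτ x) (Finset.mem_univ m)

include hw in
theorem Sk_sqrt_le (i l m : Fin 3) {t τ : ℝ} (ht : 0 ≤ t) (htτ : t ≤ τ) (x : V) :
    |∫ s in (0 : ℝ)..t, s * mo psi s (pd i (pd l (fun y => w y m))) x|
      ≤ t * Real.sqrt (SS w τ x) := by
  have hc : Continuous fun s : ℝ => mo psi s (pd i (pd l (fun y => w y m))) x :=
    (mo_cont psi_smooth.continuous psi_compact (((hw m).pd l).pd i).cont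
      (((hw m).pd l).pd i).per).comp (continuous_id.prodMk continuous_const)
  refine (cs_int hc ht).trans (mul_le_mul_of_nonneg_left (Real.sqrt_le_sqrt ?_) ht)
  exact (Sk_mono hw i l m ht htτ x).trans (Sk_le_SS w i l m (ht.trans htτ) x)

theorem mo_lap3 {g : V → ℝ} (hg : SP g) (s : ℝ) (x : V) :
    mo psi s (lap g) x = ∑ l, mo psi s (pd l (pd l g)) x := by
  unfold mo lap
  rw [← integral_finsetSum]
  · congr 1
    funext z
    rw [Finset.mul_sum]
  · intro l _
    exact mo_int psi_smooth.continuous psi_compact ((hg.pd l).pd l).cont s x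

include hw in
theorem osc_le (m : Fin 3) {t τ : ℝ} (ht : 0 ≤ t) (htτ : t ≤ τ) (x : V) :
    |w x m - mo phi t (fun y => w y m) x| ≤ 3 * t * Real.sqrt (SS w τ x) := by
  have h1 := mo_repr (hw m) t x
  have h2 : w x m - mo phi t (fun y => w y m) x
      = ∑ l, ∫ s in (0 : ℝ)..t, s * mo psi s (pd l (pd l (fun y => w y m))) x := by
    rw [← intervalIntegral.integral_finsetSum]
    · have h3 : (fun s : ℝ => s * mo psi s (lap fun y => w y m) x)
          = fun s => ∑ l, s * mo psi s (pd l (pd l (fun y => w y m))) x := by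
        funext s
        rw [mo_lap3 (hw m), Finset.mul_sum]
      rw [← h3]
      linarith
    · intro l _
      refine Continuous.intervalIntegrable ?_ _ _
      exact continuous_id.mul ((mo_cont psi_smooth.continuous psi_compact (((hw m).pd l).pd l).cont
        (((hw m).pd l).pd l).per).comp (continuous_id.prodMk continuous_const))
  rw [h2]
  refine (Finset.abs_sum_le_sum_abs _ _).trans ?_
  rw [Fin.sum_univ_three]
  have h3 := fun l => Sk_sqrt_le hw l l m ht htτ x
  have := h3 0
  have := h3 1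
  have := h3 2
  linarith

include hw in
theorem abs_mo_le {K : V → ℝ} {B : ℝ} (hK : Continuous K) (hB : ∀ z, |K z| ≤ B)
    (h0 : ∀ z, 1 ≤ rsq z → K z = 0) (m : Fin 3) (t : ℝ) (x : V) :
    |mo K t (fun y => w y m) x| ≤ B * Va w t x := by
  unfold Va
  rw [mo_U1 h0, ← integral_const_mul]
  have hc : Continuous fun z : V => x - t • z := by fun_prop
  refine abs_integral_le_integral_abs.trans (setIntegral_mono
    (int_U1 (hK.mul ((hw m).cont.comp hc)).abs)
    (int_U1 (continuous_const.mul ((f_cont hw).comp hc))) fun z => ?_)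
  simp only
  rw [abs_mul]
  exact mul_le_mul (hB z) (abs_le_en _ m) (abs_nonneg _) ((abs_nonneg _).trans (hB z))

include hw in
/-- The improved Sobolev bound, pointwise form. -/
theorem ptA {Λ τ : ℝ} (hΛ : 0 < Λ) (hτ : 0 < τ) {x : V}
    (hb : ∀ t : ℝ, 0 < t → t ≤ τ → Va w t x ≤ Λ / t ^ 2) :
    en (w x) ^ 3 ≤ 2000 * BB * Λ * SS w τ x + 6 * BB * Λ * (en (w x) ^ 2 / τ ^ 2) := by
  have hBB := one_le_BB
  set a := en (w x) with ha
  set S2 := SS w τ x with hS2
  have hS20 : 0 ≤ S2 := SS_nonneg w hτ.le x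
  set S := Real.sqrt S2 with hS
  have hSS : S ^ 2 = S2 := Real.sq_sqrt hS20
  have hS0 : 0 ≤ S := Real.sqrt_nonneg _
  have ha0 : 0 ≤ a := en_nonneg _
  rcases ha0.eq_or_lt with h0 | hapos
  · rw [← h0]
    have : 0 ≤ 2000 * BB * Λ * S2 := by positivity
    simpa using this
  -- the bound at the scale `t`
  have key : ∀ t : ℝ, 0 < t → t ≤ τ → a ≤ 9 * t * S + 3 * BB * (Λ / t ^ 2) := by
    intro t ht htτ
    have h1 : a ≤ ∑ m, |w x m| := en_le_sum3 _
    have h2 : ∀ m, |w x m| ≤ 3 * t * S + BB * (Λ / t ^ 2) := by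
      intro m
      have h3 := osc_le hw m ht.le htτ x
      have h4 := abs_mo_le hw phi_smooth.continuous phi_le (fun _ hz => phi_zero hz) m t x
      have h5 := mul_le_mul_of_nonneg_left (hb t ht htτ) (by linarith : 0 ≤ BB)
      have h6 : |w x m| ≤ |w x m - mo phi t (fun y => w y m) x| + |mo phi t (fun y => w y m) x| := by
        have := abs_add_le (w x m - mo phi t (fun y => w y m) x) (mo phi t (fun y => w y m) x)
        rwa [sub_add_cancel] at this
      linarith
    rw [Fin.sum_univ_three] at h1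
    have := h2 0
    have := h2 1
    have := h2 2
    linarith
  set L : ℝ := 6 * BB * Λ with hL
  have hL0 : 0 < L := by positivity
  rcases le_or_gt (L / τ ^ 2) a with h | h
  · set t1 : ℝ := Real.sqrt (L / a) with ht1
    have ht10 : 0 < t1 := Real.sqrt_pos.2 (by positivity)
    have ht12 : t1 ^ 2 = L / a := Real.sq_sqrt (by positivity)
    have ht1τ : t1 ≤ τ := by
      refine le_of_sq_le_sq ?_ hτ.le
      rw [ht12, div_le_iff₀ hapos]
      rw [div_le_iff₀ (by positivity)] at h
      linarith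
    have h1 := key t1 ht10 ht1τ
    have h2 : 3 * BB * (Λ / t1 ^ 2) = a / 2 := by
      rw [ht12, hL]; field_simp; norm_num
    have h3 : a ≤ 18 * t1 * S := by linarith
    have h4 : a ^ 2 ≤ 324 * (t1 ^ 2 * S2) := by
      have := pow_le_pow_left₀ ha0 h3 2
      calc a ^ 2 ≤ (18 * t1 * S) ^ 2 := this
        _ = 324 * (t1 ^ 2 * S ^ 2) := by ring
        _ = _ := by rw [hSS]
    have h5 : a ^ 3 ≤ 324 * L * S2 := by
      rw [ht12] at h4
      calc a ^ 3 = a ^ 2 * a := by ring
        _ ≤ 324 * (L / a * S2) * a := mul_le_mul_of_nonneg_right h4 ha0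
        _ = 324 * L * S2 := by field_simp
    have h6 : 0 ≤ L * (a ^ 2 / τ ^ 2) := by positivity
    have h7 : 0 ≤ BB * Λ * S2 := by positivity
    have h8 : 324 * L * S2 = 1944 * (BB * Λ * S2) := by rw [hL]; ring
    linarith
  · have h1 : a ^ 3 ≤ L * (a ^ 2 / τ ^ 2) := by
      calc a ^ 3 = a * a ^ 2 := by ring
        _ ≤ L / τ ^ 2 * a ^ 2 := mul_le_mul_of_nonneg_right h.le (by positivity)
        _ = _ := by ring
    have : 0 ≤ 2000 * BB * Λ * S2 := by positivity
    linarith

/-- The lower bound of the mollifier. -/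
noncomputable def c8 : ℝ := 8 * ZZ / hh (1 / 4)

theorem c8_pos : 0 < c8 := by
  have h1 := ZZ_pos
  have h2 : 0 < hh (1 / 4) := hh_pos (by norm_num)
  unfold c8
  positivity

theorem eb_sub_mem {x z : V} {t r : ℝ} (ht : 0 < t) (hz : rsq z < 1) (htr : t ≤ r) :
    x - t • z ∈ eb x r := by
  unfold eb
  rw [mem_ofPred_eq]
  have e1 : x - t • z - x = -(t • z) := by abel
  rw [e1, rsq_neg, rsq_smul]
  have h1 : t ^ 2 * rsq z < t ^ 2 := mul_lt_of_lt_one_right (by positivity) hz
  have h2 : t ^ 2 ≤ r ^ 2 := pow_le_pow_left₀ ht.le htr 2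
  linarith

theorem eb_sub_iff {x z : V} {t : ℝ} (ht : 0 < t) : x - (2 * t) • z ∈ eb x t ↔ rsq z < 1 / 4 := by
  unfold eb
  rw [mem_ofPred_eq]
  have e1 : x - (2 * t) • z - x = -((2 * t) • z) := by abel
  rw [e1, rsq_neg, rsq_smul]
  constructor
  · intro h
    have h1 : 0 < t ^ 2 := by positivity
    nlinarith
  · intro h
    have h1 : 0 < t ^ 2 := by positivity
    nlinarith

theorem Uni.ge {e : V} {δ K : ℝ} {U : Set V} (h : Uni w e δ K U) (he : en e = 1) {y : V}
    (hy : y ∈ U) : (1 - δ) * en (w y) ≤ (∑ i, e i * w y i) + 2 * K := by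
  have h1 := h y hy
  have h2 : (∑ i, e i * (en (w y) • e - w y) i) ≤ en (en (w y) • e - w y) := by
    have h3 := cs3 e (en (w y) • e - w y)
    rw [← en_sq e, he, one_pow, one_mul, ← en_sq] at h3
    exact (abs_le_of_sq_le_sq' h3 (en_nonneg _)).2
  have h3 : (∑ i, e i * (en (w y) • e - w y) i) = en (w y) - ∑ i, e i * w y i := by
    have h4 : rsq e = 1 := by rw [← en_sq, he, one_pow]
    unfold rsq at h4
    rw [Fin.sum_univ_three] at h4 ⊢
    rw [Fin.sum_univ_three]
    simp only [Pi.sub_apply, Pi.smul_apply, smul_eq_mul]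
    have : e 0 * (en (w y) * e 0 - w y 0) + e 1 * (en (w y) * e 1 - w y 1)
        + e 2 * (en (w y) * e 2 - w y 2)
        = en (w y) * (e 0 ^ 2 + e 1 ^ 2 + e 2 ^ 2) - (e 0 * w y 0 + e 1 * w y 1 + e 2 * w y 2) := by
      ring
    rw [this, h4, mul_one]
  rw [h3] at h2
  linarith

include hw in
/-- The averages are bounded by the value and the square function. -/
theorem va_le {e : V} {K T τ : ℝ} {x : V} (he : en e = 1) (hK : 0 ≤ K)
    (hu : Uni w e (1 / 8) K (eb x (2 * T))) {t : ℝ} (ht : 0 < t) (htτ : 2 * t ≤ τ) (htT : t ≤ T) :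
    Va w t x ≤ 36 * c8 * (en (w x) + t * Real.sqrt (SS w τ x) + K) := by
  have hZ := ZZ_pos
  have hh4 : 0 < hh (1 / 4) := hh_pos (by norm_num)
  set S := Real.sqrt (SS w τ x) with hS
  have hS0 : 0 ≤ S := Real.sqrt_nonneg _
  set g : V → ℝ := fun y => 2 * (∑ i, e i * w y i) + 4 * K with hg
  have hgc : Continuous g :=
    (continuous_const.mul (continuous_finsetSum _ fun i _ =>
      continuous_const.mul (hw i).cont)).add continuous_const
  have hge : ∀ y ∈ eb x (2 * T), en (w y) ≤ g y := by
    intro y hy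
    have h1 := hu.ge he hy
    have h2 := en_nonneg (w y)
    simp only [hg]
    linarith
  have h1 : Va w t x ≤ ∫ z in U1, g (x - t • z) := by
    unfold Va
    have hc : Continuous fun z : V => x - t • z := by fun_prop
    refine setIntegral_mono_on (int_U1 ((f_cont hw).comp hc)) (int_U1 (hgc.comp hc)) measurable_U1
      fun z hz => hge _ (eb_sub_mem ht hz (by linarith))
  have h2 : ∫ z in U1, g (x - t • z)
      = 8 * ∫ z in U1, (eb x t).indicator g (x - (2 * t) • z) := by
    rw [int_U1_scale ht, int_U1_scale (f := (eb x t).indicator g) (by linarith : 0 < 2 * t)]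
    have h3 : ∫ y in eb x (2 * t), (eb x t).indicator g y = ∫ y in eb x t, g y := by
      rw [setIntegral_indicator (isOpen_eb x t).measurableSet]
      congr 2
      refine inter_eq_right.2 fun y hy => ?_
      unfold eb at hy ⊢
      rw [mem_ofPred_eq] at hy ⊢
      nlinarith
    rw [h3]
    field_simp
    ring
  have h3 : ∫ z in U1, (eb x t).indicator g (x - (2 * t) • z)
      ≤ ∫ z in U1, ZZ / hh (1 / 4) * (phi z * g (x - (2 * t) • z)) := by
    have hc : Continuous fun z : V => x - (2 * t) • z := by fun_prop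
    have e1 : (fun z => (eb x t).indicator g (x - (2 * t) • z))
        = ((fun z => x - (2 * t) • z) ⁻¹' eb x t).indicator (fun z => g (x - (2 * t) • z)) := by
      funext z
      by_cases hz : x - (2 * t) • z ∈ eb x t
      · rw [indicator_of_mem hz]
        exact (indicator_of_mem (s := (fun z => x - (2 * t) • z) ⁻¹' eb x t) hz
          (fun z => g (x - (2 * t) • z))).symm
      · rw [indicator_of_notMem hz]
        exact (indicator_of_notMem (s := (fun z => x - (2 * t) • z) ⁻¹' eb x t) hz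
          (fun z => g (x - (2 * t) • z))).symm
    refine setIntegral_mono_on ?_ (int_U1 (continuous_const.mul
      (phi_smooth.continuous.mul (hgc.comp hc)))) measurable_U1 fun z hz => ?_
    · rw [e1]
      exact (int_U1 (hgc.comp hc)).indicator ((isOpen_eb x t).preimage hc).measurableSet
    · have hmem : x - (2 * t) • z ∈ eb x (2 * T) := eb_sub_mem (by linarith) hz (by linarith)
      have hg0 : 0 ≤ g (x - (2 * t) • z) := (en_nonneg _).trans (hge _ hmem)
      by_cases hz2 : x - (2 * t) • z ∈ eb x t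
      · rw [indicator_of_mem hz2]
        have hr := (eb_sub_iff ht).1 hz2
        have h4 : hh (1 / 4) ≤ hh (rsq z) := hh_anti hr.le
        have h5 : 1 ≤ ZZ / hh (1 / 4) * phi z := by
          unfold phi
          rw [div_mul_div_comm, one_le_div (by positivity)]
          nlinarith
        calc g (x - (2 * t) • z) ≤ (ZZ / hh (1 / 4) * phi z) * g (x - (2 * t) • z) :=
              le_mul_of_one_le_left hg0 h5
          _ = _ := by ring
      · rw [indicator_of_notMem hz2]
        have := phi_nonneg z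
        positivity
  have h4 : ∫ z in U1, phi z * g (x - (2 * t) • z) ≤ 6 * en (w x) + 36 * t * S + 4 * K := by
    rw [← mo_U1 (fun _ hz => phi_zero hz)]
    have h5 : mo phi (2 * t) g x = 2 * (∑ i, e i * mo phi (2 * t) (fun y => w y i) x) + 4 * K := by
      unfold mo
      have e1 : ∀ z : V, phi z * g (x - (2 * t) • z)
          = (∑ i, 2 * e i * (phi z * w (x - (2 * t) • z) i)) + 4 * K * phi z := by
        intro z
        simp only [hg]
        rw [mul_add, Finset.mul_sum, Finset.mul_sum]
        congr 1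
        · exact Finset.sum_congr rfl fun i _ => by ring
        · ring
      simp_rw [e1]
      have i1 : ∀ i, Integrable fun z => 2 * e i * (phi z * w (x - (2 * t) • z) i) := fun i =>
        (mo_int phi_smooth.continuous phi_compact (hw i).cont (2 * t) x).const_mul _
      rw [integral_add (integrable_finsetSum _ fun i _ => i1 i) (phi_int.const_mul _),
        integral_finsetSum _ fun i _ => i1 i, integral_const_mul, integral_phi, mul_one,
        Finset.mul_sum]
      congr 1
      exact Finset.sum_congr rfl fun i _ => by rw [integral_const_mul]; ring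
    rw [h5]
    have h6 : ∀ i, e i * mo phi (2 * t) (fun y => w y i) x ≤ en (w x) + 6 * t * S := by
      intro i
      have h7 := osc_le hw i (by linarith : 0 ≤ 2 * t) htτ x
      have h8 : |e i| ≤ 1 := by rw [← he]; exact abs_le_en e i
      have h9 : |mo phi (2 * t) (fun y => w y i) x| ≤ en (w x) + 6 * t * S := by
        have h10 := abs_le_en (w x) i
        have h11 := abs_le.1 h7
        have h12 := abs_le.1 h10
        rw [abs_le]
        constructor <;> linarith
      refine (le_abs_self _).trans ?_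
      rw [abs_mul]
      calc |e i| * |mo phi (2 * t) (fun y => w y i) x| ≤ 1 * (en (w x) + 6 * t * S) :=
            mul_le_mul h8 h9 (abs_nonneg _) zero_le_one
        _ = _ := one_mul _
    rw [Fin.sum_univ_three]
    have := h6 0
    have := h6 1
    have := h6 2
    linarith
  rw [integral_const_mul] at h3
  have h5 : 0 ≤ ZZ / hh (1 / 4) := by positivity
  have h6 := mul_le_mul_of_nonneg_left h4 h5
  have h7 : c8 = 8 * (ZZ / hh (1 / 4)) := by unfold c8; ring
  have ha0 := en_nonneg (w x)
  have h8 : 6 * en (w x) + 36 * t * S + 4 * K ≤ 36 * (en (w x) + t * S + K) := by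
    have : 0 ≤ t * S := by positivity
    linarith
  have h9 := mul_le_mul_of_nonneg_left h8 h5
  rw [h7]
  calc Va w t x ≤ 8 * ∫ z in U1, (eb x t).indicator g (x - (2 * t) • z) := h1.trans (le_of_eq h2)
    _ ≤ 8 * (ZZ / hh (1 / 4) * (36 * (en (w x) + t * S + K))) := by linarith
    _ = _ := by ring

end

end Pool.Agent.R210
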