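import Pool.Agent.R210.Q5

/-!
Pointwise bounds of the potential and of the gradient by the square function.
-/

open MeasureTheory Set Metric Filter Topology
open scoped ContDiff ENNReal
open H459R3.NS

namespace Pool.Agent.R210

theorem cont_U1r {G : ℝ → V → ℝ} (hG : Continuous fun p : ℝ × V => G p.1 p.2) :
    Continuous fun x => ∫ z in U1, G x z := by
  have hf : IsFiniteMeasure (volume.restrict U1) := ⟨by
    rw [Measure.restrict_apply_univ]; exact lt_top_iff_ne_top.2 U1_fin⟩
  refine continuous_iff_continuousAt.2 fun x₀ => ?_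
  have hcomp : IsCompact (closedBall x₀ 1 ×ˢ closedBall (0 : V) 1) :=
    (isCompact_closedBall x₀ 1).prod (isCompact_closedBall _ _)
  obtain ⟨C, hC⟩ := hcomp.exists_bound_of_continuousOn hG.continuousOn
  refine continuousAt_of_dominated (bound := fun _ => C) ?_ ?_ (integrable_const _) ?_
  · exact Filter.Eventually.of_forall fun x =>
      (hG.comp (continuous_const.prodMk continuous_id)).aestronglyMeasurable
  · filter_upwards [closedBall_mem_nhds x₀ one_pos] with x hx
    rw [ae_restrict_iff' measurable_U1]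
    exact Filter.Eventually.of_forall fun z hz => hC (x, z) ⟨hx, U1_sub hz⟩
  · exact Filter.Eventually.of_forall fun z =>
      (hG.comp (continuous_id.prodMk continuous_const)).continuousAt

/-- The potential. -/
noncomputable def Ja (w : V → V) (T : ℝ) (x : V) : ℝ := ∫ t in (0 : ℝ)..T, Va w t x

/-- `Λ (1/a - 1/b)` and the like. -/
theorem int_inv_sq {a b : ℝ} (ha : 0 < a) (hab : a ≤ b) :
    ∫ t in a..b, (1 : ℝ) / t ^ 2 = 1 / a - 1 / b := by
  have hb : 0 < b := ha.trans_le hab
  have hd : ∀ t ∈ uIcc a b, HasDerivAt (fun t : ℝ => -(1 / t)) (1 / t ^ 2) t := by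
    intro t ht
    rw [uIcc_of_le hab] at ht
    have ht0 : t ≠ 0 := (ha.trans_le ht.1).ne'
    have h1 := (hasDerivAt_inv ht0).neg
    refine (h1.congr_deriv ?_).congr_of_eventuallyEq (Filter.Eventually.of_forall fun s => ?_)
    · field_simp
    · simp
  have hi : IntervalIntegrable (fun t : ℝ => 1 / t ^ 2) volume a b := by
    refine ContinuousOn.intervalIntegrable fun t ht => ?_
    rw [uIcc_of_le hab] at ht
    have ht0 : t ≠ 0 := (ha.trans_le ht.1).ne'
    exact (ContinuousAt.div continuousAt_const (by fun_prop) (by positivity)).continuousWithinAt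
  rw [intervalIntegral.integral_eq_sub_of_hasDerivAt hd hi]
  ring

theorem int_inv_cube {a b : ℝ} (ha : 0 < a) (hab : a ≤ b) :
    ∫ t in a..b, (1 : ℝ) / t ^ 3 = (1 / a ^ 2 - 1 / b ^ 2) / 2 := by
  have hb : 0 < b := ha.trans_le hab
  have hd : ∀ t ∈ uIcc a b, HasDerivAt (fun t : ℝ => -(1 / t ^ 2) / 2) (1 / t ^ 3) t := by
    intro t ht
    rw [uIcc_of_le hab] at ht
    have ht0 : t ≠ 0 := (ha.trans_le ht.1).ne'
    have h1 := (((hasDerivAt_pow 2 t).inv (by positivity)).neg).div_const 2
    refine (h1.congr_deriv ?_).congr_of_eventuallyEq (Filter.Eventually.of_forall fun s => ?_)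
    · push_cast
      field_simp
    · simp
  have hi : IntervalIntegrable (fun t : ℝ => 1 / t ^ 3) volume a b := by
    refine ContinuousOn.intervalIntegrable fun t ht => ?_
    rw [uIcc_of_le hab] at ht
    have ht0 : t ≠ 0 := (ha.trans_le ht.1).ne'
    exact (ContinuousAt.div continuousAt_const (by fun_prop) (by positivity)).continuousWithinAt
  rw [intervalIntegral.integral_eq_sub_of_hasDerivAt hd hi]
  ring

section

variable {w : V → V} (hw : ∀ i, SP (fun x => w x i))

include hw in
theorem Va_cont (x : V) : Continuous fun t : ℝ => Va w t x :=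
  cont_U1r (G := fun t z => en (w (x - t • z))) ((f_cont hw).comp (by fun_prop))

include hw in
theorem ptB {e : V} {K T τ Λ : ℝ} {x : V} (he : en e = 1) (hK : 0 ≤ K) (hτ : 0 < τ)
    (hτT : τ ≤ T) (hT1 : T ≤ 1) (hΛ : 0 < Λ) (hu : Uni w e (1 / 8) K (eb x (2 * T)))
    (hb : ∀ t : ℝ, 0 < t → t ≤ T → Va w t x ≤ Λ / t ^ 2) :
    (en (w x) * Ja w T x) ^ 2 ≤ 4 * ((36 * c8 + 1) ^ 2 * Λ * en (w x) ^ 3
      + (36 * c8) ^ 2 * Λ ^ 2 * SS w τ x + (36 * c8) ^ 2 * K ^ 2 * en (w x) ^ 2
      + 4 * Λ ^ 2 * (en (w x) ^ 2 / τ ^ 2)) := by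
  have hc8 := c8_pos
  set C1 : ℝ := 36 * c8 with hC1
  have hC10 : 0 < C1 := by positivity
  set a := en (w x) with ha
  have hS20 : 0 ≤ SS w τ x := SS_nonneg w hτ.le x
  set S := Real.sqrt (SS w τ x) with hS
  have hSS : S ^ 2 = SS w τ x := Real.sq_sqrt hS20
  have hS0 : 0 ≤ S := Real.sqrt_nonneg _
  have ha0 : 0 ≤ a := en_nonneg _
  rcases ha0.eq_or_lt with h0 | hapos
  · rw [← h0]
    have : 0 ≤ C1 ^ 2 * Λ ^ 2 * SS w τ x := by positivity
    simp only [zero_mul, ne_eq, OfNat.ofNat_ne_zero, not_false_eq_true, zero_pow, mul_zero,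
      zero_div, add_zero, zero_add]
    positivity
  have hT : 0 < T := hτ.trans_le hτT
  set r : ℝ := Real.sqrt (Λ / a) with hr
  have hr0 : 0 < r := Real.sqrt_pos.2 (by positivity)
  have hr2 : a * r ^ 2 = Λ := by
    rw [hr, Real.sq_sqrt (by positivity)]; field_simp
  set t1 : ℝ := min (τ / 2) r with ht1
  have ht10 : 0 < t1 := lt_min (by positivity) hr0
  have ht1τ : t1 ≤ τ / 2 := min_le_left _ _
  have ht1r : t1 ≤ r := min_le_right _ _
  have ht11 : t1 ≤ 1 := by linarith
  have hc := Va_cont hw x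
  have hi : ∀ a b : ℝ, IntervalIntegrable (fun t => Va w t x) volume a b := fun a b =>
    hc.intervalIntegrable a b
  -- the small scales
  have h1 : ∫ t in (0 : ℝ)..t1, Va w t x ≤ t1 * (C1 * (a + t1 * S + K)) := by
    have h2 : ∫ t in (0 : ℝ)..t1, Va w t x ≤ ∫ _ in (0 : ℝ)..t1, C1 * (a + t1 * S + K) := by
      refine intervalIntegral.integral_mono_on_of_le_Ioo ht10.le (hi _ _)
        (by simp) fun t ht => ?_
      have h3 := va_le hw he hK hu ht.1 (by linarith [ht.2] : 2 * t ≤ τ) (by linarith [ht.2])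
      refine h3.trans (mul_le_mul_of_nonneg_left ?_ hC10.le)
      have := mul_le_mul_of_nonneg_right ht.2.le hS0
      linarith
    rw [intervalIntegral.integral_const, sub_zero, smul_eq_mul] at h2
    exact h2
  -- the large scales
  have h2 : ∫ t in t1..T, Va w t x ≤ Λ / t1 := by
    have h3 : ∫ t in t1..T, Va w t x ≤ ∫ t in t1..T, Λ * (1 / t ^ 2) := by
      refine intervalIntegral.integral_mono_on_of_le_Ioo (by linarith) (hi _ _) ?_ fun t ht => ?_
      · refine ContinuousOn.intervalIntegrable fun t ht => ?_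
        rw [uIcc_of_le (by linarith)] at ht
        have ht0 : t ≠ 0 := (ht10.trans_le ht.1).ne'
        exact (continuousAt_const.mul (ContinuousAt.div continuousAt_const (by fun_prop)
          (by positivity))).continuousWithinAt
      · have h4 := hb t (ht10.trans ht.1) ht.2.le
        calc Va w t x ≤ Λ / t ^ 2 := h4
          _ = _ := by ring
    rw [intervalIntegral.integral_const_mul, int_inv_sq ht10 (by linarith)] at h3
    have h4 : 0 ≤ Λ * (1 / T) := by positivity
    calc ∫ t in t1..T, Va w t x ≤ Λ * (1 / t1 - 1 / T) := h3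
      _ ≤ Λ / t1 := by rw [div_eq_mul_one_div Λ t1]; linarith
  have h3 : Ja w T x ≤ t1 * (C1 * (a + t1 * S + K)) + Λ / t1 := by
    unfold Ja
    rw [← intervalIntegral.integral_add_adjacent_intervals (hi 0 t1) (hi t1 T)]
    linarith
  have hJ0 : 0 ≤ Ja w T x := intervalIntegral.integral_nonneg hT.le fun t _ => Va_nonneg w t x
  -- the combination
  have h4 : a * (Λ / t1) ≤ 2 * (Λ * (a / τ)) + a ^ 2 * r := by
    rcases min_cases (τ / 2) r with h | h
    · rw [ht1, h.1]
      have e1 : a * (Λ / (τ / 2)) = 2 * (Λ * (a / τ)) := by field_simp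
      rw [e1]
      have : 0 ≤ a ^ 2 * r := by positivity
      linarith
    · rw [ht1, h.1]
      have e1 : a * (Λ / r) = a ^ 2 * r := by
        rw [← hr2]; field_simp
      rw [e1]
      have : 0 ≤ 2 * (Λ * (a / τ)) := by positivity
      linarith
  have h5 : a * (t1 * (C1 * (a + t1 * S + K))) ≤ C1 * (a ^ 2 * r + Λ * S + K * a) := by
    have q1 : a * t1 * a ≤ a ^ 2 * r := by
      calc a * t1 * a = a ^ 2 * t1 := by ring
        _ ≤ _ := mul_le_mul_of_nonneg_left ht1r (by positivity)
    have q2 : a * (t1 * (t1 * S)) ≤ Λ * S := by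
      have : t1 ^ 2 ≤ r ^ 2 := pow_le_pow_left₀ ht10.le ht1r 2
      calc a * (t1 * (t1 * S)) = (a * t1 ^ 2) * S := by ring
        _ ≤ (a * r ^ 2) * S := mul_le_mul_of_nonneg_right
            (mul_le_mul_of_nonneg_left this ha0) hS0
        _ = Λ * S := by rw [hr2]
    have q3 : a * (t1 * K) ≤ K * a := by
      have : 0 ≤ K * a := by positivity
      calc a * (t1 * K) = t1 * (K * a) := by ring
        _ ≤ 1 * (K * a) := mul_le_mul_of_nonneg_right ht11 this
        _ = _ := one_mul _
    calc a * (t1 * (C1 * (a + t1 * S + K)))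
        = C1 * (a * t1 * a + a * (t1 * (t1 * S)) + a * (t1 * K)) := by ring
      _ ≤ _ := mul_le_mul_of_nonneg_left (by linarith) hC10.le
  have h6 : a * Ja w T x ≤ (C1 + 1) * (a ^ 2 * r) + C1 * (Λ * S) + C1 * (K * a)
      + 2 * (Λ * (a / τ)) := by
    have := mul_le_mul_of_nonneg_left h3 ha0
    linarith
  have h7 : (a * Ja w T x) ^ 2 ≤ ((C1 + 1) * (a ^ 2 * r) + C1 * (Λ * S) + C1 * (K * a)
      + 2 * (Λ * (a / τ))) ^ 2 := pow_le_pow_left₀ (by positivity) h6 2
  have h8 : ∀ p q u v : ℝ, (p + q + u + v) ^ 2 ≤ 4 * (p ^ 2 + q ^ 2 + u ^ 2 + v ^ 2) := by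
    intro p q u v
    nlinarith [sq_nonneg (p - q), sq_nonneg (p - u), sq_nonneg (p - v), sq_nonneg (q - u),
      sq_nonneg (q - v), sq_nonneg (u - v)]
  refine (h7.trans (h8 _ _ _ _)).trans (le_of_eq ?_)
  have e1 : (a ^ 2 * r) ^ 2 = Λ * a ^ 3 := by
    calc (a ^ 2 * r) ^ 2 = (a * r ^ 2) * a ^ 3 := by ring
      _ = _ := by rw [hr2]
  have e2 : ((C1 + 1) * (a ^ 2 * r)) ^ 2 = (C1 + 1) ^ 2 * (a ^ 2 * r) ^ 2 := by ring
  rw [e2, e1, ← hSS]
  ring

include hw in
/-- The contribution of the scales to a function whose Laplacian is a sum of derivatives of the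
field. -/
theorem far_le {Λ T t1 : ℝ} (ht1 : 0 < t1) (ht1T : t1 ≤ T) (hΛ : 0 < Λ) {x : V}
    (hb : ∀ t : ℝ, 0 < t → t ≤ T → Va w t x ≤ Λ / t ^ 2) (i l m : Fin 3) :
    |∫ s in t1..T, s * mo psi s (pd i (pd l (fun y => w y m))) x| ≤ BB * Λ * (1 / t1 ^ 2) := by
  have hBB := one_le_BB
  have hps := pd_smooth psi_smooth i
  have hpz : ∀ z, 1 ≤ rsq z → pd i psi z = 0 :=
    pd_zero_of_rsq psi_smooth (fun _ hz => psi_zero hz) i
  have h1 : ‖∫ s in t1..T, s * mo psi s (pd i (pd l (fun y => w y m))) x‖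
      ≤ ∫ s in t1..T, BB * Λ * (1 / s ^ 3) := by
    refine intervalIntegral.norm_integral_le_of_norm_le ht1T
      (Filter.Eventually.of_forall fun s hs => ?_) ?_
    · have hs0 : 0 < s := ht1.trans hs.1
      have h2 := mo_pd2 (hw m) i l s x
      have h3 := abs_mo_le hw (pd_smooth hps l).continuous (pd_pd_psi_le i l)
        (pd_zero_of_rsq hps hpz l) m s x
      rw [Real.norm_eq_abs]
      have h4 : s * mo psi s (pd i (pd l (fun y => w y m))) x
          = s⁻¹ * mo (pd l (pd i psi)) s (fun y => w y m) x := by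
        rw [h2]; field_simp
      rw [h4, abs_mul, abs_of_pos (inv_pos.2 hs0)]
      have h5 := mul_le_mul_of_nonneg_left (hb s hs0 hs.2) (by linarith : 0 ≤ BB)
      calc s⁻¹ * |mo (pd l (pd i psi)) s (fun y => w y m) x| ≤ s⁻¹ * (BB * (Λ / s ^ 2)) :=
            mul_le_mul_of_nonneg_left (h3.trans h5) (by positivity)
        _ = _ := by field_simp
    · refine ContinuousOn.intervalIntegrable fun t ht => ?_
      rw [uIcc_of_le ht1T] at ht
      have ht0 : t ≠ 0 := (ht1.trans_le ht.1).ne'
      exact (continuousAt_const.mul (ContinuousAt.div continuousAt_const (by fun_prop)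
        (by positivity))).continuousWithinAt
  rw [intervalIntegral.integral_const_mul, int_inv_cube ht1 ht1T, Real.norm_eq_abs] at h1
  refine h1.trans (mul_le_mul_of_nonneg_left ?_ (by positivity))
  have h2 : 0 ≤ 1 / t1 ^ 2 := by positivity
  have h3 : 0 ≤ 1 / T ^ 2 := by positivity
  linarith

end

section

variable {v : V → V} (hv : ∀ i, SP (fun x => v x i))

include hv in
theorem mo_lap_loc {T : ℝ} (hT : 0 < T) {x : V} (hdiv : ∀ y ∈ eb x T, dv v y = 0) (i j : Fin 3)
    {s : ℝ} (hs : 0 ≤ s) (hsT : s ≤ T) :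
    mo psi s (lap (pd i (fun y => v y j))) x = -mo psi s (pd i (fun y => cu (cu v) y j)) x := by
  have h0 : ∀ i, SP fun _ : V => (0 : V) i := fun i => ⟨contDiff_const, fun _ _ => rfl⟩
  have h1 := mo_lap_gen hv (sp_cu hv) (l := fun _ => 0) h0 (fun x => by simp) i j s x
  have h2 : mo psi s (pd i (pd j (dv v))) x = 0 :=
    mo_psi_zero (U := eb x T) (fun y hy => pd_zero_of (isOpen_eb x T)
      (fun z hz => pd_zero_of (isOpen_eb x T) hdiv j hz) i hy) subset_rfl hs hsT hT
  have h3 : mo psi s (pd i (fun y => cu (fun _ : V => (0 : V)) y j)) x = 0 := by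
    have e1 : (fun y => cu (fun _ : V => (0 : V)) y j) = fun _ => 0 := by
      funext y
      unfold cu pd
      fin_cases j <;> simp
    rw [e1]
    unfold mo pd
    simp
  rw [h1, h2, h3]
  ring

include hv in
/-- The gradient of the velocity. -/
theorem ptC {T τ Λ MT : ℝ} {x : V} (hτ : 0 < τ) (hτT : τ ≤ T) (hΛ : 0 < Λ)
    (hdiv : ∀ y ∈ eb x T, dv v y = 0)
    (hb : ∀ t : ℝ, 0 < t → t ≤ T → Va (cu v) t x ≤ Λ / t ^ 2)
    (hM : ∀ i j, |mo phi T (pd i (fun y => v y j)) x| ≤ MT) (i j : Fin 3) :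
    en (cu v x) ^ 2 * |pd i (fun y => v y j) x|
      ≤ MT * en (cu v x) ^ 2 + Λ * SS (cu v) τ x + (1 + 2 * BB) * en (cu v x) ^ 3
        + 2 * BB * Λ * (en (cu v x) ^ 2 / τ ^ 2) := by
  have hBB := one_le_BB
  have hw := sp_cu hv
  have hT : 0 < T := hτ.trans_le hτT
  set a := en (cu v x) with ha
  have hS20 : 0 ≤ SS (cu v) τ x := SS_nonneg _ hτ.le x
  set S := Real.sqrt (SS (cu v) τ x) with hS
  have hSS : S ^ 2 = SS (cu v) τ x := Real.sq_sqrt hS20
  have hS0 : 0 ≤ S := Real.sqrt_nonneg _
  have ha0 : 0 ≤ a := en_nonneg _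
  have hMT0 : 0 ≤ MT := (abs_nonneg _).trans (hM 0 0)
  rcases ha0.eq_or_lt with h0 | hapos
  · rw [← h0]
    have : 0 ≤ Λ * SS (cu v) τ x := by positivity
    simpa using this
  set r : ℝ := Real.sqrt (Λ / a) with hr
  have hr0 : 0 < r := Real.sqrt_pos.2 (by positivity)
  have hr2 : a * r ^ 2 = Λ := by
    rw [hr, Real.sq_sqrt (by positivity)]; field_simp
  set t1 : ℝ := min τ r with ht1
  have ht10 : 0 < t1 := lt_min hτ hr0
  have ht1τ : t1 ≤ τ := min_le_left _ _
  have ht1r : t1 ≤ r := min_le_right _ _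
  have hg := (hv j).pd i
  have hrep := mo_repr hg T x
  -- the two derivatives
  have hcont : ∀ p q m : Fin 3, Continuous fun s : ℝ =>
      s * mo psi s (pd p (pd q (fun y => cu v y m))) x := fun p q m =>
    continuous_id.mul ((mo_cont psi_smooth.continuous psi_compact (((hw m).pd q).pd p).cont
      (((hw m).pd q).pd p).per).comp (continuous_id.prodMk continuous_const))
  have hone : ∀ q m : Fin 3, |∫ s in (0 : ℝ)..T, s * mo psi s (pd i (pd q (fun y => cu v y m))) x|
      ≤ t1 * S + BB * Λ * (1 / t1 ^ 2) := by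
    intro q m
    rw [← intervalIntegral.integral_add_adjacent_intervals
      ((hcont i q m).intervalIntegrable 0 t1) ((hcont i q m).intervalIntegrable t1 T)]
    refine (abs_add_le _ _).trans (add_le_add ?_ ?_)
    · exact Sk_sqrt_le hw i q m ht10.le ht1τ x
    · exact far_le hw ht10 (ht1τ.trans hτT) hΛ hb i q m
  have hcurl : ∀ b c q m : Fin 3, (∀ y, cu (cu v) y j = pd b (fun z => cu v z m) y
      - pd c (fun z => cu v z q) y) →
      |pd i (fun y => v y j) x| ≤ MT + 2 * (t1 * S + BB * Λ * (1 / t1 ^ 2)) := by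
    intro b c q m h
    have e1 : ∫ t in (0 : ℝ)..T, t * mo psi t (lap (pd i (fun y => v y j))) x
        = (∫ t in (0 : ℝ)..T, t * mo psi t (pd i (pd c (fun y => cu v y q))) x)
          - ∫ t in (0 : ℝ)..T, t * mo psi t (pd i (pd b (fun y => cu v y m))) x := by
      rw [← intervalIntegral.integral_sub ((hcont i c q).intervalIntegrable 0 T)
        ((hcont i b m).intervalIntegrable 0 T)]
      refine intervalIntegral.integral_congr fun t ht => ?_
      rw [uIcc_of_le hT.le] at ht
      rw [mo_lap_loc hv hT hdiv i j ht.1 ht.2]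
      have e2 : (fun y => cu (cu v) y j) = fun y => pd b (fun z => cu v z m) y
          - pd c (fun z => cu v z q) y := funext h
      have e3 : pd i (fun y => cu (cu v) y j) = fun y => pd i (pd b (fun z => cu v z m)) y
          - pd i (pd c (fun z => cu v z q)) y := by
        rw [e2]
        funext y
        exact pd_sub' ((hw m).pd b) ((hw q).pd c) i y
      rw [e3, mo_sub psi_smooth.continuous psi_compact (((hw m).pd b).pd i).cont
        (((hw q).pd c).pd i).cont]
      ring
    rw [hrep, e1]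
    have h1 := abs_le.1 (hone c q)
    have h2 := abs_le.1 (hone b m)
    have h3 := abs_le.1 (hM i j)
    rw [abs_le]
    constructor <;> linarith
  have h1 : |pd i (fun y => v y j) x| ≤ MT + 2 * (t1 * S + BB * Λ * (1 / t1 ^ 2)) := by
    fin_cases j
    · exact hcurl 1 2 1 2 fun y => rfl
    · exact hcurl 2 0 2 0 fun y => rfl
    · exact hcurl 0 1 0 1 fun y => rfl
  -- the combination
  have h2 : a ^ 2 * (2 * (t1 * S)) ≤ a ^ 3 + Λ * SS (cu v) τ x := by
    have q1 : a ^ 2 * (2 * (t1 * S)) ≤ 2 * (a ^ 2 * r * S) := by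
      have := mul_le_mul_of_nonneg_right ht1r hS0
      have := mul_le_mul_of_nonneg_left this (by positivity : 0 ≤ 2 * a ^ 2)
      linarith
    have q2 : Λ * (2 * (a ^ 2 * r * S)) ≤ Λ * (a ^ 3 + Λ * SS (cu v) τ x) := by
      have q3 : (a ^ 2 * r) ^ 2 = Λ * a ^ 3 := by
        calc (a ^ 2 * r) ^ 2 = (a * r ^ 2) * a ^ 3 := by ring
          _ = _ := by rw [hr2]
      rw [← hSS]
      nlinarith [sq_nonneg (a ^ 2 * r - Λ * S)]
    exact q1.trans (le_of_mul_le_mul_left q2 hΛ)
  have h3 : a ^ 2 * (2 * (BB * Λ * (1 / t1 ^ 2)))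
      ≤ 2 * BB * a ^ 3 + 2 * BB * Λ * (a ^ 2 / τ ^ 2) := by
    rcases min_cases τ r with h | h
    · rw [ht1, h.1]
      have : 0 ≤ 2 * BB * a ^ 3 := by positivity
      have e1 : a ^ 2 * (2 * (BB * Λ * (1 / τ ^ 2))) = 2 * BB * Λ * (a ^ 2 / τ ^ 2) := by ring
      linarith
    · rw [ht1, h.1]
      have : 0 ≤ 2 * BB * Λ * (a ^ 2 / τ ^ 2) := by positivity
      have e1 : a ^ 2 * (2 * (BB * Λ * (1 / r ^ 2))) = 2 * BB * a ^ 3 := by
        rw [← hr2]; field_simp
      linarith
  have h4 := mul_le_mul_of_nonneg_left h1 (by positivity : 0 ≤ a ^ 2)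
  linarith

theorem en_cross_le (e a : V) (he : en e = 1) (r : ℝ) : en (crossProduct e a) ≤ en (r • e - a) := by
  refine Real.sqrt_le_sqrt ?_
  rw [← lagrange]
  have h4 : rsq e = 1 := by rw [← en_sq, he, one_pow]
  have h5 := h4
  unfold rsq at h5 ⊢
  rw [Fin.sum_univ_three] at h5 ⊢
  rw [Fin.sum_univ_three, Fin.sum_univ_three, Fin.sum_univ_three]
  simp only [Pi.sub_apply, Pi.smul_apply, smul_eq_mul]
  have e1 : (r * e 0 - a 0) ^ 2 + (r * e 1 - a 1) ^ 2 + (r * e 2 - a 2) ^ 2
      = r ^ 2 * (e 0 ^ 2 + e 1 ^ 2 + e 2 ^ 2) - 2 * r * (e 0 * a 0 + e 1 * a 1 + e 2 * a 2)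
        + (a 0 ^ 2 + a 1 ^ 2 + a 2 ^ 2) := by ring
  rw [e1, h5]
  nlinarith [sq_nonneg (r - (e 0 * a 0 + e 1 * a 1 + e 2 * a 2))]

/-- The component of the velocity. -/
noncomputable def ce (v : V → V) (e : V) (y : V) : ℝ := ∑ j, e j * v y j

include hv in
theorem sp_ce (e : V) : SP (ce v e) :=
  SP.sum fun j _ => SP.mul ⟨contDiff_const, fun _ _ => rfl⟩ (hv j)

include hv in
theorem ptD {e : V} (he : en e = 1) {T δ K : ℝ} {x : V} (hT : 0 < T) (hδ : 0 ≤ δ) (hK : 0 ≤ K)
    (hdiv : ∀ y ∈ eb x T, dv v y = 0) (hu : Uni (cu v) e δ K (eb x T)) :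
    |ce v e x - mo phi T (ce v e) x| ≤ 3 * BB * (δ * Ja (cu v) T x + 2 * K * vU * T) := by
  have hBB := one_le_BB
  have hvU := vU_nonneg
  have hw := sp_cu hv
  have hg := sp_ce hv e
  have hrep := mo_repr hg T x
  have h1 : ce v e x - mo phi T (ce v e) x = ∫ t in (0 : ℝ)..T, t * mo psi t (lap (ce v e)) x := by
    linarith
  rw [h1]
  have hc := Va_cont hw x
  have hi : IntervalIntegrable (fun t => 3 * BB * (δ * Va (cu v) t x + 2 * K * vU)) volume 0 T :=
    (continuous_const.mul ((continuous_const.mul hc).add continuous_const)).intervalIntegrable _ _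
  have h2 : ‖∫ t in (0 : ℝ)..T, t * mo psi t (lap (ce v e)) x‖
      ≤ ∫ t in (0 : ℝ)..T, 3 * BB * (δ * Va (cu v) t x + 2 * K * vU) := by
    refine intervalIntegral.norm_integral_le_of_norm_le hT.le
      (Filter.Eventually.of_forall fun t ht => ?_) hi
    have ht0 : 0 < t := ht.1
    -- the Laplacian
    have e1 : ∀ y ∈ eb x T, lap (ce v e) y = ∑ l, pd l (fun z => crossProduct e (cu v z) l) y := by
      intro y hy
      have h3 : lap (ce v e) y = ∑ j, e j * lap (fun y => v y j) y := by
        have h4 : ∀ (k : Fin 3) (f : V → V), (∀ i, SP fun x => f x i) → ∀ y,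
            pd k (fun y => ∑ j, e j * f y j) y = ∑ j, e j * pd k (fun y => f y j) y := by
          intro k f hf y
          rw [pd_sum (fun j _ => SP.mul ⟨contDiff_const, fun _ _ => rfl⟩ (hf j)) k y]
          refine Finset.sum_congr rfl fun j _ => ?_
          have := pd_mul (f := fun _ => e j) ⟨contDiff_const, fun _ _ => rfl⟩ (hf j) k y
          rw [this]
          have h5 : pd k (fun _ : V => e j) y = 0 := by unfold pd; simp
          rw [h5]; ring
        unfold lap
        have h5 : ∀ k, pd k (pd k (ce v e)) y = ∑ j, e j * pd k (pd k (fun y => v y j)) y := by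
          intro k
          have h6 : pd k (ce v e) = fun y => ∑ j, e j * (fun y j => pd k (fun y => v y j) y) y j := by
            funext y
            exact h4 k v hv y
          rw [h6]
          exact h4 k (fun y j => pd k (fun y => v y j) y) (fun j => (hv j).pd k) y
        simp_rw [h5]
        rw [Finset.sum_comm]
        exact Finset.sum_congr rfl fun j _ => by rw [Finset.mul_sum]
      rw [h3]
      simp_rw [lap_curl_gen hv]
      have h4 : ∀ j, pd j (dv v) y = 0 := fun j => pd_zero_of (isOpen_eb x T) hdiv j hy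
      simp_rw [h4]
      have c0 : ∀ (k a b : Fin 3), pd k (fun z => e a * cu v z b - e b * cu v z a) y
          = e a * pd k (fun z => cu v z b) y - e b * pd k (fun z => cu v z a) y := by
        intro k a b
        have h5 : ∀ (r : ℝ) (m : Fin 3), SP fun z => r * cu v z m := fun r m =>
          SP.mul ⟨contDiff_const, fun _ _ => rfl⟩ (hw m)
        have h6 : ∀ (r : ℝ) (m : Fin 3), pd k (fun z => r * cu v z m) y
            = r * pd k (fun z => cu v z m) y := by
          intro r m
          have := pd_mul (f := fun _ => r) ⟨contDiff_const, fun _ _ => rfl⟩ (hw m) k y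
          rw [this]
          have h7 : pd k (fun _ : V => r) y = 0 := by unfold pd; simp
          rw [h7]; ring
        rw [pd_sub' (h5 _ _) (h5 _ _), h6, h6]
      rw [Fin.sum_univ_three, Fin.sum_univ_three]
      have x0 : (fun z => crossProduct e (cu v z) 0) = fun z => e 1 * cu v z 2 - e 2 * cu v z 1 := by
        funext z; simp [cross_apply]
      have x1 : (fun z => crossProduct e (cu v z) 1) = fun z => e 2 * cu v z 0 - e 0 * cu v z 2 := by
        funext z; simp [cross_apply]
      have x2 : (fun z => crossProduct e (cu v z) 2) = fun z => e 0 * cu v z 1 - e 1 * cu v z 0 := by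
        funext z; simp [cross_apply]
      rw [x0, x1, x2, c0, c0, c0]
      have y0 : cu (cu v) y 0 = pd 1 (fun z => cu v z 2) y - pd 2 (fun z => cu v z 1) y := rfl
      have y1 : cu (cu v) y 1 = pd 2 (fun z => cu v z 0) y - pd 0 (fun z => cu v z 2) y := rfl
      have y2 : cu (cu v) y 2 = pd 0 (fun z => cu v z 1) y - pd 1 (fun z => cu v z 0) y := rfl
      rw [y0, y1, y2]
      ring
    have hX : ∀ l, SP fun z => crossProduct e (cu v z) l := by
      intro l
      have h5 : ∀ (r : ℝ) (m : Fin 3), SP fun z => r * cu v z m := fun r m =>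
        SP.mul ⟨contDiff_const, fun _ _ => rfl⟩ (hw m)
      have h6 : ∀ a b : Fin 3, SP fun z => e a * cu v z b - e b * cu v z a := fun a b =>
        (h5 _ _).sub (h5 _ _)
      fin_cases l
      · have : (fun z => crossProduct e (cu v z) 0) = fun z => e 1 * cu v z 2 - e 2 * cu v z 1 := by
          funext z; simp [cross_apply]
        show SP fun z => crossProduct e (cu v z) 0
        rw [this]; exact h6 1 2
      · have : (fun z => crossProduct e (cu v z) 1) = fun z => e 2 * cu v z 0 - e 0 * cu v z 2 := by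
          funext z; simp [cross_apply]
        show SP fun z => crossProduct e (cu v z) 1
        rw [this]; exact h6 2 0
      · have : (fun z => crossProduct e (cu v z) 2) = fun z => e 0 * cu v z 1 - e 1 * cu v z 0 := by
          funext z; simp [cross_apply]
        show SP fun z => crossProduct e (cu v z) 2
        rw [this]; exact h6 0 1
    have e2 : mo psi t (lap (ce v e)) x
        = ∑ l, mo psi t (pd l (fun z => crossProduct e (cu v z) l)) x := by
      rw [mo_U1 (fun _ hz => psi_zero hz)]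
      simp_rw [mo_U1 (fun _ hz => psi_zero hz)]
      rw [← integral_finsetSum]
      · refine setIntegral_congr_fun measurable_U1 fun z hz => ?_
        rw [e1 _ (eb_sub_mem ht0 hz ht.2), Finset.mul_sum]
      · intro l _
        exact int_U1 (psi_smooth.continuous.mul (((hX l).pd l).cont.comp
          (by fun_prop : Continuous fun z : V => x - t • z)))
    have e3 : ∀ l, |t * mo psi t (pd l (fun z => crossProduct e (cu v z) l)) x|
        ≤ BB * (δ * Va (cu v) t x + 2 * K * vU) := by
      intro l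
      have hps := pd_smooth psi_smooth l
      have hpz : ∀ z, 1 ≤ rsq z → pd l psi z = 0 :=
        pd_zero_of_rsq psi_smooth (fun _ hz => psi_zero hz) l
      rw [← mo_pd psi_smooth psi_compact (hX l).smooth l t x, mo_U1 hpz]
      have hcz : Continuous fun z : V => x - t • z := by fun_prop
      have hk : Continuous fun z : V => BB * (δ * en (cu v (x - t • z)) + 2 * K) :=
        continuous_const.mul ((continuous_const.mul ((f_cont hw).comp hcz)).add continuous_const)
      have h5 : |∫ z in U1, pd l psi z * crossProduct e (cu v (x - t • z)) l|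
          ≤ ∫ z in U1, BB * (δ * en (cu v (x - t • z)) + 2 * K) := by
        refine abs_integral_le_integral_abs.trans (setIntegral_mono_on
          (int_U1 (hps.continuous.mul ((hX l).cont.comp hcz)).abs) (int_U1 hk) measurable_U1
          fun z hz => ?_)
        rw [abs_mul]
        have h6 : |crossProduct e (cu v (x - t • z)) l| ≤ δ * en (cu v (x - t • z)) + 2 * K :=
          (abs_le_en _ l).trans ((en_cross_le e _ he (en (cu v (x - t • z)))).trans
            (hu _ (eb_sub_mem ht0 hz ht.2)))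
        exact mul_le_mul (pd_psi_le l z) h6 (abs_nonneg _) (by linarith)
      refine h5.trans (le_of_eq ?_)
      have i1 : IntegrableOn (fun z => δ * en (cu v (x - t • z))) U1 :=
        int_U1 (continuous_const.mul ((f_cont hw).comp hcz))
      rw [integral_const_mul, integral_add i1 (int_U1 continuous_const), integral_const_mul,
        setIntegral_const]
      unfold Va vU
      simp only [smul_eq_mul, Measure.real]
      ring
    rw [e2, Finset.mul_sum, Real.norm_eq_abs]
    refine (Finset.abs_sum_le_sum_abs _ _).trans ?_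
    rw [Fin.sum_univ_three]
    have := e3 0
    have := e3 1
    have := e3 2
    linarith
  rw [Real.norm_eq_abs] at h2
  refine h2.trans (le_of_eq ?_)
  have i1 : IntervalIntegrable (fun t => δ * Va (cu v) t x) volume 0 T :=
    (continuous_const.mul hc).intervalIntegrable _ _
  have i2 : IntervalIntegrable (fun _ : ℝ => 2 * K * vU) volume 0 T := by simp
  rw [intervalIntegral.integral_const_mul, intervalIntegral.integral_add i1 i2,
    intervalIntegral.integral_const_mul, intervalIntegral.integral_const]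
  unfold Ja
  simp only [smul_eq_mul, sub_zero]
  ring

end

end Pool.Agent.R210
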