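import Pool.Agent.R210.Q6
import Pool.Agent.R210.N10

/-!
The production is controlled if the direction of the vorticity has small oscillation.
-/

open MeasureTheory Set Metric Filter Topology
open scoped ContDiff ENNReal
open H459R3.NS

namespace Pool.Agent.R210

theorem lsqSS : ∃ C : ℝ, 0 ≤ C ∧ ∀ (χ : V → ℝ) (w : V → V) (M T : ℝ), SP χ →
    (∀ i, SP fun x => w x i) → (∀ x, 0 ≤ χ x) → 0 < M →
    (∀ x y, |χ x - χ y| ≤ M * en (x - y)) → 0 < T →
    ∫ x in cube, χ x ^ 4 * SS w (min T (χ x / (2 * M))) x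
      ≤ C * ∫ x in cube, χ x ^ 4 * G2 w x := by
  choose C hC0 hC using lsq
  refine ⟨∑ i, C i, Finset.sum_nonneg fun i _ => hC0 i, fun χ w M T hχ hw hχ0 hM hLip hT => ?_⟩
  have hτc : Continuous fun x => min T (χ x / (2 * M)) :=
    continuous_const.min (hχ.cont.div_const _)
  have hc1 : ∀ i l m, Continuous fun x => χ x ^ 4
      * Sk i (pd l (fun y => w y m)) (min T (χ x / (2 * M))) x := fun i l m =>
    (hχ.cont.pow 4).mul (Sk_cont ((hw m).pd l) i hτc)
  have hc2 : ∀ l m, Continuous fun x => χ x ^ 4 * pd l (fun y => w y m) x ^ 2 := fun l m =>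
    (hχ.cont.pow 4).mul (((hw m).pd l).cont.pow 2)
  have e1 : ∫ x in cube, χ x ^ 4 * SS w (min T (χ x / (2 * M))) x
      = ∑ i, ∑ l, ∑ m, ∫ x in cube, χ x ^ 4
        * Sk i (pd l (fun y => w y m)) (min T (χ x / (2 * M))) x := by
    unfold SS
    simp_rw [Finset.mul_sum]
    rw [integral_finsetSum _ fun i _ => integrable_finsetSum _ fun l _ =>
      integrable_finsetSum _ fun m _ => integrableOn_cube (hc1 i l m)]
    refine Finset.sum_congr rfl fun i _ => ?_
    rw [integral_finsetSum _ fun l _ => integrable_finsetSum _ fun m _ =>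
      integrableOn_cube (hc1 i l m)]
    refine Finset.sum_congr rfl fun l _ => ?_
    rw [integral_finsetSum _ fun m _ => integrableOn_cube (hc1 i l m)]
  have e2 : ∫ x in cube, χ x ^ 4 * G2 w x
      = ∑ l, ∑ m, ∫ x in cube, χ x ^ 4 * pd l (fun y => w y m) x ^ 2 := by
    unfold G2 gr2
    simp_rw [Finset.mul_sum]
    rw [integral_finsetSum _ fun m _ => integrable_finsetSum _ fun l _ =>
      integrableOn_cube (hc2 l m), Finset.sum_comm]
    refine Finset.sum_congr rfl fun m _ => ?_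
    rw [integral_finsetSum _ fun l _ => integrableOn_cube (hc2 l m)]
  rw [e1, e2, Finset.sum_mul]
  refine Finset.sum_le_sum fun i _ => ?_
  rw [Finset.mul_sum]
  refine Finset.sum_le_sum fun l _ => ?_
  rw [Finset.mul_sum]
  exact Finset.sum_le_sum fun m _ => hC i χ _ M T hχ ((hw m).pd l) hχ0 hM hLip hT

/-- Integration by parts with a divergence free field. -/
theorem ibp_div {w : V → V} (hw : ∀ i, SP fun x => w x i) (hd : ∀ x, dv w x = 0) {F q : V → ℝ}
    (hF : SP F) (hq : SP q) :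
    ∫ x in cube, F x * ∑ i, w x i * pd i q x = -∫ x in cube, (∑ i, w x i * pd i F x) * q x := by
  have e1 : ∫ x in cube, F x * ∑ i, w x i * pd i q x
      = ∑ i, ∫ x in cube, pd i q x * (F x * w x i) := by
    rw [← integral_finsetSum _ fun i _ => ((hq.pd i).mul (hF.mul (hw i))).int]
    congr 1
    funext x
    rw [Finset.mul_sum]
    exact Finset.sum_congr rfl fun i _ => by ring
  rw [e1]
  simp_rw [fun i => ibp hq (hF.mul (hw i)) i]
  rw [Finset.sum_neg_distrib,
    ← integral_finsetSum _ fun i _ => (hq.mul ((hF.mul (hw i)).pd i)).int]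
  congr 1
  congr 1
  funext x
  have h1 : ∀ i, q x * pd i (fun x => F x * w x i) x
      = q x * (F x * pd i (fun x => w x i) x) + q x * (pd i F x * w x i) := by
    intro i
    rw [pd_mul hF (hw i)]; ring
  simp_rw [h1]
  rw [Finset.sum_add_distrib, ← Finset.mul_sum, ← Finset.mul_sum]
  have h2 : ∑ i, pd i (fun x => w x i) x = 0 := hd x
  rw [h2, Finset.sum_mul]
  simp only [mul_zero, zero_add]
  exact Finset.sum_congr rfl fun i _ => by ring

theorem orth_le (e a : V) (he : en e = 1) (r : ℝ) (j : Fin 3) :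
    |a j - (∑ i, e i * a i) * e j| ≤ en (r • e - a) := by
  have h0 := abs_le_en (a - (∑ i, e i * a i) • e) j
  simp only [Pi.sub_apply, Pi.smul_apply, smul_eq_mul] at h0
  refine h0.trans (Real.sqrt_le_sqrt ?_)
  have h4 : rsq e = 1 := by rw [← en_sq, he, one_pow]
  have h5 := h4
  unfold rsq at h5 ⊢
  rw [Fin.sum_univ_three] at h5 ⊢
  rw [Fin.sum_univ_three, Fin.sum_univ_three]
  simp only [Pi.sub_apply, Pi.smul_apply, smul_eq_mul]
  set b := e 0 * a 0 + e 1 * a 1 + e 2 * a 2 with hb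
  have e1 : (r * e 0 - a 0) ^ 2 + (r * e 1 - a 1) ^ 2 + (r * e 2 - a 2) ^ 2
      = r ^ 2 * (e 0 ^ 2 + e 1 ^ 2 + e 2 ^ 2) - 2 * r * b
        + (a 0 ^ 2 + a 1 ^ 2 + a 2 ^ 2) := by rw [hb]; ring
  have e2 : (a 0 - b * e 0) ^ 2 + (a 1 - b * e 1) ^ 2 + (a 2 - b * e 2) ^ 2
      = b ^ 2 * (e 0 ^ 2 + e 1 ^ 2 + e 2 ^ 2) - 2 * b * b
        + (a 0 ^ 2 + a 1 ^ 2 + a 2 ^ 2) := by rw [hb]; ring
  rw [e1, e2, h5]
  nlinarith [sq_nonneg (r - b)]

theorem abs_dot_le (e a : V) (he : en e = 1) : |∑ i, e i * a i| ≤ en a := by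
  have h3 := cs3 e a
  rw [← en_sq e, he, one_pow, one_mul, ← en_sq] at h3
  exact abs_le_of_sq_le_sq h3 (en_nonneg _)

end Pool.Agent.R210
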