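import Pool.Agent.R210.Q7

/-!
The production is controlled if the direction of the vorticity has small oscillation.
-/

open MeasureTheory Set Metric Filter Topology
open scoped ContDiff ENNReal
open H459R3.NS

namespace Pool.Agent.R210

/-- The bound of the weights. -/
theorem wt_le {χ M T a : ℝ} (hχ0 : 0 ≤ χ) (hχ1 : χ ≤ 1) (hM : 0 < M) (hT : 0 < T) :
    χ ^ 4 * (a ^ 2 / (min T (χ / (2 * M))) ^ 2) ≤ (1 / T ^ 2 + 4 * M ^ 2) * a ^ 2 := by
  rcases hχ0.eq_or_lt with h | h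
  · rw [← h]
    have : 0 ≤ (1 / T ^ 2 + 4 * M ^ 2) * a ^ 2 := by positivity
    simpa using this
  have h4 : χ ^ 4 ≤ 1 := pow_le_one₀ hχ0 hχ1
  have h2 : χ ^ 2 ≤ 1 := pow_le_one₀ hχ0 hχ1
  rcases min_cases T (χ / (2 * M)) with hc | hc
  · rw [hc.1]
    have h5 : 0 ≤ a ^ 2 / T ^ 2 := by positivity
    have h6 : 0 ≤ 4 * M ^ 2 * a ^ 2 := by positivity
    calc χ ^ 4 * (a ^ 2 / T ^ 2) ≤ 1 * (a ^ 2 / T ^ 2) := mul_le_mul_of_nonneg_right h4 h5
      _ ≤ (1 / T ^ 2 + 4 * M ^ 2) * a ^ 2 := by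
          have : 1 * (a ^ 2 / T ^ 2) = 1 / T ^ 2 * a ^ 2 := by ring
          rw [this]; linarith
  · rw [hc.1]
    have e1 : χ ^ 4 * (a ^ 2 / (χ / (2 * M)) ^ 2) = χ ^ 2 * (4 * M ^ 2 * a ^ 2) := by
      field_simp
      ring
    rw [e1]
    have h6 : 0 ≤ 4 * M ^ 2 * a ^ 2 := by positivity
    have h7 : 0 ≤ 1 / T ^ 2 * a ^ 2 := by positivity
    calc χ ^ 2 * (4 * M ^ 2 * a ^ 2) ≤ 1 * (4 * M ^ 2 * a ^ 2) := mul_le_mul_of_nonneg_right h2 h6
      _ ≤ _ := by linarith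

theorem int_comb2 {A B : V → ℝ} (hA : Continuous A) (hB : Continuous B) (a b : ℝ) :
    ∫ x in cube, (a * A x + b * B x) = a * (∫ x in cube, A x) + b * (∫ x in cube, B x) := by
  have iA : IntegrableOn (fun x => a * A x) cube := integrableOn_cube (continuous_const.mul hA)
  have iB : IntegrableOn (fun x => b * B x) cube := integrableOn_cube (continuous_const.mul hB)
  rw [integral_add iA iB, integral_const_mul, integral_const_mul]

theorem int_comb3 {A B C : V → ℝ} (hA : Continuous A) (hB : Continuous B) (hC : Continuous C)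
    (a b c : ℝ) : ∫ x in cube, (a * A x + b * B x + c * C x)
      = a * (∫ x in cube, A x) + b * (∫ x in cube, B x) + c * ∫ x in cube, C x := by
  have iA : IntegrableOn (fun x => a * A x) cube := integrableOn_cube (continuous_const.mul hA)
  have iB : IntegrableOn (fun x => b * B x) cube := integrableOn_cube (continuous_const.mul hB)
  have iC : IntegrableOn (fun x => c * C x) cube := integrableOn_cube (continuous_const.mul hC)
  have iAB : IntegrableOn (fun x => a * A x + b * B x) cube := iA.add iB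
  rw [integral_add iAB iC, integral_add iA iB, integral_const_mul, integral_const_mul,
    integral_const_mul]

/-- The hypotheses at a fixed time. -/
structure FT (v : V → V) (χ : V → ℝ) (e : V) (Λ δ K T M E0 : ℝ) : Prop where
  spv : ∀ i, SP fun x => v x i
  spχ : SP χ
  χ0 : ∀ x, 0 ≤ χ x
  χ1 : ∀ x, χ x ≤ 1
  lip : ∀ x y, |χ x - χ y| ≤ M * en (x - y)
  grad : ∀ x i, |pd i χ x| ≤ M
  e1 : en e = 1
  dv0 : ∀ x, χ x ≠ 0 → ∀ y ∈ eb x T, dv v y = 0
  mor : ∀ x, χ x ≠ 0 → ∀ t : ℝ, 0 < t → t ≤ T → Va (cu v) t x ≤ Λ / t ^ 2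
  uni : ∀ x, χ x ≠ 0 → Uni (cu v) e δ K (eb x (2 * T))
  energy : ∫ x in cube, rsq (v x) ≤ E0 ^ 2

theorem eb_mono {x : V} {r s : ℝ} (hr : 0 ≤ r) (hrs : r ≤ s) : eb x r ⊆ eb x s := by
  intro y hy
  unfold eb at hy ⊢
  rw [mem_ofPred_eq] at hy ⊢
  have := pow_le_pow_left₀ hr hrs 2
  linarith

section

variable {v : V → V} {χ : V → ℝ} {e : V} {Λ δ K T M E0 : ℝ}

/-- The cubic integral. -/
theorem FT.cubic (h : FT v χ e Λ δ K T M E0) (hΛ : 0 < Λ) (hT : 0 < T) (hM : 0 < M) {CQ' : ℝ}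
    (hQ : ∫ x in cube, χ x ^ 4 * SS (cu v) (min T (χ x / (2 * M))) x
      ≤ CQ' * ∫ x in cube, χ x ^ 4 * G2 (cu v) x) :
    ∫ x in cube, χ x ^ 4 * en (cu v x) ^ 3
      ≤ 2000 * BB * Λ * CQ' * (∫ x in cube, χ x ^ 4 * G2 (cu v) x)
        + 6 * BB * Λ * (1 / T ^ 2 + 4 * M ^ 2) * ∫ x in cube, rsq (cu v x) := by
  have hBB := one_le_BB
  have hw := sp_cu h.spv
  have hτc : Continuous fun x => min T (χ x / (2 * M)) :=
    continuous_const.min (h.spχ.cont.div_const _)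
  have cS : Continuous fun x => χ x ^ 4 * SS (cu v) (min T (χ x / (2 * M))) x := by
    refine (h.spχ.cont.pow 4).mul ?_
    unfold SS
    exact continuous_finsetSum _ fun i _ => continuous_finsetSum _ fun l _ =>
      continuous_finsetSum _ fun m _ => Sk_cont ((hw m).pd l) i hτc
  have cr : Continuous fun x => rsq (cu v x) := (sp_rsqG hw).cont
  have c3 : Continuous fun x => χ x ^ 4 * en (cu v x) ^ 3 :=
    (h.spχ.cont.pow 4).mul ((f_cont hw).pow 3)
  have h1 : ∫ x in cube, χ x ^ 4 * en (cu v x) ^ 3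
      ≤ ∫ x in cube, (2000 * BB * Λ * (χ x ^ 4 * SS (cu v) (min T (χ x / (2 * M))) x)
        + 6 * BB * Λ * (1 / T ^ 2 + 4 * M ^ 2) * rsq (cu v x)) := by
    refine setIntegral_mono (integrableOn_cube c3)
      ((integrableOn_cube (continuous_const.mul cS)).add
        (integrableOn_cube (continuous_const.mul cr))) fun x => ?_
    simp only
    rcases (h.χ0 x).eq_or_lt with h0 | h0
    · rw [← h0]
      have := rsq_nonneg (cu v x)
      simp only [ne_eq, OfNat.ofNat_ne_zero, not_false_eq_true, zero_pow, zero_mul, mul_zero,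
        zero_add]
      positivity
    · have hτ : 0 < min T (χ x / (2 * M)) := lt_min hT (by positivity)
      have h2 := ptA hw hΛ hτ (x := x) fun t ht htτ =>
        h.mor x h0.ne' t ht (htτ.trans (min_le_left _ _))
      have h3 := wt_le (a := en (cu v x)) h0.le (h.χ1 x) hM hT
      have h4 : 0 ≤ χ x ^ 4 := by positivity
      have h5 := mul_le_mul_of_nonneg_left h2 h4
      have h6 := mul_le_mul_of_nonneg_left h3 (by positivity : 0 ≤ 6 * BB * Λ)
      rw [en_sq] at h5 h6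
      linarith
  rw [int_comb2 cS cr] at h1
  have h2 := mul_le_mul_of_nonneg_left hQ (by positivity : 0 ≤ 2000 * BB * Λ)
  linarith

/-- The gradient integral. -/
theorem FT.gradI (h : FT v χ e Λ δ K T M E0) (hΛ : 0 < Λ) (hT : 0 < T) (hM : 0 < M) {CQ' MT : ℝ}
    (hQ : ∫ x in cube, χ x ^ 4 * SS (cu v) (min T (χ x / (2 * M))) x
      ≤ CQ' * ∫ x in cube, χ x ^ 4 * G2 (cu v) x)
    (hMT : ∀ x i j, |mo phi T (pd i (fun y => v y j)) x| ≤ MT) (i j : Fin 3) :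
    ∫ x in cube, χ x ^ 4 * (rsq (cu v x) * |pd i (fun y => v y j) x|)
      ≤ (Λ * CQ' + (1 + 2 * BB) * (2000 * BB * Λ * CQ'))
          * (∫ x in cube, χ x ^ 4 * G2 (cu v) x)
        + (MT + (1 + 2 * BB) * (6 * BB * Λ * (1 / T ^ 2 + 4 * M ^ 2))
          + 2 * BB * Λ * (1 / T ^ 2 + 4 * M ^ 2)) * ∫ x in cube, rsq (cu v x) := by
  have hBB := one_le_BB
  have hw := sp_cu h.spv
  have hMT0 : 0 ≤ MT := (abs_nonneg _).trans (hMT 0 0 0)
  have hcub := h.cubic hΛ hT hM hQ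
  have hτc : Continuous fun x => min T (χ x / (2 * M)) :=
    continuous_const.min (h.spχ.cont.div_const _)
  have cS : Continuous fun x => χ x ^ 4 * SS (cu v) (min T (χ x / (2 * M))) x := by
    refine (h.spχ.cont.pow 4).mul ?_
    unfold SS
    exact continuous_finsetSum _ fun i _ => continuous_finsetSum _ fun l _ =>
      continuous_finsetSum _ fun m _ => Sk_cont ((hw m).pd l) i hτc
  have cr : Continuous fun x => rsq (cu v x) := (sp_rsqG hw).cont
  have c3 : Continuous fun x => χ x ^ 4 * en (cu v x) ^ 3 :=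
    (h.spχ.cont.pow 4).mul ((f_cont hw).pow 3)
  have cg : Continuous fun x => χ x ^ 4 * (rsq (cu v x) * |pd i (fun y => v y j) x|) :=
    (h.spχ.cont.pow 4).mul (cr.mul ((h.spv j).pd i).cont.abs)
  set B0 : ℝ := 1 / T ^ 2 + 4 * M ^ 2 with hB0
  have hB00 : 0 ≤ B0 := by positivity
  have i1 := integrableOn_cube (continuous_const.mul cS : Continuous fun x => Λ * _)
  have i2 := integrableOn_cube (continuous_const.mul c3 : Continuous fun x => (1 + 2 * BB) * _)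
  have i3 := integrableOn_cube (continuous_const.mul cr :
    Continuous fun x => (MT + 2 * BB * Λ * B0) * _)
  have h1 : ∫ x in cube, χ x ^ 4 * (rsq (cu v x) * |pd i (fun y => v y j) x|)
      ≤ ∫ x in cube, (Λ * (χ x ^ 4 * SS (cu v) (min T (χ x / (2 * M))) x)
        + (1 + 2 * BB) * (χ x ^ 4 * en (cu v x) ^ 3) + (MT + 2 * BB * Λ * B0) * rsq (cu v x)) := by
    refine setIntegral_mono (integrableOn_cube cg) ((i1.add i2).add i3) fun x => ?_
    simp only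
    rcases (h.χ0 x).eq_or_lt with h0 | h0
    · rw [← h0]
      have := rsq_nonneg (cu v x)
      simp only [ne_eq, OfNat.ofNat_ne_zero, not_false_eq_true, zero_pow, zero_mul, mul_zero,
        zero_add]
      positivity
    · have hτ : 0 < min T (χ x / (2 * M)) := lt_min hT (by positivity)
      have h2 := ptC h.spv hτ (min_le_left _ _) hΛ (h.dv0 x h0.ne') (h.mor x h0.ne')
        (fun i j => hMT x i j) i j
      have h3 := wt_le (a := en (cu v x)) h0.le (h.χ1 x) hM hT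
      have h4 : 0 ≤ χ x ^ 4 := by positivity
      have h5 := mul_le_mul_of_nonneg_left h2 h4
      have h6 := mul_le_mul_of_nonneg_left h3 (by positivity : 0 ≤ 2 * BB * Λ)
      have h7 : χ x ^ 4 * (MT * rsq (cu v x)) ≤ MT * rsq (cu v x) :=
        mul_le_of_le_one_left (mul_nonneg hMT0 (rsq_nonneg _)) (pow_le_one₀ h0.le (h.χ1 x))
      rw [en_sq] at h5 h6
      linarith
  have e1 : ∫ x in cube, (Λ * (χ x ^ 4 * SS (cu v) (min T (χ x / (2 * M))) x)
        + (1 + 2 * BB) * (χ x ^ 4 * en (cu v x) ^ 3) + (MT + 2 * BB * Λ * B0) * rsq (cu v x))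
      = Λ * (∫ x in cube, χ x ^ 4 * SS (cu v) (min T (χ x / (2 * M))) x)
        + (1 + 2 * BB) * (∫ x in cube, χ x ^ 4 * en (cu v x) ^ 3)
        + (MT + 2 * BB * Λ * B0) * ∫ x in cube, rsq (cu v x) := int_comb3 cS c3 cr _ _ _
  rw [e1] at h1
  have h2 := mul_le_mul_of_nonneg_left hQ hΛ.le
  have h3 := mul_le_mul_of_nonneg_left hcub (by linarith : 0 ≤ 1 + 2 * BB)
  linarith

/-- The constants. -/
noncomputable def A1c (Λ CQ' : ℝ) : ℝ :=
  72 * BB ^ 2 * ((36 * c8 + 1) ^ 2 * Λ * (2000 * BB * Λ * CQ') + (36 * c8) ^ 2 * Λ ^ 2 * CQ')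

noncomputable def B1c (Λ K T M : ℝ) : ℝ :=
  72 * BB ^ 2 * ((36 * c8 + 1) ^ 2 * Λ * (6 * BB * Λ * (1 / T ^ 2 + 4 * M ^ 2))
    + (36 * c8) ^ 2 * K ^ 2 + 4 * Λ ^ 2 * (1 / T ^ 2 + 4 * M ^ 2)) + 72 * BB ^ 2 * K ^ 2 * vU ^ 2

/-- The potential integral. -/
theorem FT.potI (h : FT v χ e Λ δ K T M E0) (hΛ : 0 < Λ) (hδ : 0 ≤ δ) (hδ1 : δ ≤ 1 / 8)
    (hK : 0 ≤ K) (hT : 0 < T) (hT1 : T ≤ 1) (hM : 0 < M) {CQ' : ℝ}
    (hQ : ∫ x in cube, χ x ^ 4 * SS (cu v) (min T (χ x / (2 * M))) x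
      ≤ CQ' * ∫ x in cube, χ x ^ 4 * G2 (cu v) x) :
    ∫ x in cube, χ x ^ 4 * (rsq (cu v x) * (ce v e x - mo phi T (ce v e) x) ^ 2)
      ≤ δ ^ 2 * A1c Λ CQ' * (∫ x in cube, χ x ^ 4 * G2 (cu v) x)
        + B1c Λ K T M * ∫ x in cube, rsq (cu v x) := by
  have hBB := one_le_BB
  have hc8 := c8_pos
  have hvU := vU_nonneg
  have hw := sp_cu h.spv
  have hcub := h.cubic hΛ hT hM hQ
  have hτc : Continuous fun x => min T (χ x / (2 * M)) :=
    continuous_const.min (h.spχ.cont.div_const _)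
  have cS : Continuous fun x => χ x ^ 4 * SS (cu v) (min T (χ x / (2 * M))) x := by
    refine (h.spχ.cont.pow 4).mul ?_
    unfold SS
    exact continuous_finsetSum _ fun i _ => continuous_finsetSum _ fun l _ =>
      continuous_finsetSum _ fun m _ => Sk_cont ((hw m).pd l) i hτc
  have cr : Continuous fun x => rsq (cu v x) := (sp_rsqG hw).cont
  have c3 : Continuous fun x => χ x ^ 4 * en (cu v x) ^ 3 :=
    (h.spχ.cont.pow 4).mul ((f_cont hw).pow 3)
  have hq : SP fun x => ce v e x - mo phi T (ce v e) x :=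
    (sp_ce h.spv e).sub (sp_mo phi_smooth.continuous phi_compact (sp_ce h.spv e) T)
  have cz : Continuous fun x => χ x ^ 4 * (rsq (cu v x)
      * (ce v e x - mo phi T (ce v e) x) ^ 2) :=
    (h.spχ.cont.pow 4).mul (cr.mul (hq.cont.pow 2))
  set B0 : ℝ := 1 / T ^ 2 + 4 * M ^ 2 with hB0
  have hB00 : 0 ≤ B0 := by positivity
  set C1 : ℝ := 36 * c8 with hC1
  have hC10 : 0 < C1 := by positivity
  set b1 : ℝ := 72 * BB ^ 2 * δ ^ 2 * ((C1 + 1) ^ 2 * Λ) with hb1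
  set b2 : ℝ := 72 * BB ^ 2 * δ ^ 2 * (C1 ^ 2 * Λ ^ 2) with hb2
  set b3 : ℝ := 72 * BB ^ 2 * (C1 ^ 2 * K ^ 2 + 4 * Λ ^ 2 * B0) + 72 * BB ^ 2 * K ^ 2 * vU ^ 2
    with hb3
  have hb10 : 0 ≤ b1 := by positivity
  have hb20 : 0 ≤ b2 := by positivity
  have hb30 : 0 ≤ b3 := by positivity
  have hδ2 : δ ^ 2 ≤ 1 := by nlinarith
  have i1 := integrableOn_cube (continuous_const.mul c3 : Continuous fun x => b1 * _)
  have i2 := integrableOn_cube (continuous_const.mul cS : Continuous fun x => b2 * _)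
  have i3 := integrableOn_cube (continuous_const.mul cr : Continuous fun x => b3 * _)
  have h1 : ∫ x in cube, χ x ^ 4 * (rsq (cu v x) * (ce v e x - mo phi T (ce v e) x) ^ 2)
      ≤ ∫ x in cube, (b1 * (χ x ^ 4 * en (cu v x) ^ 3)
        + b2 * (χ x ^ 4 * SS (cu v) (min T (χ x / (2 * M))) x) + b3 * rsq (cu v x)) := by
    refine setIntegral_mono (integrableOn_cube cz) ((i1.add i2).add i3) fun x => ?_
    simp only
    rcases (h.χ0 x).eq_or_lt with h0 | h0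
    · rw [← h0]
      have := rsq_nonneg (cu v x)
      simp only [ne_eq, OfNat.ofNat_ne_zero, not_false_eq_true, zero_pow, zero_mul, mul_zero,
        zero_add]
      positivity
    · have hτ : 0 < min T (χ x / (2 * M)) := lt_min hT (by positivity)
      have hu := h.uni x h0.ne'
      have hu8 : Uni (cu v) e (1 / 8) K (eb x (2 * T)) := fun y hy =>
        (hu y hy).trans (by
          have := mul_le_mul_of_nonneg_right hδ1 (en_nonneg (cu v y))
          linarith)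
      have h2 := ptB hw h.e1 hK hτ (min_le_left _ _) hT1 hΛ hu8 (h.mor x h0.ne')
      have h3 := ptD h.spv h.e1 hT hδ hK (h.dv0 x h0.ne')
        (fun y hy => hu y (eb_mono hT.le (by linarith) hy))
      have h4 := wt_le (a := en (cu v x)) h0.le (h.χ1 x) hM hT
      set q := ce v e x - mo phi T (ce v e) x with hqd
      set a := en (cu v x) with ha
      set J := Ja (cu v) T x with hJ
      set s := SS (cu v) (min T (χ x / (2 * M))) x with hs
      set X4 := χ x ^ 4 with hX4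
      have hX40 : 0 ≤ X4 := by positivity
      have hX41 : X4 ≤ 1 := pow_le_one₀ h0.le (h.χ1 x)
      have h5 : q ^ 2 ≤ 18 * BB ^ 2 * (δ ^ 2 * J ^ 2 + 4 * K ^ 2 * vU ^ 2) := by
        have g1 : q ^ 2 ≤ (3 * BB * (δ * J + 2 * K * vU * T)) ^ 2 := by
          rw [← sq_abs q]
          exact pow_le_pow_left₀ (abs_nonneg _) h3 2
        have g2 : (δ * J + 2 * K * vU * T) ^ 2 ≤ 2 * (δ ^ 2 * J ^ 2 + 4 * K ^ 2 * vU ^ 2) := by
          have g3 : (2 * K * vU * T) ^ 2 ≤ 4 * K ^ 2 * vU ^ 2 := by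
            have : T ^ 2 ≤ 1 := pow_le_one₀ hT.le hT1
            calc (2 * K * vU * T) ^ 2 = 4 * K ^ 2 * vU ^ 2 * T ^ 2 := by ring
              _ ≤ 4 * K ^ 2 * vU ^ 2 * 1 := mul_le_mul_of_nonneg_left this (by positivity)
              _ = _ := mul_one _
          nlinarith [sq_nonneg (δ * J - 2 * K * vU * T)]
        calc q ^ 2 ≤ (3 * BB * (δ * J + 2 * K * vU * T)) ^ 2 := g1
          _ = 9 * BB ^ 2 * (δ * J + 2 * K * vU * T) ^ 2 := by ring
          _ ≤ 9 * BB ^ 2 * (2 * (δ ^ 2 * J ^ 2 + 4 * K ^ 2 * vU ^ 2)) :=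
              mul_le_mul_of_nonneg_left g2 (by positivity)
          _ = _ := by ring
      have h6 : X4 * (a ^ 2 * q ^ 2) ≤ 18 * BB ^ 2 * (δ ^ 2 * (X4 * (a * J) ^ 2)
          + 4 * K ^ 2 * vU ^ 2 * a ^ 2) := by
        have g1 : X4 * (a ^ 2 * q ^ 2) ≤ X4 * (a ^ 2 * (18 * BB ^ 2
            * (δ ^ 2 * J ^ 2 + 4 * K ^ 2 * vU ^ 2))) :=
          mul_le_mul_of_nonneg_left (mul_le_mul_of_nonneg_left h5 (by positivity)) hX40
        have g2 : X4 * a ^ 2 ≤ 1 * a ^ 2 := mul_le_mul_of_nonneg_right hX41 (by positivity)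
        have g3 := mul_le_mul_of_nonneg_left g2 (by positivity : 0 ≤ 18 * BB ^ 2 * (4 * K ^ 2 * vU ^ 2))
        calc X4 * (a ^ 2 * q ^ 2) ≤ _ := g1
          _ = 18 * BB ^ 2 * (δ ^ 2 * (X4 * (a * J) ^ 2))
              + 18 * BB ^ 2 * (4 * K ^ 2 * vU ^ 2) * (X4 * a ^ 2) := by ring
          _ ≤ 18 * BB ^ 2 * (δ ^ 2 * (X4 * (a * J) ^ 2))
              + 18 * BB ^ 2 * (4 * K ^ 2 * vU ^ 2) * (1 * a ^ 2) := by linarith
          _ = _ := by ring
      have h7 : X4 * (a * J) ^ 2 ≤ 4 * ((C1 + 1) ^ 2 * Λ * (X4 * a ^ 3)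
          + C1 ^ 2 * Λ ^ 2 * (X4 * s) + (C1 ^ 2 * K ^ 2 + 4 * Λ ^ 2 * B0) * a ^ 2) := by
        have g1 := mul_le_mul_of_nonneg_left h2 hX40
        have g2 : X4 * a ^ 2 ≤ 1 * a ^ 2 := mul_le_mul_of_nonneg_right hX41 (by positivity)
        have g3 := mul_le_mul_of_nonneg_left g2 (by positivity : 0 ≤ 4 * (C1 ^ 2 * K ^ 2))
        have g4 := mul_le_mul_of_nonneg_left h4 (by positivity : 0 ≤ 4 * (4 * Λ ^ 2))
        linarith
      have h8 := mul_le_mul_of_nonneg_left h7 (by positivity : 0 ≤ 18 * BB ^ 2 * δ ^ 2)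
      have h9 : δ ^ 2 * (72 * BB ^ 2 * ((C1 ^ 2 * K ^ 2 + 4 * Λ ^ 2 * B0) * a ^ 2))
          ≤ 1 * (72 * BB ^ 2 * ((C1 ^ 2 * K ^ 2 + 4 * Λ ^ 2 * B0) * a ^ 2)) :=
        mul_le_mul_of_nonneg_right hδ2 (by positivity)
      have e2 : rsq (cu v x) = a ^ 2 := (en_sq _).symm
      rw [e2, hb1, hb2, hb3]
      linarith
  have e1 : ∫ x in cube, (b1 * (χ x ^ 4 * en (cu v x) ^ 3)
        + b2 * (χ x ^ 4 * SS (cu v) (min T (χ x / (2 * M))) x) + b3 * rsq (cu v x))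
      = b1 * (∫ x in cube, χ x ^ 4 * en (cu v x) ^ 3)
        + b2 * (∫ x in cube, χ x ^ 4 * SS (cu v) (min T (χ x / (2 * M))) x)
        + b3 * ∫ x in cube, rsq (cu v x) := int_comb3 c3 cS cr _ _ _
  rw [e1] at h1
  have hW0 : 0 ≤ ∫ x in cube, rsq (cu v x) := integral_nonneg fun x => rsq_nonneg _
  have h2 := mul_le_mul_of_nonneg_left hQ hb20
  have h3 := mul_le_mul_of_nonneg_left hcub hb10
  refine h1.trans ?_
  unfold A1c B1c
  rw [← hC1, ← hB0]
  have h4 : δ ^ 2 * (72 * BB ^ 2 * ((C1 + 1) ^ 2 * Λ * (6 * BB * Λ * B0))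
      * ∫ x in cube, rsq (cu v x)) ≤ 1 * (72 * BB ^ 2 * ((C1 + 1) ^ 2 * Λ * (6 * BB * Λ * B0))
      * ∫ x in cube, rsq (cu v x)) := mul_le_mul_of_nonneg_right hδ2 (by positivity)
  set D := ∫ x in cube, χ x ^ 4 * G2 (cu v) x with hD
  set W := ∫ x in cube, rsq (cu v x) with hW
  set I3 := ∫ x in cube, χ x ^ 4 * en (cu v x) ^ 3 with hI3
  set IS := ∫ x in cube, χ x ^ 4 * SS (cu v) (min T (χ x / (2 * M))) x with hIS
  have h5 : b1 * (2000 * BB * Λ * CQ' * D + 6 * BB * Λ * B0 * W) + b2 * (CQ' * D) + b3 * W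
      = δ ^ 2 * (72 * BB ^ 2 * ((C1 + 1) ^ 2 * Λ * (2000 * BB * Λ * CQ') + C1 ^ 2 * Λ ^ 2 * CQ')) * D
        + δ ^ 2 * (72 * BB ^ 2 * ((C1 + 1) ^ 2 * Λ * (6 * BB * Λ * B0)) * W) + b3 * W := by
    rw [hb1, hb2]; ring
  calc b1 * I3 + b2 * IS + b3 * W
      ≤ b1 * (2000 * BB * Λ * CQ' * D + 6 * BB * Λ * B0 * W) + b2 * (CQ' * D) + b3 * W := by
        linarith
    _ = _ := h5
    _ ≤ δ ^ 2 * (72 * BB ^ 2 * ((C1 + 1) ^ 2 * Λ * (2000 * BB * Λ * CQ') + C1 ^ 2 * Λ ^ 2 * CQ')) * D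
        + 1 * (72 * BB ^ 2 * ((C1 + 1) ^ 2 * Λ * (6 * BB * Λ * B0)) * W) + b3 * W := by linarith
    _ = _ := by rw [hb3]; ring

end

end Pool.Agent.R210
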