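import Pool.Agent.R210.Q9

/-!
The line of the vorticity: estimates which do not see the sign of the vorticity.
-/

open MeasureTheory Set Metric Filter Topology
open scoped ContDiff ENNReal
open H459R3.NS

namespace Pool.Agent.R210

/-- The field is nearly parallel or antiparallel to `e`. -/
def UniL (w : V → V) (e : V) (δ K : ℝ) (U : Set V) : Prop :=
  ∀ y ∈ U, en (crossProduct e (w y)) ≤ δ * en (w y) + 2 * K

theorem orth_leL (e a : V) (he : en e = 1) (j : Fin 3) :
    |a j - (∑ i, e i * a i) * e j| ≤ en (crossProduct e a) := by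
  have h0 := abs_le_en (a - (∑ i, e i * a i) • e) j
  simp only [Pi.sub_apply, Pi.smul_apply, smul_eq_mul] at h0
  refine h0.trans (Real.sqrt_le_sqrt ?_)
  rw [← lagrange]
  have h4 : rsq e = 1 := by rw [← en_sq, he, one_pow]
  have h5 := h4
  unfold rsq at h5 ⊢
  rw [Fin.sum_univ_three] at h5 ⊢
  rw [Fin.sum_univ_three, Fin.sum_univ_three, Fin.sum_univ_three]
  simp only [Pi.sub_apply, Pi.smul_apply, smul_eq_mul]
  set b := e 0 * a 0 + e 1 * a 1 + e 2 * a 2 with hb
  have e2 : (a 0 - b * e 0) ^ 2 + (a 1 - b * e 1) ^ 2 + (a 2 - b * e 2) ^ 2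
      = b ^ 2 * (e 0 ^ 2 + e 1 ^ 2 + e 2 ^ 2) - 2 * b * b
        + (a 0 ^ 2 + a 1 ^ 2 + a 2 ^ 2) := by rw [hb]; ring
  rw [e2, h5]
  linarith

/-- The length is bounded by the component. -/
theorem en_le_dot (e a : V) (he : en e = 1) :
    en a ≤ |∑ i, e i * a i| + en (crossProduct e a) := by
  have h4 : rsq e = 1 := by rw [← en_sq, he, one_pow]
  have h1 := lagrange e a
  rw [h4, one_mul] at h1
  have h2 : rsq a = (∑ i, e i * a i) ^ 2 + rsq (crossProduct e a) := by linarith
  have h3 := en_nonneg (crossProduct e a)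
  have h5 := abs_nonneg (∑ i, e i * a i)
  refine abs_le_of_sq_le_sq' ?_ (by positivity) |>.2
  rw [en_sq, h2, ← sq_abs (∑ i, e i * a i), ← en_sq]
  nlinarith

/-- The smooth modulus of the component. -/
noncomputable def gm (w : V → V) (e : V) (k : ℝ) (y : V) : ℝ := Real.sqrt (ce w e y ^ 2 + k ^ 2)

noncomputable def wg (w : V → V) (e : V) (k : ℝ) (y : V) : V := ![gm w e k y, 0, 0]

section

variable {w : V → V} (hw : ∀ i, SP (fun x => w x i))

include hw in
theorem sp_gm (e : V) {k : ℝ} (hk : 0 < k) : SP (gm w e k) where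
  smooth := by
    unfold gm
    exact (((sp_ce hw e).smooth.pow 2).add contDiff_const).sqrt fun x => by positivity
  per := fun i x => by
    unfold gm
    rw [(sp_ce hw e).per i x]

include hw in
theorem sp_wg (e : V) {k : ℝ} (hk : 0 < k) (i : Fin 3) : SP fun x => wg w e k x i := by
  fin_cases i
  · exact sp_gm hw e hk
  · exact ⟨contDiff_const, fun _ _ => rfl⟩
  · exact ⟨contDiff_const, fun _ _ => rfl⟩

theorem gm_nonneg (w : V → V) (e : V) (k : ℝ) (y : V) : 0 ≤ gm w e k y := Real.sqrt_nonneg _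

theorem abs_ce_le_gm (w : V → V) (e : V) (k : ℝ) (y : V) : |ce w e y| ≤ gm w e k y := by
  unfold gm
  rw [← Real.sqrt_sq_eq_abs]
  exact Real.sqrt_le_sqrt (by nlinarith [sq_nonneg k])

theorem k_le_gm (w : V → V) (e : V) {k : ℝ} (hk : 0 ≤ k) (y : V) : k ≤ gm w e k y := by
  unfold gm
  rw [← Real.sqrt_sq hk]
  refine Real.sqrt_le_sqrt ?_
  rw [Real.sq_sqrt (sq_nonneg k)]
  nlinarith [sq_nonneg (ce w e y)]

theorem gm_le (w : V → V) (e : V) (he : en e = 1) {k : ℝ} (hk : 0 ≤ k) (y : V) :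
    gm w e k y ≤ en (w y) + k := by
  have h1 : |ce w e y| ≤ en (w y) := abs_dot_le e (w y) he
  have h2 := en_nonneg (w y)
  unfold gm
  rw [Real.sqrt_le_left (by positivity), ← sq_abs]
  have h3 := pow_le_pow_left₀ (abs_nonneg _) h1 2
  nlinarith [mul_nonneg h2 hk]

theorem en_wg (w : V → V) (e : V) (k : ℝ) (y : V) : en (wg w e k y) = gm w e k y := by
  unfold en rsq wg
  rw [Fin.sum_univ_three]
  simp only [Matrix.cons_val_zero, Matrix.cons_val_one, Matrix.cons_val]
  have : gm w e k y ^ 2 + 0 ^ 2 + 0 ^ 2 = gm w e k y ^ 2 := by ring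
  rw [this, Real.sqrt_sq (gm_nonneg _ _ _ _)]

theorem uni_wg (w : V → V) (e : V) (k : ℝ) (δ : ℝ) (hδ : 0 ≤ δ) (U : Set V) :
    Uni (wg w e k) (Pi.single 0 1) δ 0 U := by
  intro y _
  rw [en_wg]
  have e1 : gm w e k y • (Pi.single 0 1 : V) - wg w e k y = 0 := by
    funext i
    unfold wg
    fin_cases i <;> simp
  rw [e1]
  have h1 : en (0 : V) = 0 := by simp [en, rsq]
  rw [h1]
  have := gm_nonneg w e k y
  positivity

include hw in
theorem pd_gm_le (e : V) {k : ℝ} (hk : 0 < k) (i : Fin 3) (x : V) :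
    pd i (gm w e k) x ^ 2 ≤ pd i (ce w e) x ^ 2 := by
  have hce := sp_ce hw e
  have hpos : 0 < ce w e x ^ 2 + k ^ 2 := by positivity
  have h1 : HasFDerivAt (ce w e) (fderiv ℝ (ce w e) x) x := (hce.diff x).hasFDerivAt
  have h2 : HasFDerivAt (fun y => ce w e y ^ 2 + k ^ 2)
      ((2 * ce w e x) • fderiv ℝ (ce w e) x) x := by
    have := (h1.pow 2).add_const (k ^ 2)
    refine this.congr_fderiv ?_
    ext v
    simp
  have h3 := h2.sqrt hpos.ne'
  have h4 : pd i (gm w e k) x = (1 / (2 * Real.sqrt (ce w e x ^ 2 + k ^ 2)))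
      * (2 * ce w e x * pd i (ce w e) x) := by
    unfold pd
    have h5 : fderiv ℝ (gm w e k) x = _ := h3.fderiv
    rw [h5]
    simp
  set s := Real.sqrt (ce w e x ^ 2 + k ^ 2) with hs
  have hs0 : 0 < s := Real.sqrt_pos.2 hpos
  have hs2 : s ^ 2 = ce w e x ^ 2 + k ^ 2 := Real.sq_sqrt hpos.le
  have h5 : pd i (gm w e k) x = ce w e x / s * pd i (ce w e) x := by
    rw [h4]; field_simp
  rw [h5, mul_pow, div_pow, hs2]
  have h6 : ce w e x ^ 2 / (ce w e x ^ 2 + k ^ 2) ≤ 1 := by
    rw [div_le_one hpos]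
    nlinarith [sq_nonneg k]
  exact mul_le_of_le_one_left (sq_nonneg _) h6

include hw in
theorem G2_wg_le (e : V) (he : en e = 1) {k : ℝ} (hk : 0 < k) (x : V) :
    G2 (wg w e k) x ≤ G2 w x := by
  have h4 : rsq e = 1 := by rw [← en_sq, he, one_pow]
  have h1 : G2 (wg w e k) x = gr2 (gm w e k) x := by
    unfold G2
    rw [Fin.sum_univ_three]
    have e0 : (fun y => wg w e k y 0) = gm w e k := rfl
    have e1 : (fun y => wg w e k y 1) = fun _ => (0 : ℝ) := rfl
    have e2 : (fun y => wg w e k y 2) = fun _ => (0 : ℝ) := rfl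
    have z : gr2 (fun _ => (0 : ℝ)) x = 0 := by
      unfold gr2 pd
      simp
    rw [e0, e1, e2, z]
    ring
  rw [h1]
  unfold gr2 G2
  have h2 : ∀ i, pd i (gm w e k) x ^ 2 ≤ ∑ j, pd i (fun y => w y j) x ^ 2 := by
    intro i
    refine (pd_gm_le hw e hk i x).trans ?_
    rw [pd_ce hw]
    refine (cs3 e fun j => pd i (fun y => w y j) x).trans ?_
    rw [h4, one_mul]
    rfl
  refine (Finset.sum_le_sum fun i _ => h2 i).trans (le_of_eq ?_)
  unfold gr2
  exact Finset.sum_comm

include hw in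
/-- The averages are bounded by the value and the square function of the modulus. -/
theorem va_leL {e : V} {K k T τ : ℝ} {x : V} (he : en e = 1) (hk : 0 < k) (hKk : K ≤ k)
    (hu : UniL w e (1 / 8) K (eb x (2 * T))) {t : ℝ} (ht : 0 < t) (htτ : 2 * t ≤ τ) (htT : t ≤ T) :
    Va w t x ≤ 144 * c8 * (en (w x) + t * Real.sqrt (SS (wg w e k) τ x) + k) := by
  have hc8 := c8_pos
  have hg := sp_wg hw e hk
  have h1 := va_le hg en_single le_rfl (uni_wg w e k (1 / 8) (by norm_num) (eb x (2 * T)))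
    ht htτ htT
  have h2 : Va w t x ≤ 4 * Va (wg w e k) t x := by
    unfold Va
    rw [← integral_const_mul]
    have hc : Continuous fun z : V => x - t • z := by fun_prop
    refine setIntegral_mono_on (int_U1 ((f_cont hw).comp hc))
      (int_U1 (continuous_const.mul ((f_cont hg).comp hc))) measurable_U1 fun z hz => ?_
    have hy : x - t • z ∈ eb x (2 * T) := eb_sub_mem ht hz (by linarith)
    have a1 := en_le_dot e (w (x - t • z)) he
    have a2 := hu _ hy
    have a3 := abs_ce_le_gm w e k (x - t • z)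
    have a4 := k_le_gm w e hk.le (x - t • z)
    have a5 := en_nonneg (w (x - t • z))
    have a6 : |∑ i, e i * w (x - t • z) i| = |ce w e (x - t • z)| := rfl
    rw [a6] at a1
    simp only [en_wg]
    linarith
  have h3 : en (wg w e k x) ≤ en (w x) + k := by
    rw [en_wg]
    exact gm_le w e he hk.le x
  have h4 : 0 ≤ Real.sqrt (SS (wg w e k) τ x) := Real.sqrt_nonneg _
  have h5 : 36 * c8 * (en (wg w e k x) + t * Real.sqrt (SS (wg w e k) τ x) + 0)
      ≤ 36 * c8 * (en (w x) + t * Real.sqrt (SS (wg w e k) τ x) + k) :=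
    mul_le_mul_of_nonneg_left (by linarith) (by positivity)
  linarith

end

end Pool.Agent.R210
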