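import Pool.Agent.R210.S9

/-!
The flux bound for a field whose line stays in a double cone, second part.
-/

open MeasureTheory Set Metric Filter Topology
open scoped ContDiff RealInnerProductSpace
open H459R3.NS

namespace Pool.Agent.R210

/-- A constant. -/
noncomputable def cK : ℝ := c1 * hh (1 / 4) * hh (11 / 16)

theorem cK_pos : 0 < cK := by
  have h1 := c1_pos
  have h2 : 0 < hh (1 / 4) := hh_pos (by norm_num)
  have h3 : 0 < hh (11 / 16) := hh_pos (by norm_num)
  unfold cK
  positivity

theorem cone_fluxM {W : E → E} {x e : E} {m R r : ℝ} (he : ‖e‖ = 1) (hm : 1 ≤ m)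
    (hr : 0 < r) (hrR : r ≤ R) (hci : Continuous fun y => ⟪e, W y⟫)
    (h0 : ∫ y, fderiv ℝ (tqm m r R e x) y (W y) = 0)
    (i3 : Integrable fun y => fderiv ℝ (tqm m r R e x) y (W y))
    (hpos : ∀ y ∈ ball x ((m + 3) * R), 0 ≤ ⟪e, W y⟫ ∧ ‖W y - ⟪e, W y⟫ • e‖ ≤ m * ⟪e, W y⟫) :
    m * cK / r * ∫ y in ball x (r / (4 * m)), ⟪e, W y⟫
      ≤ HB / R * ∫ y in ball x ((m + 3) * R), ⟪e, W y⟫ := by
  have hR : 0 < R := by linarith
  have hm0 : 0 < m := by linarith
  have hHB := one_le_HB
  have hc1 := c1_pos
  have hcK := cK_pos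
  have hh4 : 0 < hh (1 / 4) := hh_pos (by norm_num)
  have hh11 : 0 < hh (11 / 16) := hh_pos (by norm_num)
  have hrm : r / (4 * m) ≤ (m + 3) * R := by
    rw [div_le_iff₀ (by positivity)]
    have q1 : R ≤ (m + 3) * R := le_mul_of_one_le_left hR.le (by linarith)
    have q2 : (m + 3) * R ≤ (m + 3) * R * (4 * m) :=
      le_mul_of_one_le_right (by positivity) (by linarith)
    linarith
  have hsub : tsupport (tqm m r R e x) ⊆ ball x ((m + 3) * R) :=
    (tqm_tsupp hm hr hrR).trans (closedBall_subset_ball (by linarith))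
  have hkey : ∀ y, indicator (ball x (r / (4 * m))) (fun y => 2 * m * cK / r * ⟪e, W y⟫) y
      - indicator (ball x ((m + 3) * R)) (fun y => 2 * HB / R * ⟪e, W y⟫) y
      ≤ fderiv ℝ (tqm m r R e x) y (W y) := by
    intro y
    by_cases hy : y ∈ ball x ((m + 3) * R)
    swap
    · have hy2 : y ∉ ball x (r / (4 * m)) := fun h => hy (ball_subset_ball hrm h)
      rw [indicator_of_notMem hy, indicator_of_notMem hy2, fderiv_zero_of_tsupp hsub hy]
      simp
    obtain ⟨p1, p2⟩ := hpos y hy
    rw [indicator_of_mem hy]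
    rw [tqm_fderiv]
    set z : E := y - x with hz
    set a : ℝ := ⟪e, z⟫ with ha
    set b : ℝ := ⟪e, W y⟫ with hb
    set A : ℝ := -(2 * m * a) / r with hA
    set B : ℝ := a ^ 2 / R ^ 2 with hB
    set P : ℝ := 1 + ((‖z‖ ^ 2 - a ^ 2) - (r + m * a) ^ 2) / r ^ 2 with hP
    clear_value z
    -- the orthogonal part
    have hq : ‖z - a • e‖ ^ 2 = ‖z‖ ^ 2 - a ^ 2 := by
      rw [norm_sub_sq_real, inner_smul_right, norm_smul, he, mul_one, Real.norm_eq_abs, sq_abs,
        real_inner_comm, ← ha]
      ring
    have horth : ⟪z, W y⟫ - a * b ≤ ‖z - a • e‖ * (m * b) := by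
      have g1 : ⟪z, W y⟫ - a * b = ⟪z - a • e, W y⟫ := by
        rw [inner_sub_left, inner_smul_left]
        simp [hb]
      have g2 : ⟪z - a • e, e⟫ = 0 := by
        rw [inner_sub_left, inner_smul_left, real_inner_self_eq_norm_sq, he, real_inner_comm,
          ← ha]
        simp
      have g3 : ⟪z - a • e, W y⟫ = ⟪z - a • e, W y - b • e⟫ := by
        rw [inner_sub_right, inner_smul_right, g2]
        ring
      rw [g1, g3]
      exact (real_inner_le_norm _ _).trans (mul_le_mul_of_nonneg_left p2 (norm_nonneg _))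
    -- the third term
    have t3 : 0 ≤ hh A * hh B * (deriv hh P * ((2 * (⟪z, W y⟫ - a * b)
        - 2 * m * (r + m * a) * b) / r ^ 2)) := by
      rcases le_or_gt 1 A with h | h
      · rw [hh_zero h]; simp
      rcases le_or_gt 1 P with h' | h'
      · rw [dhh_zero h']; simp
      have g1 : 0 < r + m * a := by
        rw [hA, div_lt_iff₀ hr] at h
        linarith
      have g2 : ‖z - a • e‖ ≤ r + m * a := by
        refine le_of_sq_le_sq ?_ g1.le
        rw [hq]
        have : ((‖z‖ ^ 2 - a ^ 2) - (r + m * a) ^ 2) / r ^ 2 < 0 := by linarith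
        rw [div_lt_iff₀ (by positivity)] at this
        linarith
      have g3 : 2 * (⟪z, W y⟫ - a * b) - 2 * m * (r + m * a) * b ≤ 0 := by
        have g5 := mul_le_mul_of_nonneg_right g2 (by positivity : 0 ≤ m * b)
        linarith
      have g6 := dhh_nonpos P
      have g7 : (2 * (⟪z, W y⟫ - a * b) - 2 * m * (r + m * a) * b) / r ^ 2 ≤ 0 :=
        div_nonpos_of_nonpos_of_nonneg g3 (by positivity)
      exact mul_nonneg (mul_nonneg (hh_nonneg _) (hh_nonneg _)) (mul_nonneg_of_nonpos_of_nonpos g6 g7)
    -- the second term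
    have t2 : -(2 * HB / R * b) ≤ hh A * (deriv hh B * (2 * a * b / R ^ 2)) * hh P := by
      have hAP : 0 ≤ hh A * hh P := mul_nonneg (hh_nonneg _) (hh_nonneg _)
      have hAP1 : hh A * hh P ≤ 1 := mul_le_one₀ (hh_le_one _) (hh_nonneg _) (hh_le_one _)
      have e1 : hh A * (deriv hh B * (2 * a * b / R ^ 2)) * hh P
          = (hh A * hh P) * (deriv hh B * (2 * a * b / R ^ 2)) := by ring
      rw [e1]
      have hX : 0 ≤ 2 * HB / R * b := by positivity
      have g1 : -(2 * HB / R * b) ≤ deriv hh B * (2 * a * b / R ^ 2) := by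
        rcases le_or_gt 1 B with h | h
        · rw [dhh_zero h, zero_mul]; linarith
        rcases le_or_gt a 0 with ha0 | ha0
        · have g2 : 2 * a * b / R ^ 2 ≤ 0 :=
            div_nonpos_of_nonpos_of_nonneg (by nlinarith) (by positivity)
          have := mul_nonneg_of_nonpos_of_nonpos (dhh_nonpos B) g2
          linarith
        · have g2 : a ≤ R := by
            rw [hB, div_lt_iff₀ (by positivity)] at h
            nlinarith
          have g3 : |deriv hh B| ≤ HB := dhh_le (by rw [hB]; positivity)
          have g4 : 2 * a * b / R ^ 2 ≤ 2 * b / R := by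
            rw [div_le_div_iff₀ (by positivity) hR]
            have : a * (b * R) ≤ R * (b * R) := mul_le_mul_of_nonneg_right g2 (by positivity)
            nlinarith
          have g5 : 0 ≤ 2 * a * b / R ^ 2 := by positivity
          have g6 : |deriv hh B * (2 * a * b / R ^ 2)| ≤ HB * (2 * b / R) := by
            rw [abs_mul, abs_of_nonneg g5]
            exact mul_le_mul g3 g4 g5 (by linarith)
          have g7 := (abs_le.1 g6).1
          have e2 : HB * (2 * b / R) = 2 * HB / R * b := by ring
          rw [e2] at g7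
          exact g7
      rcases le_or_gt 0 (deriv hh B * (2 * a * b / R ^ 2)) with h | h
      · have := mul_nonneg hAP h
        linarith
      · have : deriv hh B * (2 * a * b / R ^ 2)
            ≤ (hh A * hh P) * (deriv hh B * (2 * a * b / R ^ 2)) := by
          nlinarith
        linarith
    -- the first term
    have t1 : indicator (ball x (r / (4 * m))) (fun y => 2 * m * cK / r * ⟪e, W y⟫) y
        ≤ deriv hh A * (-(2 * m * b) / r) * hh B * hh P := by
      have e1 : deriv hh A * (-(2 * m * b) / r) * hh B * hh P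
          = 2 * m * ((-deriv hh A) * hh B * hh P) / r * b := by ring
      rw [e1]
      by_cases hy2 : y ∈ ball x (r / (4 * m))
      · rw [indicator_of_mem hy2]
        refine mul_le_mul_of_nonneg_right ?_ p1
        refine div_le_div_of_nonneg_right ?_ hr.le
        refine mul_le_mul_of_nonneg_left ?_ (by positivity)
        rw [mem_ball, dist_eq_norm, ← hz] at hy2
        have g1 : |a| ≤ ‖z‖ := by
          have := abs_real_inner_le_norm e z
          rwa [he, one_mul] at this
        have g2 : |a| ≤ r / (4 * m) := g1.trans hy2.le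
        have g2' : m * |a| ≤ r / 4 := by
          rw [le_div_iff₀ (by positivity)] at g2
          linarith
        have g3 := abs_le.1 (by rwa [abs_mul, abs_of_pos hm0] : |m * a| ≤ r / 4)
        have g8 : ‖z‖ ≤ r / 4 := by
          refine hy2.le.trans (div_le_div_of_nonneg_left hr.le (by norm_num) ?_)
          linarith
        have g4 : c1 ≤ -deriv hh A := by
          refine dhh_ge ?_ ?_
          · rw [hA, le_div_iff₀ hr]; linarith
          · rw [hA, div_le_iff₀ hr]; linarith
        have g5 : hh (1 / 4) ≤ hh B := by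
          refine hh_anti ?_
          rw [hB, div_le_iff₀ (by positivity)]
          have h9 : a ^ 2 ≤ (r / 4) ^ 2 := by
            rw [← sq_abs]; exact pow_le_pow_left₀ (abs_nonneg _) (g1.trans g8) 2
          nlinarith
        have g6 : hh (11 / 16) ≤ hh P := by
          refine hh_anti ?_
          have q1 : ((‖z‖ ^ 2 - a ^ 2) - (r + m * a) ^ 2) / r ^ 2 ≤ -(5 / 16) := by
            rw [div_le_iff₀ (by positivity)]
            have q2 : ‖z‖ ^ 2 ≤ (r / 4) ^ 2 := pow_le_pow_left₀ (norm_nonneg _) g8 2
            have q3 : (3 / 4 * r) ^ 2 ≤ (r + m * a) ^ 2 :=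
              pow_le_pow_left₀ (by positivity) (by linarith) 2
            nlinarith [sq_nonneg a]
          rw [hP]; linarith
        exact mul_le_mul (mul_le_mul g4 g5 hh4.le (hc1.le.trans g4)) g6 hh11.le
          (mul_nonneg (hc1.le.trans g4) (hh_nonneg _))
      · rw [indicator_of_notMem hy2]
        have g1 : 0 ≤ -deriv hh A := by have := dhh_nonpos A; linarith
        have g2 := hh_nonneg B
        have g3 := hh_nonneg P
        positivity
    linarith
  -- integration
  have i1 : IntegrableOn (fun y => 2 * m * cK / r * ⟪e, W y⟫) (ball x (r / (4 * m))) :=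
    intOn_ball (continuous_const.mul hci) _ _
  have i2 : IntegrableOn (fun y => 2 * HB / R * ⟪e, W y⟫) (ball x ((m + 3) * R)) :=
    intOn_ball (continuous_const.mul hci) _ _
  have h1 := integral_mono ((i1.integrable_indicator measurableSet_ball).sub
    (i2.integrable_indicator measurableSet_ball)) i3 hkey
  rw [h0, integral_sub' (i1.integrable_indicator measurableSet_ball)
    (i2.integrable_indicator measurableSet_ball), integral_indicator measurableSet_ball,
    integral_indicator measurableSet_ball, integral_const_mul, integral_const_mul] at h1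
  have e1 : 2 * m * cK / r * (∫ y in ball x (r / (4 * m)), ⟪e, W y⟫)
      = 2 * (m * cK / r * ∫ y in ball x (r / (4 * m)), ⟪e, W y⟫) := by ring
  have e2 : 2 * HB / R * (∫ y in ball x ((m + 3) * R), ⟪e, W y⟫)
      = 2 * (HB / R * ∫ y in ball x ((m + 3) * R), ⟪e, W y⟫) := by ring
  rw [e1, e2] at h1
  linarith

/-- The constant of the flux bound. -/
noncomputable def CGm (m : ℝ) : ℝ := 4 * m * HB / cK

theorem CGm_pos {m : ℝ} (hm : 0 < m) : 0 < CGm m := by
  have h1 := cK_pos
  have h2 := one_le_HB
  unfold CGm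
  positivity

/-- The flux bound for a divergence free field whose line stays in a double cone. -/
theorem cone_fluxD {w : E → E} (hw : ContDiff ℝ 1 w) {x e : E} {m R τ : ℝ} (he : ‖e‖ = 1)
    (hm : 1 ≤ m) (hτ : 0 < τ) (hτR : 4 * m * τ ≤ R) (hdiv : ∀ y, dvE w y = 0)
    (hdir : ∀ y ∈ ball x ((m + 3) * R), ‖w y‖ ≤ m * |⟪e, w y⟫|) :
    ∫ y in ball x τ, ‖w y‖ ≤ CGm m * (τ / R) * ∫ y in ball x ((m + 3) * R), ‖w y‖ := by
  have hm0 : 0 < m := by linarith
  have hcK := cK_pos
  have hHB := one_le_HB
  obtain ⟨r, hr⟩ : ∃ r, r = 4 * m * τ := ⟨_, rfl⟩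
  have hr0 : 0 < r := by rw [hr]; positivity
  have hrR : r ≤ R := by rw [hr]; exact hτR
  have hR : 0 < R := by linarith
  have hτr : r / (4 * m) = τ := by rw [hr]; field_simp
  set S : E → ℝ := fun y => ⟪e, w y⟫ with hS
  have hSc : Continuous S := continuous_const.inner hw.continuous
  set W : E → E := fun y => Real.sign (S y) • w y with hW
  have hψs := tqm_smooth m r R e x
  have hψc := tqm_compact (e := e) (x := x) hm hr0 hrR
  have hψt : tsupport (tqm m r R e x) ⊆ ball x ((m + 3) * R) :=
    (tqm_tsupp hm hr0 hrR).trans (closedBall_subset_ball (by linarith))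
  have heW : ∀ y, ⟪e, W y⟫ = |S y| := fun y => by
    rw [hW]
    simp only
    rw [inner_smul_right]
    exact sign_mul_self _
  have hfW : ∀ y, fderiv ℝ (tqm m r R e x) y (W y)
      = Real.sign (S y) * fderiv ℝ (tqm m r R e x) y (w y) := fun y => by
    rw [hW]
    simp only
    rw [map_smul, smul_eq_mul]
  have h1 := cone_fluxM (W := W) (x := x) (R := R) he hm hr0 hrR (by
      simp_rw [heW]
      exact hSc.abs) (by
      simp_rw [hfW]
      exact ren_cone hw hdiv he hm0.le hdir hψs hψc hψt) (by
      simp_rw [hfW]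
      have hf : Continuous fun y => fderiv ℝ (tqm m r R e x) y (w y) :=
        (hψs.continuous_fderiv (by norm_num)).clm_apply hw.continuous
      have i1 : Integrable fun y => fderiv ℝ (tqm m r R e x) y (w y) := by
        refine supp_int (x := x) (s := (m + 3) * R) hf fun y hy => ?_
        rw [fderiv_zero_of_tsupp hψt (fun h => hy (ball_subset_closedBall h))]
        simp
      refine i1.norm.mono' ((sign_meas.comp hSc.measurable).aestronglyMeasurable.mul
        hf.aestronglyMeasurable) (Filter.Eventually.of_forall fun y => ?_)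
      rw [norm_mul, Real.norm_eq_abs]
      exact mul_le_of_le_one_left (norm_nonneg _) (sign_abs_le _)) (by
      intro y hy
      have h1 := hdir y hy
      have h1' : ‖w y‖ ≤ m * |S y| := h1
      rw [heW]
      refine ⟨abs_nonneg _, le_of_sq_le_sq ?_ (by positivity)⟩
      have h2 : ‖W y‖ ^ 2 ≤ ‖w y‖ ^ 2 := by
        rw [hW]
        simp only
        rw [norm_smul, mul_pow, Real.norm_eq_abs]
        have h3 := sign_abs_le (S y)
        have h4 : |Real.sign (S y)| ^ 2 ≤ 1 := pow_le_one₀ (abs_nonneg _) h3
        nlinarith [sq_nonneg ‖w y‖]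
      have e9 : ‖|S y| • e‖ = |S y| := by
        rw [norm_smul, he, Real.norm_eq_abs, abs_abs, mul_one]
      rw [norm_sub_sq_real, real_inner_smul_right, real_inner_comm, heW, e9]
      have h5 := pow_le_pow_left₀ (norm_nonneg _) h1' 2
      nlinarith [sq_nonneg |S y|])
  rw [hτr] at h1
  simp_rw [heW] at h1
  have h2 : 1 / m * ∫ y in ball x τ, ‖w y‖ ≤ ∫ y in ball x τ, |S y| := by
    rw [← integral_const_mul]
    refine setIntegral_mono_on ((intOn_ball hw.continuous.norm _ _).const_mul _)
      (intOn_ball hSc.abs _ _) measurableSet_ball fun y hy => ?_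
    have h3 := hdir y (ball_subset_ball (by nlinarith) hy)
    rw [one_div, inv_mul_le_iff₀ hm0]
    exact h3
  have h3 : ∫ y in ball x ((m + 3) * R), |S y| ≤ ∫ y in ball x ((m + 3) * R), ‖w y‖ := by
    refine setIntegral_mono_on (intOn_ball hSc.abs _ _) (intOn_ball hw.continuous.norm _ _)
      measurableSet_ball fun y _ => ?_
    have := abs_real_inner_le_norm e (w y)
    rwa [he, one_mul] at this
  set I1 := ∫ y in ball x τ, ‖w y‖ with hI1
  set I2 := ∫ y in ball x τ, |S y| with hI2
  set I3 := ∫ y in ball x ((m + 3) * R), |S y| with hI3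
  set I4 := ∫ y in ball x ((m + 3) * R), ‖w y‖ with hI4
  have h4 : m * cK / r * (1 / m * I1) ≤ HB / R * I4 := by
    have a1 := mul_le_mul_of_nonneg_left h2 (by positivity : 0 ≤ m * cK / r)
    have a2 := mul_le_mul_of_nonneg_left h3 (by positivity : 0 ≤ HB / R)
    linarith
  have e1 : I1 = (r / cK) * (m * cK / r * (1 / m * I1)) := by field_simp
  have e2 : CGm m * (τ / R) * I4 = (r / cK) * (HB / R * I4) := by
    unfold CGm
    rw [hr]
    field_simp
  rw [e1, e2]
  exact mul_le_mul_of_nonneg_left h4 (by positivity)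

end Pool.Agent.R210
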