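import Pool.Agent.R210.S11

/-!
The local bound of the integral of the length of the vorticity.
-/

open MeasureTheory Set Metric Filter Topology
open scoped ContDiff ENNReal
open H459R3.NS

namespace Pool.Agent.R210

section

variable {ν T : ℝ} {u : ℝ → V → V} {p : ℝ → V → ℝ} {f : ℝ → V → V} {O : Set V}

theorem LP.H_hasDerivAt (h : LP ν T u p f O) {φ : V → ℝ} (hφ : SP φ)
    (hφO : ∀ x, φ x ≠ 0 → x ∈ O) {t : ℝ} (ht : t ∈ Ioo 0 T) (i : Fin 3) :
    HasDerivAt (fun s => ∫ x in cube, φ x * hf (cu (u s) x i))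
      (∫ x in cube, φ x * (deriv hf (cu (u t) x i) * rhsI ν (u t) (f t) i x)) t := by
  have hF : ContDiffOn ℝ 1 (fun z : ℝ × V => φ z.2 * hf (cu (u z.1) z.2 i))
      (Ioo 0 T ×ˢ univ) := by
    have h1 : ContDiffOn ℝ 1 (fun z : ℝ × V => hf (cu (u z.1) z.2 i)) (Ioo 0 T ×ˢ univ) :=
      (hf_smooth.of_le (by norm_cast)).comp_contDiffOn
        (mono_Ioo (f := fun s y => cu (u s) y i) (h.smooth_cu i) (by norm_cast))
    have h2 : ContDiff ℝ 1 (fun z : ℝ × V => φ z.2) :=
      (hφ.smooth.of_le (by norm_cast)).comp contDiff_snd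
    exact h2.contDiffOn.mul h1
  have key := hasDerivAt_int (F := fun s x => φ x * hf (cu (u s) x i)) hF ht
  refine key.congr_deriv ?_
  congr 1
  funext x
  by_cases hx : φ x = 0
  · rw [hx]
    simp
  · have hxO := hφO x hx
    have h1 : HasDerivAt (fun s => φ x * hf (cu (u s) x i))
        (φ x * (deriv hf (cu (u t) x i) * rhsI ν (u t) (f t) i x)) t := by
      refine HasDerivAt.const_mul _ ?_
      have h2 := (hasDerivAt_hf (cu (u t) x i)).comp t (h.vort_eq ht i hxO)
      rw [← deriv_hf] at h2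
      exact h2
    exact h1.deriv

/-- The diffusion term. -/
theorem h_lap {w φ : V → ℝ} (hw : SP w) (hφ : SP φ) (hφ0 : ∀ x, 0 ≤ φ x) :
    ∫ x in cube, φ x * (deriv hf (w x) * lap w x) ≤ ∫ x in cube, lap φ x * hf (w x) := by
  have hg : SP fun x => hf (w x) := sp_comp hf_smooth hw
  have hd : SP fun x => deriv hf (w x) := sp_comp dhf_smooth hw
  have hφd : SP fun x => φ x * deriv hf (w x) := hφ.mul hd
  have e1 : ∫ x in cube, φ x * (deriv hf (w x) * lap w x)
      = ∫ x in cube, lap w x * (φ x * deriv hf (w x)) := by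
    congr 1; funext x; ring
  rw [e1, int_lap_mul hw hφd, int_lap_mul hφ hg, ← Finset.sum_neg_distrib, ← Finset.sum_neg_distrib]
  refine Finset.sum_le_sum fun j _ => ?_
  rw [← integral_neg, ← integral_neg]
  refine setIntegral_mono ((hw.pd j).mul (hφd.pd j)).int.neg
    ((hφ.pd j).mul (hg.pd j)).int.neg fun x => ?_
  beta_reduce
  rw [pd_mul hφ hd, pd_comp hf_smooth hw, pd_comp dhf_smooth hw]
  have h1 : deriv (deriv hf) (w x) = 1 / hf (w x) ^ 3 := (hasDerivAt_dhf (w x)).deriv
  have h2 : 0 ≤ deriv (deriv hf) (w x) := by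
    rw [h1]
    have := hf_pos (w x)
    positivity
  have h3 : 0 ≤ φ x * (deriv (deriv hf) (w x) * pd j w x ^ 2) :=
    mul_nonneg (hφ0 x) (mul_nonneg h2 (sq_nonneg _))
  linarith

/-- The transport term. -/
theorem h_tr {g φ : V → ℝ} {v : V → V} (hg : SP g) (hφ : SP φ) (hv : ∀ i, SP (fun x => v x i))
    (hd : ∀ x, φ x ≠ 0 → dv v x = 0) :
    ∫ x in cube, φ x * ∑ j, v x j * pd j g x
      = -∫ x in cube, (∑ j, v x j * pd j φ x) * g x := by
  have hF : ∀ j, SP fun x => φ x * (v x j * g x) := fun j => hφ.mul ((hv j).mul hg)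
  have h1 : ∫ x in cube, ∑ j, pd j (fun x => φ x * (v x j * g x)) x = 0 := by
    rw [integral_finsetSum _ fun j _ => ((hF j).pd j).int]
    exact Finset.sum_eq_zero fun j _ => int_pd_zero (hF j) j
  have e1 : ∀ x, ∑ j, pd j (fun x => φ x * (v x j * g x)) x
      = φ x * (∑ j, v x j * pd j g x) + (∑ j, v x j * pd j φ x) * g x := by
    intro x
    have e2 : ∀ j, pd j (fun x => φ x * (v x j * g x)) x
        = φ x * (v x j * pd j g x) + (v x j * pd j φ x) * g x
          + φ x * g x * pd j (fun y => v y j) x := by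
      intro j
      rw [pd_mul hφ ((hv j).mul hg), pd_mul (hv j) hg]
      ring
    simp_rw [e2]
    rw [Finset.sum_add_distrib, Finset.sum_add_distrib, ← Finset.mul_sum, ← Finset.sum_mul,
      ← Finset.mul_sum]
    have e3 : φ x * g x * ∑ j, pd j (fun y => v y j) x = 0 := by
      by_cases h : φ x = 0
      · rw [h]; ring
      · have := hd x h
        unfold dv at this
        rw [this]; ring
    rw [e3, add_zero]
  simp_rw [e1] at h1
  have s1 : SP fun x => φ x * ∑ j, v x j * pd j g x :=
    hφ.mul (SP.sum fun j _ => (hv j).mul (hg.pd j))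
  have s2 : SP fun x => (∑ j, v x j * pd j φ x) * g x :=
    (SP.sum fun j _ => (hv j).mul (hφ.pd j)).mul hg
  rw [integral_add s1.int s2.int] at h1
  linarith

theorem hf_le_sq (r : ℝ) : hf r ≤ 1 + r ^ 2 := by
  have h1 := hf_sq r
  have h2 : 1 ≤ hf r := by
    refine le_of_sq_le_sq ?_ (hf_nonneg r)
    rw [h1]
    nlinarith [sq_nonneg r]
  nlinarith

theorem int_one_cube : ∫ _ in cube, (1 : ℝ) = 1 := by
  rw [setIntegral_const]
  have : volume.real cube = 1 := by
    unfold cube
    simp [Measure.real, Real.volume_Icc_pi]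
  rw [this]
  simp

/-- The bound of the derivative. -/
theorem h_deriv_le {ν B F E1 : ℝ} {v g : V → V} {φ : V → ℝ} (hν : 0 ≤ ν) (hv : ∀ i, SP fun x => v x i)
    (hg : ∀ i, SP fun x => g x i) (hφ : SP φ) (hφ0 : ∀ x, 0 ≤ φ x) (hφ1 : ∀ x, φ x ≤ 1)
    (hB0 : 0 ≤ B) (hB1 : ∀ x, |lap φ x| ≤ B) (hB2 : ∀ j x, |pd j φ x| ≤ B)
    (hd : ∀ x, φ x ≠ 0 → dv v x = 0) (hF0 : 0 ≤ F) (hF : ∀ x, φ x ≠ 0 → rsq (cu g x) ≤ F)
    (hE : ∫ x in cube, rsq (v x) ≤ E1) (i : Fin 3) :
    ∫ x in cube, φ x * (deriv hf (cu v x i) * rhsI ν v g i x)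
      ≤ (2 * ν * B + 6 * B + 3) * (1 + enstrophy v) + 3 * B * E1 + 1 + F := by
  have hw := sp_cu hv
  have hcg := sp_cu hg
  have hh : SP fun x => hf (cu v x i) := sp_comp hf_smooth (hw i)
  have hd1 : SP fun x => deriv hf (cu v x i) := sp_comp dhf_smooth (hw i)
  have hens := enstrophy_nonneg v
  have hW2 : ∫ x in cube, rsq (cu v x) ≤ 2 * enstrophy v := int_rsq_cu hv
  set W := ∫ x in cube, rsq (cu v x) with hW
  have hW0 : 0 ≤ W := integral_nonneg fun x => rsq_nonneg _
  -- the terms
  have sA : SP fun x => φ x * (deriv hf (cu v x i) * lap (fun y => cu v y i) x) :=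
    hφ.mul (hd1.mul (hw i).lap)
  have sB : SP fun x => φ x * ∑ j, v x j * pd j (fun y => hf (cu v y i)) x :=
    hφ.mul (SP.sum fun j _ => (hv j).mul (hh.pd j))
  have sC : SP fun x => φ x * (deriv hf (cu v x i) * ∑ j, cu v x j * pd j (fun y => v y i) x) :=
    hφ.mul (hd1.mul (SP.sum fun j _ => (hw j).mul ((hv i).pd j)))
  have sD : SP fun x => φ x * (deriv hf (cu v x i) * cu g x i) := hφ.mul (hd1.mul (hcg i))
  have e1 : ∀ x, φ x * (deriv hf (cu v x i) * rhsI ν v g i x)
      = ν * (φ x * (deriv hf (cu v x i) * lap (fun y => cu v y i) x))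
        - 1 * (φ x * ∑ j, v x j * pd j (fun y => hf (cu v y i)) x)
        + 1 * (φ x * (deriv hf (cu v x i) * ∑ j, cu v x j * pd j (fun y => v y i) x))
        + 1 * (φ x * (deriv hf (cu v x i) * cu g x i)) := by
    intro x
    have e2 : ∀ j, pd j (fun y => hf (cu v y i)) x
        = deriv hf (cu v x i) * pd j (fun y => cu v y i) x := fun j =>
      pd_comp hf_smooth (hw i) j x
    simp_rw [e2]
    have e3 : ∑ j, v x j * (deriv hf (cu v x i) * pd j (fun y => cu v y i) x)
        = deriv hf (cu v x i) * ∑ j, v x j * pd j (fun y => cu v y i) x := by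
      rw [Finset.mul_sum]
      exact Finset.sum_congr rfl fun j _ => by ring
    rw [e3]
    unfold rhsI
    ring
  simp_rw [e1]
  rw [int_lin4 sA sB sC sD]
  -- first
  have tA := h_lap (hw i) hφ hφ0
  have tA2 : ∫ x in cube, lap φ x * hf (cu v x i) ≤ B * (1 + W) := by
    have h1 : ∫ x in cube, lap φ x * hf (cu v x i) ≤ ∫ x in cube, (B * 1 + B * rsq (cu v x)) := by
      refine setIntegral_mono (hφ.lap.mul hh).int
        ((integrableOn_cube continuous_const).add ((sp_rsq hw).int.const_mul B)) fun x => ?_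
      beta_reduce
      have q1 := hf_le_sq (cu v x i)
      have q2 := sq_le_rsq (cu v x) i
      have q3 := (le_abs_self _).trans (hB1 x)
      have q4 := hf_nonneg (cu v x i)
      calc lap φ x * hf (cu v x i) ≤ B * hf (cu v x i) := mul_le_mul_of_nonneg_right q3 q4
        _ ≤ B * (1 + rsq (cu v x)) := mul_le_mul_of_nonneg_left (by linarith) hB0
        _ = _ := by ring
    refine h1.trans (le_of_eq ?_)
    rw [integral_add (integrableOn_cube continuous_const) ((sp_rsq hw).int.const_mul B),
      integral_const_mul, integral_const_mul, int_one_cube]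
    ring
  -- second
  have tB : -(∫ x in cube, φ x * ∑ j, v x j * pd j (fun y => hf (cu v y i)) x)
      ≤ 3 * B * (E1 + 1 + W) := by
    rw [h_tr hh hφ hv hd, neg_neg]
    have h1 : ∫ x in cube, (∑ j, v x j * pd j φ x) * hf (cu v x i)
        ≤ ∫ x in cube, (3 * B * rsq (v x) + 3 * B * rsq (cu v x) + 3 * B * 1) := by
      refine setIntegral_mono ((SP.sum fun j _ => (hv j).mul (hφ.pd j)).mul hh).int
        ((((sp_rsq hv).int.const_mul _).add ((sp_rsq hw).int.const_mul _)).add
          (integrableOn_cube continuous_const)) fun x => ?_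
      beta_reduce
      have q1 := hf_sq (cu v x i)
      have q2 := sq_le_rsq (cu v x) i
      have q4 := hf_nonneg (cu v x i)
      have q5 : ∀ j, |v x j * pd j φ x| ≤ en (v x) * B := fun j => by
        rw [abs_mul]
        exact mul_le_mul (abs_le_en _ j) (hB2 j x) (abs_nonneg _) (en_nonneg _)
      have q6 : ∑ j, v x j * pd j φ x ≤ 3 * (en (v x) * B) := by
        refine (le_abs_self _).trans ((Finset.abs_sum_le_sum_abs _ _).trans ?_)
        rw [Fin.sum_univ_three]
        have := q5 0
        have := q5 1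
        have := q5 2
        linarith
      have q7 := mul_le_mul_of_nonneg_right q6 q4
      have q8 : en (v x) * hf (cu v x i) ≤ rsq (v x) + rsq (cu v x) + 1 := by
        have := en_sq (v x)
        nlinarith [sq_nonneg (en (v x) - hf (cu v x i)), rsq_nonneg (v x), rsq_nonneg (cu v x)]
      have q9 := mul_le_mul_of_nonneg_left q8 (by positivity : 0 ≤ 3 * B)
      linarith
    refine h1.trans ?_
    rw [int_comb3 (sp_rsq hv).cont (sp_rsq hw).cont continuous_const, int_one_cube]
    have := mul_le_mul_of_nonneg_left hE (by positivity : 0 ≤ 3 * B)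
    linarith
  -- third
  have tC : ∫ x in cube, φ x * (deriv hf (cu v x i) * ∑ j, cu v x j * pd j (fun y => v y i) x)
      ≤ W + enstrophy v := by
    rw [← int_G2_enst hv, hW, ← integral_add (sp_rsq hw).int (sp_G2 hv).int]
    refine setIntegral_mono sC.int ((sp_rsq hw).int.add (sp_G2 hv).int) fun x => ?_
    beta_reduce
    have q1 := abs_dhf_le (cu v x i)
    have q2 : |∑ j, cu v x j * pd j (fun y => v y i) x| ≤ rsq (cu v x) + G2 v x := by
      have r1 : ∑ j, pd j (fun y => v y i) x ^ 2 ≤ G2 v x := by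
        have : G2 v x = ∑ i, gr2 (fun y => v y i) x := rfl
        rw [this]
        exact Finset.single_le_sum (f := fun i => gr2 (fun y => v y i) x)
          (fun i _ => gr2_nonneg _ _) (Finset.mem_univ i)
      have r2 : |∑ j, cu v x j * pd j (fun y => v y i) x|
          ≤ ∑ j, (cu v x j ^ 2 + pd j (fun y => v y i) x ^ 2) := by
        refine (Finset.abs_sum_le_sum_abs _ _).trans (Finset.sum_le_sum fun j _ => ?_)
        rw [abs_mul, ← sq_abs (cu v x j), ← sq_abs (pd j (fun y => v y i) x)]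
        nlinarith [sq_nonneg (|cu v x j| - |pd j (fun y => v y i) x|), abs_nonneg (cu v x j),
          abs_nonneg (pd j (fun y => v y i) x)]
      rw [Finset.sum_add_distrib] at r2
      exact r2.trans (add_le_add le_rfl r1)
    have q3 : φ x * (deriv hf (cu v x i) * ∑ j, cu v x j * pd j (fun y => v y i) x)
        ≤ |∑ j, cu v x j * pd j (fun y => v y i) x| := by
      refine (le_abs_self _).trans ?_
      rw [abs_mul, abs_mul, abs_of_nonneg (hφ0 x)]
      have r1 : |deriv hf (cu v x i)| * |∑ j, cu v x j * pd j (fun y => v y i) x|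
          ≤ |∑ j, cu v x j * pd j (fun y => v y i) x| :=
        mul_le_of_le_one_left (abs_nonneg _) q1
      exact (mul_le_of_le_one_left (by positivity) (hφ1 x)).trans r1
    exact q3.trans q2
  -- fourth
  have tD : ∫ x in cube, φ x * (deriv hf (cu v x i) * cu g x i) ≤ 1 + F := by
    have h1 : ∫ x in cube, φ x * (deriv hf (cu v x i) * cu g x i)
        ≤ ∫ _ in cube, ((1 + F) * 1) := by
      refine setIntegral_mono sD.int (integrableOn_cube continuous_const) fun x => ?_
      beta_reduce
      by_cases hx : φ x = 0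
      · rw [hx, zero_mul]; positivity
      · have q1 := abs_dhf_le (cu v x i)
        have q2 := hF x hx
        have q3 := sq_le_rsq (cu g x) i
        have q4 : |cu g x i| ≤ 1 + F := by
          have : |cu g x i| ^ 2 ≤ F := by rw [sq_abs]; linarith
          nlinarith [sq_nonneg (|cu g x i| - 1)]
        refine (le_abs_self _).trans ?_
        rw [abs_mul, abs_mul, abs_of_nonneg (hφ0 x), mul_one]
        exact (mul_le_of_le_one_left (by positivity) (hφ1 x)).trans
          ((mul_le_of_le_one_left (abs_nonneg _) q1).trans q4)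
    refine h1.trans (le_of_eq ?_)
    rw [integral_const_mul, int_one_cube, mul_one]
  have tA3 : ν * (∫ x in cube, φ x * (deriv hf (cu v x i) * lap (fun y => cu v y i) x))
      ≤ ν * (B * (1 + W)) := mul_le_mul_of_nonneg_left (tA.trans tA2) hν
  have u1 : ν * (B * (1 + W)) ≤ 2 * ν * B * (1 + enstrophy v) := by
    have : 1 + W ≤ 2 * (1 + enstrophy v) := by linarith
    have := mul_le_mul_of_nonneg_left this (by positivity : 0 ≤ ν * B)
    linarith
  have u2 : 3 * B * (1 + W) ≤ 6 * B * (1 + enstrophy v) := by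
    have : 1 + W ≤ 2 * (1 + enstrophy v) := by linarith
    have := mul_le_mul_of_nonneg_left this (by positivity : 0 ≤ 3 * B)
    linarith
  linarith

end

end Pool.Agent.R210
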