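import Pool.Agent.R210.S12

/-!
The local bound of the integral of the length of the vorticity, second part.
-/

open MeasureTheory Set Metric Filter Topology
open scoped ContDiff ENNReal
open H459R3.NS
open Pool.Agent.W12.MD.R0 (rnd prd prd_per prd_eq prd_smooth prd_sp round_eq_of cel int_cel
  cel_abs ball_cel cel_meas cel_int)
open W221.NS (OSolF nsq gsq Sing Bd3)

namespace Pool.Agent.R210

theorem LP.l1_bound {ν T : ℝ} {u : ℝ → V → V} {p : ℝ → V → ℝ} {f : ℝ → V → V} {O : Set V}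
    (h : LP ν T u p f O) (hν : 0 < ν) (hT : 0 < T) {φ : V → ℝ} (hφ : SP φ)
    (hφ0 : ∀ x, 0 ≤ φ x) (hφ1 : ∀ x, φ x ≤ 1) (hφO : ∀ x, φ x ≠ 0 → x ∈ O) {E1 F : ℝ}
    (hE : ∀ t ∈ Ioo 0 T, ∫ x in cube, rsq (u t x) ≤ E1)
    (hen : IntegrableOn (fun t => enstrophy (u t)) (Ioo 0 T)) (hF0 : 0 ≤ F)
    (hF : ∀ t ∈ Ioo 0 T, ∀ x ∈ O, rsq (cu (f t) x) ≤ F) :
    ∃ J : ℝ, ∀ t ∈ Ico (T / 2) T, ∫ x in cube, φ x * en (cu (u t) x) ≤ J := by
  obtain ⟨B1, hB10, hB1⟩ := per_bound hφ.lap.cont hφ.lap.per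
  choose B2 hB20 hB2 using fun j => per_bound (hφ.pd j).cont (hφ.pd j).per
  set B : ℝ := B1 + ∑ j, B2 j with hB
  have hBs : 0 ≤ ∑ j, B2 j := Finset.sum_nonneg fun j _ => hB20 j
  have hB0 : 0 ≤ B := by positivity
  have hB1' : ∀ x, |lap φ x| ≤ B := fun x => (hB1 x).trans (by linarith)
  have hB2' : ∀ j x, |pd j φ x| ≤ B := fun j x => by
    have h1 : B2 j ≤ ∑ j, B2 j := Finset.single_le_sum (fun j _ => hB20 j) (Finset.mem_univ j)
    exact (hB2 j x).trans (by linarith)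
  have hE1 : 0 ≤ E1 := (integral_nonneg fun x => rsq_nonneg _).trans
    (hE (T / 2) ⟨by linarith, by linarith⟩)
  set C : ℝ := 2 * ν * B + 6 * B + 3 + 3 * B * E1 + 1 + F with hC
  have hC0 : 0 ≤ C := by positivity
  have hsubI : ∀ t ∈ Ico (T / 2) T, t ∈ Ioo 0 T := fun t ht => ⟨by linarith [ht.1], ht.2⟩
  have hA : ∀ i, ∃ A, ∀ t ∈ Ico (T / 2) T, ∫ x in cube, φ x * hf (cu (u t) x i) ≤ A := by
    intro i
    refine log_gron (P := fun _ => True) (G := fun s => C * (1 + enstrophy (u s)))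
      (fun t _ => ?_) (fun t ht => h.H_hasDerivAt hφ hφO (hsubI t ht) i) (fun s => ?_) ?_ ?_ ?_
    · exact integral_nonneg fun x => mul_nonneg (hφ0 x) (hf_nonneg _)
    · have := enstrophy_nonneg (u s)
      positivity
    · have h2 : IntegrableOn (fun _ : ℝ => (1 : ℝ)) (Ioo 0 T) := by simp [integrableOn_const_iff]
      have h1 : IntegrableOn (fun s => C * (1 + enstrophy (u s))) (Ioo 0 T) :=
        (h2.add hen).const_mul C
      exact h1.mono_set (Ioo_subset_Ioo (by linarith) le_rfl)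
    · exact Filter.Eventually.of_forall fun _ => trivial
    · intro t ht _
      have htI : t ∈ Ioo 0 T := ⟨by linarith [ht.1], ht.2⟩
      have htI' : t ∈ Ico 0 T := ⟨htI.1.le, htI.2⟩
      have h1 := h_deriv_le hν.le (h.sp t htI') (h.sp_f t htI) hφ hφ0 hφ1 hB0 hB1' hB2'
        (fun x hx => h.divfree t htI' x (hφO x hx)) hF0
        (fun x hx => hF t htI x (hφO x hx)) (hE t htI) i
      have h2 : 0 ≤ ∫ x in cube, φ x * hf (cu (u t) x i) :=
        integral_nonneg fun x => mul_nonneg (hφ0 x) (hf_nonneg _)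
      have h3 := enstrophy_nonneg (u t)
      have h4 : 0 ≤ C * (1 + enstrophy (u t)) := by positivity
      have h5 : (2 * ν * B + 6 * B + 3) * (1 + enstrophy (u t)) + 3 * B * E1 + 1 + F
          ≤ C * (1 + enstrophy (u t)) := by
        have h6 : 0 ≤ (3 * B * E1 + 1 + F) * enstrophy (u t) := by positivity
        rw [hC]
        linarith
      refine h1.trans (h5.trans ?_)
      exact le_mul_of_one_le_right h4 (by linarith)
  choose A hA using hA
  refine ⟨∑ i, A i, fun t ht => ?_⟩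
  have htI : t ∈ Ico 0 T := ⟨(hsubI t ht).1.le, ht.2⟩
  have hw := sp_cu (h.sp t htI)
  have hh : ∀ i, SP fun x => φ x * hf (cu (u t) x i) := fun i => hφ.mul (sp_comp hf_smooth (hw i))
  refine le_trans ?_ (Finset.sum_le_sum fun i _ => hA i t ht)
  rw [← integral_finsetSum _ fun i _ => (hh i).int]
  refine setIntegral_mono (integrableOn_cube (hφ.cont.mul (f_cont hw)))
    (integrableOn_cube (continuous_finsetSum _ fun i _ => (hh i).cont)) fun x => ?_
  beta_reduce
  rw [← Finset.mul_sum]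
  exact mul_le_mul_of_nonneg_left ((en_le_sum _).trans
    (Finset.sum_le_sum fun i _ => abs_le_hf _)) (hφ0 x)

/-- The local bound of the integral of the length of the vorticity. -/
theorem l1_local {ν T E F : ℝ} {Ω : Set V} {u : ℝ → V → V} {p : ℝ → V → ℝ} {f : ℝ → V → V}
    (hν : 0 < ν) (h : OSolF ν T E F Ω u p f)
    (hfin : ∫⁻ t in Ioo 0 T, ∫⁻ y in Ω, ENNReal.ofReal (gsq (u t) y) ≠ ⊤) {x0 : V} (hx0 : x0 ∈ Ω)
    (hT : 0 < T) : ∃ ρ J ta : ℝ, 0 < ρ ∧ 0 ≤ J ∧ 0 < ta ∧ ta < T ∧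
      ∀ t ∈ Ico ta T, ∀ s : ℝ, 0 < s → s ≤ ρ → ∫ y in ball x0 s, en (cu (u t) y) ≤ J := by
  obtain ⟨ρ, hρ, hρΩ⟩ := Metric.nhds_basis_closedBall.mem_iff.1 (h.openO.mem_nhds hx0)
  set lam : ℝ := min 1 ρ with hlam'
  have hlam : 0 < lam := lt_min one_pos hρ
  have hlam1 : lam ≤ 1 := min_le_left _ _
  have hlamρ : lam ≤ ρ := min_le_right _ _
  have hl : ∀ z ∈ closedBall (0 : V) (1 / 2), x0 + lam • z ∈ Ω := by
    intro z hz
    refine hρΩ ?_
    rw [mem_closedBall, dist_eq_norm, add_sub_cancel_left, norm_smul, Real.norm_eq_abs,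
      abs_of_pos hlam]
    rw [mem_closedBall_zero_iff] at hz
    nlinarith [norm_nonneg z]
  have hl4 : ∀ z ∈ closedBall (0 : V) (1 / 4), x0 + lam • z ∈ Ω := fun z hz =>
    hl z (closedBall_subset_closedBall (by norm_num) hz)
  set t0 : ℝ := T / 2 with ht0'
  have ht0 : 0 < t0 := by positivity
  have hT'pos : 0 < T - t0 := by rw [ht0']; linarith
  have hLP := LP_of h ht0 hlam.ne' hl4
  set b : ContDiffBump (0 : V) := ⟨1 / 32, 1 / 16, by norm_num, by norm_num⟩ with hb
  have hbout : b.rOut = 1 / 16 := rfl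
  have hbin : b.rIn = 1 / 32 := rfl
  have hb16 : b.rOut ≤ 1 / 16 := le_rfl
  have hsp := chg_sp b hb16
  have hself : ∀ x : V, x ∈ eb x (1 / 8) := fun x => by
    show rsq (x - x) < (1 / 8) ^ 2
    rw [sub_self]
    have : rsq (0 : V) = 0 := by simp [rsq]
    rw [this]; positivity
  obtain ⟨J, hJ⟩ := hLP.l1_bound (by positivity) hT'pos (F := 12 * F ^ 2)
    (E1 := lam⁻¹ ^ 5 * E ^ 2) hsp (chg_nonneg b) (chg_le b)
    (fun x hx => by
      obtain ⟨k, hk⟩ := chg_supp b hx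
      exact ((eb_sub (ball_subset_ball le_rfl hk)).trans
        (subset_iUnion (fun k => ball (kv k) (3 / 16)) k)) (hself x))
    (fun t ht => wl_energy h hlam hl ⟨by linarith [ht.1], ht.2⟩)
    (wl_enst_int h ht0 hlam hl hfin) (by positivity)
    (fun t ht x hx => rl_cu h hlam.ne' hl4 ⟨by linarith [ht.1], ht.2⟩ hx)
  refine ⟨lam * (1 / 32), max 0 (lam ^ 3 * J), t0 + (T - t0) / 2, by positivity,
    le_max_left _ _, by linarith, by linarith, fun t' ht' s hs hsρ => ?_⟩
  obtain ⟨t, rfl⟩ : ∃ t, t' = t0 + t := ⟨t' - t0, by ring⟩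
  have htI : t ∈ Ico ((T - t0) / 2) (T - t0) := ⟨by linarith [ht'.1], by linarith [ht'.2]⟩
  have hs1 : t ∈ Ioo (-t0) (T - t0) := ⟨by linarith [htI.1], htI.2⟩
  have hs2 : t ∈ Ico 0 (T - t0) := ⟨by linarith [htI.1], htI.2⟩
  have hsp' := hLP.sp t hs2
  have a4 := hJ t htI
  set s' : ℝ := s / lam with hs'
  have hss : lam * s' = s := by rw [hs']; field_simp
  have hs'0 : 0 < s' := by positivity
  have hs'32 : s' ≤ 1 / 32 := by
    rw [hs', div_le_iff₀ hlam]
    linarith
  have hwsp := sp_cu hsp'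
  have hPc : Continuous fun x => chg b x * en (cu (wl t0 lam x0 u t) x) :=
    hsp.cont.mul (f_cont hwsp)
  have hPp : Per fun x => chg b x * en (cu (wl t0 lam x0 u t) x) := fun i x => by
    simp only [hsp.per i x, f_per hwsp i x]
  rw [int_cell hPp] at a4
  have a5 : ∫ x in ball (0 : V) s', en (cu (u (t0 + t)) (x0 + lam • x)) ≤ J := by
    refine le_trans ?_ a4
    have b1 : ∫ x in ball (0 : V) s', en (cu (u (t0 + t)) (x0 + lam • x))
        = ∫ x in ball (0 : V) s', chg b x * en (cu (wl t0 lam x0 u t) x) := by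
      refine setIntegral_congr_fun measurableSet_ball fun x hx => ?_
      have hx1 : x ∈ ball (0 : V) b.rIn := ball_subset_ball (by rw [hbin]; exact hs'32) hx
      have hx2 : x ∈ ball (kv (0 : Fin 3 → ℤ)) (3 / 16) := by
        have h0 : kv (0 : Fin 3 → ℤ) = 0 := by
          funext i
          simp [kv]
        rw [h0]
        exact ball_subset_ball (by linarith) hx
      beta_reduce
      rw [chg_one b hb16 hx1, one_mul, wl_cu h hlam.ne' hl4 hs1 hx2]
      have h0 : kv (0 : Fin 3 → ℤ) = 0 := by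
        funext i
        simp [kv]
      rw [h0, smul_zero, sub_zero]
    rw [b1]
    refine setIntegral_mono_set ((hPc.continuousOn.integrableOn_compact
      (isCompact_closedBall _ _)).mono_set ball_subset_closedBall)
      (Filter.Eventually.of_forall fun x => mul_nonneg (chg_nonneg b x) (en_nonneg _))
      (ball_subset_ball (by linarith)).eventuallyLE
  rw [W382.ME.cov (fun y => en (cu (u (t0 + t)) y)) x0 hlam, hss] at a5
  rw [inv_mul_le_iff₀ (by positivity)] at a5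
  exact a5.trans (le_max_right _ _)

end Pool.Agent.R210
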