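import Pool.Agent.R210.S13

/-!
Interior solutions: the line of the vorticity at a singular point leaves every double cone or
oscillates at high vorticity.
-/

open MeasureTheory Set Metric Filter Topology
open scoped ContDiff ENNReal RealInnerProductSpace
open H459R3.NS W221.NS W221.NS.B

namespace Pool.Agent.R210

/-- The Morrey bound of a field whose line stays in a double cone, with a local bound. -/
theorem avg_coneD' {v : V → V} (hv : ∀ i, SP (fun x => v x i)) {z₀ e : V} {m r J : ℝ} (hr : 0 < r)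
    (hm : 1 ≤ m) (he : en e = 1)
    (hlin : ConeL (cu v) e m⁻¹ (eb z₀ r))
    (hJ : ∫ x in eb z₀ r, en (cu v x) ≤ J)
    {τ : ℝ} (hτ : 0 < τ) (hτR : 8 * m * (m + 3) * τ ≤ r) {x : V} (hx : x ∈ eb z₀ (r / 4)) :
    Va (cu v) τ x ≤ 2 * CGm m * (m + 3) / r * J / τ ^ 2 := by
  have hm0 : 0 < m := by linarith
  have hCG := CGm_pos hm0
  set z : E := WithLp.toLp 2 z₀ with hz
  set xE : E := WithLp.toLp 2 x with hxE
  set w := lift (cu v) with hw
  have hwsp := sp_cu hv
  have hws : ContDiff ℝ 1 w := (lift_smooth hwsp).of_le (by norm_cast)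
  have hdv : ∀ y, dvE w y = 0 := fun y => by rw [hw, dvE_lift hwsp, dv_cu hv]
  have hxz : xE ∈ ball z (r / 4) := (mem_eb_iff (x := xE) (by linarith)).1 hx
  have hsub2 : ball xE (r / 2) ⊆ ball z r := by
    intro y hy
    rw [mem_ball] at hy hxz ⊢
    have := dist_triangle y xE z
    linarith
  have e2 : (m + 3) * (r / (2 * (m + 3))) = r / 2 := by field_simp
  have h3 := cone_fluxD hws (x := xE) (e := (WithLp.toLp 2 e : E)) (R := r / (2 * (m + 3)))
    (m := m) (τ := τ) (by rw [norm_toLp, he]) hm hτ (by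
      rw [le_div_iff₀ (by positivity)]
      linarith) hdv (fun y hy => by
      rw [e2] at hy
      have h4 := hlin (WithLp.ofLp y) ((mem_eb_iff hr).2 (hsub2 hy))
      have h9 : ⟪(WithLp.toLp 2 e : E), w y⟫ = ∑ i, e i * cu v (WithLp.ofLp y) i := by
        rw [hw]
        simp [lift, PiLp.inner_apply, mul_comm]
      rw [inv_mul_le_iff₀ hm0] at h4
      rw [h9, hw, norm_lift]
      exact h4)
  rw [e2] at h3
  have hball : ∫ y in ball xE τ, ‖w y‖ = ∫ y in eb x τ, en (cu v y) := by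
    have h5 := int_ball_lift (F := fun y => en (cu v y)) xE hτ
    rw [← h5]
    simp_rw [hw, norm_lift]
  have hbig : ∫ y in ball xE (r / 2), ‖w y‖ ≤ J := by
    have h6 : ∫ y in ball z r, ‖w y‖ = ∫ y in eb z₀ r, en (cu v y) := by
      have h5 := int_ball_lift (F := fun y => en (cu v y)) z hr
      rw [← h5]
      simp_rw [hw, norm_lift]
    rw [← h6] at hJ
    exact (setIntegral_mono_set (intOn_ball hws.continuous.norm _ _)
      (Filter.Eventually.of_forall fun y => norm_nonneg _) hsub2.eventuallyLE).trans hJ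
  rw [hball] at h3
  unfold Va
  rw [int_U1_scale (f := fun y => en (cu v y)) hτ, inv_pow, inv_mul_eq_div, div_le_div_iff₀
    (by positivity) (by positivity)]
  have h5 : ∫ y in eb x τ, en (cu v y) ≤ 2 * CGm m * (m + 3) / r * J * τ := by
    refine h3.trans ?_
    calc CGm m * (τ / (r / (2 * (m + 3)))) * ∫ y in ball xE (r / 2), ‖w y‖
        ≤ CGm m * (τ / (r / (2 * (m + 3)))) * J :=
          mul_le_mul_of_nonneg_left hbig (by positivity)
      _ = _ := by field_simp
  calc (∫ y in eb x τ, en (cu v y)) * τ ^ 2 ≤ (2 * CGm m * (m + 3) / r * J * τ) * τ ^ 2 :=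
        mul_le_mul_of_nonneg_right h5 (by positivity)
    _ = _ := by ring

/-- The Morrey bound at a fixed time. -/
theorem morrey_u {ν T E F : ℝ} {Ω : Set V} {u : ℝ → V → V} {p : ℝ → V → ℝ} {f : ℝ → V → V}
    (h : OSolF ν T E F Ω u p f) {x0 e : V} {lam m J : ℝ} (hlam : 0 < lam) (hm : 1 ≤ m)
    (hl4 : ∀ z ∈ closedBall (0 : V) (1 / 4), x0 + lam • z ∈ Ω) {t : ℝ} (ht : t ∈ Ioo 0 T)
    (he : en e = 1) (hc : ConeL (cu (u t)) e m⁻¹ (ball x0 (lam * (1 / 8))))
    (hJ : ∫ y in ball x0 (lam * (1 / 8)), en (cu (u t) y) ≤ J) :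
    ∀ x ∈ ball x0 (lam / (256 * m * (m + 3))), ∀ a : ℝ, 0 < a → a < lam / (256 * m * (m + 3)) →
      Va (cu (u t)) a x ≤ 16 * CGm m * (m + 3) * J / lam / a ^ 2 := by
  intro x hx a ha har
  have hm0 : 0 < m := by linarith
  have hmm : 4 ≤ m * (m + 3) := by nlinarith
  have ht0 : (0 : ℝ) ∈ Ioo (-t) (T - t) := ⟨by linarith [ht.1], by linarith [ht.2]⟩
  have hv : ∀ i, SP (fun x => wl t lam x0 u 0 x i) := fun i => wl_sp (p := p) (f := f) h hl4 ht0 i
  have h0 : kv (0 : Fin 3 → ℤ) = 0 := by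
    funext i
    simp [kv]
  have hcu : ∀ z ∈ ball (0 : V) (3 / 16), cu (wl t lam x0 u 0) z = cu (u t) (x0 + lam • z) := by
    intro z hz
    have h1 := wl_cu h hlam.ne' hl4 ht0 (z := z) (k := 0) (by rw [h0]; exact hz)
    rwa [h0, smul_zero, sub_zero, add_zero] at h1
  have heb : ∀ {y : V} {s : ℝ}, 0 < s → y ∈ eb (0 : V) s → ‖y‖ < s := fun hs hy => by
    have := norm_lt_of_eb hs hy
    rwa [sub_zero] at this
  have hin : ∀ y ∈ eb (0 : V) (1 / 8), x0 + lam • y ∈ ball x0 (lam * (1 / 8)) := by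
    intro y hy
    rw [mem_ball, dist_eq_norm, add_sub_cancel_left, norm_smul, Real.norm_eq_abs,
      abs_of_pos hlam]
    exact mul_lt_mul_of_pos_left (heb (by norm_num) hy) hlam
  have hin3 : ∀ y ∈ eb (0 : V) (1 / 8), y ∈ ball (0 : V) (3 / 16) := by
    intro y hy
    rw [mem_ball_zero_iff]
    have := heb (by norm_num) hy
    linarith
  have hc' : ConeL (cu (wl t lam x0 u 0)) e m⁻¹ (eb 0 (1 / 8)) := by
    intro y hy
    rw [hcu y (hin3 y hy)]
    exact hc _ (hin y hy)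
  -- the local bound
  have hJ' : ∫ y in eb (0 : V) (1 / 8), en (cu (wl t lam x0 u 0) y) ≤ (lam ^ 3)⁻¹ * J := by
    have b0 : ∫ y in ball (0 : V) (1 / 8), en (cu (wl t lam x0 u 0) y)
        = ∫ y in ball (0 : V) (1 / 8), en (cu (u t) (x0 + lam • y)) := by
      refine setIntegral_congr_fun measurableSet_ball fun y hy => ?_
      beta_reduce
      rw [hcu y (ball_subset_ball (by norm_num) hy)]
    rw [W382.ME.cov (fun y => en (cu (u t) y)) x0 hlam] at b0
    have b1 : ∫ y in eb (0 : V) (1 / 8), en (cu (wl t lam x0 u 0) y)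
        ≤ ∫ y in ball (0 : V) (1 / 8), en (cu (wl t lam x0 u 0) y) := by
      refine setIntegral_mono_set (((f_cont (sp_cu hv)).continuousOn.integrableOn_compact
        (isCompact_closedBall _ _)).mono_set ball_subset_closedBall)
        (Filter.Eventually.of_forall fun x => en_nonneg _) (LE.le.eventuallyLE fun y hy => ?_)
      exact mem_ball_zero_iff.2 (heb (by norm_num) hy)
    rw [b0] at b1
    exact b1.trans (mul_le_mul_of_nonneg_left hJ (by positivity))
  -- the points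
  set x' : V := lam⁻¹ • (x - x0) with hx'
  have hxx : x = x0 + lam • x' := by
    rw [hx', smul_inv_smul₀ hlam.ne']; abel
  set r2 : ℝ := 1 / (256 * m * (m + 3)) with hr2
  have hr20 : 0 < r2 := by positivity
  have hr2m : 8 * m * (m + 3) * r2 = 1 / 32 := by rw [hr2]; field_simp; norm_num
  have hr2s : r2 ≤ 1 / 1024 := by
    rw [hr2]
    refine div_le_div_of_nonneg_left (by norm_num) (by norm_num) (by linarith)
  have hlr : lam / (256 * m * (m + 3)) = lam * r2 := by rw [hr2]; ring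
  rw [hlr] at hx har
  have hx1 : ‖x'‖ < r2 := by
    rw [mem_ball, dist_eq_norm] at hx
    rw [hx', norm_smul, norm_inv, Real.norm_eq_abs, abs_of_pos hlam, inv_mul_lt_iff₀ hlam]
    exact hx
  have hx4 : x' ∈ eb (0 : V) (1 / 8 / 4) := by
    show rsq (x' - 0) < (1 / 8 / 4) ^ 2
    rw [sub_zero]
    have h2 : ∀ i, x' i ^ 2 ≤ (1 / 1024) ^ 2 := fun i => by
      have h3 : |x' i| ≤ 1 / 1024 := by
        have := (norm_le_pi_norm x' i).trans hx1.le
        rw [Real.norm_eq_abs] at this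
        linarith
      rw [← sq_abs]
      exact pow_le_pow_left₀ (abs_nonneg _) h3 2
    unfold rsq
    rw [Fin.sum_univ_three]
    have := h2 0
    have := h2 1
    have := h2 2
    norm_num at *
    linarith
  set τ : ℝ := a / lam with hτ
  have hτ0 : 0 < τ := by positivity
  have haτ : a = lam * τ := by rw [hτ]; field_simp
  have hτr : τ < r2 := by
    rw [hτ, div_lt_iff₀ hlam]
    linarith
  have hmain := avg_coneD' hv (by norm_num) hm he hc' hJ' hτ0 (by
    have := mul_le_mul_of_nonneg_left hτr.le (by positivity : 0 ≤ 8 * m * (m + 3))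
    linarith) hx4
  have e1 : Va (cu (wl t lam x0 u 0)) τ x' = Va (cu (u t)) a x := by
    unfold Va
    refine setIntegral_congr_fun measurable_U1 fun z hz => ?_
    beta_reduce
    have h1 : ‖x' - τ • z - x'‖ < τ := norm_lt_of_eb hτ0 (eb_sub_mem hτ0 hz le_rfl)
    have h2 : x' - τ • z ∈ ball (0 : V) (3 / 16) := by
      rw [mem_ball_zero_iff]
      have h3 : ‖x' - τ • z‖ ≤ ‖x' - τ • z - x'‖ + ‖x'‖ := by
        have := norm_add_le (x' - τ • z - x') x'
        rwa [sub_add_cancel] at this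
      linarith
    have e9 : x0 + lam • (x' - τ • z) = (x0 + lam • x') - (lam * τ) • z := by
      rw [smul_sub, smul_smul lam τ z, add_sub_assoc]
    rw [hcu _ h2, e9, ← hxx, ← haτ]
  rw [← e1]
  refine hmain.trans (le_of_eq ?_)
  rw [haτ]
  field_simp
  ring

theorem ball_cone {w : V → V} {e : V} {η : ℝ} {U U' : Set V} (h : ConeL w e η U) (hU : U' ⊆ U) :
    ConeL w e η U' := fun y hy => h y (hU hy)

/-- At an interior singular point the line of the vorticity leaves every double cone or oscillates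
at high vorticity. -/
theorem sing_lineD {ν T E F : ℝ} {Ω : Set V} {u : ℝ → V → V} {p : ℝ → V → ℝ} {f : ℝ → V → V}
    (hν : 0 < ν) (h : OSolF ν T E F Ω u p f)
    (hfin : ∫⁻ t in Ioo 0 T, ∫⁻ y in Ω, ENNReal.ofReal (gsq (u t) y) ≠ ⊤) {x0 : V} (hx0 : x0 ∈ Ω)
    (hT : 0 < T) (hS : Sing T u x0) {η : ℝ} (hη : 0 < η) :
    ∃ δ : ℝ, 0 < δ ∧ ∀ K r T1 : ℝ, 0 < r → T1 < T →
      ¬ ∀ᵐ t ∂volume.restrict (Ioo T1 T),
        (∃ e : V, en e = 1 ∧ ConeL (cu (u t)) e η (ball x0 r)) ∧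
        SinL (cu (u t)) K δ (ball x0 r) := by
  obtain ⟨ρ, J, ta, hρ, hJ0, hta, htaT, hJ⟩ := l1_local hν h hfin hx0 hT
  obtain ⟨ρ', hρ', hρΩ⟩ := Metric.nhds_basis_closedBall.mem_iff.1 (h.openO.mem_nhds hx0)
  obtain ⟨c0, hc0, hc01, H⟩ := local_regL
  by_contra hcon
  push Not at hcon
  obtain ⟨K0, r0, T0, hr0, hT0, hco⟩ := hcon 1 one_pos
  set lam : ℝ := min r0 (min ρ ρ') with hlam'
  have hlam : 0 < lam := lt_min hr0 (lt_min hρ hρ')
  have hlamr : lam ≤ r0 := min_le_left _ _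
  have hlamρ : lam ≤ ρ := (min_le_right _ _).trans (min_le_left _ _)
  have hlamρ' : lam ≤ ρ' := (min_le_right _ _).trans (min_le_right _ _)
  have hl4 : ∀ z ∈ closedBall (0 : V) (1 / 4), x0 + lam • z ∈ Ω := by
    intro z hz
    refine hρΩ ?_
    rw [mem_closedBall, dist_eq_norm, add_sub_cancel_left, norm_smul, Real.norm_eq_abs,
      abs_of_pos hlam]
    rw [mem_closedBall_zero_iff] at hz
    nlinarith [norm_nonneg z]
  set m : ℝ := max 1 η⁻¹ with hm
  have hm1 : 1 ≤ m := le_max_left _ _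
  have hm0 : 0 < m := by linarith
  have hmη : m⁻¹ ≤ η := by
    rw [inv_le_comm₀ hm0 hη]
    exact le_max_right _ _
  have hCG := CGm_pos hm0
  set Λ : ℝ := 16 * CGm m * (m + 3) * J / lam + 1 with hΛ
  have hΛ0 : 0 < Λ := by positivity
  set δ : ℝ := min (1 / 9) (c0 * ν / Λ) with hδ
  have hδ0 : 0 < δ := lt_min (by norm_num) (by positivity)
  have hδ9 : δ ≤ 1 / 9 := min_le_left _ _
  have hδΛ : δ * Λ ≤ c0 * ν := by
    have h1 : δ ≤ c0 * ν / Λ := min_le_right _ _
    calc δ * Λ ≤ c0 * ν / Λ * Λ := mul_le_mul_of_nonneg_right h1 hΛ0.le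
      _ = _ := by field_simp
  obtain ⟨K1, r1, T1, hr1', hT1, hfi⟩ := hcon δ hδ0
  have hmx : max ta T0 < T := max_lt htaT hT0
  set r2 : ℝ := lam / (256 * m * (m + 3)) with hr2
  have hr20 : 0 < r2 := by positivity
  refine H hν h hfin hx0 (r0 := r2) (T0 := max ta T0) (Λ := Λ) (δ := δ)
    hr20 (hta.le.trans (le_max_left _ _)) hmx hΛ0 hδ0.le (by linarith) hδΛ ?_ (max K1 0) r1 T1
    (le_max_right _ _) hr1' hT1 ?_ hS
  · have h1 := ae_mono (Measure.restrict_mono (Ioo_subset_Ioo (le_max_right ta T0) (le_refl T))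
      le_rfl) hco
    filter_upwards [h1, ae_restrict_mem measurableSet_Ioo] with t ht ht2 x hx a ha har
    have hta2 : ta < t := (le_max_left ta T0).trans_lt ht2.1
    have htI : t ∈ Ioo 0 T := ⟨hta.trans hta2, ht2.2⟩
    obtain ⟨⟨e, he, hue⟩, -⟩ := ht
    have hue' : ConeL (cu (u t)) e m⁻¹ (ball x0 (lam * (1 / 8))) := fun y hy =>
      (mul_le_mul_of_nonneg_right hmη (en_nonneg _)).trans
        (hue y (ball_subset_ball (by linarith) hy))
    have h4 := morrey_u h hlam hm1 hl4 htI he hue'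
      (hJ t ⟨hta2.le, ht2.2⟩ (lam * (1 / 8)) (by positivity) (by linarith)) x hx a ha har
    refine h4.trans (div_le_div_of_nonneg_right ?_ (by positivity))
    rw [hΛ]
    linarith
  · filter_upwards [hfi] with t ht
    exact ht.2.mono (le_max_left _ _) le_rfl (subset_refl _)

/-- The case of periodic solutions with a force. -/
theorem peri_lineF {ν T F : ℝ} {u : ℝ → V → V} {p : ℝ → V → ℝ} {f : ℝ → V → V} (hν : 0 < ν)
    (hT : 0 < T) (hu' : IsSolF ν T F u p f) {x0 : V} (hx0 : x0 ∈ cube) (hS : Sing T u x0)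
    {η : ℝ} (hη : 0 < η) :
    ∃ δ : ℝ, 0 < δ ∧ ∀ K r T1 : ℝ, 0 < r → T1 < T →
      ¬ ∀ᵐ t ∂volume.restrict (Ioo T1 T),
        (∃ e : V, en e = 1 ∧ ConeL (cu (u t)) e η (ball x0 r)) ∧
        SinL (cu (u t)) K δ (ball x0 r) := by
  obtain ⟨h5a, h5b⟩ := p_pero
  have hu : IsSolF ν T |F| u p f :=
    { hu' with force := fun t ht => bd3_mono (le_abs_self F) (hu'.force t ht) }
  obtain ⟨⟨E, hE, hEn⟩, hint⟩ := p_pen3 ν T |F| u p f hν hT (abs_nonneg F) hu
  have hO : OSolF ν T (15 * E) |F| (ball 0 3) u p f := h5a ν T E |F| u p f hT hE hu hEn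
  have hsp : ∀ t ∈ Ioo 0 T, SPV (u t) := fun t ht =>
    ⟨slice_ico hu.smooth_u ⟨ht.1.le, ht.2⟩, hu.per_u t ⟨ht.1.le, ht.2⟩⟩
  have hfin : ∫⁻ t in Ioo 0 T, ∫⁻ y in ball (0 : V) 3, ENNReal.ofReal (gsq (u t) y) ≠ ⊤ := by
    have h1 : ∫⁻ t in Ioo 0 T, ∫⁻ y in ball (0 : V) 3, ENNReal.ofReal (gsq (u t) y)
        = ∫⁻ t in Ioo 0 T, ENNReal.ofReal (216 * enstrophy (u t)) := by
      apply setLIntegral_congr_fun measurableSet_Ioo
      intro t ht
      exact h5b _ (hsp t ht)
    rw [h1]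
    exact ((hint.const_mul 216).lintegral_lt_top).ne
  exact sing_lineD hν hO hfin (cube_sub hx0) hT hS hη

end Pool.Agent.R210
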