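import Pool.Agent.R210.S1

/-!
The production is controlled if the line of the vorticity has small oscillation: the potential.
-/

open MeasureTheory Set Metric Filter Topology
open scoped ContDiff ENNReal
open H459R3.NS

namespace Pool.Agent.R210

section

variable {w : V → V} (hw : ∀ i, SP (fun x => w x i))

include hw in
theorem ptB0 {K T τ Λ C1 Q : ℝ} {x : V} (hC10 : 0 < C1) (hQ : 0 ≤ Q) (hK : 0 ≤ K) (hτ : 0 < τ)
    (hτT : τ ≤ T) (hT1 : T ≤ 1) (hΛ : 0 < Λ)
    (hn : ∀ t : ℝ, 0 < t → 2 * t ≤ τ → t ≤ T → Va w t x ≤ C1 * (en (w x) + t * Real.sqrt Q + K))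
    (hb : ∀ t : ℝ, 0 < t → t ≤ T → Va w t x ≤ Λ / t ^ 2) :
    (en (w x) * Ja w T x) ^ 2 ≤ 4 * ((C1 + 1) ^ 2 * Λ * en (w x) ^ 3
      + C1 ^ 2 * Λ ^ 2 * Q + C1 ^ 2 * K ^ 2 * T ^ 2 * en (w x) ^ 2
      + 4 * Λ ^ 2 * (en (w x) ^ 2 / τ ^ 2)) := by
  set a := en (w x) with ha
  set S := Real.sqrt Q with hS
  have hSS : S ^ 2 = Q := Real.sq_sqrt hQ
  have hS0 : 0 ≤ S := Real.sqrt_nonneg _
  have ha0 : 0 ≤ a := en_nonneg _
  rcases ha0.eq_or_lt with h0 | hapos
  · rw [← h0]
    have : 0 ≤ C1 ^ 2 * Λ ^ 2 * Q := by positivity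
    simp only [zero_mul, ne_eq, OfNat.ofNat_ne_zero, not_false_eq_true, zero_pow, mul_zero,
      zero_div, add_zero, zero_add]
    positivity
  have hT : 0 < T := hτ.trans_le hτT
  set r : ℝ := Real.sqrt (Λ / a) with hr
  have hr0 : 0 < r := Real.sqrt_pos.2 (by positivity)
  have hr2 : a * r ^ 2 = Λ := by
    rw [hr, Real.sq_sqrt (by positivity)]; field_simp
  set t1 : ℝ := min (τ / 2) r with ht1
  have ht10 : 0 < t1 := lt_min (by positivity) hr0
  have ht1τ : t1 ≤ τ / 2 := min_le_left _ _
  have ht1r : t1 ≤ r := min_le_right _ _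
  have ht11 : t1 ≤ 1 := by linarith
  have hc := Va_cont hw x
  have hi : ∀ a b : ℝ, IntervalIntegrable (fun t => Va w t x) volume a b := fun a b =>
    hc.intervalIntegrable a b
  -- the small scales
  have h1 : ∫ t in (0 : ℝ)..t1, Va w t x ≤ t1 * (C1 * (a + t1 * S + K)) := by
    have h2 : ∫ t in (0 : ℝ)..t1, Va w t x ≤ ∫ _ in (0 : ℝ)..t1, C1 * (a + t1 * S + K) := by
      refine intervalIntegral.integral_mono_on_of_le_Ioo ht10.le (hi _ _)
        (by simp) fun t ht => ?_
      have h3 := hn t ht.1 (by linarith [ht.2] : 2 * t ≤ τ) (by linarith [ht.2])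
      refine h3.trans (mul_le_mul_of_nonneg_left ?_ hC10.le)
      have := mul_le_mul_of_nonneg_right ht.2.le hS0
      linarith
    rw [intervalIntegral.integral_const, sub_zero, smul_eq_mul] at h2
    exact h2
  -- the large scales
  have h2 : ∫ t in t1..T, Va w t x ≤ Λ / t1 := by
    have h3 : ∫ t in t1..T, Va w t x ≤ ∫ t in t1..T, Λ * (1 / t ^ 2) := by
      refine intervalIntegral.integral_mono_on_of_le_Ioo (by linarith) (hi _ _) ?_ fun t ht => ?_
      · refine ContinuousOn.intervalIntegrable fun t ht => ?_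
        rw [uIcc_of_le (by linarith)] at ht
        have ht0 : t ≠ 0 := (ht10.trans_le ht.1).ne'
        exact (continuousAt_const.mul (ContinuousAt.div continuousAt_const (by fun_prop)
          (by positivity))).continuousWithinAt
      · have h4 := hb t (ht10.trans ht.1) ht.2.le
        calc Va w t x ≤ Λ / t ^ 2 := h4
          _ = _ := by ring
    rw [intervalIntegral.integral_const_mul, int_inv_sq ht10 (by linarith)] at h3
    have h4 : 0 ≤ Λ * (1 / T) := by positivity
    calc ∫ t in t1..T, Va w t x ≤ Λ * (1 / t1 - 1 / T) := h3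
      _ ≤ Λ / t1 := by rw [div_eq_mul_one_div Λ t1]; linarith
  have h3 : Ja w T x ≤ t1 * (C1 * (a + t1 * S + K)) + Λ / t1 := by
    unfold Ja
    rw [← intervalIntegral.integral_add_adjacent_intervals (hi 0 t1) (hi t1 T)]
    linarith
  have hJ0 : 0 ≤ Ja w T x := intervalIntegral.integral_nonneg hT.le fun t _ => Va_nonneg w t x
  -- the combination
  have h4 : a * (Λ / t1) ≤ 2 * (Λ * (a / τ)) + a ^ 2 * r := by
    rcases min_cases (τ / 2) r with h | h
    · rw [ht1, h.1]
      have e1 : a * (Λ / (τ / 2)) = 2 * (Λ * (a / τ)) := by field_simp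
      rw [e1]
      have : 0 ≤ a ^ 2 * r := by positivity
      linarith
    · rw [ht1, h.1]
      have e1 : a * (Λ / r) = a ^ 2 * r := by
        rw [← hr2]; field_simp
      rw [e1]
      have : 0 ≤ 2 * (Λ * (a / τ)) := by positivity
      linarith
  have h5 : a * (t1 * (C1 * (a + t1 * S + K))) ≤ C1 * (a ^ 2 * r + Λ * S + K * T * a) := by
    have q1 : a * t1 * a ≤ a ^ 2 * r := by
      calc a * t1 * a = a ^ 2 * t1 := by ring
        _ ≤ _ := mul_le_mul_of_nonneg_left ht1r (by positivity)
    have q2 : a * (t1 * (t1 * S)) ≤ Λ * S := by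
      have : t1 ^ 2 ≤ r ^ 2 := pow_le_pow_left₀ ht10.le ht1r 2
      calc a * (t1 * (t1 * S)) = (a * t1 ^ 2) * S := by ring
        _ ≤ (a * r ^ 2) * S := mul_le_mul_of_nonneg_right
            (mul_le_mul_of_nonneg_left this ha0) hS0
        _ = Λ * S := by rw [hr2]
    have q3 : a * (t1 * K) ≤ K * T * a := by
      have : 0 ≤ K * a := by positivity
      calc a * (t1 * K) = t1 * (K * a) := by ring
        _ ≤ T * (K * a) := mul_le_mul_of_nonneg_right (by linarith) this
        _ = _ := by ring
    calc a * (t1 * (C1 * (a + t1 * S + K)))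
        = C1 * (a * t1 * a + a * (t1 * (t1 * S)) + a * (t1 * K)) := by ring
      _ ≤ _ := mul_le_mul_of_nonneg_left (by linarith) hC10.le
  have h6 : a * Ja w T x ≤ (C1 + 1) * (a ^ 2 * r) + C1 * (Λ * S) + C1 * (K * T * a)
      + 2 * (Λ * (a / τ)) := by
    have := mul_le_mul_of_nonneg_left h3 ha0
    linarith
  have h7 : (a * Ja w T x) ^ 2 ≤ ((C1 + 1) * (a ^ 2 * r) + C1 * (Λ * S) + C1 * (K * T * a)
      + 2 * (Λ * (a / τ))) ^ 2 := pow_le_pow_left₀ (by positivity) h6 2
  have h8 : ∀ p q u v : ℝ, (p + q + u + v) ^ 2 ≤ 4 * (p ^ 2 + q ^ 2 + u ^ 2 + v ^ 2) := by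
    intro p q u v
    nlinarith [sq_nonneg (p - q), sq_nonneg (p - u), sq_nonneg (p - v), sq_nonneg (q - u),
      sq_nonneg (q - v), sq_nonneg (u - v)]
  refine (h7.trans (h8 _ _ _ _)).trans (le_of_eq ?_)
  have e1 : (a ^ 2 * r) ^ 2 = Λ * a ^ 3 := by
    calc (a ^ 2 * r) ^ 2 = (a * r ^ 2) * a ^ 3 := by ring
      _ = _ := by rw [hr2]
  have e2 : ((C1 + 1) * (a ^ 2 * r)) ^ 2 = (C1 + 1) ^ 2 * (a ^ 2 * r) ^ 2 := by ring
  rw [e2, e1, ← hSS]
  ring


end

section

variable {v : V → V} (hv : ∀ i, SP (fun x => v x i))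

include hv in
theorem ptDL {e : V} {T δ K : ℝ} {x : V} (hT : 0 < T) (hδ : 0 ≤ δ) (hK : 0 ≤ K)
    (hdiv : ∀ y ∈ eb x T, dv v y = 0) (hu : UniL (cu v) e δ K (eb x T)) :
    |ce v e x - mo phi T (ce v e) x| ≤ 3 * BB * (δ * Ja (cu v) T x + 2 * K * vU * T) := by
  have hBB := one_le_BB
  have hvU := vU_nonneg
  have hw := sp_cu hv
  have hg := sp_ce hv e
  have hrep := mo_repr hg T x
  have h1 : ce v e x - mo phi T (ce v e) x = ∫ t in (0 : ℝ)..T, t * mo psi t (lap (ce v e)) x := by
    linarith
  rw [h1]
  have hc := Va_cont hw x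
  have hi : IntervalIntegrable (fun t => 3 * BB * (δ * Va (cu v) t x + 2 * K * vU)) volume 0 T :=
    (continuous_const.mul ((continuous_const.mul hc).add continuous_const)).intervalIntegrable _ _
  have h2 : ‖∫ t in (0 : ℝ)..T, t * mo psi t (lap (ce v e)) x‖
      ≤ ∫ t in (0 : ℝ)..T, 3 * BB * (δ * Va (cu v) t x + 2 * K * vU) := by
    refine intervalIntegral.norm_integral_le_of_norm_le hT.le
      (Filter.Eventually.of_forall fun t ht => ?_) hi
    have ht0 : 0 < t := ht.1
    -- the Laplacian
    have e1 : ∀ y ∈ eb x T, lap (ce v e) y = ∑ l, pd l (fun z => crossProduct e (cu v z) l) y := by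
      intro y hy
      have h3 : lap (ce v e) y = ∑ j, e j * lap (fun y => v y j) y := by
        have h4 : ∀ (k : Fin 3) (f : V → V), (∀ i, SP fun x => f x i) → ∀ y,
            pd k (fun y => ∑ j, e j * f y j) y = ∑ j, e j * pd k (fun y => f y j) y := by
          intro k f hf y
          rw [pd_sum (fun j _ => SP.mul ⟨contDiff_const, fun _ _ => rfl⟩ (hf j)) k y]
          refine Finset.sum_congr rfl fun j _ => ?_
          have := pd_mul (f := fun _ => e j) ⟨contDiff_const, fun _ _ => rfl⟩ (hf j) k y
          rw [this]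
          have h5 : pd k (fun _ : V => e j) y = 0 := by unfold pd; simp
          rw [h5]; ring
        unfold lap
        have h5 : ∀ k, pd k (pd k (ce v e)) y = ∑ j, e j * pd k (pd k (fun y => v y j)) y := by
          intro k
          have h6 : pd k (ce v e) = fun y => ∑ j, e j * (fun y j => pd k (fun y => v y j) y) y j := by
            funext y
            exact h4 k v hv y
          rw [h6]
          exact h4 k (fun y j => pd k (fun y => v y j) y) (fun j => (hv j).pd k) y
        simp_rw [h5]
        rw [Finset.sum_comm]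
        exact Finset.sum_congr rfl fun j _ => by rw [Finset.mul_sum]
      rw [h3]
      simp_rw [lap_curl_gen hv]
      have h4 : ∀ j, pd j (dv v) y = 0 := fun j => pd_zero_of (isOpen_eb x T) hdiv j hy
      simp_rw [h4]
      have c0 : ∀ (k a b : Fin 3), pd k (fun z => e a * cu v z b - e b * cu v z a) y
          = e a * pd k (fun z => cu v z b) y - e b * pd k (fun z => cu v z a) y := by
        intro k a b
        have h5 : ∀ (r : ℝ) (m : Fin 3), SP fun z => r * cu v z m := fun r m =>
          SP.mul ⟨contDiff_const, fun _ _ => rfl⟩ (hw m)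
        have h6 : ∀ (r : ℝ) (m : Fin 3), pd k (fun z => r * cu v z m) y
            = r * pd k (fun z => cu v z m) y := by
          intro r m
          have := pd_mul (f := fun _ => r) ⟨contDiff_const, fun _ _ => rfl⟩ (hw m) k y
          rw [this]
          have h7 : pd k (fun _ : V => r) y = 0 := by unfold pd; simp
          rw [h7]; ring
        rw [pd_sub' (h5 _ _) (h5 _ _), h6, h6]
      rw [Fin.sum_univ_three, Fin.sum_univ_three]
      have x0 : (fun z => crossProduct e (cu v z) 0) = fun z => e 1 * cu v z 2 - e 2 * cu v z 1 := by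
        funext z; simp [cross_apply]
      have x1 : (fun z => crossProduct e (cu v z) 1) = fun z => e 2 * cu v z 0 - e 0 * cu v z 2 := by
        funext z; simp [cross_apply]
      have x2 : (fun z => crossProduct e (cu v z) 2) = fun z => e 0 * cu v z 1 - e 1 * cu v z 0 := by
        funext z; simp [cross_apply]
      rw [x0, x1, x2, c0, c0, c0]
      have y0 : cu (cu v) y 0 = pd 1 (fun z => cu v z 2) y - pd 2 (fun z => cu v z 1) y := rfl
      have y1 : cu (cu v) y 1 = pd 2 (fun z => cu v z 0) y - pd 0 (fun z => cu v z 2) y := rfl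
      have y2 : cu (cu v) y 2 = pd 0 (fun z => cu v z 1) y - pd 1 (fun z => cu v z 0) y := rfl
      rw [y0, y1, y2]
      ring
    have hX : ∀ l, SP fun z => crossProduct e (cu v z) l := by
      intro l
      have h5 : ∀ (r : ℝ) (m : Fin 3), SP fun z => r * cu v z m := fun r m =>
        SP.mul ⟨contDiff_const, fun _ _ => rfl⟩ (hw m)
      have h6 : ∀ a b : Fin 3, SP fun z => e a * cu v z b - e b * cu v z a := fun a b =>
        (h5 _ _).sub (h5 _ _)
      fin_cases l
      · have : (fun z => crossProduct e (cu v z) 0) = fun z => e 1 * cu v z 2 - e 2 * cu v z 1 := by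
          funext z; simp [cross_apply]
        show SP fun z => crossProduct e (cu v z) 0
        rw [this]; exact h6 1 2
      · have : (fun z => crossProduct e (cu v z) 1) = fun z => e 2 * cu v z 0 - e 0 * cu v z 2 := by
          funext z; simp [cross_apply]
        show SP fun z => crossProduct e (cu v z) 1
        rw [this]; exact h6 2 0
      · have : (fun z => crossProduct e (cu v z) 2) = fun z => e 0 * cu v z 1 - e 1 * cu v z 0 := by
          funext z; simp [cross_apply]
        show SP fun z => crossProduct e (cu v z) 2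
        rw [this]; exact h6 0 1
    have e2 : mo psi t (lap (ce v e)) x
        = ∑ l, mo psi t (pd l (fun z => crossProduct e (cu v z) l)) x := by
      rw [mo_U1 (fun _ hz => psi_zero hz)]
      simp_rw [mo_U1 (fun _ hz => psi_zero hz)]
      rw [← integral_finsetSum]
      · refine setIntegral_congr_fun measurable_U1 fun z hz => ?_
        rw [e1 _ (eb_sub_mem ht0 hz ht.2), Finset.mul_sum]
      · intro l _
        exact int_U1 (psi_smooth.continuous.mul (((hX l).pd l).cont.comp
          (by fun_prop : Continuous fun z : V => x - t • z)))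
    have e3 : ∀ l, |t * mo psi t (pd l (fun z => crossProduct e (cu v z) l)) x|
        ≤ BB * (δ * Va (cu v) t x + 2 * K * vU) := by
      intro l
      have hps := pd_smooth psi_smooth l
      have hpz : ∀ z, 1 ≤ rsq z → pd l psi z = 0 :=
        pd_zero_of_rsq psi_smooth (fun _ hz => psi_zero hz) l
      rw [← mo_pd psi_smooth psi_compact (hX l).smooth l t x, mo_U1 hpz]
      have hcz : Continuous fun z : V => x - t • z := by fun_prop
      have hk : Continuous fun z : V => BB * (δ * en (cu v (x - t • z)) + 2 * K) :=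
        continuous_const.mul ((continuous_const.mul ((f_cont hw).comp hcz)).add continuous_const)
      have h5 : |∫ z in U1, pd l psi z * crossProduct e (cu v (x - t • z)) l|
          ≤ ∫ z in U1, BB * (δ * en (cu v (x - t • z)) + 2 * K) := by
        refine abs_integral_le_integral_abs.trans (setIntegral_mono_on
          (int_U1 (hps.continuous.mul ((hX l).cont.comp hcz)).abs) (int_U1 hk) measurable_U1
          fun z hz => ?_)
        rw [abs_mul]
        have h6 : |crossProduct e (cu v (x - t • z)) l| ≤ δ * en (cu v (x - t • z)) + 2 * K :=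
          (abs_le_en _ l).trans (hu _ (eb_sub_mem ht0 hz ht.2))
        exact mul_le_mul (pd_psi_le l z) h6 (abs_nonneg _) (by linarith)
      refine h5.trans (le_of_eq ?_)
      have i1 : IntegrableOn (fun z => δ * en (cu v (x - t • z))) U1 :=
        int_U1 (continuous_const.mul ((f_cont hw).comp hcz))
      rw [integral_const_mul, integral_add i1 (int_U1 continuous_const), integral_const_mul,
        setIntegral_const]
      unfold Va vU
      simp only [smul_eq_mul, Measure.real]
      ring
    rw [e2, Finset.mul_sum, Real.norm_eq_abs]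
    refine (Finset.abs_sum_le_sum_abs _ _).trans ?_
    rw [Fin.sum_univ_three]
    have := e3 0
    have := e3 1
    have := e3 2
    linarith
  rw [Real.norm_eq_abs] at h2
  refine h2.trans (le_of_eq ?_)
  have i1 : IntervalIntegrable (fun t => δ * Va (cu v) t x) volume 0 T :=
    (continuous_const.mul hc).intervalIntegrable _ _
  have i2 : IntervalIntegrable (fun _ : ℝ => 2 * K * vU) volume 0 T := by simp
  rw [intervalIntegral.integral_const_mul, intervalIntegral.integral_add i1 i2,
    intervalIntegral.integral_const_mul, intervalIntegral.integral_const]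
  unfold Ja
  simp only [smul_eq_mul, sub_zero]
  ring

end

end Pool.Agent.R210
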