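import Pool.Agent.R210.S2

/-!
The production is controlled if the line of the vorticity has small oscillation.
-/

open MeasureTheory Set Metric Filter Topology
open scoped ContDiff ENNReal
open H459R3.NS

namespace Pool.Agent.R210

theorem en_smulL (r : ℝ) (a : V) : en (r • a) = |r| * en a := by
  unfold en
  rw [rsq_smul, Real.sqrt_mul (sq_nonneg r), Real.sqrt_sq_eq_abs]

/-- The hypotheses at a fixed time. -/
structure FS (v : V → V) (χ : V → ℝ) (e : V) (Λ δ K T M : ℝ) : Prop where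
  spv : ∀ i, SP fun x => v x i
  spχ : SP χ
  χ0 : ∀ x, 0 ≤ χ x
  χ1 : ∀ x, χ x ≤ 1
  lip : ∀ x y, |χ x - χ y| ≤ M * en (x - y)
  grad : ∀ x i, |pd i χ x| ≤ M
  e1 : en e = 1
  dv0 : ∀ x, χ x ≠ 0 → ∀ y ∈ eb x T, dv v y = 0
  mor : ∀ x, χ x ≠ 0 → ∀ t : ℝ, 0 < t → t ≤ T → Va (cu v) t x ≤ Λ / t ^ 2
  lin : ∀ x, χ x ≠ 0 → UniL (cu v) e δ K (eb x (2 * T))

noncomputable def AL (CQ' : ℝ) : ℝ :=
  72 * BB ^ 2 * ((144 * c8 + 1) ^ 2 * (2000 * BB * CQ') + (144 * c8) ^ 2 * CQ')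

noncomputable def BL : ℝ := 72 * BB ^ 2 * ((144 * c8 + 1) ^ 2 * (6 * BB)) + 72 * BB ^ 2 * 4

noncomputable def CL : ℝ := 72 * BB ^ 2 * ((144 * c8) ^ 2 + vU ^ 2)

section

variable {v : V → V} {χ : V → ℝ} {e : V} {Λ δ K T M : ℝ}

theorem FS.toFT (h : FS v χ e Λ δ K T M) :
    FT v χ e Λ 2 0 T M (Real.sqrt (∫ x in cube, rsq (v x))) where
  spv := h.spv
  spχ := h.spχ
  χ0 := h.χ0
  χ1 := h.χ1
  lip := h.lip
  grad := h.grad
  e1 := h.e1
  dv0 := h.dv0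
  mor := h.mor
  uni := fun x _ y _ => by
    have h1 := en_sub_le (en (cu v y) • e) (cu v y)
    rw [en_smulL, h.e1, mul_one, abs_of_nonneg (en_nonneg _)] at h1
    linarith
  energy := by
    rw [Real.sq_sqrt (integral_nonneg fun x => rsq_nonneg _)]

/-- The potential integral. -/
theorem FS.potI (h : FS v χ e Λ δ K T M) (hΛ : 0 < Λ) (hδ : 0 ≤ δ) (hδ1 : δ ≤ 1 / 8)
    (hK : 0 ≤ K) {k : ℝ} (hk : 0 < k) (hKk : K ≤ k) (hT : 0 < T) (hT1 : T ≤ 1) (hM : 0 < M)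
    {CQ' : ℝ}
    (hQ : ∫ x in cube, χ x ^ 4 * SS (cu v) (min T (χ x / (2 * M))) x
      ≤ CQ' * ∫ x in cube, χ x ^ 4 * G2 (cu v) x)
    (hQ2 : ∫ x in cube, χ x ^ 4 * SS (wg (cu v) e k) (min T (χ x / (2 * M))) x
      ≤ CQ' * ∫ x in cube, χ x ^ 4 * G2 (cu v) x) :
    ∫ x in cube, χ x ^ 4 * (rsq (cu v x) * (ce v e x - mo phi T (ce v e) x) ^ 2)
      ≤ (δ * Λ) ^ 2 * AL CQ' * (∫ x in cube, χ x ^ 4 * G2 (cu v) x)
        + ((δ * Λ) ^ 2 * BL * (1 / T ^ 2 + 4 * M ^ 2) + CL * (k * T) ^ 2)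
          * ∫ x in cube, rsq (cu v x) := by
  have hBB := one_le_BB
  have hc8 := c8_pos
  have hvU := vU_nonneg
  have hw := sp_cu h.spv
  have hcub := h.toFT.cubic hΛ hT hM hQ
  have hwg := sp_wg hw e hk
  have hτc : Continuous fun x => min T (χ x / (2 * M)) :=
    continuous_const.min (h.spχ.cont.div_const _)
  have cS : Continuous fun x => χ x ^ 4 * SS (wg (cu v) e k) (min T (χ x / (2 * M))) x := by
    refine (h.spχ.cont.pow 4).mul ?_
    unfold SS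
    exact continuous_finsetSum _ fun i _ => continuous_finsetSum _ fun l _ =>
      continuous_finsetSum _ fun m _ => Sk_cont ((hwg m).pd l) i hτc
  have cr : Continuous fun x => rsq (cu v x) := (sp_rsqG hw).cont
  have c3 : Continuous fun x => χ x ^ 4 * en (cu v x) ^ 3 :=
    (h.spχ.cont.pow 4).mul ((f_cont hw).pow 3)
  have hq : SP fun x => ce v e x - mo phi T (ce v e) x :=
    (sp_ce h.spv e).sub (sp_mo phi_smooth.continuous phi_compact (sp_ce h.spv e) T)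
  have cz : Continuous fun x => χ x ^ 4 * (rsq (cu v x)
      * (ce v e x - mo phi T (ce v e) x) ^ 2) :=
    (h.spχ.cont.pow 4).mul (cr.mul (hq.cont.pow 2))
  set B0 : ℝ := 1 / T ^ 2 + 4 * M ^ 2 with hB0
  have hB00 : 0 ≤ B0 := by positivity
  set C1 : ℝ := 144 * c8 with hC1
  have hC10 : 0 < C1 := by positivity
  set b1 : ℝ := 72 * BB ^ 2 * δ ^ 2 * ((C1 + 1) ^ 2 * Λ) with hb1
  set b2 : ℝ := 72 * BB ^ 2 * δ ^ 2 * (C1 ^ 2 * Λ ^ 2) with hb2
  set b3 : ℝ := 72 * BB ^ 2 * δ ^ 2 * (C1 ^ 2 * k ^ 2 * T ^ 2 + 4 * Λ ^ 2 * B0)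
    + 72 * BB ^ 2 * K ^ 2 * vU ^ 2 * T ^ 2 with hb3
  have hb10 : 0 ≤ b1 := by positivity
  have hb20 : 0 ≤ b2 := by positivity
  have hb30 : 0 ≤ b3 := by positivity
  have hδ2 : δ ^ 2 ≤ 1 := by nlinarith
  have i1 := integrableOn_cube (continuous_const.mul c3 : Continuous fun x => b1 * _)
  have i2 := integrableOn_cube (continuous_const.mul cS : Continuous fun x => b2 * _)
  have i3 := integrableOn_cube (continuous_const.mul cr : Continuous fun x => b3 * _)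
  have h1 : ∫ x in cube, χ x ^ 4 * (rsq (cu v x) * (ce v e x - mo phi T (ce v e) x) ^ 2)
      ≤ ∫ x in cube, (b1 * (χ x ^ 4 * en (cu v x) ^ 3)
        + b2 * (χ x ^ 4 * SS (wg (cu v) e k) (min T (χ x / (2 * M))) x)
        + b3 * rsq (cu v x)) := by
    refine setIntegral_mono (integrableOn_cube cz) ((i1.add i2).add i3) fun x => ?_
    simp only
    rcases (h.χ0 x).eq_or_lt with h0 | h0
    · rw [← h0]
      have := rsq_nonneg (cu v x)
      simp only [ne_eq, OfNat.ofNat_ne_zero, not_false_eq_true, zero_pow, zero_mul, mul_zero,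
        zero_add]
      positivity
    · have hτ : 0 < min T (χ x / (2 * M)) := lt_min hT (by positivity)
      have hu := h.lin x h0.ne'
      have hu8 : UniL (cu v) e (1 / 8) K (eb x (2 * T)) := fun y hy =>
        (hu y hy).trans (by
          have := mul_le_mul_of_nonneg_right hδ1 (en_nonneg (cu v y))
          linarith)
      have h2 := ptB0 hw (by positivity : 0 < 144 * c8) (SS_nonneg (wg (cu v) e k) hτ.le x)
        hk.le hτ (min_le_left _ _) hT1 hΛ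
        (fun t ht htτ htT => va_leL hw h.e1 hk hKk hu8 ht htτ htT) (h.mor x h0.ne')
      have h3 := ptDL h.spv hT hδ hK (h.dv0 x h0.ne')
        (fun y hy => hu y (eb_mono hT.le (by linarith) hy))
      have h4 := wt_le (a := en (cu v x)) h0.le (h.χ1 x) hM hT
      set q := ce v e x - mo phi T (ce v e) x with hqd
      set a := en (cu v x) with ha
      set J := Ja (cu v) T x with hJ
      set s := SS (wg (cu v) e k) (min T (χ x / (2 * M))) x with hs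
      set X4 := χ x ^ 4 with hX4
      have hX40 : 0 ≤ X4 := by positivity
      have hX41 : X4 ≤ 1 := pow_le_one₀ h0.le (h.χ1 x)
      set z := 4 * K ^ 2 * vU ^ 2 * T ^ 2 with hz
      have hz0 : 0 ≤ z := by positivity
      have h5 : q ^ 2 ≤ 18 * BB ^ 2 * (δ ^ 2 * J ^ 2 + z) := by
        have g1 : q ^ 2 ≤ (3 * BB * (δ * J + 2 * K * vU * T)) ^ 2 := by
          rw [← sq_abs q]
          exact pow_le_pow_left₀ (abs_nonneg _) h3 2
        have g2 : (δ * J + 2 * K * vU * T) ^ 2 ≤ 2 * (δ ^ 2 * J ^ 2 + z) := by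
          have g3 : (2 * K * vU * T) ^ 2 = z := by rw [hz]; ring
          nlinarith [sq_nonneg (δ * J - 2 * K * vU * T)]
        calc q ^ 2 ≤ (3 * BB * (δ * J + 2 * K * vU * T)) ^ 2 := g1
          _ = 9 * BB ^ 2 * (δ * J + 2 * K * vU * T) ^ 2 := by ring
          _ ≤ 9 * BB ^ 2 * (2 * (δ ^ 2 * J ^ 2 + z)) :=
              mul_le_mul_of_nonneg_left g2 (by positivity)
          _ = _ := by ring
      have h6 : X4 * (a ^ 2 * q ^ 2) ≤ 18 * BB ^ 2 * (δ ^ 2 * (X4 * (a * J) ^ 2)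
          + z * a ^ 2) := by
        have g1 : X4 * (a ^ 2 * q ^ 2) ≤ X4 * (a ^ 2 * (18 * BB ^ 2
            * (δ ^ 2 * J ^ 2 + z))) :=
          mul_le_mul_of_nonneg_left (mul_le_mul_of_nonneg_left h5 (by positivity)) hX40
        have g2 : X4 * a ^ 2 ≤ 1 * a ^ 2 := mul_le_mul_of_nonneg_right hX41 (by positivity)
        have g3 := mul_le_mul_of_nonneg_left g2 (by positivity : 0 ≤ 18 * BB ^ 2 * z)
        calc X4 * (a ^ 2 * q ^ 2) ≤ _ := g1
          _ = 18 * BB ^ 2 * (δ ^ 2 * (X4 * (a * J) ^ 2))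
              + 18 * BB ^ 2 * z * (X4 * a ^ 2) := by ring
          _ ≤ 18 * BB ^ 2 * (δ ^ 2 * (X4 * (a * J) ^ 2))
              + 18 * BB ^ 2 * z * (1 * a ^ 2) := by linarith
          _ = _ := by ring
      have h7 : X4 * (a * J) ^ 2 ≤ 4 * ((C1 + 1) ^ 2 * Λ * (X4 * a ^ 3)
          + C1 ^ 2 * Λ ^ 2 * (X4 * s) + (C1 ^ 2 * k ^ 2 * T ^ 2 + 4 * Λ ^ 2 * B0) * a ^ 2) := by
        have g1 := mul_le_mul_of_nonneg_left h2 hX40
        have g2 : X4 * a ^ 2 ≤ 1 * a ^ 2 := mul_le_mul_of_nonneg_right hX41 (by positivity)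
        have g3 := mul_le_mul_of_nonneg_left g2 (by positivity : 0 ≤ 4 * (C1 ^ 2 * k ^ 2 * T ^ 2))
        have g4 := mul_le_mul_of_nonneg_left h4 (by positivity : 0 ≤ 4 * (4 * Λ ^ 2))
        linarith
      have h8 := mul_le_mul_of_nonneg_left h7 (by positivity : 0 ≤ 18 * BB ^ 2 * δ ^ 2)
      have e2 : rsq (cu v x) = a ^ 2 := (en_sq _).symm
      rw [e2, hb1, hb2, hb3]
      rw [hz] at h6
      linarith
  have e1 : ∫ x in cube, (b1 * (χ x ^ 4 * en (cu v x) ^ 3)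
        + b2 * (χ x ^ 4 * SS (wg (cu v) e k) (min T (χ x / (2 * M))) x) + b3 * rsq (cu v x))
      = b1 * (∫ x in cube, χ x ^ 4 * en (cu v x) ^ 3)
        + b2 * (∫ x in cube, χ x ^ 4 * SS (wg (cu v) e k) (min T (χ x / (2 * M))) x)
        + b3 * ∫ x in cube, rsq (cu v x) := int_comb3 c3 cS cr _ _ _
  rw [e1] at h1
  have hW0 : 0 ≤ ∫ x in cube, rsq (cu v x) := integral_nonneg fun x => rsq_nonneg _
  have h2 := mul_le_mul_of_nonneg_left hQ2 hb20
  have h3 := mul_le_mul_of_nonneg_left hcub hb10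
  refine h1.trans ?_
  unfold AL BL CL
  rw [← hC1]
  set D := ∫ x in cube, χ x ^ 4 * G2 (cu v) x with hD
  set W := ∫ x in cube, rsq (cu v x) with hW
  set I3 := ∫ x in cube, χ x ^ 4 * en (cu v x) ^ 3 with hI3
  set IS := ∫ x in cube, χ x ^ 4 * SS (wg (cu v) e k) (min T (χ x / (2 * M))) x with hIS
  have h5 : b3 * W ≤ (72 * BB ^ 2 * (δ ^ 2 * Λ ^ 2) * (4 * B0)
      + 72 * BB ^ 2 * (C1 ^ 2 + vU ^ 2) * (k * T) ^ 2) * W := by
    refine mul_le_mul_of_nonneg_right ?_ hW0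
    have g1 : 72 * BB ^ 2 * δ ^ 2 * (C1 ^ 2 * k ^ 2 * T ^ 2)
        ≤ 72 * BB ^ 2 * 1 * (C1 ^ 2 * k ^ 2 * T ^ 2) :=
      mul_le_mul_of_nonneg_right (mul_le_mul_of_nonneg_left hδ2 (by positivity)) (by positivity)
    have g2 : K ^ 2 ≤ k ^ 2 := pow_le_pow_left₀ hK hKk 2
    have g3 : 72 * BB ^ 2 * K ^ 2 * vU ^ 2 * T ^ 2 ≤ 72 * BB ^ 2 * k ^ 2 * vU ^ 2 * T ^ 2 :=
      mul_le_mul_of_nonneg_right (mul_le_mul_of_nonneg_right
        (mul_le_mul_of_nonneg_left g2 (by positivity)) (by positivity)) (by positivity)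
    rw [hb3]
    linarith
  have h6 : b1 * (2000 * BB * Λ * CQ' * D + 6 * BB * Λ * B0 * W) + b2 * (CQ' * D)
      = (δ * Λ) ^ 2 * (72 * BB ^ 2 * ((C1 + 1) ^ 2 * (2000 * BB * CQ') + C1 ^ 2 * CQ')) * D
        + (δ * Λ) ^ 2 * (72 * BB ^ 2 * ((C1 + 1) ^ 2 * (6 * BB))) * B0 * W := by
    rw [hb1, hb2]; ring
  calc b1 * I3 + b2 * IS + b3 * W
      ≤ b1 * (2000 * BB * Λ * CQ' * D + 6 * BB * Λ * B0 * W) + b2 * (CQ' * D) + b3 * W := by
        linarith
    _ ≤ _ := by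
        rw [h6]
        linarith

end

end Pool.Agent.R210
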