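import Pool.Agent.R210.S3

/-!
The estimate of the production at a fixed time, for the line of the vorticity.
-/

open MeasureTheory Set Metric Filter Topology
open scoped ContDiff ENNReal
open H459R3.NS

namespace Pool.Agent.R210

theorem FS.toFTE {v : V → V} {χ : V → ℝ} {e : V} {Λ δ K T M : ℝ} (h : FS v χ e Λ δ K T M)
    {E0 : ℝ} (hE : ∫ x in cube, rsq (v x) ≤ E0 ^ 2) : FT v χ e Λ 2 0 T M E0 where
  spv := h.spv
  spχ := h.spχ
  χ0 := h.χ0
  χ1 := h.χ1
  lip := h.lip
  grad := h.grad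
  e1 := h.e1
  dv0 := h.dv0
  mor := h.mor
  uni := h.toFT.uni
  energy := hE

/-- The constant of the orthogonal part. -/
noncomputable def a2L (CQ' : ℝ) : ℝ := CQ' + (1 + 2 * BB) * (2000 * BB * CQ')

/-- The constant of the criterion. -/
noncomputable def c0L (CQ' : ℝ) : ℝ := 1 / (36 * a2L CQ' + 2592 * AL CQ' + 1)

theorem a2L_nonneg {C : ℝ} (hC : 0 ≤ C) : 0 ≤ a2L C := by
  have hBB := one_le_BB
  unfold a2L
  positivity

theorem AL_nonneg {C : ℝ} (hC : 0 ≤ C) : 0 ≤ AL C := by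
  have hBB := one_le_BB
  have hc8 := c8_pos
  unfold AL
  positivity

theorem BL_nonneg : 0 ≤ BL := by
  have hBB := one_le_BB
  have hc8 := c8_pos
  unfold BL
  positivity

theorem CL_nonneg : 0 ≤ CL := by
  have hBB := one_le_BB
  have hc8 := c8_pos
  unfold CL
  positivity

theorem statL : ∃ c0 : ℝ, 0 < c0 ∧ c0 ≤ 1 ∧ ∀ ε Λ δ : ℝ, 0 < ε → 0 < Λ → 0 ≤ δ → δ ≤ 1 / 8 →
    δ * Λ ≤ c0 * ε →
    ∀ K T M E0 : ℝ, 0 ≤ K → 0 < T → T ≤ 1 → 0 < M → ∃ C' : ℝ, 0 ≤ C' ∧
      ∀ (v : V → V) (χ : V → ℝ) (e : V), FS v χ e Λ δ K T M →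
        ∫ x in cube, rsq (v x) ≤ E0 ^ 2 →
        |Nw (fun x => χ x ^ 2 • cu v x) v| ≤ ε * (∫ x in cube, χ x ^ 4 * G2 (cu v) x)
          + C' * enstrophy v := by
  obtain ⟨CQ', hCQ', hL⟩ := lsqSS
  have hBB := one_le_BB
  have hBP := one_le_BP
  have hvU := vU_nonneg
  have hc8 := c8_pos
  have ha2 := a2L_nonneg hCQ'
  have hAL := AL_nonneg hCQ'
  have hBL := BL_nonneg
  have hCL := CL_nonneg
  set a2 := a2L CQ' with ha2d
  set A1 := AL CQ' with hA1
  set c0 : ℝ := 1 / (36 * a2 + 2592 * A1 + 1) with hc0d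
  have hden : 0 < 36 * a2 + 2592 * A1 + 1 := by positivity
  have hc00 : 0 < c0 := by positivity
  have hc0e : c0 * (36 * a2 + 2592 * A1 + 1) = 1 := by rw [hc0d]; field_simp
  have hc01 : c0 ≤ 1 := by
    have h1 : 0 ≤ c0 * (36 * a2 + 2592 * A1) := by positivity
    linarith
  have hc0a : 36 * (c0 * a2) ≤ 1 := by
    have h1 : 0 ≤ c0 * A1 := by positivity
    linarith
  have hc0A : 2592 * (c0 ^ 2 * A1) ≤ 1 := by
    have h1 : 0 ≤ c0 * a2 := by positivity
    have h2 : c0 ^ 2 * A1 ≤ c0 * A1 := by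
      refine mul_le_mul_of_nonneg_right ?_ hAL
      nlinarith
    linarith
  refine ⟨c0, hc00, hc01, fun ε Λ δ hε hΛ hδ0 hδ8 hδΛ K T M E0 hK hT hT1 hM => ?_⟩
  have hδΛ0 : 0 ≤ δ * Λ := by positivity
  have hδΛ2 : (δ * Λ) ^ 2 ≤ c0 ^ 2 * ε ^ 2 := by
    have := pow_le_pow_left₀ hδΛ0 hδΛ 2
    rwa [mul_pow c0 ε 2] at this
  set k : ℝ := K + 1 with hk
  have hk0 : 0 < k := by positivity
  have hKk : K ≤ k := by linarith
  set MT : ℝ := BP * Real.sqrt (vU * (T⁻¹ ^ 5 * (27 * E0 ^ 2))) with hMTd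
  have hMT0 : 0 ≤ MT := by positivity
  set B0 : ℝ := 1 / T ^ 2 + 4 * M ^ 2 with hB0
  have hB00 : 0 ≤ B0 := by positivity
  set A2 := Λ * CQ' + (1 + 2 * BB) * (2000 * BB * Λ * CQ') with hA2
  have hA20 : 0 ≤ A2 := by positivity
  have hA2e : A2 = Λ * a2 := by rw [hA2, ha2d]; unfold a2L; ring
  set B1 : ℝ := (δ * Λ) ^ 2 * BL * B0 + CL * (k * T) ^ 2 with hB1
  have hB10 : 0 ≤ B1 := by positivity
  set B2 : ℝ := MT + (1 + 2 * BB) * (6 * BB * Λ * B0) + 2 * BB * Λ * B0 with hB2
  have hB20 : 0 ≤ B2 := by positivity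
  have hδA2 : 9 * δ * A2 ≤ ε / 4 := by
    rw [hA2e]
    have h1 : δ * Λ * a2 ≤ c0 * ε * a2 := mul_le_mul_of_nonneg_right hδΛ ha2
    have h2 : 36 * (c0 * a2) * ε ≤ 1 * ε := mul_le_mul_of_nonneg_right hc0a hε.le
    linarith
  have hδA1 : 324 / ε * ((δ * Λ) ^ 2 * A1) ≤ ε / 8 := by
    have h1 : (δ * Λ) ^ 2 * A1 ≤ c0 ^ 2 * ε ^ 2 * A1 := mul_le_mul_of_nonneg_right hδΛ2 hAL
    have h2 : 324 / ε * ((δ * Λ) ^ 2 * A1) ≤ 324 / ε * (c0 ^ 2 * ε ^ 2 * A1) :=
      mul_le_mul_of_nonneg_left h1 (by positivity)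
    have h3 : 324 / ε * (c0 ^ 2 * ε ^ 2 * A1) = 324 * (c0 ^ 2 * A1) * ε := by
      field_simp
    have h4 : 2592 * (c0 ^ 2 * A1) * ε ≤ 1 * ε := mul_le_mul_of_nonneg_right hc0A hε.le
    linarith
  refine ⟨2 * (9 * MT + 324 / ε * B1 + 2 * ε / 9 * M ^ 2 + 9 * B2 + 9 * K) + K, by positivity,
    fun v χ e h hE => ?_⟩
  have hv := h.spv
  have hw := sp_cu hv
  have hQ := hL χ (cu v) M T h.spχ hw h.χ0 hM h.lip hT
  have hwg := sp_wg hw e hk0
  have hQ2 : ∫ x in cube, χ x ^ 4 * SS (wg (cu v) e k) (min T (χ x / (2 * M))) x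
      ≤ CQ' * ∫ x in cube, χ x ^ 4 * G2 (cu v) x := by
    refine (hL χ (wg (cu v) e k) M T h.spχ hwg h.χ0 hM h.lip hT).trans
      (mul_le_mul_of_nonneg_left ?_ hCQ')
    exact setIntegral_mono (integrableOn_cube ((h.spχ.cont.pow 4).mul (G2_cont hwg)))
      (integrableOn_cube ((h.spχ.cont.pow 4).mul (G2_cont hw))) fun x =>
      mul_le_mul_of_nonneg_left (G2_wg_le hw e h.e1 hk0 x) (pow_nonneg (h.χ0 x) 4)
  have hMTv : ∀ x i j, |mo phi T (pd i (fun y => v y j)) x| ≤ MT := by
    intro x i j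
    refine mo_pd_energy (hv j) hT hT1 ?_ i x
    refine le_trans ?_ hE
    exact setIntegral_mono (integrableOn_cube ((hv j).cont.pow 2)) (sp_rsqG hv).int fun x =>
      sq_le_rsq (v x) j
  set g : V → ℝ := ce v e with hg
  have hgs : SP g := sp_ce hv e
  set P : V → ℝ := mo phi T g with hP
  have hPs : SP P := sp_mo phi_smooth.continuous phi_compact hgs T
  set q : V → ℝ := fun x => g x - P x with hq
  have hqs : SP q := hgs.sub hPs
  set α : V → ℝ := ce (cu v) e with hα
  have hαs : SP α := sp_ce hw e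
  set F : V → ℝ := fun x => χ x ^ 4 * α x with hF
  have hχ4 : SP fun x => χ x ^ 4 := by
    have : (fun x => χ x ^ 4) = fun x => (χ x * χ x) * (χ x * χ x) := by funext x; ring
    rw [this]
    exact (h.spχ.mul h.spχ).mul (h.spχ.mul h.spχ)
  have hFs : SP F := hχ4.mul hαs
  have hPle : ∀ i x, |pd i P x| ≤ MT := by
    intro i x
    rw [hP, pd_mo phi_smooth.continuous phi_compact hgs]
    refine mo_pd_energy hgs hT hT1 ?_ i x
    refine le_trans ?_ hE
    refine setIntegral_mono (integrableOn_cube (hgs.cont.pow 2)) (sp_rsqG hv).int fun x => ?_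
    have h1 := abs_dot_le e (v x) h.e1
    have h2 : g x = ∑ i, e i * v x i := rfl
    simp only
    rw [h2, ← sq_abs, ← en_sq]
    exact pow_le_pow_left₀ (abs_nonneg _) h1 2
  have hα_le : ∀ x, |α x| ≤ en (cu v x) := fun x => abs_dot_le e (cu v x) h.e1
  have hpdχ : ∀ i x, pd i (fun x => χ x ^ 4) x = 4 * χ x ^ 3 * pd i χ x := by
    intro i x
    have e1 : (fun x => χ x ^ 4) = fun x => (χ x * χ x) * (χ x * χ x) := by funext x; ring
    rw [e1, pd_mul (h.spχ.mul h.spχ) (h.spχ.mul h.spχ), pd_mul h.spχ h.spχ]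
    ring
  -- the integrals
  set D := ∫ x in cube, χ x ^ 4 * G2 (cu v) x with hD
  set W := ∫ x in cube, rsq (cu v x) with hW
  set Z := ∫ x in cube, χ x ^ 4 * (rsq (cu v x) * q x ^ 2) with hZ
  have hD0 : 0 ≤ D := integral_nonneg fun x => mul_nonneg (pow_nonneg (h.χ0 x) 4) (G2_nonneg _ _)
  have hW0 : 0 ≤ W := integral_nonneg fun x => rsq_nonneg _
  have hens0 := enstrophy_nonneg v
  have hW2 : W ≤ 2 * enstrophy v := int_rsq_cu hv
  have hZle : Z ≤ (δ * Λ) ^ 2 * A1 * D + B1 * W :=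
    h.potI hΛ hδ0 hδ8 hK hk0 hKk hT hT1 hM hQ hQ2
  have hGle : ∀ i j, ∫ x in cube, χ x ^ 4 * (rsq (cu v x) * |pd i (fun y => v y j) x|)
      ≤ A2 * D + B2 * W := fun i j => (h.toFTE hE).gradI hΛ hT hM hQ hMTv i j
  -- continuity
  have cr : Continuous fun x => rsq (cu v x) := (sp_rsqG hw).cont
  have cG : Continuous fun x => χ x ^ 4 * G2 (cu v) x := hχ4.cont.mul (G2_cont hw)
  have cZ : Continuous fun x => χ x ^ 4 * (rsq (cu v x) * q x ^ 2) :=
    hχ4.cont.mul (cr.mul (hqs.cont.pow 2))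
  have cg : ∀ i j, Continuous fun x => χ x ^ 4 * (rsq (cu v x) * |pd i (fun y => v y j) x|) :=
    fun i j => hχ4.cont.mul (cr.mul ((hv j).pd i).cont.abs)
  have cA : Continuous fun x => F x * ∑ i, cu v x i * pd i P x :=
    hFs.cont.mul (continuous_finsetSum _ fun i _ => (hw i).cont.mul (hPs.pd i).cont)
  have cB : Continuous fun x => F x * ∑ i, cu v x i * pd i q x :=
    hFs.cont.mul (continuous_finsetSum _ fun i _ => (hw i).cont.mul (hqs.pd i).cont)
  have cC : Continuous fun x => χ x ^ 4 * ∑ i, ∑ j, cu v x i * ((cu v x j - α x * e j)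
      * pd i (fun y => v y j) x) :=
    hχ4.cont.mul (continuous_finsetSum _ fun i _ => continuous_finsetSum _ fun j _ =>
      (hw i).cont.mul (((hw j).cont.sub (hαs.cont.mul continuous_const)).mul
        ((hv j).pd i).cont))
  -- the decomposition
  have hdec : Nw (fun x => χ x ^ 2 • cu v x) v
      = 1 * (∫ x in cube, F x * ∑ i, cu v x i * pd i P x)
        + 1 * (∫ x in cube, F x * ∑ i, cu v x i * pd i q x)
        + 1 * ∫ x in cube, χ x ^ 4 * ∑ i, ∑ j, cu v x i * ((cu v x j - α x * e j)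
          * pd i (fun y => v y j) x) := by
    rw [← int_comb3 cA cB cC]
    unfold Nw
    congr 1
    funext x
    have e1 : ∀ i, pd i q x = (∑ j, e j * pd i (fun y => v y j) x) - pd i P x := by
      intro i
      rw [← pd_ce hv e i x]
      exact pd_sub' hgs hPs i x
    simp_rw [e1, hF]
    rw [Fin.sum_univ_three, Fin.sum_univ_three, Fin.sum_univ_three, Fin.sum_univ_three]
    simp only [Fin.sum_univ_three, Pi.smul_apply, smul_eq_mul]
    ring
  -- the smooth part
  have hAle : |∫ x in cube, F x * ∑ i, cu v x i * pd i P x| ≤ 3 * MT * W := by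
    refine abs_integral_le_integral_abs.trans ?_
    rw [hW, ← integral_const_mul]
    refine setIntegral_mono (integrableOn_cube cA.abs)
      (integrableOn_cube (continuous_const.mul cr)) fun x => ?_
    simp only
    rw [abs_mul]
    set a := en (cu v x) with ha
    have ha0 : 0 ≤ a := en_nonneg _
    have h1 : |F x| ≤ a := by
      rw [hF]
      simp only
      rw [abs_mul, abs_of_nonneg (pow_nonneg (h.χ0 x) 4)]
      calc χ x ^ 4 * |α x| ≤ 1 * a := mul_le_mul (pow_le_one₀ (h.χ0 x) (h.χ1 x)) (hα_le x)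
            (abs_nonneg _) zero_le_one
        _ = a := one_mul _
    have h2 : ∀ i, |cu v x i * pd i P x| ≤ a * MT := by
      intro i
      rw [abs_mul]
      exact mul_le_mul (abs_le_en _ i) (hPle i x) (abs_nonneg _) ha0
    have h3 : |∑ i, cu v x i * pd i P x| ≤ 3 * (a * MT) := by
      refine (Finset.abs_sum_le_sum_abs _ _).trans ?_
      rw [Fin.sum_univ_three]
      have := h2 0
      have := h2 1
      have := h2 2
      linarith
    calc |F x| * |∑ i, cu v x i * pd i P x| ≤ a * (3 * (a * MT)) :=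
          mul_le_mul h1 h3 (abs_nonneg _) ha0
      _ = 3 * MT * a ^ 2 := by ring
      _ = _ := by rw [ha, en_sq]
  -- the rough part
  have hBle : |∫ x in cube, F x * ∑ i, cu v x i * pd i q x|
      ≤ ε / 8 * D + 324 / ε * Z + 2 * ε / 9 * M ^ 2 * W := by
    rw [ibp_div hw (dv_cu hv) hFs hqs, abs_neg]
    refine abs_integral_le_integral_abs.trans ?_
    rw [hD, hZ, hW, ← int_comb3 cG cZ cr]
    have cN : Continuous fun x => (∑ i, cu v x i * pd i F x) * q x :=
      (continuous_finsetSum _ fun i _ => (hw i).cont.mul (hFs.pd i).cont).mul hqs.cont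
    refine setIntegral_mono (integrableOn_cube cN.abs) (integrableOn_cube
      (((continuous_const.mul cG).add (continuous_const.mul cZ)).add
        (continuous_const.mul cr))) fun x => ?_
    simp only
    set a := en (cu v x) with ha
    have ha0 : 0 ≤ a := en_nonneg _
    set s := Real.sqrt (G2 (cu v) x) with hs
    have hs0 : 0 ≤ s := Real.sqrt_nonneg _
    have hs2 : s ^ 2 = G2 (cu v) x := Real.sq_sqrt (G2_nonneg _ _)
    set X := χ x with hX
    have hX0 : 0 ≤ X := h.χ0 x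
    have hX1 : X ≤ 1 := h.χ1 x
    have h1 : ∀ i, |pd i α x| ≤ 3 * s := by
      intro i
      rw [hα, pd_ce hw]
      refine (Finset.abs_sum_le_sum_abs _ _).trans ?_
      have h2 : ∀ j, |e j * pd i (fun y => cu v y j) x| ≤ s := by
        intro j
        rw [abs_mul]
        have h8 : |e j| ≤ 1 := by rw [← h.e1]; exact abs_le_en e j
        calc |e j| * |pd i (fun y => cu v y j) x| ≤ 1 * s :=
              mul_le_mul h8 (abs_pd_le (cu v) i j x) (abs_nonneg _) zero_le_one
          _ = s := one_mul _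
      rw [Fin.sum_univ_three]
      have := h2 0
      have := h2 1
      have := h2 2
      linarith
    have h2 : ∀ i, |pd i F x| ≤ 3 * X ^ 4 * s + 4 * M * X ^ 3 * a := by
      intro i
      have e1 : pd i F x = X ^ 4 * pd i α x + 4 * X ^ 3 * pd i χ x * α x := by
        rw [hF, pd_mul hχ4 hαs, hpdχ]
      rw [e1]
      refine (abs_add_le _ _).trans (add_le_add ?_ ?_)
      · rw [abs_mul, abs_of_nonneg (pow_nonneg hX0 4)]
        have := mul_le_mul_of_nonneg_left (h1 i) (pow_nonneg hX0 4)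
        linarith
      · rw [abs_mul, abs_mul, abs_of_nonneg (by positivity : 0 ≤ 4 * X ^ 3)]
        have g1 := h.grad x i
        have g2 := hα_le x
        calc 4 * X ^ 3 * |pd i χ x| * |α x| ≤ 4 * X ^ 3 * M * a :=
              mul_le_mul (mul_le_mul_of_nonneg_left g1 (by positivity)) g2 (abs_nonneg _)
                (by positivity)
          _ = _ := by ring
    have h3 : |∑ i, cu v x i * pd i F x| ≤ 3 * (a * (3 * X ^ 4 * s + 4 * M * X ^ 3 * a)) := by
      refine (Finset.abs_sum_le_sum_abs _ _).trans ?_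
      have h4 : ∀ i, |cu v x i * pd i F x| ≤ a * (3 * X ^ 4 * s + 4 * M * X ^ 3 * a) := by
        intro i
        rw [abs_mul]
        exact mul_le_mul (abs_le_en _ i) (h2 i) (abs_nonneg _) ha0
      rw [Fin.sum_univ_three]
      have := h4 0
      have := h4 1
      have := h4 2
      linarith
    rw [abs_mul]
    set b := |q x| with hb
    have hb0 : 0 ≤ b := abs_nonneg _
    have hb2 : b ^ 2 = q x ^ 2 := sq_abs _
    have hX3 : X ^ 3 ≤ X ^ 2 := by
      calc X ^ 3 = X * X ^ 2 := by ring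
        _ ≤ 1 * X ^ 2 := mul_le_mul_of_nonneg_right hX1 (by positivity)
        _ = _ := one_mul _
    have h4 : 3 * (a * (3 * X ^ 4 * s + 4 * M * X ^ 3 * a)) * b
        ≤ 9 * ((X ^ 2 * s) * (X ^ 2 * a * b)) + 12 * M * (a * (X ^ 2 * a * b)) := by
      have g1 : 12 * M * (a * (X ^ 3 * a * b)) ≤ 12 * M * (a * (X ^ 2 * a * b)) := by
        have g2 : X ^ 3 * a * b ≤ X ^ 2 * a * b :=
          mul_le_mul_of_nonneg_right (mul_le_mul_of_nonneg_right hX3 ha0) hb0
        exact mul_le_mul_of_nonneg_left (mul_le_mul_of_nonneg_left g2 ha0) (by positivity)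
      calc 3 * (a * (3 * X ^ 4 * s + 4 * M * X ^ 3 * a)) * b
          = 9 * ((X ^ 2 * s) * (X ^ 2 * a * b)) + 12 * M * (a * (X ^ 3 * a * b)) := by ring
        _ ≤ _ := by linarith
    have h5 : 9 * ((X ^ 2 * s) * (X ^ 2 * a * b)) ≤ ε / 8 * (X ^ 2 * s) ^ 2
        + 162 / ε * (X ^ 2 * a * b) ^ 2 := by
      have g1 : ε / 8 * (X ^ 2 * s) ^ 2 + 162 / ε * (X ^ 2 * a * b) ^ 2
          - 9 * ((X ^ 2 * s) * (X ^ 2 * a * b))
          = (ε * (X ^ 2 * s) - 36 * (X ^ 2 * a * b)) ^ 2 / (8 * ε) := by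
        field_simp
        ring
      have g2 : 0 ≤ (ε * (X ^ 2 * s) - 36 * (X ^ 2 * a * b)) ^ 2 / (8 * ε) := by positivity
      linarith
    have h6 : 12 * M * (a * (X ^ 2 * a * b)) ≤ 2 * ε / 9 * M ^ 2 * a ^ 2
        + 162 / ε * (X ^ 2 * a * b) ^ 2 := by
      have g1 : 2 * ε / 9 * M ^ 2 * a ^ 2 + 162 / ε * (X ^ 2 * a * b) ^ 2
          - 12 * M * (a * (X ^ 2 * a * b))
          = 2 * (ε * (M * a) - 27 * (X ^ 2 * a * b)) ^ 2 / (9 * ε) := by
        field_simp
        ring
      have g2 : 0 ≤ 2 * (ε * (M * a) - 27 * (X ^ 2 * a * b)) ^ 2 / (9 * ε) := by positivity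
      linarith
    have e1 : (X ^ 2 * s) ^ 2 = X ^ 4 * G2 (cu v) x := by rw [mul_pow, hs2]; ring
    have e2 : (X ^ 2 * a * b) ^ 2 = X ^ 4 * (rsq (cu v x) * q x ^ 2) := by
      rw [mul_pow, mul_pow, hb2, ha, en_sq]; ring
    have e3 : a ^ 2 = rsq (cu v x) := en_sq _
    rw [e1, e2] at h5
    rw [e2, e3] at h6
    have h7 := mul_le_mul_of_nonneg_right h3 hb0
    have h8 : 324 / ε * (X ^ 4 * (rsq (cu v x) * q x ^ 2))
        = 162 / ε * (X ^ 4 * (rsq (cu v x) * q x ^ 2))
          + 162 / ε * (X ^ 4 * (rsq (cu v x) * q x ^ 2)) := by ring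
    linarith
  -- the orthogonal part
  have hCle : |∫ x in cube, χ x ^ 4 * ∑ i, ∑ j, cu v x i * ((cu v x j - α x * e j)
      * pd i (fun y => v y j) x)| ≤ 9 * δ * (A2 * D + B2 * W) + 9 * K * W + K * enstrophy v := by
    refine abs_integral_le_integral_abs.trans ?_
    have cS : Continuous fun x => ∑ i, ∑ j, χ x ^ 4 * (rsq (cu v x) * |pd i (fun y => v y j) x|) :=
      continuous_finsetSum _ fun i _ => continuous_finsetSum _ fun j _ => cg i j
    have cV : Continuous fun x => G2 v x := G2_cont hv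
    have h1 : ∫ x in cube, |χ x ^ 4 * ∑ i, ∑ j, cu v x i * ((cu v x j - α x * e j)
        * pd i (fun y => v y j) x)|
        ≤ ∫ x in cube, (δ * (∑ i, ∑ j, χ x ^ 4 * (rsq (cu v x) * |pd i (fun y => v y j) x|))
          + (9 * K) * rsq (cu v x) + K * G2 v x) := by
      refine setIntegral_mono (integrableOn_cube cC.abs) (integrableOn_cube
        (((continuous_const.mul cS).add (continuous_const.mul cr)).add
          (continuous_const.mul cV))) fun x => ?_
      simp only
      rcases (h.χ0 x).eq_or_lt with h0 | h0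
      · rw [← h0]
        have g1 := rsq_nonneg (cu v x)
        have g2 := G2_nonneg v x
        simp only [ne_eq, OfNat.ofNat_ne_zero, not_false_eq_true, zero_pow, zero_mul, abs_zero,
          Finset.sum_const_zero, mul_zero, zero_add]
        positivity
      · set a := en (cu v x) with ha
        have ha0 : 0 ≤ a := en_nonneg _
        have haa : rsq (cu v x) = a ^ 2 := (en_sq _).symm
        have hX40 : 0 ≤ χ x ^ 4 := by positivity
        have hX41 : χ x ^ 4 ≤ 1 := pow_le_one₀ h0.le (h.χ1 x)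
        have hself : x ∈ eb x (2 * T) := by
          show rsq (x - x) < (2 * T) ^ 2
          rw [sub_self]
          have : rsq (0 : V) = 0 := by simp [rsq]
          rw [this]; positivity
        have h2 : ∀ j, |cu v x j - α x * e j| ≤ δ * a + 2 * K := fun j =>
          (orth_leL e (cu v x) h.e1 j).trans (h.lin x h0.ne' x hself)
        have h3 : ∀ i j, χ x ^ 4 * |cu v x i * ((cu v x j - α x * e j) * pd i (fun y => v y j) x)|
            ≤ δ * (χ x ^ 4 * (a ^ 2 * |pd i (fun y => v y j) x|)) + K * a ^ 2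
              + K * pd i (fun y => v y j) x ^ 2 := by
          intro i j
          set p := |pd i (fun y => v y j) x| with hp
          have hp0 : 0 ≤ p := abs_nonneg _
          have hp2 : pd i (fun y => v y j) x ^ 2 = p ^ 2 := (sq_abs _).symm
          have g1 : |cu v x i * ((cu v x j - α x * e j) * pd i (fun y => v y j) x)|
              ≤ a * ((δ * a + 2 * K) * p) := by
            rw [abs_mul, abs_mul]
            exact mul_le_mul (abs_le_en _ i) (mul_le_mul_of_nonneg_right (h2 j) hp0)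
              (by positivity) ha0
          have g2 := mul_le_mul_of_nonneg_left g1 hX40
          have g3 : χ x ^ 4 * (2 * K * (a * p)) ≤ 1 * (2 * K * (a * p)) :=
            mul_le_mul_of_nonneg_right hX41 (by positivity)
          have g4 : 2 * K * (a * p) ≤ K * a ^ 2 + K * p ^ 2 := by
            have := mul_nonneg hK (sq_nonneg (a - p))
            linarith
          rw [hp2]
          linarith
        rw [abs_mul, abs_of_nonneg hX40, haa]
        have h4 : |∑ i, ∑ j, cu v x i * ((cu v x j - α x * e j) * pd i (fun y => v y j) x)|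
            ≤ ∑ i, ∑ j, |cu v x i * ((cu v x j - α x * e j) * pd i (fun y => v y j) x)| :=
          (Finset.abs_sum_le_sum_abs _ _).trans
            (Finset.sum_le_sum fun i _ => Finset.abs_sum_le_sum_abs _ _)
        refine (mul_le_mul_of_nonneg_left h4 hX40).trans ?_
        have e1 : G2 v x = ∑ i, ∑ j, pd i (fun y => v y j) x ^ 2 := by
          unfold G2 gr2
          exact Finset.sum_comm
        rw [e1]
        simp only [Fin.sum_univ_three]
        have := h3 0 0
        have := h3 0 1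
        have := h3 0 2
        have := h3 1 0
        have := h3 1 1
        have := h3 1 2
        have := h3 2 0
        have := h3 2 1
        have := h3 2 2
        linarith
    rw [int_comb3 cS cr cV, int_G2_enst hv] at h1
    have h2 : ∫ x in cube, ∑ i, ∑ j, χ x ^ 4 * (rsq (cu v x) * |pd i (fun y => v y j) x|)
        ≤ 9 * (A2 * D + B2 * W) := by
      rw [integral_finsetSum _ fun i _ => integrable_finsetSum _ fun j _ =>
        integrableOn_cube (cg i j)]
      simp_rw [fun i => integral_finsetSum (μ := volume.restrict cube) Finset.univ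
        (fun j _ => integrableOn_cube (cg i j))]
      simp only [Fin.sum_univ_three]
      have := hGle 0 0
      have := hGle 0 1
      have := hGle 0 2
      have := hGle 1 0
      have := hGle 1 1
      have := hGle 1 2
      have := hGle 2 0
      have := hGle 2 1
      have := hGle 2 2
      linarith
    have h3 := mul_le_mul_of_nonneg_left h2 hδ0
    linarith
  -- the combination
  rw [hdec, one_mul, one_mul, one_mul]
  have t1 := abs_add_three (∫ x in cube, F x * ∑ i, cu v x i * pd i P x)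
    (∫ x in cube, F x * ∑ i, cu v x i * pd i q x)
    (∫ x in cube, χ x ^ 4 * ∑ i, ∑ j, cu v x i * ((cu v x j - α x * e j)
          * pd i (fun y => v y j) x))
  have u1 : 324 / ε * Z ≤ 324 / ε * ((δ * Λ) ^ 2 * A1) * D + 324 / ε * B1 * W := by
    have := mul_le_mul_of_nonneg_left hZle (by positivity : 0 ≤ 324 / ε)
    linarith
  have u2 : 324 / ε * ((δ * Λ) ^ 2 * A1) * D ≤ ε / 8 * D := mul_le_mul_of_nonneg_right hδA1 hD0
  have u3 : 9 * δ * A2 * D ≤ ε / 4 * D := mul_le_mul_of_nonneg_right hδA2 hD0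
  have u4 : 9 * δ * (B2 * W) ≤ 9 * B2 * W := by
    have : 0 ≤ B2 * W := mul_nonneg hB20 hW0
    nlinarith
  have u5 : 0 ≤ ε * D := by positivity
  set CW : ℝ := 9 * MT + 324 / ε * B1 + 2 * ε / 9 * M ^ 2 + 9 * B2 + 9 * K with hCW
  have hCW0 : 0 ≤ CW := by positivity
  have u6 : CW * W ≤ CW * (2 * enstrophy v) := mul_le_mul_of_nonneg_left hW2 hCW0
  have u7 : CW * W = 9 * MT * W + 324 / ε * B1 * W + 2 * ε / 9 * M ^ 2 * W + 9 * B2 * W
      + 9 * K * W := by rw [hCW]; ring
  have u8 : 0 ≤ MT * W := mul_nonneg hMT0 hW0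
  refine t1.trans ?_
  linarith

end Pool.Agent.R210
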