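import Pool.Agent.R210.S4
import Pool.Agent.R210.Q10

/-!
The differential inequality for a line of the vorticity with small oscillation.
-/

open MeasureTheory Set Metric Filter Topology
open scoped ContDiff ENNReal
open H459R3.NS

namespace Pool.Agent.R210

theorem diffL : ∃ c0 : ℝ, 0 < c0 ∧ c0 ≤ 1 ∧ ∀ ν Λ δ : ℝ, 0 < ν → 0 < Λ → 0 ≤ δ → δ ≤ 1 / 8 →
    δ * Λ ≤ c0 * ν → ∀ K T M E0 F : ℝ, 0 ≤ K → 0 < T → T ≤ 1 → 0 < M → 0 ≤ F → ∃ C : ℝ, 0 ≤ C ∧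
      ∀ (v g : V → V) (χ : V → ℝ) (e : V), (∀ i, SP (fun x => g x i)) →
        FS v χ e Λ δ K T M → ∫ x in cube, rsq (v x) ≤ E0 ^ 2 → (∀ x, gr2 χ x ≤ M ^ 2) →
        (∀ x, χ x ≠ 0 → rsq (cu g x) ≤ F) →
        JJ ν (fun x => χ x ^ 2) v g
          ≤ C * (1 + enstrophy v) * (1 + ∫ x in cube, (χ x ^ 2) ^ 2 * rsq (cu v x)) := by
  obtain ⟨c0, hc0, hc01, hst0⟩ := statL
  refine ⟨c0 / 4, by positivity, by linarith,
    fun ν Λ δ hν hΛ hδ0 hδ8 hδΛ K T M E0 F hK hT hT1 hM0' hF0 => ?_⟩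
  obtain ⟨C1, hC1, hst⟩ := hst0 (ν / 4) Λ δ (by positivity) hΛ hδ0 hδ8 (by linarith)
    K T M E0 hK hT hT1 hM0'
  have hM0 := hM0'.le
  have hε2 : 0 < ν / (32 * (M + 1)) := by positivity
  obtain ⟨C2, hC2, htr⟩ := transp hε2
  refine ⟨34 * ν * M ^ 2 + ν / 8 + 4 * M * C2 * (1 + E0 ^ 2) + 2 * C1 + 1 + F, by positivity, ?_⟩
  intro v g χ e hg h hEn hM hgF
  have hv := h.spv
  have hχ := h.spχ
  have hφ : SP fun x => χ x ^ 2 := sp_sq hχ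
  have hφ2 : SP fun x => (χ x ^ 2) ^ 2 := sp_sq hφ
  have hom := sp_cu hv
  have hself : ∀ x : V, x ∈ eb x T := fun x => by
    show rsq (x - x) < T ^ 2
    rw [sub_self]
    have : rsq (0 : V) = 0 := by simp [rsq]
    rw [this]; positivity
  have hM1 : ∀ x, gr2 (fun x => χ x ^ 2) x ≤ 4 * M ^ 2 := by
    intro x
    have b1 : gr2 (fun x => χ x ^ 2) x = 4 * (χ x ^ 2 * gr2 χ x) := by
      unfold gr2
      simp_rw [pd_sq hχ, Fin.sum_univ_three]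
      ring
    rw [b1]
    have b2 : χ x ^ 2 ≤ 1 := pow_le_one₀ (h.χ0 x) (h.χ1 x)
    have b3 := gr2_nonneg χ x
    have b4 := hM x
    nlinarith [sq_nonneg (χ x)]
  have hJ := JJ_le hν hχ h.χ0 h.χ1 hM hM0 hv hg (fun x hx => h.dv0 x hx x (hself x)) hgF hF0
  have hS := hst v χ e h hEn
  have hT := htr v χ hv hχ h.χ0
  have hrs : ∫ x in cube, rsq (χ x ^ 2 • cu v x) = ∫ x in cube, (χ x ^ 2) ^ 2 * rsq (cu v x) := by
    simp_rw [rsq_smul]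
  have hDD : ∫ x in cube, χ x ^ 4 * G2 (cu v) x = ∫ x in cube, (χ x ^ 2) ^ 2 * G2 (cu v) x := by
    congr 1; funext x; ring
  rw [hrs] at hT
  rw [hDD] at hS
  set D := ∫ x in cube, (χ x ^ 2) ^ 2 * G2 (cu v) x with hD
  set y := ∫ x in cube, (χ x ^ 2) ^ 2 * rsq (cu v x) with hy
  set T3 := ∫ x in cube, en (v x) * (χ x ^ 3 * rsq (cu v x)) with hT3
  set e' := enstrophy v with he
  set N := Nw (fun x => χ x ^ 2 • cu v x) v with hN
  have hD0 : 0 ≤ D := integral_nonneg fun x => mul_nonneg (sq_nonneg _) (G2_nonneg _ _)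
  have hy0 : 0 ≤ y := integral_nonneg fun x => mul_nonneg (sq_nonneg _) (rsq_nonneg _)
  have he0 : 0 ≤ e' := enstrophy_nonneg v
  have hGle : ∫ x in cube, G2 (fun x => χ x ^ 2 • cu v x) x ≤ 2 * D + 16 * M ^ 2 * e' := by
    have a1 : ∫ x in cube, G2 (fun x => χ x ^ 2 • cu v x) x
        ≤ ∫ x in cube, (2 * ((χ x ^ 2) ^ 2 * G2 (cu v) x) + 8 * M ^ 2 * rsq (cu v x)) := by
      refine setIntegral_mono (sp_G2 (sp_fw hφ hom)).int
        (((hφ2.mul (sp_G2 hom)).int.const_mul 2).add ((sp_rsqG hom).int.const_mul _)) fun x => ?_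
      refine (G2_fw hφ hom x).trans ?_
      have := mul_le_mul_of_nonneg_right (hM1 x) (rsq_nonneg (cu v x))
      beta_reduce
      linarith
    have a2 : ∫ x in cube, (2 * ((χ x ^ 2) ^ 2 * G2 (cu v) x) + 8 * M ^ 2 * rsq (cu v x))
        = 2 * D + 8 * M ^ 2 * ∫ x in cube, rsq (cu v x) := by
      rw [integral_add ((hφ2.mul (sp_G2 hom)).int.const_mul 2) ((sp_rsqG hom).int.const_mul _),
        integral_const_mul, integral_const_mul]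
    have a3 := mul_le_mul_of_nonneg_left (int_rsq_cu hv) (by positivity : 0 ≤ 8 * M ^ 2)
    rw [a2] at a1
    linarith
  have hE2 : ∫ x in cube, rsq (v x) ≤ E0 ^ 2 := hEn
  have hT' : T3 ≤ ν / (32 * (M + 1)) * (2 * D + 16 * M ^ 2 * e' + y)
      + C2 * ((e' + E0 ^ 2) * (1 + y)) := by
    refine hT.trans (add_le_add (mul_le_mul_of_nonneg_left (by linarith) hε2.le)
      (mul_le_mul_of_nonneg_left (mul_le_mul_of_nonneg_right (by linarith) (by linarith)) hC2))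
  have hq : 4 * M * (ν / (32 * (M + 1))) ≤ ν / 8 := by
    rw [← mul_div_assoc, div_le_div_iff₀ (by positivity) (by norm_num)]
    nlinarith
  have hT'' : 4 * M * T3 ≤ ν / 8 * (2 * D + 16 * M ^ 2 * e' + y)
      + 4 * M * C2 * ((e' + E0 ^ 2) * (1 + y)) := by
    have a1 := mul_le_mul_of_nonneg_left hT' (by positivity : 0 ≤ 4 * M)
    have a2 : 0 ≤ 2 * D + 16 * M ^ 2 * e' + y := by positivity
    have a3 := mul_le_mul_of_nonneg_right hq a2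
    calc 4 * M * T3 ≤ _ := a1
      _ = 4 * M * (ν / (32 * (M + 1))) * (2 * D + 16 * M ^ 2 * e' + y)
          + 4 * M * C2 * ((e' + E0 ^ 2) * (1 + y)) := by ring
      _ ≤ _ := by linarith
  have hN' : 2 * N ≤ ν / 2 * D + 2 * C1 * e' := by
    have := (le_abs_self N).trans hS
    linarith
  set Q := (1 + e') * (1 + y) with hQ
  have q1 : e' ≤ Q := by rw [hQ]; nlinarith [mul_nonneg he0 hy0]
  have q2 : y ≤ Q := by rw [hQ]; nlinarith [mul_nonneg he0 hy0]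
  have q3 : 1 ≤ Q := by rw [hQ]; nlinarith [mul_nonneg he0 hy0]
  have q4 : (e' + E0 ^ 2) * (1 + y) ≤ (1 + E0 ^ 2) * Q := by
    rw [hQ]
    have : e' + E0 ^ 2 ≤ (1 + E0 ^ 2) * (1 + e') := by nlinarith [sq_nonneg E0]
    calc (e' + E0 ^ 2) * (1 + y) ≤ (1 + E0 ^ 2) * (1 + e') * (1 + y) :=
          mul_le_mul_of_nonneg_right this (by linarith)
      _ = _ := by ring
  have r1 : 34 * ν * M ^ 2 * e' ≤ 34 * ν * M ^ 2 * Q :=
    mul_le_mul_of_nonneg_left q1 (by positivity)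
  have r2 : ν / 8 * y ≤ ν / 8 * Q := mul_le_mul_of_nonneg_left q2 (by positivity)
  have r3 : 4 * M * C2 * ((e' + E0 ^ 2) * (1 + y)) ≤ 4 * M * C2 * ((1 + E0 ^ 2) * Q) :=
    mul_le_mul_of_nonneg_left q4 (by positivity)
  have r4 : 2 * C1 * e' ≤ 2 * C1 * Q := mul_le_mul_of_nonneg_left q1 (by positivity)
  have r5 : F ≤ F * Q := le_mul_of_one_le_right hF0 q3
  have r6 : 0 ≤ ν * D := by positivity
  calc JJ ν (fun x => χ x ^ 2) v g
      ≤ (34 * ν * M ^ 2 + ν / 8 + 4 * M * C2 * (1 + E0 ^ 2) + 2 * C1 + 1 + F) * Q := by linarith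
    _ = _ := by rw [hQ]; ring

/-- The bound of the localized enstrophy up to the final time. -/
theorem boundL : ∃ c0 : ℝ, 0 < c0 ∧ c0 ≤ 1 ∧
    ∀ {ν Λ δ E0 R1 : ℝ} (_ : 0 < ν) (_ : 0 < Λ) (_ : 0 ≤ δ) (_ : δ ≤ 1 / 8)
      (_ : δ * Λ ≤ c0 * ν) (_ : 0 < R1) (_ : R1 ≤ 1) {T : ℝ} {u : ℝ → V → V} {p : ℝ → V → ℝ} {f : ℝ → V → V} {O : Set V}
      (_ : LP ν T u p f O) (_ : 0 < T) {K1 T1 F : ℝ} (_ : 0 ≤ K1) (_ : 0 < T1)
      (_ : T1 ≤ R1 / 256) (_ : 0 ≤ F) {χ : V → ℝ} (_ : SP χ) (_ : ∀ x, 0 ≤ χ x)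
      (_ : ∀ x, χ x ≤ 1) (_ : ∀ x, χ x ≠ 0 → eb x R1 ⊆ O)
      (_ : ∀ t ∈ Ioo 0 T, ∫ x in cube, rsq (u t x) ≤ E0 ^ 2)
      (_ : IntegrableOn (fun t => enstrophy (u t)) (Ioo 0 T))
      (_ : ∀ t ∈ Ioo 0 T, ∀ x ∈ O, rsq (cu (f t) x) ≤ F)
      (_ : ∀ᵐ t ∂volume.restrict (Ioo 0 T), ∀ x, χ x ≠ 0 →
        ∀ s : ℝ, 0 < s → s ≤ T1 → Va (cu (u t)) s x ≤ Λ / s ^ 2)
      (_ : ∀ᵐ t ∂volume.restrict (Ioo 0 T), ∃ e : V, en e = 1 ∧ ∀ x, χ x ≠ 0 →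
        UniL (cu (u t)) e δ K1 (eb x (2 * T1))),
    ∃ A : ℝ, ∀ t ∈ Ico (T / 2) T, ∫ x in cube, (χ x ^ 2) ^ 2 * rsq (cu (u t) x) ≤ A := by
  obtain ⟨c0, hc0, hc01, hD⟩ := diffL
  refine ⟨c0, hc0, hc01, ?_⟩
  intro ν Λ δ E0 R1 hν hΛ hδ0 hδ8 hδΛ hR1 hR11 T u p f O h hT K1 T1 F hK1 hT1 hT1R hF0 χ hχ hχ0
    hχ1 hχO hE hen hF hco hfi
  -- the bound of the gradient of the cut-off
  obtain ⟨M, hM0, hM⟩ : ∃ M : ℝ, 0 < M ∧ ∀ x, gr2 χ x ≤ M ^ 2 := by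
    obtain ⟨B, hB0, hB⟩ := per_bound (gr2_cont hχ) (gr2_per hχ)
    refine ⟨B + 1, by positivity, fun x => ?_⟩
    have h1 : gr2 χ x ≤ B := (le_abs_self _).trans (hB x)
    nlinarith
  obtain ⟨C, hC0, hC⟩ := hD ν Λ δ hν hΛ hδ0 hδ8 hδΛ K1 T1 M E0 F hK1 hT1 (by linarith) hM0 hF0
  have hφ : SP fun x => χ x ^ 2 := sp_sq hχ
  have hself : ∀ x : V, x ∈ eb x R1 := fun x => by
    show rsq (x - x) < R1 ^ 2
    rw [sub_self]
    have : rsq (0 : V) = 0 := by simp [rsq]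
    rw [this]; positivity
  have hsubI : ∀ t ∈ Ico (T / 2) T, t ∈ Ioo 0 T := fun t ht => ⟨by linarith [ht.1], ht.2⟩
  refine log_gron (P := fun t => (∀ x, χ x ≠ 0 →
        ∀ s : ℝ, 0 < s → s ≤ T1 → Va (cu (u t)) s x ≤ Λ / s ^ 2) ∧
      ∃ e : V, en e = 1 ∧ ∀ x, χ x ≠ 0 → UniL (cu (u t)) e δ K1 (eb x (2 * T1)))
    (G := fun s => C * (1 + enstrophy (u s))) (fun t ht => ?_)
    (fun t ht => h.Y_hasDerivAt hφ (fun x hx => ?_) (hsubI t ht)) (fun s => ?_) ?_ ?_ ?_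
  · exact integral_nonneg fun x => mul_nonneg (sq_nonneg _) (rsq_nonneg _)
  · exact hχO x (fun h => hx (by rw [h]; ring)) (hself x)
  · have := enstrophy_nonneg (u s)
    positivity
  · have h2 : IntegrableOn (fun _ : ℝ => (1 : ℝ)) (Ioo 0 T) := by simp [integrableOn_const_iff]
    have h1 : IntegrableOn (fun s => C * (1 + enstrophy (u s))) (Ioo 0 T) :=
      (h2.add hen).const_mul C
    exact h1.mono_set (Ioo_subset_Ioo (by linarith) le_rfl)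
  · exact ae_mono (Measure.restrict_mono (Ioo_subset_Ioo (by linarith) le_rfl) le_rfl)
      (hco.and hfi)
  · intro t ht hPt
    obtain ⟨hc, e, he1, hue⟩ := hPt
    have htI : t ∈ Ioo 0 T := ⟨by linarith [ht.1], ht.2⟩
    have htI' : t ∈ Ico 0 T := ⟨htI.1.le, htI.2⟩
    have hsp := h.sp t htI'
    have hFT : FS (u t) χ e Λ δ K1 T1 M :=
      { spv := hsp
        spχ := hχ
        χ0 := hχ0
        χ1 := hχ1
        lip := lip_of_gr2 hχ hM0.le hM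
        grad := pd_of_gr2 hM0.le hM
        e1 := he1
        dv0 := fun x hx y hy => h.divfree t htI' y
          (hχO x hx (eb_mono hT1.le (by linarith) hy))
        mor := hc
        lin := hue }
    exact hC (u t) (f t) χ e (h.sp_f t htI) hFT (hE t htI) hM fun x hx => hF t htI x (hχO x hx (hself x))

end Pool.Agent.R210
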