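import Pool.Agent.R210.S5
import Pool.Agent.R210.Q11

/-!
The local regularity theorem: the line of the vorticity has small oscillation near a point, and the
vorticity satisfies a Morrey bound.
-/

open MeasureTheory Set Metric Filter Topology
open scoped ContDiff ENNReal
open H459R3.NS
open Pool.Agent.W12.MD.R0 (rnd prd prd_per prd_eq prd_smooth prd_sp round_eq_of cel int_cel
  cel_abs ball_cel cel_meas cel_int)
open W221.NS (OSolF nsq gsq Sing Bd3)

namespace Pool.Agent.R210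

/-- The sine of the angle between the values is at most `δ`, where the field is large. -/
def SinL (w : V → V) (K δ : ℝ) (U : Set V) : Prop := ∀ x ∈ U, ∀ y ∈ U, K < en (w x) →
  K < en (w y) → en (crossProduct (w x) (w y)) ≤ δ * (en (w x) * en (w y))

theorem en_cross_le1 (e a : V) (he : en e = 1) : en (crossProduct e a) ≤ en a := by
  have h4 : rsq e = 1 := by rw [← en_sq, he, one_pow]
  have h1 := lagrange e a
  rw [h4, one_mul] at h1
  refine Real.sqrt_le_sqrt ?_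
  nlinarith [sq_nonneg (∑ i, e i * a i)]

theorem SinL.uni {w : V → V} {K δ : ℝ} {U : Set V} (h : SinL w K δ U) (hδ : 0 ≤ δ)
    (hK : 0 ≤ K) : ∃ e : V, en e = 1 ∧ UniL w e δ K U := by
  by_cases hp : ∃ p ∈ U, K < en (w p)
  · obtain ⟨p, hpU, hpK⟩ := hp
    have hn : 0 < en (w p) := hK.trans_lt hpK
    have he : en ((en (w p))⁻¹ • w p) = 1 := by
      rw [en_smul, abs_of_pos (inv_pos.2 hn), inv_mul_cancel₀ hn.ne']
    refine ⟨(en (w p))⁻¹ • w p, he, fun y hy => ?_⟩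
    rcases lt_or_ge K (en (w y)) with hyK | hyK
    · have h1 := h p hpU y hy hpK hyK
      rw [map_smul, LinearMap.smul_apply, en_smul, abs_of_pos (inv_pos.2 hn),
        inv_mul_le_iff₀ hn]
      have h3 : 0 ≤ en (w p) * (2 * K) := by positivity
      calc en (crossProduct (w p) (w y)) ≤ δ * (en (w p) * en (w y)) := h1
        _ ≤ en (w p) * (δ * en (w y) + 2 * K) := by linarith
    · have h1 := en_cross_le1 _ (w y) he
      have h2 : 0 ≤ δ * en (w y) := mul_nonneg hδ (en_nonneg _)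
      linarith
  · push Not at hp
    refine ⟨Pi.single 0 1, en_single, fun y hy => ?_⟩
    have h1 := hp y hy
    have h2 := en_cross_le1 _ (w y) en_single
    have h3 : 0 ≤ δ * en (w y) := mul_nonneg hδ (en_nonneg _)
    linarith

section

variable {ν T E F : ℝ} {Ω : Set V} {u : ℝ → V → V} {p : ℝ → V → ℝ} {f : ℝ → V → V}
  {t0 lam : ℝ} {x0 : V}

theorem wl_uniL (h : OSolF ν T E F Ω u p f) (hlam : 0 < lam) (hlam1 : lam ≤ 1)
    (hl : ∀ z ∈ closedBall (0 : V) (1 / 4), x0 + lam • z ∈ Ω) {t : ℝ}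
    (ht : t ∈ Ioo (-t0) (T - t0)) {K δ r s T1 : ℝ} {e : V} (hs : s + 2 * T1 ≤ 3 / 16)
    (hsr : s + 2 * T1 ≤ r) (hT1 : 0 < T1)
    (hu : UniL (cu (u (t0 + t))) e δ K (ball x0 r)) {k : Fin 3 → ℤ} {x : V}
    (hk : x ∈ ball (kv k) s) :
    UniL (cu (wl t0 lam x0 u t)) e δ K (eb x (2 * T1)) := by
  intro y hy
  have h1 : ‖y - x‖ < 2 * T1 := norm_lt_of_eb (by linarith) hy
  have h2 : dist y (kv k) < s + 2 * T1 := by
    have h3 := dist_triangle y x (kv k)
    rw [← dist_eq_norm] at h1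
    have h4 : dist x (kv k) < s := hk
    linarith
  rw [wl_cu h hlam.ne' hl ht (z := y) (k := k) (mem_ball.2 (h2.trans_le hs))]
  refine hu _ ?_
  have h3 : (x0 - lam • kv k) + lam • y - x0 = lam • (y - kv k) := by
    rw [smul_sub]; abel
  rw [mem_ball, dist_eq_norm, h3, norm_smul, Real.norm_eq_abs, abs_of_pos hlam, ← dist_eq_norm]
  nlinarith [dist_nonneg (x := y) (y := kv k)]

theorem wl_va (h : OSolF ν T E F Ω u p f) (hlam : 0 < lam) (hlam1 : lam ≤ 1)
    (hl : ∀ z ∈ closedBall (0 : V) (1 / 4), x0 + lam • z ∈ Ω) {t : ℝ}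
    (ht : t ∈ Ioo (-t0) (T - t0)) {Λ r s s1 : ℝ} (hs : s + s1 ≤ 3 / 16)
    (hsr : s + s1 ≤ r) (hs1 : 0 < s1) (hs0 : 0 < s)
    (hm : ∀ x ∈ ball x0 r, ∀ a : ℝ, 0 < a → a < r → Va (cu (u (t0 + t))) a x ≤ Λ / a ^ 2)
    {k : Fin 3 → ℤ} {x : V} (hk : x ∈ ball (kv k) s) :
    Va (cu (wl t0 lam x0 u t)) s1 x ≤ Λ / lam ^ 2 / s1 ^ 2 := by
  have e1 : Va (cu (wl t0 lam x0 u t)) s1 x
      = Va (cu (u (t0 + t))) (lam * s1) ((x0 - lam • kv k) + lam • x) := by
    unfold Va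
    refine setIntegral_congr_fun measurable_U1 fun z hz => ?_
    beta_reduce
    have h1 : ‖x - s1 • z - x‖ < s1 := norm_lt_of_eb hs1 (eb_sub_mem hs1 hz le_rfl)
    have h2 : dist (x - s1 • z) (kv k) < s + s1 := by
      have h3 := dist_triangle (x - s1 • z) x (kv k)
      rw [← dist_eq_norm] at h1
      have h4 : dist x (kv k) < s := hk
      linarith
    rw [wl_cu h hlam.ne' hl ht (z := x - s1 • z) (k := k) (mem_ball.2 (h2.trans_le hs))]
    congr 2
    rw [smul_sub, smul_smul]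
    abel
  rw [e1]
  have h3 : (x0 - lam • kv k) + lam • x - x0 = lam • (x - kv k) := by
    rw [smul_sub]; abel
  have h4 : (x0 - lam • kv k) + lam • x ∈ ball x0 r := by
    rw [mem_ball, dist_eq_norm, h3, norm_smul, Real.norm_eq_abs, abs_of_pos hlam, ← dist_eq_norm]
    have h5 : dist x (kv k) < s := hk
    nlinarith [dist_nonneg (x := x) (y := kv k)]
  refine (hm _ h4 (lam * s1) (by positivity) (by nlinarith)).trans (le_of_eq ?_)
  rw [mul_pow, div_div]

end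

/-- The local regularity theorem. -/
theorem local_regL : ∃ c0 : ℝ, 0 < c0 ∧ c0 ≤ 1 ∧ ∀ {ν T E F : ℝ} {Ω : Set V} {u : ℝ → V → V}
    {p : ℝ → V → ℝ} {f : ℝ → V → V}
    (_ : 0 < ν) (_ : OSolF ν T E F Ω u p f)
    (_ : ∫⁻ t in Ioo 0 T, ∫⁻ y in Ω, ENNReal.ofReal (gsq (u t) y) ≠ ⊤) {x0 : V} (_ : x0 ∈ Ω)
    {r0 T0 Λ δ : ℝ} (_ : 0 < r0) (_ : 0 ≤ T0) (_ : T0 < T) (_ : 0 < Λ) (_ : 0 ≤ δ)
    (_ : δ ≤ 1 / 8) (_ : δ * Λ ≤ c0 * ν)
    (_ : ∀ᵐ t ∂volume.restrict (Ioo T0 T), ∀ x ∈ ball x0 r0, ∀ a : ℝ, 0 < a → a < r0 →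
      Va (cu (u t)) a x ≤ Λ / a ^ 2),
    ∀ K1 r1 T1 : ℝ, 0 ≤ K1 → 0 < r1 → T1 < T →
      (∀ᵐ t ∂volume.restrict (Ioo T1 T), SinL (cu (u t)) K1 δ (ball x0 r1)) →
      ¬ Sing T u x0 := by
  obtain ⟨c0, hc0, hc01, hB0⟩ := boundL
  refine ⟨c0, hc0, hc01, ?_⟩
  intro ν T E F Ω u p f hν h hfin x0 hx0 r0 T0 Λ δ hr0 hT0 hT0T hΛ hδ0 hδ8 hδΛ hco
  obtain ⟨ρ, hρ, hρΩ⟩ := Metric.nhds_basis_closedBall.mem_iff.1 (h.openO.mem_nhds hx0)
  set lam : ℝ := min 1 (min r0 ρ) with hlam'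
  have hlam : 0 < lam := lt_min one_pos (lt_min hr0 hρ)
  have hlam1 : lam ≤ 1 := min_le_left _ _
  have hlamr : lam ≤ r0 := (min_le_right _ _).trans (min_le_left _ _)
  have hlamρ : lam ≤ ρ := (min_le_right _ _).trans (min_le_right _ _)
  have hl : ∀ z ∈ closedBall (0 : V) (1 / 2), x0 + lam • z ∈ Ω := by
    intro z hz
    refine hρΩ ?_
    rw [mem_closedBall, dist_eq_norm, add_sub_cancel_left, norm_smul, Real.norm_eq_abs,
      abs_of_pos hlam]
    rw [mem_closedBall_zero_iff] at hz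
    nlinarith [norm_nonneg z]
  have hl4 : ∀ z ∈ closedBall (0 : V) (1 / 4), x0 + lam • z ∈ Ω := fun z hz =>
    hl z (closedBall_subset_closedBall (by norm_num) hz)
  have h0 : 0 < lam⁻¹ := inv_pos.2 hlam
  have hB := fun {T'' : ℝ} => @hB0 (ν / lam ^ 2) (Λ / lam ^ 2) δ (Real.sqrt (lam⁻¹ ^ 5 * E ^ 2))
    (1 / 8) (by positivity) (by positivity) hδ0 hδ8 (by
      rw [← mul_div_assoc, ← mul_div_assoc]
      exact div_le_div_of_nonneg_right hδΛ (by positivity)) (by norm_num) (by norm_num) T''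
  refine fun K1 r1 T1' hK1 hr1 hT1T hfi => reg_of_grad hν h hfin ?_
  set t0 : ℝ := (max T0 T1' + T) / 2 with ht0'
  have hmx : max T0 T1' < T := max_lt hT0T hT1T
  have hmx0 : 0 ≤ max T0 T1' := hT0.trans (le_max_left _ _)
  have ht0 : 0 < t0 := by rw [ht0']; linarith
  have hT'pos : 0 < T - t0 := by rw [ht0']; linarith
  have hT0t0 : T0 ≤ t0 := by
    have := le_max_left T0 T1'
    rw [ht0']; linarith
  have hT1t0 : T1' ≤ t0 := by
    have := le_max_right T0 T1'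
    rw [ht0']; linarith
  have hLP := LP_of h ht0 hlam.ne' hl4
  -- the scales
  set s : ℝ := min (1 / 16) (min (r1 / 4) (r0 / 4)) with hs
  have hs0 : 0 < s := lt_min (by norm_num) (lt_min (by positivity) (by positivity))
  have hs16 : s ≤ 1 / 16 := min_le_left _ _
  have hsr : s ≤ r1 / 4 := (min_le_right _ _).trans (min_le_left _ _)
  have hsr0 : s ≤ r0 / 4 := (min_le_right _ _).trans (min_le_right _ _)
  set T1 : ℝ := min (1 / 2048) (min (r1 / 8) (r0 / 8)) with hT1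
  have hT10 : 0 < T1 := lt_min (by norm_num) (lt_min (by positivity) (by positivity))
  have hT1a : T1 ≤ 1 / 2048 := min_le_left _ _
  have hT1r : T1 ≤ r1 / 8 := (min_le_right _ _).trans (min_le_left _ _)
  have hT1r0 : T1 ≤ r0 / 8 := (min_le_right _ _).trans (min_le_right _ _)
  set b : ContDiffBump (0 : V) := ⟨s / 2, s, by positivity, by linarith⟩ with hb
  have hbout : b.rOut = s := rfl
  have hbin : b.rIn = s / 2 := rfl
  have hb16 : b.rOut ≤ 1 / 16 := hs16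
  have hsp := chg_sp b hb16
  -- the translation in time
  have hpre : (fun t : ℝ => t0 + t) ⁻¹' Ioo t0 T = Ioo 0 (T - t0) := by
    rw [preimage_const_add_Ioo, sub_self]
  have hMP : MeasurePreserving (fun t : ℝ => t0 + t) (volume.restrict (Ioo 0 (T - t0)))
      (volume.restrict (Ioo t0 T)) := by
    have h1 := (measurePreserving_add_left (volume : Measure ℝ) t0).restrict_preimage
      (measurableSet_Ioo (a := t0) (b := T))
    rwa [hpre] at h1
  have hco1 : ∀ᵐ t ∂volume.restrict (Ioo t0 T), ∀ x ∈ ball x0 r0, ∀ a : ℝ, 0 < a → a < r0 →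
      Va (cu (u t)) a x ≤ Λ / a ^ 2 :=
    ae_mono (Measure.restrict_mono (Ioo_subset_Ioo hT0t0 le_rfl) le_rfl) hco
  have hfi1 : ∀ᵐ t ∂volume.restrict (Ioo t0 T), SinL (cu (u t)) K1 δ (ball x0 r1) :=
    ae_mono (Measure.restrict_mono (Ioo_subset_Ioo hT1t0 le_rfl) le_rfl) hfi
  have hco2 : ∀ᵐ t ∂volume.restrict (Ioo 0 (T - t0)), ∀ x, chg b x ≠ 0 →
      ∀ a : ℝ, 0 < a → a ≤ T1 → Va (cu (wl t0 lam x0 u t)) a x ≤ Λ / lam ^ 2 / a ^ 2 := by
    filter_upwards [hMP.quasiMeasurePreserving.ae hco1, ae_restrict_mem measurableSet_Ioo]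
      with t ht1 ht2 x hx
    obtain ⟨k, hk⟩ := chg_supp b hx
    intro a ha haT
    exact wl_va h hlam hlam1 hl4 ⟨by linarith [ht2.1], ht2.2⟩ (s := s) (by linarith)
      (by linarith) ha hs0 ht1 hk
  have hfi2 : ∀ᵐ t ∂volume.restrict (Ioo 0 (T - t0)), ∃ e : V, en e = 1 ∧ ∀ x, chg b x ≠ 0 →
      UniL (cu (wl t0 lam x0 u t)) e δ K1 (eb x (2 * T1)) := by
    filter_upwards [hMP.quasiMeasurePreserving.ae hfi1, ae_restrict_mem measurableSet_Ioo]
      with t ht1 ht2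
    obtain ⟨e, he, hu⟩ := ht1.uni hδ0 hK1
    refine ⟨e, he, fun x hx => ?_⟩
    obtain ⟨k, hk⟩ := chg_supp b hx
    exact wl_uniL h hlam hlam1 hl4 ⟨by linarith [ht2.1], ht2.2⟩ (by linarith) (by linarith) hT10
      hu hk
  obtain ⟨A, hA⟩ := hB hLP hT'pos (F := 12 * F ^ 2) hK1 hT10 (by linarith) (by positivity) hsp
    (chg_nonneg b) (chg_le b)
    (fun x hx => by
      obtain ⟨k, hk⟩ := chg_supp b hx
      exact (eb_sub (ball_subset_ball hs16 hk)).trans
        (subset_iUnion (fun k => ball (kv k) (3 / 16)) k))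
    (fun t ht => by
      rw [Real.sq_sqrt (by positivity)]
      exact wl_energy h hlam hl ⟨by linarith [ht.1], ht.2⟩)
    (wl_enst_int h ht0 hlam hl hfin)
    (fun t ht x hx => rl_cu h hlam.ne' hl4 ⟨by linarith [ht.1], ht.2⟩ hx) hco2 hfi2
  obtain ⟨M, hM0, hM⟩ := per_bound (gr2_cont (sp_sq hsp)) (gr2_per (sp_sq hsp))
  set A1 : ℝ := 2 * A + 4 * M * (lam⁻¹ ^ 5 * E ^ 2) with hA1
  have hgr : ∀ t ∈ Ico ((T - t0) / 2) (T - t0),
      ∫ x in ball x0 (lam * (s / 2)), gsq (u (t0 + t)) x ≤ lam ^ 3 * A1 := by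
    intro t ht
    have hs1 : t ∈ Ioo (-t0) (T - t0) := ⟨by linarith [ht.1], ht.2⟩
    have hs2 : t ∈ Ico 0 (T - t0) := ⟨by linarith [ht.1], ht.2⟩
    have hsp' := hLP.sp t hs2
    have hself : ∀ x : V, x ∈ eb x (1 / 8) := fun x => by
      show rsq (x - x) < (1 / 8) ^ 2
      rw [sub_self]
      have : rsq (0 : V) = 0 := by simp [rsq]
      rw [this]; positivity
    have a1 := grad_le (M := M) hsp' (sp_sq hsp) (fun x hx => by
      have hx' : chg b x ≠ 0 := fun h => hx (by rw [h]; ring)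
      obtain ⟨k, hk⟩ := chg_supp b hx'
      exact hLP.divfree t hs2 x (((eb_sub (ball_subset_ball hs16 hk)).trans
        (subset_iUnion (fun k => ball (kv k) (3 / 16)) k)) (hself x)))
      fun x => (le_abs_self _).trans (hM x)
    have a2 := hA t ht
    have a3 := wl_energy (x0 := x0) h hlam hl hs1
    have a4 : ∫ x in cube, (chg b x ^ 2) ^ 2 * G2 (wl t0 lam x0 u t) x ≤ A1 := by
      refine a1.trans ?_
      have : 4 * M * ∫ x in cube, rsq (wl t0 lam x0 u t x) ≤ 4 * M * (lam⁻¹ ^ 5 * E ^ 2) :=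
        mul_le_mul_of_nonneg_left a3 (by positivity)
      rw [hA1]
      linarith
    have hP : SP fun x => (chg b x ^ 2) ^ 2 * G2 (wl t0 lam x0 u t) x :=
      (sp_sq (sp_sq hsp)).mul (sp_G2 hsp')
    rw [int_cell hP.per] at a4
    have a5 : ∫ x in ball (0 : V) (s / 2), gsq (u (t0 + t)) (x0 + lam • x) ≤ A1 := by
      refine le_trans ?_ a4
      have b1 : ∫ x in ball (0 : V) (s / 2), gsq (u (t0 + t)) (x0 + lam • x)
          = ∫ x in ball (0 : V) (s / 2), (chg b x ^ 2) ^ 2 * G2 (wl t0 lam x0 u t) x := by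
        refine setIntegral_congr_fun measurableSet_ball fun x hx => ?_
        beta_reduce
        rw [chg_one b hb16 (x := x) hx, wl_G2 h hlam.ne' hl4 hs1
          (ball_subset_ball (by linarith) hx)]
        ring
      rw [b1]
      refine setIntegral_mono_set ((hP.cont.continuousOn.integrableOn_compact
        (isCompact_closedBall _ _)).mono_set ball_subset_closedBall)
        (Filter.Eventually.of_forall fun x => mul_nonneg (sq_nonneg _) (G2_nonneg _ _))
        (ball_subset_ball (by linarith)).eventuallyLE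
    rw [W382.ME.cov (gsq (u (t0 + t))) x0 hlam] at a5
    rw [inv_mul_le_iff₀ (by positivity)] at a5
    exact a5
  refine ⟨lam * (s / 2), max 0 (lam ^ 3 * A1), t0 + (T - t0) / 2, by positivity, by linarith,
    by linarith, ball_sub hlam hl (by linarith), le_max_left _ _, fun t ht => ?_⟩
  have h1 := hgr (t - t0) ⟨by linarith [ht.1], by linarith [ht.2]⟩
  rw [add_sub_cancel] at h1
  exact h1.trans (le_max_right _ _)

end Pool.Agent.R210
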