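import Pool.Agent.R210.S6
import Pool.Agent.R210.RenS

/-!
The flux bound for a field whose line has small oscillation.
-/

open MeasureTheory Set Metric Filter Topology
open scoped ContDiff RealInnerProductSpace
open H459R3.NS

namespace Pool.Agent.R210

theorem cone_fluxG {W : E → E} {x e : E} {R r : ℝ} (he : ‖e‖ = 1)
    (hr : 0 < r) (hrR : 8 * r ≤ R) (hci : Continuous fun y => ⟪e, W y⟫)
    (hin : IntegrableOn (fun y => ‖W y‖) (ball x R))
    (h0 : ∫ y, fderiv ℝ (tq r R e x) y (W y) = 0)
    (i3 : Integrable fun y => fderiv ℝ (tq r R e x) y (W y))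
    (hdir : ∀ y ∈ ball x R, ‖‖W y‖ • e - W y‖ ≤ 1 / 8 * ‖W y‖) :
    ∫ y in ball x (r / 2), ‖W y‖ ≤ CFx * (r / R) * ∫ y in ball x R, ‖W y‖ := by
  have hR : 0 < R := by linarith
  have hHB := one_le_HB
  have hc1 := c1_pos
  have hh4 : 0 < hh (1 / 4) := hh_pos (by norm_num)
  have hh11 : 0 < hh (11 / 16) := hh_pos (by norm_num)
  -- the positive field
  have hpos : ∀ y ∈ ball x R, 2 * (1 / 8 * ‖W y‖) ≤ ⟪e, W y⟫ ∧
      1 / 2 * ‖W y‖ ≤ ⟪e, W y⟫ ∧ ⟪e, W y⟫ ≤ ‖W y‖ := by
    intro y hy
    have h1 := hdir y hy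
    have h2 : ⟪e, W y⟫ = ‖W y‖ - ⟪e, ‖W y‖ • e - W y⟫ := by
      rw [inner_sub_right, inner_smul_right, real_inner_self_eq_norm_sq, he]
      ring
    have h3 : ⟪e, ‖W y‖ • e - W y⟫ ≤ 1 / 8 * ‖W y‖ := by
      refine (real_inner_le_norm _ _).trans ?_
      rw [he, one_mul]
      exact h1
    have h4 : ⟪e, W y⟫ ≤ ‖W y‖ := by
      refine (real_inner_le_norm _ _).trans ?_
      rw [he, one_mul]
    have h6 := norm_nonneg (W y)
    refine ⟨?_, ?_, h4⟩ <;> linarith
  have hkey : ∀ y, indicator (ball x (r / 2)) (fun y => c1 * hh (1 / 4) * hh (11 / 16) / r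
      * ⟪e, W y⟫) y - indicator (ball x R) (fun y => 4 * HB / R * ⟪e, W y⟫) y
      ≤ fderiv ℝ (tq r R e x) y (W y) := by
    intro y
    by_cases hy : y ∈ ball x R
    swap
    · have hy2 : y ∉ ball x (r / 2) := fun h => hy (ball_subset_ball (by linarith) h)
      rw [indicator_of_notMem hy, indicator_of_notMem hy2,
        fderiv_zero_of_tsupp (tq_tsupp' hr hrR) hy]
      simp
    obtain ⟨p1, p2, p3⟩ := hpos y hy
    have hw0 : 0 ≤ ⟪e, W y⟫ := by
      have := norm_nonneg (W y)
      linarith
    rw [indicator_of_mem hy]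
    rw [tq_fderiv]
    set z : E := y - x with hz
    set a : ℝ := ⟪e, z⟫ with ha
    set b : ℝ := ⟪e, W y⟫ with hb
    set A : ℝ := -a / r with hA
    set B : ℝ := 4 * a ^ 2 / R ^ 2 with hB
    set P : ℝ := 1 + ((‖z‖ ^ 2 - a ^ 2) - (r + a / 2) ^ 2) / r ^ 2 with hP
    clear_value z
    -- the orthogonal part
    have hq : ‖z - a • e‖ ^ 2 = ‖z‖ ^ 2 - a ^ 2 := by
      rw [norm_sub_sq_real, inner_smul_right, norm_smul, he, mul_one, Real.norm_eq_abs, sq_abs,
        real_inner_comm, ← ha]
      ring
    have horth : ⟪z, W y⟫ - a * b ≤ ‖z - a • e‖ * (1 / 8 * ‖W y‖) := by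
      have g1 : ⟪z, W y⟫ - a * b = ⟪z - a • e, W y⟫ := by
        rw [inner_sub_left, inner_smul_left]
        simp [hb]
      have g2 : ⟪z - a • e, e⟫ = 0 := by
        rw [inner_sub_left, inner_smul_left, real_inner_self_eq_norm_sq, he, real_inner_comm,
          ← ha]
        simp
      have g3 : ⟪z - a • e, W y⟫ = ⟪z - a • e, -(‖W y‖ • e - W y)⟫ := by
        rw [inner_neg_right, inner_sub_right, inner_smul_right, g2]
        ring
      rw [g1, g3]
      refine (real_inner_le_norm _ _).trans ?_
      rw [norm_neg]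
      exact mul_le_mul_of_nonneg_left (hdir y hy) (norm_nonneg _)
    -- the third term
    have t3 : 0 ≤ hh A * hh B * (deriv hh P * ((2 * (⟪z, W y⟫ - a * b) - (r + a / 2) * b)
        / r ^ 2)) := by
      rcases le_or_gt 1 A with h | h
      · rw [hh_zero h]; simp
      rcases le_or_gt 1 P with h' | h'
      · rw [dhh_zero h']; simp
      have g1 : 0 < r + a / 2 := by
        rw [hA, div_lt_iff₀ hr] at h
        linarith
      have g2 : ‖z - a • e‖ ≤ r + a / 2 := by
        refine le_of_sq_le_sq ?_ g1.le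
        rw [hq]
        have : ((‖z‖ ^ 2 - a ^ 2) - (r + a / 2) ^ 2) / r ^ 2 < 0 := by linarith
        rw [div_lt_iff₀ (by positivity)] at this
        linarith
      have g3 : 2 * (⟪z, W y⟫ - a * b) - (r + a / 2) * b ≤ 0 := by
        have g4 : 2 * (⟪z, W y⟫ - a * b) ≤ ‖z - a • e‖ * b := by
          have := mul_le_mul_of_nonneg_left p1 (norm_nonneg (z - a • e))
          linarith
        have g5 := mul_le_mul_of_nonneg_right g2 hw0
        linarith
      have g6 := dhh_nonpos P
      have g7 : (2 * (⟪z, W y⟫ - a * b) - (r + a / 2) * b) / r ^ 2 ≤ 0 :=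
        div_nonpos_of_nonpos_of_nonneg g3 (by positivity)
      exact mul_nonneg (mul_nonneg (hh_nonneg _) (hh_nonneg _)) (mul_nonneg_of_nonpos_of_nonpos g6 g7)
    -- the second term
    have t2 : -(4 * HB / R * b) ≤ hh A * (deriv hh B * (8 * a * b / R ^ 2)) * hh P := by
      have hAP : 0 ≤ hh A * hh P := mul_nonneg (hh_nonneg _) (hh_nonneg _)
      have hAP1 : hh A * hh P ≤ 1 := mul_le_one₀ (hh_le_one _) (hh_nonneg _) (hh_le_one _)
      have e1 : hh A * (deriv hh B * (8 * a * b / R ^ 2)) * hh P
          = (hh A * hh P) * (deriv hh B * (8 * a * b / R ^ 2)) := by ring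
      rw [e1]
      have hX : 0 ≤ 4 * HB / R * b := by positivity
      have g1 : -(4 * HB / R * b) ≤ deriv hh B * (8 * a * b / R ^ 2) := by
        rcases le_or_gt 1 B with h | h
        · rw [dhh_zero h, zero_mul]; linarith
        rcases le_or_gt a 0 with ha0 | ha0
        · have g2 : 8 * a * b / R ^ 2 ≤ 0 :=
            div_nonpos_of_nonpos_of_nonneg (by nlinarith) (by positivity)
          have := mul_nonneg_of_nonpos_of_nonpos (dhh_nonpos B) g2
          linarith
        · have g2 : a ≤ R / 2 := by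
            rw [hB, div_lt_iff₀ (by positivity)] at h
            nlinarith
          have g3 : |deriv hh B| ≤ HB := dhh_le (by rw [hB]; positivity)
          have g4 : 8 * a * b / R ^ 2 ≤ 4 * b / R := by
            rw [div_le_div_iff₀ (by positivity) hR]
            have : a * (b * R) ≤ R / 2 * (b * R) := mul_le_mul_of_nonneg_right g2 (by positivity)
            nlinarith
          have g5 : 0 ≤ 8 * a * b / R ^ 2 := by positivity
          have g6 : |deriv hh B * (8 * a * b / R ^ 2)| ≤ HB * (4 * b / R) := by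
            rw [abs_mul, abs_of_nonneg g5]
            exact mul_le_mul g3 g4 g5 (by linarith)
          have g7 := (abs_le.1 g6).1
          have e2 : HB * (4 * b / R) = 4 * HB / R * b := by ring
          rw [e2] at g7
          exact g7
      rcases le_or_gt 0 (deriv hh B * (8 * a * b / R ^ 2)) with h | h
      · have := mul_nonneg hAP h
        linarith
      · have : deriv hh B * (8 * a * b / R ^ 2)
            ≤ (hh A * hh P) * (deriv hh B * (8 * a * b / R ^ 2)) := by
          nlinarith
        linarith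
    -- the first term
    have t1 : indicator (ball x (r / 2)) (fun y => c1 * hh (1 / 4) * hh (11 / 16) / r
        * ⟪e, W y⟫) y ≤ deriv hh A * (-b / r) * hh B * hh P := by
      have e1 : deriv hh A * (-b / r) * hh B * hh P
          = (-deriv hh A) * hh B * hh P / r * b := by ring
      rw [e1]
      by_cases hy2 : y ∈ ball x (r / 2)
      · rw [indicator_of_mem hy2]
        refine mul_le_mul_of_nonneg_right ?_ hw0
        refine div_le_div_of_nonneg_right ?_ hr.le
        rw [mem_ball, dist_eq_norm, ← hz] at hy2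
        have g1 : |a| ≤ ‖z‖ := by
          have := abs_real_inner_le_norm e z
          rwa [he, one_mul] at this
        have g2 : |a| ≤ r / 2 := g1.trans hy2.le
        have g3 := abs_le.1 g2
        have g4 : c1 ≤ -deriv hh A := by
          refine dhh_ge ?_ ?_
          · rw [hA, le_div_iff₀ hr]; linarith
          · rw [hA, div_le_iff₀ hr]; linarith
        have g5 : hh (1 / 4) ≤ hh B := by
          refine hh_anti ?_
          rw [hB, div_le_iff₀ (by positivity)]
          have : a ^ 2 ≤ (r / 2) ^ 2 := by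
            rw [← sq_abs]; exact pow_le_pow_left₀ (abs_nonneg _) g2 2
          nlinarith
        have g6 : hh (11 / 16) ≤ hh P := by
          refine hh_anti ?_
          have q1 : ((‖z‖ ^ 2 - a ^ 2) - (r + a / 2) ^ 2) / r ^ 2 ≤ -(5 / 16) := by
            rw [div_le_iff₀ (by positivity)]
            have q2 : ‖z‖ ^ 2 ≤ (r / 2) ^ 2 := pow_le_pow_left₀ (norm_nonneg _) hy2.le 2
            have q3 : (3 / 4 * r) ^ 2 ≤ (r + a / 2) ^ 2 :=
              pow_le_pow_left₀ (by positivity) (by linarith) 2
            nlinarith [sq_nonneg a]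
          rw [hP]; linarith
        exact mul_le_mul (mul_le_mul g4 g5 hh4.le (hc1.le.trans g4)) g6 hh11.le
          (mul_nonneg (hc1.le.trans g4) (hh_nonneg _))
      · rw [indicator_of_notMem hy2]
        have g1 : 0 ≤ -deriv hh A := by have := dhh_nonpos A; linarith
        have g2 := hh_nonneg B
        have g3 := hh_nonneg P
        positivity
    linarith
  -- integration
  have i1 : IntegrableOn (fun y => c1 * hh (1 / 4) * hh (11 / 16) / r * ⟪e, W y⟫)
      (ball x (r / 2)) := intOn_ball (continuous_const.mul hci) _ _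
  have i2 : IntegrableOn (fun y => 4 * HB / R * ⟪e, W y⟫) (ball x R) :=
    intOn_ball (continuous_const.mul hci) _ _
  have h1 := integral_mono ((i1.integrable_indicator measurableSet_ball).sub
    (i2.integrable_indicator measurableSet_ball)) i3 hkey
  rw [h0, integral_sub' (i1.integrable_indicator measurableSet_ball)
    (i2.integrable_indicator measurableSet_ball), integral_indicator measurableSet_ball,
    integral_indicator measurableSet_ball, integral_const_mul, integral_const_mul] at h1
  have h2 : 1 / 2 * ∫ y in ball x (r / 2), ‖W y‖ ≤ ∫ y in ball x (r / 2), ⟪e, W y⟫ := by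
    rw [← integral_const_mul]
    exact setIntegral_mono_on ((hin.mono_set (ball_subset_ball (by linarith))).const_mul _)
      (intOn_ball hci _ _) measurableSet_ball
      fun y hy => (hpos y (ball_subset_ball (by linarith) hy)).2.1
  have h3 : ∫ y in ball x R, ⟪e, W y⟫ ≤ ∫ y in ball x R, ‖W y‖ :=
    setIntegral_mono_on (intOn_ball hci _ _) hin measurableSet_ball
      fun y hy => (hpos y hy).2.2
  set I1 := ∫ y in ball x (r / 2), ‖W y‖ with hI1
  set I2 := ∫ y in ball x (r / 2), ⟪e, W y⟫ with hI2
  set I3 := ∫ y in ball x R, ⟪e, W y⟫ with hI3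
  set c0 : ℝ := c1 * hh (1 / 4) * hh (11 / 16) with hc0
  have hc00 : 0 < c0 := by positivity
  have h4 : c0 / r * (1 / 2 * I1) ≤ 4 * HB / R * I3 := by
    have := mul_le_mul_of_nonneg_left h2 (by positivity : 0 ≤ c0 / r)
    linarith
  have h5 : I1 ≤ CFx * (r / R) * I3 := by
    have e1 : I1 = (2 * r / c0) * (c0 / r * (1 / 2 * I1)) := by field_simp
    have e2 : CFx * (r / R) * I3 = (2 * r / c0) * (4 * HB / R * I3) := by
      unfold CFx
      rw [← hc0]
      field_simp
      ring
    rw [e1, e2]
    exact mul_le_mul_of_nonneg_left h4 (by positivity)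
  refine h5.trans (mul_le_mul_of_nonneg_left h3 ?_)
  have := CFx_pos
  positivity


theorem sign_meas : Measurable Real.sign := by
  unfold Real.sign
  exact Measurable.ite measurableSet_Iio measurable_const
    (Measurable.ite measurableSet_Ioi measurable_const measurable_const)

theorem sign_mul_self (s : ℝ) : Real.sign s * s = |s| := by
  rcases lt_trichotomy s 0 with h | h | h
  · rw [Real.sign_of_neg h, abs_of_neg h]; ring
  · rw [h]; simp
  · rw [Real.sign_of_pos h, abs_of_pos h]; ring

theorem sign_abs_le (s : ℝ) : |Real.sign s| ≤ 1 := by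
  rcases lt_trichotomy s 0 with h | h | h
  · rw [Real.sign_of_neg h]; simp
  · rw [h]; simp
  · rw [Real.sign_of_pos h]; simp

/-- The flux bound for a divergence free field with small oscillation of its line. -/
theorem cone_fluxL {w : E → E} (hw : ContDiff ℝ 1 w) {x e : E} {R r : ℝ} (he : ‖e‖ = 1)
    (hr : 0 < r) (hrR : 8 * r ≤ R) (hdiv : ∀ y, dvE w y = 0)
    (hdir : ∀ y ∈ ball x R, ‖w y‖ ^ 2 - ⟪e, w y⟫ ^ 2 ≤ 1 / 81 * ‖w y‖ ^ 2) :
    ∫ y in ball x (r / 2), ‖w y‖ ≤ CFx * (r / R) * ∫ y in ball x R, ‖w y‖ := by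
  have hR : 0 < R := by linarith
  set S : E → ℝ := fun y => ⟪e, w y⟫ with hS
  have hSc : Continuous S := continuous_const.inner hw.continuous
  set W : E → E := fun y => Real.sign (S y) • w y with hW
  have hS0 : ∀ y ∈ ball x R, 127 / 128 * ‖w y‖ ≤ |S y| := by
    intro y hy
    have h1 := hdir y hy
    refine le_of_sq_le_sq ?_ (abs_nonneg _)
    rw [sq_abs]
    have h2 : S y ^ 2 = ⟪e, w y⟫ ^ 2 := rfl
    rw [h2]
    nlinarith [sq_nonneg ‖w y‖]
  have hnW : ∀ y ∈ ball x R, ‖W y‖ = ‖w y‖ := by
    intro y hy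
    have h1 := hS0 y hy
    rw [hW]
    simp only
    rw [norm_smul, Real.norm_eq_abs]
    rcases lt_trichotomy (S y) 0 with h | h | h
    · rw [Real.sign_of_neg h]; simp
    · rw [h] at h1 ⊢
      rw [abs_zero] at h1
      have : ‖w y‖ = 0 := le_antisymm (by linarith) (norm_nonneg _)
      rw [this, mul_zero]
    · rw [Real.sign_of_pos h]; simp
  have hnorm : ∀ ρ : ℝ, ρ ≤ R → ∫ y in ball x ρ, ‖W y‖ = ∫ y in ball x ρ, ‖w y‖ := fun ρ hρ =>
    setIntegral_congr_fun measurableSet_ball fun y hy => hnW y (ball_subset_ball hρ hy)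
  rw [← hnorm (r / 2) (by linarith), ← hnorm R le_rfl]
  have hψs := tq_smooth r R e x
  have hψc := tq_compact (e := e) (x := x) hr hrR
  have hψt := tq_tsupp' (e := e) (x := x) hr hrR
  have heW : ∀ y, ⟪e, W y⟫ = |S y| := fun y => by
    rw [hW]
    simp only
    rw [inner_smul_right]
    exact sign_mul_self _
  have hfW : ∀ y, fderiv ℝ (tq r R e x) y (W y)
      = Real.sign (S y) * fderiv ℝ (tq r R e x) y (w y) := fun y => by
    rw [hW]
    simp only
    rw [map_smul, smul_eq_mul]
  refine cone_fluxG he hr hrR ?_ ?_ ?_ ?_ ?_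
  · simp_rw [heW]
    exact hSc.abs
  · refine (intOn_ball hw.continuous.norm x R).congr_fun (fun y hy => ?_) measurableSet_ball
    exact (hnW y hy).symm
  · have h1 := ren_smooth hw e x R he (Filter.Eventually.of_forall fun y hy => by
      have := hdir y hy
      nlinarith [sq_nonneg ‖w y‖]) (tq r R e x) hψs hψc hψt
    simp_rw [hdiv, abs_zero, mul_zero, integral_zero] at h1
    have h2 := abs_eq_zero.1 (le_antisymm h1 (abs_nonneg _))
    simp_rw [hfW]
    exact h2
  · simp_rw [hfW]
    have hf : Continuous fun y => fderiv ℝ (tq r R e x) y (w y) :=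
      (hψs.continuous_fderiv (by norm_num)).clm_apply hw.continuous
    have i1 : Integrable fun y => fderiv ℝ (tq r R e x) y (w y) := by
      refine supp_int (x := x) (s := R) hf fun y hy => ?_
      rw [fderiv_zero_of_tsupp hψt (fun h => hy (ball_subset_closedBall h))]
      simp
    refine i1.norm.mono' ((sign_meas.comp hSc.measurable).aestronglyMeasurable.mul
      hf.aestronglyMeasurable) (Filter.Eventually.of_forall fun y => ?_)
    rw [norm_mul, Real.norm_eq_abs]
    exact mul_le_of_le_one_left (norm_nonneg _) (sign_abs_le _)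
  · intro y hy
    have h1 := hS0 y hy
    have h2 := hnW y hy
    refine le_of_sq_le_sq ?_ (by positivity)
    rw [norm_sub_sq_real, norm_smul, real_inner_smul_left, heW, he, Real.norm_eq_abs,
      abs_of_nonneg (norm_nonneg _), h2]
    have h3 := norm_nonneg (w y)
    nlinarith [mul_le_mul_of_nonneg_left h1 h3]

end Pool.Agent.R210
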