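import Pool.Agent.R210.S7
import Pool.Agent.R210.Q12
import Pool.Agent.R210.M8

/-!
Periodic solutions: the oscillation of the line of the vorticity at a singular point.
-/

open MeasureTheory Set Metric Filter Topology
open scoped ContDiff RealInnerProductSpace
open H459R3.NS W221.NS W221.NS.B

namespace Pool.Agent.R210

/-- The Morrey bound of a field whose line has small oscillation. -/
theorem avg_coneL {v : V → V} (hv : ∀ i, SP (fun x => v x i)) {z₀ e : V} {r J : ℝ} (hr : 0 < r)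
    (hr1 : r ≤ 1) (he : en e = 1) (hlin : UniL (cu v) e (1 / 9) 0 (eb z₀ r))
    (hJ : ∫ x in cube, en (cu v x) ≤ J)
    {τ : ℝ} (hτ : 0 < τ) (hτR : τ ≤ r / 256) {x : V} (hx : x ∈ eb z₀ (r / 4)) :
    Va (cu v) τ x ≤ 108 * CFx / r * J / τ ^ 2 := by
  have hCF := CFx_pos
  set z : E := WithLp.toLp 2 z₀ with hz
  set xE : E := WithLp.toLp 2 x with hxE
  set w := lift (cu v) with hw
  have hwsp := sp_cu hv
  have hws : ContDiff ℝ 1 w := (lift_smooth hwsp).of_le (by norm_cast)
  have hdv : ∀ y, dvE w y = 0 := fun y => by rw [hw, dvE_lift hwsp, dv_cu hv]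
  have hxz : xE ∈ ball z (r / 4) := (mem_eb_iff (x := xE) (by linarith)).1 hx
  have hsub2 : ball xE (r / 2) ⊆ ball z r := by
    intro y hy
    rw [mem_ball] at hy hxz ⊢
    have := dist_triangle y xE z
    linarith
  have h3 := cone_fluxL hws (x := xE) (e := (WithLp.toLp 2 e : E)) (R := r / 2) (r := 2 * τ)
    (by rw [norm_toLp, he]) (by linarith) (by linarith) hdv (fun y hy => by
      have h4 := hlin (WithLp.ofLp y) ((mem_eb_iff hr).2 (hsub2 hy))
      have h5 : rsq (crossProduct e (cu v (WithLp.ofLp y)))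
          ≤ 1 / 81 * rsq (cu v (WithLp.ofLp y)) := by
        rw [← en_sq, ← en_sq (cu v (WithLp.ofLp y))]
        have h6 := pow_le_pow_left₀ (en_nonneg _) h4 2
        nlinarith
      have h7 : rsq e = 1 := by rw [← en_sq, he, one_pow]
      have h8 := lagrange e (cu v (WithLp.ofLp y))
      rw [h7, one_mul] at h8
      have h9 : ⟪(WithLp.toLp 2 e : E), w y⟫ = ∑ i, e i * cu v (WithLp.ofLp y) i := by
        rw [hw]
        simp [lift, PiLp.inner_apply, mul_comm]
      rw [h9, hw, norm_lift, en_sq]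
      linarith)
  have e1 : 2 * τ / 2 = τ := by ring
  rw [e1] at h3
  have hball : ∫ y in ball xE τ, ‖w y‖ = ∫ y in eb x τ, en (cu v y) := by
    have h5 := int_ball_lift (F := fun y => en (cu v y)) xE hτ
    rw [← h5]
    simp_rw [hw, norm_lift]
  have hbig : ∫ y in ball xE (r / 2), ‖w y‖ ≤ 27 * J := by
    have h5 := int_ball_lift (F := fun y => en (cu v y)) xE (by linarith : 0 < r / 2)
    have h6 : ∫ y in ball xE (r / 2), ‖w y‖ = ∫ y in eb x (r / 2), en (cu v y) := by
      rw [← h5]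
      simp_rw [hw, norm_lift]
    rw [h6]
    have h1 := eb_int (F := fun y => en (cu v y)) (f_cont hwsp)
      (fun i x => by simp only [w_per hwsp i x]) (fun x => en_nonneg _) x
    refine le_trans (setIntegral_mono_set h1.1 (Filter.Eventually.of_forall fun y => en_nonneg _)
      (LE.le.eventuallyLE fun y hy => ?_)) (h1.2.trans (by linarith))
    exact eb_mono (by linarith) (by linarith : r / 2 ≤ 1) hy
  rw [hball] at h3
  unfold Va
  rw [int_U1_scale (f := fun y => en (cu v y)) hτ, inv_pow, inv_mul_eq_div, div_le_div_iff₀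
    (by positivity) (by positivity)]
  have h5 : ∫ y in eb x τ, en (cu v y) ≤ 108 * CFx / r * J * τ := by
    refine h3.trans ?_
    calc CFx * (2 * τ / (r / 2)) * ∫ y in ball xE (r / 2), ‖w y‖
        ≤ CFx * (2 * τ / (r / 2)) * (27 * J) := mul_le_mul_of_nonneg_left hbig (by positivity)
      _ = _ := by field_simp; ring
  calc (∫ y in eb x τ, en (cu v y)) * τ ^ 2 ≤ (108 * CFx / r * J * τ) * τ ^ 2 :=
        mul_le_mul_of_nonneg_right h5 (by positivity)
    _ = _ := by ring

theorem isSolF_zero {ν T : ℝ} {u : ℝ → V → V} {p : ℝ → V → ℝ} (h : IsSol ν T u p) :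
    IsSolF ν T 0 u p (fun _ _ => 0) where
  smooth_u := h.smooth_u
  smooth_p := h.smooth_p
  per_u := h.per_u
  per_p := h.per_p
  divfree := h.divfree
  momentum := fun t ht x i => by
    rw [h.momentum t ht x i]
    simp
  force := fun t _ x _ i => by
    have h1 : ∀ j, pd j (fun _ : V => (0 : ℝ)) = fun _ => 0 := fun j => by
      funext y
      unfold pd
      simp
    simp [h1]

theorem SinL.mono {w : V → V} {K K' δ δ' : ℝ} {U U' : Set V} (h : SinL w K δ U) (hK : K ≤ K')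
    (hδ : δ ≤ δ') (hU : U' ⊆ U) : SinL w K' δ' U' := fun x hx y hy h1 h2 =>
  (h x (hU hx) y (hU hy) (hK.trans_lt h1) (hK.trans_lt h2)).trans
    (mul_le_mul_of_nonneg_right hδ (mul_nonneg (en_nonneg _) (en_nonneg _)))

/-- At a singular point of a periodic solution the line of the vorticity oscillates. -/
theorem peri_line {ν T : ℝ} {u : ℝ → V → V} {p : ℝ → V → ℝ} (hν : 0 < ν)
    (hT : 0 < T) (hu : IsSol ν T u p) {x0 : V} (hx0 : x0 ∈ cube) (hS : Sing T u x0) :
    ∃ δ : ℝ, 0 < δ ∧ ∀ K r T1 : ℝ, 0 < r → T1 < T →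
      ¬ ∀ᵐ t ∂volume.restrict (Ioo T1 T), SinL (cu (u t)) 0 (1 / 9) (ball x0 r) ∧
        SinL (cu (u t)) K δ (ball x0 r) := by
  have huF := isSolF_zero hu
  obtain ⟨h5a, h5b⟩ := p_pero
  obtain ⟨⟨E, hE, hEn⟩, hint⟩ := p_pen3 ν T 0 u p _ hν hT le_rfl huF
  have hO : OSolF ν T (15 * E) 0 (ball 0 3) u p _ := h5a ν T E 0 u p _ hT hE huF hEn
  have hsp : ∀ t ∈ Ioo 0 T, SPV (u t) := fun t ht =>
    ⟨slice_ico hu.smooth_u ⟨ht.1.le, ht.2⟩, hu.per_u t ⟨ht.1.le, ht.2⟩⟩
  have hfin : ∫⁻ t in Ioo 0 T, ∫⁻ y in ball (0 : V) 3, ENNReal.ofReal (gsq (u t) y) ≠ ⊤ := by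
    have h1 : ∫⁻ t in Ioo 0 T, ∫⁻ y in ball (0 : V) 3, ENNReal.ofReal (gsq (u t) y)
        = ∫⁻ t in Ioo 0 T, ENNReal.ofReal (216 * enstrophy (u t)) := by
      apply setLIntegral_congr_fun measurableSet_Ioo
      intro t ht
      exact h5b _ (hsp t ht)
    rw [h1]
    exact ((hint.const_mul 216).lintegral_lt_top).ne
  set E0 : ℝ := energy (u 0) / (2 * ν) with hE0
  set J : ℝ := EH (u 0) + 4 * E0 with hJ
  have hJt : ∀ t ∈ Ico 0 T, ∫ x in cube, en (cu (u t) x) ≤ J := by
    intro t ht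
    have h1 := int_en_le (v := u t) fun i => hu.sp ht i
    have h2 := EH_le hu hν ht
    have h3 := hu.int_enstrophy hν ht
    rw [hJ]; linarith
  have hJ0 : 0 ≤ J := (integral_nonneg fun x => en_nonneg _).trans (hJt 0 ⟨le_rfl, hT⟩)
  obtain ⟨c0, hc0, hc01, H⟩ := local_regL
  have hCF := CFx_pos
  by_contra hcon
  push Not at hcon
  obtain ⟨K0, r0, T0, hr0, hT0, hco⟩ := hcon 1 one_pos
  set r : ℝ := min 1 r0 with hr
  have hrp : 0 < r := lt_min one_pos hr0
  have hr1 : r ≤ 1 := min_le_left _ _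
  have hrr0 : r ≤ r0 := min_le_right _ _
  set Λ : ℝ := 108 * CFx / r * J + 1 with hΛ
  have hΛ0 : 0 < Λ := by positivity
  set δ : ℝ := min (1 / 9) (c0 * ν / Λ) with hδ
  have hδ0 : 0 < δ := lt_min (by norm_num) (by positivity)
  have hδ9 : δ ≤ 1 / 9 := min_le_left _ _
  have hδΛ : δ * Λ ≤ c0 * ν := by
    have h1 : δ ≤ c0 * ν / Λ := min_le_right _ _
    calc δ * Λ ≤ c0 * ν / Λ * Λ := mul_le_mul_of_nonneg_right h1 hΛ0.le
      _ = _ := by field_simp
  obtain ⟨K1, r1, T1, hr1', hT1, hfi⟩ := hcon δ hδ0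
  have hmx : max 0 T0 < T := max_lt hT hT0
  refine H hν hO hfin (cube_sub hx0) (r0 := r / 256) (T0 := max 0 T0) (Λ := Λ) (δ := δ)
    (by positivity) (le_max_left _ _) hmx hΛ0 hδ0.le (by linarith) hδΛ ?_ (max K1 0) r1 T1
    (le_max_right _ _) hr1' hT1 ?_ hS
  · have h1 := ae_mono (Measure.restrict_mono (Ioo_subset_Ioo (le_max_right 0 T0) (le_refl T))
      le_rfl) hco
    filter_upwards [h1, ae_restrict_mem measurableSet_Ioo] with t ht ht2 x hx a ha har
    have htI : t ∈ Ico 0 T := ⟨(le_max_left 0 T0).trans ht2.1.le, ht2.2⟩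
    obtain ⟨e, he, hue⟩ := (ht.1.mono le_rfl le_rfl (subset_refl _)).uni (by norm_num) le_rfl
    have hsub : eb x0 r ⊆ ball x0 r0 := by
      intro y hy
      rw [mem_ball, dist_eq_norm]
      exact (norm_lt_of_eb hrp hy).trans_le hrr0
    have hue' : UniL (cu (u t)) e (1 / 9) 0 (eb x0 r) := fun y hy => hue y (hsub hy)
    have hx4 : x ∈ eb x0 (r / 4) := by
      show rsq (x - x0) < (r / 4) ^ 2
      rw [mem_ball, dist_eq_norm] at hx
      have h2 : ∀ i, (x - x0) i ^ 2 ≤ (r / 256) ^ 2 := fun i => by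
        have h3 := (norm_le_pi_norm (x - x0) i).trans hx.le
        rw [Real.norm_eq_abs] at h3
        rw [← sq_abs]
        exact pow_le_pow_left₀ (abs_nonneg _) h3 2
      unfold rsq
      rw [Fin.sum_univ_three]
      have := h2 0
      have := h2 1
      have := h2 2
      nlinarith
    have h4 := avg_coneL (fun i => hu.sp htI i) hrp hr1 he hue' (hJt t htI) ha har.le hx4
    refine h4.trans (div_le_div_of_nonneg_right ?_ (by positivity))
    rw [hΛ]
    linarith
  · filter_upwards [hfi] with t ht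
    exact ht.2.mono (le_max_left _ _) le_rfl (subset_refl _)

end Pool.Agent.R210
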