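import Pool.Agent.R210.S7

/-!
The flux bound for a field whose line stays in a double cone.
-/

open MeasureTheory Set Metric Filter Topology
open scoped ContDiff RealInnerProductSpace
open H459R3.NS

namespace Pool.Agent.R210

/-- Renormalization for continuously differentiable fields. -/
theorem ren_cone {w : E → E} (hw : ContDiff ℝ 1 w) (hdiv : ∀ y, dvE w y = 0) {e x : E}
    {r C : ℝ} (he : ‖e‖ = 1) (hC : 0 ≤ C) (hcone : ∀ y ∈ ball x r, ‖w y‖ ≤ C * |⟪e, w y⟫|)
    {ψ : E → ℝ} (hψ : ContDiff ℝ ∞ ψ) (hc : HasCompactSupport ψ) (hsupp : tsupport ψ ⊆ ball x r) :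
    ∫ y, Real.sign ⟪e, w y⟫ * fderiv ℝ ψ y (w y) = 0 := by
  set S : E → ℝ := fun y => ⟪e, w y⟫ with hS
  have hSc : Continuous S := continuous_const.inner hw.continuous
  have hdv : Continuous (dvE w) := by
    unfold dvE
    refine continuous_finsetSum _ fun i _ => ?_
    exact (EuclideanSpace.proj i : E →L[ℝ] ℝ).continuous.comp
      ((hw.continuous_fderiv one_ne_zero).clm_apply continuous_const)
  have hfψ : Continuous fun y => fderiv ℝ ψ y (w y) :=
    (hψ.continuous_fderiv (by norm_num)).clm_apply hw.continuous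
  have hcsf : HasCompactSupport fun y => fderiv ℝ ψ y (w y) := by
    refine (hc.fderiv (𝕜 := ℝ)).mono fun y hy => ?_
    intro h0
    exact hy (by simp [h0])
  have hif : Integrable fun y => fderiv ℝ ψ y (w y) := hfψ.integrable_of_hasCompactSupport hcsf
  set εn : ℕ → ℝ := fun n => 1 / ((n : ℝ) + 1) with hεn
  have hεp : ∀ n, 0 < εn n := fun n => by simp only [hεn]; positivity
  -- the left side
  have hlim1 : Tendsto (fun n => ∫ y, tau (εn n) (S y) * fderiv ℝ ψ y (w y)) atTop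
      (𝓝 (∫ y, Real.sign (S y) * fderiv ℝ ψ y (w y))) := by
    refine tendsto_integral_of_dominated_convergence (fun y => |fderiv ℝ ψ y (w y)|) ?_ hif.abs
      ?_ ?_
    · exact fun n => (((tau_contDiff (hεp n)).continuous.comp hSc).mul hfψ).aestronglyMeasurable
    · refine fun n => Filter.Eventually.of_forall fun y => ?_
      rw [norm_mul, Real.norm_eq_abs, Real.norm_eq_abs]
      exact mul_le_of_le_one_left (abs_nonneg _) (tau_abs_le (hεp n) _)
    · exact Filter.Eventually.of_forall fun y => (tau_tendsto (S y)).mul_const _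
  -- the error
  set R : ℕ → E → ℝ := fun n y => εn n / (Real.sqrt (εn n + S y ^ 2)) ^ 3
    * ⟪e, fderiv ℝ w y (w y)⟫ * ψ y with hR
  have hDwc : Continuous fun y => ‖fderiv ℝ w y‖ := (hw.continuous_fderiv one_ne_zero).norm
  have hbd : Integrable fun y => C * ‖fderiv ℝ w y‖ * |ψ y| :=
    ((continuous_const.mul hDwc).mul hψ.continuous.abs).integrable_of_hasCompactSupport
      (hc.comp_left (g := fun r : ℝ => |r|) (by simp)).mul_left
  have hψ0 : ∀ y, y ∉ ball x r → ψ y = 0 := fun y hy =>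
    image_eq_zero_of_notMem_tsupport fun h => hy (hsupp h)
  have hRb : ∀ n, ∀ y, ‖R n y‖ ≤ εn n / (Real.sqrt (εn n + S y ^ 2)) ^ 3 * |S y|
      * (C * ‖fderiv ℝ w y‖ * |ψ y|) := by
    intro n y
    by_cases hyb : y ∈ ball x r
    · have h2 : ‖w y‖ ≤ C * |S y| := hcone y hyb
      have h4 : |⟪e, fderiv ℝ w y (w y)⟫| ≤ ‖fderiv ℝ w y‖ * (C * |S y|) := by
        refine (abs_real_inner_le_norm _ _).trans ?_
        rw [he, one_mul]
        exact ((fderiv ℝ w y).le_opNorm _).trans (mul_le_mul_of_nonneg_left h2 (norm_nonneg _))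
      have h5 : 0 ≤ εn n / (Real.sqrt (εn n + S y ^ 2)) ^ 3 := by
        have := (hεp n).le
        positivity
      simp only [hR]
      rw [norm_mul, norm_mul, Real.norm_eq_abs, Real.norm_eq_abs, Real.norm_eq_abs,
        abs_of_nonneg h5]
      calc εn n / (Real.sqrt (εn n + S y ^ 2)) ^ 3 * |⟪e, fderiv ℝ w y (w y)⟫| * |ψ y|
          ≤ εn n / (Real.sqrt (εn n + S y ^ 2)) ^ 3 * (‖fderiv ℝ w y‖ * (C * |S y|)) * |ψ y| :=
            mul_le_mul_of_nonneg_right (mul_le_mul_of_nonneg_left h4 h5) (abs_nonneg _)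
        _ = _ := by ring
    · simp [hR, hψ0 y hyb]
  have hsq : ∀ n y, 0 < Real.sqrt (εn n + S y ^ 2) := fun n y => by
    have := hεp n
    exact Real.sqrt_pos.2 (by positivity)
  have hRc : ∀ n, Continuous (R n) := by
    intro n
    simp only [hR]
    refine Continuous.mul (Continuous.mul ?_ ?_) hψ.continuous
    · refine continuous_const.div ?_ fun y => (pow_pos (hsq n y) 3).ne'
      exact (Real.continuous_sqrt.comp (continuous_const.add (hSc.pow 2))).pow 3
    · exact continuous_const.inner ((hw.continuous_fderiv one_ne_zero).clm_apply hw.continuous)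
  have hlim2 : Tendsto (fun n => ∫ y, R n y) atTop (𝓝 (∫ y : E, (0 : ℝ))) := by
    refine tendsto_integral_of_dominated_convergence (fun y => C * ‖fderiv ℝ w y‖ * |ψ y|)
      (fun n => (hRc n).aestronglyMeasurable) hbd ?_ ?_
    · intro n
      filter_upwards with y
      refine (hRb n y).trans ?_
      exact mul_le_of_le_one_left (by positivity) (err_le (hεp n) _)
    · filter_upwards with y
      refine squeeze_zero_norm (fun n => hRb n y) ?_
      have := (err_tendsto (S y)).mul_const (C * ‖fderiv ℝ w y‖ * |ψ y|)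
      rw [zero_mul] at this
      exact this
  rw [integral_zero] at hlim2
  -- the bound
  have hbound : ∀ n, |∫ y, tau (εn n) (S y) * fderiv ℝ ψ y (w y)|
      ≤ (∫ y, |ψ y| * |dvE w y|) + |∫ y, R n y| := by
    intro n
    have h1 := int_tau hw (e := e) (hεp n) hψ hc
    have hi1 : Integrable fun y => tau (εn n) (S y) * dvE w y * ψ y :=
      ((((tau_contDiff (hεp n)).continuous.comp hSc).mul hdv).mul
        hψ.continuous).integrable_of_hasCompactSupport hc.mul_left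
    have hi2 : Integrable (R n) := (hRc n).integrable_of_hasCompactSupport hc.mul_left
    have h2 : ∫ y, (tau (εn n) ⟪e, w y⟫ * dvE w y
        + εn n / (Real.sqrt (εn n + ⟪e, w y⟫ ^ 2)) ^ 3 * ⟪e, fderiv ℝ w y (w y)⟫) * ψ y
        = (∫ y, tau (εn n) (S y) * dvE w y * ψ y) + ∫ y, R n y := by
      rw [← integral_add hi1 hi2]
      refine integral_congr_ae (Filter.Eventually.of_forall fun y => ?_)
      simp only [hR, hS]; ring
    have h3 : ∫ y, tau (εn n) (S y) * fderiv ℝ ψ y (w y)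
        = -((∫ y, tau (εn n) (S y) * dvE w y * ψ y) + ∫ y, R n y) := by rw [← h2]; exact h1
    rw [h3, abs_neg]
    refine (abs_add_le _ _).trans (add_le_add ?_ le_rfl)
    rw [← Real.norm_eq_abs]
    refine norm_integral_le_of_norm_le ((hψ.continuous.abs.mul
      hdv.abs).integrable_of_hasCompactSupport
      (hc.comp_left (g := fun r : ℝ => |r|) (by simp)).mul_right)
      (Filter.Eventually.of_forall fun y => ?_)
    rw [norm_mul, norm_mul, Real.norm_eq_abs, Real.norm_eq_abs, Real.norm_eq_abs, mul_comm]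
    refine mul_le_mul_of_nonneg_left ?_ (abs_nonneg _)
    exact mul_le_of_le_one_left (abs_nonneg _) (tau_abs_le (hεp n) _)
  have hfin := le_of_tendsto_of_tendsto' hlim1.abs (tendsto_const_nhds.add hlim2.abs) hbound
  simp_rw [hdiv, abs_zero, mul_zero, integral_zero, add_zero] at hfin
  exact abs_eq_zero.1 (le_antisymm hfin (abs_nonneg _))


/-- The test function of slope `m`. -/
noncomputable def tqm (m r R : ℝ) (e x y : E) : ℝ :=
  hh (-(2 * m * ⟪e, y - x⟫) / r) * hh (⟪e, y - x⟫ ^ 2 / R ^ 2)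
    * hh (1 + ((‖y - x‖ ^ 2 - ⟪e, y - x⟫ ^ 2) - (r + m * ⟪e, y - x⟫) ^ 2) / r ^ 2)

theorem tqm_smooth (m r R : ℝ) (e x : E) : ContDiff ℝ ∞ (tqm m r R e x) := by
  have h1 : ContDiff ℝ ∞ fun y : E => ⟪e, y - x⟫ :=
    (contDiff_const.inner ℝ (contDiff_id.sub contDiff_const))
  have h2 : ContDiff ℝ ∞ fun y : E => ‖y - x‖ ^ 2 :=
    (contDiff_norm_sq ℝ).comp (contDiff_id.sub contDiff_const)
  refine ((hh_smooth.comp ?_).mul (hh_smooth.comp ?_)).mul (hh_smooth.comp ?_)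
  · exact (contDiff_const.mul h1).neg.div_const _
  · exact (h1.pow 2).div_const _
  · exact contDiff_const.add (((h2.sub (h1.pow 2)).sub
      ((contDiff_const.add (contDiff_const.mul h1)).pow 2)).div_const _)

theorem tqm_supp {m r R : ℝ} {e x y : E} (hm : 1 ≤ m) (hr : 0 < r) (hrR : r ≤ R)
    (h : tqm m r R e x y ≠ 0) : ‖y - x‖ < (m + 2) * R := by
  have hR : 0 < R := by linarith
  unfold tqm at h
  set ζ : ℝ := ⟪e, y - x⟫ with hζ
  have h1 : hh (-(2 * m * ζ) / r) ≠ 0 := left_ne_zero_of_mul (left_ne_zero_of_mul h)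
  have h2 : hh (ζ ^ 2 / R ^ 2) ≠ 0 := right_ne_zero_of_mul (left_ne_zero_of_mul h)
  have h3 := right_ne_zero_of_mul h
  have g1 : -(2 * m * ζ) / r < 1 := by
    by_contra hc
    exact h1 (hh_zero (not_lt.1 hc))
  have g2 : ζ ^ 2 / R ^ 2 < 1 := by
    by_contra hc
    exact h2 (hh_zero (not_lt.1 hc))
  have g3 : ((‖y - x‖ ^ 2 - ζ ^ 2) - (r + m * ζ) ^ 2) / r ^ 2 < 0 := by
    by_contra hc
    exact h3 (hh_zero (by linarith))
  rw [div_lt_iff₀ hr] at g1
  rw [div_lt_iff₀ (by positivity)] at g2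
  rw [div_lt_iff₀ (by positivity)] at g3
  have g4 : ζ < R := by nlinarith
  have g5 : 0 < r + m * ζ := by linarith
  have g6 : r + m * ζ < (m + 1) * R := by nlinarith
  have g7 : (r + m * ζ) ^ 2 < ((m + 1) * R) ^ 2 := pow_lt_pow_left₀ g6 g5.le two_ne_zero
  have g8 : ‖y - x‖ ^ 2 < ((m + 2) * R) ^ 2 := by nlinarith [mul_pos (by linarith : 0 < m) hR]
  exact lt_of_pow_lt_pow_left₀ 2 (by positivity) g8

theorem tqm_tsupp {m r R : ℝ} {e x : E} (hm : 1 ≤ m) (hr : 0 < r) (hrR : r ≤ R) :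
    tsupport (tqm m r R e x) ⊆ closedBall x ((m + 2) * R) := by
  refine closure_minimal (fun y hy => ?_) isClosed_closedBall
  rw [mem_closedBall, dist_eq_norm]
  exact (tqm_supp hm hr hrR hy).le

theorem tqm_compact {m r R : ℝ} {e x : E} (hm : 1 ≤ m) (hr : 0 < r) (hrR : r ≤ R) :
    HasCompactSupport (tqm m r R e x) :=
  HasCompactSupport.of_support_subset_isCompact (isCompact_closedBall x ((m + 2) * R))
    ((subset_tsupport _).trans (tqm_tsupp hm hr hrR))

theorem tqm_fderiv (m r R : ℝ) (e x y w : E) : fderiv ℝ (tqm m r R e x) y w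
    = deriv hh (-(2 * m * ⟪e, y - x⟫) / r) * (-(2 * m * ⟪e, w⟫) / r) * hh (⟪e, y - x⟫ ^ 2 / R ^ 2)
        * hh (1 + ((‖y - x‖ ^ 2 - ⟪e, y - x⟫ ^ 2) - (r + m * ⟪e, y - x⟫) ^ 2) / r ^ 2)
      + hh (-(2 * m * ⟪e, y - x⟫) / r) * (deriv hh (⟪e, y - x⟫ ^ 2 / R ^ 2)
          * (2 * ⟪e, y - x⟫ * ⟪e, w⟫ / R ^ 2))
        * hh (1 + ((‖y - x‖ ^ 2 - ⟪e, y - x⟫ ^ 2) - (r + m * ⟪e, y - x⟫) ^ 2) / r ^ 2)
      + hh (-(2 * m * ⟪e, y - x⟫) / r) * hh (⟪e, y - x⟫ ^ 2 / R ^ 2)
        * (deriv hh (1 + ((‖y - x‖ ^ 2 - ⟪e, y - x⟫ ^ 2) - (r + m * ⟪e, y - x⟫) ^ 2) / r ^ 2)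
          * ((2 * (⟪y - x, w⟫ - ⟪e, y - x⟫ * ⟪e, w⟫) - 2 * m * (r + m * ⟪e, y - x⟫) * ⟪e, w⟫)
            / r ^ 2)) := by
  set z : E := y - x with hz
  set a : ℝ := ⟪e, z⟫ with ha
  set b : ℝ := ⟪e, w⟫ with hb
  have hline : HasDerivAt (fun s : ℝ => y + s • w) w 0 := by
    simpa using ((hasDerivAt_id (0 : ℝ)).smul_const w).const_add y
  have hF : HasFDerivAt (tqm m r R e x) (fderiv ℝ (tqm m r R e x) y) (y + (0 : ℝ) • w) := by
    rw [zero_smul, add_zero]
    exact ((tqm_smooth m r R e x).differentiable (by norm_num) y).hasFDerivAt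
  have h1 : HasDerivAt (fun s : ℝ => tqm m r R e x (y + s • w)) (fderiv ℝ (tqm m r R e x) y w) 0 :=
    HasFDerivAt.comp_hasDerivAt (f := fun s : ℝ => y + s • w) (0 : ℝ) hF hline
  refine h1.unique ?_
  -- the scalar functions
  have e1 : ∀ s : ℝ, (⟪e, y + s • w - x⟫ : ℝ) = a + s * b := by
    intro s
    have : y + s • w - x = z + s • w := by rw [hz]; abel
    rw [this, inner_add_right, inner_smul_right]
  have e2 : ∀ s : ℝ, ‖y + s • w - x‖ ^ 2 = ‖z‖ ^ 2 + 2 * s * ⟪z, w⟫ + s ^ 2 * ‖w‖ ^ 2 := by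
    intro s
    have : y + s • w - x = z + s • w := by rw [hz]; abel
    rw [this, norm_add_sq_real, inner_smul_right, norm_smul, mul_pow, Real.norm_eq_abs, sq_abs]
    ring
  have e3 : (fun s : ℝ => tqm m r R e x (y + s • w)) = fun s : ℝ =>
      hh (-(2 * m * (a + s * b)) / r) * hh ((a + s * b) ^ 2 / R ^ 2)
        * hh (1 + ((‖z‖ ^ 2 + 2 * s * ⟪z, w⟫ + s ^ 2 * ‖w‖ ^ 2 - (a + s * b) ^ 2)
          - (r + m * (a + s * b)) ^ 2) / r ^ 2) := by
    funext s
    unfold tqm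
    rw [e1, e2]
  rw [e3]
  have d0 : HasDerivAt (fun s : ℝ => a + s * b) b 0 := by
    simpa using ((hasDerivAt_id (0 : ℝ)).mul_const b).const_add a
  have d1 : HasDerivAt (fun s : ℝ => -(2 * m * (a + s * b)) / r) (-(2 * m * b) / r) 0 :=
    (d0.const_mul (2 * m)).neg.div_const r
  have d2 : HasDerivAt (fun s : ℝ => (a + s * b) ^ 2 / R ^ 2) (2 * a * b / R ^ 2) 0 := by
    have := (d0.pow 2).div_const (R ^ 2)
    refine this.congr_deriv ?_
    simp
  have d3 : HasDerivAt (fun s : ℝ => 1 + ((‖z‖ ^ 2 + 2 * s * ⟪z, w⟫ + s ^ 2 * ‖w‖ ^ 2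
      - (a + s * b) ^ 2) - (r + m * (a + s * b)) ^ 2) / r ^ 2)
      ((2 * (⟪z, w⟫ - a * b) - 2 * m * (r + m * a) * b) / r ^ 2) 0 := by
    have q1 : HasDerivAt (fun s : ℝ => ‖z‖ ^ 2 + 2 * s * ⟪z, w⟫ + s ^ 2 * ‖w‖ ^ 2)
        (2 * ⟪z, w⟫) 0 := by
      have p1 : HasDerivAt (fun s : ℝ => 2 * s * ⟪z, w⟫) (2 * ⟪z, w⟫) 0 := by
        have := ((hasDerivAt_id (0 : ℝ)).const_mul 2).mul_const (⟪z, w⟫ : ℝ)
        simpa using this
      have p2 : HasDerivAt (fun s : ℝ => s ^ 2 * ‖w‖ ^ 2) 0 0 := by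
        have := ((hasDerivAt_id (0 : ℝ)).pow 2).mul_const (‖w‖ ^ 2)
        simpa using this
      have := (p1.const_add (‖z‖ ^ 2)).add p2
      exact this.congr_deriv (by ring)
    have q2 : HasDerivAt (fun s : ℝ => (a + s * b) ^ 2) (2 * a * b) 0 := by
      have := d0.pow 2
      refine this.congr_deriv ?_
      simp
    have q3 : HasDerivAt (fun s : ℝ => (r + m * (a + s * b)) ^ 2)
        (2 * m * (r + m * a) * b) 0 := by
      have := ((d0.const_mul m).const_add r).pow 2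
      refine this.congr_deriv ?_
      simp
      ring
    have := (((q1.sub q2).sub q3).div_const (r ^ 2)).const_add 1
    refine this.congr_deriv ?_
    ring
  have f1 := (hh_hasDerivAt (-(2 * m * (a + 0 * b)) / r)).comp 0 d1
  have f2 := (hh_hasDerivAt ((a + 0 * b) ^ 2 / R ^ 2)).comp 0 d2
  have f3 := (hh_hasDerivAt (1 + ((‖z‖ ^ 2 + 2 * 0 * ⟪z, w⟫ + 0 ^ 2 * ‖w‖ ^ 2
      - (a + 0 * b) ^ 2) - (r + m * (a + 0 * b)) ^ 2) / r ^ 2)).comp 0 d3
  have := (f1.mul f2).mul f3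
  refine this.congr_deriv ?_
  simp only [Function.comp_def, zero_mul, add_zero, mul_zero, ne_eq, OfNat.ofNat_ne_zero,
    not_false_eq_true, zero_pow, Pi.mul_apply]
  ring

end Pool.Agent.R210
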