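import Pool.Agent.R210.S14

/-!
The Morrey bound of the vorticity if its large values stay in a cone, with explicit constants.
-/

open MeasureTheory Set Metric Filter Topology
open scoped ContDiff ENNReal RealInnerProductSpace
open H459R3.NS W221.NS W221.NS.B

namespace Pool.Agent.R210

/-- The values above the threshold lie in a cone around `e`. -/
def ConeK (w : V → V) (e : V) (η K : ℝ) (U : Set V) : Prop := ∀ y ∈ U, K < en (w y) →
  η * en (w y) ≤ ∑ i, e i * w y i

/-- The flux bound for a divergence free field whose large values lie in a cone. -/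
theorem cone_fluxK {w : E → E} (hw : ContDiff ℝ 1 w) {x e : E} {m R τ K : ℝ} (he : ‖e‖ = 1)
    (hm : 1 ≤ m) (hK : 0 ≤ K) (hτ : 0 < τ) (hτR : 4 * m * τ ≤ R) (hdiv : ∀ y, dvE w y = 0)
    (hdir : ∀ y ∈ ball x ((m + 3) * R), K < ‖w y‖ → ‖w y‖ ≤ m * ⟪e, w y⟫) :
    ∫ y in ball x τ, ‖w y‖
      ≤ CGm m * (τ / R) * ∫ y in ball x ((m + 3) * R), (⟪e, w y⟫ + 2 * K) := by
  have hm0 : 0 < m := by linarith
  have hcK := cK_pos
  have hHB := one_le_HB
  obtain ⟨r, hr⟩ : ∃ r, r = 4 * m * τ := ⟨_, rfl⟩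
  have hr0 : 0 < r := by rw [hr]; positivity
  have hrR : r ≤ R := by rw [hr]; exact hτR
  have hR : 0 < R := by linarith
  have hτr : r / (4 * m) = τ := by rw [hr]; field_simp
  set W : E → E := fun y => w y + (2 * K) • e with hWd
  have hW : ContDiff ℝ 1 W := hw.add contDiff_const
  have hdivW : ∀ y, dvE W y = 0 := by
    intro y
    rw [← hdiv y]
    unfold dvE
    have : fderiv ℝ W y = fderiv ℝ w y := by
      rw [hWd]
      exact fderiv_add_const _
    rw [this]
  have hψs := tqm_smooth m r R e x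
  have hψc := tqm_compact (e := e) (x := x) hm hr0 hrR
  have hψt : tsupport (tqm m r R e x) ⊆ ball x ((m + 3) * R) :=
    (tqm_tsupp hm hr0 hrR).trans (closedBall_subset_ball (by linarith))
  have heW : ∀ y, ⟪e, W y⟫ = ⟪e, w y⟫ + 2 * K := fun y => by
    rw [hWd]
    simp only
    rw [inner_add_right, inner_smul_right, real_inner_self_eq_norm_sq, he]
    ring
  have hci : Continuous fun y => ⟪e, W y⟫ := continuous_const.inner hW.continuous
  have horth : ∀ y, ‖W y - ⟪e, W y⟫ • e‖ ≤ ‖w y‖ := by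
    intro y
    have e1 : W y - ⟪e, W y⟫ • e = w y - ⟪e, w y⟫ • e := by
      rw [heW, hWd]
      simp only
      rw [add_smul]
      abel
    rw [e1]
    refine le_of_sq_le_sq ?_ (norm_nonneg _)
    have e9 : ‖⟪e, w y⟫ • e‖ ^ 2 = ⟪e, w y⟫ ^ 2 := by
      rw [norm_smul, he, mul_one, Real.norm_eq_abs, sq_abs]
    have e10 : ⟪w y, e⟫ = ⟪e, w y⟫ := real_inner_comm _ _
    rw [norm_sub_sq_real, real_inner_smul_right, e10, e9]
    nlinarith [sq_nonneg (⟪e, w y⟫ : ℝ)]
  have hpos : ∀ y ∈ ball x ((m + 3) * R), 0 ≤ ⟪e, W y⟫ ∧ ‖w y‖ ≤ m * ⟪e, W y⟫ := by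
    intro y hy
    rw [heW]
    have h2 := abs_real_inner_le_norm e (w y)
    rw [he, one_mul] at h2
    have h3 := neg_abs_le (⟪e, w y⟫ : ℝ)
    rcases lt_or_ge K ‖w y‖ with h | h
    · have h1 := hdir y hy h
      have h4 : 0 ≤ ⟪e, w y⟫ := by
        by_contra hc
        push Not at hc
        have h5 := norm_nonneg (w y)
        nlinarith
      refine ⟨by linarith, ?_⟩
      have h5 : 0 ≤ m * (2 * K) := by positivity
      linarith
    · have h5 : ‖w y‖ ≤ ⟪e, w y⟫ + 2 * K := by linarith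
      have h6 : 0 ≤ ⟪e, w y⟫ + 2 * K := (norm_nonneg _).trans h5
      exact ⟨h6, h5.trans (le_mul_of_one_le_left h6 hm)⟩
  have h0 := int_dv_zero' (U := univ) hW (fun y _ => hdivW y) hψs hψc (subset_univ _)
  have i3 : Integrable fun y => fderiv ℝ (tqm m r R e x) y (W y) := by
    refine supp_int (x := x) (s := (m + 3) * R) ?_ fun y hy => ?_
    · exact (hψs.continuous_fderiv (by norm_num)).clm_apply hW.continuous
    · rw [fderiv_zero_of_tsupp hψt (fun h => hy (ball_subset_closedBall h))]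
      simp
  have h1 := cone_fluxM (W := W) (x := x) (R := R) he hm hr0 hrR hci h0 i3 fun y hy =>
    ⟨(hpos y hy).1, (horth y).trans (hpos y hy).2⟩
  rw [hτr] at h1
  have h2 : 1 / m * ∫ y in ball x τ, ‖w y‖ ≤ ∫ y in ball x τ, ⟪e, W y⟫ := by
    rw [← integral_const_mul]
    refine setIntegral_mono_on ((intOn_ball hw.continuous.norm _ _).const_mul _)
      (intOn_ball hci _ _) measurableSet_ball fun y hy => ?_
    have h3 := (hpos y (ball_subset_ball (by nlinarith) hy)).2
    rw [one_div, inv_mul_le_iff₀ hm0]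
    exact h3
  have e4 : ∫ y in ball x ((m + 3) * R), (⟪e, w y⟫ + 2 * K)
      = ∫ y in ball x ((m + 3) * R), ⟪e, W y⟫ := by
    congr 1
    funext y
    rw [heW]
  rw [e4]
  set I1 := ∫ y in ball x τ, ‖w y‖ with hI1
  set I2 := ∫ y in ball x τ, ⟪e, W y⟫ with hI2
  set I4 := ∫ y in ball x ((m + 3) * R), ⟪e, W y⟫ with hI4
  have h4 : m * cK / r * (1 / m * I1) ≤ HB / R * I4 :=
    (mul_le_mul_of_nonneg_left h2 (by positivity)).trans h1
  have e1 : I1 = (r / cK) * (m * cK / r * (1 / m * I1)) := by field_simp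
  have e2 : CGm m * (τ / R) * I4 = (r / cK) * (HB / R * I4) := by
    unfold CGm
    rw [hr]
    field_simp
  rw [e1, e2]
  exact mul_le_mul_of_nonneg_left h4 (by positivity)

section

variable {v : V → V} (hv : ∀ i, SP (fun x => v x i))

include hv in
/-- The bound by the energy. -/
theorem energy_cone {K R : ℝ} (hK : 0 ≤ K) (hR : 0 < R) {x e : E} (he1 : ‖e‖ = 1)
    (hdir : ∀ y ∈ ball x (2 * R), K < ‖lift (cu v) y‖ → 0 ≤ ⟪e, lift (cu v) y⟫) :
    hh (1 / 4) * ∫ y in ball x R, (⟪e, lift (cu v) y⟫ + 2 * K)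
      ≤ 6 * HB / R * (∫ y in ball x (4 * R), en (v (WithLp.ofLp y))) + 16 * v3 * K * R ^ 3 := by
  set w := lift (cu v) with hw
  have hwc : Continuous w := (lift_smooth (sp_cu hv)).continuous
  have hv3 := v3_pos
  have hHB := one_le_HB
  have hh0 : 0 < hh (1 / 4) := hh_pos (by norm_num)
  have hvol : ∀ (a r : ℝ), 0 ≤ r → ∫ _ in ball x r, a = a * (v3 * r ^ 3) := by
    intro a r hr
    rw [setIntegral_const, smul_eq_mul, ← vol_ball x hr]
    simp only [Measure.real]
    ring
  set ψ : E → ℝ := fun y => ze (2 * R) (y - x) with hψd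
  have h2R : 0 < 2 * R := by linarith
  have hψ : ContDiff ℝ ∞ ψ := zes_smooth _ _
  have hψc : HasCompactSupport ψ := zes_compact h2R x
  have hψs : tsupport ψ ⊆ ball x (4 * R) := (zes_tsupp h2R x).trans
    (closedBall_subset_ball (by linarith))
  have hψL : ∀ y, ‖fderiv ℝ ψ y‖ ≤ HB / R := by
    intro y
    refine (zes_fderiv_le h2R x y).trans (le_of_eq ?_)
    field_simp
  have iψ : ∀ {f : E → ℝ}, Continuous f → Integrable fun y => ψ y * f y := fun hf =>
    (hψ.continuous.mul hf).integrable_of_hasCompactSupport hψc.mul_right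
  have hψ0 : ∀ y, y ∉ ball x (2 * R) → ψ y = 0 := fun y hy => ze_sub_zero h2R hy
  have hci : Continuous fun y => ⟪e, w y⟫ := continuous_const.inner hwc
  have hci2 : Continuous fun y => ⟪e, w y⟫ + 2 * K := hci.add continuous_const
  have hpos : ∀ y ∈ ball x (2 * R), 0 ≤ ⟪e, w y⟫ + 2 * K := by
    intro y hy
    rcases lt_or_ge K ‖w y‖ with h | h
    · have := hdir y hy h
      linarith
    · have h2 := abs_real_inner_le_norm e (w y)
      rw [he1, one_mul] at h2
      have h3 := neg_abs_le (⟪e, w y⟫ : ℝ)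
      linarith
  -- lower bound of the weighted integral
  have hlow : hh (1 / 4) * ∫ y in ball x R, (⟪e, w y⟫ + 2 * K)
      ≤ ∫ y, ψ y * (⟪e, w y⟫ + 2 * K) := by
    rw [← integral_const_mul, ← integral_indicator measurableSet_ball]
    have hii : IntegrableOn (fun y : E => hh (1 / 4) * (⟪e, w y⟫ + 2 * K)) (ball x R) :=
      (intOn_ball hci2 x R).const_mul _
    refine integral_mono (hii.integrable_indicator measurableSet_ball) (iψ hci2) fun y => ?_
    simp only [indicator]
    split_ifs with h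
    · refine mul_le_mul_of_nonneg_right (ze_ge h2R ?_)
        (hpos y (ball_subset_ball (by linarith) h))
      rw [mem_ball, dist_eq_norm] at h
      linarith
    · by_cases hy : y ∈ ball x (2 * R)
      · exact mul_nonneg (ze_nonneg _ _) (hpos y hy)
      · rw [hψ0 y hy, zero_mul]
  refine hlow.trans ?_
  have hcst : ∫ y, ψ y * (2 * K) ≤ 16 * v3 * K * R ^ 3 := by
    have h1 : ∫ y, ψ y * (2 * K) ≤ ∫ _ in ball x (2 * R), 2 * K := by
      rw [← integral_indicator measurableSet_ball]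
      refine integral_mono (iψ continuous_const)
        ((integrableOn_const (measure_ball_lt_top).ne).integrable_indicator measurableSet_ball)
        fun y => ?_
      simp only [indicator]
      split_ifs with h
      · exact mul_le_of_le_one_left (by positivity) (ze_le_one _ _)
      · rw [hψ0 y h, zero_mul]
    refine h1.trans (le_of_eq ?_)
    rw [hvol _ _ h2R.le]
    ring
  have hinn : ∀ y, ⟪e, w y⟫ = ∑ i, e i * cu v (WithLp.ofLp y) i := by
    intro y
    rw [PiLp.inner_apply]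
    exact Finset.sum_congr rfl fun i _ => by
      simp only [RCLike.inner_apply, conj_trivial]
      rw [mul_comm]
      rfl
  have hcw : ∀ i, Continuous fun y : E => cu v (WithLp.ofLp y) i := fun i =>
    (ofLp_smooth (sp_cu hv i)).continuous
  have h2 : ∫ y, ψ y * ⟪e, w y⟫ = ∑ i, e i * ∫ y, cu v (WithLp.ofLp y) i * ψ y := by
    simp_rw [← integral_const_mul]
    rw [← integral_finsetSum _ fun i _ => ?_]
    · congr 1
      funext y
      rw [hinn, Finset.mul_sum]
      exact Finset.sum_congr rfl fun i _ => by ring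
    · have := (iψ (hcw i)).const_mul (e i)
      refine this.congr (Filter.Eventually.of_forall fun y => ?_)
      simp only
      ring
  have h3 : ∫ y, ψ y * ⟪e, w y⟫
      ≤ 6 * (HB / R) * ∫ y in ball x (4 * R), en (v (WithLp.ofLp y)) := by
    rw [h2]
    have h5 : ∀ i, e i * ∫ y, cu v (WithLp.ofLp y) i * ψ y
        ≤ 2 * (HB / R) * ∫ y in ball x (4 * R), en (v (WithLp.ofLp y)) := by
      intro i
      refine (le_abs_self _).trans ?_
      rw [abs_mul]
      have h6 := test_cu hv hψ hψc hψL hψs i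
      have h7 := abs_inner_sum he1 i
      calc |e i| * |∫ y, cu v (WithLp.ofLp y) i * ψ y|
          ≤ 1 * (2 * (HB / R) * ∫ y in ball x (4 * R), en (v (WithLp.ofLp y))) :=
            mul_le_mul h7 h6 (abs_nonneg _) zero_le_one
        _ = _ := by ring
    rw [Fin.sum_univ_three]
    have := h5 0
    have := h5 1
    have := h5 2
    linarith
  have h4 : ∫ y, ψ y * (⟪e, w y⟫ + 2 * K) = (∫ y, ψ y * ⟪e, w y⟫) + ∫ y, ψ y * (2 * K) := by
    rw [← integral_add (iψ hci) (iψ continuous_const)]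
    congr 1
    funext y
    ring
  have e1 : 6 * HB / R * (∫ y in ball x (4 * R), en (v (WithLp.ofLp y)))
      = 6 * (HB / R) * ∫ y in ball x (4 * R), en (v (WithLp.ofLp y)) := by ring
  rw [h4, e1]
  linarith

/-- The constant of the Morrey bound. -/
noncomputable def LCm (m E0 K r : ℝ) : ℝ :=
  CGm m * (4 * (m + 3) / r) * ((hh (1 / 4))⁻¹ * (24 * HB / r
    * Real.sqrt (v3 * r ^ 3 * (27 * E0 ^ 2)) + v3 * K * r ^ 3 / 4))

include hv in
/-- The Morrey bound. -/
theorem avg_coneK {z₀ e : V} {m r K E0 : ℝ} (hr : 0 < r) (hr1 : r ≤ 1) (hm : 1 ≤ m) (hK : 0 ≤ K)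
    (he : en e = 1) (hdir : ConeK (cu v) e m⁻¹ K (eb z₀ r))
    (hE : ∫ x in cube, rsq (v x) ≤ E0 ^ 2)
    {τ : ℝ} (hτ : 0 < τ) (hτR : 16 * m * (m + 3) * τ ≤ r) {x : V} (hx : x ∈ eb z₀ (r / 4)) :
    Va (cu v) τ x ≤ LCm m E0 K r / τ ^ 2 := by
  have hm0 : 0 < m := by linarith
  have hCG := CGm_pos hm0
  have hHB := one_le_HB
  have hv3 := v3_pos
  have hh0 : 0 < hh (1 / 4) := hh_pos (by norm_num)
  set z : E := WithLp.toLp 2 z₀ with hz
  set xE : E := WithLp.toLp 2 x with hxE
  set w := lift (cu v) with hw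
  have hwsp := sp_cu hv
  have hws : ContDiff ℝ 1 w := (lift_smooth hwsp).of_le (by norm_cast)
  have hdv : ∀ y, dvE w y = 0 := fun y => by rw [hw, dvE_lift hwsp, dv_cu hv]
  have hxz : xE ∈ ball z (r / 4) := (mem_eb_iff (x := xE) (by linarith)).1 hx
  have hsub2 : ball xE (r / 2) ⊆ ball z r := by
    intro y hy
    rw [mem_ball] at hy hxz ⊢
    have := dist_triangle y xE z
    linarith
  obtain ⟨R, hR⟩ : ∃ R, R = r / (4 * (m + 3)) := ⟨_, rfl⟩
  have hR0 : 0 < R := by rw [hR]; positivity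
  have e2 : (m + 3) * R = r / 4 := by rw [hR]; field_simp
  have hcone : ∀ y ∈ ball xE (r / 2), K < ‖w y‖ → ‖w y‖ ≤ m * ⟪(WithLp.toLp 2 e : E), w y⟫ := by
    intro y hy hyK
    have h9 : ⟪(WithLp.toLp 2 e : E), w y⟫ = ∑ i, e i * cu v (WithLp.ofLp y) i := by
      rw [hw]
      simp [lift, PiLp.inner_apply, mul_comm]
    rw [hw, norm_lift] at hyK
    have h4 := hdir (WithLp.ofLp y) ((mem_eb_iff hr).2 (hsub2 hy)) hyK
    rw [inv_mul_le_iff₀ hm0] at h4
    rw [h9, hw, norm_lift]
    exact h4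
  have h3 := cone_fluxK hws (x := xE) (e := (WithLp.toLp 2 e : E)) (R := R)
    (m := m) (τ := τ) (K := K) (by rw [norm_toLp, he]) hm hK hτ (by
      rw [hR, le_div_iff₀ (by positivity)]
      linarith) hdv (fun y hy => by
      rw [e2] at hy
      exact hcone y (ball_subset_ball (by linarith) hy))
  rw [e2] at h3
  have h1 := energy_cone hv (x := xE) (e := (WithLp.toLp 2 e : E)) (K := K) (R := r / 4) hK
    (by positivity) (by rw [norm_toLp, he]) (fun y hy hyK => by
      have h4 := hcone y (ball_subset_ball (by linarith) hy) hyK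
      have h5 := norm_nonneg (w y)
      by_contra hc
      push Not at hc
      have h6 : m * ⟪(WithLp.toLp 2 e : E), w y⟫ < 0 := mul_neg_of_pos_of_neg hm0 hc
      linarith)
  have e3 : 4 * (r / 4) = r := by ring
  rw [e3] at h1
  have h2 := eb_en_le hv (ρ := r) hr hr1 xE
  have hsq : Real.sqrt (v3 * r ^ 3 * (27 * ∫ x in cube, rsq (v x)))
      ≤ Real.sqrt (v3 * r ^ 3 * (27 * E0 ^ 2)) := by
    refine Real.sqrt_le_sqrt (mul_le_mul_of_nonneg_left ?_ (by positivity))
    linarith
  have h4 : ∫ y in ball xE (r / 4), (⟪(WithLp.toLp 2 e : E), w y⟫ + 2 * K)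
      ≤ (hh (1 / 4))⁻¹ * (24 * HB / r
        * Real.sqrt (v3 * r ^ 3 * (27 * E0 ^ 2)) + v3 * K * r ^ 3 / 4) := by
    rw [inv_mul_eq_div, le_div_iff₀ hh0, mul_comm]
    refine h1.trans ?_
    have h7 : 0 ≤ 24 * HB / r := by positivity
    have h8 := mul_le_mul_of_nonneg_left (h2.trans hsq) h7
    have e5 : 6 * HB / (r / 4) = 24 * HB / r := by field_simp; norm_num
    have e6 : 16 * v3 * K * (r / 4) ^ 3 = v3 * K * r ^ 3 / 4 := by ring
    rw [e5, e6]
    linarith
  have hball : ∫ y in ball xE τ, ‖w y‖ = ∫ y in eb x τ, en (cu v y) := by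
    have h5 := int_ball_lift (F := fun y => en (cu v y)) xE hτ
    rw [← h5]
    simp_rw [hw, norm_lift]
  rw [hball] at h3
  unfold Va
  rw [int_U1_scale (f := fun y => en (cu v y)) hτ, inv_pow, inv_mul_eq_div, div_le_div_iff₀
    (by positivity) (by positivity)]
  have h5 : ∫ y in eb x τ, en (cu v y) ≤ LCm m E0 K r * τ := by
    refine h3.trans ?_
    have h6 : 0 ≤ CGm m * (τ / R) := by positivity
    refine (mul_le_mul_of_nonneg_left h4 h6).trans (le_of_eq ?_)
    unfold LCm
    rw [hR]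
    field_simp
  calc (∫ y in eb x τ, en (cu v y)) * τ ^ 2 ≤ (LCm m E0 K r * τ) * τ ^ 2 :=
        mul_le_mul_of_nonneg_right h5 (by positivity)
    _ = _ := by ring

end

end Pool.Agent.R210
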