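import Pool.Agent.R210.U1

/-!
Interior solutions: two scales. If the large values of the vorticity stay in a cone at one scale,
the line of the vorticity oscillates by an explicit amount at all small scales.
-/

open MeasureTheory Set Metric Filter Topology
open scoped ContDiff ENNReal RealInnerProductSpace
open H459R3.NS W221.NS W221.NS.B

namespace Pool.Agent.R210

/-- The constant of the Morrey bound. -/
noncomputable def Am (m : ℝ) : ℝ :=
  CGm m * (32 * (m + 3)) * ((hh (1 / 4))⁻¹ * (192 * HB * Real.sqrt (v3 * (27 / 512)) + v3))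

theorem Am_pos {m : ℝ} (hm : 0 < m) : 0 < Am m := by
  have h1 := CGm_pos hm
  have h2 := one_le_HB
  have h3 := v3_pos
  have h4 : 0 < hh (1 / 4) := hh_pos (by norm_num)
  have h5 := Real.sqrt_nonneg (v3 * (27 / 512))
  unfold Am
  positivity

theorem LCm_le {m lam E K : ℝ} (hm : 0 < m) (hlam : 0 < lam) (hE : 0 ≤ E) (hK : 0 ≤ K) :
    lam ^ 2 * LCm m (Real.sqrt (lam⁻¹ ^ 5 * E ^ 2)) K (1 / 8)
      ≤ Am m * (E / Real.sqrt lam + K * lam ^ 2) := by
  have h1 := CGm_pos hm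
  have h2 := one_le_HB
  have h3 := v3_pos
  have h4 : 0 < hh (1 / 4) := hh_pos (by norm_num)
  have h5 := Real.sqrt_nonneg (v3 * (27 / 512))
  have hs : 0 < Real.sqrt lam := Real.sqrt_pos.2 hlam
  have hs2 : Real.sqrt lam ^ 2 = lam := Real.sq_sqrt hlam.le
  -- the square root
  have e1 : Real.sqrt (v3 * (1 / 8) ^ 3 * (27 * (Real.sqrt (lam⁻¹ ^ 5 * E ^ 2)) ^ 2))
      = Real.sqrt (v3 * (27 / 512)) * (E / Real.sqrt lam / lam ^ 2) := by
    rw [Real.sq_sqrt (by positivity)]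
    have e2 : v3 * (1 / 8) ^ 3 * (27 * (lam⁻¹ ^ 5 * E ^ 2))
        = (v3 * (27 / 512)) * (E / Real.sqrt lam / lam ^ 2) ^ 2 := by
      have e3 : (E / Real.sqrt lam / lam ^ 2) ^ 2 = E ^ 2 / lam / lam ^ 4 := by
        rw [div_pow (E / Real.sqrt lam), div_pow E, hs2]
        ring
      rw [e3]
      field_simp
      norm_num
      ring
    rw [e2, Real.sqrt_mul (by positivity), Real.sqrt_sq (by positivity)]
  unfold LCm Am
  rw [e1]
  set S := Real.sqrt (v3 * (27 / 512)) with hS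
  set q := E / Real.sqrt lam with hq
  have hq0 : 0 ≤ q := by positivity
  set c := (hh (1 / 4))⁻¹ with hc
  have hc0 : 0 < c := by positivity
  have e3 : lam ^ 2 * (CGm m * (4 * (m + 3) / (1 / 8)) * (c * (24 * HB / (1 / 8)
      * (S * (q / lam ^ 2)) + v3 * K * (1 / 8) ^ 3 / 4)))
      = CGm m * (32 * (m + 3)) * (c * (192 * HB * S * q + v3 / 2048 * (K * lam ^ 2))) := by
    field_simp
    ring
  rw [e3]
  have h6 : 192 * HB * S * q + v3 / 2048 * (K * lam ^ 2)
      ≤ (192 * HB * S + v3) * (q + K * lam ^ 2) := by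
    have a1 : 0 ≤ 192 * HB * S * (K * lam ^ 2) := by positivity
    have a2 : 0 ≤ v3 * q := by positivity
    have a3 : 0 ≤ v3 * (K * lam ^ 2) := by positivity
    have a4 : v3 / 2048 * (K * lam ^ 2) = v3 * (K * lam ^ 2) / 2048 := by ring
    rw [a4]
    linarith
  calc CGm m * (32 * (m + 3)) * (c * (192 * HB * S * q + v3 / 2048 * (K * lam ^ 2)))
      ≤ CGm m * (32 * (m + 3)) * (c * ((192 * HB * S + v3) * (q + K * lam ^ 2))) :=
        mul_le_mul_of_nonneg_left (mul_le_mul_of_nonneg_left h6 hc0.le) (by positivity)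
    _ = _ := by ring

/-- The Morrey bound at a fixed time. -/
theorem morrey_uK {ν T E F : ℝ} {Ω : Set V} {u : ℝ → V → V} {p : ℝ → V → ℝ} {f : ℝ → V → V}
    (h : OSolF ν T E F Ω u p f) (hE0 : 0 ≤ E) {x0 e : V} {lam m K : ℝ} (hlam : 0 < lam)
    (hm : 1 ≤ m) (hK : 0 ≤ K)
    (hl : ∀ z ∈ closedBall (0 : V) (1 / 2), x0 + lam • z ∈ Ω) {t : ℝ} (ht : t ∈ Ioo 0 T)
    (he : en e = 1) (hc : ConeK (cu (u t)) e m⁻¹ K (ball x0 (lam * (1 / 8)))) :
    ∀ x ∈ ball x0 (lam / (256 * m * (m + 3))), ∀ a : ℝ, 0 < a → a < lam / (256 * m * (m + 3)) →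
      Va (cu (u t)) a x ≤ Am m * (E / Real.sqrt lam + K * lam ^ 2) / a ^ 2 := by
  intro x hx a ha har
  have hm0 : 0 < m := by linarith
  have hmm : 4 ≤ m * (m + 3) := by nlinarith
  have hl4 : ∀ z ∈ closedBall (0 : V) (1 / 4), x0 + lam • z ∈ Ω := fun z hz =>
    hl z (closedBall_subset_closedBall (by norm_num) hz)
  have ht0 : (0 : ℝ) ∈ Ioo (-t) (T - t) := ⟨by linarith [ht.1], by linarith [ht.2]⟩
  have hv : ∀ i, SP (fun x => wl t lam x0 u 0 x i) := fun i => wl_sp (p := p) (f := f) h hl4 ht0 i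
  have h0 : kv (0 : Fin 3 → ℤ) = 0 := by
    funext i
    simp [kv]
  have hcu : ∀ z ∈ ball (0 : V) (3 / 16), cu (wl t lam x0 u 0) z = cu (u t) (x0 + lam • z) := by
    intro z hz
    have h1 := wl_cu h hlam.ne' hl4 ht0 (z := z) (k := 0) (by rw [h0]; exact hz)
    rwa [h0, smul_zero, sub_zero, add_zero] at h1
  have heb : ∀ {y : V} {s : ℝ}, 0 < s → y ∈ eb (0 : V) s → ‖y‖ < s := fun hs hy => by
    have := norm_lt_of_eb hs hy
    rwa [sub_zero] at this
  have hin : ∀ y ∈ eb (0 : V) (1 / 8), x0 + lam • y ∈ ball x0 (lam * (1 / 8)) := by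
    intro y hy
    rw [mem_ball, dist_eq_norm, add_sub_cancel_left, norm_smul, Real.norm_eq_abs,
      abs_of_pos hlam]
    exact mul_lt_mul_of_pos_left (heb (by norm_num) hy) hlam
  have hin3 : ∀ y ∈ eb (0 : V) (1 / 8), y ∈ ball (0 : V) (3 / 16) := by
    intro y hy
    rw [mem_ball_zero_iff]
    have := heb (by norm_num) hy
    linarith
  have hc' : ConeK (cu (wl t lam x0 u 0)) e m⁻¹ K (eb 0 (1 / 8)) := by
    intro y hy
    rw [hcu y (hin3 y hy)]
    exact hc _ (hin y hy)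
  have hE' : ∫ x in cube, rsq (wl t lam x0 u 0 x) ≤ Real.sqrt (lam⁻¹ ^ 5 * E ^ 2) ^ 2 := by
    rw [Real.sq_sqrt (by positivity)]
    exact wl_energy h hlam hl ht0
  -- the points
  set x' : V := lam⁻¹ • (x - x0) with hx'
  have hxx : x = x0 + lam • x' := by
    rw [hx', smul_inv_smul₀ hlam.ne']; abel
  set r2 : ℝ := 1 / (256 * m * (m + 3)) with hr2
  have hr20 : 0 < r2 := by positivity
  have hr2m : 16 * m * (m + 3) * r2 = 1 / 16 := by rw [hr2]; field_simp; norm_num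
  have hr2s : r2 ≤ 1 / 1024 := by
    rw [hr2]
    refine div_le_div_of_nonneg_left (by norm_num) (by norm_num) (by linarith)
  have hlr : lam / (256 * m * (m + 3)) = lam * r2 := by rw [hr2]; ring
  rw [hlr] at hx har
  have hx1 : ‖x'‖ < r2 := by
    rw [mem_ball, dist_eq_norm] at hx
    rw [hx', norm_smul, norm_inv, Real.norm_eq_abs, abs_of_pos hlam, inv_mul_lt_iff₀ hlam]
    exact hx
  have hx4 : x' ∈ eb (0 : V) (1 / 8 / 4) := by
    show rsq (x' - 0) < (1 / 8 / 4) ^ 2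
    rw [sub_zero]
    have h2 : ∀ i, x' i ^ 2 ≤ (1 / 1024) ^ 2 := fun i => by
      have h3 : |x' i| ≤ 1 / 1024 := by
        have := (norm_le_pi_norm x' i).trans hx1.le
        rw [Real.norm_eq_abs] at this
        linarith
      rw [← sq_abs]
      exact pow_le_pow_left₀ (abs_nonneg _) h3 2
    unfold rsq
    rw [Fin.sum_univ_three]
    have := h2 0
    have := h2 1
    have := h2 2
    norm_num at *
    linarith
  set τ : ℝ := a / lam with hτ
  have hτ0 : 0 < τ := by positivity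
  have haτ : a = lam * τ := by rw [hτ]; field_simp
  have hτr : τ < r2 := by
    rw [hτ, div_lt_iff₀ hlam]
    linarith
  have hmain := avg_coneK hv (by norm_num) (by norm_num) hm hK he hc' hE' hτ0 (by
    have := mul_le_mul_of_nonneg_left hτr.le (by positivity : 0 ≤ 16 * m * (m + 3))
    linarith) hx4
  have e1 : Va (cu (wl t lam x0 u 0)) τ x' = Va (cu (u t)) a x := by
    unfold Va
    refine setIntegral_congr_fun measurable_U1 fun z hz => ?_
    have h1 : ‖x' - τ • z - x'‖ < τ := norm_lt_of_eb hτ0 (eb_sub_mem hτ0 hz le_rfl)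
    have h2 : x' - τ • z ∈ ball (0 : V) (3 / 16) := by
      rw [mem_ball_zero_iff]
      have h3 : ‖x' - τ • z‖ ≤ ‖x' - τ • z - x'‖ + ‖x'‖ := by
        have := norm_add_le (x' - τ • z - x') x'
        rwa [sub_add_cancel] at this
      linarith
    have e9 : x0 + lam • (x' - τ • z) = (x0 + lam • x') - (lam * τ) • z := by
      rw [smul_sub, smul_smul lam τ z, add_sub_assoc]
    rw [hcu _ h2, e9, ← hxx, ← haτ]
  rw [← e1]
  refine hmain.trans ?_
  have e2 : LCm m (Real.sqrt (lam⁻¹ ^ 5 * E ^ 2)) K (1 / 8) / τ ^ 2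
      = lam ^ 2 * LCm m (Real.sqrt (lam⁻¹ ^ 5 * E ^ 2)) K (1 / 8) / a ^ 2 := by
    rw [haτ]
    field_simp
  rw [e2]
  exact div_le_div_of_nonneg_right (LCm_le hm0 hlam hE0 hK) (by positivity)

theorem ConeK.mono {w : V → V} {e : V} {η η' K K' : ℝ} {U U' : Set V} (h : ConeK w e η K U)
    (hη : η' ≤ η) (hK : K ≤ K') (hU : U' ⊆ U) : ConeK w e η' K' U' := fun y hy hyK =>
  (mul_le_mul_of_nonneg_right hη (en_nonneg _)).trans (h y (hU hy) (hK.trans_lt hyK))

/-- At an interior singular point: if the large values of the vorticity stay in a cone at the scale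
`r0`, the line of the vorticity oscillates by an explicit amount at all small scales. -/
theorem sing_expl {η : ℝ} (hη : 0 < η) : ∃ c : ℝ, 0 < c ∧ ∀ {ν T E F : ℝ} {Ω : Set V}
    {u : ℝ → V → V} {p : ℝ → V → ℝ} {f : ℝ → V → V} (_ : 0 < ν) (_ : 0 < T) (_ : 0 ≤ E)
    (_ : OSolF ν T E F Ω u p f)
    (_ : ∫⁻ t in Ioo 0 T, ∫⁻ y in Ω, ENNReal.ofReal (gsq (u t) y) ≠ ⊤) {x0 : V}
    (_ : Sing T u x0) {r0 K δ : ℝ} (_ : 0 < r0) (_ : closedBall x0 r0 ⊆ Ω) (_ : 0 ≤ K)
    (_ : 0 ≤ δ) (_ : δ ≤ 1 / 8) (_ : δ * (E / Real.sqrt r0 + K * r0 ^ 2) ≤ c * ν),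
    ∀ K1 r1 T1 : ℝ, 0 < r1 → T1 < T →
      ¬ ∀ᵐ t ∂volume.restrict (Ioo T1 T),
        (∃ e : V, en e = 1 ∧ ConeK (cu (u t)) e η K (ball x0 r0)) ∧
        SinL (cu (u t)) K1 δ (ball x0 r1) := by
  obtain ⟨c0, hc0, hc01, H⟩ := local_regL
  set m : ℝ := max 1 η⁻¹ with hm
  have hm1 : 1 ≤ m := le_max_left _ _
  have hm0 : 0 < m := by linarith
  have hmη : m⁻¹ ≤ η := by
    rw [inv_le_comm₀ hm0 hη]
    exact le_max_right _ _
  have hA := Am_pos hm0
  refine ⟨c0 / (4 * Am m), by positivity, ?_⟩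
  intro ν T E F Ω u p f hν hT hE h hfin x0 hS r0 K δ hr0 hΩ hK hδ0 hδ8 hδ K1 r1 T1 hr1 hT1 hall
  have hx0 : x0 ∈ Ω := hΩ (mem_closedBall_self hr0.le)
  have hl : ∀ z ∈ closedBall (0 : V) (1 / 2), x0 + r0 • z ∈ Ω := by
    intro z hz
    refine hΩ ?_
    rw [mem_closedBall, dist_eq_norm, add_sub_cancel_left, norm_smul, Real.norm_eq_abs,
      abs_of_pos hr0]
    rw [mem_closedBall_zero_iff] at hz
    nlinarith [norm_nonneg z]
  set q : ℝ := E / Real.sqrt r0 + K * r0 ^ 2 with hq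
  have hq0 : 0 ≤ q := by positivity
  -- a positive Morrey constant
  set Λ : ℝ := Am m * q + c0 * ν with hΛ
  have hΛ0 : 0 < Λ := by positivity
  -- the smallness
  have hδΛ : δ * Λ ≤ c0 * ν := by
    have a1 : δ * (Am m * q) ≤ c0 * ν / 4 := by
      have a2 := mul_le_mul_of_nonneg_left hδ hA.le
      have e1 : Am m * (c0 / (4 * Am m) * ν) = c0 * ν / 4 := by field_simp
      rw [e1] at a2
      calc δ * (Am m * q) = Am m * (δ * q) := by ring
        _ ≤ _ := a2
    have a3 : δ * (c0 * ν) ≤ 1 / 8 * (c0 * ν) := mul_le_mul_of_nonneg_right hδ8 (by positivity)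
    have a4 : 0 < c0 * ν := by positivity
    calc δ * Λ = δ * (Am m * q) + δ * (c0 * ν) := by rw [hΛ]; ring
      _ ≤ c0 * ν := by linarith
  set r2 : ℝ := r0 / (256 * m * (m + 3)) with hr2
  have hr20 : 0 < r2 := by positivity
  refine H hν h hfin hx0 (r0 := r2) (T0 := max 0 T1) (Λ := Λ) (δ := δ)
    hr20 (le_max_left _ _) (max_lt hT hT1) hΛ0 hδ0 hδ8 hδΛ ?_ (max K1 0) r1 T1
    (le_max_right _ _) hr1 hT1 ?_ hS
  · have h1 := ae_mono (Measure.restrict_mono (Ioo_subset_Ioo (le_max_right 0 T1) (le_refl T))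
      le_rfl) hall
    filter_upwards [h1, ae_restrict_mem measurableSet_Ioo] with t ht ht2 x hx a ha har
    have htI : t ∈ Ioo 0 T := ⟨(le_max_left 0 T1).trans_lt ht2.1, ht2.2⟩
    obtain ⟨⟨e, he, hue⟩, -⟩ := ht
    have h4 := morrey_uK h hE hr0 hm1 hK hl htI he
      (hue.mono hmη le_rfl (ball_subset_ball (by linarith))) x hx a ha har
    refine h4.trans (div_le_div_of_nonneg_right ?_ (by positivity))
    rw [hΛ]
    have : 0 < c0 * ν := by positivity
    linarith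
  · filter_upwards [hall] with t ht
    exact ht.2.mono (le_max_left _ _) le_rfl (subset_refl _)

end Pool.Agent.R210
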