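import Pool.Agent.R210.U2

/-!
Periodic solutions: two scales, with explicit constants.
-/

open MeasureTheory Set Metric Filter Topology
open scoped ContDiff ENNReal RealInnerProductSpace
open H459R3.NS W221.NS W221.NS.B

namespace Pool.Agent.R210

/-- The case of periodic solutions with a force. -/
theorem peri_expl {η : ℝ} (hη : 0 < η) : ∃ c : ℝ, 0 < c ∧ ∀ {ν T F : ℝ} {u : ℝ → V → V}
    {p : ℝ → V → ℝ} {f : ℝ → V → V} (_ : 0 < ν) (_ : 0 < T) (_ : IsSolF ν T F u p f) {x0 : V}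
    (_ : x0 ∈ cube) (_ : Sing T u x0) {E r0 K δ : ℝ} (_ : 0 ≤ E)
    (_ : ∀ t ∈ Ioo 0 T, energy (u t) ≤ E ^ 2) (_ : 0 < r0) (_ : r0 ≤ 1) (_ : 0 ≤ K)
    (_ : 0 ≤ δ) (_ : δ ≤ 1 / 8) (_ : δ * (E / Real.sqrt r0 + K * r0 ^ 2) ≤ c * ν),
    ∀ K1 r1 T1 : ℝ, 0 < r1 → T1 < T →
      ¬ ∀ᵐ t ∂volume.restrict (Ioo T1 T),
        (∃ e : V, en e = 1 ∧ ConeK (cu (u t)) e η K (ball x0 r0)) ∧
        SinL (cu (u t)) K1 δ (ball x0 r1) := by
  obtain ⟨c, hc, H⟩ := sing_expl hη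
  refine ⟨c / 15, by positivity, ?_⟩
  intro ν T F u p f hν hT hu' x0 hx0 hS E r0 K δ hE hEn hr0 hr01 hK hδ0 hδ8 hδ
  obtain ⟨h5a, h5b⟩ := p_pero
  have hu : IsSolF ν T |F| u p f :=
    { hu' with force := fun t ht => bd3_mono (le_abs_self F) (hu'.force t ht) }
  obtain ⟨-, hint⟩ := p_pen3 ν T |F| u p f hν hT (abs_nonneg F) hu
  have hO : OSolF ν T (15 * E) |F| (ball 0 3) u p f := h5a ν T E |F| u p f hT hE hu hEn
  have hsp : ∀ t ∈ Ioo 0 T, SPV (u t) := fun t ht =>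
    ⟨slice_ico hu.smooth_u ⟨ht.1.le, ht.2⟩, hu.per_u t ⟨ht.1.le, ht.2⟩⟩
  have hfin : ∫⁻ t in Ioo 0 T, ∫⁻ y in ball (0 : V) 3, ENNReal.ofReal (gsq (u t) y) ≠ ⊤ := by
    have h1 : ∫⁻ t in Ioo 0 T, ∫⁻ y in ball (0 : V) 3, ENNReal.ofReal (gsq (u t) y)
        = ∫⁻ t in Ioo 0 T, ENNReal.ofReal (216 * enstrophy (u t)) := by
      apply setLIntegral_congr_fun measurableSet_Ioo
      intro t ht
      exact h5b _ (hsp t ht)
    rw [h1]
    exact ((hint.const_mul 216).lintegral_lt_top).ne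
  have hx1 : ‖x0‖ ≤ 1 := by
    rw [pi_norm_le_iff_of_nonneg zero_le_one]
    intro i
    rw [Real.norm_eq_abs, abs_of_nonneg (hx0.1 i)]
    exact hx0.2 i
  have hsub : closedBall x0 r0 ⊆ ball (0 : V) 3 := by
    intro y hy
    rw [mem_closedBall, dist_eq_norm] at hy
    rw [mem_ball_zero_iff]
    have h3 : ‖y‖ ≤ ‖y - x0‖ + ‖x0‖ := by
      have := norm_add_le (y - x0) x0
      rwa [sub_add_cancel] at this
    linarith
  refine H (E := 15 * E) (K := K) hν hT (by positivity) hO hfin hS hr0 hsub hK hδ0 hδ8 ?_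
  have h1 : δ * (15 * E / Real.sqrt r0 + K * r0 ^ 2)
      ≤ 15 * (δ * (E / Real.sqrt r0 + K * r0 ^ 2)) := by
    have h2 : 0 ≤ δ * (K * r0 ^ 2) := by positivity
    have e1 : δ * (15 * E / Real.sqrt r0 + K * r0 ^ 2)
        = 15 * (δ * (E / Real.sqrt r0)) + δ * (K * r0 ^ 2) := by ring
    have e2 : 15 * (δ * (E / Real.sqrt r0 + K * r0 ^ 2))
        = 15 * (δ * (E / Real.sqrt r0)) + 15 * (δ * (K * r0 ^ 2)) := by ring
    rw [e1, e2]
    linarith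
  refine h1.trans ?_
  have h3 : 15 * (c / 15 * ν) = c * ν := by ring
  linarith

end Pool.Agent.R210
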