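import Pool.Agent.R210.U3

/-!
Lines of the vorticity: two scales, with explicit constants.
-/

open MeasureTheory Set Metric Filter Topology
open scoped ContDiff ENNReal RealInnerProductSpace
open H459R3.NS W221.NS W221.NS.B

namespace Pool.Agent.R210

theorem en_cu_cont {ν T E F : ℝ} {Ω : Set V} {u : ℝ → V → V} {p : ℝ → V → ℝ} {f : ℝ → V → V}
    (h : OSolF ν T E F Ω u p f) {s : ℝ} (hs : s ∈ Ioo 0 T) :
    ContinuousOn (fun y => en (cu (u s) y)) Ω := by
  have hp : ∀ i j, ContinuousOn (pd j fun y => u s y i) Ω := fun i j =>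
    (cd_pd h.openO (slice_u h hs i) j).continuousOn
  have hc : ContinuousOn (cu (u s)) Ω := by
    refine continuousOn_pi.2 fun i => ?_
    fin_cases i
    · exact (hp 2 1).sub (hp 1 2)
    · exact (hp 0 2).sub (hp 2 0)
    · exact (hp 1 0).sub (hp 0 1)
  exact (Real.continuous_sqrt.comp rsq_smooth.continuous).comp_continuousOn hc

/-- At an interior singular point: if the values of the vorticity stay in a double cone at the
scale `r0`, the line of the vorticity oscillates by an explicit amount at all small scales. -/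
theorem sing_lineE {η : ℝ} (hη : 0 < η) : ∃ c : ℝ, 0 < c ∧ ∀ {ν T E F : ℝ} {Ω : Set V}
    {u : ℝ → V → V} {p : ℝ → V → ℝ} {f : ℝ → V → V} (_ : 0 < ν) (_ : 0 < T)
    (_ : OSolF ν T E F Ω u p f)
    (_ : ∫⁻ t in Ioo 0 T, ∫⁻ y in Ω, ENNReal.ofReal (gsq (u t) y) ≠ ⊤) {x0 : V}
    (_ : Sing T u x0) {r0 J δ T0 : ℝ} (_ : 0 < r0) (_ : closedBall x0 r0 ⊆ Ω) (_ : T0 < T)
    (_ : 0 ≤ J) (_ : ∀ᵐ t ∂volume.restrict (Ioo T0 T), ∫ y in ball x0 r0, en (cu (u t) y) ≤ J)
    (_ : 0 ≤ δ) (_ : δ ≤ 1 / 8) (_ : δ * J ≤ c * ν * r0),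
    ∀ K1 r1 T1 : ℝ, 0 < r1 → T1 < T →
      ¬ ∀ᵐ t ∂volume.restrict (Ioo T1 T),
        (∃ e : V, en e = 1 ∧ ConeL (cu (u t)) e η (ball x0 r0)) ∧
        SinL (cu (u t)) K1 δ (ball x0 r1) := by
  obtain ⟨c0, hc0, hc01, H⟩ := local_regL
  set m : ℝ := max 1 η⁻¹ with hm
  have hm1 : 1 ≤ m := le_max_left _ _
  have hm0 : 0 < m := by linarith
  have hmη : m⁻¹ ≤ η := by
    rw [inv_le_comm₀ hm0 hη]
    exact le_max_right _ _
  have hCG := CGm_pos hm0
  refine ⟨c0 / (64 * CGm m * (m + 3)), by positivity, ?_⟩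
  intro ν T E F Ω u p f hν hT h hfin x0 hS r0 J δ T0 hr0 hΩ hT0 hJ0 hJ hδ0 hδ8 hδ K1 r1 T1 hr1 hT1
    hall
  have hx0 : x0 ∈ Ω := hΩ (mem_closedBall_self hr0.le)
  have hl4 : ∀ z ∈ closedBall (0 : V) (1 / 4), x0 + r0 • z ∈ Ω := by
    intro z hz
    refine hΩ ?_
    rw [mem_closedBall, dist_eq_norm, add_sub_cancel_left, norm_smul, Real.norm_eq_abs,
      abs_of_pos hr0]
    rw [mem_closedBall_zero_iff] at hz
    nlinarith [norm_nonneg z]
  set Λ : ℝ := 16 * CGm m * (m + 3) * J / r0 + c0 * ν with hΛ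
  have hΛ0 : 0 < Λ := by positivity
  have hδΛ : δ * Λ ≤ c0 * ν := by
    have a1 : δ * (16 * CGm m * (m + 3) * J / r0) ≤ c0 * ν / 4 := by
      have a2 := mul_le_mul_of_nonneg_left hδ
        (by positivity : 0 ≤ 16 * CGm m * (m + 3) / r0)
      have e1 : 16 * CGm m * (m + 3) / r0 * (c0 / (64 * CGm m * (m + 3)) * ν * r0)
          = c0 * ν / 4 := by
        field_simp
        norm_num
      rw [e1] at a2
      calc δ * (16 * CGm m * (m + 3) * J / r0) = 16 * CGm m * (m + 3) / r0 * (δ * J) := by ring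
        _ ≤ _ := a2
    have a3 : δ * (c0 * ν) ≤ 1 / 8 * (c0 * ν) := mul_le_mul_of_nonneg_right hδ8 (by positivity)
    have a4 : 0 < c0 * ν := by positivity
    calc δ * Λ = δ * (16 * CGm m * (m + 3) * J / r0) + δ * (c0 * ν) := by rw [hΛ]; ring
      _ ≤ c0 * ν := by linarith
  set Tm : ℝ := max 0 (max T0 T1) with hTm
  have hTm0 : 0 ≤ Tm := le_max_left _ _
  have hTm1 : T0 ≤ Tm := (le_max_left _ _).trans (le_max_right _ _)
  have hTm2 : T1 ≤ Tm := (le_max_right _ _).trans (le_max_right _ _)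
  have hTmT : Tm < T := max_lt hT (max_lt hT0 hT1)
  set r2 : ℝ := r0 / (256 * m * (m + 3)) with hr2
  have hr20 : 0 < r2 := by positivity
  refine H hν h hfin hx0 (r0 := r2) (T0 := Tm) (Λ := Λ) (δ := δ)
    hr20 hTm0 hTmT hΛ0 hδ0 hδ8 hδΛ ?_ (max K1 0) r1 T1 (le_max_right _ _) hr1 hT1 ?_ hS
  · have h1 := ae_mono (Measure.restrict_mono (Ioo_subset_Ioo hTm2 (le_refl T)) le_rfl) hall
    have h2 := ae_mono (Measure.restrict_mono (Ioo_subset_Ioo hTm1 (le_refl T)) le_rfl) hJ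
    filter_upwards [h1, h2, ae_restrict_mem measurableSet_Ioo] with t ht htJ ht2 x hx a ha har
    have htI : t ∈ Ioo 0 T := ⟨hTm0.trans_lt ht2.1, ht2.2⟩
    obtain ⟨⟨e, he, hue⟩, -⟩ := ht
    have hue' : ConeL (cu (u t)) e m⁻¹ (ball x0 (r0 * (1 / 8))) := fun y hy =>
      (mul_le_mul_of_nonneg_right hmη (en_nonneg _)).trans
        (hue y (ball_subset_ball (by linarith) hy))
    have hJ' : ∫ y in ball x0 (r0 * (1 / 8)), en (cu (u t) y) ≤ J := by
      refine le_trans ?_ htJ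
      refine setIntegral_mono_set ?_ (Filter.Eventually.of_forall fun x => en_nonneg _)
        (ball_subset_ball (by linarith)).eventuallyLE
      exact (((en_cu_cont h htI).mono hΩ).integrableOn_compact (isCompact_closedBall _ _)).mono_set
        ball_subset_closedBall
    have h4 := morrey_u h hr0 hm1 hl4 htI he hue' hJ' x hx a ha har
    refine h4.trans (div_le_div_of_nonneg_right ?_ (by positivity))
    rw [hΛ]
    have : 0 < c0 * ν := by positivity
    linarith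
  · filter_upwards [hall] with t ht
    exact ht.2.mono (le_max_left _ _) le_rfl (subset_refl _)

end Pool.Agent.R210
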