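import Pool.Agent.R210.U4

/-!
Periodic solutions: lines of the vorticity, two scales.
-/

open MeasureTheory Set Metric Filter Topology
open scoped ContDiff ENNReal RealInnerProductSpace
open H459R3.NS W221.NS W221.NS.B

namespace Pool.Agent.R210

/-- A periodic solution is a solution in a ball. -/
theorem peri_open {ν T F : ℝ} {u : ℝ → V → V} {p : ℝ → V → ℝ} {f : ℝ → V → V} (hν : 0 < ν)
    (hT : 0 < T) (hu' : IsSolF ν T F u p f) :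
    ∃ E : ℝ, OSolF ν T E |F| (ball 0 3) u p f ∧
      ∫⁻ t in Ioo 0 T, ∫⁻ y in ball (0 : V) 3, ENNReal.ofReal (gsq (u t) y) ≠ ⊤ := by
  obtain ⟨h5a, h5b⟩ := p_pero
  have hu : IsSolF ν T |F| u p f :=
    { hu' with force := fun t ht => bd3_mono (le_abs_self F) (hu'.force t ht) }
  obtain ⟨⟨E, hE, hEn⟩, hint⟩ := p_pen3 ν T |F| u p f hν hT (abs_nonneg F) hu
  have hO : OSolF ν T (15 * E) |F| (ball 0 3) u p f := h5a ν T E |F| u p f hT hE hu hEn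
  have hsp : ∀ t ∈ Ioo 0 T, SPV (u t) := fun t ht =>
    ⟨slice_ico hu.smooth_u ⟨ht.1.le, ht.2⟩, hu.per_u t ⟨ht.1.le, ht.2⟩⟩
  refine ⟨15 * E, hO, ?_⟩
  have h1 : ∫⁻ t in Ioo 0 T, ∫⁻ y in ball (0 : V) 3, ENNReal.ofReal (gsq (u t) y)
      = ∫⁻ t in Ioo 0 T, ENNReal.ofReal (216 * enstrophy (u t)) := by
    apply setLIntegral_congr_fun measurableSet_Ioo
    intro t ht
    exact h5b _ (hsp t ht)
  rw [h1]
  exact ((hint.const_mul 216).lintegral_lt_top).ne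

theorem cube_closedBall {x0 : V} (hx0 : x0 ∈ cube) {r0 : ℝ} (hr01 : r0 ≤ 1) :
    closedBall x0 r0 ⊆ ball (0 : V) 3 := by
  have hx1 : ‖x0‖ ≤ 1 := by
    rw [pi_norm_le_iff_of_nonneg zero_le_one]
    intro i
    rw [Real.norm_eq_abs, abs_of_nonneg (hx0.1 i)]
    exact hx0.2 i
  intro y hy
  rw [mem_closedBall, dist_eq_norm] at hy
  rw [mem_ball_zero_iff]
  have h3 : ‖y‖ ≤ ‖y - x0‖ + ‖x0‖ := by
    have := norm_add_le (y - x0) x0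
    rwa [sub_add_cancel] at this
  linarith

/-- The case of periodic solutions with a force. -/
theorem peri_lineE {η : ℝ} (hη : 0 < η) : ∃ c : ℝ, 0 < c ∧ ∀ {ν T F : ℝ} {u : ℝ → V → V}
    {p : ℝ → V → ℝ} {f : ℝ → V → V} (_ : 0 < ν) (_ : 0 < T) (_ : IsSolF ν T F u p f) {x0 : V}
    (_ : x0 ∈ cube) (_ : Sing T u x0) {r0 J δ T0 : ℝ} (_ : 0 < r0) (_ : r0 ≤ 1) (_ : T0 < T)
    (_ : 0 ≤ J) (_ : ∀ᵐ t ∂volume.restrict (Ioo T0 T), ∫ y in ball x0 r0, en (cu (u t) y) ≤ J)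
    (_ : 0 ≤ δ) (_ : δ ≤ 1 / 8) (_ : δ * J ≤ c * ν * r0),
    ∀ K1 r1 T1 : ℝ, 0 < r1 → T1 < T →
      ¬ ∀ᵐ t ∂volume.restrict (Ioo T1 T),
        (∃ e : V, en e = 1 ∧ ConeL (cu (u t)) e η (ball x0 r0)) ∧
        SinL (cu (u t)) K1 δ (ball x0 r1) := by
  obtain ⟨c, hc, H⟩ := sing_lineE hη
  refine ⟨c, hc, ?_⟩
  intro ν T F u p f hν hT hu x0 hx0 hS r0 J δ T0 hr0 hr01 hT0 hJ0 hJ hδ0 hδ8 hδ
  obtain ⟨E, hO, hfin⟩ := peri_open hν hT hu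
  exact H hν hT hO hfin hS hr0 (cube_closedBall hx0 hr01) hT0 hJ0 hJ hδ0 hδ8 hδ

/-- The integral of the absolute value of the vorticity near a point of the cell stays bounded. -/
theorem peri_l1 {ν T F : ℝ} {u : ℝ → V → V} {p : ℝ → V → ℝ} {f : ℝ → V → V} (hν : 0 < ν)
    (hT : 0 < T) (hu : IsSolF ν T F u p f) {x0 : V} (hx0 : x0 ∈ cube) :
    ∃ ρ J ta : ℝ, 0 < ρ ∧ 0 ≤ J ∧ 0 < ta ∧ ta < T ∧
      ∀ t ∈ Ico ta T, ∀ s : ℝ, 0 < s → s ≤ ρ → ∫ y in ball x0 s, en (cu (u t) y) ≤ J := by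
  obtain ⟨E, hO, hfin⟩ := peri_open hν hT hu
  exact l1_local hν hO hfin (cube_sub hx0) hT

end Pool.Agent.R210
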