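import Pool.Agent.R210.N7
import Pool.Agent.R210.M8

/-!
The estimate of the production of enstrophy at a fixed time, for a Hoelder continuous direction of
the vorticity, and the criterion for periodic solutions which follows.
-/

open MeasureTheory Set Metric Filter Topology
open scoped ContDiff ENNReal
open H459R3.NS

namespace Pool.Agent.R210

/-- The estimate at a fixed time: the scale and the Morrey bound come from the energy. -/
theorem comb3 {β ε K E0 : ℝ} (hβ0 : 0 < β) (hβ1 : β ≤ 1) (hε : 0 < ε) (hK : 0 < K)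
    (hE0 : 0 ≤ E0) :
    ∃ C' : ℝ, 0 ≤ C' ∧
    ∀ (v : V → V) (c m : ℝ), (∀ i, SP (fun x => v x i)) →
      (∀ x, ∑ i, pd i (fun y => v y i) x = 0) →
      DirV (cu v) K c β → 1 ≤ c → 1 ≤ m →
      c ^ ((1 + 2 * β) / β ^ 2) ≤ m → ∫ x in cube, rsq (v x) ≤ E0 ^ 2 →
      -(2 * cub (fun i y => v y i)) ≤ ε * palin v + C' * m * enstrophy v := by
  obtain ⟨C', hC'0, hC'⟩ := stat (β := β) (ε := ε / 12) (K := K) (E0 := E0) (R1 := 1) (M1 := 0)
    hβ0 hβ1 (by positivity) hK hE0 one_pos le_rfl le_rfl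
  refine ⟨6 * C', by positivity, fun v c m hv hdiv hdir hc hm hcm hE => ?_⟩
  have hφ : SP (fun _ : V => (1 : ℝ)) := ⟨contDiff_const, fun i x => rfl⟩
  have hgr : ∀ x, gr2 (fun _ : V => (1 : ℝ)) x ≤ 0 := by
    intro x
    have h0 : ∀ i, pd i (fun _ : V => (1 : ℝ)) x = 0 := fun i => by
      unfold pd
      simp
    unfold gr2
    simp only [h0]
    simp
  have h1 := hC' v (fun _ => 1) c m hv hφ (fun _ => zero_le_one) (fun _ => le_rfl) hgr
    (fun x _ => ⟨fun y _ => hdiv y, fun y _ z _ hy hz => hdir y z hy hz⟩) hc hm hcm hE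
  simp only [one_smul, one_pow, one_mul] at h1
  have h2 := int_G2_cu hv
  have h3 := int_rsq_cu hv
  have h4 := cub_eq_Nw hv hdiv
  have hy0 := enstrophy_nonneg v
  have hm0 : 0 ≤ m := by linarith
  have h5 : m * (∫ x in cube, rsq (cu v x)) ≤ m * (2 * enstrophy v) :=
    mul_le_mul_of_nonneg_left h3 hm0
  have h6 : enstrophy v ≤ m * enstrophy v := le_mul_of_one_le_left hy0 hm
  have h7 : C' * (m * (∫ x in cube, rsq (cu v x)) + enstrophy v) ≤ C' * (3 * (m * enstrophy v)) :=
    mul_le_mul_of_nonneg_left (by linarith) hC'0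
  have h8 := (le_abs_self _).trans h1
  have h9 : ε / 12 * (∫ x in cube, G2 (cu v) x) ≤ ε / 12 * (6 * palin v) :=
    mul_le_mul_of_nonneg_left h2 (by positivity)
  have e1 : -(2 * cub (fun i y => v y i)) = 2 * Nw (cu v) v := by
    rw [← h4]; ring
  rw [e1]
  have e2 : 6 * C' * m * enstrophy v = 2 * (C' * (3 * (m * enstrophy v))) := by ring
  rw [e2]
  linarith

variable {ν T : ℝ} {u : ℝ → V → V} {p : ℝ → V → ℝ}

theorem int_rsq_energy {v : V → V} (hv : ∀ i, SP (fun x => v x i)) :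
    ∫ x in cube, rsq (v x) = energy v := by
  unfold energy rsq
  exact integral_finsetSum _ fun i _ => integrableOn_cube ((hv i).cont.pow 2)

/-- The criterion. -/
theorem criterion3 (h : IsSol ν T u p) (hν : 0 < ν) {β K : ℝ} (hβ0 : 0 < β) (hβ1 : β ≤ 1)
    {c d : ℝ → ℝ}
    (hc : MemLp c (ENNReal.ofReal ((1 + 2 * β) / β ^ 2)) (volume.restrict (Ioo 0 T)))
    (hd : MemLp d (ENNReal.ofReal (2 * (1 + β) / β ^ 2)) (volume.restrict (Ioo 0 T)))
    (hdir : ∀ᵐ t ∂volume.restrict (Ioo 0 T),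
      (∀ x y, en (crossProduct (cu (u t) x) (cu (u t) y))
        ≤ d t * en (x - y) ^ β * (en (cu (u t) x) * en (cu (u t) y))) ∨
      (∀ x y, K < en (cu (u t) x) → K < en (cu (u t) y) →
        en (en (cu (u t) y) • cu (u t) x - en (cu (u t) x) • cu (u t) y)
          ≤ c t * en (x - y) ^ β * (en (cu (u t) x) * en (cu (u t) y)))) :
    (∃ A, ∀ t ∈ Ico 0 T, enstrophy (u t) ≤ A) ∧ ∃ M, ∀ t ∈ Ico 0 T, ∀ x i, |u t x i| ≤ M := by
  classical
  rcases le_or_gt T 0 with hT | hT
  · have : Ico 0 T = ∅ := Ico_eq_empty (by linarith)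
    rw [this]
    exact ⟨⟨0, fun t ht => absurd ht (notMem_empty t)⟩, ⟨0, fun t ht => absurd ht (notMem_empty t)⟩⟩
  set L : ℝ := max K 1 with hL
  have hL0 : 0 < L := lt_max_of_lt_right one_pos
  set E0 : ℝ := energy (u 0) / (2 * ν) with hE0
  have hE : ∀ t ∈ Ico 0 T, ∫ s in (0 : ℝ)..t, enstrophy (u s) ≤ E0 := fun t ht =>
    h.int_enstrophy hν ht
  set J : ℝ := EH (u 0) + 4 * E0 with hJ
  have hJt : ∀ t ∈ Ico 0 T, ∫ x in cube, en (cu (u t) x) ≤ J := by
    intro t ht
    have h1 := int_en_le (v := u t) fun i => h.sp ht i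
    have h2 := EH_le h hν ht
    have h3 := hE t ht
    rw [hJ]; linarith
  have hJ0 : 0 ≤ J := (integral_nonneg fun x => en_nonneg _).trans (hJt 0 ⟨le_rfl, hT⟩)
  have hen0 : 0 ≤ energy (u 0) := by
    unfold energy
    exact Finset.sum_nonneg fun i _ => integral_nonneg fun x => sq_nonneg _
  have hEt : ∀ t ∈ Ico 0 T, ∫ x in cube, rsq (u t x) ≤ Real.sqrt (energy (u 0)) ^ 2 := by
    intro t ht
    rw [int_rsq_energy fun i => h.sp ht i, Real.sq_sqrt hen0]
    exact h.energy_le hν ht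
  set Q : ℝ := 2 * (1 + β) / β ^ 2 with hQ
  have hQ0 : 0 < Q := by positivity
  set Q1 : ℝ := (1 + 2 * β) / β ^ 2 with hQ1
  have hQ10 : 0 < Q1 := by positivity
  obtain ⟨C2, hC20, hC2⟩ := comb2 (β := β) (ε := ν) (K := L) (J := J) hβ0 hβ1 hν hL0 hJ0
  obtain ⟨C3', hC30, hC3⟩ := comb3 (β := β) (ε := ν) (K := L) (E0 := Real.sqrt (energy (u 0)))
    hβ0 hβ1 hν hL0 (Real.sqrt_nonneg _)
  set C' : ℝ := max C2 C3' with hC'
  have hC'0 : 0 ≤ C' := hC20.trans (le_max_left _ _)
  have hci : IntegrableOn (fun t => |c t| ^ Q1) (Ioo 0 T) := by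
    have h1 := hc.integrable_norm_rpow (by simpa using hQ10) ENNReal.ofReal_ne_top
    rw [ENNReal.toReal_ofReal hQ10.le] at h1
    exact h1
  have hdi : IntegrableOn (fun t => |d t| ^ Q) (Ioo 0 T) := by
    have h1 := hd.integrable_norm_rpow (by simpa using hQ0) ENNReal.ofReal_ne_top
    rw [ENNReal.toReal_ofReal hQ0.le] at h1
    exact h1
  set m0 : ℝ → ℝ := fun s => 1 + |c s| ^ Q1 + |d s| ^ Q with hm0
  have hm01 : ∀ s, 1 ≤ m0 s := fun s => by
    have := Real.rpow_nonneg (abs_nonneg (c s)) Q1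
    have := Real.rpow_nonneg (abs_nonneg (d s)) Q
    simp only [hm0]; linarith
  have hm0i : IntegrableOn m0 (Ioo 0 T) := by
    have h2 : IntegrableOn (fun _ : ℝ => (1 : ℝ)) (Ioo 0 T) := by simp [integrableOn_const_iff]
    exact (h2.add hci).add hdi
  set m : ℝ → ℝ := fun s => m0 s + enstrophy (u s) with hm
  have hy0 : ∀ s, 0 ≤ enstrophy (u s) := fun s => enstrophy_nonneg _
  have hm1 : ∀ s, 1 ≤ m s := fun s => by
    have := hm01 s; have := hy0 s
    simp only [hm]; linarith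
  set P : ℝ → Prop := fun s =>
      (∀ x y, en (crossProduct (cu (u s) x) (cu (u s) y))
        ≤ d s * en (x - y) ^ β * (en (cu (u s) x) * en (cu (u s) y))) ∨
      (∀ x y, K < en (cu (u s) x) → K < en (cu (u s) y) →
        en (en (cu (u s) y) • cu (u s) x - en (cu (u s) x) • cu (u s) y)
          ≤ c s * en (x - y) ^ β * (en (cu (u s) x) * en (cu (u s) y))) with hP
  have hMex : ∀ s, ∃ M : ℝ, s ∈ Ioo 0 T → 0 ≤ M ∧
      -(2 * cub (fun i y => u s y i)) ≤ M * enstrophy (u s) := by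
    intro s
    by_cases hs : s ∈ Ioo 0 T
    · obtain ⟨M, hM1, hM2⟩ := cub_bound (v := u s) fun i => h.sp ⟨hs.1.le, hs.2⟩ i
      exact ⟨M, fun _ => ⟨hM1, hM2⟩⟩
    · exact ⟨0, fun h => absurd h hs⟩
  choose M hM using hMex
  set g : ℝ → ℝ := fun s => if P s then C' * m s else M s with hg
  have hmax : ∀ (b : ℝ → ℝ) (x y : V) (s : ℝ),
      b s * en (x - y) ^ β * (en (cu (u s) x) * en (cu (u s) y))
        ≤ max |b s| 1 * en (x - y) ^ β * (en (cu (u s) x) * en (cu (u s) y)) := by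
    intro b x y s
    have h2 : 0 ≤ en (x - y) ^ β := Real.rpow_nonneg (en_nonneg _) _
    have h3 : 0 ≤ en (cu (u s) x) * en (cu (u s) y) := mul_nonneg (en_nonneg _) (en_nonneg _)
    refine mul_le_mul_of_nonneg_right (mul_le_mul_of_nonneg_right ?_ h2) h3
    exact (le_abs_self _).trans (le_max_left _ _)
  have hmaxp : ∀ (b : ℝ → ℝ) (q : ℝ) (s : ℝ), max |b s| 1 ^ q ≤ 1 + |b s| ^ q := by
    intro b q s
    have h3 := Real.rpow_nonneg (abs_nonneg (b s)) q
    rcases max_cases |b s| 1 with h4 | h4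
    · rw [h4.1]; linarith
    · rw [h4.1, Real.one_rpow]; linarith
  have hgood : ∀ s ∈ Ioo 0 T, P s →
      -(2 * cub (fun i y => u s y i)) ≤ ν * palin (u s) + C' * m s * enstrophy (u s) := by
    intro s hs hPs
    have hI : s ∈ Ico 0 T := ⟨hs.1.le, hs.2⟩
    have hmy : 0 ≤ m s * enstrophy (u s) := mul_nonneg (by linarith [hm1 s]) (hy0 s)
    have hc0 := Real.rpow_nonneg (abs_nonneg (c s)) Q1
    have hd0 := Real.rpow_nonneg (abs_nonneg (d s)) Q
    rcases hPs with h1 | h1
    · have h6 := hC2 (u s) (max |d s| 1) (m s) (fun i => h.sp hI i) (h.divfree s hI) ?_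
        (le_max_right _ _) (hm1 s) ?_ ?_ (hJt s hI)
      · have h7 : C2 * (m s * enstrophy (u s)) ≤ C' * (m s * enstrophy (u s)) :=
          mul_le_mul_of_nonneg_right (le_max_left _ _) hmy
        have e1 : C2 * m s * enstrophy (u s) = C2 * (m s * enstrophy (u s)) := by ring
        have e2 : C' * m s * enstrophy (u s) = C' * (m s * enstrophy (u s)) := by ring
        linarith
      · left
        intro x y
        have h5 := pow_le_pow_left₀ (en_nonneg _) ((h1 x y).trans (hmax d x y s)) 2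
        rw [en_sq] at h5
        refine h5.trans (le_of_eq ?_)
        rw [← en_sq (cu (u s) x), ← en_sq (cu (u s) y)]
        ring
      · have := hmaxp d Q s
        have := hy0 s
        simp only [hm, hm0]; linarith
      · have := hm01 s
        simp only [hm]; linarith
    · have h6 := hC3 (u s) (max |c s| 1) (m s) (fun i => h.sp hI i) (h.divfree s hI) ?_
        (le_max_right _ _) (hm1 s) ?_ (hEt s hI)
      · have h7 : C3' * (m s * enstrophy (u s)) ≤ C' * (m s * enstrophy (u s)) :=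
          mul_le_mul_of_nonneg_right (le_max_right _ _) hmy
        have e1 : C3' * m s * enstrophy (u s) = C3' * (m s * enstrophy (u s)) := by ring
        have e2 : C' * m s * enstrophy (u s) = C' * (m s * enstrophy (u s)) := by ring
        linarith
      · intro x y hx hy
        exact (h1 x y ((le_max_left K 1).trans_lt hx) ((le_max_left K 1).trans_lt hy)).trans
          (hmax c x y s)
      · have := hmaxp c Q1 s
        have := hy0 s
        simp only [hm, hm0]; linarith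
  -- integrability
  have hEc : ∀ t ∈ Ico 0 T, ContinuousOn (fun s => enstrophy (u s)) (Icc 0 t) := fun t ht =>
    h.enstrophy_continuousOn.mono fun s hs => ⟨hs.1, hs.2.trans_lt ht.2⟩
  have hsub : ∀ t ∈ Ico 0 T, Ioc 0 t ⊆ Ioo 0 T := fun t ht s hs => ⟨hs.1, hs.2.trans_lt ht.2⟩
  have hi0 : ∀ t ∈ Ico 0 T, IntegrableOn m0 (Ioc 0 t) := fun t ht => hm0i.mono_set (hsub t ht)
  have hi1 : ∀ t ∈ Ico 0 T, IntegrableOn (fun s => enstrophy (u s)) (Ioc 0 t) := fun t ht =>
    (hEc t ht).integrableOn_Icc.mono_set Ioc_subset_Icc_self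
  have him : ∀ t ∈ Ico 0 T, IntegrableOn m (Ioc 0 t) := fun t ht => (hi0 t ht).add (hi1 t ht)
  have hgae : ∀ t ∈ Ico 0 T, (fun s => C' * m s) =ᵐ[volume.restrict (Ioc 0 t)] g := by
    intro t ht
    have h1 : ∀ᵐ s ∂volume.restrict (Ioc 0 t), P s :=
      ae_mono (Measure.restrict_mono (hsub t ht) le_rfl) hdir
    filter_upwards [h1] with s hs
    simp only [hg, if_pos hs]
  have hgi : ∀ t ∈ Ico 0 T, IntegrableOn g (Icc 0 t) := by
    intro t ht
    rw [integrableOn_Icc_iff_integrableOn_Ioc]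
    exact ((him t ht).const_mul C').congr (hgae t ht)
  have hres := h.gron hν (g := g) (δ := 1)
    (B := C' * ((∫ s in Ioo 0 T, m0 s) + E0)) one_pos ?_ hgi ?_ ?_
  · exact ⟨⟨_, hres.1⟩, hres.2⟩
  · intro s hs
    simp only [hg]
    split_ifs with hPs
    · exact mul_nonneg hC'0 (by linarith [hm1 s])
    · exact (hM s hs).1
  · intro t ht
    rw [intervalIntegral.integral_of_le ht.1, ← integral_congr_ae (hgae t ht),
      integral_const_mul]
    refine mul_le_mul_of_nonneg_left ?_ hC'0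
    have e1 : ∫ s in Ioc 0 t, m s = (∫ s in Ioc 0 t, m0 s) + ∫ s in Ioc 0 t, enstrophy (u s) := by
      simp only [hm]
      exact integral_add (hi0 t ht) (hi1 t ht)
    have a1 : ∫ s in Ioc 0 t, m0 s ≤ ∫ s in Ioo 0 T, m0 s :=
      setIntegral_mono_set hm0i (Filter.Eventually.of_forall fun s => zero_le_one.trans (hm01 s))
        (hsub t ht).eventuallyLE
    have a2 := hE t ht
    rw [intervalIntegral.integral_of_le ht.1] at a2
    rw [e1]
    linarith
  · intro s hs
    simp only [hg]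
    split_ifs with hPs
    · have := hgood s hs hPs
      linarith
    · have h1 := (hM s hs).2
      have h2 : 0 ≤ (2 - 1) * (ν * palin (u s)) := by
        have := palin_nonneg (u s)
        positivity
      linarith

end Pool.Agent.R210
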