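import Pool.Agent.R210.RenS
import Pool.Agent.R210.Prof

/-!
Convolution with smooth kernels with compact support in three dimensional Euclidean space.
-/

open MeasureTheory Set Metric Filter Topology
open scoped ENNReal ContDiff RealInnerProductSpace Convolution

namespace Pool.Agent.R210

/-- A smooth kernel with compact support. -/
structure SK (K : E → ℝ) : Prop where
  smooth : ContDiff ℝ ∞ K
  cpt : HasCompactSupport K

/-- The partial derivative. -/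
noncomputable def dE (i : Fin 3) (K : E → ℝ) (x : E) : ℝ := fderiv ℝ K x (ei i)

variable {f K : E → ℝ}

theorem dE_contDiff (h : ContDiff ℝ ∞ K) (i : Fin 3) : ContDiff ℝ ∞ (dE i K) :=
  (h.fderiv_right (m := ∞) (by simp)).clm_apply contDiff_const

theorem SK.d (h : SK K) (i : Fin 3) : SK (dE i K) where
  smooth := dE_contDiff h.smooth i
  cpt := (h.cpt.fderiv (𝕜 := ℝ)).comp_left (g := fun L : E →L[ℝ] ℝ => L (ei i)) (by simp)

theorem SK.cont (h : SK K) : Continuous K := h.smooth.continuous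

theorem SK.int (h : SK K) : Integrable K := h.cont.integrable_of_hasCompactSupport h.cpt

theorem dE_comm (h : ContDiff ℝ ∞ K) (i j : Fin 3) (x : E) :
    dE i (dE j K) x = dE j (dE i K) x := by
  have h1 : ∀ a b : Fin 3, dE a (dE b K) x = fderiv ℝ (fderiv ℝ K) x (ei a) (ei b) := by
    intro a b
    have h2 : ContDiff ℝ ∞ (fderiv ℝ K) := h.fderiv_right (by simp)
    have h3 : HasFDerivAt (fun y => fderiv ℝ K y (ei b))
        ((ContinuousLinearMap.apply ℝ ℝ (ei b)).comp (fderiv ℝ (fderiv ℝ K) x)) x :=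
      (ContinuousLinearMap.apply ℝ ℝ (ei b)).hasFDerivAt.comp x
        (h2.differentiable (by norm_num) x).hasFDerivAt
    have h4 : dE a (dE b K) x = fderiv ℝ (fun y => fderiv ℝ K y (ei b)) x (ei a) := rfl
    rw [h4, h3.fderiv]
    rfl
  rw [h1, h1]
  have h5 : IsSymmSndFDerivAt ℝ K x := h.contDiffAt.isSymmSndFDerivAt
    (by simp only [minSmoothness_of_isRCLikeNormedField]; exact ENat.LEInfty.out)
  exact h5 (ei i) (ei j)

/-- The convolution. -/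
noncomputable def cv (f K : E → ℝ) (x : E) : ℝ := ∫ y, f y * K (x - y)

theorem cv_conv (f K : E → ℝ) : cv f K = (f ⋆[ContinuousLinearMap.mul ℝ ℝ, volume] K) := rfl

theorem cv_int (hf : LocallyIntegrable f volume) (hK : Continuous K) (hc : HasCompactSupport K)
    (x : E) : Integrable fun y => f y * K (x - y) :=
  (hc.convolutionExists_right (ContinuousLinearMap.mul ℝ ℝ) hf hK x)

theorem cv_contDiff (hf : LocallyIntegrable f volume) (hK : SK K) : ContDiff ℝ ∞ (cv f K) := by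
  rw [cv_conv]
  exact hK.cpt.contDiff_convolution_right (n := ⊤) _ hf hK.smooth

theorem cv_dE (hf : LocallyIntegrable f volume) (hK : SK K) (i : Fin 3) (x : E) :
    dE i (cv f K) x = cv f (dE i K) x := by
  have h1 := hK.cpt.hasFDerivAt_convolution_right (ContinuousLinearMap.mul ℝ ℝ) hf
    (hK.smooth.of_le (by norm_cast)) x
  unfold dE
  rw [cv_conv, h1.fderiv, convolution_precompR_apply _ hf (hK.cpt.fderiv (𝕜 := ℝ))
    (hK.smooth.continuous_fderiv (by norm_num))]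
  rfl

theorem cv_swap (f K : E → ℝ) (x : E) : cv f K x = ∫ z, f (x - z) * K z := by
  rw [cv_conv, convolution_eq_swap]
  rfl

/-- The Cauchy-Schwarz inequality with a weight. -/
theorem lint_cs {α : Type*} [MeasurableSpace α] {μ : Measure α} {a b : α → ℝ≥0∞}
    (ha : AEMeasurable a μ) (hb : AEMeasurable b μ) :
    (∫⁻ y, a y * b y ∂μ) ^ 2 ≤ (∫⁻ y, a y ^ 2 * b y ∂μ) * ∫⁻ y, b y ∂μ := by
  have h1 := ENNReal.lintegral_mul_le_Lp_mul_Lq μ Real.HolderConjugate.two_two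
    (ha.mul (hb.pow_const (1 / 2 : ℝ))) (hb.pow_const (1 / 2 : ℝ))
  have e1 : ∀ y, (a y * b y ^ (1 / 2 : ℝ)) * b y ^ (1 / 2 : ℝ) = a y * b y := by
    intro y
    rw [mul_assoc, ← ENNReal.rpow_add_of_nonneg _ _ (by norm_num) (by norm_num)]
    norm_num
  have e2 : ∀ y, (a y * b y ^ (1 / 2 : ℝ)) ^ (2 : ℝ) = a y ^ 2 * b y := by
    intro y
    rw [ENNReal.mul_rpow_of_nonneg _ _ (by norm_num), ← ENNReal.rpow_mul]
    norm_num
  have e3 : ∀ y, (b y ^ (1 / 2 : ℝ)) ^ (2 : ℝ) = b y := by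
    intro y
    rw [← ENNReal.rpow_mul]
    norm_num
  simp only [Pi.mul_apply, e1, e2, e3] at h1
  calc (∫⁻ y, a y * b y ∂μ) ^ 2
      ≤ ((∫⁻ y, a y ^ 2 * b y ∂μ) ^ (1 / 2 : ℝ) * (∫⁻ y, b y ∂μ) ^ (1 / 2 : ℝ)) ^ 2 := by
        gcongr
    _ = _ := by
        rw [mul_pow, ← ENNReal.rpow_natCast, ← ENNReal.rpow_natCast, ← ENNReal.rpow_mul,
          ← ENNReal.rpow_mul]
        norm_num

/-- The convolution inequality of Young in `L²`. -/
theorem cv_L2 (hf : AEStronglyMeasurable f volume) (hK : Continuous K) :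
    ∫⁻ x, ‖cv f K x‖ₑ ^ 2 ≤ (∫⁻ z, ‖K z‖ₑ) ^ 2 * ∫⁻ y, ‖f y‖ₑ ^ 2 := by
  have h1 : ∀ x, ‖cv f K x‖ₑ ^ 2 ≤ (∫⁻ z, ‖K z‖ₑ) * ∫⁻ z, ‖f (x - z)‖ₑ ^ 2 * ‖K z‖ₑ := by
    intro x
    have h2 : ‖cv f K x‖ₑ ≤ ∫⁻ z, ‖f (x - z)‖ₑ * ‖K z‖ₑ := by
      rw [cv_swap]
      refine (enorm_integral_le_lintegral_enorm _).trans (le_of_eq ?_)
      simp_rw [enorm_mul]
    have hm : AEStronglyMeasurable (fun z => f (x - z)) volume :=
      hf.comp_quasiMeasurePreserving (quasiMeasurePreserving_sub_left volume x)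
    calc ‖cv f K x‖ₑ ^ 2 ≤ (∫⁻ z, ‖f (x - z)‖ₑ * ‖K z‖ₑ) ^ 2 := by gcongr
      _ ≤ _ := by
        rw [mul_comm (∫⁻ z, ‖K z‖ₑ)]
        exact lint_cs hm.enorm hK.measurable.enorm.aemeasurable
  have hm2 : AEMeasurable (fun p : E × E => ‖f (p.1 - p.2)‖ₑ ^ 2 * ‖K p.2‖ₑ)
      (volume.prod volume) := by
    have h3 : AEStronglyMeasurable (fun p : E × E => f (p.1 - p.2)) (volume.prod volume) :=
      hf.comp_quasiMeasurePreserving (quasiMeasurePreserving_sub volume volume)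
    exact (h3.enorm.pow_const 2).mul (hK.measurable.enorm.comp measurable_snd).aemeasurable
  calc ∫⁻ x, ‖cv f K x‖ₑ ^ 2
      ≤ ∫⁻ x, (∫⁻ z, ‖K z‖ₑ) * ∫⁻ z, ‖f (x - z)‖ₑ ^ 2 * ‖K z‖ₑ := lintegral_mono h1
    _ = (∫⁻ z, ‖K z‖ₑ) * ∫⁻ x, ∫⁻ z, ‖f (x - z)‖ₑ ^ 2 * ‖K z‖ₑ := by
        rw [lintegral_const_mul'' _ hm2.lintegral_prod_right']
    _ = (∫⁻ z, ‖K z‖ₑ) * ∫⁻ z, ∫⁻ x, ‖f (x - z)‖ₑ ^ 2 * ‖K z‖ₑ := by
        rw [lintegral_lintegral_swap hm2]
    _ = (∫⁻ z, ‖K z‖ₑ) * ∫⁻ z, (∫⁻ y, ‖f y‖ₑ ^ 2) * ‖K z‖ₑ := by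
        congr 1
        refine lintegral_congr fun z => ?_
        rw [lintegral_mul_const' _ _ enorm_ne_top,
          lintegral_sub_right_eq_self (fun y => ‖f y‖ₑ ^ 2) z]
    _ = _ := by
        rw [lintegral_const_mul _ hK.measurable.enorm]
        ring

end Pool.Agent.R210
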