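import Mathlib

/-!
The chain rule for distributional derivatives on an interval.
-/

open MeasureTheory Set Metric Filter Topology
open scoped ENNReal ContDiff Convolution

namespace Pool.Agent.R210

/-- The chain rule for functions of one variable with a bounded derivative in the sense of
distributions. -/
theorem chain_dist {T K : ℝ} {f g : ℝ → ℝ} (hf : Measurable f) (hg : Measurable g) (hK : 0 ≤ K)
    (hfb : ∀ᵐ t, t ∈ Ioo 0 T → |f t| ≤ K) (hgb : ∀ᵐ t, t ∈ Ioo 0 T → |g t| ≤ K)
    (h : ∀ θ : ℝ → ℝ, ContDiff ℝ ∞ θ → HasCompactSupport θ → tsupport θ ⊆ Ioo 0 T →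
      ∫ t, (deriv θ t * f t + θ t * g t) = 0)
    {H H' : ℝ → ℝ} (hH : ∀ r, HasDerivAt H (H' r) r) (hH' : Continuous H')
    {θ : ℝ → ℝ} (hθ : ContDiff ℝ ∞ θ) (hc : HasCompactSupport θ) (hs : tsupport θ ⊆ Ioo 0 T) :
    ∫ t, (deriv θ t * H (f t) + θ t * (H' (f t) * g t)) = 0 := by
  have hHc : Continuous H := continuous_iff_continuousAt.2 fun r => (hH r).continuousAt
  set f1 : ℝ → ℝ := (Ioo 0 T).indicator f with hf1
  set g1 : ℝ → ℝ := (Ioo 0 T).indicator g with hg1
  have hf1b : ∀ᵐ t, ‖f1 t‖ ≤ K := by
    filter_upwards [hfb] with t ht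
    by_cases h0 : t ∈ Ioo 0 T
    · rw [hf1, indicator_of_mem h0]; exact ht h0
    · rw [hf1, indicator_of_notMem h0]; simpa using hK
  have hg1b : ∀ᵐ t, ‖g1 t‖ ≤ K := by
    filter_upwards [hgb] with t ht
    by_cases h0 : t ∈ Ioo 0 T
    · rw [hg1, indicator_of_mem h0]; exact ht h0
    · rw [hg1, indicator_of_notMem h0]; simpa using hK
  have hf1m : Measurable f1 := hf.indicator measurableSet_Ioo
  have hg1m : Measurable g1 := hg.indicator measurableSet_Ioo
  have hloc : ∀ {a : ℝ → ℝ}, Measurable a → (∀ᵐ t, ‖a t‖ ≤ K) → LocallyIntegrable a volume := by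
    intro a ha hb x
    refine ⟨Ioo (x - 1) (x + 1), Ioo_mem_nhds (by linarith) (by linarith), ?_⟩
    have hc : IntegrableOn (fun _ : ℝ => K) (Ioo (x - 1) (x + 1)) :=
      integrableOn_const (by simp)
    exact hc.mono' ha.aestronglyMeasurable (ae_restrict_of_ae hb)
  have hf1l := hloc hf1m hf1b
  have hg1l := hloc hg1m hg1b
  -- the distance of the support to the complement
  obtain ⟨η, hη, hηs⟩ : ∃ η > 0, ∀ t ∈ tsupport θ, Icc (t - η) (t + η) ⊆ Ioo 0 T := by
    have hcomp : IsCompact (tsupport θ) := hc
    obtain ⟨η, hη, hsub⟩ := hcomp.exists_cthickening_subset_open isOpen_Ioo hs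
    refine ⟨η, hη, fun t ht s hst => hsub ?_⟩
    refine mem_cthickening_of_dist_le s t η _ ht ?_
    rw [Real.dist_eq, abs_le]
    constructor <;> linarith [hst.1, hst.2]
  -- the mollifiers
  let ρ : ℕ → ContDiffBump (0 : ℝ) := fun n =>
    ⟨η / (2 * ((n : ℝ) + 1)), η / ((n : ℝ) + 1), by positivity, by
      have : (0 : ℝ) < (n : ℝ) + 1 := by positivity
      rw [div_lt_div_iff₀ (by positivity) this]
      nlinarith⟩
  have hρout : ∀ n, (ρ n).rOut = η / ((n : ℝ) + 1) := fun n => rfl
  have hρin : ∀ n, (ρ n).rIn = η / (2 * ((n : ℝ) + 1)) := fun n => rfl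
  have hρη : ∀ n, (ρ n).rOut ≤ η := fun n => by
    rw [hρout]
    exact div_le_self hη.le (by linarith [(Nat.cast_nonneg n : (0 : ℝ) ≤ n)])
  have hρ0 : Tendsto (fun n => (ρ n).rOut) atTop (𝓝 0) := by
    have h1 := (tendsto_one_div_add_atTop_nhds_zero_nat (𝕜 := ℝ)).const_mul η
    rw [mul_zero] at h1
    refine h1.congr fun n => ?_
    rw [hρout]; ring
  have hρK : ∀ n, (ρ n).rOut ≤ 2 * (ρ n).rIn := fun n => by
    rw [hρout, hρin]
    refine le_of_eq ?_
    field_simp
  set k : ℕ → ℝ → ℝ := fun n => (ρ n).normed volume with hk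
  have hks : ∀ n, ContDiff ℝ ∞ (k n) := fun n => (ρ n).contDiff_normed
  have hkc : ∀ n, HasCompactSupport (k n) := fun n => (ρ n).hasCompactSupport_normed
  set cf : ℕ → ℝ → ℝ := fun n => (k n ⋆[ContinuousLinearMap.lsmul ℝ ℝ, volume] f1) with hcf
  set cg : ℕ → ℝ → ℝ := fun n => (k n ⋆[ContinuousLinearMap.lsmul ℝ ℝ, volume] g1) with hcg
  have hcfae : ∀ᵐ t, Tendsto (fun n => cf n t) atTop (𝓝 (f1 t)) :=
    ContDiffBump.ae_convolution_tendsto_right_of_locallyIntegrable (K := 2) hρ0
      (Eventually.of_forall hρK) hf1l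
  have hcgae : ∀ᵐ t, Tendsto (fun n => cg n t) atTop (𝓝 (g1 t)) :=
    ContDiffBump.ae_convolution_tendsto_right_of_locallyIntegrable (K := 2) hρ0
      (Eventually.of_forall hρK) hg1l
  have hbd : ∀ {a : ℝ → ℝ}, (∀ᵐ t, ‖a t‖ ≤ K) → Measurable a → ∀ n t,
      |(k n ⋆[ContinuousLinearMap.lsmul ℝ ℝ, volume] a) t| ≤ K := by
    intro a ha ham n t
    rw [convolution_eq_swap]
    have hi : Integrable fun s => k n (t - s) * K :=
      (((ρ n).integrable_normed).comp_sub_left t).mul_const K
    have h1 : ∫ s, k n (t - s) * K = K := by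
      rw [integral_mul_const, integral_sub_left_eq_self (fun s => k n s) volume t]
      have : ∫ s, k n s = 1 := (ρ n).integral_normed
      rw [this, one_mul]
    conv_rhs => rw [← h1]
    rw [← Real.norm_eq_abs]
    refine norm_integral_le_of_norm_le hi ?_
    filter_upwards [ha] with s hs
    simp only [ContinuousLinearMap.lsmul_apply, norm_smul]
    rw [Real.norm_eq_abs, abs_of_nonneg ((ρ n).nonneg_normed (t - s))]
    exact mul_le_mul_of_nonneg_left hs ((ρ n).nonneg_normed (t - s))
  have hderiv : ∀ n t, HasDerivAt (cf n)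
      ((deriv (k n) ⋆[ContinuousLinearMap.lsmul ℝ ℝ, volume] f1) t) t := fun n t =>
    (hkc n).hasDerivAt_convolution_left _ ((hks n).of_le (by norm_cast)) hf1l t
  -- the derivative of the mollified function on the support of `θ`
  have hkey : ∀ n, ∀ t ∈ tsupport θ,
      (deriv (k n) ⋆[ContinuousLinearMap.lsmul ℝ ℝ, volume] f1) t = cg n t := by
    intro n t ht
    have h1 : ContDiff ℝ ∞ fun s => k n (t - s) := (hks n).comp (contDiff_const.sub contDiff_id)
    have h2 : HasCompactSupport fun s => k n (t - s) :=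
      (hkc n).comp_homeomorph (Homeomorph.subLeft t)
    have hsupp : ∀ s, s ∉ Icc (t - η) (t + η) → k n (t - s) = 0 := by
      intro s hs
      have h3 : t - s ∉ Function.support (k n) := by
        rw [hk, (ρ n).support_normed_eq, mem_ball_zero_iff, Real.norm_eq_abs, not_lt]
        refine (hρη n).trans ?_
        by_contra hlt
        rw [not_le, abs_lt] at hlt
        exact hs ⟨by linarith [hlt.2], by linarith [hlt.1]⟩
      simpa using h3
    have h3 : tsupport (fun s => k n (t - s)) ⊆ Ioo 0 T := by
      refine Subset.trans (closure_minimal ?_ isClosed_Icc) (hηs t ht)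
      intro s hs
      by_contra h0
      exact hs (hsupp s h0)
    have h4 := h _ h1 h2 h3
    have h5 : ∀ s, deriv (fun s => k n (t - s)) s = -deriv (k n) (t - s) := by
      intro s
      rw [deriv_comp_const_sub]
    have hz : ∀ s, s ∉ Ioo 0 T → k n (t - s) = 0 ∧ deriv (k n) (t - s) = 0 := by
      intro s hs
      refine ⟨hsupp s fun h => hs (hηs t ht h), ?_⟩
      have h6 : s ∉ tsupport (fun s => k n (t - s)) := fun h => hs (h3 h)
      have h7 : deriv (fun s => k n (t - s)) s = 0 := by
        have h8 : (fun s => k n (t - s)) =ᶠ[𝓝 s] 0 := notMem_tsupport_iff_eventuallyEq.1 h6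
        rw [h8.deriv_eq]
        simp
      rw [h5] at h7
      linarith
    simp_rw [h5] at h4
    have i1 : Integrable fun s => deriv (k n) (t - s) * f1 s := by
      have h6 : HasCompactSupport (deriv (k n)) := (hkc n).deriv
      have h7 : Continuous (deriv (k n)) := (hks n).continuous_deriv (by norm_num)
      have := h6.convolutionExists_left (ContinuousLinearMap.lsmul ℝ ℝ) h7 hf1l t
      have := this.integrable_swap
      simpa using this
    have i2 : Integrable fun s => k n (t - s) * g1 s := by
      have := (hkc n).convolutionExists_left (ContinuousLinearMap.lsmul ℝ ℝ) (hks n).continuous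
        hg1l t
      have := this.integrable_swap
      simpa using this
    have h6 : ∫ s, (-deriv (k n) (t - s) * f s + k n (t - s) * g s)
        = -(∫ s, deriv (k n) (t - s) * f1 s) + ∫ s, k n (t - s) * g1 s := by
      have i3 : Integrable fun s => -(deriv (k n) (t - s) * f1 s) := i1.neg
      rw [← integral_neg, ← integral_add i3 i2]
      refine integral_congr_ae (Eventually.of_forall fun s => ?_)
      by_cases hs : s ∈ Ioo 0 T
      · simp only [hf1, hg1, indicator_of_mem hs]
        ring
      · obtain ⟨h7, h8⟩ := hz s hs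
        simp [h7, h8]
    rw [h6] at h4
    rw [hcg]
    simp only
    rw [convolution_eq_swap, convolution_eq_swap]
    simp only [ContinuousLinearMap.lsmul_apply, smul_eq_mul]
    linarith
  -- the identity for the mollified functions
  have hid : ∀ n, ∫ t, (deriv θ t * H (cf n t) + θ t * (H' (cf n t) * cg n t)) = 0 := by
    intro n
    have hcfc : Continuous (cf n) := continuous_iff_continuousAt.2 fun t => (hderiv n t).continuousAt
    have hcgc : Continuous (cg n) :=
      (hkc n).continuous_convolution_left _ (hks n).continuous hg1l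
    have hd : ∀ t, HasDerivAt (fun t => θ t * H (cf n t))
        (deriv θ t * H (cf n t) + θ t * (H' (cf n t) * cg n t)) t := by
      intro t
      have h1 : HasDerivAt θ (deriv θ t) t := (hθ.differentiable (by norm_num) t).hasDerivAt
      have h2 : HasDerivAt (fun t => H (cf n t)) (H' (cf n t)
          * (deriv (k n) ⋆[ContinuousLinearMap.lsmul ℝ ℝ, volume] f1) t) t :=
        (hH (cf n t)).comp t (hderiv n t)
      refine (h1.mul h2).congr_deriv ?_
      by_cases ht : t ∈ tsupport θ
      · rw [hkey n t ht]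
      · rw [image_eq_zero_of_notMem_tsupport ht]
        simp
    have hc1 : HasCompactSupport fun t => θ t * H (cf n t) := hc.mul_right
    have hc2 : HasCompactSupport fun t =>
        deriv θ t * H (cf n t) + θ t * (H' (cf n t) * cg n t) :=
      (hc.deriv.mul_right).add hc.mul_right
    have hd1 : Continuous (deriv θ) := hθ.continuous_deriv (by norm_num)
    refine integral_eq_zero_of_hasDerivAt_of_integrable hd ?_ ?_
    · exact ((hd1.mul (hHc.comp hcfc)).add (hθ.continuous.mul
        ((hH'.comp hcfc).mul hcgc))).integrable_of_hasCompactSupport hc2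
    · exact (hθ.continuous.mul (hHc.comp hcfc)).integrable_of_hasCompactSupport hc1
  -- the limit
  obtain ⟨B, hB⟩ : ∃ B, ∀ r ∈ Icc (-K) K, ‖H r‖ ≤ B :=
    isCompact_Icc.exists_bound_of_continuousOn hHc.continuousOn
  obtain ⟨B', hB'⟩ : ∃ B, ∀ r ∈ Icc (-K) K, ‖H' r‖ ≤ B :=
    isCompact_Icc.exists_bound_of_continuousOn hH'.continuousOn
  have hd1 : Continuous (deriv θ) := hθ.continuous_deriv (by norm_num)
  have hlim : Tendsto (fun n => ∫ t, (deriv θ t * H (cf n t) + θ t * (H' (cf n t) * cg n t))) atTop
      (𝓝 (∫ t, (deriv θ t * H (f1 t) + θ t * (H' (f1 t) * g1 t)))) := by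
    refine tendsto_integral_of_dominated_convergence
      (fun t => |deriv θ t| * B + |θ t| * (B' * K)) (fun n => ?_) ?_ (fun n => ?_) ?_
    · have hcfc : Continuous (cf n) :=
        continuous_iff_continuousAt.2 fun t => (hderiv n t).continuousAt
      have hcgc : Continuous (cg n) :=
        (hkc n).continuous_convolution_left _ (hks n).continuous hg1l
      exact ((hd1.mul (hHc.comp hcfc)).add (hθ.continuous.mul
        ((hH'.comp hcfc).mul hcgc))).aestronglyMeasurable
    · have h1 : Integrable fun t => |deriv θ t| * B := by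
        exact (hd1.abs.mul continuous_const).integrable_of_hasCompactSupport
          (hc.deriv.comp_left (g := fun r : ℝ => |r|) (by simp)).mul_right
      have h2 : Integrable fun t => |θ t| * (B' * K) := by
        exact (hθ.continuous.abs.mul continuous_const).integrable_of_hasCompactSupport
          (hc.comp_left (g := fun r : ℝ => |r|) (by simp)).mul_right
      exact h1.add h2
    · refine Eventually.of_forall fun t => ?_
      have h1 := hbd hf1b hf1m n t
      have h2 := hbd hg1b hg1m n t
      have h3 : cf n t ∈ Icc (-K) K := abs_le.1 h1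
      have h4 := hB _ h3
      have h5 := hB' _ h3
      refine (norm_add_le _ _).trans (add_le_add ?_ ?_)
      · rw [norm_mul]
        exact mul_le_mul_of_nonneg_left h4 (norm_nonneg _)
      · rw [norm_mul, norm_mul]
        refine mul_le_mul_of_nonneg_left ?_ (norm_nonneg _)
        exact mul_le_mul h5 h2 (norm_nonneg _) ((norm_nonneg _).trans h5)
    · filter_upwards [hcfae, hcgae] with t h1 h2
      exact (((hHc.tendsto _).comp h1).const_mul _).add
        ((((hH'.tendsto _).comp h1).mul h2).const_mul _)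
  simp_rw [hid] at hlim
  have h0 := tendsto_nhds_unique hlim tendsto_const_nhds
  rw [← h0]
  refine integral_congr_ae (Eventually.of_forall fun t => ?_)
  by_cases ht : t ∈ Ioo 0 T
  · simp only [hf1, hg1, indicator_of_mem ht]
  · have h1 : t ∉ tsupport θ := fun h => ht (hs h)
    have h2 : deriv θ t = 0 := by
      have h8 : θ =ᶠ[𝓝 t] 0 := notMem_tsupport_iff_eventuallyEq.1 h1
      rw [h8.deriv_eq]
      simp
    simp [image_eq_zero_of_notMem_tsupport h1, h2]

end Pool.Agent.R210
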