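import Pool.Agent.R210.W9
import Pool.Agent.R210.W10

/-!
The mollified vorticity equation in time: test fields, measurability, bounds.
-/

open MeasureTheory Set Metric Filter Topology
open scoped ENNReal ContDiff RealInnerProductSpace

namespace Pool.Agent.R210

/-- The Laplacian of a vector field. -/
noncomputable def lapE (φ : E → E) (x : E) : E :=
  ∑ k, fderiv ℝ (fun z => fderiv ℝ φ z (ei k)) x (ei k)

/-- The test field. -/
noncomputable def tf (K : E → ℝ) (p q : Fin 3) (x y : E) : E :=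
  dE p K (x - y) • ei q - dE q K (x - y) • ei p

section

variable {K : E → ℝ} (hK : SK K) (p q : Fin 3) (x : E)

theorem ei_inner (v : E) (i : Fin 3) : ⟪v, ei i⟫ = v i := by
  simp [ei, EuclideanSpace.inner_single_right]

include hK

theorem tf_contDiff : ContDiff ℝ ∞ (tf K p q x) :=
  (((hK.d p).sub x).smooth.smul contDiff_const).sub (((hK.d q).sub x).smooth.smul contDiff_const)

theorem tf_cpt : HasCompactSupport (tf K p q x) := by
  have h1 : HasCompactSupport fun y => dE p K (x - y) • ei q := ((hK.d p).sub x).cpt.smul_right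
  have h2 : HasCompactSupport fun y => dE q K (x - y) • ei p := ((hK.d q).sub x).cpt.smul_right
  exact h1.sub h2

theorem fderiv_smul_ei {L : E → ℝ} (hL : SK L) (r k : Fin 3) (y : E) :
    fderiv ℝ (fun y => L (x - y) • ei r) y (ei k) = (-dE k L (x - y)) • ei r := by
  have h1 : HasFDerivAt (fun y => L (x - y) • ei r) _ y :=
    ((hL.sub x).smooth.differentiable (by norm_num) y).hasFDerivAt.smul_const (ei r)
  rw [h1.fderiv]
  have h2 := dE_comp_sub L hL.smooth x k y
  unfold dE at h2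
  rw [ContinuousLinearMap.smulRight_apply, h2]
  rfl

theorem fderiv_tf (k : Fin 3) (y : E) : fderiv ℝ (tf K p q x) y (ei k)
    = (-dE k (dE p K) (x - y)) • ei q - (-dE k (dE q K) (x - y)) • ei p := by
  have h1 : fderiv ℝ (tf K p q x) y = fderiv ℝ (fun y => dE p K (x - y) • ei q) y
      - fderiv ℝ (fun y => dE q K (x - y) • ei p) y := by
    refine HasFDerivAt.fderiv ?_
    exact ((((hK.d p).sub x).smooth.smul contDiff_const).differentiable (by norm_num)
      y).hasFDerivAt.sub ((((hK.d q).sub x).smooth.smul contDiff_const).differentiable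
      (by norm_num) y).hasFDerivAt
  rw [h1]
  show fderiv ℝ (fun y => dE p K (x - y) • ei q) y (ei k)
      - fderiv ℝ (fun y => dE q K (x - y) • ei p) y (ei k) = _
  rw [fderiv_smul_ei hK x (hK.d p), fderiv_smul_ei hK x (hK.d q)]

theorem tf_div (y : E) : dvE (tf K p q x) y = 0 := by
  unfold dvE
  simp_rw [fderiv_tf hK]
  simp only [PiLp.sub_apply, PiLp.smul_apply, smul_eq_mul, ei, PiLp.single_apply, mul_ite, mul_one,
    mul_zero, Finset.sum_sub_distrib, Finset.sum_ite_eq, Finset.sum_ite_eq', Finset.mem_univ,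
    if_true]
  rw [dE_comm hK.smooth p q]
  ring

theorem lap_tf (y : E) : lapE (tf K p q x) y
    = (∑ k, dE k (dE k (dE p K)) (x - y)) • ei q - (∑ k, dE k (dE k (dE q K)) (x - y)) • ei p := by
  unfold lapE
  have h1 : ∀ k, fderiv ℝ (fun z => fderiv ℝ (tf K p q x) z (ei k)) y (ei k)
      = dE k (dE k (dE p K)) (x - y) • ei q - dE k (dE k (dE q K)) (x - y) • ei p := by
    intro k
    have h2 : (fun z => fderiv ℝ (tf K p q x) z (ei k))
        = fun z => (-1 : ℝ) • (dE k (dE p K) (x - z) • ei q) - (-1 : ℝ) • (dE k (dE q K) (x - z) • ei p) := by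
      funext z
      rw [fderiv_tf hK]
      simp
    have h3 : HasFDerivAt (fun z => dE k (dE p K) (x - z) • ei q)
        (fderiv ℝ (fun z => dE k (dE p K) (x - z) • ei q) y) y :=
      (((((hK.d p).d k).sub x).smooth.smul contDiff_const).differentiable (by norm_num)
        y).hasFDerivAt
    have h4 : HasFDerivAt (fun z => dE k (dE q K) (x - z) • ei p)
        (fderiv ℝ (fun z => dE k (dE q K) (x - z) • ei p) y) y :=
      (((((hK.d q).d k).sub x).smooth.smul contDiff_const).differentiable (by norm_num)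
        y).hasFDerivAt
    have h5 : fderiv ℝ (fun z => (-1 : ℝ) • (dE k (dE p K) (x - z) • ei q)
        - (-1 : ℝ) • (dE k (dE q K) (x - z) • ei p)) y = _ :=
      ((h3.const_smul (-1 : ℝ)).sub (h4.const_smul (-1 : ℝ))).fderiv
    rw [h2, h5]
    show (-1 : ℝ) • fderiv ℝ (fun z => dE k (dE p K) (x - z) • ei q) y (ei k)
      - (-1 : ℝ) • fderiv ℝ (fun z => dE k (dE q K) (x - z) • ei p) y (ei k) = _
    rw [fderiv_smul_ei hK x ((hK.d p).d k), fderiv_smul_ei hK x ((hK.d q).d k)]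
    simp
  simp_rw [h1]
  rw [Finset.sum_sub_distrib, ← Finset.sum_smul, ← Finset.sum_smul]

end

variable {u : E → E} {G : E → Fin 3 → Fin 3 → ℝ}

theorem WG.test_av (h : WG u G) {K : E → ℝ} (hK : SK K) (p q : Fin 3) (x : E) :
    ∫ y, ⟪u y, tf K p q x y⟫ = av u K p q x := by
  unfold av cv
  rw [← integral_sub (cv_int (h.uloc q) (hK.d p).cont (hK.d p).cpt x)
    (cv_int (h.uloc p) (hK.d q).cont (hK.d q).cpt x)]
  refine integral_congr_ae (Eventually.of_forall fun y => ?_)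
  simp only [tf]
  rw [inner_sub_right, inner_smul_right, inner_smul_right, ei_inner, ei_inner]
  ring

theorem WG.test_gv (h : WG u G) {K : E → ℝ} (hK : SK K) (p q : Fin 3) (x : E) :
    ∫ y, (⟪u y, fderiv ℝ (tf K p q x) y (u y)⟫ + ⟪u y, lapE (tf K p q x) y⟫) = gv u K p q x := by
  have e1 : ∀ y, ⟪u y, fderiv ℝ (tf K p q x) y (u y)⟫ + ⟪u y, lapE (tf K p q x) y⟫
      = (∑ k, (u y q * dE k (dE k (dE p K)) (x - y) - u y p * dE k (dE k (dE q K)) (x - y)))
        - ∑ k, (u y k * u y q * dE k (dE p K) (x - y) - u y k * u y p * dE k (dE q K) (x - y)) := by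
    intro y
    rw [lin_sum (fderiv ℝ (tf K p q x) y) (u y), lap_tf hK, inner_sub_right, inner_smul_right,
      inner_smul_right, ei_inner, ei_inner, inner_sum]
    have e2 : ∀ k, ⟪u y, u y k • fderiv ℝ (tf K p q x) y (ei k)⟫
        = -(u y k * u y q * dE k (dE p K) (x - y) - u y k * u y p * dE k (dE q K) (x - y)) := by
      intro k
      rw [fderiv_tf hK, inner_smul_right, inner_sub_right, inner_smul_right, inner_smul_right,
        ei_inner, ei_inner]
      ring
    simp_rw [e2]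
    rw [Finset.sum_neg_distrib, Finset.sum_sub_distrib, Finset.sum_sub_distrib,
      Finset.sum_mul, Finset.sum_mul]
    simp_rw [mul_comm (dE _ (dE _ (dE _ K)) (x - y))]
    ring
  simp_rw [e1]
  have i1 : ∀ j r k, Integrable fun y => u y j * dE k (dE k (dE r K)) (x - y) := fun j r k =>
    cv_int (h.uloc j) (((hK.d r).d k).d k).cont (((hK.d r).d k).d k).cpt x
  have i2 : ∀ k j r, Integrable fun y => u y k * u y j * dE k (dE r K) (x - y) := fun k j r =>
    cv_int (h.prod_int k j).locallyIntegrable ((hK.d r).d k).cont ((hK.d r).d k).cpt x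
  have j1 : ∀ k, Integrable fun y => u y q * dE k (dE k (dE p K)) (x - y)
      - u y p * dE k (dE k (dE q K)) (x - y) := fun k => (i1 q p k).sub (i1 p q k)
  have j2 : ∀ k, Integrable fun y => u y k * u y q * dE k (dE p K) (x - y)
      - u y k * u y p * dE k (dE q K) (x - y) := fun k => (i2 k q p).sub (i2 k p q)
  rw [integral_sub (integrable_finsetSum _ fun k _ => j1 k)
      (integrable_finsetSum _ fun k _ => j2 k), integral_finsetSum _ fun k _ => j1 k,
    integral_finsetSum _ fun k _ => j2 k]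
  unfold gv Nv cv
  congr 1
  · exact Finset.sum_congr rfl fun k _ => integral_sub (i1 q p k) (i1 p q k)
  · exact Finset.sum_congr rfl fun k _ => integral_sub (i2 k q p) (i2 k p q)

/-- Joint measurability of a convolution in space. -/
theorem cv_meas {F : ℝ × E → ℝ} (hF : Measurable F) {L : E → ℝ} (hL : Continuous L) :
    Measurable fun z : ℝ × E => cv (fun y => F (z.1, y)) L z.2 := by
  have h1 : Measurable fun p : (ℝ × E) × E => F (p.1.1, p.2) * L (p.1.2 - p.2) := by
    refine (hF.comp (by fun_prop)).mul (hL.measurable.comp (by fun_prop))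
  exact (h1.stronglyMeasurable.integral_prod_right').measurable

theorem int_norm_sq (h : WG u G) : Integrable (fun x => ‖u x‖ ^ 2) ∧
    ∫ x, ‖u x‖ ^ 2 = (∫⁻ x, ‖u x‖ₑ ^ 2).toReal := by
  have h1 : ∫⁻ x, ‖‖u x‖‖ₑ ^ 2 < ⊤ := by
    simp only [enorm_norm]
    simp_rw [enorm_sq_coord]
    rw [lintegral_finsetSum' _ fun i _ => (h.wd i).fm.enorm.pow_const 2]
    exact ENNReal.sum_lt_top.2 fun i _ => (h.wd i).fsq
  have h2 := int_sq_of h.um.norm h1
  simpa using h2

/-- Uniform bounds of convolutions. -/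
theorem cv_unif (h : WG u G) {M : ℝ} (hM0 : 0 ≤ M) (hM : ∫⁻ x, ‖u x‖ₑ ^ 2 ≤ ENNReal.ofReal M) {L : E → ℝ}
    (hL : SK L) {B : ℝ} (hB : ∀ z, |L z| ≤ B) {f : E → ℝ} (hf : ∀ y, |f y| ≤ 1 + ‖u y‖ ^ 2) (x : E) :
    |cv f L x| ≤ (∫ z, |L z|) + B * M := by
  have hB0 : 0 ≤ B := (abs_nonneg _).trans (hB 0)
  obtain ⟨h1, h2⟩ := int_norm_sq h
  have h3 : ∫ x, ‖u x‖ ^ 2 ≤ M := by
    rw [h2]
    exact ENNReal.toReal_le_of_le_ofReal hM0 hM
  have hLi : Integrable fun y => |L (x - y)| := (hL.sub x).int.abs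
  have hi : Integrable fun y => |L (x - y)| + B * ‖u y‖ ^ 2 := hLi.add (h1.const_mul B)
  have h4 : |cv f L x| ≤ ∫ y, (|L (x - y)| + B * ‖u y‖ ^ 2) := by
    rw [← Real.norm_eq_abs]
    refine norm_integral_le_of_norm_le hi (Eventually.of_forall fun y => ?_)
    rw [norm_mul, Real.norm_eq_abs, Real.norm_eq_abs]
    calc |f y| * |L (x - y)| ≤ (1 + ‖u y‖ ^ 2) * |L (x - y)| :=
          mul_le_mul_of_nonneg_right (hf y) (abs_nonneg _)
      _ = |L (x - y)| + ‖u y‖ ^ 2 * |L (x - y)| := by ring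
      _ ≤ |L (x - y)| + ‖u y‖ ^ 2 * B := by
          gcongr
          exact hB _
      _ = _ := by ring
  refine h4.trans ?_
  rw [integral_add hLi (h1.const_mul B), integral_const_mul,
    integral_sub_left_eq_self (fun y => |L y|) volume x]
  exact add_le_add le_rfl (mul_le_mul_of_nonneg_left h3 hB0)

theorem exists_unif {K : E → ℝ} (hK : SK K) (M : ℝ) (hM0 : 0 ≤ M) : ∃ C : ℝ, 0 ≤ C ∧
    ∀ (u : E → E) (G : E → Fin 3 → Fin 3 → ℝ), WG u G → ∫⁻ x, ‖u x‖ₑ ^ 2 ≤ ENNReal.ofReal M →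
    ∀ p q x, |av u K p q x| ≤ C ∧ |gv u K p q x| ≤ C := by
  have hb : ∀ {L : E → ℝ}, SK L → ∃ B, ∀ z, |L z| ≤ B := fun h =>
    h.cont.norm.bddAbove_range_of_hasCompactSupport h.cpt.norm |>.imp fun B hB z => hB ⟨z, rfl⟩
  choose B1 h1 using fun i => hb (hK.d i)
  choose B2 h2 using fun i : Fin 3 => fun k : Fin 3 => hb ((hK.d i).d k)
  choose B3 h3 using fun i : Fin 3 => fun k : Fin 3 => hb (((hK.d i).d k).d k)
  set c1 : Fin 3 → ℝ := fun i => (∫ z, |dE i K z|) + B1 i * M with hc1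
  set c2 : Fin 3 → Fin 3 → ℝ := fun i k => (∫ z, |dE k (dE i K) z|) + B2 i k * M with hc2
  set c3 : Fin 3 → Fin 3 → ℝ := fun i k => (∫ z, |dE k (dE k (dE i K)) z|) + B3 i k * M with hc3
  have hc10 : ∀ i, 0 ≤ c1 i := fun i => add_nonneg (integral_nonneg fun z => abs_nonneg _)
    (mul_nonneg ((abs_nonneg _).trans (h1 i 0)) hM0)
  have hc20 : ∀ i k, 0 ≤ c2 i k := fun i k => add_nonneg (integral_nonneg fun z => abs_nonneg _)
    (mul_nonneg ((abs_nonneg _).trans (h2 i k 0)) hM0)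
  have hc30 : ∀ i k, 0 ≤ c3 i k := fun i k => add_nonneg (integral_nonneg fun z => abs_nonneg _)
    (mul_nonneg ((abs_nonneg _).trans (h3 i k 0)) hM0)
  have hs1 : ∀ i, c1 i ≤ ∑ i, c1 i := fun i =>
    Finset.single_le_sum (f := c1) (fun _ _ => hc10 _) (Finset.mem_univ i)
  have hs2 : ∀ i, ∑ k, c2 i k ≤ ∑ i, ∑ k, c2 i k := fun i =>
    Finset.single_le_sum (f := fun i => ∑ k, c2 i k)
      (fun _ _ => Finset.sum_nonneg fun _ _ => hc20 _ _) (Finset.mem_univ i)
  have hs3 : ∀ i, ∑ k, c3 i k ≤ ∑ i, ∑ k, c3 i k := fun i =>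
    Finset.single_le_sum (f := fun i => ∑ k, c3 i k)
      (fun _ _ => Finset.sum_nonneg fun _ _ => hc30 _ _) (Finset.mem_univ i)
  have hn1 : 0 ≤ ∑ i, c1 i := Finset.sum_nonneg fun i _ => hc10 i
  have hn2 : 0 ≤ ∑ i, ∑ k, c2 i k := Finset.sum_nonneg fun i _ => Finset.sum_nonneg fun k _ => hc20 i k
  have hn3 : 0 ≤ ∑ i, ∑ k, c3 i k := Finset.sum_nonneg fun i _ => Finset.sum_nonneg fun k _ => hc30 i k
  refine ⟨2 * (∑ i, c1 i) + 2 * (∑ i, ∑ k, c2 i k) + 2 * ∑ i, ∑ k, c3 i k, by positivity, ?_⟩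
  intro u G h hM p q x
  have f1 : ∀ j y, |u y j| ≤ 1 + ‖u y‖ ^ 2 := fun j y => by
    have := abs_coord_le (u y) j
    nlinarith [sq_nonneg (‖u y‖ - 1), norm_nonneg (u y)]
  have f2 : ∀ k j y, |u y k * u y j| ≤ 1 + ‖u y‖ ^ 2 := fun k j y => by
    rw [abs_mul]
    have h4 := abs_coord_le (u y) j
    have h5 := abs_coord_le (u y) k
    nlinarith [mul_le_mul h5 h4 (abs_nonneg _) (norm_nonneg _)]
  have g1 : ∀ j i, |cv (fun y => u y j) (dE i K) x| ≤ c1 i := fun j i =>
    cv_unif h hM0 hM (hK.d i) (h1 i) (f1 j) x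
  have g2 : ∀ k j i, |cv (fun y => u y k * u y j) (dE k (dE i K)) x| ≤ c2 i k := fun k j i =>
    cv_unif h hM0 hM ((hK.d i).d k) (h2 i k) (f2 k j) x
  have g3 : ∀ k j i, |cv (fun y => u y j) (dE k (dE k (dE i K))) x| ≤ c3 i k := fun k j i =>
    cv_unif h hM0 hM (((hK.d i).d k).d k) (h3 i k) (f1 j) x
  constructor
  · unfold av
    refine (abs_sub _ _).trans ?_
    have := g1 q p
    have := g1 p q
    linarith [hs1 p, hs1 q]
  · unfold gv Nv
    refine (abs_sub _ _).trans ?_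
    have e3 : |∑ k, (cv (fun y => u y q) (dE k (dE k (dE p K))) x
        - cv (fun y => u y p) (dE k (dE k (dE q K))) x)| ≤ (∑ k, c3 p k) + ∑ k, c3 q k := by
      rw [← Finset.sum_add_distrib]
      refine (Finset.abs_sum_le_sum_abs _ _).trans (Finset.sum_le_sum fun k _ => ?_)
      exact (abs_sub _ _).trans (add_le_add (g3 k q p) (g3 k p q))
    have e2 : |∑ k, (cv (fun y => u y k * u y q) (dE k (dE p K)) x
        - cv (fun y => u y k * u y p) (dE k (dE q K)) x)| ≤ (∑ k, c2 p k) + ∑ k, c2 q k := by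
      rw [← Finset.sum_add_distrib]
      refine (Finset.abs_sum_le_sum_abs _ _).trans (Finset.sum_le_sum fun k _ => ?_)
      exact (abs_sub _ _).trans (add_le_add (g2 k q p) (g2 k p q))
    linarith [hs2 p, hs2 q, hs3 p, hs3 q]

end Pool.Agent.R210
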