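import Pool.Agent.R210.W11

/-!
Uniform bounds of the terms in the renormalized mollified vorticity equation.
-/

open MeasureTheory Set Metric Filter Topology
open scoped ENNReal ContDiff RealInnerProductSpace

namespace Pool.Agent.R210

variable {u : E → E} {G : E → Fin 3 → Fin 3 → ℝ}

theorem esq (r : ℝ) : ‖r‖ₑ ^ 2 = ENNReal.ofReal (r ^ 2) := by
  rw [← ofReal_norm, Real.norm_eq_abs, ← ENNReal.ofReal_pow (abs_nonneg _), sq_abs]

theorem WG.Gij_le (_ : WG u G) (i j : Fin 3) : ∫⁻ x, ‖G x i j‖ₑ ^ 2 ≤ nG G := by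
  unfold nG gsum
  refine le_trans ?_ (Finset.single_le_sum (f := fun j => ∑ i, ∫⁻ x, ‖G x i j‖ₑ ^ 2)
    (fun _ _ => zero_le) (Finset.mem_univ j))
  exact Finset.single_le_sum (f := fun i => ∫⁻ x, ‖G x i j‖ₑ ^ 2)
    (fun _ _ => zero_le) (Finset.mem_univ i)

/-- The mollified vorticity in terms of the gradient. -/
theorem WG.av_eq (h : WG u G) {K : E → ℝ} (hK : SK K) (p q : Fin 3) (x : E) :
    av u K p q x = cv (fun y => G y p q - G y q p) K x := by
  unfold av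
  rw [(h.wd q).cv_dE hK, (h.wd p).cv_dE hK]
  unfold cv
  rw [← integral_sub (cv_int ((h.wd q).gloc p) hK.cont hK.cpt x)
    (cv_int ((h.wd p).gloc q) hK.cont hK.cpt x)]
  refine integral_congr_ae (Eventually.of_forall fun y => ?_)
  simp only
  ring

theorem WG.av_L2 (h : WG u G) {δ : ℝ} (hδ : 0 < δ) (p q : Fin 3) :
    ∫⁻ x, ‖av u (kp δ) p q x‖ₑ ^ 2 ≤ 4 * nG G := by
  have hm : AEStronglyMeasurable (fun y => G y p q - G y q p) volume :=
    ((h.wd q).gm p).sub ((h.wd p).gm q)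
  simp_rw [h.av_eq (kp_sk hδ)]
  refine (cv_L2 hm (kp_sk hδ).cont).trans ?_
  rw [lintegral_kp hδ, one_pow, one_mul]
  have h1 : ∀ y, ‖G y p q - G y q p‖ₑ ^ 2 ≤ 2 * ‖G y p q‖ₑ ^ 2 + 2 * ‖G y q p‖ₑ ^ 2 := by
    intro y
    rw [esq, esq, esq]
    have h5 : (G y p q - G y q p) ^ 2 ≤ 2 * G y p q ^ 2 + 2 * G y q p ^ 2 := by
      nlinarith [sq_nonneg (G y p q + G y q p)]
    refine (ENNReal.ofReal_le_ofReal h5).trans (le_of_eq ?_)
    rw [ENNReal.ofReal_add (by positivity) (by positivity), ENNReal.ofReal_mul (by norm_num),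
      ENNReal.ofReal_mul (by norm_num), ENNReal.ofReal_ofNat]
  refine (lintegral_mono h1).trans ?_
  rw [lintegral_add_left' ((((h.wd q).gm p).enorm.pow_const 2).const_mul _),
    lintegral_const_mul' _ _ (by norm_num), lintegral_const_mul' _ _ (by norm_num)]
  calc 2 * (∫⁻ x, ‖G x p q‖ₑ ^ 2) + 2 * ∫⁻ x, ‖G x q p‖ₑ ^ 2 ≤ 2 * nG G + 2 * nG G :=
        add_le_add (mul_le_mul_right (h.Gij_le p q) _) (mul_le_mul_right (h.Gij_le q p) _)
    _ = 4 * nG G := by rw [← add_mul]; norm_num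

theorem WG.av_sq (h : WG u G) {δ : ℝ} (hδ : 0 < δ) (p q : Fin 3) :
    Integrable (fun x => av u (kp δ) p q x ^ 2) ∧
      ∫ x, av u (kp δ) p q x ^ 2 ≤ 4 * (nG G).toReal := by
  have hc := (av_contDiff (fun i => h.uloc i) (kp_sk hδ) p q).continuous
  have h1 := h.av_L2 hδ p q
  have h2 : 4 * nG G < ⊤ := ENNReal.mul_lt_top (by norm_num) h.nG_lt
  obtain ⟨h3, h4⟩ := int_sq_of hc.aestronglyMeasurable (h1.trans_lt h2)
  refine ⟨h3, ?_⟩
  rw [h4]
  refine (ENNReal.toReal_mono h2.ne h1).trans (le_of_eq ?_)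
  rw [ENNReal.toReal_mul]
  norm_num

theorem WG.b_sq (h : WG u G) {M : ℝ} (hM0 : 0 ≤ M) (hM : ∫⁻ x, ‖u x‖ₑ ^ 2 ≤ ENNReal.ofReal M) {δ : ℝ}
    (hδ : 0 < δ) (k : Fin 3) : Integrable (fun x => cv (fun y => u y k) (kp δ) x ^ 2) ∧
      ∫ x, cv (fun y => u y k) (kp δ) x ^ 2 ≤ M := by
  have hc := (cv_contDiff (h.uloc k) (kp_sk hδ)).continuous
  have h1 : ∫⁻ x, ‖cv (fun y => u y k) (kp δ) x‖ₑ ^ 2 ≤ ENNReal.ofReal M := by
    refine (cv_L2 (h.wd k).fm (kp_sk hδ).cont).trans ?_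
    rw [lintegral_kp hδ, one_pow, one_mul]
    refine le_trans (lintegral_mono fun x => ?_) hM
    rw [enorm_sq_coord]
    exact Finset.single_le_sum (f := fun i => ‖u x i‖ₑ ^ 2) (fun _ _ => zero_le)
      (Finset.mem_univ k)
  obtain ⟨h3, h4⟩ := int_sq_of hc.aestronglyMeasurable (h1.trans_lt ENNReal.ofReal_lt_top)
  refine ⟨h3, ?_⟩
  rw [h4]
  exact ENNReal.toReal_le_of_le_ofReal hM0 h1

theorem WG.Q_int (h : WG u G) {δ : ℝ} (hδ : 0 < δ) (p q : Fin 3) :
    Integrable (Qv u (kp δ) p q) ∧ ∫ x, |Qv u (kp δ) p q x| ≤ 24 * BE * v3 * (nG G).toReal := by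
  have hc := h.Qv_cont (kp_sk hδ) p q
  have h1 := h.Qv_bound hδ p q
  have h2 : ENNReal.ofReal (24 * BE * v3) * nG G < ⊤ :=
    ENNReal.mul_lt_top ENNReal.ofReal_lt_top h.nG_lt
  have hi : Integrable (Qv u (kp δ) p q) := ⟨hc.aestronglyMeasurable, h1.trans_lt h2⟩
  refine ⟨hi, ?_⟩
  have h3 : ∫ x, |Qv u (kp δ) p q x| = (∫⁻ x, ‖Qv u (kp δ) p q x‖ₑ).toReal := by
    have := integral_norm_eq_lintegral_enorm hi.aestronglyMeasurable
    simpa using this
  rw [h3]
  refine (ENNReal.toReal_mono h2.ne h1).trans (le_of_eq ?_)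
  have hv := v3_pos
  have hB := one_le_BE
  rw [ENNReal.toReal_mul, ENNReal.toReal_ofReal (by positivity)]

theorem HH_bound (r : ℝ) : |HH r| ≤ 1 + r ^ 2 := by
  have := HH_abs_le r
  have h2 := sq_abs r
  nlinarith [sq_nonneg (|r| - 1)]

/-- Bounds for a fixed cutoff function. -/
theorem exists_chi {χ : E → ℝ} (hχ : SK χ) : ∃ C : ℝ, 0 ≤ C ∧
    ∀ (u : E → E) (G : E → Fin 3 → Fin 3 → ℝ) (M : ℝ), WG u G → 0 ≤ M →
    ∫⁻ x, ‖u x‖ₑ ^ 2 ≤ ENNReal.ofReal M → ∀ (δ : ℝ), 0 < δ → ∀ p q,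
      |∫ x, χ x * HH (av u (kp δ) p q x)| ≤ C * (1 + (nG G).toReal + M) ∧
      |(∫ x, (∑ k, dE k (dE k χ) x) * HH (av u (kp δ) p q x))
        + (∫ x, (∑ k, cv (fun y => u y k) (kp δ) x * dE k χ x) * HH (av u (kp δ) p q x))
        - ∫ x, χ x * (Real.arctan (av u (kp δ) p q x) * Qv u (kp δ) p q x)|
        ≤ C * (1 + (nG G).toReal + M) := by
  have hb : ∀ {L : E → ℝ}, SK L → ∃ B, ∀ z, |L z| ≤ B := fun h =>
    h.cont.norm.bddAbove_range_of_hasCompactSupport h.cpt.norm |>.imp fun B hB z => hB ⟨z, rfl⟩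
  obtain ⟨B0, hB0⟩ := hb hχ
  choose B1 hB1 using fun k => hb (hχ.d k)
  have hL : SK fun x => ∑ k, dE k (dE k χ) x := by
    refine ⟨ContDiff.sum fun k _ => ((hχ.d k).d k).smooth, ?_⟩
    rw [show (fun x => ∑ k, dE k (dE k χ) x)
      = fun x => dE 0 (dE 0 χ) x + dE 1 (dE 1 χ) x + dE 2 (dE 2 χ) x from
      funext fun x => Fin.sum_univ_three _]
    exact (((hχ.d 0).d 0).cpt.add ((hχ.d 1).d 1).cpt).add ((hχ.d 2).d 2).cpt
  obtain ⟨B2, hB2⟩ := hb hL
  have hB00 : 0 ≤ B0 := (abs_nonneg _).trans (hB0 0)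
  have hB10 : ∀ k, 0 ≤ B1 k := fun k => (abs_nonneg _).trans (hB1 k 0)
  have hB20 : 0 ≤ B2 := (abs_nonneg _).trans (hB2 0)
  have hv := v3_pos
  have hB := one_le_BE
  set I0 : ℝ := ∫ x, |χ x| with hI0
  set I2 : ℝ := ∫ x, |∑ k, dE k (dE k χ) x| with hI2
  have hI00 : 0 ≤ I0 := integral_nonneg fun _ => abs_nonneg _
  have hI20 : 0 ≤ I2 := integral_nonneg fun _ => abs_nonneg _
  have hS1 : 0 ≤ ∑ k, B1 k := Finset.sum_nonneg fun k _ => hB10 k
  refine ⟨I0 + 4 * B0 + I2 + 4 * B2 + 8 * (∑ k, B1 k) + 2 * B0 * (24 * BE * v3), by positivity, ?_⟩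
  intro u G M h hM0 hM δ hδ p q
  set n : ℝ := (nG G).toReal with hn
  have hn0 : 0 ≤ n := ENNReal.toReal_nonneg
  have hac := (av_contDiff (fun i => h.uloc i) (kp_sk hδ) p q).continuous
  obtain ⟨ia, ha⟩ := h.av_sq hδ p q
  obtain ⟨iQ, hQ⟩ := h.Q_int hδ p q
  have hHc : Continuous fun x => HH (av u (kp δ) p q x) := HH_contDiff.continuous.comp hac
  -- the weighted integral of the renormalized function
  have hW : ∀ {L : E → ℝ}, SK L → ∀ B, (∀ z, |L z| ≤ B) →
      |∫ x, L x * HH (av u (kp δ) p q x)| ≤ (∫ x, |L x|) + B * (4 * n) := by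
    intro L hL B hB
    have hB0 : 0 ≤ B := (abs_nonneg _).trans (hB 0)
    have hi : Integrable fun x => |L x| + B * av u (kp δ) p q x ^ 2 :=
      hL.int.abs.add (ia.const_mul B)
    rw [← Real.norm_eq_abs]
    refine (norm_integral_le_of_norm_le hi (Eventually.of_forall fun x => ?_)).trans ?_
    · rw [norm_mul, Real.norm_eq_abs, Real.norm_eq_abs]
      have h1 := HH_bound (av u (kp δ) p q x)
      calc |L x| * |HH (av u (kp δ) p q x)| ≤ |L x| * (1 + av u (kp δ) p q x ^ 2) :=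
            mul_le_mul_of_nonneg_left h1 (abs_nonneg _)
        _ = |L x| + |L x| * av u (kp δ) p q x ^ 2 := by ring
        _ ≤ _ := by
            have := hB x
            gcongr
    · rw [integral_add hL.int.abs (ia.const_mul B), integral_const_mul]
      exact add_le_add le_rfl (mul_le_mul_of_nonneg_left ha hB0)
  have e0 := hW hχ B0 hB0
  have e2 := hW hL B2 hB2
  -- the transport term
  have e1 : |∫ x, (∑ k, cv (fun y => u y k) (kp δ) x * dE k χ x) * HH (av u (kp δ) p q x)|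
      ≤ (∑ k, B1 k) * (M + 4 * n) := by
    have hib : ∀ k, Integrable (fun x => cv (fun y => u y k) (kp δ) x ^ 2) := fun k =>
      (h.b_sq hM0 hM hδ k).1
    have hik : ∀ k, Integrable fun x => B1 k * (cv (fun y => u y k) (kp δ) x ^ 2
        + av u (kp δ) p q x ^ 2) := fun k => ((hib k).add ia).const_mul _
    have hi : Integrable fun x => ∑ k, B1 k * (cv (fun y => u y k) (kp δ) x ^ 2
        + av u (kp δ) p q x ^ 2) :=
      integrable_finsetSum _ fun k _ => hik k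
    rw [← Real.norm_eq_abs]
    refine (norm_integral_le_of_norm_le hi (Eventually.of_forall fun x => ?_)).trans ?_
    · rw [Finset.sum_mul]
      refine (norm_sum_le _ _).trans (Finset.sum_le_sum fun k _ => ?_)
      rw [norm_mul, norm_mul, Real.norm_eq_abs, Real.norm_eq_abs, Real.norm_eq_abs]
      have h1 := HH_abs_le (av u (kp δ) p q x)
      have h2 := hB1 k x
      set b := cv (fun y => u y k) (kp δ) x with hb
      set a := av u (kp δ) p q x with ha'
      calc |b| * |dE k χ x| * |HH a| ≤ |b| * B1 k * (2 * |a|) := by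
            have := hB10 k
            gcongr
        _ = B1 k * (2 * |b| * |a|) := by ring
        _ ≤ B1 k * (b ^ 2 + a ^ 2) := by
            refine mul_le_mul_of_nonneg_left ?_ (hB10 k)
            have := sq_abs a
            have := sq_abs b
            nlinarith [sq_nonneg (|b| - |a|)]
    · rw [integral_finsetSum _ fun k _ => hik k, Finset.sum_mul]
      refine Finset.sum_le_sum fun k _ => ?_
      rw [integral_const_mul, integral_add (hib k) ia]
      exact mul_le_mul_of_nonneg_left (add_le_add (h.b_sq hM0 hM hδ k).2 ha) (hB10 k)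
  -- the commutator
  have e3 : |∫ x, χ x * (Real.arctan (av u (kp δ) p q x) * Qv u (kp δ) p q x)|
      ≤ 2 * B0 * (24 * BE * v3 * n) := by
    rw [← Real.norm_eq_abs]
    refine (norm_integral_le_of_norm_le (iQ.abs.const_mul (2 * B0))
      (Eventually.of_forall fun x => ?_)).trans ?_
    · rw [norm_mul, norm_mul, Real.norm_eq_abs, Real.norm_eq_abs, Real.norm_eq_abs]
      have h1 := abs_arctan_le (av u (kp δ) p q x)
      have h2 := hB0 x
      calc |χ x| * (|Real.arctan (av u (kp δ) p q x)| * |Qv u (kp δ) p q x|)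
          ≤ B0 * (2 * |Qv u (kp δ) p q x|) := by gcongr
        _ = _ := by ring
    · rw [integral_const_mul]
      exact mul_le_mul_of_nonneg_left hQ (by positivity)
  have hs : 0 ≤ (∑ k, B1 k) * n := mul_nonneg hS1 hn0
  have hs2 : 0 ≤ (∑ k, B1 k) * M := mul_nonneg hS1 hM0
  have k1 : 0 ≤ B0 * n := mul_nonneg hB00 hn0
  have k2 : 0 ≤ B2 * n := mul_nonneg hB20 hn0
  have k3 : 0 ≤ B0 * M := mul_nonneg hB00 hM0
  have k4 : 0 ≤ B2 * M := mul_nonneg hB20 hM0
  have k5 : 0 ≤ I0 * n := mul_nonneg hI00 hn0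
  have k6 : 0 ≤ I0 * M := mul_nonneg hI00 hM0
  have k7 : 0 ≤ I2 * n := mul_nonneg hI20 hn0
  have k8 : 0 ≤ I2 * M := mul_nonneg hI20 hM0
  have k9 : 0 ≤ B0 * (BE * v3) := by positivity
  have k10 : 0 ≤ B0 * (BE * v3) * n := mul_nonneg k9 hn0
  have k11 : 0 ≤ B0 * (BE * v3) * M := mul_nonneg k9 hM0
  constructor
  · refine e0.trans ?_
    nlinarith
  · refine (abs_sub _ _).trans ((add_le_add (abs_add_le _ _) le_rfl).trans ?_)
    refine (add_le_add (add_le_add e2 e1) e3).trans ?_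
    nlinarith

end Pool.Agent.R210
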