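import Pool.Agent.R210.W12

/-!
Weak solutions of the Navier-Stokes equations: the renormalized mollified vorticity equation
integrated in time.
-/

open MeasureTheory Set Metric Filter Topology
open scoped ENNReal ContDiff RealInnerProductSpace

namespace Pool.Agent.R210

/-- Weak solutions. -/
structure WS (T : ℝ) (u : ℝ → E → E) (G : ℝ → E → Fin 3 → Fin 3 → ℝ) : Prop where
  um : Measurable fun z : ℝ × E => u z.1 z.2
  gm : ∀ i j, Measurable fun z : ℝ × E => G z.1 z.2 i j
  bdd : ∃ M : ℝ, 0 ≤ M ∧ ∀ᵐ t, t ∈ Ioo 0 T → ∫⁻ x, ‖u t x‖ₑ ^ 2 ≤ ENNReal.ofReal M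
  wg : ∀ᵐ t, t ∈ Ioo 0 T → WG (u t) (G t)
  diss : ∫⁻ t in Ioo 0 T, nG (G t) < ⊤
  eqn : ∀ φ : E → E, ContDiff ℝ ∞ φ → HasCompactSupport φ → (∀ x, dvE φ x = 0) →
    ∀ θ : ℝ → ℝ, ContDiff ℝ ∞ θ → HasCompactSupport θ → tsupport θ ⊆ Ioo 0 T →
    ∫ t, (deriv θ t * (∫ x, ⟪u t x, φ x⟫)
      + θ t * ∫ x, (⟪u t x, fderiv ℝ φ x (u t x)⟫ + ⟪u t x, lapE φ x⟫)) = 0

variable {T : ℝ} {u : ℝ → E → E} {G : ℝ → E → Fin 3 → Fin 3 → ℝ}

theorem theta_zero {θ : ℝ → ℝ} (hs : tsupport θ ⊆ Ioo 0 T) {t : ℝ} (ht : t ∉ Ioo 0 T) :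
    θ t = 0 ∧ deriv θ t = 0 := by
  have h1 : t ∉ tsupport θ := fun h => ht (hs h)
  refine ⟨image_eq_zero_of_notMem_tsupport h1, ?_⟩
  have h8 : θ =ᶠ[𝓝 t] 0 := notMem_tsupport_iff_eventuallyEq.1 h1
  rw [h8.deriv_eq]
  simp

theorem WS.ucm (h : WS T u G) (i : Fin 3) : Measurable fun z : ℝ × E => u z.1 z.2 i :=
  (EuclideanSpace.proj i : E →L[ℝ] ℝ).continuous.measurable.comp h.um

theorem WS.av_meas (h : WS T u G) {K : E → ℝ} (hK : SK K) (p q : Fin 3) :
    Measurable fun z : ℝ × E => av (u z.1) K p q z.2 :=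
  (cv_meas (h.ucm q) (hK.d p).cont).sub (cv_meas (h.ucm p) (hK.d q).cont)

theorem WS.gv_meas (h : WS T u G) {K : E → ℝ} (hK : SK K) (p q : Fin 3) :
    Measurable fun z : ℝ × E => gv (u z.1) K p q z.2 := by
  unfold gv Nv
  refine Measurable.sub (Finset.measurable_sum _ fun k _ => ?_)
    (Finset.measurable_sum _ fun k _ => ?_)
  · exact (cv_meas (h.ucm q) (((hK.d p).d k).d k).cont).sub
      (cv_meas (h.ucm p) (((hK.d q).d k).d k).cont)
  · exact (cv_meas ((h.ucm k).mul (h.ucm q)) ((hK.d p).d k).cont).sub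
      (cv_meas ((h.ucm k).mul (h.ucm p)) ((hK.d q).d k).cont)

/-- The chain rule at a fixed point. -/
theorem WS.chain (h : WS T u G) {K : E → ℝ} (hK : SK K) (p q : Fin 3) (x : E) {θ : ℝ → ℝ}
    (hθ : ContDiff ℝ ∞ θ) (hc : HasCompactSupport θ) (hs : tsupport θ ⊆ Ioo 0 T) :
    ∫ t, (deriv θ t * HH (av (u t) K p q x)
      + θ t * (Real.arctan (av (u t) K p q x) * gv (u t) K p q x)) = 0 := by
  obtain ⟨M, hM0, hM⟩ := h.bdd
  obtain ⟨C, hC0, hC⟩ := exists_unif hK M hM0
  have hmx : Measurable fun t : ℝ => (t, x) := by fun_prop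
  refine chain_dist (K := C) (f := fun t => av (u t) K p q x) (g := fun t => gv (u t) K p q x)
    ((h.av_meas hK p q).comp hmx) ((h.gv_meas hK p q).comp hmx) hC0 ?_ ?_ ?_ HH_hasDerivAt
    Real.continuous_arctan hθ hc hs
  · filter_upwards [hM, h.wg] with t h1 h2 ht
    exact (hC (u t) (G t) (h2 ht) (h1 ht) p q x).1
  · filter_upwards [hM, h.wg] with t h1 h2 ht
    exact (hC (u t) (G t) (h2 ht) (h1 ht) p q x).2
  · intro η hη hηc hηs
    have h3 := h.eqn (tf K p q x) (tf_contDiff hK p q x) (tf_cpt hK p q x) (tf_div hK p q x)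
      η hη hηc hηs
    rw [← h3]
    refine integral_congr_ae ?_
    filter_upwards [h.wg] with t ht
    by_cases h0 : t ∈ Ioo 0 T
    · rw [(ht h0).test_av hK, (ht h0).test_gv hK]
    · obtain ⟨e1, e2⟩ := theta_zero hηs h0
      rw [e1, e2]
      simp

/-- The equation tested with a cutoff function in space and in time. -/
theorem WS.swap (h : WS T u G) {K : E → ℝ} (hK : SK K) (p q : Fin 3) {χ : E → ℝ} (hχ : SK χ)
    {θ : ℝ → ℝ} (hθ : ContDiff ℝ ∞ θ) (hc : HasCompactSupport θ) (hs : tsupport θ ⊆ Ioo 0 T) :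
    Integrable (fun t => ∫ x, χ x * (deriv θ t * HH (av (u t) K p q x)
      + θ t * (Real.arctan (av (u t) K p q x) * gv (u t) K p q x))) ∧
    ∫ t, ∫ x, χ x * (deriv θ t * HH (av (u t) K p q x)
      + θ t * (Real.arctan (av (u t) K p q x) * gv (u t) K p q x)) = 0 := by
  obtain ⟨M, hM0, hM⟩ := h.bdd
  obtain ⟨C, hC0, hC⟩ := exists_unif hK M hM0
  have hθ1 : Continuous (deriv θ) := hθ.continuous_deriv (by norm_num)
  have hm : Measurable fun z : ℝ × E => χ z.2 * (deriv θ z.1 * HH (av (u z.1) K p q z.2)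
      + θ z.1 * (Real.arctan (av (u z.1) K p q z.2) * gv (u z.1) K p q z.2)) := by
    have m1 := h.av_meas hK p q
    have m2 := h.gv_meas hK p q
    refine (hχ.cont.measurable.comp measurable_snd).mul (Measurable.add ?_ ?_)
    · exact (hθ1.measurable.comp measurable_fst).mul (HH_contDiff.continuous.measurable.comp m1)
    · exact (hθ.continuous.measurable.comp measurable_fst).mul
        ((Real.continuous_arctan.measurable.comp m1).mul m2)
  have hbi : Integrable (fun z : ℝ × E => (|deriv θ z.1| * (2 * C) + |θ z.1| * (2 * C)) * |χ z.2|)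
      (volume.prod volume) := by
    have i1 : Integrable fun t => |deriv θ t| * (2 * C) + |θ t| * (2 * C) := by
      refine Integrable.add ?_ ?_
      · exact (hθ1.abs.mul continuous_const).integrable_of_hasCompactSupport
          (hc.deriv.comp_left (g := fun r : ℝ => |r|) (by simp)).mul_right
      · exact (hθ.continuous.abs.mul continuous_const).integrable_of_hasCompactSupport
          (hc.comp_left (g := fun r : ℝ => |r|) (by simp)).mul_right
    exact i1.mul_prod hχ.int.abs
  have hFi : Integrable (fun z : ℝ × E => χ z.2 * (deriv θ z.1 * HH (av (u z.1) K p q z.2)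
      + θ z.1 * (Real.arctan (av (u z.1) K p q z.2) * gv (u z.1) K p q z.2)))
      (volume.prod volume) := by
    refine hbi.mono' hm.aestronglyMeasurable ?_
    have hae : ∀ᵐ z : ℝ × E ∂(volume.prod volume), z.1 ∈ Ioo 0 T →
        ∀ x, |av (u z.1) K p q x| ≤ C ∧ |gv (u z.1) K p q x| ≤ C := by
      refine Measure.quasiMeasurePreserving_fst.ae (p := fun t => t ∈ Ioo 0 T →
        ∀ x, |av (u t) K p q x| ≤ C ∧ |gv (u t) K p q x| ≤ C) ?_
      filter_upwards [hM, h.wg] with t h1 h2 ht x
      exact hC (u t) (G t) (h2 ht) (h1 ht) p q x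
    filter_upwards [hae] with z hz
    by_cases h0 : z.1 ∈ Ioo 0 T
    · obtain ⟨h1, h2⟩ := hz h0 z.2
      have h3 : |HH (av (u z.1) K p q z.2)| ≤ 2 * C := (HH_abs_le _).trans (by linarith)
      have h4 := abs_arctan_le (av (u z.1) K p q z.2)
      rw [norm_mul, mul_comm, Real.norm_eq_abs, Real.norm_eq_abs]
      refine mul_le_mul_of_nonneg_right ?_ (abs_nonneg _)
      refine (abs_add_le _ _).trans (add_le_add ?_ ?_)
      · rw [abs_mul]
        exact mul_le_mul_of_nonneg_left h3 (abs_nonneg _)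
      · rw [abs_mul, abs_mul]
        refine mul_le_mul_of_nonneg_left ?_ (abs_nonneg _)
        exact mul_le_mul h4 h2 (abs_nonneg _) (by norm_num)
    · obtain ⟨e1, e2⟩ := theta_zero hs h0
      rw [e1, e2]
      simp
  refine ⟨hFi.integral_prod_left, ?_⟩
  have h5 := integral_integral_swap (μ := (volume : Measure ℝ)) (ν := (volume : Measure E))
    (f := fun t x => χ x * (deriv θ t * HH (av (u t) K p q x)
      + θ t * (Real.arctan (av (u t) K p q x) * gv (u t) K p q x))) hFi
  rw [h5]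
  have h6 : ∀ x, ∫ t, χ x * (deriv θ t * HH (av (u t) K p q x)
      + θ t * (Real.arctan (av (u t) K p q x) * gv (u t) K p q x)) = 0 := by
    intro x
    rw [integral_const_mul, h.chain hK p q x hθ hc hs, mul_zero]
  simp_rw [h6]
  simp

/-- The weighted square of the gradient of the mollified vorticity. -/
noncomputable def JJ (v : E → E) (χ : E → ℝ) (δ : ℝ) (p q : Fin 3) : ℝ :=
  ∫ x, χ x * (∑ k, dE k (av v (kp δ) p q) x ^ 2 / (1 + av v (kp δ) p q x ^ 2))

/-- The uniform bound. -/
theorem WS.unif (h : WS T u G) {χ : E → ℝ} (hχ : SK χ) (hχ0 : ∀ x, 0 ≤ χ x)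
    {θ : ℝ → ℝ} (hθ : ContDiff ℝ ∞ θ) (hc : HasCompactSupport θ) (hs : tsupport θ ⊆ Ioo 0 T)
    (hθ0 : ∀ t, 0 ≤ θ t) : ∃ C : ℝ, ∀ (δ : ℝ), 0 < δ → ∀ p q,
      ∫⁻ t, ENNReal.ofReal (θ t * JJ (u t) χ δ p q) ≤ ENNReal.ofReal C := by
  obtain ⟨M, hM0, hM⟩ := h.bdd
  obtain ⟨C, hC0, hC⟩ := exists_chi hχ
  have hθ1 : Continuous (deriv θ) := hθ.continuous_deriv (by norm_num)
  -- the integrable bound
  set W : ℝ → ℝ := fun t => (|deriv θ t| + |θ t|) * (C * (1 + (nG (G t)).toReal + M)) with hW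
  have hnm : Measurable fun t => nG (G t) := by
    unfold nG gsum
    refine Finset.measurable_sum _ fun j _ => Finset.measurable_sum _ fun i _ => ?_
    exact Measurable.lintegral_prod_right' (f := fun z : ℝ × E => ‖G z.1 z.2 i j‖ₑ ^ 2)
      ((h.gm i j).enorm.pow_const 2)
  have hWi : Integrable W := by
    obtain ⟨B, hB⟩ : ∃ B, ∀ t, |deriv θ t| + |θ t| ≤ B := by
      obtain ⟨B1, h1⟩ : ∃ B, ∀ t, |deriv θ t| ≤ B :=
        hθ1.norm.bddAbove_range_of_hasCompactSupport hc.deriv.norm |>.imp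
          fun B hB z => hB ⟨z, rfl⟩
      obtain ⟨B2, h2⟩ : ∃ B, ∀ t, |θ t| ≤ B :=
        hθ.continuous.norm.bddAbove_range_of_hasCompactSupport hc.norm |>.imp
          fun B hB z => hB ⟨z, rfl⟩
      exact ⟨B1 + B2, fun t => add_le_add (h1 t) (h2 t)⟩
    have i1 : IntegrableOn (fun t => (nG (G t)).toReal) (Ioo 0 T) :=
      integrable_toReal_of_lintegral_ne_top hnm.aemeasurable h.diss.ne
    have i2 : IntegrableOn (fun t => C * (1 + (nG (G t)).toReal + M)) (Ioo 0 T) := by
      have i3 : IntegrableOn (fun _ : ℝ => (1 : ℝ)) (Ioo 0 T) := integrableOn_const (by simp)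
      have i4 : IntegrableOn (fun _ : ℝ => M) (Ioo 0 T) := integrableOn_const (by simp)
      exact ((i3.add i1).add i4).const_mul C
    have i3 : IntegrableOn W (Ioo 0 T) := by
      refine Integrable.mono' (i2.const_mul B) ?_ (Eventually.of_forall fun t => ?_)
      · exact (((hθ1.abs.measurable.add hθ.continuous.abs.measurable).mul
          (((hnm.ennreal_toReal.const_add 1).add_const M).const_mul C)).aestronglyMeasurable)
      · have h4 : 0 ≤ C * (1 + (nG (G t)).toReal + M) := by positivity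
        rw [Real.norm_eq_abs, abs_of_nonneg (by simp only [hW]; positivity)]
        exact mul_le_mul_of_nonneg_right (hB t) h4
    refine (integrableOn_iff_integrable_of_support_subset ?_).1 i3
    intro t ht
    by_contra h0
    obtain ⟨e1, e2⟩ := theta_zero hs h0
    refine ht ?_
    simp [hW, e1, e2]
  refine ⟨∫ t, W t, fun δ hδ p q => ?_⟩
  have hK := kp_sk hδ
  obtain ⟨hAi, hA0⟩ := h.swap hK p q hχ hθ hc hs
  set A : ℝ → ℝ := fun t => ∫ x, χ x * (deriv θ t * HH (av (u t) (kp δ) p q x)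
      + θ t * (Real.arctan (av (u t) (kp δ) p q x) * gv (u t) (kp δ) p q x)) with hA
  -- the pointwise in time estimate
  have hpt : ∀ᵐ t, θ t * JJ (u t) χ δ p q ≤ -A t + W t ∧ 0 ≤ -A t + W t := by
    filter_upwards [hM, h.wg] with t h1 h2
    by_cases h0 : t ∈ Ioo 0 T
    · have hw := h2 h0
      have hm := h1 h0
      obtain ⟨b1, b2⟩ := hC (u t) (G t) M hw hM0 hm δ hδ p q
      have hid := hw.ident hK hχ p q (hw.Qv_cont hK p q)
      have hac := av_contDiff (fun i => hw.uloc i) hK p q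
      have hu : ∀ i, LocallyIntegrable (fun x => u t x i) volume := fun i => hw.uloc i
      have hgc : Continuous (gv (u t) (kp δ) p q) := by
        have : gv (u t) (kp δ) p q = fun x => (∑ k, dE k (dE k (av (u t) (kp δ) p q)) x)
          - (∑ k, cv (fun y => u t y k) (kp δ) x * dE k (av (u t) (kp δ) p q) x)
          - Qv (u t) (kp δ) p q x := funext fun x => gv_eq hu hK p q x
        rw [this]
        refine Continuous.sub (Continuous.sub (continuous_finsetSum _ fun k _ => ?_)
          (continuous_finsetSum _ fun k _ => ?_)) (hw.Qv_cont hK p q)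
        · exact (dE_contDiff (dE_contDiff hac k) k).continuous
        · exact (cv_contDiff (hu k) hK).continuous.mul (dE_contDiff hac k).continuous
      have e1 : A t = deriv θ t * (∫ x, χ x * HH (av (u t) (kp δ) p q x))
          + θ t * ∫ x, χ x * (Real.arctan (av (u t) (kp δ) p q x) * gv (u t) (kp δ) p q x) := by
        have j1 : Integrable fun x => χ x * HH (av (u t) (kp δ) p q x) :=
          cint (HH_contDiff.continuous.comp hac.continuous) hχ
        have j2 : Integrable fun x => χ x * (Real.arctan (av (u t) (kp δ) p q x)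
            * gv (u t) (kp δ) p q x) :=
          cint ((Real.continuous_arctan.comp hac.continuous).mul hgc) hχ
        rw [hA, ← integral_const_mul, ← integral_const_mul,
          ← integral_add (j1.const_mul _) (j2.const_mul _)]
        refine integral_congr_ae (Eventually.of_forall fun x => ?_)
        simp only
        ring
      have hJ : JJ (u t) χ δ p q = -(∫ x, χ x * (Real.arctan (av (u t) (kp δ) p q x)
          * gv (u t) (kp δ) p q x)) + ((∫ x, (∑ k, dE k (dE k χ) x) * HH (av (u t) (kp δ) p q x))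
        + (∫ x, (∑ k, cv (fun y => u t y k) (kp δ) x * dE k χ x) * HH (av (u t) (kp δ) p q x))
        - ∫ x, χ x * (Real.arctan (av (u t) (kp δ) p q x) * Qv (u t) (kp δ) p q x)) := by
        unfold JJ
        rw [hid]
        ring
      set P := ∫ x, χ x * HH (av (u t) (kp δ) p q x) with hP
      set S := ∫ x, χ x * (Real.arctan (av (u t) (kp δ) p q x) * gv (u t) (kp δ) p q x) with hS
      set R := (∫ x, (∑ k, dE k (dE k χ) x) * HH (av (u t) (kp δ) p q x))
        + (∫ x, (∑ k, cv (fun y => u t y k) (kp δ) x * dE k χ x) * HH (av (u t) (kp δ) p q x))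
        - ∫ x, χ x * (Real.arctan (av (u t) (kp δ) p q x) * Qv (u t) (kp δ) p q x) with hR
      set L := C * (1 + (nG (G t)).toReal + M) with hL
      have hWt : W t = (|deriv θ t| + |θ t|) * L := rfl
      have k1 : |deriv θ t * P| ≤ |deriv θ t| * L := by
        rw [abs_mul]; exact mul_le_mul_of_nonneg_left b1 (abs_nonneg _)
      have k2 : |θ t * R| ≤ |θ t| * L := by
        rw [abs_mul]; exact mul_le_mul_of_nonneg_left b2 (abs_nonneg _)
      have k3 := le_abs_self (deriv θ t * P)
      have k4 := le_abs_self (θ t * R)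
      have k5 : θ t * JJ (u t) χ δ p q = -A t + deriv θ t * P + θ t * R := by
        rw [hJ, e1]; ring
      refine ⟨?_, ?_⟩
      · rw [k5, hWt]
        nlinarith
      · have k6 : -A t + W t = (θ t * JJ (u t) χ δ p q) + (W t - deriv θ t * P - θ t * R) := by
          rw [k5]; ring
        have k7 : 0 ≤ JJ (u t) χ δ p q := by
          unfold JJ
          refine integral_nonneg fun x => mul_nonneg (hχ0 x) (Finset.sum_nonneg fun k _ => ?_)
          positivity
        have k8 := mul_nonneg (hθ0 t) k7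
        rw [k6, hWt]
        nlinarith
    · obtain ⟨e1, e2⟩ := theta_zero hs h0
      simp [hA, hW, e1, e2]
  have hi : Integrable fun t => -A t + W t := hAi.neg.add hWi
  calc ∫⁻ t, ENNReal.ofReal (θ t * JJ (u t) χ δ p q)
      ≤ ∫⁻ t, ENNReal.ofReal (-A t + W t) := by
        refine lintegral_mono_ae ?_
        filter_upwards [hpt] with t ht
        exact ENNReal.ofReal_le_ofReal ht.1
    _ = ENNReal.ofReal (∫ t, (-A t + W t)) := by
        refine (ofReal_integral_eq_lintegral_ofReal hi ?_).symm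
        filter_upwards [hpt] with t ht
        exact ht.2
    _ = _ := by
        congr 1
        have hn : Integrable fun t => -A t := hAi.neg
        rw [integral_add hn hWi, integral_neg, hA0]
        simp

end Pool.Agent.R210
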