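import Pool.Agent.R210.W13

/-!
Weak solutions of the Navier-Stokes equations: the vorticity is renormalized at almost every time.
-/

open MeasureTheory Set Metric Filter Topology
open scoped ENNReal ContDiff RealInnerProductSpace

namespace Pool.Agent.R210

theorem om_coord (G : E → Fin 3 → Fin 3 → ℝ) (x : E) (i : Fin 3) :
    om G x i = G x (i + 1) (i + 2) - G x (i + 2) (i + 1) := by
  fin_cases i
  · show (om G x) 0 = _
    simp only [om, PiLp.toLp_apply, Matrix.cons_val_zero]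
    rfl
  · show (om G x) 1 = _
    simp only [om, PiLp.toLp_apply, Matrix.cons_val_one]
    rfl
  · show (om G x) 2 = _
    simp only [om, PiLp.toLp_apply, Matrix.cons_val]
    rfl

theorem WG.cv_om {u : E → E} {G : E → Fin 3 → Fin 3 → ℝ} (h : WG u G) {K : E → ℝ} (hK : SK K)
    (i : Fin 3) : cv (fun y => om G y i) K = av u K (i + 1) (i + 2) := by
  funext x
  rw [h.av_eq hK]
  simp_rw [om_coord]

theorem WG.om_lint {u : E → E} {G : E → Fin 3 → Fin 3 → ℝ} (h : WG u G) :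
    ∫⁻ x, ‖om G x‖ₑ ^ 2 < ⊤ := by
  have h1 : ∀ x, ‖om G x‖ₑ ^ 2 = ENNReal.ofReal (‖om G x‖ ^ 2) := fun x => by
    rw [← ofReal_norm, ← ENNReal.ofReal_pow (norm_nonneg _)]
  simp_rw [h1]
  have h2 := h.om_int.1.2
  rw [hasFiniteIntegral_iff_ofReal (Eventually.of_forall fun x => by positivity)] at h2
  exact h2

theorem WG.om_m {u : E → E} {G : E → Fin 3 → Fin 3 → ℝ} (h : WG u G) :
    AEStronglyMeasurable (om G) volume := om_meas fun i j => (h.wd j).gm i

/-- The bound of the density of the mollified vorticity on a ball. -/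
theorem WG.Dd_le {u : E → E} {G : E → Fin 3 → Fin 3 → ℝ} (h : WG u G) {χ : E → ℝ} (hχ : SK χ)
    (hχ0 : ∀ x, 0 ≤ χ x) {R : ℝ} (hχ1 : ∀ x ∈ ball (0 : E) R, χ x = 1) {δ : ℝ} (hδ : 0 < δ) :
    ∫⁻ x in ball (0 : E) R, ENNReal.ofReal (Dd (om G) (kp δ) x)
      ≤ ∑ i : Fin 3, ENNReal.ofReal (JJ u χ δ (i + 1) (i + 2)) := by
  have hK := kp_sk hδ
  have hac : ∀ p q, ContDiff ℝ ∞ (av u (kp δ) p q) := fun p q =>
    av_contDiff (fun i => h.uloc i) hK p q
  set D : Fin 3 → E → ℝ := fun i x => ∑ k, dE k (av u (kp δ) (i + 1) (i + 2)) x ^ 2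
      / (1 + av u (kp δ) (i + 1) (i + 2) x ^ 2) with hD
  have hD0 : ∀ i x, 0 ≤ D i x := fun i x => Finset.sum_nonneg fun k _ => by positivity
  have hDc : ∀ i, Continuous (D i) := by
    intro i
    refine continuous_finsetSum _ fun k _ => ?_
    exact ((dE_contDiff (hac _ _) k).continuous.pow 2).div
      (continuous_const.add ((hac _ _).continuous.pow 2)) fun x => by positivity
  have e1 : ∀ x, Dd (om G) (kp δ) x = ∑ i, D i x := by
    intro x
    unfold Dd
    simp_rw [h.cv_om hK]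
    rfl
  simp_rw [e1]
  have e2 : ∀ x, ENNReal.ofReal (∑ i, D i x) = ∑ i, ENNReal.ofReal (D i x) := fun x =>
    ENNReal.ofReal_sum_of_nonneg fun i _ => hD0 i x
  simp_rw [e2]
  rw [lintegral_finsetSum' _ fun i _ => ((hDc i).measurable.ennreal_ofReal).aemeasurable]
  refine Finset.sum_le_sum fun i _ => ?_
  have e3 : ENNReal.ofReal (JJ u χ δ (i + 1) (i + 2)) = ∫⁻ x, ENNReal.ofReal (χ x * D i x) := by
    unfold JJ
    refine ofReal_integral_eq_lintegral_ofReal (cint (hDc i) hχ)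
      (Eventually.of_forall fun x => mul_nonneg (hχ0 x) (hD0 i x))
  rw [e3]
  refine le_trans ?_ (setLIntegral_le_lintegral (ball (0 : E) R) _)
  refine setLIntegral_mono' measurableSet_ball fun x hx => ?_
  rw [hχ1 x hx, one_mul]

variable {T : ℝ} {u : ℝ → E → E} {G : ℝ → E → Fin 3 → Fin 3 → ℝ}

/-- Measurability in time of the weighted square of the gradient. -/
theorem WS.JJ_meas (h : WS T u G) {χ : E → ℝ} (hχ : SK χ) {θ : ℝ → ℝ} (hθ : Continuous θ)
    (hs : tsupport θ ⊆ Ioo 0 T) {δ : ℝ} (hδ : 0 < δ) (p q : Fin 3) :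
    AEMeasurable (fun t => ENNReal.ofReal (θ t * JJ (u t) χ δ p q)) := by
  have hK := kp_sk hδ
  set J : ℝ → ℝ := fun t => ∫ x, χ x * (∑ k, (cv (fun y => u t y q) (dE k (dE p (kp δ))) x
    - cv (fun y => u t y p) (dE k (dE q (kp δ))) x) ^ 2 / (1 + av (u t) (kp δ) p q x ^ 2)) with hJ
  have hm : Measurable fun z : ℝ × E => χ z.2 * (∑ k, (cv (fun y => u z.1 y q)
      (dE k (dE p (kp δ))) z.2 - cv (fun y => u z.1 y p) (dE k (dE q (kp δ))) z.2) ^ 2
        / (1 + av (u z.1) (kp δ) p q z.2 ^ 2)) := by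
    refine (hχ.cont.measurable.comp measurable_snd).mul (Finset.measurable_sum _ fun k _ => ?_)
    refine Measurable.div ((Measurable.sub ?_ ?_).pow_const 2)
      (((h.av_meas hK p q).pow_const 2).const_add 1)
    · exact cv_meas (h.ucm q) ((hK.d p).d k).cont
    · exact cv_meas (h.ucm p) ((hK.d q).d k).cont
  have hJm : Measurable J := (hm.stronglyMeasurable.integral_prod_right').measurable
  refine ⟨fun t => ENNReal.ofReal (θ t * J t), (hθ.measurable.mul hJm).ennreal_ofReal, ?_⟩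
  filter_upwards [h.wg] with t ht
  by_cases h0 : t ∈ Ioo 0 T
  · have hu : ∀ i, LocallyIntegrable (fun x => u t x i) volume := fun i => (ht h0).uloc i
    simp only [hJ, JJ]
    simp_rw [dE_av hu hK]
  · rw [(theta_zero hs h0).1]
    simp

theorem aem_liminf {F : ℕ → ℝ → ℝ≥0∞} (h : ∀ n, AEMeasurable (F n)) :
    AEMeasurable fun t => liminf (fun n => F n t) atTop := by
  refine ⟨fun t => liminf (fun n => (h n).mk (F n) t) atTop,
    Measurable.liminf fun n => (h n).measurable_mk, ?_⟩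
  filter_upwards [ae_all_iff.2 fun n => (h n).ae_eq_mk] with t ht
  simp_rw [ht]

/-- The vorticity is renormalized at almost every time. -/
theorem WS.ren (h : WS T u G) : ∀ᵐ t, t ∈ Ioo 0 T → Ren (om (G t)) fun _ => 0 := by
  rcases le_or_gt T 0 with hT | hT
  · refine Eventually.of_forall fun t ht => ?_
    have := ht.1.trans ht.2
    linarith
  set δ : ℕ → ℝ := fun n => 1 / ((n : ℝ) + 1) with hδ
  have hδp : ∀ n, 0 < δ n := fun n => by simp only [hδ]; positivity
  have hδ0 : Tendsto δ atTop (𝓝 0) := tendsto_one_div_add_atTop_nhds_zero_nat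
  -- the cutoff functions in space
  let χb : ℕ → ContDiffBump (0 : E) := fun R => ⟨(R : ℝ) + 1, (R : ℝ) + 2, by positivity, by linarith⟩
  set χ : ℕ → E → ℝ := fun R => (χb R : E → ℝ) with hχd
  have hχ : ∀ R, SK (χ R) := fun R => ⟨(χb R).contDiff, (χb R).hasCompactSupport⟩
  have hχ0 : ∀ R x, 0 ≤ χ R x := fun R x => (χb R).nonneg
  have hχ1 : ∀ R : ℕ, ∀ x ∈ ball (0 : E) R, χ R x = 1 := by
    intro R x hx
    refine (χb R).one_of_mem_closedBall ?_
    rw [mem_closedBall_zero_iff]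
    rw [mem_ball_zero_iff] at hx
    show ‖x‖ ≤ (R : ℝ) + 1
    linarith
  -- the cutoff functions in time
  have hq : ∀ m : ℕ, (0 : ℝ) < (m : ℝ) + 2 ∧ (0 : ℝ) < (m : ℝ) + 3 := fun m =>
    ⟨by positivity, by positivity⟩
  let θb : ℕ → ContDiffBump (T / 2) := fun m =>
    ⟨T / 2 * (1 - 1 / ((m : ℝ) + 2)), T / 2 * (1 - 1 / ((m : ℝ) + 3)), by
      have h1 : 1 / ((m : ℝ) + 2) < 1 := by
        rw [div_lt_one (hq m).1]; linarith [(Nat.cast_nonneg m : (0 : ℝ) ≤ m)]
      have : 0 < 1 - 1 / ((m : ℝ) + 2) := by linarith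
      positivity, by
      have h1 : 1 / ((m : ℝ) + 3) < 1 / ((m : ℝ) + 2) :=
        one_div_lt_one_div_of_lt (hq m).1 (by linarith)
      have : 1 - 1 / ((m : ℝ) + 2) < 1 - 1 / ((m : ℝ) + 3) := by linarith
      exact mul_lt_mul_of_pos_left this (by positivity)⟩
  set θ : ℕ → ℝ → ℝ := fun m => (θb m : ℝ → ℝ) with hθd
  have hθ : ∀ m, ContDiff ℝ ∞ (θ m) := fun m => (θb m).contDiff
  have hθc : ∀ m, HasCompactSupport (θ m) := fun m => (θb m).hasCompactSupport
  have hθs : ∀ m, tsupport (θ m) ⊆ Ioo 0 T := by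
    intro m
    rw [(θb m).tsupport_eq]
    intro t ht
    rw [mem_closedBall, Real.dist_eq] at ht
    have h1 : |t - T / 2| ≤ T / 2 * (1 - 1 / ((m : ℝ) + 3)) := ht
    have h2 : 0 < 1 / ((m : ℝ) + 3) := by have := (hq m).2; positivity
    have h3 : |t - T / 2| < T / 2 := by nlinarith
    rw [abs_lt] at h3
    constructor <;> linarith [h3.1, h3.2]
  have hθ0 : ∀ m t, 0 ≤ θ m t := fun m t => (θb m).nonneg
  -- the finiteness of the lower limits
  have key : ∀ m R : ℕ, ∀ᵐ t, liminf (fun n => ∑ i : Fin 3,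
      ENNReal.ofReal (θ m t * JJ (u t) (χ R) (δ n) (i + 1) (i + 2))) atTop < ⊤ := by
    intro m R
    obtain ⟨C, hC⟩ := h.unif (hχ R) (hχ0 R) (hθ m) (hθc m) (hθs m) (hθ0 m)
    have hFm : ∀ n, AEMeasurable (fun t => ∑ i : Fin 3,
        ENNReal.ofReal (θ m t * JJ (u t) (χ R) (δ n) (i + 1) (i + 2))) := fun n =>
      Finset.aemeasurable_fun_sum _ fun i _ =>
        h.JJ_meas (hχ R) (hθ m).continuous (hθs m) (hδp n) _ _
    have hle : ∀ n, ∫⁻ t, ∑ i : Fin 3,
        ENNReal.ofReal (θ m t * JJ (u t) (χ R) (δ n) (i + 1) (i + 2)) ≤ 3 * ENNReal.ofReal C := by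
      intro n
      rw [lintegral_finsetSum' _ fun i _ =>
        h.JJ_meas (hχ R) (hθ m).continuous (hθs m) (hδp n) _ _]
      refine (Finset.sum_le_sum fun i _ => hC (δ n) (hδp n) (i + 1) (i + 2)).trans (le_of_eq ?_)
      rw [Finset.sum_const, Finset.card_univ, Fintype.card_fin, nsmul_eq_mul]
      norm_num
    have hF := lintegral_liminf_le' (u := atTop) hFm
    have hF2 : liminf (fun n => ∫⁻ t, ∑ i : Fin 3,
        ENNReal.ofReal (θ m t * JJ (u t) (χ R) (δ n) (i + 1) (i + 2))) atTop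
        ≤ 3 * ENNReal.ofReal C :=
      liminf_le_of_frequently_le' (Frequently.of_forall hle)
    refine ae_lt_top' (aem_liminf hFm) ?_
    exact ((hF.trans hF2).trans_lt (ENNReal.mul_lt_top (by norm_num) ENNReal.ofReal_lt_top)).ne
  filter_upwards [ae_all_iff.2 fun m => ae_all_iff.2 fun R => key m R, h.wg] with t ht hw h0
  have hwt := hw h0
  -- the index of the cutoff function in time
  obtain ⟨m, hm⟩ : ∃ m : ℕ, θ m t = 1 := by
    have h1 : |t - T / 2| < T / 2 := by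
      rw [abs_lt]; constructor <;> linarith [h0.1, h0.2]
    obtain ⟨m, hm⟩ := exists_nat_gt (T / 2 / (T / 2 - |t - T / 2|))
    refine ⟨m, (θb m).one_of_mem_closedBall ?_⟩
    rw [mem_closedBall, Real.dist_eq]
    show |t - T / 2| ≤ T / 2 * (1 - 1 / ((m : ℝ) + 2))
    have h2 : 0 < T / 2 - |t - T / 2| := by linarith
    rw [div_lt_iff₀ h2] at hm
    have h3 := (hq m).1
    have h4 : T / 2 * (1 / ((m : ℝ) + 2)) ≤ T / 2 - |t - T / 2| := by
      rw [mul_one_div, div_le_iff₀ h3]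
      nlinarith
    nlinarith
  refine ren_weak hwt.om_m hwt.om_lint (fun ψ hψ hc => hwt.om_div ψ hψ hc) hδp hδ0 fun R => ?_
  refine lt_of_le_of_lt ?_ (ht m R)
  refine liminf_le_liminf (Eventually.of_forall fun n => ?_)
  refine (hwt.Dd_le (hχ R) (hχ0 R) (hχ1 R) (hδp n)).trans (le_of_eq ?_)
  rw [hm]
  simp

end Pool.Agent.R210
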