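import Pool.Agent.R210.W14

/-!
Weak solutions of the Navier-Stokes equations with a Hölder continuous vorticity direction: higher
integrability.
-/

open MeasureTheory Set Metric Filter Topology
open scoped ENNReal ContDiff RealInnerProductSpace

namespace Pool.Agent.R210

/-- The norm of a vector field in terms of the norms of its components. -/
theorem eLp_le {v : E → E} (hm : ∀ i, AEStronglyMeasurable (fun x => v x i) volume) {q : ℝ}
    (hq : 1 ≤ q) : eLpNorm v (ENNReal.ofReal q) volume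
      ≤ ∑ i, eLpNorm (fun x => v x i) (ENNReal.ofReal q) volume := by
  have h1 : v = ∑ i, fun x => v x i • ei i := by
    funext x
    rw [Finset.sum_apply]
    exact E_sum (v x)
  conv_lhs => rw [h1]
  refine (eLpNorm_sum_le (fun i _ => (hm i).smul_const _) (by simpa using hq)).trans ?_
  refine Finset.sum_le_sum fun i _ => ?_
  refine eLpNorm_mono fun x => ?_
  rw [norm_smul]
  simp [ei]

/-- Higher integrability at a fixed time, second form. -/
theorem spat2 {c β q : ℝ} (hβ0 : 0 < β) (hβ1 : β < 1) (hc : 1 ≤ c) (hq : 2 < q)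
    (hq2 : q < 2 * (3 - β) / (1 - β)) : ∃ C : ℝ, 0 < C ∧
    ∀ (u : E → E) (G : E → Fin 3 → Fin 3 → ℝ) (M : ℝ), WG u G → 0 ≤ M →
      ∫⁻ x, ‖u x‖ₑ ^ 2 ≤ ENNReal.ofReal M →
      (∀ᵐ p, ∀ᵐ y, Coh (om G) c β p y) → (Ren (om G) fun _ => 0) →
      eLpNorm u (ENNReal.ofReal q) volume ^ 2 ≤ ENNReal.ofReal (C * (M + (nG G).toReal)) := by
  obtain ⟨C, hC, H⟩ := spat hβ0 hβ1 hc hq hq2
  have hq0 : 0 < q := by linarith
  refine ⟨9 * C ^ (2 / q), by positivity, ?_⟩
  intro u G M h hM0 hM hcoh hren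
  set n : ℝ := (nG G).toReal with hn
  have hn0 : 0 ≤ n := ENNReal.toReal_nonneg
  have h1 : ∀ j, eLpNorm (fun x => u x j) (ENNReal.ofReal q) volume
      ≤ ENNReal.ofReal (C ^ (1 / q) * (M + n) ^ (1 / 2 : ℝ)) := by
    intro j
    rw [eLpNorm_eq_lintegral_rpow_enorm_toReal (by simpa using hq0) ENNReal.ofReal_ne_top,
      ENNReal.toReal_ofReal hq0.le]
    have h2 := H u G h hcoh hren j
    have h3 : (∫⁻ x, ‖u x j‖ₑ ^ 2).toReal ≤ M := by
      refine ENNReal.toReal_le_of_le_ofReal hM0 (le_trans (lintegral_mono fun x => ?_) hM)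
      rw [enorm_sq_coord (u x)]
      exact Finset.single_le_sum (f := fun i => ‖u x i‖ₑ ^ 2) (fun _ _ => zero_le)
        (Finset.mem_univ j)
    have h4 : C * ((∫⁻ x, ‖u x j‖ₑ ^ 2).toReal + n) ^ (q / 2) ≤ C * (M + n) ^ (q / 2) := by
      refine mul_le_mul_of_nonneg_left ?_ hC.le
      exact Real.rpow_le_rpow (by positivity) (by linarith) (by positivity)
    calc (∫⁻ x, ‖u x j‖ₑ ^ q) ^ (1 / q)
        ≤ (ENNReal.ofReal (C * (M + n) ^ (q / 2))) ^ (1 / q) :=
          ENNReal.rpow_le_rpow (h2.trans (ENNReal.ofReal_le_ofReal h4)) (by positivity)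
      _ = ENNReal.ofReal ((C * (M + n) ^ (q / 2)) ^ (1 / q)) :=
          ENNReal.ofReal_rpow_of_nonneg (by positivity) (by positivity)
      _ = _ := by
          congr 1
          rw [Real.mul_rpow hC.le (by positivity), ← Real.rpow_mul (by positivity)]
          congr 2
          field_simp
  have h2 : eLpNorm u (ENNReal.ofReal q) volume
      ≤ 3 * ENNReal.ofReal (C ^ (1 / q) * (M + n) ^ (1 / 2 : ℝ)) := by
    refine (eLp_le (fun i => (h.wd i).fm) (by linarith)).trans ?_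
    refine (Finset.sum_le_sum fun j _ => h1 j).trans (le_of_eq ?_)
    rw [Finset.sum_const, Finset.card_univ, Fintype.card_fin, nsmul_eq_mul]
    norm_num
  calc eLpNorm u (ENNReal.ofReal q) volume ^ 2
      ≤ (3 * ENNReal.ofReal (C ^ (1 / q) * (M + n) ^ (1 / 2 : ℝ))) ^ 2 := by gcongr
    _ = ENNReal.ofReal (9 * (C ^ (1 / q) * (M + n) ^ (1 / 2 : ℝ)) ^ 2) := by
        rw [mul_pow, ← ENNReal.ofReal_pow (by positivity), ENNReal.ofReal_mul (by norm_num)]
        congr 1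
        norm_num
    _ = _ := by
        congr 1
        rw [mul_pow, ← Real.rpow_natCast (C ^ (1 / q)), ← Real.rpow_mul hC.le,
          ← Real.rpow_natCast ((M + n) ^ (1 / 2 : ℝ)), ← Real.rpow_mul (by positivity)]
        have e1 : 1 / q * ((2 : ℕ) : ℝ) = 2 / q := by push_cast; ring
        have e2 : (1 / 2 : ℝ) * ((2 : ℕ) : ℝ) = 1 := by push_cast; norm_num
        rw [e1, e2, Real.rpow_one]
        ring

variable {T : ℝ} {u : ℝ → E → E} {G : ℝ → E → Fin 3 → Fin 3 → ℝ}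

/-- Higher integrability of weak solutions. -/
theorem WS.higher (h : WS T u G) {c β q : ℝ} (hβ0 : 0 < β) (hβ1 : β < 1) (hc : 1 ≤ c) (hq : 2 < q)
    (hq2 : q < 2 * (3 - β) / (1 - β))
    (hcoh : ∀ᵐ t, t ∈ Ioo 0 T → ∀ᵐ p, ∀ᵐ y, Coh (om (G t)) c β p y) :
    ∫⁻ t in Ioo 0 T, eLpNorm (u t) (ENNReal.ofReal q) volume ^ 2 < ⊤ := by
  obtain ⟨C, hC, H⟩ := spat2 hβ0 hβ1 hc hq hq2
  obtain ⟨M, hM0, hM⟩ := h.bdd
  have h1 : ∀ᵐ t ∂(volume.restrict (Ioo 0 T)), eLpNorm (u t) (ENNReal.ofReal q) volume ^ 2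
      ≤ ENNReal.ofReal C * (ENNReal.ofReal M + nG (G t)) := by
    rw [ae_restrict_iff' measurableSet_Ioo]
    filter_upwards [hM, h.wg, hcoh, h.ren] with t a1 a2 a3 a4 ht
    refine (H (u t) (G t) M (a2 ht) hM0 (a1 ht) (a3 ht) (a4 ht)).trans (le_of_eq ?_)
    rw [ENNReal.ofReal_mul hC.le, ENNReal.ofReal_add hM0 ENNReal.toReal_nonneg,
      ENNReal.ofReal_toReal (a2 ht).nG_lt.ne]
  refine (lintegral_mono_ae h1).trans_lt ?_
  rw [lintegral_const_mul' _ _ ENNReal.ofReal_ne_top]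
  refine ENNReal.mul_lt_top ENNReal.ofReal_lt_top ?_
  rw [lintegral_add_left measurable_const]
  refine ENNReal.add_lt_top.2 ⟨?_, h.diss⟩
  rw [lintegral_const]
  exact ENNReal.mul_lt_top ENNReal.ofReal_lt_top (by simp)

end Pool.Agent.R210
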