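import Pool.Agent.R210.W15

/-!
Weak solutions of the Navier-Stokes equations: Borel representatives, and the direction of the
vorticity in terms of angles.
-/

open MeasureTheory Set Metric Filter Topology
open scoped ENNReal ContDiff RealInnerProductSpace

namespace Pool.Agent.R210

/-- Borel representatives. -/
theorem ws_of {T : ℝ} {u : ℝ → E → E} {G : ℝ → E → Fin 3 → Fin 3 → ℝ}
    (hm : AEStronglyMeasurable (fun z : ℝ × E => u z.1 z.2)
      ((volume.restrict (Ioo 0 T)).prod volume))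
    (hgm : ∀ i j, AEStronglyMeasurable (fun z : ℝ × E => G z.1 z.2 i j)
      ((volume.restrict (Ioo 0 T)).prod volume))
    (bdd : ∃ M : ℝ, ∀ᵐ t ∂volume.restrict (Ioo 0 T), ∫⁻ x, ‖u t x‖ₑ ^ 2 ≤ ENNReal.ofReal M)
    (gsq : ∫⁻ t in Ioo 0 T, ∫⁻ x, ∑ i, ∑ j, ‖G t x i j‖ₑ ^ 2 < ⊤)
    (grad : ∀ᵐ t ∂volume.restrict (Ioo 0 T), ∀ ψ : E → ℝ, ContDiff ℝ ∞ ψ →
      HasCompactSupport ψ → ∀ i j, ∫ x, u t x j * fderiv ℝ ψ x (ei i) = -∫ x, G t x i j * ψ x)
    (div : ∀ᵐ t ∂volume.restrict (Ioo 0 T), ∀ᵐ x, ∑ i, G t x i i = 0)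
    (eqn : ∀ φ : E → E, ContDiff ℝ ∞ φ → HasCompactSupport φ → (∀ x, dvE φ x = 0) →
      ∀ θ : ℝ → ℝ, ContDiff ℝ ∞ θ → HasCompactSupport θ → tsupport θ ⊆ Ioo 0 T →
      ∫ t in Ioo 0 T, (deriv θ t * (∫ x, ⟪u t x, φ x⟫)
        + θ t * ∫ x, (⟪u t x, fderiv ℝ φ x (u t x)⟫ + ⟪u t x, lapE φ x⟫)) = 0) :
    ∃ (v : ℝ → E → E) (H : ℝ → E → Fin 3 → Fin 3 → ℝ), WS T v H ∧
      ∀ᵐ t ∂volume.restrict (Ioo 0 T), u t =ᵐ[volume] v t ∧
        ∀ᵐ x, ∀ i j, G t x i j = H t x i j := by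
  set v : ℝ → E → E := fun t x => hm.mk (fun z : ℝ × E => u z.1 z.2) (t, x) with hv
  set H : ℝ → E → Fin 3 → Fin 3 → ℝ := fun t x i j =>
    (hgm i j).mk (fun z : ℝ × E => G z.1 z.2 i j) (t, x) with hH
  have vm : Measurable fun z : ℝ × E => v z.1 z.2 := hm.stronglyMeasurable_mk.measurable
  have Hm : ∀ i j, Measurable fun z : ℝ × E => H z.1 z.2 i j := fun i j =>
    (hgm i j).stronglyMeasurable_mk.measurable
  have ae1 : ∀ᵐ t ∂volume.restrict (Ioo 0 T), ∀ᵐ x, u t x = v t x :=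
    Measure.ae_ae_of_ae_prod hm.ae_eq_mk
  have ae2 : ∀ᵐ t ∂volume.restrict (Ioo 0 T), ∀ᵐ x, ∀ i j, G t x i j = H t x i j := by
    have h1 : ∀ i j, ∀ᵐ t ∂volume.restrict (Ioo 0 T), ∀ᵐ x, G t x i j = H t x i j := fun i j =>
      Measure.ae_ae_of_ae_prod (hgm i j).ae_eq_mk
    filter_upwards [ae_all_iff.2 fun i => ae_all_iff.2 fun j => h1 i j] with t ht
    exact ae_all_iff.2 fun i => ae_all_iff.2 fun j => ht i j
  -- the gradient
  have hnG : ∀ t, nG (H t) = ∫⁻ x, ∑ i, ∑ j, ‖H t x i j‖ₑ ^ 2 := by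
    intro t
    have hs : ∀ i j, Measurable fun x => ‖H t x i j‖ₑ ^ 2 := fun i j =>
      (((Hm i j).comp (by fun_prop : Measurable fun x : E => (t, x))).enorm).pow_const 2
    rw [lintegral_finsetSum _ fun i _ => Finset.measurable_sum _ fun j _ => hs i j]
    simp_rw [fun i => lintegral_finsetSum (μ := (volume : Measure E)) Finset.univ
      fun j (_ : j ∈ Finset.univ) => hs i j]
    unfold nG gsum
    rw [Finset.sum_comm]
  have hdiss : ∫⁻ t in Ioo 0 T, nG (H t) < ⊤ := by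
    refine lt_of_le_of_lt (le_of_eq ?_) gsq
    refine lintegral_congr_ae ?_
    filter_upwards [ae2] with t ht
    rw [hnG]
    refine lintegral_congr_ae ?_
    filter_upwards [ht] with x hx
    simp_rw [hx]
  have hnm : Measurable fun t => nG (H t) := by
    unfold nG gsum
    refine Finset.measurable_sum _ fun j _ => Finset.measurable_sum _ fun i _ => ?_
    exact Measurable.lintegral_prod_right' (f := fun z : ℝ × E => ‖H z.1 z.2 i j‖ₑ ^ 2)
      ((Hm i j).enorm.pow_const 2)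
  have hfin : ∀ᵐ t ∂volume.restrict (Ioo 0 T), nG (H t) < ⊤ := ae_lt_top hnm hdiss.ne
  obtain ⟨M, hM⟩ := bdd
  have hMv : ∀ᵐ t ∂volume.restrict (Ioo 0 T), ∫⁻ x, ‖v t x‖ₑ ^ 2 ≤ ENNReal.ofReal (max M 0) := by
    filter_upwards [hM, ae1] with t h1 h2
    have h3 : ∫⁻ x, ‖v t x‖ₑ ^ 2 = ∫⁻ x, ‖u t x‖ₑ ^ 2 := by
      refine lintegral_congr_ae ?_
      filter_upwards [h2] with x hx
      rw [hx]
    rw [h3]
    exact h1.trans (ENNReal.ofReal_le_ofReal (le_max_left _ _))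
  refine ⟨v, H, ⟨vm, Hm, ⟨max M 0, le_max_right _ _, ?_⟩, ?_, hdiss, ?_⟩, ?_⟩
  · rw [ae_restrict_iff' measurableSet_Ioo] at hMv
    exact hMv
  · have hw : ∀ᵐ t ∂volume.restrict (Ioo 0 T), WG (v t) (H t) := by
      filter_upwards [hMv, hfin, ae1, ae2, grad, div] with t h1 h2 h3 h4 h5 h6
      have hmt : Measurable fun x : E => (t, x) := by fun_prop
      have vc : ∀ j, Measurable fun x => v t x j := fun j =>
        (EuclideanSpace.proj j : E →L[ℝ] ℝ).continuous.measurable.comp (vm.comp hmt)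
      refine ⟨fun j => ⟨(vc j).aestronglyMeasurable, ?_,
        fun i => ((Hm i j).comp hmt).aestronglyMeasurable, fun i => ?_, fun ψ hψ hc i => ?_⟩, ?_⟩
      · refine lt_of_le_of_lt (lintegral_mono fun x => ?_) (h1.trans_lt ENNReal.ofReal_lt_top)
        rw [enorm_sq_coord (v t x)]
        exact Finset.single_le_sum (f := fun i => ‖v t x i‖ₑ ^ 2) (fun _ _ => zero_le)
          (Finset.mem_univ j)
      · refine lt_of_le_of_lt ?_ h2
        unfold nG gsum
        refine le_trans ?_ (Finset.single_le_sum (f := fun j => ∑ i, ∫⁻ x, ‖H t x i j‖ₑ ^ 2)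
          (fun _ _ => zero_le) (Finset.mem_univ j))
        exact Finset.single_le_sum (f := fun i => ∫⁻ x, ‖H t x i j‖ₑ ^ 2)
          (fun _ _ => zero_le) (Finset.mem_univ i)
      · have e1 : ∫ x, v t x j * dE i ψ x = ∫ x, u t x j * fderiv ℝ ψ x (ei i) := by
          refine integral_congr_ae ?_
          filter_upwards [h3] with x hx
          rw [hx]
          rfl
        have e2 : ∫ x, H t x i j * ψ x = ∫ x, G t x i j * ψ x := by
          refine integral_congr_ae ?_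
          filter_upwards [h4] with x hx
          rw [hx]
        rw [e1, e2, h5 ψ hψ hc i j]
      · filter_upwards [h4, h6] with x hx1 hx2
        simp_rw [← hx1]
        exact hx2
    rw [ae_restrict_iff' measurableSet_Ioo] at hw
    exact hw
  · intro φ h1 h2 h3 θ hθ hc hs
    have h4 := eqn φ h1 h2 h3 θ hθ hc hs
    have h5 : ∫ t, (deriv θ t * (∫ x, ⟪v t x, φ x⟫)
        + θ t * ∫ x, (⟪v t x, fderiv ℝ φ x (v t x)⟫ + ⟪v t x, lapE φ x⟫))
        = ∫ t in Ioo 0 T, (deriv θ t * (∫ x, ⟪v t x, φ x⟫)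
        + θ t * ∫ x, (⟪v t x, fderiv ℝ φ x (v t x)⟫ + ⟪v t x, lapE φ x⟫)) := by
      have h6 : ∀ t, t ∉ Ioo 0 T → deriv θ t * (∫ x, ⟪v t x, φ x⟫)
        + θ t * (∫ x, (⟪v t x, fderiv ℝ φ x (v t x)⟫ + ⟪v t x, lapE φ x⟫)) = 0 := by
        intro t ht
        obtain ⟨e1, e2⟩ := theta_zero hs ht
        rw [e1, e2, zero_mul, zero_mul, add_zero]
      exact (setIntegral_eq_integral_of_forall_compl_eq_zero h6).symm
    refine h5.trans (Eq.trans ?_ h4)
    refine integral_congr_ae ?_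
    filter_upwards [ae1] with t ht
    have e1 : ∫ x, ⟪v t x, φ x⟫ = ∫ x, ⟪u t x, φ x⟫ := by
      refine integral_congr_ae ?_
      filter_upwards [ht] with x hx
      rw [hx]
    have e2 : ∫ x, (⟪v t x, fderiv ℝ φ x (v t x)⟫ + ⟪v t x, lapE φ x⟫)
        = ∫ x, (⟪u t x, fderiv ℝ φ x (u t x)⟫ + ⟪u t x, lapE φ x⟫) := by
      refine integral_congr_ae ?_
      filter_upwards [ht] with x hx
      rw [hx]
    rw [e1, e2]
  · filter_upwards [ae1, ae2] with t h1 h2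
    exact ⟨h1, h2⟩

/-- The condition on the angle implies the condition on the scalar products. -/
theorem coh_of_angle {w : E → E} {c β : ℝ} {p y : E}
    (h : w p ≠ 0 → w y ≠ 0 → Real.sin (InnerProductGeometry.angle (w p) (w y)) ≤ c * ‖p - y‖ ^ β) :
    Coh w (max c 1) β p y := by
  unfold Coh
  have hr : 0 ≤ ‖p - y‖ ^ β := Real.rpow_nonneg (norm_nonneg _) _
  by_cases hp : w p = 0
  · simp [hp]
  by_cases hy : w y = 0
  · simp [hy]
  have h1 := h hp hy
  have h2 : Real.sin (InnerProductGeometry.angle (w p) (w y)) ≤ max c 1 * ‖p - y‖ ^ β :=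
    h1.trans (mul_le_mul_of_nonneg_right (le_max_left _ _) hr)
  have h3 : 0 ≤ Real.sin (InnerProductGeometry.angle (w p) (w y)) :=
    InnerProductGeometry.sin_angle_nonneg _ _
  have h4 := Real.sin_sq_add_cos_sq (InnerProductGeometry.angle (w p) (w y))
  have h5 := InnerProductGeometry.cos_angle_mul_norm_mul_norm (w p) (w y)
  have h6 : ‖w p‖ ^ 2 * ‖w y‖ ^ 2 - ⟪w p, w y⟫ ^ 2
      = Real.sin (InnerProductGeometry.angle (w p) (w y)) ^ 2 * (‖w p‖ ^ 2 * ‖w y‖ ^ 2) := by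
    rw [← h5]
    have : Real.sin (InnerProductGeometry.angle (w p) (w y)) ^ 2
        = 1 - Real.cos (InnerProductGeometry.angle (w p) (w y)) ^ 2 := by linarith
    rw [this]
    ring
  rw [h6]
  exact mul_le_mul_of_nonneg_right (pow_le_pow_left₀ h3 h2 2) (by positivity)

end Pool.Agent.R210
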