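import Pool.Agent.R210.W1
import Pool.Agent.R210.MollL2

/-!
The radial mollifier in three dimensional Euclidean space.
-/

open MeasureTheory Set Metric Filter Topology
open scoped ENNReal ContDiff RealInnerProductSpace

namespace Pool.Agent.R210

/-- The total mass of the profile. -/
noncomputable def ZE : ℝ := ∫ z : E, hh (‖z‖ ^ 2)

theorem hhE_smooth : ContDiff ℝ ∞ fun z : E => hh (‖z‖ ^ 2) :=
  hh_smooth.comp (contDiff_norm_sq ℝ)

theorem cptE_of {F : Type*} [Zero F] {f : E → F} (hf : ∀ z, 1 ≤ ‖z‖ → f z = 0) :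
    HasCompactSupport f := by
  refine HasCompactSupport.of_support_subset_isCompact (isCompact_closedBall (0 : E) 1) ?_
  intro z hz
  rw [mem_closedBall_zero_iff]
  by_contra h
  exact hz (hf z (not_le.1 h).le)

theorem sq_one_le {z : E} (hz : 1 ≤ ‖z‖) : 1 ≤ ‖z‖ ^ 2 := one_le_pow₀ hz

theorem hhE_int : Integrable fun z : E => hh (‖z‖ ^ 2) :=
  hhE_smooth.continuous.integrable_of_hasCompactSupport
    (cptE_of fun _ hz => hh_zero (sq_one_le hz))

theorem ZE_pos : 0 < ZE := by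
  refine (integral_pos_iff_support_of_nonneg (fun z => hh_nonneg _) hhE_int).2 ?_
  have h1 : IsOpen (Function.support fun z : E => hh (‖z‖ ^ 2)) := hhE_smooth.continuous.isOpen_support
  refine h1.measure_pos volume ⟨0, ?_⟩
  show hh (‖(0 : E)‖ ^ 2) ≠ 0
  rw [norm_zero]
  exact (hh_pos (by norm_num)).ne'

/-- The mollifier. -/
noncomputable def phE (z : E) : ℝ := hh (‖z‖ ^ 2) / ZE

/-- The potential of the mollifier. -/
noncomputable def psE (z : E) : ℝ := PP (‖z‖ ^ 2) / ZE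

theorem phE_smooth : ContDiff ℝ ∞ phE := hhE_smooth.div_const _

theorem psE_smooth : ContDiff ℝ ∞ psE := (PP_smooth.comp (contDiff_norm_sq ℝ)).div_const _

theorem phE_nonneg (z : E) : 0 ≤ phE z := div_nonneg (hh_nonneg _) ZE_pos.le

theorem phE_zero {z : E} (hz : 1 ≤ ‖z‖) : phE z = 0 := by
  unfold phE; rw [hh_zero (sq_one_le hz), zero_div]

theorem psE_zero {z : E} (hz : 1 ≤ ‖z‖) : psE z = 0 := by
  unfold psE; rw [PP_zero (sq_one_le hz), zero_div]

theorem phE_sk : SK phE := ⟨phE_smooth, cptE_of fun _ hz => phE_zero hz⟩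

theorem psE_sk : SK psE := ⟨psE_smooth, cptE_of fun _ hz => psE_zero hz⟩

theorem integral_phE : ∫ z, phE z = 1 := by
  unfold phE
  rw [integral_div]
  exact div_self ZE_pos.ne'

theorem fderiv_psE (z v : E) : fderiv ℝ psE z v = ⟪z, v⟫ * phE z := by
  have h1 : HasFDerivAt (fun z : E => ‖z‖ ^ 2) (2 • (innerSL ℝ z)) z :=
    (hasStrictFDerivAt_norm_sq z).hasFDerivAt
  have h2 := ((PP_hasDerivAt (‖z‖ ^ 2)).comp_hasFDerivAt z h1).mul_const (ZE⁻¹)
  have h3 : HasFDerivAt psE _ z := h2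
  rw [h3.fderiv]
  simp [phE]
  ring

/-- The rescaled kernel. -/
noncomputable def kp (t : ℝ) (z : E) : ℝ := (t⁻¹) ^ 3 * phE (t⁻¹ • z)

theorem kp_smooth (t : ℝ) : ContDiff ℝ ∞ (kp t) :=
  contDiff_const.mul (phE_smooth.comp (contDiff_const_smul _))

theorem kp_zero {t : ℝ} (ht : 0 < t) {z : E} (hz : t ≤ ‖z‖) : kp t z = 0 := by
  unfold kp
  rw [phE_zero, mul_zero]
  rw [norm_inv_smul ht, le_div_iff₀ ht, one_mul]
  exact hz

theorem kp_nonneg {t : ℝ} (ht : 0 < t) (z : E) : 0 ≤ kp t z :=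
  mul_nonneg (by positivity) (phE_nonneg _)

theorem cpt_of {F : Type*} [Zero F] {f : E → F} {t : ℝ} (hf : ∀ z, t ≤ ‖z‖ → f z = 0) :
    HasCompactSupport f := by
  refine HasCompactSupport.of_support_subset_isCompact (isCompact_closedBall (0 : E) t) ?_
  intro z hz
  rw [mem_closedBall_zero_iff]
  by_contra h
  exact hz (hf z (not_le.1 h).le)

theorem kp_sk {t : ℝ} (ht : 0 < t) : SK (kp t) := ⟨kp_smooth t, cpt_of fun _ hz => kp_zero ht hz⟩

theorem integral_kp {t : ℝ} (ht : 0 < t) : ∫ z, kp t z = 1 := by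
  unfold kp
  rw [integral_const_mul, Measure.integral_comp_inv_smul, finrank_euclideanSpace_fin, integral_phE,
    smul_eq_mul, mul_one, abs_of_pos (by positivity), inv_pow, inv_mul_cancel₀ (by positivity)]

theorem lintegral_kp {t : ℝ} (ht : 0 < t) : ∫⁻ z, ‖kp t z‖ₑ = 1 := by
  have h1 : ∀ z, ‖kp t z‖ₑ = ENNReal.ofReal (kp t z) := fun z =>
    Real.enorm_of_nonneg (kp_nonneg ht z)
  simp_rw [h1]
  rw [← ofReal_integral_eq_lintegral_ofReal (kp_sk ht).int (Eventually.of_forall (kp_nonneg ht)),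
    integral_kp ht, ENNReal.ofReal_one]

theorem exists_BE : ∃ B : ℝ, 1 ≤ B ∧ (∀ z, |phE z| ≤ B) ∧ (∀ i z, |dE i psE z| ≤ B) ∧
    (∀ i k z, |dE k (dE i phE) z| ≤ B) := by
  have hb : ∀ {K : E → ℝ}, SK K → ∃ B, ∀ z, |K z| ≤ B := fun h =>
    h.cont.norm.bddAbove_range_of_hasCompactSupport h.cpt.norm |>.imp fun B hB z => hB ⟨z, rfl⟩
  obtain ⟨B1, h1⟩ := hb phE_sk
  choose B2 h2 using fun i => hb (psE_sk.d i)
  choose B3 h3 using fun i : Fin 3 => fun k : Fin 3 => hb ((phE_sk.d i).d k)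
  refine ⟨1 + |B1| + (∑ i, |B2 i|) + ∑ i, ∑ k, |B3 i k|, ?_, ?_, ?_, ?_⟩
  · have : 0 ≤ ∑ i, |B2 i| := Finset.sum_nonneg fun _ _ => abs_nonneg _
    have : 0 ≤ ∑ i, ∑ k, |B3 i k| :=
      Finset.sum_nonneg fun _ _ => Finset.sum_nonneg fun _ _ => abs_nonneg _
    have := abs_nonneg B1
    linarith
  · intro z
    have : 0 ≤ ∑ i, |B2 i| := Finset.sum_nonneg fun _ _ => abs_nonneg _
    have : 0 ≤ ∑ i, ∑ k, |B3 i k| :=
      Finset.sum_nonneg fun _ _ => Finset.sum_nonneg fun _ _ => abs_nonneg _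
    have := (h1 z).trans (le_abs_self B1)
    linarith
  · intro i z
    have h4 : |B2 i| ≤ ∑ i, |B2 i| :=
      Finset.single_le_sum (f := fun i => |B2 i|) (fun _ _ => abs_nonneg _) (Finset.mem_univ i)
    have : 0 ≤ ∑ i, ∑ k, |B3 i k| :=
      Finset.sum_nonneg fun _ _ => Finset.sum_nonneg fun _ _ => abs_nonneg _
    have := (h2 i z).trans (le_abs_self (B2 i))
    have := abs_nonneg B1
    linarith
  · intro i k z
    have h4 : |B3 i k| ≤ ∑ k, |B3 i k| :=
      Finset.single_le_sum (f := fun k => |B3 i k|) (fun _ _ => abs_nonneg _) (Finset.mem_univ k)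
    have h5 : ∑ k, |B3 i k| ≤ ∑ i, ∑ k, |B3 i k| :=
      Finset.single_le_sum (f := fun i => ∑ k, |B3 i k|)
        (fun _ _ => Finset.sum_nonneg fun _ _ => abs_nonneg _) (Finset.mem_univ i)
    have : 0 ≤ ∑ i, |B2 i| := Finset.sum_nonneg fun _ _ => abs_nonneg _
    have := (h3 i k z).trans (le_abs_self (B3 i k))
    have := abs_nonneg B1
    linarith

/-- A bound of the kernels. -/
noncomputable def BE : ℝ := exists_BE.choose

theorem one_le_BE : 1 ≤ BE := exists_BE.choose_spec.1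
theorem phE_le (z : E) : |phE z| ≤ BE := exists_BE.choose_spec.2.1 z
theorem dE_psE_le (i : Fin 3) (z : E) : |dE i psE z| ≤ BE := exists_BE.choose_spec.2.2.1 i z
theorem dE_dE_phE_le (i k : Fin 3) (z : E) : |dE k (dE i phE) z| ≤ BE :=
  exists_BE.choose_spec.2.2.2 i k z

/-- The derivative of a rescaled function. -/
theorem dE_scale {K : E → ℝ} (hK : ContDiff ℝ ∞ K) (a s : ℝ) (i : Fin 3) (z : E) :
    dE i (fun z => a * K (s • z)) z = a * s * dE i K (s • z) := by
  have h1 : HasFDerivAt (fun z : E => s • z) (s • ContinuousLinearMap.id ℝ E) z :=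
    (hasFDerivAt_id z).const_smul s
  have h2 : HasFDerivAt (fun z => K (s • z)) _ z :=
    (hK.differentiable (by norm_num) (s • z)).hasFDerivAt.comp z h1
  have h3 := h2.const_mul a
  unfold dE
  rw [h3.fderiv]
  simp
  ring

theorem dE_dE_kp (t : ℝ) (i k : Fin 3) (z : E) :
    dE k (dE i (kp t)) z = (t⁻¹) ^ 5 * dE k (dE i phE) (t⁻¹ • z) := by
  have h1 : dE i (kp t) = fun z => ((t⁻¹) ^ 3 * t⁻¹) * dE i phE (t⁻¹ • z) :=
    funext fun z => dE_scale phE_smooth _ _ i z
  rw [h1, dE_scale (dE_contDiff phE_smooth i)]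
  ring

theorem dE_zero_of {K : E → ℝ} {r : ℝ} (hK : ∀ z, r ≤ ‖z‖ → K z = 0) (hs : ContDiff ℝ ∞ K) (i : Fin 3)
    {z : E} (hz : r ≤ ‖z‖) : dE i K z = 0 := by
  have h1 : tsupport K ⊆ closedBall 0 r := by
    refine closure_minimal ?_ isClosed_closedBall
    intro y hy
    rw [mem_closedBall_zero_iff]
    by_contra h
    exact hy (hK y (not_le.1 h).le)
  have hcl : ∀ z : E, r < ‖z‖ → dE i K z = 0 := by
    intro z hz
    have h2 : z ∉ tsupport K := fun h => by
      have := h1 h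
      rw [mem_closedBall_zero_iff] at this
      linarith
    have h3 : K =ᶠ[𝓝 z] 0 := notMem_tsupport_iff_eventuallyEq.1 h2
    unfold dE
    rw [h3.fderiv_eq]
    simp
  rcases hz.eq_or_lt with h | h
  · by_cases hz0 : z = 0
    · -- then `K = 0` for every point
      have h2 : ∀ y, K y = 0 := fun y => hK y (by rw [h, hz0, norm_zero]; exact norm_nonneg _)
      have h3 : K = fun _ => 0 := funext h2
      unfold dE
      rw [h3]
      simp
    · have hc : Continuous (dE i K) := (dE_contDiff hs i).continuous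
      have h2 : Tendsto (fun n : ℕ => (1 + 1 / ((n : ℝ) + 1)) • z) atTop (𝓝 ((1 + 0 : ℝ) • z)) :=
        (tendsto_one_div_add_atTop_nhds_zero_nat.const_add 1).smul_const z
      rw [add_zero, one_smul] at h2
      have h3 := (hc.tendsto z).comp h2
      have h4 : ∀ n : ℕ, (dE i K ∘ fun n : ℕ => (1 + 1 / ((n : ℝ) + 1)) • z) n = 0 := by
        intro n
        refine hcl _ ?_
        rw [norm_smul, Real.norm_eq_abs, abs_of_pos (by positivity), h]
        have h5 : 0 < ‖z‖ := norm_pos_iff.2 hz0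
        have h6 : (0 : ℝ) < 1 / ((n : ℝ) + 1) := by positivity
        nlinarith
      have h5 : Tendsto (dE i K ∘ fun n : ℕ => (1 + 1 / ((n : ℝ) + 1)) • z) atTop (𝓝 0) := by
        rw [show (dE i K ∘ fun n : ℕ => (1 + 1 / ((n : ℝ) + 1)) • z) = fun _ => 0 from funext h4]
        exact tendsto_const_nhds
      exact tendsto_nhds_unique h3 h5
  · exact hcl z h

end Pool.Agent.R210
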