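import Pool.Agent.R210.W2

/-!
Functions with weak gradients: translations and mollification.
-/

open MeasureTheory Set Metric Filter Topology
open scoped ENNReal ContDiff RealInnerProductSpace

namespace Pool.Agent.R210

/-- The function `f` and its weak gradient `g` are square integrable. -/
structure WD (f : E → ℝ) (g : Fin 3 → E → ℝ) : Prop where
  fm : AEStronglyMeasurable f volume
  fsq : ∫⁻ x, ‖f x‖ₑ ^ 2 < ⊤
  gm : ∀ i, AEStronglyMeasurable (g i) volume
  gsq : ∀ i, ∫⁻ x, ‖g i x‖ₑ ^ 2 < ⊤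
  wk : ∀ ψ : E → ℝ, ContDiff ℝ ∞ ψ → HasCompactSupport ψ → ∀ i,
    ∫ x, f x * dE i ψ x = -∫ x, g i x * ψ x

theorem memL2_of {F : Type*} [NormedAddCommGroup F] {f : E → F}
    (hm : AEStronglyMeasurable f volume) (h : ∫⁻ x, ‖f x‖ₑ ^ 2 < ⊤) : MemLp f 2 volume := by
  refine ⟨hm, ?_⟩
  rw [eLpNorm_lt_top_iff_lintegral_rpow_enorm_lt_top (by norm_num) (by norm_num)]
  simpa using h

theorem loc_of {F : Type*} [NormedAddCommGroup F] {f : E → F}
    (hm : AEStronglyMeasurable f volume) (h : ∫⁻ x, ‖f x‖ₑ ^ 2 < ⊤) :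
    LocallyIntegrable f volume := (memL2_of hm h).locallyIntegrable (by norm_num)

theorem WD.floc {f : E → ℝ} {g : Fin 3 → E → ℝ} (h : WD f g) : LocallyIntegrable f volume :=
  loc_of h.fm h.fsq

theorem WD.gloc {f : E → ℝ} {g : Fin 3 → E → ℝ} (h : WD f g) (i : Fin 3) :
    LocallyIntegrable (g i) volume := loc_of (h.gm i) (h.gsq i)

/-- The sum of the squares of the norms. -/
noncomputable def gsum (g : Fin 3 → E → ℝ) : ℝ≥0∞ := ∑ i, ∫⁻ x, ‖g i x‖ₑ ^ 2

theorem dE_comp_sub (K : E → ℝ) (hK : ContDiff ℝ ∞ K) (x : E) (i : Fin 3) (y : E) :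
    dE i (fun y => K (x - y)) y = -dE i K (x - y) := by
  have h1 : HasFDerivAt (fun y : E => x - y) (-ContinuousLinearMap.id ℝ E) y := by
    simpa using (hasFDerivAt_id y).const_sub x
  have h2 : HasFDerivAt (fun y => K (x - y)) _ y :=
    (hK.differentiable (by norm_num) (x - y)).hasFDerivAt.comp y h1
  unfold dE
  rw [h2.fderiv]
  simp

theorem SK.sub {K : E → ℝ} (hK : SK K) (x : E) : SK fun y => K (x - y) where
  smooth := hK.smooth.comp (contDiff_const.sub contDiff_id)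
  cpt := hK.cpt.comp_homeomorph (Homeomorph.subLeft x)

theorem WD.cv_dE {f : E → ℝ} {g : Fin 3 → E → ℝ} (h : WD f g) {K : E → ℝ} (hK : SK K) (i : Fin 3)
    (x : E) : cv f (dE i K) x = cv (g i) K x := by
  have h1 := h.wk _ (hK.sub x).smooth (hK.sub x).cpt i
  simp_rw [dE_comp_sub K hK.smooth] at h1
  simp only [mul_neg, integral_neg, neg_inj] at h1
  exact h1

theorem ae_cv {f : E → ℝ} (hf : LocallyIntegrable f volume) {t : ℕ → ℝ} (ht : ∀ n, 0 < t n)
    (ht0 : Tendsto t atTop (𝓝 0)) :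
    ∀ᵐ x, Tendsto (fun n => cv f (kp (t n)) x) atTop (𝓝 (f x)) := by
  filter_upwards [(Besicovitch.vitaliFamily (volume : Measure E)).ae_tendsto_average_norm_sub hf]
    with x h0
  have ht' : Tendsto t atTop (𝓝[>] 0) :=
    tendsto_nhdsWithin_iff.2 ⟨ht0, Eventually.of_forall ht⟩
  have h1 := (h0.comp (Besicovitch.tendsto_filterAt volume x)).comp ht'
  have e1 : (fun n => cv f (kp (t n)) x) = fun n => ∫ y, (kp (t n) (x - y)) • f y := by
    funext n
    unfold cv
    exact integral_congr_ae (Eventually.of_forall fun y => by simp [mul_comm])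
  rw [e1]
  have hv : 0 < (volume : Measure E).real (closedBall 0 1) := by
    rw [measureReal_def]
    exact ENNReal.toReal_pos (measure_closedBall_pos _ _ one_pos).ne' measure_closedBall_lt_top.ne
  refine tendsto_integral_smul_of_tendsto_average_norm_sub
    (BE * (volume : Measure E).real (closedBall 0 1)) h1 ?_ ?_ ?_ ?_
  · exact Eventually.of_forall fun n => hf.integrableOn_isCompact (isCompact_closedBall _ _)
  · refine tendsto_const_nhds.congr fun n => ?_
    rw [integral_sub_left_eq_self (fun y => kp (t n) y) volume x, integral_kp (ht n)]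
  · refine Eventually.of_forall fun n y hy => ?_
    rw [mem_closedBall, dist_comm, dist_eq_norm]
    by_contra hc
    exact hy (kp_zero (ht n) (not_le.1 hc).le)
  · refine Eventually.of_forall fun n y => ?_
    show |kp (t n) (x - y)| ≤ BE * volume.real (closedBall 0 1) / volume.real (closedBall x (t n))
    rw [Measure.addHaar_real_closedBall' _ x (ht n).le, finrank_euclideanSpace_fin]
    rw [mul_div_mul_right _ _ hv.ne']
    unfold kp
    rw [abs_mul, abs_of_pos (by have := ht n; positivity), inv_pow, div_eq_inv_mul]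
    exact mul_le_mul_of_nonneg_left (phE_le _) (by have := ht n; positivity)

/-- The translation estimate for smooth functions. -/
theorem trans_smooth {F : E → ℝ} (hF : ContDiff ℝ ∞ F) (h : E) :
    ∫⁻ x, ‖F (x - h) - F x‖ₑ ^ 2
      ≤ ENNReal.ofReal (‖h‖ ^ 2) * ∑ i, ∫⁻ x, ‖dE i F x‖ₑ ^ 2 := by
  have hgc : ∀ i, Continuous (dE i F) := fun i => (dE_contDiff hF i).continuous
  have hsq : ∀ r : ℝ, ‖r‖ₑ ^ 2 = ENNReal.ofReal (r ^ 2) := fun r => by
    rw [← ofReal_norm, Real.norm_eq_abs, ← ENNReal.ofReal_pow (abs_nonneg _), sq_abs]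
  have hpt : ∀ x, ‖F (x - h) - F x‖ₑ ^ 2
      ≤ ∫⁻ s in Ioc (0 : ℝ) 1, ENNReal.ofReal (‖h‖ ^ 2) * ∑ i, ‖dE i F (x - s • h)‖ₑ ^ 2 := by
    intro x
    have hd : ∀ s : ℝ, HasDerivAt (fun s : ℝ => F (x - s • h)) (-fderiv ℝ F (x - s • h) h) s := by
      intro s
      have h1 : HasDerivAt (fun s : ℝ => x - s • h) (-h) s := by
        simpa using ((hasDerivAt_id s).smul_const h).const_sub x
      have h2 := ((hF.differentiable (by norm_num) _).hasFDerivAt).comp_hasDerivAt s h1
      rw [map_neg] at h2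
      exact h2
    have hc : Continuous fun s : ℝ => -fderiv ℝ F (x - s • h) h :=
      (((hF.continuous_fderiv (by norm_num)).comp (by fun_prop)).clm_apply continuous_const).neg
    have h1 := intervalIntegral.integral_eq_sub_of_hasDerivAt (a := 0) (b := 1)
      (fun s _ => hd s) (hc.intervalIntegrable _ _)
    simp only [one_smul, zero_smul, sub_zero] at h1
    rw [← h1, hsq]
    have hcs : Continuous fun s : ℝ => ∑ i, dE i F (x - s • h) ^ 2 :=
      continuous_finsetSum _ fun i _ => ((hgc i).comp (by fun_prop)).pow 2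
    have h2 : (∫ s in (0 : ℝ)..1, -fderiv ℝ F (x - s • h) h) ^ 2
        ≤ ∫ s in (0 : ℝ)..1, ‖h‖ ^ 2 * ∑ i, dE i F (x - s • h) ^ 2 := by
      refine (sq_int_le hc).trans ?_
      refine intervalIntegral.integral_mono zero_le_one ((hc.pow 2).intervalIntegrable _ _)
        ((continuous_const.mul hcs).intervalIntegrable _ _) fun s => ?_
      show (-fderiv ℝ F (x - s • h) h) ^ 2 ≤ ‖h‖ ^ 2 * ∑ i, dE i F (x - s • h) ^ 2
      rw [neg_sq, lin_sum, EuclideanSpace.norm_sq_eq]
      have := Finset.sum_mul_sq_le_sq_mul_sq Finset.univ (fun i => h i)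
        fun i => dE i F (x - s • h)
      simpa [dE] using this
    refine (ENNReal.ofReal_le_ofReal h2).trans ?_
    rw [intervalIntegral.integral_of_le zero_le_one, ofReal_integral_eq_lintegral_ofReal]
    · refine lintegral_mono fun s => ?_
      rw [ENNReal.ofReal_mul (by positivity), ENNReal.ofReal_sum_of_nonneg fun i _ => sq_nonneg _]
      simp_rw [hsq]
      exact le_rfl
    · exact ((continuous_const.mul hcs).integrableOn_Icc (a := 0) (b := 1)).mono_set
        Ioc_subset_Icc_self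
    · exact Filter.Eventually.of_forall fun s =>
        mul_nonneg (by positivity) (Finset.sum_nonneg fun i _ => sq_nonneg _)
  have hmeas : Measurable fun p : E × ℝ =>
      ENNReal.ofReal (‖h‖ ^ 2) * ∑ i, ‖dE i F (p.1 - p.2 • h)‖ₑ ^ 2 := by
    refine Measurable.const_mul (Finset.measurable_sum _ fun i _ => ?_) _
    exact (((hgc i).comp (by fun_prop : Continuous fun p : E × ℝ =>
      p.1 - p.2 • h)).measurable.enorm).pow_const 2
  calc ∫⁻ x, ‖F (x - h) - F x‖ₑ ^ 2
      ≤ ∫⁻ x, ∫⁻ s in Ioc (0 : ℝ) 1, ENNReal.ofReal (‖h‖ ^ 2)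
          * ∑ i, ‖dE i F (x - s • h)‖ₑ ^ 2 := lintegral_mono hpt
    _ = ∫⁻ s in Ioc (0 : ℝ) 1, ∫⁻ x, ENNReal.ofReal (‖h‖ ^ 2)
          * ∑ i, ‖dE i F (x - s • h)‖ₑ ^ 2 :=
        lintegral_lintegral_swap hmeas.aemeasurable
    _ = ∫⁻ s in Ioc (0 : ℝ) 1, ENNReal.ofReal (‖h‖ ^ 2) * ∑ i, ∫⁻ x, ‖dE i F x‖ₑ ^ 2 := by
        refine lintegral_congr fun s => ?_
        rw [lintegral_const_mul' _ _ ENNReal.ofReal_ne_top, lintegral_finsetSum]
        · congr 1
          refine Finset.sum_congr rfl fun i _ => ?_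
          exact lintegral_sub_right_eq_self (fun y => ‖dE i F y‖ₑ ^ 2) (s • h)
        · intro i _
          exact (((hgc i).comp (by fun_prop : Continuous fun x : E =>
            x - s • h)).measurable.enorm).pow_const 2
    _ = _ := by
        rw [lintegral_const]
        simp

theorem WD.trans {f : E → ℝ} {g : Fin 3 → E → ℝ} (hw : WD f g) (h : E) :
    ∫⁻ x, ‖f (x - h) - f x‖ₑ ^ 2 ≤ ENNReal.ofReal (‖h‖ ^ 2) * gsum g := by
  set t : ℕ → ℝ := fun n => 1 / ((n : ℝ) + 1) with ht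
  have htp : ∀ n, 0 < t n := fun n => by simp only [ht]; positivity
  have ht0 : Tendsto t atTop (𝓝 0) := tendsto_one_div_add_atTop_nhds_zero_nat
  have h1 := ae_cv hw.floc htp ht0
  have h2 : ∀ᵐ x, Tendsto (fun n => cv f (kp (t n)) (x - h)) atTop (𝓝 (f (x - h))) :=
    (measurePreserving_sub_right volume h).quasiMeasurePreserving.ae h1
  have hs : ∀ n, ContDiff ℝ ∞ (cv f (kp (t n))) := fun n => cv_contDiff hw.floc (kp_sk (htp n))
  have h3 : ∀ n, ∫⁻ x, ‖cv f (kp (t n)) (x - h) - cv f (kp (t n)) x‖ₑ ^ 2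
      ≤ ENNReal.ofReal (‖h‖ ^ 2) * gsum g := by
    intro n
    refine (trans_smooth (hs n) h).trans (mul_le_mul_right ?_ _)
    unfold gsum
    refine Finset.sum_le_sum fun i _ => ?_
    have e : ∀ x, dE i (cv f (kp (t n))) x = cv (g i) (kp (t n)) x := fun x => by
      rw [Pool.Agent.R210.cv_dE hw.floc (kp_sk (htp n)), hw.cv_dE (kp_sk (htp n))]
    simp_rw [e]
    refine (cv_L2 (hw.gm i) (kp_sk (htp n)).cont).trans ?_
    rw [lintegral_kp (htp n), one_pow, one_mul]
  have h4 : ∫⁻ x, ‖f (x - h) - f x‖ₑ ^ 2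
      ≤ liminf (fun n => ∫⁻ x, ‖cv f (kp (t n)) (x - h) - cv f (kp (t n)) x‖ₑ ^ 2) atTop := by
    refine le_trans (lintegral_mono_ae ?_) (lintegral_liminf_le' ?_)
    · filter_upwards [h1, h2] with x hx1 hx2
      have h5 : Tendsto (fun n => ‖cv f (kp (t n)) (x - h) - cv f (kp (t n)) x‖ₑ ^ 2) atTop
          (𝓝 (‖f (x - h) - f x‖ₑ ^ 2)) :=
        ENNReal.Tendsto.pow ((hx2.sub hx1).enorm)
      exact h5.liminf_eq.symm.le
    · intro n
      have hc : Continuous (cv f (kp (t n))) := (hs n).continuous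
      exact ((((hc.comp (continuous_id.sub continuous_const)).sub hc).measurable.enorm).pow_const
        2).aemeasurable
  refine h4.trans ?_
  refine liminf_le_of_frequently_le' ?_
  exact Frequently.of_forall h3

/-- The error of the mollification. -/
theorem WD.moll {f : E → ℝ} {g : Fin 3 → E → ℝ} (hw : WD f g) {t : ℝ} (ht : 0 < t) :
    ∫⁻ x, ‖f x - cv f (kp t) x‖ₑ ^ 2 ≤ ENNReal.ofReal (t ^ 2) * gsum g := by
  have hK := kp_sk ht
  have h1 : ∀ x, ‖f x - cv f (kp t) x‖ₑ ^ 2 ≤ ∫⁻ z, ‖f (x - z) - f x‖ₑ ^ 2 * ‖kp t z‖ₑ := by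
    intro x
    have hi : Integrable fun z => f (x - z) * kp t z := by
      have := (cv_int hw.floc hK.cont hK.cpt x).comp_sub_left x
      simpa using this
    have h2 : cv f (kp t) x - f x = ∫ z, (f (x - z) - f x) * kp t z := by
      have h3 : (fun z => (f (x - z) - f x) * kp t z)
          = fun z => f (x - z) * kp t z - f x * kp t z := by
        funext z; ring
      rw [h3, integral_sub hi (hK.int.const_mul _), integral_const_mul, integral_kp ht, mul_one,
        cv_swap]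
    have h4 : ‖f x - cv f (kp t) x‖ₑ ≤ ∫⁻ z, ‖f (x - z) - f x‖ₑ * ‖kp t z‖ₑ := by
      rw [← enorm_neg, neg_sub, h2]
      refine (enorm_integral_le_lintegral_enorm _).trans (le_of_eq ?_)
      simp_rw [enorm_mul]
    have hm : AEStronglyMeasurable (fun z => f (x - z) - f x) volume :=
      (hw.fm.comp_quasiMeasurePreserving (quasiMeasurePreserving_sub_left volume x)).sub
        aestronglyMeasurable_const
    calc ‖f x - cv f (kp t) x‖ₑ ^ 2 ≤ (∫⁻ z, ‖f (x - z) - f x‖ₑ * ‖kp t z‖ₑ) ^ 2 := by gcongr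
      _ ≤ (∫⁻ z, ‖f (x - z) - f x‖ₑ ^ 2 * ‖kp t z‖ₑ) * ∫⁻ z, ‖kp t z‖ₑ :=
        lint_cs hm.enorm hK.cont.measurable.enorm.aemeasurable
      _ = _ := by rw [lintegral_kp ht, mul_one]
  have hm2 : AEMeasurable (fun p : E × E => ‖f (p.1 - p.2) - f p.1‖ₑ ^ 2 * ‖kp t p.2‖ₑ)
      (volume.prod volume) := by
    have h3 : AEStronglyMeasurable (fun p : E × E => f (p.1 - p.2)) (volume.prod volume) :=
      hw.fm.comp_quasiMeasurePreserving (quasiMeasurePreserving_sub volume volume)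
    exact ((h3.sub hw.fm.comp_fst).enorm.pow_const 2).mul
      (hK.cont.measurable.enorm.comp measurable_snd).aemeasurable
  calc ∫⁻ x, ‖f x - cv f (kp t) x‖ₑ ^ 2
      ≤ ∫⁻ x, ∫⁻ z, ‖f (x - z) - f x‖ₑ ^ 2 * ‖kp t z‖ₑ := lintegral_mono h1
    _ = ∫⁻ z, ∫⁻ x, ‖f (x - z) - f x‖ₑ ^ 2 * ‖kp t z‖ₑ := lintegral_lintegral_swap hm2
    _ = ∫⁻ z, (∫⁻ x, ‖f (x - z) - f x‖ₑ ^ 2) * ‖kp t z‖ₑ :=
        lintegral_congr fun z => lintegral_mul_const' _ _ enorm_ne_top
    _ ≤ ∫⁻ z, (ENNReal.ofReal (t ^ 2) * gsum g) * ‖kp t z‖ₑ := by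
        refine lintegral_mono fun z => ?_
        rcases le_or_gt t ‖z‖ with h | h
        · simp [kp_zero ht h]
        · refine mul_le_mul_left ((hw.trans z).trans (mul_le_mul_left ?_ _)) _
          exact ENNReal.ofReal_le_ofReal (pow_le_pow_left₀ (norm_nonneg _) h.le 2)
    _ = _ := by
        rw [lintegral_const_mul _ hK.cont.measurable.enorm, lintegral_kp ht, mul_one]

end Pool.Agent.R210
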