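import Pool.Agent.R210.W3

/-!
The dependence of the mollification on the scale, for a divergence free field, in terms of the
vorticity.
-/

open MeasureTheory Set Metric Filter Topology
open scoped ENNReal ContDiff RealInnerProductSpace

namespace Pool.Agent.R210

/-- A divergence free field and its weak gradient `G x i j = ∂ᵢ uⱼ`, square integrable. -/
structure WG (u : E → E) (G : E → Fin 3 → Fin 3 → ℝ) : Prop where
  wd : ∀ j, WD (fun x => u x j) (fun i x => G x i j)
  dv : ∀ᵐ x, ∑ i, G x i i = 0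

/-- The vorticity. -/
noncomputable def om (G : E → Fin 3 → Fin 3 → ℝ) (x : E) : E :=
  !₂[G x 1 2 - G x 2 1, G x 2 0 - G x 0 2, G x 0 1 - G x 1 0]

theorem abs_coord_le (v : E) (i : Fin 3) : |v i| ≤ ‖v‖ := by
  rw [EuclideanSpace.norm_eq]
  refine Real.abs_le_sqrt ?_
  have := Finset.single_le_sum (f := fun i => ‖v i‖ ^ 2) (fun i _ => by positivity)
    (Finset.mem_univ i)
  simpa using this

theorem anti_le (G : E → Fin 3 → Fin 3 → ℝ) (x : E) (i j : Fin 3) :
    |G x i j - G x j i| ≤ ‖om G x‖ := by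
  have h0 := abs_coord_le (om G x) 0
  have h1 := abs_coord_le (om G x) 1
  have h2 := abs_coord_le (om G x) 2
  simp only [om, PiLp.toLp_apply, Matrix.cons_val_zero, Matrix.cons_val_one,
    Matrix.cons_val] at h0 h1 h2
  have hn := norm_nonneg (om G x)
  unfold om at hn ⊢
  fin_cases i <;> fin_cases j <;> simp only [Fin.zero_eta, Fin.mk_one, Fin.reduceFinMk, sub_self,
    abs_zero]
  · exact hn
  · exact h2
  · rw [abs_sub_comm]; exact h1
  · rw [abs_sub_comm]; exact h2
  · exact hn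
  · exact h0
  · exact h1
  · rw [abs_sub_comm]; exact h0
  · exact hn

theorem mul_int {f K : E → ℝ} (hf : LocallyIntegrable f volume) (hK : SK K) :
    Integrable fun y => f y * K y := by
  have h := cv_int hf (hK.sub 0).cont (hK.sub 0).cpt 0
  simpa using h

variable {u : E → E} {G : E → Fin 3 → Fin 3 → ℝ}

/-- The Laplacian of a divergence free field in terms of the vorticity. -/
theorem WG.lap (h : WG u G) {Ψ : E → ℝ} (hΨ : SK Ψ) (j : Fin 3) :
    ∫ y, u y j * ∑ i, dE i (dE i Ψ) y = -∑ i, ∫ y, (G y i j - G y j i) * dE i Ψ y := by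
  have hi1 : ∀ i, Integrable fun y => u y j * dE i (dE i Ψ) y := fun i =>
    mul_int (h.wd j).floc ((hΨ.d i).d i)
  have hi2 : ∀ i a b, Integrable fun y => G y a b * dE i Ψ y := fun i a b =>
    mul_int ((h.wd b).gloc a) (hΨ.d i)
  have h1 : ∫ y, u y j * ∑ i, dE i (dE i Ψ) y = -∑ i, ∫ y, G y i j * dE i Ψ y := by
    simp_rw [Finset.mul_sum]
    rw [integral_finsetSum _ fun i _ => hi1 i, ← Finset.sum_neg_distrib]
    exact Finset.sum_congr rfl fun i _ => (h.wd j).wk _ (hΨ.d i).smooth (hΨ.d i).cpt i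
  have h2 : ∑ i, ∫ y, G y j i * dE i Ψ y = 0 := by
    have h3 : ∀ i, ∫ y, G y j i * dE i Ψ y = ∫ y, G y i i * dE j Ψ y := by
      intro i
      have h4 := (h.wd i).wk _ (hΨ.d i).smooth (hΨ.d i).cpt j
      have h5 := (h.wd i).wk _ (hΨ.d j).smooth (hΨ.d j).cpt i
      have h6 : ∫ y, u y i * dE j (dE i Ψ) y = ∫ y, u y i * dE i (dE j Ψ) y := by
        simp_rw [dE_comm hΨ.smooth j i]
      simp only at h4 h5
      linarith
    simp_rw [h3]
    rw [← integral_finsetSum _ fun i _ => hi2 j i i]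
    rw [show (0 : ℝ) = ∫ y : E, (0 : ℝ) by simp]
    refine integral_congr_ae ?_
    filter_upwards [h.dv] with y hy
    rw [← Finset.sum_mul, hy, zero_mul]
  rw [h1]
  simp_rw [sub_mul]
  rw [Finset.sum_congr rfl fun i _ => integral_sub (hi2 i i j) (hi2 i j i), Finset.sum_sub_distrib,
    h2, sub_zero]

/-- The derivative of the kernel with respect to the scale. -/
noncomputable def Lp' (z : E) : ℝ := ∑ i, dE i (dE i psE) z

theorem dE_psE (i : Fin 3) (z : E) : dE i psE z = z i * phE z := by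
  unfold dE
  rw [fderiv_psE]
  simp [ei, EuclideanSpace.inner_single_right]

theorem Lp'_eq (z : E) : Lp' z = 3 * phE z + fderiv ℝ phE z z := by
  have h1 : ∀ i, dE i (dE i psE) z = phE z + z i * dE i phE z := by
    intro i
    have h2 : dE i psE = fun z : E => z i * phE z := funext fun z => dE_psE i z
    have h3 : HasFDerivAt (fun z : E => z i) (EuclideanSpace.proj i : E →L[ℝ] ℝ) z :=
      (EuclideanSpace.proj i : E →L[ℝ] ℝ).hasFDerivAt
    have h4 := h3.mul (phE_smooth.differentiable (by norm_num) z).hasFDerivAt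
    have h5 : fderiv ℝ (fun z : E => z i * phE z) z = _ := h4.fderiv
    unfold dE at h2 ⊢
    rw [h2, h5]
    simp [ei]
    ring
  unfold Lp'
  simp_rw [h1]
  rw [Finset.sum_add_distrib, lin_sum]
  simp [dE]

theorem Lp'_cont : Continuous Lp' :=
  continuous_finsetSum _ fun i _ => ((psE_sk.d i).d i).cont

theorem Lp'_zero {z : E} (hz : 1 ≤ ‖z‖) : Lp' z = 0 := by
  unfold Lp'
  refine Finset.sum_eq_zero fun i _ => ?_
  exact dE_zero_of (fun y hy => dE_zero_of (fun w hw => psE_zero hw) psE_smooth i hy)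
    (psE_sk.d i).smooth i hz

theorem kp_hasDerivAt {t : ℝ} (ht : t ≠ 0) (z : E) :
    HasDerivAt (fun t => kp t z) (-(t⁻¹) ^ 4 * Lp' (t⁻¹ • z)) t := by
  have h1 : HasDerivAt (fun t : ℝ => t⁻¹) (-(t ^ 2)⁻¹) t := hasDerivAt_inv ht
  have h2 : HasDerivAt (fun t : ℝ => t⁻¹ • z) ((-(t ^ 2)⁻¹) • z) t := h1.smul_const z
  have h3 := (phE_smooth.differentiable (by norm_num) (t⁻¹ • z)).hasFDerivAt.comp_hasDerivAt t h2
  have h4 := (h1.pow 3).mul h3
  refine h4.congr_deriv ?_
  rw [Lp'_eq]
  simp only [map_smul, smul_eq_mul, Function.comp_apply, Pi.pow_apply, ← inv_pow]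
  push_cast
  ring

/-- The derivative of the mollification with respect to the scale. -/
theorem cv_kp_hasDerivAt {f : E → ℝ} (hf : LocallyIntegrable f volume) {t₀ : ℝ} (ht : 0 < t₀)
    (x : E) : HasDerivAt (fun t => cv f (kp t) x)
      (∫ y, f y * (-(t₀⁻¹) ^ 4 * Lp' (t₀⁻¹ • (x - y)))) t₀ := by
  obtain ⟨C, hC⟩ : ∃ C, ∀ z, |Lp' z| ≤ C :=
    Lp'_cont.norm.bddAbove_range_of_hasCompactSupport
      (cptE_of (f := Lp') fun z hz => Lp'_zero hz).norm |>.imp fun B hB z => hB ⟨z, rfl⟩
  have hC0 : 0 ≤ C := (abs_nonneg _).trans (hC 0)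
  set s : Set E := closedBall x (2 * t₀) with hs
  have hfi : IntegrableOn (fun y => ‖f y‖) s :=
    (hf.integrableOn_isCompact (isCompact_closedBall _ _)).norm
  refine (hasDerivAt_integral_of_dominated_loc_of_deriv_le
    (bound := fun y => s.indicator (fun y => ‖f y‖) y * ((t₀ / 2)⁻¹ ^ 4 * C))
    (F := fun t y => f y * kp t (x - y))
    (F' := fun t y => f y * (-(t⁻¹) ^ 4 * Lp' (t⁻¹ • (x - y))))
    (Metric.ball_mem_nhds t₀ (half_pos ht)) ?_ ?_ ?_ ?_ ?_ ?_).2
  · refine Eventually.of_forall fun t => ?_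
    exact hf.aestronglyMeasurable.mul
      (((kp_smooth t).continuous.comp (continuous_const.sub continuous_id)).aestronglyMeasurable)
  · exact cv_int hf (kp_sk ht).cont (kp_sk ht).cpt x
  · refine hf.aestronglyMeasurable.mul ?_
    exact (continuous_const.mul (Lp'_cont.comp
      (by fun_prop : Continuous fun y : E => t₀⁻¹ • (x - y)))).aestronglyMeasurable
  · refine Eventually.of_forall fun y t hb => ?_
    rw [Metric.mem_ball, Real.dist_eq] at hb
    have hb' := abs_lt.1 hb
    have htp : 0 < t := by linarith [hb'.1]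
    rw [norm_mul, norm_mul, norm_neg, norm_pow, Real.norm_eq_abs t⁻¹, abs_of_pos (inv_pos.2 htp)]
    by_cases hy : y ∈ s
    · rw [indicator_of_mem hy]
      refine mul_le_mul_of_nonneg_left ?_ (norm_nonneg _)
      refine mul_le_mul ?_ (hC _) (norm_nonneg _) (by positivity)
      refine pow_le_pow_left₀ (by positivity) ?_ 4
      exact inv_anti₀ (by positivity) (by linarith [hb'.1])
    · rw [indicator_of_notMem hy, zero_mul]
      rw [hs, mem_closedBall, not_le, dist_comm, dist_eq_norm] at hy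
      have h1 : Lp' (t⁻¹ • (x - y)) = 0 := by
        refine Lp'_zero ?_
        rw [norm_inv_smul htp, le_div_iff₀ htp]
        linarith [hb'.2]
      rw [h1]
      simp
  · exact (hfi.integrable_indicator measurableSet_closedBall).mul_const _
  · refine Eventually.of_forall fun y t hb => ?_
    rw [Metric.mem_ball, Real.dist_eq] at hb
    have hb' := abs_lt.1 hb
    have htp : t ≠ 0 := by
      have : 0 < t := by linarith [hb'.1]
      exact this.ne'
    exact (kp_hasDerivAt htp (x - y)).const_mul (f y)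

/-- The bound of the derivative by the vorticity. -/
theorem WG.deriv_le (h : WG u G) (hom : LocallyIntegrable (om G) volume) {t : ℝ} (ht : 0 < t)
    (x : E) (j : Fin 3) :
    |∫ y, u y j * (-(t⁻¹) ^ 4 * Lp' (t⁻¹ • (x - y)))|
      ≤ 3 * BE * (t⁻¹) ^ 3 * ∫ y in ball x t, ‖om G y‖ := by
  set Ψ : E → ℝ := fun y => 1 * psE (t⁻¹ • (x - y)) with hΨ
  have hk : SK fun z : E => 1 * psE (t⁻¹ • z) := by
    refine ⟨contDiff_const.mul (psE_smooth.comp (contDiff_const_smul _)), ?_⟩
    refine cpt_of (t := t) fun z hz => ?_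
    rw [psE_zero, mul_zero]
    rwa [norm_inv_smul ht, le_div_iff₀ ht, one_mul]
  have hΨk : SK Ψ := hk.sub x
  have e1 : ∀ i y, dE i Ψ y = -(t⁻¹ * dE i psE (t⁻¹ • (x - y))) := by
    intro i y
    rw [hΨ, dE_comp_sub _ hk.smooth, dE_scale psE_smooth, one_mul]
  have e2 : ∀ i y, dE i (dE i Ψ) y = t⁻¹ ^ 2 * dE i (dE i psE) (t⁻¹ • (x - y)) := by
    intro i y
    have h1 : dE i Ψ = fun y => (fun z : E => (-t⁻¹) * dE i psE (t⁻¹ • z)) (x - y) :=
      funext fun y => by rw [e1]; ring
    have hk2 : ContDiff ℝ ∞ fun z : E => (-t⁻¹) * dE i psE (t⁻¹ • z) :=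
      contDiff_const.mul ((psE_sk.d i).smooth.comp (contDiff_const_smul _))
    rw [h1, dE_comp_sub _ hk2, dE_scale (psE_sk.d i).smooth]
    ring
  have h1 := h.lap hΨk j
  have e3 : ∫ y, u y j * (-(t⁻¹) ^ 4 * Lp' (t⁻¹ • (x - y)))
      = (t⁻¹) ^ 2 * ∑ i, ∫ y, (G y i j - G y j i) * dE i Ψ y := by
    have e4 : ∫ y, u y j * (-(t⁻¹) ^ 4 * Lp' (t⁻¹ • (x - y)))
        = -(t⁻¹) ^ 2 * ∫ y, u y j * ∑ i, dE i (dE i Ψ) y := by
      rw [← integral_const_mul]
      refine integral_congr_ae (Eventually.of_forall fun y => ?_)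
      simp only [e2]
      rw [← Finset.mul_sum]
      unfold Lp'
      ring
    rw [e4, h1]
    ring
  rw [e3, abs_mul, abs_of_pos (by positivity)]
  have hin : IntegrableOn (fun y => ‖om G y‖) (ball x t) :=
    ((hom.integrableOn_isCompact (isCompact_closedBall x t)).mono_set
      ball_subset_closedBall).norm
  have h2 : ∀ i, |∫ y, (G y i j - G y j i) * dE i Ψ y| ≤ t⁻¹ * BE * ∫ y in ball x t, ‖om G y‖ := by
    intro i
    rw [← Real.norm_eq_abs, ← integral_const_mul, ← integral_indicator measurableSet_ball]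
    refine norm_integral_le_of_norm_le (IntegrableOn.integrable_indicator (hin.const_mul _)
      measurableSet_ball) (Eventually.of_forall fun y => ?_)
    by_cases hy : y ∈ ball x t
    · rw [indicator_of_mem hy, norm_mul, e1, norm_neg, norm_mul, Real.norm_eq_abs,
        Real.norm_eq_abs, Real.norm_eq_abs, abs_of_pos (inv_pos.2 ht)]
      have h3 := anti_le G y i j
      have h4 := dE_psE_le i (t⁻¹ • (x - y))
      have h5 : 0 < t⁻¹ := inv_pos.2 ht
      have h6 := one_le_BE
      calc |G y i j - G y j i| * (t⁻¹ * |dE i psE (t⁻¹ • (x - y))|)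
          ≤ ‖om G y‖ * (t⁻¹ * BE) := by gcongr
        _ = _ := by ring
    · rw [indicator_of_notMem hy]
      have h3 : dE i psE (t⁻¹ • (x - y)) = 0 := by
        refine dE_zero_of (fun w hw => psE_zero hw) psE_smooth i ?_
        rw [norm_inv_smul ht, le_div_iff₀ ht, one_mul]
        rw [mem_ball, dist_comm, dist_eq_norm, not_lt] at hy
        exact hy
      rw [e1, h3]
      simp
  calc t⁻¹ ^ 2 * |∑ i, ∫ y, (G y i j - G y j i) * dE i Ψ y|
      ≤ t⁻¹ ^ 2 * ∑ i : Fin 3, t⁻¹ * BE * ∫ y in ball x t, ‖om G y‖ := by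
        refine mul_le_mul_of_nonneg_left ?_ (by positivity)
        exact (Finset.abs_sum_le_sum_abs _ _).trans (Finset.sum_le_sum fun i _ => h2 i)
    _ = _ := by
        rw [Finset.sum_const, Finset.card_univ, Fintype.card_fin]
        simp
        ring

end Pool.Agent.R210
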