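import Pool.Agent.R210.W4
import Pool.Agent.R210.Interp

/-!
Higher integrability, at a fixed time, of a divergence free field whose vorticity has a Hölder
continuous direction and is renormalized.
-/

open MeasureTheory Set Metric Filter Topology
open scoped ENNReal ContDiff RealInnerProductSpace

namespace Pool.Agent.R210

/-- The constant in the bound of the integral of the vorticity over a ball. -/
noncomputable def KF (c β : ℝ) : ℝ := tt.card * Real.sqrt (CF β * c)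

theorem KF_nonneg (c β : ℝ) : 0 ≤ KF c β := mul_nonneg (Nat.cast_nonneg _) (Real.sqrt_nonneg _)

theorem ball_omega_le {w : E → E} {c β W : ℝ} (hT : Tube w (fun _ => 0) c β W 0) (hβ0 : 0 < β)
    (hβ1 : β ≤ 1) (hc : 1 ≤ c) {ρ : ℝ} (hρ : 0 < ρ) (hρ1 : ρ ≤ 1) (hκ : c * ρ ^ β ≤ kap β) (x : E) :
    ∫ y in ball x ρ, ‖w y‖ ≤ KF c β * W * ρ ^ ((3 + β) / 2) := by
  have h1 := ball_le_sum hρ hT.locInt x
  have hCF := CF_pos β
  have h2 : ∀ z, MM w ρ z ≤ Real.sqrt (CF β * c) * W * ρ ^ ((3 + β) / 2) := by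
    intro z
    have h3 := hT.flux hβ0 hβ1 hc hρ hρ1 hκ z
    have h4 : (Real.sqrt (CF β * c) * W * ρ ^ ((3 + β) / 2)) ^ 2
        = CF β * (c * ρ ^ (3 + β) * W ^ 2 + ρ ^ 4 * (W * 0)) := by
      rw [mul_pow, mul_pow, Real.sq_sqrt (by positivity), ← Real.rpow_natCast (ρ ^ ((3 + β) / 2)),
        ← Real.rpow_mul hρ.le]
      have : (3 + β) / 2 * ((2 : ℕ) : ℝ) = 3 + β := by push_cast; ring
      rw [this]
      ring
    rw [← h4] at h3
    refine le_of_sq_le_sq h3 ?_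
    have := hT.W0
    have := Real.rpow_nonneg hρ.le ((3 + β) / 2)
    positivity
  calc ∫ y in ball x ρ, ‖w y‖ ≤ ∑ z ∈ tt, MM w ρ (x + ρ • z) := h1
    _ ≤ ∑ z ∈ tt, Real.sqrt (CF β * c) * W * ρ ^ ((3 + β) / 2) :=
        Finset.sum_le_sum fun z _ => h2 _
    _ = _ := by
        rw [Finset.sum_const, nsmul_eq_mul]
        unfold KF
        ring

variable {u : E → E} {G : E → Fin 3 → Fin 3 → ℝ}

/-- The mollified field grows slowly as the scale decreases. -/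
theorem WG.sup_le (h : WG u G) {c β W : ℝ} (hT : Tube (om G) (fun _ => 0) c β W 0) (hβ0 : 0 < β)
    (hβ1 : β < 1) (hc : 1 ≤ c) {ρ : ℝ} (hρ : 0 < ρ) (hρ1 : ρ ≤ 1) (hκ : c * ρ ^ β ≤ kap β)
    {t : ℝ} (ht : 0 < t) (htρ : t ≤ ρ) (x : E) (j : Fin 3) :
    |cv (fun x => u x j) (kp t) x| ≤ |cv (fun x => u x j) (kp ρ) x|
      + 3 * BE * KF c β * W / ((1 - β) / 2) * t ^ (-((1 - β) / 2)) := by
  set s : ℝ := (1 - β) / 2 with hs
  have hs0 : 0 < s := by rw [hs]; linarith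
  set A : ℝ := 3 * BE * KF c β * W with hA
  have hA0 : 0 ≤ A := by
    have := KF_nonneg c β
    have := hT.W0
    have := one_le_BE
    positivity
  set F : ℝ → ℝ := fun t => cv (fun x => u x j) (kp t) x with hF
  set D : ℝ → ℝ := fun t => ∫ y, u y j * (-(t⁻¹) ^ 4 * Lp' (t⁻¹ • (x - y))) with hD
  have hFd : ∀ τ, 0 < τ → HasDerivAt F (D τ) τ := fun τ hτ =>
    cv_kp_hasDerivAt (h.wd j).floc hτ x
  have hDb : ∀ τ, 0 < τ → τ ≤ ρ → |D τ| ≤ A * τ ^ (-s - 1) := by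
    intro τ hτ hτρ
    have h1 := h.deriv_le hT.locInt hτ x j
    have hκ' : c * τ ^ β ≤ kap β := by
      refine le_trans (mul_le_mul_of_nonneg_left ?_ (by linarith)) hκ
      exact Real.rpow_le_rpow hτ.le hτρ hβ0.le
    have h2 := ball_omega_le hT hβ0 hβ1.le hc hτ (hτρ.trans hρ1) hκ' x
    have hB := one_le_BE
    have h3 : 0 ≤ 3 * BE * (τ⁻¹) ^ 3 := by positivity
    refine (h1.trans (mul_le_mul_of_nonneg_left h2 h3)).trans (le_of_eq ?_)
    have h4 : (τ⁻¹) ^ 3 * τ ^ ((3 + β) / 2) = τ ^ (-s - 1) := by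
      have h5 : (τ⁻¹) ^ 3 = τ ^ (-3 : ℝ) := by
        rw [Real.rpow_neg hτ.le, inv_pow]
        norm_cast
      rw [h5, ← Real.rpow_add hτ]
      congr 1
      rw [hs]; ring
    calc 3 * BE * τ⁻¹ ^ 3 * (KF c β * W * τ ^ ((3 + β) / 2))
        = 3 * BE * KF c β * W * ((τ⁻¹) ^ 3 * τ ^ ((3 + β) / 2)) := by ring
      _ = A * τ ^ (-s - 1) := by rw [h4]
  set P : ℝ → ℝ := fun τ => A / s * τ ^ (-s) with hP
  have hPd : ∀ τ, 0 < τ → HasDerivAt P (-(A * τ ^ (-s - 1))) τ := by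
    intro τ hτ
    have h1 := (Real.hasDerivAt_rpow_const (x := τ) (p := -s) (Or.inl hτ.ne')).const_mul (A / s)
    refine h1.congr_deriv ?_
    field_simp
  have hint : interior (Icc t ρ) = Ioo t ρ := interior_Icc
  have hpos : ∀ τ ∈ Icc t ρ, 0 < τ := fun τ hτ => lt_of_lt_of_le ht hτ.1
  have hmono1 : AntitoneOn (fun τ => P τ + F τ) (Icc t ρ) := by
    refine antitoneOn_of_deriv_nonpos (convex_Icc t ρ) ?_ ?_ ?_
    · exact fun τ hτ => ((hPd τ (hpos τ hτ)).add (hFd τ (hpos τ hτ))).continuousAt.continuousWithinAt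
    · intro τ hτ
      rw [hint] at hτ
      have hτ0 := hpos τ (Ioo_subset_Icc_self hτ)
      exact ((hPd τ hτ0).add (hFd τ hτ0)).differentiableAt.differentiableWithinAt
    · intro τ hτ
      rw [hint] at hτ
      have hτ0 := hpos τ (Ioo_subset_Icc_self hτ)
      have h1 : deriv (fun τ => P τ + F τ) τ = _ := ((hPd τ hτ0).add (hFd τ hτ0)).deriv
      rw [h1]
      have := (abs_le.1 (hDb τ hτ0 hτ.2.le)).2
      linarith
  have hmono2 : AntitoneOn (fun τ => P τ - F τ) (Icc t ρ) := by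
    refine antitoneOn_of_deriv_nonpos (convex_Icc t ρ) ?_ ?_ ?_
    · exact fun τ hτ => ((hPd τ (hpos τ hτ)).sub (hFd τ (hpos τ hτ))).continuousAt.continuousWithinAt
    · intro τ hτ
      rw [hint] at hτ
      have hτ0 := hpos τ (Ioo_subset_Icc_self hτ)
      exact ((hPd τ hτ0).sub (hFd τ hτ0)).differentiableAt.differentiableWithinAt
    · intro τ hτ
      rw [hint] at hτ
      have hτ0 := hpos τ (Ioo_subset_Icc_self hτ)
      have h1 : deriv (fun τ => P τ - F τ) τ = _ := ((hPd τ hτ0).sub (hFd τ hτ0)).deriv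
      rw [h1]
      have := (abs_le.1 (hDb τ hτ0 hτ.2.le)).1
      linarith
  have ht1 : t ∈ Icc t ρ := ⟨le_rfl, htρ⟩
  have ht2 : ρ ∈ Icc t ρ := ⟨htρ, le_rfl⟩
  have h1 := hmono1 ht1 ht2 htρ
  have h2 := hmono2 ht1 ht2 htρ
  have hPρ : 0 ≤ P ρ := mul_nonneg (div_nonneg hA0 hs0.le) (Real.rpow_nonneg hρ.le _)
  simp only at h1 h2
  show |F t| ≤ |F ρ| + P t
  have h3 := neg_abs_le (F ρ)
  have h4 := le_abs_self (F ρ)
  exact abs_le.2 ⟨by linarith, by linarith⟩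

/-- The mollified function is bounded. -/
theorem cv_bound {f : E → ℝ} (hf : AEStronglyMeasurable f volume) {t : ℝ} (ht : 0 < t) (x : E) :
    ‖cv f (kp t) x‖ₑ ^ 2 ≤ ENNReal.ofReal ((t⁻¹) ^ 3 * BE) * ∫⁻ y, ‖f y‖ₑ ^ 2 := by
  have hK := kp_sk ht
  have h2 : ‖cv f (kp t) x‖ₑ ≤ ∫⁻ z, ‖f (x - z)‖ₑ * ‖kp t z‖ₑ := by
    rw [cv_swap]
    refine (enorm_integral_le_lintegral_enorm _).trans (le_of_eq ?_)
    simp_rw [enorm_mul]
  have hm : AEStronglyMeasurable (fun z => f (x - z)) volume :=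
    hf.comp_quasiMeasurePreserving (quasiMeasurePreserving_sub_left volume x)
  calc ‖cv f (kp t) x‖ₑ ^ 2 ≤ (∫⁻ z, ‖f (x - z)‖ₑ * ‖kp t z‖ₑ) ^ 2 := by gcongr
    _ ≤ (∫⁻ z, ‖f (x - z)‖ₑ ^ 2 * ‖kp t z‖ₑ) * ∫⁻ z, ‖kp t z‖ₑ :=
      lint_cs hm.enorm hK.cont.measurable.enorm.aemeasurable
    _ = ∫⁻ z, ‖f (x - z)‖ₑ ^ 2 * ‖kp t z‖ₑ := by rw [lintegral_kp ht, mul_one]
    _ ≤ ∫⁻ z, ENNReal.ofReal ((t⁻¹) ^ 3 * BE) * ‖f (x - z)‖ₑ ^ 2 := by
        refine lintegral_mono fun z => ?_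
        rw [mul_comm]
        refine mul_le_mul_left ?_ _
        rw [Real.enorm_of_nonneg (kp_nonneg ht z)]
        refine ENNReal.ofReal_le_ofReal ?_
        unfold kp
        exact mul_le_mul_of_nonneg_left ((le_abs_self _).trans (phE_le _)) (by positivity)
    _ = _ := by
        rw [lintegral_const_mul' _ _ ENNReal.ofReal_ne_top,
          lintegral_sub_left_eq_self (fun y => ‖f y‖ₑ ^ 2) x]

/-- The sum of the squares of the norms of all components of the gradient. -/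
noncomputable def nG (G : E → Fin 3 → Fin 3 → ℝ) : ℝ≥0∞ := ∑ j, gsum fun i x => G x i j

theorem WG.nG_lt (h : WG u G) : nG G < ⊤ :=
  ENNReal.sum_lt_top.2 fun j _ => ENNReal.sum_lt_top.2 fun i _ => (h.wd j).gsq i

theorem om_sq_le (G : E → Fin 3 → Fin 3 → ℝ) (x : E) :
    ‖om G x‖ ^ 2 ≤ 2 * ∑ j, ∑ i, G x i j ^ 2 := by
  rw [EuclideanSpace.norm_sq_eq]
  simp only [om, PiLp.toLp_apply, Fin.sum_univ_three, Matrix.cons_val_zero, Matrix.cons_val_one,
    Matrix.cons_val, Real.norm_eq_abs, sq_abs]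
  nlinarith [sq_nonneg (G x 1 2 + G x 2 1), sq_nonneg (G x 2 0 + G x 0 2),
    sq_nonneg (G x 0 1 + G x 1 0), sq_nonneg (G x 0 0), sq_nonneg (G x 1 1), sq_nonneg (G x 2 2)]

theorem om_eq (G : E → Fin 3 → Fin 3 → ℝ) (x : E) : om G x = (G x 1 2 - G x 2 1) • ei 0
    + (G x 2 0 - G x 0 2) • ei 1 + (G x 0 1 - G x 1 0) • ei 2 := by
  ext k
  fin_cases k <;> simp [om, ei]

theorem om_meas (hm : ∀ i j, AEStronglyMeasurable (fun x => G x i j) volume) :
    AEStronglyMeasurable (om G) volume := by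
  have h1 : om G = fun x => (G x 1 2 - G x 2 1) • ei 0 + (G x 2 0 - G x 0 2) • ei 1
      + (G x 0 1 - G x 1 0) • ei 2 := funext fun x => om_eq G x
  rw [h1]
  exact ((((hm 1 2).sub (hm 2 1)).smul_const _).add (((hm 2 0).sub (hm 0 2)).smul_const _)).add
    (((hm 0 1).sub (hm 1 0)).smul_const _)

theorem int_sq_of {f : E → ℝ} (hm : AEStronglyMeasurable f volume) (h : ∫⁻ x, ‖f x‖ₑ ^ 2 < ⊤) :
    Integrable (fun x => f x ^ 2) ∧ ∫ x, f x ^ 2 = (∫⁻ x, ‖f x‖ₑ ^ 2).toReal := by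
  have e : ∀ x, ‖f x‖ₑ ^ 2 = ENNReal.ofReal (f x ^ 2) := fun x => by
    rw [← ofReal_norm, Real.norm_eq_abs, ← ENNReal.ofReal_pow (abs_nonneg _), sq_abs]
  simp_rw [e] at h ⊢
  have hm2 : AEStronglyMeasurable (fun x => f x ^ 2) volume := hm.pow 2
  refine ⟨⟨hm2, ?_⟩, ?_⟩
  · rw [hasFiniteIntegral_iff_ofReal (Eventually.of_forall fun x => sq_nonneg _)]
    exact h
  · rw [integral_eq_lintegral_of_nonneg_ae (Eventually.of_forall fun x => sq_nonneg _) hm2]

theorem WG.om_int (h : WG u G) : Integrable (fun x => ‖om G x‖ ^ 2) ∧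
    ∫ x, ‖om G x‖ ^ 2 ≤ 2 * (nG G).toReal := by
  have hi : ∀ i j, Integrable (fun x => G x i j ^ 2) ∧
      ∫ x, G x i j ^ 2 = (∫⁻ x, ‖G x i j‖ₑ ^ 2).toReal := fun i j =>
    int_sq_of ((h.wd j).gm i) ((h.wd j).gsq i)
  have hm := om_meas fun i j => (h.wd j).gm i
  have hs : Integrable fun x => 2 * ∑ j, ∑ i, G x i j ^ 2 :=
    (integrable_finsetSum _ fun j _ => integrable_finsetSum _ fun i _ => (hi i j).1).const_mul 2
  have h1 : Integrable (fun x => ‖om G x‖ ^ 2) := by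
    refine Integrable.mono' hs (hm.norm.pow 2) (Eventually.of_forall fun x => ?_)
    rw [Real.norm_eq_abs, abs_of_nonneg (by positivity)]
    exact om_sq_le G x
  refine ⟨h1, (integral_mono h1 hs fun x => om_sq_le G x).trans (le_of_eq ?_)⟩
  rw [integral_const_mul, integral_finsetSum _ fun j _ =>
    integrable_finsetSum _ fun i _ => (hi i j).1]
  unfold nG gsum
  rw [ENNReal.toReal_sum fun j _ => (ENNReal.sum_lt_top.2 fun i _ => (h.wd j).gsq i).ne]
  congr 1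
  refine Finset.sum_congr rfl fun j _ => ?_
  rw [integral_finsetSum _ fun i _ => (hi i j).1, ENNReal.toReal_sum fun i _ =>
    ((h.wd j).gsq i).ne]
  exact Finset.sum_congr rfl fun i _ => (hi i j).2

/-- The vorticity of `WG` fields with coherent direction which are renormalized. -/
theorem WG.tube (h : WG u G) {c β : ℝ} (hcoh : ∀ᵐ p, ∀ᵐ y, Coh (om G) c β p y)
    (hren : Ren (om G) fun _ => 0) :
    Tube (om G) (fun _ => 0) c β (Real.sqrt (2 * (nG G).toReal)) 0 := by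
  obtain ⟨h1, h2⟩ := h.om_int
  refine ⟨om_meas fun i j => (h.wd j).gm i, fun x => h1.integrableOn, fun x => ?_,
    aestronglyMeasurable_const, fun _ => le_rfl, ?_, ?_, Real.sqrt_nonneg _, le_rfl, hcoh, hren⟩
  · rw [Real.sq_sqrt (by positivity)]
    exact (setIntegral_le_integral h1 (Eventually.of_forall fun y => by positivity)).trans h2
  · intro x; simp
  · intro x; simp

/-- Higher integrability at a fixed time. -/
theorem spat {c β q : ℝ} (hβ0 : 0 < β) (hβ1 : β < 1) (hc : 1 ≤ c) (hq : 2 < q)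
    (hq2 : q < 2 * (3 - β) / (1 - β)) : ∃ C : ℝ, 0 < C ∧
    ∀ (u : E → E) (G : E → Fin 3 → Fin 3 → ℝ), WG u G →
      (∀ᵐ p, ∀ᵐ y, Coh (om G) c β p y) → (Ren (om G) fun _ => 0) → ∀ j,
      ∫⁻ x, ‖u x j‖ₑ ^ q
        ≤ ENNReal.ofReal (C * ((∫⁻ x, ‖u x j‖ₑ ^ 2).toReal + (nG G).toReal) ^ (q / 2)) := by
  set s : ℝ := (1 - β) / 2 with hs
  have hs0 : 0 < s := by rw [hs]; linarith
  have hsq : s * (q - 2) < 2 := by
    rw [lt_div_iff₀ (by linarith)] at hq2
    rw [hs]; linarith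
  obtain ⟨C₁, hC₁, hint⟩ := interp hq hs0.le hsq
  have hk0 := kap_pos β
  obtain ⟨ρ, hρ, hρ1, hκ⟩ : ∃ ρ : ℝ, 0 < ρ ∧ ρ ≤ 1 ∧ c * ρ ^ β ≤ kap β := by
    refine ⟨min 1 ((kap β / c) ^ (1 / β)), lt_min one_pos (Real.rpow_pos_of_pos (by positivity) _),
      min_le_left _ _, ?_⟩
    have h1 : min 1 ((kap β / c) ^ (1 / β)) ^ β ≤ kap β / c := by
      calc min 1 ((kap β / c) ^ (1 / β)) ^ β ≤ ((kap β / c) ^ (1 / β)) ^ β :=
            Real.rpow_le_rpow (le_min zero_le_one (Real.rpow_nonneg (by positivity) _))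
              (min_le_right _ _) hβ0.le
        _ = kap β / c := by
            rw [← Real.rpow_mul (by positivity), one_div, inv_mul_cancel₀ hβ0.ne', Real.rpow_one]
    rw [le_div_iff₀ (by linarith)] at h1
    linarith
  have hB := one_le_BE
  have hKF := KF_nonneg c β
  set A₁ : ℝ := Real.sqrt ((ρ⁻¹) ^ 3 * BE) with hA₁
  set A₂ : ℝ := 3 * BE * KF c β * Real.sqrt 2 / s * ρ ^ (-s) with hA₂
  have hρs : 0 ≤ ρ ^ (-s) := Real.rpow_nonneg hρ.le _
  have hA10 : 0 ≤ A₁ := Real.sqrt_nonneg _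
  have hA20 : 0 ≤ A₂ := by positivity
  refine ⟨C₁ * ((A₁ + A₂ + 1) ^ (q - 2) * (4 * ρ ^ 2 + 1)), by positivity, ?_⟩
  intro u G h hcoh hren j
  have hT := h.tube hcoh hren
  set y : ℝ := (∫⁻ x, ‖u x j‖ₑ ^ 2).toReal with hy
  set n : ℝ := (nG G).toReal with hn
  have hy0 : 0 ≤ y := ENNReal.toReal_nonneg
  have hn0 : 0 ≤ n := ENNReal.toReal_nonneg
  set τ : ℕ → ℝ := fun k => ρ * 2⁻¹ ^ k with hτ
  have hτp : ∀ k, 0 < τ k := fun k => by simp only [hτ]; positivity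
  have hτρ : ∀ k, τ k ≤ ρ := fun k => by
    simp only [hτ]
    exact mul_le_of_le_one_right hρ.le (pow_le_one₀ (by norm_num) (by norm_num))
  have hτ0 : Tendsto τ atTop (𝓝 0) := by
    have := (tendsto_pow_atTop_nhds_zero_of_lt_one (r := (2⁻¹ : ℝ)) (by norm_num)
      (by norm_num)).const_mul ρ
    rwa [mul_zero] at this
  set g : ℕ → E → ℝ := fun k => cv (fun x => u x j) (kp (τ k)) with hg
  set Λ : ℝ := A₁ * Real.sqrt y + A₂ * Real.sqrt n with hΛ
  have hΛ0 : 0 ≤ Λ := by positivity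
  have hgs : (gsum fun i x => G x i j) ≤ nG G := by
    unfold nG
    exact Finset.single_le_sum (f := fun j => gsum fun i x => G x i j) (fun _ _ => zero_le)
      (Finset.mem_univ j)
  have hwd := h.wd j
  have hyt : ∫⁻ x, ‖u x j‖ₑ ^ 2 = ENNReal.ofReal y := (ENNReal.ofReal_toReal hwd.fsq.ne).symm
  have hnt : nG G = ENNReal.ofReal n := (ENNReal.ofReal_toReal h.nG_lt.ne).symm
  have hmain := hint E volume ℝ (fun x => u x j) g Λ (4 * ρ ^ 2 * n) y hΛ0 (by positivity) hy0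
    (fun k => (cv_contDiff hwd.floc (kp_sk (hτp k))).continuous.aestronglyMeasurable) ?_ ?_ ?_
    (ae_cv hwd.floc hτp hτ0)
  · refine hmain.trans (ENNReal.ofReal_le_ofReal ?_)
    have h1 : Λ ≤ (A₁ + A₂ + 1) * Real.sqrt (y + n) := by
      have h2 : Real.sqrt y ≤ Real.sqrt (y + n) := Real.sqrt_le_sqrt (by linarith)
      have h3 : Real.sqrt n ≤ Real.sqrt (y + n) := Real.sqrt_le_sqrt (by linarith)
      have h4 := Real.sqrt_nonneg (y + n)
      rw [hΛ]
      nlinarith [mul_le_mul_of_nonneg_left h2 hA10, mul_le_mul_of_nonneg_left h3 hA20]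
    have h2 : Λ ^ (q - 2) ≤ (A₁ + A₂ + 1) ^ (q - 2) * (y + n) ^ ((q - 2) / 2) := by
      calc Λ ^ (q - 2) ≤ ((A₁ + A₂ + 1) * Real.sqrt (y + n)) ^ (q - 2) :=
            Real.rpow_le_rpow hΛ0 h1 (by linarith)
        _ = (A₁ + A₂ + 1) ^ (q - 2) * (y + n) ^ ((q - 2) / 2) := by
            rw [Real.mul_rpow (by positivity) (Real.sqrt_nonneg _), Real.sqrt_eq_rpow,
              ← Real.rpow_mul (by positivity)]
            congr 2
            ring
    have h3 : 4 * ρ ^ 2 * n + y ≤ (4 * ρ ^ 2 + 1) * (y + n) := by nlinarith [sq_nonneg ρ]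
    have h4 : (y + n) ^ ((q - 2) / 2) * (y + n) = (y + n) ^ (q / 2) := by
      rcases (add_nonneg hy0 hn0).eq_or_lt with h5 | h5
      · rw [← h5, mul_zero, Real.zero_rpow (by linarith)]
      · conv_lhs => rw [← Real.rpow_one (y + n), ← Real.rpow_mul h5.le, ← Real.rpow_add h5]
        congr 1; ring
    have h5 : 0 ≤ Λ ^ (q - 2) := Real.rpow_nonneg hΛ0 _
    have h6 : 0 ≤ (y + n) ^ ((q - 2) / 2) := Real.rpow_nonneg (by linarith) _
    have h7 : (0 : ℝ) ≤ (A₁ + A₂ + 1) ^ (q - 2) := by positivity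
    calc C₁ * (Λ ^ (q - 2) * (4 * ρ ^ 2 * n + y))
        ≤ C₁ * (((A₁ + A₂ + 1) ^ (q - 2) * (y + n) ^ ((q - 2) / 2))
            * ((4 * ρ ^ 2 + 1) * (y + n))) := by
          refine mul_le_mul_of_nonneg_left ?_ hC₁.le
          exact mul_le_mul h2 h3 (by positivity) (by positivity)
      _ = C₁ * ((A₁ + A₂ + 1) ^ (q - 2) * (4 * ρ ^ 2 + 1))
            * ((y + n) ^ ((q - 2) / 2) * (y + n)) := by ring
      _ = _ := by rw [h4]
  · -- the bound
    intro k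
    refine Eventually.of_forall fun x => ?_
    have h1 := h.sup_le hT hβ0 hβ1 hc hρ hρ1 hκ (hτp k) (hτρ k) x j
    rw [← hs] at h1
    have h2 : |cv (fun x => u x j) (kp ρ) x| ≤ A₁ * Real.sqrt y := by
      have h3 := cv_bound hwd.fm hρ x
      rw [hyt, ← ENNReal.ofReal_mul (by positivity), ← ofReal_norm, Real.norm_eq_abs,
        ← ENNReal.ofReal_pow (abs_nonneg _), ENNReal.ofReal_le_ofReal_iff (by positivity)] at h3
      rw [hA₁, ← Real.sqrt_mul (by positivity)]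
      exact Real.le_sqrt_of_sq_le h3
    have h4 : (τ k) ^ (-s) = ρ ^ (-s) * 2 ^ (s * k) := by
      simp only [hτ]
      rw [Real.mul_rpow hρ.le (by positivity), ← Real.rpow_natCast, ← Real.rpow_mul (by norm_num),
        Real.inv_rpow (by norm_num), ← Real.rpow_neg (by norm_num)]
      congr 2
      ring
    have h5 : (1 : ℝ) ≤ 2 ^ (s * k) := Real.one_le_rpow (by norm_num) (by positivity)
    have h6 : 3 * BE * KF c β * Real.sqrt (2 * n) / s * (τ k) ^ (-s)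
        = A₂ * Real.sqrt n * 2 ^ (s * k) := by
      rw [h4, hA₂, Real.sqrt_mul (by norm_num)]
      ring
    have h7 : 0 ≤ A₁ * Real.sqrt y := by positivity
    show |cv (fun x => u x j) (kp (τ k)) x| ≤ Λ * 2 ^ (s * k)
    calc |cv (fun x => u x j) (kp (τ k)) x| ≤ A₁ * Real.sqrt y
          + 3 * BE * KF c β * Real.sqrt (2 * n) / s * (τ k) ^ (-s) := by linarith
      _ = A₁ * Real.sqrt y + A₂ * Real.sqrt n * 2 ^ (s * k) := by rw [h6]
      _ ≤ Λ * 2 ^ (s * k) := by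
        rw [hΛ]; nlinarith
  · -- the increments
    intro k
    have h1 := hwd.moll (hτp k)
    have h2 := hwd.moll (hτp (k + 1))
    have h3 : ∀ x, ‖g (k + 1) x - g k x‖ₑ ^ (2 : ℝ)
        ≤ 2 * ‖u x j - g (k + 1) x‖ₑ ^ 2 + 2 * ‖u x j - g k x‖ₑ ^ 2 := by
      intro x
      have hsq : ∀ r : ℝ, ‖r‖ₑ ^ 2 = ENNReal.ofReal (r ^ 2) := fun r => by
        rw [← ofReal_norm, Real.norm_eq_abs, ← ENNReal.ofReal_pow (abs_nonneg _), sq_abs]
      rw [ENNReal.rpow_two, hsq, hsq, hsq]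
      have h5 : (g (k + 1) x - g k x) ^ 2 ≤ 2 * (u x j - g (k + 1) x) ^ 2
          + 2 * (u x j - g k x) ^ 2 := by
        nlinarith [sq_nonneg ((u x j - g (k + 1) x) + (u x j - g k x))]
      refine (ENNReal.ofReal_le_ofReal h5).trans (le_of_eq ?_)
      rw [ENNReal.ofReal_add (by positivity) (by positivity), ENNReal.ofReal_mul (by norm_num),
        ENNReal.ofReal_mul (by norm_num), ENNReal.ofReal_ofNat]
    have hm1 : ∀ m, AEMeasurable (fun x => ‖u x j - g m x‖ₑ ^ 2) volume := fun m =>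
      ((hwd.fm.sub (cv_contDiff hwd.floc
        (kp_sk (hτp m))).continuous.aestronglyMeasurable).enorm).pow_const 2
    have hτk : τ (k + 1) ^ 2 ≤ τ k ^ 2 := by
      refine pow_le_pow_left₀ (hτp _).le ?_ 2
      simp only [hτ]
      refine mul_le_mul_of_nonneg_left ?_ hρ.le
      exact pow_le_pow_of_le_one (by norm_num) (by norm_num) (Nat.le_succ k)
    calc ∫⁻ x, ‖g (k + 1) x - g k x‖ₑ ^ (2 : ℝ)
        ≤ ∫⁻ x, (2 * ‖u x j - g (k + 1) x‖ₑ ^ 2 + 2 * ‖u x j - g k x‖ₑ ^ 2) :=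
          lintegral_mono h3
      _ = 2 * (∫⁻ x, ‖u x j - g (k + 1) x‖ₑ ^ 2) + 2 * ∫⁻ x, ‖u x j - g k x‖ₑ ^ 2 := by
          rw [lintegral_add_left' ((hm1 _).const_mul _), lintegral_const_mul' _ _ (by norm_num),
            lintegral_const_mul' _ _ (by norm_num)]
      _ ≤ 2 * (ENNReal.ofReal (τ k ^ 2) * nG G) + 2 * (ENNReal.ofReal (τ k ^ 2) * nG G) := by
          refine add_le_add (mul_le_mul_right (h2.trans ?_) _) (mul_le_mul_right (h1.trans ?_) _)
          · exact mul_le_mul' (ENNReal.ofReal_le_ofReal hτk) hgs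
          · exact mul_le_mul' le_rfl hgs
      _ = ENNReal.ofReal (4 * ρ ^ 2 * n * 4⁻¹ ^ k) := by
          rw [hnt, ← ENNReal.ofReal_mul (by positivity), ← add_mul,
            show (2 : ℝ≥0∞) + 2 = ENNReal.ofReal 4 by
              rw [← ENNReal.ofReal_ofNat 2, ← ENNReal.ofReal_add (by norm_num) (by norm_num)]
              norm_num,
            ← ENNReal.ofReal_mul (by norm_num)]
          congr 1
          simp only [hτ]
          have : ((2 : ℝ)⁻¹ ^ k) ^ 2 = 4⁻¹ ^ k := by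
            rw [← pow_mul, mul_comm, pow_mul]; norm_num
          rw [mul_pow, this]
          ring
  · -- the starting field
    have h1 := cv_L2 hwd.fm (kp_sk (hτp 0)).cont
    rw [lintegral_kp (hτp 0), one_pow, one_mul, hyt] at h1
    simp_rw [ENNReal.rpow_two]
    exact h1

end Pool.Agent.R210
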