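import Pool.Agent.R210.W5

/-!
Renormalization of a divergence free field from a bound of its mollifications.
-/

open MeasureTheory Set Metric Filter Topology
open scoped ENNReal ContDiff RealInnerProductSpace

namespace Pool.Agent.R210

/-- Convergence of integrals with a converging sequence of bounds. -/
theorem gen_dct {α : Type*} [MeasurableSpace α] {μ : Measure α} {h g : ℕ → α → ℝ} {h0 g0 : α → ℝ}
    (hi : ∀ n, Integrable (h n) μ) (gi : ∀ n, Integrable (g n) μ) (hi0 : Integrable h0 μ)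
    (gi0 : Integrable g0 μ) (hb : ∀ n, ∀ᵐ x ∂μ, |h n x| ≤ g n x)
    (hl : ∀ᵐ x ∂μ, Tendsto (fun n => h n x) atTop (𝓝 (h0 x)))
    (gl : ∀ᵐ x ∂μ, Tendsto (fun n => g n x) atTop (𝓝 (g0 x)))
    (hg : ∀ n, ∫ x, g n x ∂μ ≤ ∫ x, g0 x ∂μ) :
    Tendsto (fun n => ∫ x, h n x ∂μ) atTop (𝓝 (∫ x, h0 x ∂μ)) := by
  have key : ∀ σ : ℝ, |σ| = 1 → ∀ η : ℝ, 0 < η → ∀ᶠ n in atTop,
      -η ≤ σ * ((∫ x, h n x ∂μ) - ∫ x, h0 x ∂μ) := by
    intro σ hσ η hη
    have hp : ∀ n, ∀ᵐ x ∂μ, 0 ≤ g n x + σ * h n x := by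
      intro n
      filter_upwards [hb n] with x hx
      have h1 : |σ * h n x| ≤ g n x := by rw [abs_mul, hσ, one_mul]; exact hx
      linarith [neg_abs_le (σ * h n x)]
    have hp0 : ∀ᵐ x ∂μ, 0 ≤ g0 x + σ * h0 x := by
      filter_upwards [ae_all_iff.2 hp, hl, gl] with x h1 h2 h3
      exact ge_of_tendsto' (h3.add (h2.const_mul σ)) h1
    have hin : ∀ n, Integrable (fun x => g n x + σ * h n x) μ := fun n =>
      (gi n).add ((hi n).const_mul σ)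
    have hin0 : Integrable (fun x => g0 x + σ * h0 x) μ := gi0.add (hi0.const_mul σ)
    have hen : ∀ n, ∫⁻ x, ENNReal.ofReal (g n x + σ * h n x) ∂μ
        = ENNReal.ofReal (∫ x, (g n x + σ * h n x) ∂μ) := fun n =>
      (ofReal_integral_eq_lintegral_ofReal (hin n) (hp n)).symm
    have he0 : ∫⁻ x, ENNReal.ofReal (g0 x + σ * h0 x) ∂μ
        = ENNReal.ofReal (∫ x, (g0 x + σ * h0 x) ∂μ) :=
      (ofReal_integral_eq_lintegral_ofReal hin0 hp0).symm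
    have hF : ∫⁻ x, ENNReal.ofReal (g0 x + σ * h0 x) ∂μ
        ≤ liminf (fun n => ∫⁻ x, ENNReal.ofReal (g n x + σ * h n x) ∂μ) atTop := by
      refine le_trans (lintegral_mono_ae ?_) (lintegral_liminf_le' fun n =>
        (hin n).aestronglyMeasurable.aemeasurable.ennreal_ofReal)
      filter_upwards [hl, gl] with x h2 h3
      have h4 := (ENNReal.continuous_ofReal.tendsto _).comp (h3.add (h2.const_mul σ))
      exact h4.liminf_eq.symm.le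
    rw [he0] at hF
    simp_rw [hen] at hF
    have hI0 : 0 ≤ ∫ x, (g0 x + σ * h0 x) ∂μ := integral_nonneg_of_ae hp0
    have e1 : ∫ x, (g0 x + σ * h0 x) ∂μ = (∫ x, g0 x ∂μ) + σ * ∫ x, h0 x ∂μ := by
      rw [integral_add gi0 (hi0.const_mul σ), integral_const_mul]
    have e2 : ∀ n, ∫ x, (g n x + σ * h n x) ∂μ = (∫ x, g n x ∂μ) + σ * ∫ x, h n x ∂μ := fun n => by
      rw [integral_add (gi n) ((hi n).const_mul σ), integral_const_mul]
    have hev : ∀ᶠ n in atTop, (∫ x, (g0 x + σ * h0 x) ∂μ) - η ≤ ∫ x, (g n x + σ * h n x) ∂μ := by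
      rcases hI0.eq_or_lt with hz | hz
      · refine Eventually.of_forall fun n => ?_
        have := integral_nonneg_of_ae (hp n)
        rw [← hz]
        linarith [this]
      · have h1 : ENNReal.ofReal ((∫ x, (g0 x + σ * h0 x) ∂μ) - η)
            < ENNReal.ofReal (∫ x, (g0 x + σ * h0 x) ∂μ) :=
          (ENNReal.ofReal_lt_ofReal_iff hz).2 (by linarith)
        filter_upwards [eventually_lt_of_lt_liminf (h1.trans_le hF)] with n hn
        exact (ENNReal.ofReal_lt_ofReal_iff'.1 hn).1.le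
    filter_upwards [hev] with n hn
    rw [e1, e2] at hn
    have := hg n
    nlinarith
  rw [Metric.tendsto_atTop]
  intro η hη
  obtain ⟨N, hN⟩ := eventually_atTop.1 ((key 1 (by norm_num) (η / 2) (by positivity)).and
    (key (-1) (by norm_num) (η / 2) (by positivity)))
  refine ⟨N, fun n hn => ?_⟩
  obtain ⟨h1, h2⟩ := hN n hn
  rw [Real.dist_eq, abs_lt]
  constructor <;> linarith

/-- The denominator. -/
noncomputable def Dn (ε : ℝ) (e w : E) : ℝ := Real.sqrt (ε * (1 + ‖w‖ ^ 2) + ⟪e, w⟫ ^ 2)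

/-- The smooth approximation of the sign of `⟪e, w⟫`. -/
noncomputable def Fe (ε : ℝ) (e w : E) : ℝ := ⟪e, w⟫ / Dn ε e w

/-- A bound of its derivative times `‖w‖`. -/
noncomputable def Be (ε : ℝ) (e w : E) : ℝ := 2 * (ε * (1 + ‖w‖ ^ 2)) * ‖w‖ / Dn ε e w ^ 3

section

variable {ε : ℝ} (hε : 0 < ε) (e w : E)

include hε

theorem Dn_arg_pos : 0 < ε * (1 + ‖w‖ ^ 2) + ⟪e, w⟫ ^ 2 := by positivity

theorem Dn_pos : 0 < Dn ε e w := Real.sqrt_pos.2 (Dn_arg_pos hε e w)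

theorem Dn_sq : Dn ε e w ^ 2 = ε * (1 + ‖w‖ ^ 2) + ⟪e, w⟫ ^ 2 :=
  Real.sq_sqrt (Dn_arg_pos hε e w).le

theorem Fe_abs_le : |Fe ε e w| ≤ 1 := by
  have h1 := Dn_pos hε e w
  unfold Fe
  rw [abs_div, abs_of_pos h1, div_le_one h1]
  refine Real.abs_le_sqrt ?_
  have : 0 ≤ ε * (1 + ‖w‖ ^ 2) := by positivity
  linarith

theorem Be_nonneg : 0 ≤ Be ε e w := by
  have h1 := Dn_pos hε e w
  unfold Be
  positivity

theorem Be_sq_le : Be ε e w ^ 2 ≤ 4 / ε := by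
  have h1 := Dn_pos hε e w
  have h2 := Dn_sq hε e w
  have h3 : ε * (1 + ‖w‖ ^ 2) ≤ Dn ε e w ^ 2 := by rw [h2]; nlinarith [sq_nonneg (⟪e, w⟫ : ℝ)]
  unfold Be
  rw [div_pow, div_le_div_iff₀ (by positivity) hε]
  have h4 : ε * ‖w‖ ^ 2 ≤ Dn ε e w ^ 2 := by nlinarith
  calc (2 * (ε * (1 + ‖w‖ ^ 2)) * ‖w‖) ^ 2 * ε
      = 4 * (ε * (1 + ‖w‖ ^ 2)) ^ 2 * (ε * ‖w‖ ^ 2) := by ring
    _ ≤ 4 * (Dn ε e w ^ 2) ^ 2 * Dn ε e w ^ 2 := by gcongr
    _ = 4 * (Dn ε e w ^ 3) ^ 2 := by ring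

theorem Be_le_cone (hc : ‖w‖ ^ 2 - ⟪e, w⟫ ^ 2 ≤ ‖w‖ ^ 2 / 4) : Be ε e w ≤ 4 := by
  have h1 := Dn_pos hε e w
  have h2 := Dn_sq hε e w
  have h3 : ε * (1 + ‖w‖ ^ 2) ≤ Dn ε e w ^ 2 := by rw [h2]; nlinarith [sq_nonneg (⟪e, w⟫ : ℝ)]
  have h0 : 0 ≤ ε * (1 + ‖w‖ ^ 2) := by positivity
  have h4 : ‖w‖ ^ 2 ≤ (2 * Dn ε e w) ^ 2 := by
    rw [mul_pow, h2]; nlinarith
  have h5 : ‖w‖ ≤ 2 * Dn ε e w := le_of_sq_le_sq h4 (by positivity)
  unfold Be
  rw [div_le_iff₀ (by positivity)]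
  calc 2 * (ε * (1 + ‖w‖ ^ 2)) * ‖w‖ ≤ 2 * Dn ε e w ^ 2 * (2 * Dn ε e w) := by gcongr
    _ = 4 * Dn ε e w ^ 3 := by ring

theorem Fe_hasFDerivAt : ∃ L : E →L[ℝ] ℝ, HasFDerivAt (Fe ε e) L w ∧ ∀ v : E, L v
    = (ε * (1 + ‖w‖ ^ 2) * ⟪e, v⟫ - ε * ⟪e, w⟫ * ⟪w, v⟫) / Dn ε e w ^ 3 := by
  have h1 : HasFDerivAt (fun w : E => ⟪e, w⟫) (innerSL ℝ e) w := (innerSL ℝ e).hasFDerivAt
  have h2 : HasFDerivAt (fun w : E => ‖w‖ ^ 2) ((2 : ℝ) • (innerSL ℝ w)) w :=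
    (hasStrictFDerivAt_norm_sq w).hasFDerivAt.congr_fderiv (by ext v; simp)
  have h3 : HasFDerivAt (fun w : E => ε * (1 + ‖w‖ ^ 2) + ⟪e, w⟫ ^ 2)
      (ε • ((2 : ℝ) • (innerSL ℝ w)) + (2 * ⟪e, w⟫) • innerSL ℝ e) w := by
    have h4 := (h2.const_add 1).const_mul ε
    have h5 := h1.pow 2
    refine (h4.add h5).congr_fderiv ?_
    ext v
    simp
  have h6 := h3.sqrt (Dn_arg_pos hε e w).ne'
  have h7 := h1.mul ((hasDerivAt_inv (Dn_pos hε e w).ne').comp_hasFDerivAt w h6)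
  refine ⟨_, h7.congr_of_eventuallyEq (Eventually.of_forall fun y => by
    simp only [Fe, Dn, div_eq_mul_inv, Pi.mul_apply, Function.comp_apply]), fun v => ?_⟩
  have h8 := Dn_pos hε e w
  have h9 := Dn_sq hε e w
  have h10 : Real.sqrt (ε * (1 + ‖w‖ ^ 2) + ⟪e, w⟫ ^ 2) = Dn ε e w := rfl
  simp only [h10]
  simp only [FunLike.coe_smul, Pi.smul_apply,
    add_apply, innerSL_apply_apply, smul_eq_mul, Function.comp_apply]
  have e1 : ε * (1 + ‖w‖ ^ 2) = Dn ε e w ^ 2 - ⟪e, w⟫ ^ 2 := by rw [h9]; ring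
  rw [e1]
  push_cast
  field_simp
  ring

theorem Fe_fderiv_le {v : E} (he : ‖e‖ = 1) :
    |fderiv ℝ (Fe ε e) w v| * ‖w‖ ≤ Be ε e w * ‖v‖ := by
  obtain ⟨L, hL, hv⟩ := Fe_hasFDerivAt hε e w
  rw [hL.fderiv, hv]
  have h8 := Dn_pos hε e w
  rw [abs_div, abs_of_pos (a := Dn ε e w ^ 3) (by positivity)]
  unfold Be
  rw [div_mul_eq_mul_div, div_mul_eq_mul_div]
  refine div_le_div_of_nonneg_right ?_ (by positivity)
  have h1 : |⟪e, v⟫| ≤ ‖v‖ := by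
    have := abs_real_inner_le_norm e v; rwa [he, one_mul] at this
  have h2 : |⟪e, w⟫| ≤ ‖w‖ := by
    have := abs_real_inner_le_norm e w; rwa [he, one_mul] at this
  have h3 : |⟪w, v⟫| ≤ ‖w‖ * ‖v‖ := abs_real_inner_le_norm w v
  have h4 : |ε * (1 + ‖w‖ ^ 2) * ⟪e, v⟫ - ε * ⟪e, w⟫ * ⟪w, v⟫|
      ≤ ε * (1 + ‖w‖ ^ 2) * ‖v‖ + ε * ‖w‖ * (‖w‖ * ‖v‖) := by
    refine (abs_sub _ _).trans (add_le_add ?_ ?_)
    · rw [abs_mul, abs_of_pos (a := ε * (1 + ‖w‖ ^ 2)) (by positivity)]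
      gcongr
    · rw [abs_mul, abs_mul, abs_of_pos hε]
      gcongr
  have h5 : ε * (1 + ‖w‖ ^ 2) * ‖v‖ + ε * ‖w‖ * (‖w‖ * ‖v‖) ≤ 2 * (ε * (1 + ‖w‖ ^ 2)) * ‖v‖ := by
    have : 0 ≤ ε * ‖v‖ := by positivity
    nlinarith
  calc |ε * (1 + ‖w‖ ^ 2) * ⟪e, v⟫ - ε * ⟪e, w⟫ * ⟪w, v⟫| * ‖w‖
      ≤ (2 * (ε * (1 + ‖w‖ ^ 2)) * ‖v‖) * ‖w‖ :=
        mul_le_mul_of_nonneg_right (h4.trans h5) (norm_nonneg _)
    _ = _ := by ring

theorem Dn_contDiff : ContDiff ℝ ∞ (Dn ε e) := by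
  unfold Dn
  refine ContDiff.sqrt ?_ fun w => (Dn_arg_pos hε e w).ne'
  exact (contDiff_const.mul (contDiff_const.add (contDiff_norm_sq ℝ))).add
    ((contDiff_const.inner ℝ contDiff_id).pow 2)

theorem Fe_contDiff : ContDiff ℝ ∞ (Fe ε e) := by
  unfold Fe
  exact (contDiff_const.inner ℝ contDiff_id).div (Dn_contDiff hε e) fun w => (Dn_pos hε e w).ne'

theorem Be_cont : Continuous (Be ε e) := by
  unfold Be
  refine Continuous.div (by fun_prop) ((Dn_contDiff hε e).continuous.pow 3) fun w =>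
    (pow_pos (Dn_pos hε e w) 3).ne'

end

/-- Integration by parts. -/
theorem int_div {w : E → E} (hw : ContDiff ℝ 1 w) {σ : E → ℝ} (hσ : ContDiff ℝ 1 σ) {ψ : E → ℝ}
    (hψ : ContDiff ℝ ∞ ψ) (hc : HasCompactSupport ψ) :
    ∫ y, σ y * fderiv ℝ ψ y (w y) = -∫ y, (σ y * dvE w y + fderiv ℝ σ y (w y)) * ψ y := by
  have hwi : ∀ i, ContDiff ℝ 1 fun y => w y i := fun i =>
    (EuclideanSpace.proj i : E →L[ℝ] ℝ).contDiff.comp hw
  have hfi : ∀ i, ContDiff ℝ 1 fun y => σ y * w y i := fun i => hσ.mul (hwi i)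
  have hfd : ∀ i y, fderiv ℝ (fun y => σ y * w y i) y (ei i)
      = σ y * fderiv ℝ w y (ei i) i + fderiv ℝ σ y (ei i) * w y i := by
    intro i y
    have h1 : HasFDerivAt w (fderiv ℝ w y) y := (hw.differentiable one_ne_zero y).hasFDerivAt
    have h3 := (hσ.differentiable one_ne_zero y).hasFDerivAt
    have h4 : HasFDerivAt (fun z => w z i)
        ((EuclideanSpace.proj i : E →L[ℝ] ℝ).comp (fderiv ℝ w y)) y :=
      (EuclideanSpace.proj i : E →L[ℝ] ℝ).hasFDerivAt.comp y h1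
    have h5 := h3.mul h4
    have h6 : fderiv ℝ (fun y => σ y * w y i) y = _ := h5.fderiv
    rw [h6]
    simp
    ring
  have hsum : ∀ y, σ y * fderiv ℝ ψ y (w y) = ∑ i, σ y * w y i * fderiv ℝ ψ y (ei i) := by
    intro y
    rw [lin_sum (fderiv ℝ ψ y) (w y), Finset.mul_sum]
    refine Finset.sum_congr rfl fun i _ => ?_
    rw [smul_eq_mul]; ring
  have hi1 : ∀ i, Integrable fun y => σ y * w y i * fderiv ℝ ψ y (ei i) := by
    intro i
    have h1 : Continuous fun y => fderiv ℝ ψ y (ei i) :=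
      (hψ.continuous_fderiv (by norm_num)).clm_apply continuous_const
    have h3 : HasCompactSupport fun y => fderiv ℝ ψ y (ei i) :=
      (hc.fderiv (𝕜 := ℝ)).comp_left (g := fun L : E →L[ℝ] ℝ => L (ei i)) (by simp)
    exact ((hfi i).continuous.mul h1).integrable_of_hasCompactSupport h3.mul_left
  have hi2 : ∀ i, Integrable fun y => fderiv ℝ (fun y => σ y * w y i) y (ei i) * ψ y := by
    intro i
    have h2 : Continuous fun y => fderiv ℝ (fun y => σ y * w y i) y (ei i) :=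
      ((hfi i).continuous_fderiv one_ne_zero).clm_apply continuous_const
    exact (h2.mul hψ.continuous).integrable_of_hasCompactSupport hc.mul_left
  simp_rw [hsum]
  rw [integral_finsetSum _ fun i _ => hi1 i]
  simp_rw [fun i => int_fderiv_test (hfi i) hψ hc (ei i)]
  rw [Finset.sum_neg_distrib, ← integral_finsetSum _ fun i _ => hi2 i]
  congr 1
  refine integral_congr_ae (Filter.Eventually.of_forall fun y => ?_)
  simp only [hfd]
  rw [← Finset.sum_mul, Finset.sum_add_distrib, ← Finset.mul_sum]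
  congr 2
  rw [lin_sum (fderiv ℝ σ y) (w y)]
  refine Finset.sum_congr rfl fun i _ => ?_
  rw [smul_eq_mul]; ring

end Pool.Agent.R210
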