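import Pool.Agent.R210.W6

/-!
Renormalization of a divergence free field from a bound of its mollifications, second part.
-/

open MeasureTheory Set Metric Filter Topology
open scoped ENNReal ContDiff RealInnerProductSpace

namespace Pool.Agent.R210

/-- The convolution of a vector field with a kernel. -/
noncomputable def cvv (w : E → E) (K : E → ℝ) (x : E) : E := ∑ i, cv (fun y => w y i) K x • ei i

theorem cvv_coord (w : E → E) (K : E → ℝ) (x : E) (i : Fin 3) :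
    cvv w K x i = cv (fun y => w y i) K x := by
  simp [cvv, ei, Pi.single_apply]

theorem coord_meas {w : E → E} (hm : AEStronglyMeasurable w volume) (i : Fin 3) :
    AEStronglyMeasurable (fun x => w x i) volume :=
  (EuclideanSpace.proj i : E →L[ℝ] ℝ).continuous.comp_aestronglyMeasurable hm

theorem enorm_sq_coord (v : E) : ‖v‖ₑ ^ 2 = ∑ i, ‖v i‖ₑ ^ 2 := by
  have e : ∀ r : ℝ, ‖r‖ₑ ^ 2 = ENNReal.ofReal (r ^ 2) := fun r => by
    rw [← ofReal_norm, Real.norm_eq_abs, ← ENNReal.ofReal_pow (abs_nonneg _), sq_abs]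
  simp_rw [e]
  rw [← ofReal_norm, ← ENNReal.ofReal_pow (norm_nonneg _), EuclideanSpace.norm_sq_eq,
    ENNReal.ofReal_sum_of_nonneg fun i _ => by positivity]
  simp

theorem coord_lint {w : E → E} (h : ∫⁻ x, ‖w x‖ₑ ^ 2 < ⊤) (i : Fin 3) :
    ∫⁻ x, ‖w x i‖ₑ ^ 2 < ⊤ := by
  refine lt_of_le_of_lt (lintegral_mono fun x => ?_) h
  rw [enorm_sq_coord]
  exact Finset.single_le_sum (f := fun i => ‖w x i‖ₑ ^ 2) (fun _ _ => zero_le) (Finset.mem_univ i)

theorem cvv_contDiff {w : E → E} (hm : AEStronglyMeasurable w volume)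
    (h : ∫⁻ x, ‖w x‖ₑ ^ 2 < ⊤) {K : E → ℝ} (hK : SK K) : ContDiff ℝ ∞ (cvv w K) :=
  ContDiff.sum fun i _ =>
    (cv_contDiff (loc_of (coord_meas hm i) (coord_lint h i)) hK).smul contDiff_const

theorem cvv_L2 {w : E → E} (hm : AEStronglyMeasurable w volume) (h : ∫⁻ x, ‖w x‖ₑ ^ 2 < ⊤)
    {t : ℝ} (ht : 0 < t) : ∫⁻ x, ‖cvv w (kp t) x‖ₑ ^ 2 ≤ ∫⁻ x, ‖w x‖ₑ ^ 2 := by
  simp_rw [enorm_sq_coord, cvv_coord]
  rw [lintegral_finsetSum' _ fun i _ => (cv_contDiff (loc_of (coord_meas hm i) (coord_lint h i))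
      (kp_sk ht)).continuous.measurable.enorm.pow_const 2 |>.aemeasurable,
    lintegral_finsetSum' _ fun i _ => (coord_meas hm i).enorm.pow_const 2]
  refine Finset.sum_le_sum fun i _ => ?_
  refine (cv_L2 (coord_meas hm i) (kp_sk ht).cont).trans (le_of_eq ?_)
  rw [lintegral_kp ht, one_pow, one_mul]

theorem cvv_ae {w : E → E} (hm : AEStronglyMeasurable w volume) (h : ∫⁻ x, ‖w x‖ₑ ^ 2 < ⊤)
    {t : ℕ → ℝ} (ht : ∀ n, 0 < t n) (ht0 : Tendsto t atTop (𝓝 0)) :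
    ∀ᵐ x, Tendsto (fun n => cvv w (kp (t n)) x) atTop (𝓝 (w x)) := by
  have h1 : ∀ᵐ x, ∀ i, Tendsto (fun n => cv (fun y => w y i) (kp (t n)) x) atTop (𝓝 (w x i)) :=
    ae_all_iff.2 fun i => ae_cv (loc_of (coord_meas hm i) (coord_lint h i)) ht ht0
  filter_upwards [h1] with x hx
  conv => rhs; rw [E_sum (w x)]
  exact tendsto_finsetSum _ fun i _ => (hx i).smul_const _

theorem fderiv_cvv {w : E → E} (hm : AEStronglyMeasurable w volume)
    (h : ∫⁻ x, ‖w x‖ₑ ^ 2 < ⊤) {K : E → ℝ} (hK : SK K) (x : E) (i k : Fin 3) :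
    fderiv ℝ (cvv w K) x (ei k) i = dE k (cv (fun y => w y i) K) x := by
  have h1 := fderiv_coord ((cvv_contDiff hm h hK).differentiable (by norm_num) x) (ei k) i
  rw [← h1]
  unfold dE
  simp_rw [cvv_coord]

theorem cvv_div {w : E → E} (hm : AEStronglyMeasurable w volume) (h : ∫⁻ x, ‖w x‖ₑ ^ 2 < ⊤)
    (hdiv : ∀ ψ : E → ℝ, ContDiff ℝ ∞ ψ → HasCompactSupport ψ → ∫ x, fderiv ℝ ψ x (w x) = 0)
    {K : E → ℝ} (hK : SK K) (x : E) : dvE (cvv w K) x = 0 := by
  have hloc := fun i => loc_of (coord_meas hm i) (coord_lint h i)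
  unfold dvE
  simp_rw [fderiv_cvv hm h hK, cv_dE (hloc _) hK]
  have h1 := hdiv _ (hK.sub x).smooth (hK.sub x).cpt
  have h2 : ∀ y, fderiv ℝ (fun y => K (x - y)) y (w y) = -∑ i, w y i * dE i K (x - y) := by
    intro y
    rw [lin_sum, ← Finset.sum_neg_distrib]
    refine Finset.sum_congr rfl fun i _ => ?_
    have := dE_comp_sub K hK.smooth x i y
    unfold dE at this ⊢
    rw [this, smul_eq_mul]
    ring
  simp_rw [h2] at h1
  rw [integral_neg, neg_eq_zero, integral_finsetSum _ fun i _ =>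
    cv_int (hloc i) (hK.d i).cont (hK.d i).cpt x] at h1
  exact h1

/-- The density of the weighted square of the gradient of the mollified field. -/
noncomputable def Dd (w : E → E) (K : E → ℝ) (x : E) : ℝ :=
  ∑ i, ∑ k, dE k (cv (fun y => w y i) K) x ^ 2 / (1 + cv (fun y => w y i) K x ^ 2)

theorem Dd_nonneg (w : E → E) (K : E → ℝ) (x : E) : 0 ≤ Dd w K x :=
  Finset.sum_nonneg fun i _ => Finset.sum_nonneg fun k _ => by positivity

theorem Dd_cont {w : E → E} (hm : AEStronglyMeasurable w volume)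
    (h : ∫⁻ x, ‖w x‖ₑ ^ 2 < ⊤) {K : E → ℝ} (hK : SK K) : Continuous (Dd w K) := by
  have hs : ∀ i, ContDiff ℝ ∞ (cv (fun y => w y i) K) := fun i =>
    cv_contDiff (loc_of (coord_meas hm i) (coord_lint h i)) hK
  refine continuous_finsetSum _ fun i _ => continuous_finsetSum _ fun k _ => ?_
  exact ((dE_contDiff (hs i) k).continuous.pow 2).div
    (continuous_const.add ((hs i).continuous.pow 2)) fun x => by positivity

/-- The pointwise bound. -/
theorem fe_pointwise {w : E → E} (hm : AEStronglyMeasurable w volume)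
    (h : ∫⁻ x, ‖w x‖ₑ ^ 2 < ⊤) {K : E → ℝ} (hK : SK K) {ε lam : ℝ} (hε : 0 < ε) (hlam : 0 < lam)
    {e : E} (he : ‖e‖ = 1) (y : E) :
    |fderiv ℝ (fun y => Fe ε e (cvv w K y)) y (cvv w K y)|
      ≤ lam / 2 * (Be ε e (cvv w K y) ^ 2 * (1 + ‖cvv w K y‖ ^ 2)) + 1 / (2 * lam) * Dd w K y := by
  set v := cvv w K y with hv
  have hd : HasFDerivAt (cvv w K) (fderiv ℝ (cvv w K) y) y :=
    ((cvv_contDiff hm h hK).differentiable (by norm_num) y).hasFDerivAt
  have hF : HasFDerivAt (Fe ε e) (fderiv ℝ (Fe ε e) v) v :=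
    ((Fe_contDiff hε e).differentiable (by norm_num) v).hasFDerivAt
  have hcomp : HasFDerivAt (fun y => Fe ε e (cvv w K y))
      ((fderiv ℝ (Fe ε e) v).comp (fderiv ℝ (cvv w K) y)) y :=
    HasFDerivAt.comp (g := Fe ε e) y hF hd
  rw [hcomp.fderiv]
  show |fderiv ℝ (Fe ε e) v (fderiv ℝ (cvv w K) y v)| ≤ _
  set N2 : ℝ := ∑ i, ∑ k, dE k (cv (fun y => w y i) K) y ^ 2 with hN2
  have hN20 : 0 ≤ N2 := Finset.sum_nonneg fun i _ => Finset.sum_nonneg fun k _ => sq_nonneg _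
  have hN : ‖fderiv ℝ (cvv w K) y v‖ ^ 2 ≤ ‖v‖ ^ 2 * N2 := by
    rw [EuclideanSpace.norm_sq_eq (fderiv ℝ (cvv w K) y v), hN2, Finset.mul_sum]
    refine Finset.sum_le_sum fun i _ => ?_
    rw [Real.norm_eq_abs, sq_abs]
    have h1 : fderiv ℝ (cvv w K) y v i = ∑ k, v k * dE k (cv (fun y => w y i) K) y := by
      rw [lin_sum (fderiv ℝ (cvv w K) y) v]
      simp [fderiv_cvv hm h hK]
    rw [h1, EuclideanSpace.norm_sq_eq]
    have := Finset.sum_mul_sq_le_sq_mul_sq Finset.univ (fun k => v k)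
      fun k => dE k (cv (fun y => w y i) K) y
    simpa using this
  have hND : N2 ≤ (1 + ‖v‖ ^ 2) * Dd w K y := by
    unfold Dd
    rw [hN2, Finset.mul_sum]
    refine Finset.sum_le_sum fun i _ => ?_
    rw [Finset.mul_sum]
    refine Finset.sum_le_sum fun k _ => ?_
    rw [mul_div_assoc', le_div_iff₀ (by positivity), mul_comm]
    refine mul_le_mul_of_nonneg_right ?_ (sq_nonneg _)
    have h2 : cv (fun y => w y i) K y ^ 2 ≤ ‖v‖ ^ 2 := by
      rw [← cvv_coord w K y i, ← hv, ← sq_abs]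
      exact pow_le_pow_left₀ (abs_nonneg _) (abs_coord_le v i) 2
    linarith
  have hB := Be_nonneg hε e v
  have hD0 := Dd_nonneg w K y
  have hmain : |fderiv ℝ (Fe ε e) v (fderiv ℝ (cvv w K) y v)| ≤ Be ε e v * Real.sqrt N2 := by
    by_cases hv0 : v = 0
    · rw [hv0]
      simp only [map_zero, abs_zero]
      rw [hv0] at hB
      positivity
    · have hvp : 0 < ‖v‖ := norm_pos_iff.2 hv0
      have h1 := Fe_fderiv_le hε e v (v := fderiv ℝ (cvv w K) y v) he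
      have h2 : ‖fderiv ℝ (cvv w K) y v‖ ≤ ‖v‖ * Real.sqrt N2 := by
        refine le_of_sq_le_sq ?_ (by positivity)
        rw [mul_pow, Real.sq_sqrt hN20]
        exact hN
      have h3 : |fderiv ℝ (Fe ε e) v (fderiv ℝ (cvv w K) y v)| * ‖v‖
          ≤ (Be ε e v * Real.sqrt N2) * ‖v‖ := by
        refine h1.trans ((mul_le_mul_of_nonneg_left h2 hB).trans (le_of_eq ?_))
        ring
      exact le_of_mul_le_mul_right h3 hvp
  refine hmain.trans ?_
  have hp : 0 < 1 + ‖v‖ ^ 2 := by positivity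
  have h1 : Real.sqrt N2 ^ 2 = N2 := Real.sq_sqrt hN20
  have h2 : Be ε e v * Real.sqrt N2 ≤ lam / 2 * (Be ε e v ^ 2 * (1 + ‖v‖ ^ 2))
      + 1 / (2 * lam) * (N2 / (1 + ‖v‖ ^ 2)) := by
    have h4 : ∀ S : ℝ, lam / 2 * (Be ε e v ^ 2 * (1 + ‖v‖ ^ 2))
        + 1 / (2 * lam) * (S ^ 2 / (1 + ‖v‖ ^ 2)) - Be ε e v * S
        = (lam * (1 + ‖v‖ ^ 2) * Be ε e v - S) ^ 2 / (2 * lam * (1 + ‖v‖ ^ 2)) := by
      intro S
      field_simp
      ring
    have h5 : 0 ≤ (lam * (1 + ‖v‖ ^ 2) * Be ε e v - Real.sqrt N2) ^ 2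
        / (2 * lam * (1 + ‖v‖ ^ 2)) := by positivity
    have h6 := h4 (Real.sqrt N2)
    rw [h1] at h6
    linarith
  refine h2.trans (add_le_add le_rfl (mul_le_mul_of_nonneg_left ?_ (by positivity)))
  rw [div_le_iff₀ hp]
  linarith

/-- Convergence of the smooth sign in the cone. -/
theorem Fe_tendsto {e w : E} (hc : ‖w‖ ^ 2 - ⟪e, w⟫ ^ 2 ≤ ‖w‖ ^ 2 / 4) (hw : w ≠ 0) :
    Tendsto (fun n : ℕ => Fe (1 / ((n : ℝ) + 1)) e w) atTop (𝓝 (Real.sign ⟪e, w⟫)) := by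
  have hs : ⟪e, w⟫ ≠ (0 : ℝ) := by
    intro h0
    rw [h0] at hc
    have : 0 < ‖w‖ := norm_pos_iff.2 hw
    nlinarith
  have h1 : Tendsto (fun n : ℕ => Dn (1 / ((n : ℝ) + 1)) e w) atTop
      (𝓝 (Real.sqrt (0 * (1 + ‖w‖ ^ 2) + ⟪e, w⟫ ^ 2))) :=
    (Real.continuous_sqrt.tendsto _).comp
      (((tendsto_one_div_add_atTop_nhds_zero_nat).mul_const _).add_const _)
  have h2 : Real.sqrt (0 * (1 + ‖w‖ ^ 2) + ⟪e, w⟫ ^ 2) = |⟪e, w⟫| := by
    rw [zero_mul, zero_add, Real.sqrt_sq_eq_abs]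
  rw [h2] at h1
  have h3 := (tendsto_const_nhds (x := (⟪e, w⟫ : ℝ))).div h1 (abs_ne_zero.2 hs)
  have h4 : Real.sign ⟪e, w⟫ = ⟪e, w⟫ / |⟪e, w⟫| := by
    rcases lt_or_gt_of_ne hs with h | h
    · rw [Real.sign_of_neg h, abs_of_neg h]; field_simp
    · rw [Real.sign_of_pos h, abs_of_pos h]; field_simp
  rw [h4]
  exact h3

theorem Be_tendsto {e w : E} (hc : ‖w‖ ^ 2 - ⟪e, w⟫ ^ 2 ≤ ‖w‖ ^ 2 / 4) :
    Tendsto (fun n : ℕ => Be (1 / ((n : ℝ) + 1)) e w) atTop (𝓝 0) := by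
  by_cases hw : w = 0
  · simp [Be, hw]
  have hs : ⟪e, w⟫ ≠ (0 : ℝ) := by
    intro h0
    rw [h0] at hc
    have : 0 < ‖w‖ := norm_pos_iff.2 hw
    nlinarith
  have h1 : Tendsto (fun n : ℕ => Dn (1 / ((n : ℝ) + 1)) e w) atTop
      (𝓝 (Real.sqrt (0 * (1 + ‖w‖ ^ 2) + ⟪e, w⟫ ^ 2))) :=
    (Real.continuous_sqrt.tendsto _).comp
      (((tendsto_one_div_add_atTop_nhds_zero_nat).mul_const _).add_const _)
  have h2 : Real.sqrt (0 * (1 + ‖w‖ ^ 2) + ⟪e, w⟫ ^ 2) = |⟪e, w⟫| := by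
    rw [zero_mul, zero_add, Real.sqrt_sq_eq_abs]
  rw [h2] at h1
  have h3 : Tendsto (fun n : ℕ => 2 * (1 / ((n : ℝ) + 1) * (1 + ‖w‖ ^ 2)) * ‖w‖) atTop
      (𝓝 (2 * (0 * (1 + ‖w‖ ^ 2)) * ‖w‖)) :=
    (((tendsto_one_div_add_atTop_nhds_zero_nat).mul_const _).const_mul _).mul_const _
  have h4 := h3.div (h1.pow 3) (pow_ne_zero 3 (abs_ne_zero.2 hs))
  rw [show 2 * (0 * (1 + ‖w‖ ^ 2)) * ‖w‖ / |⟪e, w⟫| ^ 3 = (0 : ℝ) by simp] at h4
  exact h4

/-- Renormalization from the bound of the mollifications. -/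
theorem ren_weak {w : E → E} (hm : AEStronglyMeasurable w volume) (h2 : ∫⁻ x, ‖w x‖ₑ ^ 2 < ⊤)
    (hdiv : ∀ ψ : E → ℝ, ContDiff ℝ ∞ ψ → HasCompactSupport ψ → ∫ x, fderiv ℝ ψ x (w x) = 0)
    {t : ℕ → ℝ} (ht : ∀ n, 0 < t n) (ht0 : Tendsto t atTop (𝓝 0))
    (hL : ∀ R : ℕ, liminf (fun n => ∫⁻ x in ball (0 : E) R, ENNReal.ofReal (Dd w (kp (t n)) x))
      atTop < ⊤) : Ren w fun _ => 0 := by
  intro e x₀ r he hcone ψ hψ hc hsupp
  simp only [mul_zero, integral_zero]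
  -- the ball
  obtain ⟨R, hR⟩ : ∃ R : ℕ, tsupport ψ ⊆ ball (0 : E) R := by
    obtain ⟨R₀, hR₀⟩ := (hc.isCompact.isBounded).subset_ball (0 : E)
    obtain ⟨n, hn⟩ := exists_nat_gt R₀
    exact ⟨n, hR₀.trans (ball_subset_ball hn.le)⟩
  obtain ⟨Cψ, hCψ⟩ : ∃ C, ∀ y, |ψ y| ≤ C :=
    hψ.continuous.norm.bddAbove_range_of_hasCompactSupport hc.norm |>.imp
      fun B hB z => hB ⟨z, rfl⟩
  have hCψ0 : 0 ≤ Cψ := (abs_nonneg _).trans (hCψ 0)
  obtain ⟨Mψ, hMψ⟩ : ∃ C, ∀ y, ‖fderiv ℝ ψ y‖ ≤ C := by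
    have h1 : Continuous fun y => ‖fderiv ℝ ψ y‖ := (hψ.continuous_fderiv (by norm_num)).norm
    exact h1.bddAbove_range_of_hasCompactSupport (hc.fderiv (𝕜 := ℝ)).norm |>.imp
      fun B hB z => hB ⟨z, rfl⟩
  have hMψ0 : 0 ≤ Mψ := (norm_nonneg _).trans (hMψ 0)
  -- the subsequence
  obtain ⟨L, hL1⟩ := ENNReal.lt_iff_exists_real_btwn.1 (hL R)
  obtain ⟨hL0, hL1, -⟩ := hL1
  have hfr : ∃ᶠ n in atTop, ∫⁻ x in ball (0 : E) R, ENNReal.ofReal (Dd w (kp (t n)) x)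
      < ENNReal.ofReal L := frequently_lt_of_liminf_lt (by isBoundedDefault) hL1
  obtain ⟨φ, hφ, hφL⟩ := extraction_of_frequently_atTop hfr
  set τ : ℕ → ℝ := fun n => t (φ n) with hτ
  have hτp : ∀ n, 0 < τ n := fun n => ht _
  have hτ0 : Tendsto τ atTop (𝓝 0) := ht0.comp hφ.tendsto_atTop
  set wn : ℕ → E → E := fun n => cvv w (kp (τ n)) with hwn
  have hwc : ∀ n, ContDiff ℝ ∞ (wn n) := fun n => cvv_contDiff hm h2 (kp_sk (hτp n))
  have hwae : ∀ᵐ x, Tendsto (fun n => wn n x) atTop (𝓝 (w x)) := cvv_ae hm h2 hτp hτ0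
  -- squares
  have hsqi : ∀ {v : E → E}, AEStronglyMeasurable v volume → ∫⁻ x, ‖v x‖ₑ ^ 2 < ⊤ →
      Integrable (fun x => ‖v x‖ ^ 2) ∧ ∫ x, ‖v x‖ ^ 2 = (∫⁻ x, ‖v x‖ₑ ^ 2).toReal := by
    intro v hv hv2
    have h3 := int_sq_of hv.norm (by simpa using hv2)
    simpa using h3
  have hwL : ∀ n, ∫⁻ x, ‖wn n x‖ₑ ^ 2 ≤ ∫⁻ x, ‖w x‖ₑ ^ 2 := fun n => cvv_L2 hm h2 (hτp n)
  obtain ⟨hwi, hwe⟩ := hsqi hm h2
  have hni : ∀ n, Integrable (fun x => ‖wn n x‖ ^ 2) := fun n =>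
    (hsqi (hwc n).continuous.aestronglyMeasurable ((hwL n).trans_lt h2)).1
  have hne : ∀ n, ∫ x, ‖wn n x‖ ^ 2 ≤ ∫ x, ‖w x‖ ^ 2 := by
    intro n
    rw [(hsqi (hwc n).continuous.aestronglyMeasurable ((hwL n).trans_lt h2)).2, hwe]
    exact ENNReal.toReal_mono h2.ne (hwL n)
  have hfψ : Continuous fun y => ‖fderiv ℝ ψ y‖ := (hψ.continuous_fderiv (by norm_num)).norm
  have hfψi : Integrable fun y => ‖fderiv ℝ ψ y‖ :=
    hfψ.integrable_of_hasCompactSupport (hc.fderiv (𝕜 := ℝ)).norm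
  have hψi : Integrable fun y => |ψ y| :=
    hψ.continuous.abs.integrable_of_hasCompactSupport
      (hc.comp_left (g := fun r : ℝ => |r|) (by simp))
  -- the first integrand
  have hfw : ∀ v : E → E, ∀ y, |fderiv ℝ ψ y (v y)| ≤ ‖fderiv ℝ ψ y‖ + Mψ * ‖v y‖ ^ 2 := by
    intro v y
    have h3 : |fderiv ℝ ψ y (v y)| ≤ ‖fderiv ℝ ψ y‖ * ‖v y‖ := (fderiv ℝ ψ y).le_opNorm _
    have h4 : ‖v y‖ ≤ 1 + ‖v y‖ ^ 2 := by nlinarith [sq_nonneg (‖v y‖ - 1)]
    have h5 := norm_nonneg (fderiv ℝ ψ y)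
    have h6 := hMψ y
    have h7 : 0 ≤ ‖v y‖ ^ 2 := by positivity
    nlinarith [mul_le_mul_of_nonneg_left h4 h5, mul_le_mul_of_nonneg_right h6 h7]
  have hgi : ∀ {v : E → E}, Integrable (fun x => ‖v x‖ ^ 2) → ∀ a : ℝ,
      Integrable fun y => ‖fderiv ℝ ψ y‖ + a * ‖v y‖ ^ 2 := fun hv a => hfψi.add (hv.const_mul a)
  have hfwm : ∀ {v : E → E}, AEStronglyMeasurable v volume →
      AEStronglyMeasurable (fun y => fderiv ℝ ψ y (v y)) volume := by
    intro v hv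
    have h3 : AEStronglyMeasurable (fderiv ℝ ψ) volume :=
      (hψ.continuous_fderiv (by norm_num)).aestronglyMeasurable
    exact (isBoundedBilinearMap_apply (𝕜 := ℝ) (E := E) (F := ℝ)).continuous
      |>.comp_aestronglyMeasurable (h3.prodMk hv)
  -- the main estimate
  have hmain : ∀ (ε lam : ℝ), 0 < ε → 0 < lam → ∀ n,
      |∫ y, Fe ε e (wn n y) * fderiv ℝ ψ y (wn n y)|
        ≤ lam / 2 * (∫ y, |ψ y| * (Be ε e (wn n y) ^ 2 * (1 + ‖wn n y‖ ^ 2)))
          + 1 / (2 * lam) * (Cψ * L) := by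
    intro ε lam hε hlam n
    have hs : ContDiff ℝ ∞ fun y => Fe ε e (wn n y) := (Fe_contDiff hε e).comp (hwc n)
    rw [int_div ((hwc n).of_le (by norm_cast)) (hs.of_le (by norm_cast)) hψ hc, abs_neg]
    have hDc := Dd_cont hm h2 (kp_sk (hτp n))
    have hk : Continuous fun y => Be ε e (wn n y) ^ 2 * (1 + ‖wn n y‖ ^ 2) :=
      (((Be_cont hε e).comp (hwc n).continuous).pow 2).mul
        (continuous_const.add ((hwc n).continuous.norm.pow 2))
    have habs : HasCompactSupport fun y => |ψ y| := hc.comp_left (g := fun r : ℝ => |r|) (by simp)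
    have i1 : Integrable fun y => |ψ y| * (Be ε e (wn n y) ^ 2 * (1 + ‖wn n y‖ ^ 2)) :=
      (hψ.continuous.abs.mul hk).integrable_of_hasCompactSupport habs.mul_right
    have i2 : Integrable fun y => |ψ y| * Dd w (kp (τ n)) y :=
      (hψ.continuous.abs.mul hDc).integrable_of_hasCompactSupport habs.mul_right
    have h3 : |∫ y, (Fe ε e (wn n y) * dvE (wn n) y
        + fderiv ℝ (fun y => Fe ε e (wn n y)) y (wn n y)) * ψ y|
        ≤ ∫ y, (lam / 2 * (|ψ y| * (Be ε e (wn n y) ^ 2 * (1 + ‖wn n y‖ ^ 2)))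
          + 1 / (2 * lam) * (|ψ y| * Dd w (kp (τ n)) y)) := by
      rw [← Real.norm_eq_abs]
      refine norm_integral_le_of_norm_le ((i1.const_mul _).add (i2.const_mul _))
        (Eventually.of_forall fun y => ?_)
      rw [show dvE (wn n) y = 0 from cvv_div hm h2 hdiv (kp_sk (hτp n)) y, mul_zero, zero_add,
        norm_mul, Real.norm_eq_abs, Real.norm_eq_abs]
      have h4 := fe_pointwise hm h2 (kp_sk (hτp n)) hε hlam he y
      refine (mul_le_mul_of_nonneg_right h4 (abs_nonneg (ψ y))).trans (le_of_eq ?_)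
      simp only [hwn]
      ring
    refine h3.trans ?_
    rw [integral_add (i1.const_mul _) (i2.const_mul _), integral_const_mul, integral_const_mul]
    refine add_le_add le_rfl (mul_le_mul_of_nonneg_left ?_ (by positivity))
    -- the integral of the density
    have hDi : IntegrableOn (Dd w (kp (τ n))) (ball (0 : E) R) :=
      (hDc.continuousOn.integrableOn_compact (isCompact_closedBall (0 : E) R)).mono_set
        ball_subset_closedBall
    have h5 : ∫ y, |ψ y| * Dd w (kp (τ n)) y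
        ≤ ∫ y in ball (0 : E) R, Cψ * Dd w (kp (τ n)) y := by
      rw [← integral_indicator measurableSet_ball]
      refine integral_mono i2 (IntegrableOn.integrable_indicator (hDi.const_mul Cψ)
        measurableSet_ball) fun y => ?_
      by_cases hy : y ∈ ball (0 : E) R
      · simp only [indicator_of_mem hy]
        exact mul_le_mul_of_nonneg_right (hCψ y) (Dd_nonneg _ _ _)
      · simp only [indicator_of_notMem hy]
        rw [image_eq_zero_of_notMem_tsupport fun h => hy (hR h)]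
        simp
    refine h5.trans ?_
    rw [integral_const_mul]
    refine mul_le_mul_of_nonneg_left ?_ hCψ0
    rw [integral_eq_lintegral_of_nonneg_ae (Eventually.of_forall fun y => Dd_nonneg _ _ _)
      hDi.aestronglyMeasurable]
    refine ENNReal.toReal_le_of_le_ofReal hL0 (hφL n).le
  -- the limit `n → ∞`
  have hlim : ∀ (ε lam : ℝ), 0 < ε → 0 < lam →
      |∫ y, Fe ε e (w y) * fderiv ℝ ψ y (w y)|
        ≤ lam / 2 * (∫ y, |ψ y| * (Be ε e (w y) ^ 2 * (1 + ‖w y‖ ^ 2)))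
          + 1 / (2 * lam) * (Cψ * L) := by
    intro ε lam hε hlam
    have hFc := (Fe_contDiff hε e).continuous
    have hBc := Be_cont hε e
    have b1 : ∀ v : E → E, ∀ y, |Fe ε e (v y) * fderiv ℝ ψ y (v y)|
        ≤ ‖fderiv ℝ ψ y‖ + Mψ * ‖v y‖ ^ 2 := by
      intro v y
      rw [abs_mul]
      exact (mul_le_of_le_one_left (abs_nonneg _) (Fe_abs_le hε e _)).trans (hfw v y)
    have b2 : ∀ v : E → E, ∀ y, |(|ψ y| * (Be ε e (v y) ^ 2 * (1 + ‖v y‖ ^ 2)))|
        ≤ 4 / ε * |ψ y| + 4 / ε * Cψ * ‖v y‖ ^ 2 := by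
      intro v y
      have h3 := Be_sq_le hε e (v y)
      rw [abs_of_nonneg (by positivity)]
      have h4 : Be ε e (v y) ^ 2 * (1 + ‖v y‖ ^ 2) ≤ 4 / ε * (1 + ‖v y‖ ^ 2) :=
        mul_le_mul_of_nonneg_right h3 (by positivity)
      calc |ψ y| * (Be ε e (v y) ^ 2 * (1 + ‖v y‖ ^ 2))
          ≤ |ψ y| * (4 / ε * (1 + ‖v y‖ ^ 2)) := mul_le_mul_of_nonneg_left h4 (abs_nonneg _)
        _ = 4 / ε * |ψ y| + 4 / ε * |ψ y| * ‖v y‖ ^ 2 := by ring
        _ ≤ _ := by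
            have := hCψ y
            gcongr
    have m1 : ∀ {v : E → E}, AEStronglyMeasurable v volume → AEStronglyMeasurable
        (fun y => Fe ε e (v y) * fderiv ℝ ψ y (v y)) volume := fun hv =>
      (hFc.comp_aestronglyMeasurable hv).mul (hfwm hv)
    have m2 : ∀ {v : E → E}, AEStronglyMeasurable v volume → AEStronglyMeasurable
        (fun y => |ψ y| * (Be ε e (v y) ^ 2 * (1 + ‖v y‖ ^ 2))) volume := by
      intro v hv
      have hk : Continuous fun z : E => Be ε e z ^ 2 * (1 + ‖z‖ ^ 2) :=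
        (hBc.pow 2).mul (by fun_prop)
      exact hψ.continuous.abs.aestronglyMeasurable.mul (hk.comp_aestronglyMeasurable hv)
    have g1 : ∀ {v : E → E}, Integrable (fun x => ‖v x‖ ^ 2) →
        Integrable fun y => ‖fderiv ℝ ψ y‖ + Mψ * ‖v y‖ ^ 2 := fun hv => hgi hv Mψ
    have g2 : ∀ {v : E → E}, Integrable (fun x => ‖v x‖ ^ 2) →
        Integrable fun y => 4 / ε * |ψ y| + 4 / ε * Cψ * ‖v y‖ ^ 2 := fun hv =>
      (hψi.const_mul _).add (hv.const_mul _)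
    have l1 : Tendsto (fun n => ∫ y, Fe ε e (wn n y) * fderiv ℝ ψ y (wn n y)) atTop
        (𝓝 (∫ y, Fe ε e (w y) * fderiv ℝ ψ y (w y))) := by
      refine gen_dct (g := fun n y => ‖fderiv ℝ ψ y‖ + Mψ * ‖wn n y‖ ^ 2)
        (g0 := fun y => ‖fderiv ℝ ψ y‖ + Mψ * ‖w y‖ ^ 2) (fun n => ?_) (fun n => g1 (hni n)) ?_
        (g1 hwi) (fun n => Eventually.of_forall fun y => b1 (wn n) y) ?_ ?_ ?_
      · exact (g1 (hni n)).mono' (m1 (hwc n).continuous.aestronglyMeasurable)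
          (Eventually.of_forall fun y => b1 (wn n) y)
      · exact (g1 hwi).mono' (m1 hm) (Eventually.of_forall fun y => b1 w y)
      · filter_upwards [hwae] with y hy
        exact ((hFc.tendsto _).comp hy).mul (((fderiv ℝ ψ y).continuous.tendsto _).comp hy)
      · filter_upwards [hwae] with y hy
        exact ((hy.norm.pow 2).const_mul _).const_add _
      · intro n
        rw [integral_add hfψi ((hni n).const_mul _), integral_add hfψi (hwi.const_mul _),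
          integral_const_mul, integral_const_mul]
        exact add_le_add le_rfl (mul_le_mul_of_nonneg_left (hne n) hMψ0)
    have l2 : Tendsto (fun n => ∫ y, |ψ y| * (Be ε e (wn n y) ^ 2 * (1 + ‖wn n y‖ ^ 2))) atTop
        (𝓝 (∫ y, |ψ y| * (Be ε e (w y) ^ 2 * (1 + ‖w y‖ ^ 2)))) := by
      refine gen_dct (g := fun n y => 4 / ε * |ψ y| + 4 / ε * Cψ * ‖wn n y‖ ^ 2)
        (g0 := fun y => 4 / ε * |ψ y| + 4 / ε * Cψ * ‖w y‖ ^ 2) (fun n => ?_)
        (fun n => g2 (hni n)) ?_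
        (g2 hwi) (fun n => Eventually.of_forall fun y => b2 (wn n) y) ?_ ?_ ?_
      · exact (g2 (hni n)).mono' (m2 (hwc n).continuous.aestronglyMeasurable)
          (Eventually.of_forall fun y => b2 (wn n) y)
      · exact (g2 hwi).mono' (m2 hm) (Eventually.of_forall fun y => b2 w y)
      · filter_upwards [hwae] with y hy
        exact ((((hBc.tendsto _).comp hy).pow 2).mul ((hy.norm.pow 2).const_add _)).const_mul _
      · filter_upwards [hwae] with y hy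
        exact ((hy.norm.pow 2).const_mul _).const_add _
      · intro n
        rw [integral_add (hψi.const_mul _) ((hni n).const_mul _),
          integral_add (hψi.const_mul _) (hwi.const_mul _),
          integral_const_mul (4 / ε * Cψ), integral_const_mul (4 / ε * Cψ)]
        exact add_le_add le_rfl (mul_le_mul_of_nonneg_left (hne n) (by positivity))
    exact le_of_tendsto_of_tendsto' l1.abs ((l2.const_mul _).add_const _)
      fun n => hmain ε lam hε hlam n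
  -- the limit `ε → 0`
  have hψ0 : ∀ y, y ∉ ball x₀ r → ψ y = 0 := fun y hy =>
    image_eq_zero_of_notMem_tsupport fun h => hy (hsupp h)
  have hfψ0 : ∀ y, y ∉ ball x₀ r → fderiv ℝ ψ y = 0 := fun y hy => by
    have h3 : y ∉ tsupport ψ := fun h => hy (hsupp h)
    have h4 : ψ =ᶠ[𝓝 y] 0 := notMem_tsupport_iff_eventuallyEq.1 h3
    rw [h4.fderiv_eq]
    simp
  set εn : ℕ → ℝ := fun n => 1 / ((n : ℝ) + 1) with hεn
  have hεp : ∀ n, 0 < εn n := fun n => by simp only [hεn]; positivity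
  have i0 : Integrable fun y => ‖fderiv ℝ ψ y‖ + Mψ * ‖w y‖ ^ 2 := hgi hwi Mψ
  have e1 : Tendsto (fun n => ∫ y, Fe (εn n) e (w y) * fderiv ℝ ψ y (w y)) atTop
      (𝓝 (∫ y, Real.sign ⟪e, w y⟫ * fderiv ℝ ψ y (w y))) := by
    refine tendsto_integral_of_dominated_convergence _ (fun n => ?_) i0 (fun n => ?_) ?_
    · exact (((Fe_contDiff (hεp n) e).continuous).comp_aestronglyMeasurable hm).mul (hfwm hm)
    · refine Eventually.of_forall fun y => ?_
      rw [Real.norm_eq_abs, abs_mul]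
      exact (mul_le_of_le_one_left (abs_nonneg _) (Fe_abs_le (hεp n) e _)).trans (hfw w y)
    · filter_upwards [hcone] with y hy
      by_cases hyb : y ∈ ball x₀ r
      · by_cases hw0 : w y = 0
        · simp [hw0]
        · exact (Fe_tendsto (hy hyb) hw0).mul_const _
      · simp [hfψ0 y hyb]
  have e2 : Tendsto (fun n => ∫ y, |ψ y| * (Be (εn n) e (w y) ^ 2 * (1 + ‖w y‖ ^ 2))) atTop
      (𝓝 (∫ y : E, (0 : ℝ))) := by
    refine tendsto_integral_of_dominated_convergence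
      (fun y => 16 * |ψ y| + 16 * Cψ * ‖w y‖ ^ 2) (fun n => ?_)
      ((hψi.const_mul _).add (hwi.const_mul _)) (fun n => ?_) ?_
    · have hk : Continuous fun z : E => Be (εn n) e z ^ 2 * (1 + ‖z‖ ^ 2) :=
        ((Be_cont (hεp n) e).pow 2).mul (by fun_prop)
      exact hψ.continuous.abs.aestronglyMeasurable.mul (hk.comp_aestronglyMeasurable hm)
    · filter_upwards [hcone] with y hy
      rw [Real.norm_eq_abs, abs_of_nonneg (by positivity)]
      by_cases hyb : y ∈ ball x₀ r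
      · have h3 := Be_le_cone (hεp n) e (w y) (hy hyb)
        have h4 := Be_nonneg (hεp n) e (w y)
        have h5 : Be (εn n) e (w y) ^ 2 ≤ 16 := by nlinarith
        calc |ψ y| * (Be (εn n) e (w y) ^ 2 * (1 + ‖w y‖ ^ 2))
            ≤ |ψ y| * (16 * (1 + ‖w y‖ ^ 2)) := by gcongr
          _ = 16 * |ψ y| + 16 * |ψ y| * ‖w y‖ ^ 2 := by ring
          _ ≤ _ := by
              have := hCψ y
              gcongr
      · rw [hψ0 y hyb]
        simp only [abs_zero, zero_mul, mul_zero, zero_add]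
        positivity
    · filter_upwards [hcone] with y hy
      by_cases hyb : y ∈ ball x₀ r
      · have h3 := (((Be_tendsto (hy hyb)).pow 2).mul_const (1 + ‖w y‖ ^ 2)).const_mul |ψ y|
        rw [show |ψ y| * ((0 : ℝ) ^ 2 * (1 + ‖w y‖ ^ 2)) = 0 by simp] at h3
        exact h3
      · simp [hψ0 y hyb]
  rw [integral_zero] at e2
  have hfin : ∀ lam : ℝ, 0 < lam → |∫ y, Real.sign ⟪e, w y⟫ * fderiv ℝ ψ y (w y)|
      ≤ 1 / (2 * lam) * (Cψ * L) := by
    intro lam hlam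
    have h3 := le_of_tendsto_of_tendsto' e1.abs ((e2.const_mul (lam / 2)).add_const
      (1 / (2 * lam) * (Cψ * L))) fun n => hlim (εn n) lam (hεp n) hlam
    simpa using h3
  have h4 : Tendsto (fun n : ℕ => 1 / (2 * ((n : ℝ) + 1)) * (Cψ * L)) atTop (𝓝 (0 * (Cψ * L))) := by
    refine Tendsto.mul_const _ ?_
    have h5 := (tendsto_one_div_add_atTop_nhds_zero_nat (𝕜 := ℝ)).const_mul (1 / 2 : ℝ)
    rw [mul_zero] at h5
    refine h5.congr fun n => ?_
    field_simp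
  rw [zero_mul] at h4
  exact ge_of_tendsto' h4 fun n => hfin _ (by positivity)

end Pool.Agent.R210
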