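import Pool.Agent.R210.W7

/-!
The mollified vorticity equation at a fixed time.
-/

open MeasureTheory Set Metric Filter Topology
open scoped ENNReal ContDiff RealInnerProductSpace

namespace Pool.Agent.R210

variable {u : E → E} {G : E → Fin 3 → Fin 3 → ℝ}

/-- The vorticity is divergence free. -/
theorem WG.om_div (h : WG u G) (ψ : E → ℝ) (hψ : ContDiff ℝ ∞ ψ) (hc : HasCompactSupport ψ) :
    ∫ x, fderiv ℝ ψ x (om G x) = 0 := by
  have hk : SK ψ := ⟨hψ, hc⟩
  have hi : ∀ i j k, Integrable fun x => G x i j * dE k ψ x := fun i j k =>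
    mul_int ((h.wd j).gloc i) (hk.d k)
  have h1 : ∀ i j k, ∫ x, G x i j * dE k ψ x = -∫ x, u x j * dE i (dE k ψ) x := by
    intro i j k
    have := (h.wd j).wk _ (hk.d k).smooth (hk.d k).cpt i
    linarith
  have h2 : ∀ x, fderiv ℝ ψ x (om G x) = (G x 1 2 * dE 0 ψ x - G x 2 1 * dE 0 ψ x)
      + (G x 2 0 * dE 1 ψ x - G x 0 2 * dE 1 ψ x) + (G x 0 1 * dE 2 ψ x - G x 1 0 * dE 2 ψ x) := by
    intro x
    rw [lin_sum, Fin.sum_univ_three]
    simp only [om, PiLp.toLp_apply, Matrix.cons_val_zero, Matrix.cons_val_one, Matrix.cons_val,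
      smul_eq_mul, dE]
    ring
  simp_rw [h2]
  have i1 : Integrable fun x => G x 1 2 * dE 0 ψ x - G x 2 1 * dE 0 ψ x :=
    (hi 1 2 0).sub (hi 2 1 0)
  have i2 : Integrable fun x => G x 2 0 * dE 1 ψ x - G x 0 2 * dE 1 ψ x :=
    (hi 2 0 1).sub (hi 0 2 1)
  have i3 : Integrable fun x => G x 0 1 * dE 2 ψ x - G x 1 0 * dE 2 ψ x :=
    (hi 0 1 2).sub (hi 1 0 2)
  have i4 : Integrable fun x => (G x 1 2 * dE 0 ψ x - G x 2 1 * dE 0 ψ x)
      + (G x 2 0 * dE 1 ψ x - G x 0 2 * dE 1 ψ x) := i1.add i2
  rw [integral_add i4 i3, integral_add i1 i2,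
    integral_sub (hi _ _ _) (hi _ _ _), integral_sub (hi _ _ _) (hi _ _ _),
    integral_sub (hi _ _ _) (hi _ _ _), h1, h1, h1, h1, h1, h1]
  have h3 : ∀ j a b, ∫ x, u x j * dE a (dE b ψ) x = ∫ x, u x j * dE b (dE a ψ) x := by
    intro j a b
    simp_rw [dE_comm hψ a b]
  rw [h3 2 1 0, h3 1 2 0, h3 0 2 1]
  ring

/-- A component of the mollified vorticity. -/
noncomputable def av (u : E → E) (K : E → ℝ) (p q : Fin 3) (x : E) : ℝ :=
  cv (fun y => u y q) (dE p K) x - cv (fun y => u y p) (dE q K) x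

/-- The nonlinear term. -/
noncomputable def Nv (u : E → E) (K : E → ℝ) (p q : Fin 3) (x : E) : ℝ :=
  ∑ k, (cv (fun y => u y k * u y q) (dE k (dE p K)) x
    - cv (fun y => u y k * u y p) (dE k (dE q K)) x)

/-- The right side of the equation. -/
noncomputable def gv (u : E → E) (K : E → ℝ) (p q : Fin 3) (x : E) : ℝ :=
  (∑ k, (cv (fun y => u y q) (dE k (dE k (dE p K))) x
    - cv (fun y => u y p) (dE k (dE k (dE q K))) x)) - Nv u K p q x

/-- The commutator. -/
noncomputable def Qv (u : E → E) (K : E → ℝ) (p q : Fin 3) (x : E) : ℝ :=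
  Nv u K p q x - ∑ k, cv (fun y => u y k) K x * dE k (av u K p q) x

section

variable {K : E → ℝ}

theorem av_contDiff (hu : ∀ i, LocallyIntegrable (fun x => u x i) volume) (hK : SK K)
    (p q : Fin 3) : ContDiff ℝ ∞ (av u K p q) :=
  (cv_contDiff (hu q) (hK.d p)).sub (cv_contDiff (hu p) (hK.d q))

theorem dE_sub' {f g : E → ℝ} (hf : ContDiff ℝ ∞ f) (hg : ContDiff ℝ ∞ g) (i : Fin 3) (x : E) :
    dE i (fun y => f y - g y) x = dE i f x - dE i g x := by
  unfold dE
  have h1 : fderiv ℝ (fun y => f y - g y) x = fderiv ℝ f x - fderiv ℝ g x :=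
    ((hf.differentiable (by norm_num) x).hasFDerivAt.sub
      (hg.differentiable (by norm_num) x).hasFDerivAt).fderiv
  rw [h1]
  rfl

theorem dE_mul' {f g : E → ℝ} (hf : ContDiff ℝ ∞ f) (hg : ContDiff ℝ ∞ g) (i : Fin 3) (x : E) :
    dE i (fun y => f y * g y) x = dE i f x * g x + f x * dE i g x := by
  unfold dE
  have h1 : fderiv ℝ (fun y => f y * g y) x = _ :=
    ((hf.differentiable (by norm_num) x).hasFDerivAt.mul
      (hg.differentiable (by norm_num) x).hasFDerivAt).fderiv
  rw [h1]
  simp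
  ring

theorem dE_av (hu : ∀ i, LocallyIntegrable (fun x => u x i) volume) (hK : SK K)
    (p q k : Fin 3) (x : E) : dE k (av u K p q) x
      = cv (fun y => u y q) (dE k (dE p K)) x - cv (fun y => u y p) (dE k (dE q K)) x := by
  unfold av
  rw [dE_sub' (cv_contDiff (hu q) (hK.d p)) (cv_contDiff (hu p) (hK.d q)), cv_dE (hu q) (hK.d p),
    cv_dE (hu p) (hK.d q)]

theorem dE_dE_av (hu : ∀ i, LocallyIntegrable (fun x => u x i) volume) (hK : SK K)
    (p q k : Fin 3) (x : E) : dE k (dE k (av u K p q)) x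
      = cv (fun y => u y q) (dE k (dE k (dE p K))) x
        - cv (fun y => u y p) (dE k (dE k (dE q K))) x := by
  have h1 : dE k (av u K p q) = fun x => cv (fun y => u y q) (dE k (dE p K)) x
      - cv (fun y => u y p) (dE k (dE q K)) x := funext fun x => dE_av hu hK p q k x
  rw [h1, dE_sub' (cv_contDiff (hu q) ((hK.d p).d k)) (cv_contDiff (hu p) ((hK.d q).d k)),
    cv_dE (hu q) ((hK.d p).d k), cv_dE (hu p) ((hK.d q).d k)]

theorem gv_eq (hu : ∀ i, LocallyIntegrable (fun x => u x i) volume) (hK : SK K)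
    (p q : Fin 3) (x : E) : gv u K p q x = (∑ k, dE k (dE k (av u K p q)) x)
      - (∑ k, cv (fun y => u y k) K x * dE k (av u K p q) x) - Qv u K p q x := by
  unfold gv Qv
  simp_rw [dE_dE_av hu hK]
  ring

end

/-- The primitive of the arcus tangent. -/
noncomputable def HH (r : ℝ) : ℝ := r * Real.arctan r - Real.log (1 + r ^ 2) / 2

theorem HH_hasDerivAt (r : ℝ) : HasDerivAt HH (Real.arctan r) r := by
  have h0 : 0 < 1 + r ^ 2 := by positivity
  have h1 := (hasDerivAt_id r).mul (Real.hasDerivAt_arctan r)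
  have h2 : HasDerivAt (fun r : ℝ => 1 + r ^ 2) (2 * r) r := by
    simpa using (hasDerivAt_pow 2 r).const_add 1
  have h3 := (h2.log h0.ne').div_const 2
  refine (h1.sub h3).congr_deriv ?_
  simp only [id]
  field_simp
  ring

theorem HH_contDiff : ContDiff ℝ ∞ HH := by
  unfold HH
  refine (contDiff_id.mul Real.contDiff_arctan).sub (ContDiff.div_const (ContDiff.log ?_ ?_) 2)
  · exact contDiff_const.add (contDiff_id.pow 2)
  · intro r; positivity

theorem abs_arctan_le (r : ℝ) : |Real.arctan r| ≤ 2 := by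
  have h1 := Real.arctan_lt_pi_div_two r
  have h2 := Real.neg_pi_div_two_lt_arctan r
  have h3 := Real.pi_lt_four
  rw [abs_le]
  constructor <;> linarith

theorem HH_abs_le (r : ℝ) : |HH r| ≤ 2 * |r| := by
  have h1 : |r * Real.arctan r| ≤ 2 * |r| := by
    rw [abs_mul, mul_comm]
    exact mul_le_mul_of_nonneg_right (abs_arctan_le r) (abs_nonneg r)
  have h2 : 0 ≤ Real.log (1 + r ^ 2) := Real.log_nonneg (by nlinarith [sq_nonneg r])
  have h3 : Real.log (1 + r ^ 2) ≤ 2 * |r| := by
    have h4 : 1 + r ^ 2 ≤ (1 + |r|) ^ 2 := by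
      have := sq_abs r
      nlinarith [abs_nonneg r]
    have h5 : Real.log (1 + r ^ 2) ≤ Real.log ((1 + |r|) ^ 2) :=
      Real.log_le_log (by positivity) h4
    rw [Real.log_pow] at h5
    have h6 := Real.log_le_sub_one_of_pos (x := 1 + |r|) (by positivity)
    push_cast at h5
    linarith
  have h4 : 0 ≤ r * Real.arctan r := by
    rcases le_total 0 r with h | h
    · exact mul_nonneg h (Real.arctan_nonneg.2 h)
    · exact mul_nonneg_of_nonpos_of_nonpos h (Real.arctan_le_zero.2 h)
  rw [abs_of_nonneg h4] at h1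
  unfold HH
  rw [abs_le]
  constructor <;> linarith [abs_nonneg r]

theorem dE_HH {a : E → ℝ} (ha : ContDiff ℝ ∞ a) (i : Fin 3) (x : E) :
    dE i (fun y => HH (a y)) x = Real.arctan (a x) * dE i a x := by
  unfold dE
  have h1 : fderiv ℝ (fun y => HH (a y)) x = _ :=
    ((HH_hasDerivAt (a x)).comp_hasFDerivAt x (ha.differentiable (by norm_num) x).hasFDerivAt).fderiv
  rw [h1]
  simp

theorem dE_arctan {a : E → ℝ} (ha : ContDiff ℝ ∞ a) (i : Fin 3) (x : E) :
    dE i (fun y => Real.arctan (a y)) x = 1 / (1 + a x ^ 2) * dE i a x := by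
  unfold dE
  have h1 : fderiv ℝ (fun y => Real.arctan (a y)) x = _ :=
    ((Real.hasDerivAt_arctan (a x)).comp_hasFDerivAt x
      (ha.differentiable (by norm_num) x).hasFDerivAt).fderiv
  rw [h1]
  simp

theorem int_dE_test {f : E → ℝ} (hf : ContDiff ℝ ∞ f) {ψ : E → ℝ} (hψ : SK ψ) (i : Fin 3) :
    ∫ y, f y * dE i ψ y = -∫ y, dE i f y * ψ y :=
  int_fderiv_test (hf.of_le (by norm_cast)) hψ.smooth hψ.cpt (ei i)

theorem cint {f χ : E → ℝ} (hf : Continuous f) (hχ : SK χ) : Integrable fun y => χ y * f y :=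
  (hχ.cont.mul hf).integrable_of_hasCompactSupport hχ.cpt.mul_right

/-- The identity of the renormalized mollified equation at a fixed time. -/
theorem WG.ident (h : WG u G) {K : E → ℝ} (hK : SK K) {χ : E → ℝ} (hχ : SK χ) (p q : Fin 3)
    (hQ : Continuous (Qv u K p q)) :
    ∫ x, χ x * (∑ k, dE k (av u K p q) x ^ 2 / (1 + av u K p q x ^ 2))
      = -(∫ x, χ x * (Real.arctan (av u K p q x) * gv u K p q x))
        + (∫ x, (∑ k, dE k (dE k χ) x) * HH (av u K p q x))
        + (∫ x, (∑ k, cv (fun y => u y k) K x * dE k χ x) * HH (av u K p q x))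
        - ∫ x, χ x * (Real.arctan (av u K p q x) * Qv u K p q x) := by
  have hu : ∀ i, LocallyIntegrable (fun x => u x i) volume := fun i => (h.wd i).floc
  set a := av u K p q with ha
  have hac : ContDiff ℝ ∞ a := av_contDiff hu hK p q
  have hb : ∀ k, ContDiff ℝ ∞ (cv (fun y => u y k) K) := fun k => cv_contDiff (hu k) hK
  have hH : ContDiff ℝ ∞ fun y => HH (a y) := HH_contDiff.comp hac
  have hT : ContDiff ℝ ∞ fun y => Real.arctan (a y) := Real.contDiff_arctan.comp hac
  have hda : ∀ k, ContDiff ℝ ∞ (dE k a) := fun k => dE_contDiff hac k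
  have hdiv : ∀ x, ∑ k, dE k (cv (fun y => u y k) K) x = 0 := by
    intro x
    have h1 : ∀ k, dE k (cv (fun y => u y k) K) x = cv (fun y => G y k k) K x := fun k => by
      rw [Pool.Agent.R210.cv_dE (hu k) hK, (h.wd k).cv_dE hK]
    simp_rw [h1]
    unfold cv
    rw [← integral_finsetSum _ fun k _ => cv_int ((h.wd k).gloc k) hK.cont hK.cpt x]
    rw [show (0 : ℝ) = ∫ y : E, (0 : ℝ) by simp]
    refine integral_congr_ae ?_
    filter_upwards [h.dv] with y hy
    rw [← Finset.sum_mul, hy, zero_mul]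
  -- the Laplacian
  have hL : ∀ k, ∫ x, χ x * (Real.arctan (a x) * dE k (dE k a) x)
      = (∫ x, dE k (dE k χ) x * HH (a x)) - ∫ x, χ x * (dE k a x ^ 2 / (1 + a x ^ 2)) := by
    intro k
    have hf1 : ContDiff ℝ ∞ fun y => Real.arctan (a y) * dE k a y := hT.mul (hda k)
    have e1 : ∀ x, dE k (fun y => Real.arctan (a y) * dE k a y) x
        = dE k a x ^ 2 / (1 + a x ^ 2) + Real.arctan (a x) * dE k (dE k a) x := by
      intro x
      rw [dE_mul' hT (hda k), dE_arctan hac]
      ring
    have h1 := int_dE_test hf1 hχ k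
    have h2 := int_dE_test hH (hχ.d k) k
    simp_rw [e1] at h1
    simp_rw [dE_HH hac] at h2
    have i1 : Integrable fun x => χ x * (dE k a x ^ 2 / (1 + a x ^ 2)) :=
      cint (((hda k).continuous.pow 2).div (continuous_const.add (hac.continuous.pow 2))
        fun x => by positivity) hχ
    have i2 : Integrable fun x => χ x * (Real.arctan (a x) * dE k (dE k a) x) :=
      cint (hT.continuous.mul (dE_contDiff (hda k) k).continuous) hχ
    have h3 : ∫ x, (dE k a x ^ 2 / (1 + a x ^ 2) + Real.arctan (a x) * dE k (dE k a) x) * χ x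
        = (∫ x, χ x * (dE k a x ^ 2 / (1 + a x ^ 2)))
          + ∫ x, χ x * (Real.arctan (a x) * dE k (dE k a) x) := by
      rw [← integral_add i1 i2]
      refine integral_congr_ae (Eventually.of_forall fun x => ?_)
      simp only
      ring
    rw [h3] at h1
    have h4 : ∫ x, HH (a x) * dE k (dE k χ) x = ∫ x, dE k (dE k χ) x * HH (a x) := by
      refine integral_congr_ae (Eventually.of_forall fun x => ?_)
      simp only
      ring
    rw [h4] at h2
    linarith
  -- the transport term
  have hTr : ∀ k, ∫ x, χ x * (Real.arctan (a x) * (cv (fun y => u y k) K x * dE k a x))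
      = -(∫ x, (cv (fun y => u y k) K x * dE k χ x) * HH (a x))
        - ∫ x, χ x * (dE k (cv (fun y => u y k) K) x * HH (a x)) := by
    intro k
    have hf1 : ContDiff ℝ ∞ fun y => cv (fun y => u y k) K y * HH (a y) := (hb k).mul hH
    have h1 := int_dE_test hf1 hχ k
    have e1 : ∀ x, dE k (fun y => cv (fun y => u y k) K y * HH (a y)) x
        = dE k (cv (fun y => u y k) K) x * HH (a x)
          + cv (fun y => u y k) K x * (Real.arctan (a x) * dE k a x) := by
      intro x
      rw [dE_mul' (hb k) hH, dE_HH hac]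
    simp_rw [e1] at h1
    have i1 : Integrable fun x => χ x * (dE k (cv (fun y => u y k) K) x * HH (a x)) :=
      cint ((dE_contDiff (hb k) k).continuous.mul hH.continuous) hχ
    have i2 : Integrable fun x => χ x * (Real.arctan (a x)
        * (cv (fun y => u y k) K x * dE k a x)) :=
      cint (hT.continuous.mul ((hb k).continuous.mul (hda k).continuous)) hχ
    have h3 : ∫ x, (dE k (cv (fun y => u y k) K) x * HH (a x)
          + cv (fun y => u y k) K x * (Real.arctan (a x) * dE k a x)) * χ x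
        = (∫ x, χ x * (dE k (cv (fun y => u y k) K) x * HH (a x)))
          + ∫ x, χ x * (Real.arctan (a x) * (cv (fun y => u y k) K x * dE k a x)) := by
      rw [← integral_add i1 i2]
      refine integral_congr_ae (Eventually.of_forall fun x => ?_)
      simp only
      ring
    rw [h3] at h1
    have h4 : ∫ x, cv (fun y => u y k) K x * HH (a x) * dE k χ x
        = ∫ x, (cv (fun y => u y k) K x * dE k χ x) * HH (a x) := by
      refine integral_congr_ae (Eventually.of_forall fun x => ?_)
      simp only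
      ring
    rw [h4] at h1
    linarith
  have hdiv2 : ∑ k, ∫ x, χ x * (dE k (cv (fun y => u y k) K) x * HH (a x)) = 0 := by
    have i1 : ∀ k, Integrable fun x => χ x * (dE k (cv (fun y => u y k) K) x * HH (a x)) :=
      fun k => cint ((dE_contDiff (hb k) k).continuous.mul hH.continuous) hχ
    rw [← integral_finsetSum _ fun k _ => i1 k]
    rw [show (0 : ℝ) = ∫ y : E, (0 : ℝ) by simp]
    refine integral_congr_ae (Eventually.of_forall fun x => ?_)
    simp only
    rw [← Finset.mul_sum, ← Finset.sum_mul, hdiv, zero_mul, mul_zero]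
  -- putting together
  have hg : ∀ x, χ x * (Real.arctan (a x) * gv u K p q x)
      = (∑ k, χ x * (Real.arctan (a x) * dE k (dE k a) x))
        - (∑ k, χ x * (Real.arctan (a x) * (cv (fun y => u y k) K x * dE k a x)))
        - χ x * (Real.arctan (a x) * Qv u K p q x) := by
    intro x
    rw [gv_eq hu hK, ← ha]
    simp_rw [← Finset.mul_sum]
    ring
  have i2 : ∀ k, Integrable fun x => χ x * (Real.arctan (a x) * dE k (dE k a) x) := fun k =>
    cint (hT.continuous.mul (dE_contDiff (hda k) k).continuous) hχ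
  have i3 : ∀ k, Integrable fun x => χ x * (Real.arctan (a x)
      * (cv (fun y => u y k) K x * dE k a x)) := fun k =>
    cint (hT.continuous.mul ((hb k).continuous.mul (hda k).continuous)) hχ
  have i4 : Integrable fun x => χ x * (Real.arctan (a x) * Qv u K p q x) :=
    cint (hT.continuous.mul hQ) hχ
  have i5 : ∀ k, Integrable fun x => χ x * (dE k a x ^ 2 / (1 + a x ^ 2)) := fun k =>
    cint (((hda k).continuous.pow 2).div (continuous_const.add (hac.continuous.pow 2))
        fun x => by positivity) hχ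
  have i6 : ∀ k, Integrable fun x => dE k (dE k χ) x * HH (a x) := fun k =>
    cint hH.continuous ((hχ.d k).d k)
  have i7 : ∀ k, Integrable fun x => (cv (fun y => u y k) K x * dE k χ x) * HH (a x) := by
    intro k
    have i8 : Integrable fun x => dE k χ x * (cv (fun y => u y k) K x * HH (a x)) :=
      cint ((hb k).continuous.mul hH.continuous) (hχ.d k)
    refine i8.congr (Eventually.of_forall fun x => ?_)
    simp only
    ring
  simp_rw [hg]
  have j2 : Integrable fun x => ∑ k, χ x * (Real.arctan (a x) * dE k (dE k a) x) :=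
    integrable_finsetSum _ fun k _ => i2 k
  have j3 : Integrable fun x => ∑ k, χ x * (Real.arctan (a x)
      * (cv (fun y => u y k) K x * dE k a x)) := integrable_finsetSum _ fun k _ => i3 k
  have j4 : Integrable fun x => (∑ k, χ x * (Real.arctan (a x) * dE k (dE k a) x))
      - ∑ k, χ x * (Real.arctan (a x) * (cv (fun y => u y k) K x * dE k a x)) := j2.sub j3
  rw [integral_sub j4 i4, integral_sub j2 j3,
    integral_finsetSum _ fun k _ => i2 k, integral_finsetSum _ fun k _ => i3 k]
  simp_rw [hL, hTr, Finset.mul_sum, Finset.sum_mul]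
  rw [integral_finsetSum _ fun k _ => i5 k, integral_finsetSum _ fun k _ => i6 k,
    integral_finsetSum _ fun k _ => i7 k, Finset.sum_sub_distrib, Finset.sum_sub_distrib,
    Finset.sum_neg_distrib, hdiv2]
  ring

end Pool.Agent.R210
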