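import Pool.Agent.R210.W8

/-!
The commutator estimate.
-/

open MeasureTheory Set Metric Filter Topology
open scoped ENNReal ContDiff RealInnerProductSpace

namespace Pool.Agent.R210

variable {u : E → E} {G : E → Fin 3 → Fin 3 → ℝ}

theorem umeas (hm : ∀ i, AEStronglyMeasurable (fun x => u x i) volume) :
    AEStronglyMeasurable u volume := by
  have h1 : u = fun x => ∑ i, u x i • ei i := funext fun x => E_sum (u x)
  rw [h1]
  refine Finset.aestronglyMeasurable_fun_sum _ fun i _ => (hm i).smul_const _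

theorem WG.um (h : WG u G) : AEStronglyMeasurable u volume := umeas fun i => (h.wd i).fm

theorem WG.uloc (h : WG u G) (i : Fin 3) : LocallyIntegrable (fun x => u x i) volume :=
  (h.wd i).floc

theorem WG.prod_int (h : WG u G) (k q : Fin 3) : Integrable fun x => u x k * u x q :=
  (memL2_of (h.wd q).fm (h.wd q).fsq).integrable_mul (memL2_of (h.wd k).fm (h.wd k).fsq) |>.congr
    (Eventually.of_forall fun x => by simp only [Pi.mul_apply]; ring)

theorem WG.vtrans (h : WG u G) (z : E) :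
    ∫⁻ x, ‖u (x - z) - u x‖ₑ ^ 2 ≤ ENNReal.ofReal (‖z‖ ^ 2) * nG G := by
  simp_rw [enorm_sq_coord]
  have hm : ∀ i, AEMeasurable (fun x => ‖(u (x - z) - u x) i‖ₑ ^ 2) volume := by
    intro i
    have h1 : AEStronglyMeasurable (fun x => u (x - z) i) volume :=
      (h.wd i).fm.comp_quasiMeasurePreserving
        (measurePreserving_sub_right volume z).quasiMeasurePreserving
    exact (h1.sub (h.wd i).fm).enorm.pow_const 2
  rw [lintegral_finsetSum' _ fun i _ => hm i]
  unfold nG
  rw [Finset.mul_sum]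
  exact Finset.sum_le_sum fun i _ => (h.wd i).trans z

theorem WG.vmoll (h : WG u G) {t : ℝ} (ht : 0 < t) :
    ∫⁻ x, ‖u x - cvv u (kp t) x‖ₑ ^ 2 ≤ ENNReal.ofReal (t ^ 2) * nG G := by
  simp_rw [enorm_sq_coord]
  have hm : ∀ i, AEMeasurable (fun x => ‖(u x - cvv u (kp t) x) i‖ₑ ^ 2) volume := by
    intro i
    have h1 : AEStronglyMeasurable (fun x => cvv u (kp t) x i) volume := by
      simp_rw [cvv_coord]
      exact (cv_contDiff (h.uloc i) (kp_sk ht)).continuous.aestronglyMeasurable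
    exact ((h.wd i).fm.sub h1).enorm.pow_const 2
  rw [lintegral_finsetSum' _ fun i _ => hm i]
  unfold nG
  rw [Finset.mul_sum]
  refine Finset.sum_le_sum fun i _ => ?_
  refine le_trans (le_of_eq ?_) ((h.wd i).moll ht)
  refine lintegral_congr fun x => ?_
  rw [PiLp.sub_apply, cvv_coord]

theorem int_dE_zero {L : E → ℝ} (hL : SK L) (k : Fin 3) (x : E) : ∫ y, dE k L (x - y) = 0 := by
  rw [integral_sub_left_eq_self (fun y => dE k L y) volume x]
  have h1 := int_dE_test (f := fun _ => (1 : ℝ)) contDiff_const hL k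
  simp only [one_mul] at h1
  rw [h1]
  simp [dE]

theorem WG.comm1 (h : WG u G) {L : E → ℝ} (hL : SK L) (r : Fin 3) (b x : E) :
    ∑ k, ∫ y, (u y k - b k) * (u y r - b r) * dE k L (x - y)
      = (∑ k, cv (fun y => u y k * u y r) (dE k L) x) - ∑ k, b k * cv (fun y => u y r) (dE k L) x := by
  have hk : ∀ k, SK (dE k L) := fun k => hL.d k
  have i1 : ∀ k, Integrable fun y => u y k * u y r * dE k L (x - y) := fun k =>
    cv_int (h.prod_int k r).locallyIntegrable (hk k).cont (hk k).cpt x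
  have i2 : ∀ j k, Integrable fun y => u y j * dE k L (x - y) := fun j k =>
    cv_int (h.uloc j) (hk k).cont (hk k).cpt x
  have i3 : ∀ k, Integrable fun y => dE k L (x - y) := fun k => ((hk k).sub x).int
  have e1 : ∀ k, ∫ y, (u y k - b k) * (u y r - b r) * dE k L (x - y)
      = cv (fun y => u y k * u y r) (dE k L) x - b k * cv (fun y => u y r) (dE k L) x
        - b r * cv (fun y => u y k) (dE k L) x := by
    intro k
    have e2 : ∀ y, (u y k - b k) * (u y r - b r) * dE k L (x - y)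
        = u y k * u y r * dE k L (x - y) - b k * (u y r * dE k L (x - y))
          - b r * (u y k * dE k L (x - y)) + b k * b r * dE k L (x - y) := fun y => by ring
    simp_rw [e2]
    have j1 : Integrable fun y => u y k * u y r * dE k L (x - y) - b k * (u y r * dE k L (x - y)) :=
      (i1 k).sub ((i2 r k).const_mul _)
    have j2 : Integrable fun y => u y k * u y r * dE k L (x - y) - b k * (u y r * dE k L (x - y))
          - b r * (u y k * dE k L (x - y)) := j1.sub ((i2 k k).const_mul _)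
    rw [integral_add j2 ((i3 k).const_mul _), integral_sub j1 ((i2 k k).const_mul _),
      integral_sub (i1 k) ((i2 r k).const_mul _), integral_const_mul, integral_const_mul,
      integral_const_mul, int_dE_zero hL]
    unfold cv
    ring
  have e3 : ∑ k, cv (fun y => u y k) (dE k L) x = 0 := by
    have h1 : ∀ k, cv (fun y => u y k) (dE k L) x = cv (fun y => G y k k) L x := fun k =>
      (h.wd k).cv_dE hL k x
    simp_rw [h1]
    unfold cv
    rw [← integral_finsetSum _ fun k _ => cv_int ((h.wd k).gloc k) hL.cont hL.cpt x]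
    rw [show (0 : ℝ) = ∫ y : E, (0 : ℝ) by simp]
    refine integral_congr_ae ?_
    filter_upwards [h.dv] with y hy
    rw [← Finset.sum_mul, hy, zero_mul]
  simp_rw [e1]
  rw [Finset.sum_sub_distrib, Finset.sum_sub_distrib, ← Finset.mul_sum, e3]
  ring

theorem WG.Qv_eq (h : WG u G) {K : E → ℝ} (hK : SK K) (p q : Fin 3) (x : E) :
    Qv u K p q x
      = (∑ k, ∫ y, (u y k - cvv u K x k) * (u y q - cvv u K x q) * dE k (dE p K) (x - y))
        - ∑ k, ∫ y, (u y k - cvv u K x k) * (u y p - cvv u K x p) * dE k (dE q K) (x - y) := by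
  rw [h.comm1 (hK.d p), h.comm1 (hK.d q)]
  unfold Qv Nv
  have hu : ∀ i, LocallyIntegrable (fun x => u x i) volume := fun i => h.uloc i
  simp_rw [dE_av hu hK, cvv_coord, mul_sub]
  rw [Finset.sum_sub_distrib, Finset.sum_sub_distrib]
  ring

theorem WG.Qv_cont (h : WG u G) {K : E → ℝ} (hK : SK K) (p q : Fin 3) :
    Continuous (Qv u K p q) := by
  have hu : ∀ i, LocallyIntegrable (fun x => u x i) volume := fun i => h.uloc i
  unfold Qv Nv
  refine Continuous.sub (continuous_finsetSum _ fun k _ => ?_)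
    (continuous_finsetSum _ fun k _ => ?_)
  · exact (cv_contDiff (h.prod_int k q).locallyIntegrable ((hK.d p).d k)).continuous.sub
      (cv_contDiff (h.prod_int k p).locallyIntegrable ((hK.d q).d k)).continuous
  · exact (cv_contDiff (hu k) hK).continuous.mul (dE_contDiff (av_contDiff hu hK p q) k).continuous

theorem abs_mul_coord_le (v : E) (i j : Fin 3) : ‖v i * v j‖ₑ ≤ ‖v‖ₑ ^ 2 := by
  rw [enorm_mul, sq]
  have h1 : ∀ i, ‖v i‖ₑ ≤ ‖v‖ₑ := by
    intro i
    rw [← ofReal_norm, ← ofReal_norm]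
    exact ENNReal.ofReal_le_ofReal (abs_coord_le v i)
  exact mul_le_mul' (h1 i) (h1 j)

/-- The commutator is bounded by the dissipation. -/
theorem WG.Qv_bound (h : WG u G) {δ : ℝ} (hδ : 0 < δ) (p q : Fin 3) :
    ∫⁻ x, ‖Qv u (kp δ) p q x‖ₑ ≤ ENNReal.ofReal (24 * BE * v3) * nG G := by
  have hK := kp_sk hδ
  have hB := one_le_BE
  have hv := v3_pos
  set κ : ℝ≥0∞ := ENNReal.ofReal ((δ⁻¹) ^ 5 * BE) with hκ
  set b : E → E := cvv u (kp δ) with hb
  -- one term
  have h1 : ∀ (k s r : Fin 3) (x : E),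
      ‖∫ y, (u y k - b x k) * (u y r - b x r) * dE k (dE s (kp δ)) (x - y)‖ₑ
        ≤ κ * ∫⁻ z in ball (0 : E) δ, ‖u (x - z) - b x‖ₑ ^ 2 := by
    intro k s r x
    refine (enorm_integral_le_lintegral_enorm _).trans ?_
    have e1 : ∫⁻ z in ball (0 : E) δ, ‖u (x - z) - b x‖ₑ ^ 2
        = ∫⁻ y, (ball (0 : E) δ).indicator (fun z => ‖u (x - z) - b x‖ₑ ^ 2) (x - y) := by
      rw [lintegral_sub_left_eq_self
        (fun y => (ball (0 : E) δ).indicator (fun z => ‖u (x - z) - b x‖ₑ ^ 2) y) x,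
        lintegral_indicator measurableSet_ball]
    rw [e1, ← lintegral_const_mul' _ _ ENNReal.ofReal_ne_top]
    refine lintegral_mono fun y => ?_
    by_cases hy : x - y ∈ ball (0 : E) δ
    · rw [indicator_of_mem hy, enorm_mul, sub_sub_cancel, mul_comm]
      refine mul_le_mul' ?_ ?_
      · rw [dE_dE_kp, ← ofReal_norm]
        refine ENNReal.ofReal_le_ofReal ?_
        rw [norm_mul, norm_pow, Real.norm_eq_abs, abs_of_pos (inv_pos.2 hδ)]
        exact mul_le_mul_of_nonneg_left (dE_dE_phE_le _ _ _) (by positivity)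
      · have := abs_mul_coord_le (u y - b x) k r
        simpa using this
    · have h2 : dE k (dE s (kp δ)) (x - y) = 0 := by
        refine dE_zero_of (fun w hw => dE_zero_of (fun v hv => kp_zero hδ hv) (kp_smooth δ) s hw)
          (hK.d s).smooth k ?_
        rw [mem_ball_zero_iff, not_lt] at hy
        exact hy
      rw [h2]
      simp
  have h2 : ∀ x, ‖Qv u (kp δ) p q x‖ₑ ≤ 6 * (κ * ∫⁻ z in ball (0 : E) δ, ‖u (x - z) - b x‖ₑ ^ 2) := by
    intro x
    rw [h.Qv_eq hK]
    refine (enorm_sub_le).trans ?_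
    refine (add_le_add (enorm_sum_le _ _) (enorm_sum_le _ _)).trans ?_
    refine (add_le_add (Finset.sum_le_sum fun k _ => h1 k p q x)
      (Finset.sum_le_sum fun k _ => h1 k q p x)).trans (le_of_eq ?_)
    rw [Finset.sum_const, Finset.card_univ, Fintype.card_fin, nsmul_eq_mul, ← add_mul]
    norm_num
  have hbm : AEStronglyMeasurable b volume := by
    have h3 : Continuous b := by
      rw [hb]
      unfold cvv
      exact continuous_finsetSum _ fun i _ =>
        (cv_contDiff (h.uloc i) hK).continuous.smul continuous_const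
    exact h3.aestronglyMeasurable
  have h3 : ∀ x z, ‖u (x - z) - b x‖ₑ ^ 2 ≤ 2 * ‖u (x - z) - u x‖ₑ ^ 2 + 2 * ‖u x - b x‖ₑ ^ 2 := by
    intro x z
    have h4 : ‖u (x - z) - b x‖ ≤ ‖u (x - z) - u x‖ + ‖u x - b x‖ := by
      have := norm_add_le (u (x - z) - u x) (u x - b x)
      simpa using this
    have h5 : ‖u (x - z) - b x‖ ^ 2 ≤ 2 * ‖u (x - z) - u x‖ ^ 2 + 2 * ‖u x - b x‖ ^ 2 := by
      have h6 : 0 ≤ ‖u (x - z) - b x‖ := norm_nonneg _
      nlinarith [sq_nonneg (‖u (x - z) - u x‖ - ‖u x - b x‖)]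
    have e : ∀ v : E, ‖v‖ₑ ^ 2 = ENNReal.ofReal (‖v‖ ^ 2) := fun v => by
      rw [← ofReal_norm, ← ENNReal.ofReal_pow (norm_nonneg _)]
    rw [e, e, e]
    refine (ENNReal.ofReal_le_ofReal h5).trans (le_of_eq ?_)
    rw [ENNReal.ofReal_add (by positivity) (by positivity), ENNReal.ofReal_mul (by norm_num),
      ENNReal.ofReal_mul (by norm_num), ENNReal.ofReal_ofNat]
  have hvol : volume (ball (0 : E) δ) = ENNReal.ofReal (v3 * δ ^ 3) := by
    rw [← vol_ball (0 : E) hδ.le, ENNReal.ofReal_toReal measure_ball_lt_top.ne]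
  have hm2 : AEMeasurable (fun p : E × E => ‖u (p.1 - p.2) - u p.1‖ₑ ^ 2)
      (volume.prod (volume.restrict (ball (0 : E) δ))) := by
    have h4 : AEStronglyMeasurable (fun p : E × E => u (p.1 - p.2)) (volume.prod volume) :=
      h.um.comp_quasiMeasurePreserving (quasiMeasurePreserving_sub volume volume)
    have h5 : AEMeasurable (fun p : E × E => ‖u (p.1 - p.2) - u p.1‖ₑ ^ 2)
      (volume.prod volume) := (h4.sub h.um.comp_fst).enorm.pow_const 2
    refine h5.mono_measure ?_
    rw [← Measure.restrict_univ (μ := (volume : Measure E)), Measure.restrict_restrict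
      measurableSet_ball, Measure.prod_restrict, Measure.prod_restrict]
    exact Measure.restrict_mono (prod_mono subset_rfl (subset_univ _)) le_rfl
  -- the double integral
  have h4 : ∫⁻ x, ∫⁻ z in ball (0 : E) δ, ‖u (x - z) - b x‖ₑ ^ 2
      ≤ 4 * (ENNReal.ofReal (v3 * δ ^ 3) * (ENNReal.ofReal (δ ^ 2) * nG G)) := by
    have h5 : ∀ x, ∫⁻ z in ball (0 : E) δ, ‖u (x - z) - b x‖ₑ ^ 2
        ≤ 2 * (∫⁻ z in ball (0 : E) δ, ‖u (x - z) - u x‖ₑ ^ 2)
          + 2 * (ENNReal.ofReal (v3 * δ ^ 3) * ‖u x - b x‖ₑ ^ 2) := by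
      intro x
      refine (lintegral_mono fun z => h3 x z).trans (le_of_eq ?_)
      rw [lintegral_add_right' _ aemeasurable_const, lintegral_const_mul' _ _ (by norm_num),
        lintegral_const, Measure.restrict_apply_univ, hvol]
      ring
    have h6 : ∫⁻ x, ∫⁻ z in ball (0 : E) δ, ‖u (x - z) - u x‖ₑ ^ 2
        ≤ ENNReal.ofReal (v3 * δ ^ 3) * (ENNReal.ofReal (δ ^ 2) * nG G) := by
      rw [lintegral_lintegral_swap hm2]
      calc ∫⁻ z in ball (0 : E) δ, ∫⁻ x, ‖u (x - z) - u x‖ₑ ^ 2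
          ≤ ∫⁻ z in ball (0 : E) δ, ENNReal.ofReal (δ ^ 2) * nG G := by
            refine setLIntegral_mono' measurableSet_ball fun z hz => ?_
            refine (h.vtrans z).trans (mul_le_mul_left (ENNReal.ofReal_le_ofReal ?_) _)
            rw [mem_ball_zero_iff] at hz
            exact pow_le_pow_left₀ (norm_nonneg _) hz.le 2
        _ = _ := by
            rw [lintegral_const, Measure.restrict_apply_univ, hvol]
            ring
    have h7 := h.vmoll hδ
    refine (lintegral_mono h5).trans ?_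
    have hm3 : AEMeasurable (fun x => 2 * (ENNReal.ofReal (v3 * δ ^ 3) * ‖u x - b x‖ₑ ^ 2))
        volume := (((h.um.sub hbm).enorm.pow_const 2).const_mul _).const_mul _
    rw [lintegral_add_right' _ hm3, lintegral_const_mul' _ _ (by norm_num),
      lintegral_const_mul' _ _ (by norm_num), lintegral_const_mul' _ _ ENNReal.ofReal_ne_top]
    calc 2 * (∫⁻ x, ∫⁻ z in ball (0 : E) δ, ‖u (x - z) - u x‖ₑ ^ 2)
          + 2 * (ENNReal.ofReal (v3 * δ ^ 3) * ∫⁻ x, ‖u x - b x‖ₑ ^ 2)
        ≤ 2 * (ENNReal.ofReal (v3 * δ ^ 3) * (ENNReal.ofReal (δ ^ 2) * nG G))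
          + 2 * (ENNReal.ofReal (v3 * δ ^ 3) * (ENNReal.ofReal (δ ^ 2) * nG G)) :=
          add_le_add (mul_le_mul_right h6 _) (mul_le_mul_right (mul_le_mul_right h7 _) _)
      _ = _ := by
          rw [← add_mul]; norm_num
  calc ∫⁻ x, ‖Qv u (kp δ) p q x‖ₑ
      ≤ ∫⁻ x, 6 * (κ * ∫⁻ z in ball (0 : E) δ, ‖u (x - z) - b x‖ₑ ^ 2) := lintegral_mono h2
    _ = 6 * (κ * ∫⁻ x, ∫⁻ z in ball (0 : E) δ, ‖u (x - z) - b x‖ₑ ^ 2) := by
        rw [lintegral_const_mul' _ _ (by norm_num), lintegral_const_mul' _ _ ENNReal.ofReal_ne_top]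
    _ ≤ 6 * (κ * (4 * (ENNReal.ofReal (v3 * δ ^ 3) * (ENNReal.ofReal (δ ^ 2) * nG G)))) := by
        gcongr
    _ = (24 * (κ * (ENNReal.ofReal (v3 * δ ^ 3) * ENNReal.ofReal (δ ^ 2)))) * nG G := by ring
    _ = _ := by
        congr 1
        rw [hκ, ← ENNReal.ofReal_mul (by positivity), ← ENNReal.ofReal_mul (by positivity),
          ← ENNReal.ofReal_ofNat 24, ← ENNReal.ofReal_mul (by norm_num)]
        congr 1
        field_simp

end Pool.Agent.R210
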