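import Pool.Agent.R210.Diss

/-!
Fields which are invariant under the rotations about the third axis.
-/

open MeasureTheory Set Metric Filter Topology
open scoped ContDiff
open H459R3.NS

namespace Pool.Agent.R210.Ax

/-- The rotation about the third axis by the angle `θ`. -/
noncomputable def rot (θ : ℝ) (x : V) : V :=
  ![Real.cos θ * x 0 - Real.sin θ * x 1, Real.sin θ * x 0 + Real.cos θ * x 1, x 2]

/-- The rotation as a linear map, with the entries of the matrix. -/
noncomputable def rotm (θ : ℝ) : Fin 3 → Fin 3 → ℝ :=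
  ![![Real.cos θ, -Real.sin θ, 0], ![Real.sin θ, Real.cos θ, 0], ![0, 0, 1]]

theorem rot_apply (θ : ℝ) (x : V) (i : Fin 3) : rot θ x i = ∑ j, rotm θ i j * x j := by
  fin_cases i <;> simp [rot, rotm, Fin.sum_univ_three] <;> ring

/-- The field is axisymmetric. -/
def Eqv (v : V → V) : Prop := ∀ θ x, v (rot θ x) = rot θ (v x)

theorem rot_hasFDerivAt (θ : ℝ) (x : V) : HasFDerivAt (rot θ)
    (ContinuousLinearMap.pi fun i => ∑ j, rotm θ i j • (ContinuousLinearMap.proj j : V →L[ℝ] ℝ)) x := by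
  rw [hasFDerivAt_pi']
  intro i
  have h1 : (fun x => rot θ x i) = fun x : V => ∑ j, rotm θ i j * x j :=
    funext fun x => rot_apply θ x i
  have h2 : HasFDerivAt (fun x : V => ∑ j, rotm θ i j * x j)
      (∑ j, rotm θ i j • (ContinuousLinearMap.proj j : V →L[ℝ] ℝ)) x := by
    refine HasFDerivAt.fun_sum fun j _ => ?_
    exact ((ContinuousLinearMap.proj (R := ℝ) j : V →L[ℝ] ℝ).hasFDerivAt).const_mul _
  have e : (ContinuousLinearMap.proj i).comp
      (ContinuousLinearMap.pi fun i => ∑ j, rotm θ i j • (ContinuousLinearMap.proj j : V →L[ℝ] ℝ))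
      = ∑ j, rotm θ i j • (ContinuousLinearMap.proj j : V →L[ℝ] ℝ) := by
    ext y
    simp
  rw [e]
  exact (show HasFDerivAt (fun x => rot θ x i) _ x by rw [h1]; exact h2)

/-- The chain rule. -/
theorem pd_rot {g : V → ℝ} (hg : Differentiable ℝ g) (θ : ℝ) (j : Fin 3) (x : V) :
    pd j (fun y => g (rot θ y)) x = ∑ k, rotm θ k j * pd k g (rot θ x) := by
  unfold pd
  have h1 := (hg (rot θ x)).hasFDerivAt.comp x (rot_hasFDerivAt θ x)
  have h2 : HasFDerivAt (fun y => g (rot θ y)) _ x := h1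
  rw [h2.fderiv]
  have h3 : (ContinuousLinearMap.pi fun i => ∑ j, rotm θ i j •
      (ContinuousLinearMap.proj j : V →L[ℝ] ℝ)) (Pi.single j 1) = fun k => rotm θ k j := by
    funext k
    simp [Pi.single_apply]
  rw [ContinuousLinearMap.comp_apply, h3]
  have h4 := Pool.Agent.R210.fderiv_eq_sum g (rot θ x) (fun k => rotm θ k j)
  rw [h4]
  rfl

theorem curl_eqv {v : V → V} (hv : ∀ i, ContDiff ℝ ∞ fun x => v x i) (h : Eqv v) : Eqv (cu v) := by
  intro θ x
  have hd : ∀ i, Differentiable ℝ fun x => v x i := fun i => (hv i).differentiable (by norm_num)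
  -- the relations of the derivatives
  have h1 : ∀ i j, ∑ k, rotm θ k j * pd k (fun y => v y i) (rot θ x)
      = ∑ l, rotm θ i l * pd j (fun y => v y l) x := by
    intro i j
    rw [← pd_rot (hd i) θ j x]
    have e : (fun y => v (rot θ y) i) = fun y => ∑ l, rotm θ i l * v y l := by
      funext y
      rw [h θ y, rot_apply]
    rw [show (fun y => (fun y => v y i) (rot θ y)) = fun y => v (rot θ y) i from rfl, e]
    unfold pd
    have h2 : HasFDerivAt (fun y => ∑ l, rotm θ i l * v y l)
        (∑ l, rotm θ i l • fderiv ℝ (fun y => v y l) x) x :=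
      HasFDerivAt.fun_sum fun l _ => ((hd l) x).hasFDerivAt.const_mul _
    rw [h2.fderiv]
    simp
  set c := Real.cos θ with hc
  set s := Real.sin θ with hs
  have hcs : c ^ 2 + s ^ 2 = 1 := Real.cos_sq_add_sin_sq θ
  set N : Fin 3 → Fin 3 → ℝ := fun k i => pd k (fun y => v y i) (rot θ x) with hN
  set M : Fin 3 → Fin 3 → ℝ := fun k i => pd k (fun y => v y i) x with hM
  have r00 : c * N 0 0 + s * N 1 0 = c * M 0 0 - s * M 0 1 := by
    have h2 := h1 0 0
    simp only [Fin.sum_univ_three, rotm] at h2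
    simp [← hc, ← hs] at h2
    simp only [hN, hM]
    linarith
  have r01 : -(s * N 0 0) + c * N 1 0 = c * M 1 0 - s * M 1 1 := by
    have h2 := h1 0 1
    simp only [Fin.sum_univ_three, rotm] at h2
    simp [← hc, ← hs] at h2
    simp only [hN, hM]
    linarith
  have r02 : N 2 0 = c * M 2 0 - s * M 2 1 := by
    have h2 := h1 0 2
    simp only [Fin.sum_univ_three, rotm] at h2
    simp [← hc, ← hs] at h2
    simp only [hN, hM]
    linarith
  have r10 : c * N 0 1 + s * N 1 1 = s * M 0 0 + c * M 0 1 := by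
    have h2 := h1 1 0
    simp only [Fin.sum_univ_three, rotm] at h2
    simp [← hc, ← hs] at h2
    simp only [hN, hM]
    linarith
  have r11 : -(s * N 0 1) + c * N 1 1 = s * M 1 0 + c * M 1 1 := by
    have h2 := h1 1 1
    simp only [Fin.sum_univ_three, rotm] at h2
    simp [← hc, ← hs] at h2
    simp only [hN, hM]
    linarith
  have r12 : N 2 1 = s * M 2 0 + c * M 2 1 := by
    have h2 := h1 1 2
    simp only [Fin.sum_univ_three, rotm] at h2
    simp [← hc, ← hs] at h2
    simp only [hN, hM]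
    linarith
  have r20 : c * N 0 2 + s * N 1 2 = M 0 2 := by
    have h2 := h1 2 0
    simp only [Fin.sum_univ_three, rotm] at h2
    simp [← hc, ← hs] at h2
    simp only [hN, hM]
    linarith
  have r21 : -(s * N 0 2) + c * N 1 2 = M 1 2 := by
    have h2 := h1 2 1
    simp only [Fin.sum_univ_three, rotm] at h2
    simp [← hc, ← hs] at h2
    simp only [hN, hM]
    linarith
  have k12 : N 1 2 = s * M 0 2 + c * M 1 2 := by
    linear_combination s * r20 + c * r21 - N 1 2 * hcs
  have k02 : N 0 2 = c * M 0 2 - s * M 1 2 := by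
    linear_combination c * r20 - s * r21 - N 0 2 * hcs
  have k10 : N 1 0 = s * (c * M 0 0 - s * M 0 1) + c * (c * M 1 0 - s * M 1 1) := by
    linear_combination s * r00 + c * r01 - N 1 0 * hcs
  have k01 : N 0 1 = c * (s * M 0 0 + c * M 0 1) - s * (s * M 1 0 + c * M 1 1) := by
    linear_combination c * r10 - s * r11 - N 0 1 * hcs
  funext i
  fin_cases i
  · show N 1 2 - N 2 1 = c * (M 1 2 - M 2 1) - s * (M 2 0 - M 0 2)
    rw [k12, r12]; ring
  · show N 2 0 - N 0 2 = s * (M 1 2 - M 2 1) + c * (M 2 0 - M 0 2)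
    rw [k02, r02]; ring
  · show N 0 1 - N 1 0 = M 0 1 - M 1 0
    rw [k01, k10]
    linear_combination (M 0 1 - M 1 0) * hcs

/-- The infinitesimal form of the symmetry. -/
theorem Eqv.inf {v : V → V} (hv : ∀ i, ContDiff ℝ ∞ fun x => v x i) (h : Eqv v) (x : V) :
    x 0 * pd 1 (fun y => v y 0) x - x 1 * pd 0 (fun y => v y 0) x = -v x 1 ∧
    x 0 * pd 1 (fun y => v y 1) x - x 1 * pd 0 (fun y => v y 1) x = v x 0 ∧
    x 0 * pd 1 (fun y => v y 2) x - x 1 * pd 0 (fun y => v y 2) x = 0 := by
  have hrot : HasDerivAt (fun θ => rot θ x) (![-x 1, x 0, 0] : V) 0 := by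
    rw [hasDerivAt_pi]
    intro i
    fin_cases i
    · have h1 : HasDerivAt (fun θ : ℝ => Real.cos θ * x 0 - Real.sin θ * x 1)
          (-Real.sin 0 * x 0 - Real.cos 0 * x 1) 0 :=
        ((Real.hasDerivAt_cos 0).mul_const _).sub ((Real.hasDerivAt_sin 0).mul_const _)
      refine (show HasDerivAt (fun θ : ℝ => rot θ x 0) _ 0 from h1).congr_deriv ?_
      simp
    · have h1 : HasDerivAt (fun θ : ℝ => Real.sin θ * x 0 + Real.cos θ * x 1)
          (Real.cos 0 * x 0 + -Real.sin 0 * x 1) 0 :=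
        ((Real.hasDerivAt_sin 0).mul_const _).add ((Real.hasDerivAt_cos 0).mul_const _)
      refine (show HasDerivAt (fun θ : ℝ => rot θ x 1) _ 0 from h1).congr_deriv ?_
      simp
    · exact hasDerivAt_const _ _
  have h0 : rot 0 x = x := by
    funext i
    fin_cases i <;> simp [rot]
  have hd : ∀ i, HasDerivAt (fun θ => v (rot θ x) i)
      (-x 1 * pd 0 (fun y => v y i) x + x 0 * pd 1 (fun y => v y i) x) 0 := by
    intro i
    have h1 : HasFDerivAt (fun y => v y i) (fderiv ℝ (fun y => v y i) (rot 0 x)) (rot 0 x) :=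
      ((hv i).differentiable (by norm_num) _).hasFDerivAt
    have h2 := h1.comp_hasDerivAt (0 : ℝ) hrot
    refine h2.congr_deriv ?_
    rw [h0, Pool.Agent.R210.fderiv_eq_sum]
    simp [Fin.sum_univ_three]
  have hd2 : ∀ i, HasDerivAt (fun θ => v (rot θ x) i) ((![-v x 1, v x 0, 0] : V) i) 0 := by
    intro i
    have e : (fun θ => v (rot θ x) i) = fun θ => rot θ (v x) i := by
      funext θ
      rw [h θ x]
    rw [e]
    fin_cases i
    · have h1 : HasDerivAt (fun θ : ℝ => Real.cos θ * v x 0 - Real.sin θ * v x 1)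
          (-Real.sin 0 * v x 0 - Real.cos 0 * v x 1) 0 :=
        ((Real.hasDerivAt_cos 0).mul_const _).sub ((Real.hasDerivAt_sin 0).mul_const _)
      refine (show HasDerivAt (fun θ : ℝ => rot θ (v x) 0) _ 0 from h1).congr_deriv ?_
      simp
    · have h1 : HasDerivAt (fun θ : ℝ => Real.sin θ * v x 0 + Real.cos θ * v x 1)
          (Real.cos 0 * v x 0 + -Real.sin 0 * v x 1) 0 :=
        ((Real.hasDerivAt_sin 0).mul_const _).add ((Real.hasDerivAt_cos 0).mul_const _)
      refine (show HasDerivAt (fun θ : ℝ => rot θ (v x) 1) _ 0 from h1).congr_deriv ?_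
      simp
    · exact hasDerivAt_const _ _
  have k := fun i => (hd i).unique (hd2 i)
  have k0 := k 0
  have k1 := k 1
  have k2 := k 2
  simp only [Matrix.cons_val_zero, Matrix.cons_val_one, Matrix.cons_val] at k0 k1 k2
  exact ⟨by linarith, by linarith, by linarith⟩

/-- A function which is invariant under the rotations. -/
theorem scalar_inf {g : V → ℝ} (hg : ContDiff ℝ ∞ g) (h : ∀ θ x, g (rot θ x) = g x) (x : V) :
    x 0 * pd 1 g x - x 1 * pd 0 g x = 0 := by
  have h1 := (Eqv.inf (v := fun y => ![0, 0, g y]) (fun i => by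
    fin_cases i
    · exact contDiff_const
    · exact contDiff_const
    · exact hg) (fun θ y => by
      funext i
      fin_cases i
      · simp [rot]
      · simp [rot]
      · show g (rot θ y) = g y
        exact h θ y) x).2.2
  exact h1

/-- The point with the cylindrical coordinates `(r, 0, z)`. -/
def pt (r z : ℝ) : V := ![r, 0, z]

section

variable {v : V → V} (hv : ∀ i, ContDiff ℝ ∞ fun x => v x i) (h : Eqv v) {r : ℝ} (hr : 0 < r)
  (z : ℝ)

include hv h hr

theorem at_pt : pd 1 (fun y => v y 0) (pt r z) = -v (pt r z) 1 / r ∧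
    pd 1 (fun y => v y 1) (pt r z) = v (pt r z) 0 / r ∧ pd 1 (fun y => v y 2) (pt r z) = 0 := by
  obtain ⟨h1, h2, h3⟩ := h.inf hv (pt r z)
  have e0 : pt r z 0 = r := rfl
  have e1 : pt r z 1 = 0 := rfl
  rw [e0, e1, zero_mul, sub_zero] at h1 h2 h3
  refine ⟨?_, ?_, ?_⟩
  · rw [eq_div_iff hr.ne']; linarith
  · rw [eq_div_iff hr.ne']; linarith
  · rcases mul_eq_zero.1 h3 with h4 | h4
    · exact absurd h4 hr.ne'
    · exact h4

/-- The second derivative of the azimuthal component. -/
theorem at_pt2 : pd 1 (pd 1 (fun y => v y 1)) (pt r z)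
    = pd 0 (fun y => v y 1) (pt r z) / r - v (pt r z) 1 / r ^ 2 := by
  have hs : ∀ i, ContDiff ℝ ∞ (pd i fun y => v y 1) := fun i => Pool.Agent.R210.pd_smooth (hv 1) i
  have hd : ∀ i x, HasFDerivAt (pd i fun y => v y 1) (fderiv ℝ (pd i fun y => v y 1) x) x :=
    fun i x => ((hs i).differentiable (by norm_num) x).hasFDerivAt
  have hx : ∀ (i : Fin 3) (x : V), HasFDerivAt (fun y : V => y i)
      (ContinuousLinearMap.proj i : V →L[ℝ] ℝ) x := fun i x =>
    (ContinuousLinearMap.proj (R := ℝ) i : V →L[ℝ] ℝ).hasFDerivAt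
  have e : (fun x : V => x 0 * pd 1 (fun y => v y 1) x - x 1 * pd 0 (fun y => v y 1) x)
      = fun x => v x 0 := funext fun x => (h.inf hv x).2.1
  set X := pt r z with hX
  have h1 := ((hx 0 X).mul (hd 1 X)).sub ((hx 1 X).mul (hd 0 X))
  have h2 := h1
  rw [show ((fun y : V => y 0) * (pd 1 fun y => v y 1) - (fun y : V => y 1) * (pd 0 fun y => v y 1)
      : V → ℝ) = fun x => v x 0 from e] at h2
  have h3 : pd 1 (fun x => v x 0) X = X 0 * pd 1 (pd 1 (fun y => v y 1)) X
      - (X 1 * pd 1 (pd 0 (fun y => v y 1)) X + pd 0 (fun y => v y 1) X) := by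
    show fderiv ℝ (fun x => v x 0) X (Pi.single 1 1) = _
    rw [h2.fderiv]
    simp only [pd]
    simp
  have e0 : X 0 = r := rfl
  have e1 : X 1 = 0 := rfl
  rw [e0, e1, (at_pt hv h hr z).1] at h3
  field_simp
  field_simp at h3
  linarith

end

end Pool.Agent.R210.Ax
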