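import Pool.Agent.R210.X9

/-!
The second criterion for axisymmetric solutions.
-/

open MeasureTheory Set Metric Filter Topology
open scoped ContDiff
open H459R3.NS

namespace Pool.Agent.R210.Ax

variable {ν T E : ℝ} {u : ℝ → V → V} {p : ℝ → V → ℝ} {M : ℝ → ℝ}

/-- A bound of the azimuthal vorticity gives a bound of the velocity. -/
theorem AxSol.vel_le (h : AxSol ν T E u p) (hν : 0 < ν) {B : ℝ} (hB0 : 0 ≤ B)
    (s2 : ∀ t ∈ Ico 0 T, ∀ r, 0 ≤ r → ∀ z, |cu (u t) (pt r z) 1| ≤ B) :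
    ∃ B' : ℝ, ∀ t ∈ Ico 0 T, ∀ x, ‖u t x‖ ≤ B' := by
  have hBB := one_le_BB
  rcases le_or_gt T 0 with hT | hT
  · exact ⟨0, fun t ht => absurd (ht.1.trans_lt ht.2) (not_lt.2 hT)⟩
  set W : ℝ := 16 * BB * B + BB * (8 + E ^ 2) with hW
  have hW0 : 0 ≤ W := by positivity
  have s3 : ∀ t ∈ Ico 0 T, ∀ r, 0 ≤ r → ∀ z, |u t (pt r z) 0| ≤ W ∧ |u t (pt r z) 2| ≤ W :=
    fun t ht r hr z => h.mer ht hB0 hr (fun ρ ζ hρ _ => s2 t ht ρ hρ ζ) z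
  obtain ⟨D, hD0, hD⟩ := h.bdd hT
  set D1 : ℝ := D * Real.exp (W ^ 2 / (4 * ν) * T) with hD1
  have hD10 : 0 ≤ D1 := by positivity
  have s4 : ∀ t ∈ Ico 0 T, ∀ r, 0 ≤ r → ∀ z, |u t (pt r z) 1| ≤ D1 := by
    intro t ht r hr z
    have hin2 : ∀ r, 0 ≤ r → ∀ z, |u 0 (pt r z) 1| ≤ D := fun r _ z =>
      (norm_le_pi_norm (u 0 (pt r z)) 1).trans (hD 0 ⟨le_rfl, le_rfl⟩ _)
    have hq0 : 0 ≤ W ^ 2 / (4 * ν) := by positivity
    have e : D * Real.exp (W ^ 2 / (4 * ν) * t) ≤ D1 :=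
      mul_le_mul_of_nonneg_left (Real.exp_le_exp.2 (mul_le_mul_of_nonneg_left ht.2.le hq0)) hD0
    have h1 := h.step3 hν hD0 (fun t ht r hr z => (s3 t ht r hr.le z).1) hin2 (σ := 1) (by norm_num)
      ht hr z
    have h2 := h.step3 hν hD0 (fun t ht r hr z => (s3 t ht r hr.le z).1) hin2 (σ := -1)
      (by norm_num) ht hr z
    rw [abs_le]
    constructor <;> linarith
  refine ⟨W + D1, fun t ht x => ?_⟩
  obtain ⟨θ, ρ, hρ, -, hx⟩ := polar x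
  have hu : u t x = rot θ (u t (pt ρ (x 2))) := by
    conv_lhs => rw [hx]
    exact h.axi_u t ht θ _
  obtain ⟨b0, b2⟩ := s3 t ht ρ hρ (x 2)
  have b1 := s4 t ht ρ hρ (x 2)
  have hcs := Real.abs_cos_le_one θ
  have hsn := Real.abs_sin_le_one θ
  rw [pi_norm_le_iff_of_nonneg (by positivity)]
  have g : ∀ y z : ℝ, |y| ≤ 1 → |y * z| ≤ |z| := fun y z hy => by
    rw [abs_mul]
    exact mul_le_of_le_one_left (abs_nonneg _) hy
  intro i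
  rw [hu, Real.norm_eq_abs]
  fin_cases i
  · show |Real.cos θ * u t (pt ρ (x 2)) 0 - Real.sin θ * u t (pt ρ (x 2)) 1| ≤ _
    refine (abs_sub _ _).trans ?_
    linarith [g _ (u t (pt ρ (x 2)) 0) hcs, g _ (u t (pt ρ (x 2)) 1) hsn]
  · show |Real.sin θ * u t (pt ρ (x 2)) 0 + Real.cos θ * u t (pt ρ (x 2)) 1| ≤ _
    refine (abs_add_le _ _).trans ?_
    linarith [g _ (u t (pt ρ (x 2)) 0) hsn, g _ (u t (pt ρ (x 2)) 1) hcs]
  · show |u t (pt ρ (x 2)) 2| ≤ _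
    linarith

/-- The second criterion. -/
theorem AxSol.criterionB (h : AxSol ν T E u p) (hν : 0 < ν) {η G K : ℝ} (hη : 0 < η) (hG0 : 0 < G)
    (hG : ∀ r, 0 ≤ r → ∀ z, |r * u 0 (pt r z) 1| ≤ G)
    (hM0 : ∀ t ∈ Ioo 0 T, 0 ≤ M t) (hMc : ContinuousOn M (Ico 0 T)) (hMi : IntegrableOn M (Ioo 0 T))
    (hc : ∀ t ∈ Ioo 0 T, CondB ν η G K (M t) (u t)) :
    ∃ B : ℝ, ∀ t ∈ Ico 0 T, ∀ x, ‖u t x‖ ≤ B := by
  rcases le_or_gt T 0 with hT | hT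
  · exact ⟨0, fun t ht => absurd (ht.1.trans_lt ht.2) (not_lt.2 hT)⟩
  obtain ⟨hId, hIc, hIb⟩ := II_props hM0 hMc hMi
  set I1 : ℝ := ∫ s in Ioo 0 T, M s with hI1
  obtain ⟨A0, hA00, hA0⟩ := h.init hT
  set A : ℝ := max (max A0 K) 1 with hA
  have hA1 : 0 < A := zero_lt_one.trans_le (le_max_right _ _)
  have hKA : K ≤ A := (le_max_right _ _).trans (le_max_left _ _)
  have hAA : A0 ≤ A := (le_max_left _ _).trans (le_max_left _ _)
  have hin : ∀ r, 0 ≤ r → ∀ z, |cu (u 0) (pt r z) 1| ≤ A := fun r hr z => (hA0 r hr z).2.trans hAA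
  refine h.vel_le hν (B := A * Real.exp I1 * (1 + η)) (by positivity) fun t ht r hr z => ?_
  have e : A * Real.exp (II M t) * (1 + η) ≤ A * Real.exp I1 * (1 + η) := by
    refine mul_le_mul_of_nonneg_right ?_ (by positivity)
    exact mul_le_mul_of_nonneg_left (Real.exp_le_exp.2 (hIb t ht).2) hA1.le
  have h1 := h.stepB hν hη hG0 hG hM0 hMc hMi hc hA1 hKA hin (σ := 1) (by norm_num) ht hr z
  have h2 := h.stepB hν hη hG0 hG hM0 hMc hMi hc hA1 hKA hin (σ := -1) (by norm_num) ht hr z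
  rw [abs_le]
  constructor <;> linarith

end Pool.Agent.R210.Ax
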