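import Pool.Agent.R210.X10

/-!
The weighted form of the second criterion for axisymmetric solutions: the maximum principle with
the derivatives as data, and the algebra at a maximum.
-/

open MeasureTheory Set Metric Filter Topology
open scoped ContDiff
open H459R3.NS

namespace Pool.Agent.R210.Ax

/-- The maximum principle in the half plane, with the derivatives as data. -/
theorem max_pr3 {S C : ℝ} {f ft fr frr fz fzz : ℝ → ℝ → ℝ → ℝ}
    (hf : ContinuousOn (fun q : ℝ × ℝ × ℝ => f q.1 q.2.1 q.2.2) (Icc 0 S ×ˢ (Ici 0 ×ˢ univ)))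
    (hdec : ∀ ε > 0, ∃ R : ℝ, ∀ t ∈ Icc 0 S, ∀ r, 0 ≤ r → ∀ z, R ≤ ‖pt r z‖ → f t r z ≤ ε)
    (hax : ∀ t ∈ Icc 0 S, ∀ z, f t 0 z ≤ 0)
    (hin : ∀ r, 0 ≤ r → ∀ z, f 0 r z ≤ 0)
    (hfr : ∀ t ∈ Ioc 0 S, ∀ r, 0 < r → ∀ z, HasDerivAt (fun r => f t r z) (fr t r z) r)
    (hfrr : ∀ t ∈ Ioc 0 S, ∀ r, 0 < r → ∀ z, HasDerivAt (fun r => fr t r z) (frr t r z) r)
    (hfz : ∀ t ∈ Ioc 0 S, ∀ r, 0 < r → ∀ z, HasDerivAt (fun z => f t r z) (fz t r z) z)
    (hfzz : ∀ t ∈ Ioc 0 S, ∀ r, 0 < r → ∀ z, HasDerivAt (fun z => fz t r z) (fzz t r z) z)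
    (hft : ∀ t ∈ Ioc 0 S, ∀ r, 0 < r → ∀ z, HasDerivAt (fun s => f s r z) (ft t r z) t)
    (key : ∀ t ∈ Ioc 0 S, ∀ r, 0 < r → ∀ z, 0 < f t r z → fr t r z = 0 → fz t r z = 0 →
      frr t r z ≤ 0 → fzz t r z ≤ 0 → ft t r z ≤ C * f t r z) :
    ∀ t ∈ Icc 0 S, ∀ r, 0 ≤ r → ∀ z, f t r z ≤ 0 := by
  intro t1 ht1 r1 hr1 z1
  by_contra hcon
  push Not at hcon
  set L : ℝ := |C| + 1 with hL
  have hL0 : 0 ≤ L := by positivity
  set Φ : ℝ × ℝ × ℝ → ℝ := fun q => Real.exp (-(L * q.1)) * f q.1 q.2.1 q.2.2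
    with hΦ
  set m : ℝ := Φ (t1, r1, z1) with hm
  have hm0 : 0 < m := mul_pos (Real.exp_pos _) hcon
  obtain ⟨R, hR⟩ := hdec (m / 2) (by positivity)
  set R' : ℝ := max R (max |r1| |z1|) + 1 with hR'
  have hRR' : R ≤ R' := by
    have := le_max_left R (max |r1| |z1|)
    linarith
  have hr1R : |r1| ≤ R' := by
    have h2 := le_max_right R (max |r1| |z1|)
    have h3 := le_max_left |r1| |z1|
    linarith
  have hz1R : |z1| ≤ R' := by
    have h2 := le_max_right R (max |r1| |z1|)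
    have h3 := le_max_right |r1| |z1|
    linarith
  set K : Set (ℝ × ℝ × ℝ) := Icc 0 S ×ˢ (Icc 0 R' ×ˢ Icc (-R') R') with hK
  have hKc : IsCompact K := isCompact_Icc.prod (isCompact_Icc.prod isCompact_Icc)
  have hΦc : ContinuousOn Φ K := by
    have c1 : ContinuousOn (fun q : ℝ × ℝ × ℝ => f q.1 q.2.1 q.2.2) K :=
      hf.mono fun q hq => ⟨hq.1, hq.2.1.1, mem_univ _⟩
    have c4 : Continuous fun q : ℝ × ℝ × ℝ => Real.exp (-(L * q.1)) := by fun_prop
    exact c4.continuousOn.mul c1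
  have hp1 : (t1, r1, z1) ∈ K := by
    refine ⟨ht1, ⟨hr1, (le_abs_self _).trans hr1R⟩, ?_, (le_abs_self _).trans hz1R⟩
    exact (abs_le.1 hz1R).1
  obtain ⟨⟨t0, r0, z0⟩, hp0, hmax0⟩ := hKc.exists_isMaxOn ⟨_, hp1⟩ hΦc
  have hm1 : m ≤ Φ (t0, r0, z0) := hmax0 hp1
  have hall : ∀ t ∈ Icc 0 S, ∀ r, 0 ≤ r → ∀ z, Φ (t, r, z) ≤ Φ (t0, r0, z0) := by
    intro t ht r hr z
    by_cases hin : (t, r, z) ∈ K
    · exact hmax0 hin
    · have hbig : R' ≤ ‖pt r z‖ := by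
        by_contra hlt
        push Not at hlt
        obtain ⟨n1, n2⟩ := le_norm_pt r z
        exact hin ⟨ht, ⟨hr, ((le_abs_self _).trans n1).trans hlt.le⟩,
          (abs_le.1 (n2.trans hlt.le)).1, (abs_le.1 (n2.trans hlt.le)).2⟩
      have h3 := hR t ht r hr z (hRR'.trans hbig)
      have h5 : Real.exp (-(L * t)) ≤ 1 := Real.exp_le_one_iff.2 (by
        have := mul_nonneg hL0 ht.1
        linarith)
      have h6 : Φ (t, r, z) ≤ m / 2 := by
        show Real.exp (-(L * t)) * f t r z ≤ m / 2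
        calc Real.exp (-(L * t)) * f t r z ≤ Real.exp (-(L * t)) * (m / 2) :=
              mul_le_mul_of_nonneg_left h3 (Real.exp_pos _).le
          _ ≤ 1 * (m / 2) := mul_le_mul_of_nonneg_right h5 (by positivity)
          _ = m / 2 := one_mul _
      linarith
  have ht0 : t0 ∈ Icc 0 S := hp0.1
  have hr0 : 0 ≤ r0 := hp0.2.1.1
  have hpos : 0 < f t0 r0 z0 := by
    have h3 : 0 < Real.exp (-(L * t0)) * f t0 r0 z0 := lt_of_lt_of_le hm0 hm1
    exact (mul_pos_iff_of_pos_left (Real.exp_pos _)).1 h3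
  have hr0' : 0 < r0 := by
    rcases hr0.eq_or_lt with h3 | h3
    · exfalso
      rw [← h3] at hpos
      linarith [hax t0 ht0 z0]
    · exact h3
  have ht0' : 0 < t0 := by
    rcases ht0.1.eq_or_lt with h3 | h3
    · exfalso
      rw [← h3] at hpos
      linarith [hin r0 hr0 z0]
    · exact h3
  have hI : t0 ∈ Ioc 0 S := ⟨ht0', ht0.2⟩
  -- time
  have d1 : HasDerivAt (fun s => Real.exp (-(L * s)) * f s r0 z0)
      (Real.exp (-(L * t0)) * -L * f t0 r0 z0 + Real.exp (-(L * t0)) * ft t0 r0 z0) t0 := by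
    have e1 : HasDerivAt (fun s : ℝ => -(L * s)) (-L) t0 := by
      have e2 := ((hasDerivAt_id' t0).const_mul L).neg
      rw [mul_one] at e2
      exact e2
    exact e1.exp.mul (hft t0 hI r0 hr0' z0)
  have h7 := left_test d1 ht0' fun s hs => hall s ⟨hs.1.le, hs.2.le.trans ht0.2⟩ r0 hr0 z0
  have h8 : L * f t0 r0 z0 ≤ ft t0 r0 z0 := by
    have e := Real.exp_pos (-(L * t0))
    have h9 : 0 ≤ Real.exp (-(L * t0)) * (ft t0 r0 z0 - L * f t0 r0 z0) := by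
      calc (0 : ℝ) ≤ _ := h7
        _ = _ := by ring
    have := nonneg_of_mul_nonneg_right h9 e
    linarith
  -- space
  have hcmp : ∀ r, 0 ≤ r → ∀ z, f t0 r z ≤ f t0 r0 z0 := by
    intro r hr z
    have h3 := hall t0 ht0 r hr z
    exact le_of_mul_le_mul_left h3 (Real.exp_pos (-(L * t0)))
  have s1 := snd_test (φ := fun r => f t0 r z0) (φ' := fun r => fr t0 r z0) (r := r0)
    (a := frr t0 r0 z0)
    (by
      filter_upwards [Ioi_mem_nhds hr0'] with s hs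
      exact hfr t0 hI s hs z0)
    (hfrr t0 hI r0 hr0' z0)
    (by
      filter_upwards [Ioi_mem_nhds hr0'] with s hs
      exact hcmp s (le_of_lt hs) z0)
  have s2 := snd_test (φ := fun z => f t0 r0 z) (φ' := fun z => fz t0 r0 z) (r := z0)
    (a := fzz t0 r0 z0)
    (Filter.Eventually.of_forall fun s => hfz t0 hI r0 hr0' s)
    (hfzz t0 hI r0 hr0' z0)
    (Filter.Eventually.of_forall fun s => hcmp r0 hr0 s)
  have h10 := key t0 hI r0 hr0' z0 hpos s1.1 s2.1 s1.2 s2.2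
  have h11 : C * f t0 r0 z0 < L * f t0 r0 z0 := by
    refine mul_lt_mul_of_pos_right ?_ hpos
    have := le_abs_self C
    linarith
  linarith

/-- The algebra at a maximum. -/
theorem engine {ν r f fr fz frr fzz g gr gz grr gzz v0 v2 b α q η m σ : ℝ} (hν : 0 < ν) (hr : 0 < r)
    (hb : 0 < b) (hq : 0 < q) (hqg : q * (g * g) ≤ η)
    (h1 : fr + b * (α / r * (q * (g * g) - (1 + η)) + q * (2 * (g * gr))) = 0)
    (h2 : fz + b * (q * (2 * (g * gz))) = 0)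
    (h3 : frr + b * (α * (α - 1) / r ^ 2 * (q * (g * g) - (1 + η))
      + 2 * (α / r) * (q * (2 * (g * gr))) + q * (2 * (g * grr + gr * gr))) ≤ 0)
    (h4 : fzz + b * (q * (2 * (g * gzz + gz * gz))) ≤ 0)
    (hbf : b ≤ f) (hη : 0 < η) :
    ν * (frr + fzz + fr / r - f / r ^ 2) - v0 * fr - v2 * fz + v0 / r * f + 2 * σ * g * gz / r ^ 3
      + m * b * (q * (g * g) - (1 + η))
      + b * (q * (2 * (g * (ν * (grr + gzz - gr / r) - v0 * gr - v2 * gz))))
    ≤ f * ((1 - α) * (v0 / r) - ν * (1 - α ^ 2) / r ^ 2 + 2 * ν * η * (1 + α) ^ 2 / r ^ 2 - m)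
      + (-(2 * ν * (b * q) * gz ^ 2) + 2 * σ * g * gz / r ^ 3)
      + (f + b * (q * (g * g) - (1 + η))) * (m + α * (v0 / r) - ν * α ^ 2 / r ^ 2) := by
  have hfr : fr = -(b * (α / r * (q * (g * g) - (1 + η)) + q * (2 * (g * gr)))) := by linarith
  have hfz : fz = -(b * (q * (2 * (g * gz)))) := by linarith
  have k1 : ν * (frr + b * (α * (α - 1) / r ^ 2 * (q * (g * g) - (1 + η))
      + 2 * (α / r) * (q * (2 * (g * gr))) + q * (2 * (g * grr + gr * gr)))) ≤ 0 :=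
    mul_nonpos_of_nonneg_of_nonpos hν.le h3
  have k2 : ν * (fzz + b * (q * (2 * (g * gzz + gz * gz)))) ≤ 0 :=
    mul_nonpos_of_nonneg_of_nonpos hν.le h4
  have k3 : 0 ≤ 2 * ν * (b * q) * (gr + (1 + α) * g / r) ^ 2 := by positivity
  have k4 : 2 * ν * (b * (q * (g * g))) * (1 + α) ^ 2 / r ^ 2
      ≤ 2 * ν * (f * η) * (1 + α) ^ 2 / r ^ 2 := by
    refine div_le_div_of_nonneg_right ?_ (by positivity)
    refine mul_le_mul_of_nonneg_right ?_ (by positivity)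
    have e4 : b * (q * (g * g)) ≤ b * η := mul_le_mul_of_nonneg_left hqg hb.le
    have e5 : b * η ≤ f * η := mul_le_mul_of_nonneg_right hbf hη.le
    nlinarith
  have e : ν * (frr + fzz + fr / r - f / r ^ 2) - v0 * fr - v2 * fz + v0 / r * f
      + 2 * σ * g * gz / r ^ 3 + m * b * (q * (g * g) - (1 + η))
      + b * (q * (2 * (g * (ν * (grr + gzz - gr / r) - v0 * gr - v2 * gz))))
      = ν * (frr + b * (α * (α - 1) / r ^ 2 * (q * (g * g) - (1 + η))
          + 2 * (α / r) * (q * (2 * (g * gr))) + q * (2 * (g * grr + gr * gr))))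
        + ν * (fzz + b * (q * (2 * (g * gzz + gz * gz))))
        - 2 * ν * (b * q) * (gr + (1 + α) * g / r) ^ 2
        + 2 * ν * (b * (q * (g * g))) * (1 + α) ^ 2 / r ^ 2
        + f * ((1 - α) * (v0 / r) - ν * (1 - α ^ 2) / r ^ 2 - m)
        + (-(2 * ν * (b * q) * gz ^ 2) + 2 * σ * g * gz / r ^ 3)
        + (f + b * (q * (g * g) - (1 + η))) * (m + α * (v0 / r) - ν * α ^ 2 / r ^ 2) := by
    rw [hfr, hfz]
    field_simp
    ring
  rw [e]
  have e6 : f * ((1 - α) * (v0 / r) - ν * (1 - α ^ 2) / r ^ 2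
      + 2 * ν * η * (1 + α) ^ 2 / r ^ 2 - m)
      = f * ((1 - α) * (v0 / r) - ν * (1 - α ^ 2) / r ^ 2 - m)
        + 2 * ν * (f * η) * (1 + α) ^ 2 / r ^ 2 := by ring
  rw [e6]
  linarith

/-- The source and the diffusion of the square of the circulation. -/
theorem cross {ν r f g gz b q η σ G F : ℝ} (hν : 0 < ν) (hr : 0 < r) (hη : 0 < η) (hG : 0 < G)
    (hb : 0 < b) (hf : 0 < f) (hq : q = η / G ^ 2) (hσ : σ ^ 2 = 1) (hfF : f ≤ F + b * (1 + η)) :
    -(2 * ν * (b * q) * gz ^ 2) + 2 * σ * g * gz / r ^ 3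
      ≤ (1 + η) * G ^ 2 * g ^ 2 / (2 * ν * η * r ^ 6 * f)
        + G ^ 2 * g ^ 2 / (2 * ν * η * r ^ 6 * (b * f)) * F := by
  have hq0 : 0 < q := by rw [hq]; positivity
  have e1 : -(2 * ν * (b * q) * gz ^ 2) + 2 * σ * g * gz / r ^ 3
      ≤ G ^ 2 * g ^ 2 / (2 * ν * η * r ^ 6 * b) := by
    have e2 : G ^ 2 * g ^ 2 / (2 * ν * η * r ^ 6 * b) = g ^ 2 / (2 * ν * (b * q) * r ^ 6) := by
      rw [hq]; field_simp
    rw [e2]
    have e3 : g ^ 2 / (2 * ν * (b * q) * r ^ 6)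
        - (-(2 * ν * (b * q) * gz ^ 2) + 2 * σ * g * gz / r ^ 3)
        = (2 * ν * (b * q) * r ^ 3 * gz - σ * g) ^ 2 / (2 * ν * (b * q) * r ^ 6) := by
      have e4 : (2 * ν * (b * q) * r ^ 3 * gz - σ * g) ^ 2
          = (2 * ν * (b * q) * r ^ 3 * gz) ^ 2 - 4 * ν * (b * q) * r ^ 3 * gz * (σ * g)
            + g ^ 2 := by
        linear_combination (g ^ 2) * hσ
      rw [e4]
      field_simp
      ring
    have e5 : 0 ≤ (2 * ν * (b * q) * r ^ 3 * gz - σ * g) ^ 2 / (2 * ν * (b * q) * r ^ 6) := by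
      positivity
    linarith
  have e7 : (1 + η) * G ^ 2 * g ^ 2 / (2 * ν * η * r ^ 6 * f)
      + G ^ 2 * g ^ 2 / (2 * ν * η * r ^ 6 * (b * f)) * F
      - G ^ 2 * g ^ 2 / (2 * ν * η * r ^ 6 * b)
      = G ^ 2 * g ^ 2 / (2 * ν * η * r ^ 6 * (b * f)) * (F + b * (1 + η) - f) := by
    field_simp
    ring
  have e8 : 0 ≤ G ^ 2 * g ^ 2 / (2 * ν * η * r ^ 6 * (b * f)) * (F + b * (1 + η) - f) :=
    mul_nonneg (by positivity) (by linarith)
  linarith

/-- The two cases of the condition. -/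
theorem casesC {ν η G r v0 g gz f σ M c N : ℝ} (hν : 0 < ν) (hη : 0 < η) (hr : 0 < r) (hf : 0 < f)
    (hσ : σ ^ 2 = 1)
    (hyp : c * (r * v0) + min (-(2 * g * (-(gz / r) / (σ * f))))
      ((1 + η) / (2 * η * ν) * (G * (g / r) / (r * (σ * f))) ^ 2) ≤ N + M * r ^ 2) :
    (c * (v0 / r) * f + 2 * σ * g * gz / r ^ 3 ≤ (N / r ^ 2 + M) * f) ∨
    (c * (v0 / r) * f + (1 + η) * G ^ 2 * g ^ 2 / (2 * ν * η * r ^ 6 * f)
      ≤ (N / r ^ 2 + M) * f) := by
  have hσ0 : σ ≠ 0 := by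
    intro h0
    rw [h0] at hσ
    norm_num at hσ
  have e2 : (N / r ^ 2 + M) * f = f / r ^ 2 * (N + M * r ^ 2) := by
    field_simp
  rw [e2]
  rcases min_choice (-(2 * g * (-(gz / r) / (σ * f))))
      ((1 + η) / (2 * η * ν) * (G * (g / r) / (r * (σ * f))) ^ 2) with hm | hm
  · left
    rw [hm] at hyp
    have e1 : c * (v0 / r) * f + 2 * σ * g * gz / r ^ 3
        = f / r ^ 2 * (c * (r * v0) + -(2 * g * (-(gz / r) / (σ * f)))) := by
      field_simp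
      linear_combination (2 * g * gz) * hσ
    rw [e1]
    exact mul_le_mul_of_nonneg_left hyp (by positivity)
  · right
    rw [hm] at hyp
    have e1 : c * (v0 / r) * f + (1 + η) * G ^ 2 * g ^ 2 / (2 * ν * η * r ^ 6 * f)
        = f / r ^ 2 * (c * (r * v0)
          + (1 + η) / (2 * η * ν) * (G * (g / r) / (r * (σ * f))) ^ 2) := by
      have e3 : (G * (g / r) / (r * (σ * f))) ^ 2 = G ^ 2 * g ^ 2 / (r ^ 4 * f ^ 2) := by
        rw [div_pow, mul_pow, mul_pow, mul_pow, hσ]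
        field_simp
      rw [e3]
      field_simp
    rw [e1]
    exact mul_le_mul_of_nonneg_left hyp (by positivity)

end Pool.Agent.R210.Ax
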