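import Pool.Agent.R210.X1

/-!
Axisymmetric solutions of the Navier-Stokes equations in the whole space: the equations for the
azimuthal components of the velocity and of the vorticity.
-/

open MeasureTheory Set Metric Filter Topology
open scoped ContDiff
open H459R3.NS

namespace Pool.Agent.R210.Ax

/-- `(u, p)` is a smooth axisymmetric solution of the Navier-Stokes equations on `[0, T) × ℝ³` with
viscosity `ν`, without force, with `∫ |u|² ≤ E²`; the velocity and its gradient tend to zero at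
infinity, uniformly on `[0, S]` for `S < T`, and the second derivatives of `u(0)` are bounded. -/
structure AxSol (ν T E : ℝ) (u : ℝ → V → V) (p : ℝ → V → ℝ) : Prop where
  smooth_u : ContDiffOn ℝ ∞ (fun z : ℝ × V => u z.1 z.2) (Ico 0 T ×ˢ univ)
  smooth_p : ContDiffOn ℝ ∞ (fun z : ℝ × V => p z.1 z.2) (Ico 0 T ×ˢ univ)
  divfree : ∀ t ∈ Ico 0 T, ∀ x, ∑ i, pd i (fun y => u t y i) x = 0
  momentum : ∀ t ∈ Ioo 0 T, ∀ x i,
    deriv (fun s => u s x i) t + ∑ j, u t x j * pd j (fun y => u t y i) x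
      = ν * ∑ j, pd j (pd j (fun y => u t y i)) x - pd i (p t) x
  axi_u : ∀ t ∈ Ico 0 T, ∀ θ x, u t (rot θ x) = rot θ (u t x)
  axi_p : ∀ t ∈ Ico 0 T, ∀ θ x, p t (rot θ x) = p t x
  en_int : ∀ t ∈ Ico 0 T, Integrable fun x => ∑ i, u t x i ^ 2
  en : ∀ t ∈ Ico 0 T, ∫ x, ∑ i, u t x i ^ 2 ≤ E ^ 2
  decay : ∀ S < T, ∀ ε > 0, ∃ R : ℝ, ∀ t ∈ Icc 0 S, ∀ x, R ≤ ‖x‖ →
    ‖u t x‖ ≤ ε ∧ ‖fderiv ℝ (u t) x‖ ≤ ε
  data : ∃ C : ℝ, ∀ i j k x, |pd i (pd j (fun y => u 0 y k)) x| ≤ C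

/-! ### Smooth functions -/

abbrev Sm (f : V → ℝ) : Prop := ContDiff ℝ ∞ f

theorem Sm.d {f : V → ℝ} (hf : Sm f) (x : V) : DifferentiableAt ℝ f x :=
  hf.differentiable (by norm_num) x

theorem Sm.pd' {f : V → ℝ} (hf : Sm f) (i : Fin 3) : Sm (pd i f) := Pool.Agent.R210.pd_smooth hf i

theorem s_sub {f g : V → ℝ} (hf : Sm f) (hg : Sm g) (i : Fin 3) (x : V) :
    pd i (fun y => f y - g y) x = pd i f x - pd i g x := by
  unfold pd
  have h := fderiv_fun_sub (𝕜 := ℝ) (hf.d x) (hg.d x)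
  rw [h]; rfl

theorem s_cmul (a : ℝ) {f : V → ℝ} (hf : Sm f) (i : Fin 3) (x : V) :
    pd i (fun y => a * f y) x = a * pd i f x := by
  unfold pd
  have h : HasFDerivAt (fun y => a * f y) _ x := (hf.d x).hasFDerivAt.const_mul a
  rw [h.fderiv]
  simp

theorem s_mul {f g : V → ℝ} (hf : Sm f) (hg : Sm g) (j : Fin 3) (x : V) :
    pd j (fun y => f y * g y) x = f x * pd j g x + pd j f x * g x := by
  unfold pd
  have h : HasFDerivAt (fun y => f y * g y) _ x := (hf.d x).hasFDerivAt.mul (hg.d x).hasFDerivAt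
  rw [h.fderiv]
  simp only [ContinuousLinearMap.add_apply, smul_apply, smul_eq_mul]
  ring

theorem s_sum {ι : Type*} {s : Finset ι} {f : ι → V → ℝ} (hf : ∀ i ∈ s, Sm (f i)) (j : Fin 3)
    (x : V) : pd j (fun y => ∑ i ∈ s, f i y) x = ∑ i ∈ s, pd j (f i) x := by
  unfold pd
  have h : HasFDerivAt (fun y => ∑ i ∈ s, f i y) _ x :=
    HasFDerivAt.fun_sum fun i hi => ((hf i hi).d x).hasFDerivAt
  rw [h.fderiv]
  simp

theorem s_comm {f : V → ℝ} (hf : Sm f) (i j : Fin 3) : pd i (pd j f) = pd j (pd i f) := by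
  funext x
  have h2 : ContDiff ℝ 2 f := hf.of_le (by norm_cast)
  have hs : IsSymmSndFDerivAt ℝ f x := h2.contDiffAt.isSymmSndFDerivAt (by simp)
  have hd : DifferentiableAt ℝ (fderiv ℝ f) x :=
    ((h2.fderiv_right (m := 1) (by norm_num)).differentiable one_ne_zero) x
  have e : ∀ a b : Fin 3, pd a (pd b f) x
      = fderiv ℝ (fderiv ℝ f) x (Pi.single a 1) (Pi.single b 1) := by
    intro a b
    unfold pd
    have h3 : HasFDerivAt (fun y => fderiv ℝ f y (Pi.single b 1)) _ x :=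
      hd.hasFDerivAt.clm_apply (hasFDerivAt_const (Pi.single b (1 : ℝ) : V) x)
    rw [h3.fderiv]
    simp
  rw [e, e]
  exact hs _ _

theorem Sm.lap' {f : V → ℝ} (hf : Sm f) : Sm (lap f) :=
  ContDiff.sum fun j _ => (hf.pd' j).pd' j

theorem s_lap_pd {f : V → ℝ} (hf : Sm f) (i : Fin 3) : lap (pd i f) = pd i (lap f) := by
  funext x
  have h1 : pd i (lap f) x = ∑ j, pd i (pd j (pd j f)) x := by
    unfold lap
    exact s_sum (fun j _ => (hf.pd' j).pd' j) i x
  rw [h1]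
  unfold lap
  refine Finset.sum_congr rfl fun j _ => ?_
  rw [s_comm hf j i, s_comm (hf.pd' j) j i]

theorem s_lap_sub {f g : V → ℝ} (hf : Sm f) (hg : Sm g) (x : V) :
    lap (fun y => f y - g y) x = lap f x - lap g x := by
  unfold lap
  rw [← Finset.sum_sub_distrib]
  refine Finset.sum_congr rfl fun j _ => ?_
  have : pd j (fun y => f y - g y) = fun y => pd j f y - pd j g y :=
    funext fun y => s_sub hf hg j y
  rw [this, s_sub (hf.pd' j) (hg.pd' j)]

section

variable {ν T E : ℝ} {u : ℝ → V → V} {p : ℝ → V → ℝ}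

theorem AxSol.smooth_c (h : AxSol ν T E u p) (i : Fin 3) :
    ContDiffOn ℝ ∞ (fun z : ℝ × V => u z.1 z.2 i) (Ico 0 T ×ˢ univ) :=
  (contDiff_apply ℝ ℝ i).comp_contDiffOn h.smooth_u

theorem AxSol.sm (h : AxSol ν T E u p) {t : ℝ} (ht : t ∈ Ico 0 T) (i : Fin 3) :
    Sm fun x => u t x i := contDiff_slice (f := fun s y => u s y i) (h.smooth_c i) ht

theorem AxSol.sm_p (h : AxSol ν T E u p) {t : ℝ} (ht : t ∈ Ico 0 T) : Sm (p t) :=
  contDiff_slice (f := p) h.smooth_p ht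

theorem AxSol.sm_cu (h : AxSol ν T E u p) {t : ℝ} (ht : t ∈ Ico 0 T) (i : Fin 3) :
    Sm fun x => cu (u t) x i := by
  rw [cu_fun]
  exact ((h.sm ht _).pd' _).sub ((h.sm ht _).pd' _)

theorem AxSol.smooth_cu (h : AxSol ν T E u p) (i : Fin 3) :
    ContDiffOn ℝ ∞ (fun z : ℝ × V => cu (u z.1) z.2 i) (Ico 0 T ×ˢ univ) := by
  have e : (fun z : ℝ × V => cu (u z.1) z.2 i)
      = fun z : ℝ × V => pd (ia i) (fun y => u z.1 y (ib i)) z.2
        - pd (ib i) (fun y => u z.1 y (ia i)) z.2 := by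
    funext z
    exact cu_ab _ _ _
  rw [e]
  exact (contDiffOn_pd (f := fun s y => u s y (ib i)) (h.smooth_c _) _).sub
    (contDiffOn_pd (f := fun s y => u s y (ia i)) (h.smooth_c _) _)

theorem AxSol.hasDerivAt_pd (h : AxSol ν T E u p) {t : ℝ} (ht : t ∈ Ioo 0 T) (a b : Fin 3) (x : V) :
    HasDerivAt (fun s => pd a (fun y => u s y b) x)
      (ν * lap (pd a (fun y => u t y b)) x
        - (∑ j, (u t x j * pd j (pd a (fun y => u t y b)) x
          + pd a (fun y => u t y j) x * pd j (fun y => u t y b) x))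
        - pd a (pd b (p t)) x) t := by
  have hI : t ∈ Ico 0 T := ⟨ht.1.le, ht.2⟩
  set v : Fin 3 → V → ℝ := fun i y => u t y i with hv
  have hsp : ∀ i, Sm (v i) := fun i => h.sm hI i
  have hG : ContDiffOn ℝ ∞ (fun z : ℝ × V => pd a (fun y => u z.1 y b) z.2)
      (Ico 0 T ×ˢ univ) := contDiffOn_pd (f := fun s y => u s y b) (h.smooth_c b) a
  have hG1 : ContDiffOn ℝ 1 (fun z : ℝ × V => pd a (fun y => u z.1 y b) z.2)
      (Ioo 0 T ×ˢ univ) :=
    mono_Ioo (f := fun s x => pd a (fun y => u s y b) x) hG (by norm_cast)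
  have h3 := hasDerivAt_slice (F := fun s x => pd a (fun y => u s y b) x) hG1 ht x
  have h4 := dt_pd (f := fun s y => u s y b) (h.smooth_c b) ht a x
  rw [H459R3.NS.dt_eq (f := fun s => pd a (fun y => u s y b)) hG ht x] at h4
  rw [h4] at h3
  refine h3.congr_deriv ?_
  have e1 : dt (fun s y => u s y b) t
      = fun x => ν * lap (v b) x - (∑ j, v j x * pd j (v b) x) - pd b (p t) x := by
    funext y
    have h5 := h.momentum t ht y b
    have h6 : dt (fun s y => u s y b) t y = deriv (fun s => u s y b) t := rfl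
    rw [h6]
    have h8 : lap (v b) y = ∑ j, pd j (pd j (fun y => u t y b)) y := rfl
    rw [h8]
    linarith
  rw [e1]
  have s1 : Sm (fun x => ν * lap (v b) x) := contDiff_const.mul (hsp b).lap'
  have s2 : Sm (fun x => ∑ j, v j x * pd j (v b) x) :=
    ContDiff.sum fun j _ => (hsp j).mul ((hsp b).pd' j)
  have s3 : Sm (pd b (p t)) := (h.sm_p hI).pd' b
  rw [s_sub (s1.sub s2) s3, s_sub s1 s2, s_cmul ν (hsp b).lap']
  have e2 : pd a (lap (v b)) x = lap (pd a (v b)) x := by rw [s_lap_pd (hsp b)]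
  have e3 : pd a (fun x => ∑ j, v j x * pd j (v b) x) x
      = ∑ j, (v j x * pd j (pd a (v b)) x + pd a (v j) x * pd j (v b) x) := by
    rw [s_sum (fun j _ => (hsp j).mul ((hsp b).pd' j)) a x]
    refine Finset.sum_congr rfl fun j _ => ?_
    rw [s_mul (hsp j) ((hsp b).pd' j), s_comm (hsp b) a j]
  rw [e2, e3]

/-- The equation for the azimuthal component of the vorticity, in Cartesian form. -/
theorem AxSol.vort1 (h : AxSol ν T E u p) {t : ℝ} (ht : t ∈ Ioo 0 T) (x : V) :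
    HasDerivAt (fun s => cu (u s) x 1)
      (ν * lap (fun y => cu (u t) y 1) x - (∑ j, u t x j * pd j (fun y => cu (u t) y 1) x)
        + (∑ j, cu (u t) x j * pd j (fun y => u t y 1) x)) t := by
  have hI : t ∈ Ico 0 T := ⟨ht.1.le, ht.2⟩
  have hsp : ∀ i, Sm (fun y => u t y i) := fun i => h.sm hI i
  have hdiv := h.divfree t hI x
  have e0 : (fun s => cu (u s) x 1) = fun s => pd 2 (fun y => u s y 0) x
      - pd 0 (fun y => u s y 2) x := rfl
  rw [e0]
  refine ((h.hasDerivAt_pd ht 2 0 x).sub (h.hasDerivAt_pd ht 0 2 x)).congr_deriv ?_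
  have ef : (fun y => cu (u t) y 1) = fun y => pd 2 (fun y => u t y 0) y - pd 0 (fun y => u t y 2) y :=
    rfl
  have e1 : lap (fun y => cu (u t) y 1) x = lap (pd 2 (fun y => u t y 0)) x
      - lap (pd 0 (fun y => u t y 2)) x := by
    rw [ef]
    exact s_lap_sub ((hsp _).pd' _) ((hsp _).pd' _) x
  have e2 : ∀ j, pd j (fun y => cu (u t) y 1) x = pd j (pd 2 (fun y => u t y 0)) x
      - pd j (pd 0 (fun y => u t y 2)) x := by
    intro j
    rw [ef]
    exact s_sub ((hsp _).pd' _) ((hsp _).pd' _) j x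
  have e3 : pd 2 (pd 0 (p t)) x = pd 0 (pd 2 (p t)) x := congrFun (s_comm (h.sm_p hI) _ _) x
  rw [e1, e3]
  simp_rw [e2]
  set M : Fin 3 → Fin 3 → ℝ := fun a b => pd a (fun y => u t y b) x with hM
  have c0 : cu (u t) x 0 = M 1 2 - M 2 1 := rfl
  have c1 : cu (u t) x 1 = M 2 0 - M 0 2 := rfl
  have c2 : cu (u t) x 2 = M 0 1 - M 1 0 := rfl
  have hd : M 0 0 + M 1 1 + M 2 2 = 0 := by
    rw [Fin.sum_univ_three] at hdiv
    exact hdiv
  have m : ∀ a b, pd a (fun y => u t y b) x = M a b := fun a b => rfl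
  simp only [Fin.sum_univ_three, c0, c1, c2, m]
  linear_combination -(M 2 0 - M 0 2) * hd

/-- The azimuthal component of the vorticity in cylindrical coordinates. -/
theorem AxSol.om_eq (h : AxSol ν T E u p) {t : ℝ} (ht : t ∈ Ioo 0 T) {r : ℝ} (hr : 0 < r) (z : ℝ) :
    HasDerivAt (fun s => cu (u s) (pt r z) 1)
      (ν * (pd 0 (pd 0 fun y => cu (u t) y 1) (pt r z) + pd 2 (pd 2 fun y => cu (u t) y 1) (pt r z)
          + pd 0 (fun y => cu (u t) y 1) (pt r z) / r - cu (u t) (pt r z) 1 / r ^ 2)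
        - u t (pt r z) 0 * pd 0 (fun y => cu (u t) y 1) (pt r z)
        - u t (pt r z) 2 * pd 2 (fun y => cu (u t) y 1) (pt r z)
        + u t (pt r z) 0 / r * cu (u t) (pt r z) 1
        - 2 * (u t (pt r z) 1 / r) * cu (u t) (pt r z) 0) t := by
  have hI : t ∈ Ico 0 T := ⟨ht.1.le, ht.2⟩
  refine (h.vort1 ht (pt r z)).congr_deriv ?_
  have hv : ∀ i, ContDiff ℝ ∞ fun x => u t x i := fun i => h.sm hI i
  have hE : Eqv (u t) := h.axi_u t hI
  have hw : ∀ i, ContDiff ℝ ∞ fun x => cu (u t) x i := fun i => h.sm_cu hI i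
  have hEw : Eqv (cu (u t)) := curl_eqv hv hE
  obtain ⟨a0, a1, a2⟩ := at_pt hv hE hr z
  obtain ⟨b0, b1, b2⟩ := at_pt hw hEw hr z
  have b3 := at_pt2 hw hEw hr z
  set X := pt r z with hX
  have c0 : cu (u t) X 0 = pd 1 (fun y => u t y 2) X - pd 2 (fun y => u t y 1) X := rfl
  have c2 : cu (u t) X 2 = pd 0 (fun y => u t y 1) X - pd 1 (fun y => u t y 0) X := rfl
  have k0 : pd 2 (fun y => u t y 1) X = -cu (u t) X 0 := by rw [c0, a2]; ring
  have k2 : pd 0 (fun y => u t y 1) X = cu (u t) X 2 - u t X 1 / r := by rw [c2, a0]; ring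
  unfold lap
  simp only [Fin.sum_univ_three]
  rw [b3, b1, a1, k0, k2]
  ring

/-- The azimuthal component of the velocity in cylindrical coordinates. -/
theorem AxSol.u_eq (h : AxSol ν T E u p) {t : ℝ} (ht : t ∈ Ioo 0 T) {r : ℝ} (hr : 0 < r) (z : ℝ) :
    HasDerivAt (fun s => u s (pt r z) 1)
      (ν * (pd 0 (pd 0 fun y => u t y 1) (pt r z) + pd 2 (pd 2 fun y => u t y 1) (pt r z)
          + pd 0 (fun y => u t y 1) (pt r z) / r - u t (pt r z) 1 / r ^ 2)
        - u t (pt r z) 0 * pd 0 (fun y => u t y 1) (pt r z)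
        - u t (pt r z) 2 * pd 2 (fun y => u t y 1) (pt r z)
        - u t (pt r z) 0 / r * u t (pt r z) 1) t := by
  have hI : t ∈ Ico 0 T := ⟨ht.1.le, ht.2⟩
  have hv : ∀ i, ContDiff ℝ ∞ fun x => u t x i := fun i => h.sm hI i
  have hE : Eqv (u t) := h.axi_u t hI
  have h1 := hasDerivAt_slice (F := fun s x => u s x 1)
    (mono_Ioo (f := fun s x => u s x 1) (h.smooth_c 1) (by norm_cast)) ht (pt r z)
  have h2 := h.momentum t ht (pt r z) 1
  rw [h1.deriv] at h2
  refine h1.congr_deriv ?_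
  obtain ⟨a0, a1, a2⟩ := at_pt hv hE hr z
  have a3 := at_pt2 hv hE hr z
  have hp : pd 1 (p t) (pt r z) = 0 := by
    have h3 := scalar_inf (h.sm_p hI) (h.axi_p t hI) (pt r z)
    have e0 : pt r z 0 = r := rfl
    have e1 : pt r z 1 = 0 := rfl
    rw [e0, e1, zero_mul, sub_zero] at h3
    rcases mul_eq_zero.1 h3 with h4 | h4
    · exact absurd h4 hr.ne'
    · exact h4
  simp only [Fin.sum_univ_three] at h2
  rw [a3, a1, hp] at h2
  have e : (fun s x => u s x 1) = fun s x => u s x 1 := rfl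
  linear_combination h2

end

end Pool.Agent.R210.Ax
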