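import Pool.Agent.R210.X2

/-!
A maximum principle in the half plane `r ≥ 0`.
-/

open MeasureTheory Set Metric Filter Topology
open scoped ContDiff
open H459R3.NS

namespace Pool.Agent.R210.Ax

/-- The second derivative at a maximum. -/
theorem snd_test {φ φ' : ℝ → ℝ} {r a : ℝ} (h1 : ∀ᶠ s in 𝓝 r, HasDerivAt φ (φ' s) s)
    (h2 : HasDerivAt φ' a r) (hmax : IsLocalMax φ r) : φ' r = 0 ∧ a ≤ 0 := by
  have h0 : φ' r = 0 := hmax.hasDerivAt_eq_zero h1.self_of_nhds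
  refine ⟨h0, ?_⟩
  by_contra ha
  push Not at ha
  have e1 : deriv φ =ᶠ[𝓝 r] φ' := by
    filter_upwards [h1] with s hs
    exact hs.deriv
  have e2 : deriv (deriv φ) r = a := by
    rw [e1.deriv_eq]
    exact h2.deriv
  have e3 : deriv φ r = 0 := by rw [h1.self_of_nhds.deriv, h0]
  have hmin : IsLocalMin φ r := isLocalMin_of_deriv_deriv_pos (by rw [e2]; exact ha) e3
    h1.self_of_nhds.continuousAt
  have hconst : φ =ᶠ[𝓝 r] fun _ => φ r := by
    filter_upwards [hmax, hmin] with s h3 h4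
    exact le_antisymm h3 h4
  have e4 : deriv (deriv φ) r = 0 := by
    have h5 : deriv φ =ᶠ[𝓝 r] fun _ => 0 := by
      have h6 := hconst.eventually_nhds
      filter_upwards [h6] with s hs
      rw [Filter.EventuallyEq.deriv_eq hs]
      simp
    rw [h5.deriv_eq]
    simp
  linarith

/-- The derivative at a maximum from the left. -/
theorem left_test {φ : ℝ → ℝ} {t D : ℝ} (h : HasDerivAt φ D t) {a : ℝ} (ha : a < t)
    (hm : ∀ s ∈ Ioo a t, φ s ≤ φ t) : 0 ≤ D := by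
  have h1 : Tendsto (slope φ t) (𝓝[<] t) (𝓝 D) :=
    h.tendsto_slope.mono_left (nhdsWithin_mono _ fun s hs => ne_of_lt hs)
  refine ge_of_tendsto h1 ?_
  filter_upwards [Ioo_mem_nhdsLT ha] with s hs
  rw [slope_def_field]
  exact div_nonneg_of_nonpos (by linarith [hm s hs]) (by linarith [hs.2])

theorem pt_cont : Continuous fun q : ℝ × ℝ => pt q.1 q.2 := by
  unfold pt
  refine continuous_pi fun i => ?_
  fin_cases i
  · exact continuous_fst
  · exact continuous_const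
  · exact continuous_snd

theorem le_norm_pt (r z : ℝ) : |r| ≤ ‖pt r z‖ ∧ |z| ≤ ‖pt r z‖ :=
  ⟨by simpa [pt] using norm_le_pi_norm (pt r z) 0, by simpa [pt] using norm_le_pi_norm (pt r z) 2⟩

theorem hasDerivAt_pt0 {g : V → ℝ} (hg : Sm g) (r z : ℝ) :
    HasDerivAt (fun r => g (pt r z)) (pd 0 g (pt r z)) r := by
  have h1 : HasDerivAt (fun r => pt r z) (Pi.single 0 1 : V) r := by
    rw [hasDerivAt_pi]
    intro i
    fin_cases i
    · simpa [pt] using hasDerivAt_id' r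
    · simpa [pt] using hasDerivAt_const r (0 : ℝ)
    · simpa [pt] using hasDerivAt_const r z
  exact (hg.d (pt r z)).hasFDerivAt.comp_hasDerivAt r h1

theorem hasDerivAt_pt2 {g : V → ℝ} (hg : Sm g) (r z : ℝ) :
    HasDerivAt (fun z => g (pt r z)) (pd 2 g (pt r z)) z := by
  have h1 : HasDerivAt (fun z => pt r z) (Pi.single 2 1 : V) z := by
    rw [hasDerivAt_pi]
    intro i
    fin_cases i
    · simpa [pt] using hasDerivAt_const z r
    · simpa [pt] using hasDerivAt_const z (0 : ℝ)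
    · simpa [pt] using hasDerivAt_id' z
  exact (hg.d (pt r z)).hasFDerivAt.comp_hasDerivAt z h1

/-- The maximum principle. -/
theorem max_pr {S C : ℝ} {f ft : ℝ → V → ℝ} {g gt gr grr : ℝ → ℝ → ℝ}
    (hf : ContinuousOn (fun q : ℝ × V => f q.1 q.2) (Icc 0 S ×ˢ univ))
    (hg : ContinuousOn (fun q : ℝ × ℝ => g q.1 q.2) (Icc 0 S ×ˢ Ici 0))
    (hg0 : ∀ t ∈ Icc 0 S, ∀ r, 0 ≤ r → 0 ≤ g t r)
    (hdec : ∀ ε > 0, ∃ R : ℝ, ∀ t ∈ Icc 0 S, ∀ x, R ≤ ‖x‖ → f t x ≤ ε)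
    (hax : ∀ t ∈ Icc 0 S, ∀ z, f t (pt 0 z) ≤ g t 0)
    (hin : ∀ r, 0 ≤ r → ∀ z, f 0 (pt r z) ≤ g 0 r)
    (hsm : ∀ t ∈ Ioc 0 S, Sm (f t))
    (hgr : ∀ t ∈ Ioc 0 S, ∀ r, 0 < r → HasDerivAt (g t) (gr t r) r)
    (hgrr : ∀ t ∈ Ioc 0 S, ∀ r, 0 < r → HasDerivAt (gr t) (grr t r) r)
    (hft : ∀ t ∈ Ioc 0 S, ∀ r, 0 < r → ∀ z,
      HasDerivAt (fun s => f s (pt r z)) (ft t (pt r z)) t)
    (hgt : ∀ t ∈ Ioc 0 S, ∀ r, 0 < r → HasDerivAt (fun s => g s r) (gt t r) t)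
    (key : ∀ t ∈ Ioc 0 S, ∀ r, 0 < r → ∀ z, g t r < f t (pt r z) →
      pd 0 (f t) (pt r z) = gr t r → pd 2 (f t) (pt r z) = 0 →
      pd 0 (pd 0 (f t)) (pt r z) ≤ grr t r → pd 2 (pd 2 (f t)) (pt r z) ≤ 0 →
      ft t (pt r z) - gt t r ≤ C * (f t (pt r z) - g t r)) :
    ∀ t ∈ Icc 0 S, ∀ r, 0 ≤ r → ∀ z, f t (pt r z) ≤ g t r := by
  intro t1 ht1 r1 hr1 z1
  by_contra hcon
  push Not at hcon
  set L : ℝ := |C| + 1 with hL
  have hL0 : 0 ≤ L := by positivity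
  set Φ : ℝ × ℝ × ℝ → ℝ := fun q => Real.exp (-(L * q.1)) * (f q.1 (pt q.2.1 q.2.2) - g q.1 q.2.1)
    with hΦ
  set m : ℝ := Φ (t1, r1, z1) with hm
  have hm0 : 0 < m := mul_pos (Real.exp_pos _) (by linarith)
  obtain ⟨R, hR⟩ := hdec (m / 2) (by positivity)
  set R' : ℝ := max R (max |r1| |z1|) + 1 with hR'
  have hRR' : R ≤ R' := by
    have := le_max_left R (max |r1| |z1|)
    linarith
  have hr1R : |r1| ≤ R' := by
    have h2 := le_max_right R (max |r1| |z1|)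
    have h3 := le_max_left |r1| |z1|
    linarith
  have hz1R : |z1| ≤ R' := by
    have h2 := le_max_right R (max |r1| |z1|)
    have h3 := le_max_right |r1| |z1|
    linarith
  set K : Set (ℝ × ℝ × ℝ) := Icc 0 S ×ˢ (Icc 0 R' ×ˢ Icc (-R') R') with hK
  have hKc : IsCompact K := isCompact_Icc.prod (isCompact_Icc.prod isCompact_Icc)
  have hΦc : ContinuousOn Φ K := by
    have c1 : ContinuousOn (fun q : ℝ × ℝ × ℝ => f q.1 (pt q.2.1 q.2.2)) K := by
      have c2 : Continuous fun q : ℝ × ℝ × ℝ => ((q.1, pt q.2.1 q.2.2) : ℝ × V) :=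
        continuous_fst.prodMk (pt_cont.comp continuous_snd)
      exact hf.comp c2.continuousOn fun q hq => ⟨hq.1, mem_univ _⟩
    have c3 : ContinuousOn (fun q : ℝ × ℝ × ℝ => g q.1 q.2.1) K := by
      have c2 : Continuous fun q : ℝ × ℝ × ℝ => ((q.1, q.2.1) : ℝ × ℝ) :=
        continuous_fst.prodMk (continuous_fst.comp continuous_snd)
      exact hg.comp c2.continuousOn fun q hq => ⟨hq.1, hq.2.1.1⟩
    have c4 : Continuous fun q : ℝ × ℝ × ℝ => Real.exp (-(L * q.1)) := by fun_prop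
    exact c4.continuousOn.mul (c1.sub c3)
  have hp1 : (t1, r1, z1) ∈ K := by
    refine ⟨ht1, ⟨hr1, (le_abs_self _).trans hr1R⟩, ?_, (le_abs_self _).trans hz1R⟩
    exact (abs_le.1 hz1R).1
  obtain ⟨⟨t0, r0, z0⟩, hp0, hmax0⟩ := hKc.exists_isMaxOn ⟨_, hp1⟩ hΦc
  have hm1 : m ≤ Φ (t0, r0, z0) := hmax0 hp1
  have hall : ∀ t ∈ Icc 0 S, ∀ r, 0 ≤ r → ∀ z, Φ (t, r, z) ≤ Φ (t0, r0, z0) := by
    intro t ht r hr z
    by_cases hin : (t, r, z) ∈ K
    · exact hmax0 hin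
    · have hbig : R' ≤ ‖pt r z‖ := by
        by_contra hlt
        push Not at hlt
        obtain ⟨n1, n2⟩ := le_norm_pt r z
        exact hin ⟨ht, ⟨hr, ((le_abs_self _).trans n1).trans hlt.le⟩,
          (abs_le.1 (n2.trans hlt.le)).1, (abs_le.1 (n2.trans hlt.le)).2⟩
      have h3 := hR t ht (pt r z) (hRR'.trans hbig)
      have h4 := hg0 t ht r hr
      have h5 : Real.exp (-(L * t)) ≤ 1 := Real.exp_le_one_iff.2 (by
        have := mul_nonneg hL0 ht.1
        linarith)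
      have h6 : Φ (t, r, z) ≤ m / 2 := by
        show Real.exp (-(L * t)) * (f t (pt r z) - g t r) ≤ m / 2
        calc Real.exp (-(L * t)) * (f t (pt r z) - g t r) ≤ Real.exp (-(L * t)) * (m / 2) :=
              mul_le_mul_of_nonneg_left (by linarith) (Real.exp_pos _).le
          _ ≤ 1 * (m / 2) := mul_le_mul_of_nonneg_right h5 (by positivity)
          _ = m / 2 := one_mul _
      linarith
  have ht0 : t0 ∈ Icc 0 S := hp0.1
  have hr0 : 0 ≤ r0 := hp0.2.1.1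
  have hpos : 0 < f t0 (pt r0 z0) - g t0 r0 := by
    have h3 : 0 < Real.exp (-(L * t0)) * (f t0 (pt r0 z0) - g t0 r0) := lt_of_lt_of_le hm0 hm1
    exact (mul_pos_iff_of_pos_left (Real.exp_pos _)).1 h3
  have hr0' : 0 < r0 := by
    rcases hr0.eq_or_lt with h3 | h3
    · exfalso
      rw [← h3] at hpos
      linarith [hax t0 ht0 z0]
    · exact h3
  have ht0' : 0 < t0 := by
    rcases ht0.1.eq_or_lt with h3 | h3
    · exfalso
      rw [← h3] at hpos
      linarith [hin r0 hr0 z0]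
    · exact h3
  have hI : t0 ∈ Ioc 0 S := ⟨ht0', ht0.2⟩
  -- time
  have d1 : HasDerivAt (fun s => Real.exp (-(L * s)) * (f s (pt r0 z0) - g s r0))
      (Real.exp (-(L * t0)) * -L * (f t0 (pt r0 z0) - g t0 r0)
        + Real.exp (-(L * t0)) * (ft t0 (pt r0 z0) - gt t0 r0)) t0 := by
    have e1 : HasDerivAt (fun s : ℝ => -(L * s)) (-L) t0 := by
      have e2 := ((hasDerivAt_id' t0).const_mul L).neg
      rw [mul_one] at e2
      exact e2
    exact e1.exp.mul ((hft t0 hI r0 hr0' z0).sub (hgt t0 hI r0 hr0'))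
  have h7 := left_test d1 ht0' fun s hs => hall s ⟨hs.1.le, hs.2.le.trans ht0.2⟩ r0 hr0 z0
  have h8 : L * (f t0 (pt r0 z0) - g t0 r0) ≤ ft t0 (pt r0 z0) - gt t0 r0 := by
    have e := Real.exp_pos (-(L * t0))
    have h9 : 0 ≤ Real.exp (-(L * t0)) * ((ft t0 (pt r0 z0) - gt t0 r0)
        - L * (f t0 (pt r0 z0) - g t0 r0)) := by
      calc (0 : ℝ) ≤ _ := h7
        _ = _ := by ring
    have := nonneg_of_mul_nonneg_right h9 e
    linarith
  -- space
  have hcmp : ∀ r, 0 ≤ r → ∀ z, f t0 (pt r z) - g t0 r ≤ f t0 (pt r0 z0) - g t0 r0 := by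
    intro r hr z
    have h3 := hall t0 ht0 r hr z
    exact le_of_mul_le_mul_left h3 (Real.exp_pos (-(L * t0)))
  have s1 := snd_test (φ := fun r => f t0 (pt r z0) - g t0 r)
    (φ' := fun r => pd 0 (f t0) (pt r z0) - gr t0 r) (r := r0)
    (a := pd 0 (pd 0 (f t0)) (pt r0 z0) - grr t0 r0)
    (by
      filter_upwards [Ioi_mem_nhds hr0'] with s hs
      exact (hasDerivAt_pt0 (hsm t0 hI) s z0).sub (hgr t0 hI s hs))
    ((hasDerivAt_pt0 ((hsm t0 hI).pd' 0) r0 z0).sub (hgrr t0 hI r0 hr0'))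
    (by
      filter_upwards [Ioi_mem_nhds hr0'] with s hs
      exact hcmp s (le_of_lt hs) z0)
  have s2 := snd_test (φ := fun z => f t0 (pt r0 z) - g t0 r0)
    (φ' := fun z => pd 2 (f t0) (pt r0 z)) (r := z0)
    (a := pd 2 (pd 2 (f t0)) (pt r0 z0))
    (Filter.Eventually.of_forall fun s =>
      (hasDerivAt_pt2 (hsm t0 hI) r0 s).sub_const _)
    (hasDerivAt_pt2 ((hsm t0 hI).pd' 2) r0 z0)
    (Filter.Eventually.of_forall fun s => hcmp r0 hr0 s)
  have h10 := key t0 hI r0 hr0' z0 (by linarith) (by linarith [s1.1]) s2.1 (by linarith [s1.2]) s2.2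
  have h11 : C * (f t0 (pt r0 z0) - g t0 r0) < L * (f t0 (pt r0 z0) - g t0 r0) := by
    refine mul_lt_mul_of_pos_right ?_ hpos
    have := le_abs_self C
    linarith
  linarith

end Pool.Agent.R210.Ax
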