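import Pool.Agent.R210.X3

/-!
The meridional velocity is bounded by the azimuthal vorticity and the energy.
-/

open MeasureTheory Set Metric Filter Topology
open scoped ContDiff
open H459R3.NS

namespace Pool.Agent.R210.Ax

/-- The reflection. -/
def Rf (x : V) : V := ![x 0, -x 1, x 2]

theorem Rf_cont : Continuous Rf := by
  unfold Rf
  refine continuous_pi fun i => ?_
  fin_cases i
  · exact continuous_apply 0
  · exact (continuous_apply 1).neg
  · exact continuous_apply 2

theorem Rf_Rf (x : V) : Rf (Rf x) = x := by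
  funext i
  fin_cases i <;> simp [Rf]

theorem Rf_mp : MeasurePreserving Rf := by
  have h := MeasureTheory.volume_preserving_pi (ι := Fin 3) (α' := fun _ => ℝ) (β' := fun _ => ℝ)
    (f := fun i => ![fun x : ℝ => x, fun x : ℝ => -x, fun x : ℝ => x] i) (by
      intro i
      fin_cases i
      · exact MeasurePreserving.id _
      · exact Measure.measurePreserving_neg _
      · exact MeasurePreserving.id _)
  refine (show (fun (a : V) i => (![fun x : ℝ => x, fun x : ℝ => -x, fun x : ℝ => x] i) (a i)) = Rf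
    from ?_) ▸ h
  funext a i
  fin_cases i <;> rfl

theorem Rf_emb : MeasurableEmbedding Rf := by
  have h : Topology.IsClosedEmbedding Rf := by
    have : Rf = (⟨⟨Rf, Rf, Rf_Rf, Rf_Rf⟩, Rf_cont, Rf_cont⟩ : V ≃ₜ V) := rfl
    rw [this]
    exact Homeomorph.isClosedEmbedding _
  exact h.measurableEmbedding

theorem Rf_int (F : V → ℝ) : ∫ z, F (Rf z) = ∫ z, F z := Rf_mp.integral_comp Rf_emb F

/-- Symmetrization. -/
theorem mo_sym {K g : V → ℝ} (hK : Continuous K) (hc : HasCompactSupport K) (hg : Continuous g)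
    {s : ℝ} (hs : ∀ z, K (Rf z) = s * K z) (t r ζ : ℝ) :
    mo K t g (pt r ζ) = ∫ z, K z * ((g (pt r ζ - t • z) + s * g (Rf (pt r ζ - t • z))) / 2) := by
  have e1 : ∀ z, Rf (pt r ζ - t • z) = pt r ζ - t • Rf z := by
    intro z
    funext i
    fin_cases i <;> simp [Rf, pt]
  have h1 : mo K t g (pt r ζ) = ∫ z, s * (K z * g (Rf (pt r ζ - t • z))) := by
    unfold mo
    rw [← Rf_int]
    congr 1
    funext z
    rw [hs, e1]
    ring
  have i1 := mo_int hK hc hg t (pt r ζ)
  have i2 : Integrable fun z => s * (K z * g (Rf (pt r ζ - t • z))) := by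
    have : Continuous fun z => g (Rf (pt r ζ - t • z)) :=
      hg.comp (Rf_cont.comp (by fun_prop))
    exact ((hK.mul this).integrable_of_hasCompactSupport hc.mul_right).const_mul s
  have h2 : mo K t g (pt r ζ) = (mo K t g (pt r ζ) + mo K t g (pt r ζ)) / 2 := by ring
  rw [h2]
  nth_rewrite 2 [h1]
  unfold mo
  rw [← integral_add i1 i2, ← integral_div]
  congr 1
  funext z
  ring

theorem phi_Rf (z : V) : phi (Rf z) = phi z := by
  unfold phi
  have : rsq (Rf z) = rsq z := by
    simp [rsq, Rf, Fin.sum_univ_three]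
  rw [this]

theorem psi_Rf (i : Fin 3) (z : V) : pd i psi (Rf z) = (if i = 1 then -1 else 1) * pd i psi z := by
  rw [pd_psi, pd_psi, phi_Rf]
  fin_cases i <;> simp [Rf]

/-- A bound of an integral against a kernel. -/
theorem ker_le {K G : V → ℝ} {B : ℝ} (hB : 0 ≤ B) (hK : ∀ z, |K z| ≤ BB)
    (h0 : ∀ z, 1 ≤ rsq z → K z = 0)
    (hG : ∀ z, rsq z < 1 → |G z| ≤ B) : |∫ z, K z * G z| ≤ 8 * BB * B := by
  have hBB := one_le_BB
  have h1 : ∫ z, K z * G z = ∫ z in closedBall (0 : V) 1, K z * G z := by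
    rw [setIntegral_eq_integral_of_forall_compl_eq_zero]
    intro z hz
    rw [h0 z, zero_mul]
    by_contra h
    push Not at h
    exact hz (ball_sub_rsq h)
  rw [h1, ← Real.norm_eq_abs]
  have hv : volume (closedBall (0 : V) 1) = ENNReal.ofReal 8 := by
    rw [Real.volume_pi_closedBall _ zero_le_one]
    norm_num
  refine (norm_setIntegral_le_of_norm_le_const (C := BB * B) (by rw [hv]; exact ENNReal.ofReal_lt_top)
    fun z _ => ?_).trans ?_
  · rw [norm_mul, Real.norm_eq_abs, Real.norm_eq_abs]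
    rcases le_or_gt 1 (rsq z) with h | h
    · rw [h0 z h, abs_zero, zero_mul]
      positivity
    · exact mul_le_mul (hK z) (hG z h) (abs_nonneg _) (by linarith)
  · rw [Measure.real, hv, ENNReal.toReal_ofReal (by norm_num)]
    linarith

/-- The derivative of the averages with respect to the scale. -/
theorem mo_deriv {g : V → ℝ} (hg : Sm g) {C : ℝ} (hC : ∀ x, ‖fderiv ℝ g x‖ ≤ C) (t : ℝ) (x : V) :
    HasDerivAt (fun t => mo phi t g x) (-(t * mo psi t (lap g) x)) t := by
  have hcont : ∀ t : ℝ, Continuous fun z => phi z * g (x - t • z) := fun t =>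
    phi_smooth.continuous.mul (hg.continuous.comp (by fun_prop))
  have key := (hasDerivAt_integral_of_dominated_loc_of_deriv_le (s := univ)
    (F := fun t z => phi z * g (x - t • z))
    (F' := fun t z => phi z * (-(fderiv ℝ g (x - t • z) z)))
    (bound := fun z => |phi z| * (C * ‖z‖)) (μ := (volume : Measure V))
    (x₀ := t) univ_mem ?_ ?_ ?_ ?_ ?_ ?_).2
  · refine key.congr_deriv ?_
    have e1 : ∀ z, phi z * (-(fderiv ℝ g (x - t • z) z))
        = -∑ i, pd i psi z * pd i g (x - t • z) := by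
      intro z
      rw [Pool.Agent.R210.fderiv_eq_sum]
      simp_rw [pd_psi]
      rw [mul_neg, Finset.mul_sum]
      congr 1
      exact Finset.sum_congr rfl fun i _ => by ring
    simp_rw [e1]
    rw [integral_neg, integral_finsetSum _ fun i _ =>
      mo_int (pd_smooth psi_smooth i).continuous (pd_compact psi_compact i) (hg.pd' i).continuous t x]
    congr 1
    have e2 : ∀ i, ∫ z, pd i psi z * pd i g (x - t • z) = t * mo psi t (pd i (pd i g)) x :=
      fun i => mo_pd psi_smooth psi_compact (hg.pd' i) i t x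
    simp_rw [e2]
    rw [← Finset.mul_sum]
    congr 1
    unfold mo lap
    rw [← integral_finsetSum _ fun i _ => mo_int psi_smooth.continuous psi_compact
      ((hg.pd' i).pd' i).continuous t x]
    congr 1
    funext z
    rw [Finset.mul_sum]
  · exact Filter.Eventually.of_forall fun t => (hcont t).aestronglyMeasurable
  · exact mo_int phi_smooth.continuous phi_compact hg.continuous t x
  · refine Continuous.aestronglyMeasurable ?_
    refine phi_smooth.continuous.mul (Continuous.neg ?_)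
    exact ((hg.continuous_fderiv (by norm_num)).comp (by fun_prop)).clm_apply continuous_id
  · refine Filter.Eventually.of_forall fun z s _ => ?_
    rw [norm_mul, norm_neg, Real.norm_eq_abs]
    refine mul_le_mul_of_nonneg_left ?_ (abs_nonneg _)
    exact ((fderiv ℝ g _).le_opNorm z).trans (mul_le_mul_of_nonneg_right (hC _) (norm_nonneg _))
  · have h1 : Continuous fun z : V => |phi z| * (C * ‖z‖) :=
      phi_smooth.continuous.abs.mul (continuous_const.mul continuous_norm)
    refine h1.integrable_of_hasCompactSupport ?_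
    exact (phi_compact.comp_left (g := fun r : ℝ => |r|) (by simp)).mul_right
  · refine Filter.Eventually.of_forall fun z s _ => ?_
    have h1 : HasDerivAt (fun s : ℝ => x - s • z) (-z) s := by
      have := (hasDerivAt_id' s).smul_const z
      simpa using this.const_sub x
    have h2 : HasFDerivAt g (fderiv ℝ g (x - s • z)) (x - s • z) :=
      (hg.d _).hasFDerivAt
    have h3 := (h2.comp_hasDerivAt s h1).const_mul (phi z)
    refine h3.congr_deriv ?_
    rw [map_neg]

/-- The bound of a value by the energy and the derivative of the averages. -/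
theorem val_le {g : V → ℝ} (hg : Sm g) {C : ℝ} (hC : ∀ x, ‖fderiv ℝ g x‖ ≤ C) {x : V} {D E : ℝ}
    (hi : Integrable fun y => g y ^ 2) (hE : ∫ y, g y ^ 2 ≤ E ^ 2)
    (hD : ∀ t ∈ Icc (0 : ℝ) 1, |t * mo psi t (lap g) x| ≤ D) :
    |g x| ≤ D + BB * (8 + E ^ 2) := by
  have hBB := one_le_BB
  have h1 : |mo phi 1 g x - mo phi 0 g x| ≤ D := by
    have h2 := Convex.norm_image_sub_le_of_norm_hasDerivWithin_le (s := Icc (0 : ℝ) 1)
      (f := fun t => mo phi t g x) (f' := fun t => -(t * mo psi t (lap g) x)) (C := D)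
      (fun t _ => (mo_deriv hg hC t x).hasDerivWithinAt) (fun t ht => by
        rw [norm_neg, Real.norm_eq_abs]
        exact hD t ht) (convex_Icc _ _) (left_mem_Icc.2 zero_le_one) (right_mem_Icc.2 zero_le_one)
    rw [Real.norm_eq_abs] at h2
    simpa using h2
  rw [mo_zero] at h1
  have h2 : |mo phi 1 g x| ≤ BB * (8 + E ^ 2) := by
    have hi2 : Integrable fun z : V => g (x - z) ^ 2 := hi.comp_sub_left x
    have e2 : ∫ z : V, g (x - z) ^ 2 = ∫ y, g y ^ 2 := integral_sub_left_eq_self (fun y => g y ^ 2) volume x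
    have hi3 : Integrable fun z : V => (closedBall (0 : V) 1).indicator (fun _ => (1 : ℝ)) z :=
      (integrable_indicator_iff measurableSet_closedBall).2
        (integrableOn_const (by
          rw [Real.volume_pi_closedBall _ zero_le_one]
          exact ENNReal.ofReal_ne_top) (by simp))
    have e3 : ∫ z : V, (closedBall (0 : V) 1).indicator (fun _ => (1 : ℝ)) z = 8 := by
      rw [integral_indicator_const _ measurableSet_closedBall, Measure.real,
        Real.volume_pi_closedBall _ zero_le_one]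
      norm_num
    have h3 : |mo phi 1 g x| ≤ ∫ z : V, BB * ((closedBall (0 : V) 1).indicator (fun _ => (1 : ℝ)) z
        + g (x - z) ^ 2) := by
      unfold mo
      rw [← Real.norm_eq_abs]
      refine norm_integral_le_of_norm_le ((hi3.add hi2).const_mul BB)
        (Filter.Eventually.of_forall fun z => ?_)
      rw [one_smul, norm_mul, Real.norm_eq_abs, Real.norm_eq_abs]
      by_cases hz : z ∈ closedBall (0 : V) 1
      · rw [Set.indicator_of_mem hz]
        have h5 : |g (x - z)| ≤ 1 + g (x - z) ^ 2 := by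
          rw [← sq_abs]
          nlinarith [abs_nonneg (g (x - z)), sq_nonneg (|g (x - z)| - 1)]
        exact mul_le_mul (phi_le z) h5 (abs_nonneg _) (by linarith)
      · have h6 : phi z = 0 := by
          refine phi_zero ?_
          by_contra h
          push Not at h
          exact hz (ball_sub_rsq h)
        rw [h6, abs_zero, zero_mul, Set.indicator_of_notMem hz]
        have := sq_nonneg (g (x - z))
        positivity
    refine h3.trans ?_
    rw [integral_const_mul, integral_add hi3 hi2, e2, e3]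
    exact mul_le_mul_of_nonneg_left (by linarith) (by linarith)
  have h4 := abs_le.1 h1
  have h5 := abs_le.1 h2
  rw [abs_le]
  constructor <;> linarith

/-- The Laplacian of a divergence free field. -/
theorem lap_v {v : V → V} (hv : ∀ i, Sm fun x => v x i) (hdiv : ∀ x, ∑ i, pd i (fun y => v y i) x = 0)
    (x : V) : lap (fun y => v y 0) x
      = pd 2 (fun y => cu v y 1) x - pd 1 (fun y => cu v y 2) x ∧
    lap (fun y => v y 2) x = pd 1 (fun y => cu v y 0) x - pd 0 (fun y => cu v y 1) x := by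
  have hp := fun i j => (hv i).pd' j
  have d : ∀ a, pd a (fun y => pd 0 (fun y => v y 0) y + pd 1 (fun y => v y 1) y
      + pd 2 (fun y => v y 2) y) x = 0 := by
    intro a
    have e : (fun y => pd 0 (fun y => v y 0) y + pd 1 (fun y => v y 1) y
        + pd 2 (fun y => v y 2) y) = fun _ => (0 : ℝ) := by
      funext y
      have := hdiv y
      rwa [Fin.sum_univ_three] at this
    rw [e]
    simp [pd]
  have d3 : ∀ a, pd a (pd 0 (fun y => v y 0)) x + pd a (pd 1 (fun y => v y 1)) x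
      + pd a (pd 2 (fun y => v y 2)) x = 0 := by
    intro a
    have h1 := d a
    have h2 : HasFDerivAt (fun y => pd 0 (fun y => v y 0) y + pd 1 (fun y => v y 1) y
        + pd 2 (fun y => v y 2) y) _ x :=
      (((hp 0 0).d x).hasFDerivAt.add ((hp 1 1).d x).hasFDerivAt).add ((hp 2 2).d x).hasFDerivAt
    have h3 : pd a (fun y => pd 0 (fun y => v y 0) y + pd 1 (fun y => v y 1) y
        + pd 2 (fun y => v y 2) y) x = pd a (pd 0 (fun y => v y 0)) x
        + pd a (pd 1 (fun y => v y 1)) x + pd a (pd 2 (fun y => v y 2)) x := by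
      show fderiv ℝ (fun y => pd 0 (fun y => v y 0) y + pd 1 (fun y => v y 1) y
        + pd 2 (fun y => v y 2) y) x (Pi.single a 1) = _
      rw [h2.fderiv]
      rfl
    rw [← h3]
    exact h1
  have c : ∀ a b i, pd a (pd b (fun y => v y i)) x = pd b (pd a (fun y => v y i)) x :=
    fun a b i => congrFun (s_comm (hv i) a b) x
  have w0 : (fun y => cu v y 0) = fun y => pd 1 (fun y => v y 2) y - pd 2 (fun y => v y 1) y := rfl
  have w1 : (fun y => cu v y 1) = fun y => pd 2 (fun y => v y 0) y - pd 0 (fun y => v y 2) y := rfl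
  have w2 : (fun y => cu v y 2) = fun y => pd 0 (fun y => v y 1) y - pd 1 (fun y => v y 0) y := rfl
  unfold lap
  simp only [Fin.sum_univ_three]
  rw [w0, w1, w2, s_sub (hp _ _) (hp _ _), s_sub (hp _ _) (hp _ _), s_sub (hp _ _) (hp _ _),
    s_sub (hp _ _) (hp _ _)]
  have d0 := d3 0
  have d2 := d3 2
  have c1 := c 0 1 1
  have c2 := c 0 2 2
  have c3 := c 2 0 0
  have c4 := c 2 1 1
  constructor <;> linarith

theorem polar (y : V) : ∃ θ ρ : ℝ, 0 ≤ ρ ∧ ρ ^ 2 = y 0 ^ 2 + y 1 ^ 2 ∧ y = rot θ (pt ρ (y 2)) := by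
  set z : ℂ := ⟨y 0, y 1⟩ with hz
  refine ⟨Complex.arg z, ‖z‖, norm_nonneg _, ?_, ?_⟩
  · rw [← Complex.normSq_eq_norm_sq, Complex.normSq_mk]
    ring
  · funext i
    fin_cases i
    · simp [rot, pt]
      rw [mul_comm, Complex.norm_mul_cos_arg]
    · simp [rot, pt]
      rw [mul_comm, Complex.norm_mul_sin_arg]
    · simp [rot, pt]

/-- The symmetrized vorticity. -/
theorem sym_le {w : V → V} (hw : Eqv w) {B : ℝ} (y : V)
    (hB : ∀ ρ z, 0 ≤ ρ → ρ ^ 2 = y 0 ^ 2 + y 1 ^ 2 → |w (pt ρ z) 1| ≤ B) :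
    |(w y 1 + w (Rf y) 1) / 2| ≤ B ∧ |(w y 0 - w (Rf y) 0) / 2| ≤ B ∧ w y 2 - w (Rf y) 2 = 0 := by
  obtain ⟨θ, ρ, hρ, hρ2, hy⟩ := polar y
  have hRy : Rf y = rot (-θ) (pt ρ (y 2)) := by
    have h1 : ∀ i, y i = rot θ (pt ρ (y 2)) i := fun i => congrFun hy i
    funext i
    fin_cases i
    · have := h1 0
      simp [rot, pt, Rf] at this ⊢
      exact this
    · have := h1 1
      simp [rot, pt, Rf] at this ⊢
      exact this
    · simp [rot, pt, Rf]
  set a := w (pt ρ (y 2)) with ha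
  have e1 : w y = rot θ a := by
    conv_lhs => rw [hy]
    exact hw θ _
  have e2 : w (Rf y) = rot (-θ) a := by rw [hRy]; exact hw (-θ) _
  have hb := hB ρ (y 2) hρ hρ2
  rw [← ha] at hb
  have k1 : (w y 1 + w (Rf y) 1) / 2 = Real.cos θ * a 1 := by
    rw [e1, e2]
    simp [rot]
    ring
  have k0 : (w y 0 - w (Rf y) 0) / 2 = -(Real.sin θ * a 1) := by
    rw [e1, e2]
    simp [rot]
    ring
  have k2 : w y 2 - w (Rf y) 2 = 0 := by
    rw [e1, e2]
    simp [rot]
  refine ⟨?_, ?_, k2⟩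
  · rw [k1, abs_mul]
    exact (mul_le_of_le_one_left (abs_nonneg _) (Real.abs_cos_le_one θ)).trans hb
  · rw [k0, abs_neg, abs_mul]
    exact (mul_le_of_le_one_left (abs_nonneg _) (Real.abs_sin_le_one θ)).trans hb

/-- The distance to the axis of a point near `pt r ζ`. -/
theorem dist_le {r ζ t : ℝ} (hr : 0 ≤ r) (ht : t ∈ Icc (0 : ℝ) 1) {z : V} (hz : rsq z < 1) {ρ : ℝ}
    (hρ : ρ ^ 2 = (pt r ζ - t • z) 0 ^ 2 + (pt r ζ - t • z) 1 ^ 2) : ρ ≤ r + 1 := by
  have e0 : (pt r ζ - t • z) 0 = r - t * z 0 := by simp [pt]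
  have e1 : (pt r ζ - t • z) 1 = -(t * z 1) := by simp [pt]
  rw [e0, e1] at hρ
  have h1 : z 0 ^ 2 + z 1 ^ 2 + z 2 ^ 2 < 1 := by
    have : rsq z = z 0 ^ 2 + z 1 ^ 2 + z 2 ^ 2 := by simp [rsq, Fin.sum_univ_three]
    rwa [this] at hz
  have h2 : |z 0| ≤ 1 := by
    rw [abs_le_one_iff_mul_self_le_one]
    nlinarith [sq_nonneg (z 1), sq_nonneg (z 2)]
  obtain ⟨h3, h4⟩ := abs_le.1 h2
  refine le_of_sq_le_sq ?_ (by linarith)
  rw [hρ]
  have h5 : t ^ 2 ≤ 1 := by nlinarith [ht.1, ht.2]
  have h6 : t ^ 2 * (z 0 ^ 2 + z 1 ^ 2) ≤ 1 := by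
    have h7 : z 0 ^ 2 + z 1 ^ 2 ≤ 1 := by nlinarith [sq_nonneg (z 2)]
    calc t ^ 2 * (z 0 ^ 2 + z 1 ^ 2) ≤ 1 * 1 :=
          mul_le_mul h5 h7 (by positivity) zero_le_one
      _ = 1 := one_mul 1
  have h8 : -(t * z 0) ≤ 1 := by nlinarith [ht.1, ht.2]
  nlinarith [mul_le_mul_of_nonneg_left h8 hr]

/-- The bound of the meridional velocity. -/
theorem mer_le {v : V → V} (hv : ∀ i, Sm fun x => v x i)
    (hdiv : ∀ x, ∑ i, pd i (fun y => v y i) x = 0) (hE : Eqv v) {C E B : ℝ}
    (hC : ∀ i x, ‖fderiv ℝ (fun y => v y i) x‖ ≤ C) (hi : Integrable fun x => ∑ i, v x i ^ 2)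
    (hen : ∫ x, ∑ i, v x i ^ 2 ≤ E ^ 2) (hB0 : 0 ≤ B) {r : ℝ} (hr : 0 ≤ r)
    (hB : ∀ ρ z, 0 ≤ ρ → ρ ≤ r + 1 → |cu v (pt ρ z) 1| ≤ B) (z : ℝ) :
    |v (pt r z) 0| ≤ 16 * BB * B + BB * (8 + E ^ 2) ∧
    |v (pt r z) 2| ≤ 16 * BB * B + BB * (8 + E ^ 2) := by
  have hBB := one_le_BB
  have hcu : ∀ i, Sm fun x => cu v x i := by
    intro i
    rw [cu_fun]
    exact ((hv _).pd' _).sub ((hv _).pd' _)
  have hEw : Eqv (cu v) := curl_eqv hv hE
  have hsi : ∀ i, Integrable fun x => v x i ^ 2 := by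
    intro i
    refine hi.mono' ((hv i).continuous.pow 2).aestronglyMeasurable
      (Filter.Eventually.of_forall fun x => ?_)
    rw [Real.norm_eq_abs, abs_of_nonneg (sq_nonneg _)]
    exact Finset.single_le_sum (f := fun i => v x i ^ 2) (fun i _ => sq_nonneg _) (Finset.mem_univ i)
  have hse : ∀ i, ∫ x, v x i ^ 2 ≤ E ^ 2 := fun i =>
    (integral_mono (hsi i) hi fun x => Finset.single_le_sum (f := fun i => v x i ^ 2)
      (fun i _ => sq_nonneg _) (Finset.mem_univ i)).trans hen
  have hK : ∀ i, Continuous (pd i psi) := fun i => (pd_smooth psi_smooth i).continuous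
  have hKc : ∀ i, HasCompactSupport (pd i psi) := fun i => pd_compact psi_compact i
  have hK0 : ∀ i z, 1 ≤ rsq z → pd i psi z = 0 := fun i z hz => by
    rw [pd_psi, phi_zero hz, mul_zero]
  have hsym : ∀ t ∈ Icc (0 : ℝ) 1, ∀ y : V, rsq y < 1 → ∀ ρ ζ, 0 ≤ ρ →
      ρ ^ 2 = (pt r z - t • y) 0 ^ 2 + (pt r z - t • y) 1 ^ 2 → |cu v (pt ρ ζ) 1| ≤ B :=
    fun t ht y hy ρ ζ hρ hρ2 => hB ρ ζ hρ (dist_le hr ht hy hρ2)
  -- the two kernels
  have q1 : ∀ (i : Fin 3), ∀ t ∈ Icc (0 : ℝ) 1, i ≠ 1 →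
      |mo (pd i psi) t (fun y => cu v y 1) (pt r z)| ≤ 8 * BB * B := by
    intro i t ht hi1
    rw [mo_sym (hK i) (hKc i) (hcu 1).continuous (s := 1) (fun z => by
      rw [psi_Rf, if_neg hi1])]
    refine ker_le hB0 (pd_psi_le i) (hK0 i) fun y hy => ?_
    rw [one_mul]
    exact (sym_le hEw _ (hsym t ht y hy)).1
  have q0 : ∀ t ∈ Icc (0 : ℝ) 1,
      |mo (pd 1 psi) t (fun y => cu v y 0) (pt r z)| ≤ 8 * BB * B := by
    intro t ht
    rw [mo_sym (hK 1) (hKc 1) (hcu 0).continuous (s := -1) (fun z => by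
      rw [psi_Rf, if_pos rfl])]
    refine ker_le hB0 (pd_psi_le 1) (hK0 1) fun y hy => ?_
    rw [neg_one_mul, ← sub_eq_add_neg]
    exact (sym_le hEw _ (hsym t ht y hy)).2.1
  have q2 : ∀ t ∈ Icc (0 : ℝ) 1,
      |mo (pd 1 psi) t (fun y => cu v y 2) (pt r z)| ≤ 8 * BB * 0 := by
    intro t ht
    rw [mo_sym (hK 1) (hKc 1) (hcu 2).continuous (s := -1) (fun z => by
      rw [psi_Rf, if_pos rfl])]
    refine ker_le le_rfl (pd_psi_le 1) (hK0 1) fun y hy => ?_
    rw [neg_one_mul, ← sub_eq_add_neg, (sym_le hEw _ (hsym t ht y hy)).2.2]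
    simp
  have hl := lap_v hv hdiv
  have key : ∀ (t : ℝ) (a b : Fin 3) (f g : V → ℝ), Sm f → Sm g →
      t * mo psi t (fun x => pd a f x - pd b g x) (pt r z)
        = mo (pd a psi) t f (pt r z) - mo (pd b psi) t g (pt r z) := by
    intro t a b f g hf hg
    rw [mo_sub psi_smooth.continuous psi_compact (hf.pd' a).continuous (hg.pd' b).continuous,
      mul_sub, ← mo_pd psi_smooth psi_compact hf, ← mo_pd psi_smooth psi_compact hg]
  have hB8 : 0 ≤ 8 * BB * B := by positivity
  constructor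
  · refine val_le (hv 0) (hC 0) (hsi 0) (hse 0) fun t ht => ?_
    have e : lap (fun y => v y 0)
        = fun x => pd 2 (fun y => cu v y 1) x - pd 1 (fun y => cu v y 2) x :=
      funext fun x => (hl x).1
    rw [e, key t 2 1 _ _ (hcu 1) (hcu 2)]
    have h1 := abs_le.1 (q1 2 t ht (by decide))
    have h2 := abs_le.1 (q2 t ht)
    rw [mul_zero, neg_zero] at h2
    rw [abs_le]
    constructor <;> linarith [h1.1, h1.2, h2.1, h2.2]
  · refine val_le (hv 2) (hC 2) (hsi 2) (hse 2) fun t ht => ?_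
    have e : lap (fun y => v y 2)
        = fun x => pd 1 (fun y => cu v y 0) x - pd 0 (fun y => cu v y 1) x :=
      funext fun x => (hl x).2
    rw [e, key t 1 0 _ _ (hcu 0) (hcu 1)]
    have h1 := abs_le.1 (q1 0 t ht (by decide))
    have h2 := abs_le.1 (q0 t ht)
    rw [abs_le]
    constructor <;> linarith [h1.1, h1.2, h2.1, h2.2]

end Pool.Agent.R210.Ax
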