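import Pool.Agent.R210.X4

/-!
The criterion for axisymmetric solutions of the Navier-Stokes equations.
-/

open MeasureTheory Set Metric Filter Topology
open scoped ContDiff
open H459R3.NS

namespace Pool.Agent.R210.Ax

section

variable {ν T E : ℝ} {u : ℝ → V → V} {p : ℝ → V → ℝ}

theorem AxSol.fderiv_comp (h : AxSol ν T E u p) {t : ℝ} (ht : t ∈ Ico 0 T) (i : Fin 3) (x y : V) :
    fderiv ℝ (fun y => u t y i) x y = fderiv ℝ (u t) x y i := by
  have hd : DifferentiableAt ℝ (u t) x :=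
    differentiableAt_pi.2 fun i => (h.sm ht i).d x
  have h1 := hasFDerivAt_pi'.1 hd.hasFDerivAt i
  rw [h1.fderiv]
  rfl

theorem AxSol.pd_le (h : AxSol ν T E u p) {t : ℝ} (ht : t ∈ Ico 0 T) (i j : Fin 3) (x : V) :
    |pd j (fun y => u t y i) x| ≤ ‖fderiv ℝ (u t) x‖ := by
  have h1 : pd j (fun y => u t y i) x = fderiv ℝ (u t) x (Pi.single j 1) i :=
    h.fderiv_comp ht i x _
  rw [h1, ← Real.norm_eq_abs]
  refine (norm_le_pi_norm _ i).trans ?_
  refine ((fderiv ℝ (u t) x).le_opNorm _).trans ?_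
  have h2 : ‖(Pi.single j 1 : V)‖ ≤ 1 := by
    rw [pi_norm_le_iff_of_nonneg zero_le_one]
    intro k
    by_cases hk : k = j
    · subst hk; simp
    · simp [hk]
  exact mul_le_of_le_one_right (norm_nonneg _) h2

theorem AxSol.cu_le (h : AxSol ν T E u p) {t : ℝ} (ht : t ∈ Ico 0 T) (x : V) :
    |cu (u t) x 1| ≤ 2 * ‖fderiv ℝ (u t) x‖ := by
  have e : cu (u t) x 1 = pd 2 (fun y => u t y 0) x - pd 0 (fun y => u t y 2) x := rfl
  rw [e]
  have h1 := abs_sub (pd 2 (fun y => u t y 0) x) (pd 0 (fun y => u t y 2) x)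
  linarith [h.pd_le ht 0 2 x, h.pd_le ht 2 0 x]

/-- The velocity is bounded before the time `T`. -/
theorem AxSol.bdd (h : AxSol ν T E u p) {S : ℝ} (hS : S < T) :
    ∃ W : ℝ, 0 ≤ W ∧ ∀ t ∈ Icc 0 S, ∀ x, ‖u t x‖ ≤ W := by
  obtain ⟨R, hR⟩ := h.decay S hS 1 one_pos
  have hK : IsCompact (Icc 0 S ×ˢ closedBall (0 : V) R) :=
    isCompact_Icc.prod (isCompact_closedBall _ _)
  have hc : ContinuousOn (fun z : ℝ × V => u z.1 z.2) (Icc 0 S ×ˢ closedBall (0 : V) R) :=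
    h.smooth_u.continuousOn.mono fun z hz => ⟨⟨hz.1.1, hz.1.2.trans_lt hS⟩, mem_univ _⟩
  obtain ⟨C, hC⟩ := hK.exists_bound_of_continuousOn hc
  refine ⟨max C 1, le_max_of_le_right zero_le_one, fun t ht x => ?_⟩
  rcases le_total R ‖x‖ with h1 | h1
  · exact ((hR t ht x h1).1).trans (le_max_right _ _)
  · exact (hC (t, x) ⟨ht, mem_closedBall_zero_iff.2 h1⟩).trans (le_max_left _ _)

theorem AxSol.grad_bdd (h : AxSol ν T E u p) {t : ℝ} (ht : t ∈ Ico 0 T) :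
    ∃ C : ℝ, 0 ≤ C ∧ ∀ x, ‖fderiv ℝ (u t) x‖ ≤ C := by
  obtain ⟨R, hR⟩ := h.decay t ht.2 1 one_pos
  have hsm : ContDiff ℝ ∞ (u t) := contDiff_pi.2 fun i => h.sm ht i
  obtain ⟨C, hC⟩ := (isCompact_closedBall (0 : V) R).exists_bound_of_continuousOn
    (hsm.continuous_fderiv (by norm_num)).continuousOn
  refine ⟨max C 1, le_max_of_le_right zero_le_one, fun x => ?_⟩
  rcases le_total R ‖x‖ with h1 | h1
  · exact ((hR t ⟨ht.1, le_rfl⟩ x h1).2).trans (le_max_right _ _)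
  · exact (hC x (mem_closedBall_zero_iff.2 h1)).trans (le_max_left _ _)

theorem AxSol.axis (h : AxSol ν T E u p) {t : ℝ} (ht : t ∈ Ico 0 T) (z : ℝ) :
    cu (u t) (pt 0 z) 1 = 0 ∧ u t (pt 0 z) 1 = 0 := by
  have e0 : pt 0 z 0 = 0 := rfl
  have e1 : pt 0 z 1 = 0 := rfl
  have h1 := (Eqv.inf (fun i => h.sm_cu ht i) (curl_eqv (fun i => h.sm ht i) (h.axi_u t ht))
    (pt 0 z)).1
  have h2 := (Eqv.inf (fun i => h.sm ht i) (h.axi_u t ht) (pt 0 z)).1
  rw [e0, e1] at h1 h2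
  constructor <;> linarith

/-- The initial vorticity. -/
theorem AxSol.init (h : AxSol ν T E u p) (hT : 0 < T) : ∃ A : ℝ, 0 ≤ A ∧ ∀ r, 0 ≤ r → ∀ z,
    |cu (u 0) (pt r z) 1| ≤ A * r ∧ |cu (u 0) (pt r z) 1| ≤ A := by
  have h0 : (0 : ℝ) ∈ Ico 0 T := ⟨le_rfl, hT⟩
  obtain ⟨C, hC⟩ := h.data
  obtain ⟨C1, hC10, hC1⟩ := h.grad_bdd h0
  have hC0 : 0 ≤ C := (abs_nonneg _).trans (hC 0 0 0 0)
  refine ⟨2 * C + 2 * C1, by positivity, fun r hr z => ⟨?_, ?_⟩⟩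
  · have hd : ∀ s ∈ Icc 0 r, HasDerivWithinAt (fun s => cu (u 0) (pt s z) 1)
        (pd 0 (fun y => cu (u 0) y 1) (pt s z)) (Icc 0 r) s := fun s _ =>
      (hasDerivAt_pt0 (h.sm_cu h0 1) s z).hasDerivWithinAt
    have hb : ∀ s ∈ Icc 0 r, ‖pd 0 (fun y => cu (u 0) y 1) (pt s z)‖ ≤ 2 * C := by
      intro s _
      have e : (fun y => cu (u 0) y 1) = fun y => pd 2 (fun y => u 0 y 0) y
        - pd 0 (fun y => u 0 y 2) y := rfl
      rw [e, s_sub ((h.sm h0 _).pd' _) ((h.sm h0 _).pd' _), Real.norm_eq_abs]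
      have h1 := abs_sub (pd 0 (pd 2 fun y => u 0 y 0) (pt s z)) (pd 0 (pd 0 fun y => u 0 y 2) (pt s z))
      linarith [hC 0 2 0 (pt s z), hC 0 0 2 (pt s z)]
    have h1 := Convex.norm_image_sub_le_of_norm_hasDerivWithin_le hd hb (convex_Icc _ _)
      (left_mem_Icc.2 hr) (right_mem_Icc.2 hr)
    rw [(h.axis h0 z).1, sub_zero, sub_zero, Real.norm_eq_abs, Real.norm_eq_abs,
      abs_of_nonneg hr] at h1
    have := mul_nonneg (by positivity : 0 ≤ 2 * C1) hr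
    linarith
  · have h1 := h.cu_le h0 (pt r z)
    have h2 := hC1 (pt r z)
    linarith

/-- The condition of the theorem at the time `t`. -/
def Cond (ν a K M : ℝ) (v : V → V) : Prop := ∀ r z : ℝ, 0 < r →
  K * min 1 (r ^ a) < |cu v (pt r z) 1| →
  (1 - a) * r * v (pt r z) 0 * cu v (pt r z) 1 ^ 2
    - 2 * r * v (pt r z) 1 * cu v (pt r z) 0 * cu v (pt r z) 1
  ≤ (ν * (1 - a ^ 2) + M * r ^ 2) * cu v (pt r z) 1 ^ 2

/-- The rate at a positive value. -/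
theorem rate {ν a K M σ r z : ℝ} {v : V → V} (h : Cond ν a K M v) (hr : 0 < r) (hσ : σ ^ 2 = 1)
    (hf : 0 < σ * cu v (pt r z) 1) (hfK : K * min 1 (r ^ a) < σ * cu v (pt r z) 1) :
    -(2 * (v (pt r z) 1 / r) * (σ * cu v (pt r z) 0))
      ≤ (ν * (1 - a ^ 2) / r ^ 2 + M - (1 - a) * (v (pt r z) 0 / r)) * (σ * cu v (pt r z) 1) := by
  set f := σ * cu v (pt r z) 1 with hfd
  have e1 : cu v (pt r z) 1 = σ * f := by
    rw [hfd]
    linear_combination (-(cu v (pt r z) 1)) * hσ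
  have e2 : cu v (pt r z) 1 ^ 2 = f ^ 2 := by
    rw [hfd, mul_pow, hσ, one_mul]
  have e3 : |cu v (pt r z) 1| = f := by
    rw [← Real.sqrt_sq_eq_abs, e2, Real.sqrt_sq hf.le]
  have h1 := h r z hr (by rw [e3]; exact hfK)
  rw [e2, e1] at h1
  have hr2 : 0 < r ^ 2 := by positivity
  have h2 : f * r ^ 2 * (-(2 * (v (pt r z) 1 / r) * (σ * cu v (pt r z) 0)))
      ≤ f * r ^ 2 * ((ν * (1 - a ^ 2) / r ^ 2 + M - (1 - a) * (v (pt r z) 0 / r)) * f) := by
    have l1 : f * r ^ 2 * (-(2 * (v (pt r z) 1 / r) * (σ * cu v (pt r z) 0)))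
        = -(2 * r * v (pt r z) 1 * cu v (pt r z) 0 * (σ * f)) := by
      field_simp
    have l2 : f * r ^ 2 * ((ν * (1 - a ^ 2) / r ^ 2 + M - (1 - a) * (v (pt r z) 0 / r)) * f)
        = (ν * (1 - a ^ 2) + M * r ^ 2) * f ^ 2 - (1 - a) * r * v (pt r z) 0 * f ^ 2 := by
      field_simp
    rw [l1, l2]
    linarith
  exact le_of_mul_le_mul_left h2 (by positivity)

variable {M : ℝ → ℝ}

/-- The primitive of `M`. -/
noncomputable def II (M : ℝ → ℝ) (t : ℝ) : ℝ := ∫ s in (0 : ℝ)..t, M s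

theorem II_props {T : ℝ} (hM0 : ∀ t ∈ Ioo 0 T, 0 ≤ M t) (hMc : ContinuousOn M (Ico 0 T))
    (hMi : IntegrableOn M (Ioo 0 T)) :
    (∀ t ∈ Ioo 0 T, HasDerivAt (II M) (M t) t) ∧ ContinuousOn (II M) (Ico 0 T) ∧
    (∀ t ∈ Ico 0 T, 0 ≤ II M t ∧ II M t ≤ ∫ s in Ioo 0 T, M s) := by
  have hint : ∀ t ∈ Ico 0 T, IntervalIntegrable M volume 0 t := by
    intro t ht
    refine ContinuousOn.intervalIntegrable_of_Icc ht.1 (hMc.mono fun s hs => ⟨hs.1, hs.2.trans_lt ht.2⟩)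
  have hd : ∀ t ∈ Ioo 0 T, HasDerivAt (II M) (M t) t := by
    intro t ht
    have hmem : Ico 0 T ∈ 𝓝 t := Ico_mem_nhds ht.1 ht.2
    refine intervalIntegral.integral_hasDerivAt_right (hint t ⟨ht.1.le, ht.2⟩) ?_
      (hMc.continuousAt hmem)
    exact (hMc.mono Ioo_subset_Ico_self).stronglyMeasurableAtFilter isOpen_Ioo t ht
  refine ⟨hd, ?_, ?_⟩
  · intro t ht
    obtain ⟨S, hS1, hS2⟩ := exists_between ht.2
    have h1 : ContinuousOn (II M) (Icc 0 S) := by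
      have := intervalIntegral.continuousOn_primitive_interval
        (f := M) (a := 0) (b := S) (μ := volume) (by
          rw [uIcc_of_le (ht.1.trans hS1.le)]
          exact (hMc.mono fun s hs => ⟨hs.1, hs.2.trans_lt hS2⟩).integrableOn_Icc)
      rwa [uIcc_of_le (ht.1.trans hS1.le)] at this
    have h2 : ContinuousWithinAt (II M) (Icc 0 S) t := h1 t ⟨ht.1, hS1.le⟩
    refine h2.mono_of_mem_nhdsWithin ?_
    have h3 : Icc 0 S ∈ 𝓝[Ico 0 T] t := by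
      have h4 : Iio S ∈ 𝓝 t := Iio_mem_nhds hS1
      filter_upwards [mem_nhdsWithin_of_mem_nhds h4, self_mem_nhdsWithin] with s hs1 hs2
      exact ⟨hs2.1, le_of_lt hs1⟩
    exact h3
  · intro t ht
    have h1 : II M t = ∫ s in Ioo 0 t, M s := by
      unfold II
      rw [intervalIntegral.integral_of_le ht.1, integral_Ioc_eq_integral_Ioo]
    rw [h1]
    constructor
    · exact setIntegral_nonneg measurableSet_Ioo fun s hs => hM0 s ⟨hs.1, hs.2.trans ht.2⟩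
    · exact setIntegral_mono_set hMi ((ae_restrict_iff' measurableSet_Ioo).2
        (Filter.Eventually.of_forall fun s hs => hM0 s hs))
        (Ioo_subset_Ioo_right ht.2.le).eventuallyLE

/-- The azimuthal vorticity, up to the sign. -/
noncomputable def fo (u : ℝ → V → V) (σ : ℝ) (t : ℝ) (x : V) : ℝ := σ * cu (u t) x 1

/-- The azimuthal velocity, up to the sign. -/
noncomputable def fu (u : ℝ → V → V) (σ : ℝ) (t : ℝ) (x : V) : ℝ := σ * u t x 1

theorem pd_c {g : V → ℝ} (hg : Sm g) (σ : ℝ) (i : Fin 3) :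
    (pd i fun y => σ * g y) = fun y => σ * pd i g y := funext fun y => s_cmul σ hg i y

end

end Pool.Agent.R210.Ax
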