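import Pool.Agent.R210.X5

/-!
The criterion for axisymmetric solutions: the three applications of the maximum principle.
-/

open MeasureTheory Set Metric Filter Topology
open scoped ContDiff
open H459R3.NS

namespace Pool.Agent.R210.Ax

variable {ν T E : ℝ} {u : ℝ → V → V} {p : ℝ → V → ℝ} {M : ℝ → ℝ}

theorem AxSol.fo_sm (h : AxSol ν T E u p) (σ : ℝ) {t : ℝ} (ht : t ∈ Ico 0 T) : Sm (fo u σ t) :=
  contDiff_const.mul (h.sm_cu ht 1)

theorem AxSol.fu_sm (h : AxSol ν T E u p) (σ : ℝ) {t : ℝ} (ht : t ∈ Ico 0 T) : Sm (fu u σ t) :=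
  contDiff_const.mul (h.sm ht 1)

theorem AxSol.fo_eq (h : AxSol ν T E u p) (σ : ℝ) {t : ℝ} (ht : t ∈ Ioo 0 T) {r : ℝ} (hr : 0 < r)
    (z : ℝ) : HasDerivAt (fun s => fo u σ s (pt r z))
      (ν * (pd 0 (pd 0 (fo u σ t)) (pt r z) + pd 2 (pd 2 (fo u σ t)) (pt r z)
          + pd 0 (fo u σ t) (pt r z) / r - fo u σ t (pt r z) / r ^ 2)
        - u t (pt r z) 0 * pd 0 (fo u σ t) (pt r z)
        - u t (pt r z) 2 * pd 2 (fo u σ t) (pt r z)
        + u t (pt r z) 0 / r * fo u σ t (pt r z)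
        - 2 * (u t (pt r z) 1 / r) * (σ * cu (u t) (pt r z) 0)) t := by
  have hs : Sm fun y => cu (u t) y 1 := h.sm_cu ⟨ht.1.le, ht.2⟩ 1
  have e : fo u σ t = fun y => σ * cu (u t) y 1 := rfl
  have e1 : ∀ i, pd i (fo u σ t) = fun y => σ * pd i (fun y => cu (u t) y 1) y := fun i => by
    rw [e]; exact pd_c hs σ i
  have e2 : ∀ i, pd i (pd i (fo u σ t)) = fun y => σ * pd i (pd i (fun y => cu (u t) y 1)) y :=
    fun i => by rw [e1]; exact pd_c (hs.pd' i) σ i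
  refine ((h.om_eq ht hr z).const_mul σ).congr_deriv ?_
  rw [e2, e2, e1, e1, e]
  ring

theorem AxSol.fu_eq (h : AxSol ν T E u p) (σ : ℝ) {t : ℝ} (ht : t ∈ Ioo 0 T) {r : ℝ} (hr : 0 < r)
    (z : ℝ) : HasDerivAt (fun s => fu u σ s (pt r z))
      (ν * (pd 0 (pd 0 (fu u σ t)) (pt r z) + pd 2 (pd 2 (fu u σ t)) (pt r z)
          + pd 0 (fu u σ t) (pt r z) / r - fu u σ t (pt r z) / r ^ 2)
        - u t (pt r z) 0 * pd 0 (fu u σ t) (pt r z)
        - u t (pt r z) 2 * pd 2 (fu u σ t) (pt r z)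
        - u t (pt r z) 0 / r * fu u σ t (pt r z)) t := by
  have hs : Sm fun y => u t y 1 := h.sm ⟨ht.1.le, ht.2⟩ 1
  have e : fu u σ t = fun y => σ * u t y 1 := rfl
  have e1 : ∀ i, pd i (fu u σ t) = fun y => σ * pd i (fun y => u t y 1) y := fun i => by
    rw [e]; exact pd_c hs σ i
  have e2 : ∀ i, pd i (pd i (fu u σ t)) = fun y => σ * pd i (pd i (fun y => u t y 1)) y :=
    fun i => by rw [e1]; exact pd_c (hs.pd' i) σ i
  refine ((h.u_eq ht hr z).const_mul σ).congr_deriv ?_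
  rw [e2, e2, e1, e1, e]
  ring

theorem abs_sg {σ : ℝ} (hσ : σ ^ 2 = 1) (y : ℝ) : |σ * y| = |y| := by
  rw [abs_mul]
  have : |σ| = 1 := by
    rw [← sq_abs] at hσ
    nlinarith [abs_nonneg σ]
  rw [this, one_mul]

theorem AxSol.fo_cont (h : AxSol ν T E u p) (σ : ℝ) {S : ℝ} (hS : S < T) :
    ContinuousOn (fun q : ℝ × V => fo u σ q.1 q.2) (Icc 0 S ×ˢ univ) :=
  continuousOn_const.mul ((h.smooth_cu 1).continuousOn.mono fun q hq =>
    ⟨⟨hq.1.1, hq.1.2.trans_lt hS⟩, hq.2⟩)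

theorem AxSol.fu_cont (h : AxSol ν T E u p) (σ : ℝ) {S : ℝ} (hS : S < T) :
    ContinuousOn (fun q : ℝ × V => fu u σ q.1 q.2) (Icc 0 S ×ˢ univ) :=
  continuousOn_const.mul ((h.smooth_c 1).continuousOn.mono fun q hq =>
    ⟨⟨hq.1.1, hq.1.2.trans_lt hS⟩, hq.2⟩)

theorem AxSol.fo_dec (h : AxSol ν T E u p) {σ : ℝ} (hσ : σ ^ 2 = 1) {S : ℝ} (hS : S < T) :
    ∀ ε > 0, ∃ R : ℝ, ∀ t ∈ Icc 0 S, ∀ x, R ≤ ‖x‖ → fo u σ t x ≤ ε := by
  intro ε hε
  obtain ⟨R, hR⟩ := h.decay S hS (ε / 2) (by positivity)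
  refine ⟨R, fun t ht x hx => ?_⟩
  have h1 := (hR t ht x hx).2
  have h2 := h.cu_le (t := t) ⟨ht.1, ht.2.trans_lt hS⟩ x
  refine (le_abs_self _).trans ?_
  show |σ * cu (u t) x 1| ≤ ε
  rw [abs_sg hσ]
  linarith

theorem AxSol.fu_dec (h : AxSol ν T E u p) {σ : ℝ} (hσ : σ ^ 2 = 1) {S : ℝ} (hS : S < T) :
    ∀ ε > 0, ∃ R : ℝ, ∀ t ∈ Icc 0 S, ∀ x, R ≤ ‖x‖ → fu u σ t x ≤ ε := by
  intro ε hε
  obtain ⟨R, hR⟩ := h.decay S hS ε hε
  refine ⟨R, fun t ht x hx => ?_⟩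
  have h1 := (hR t ht x hx).1
  refine (le_abs_self _).trans ?_
  show |σ * u t x 1| ≤ ε
  rw [abs_sg hσ]
  exact (norm_le_pi_norm (u t x) 1).trans h1

/-- Step 1: the barrier `r ^ a`. -/
theorem AxSol.step1 (h : AxSol ν T E u p) (hν : 0 < ν) {a K : ℝ} (ha0 : 0 ≤ a) (ha1 : a ≤ 1)
    (hM0 : ∀ t ∈ Ioo 0 T, 0 ≤ M t) (hMc : ContinuousOn M (Ico 0 T)) (hMi : IntegrableOn M (Ioo 0 T))
    (hc : ∀ t ∈ Ioo 0 T, Cond ν a K (M t) (u t)) {A : ℝ} (hA0 : 0 ≤ A) (hKA : K ≤ A)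
    (hA : ∀ r, 0 ≤ r → ∀ z, |cu (u 0) (pt r z) 1| ≤ A * r ^ a)
    {σ : ℝ} (hσ : σ ^ 2 = 1) {t : ℝ} (ht : t ∈ Ico 0 T) {r : ℝ} (hr : 0 ≤ r) (z : ℝ) :
    σ * cu (u t) (pt r z) 1 ≤ A * Real.exp (II M t) * r ^ a := by
  have hT : 0 < T := ht.1.trans_lt ht.2
  obtain ⟨hId, hIc, hIb⟩ := II_props hM0 hMc hMi
  obtain ⟨W, hW0, hW⟩ := h.bdd ht.2
  obtain ⟨CM, hCM⟩ := isCompact_Icc.exists_bound_of_continuousOn
    (hMc.mono fun s (hs : s ∈ Icc 0 t) => ⟨hs.1, hs.2.trans_lt ht.2⟩)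
  have hra : Continuous fun r : ℝ => r ^ a := Real.continuous_rpow_const ha0
  have hsub : ∀ s ∈ Ioc 0 t, s ∈ Ioo 0 T := fun s hs => ⟨hs.1, hs.2.trans_lt ht.2⟩
  refine max_pr (S := t) (C := W ^ 2 / (4 * ν) + CM) (f := fo u σ)
    (ft := fun s x => ν * (pd 0 (pd 0 (fo u σ s)) x + pd 2 (pd 2 (fo u σ s)) x
          + pd 0 (fo u σ s) x / x 0 - fo u σ s x / x 0 ^ 2)
        - u s x 0 * pd 0 (fo u σ s) x
        - u s x 2 * pd 2 (fo u σ s) x
        + u s x 0 / x 0 * fo u σ s x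
        - 2 * (u s x 1 / x 0) * (σ * cu (u s) x 0))
    (g := fun s r => A * Real.exp (II M s) * r ^ a)
    (gt := fun s r => A * (Real.exp (II M s) * M s) * r ^ a)
    (gr := fun s r => A * Real.exp (II M s) * (a * r ^ (a - 1)))
    (grr := fun s r => A * Real.exp (II M s) * (a * ((a - 1) * r ^ (a - 1 - 1))))
    (h.fo_cont σ ht.2) ?_ ?_ (h.fo_dec hσ ht.2) ?_ ?_ (fun s hs => h.fo_sm σ ⟨hs.1.le, (hsub s hs).2⟩)
    ?_ ?_ (fun s hs r hr z => h.fo_eq σ (hsub s hs) hr z) ?_ ?_ t ⟨ht.1, le_rfl⟩ r hr z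
  · refine (continuousOn_const.mul ?_).mul (hra.comp continuous_snd).continuousOn
    exact (Real.continuous_exp.comp_continuousOn (hIc.comp continuousOn_fst
      fun q hq => ⟨hq.1.1, hq.1.2.trans_lt ht.2⟩))
  · intro s _ r hr
    have := Real.rpow_nonneg hr a
    positivity
  · intro s hs z
    have h1 := (h.axis (t := s) ⟨hs.1, hs.2.trans_lt ht.2⟩ z).1
    show σ * cu (u s) (pt 0 z) 1 ≤ _
    rw [h1, mul_zero]
    have := Real.rpow_nonneg (le_refl (0 : ℝ)) a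
    positivity
  · intro r hr z
    have e0 : II M 0 = 0 := by simp [II]
    rw [e0, Real.exp_zero, mul_one]
    refine (le_abs_self _).trans ?_
    show |σ * cu (u 0) (pt r z) 1| ≤ _
    rw [abs_sg hσ]
    exact hA r hr z
  · intro s _ r hr
    exact (Real.hasDerivAt_rpow_const (Or.inl hr.ne')).const_mul _
  · intro s _ r hr
    exact ((Real.hasDerivAt_rpow_const (Or.inl hr.ne')).const_mul a).const_mul _
  · intro s hs r _
    exact (((hId s (hsub s hs)).exp).const_mul A).mul_const _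
  · intro s hs r hr z hfg h1 h2 h3 h4
    have e0 : pt r z 0 = r := rfl
    simp only [e0]
    rw [h1, h2]
    set f := fo u σ s (pt r z) with hf
    set v0 := u s (pt r z) 0 with hv0
    set G := A * Real.exp (II M s) * r ^ a with hG
    have hra0 : 0 < r ^ a := Real.rpow_pos_of_pos hr a
    have hG0 : 0 ≤ G := by positivity
    have hf0 : 0 < f := lt_of_le_of_lt hG0 hfg
    have hexp : 1 ≤ Real.exp (II M s) := Real.one_le_exp (hIb s ⟨hs.1.le, (hsub s hs).2⟩).1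
    have hKf : K * min 1 (r ^ a) < f := by
      refine lt_of_le_of_lt ?_ hfg
      have m1 : min 1 (r ^ a) ≤ r ^ a := min_le_right _ _
      have m0 : 0 ≤ min 1 (r ^ a) := le_min zero_le_one hra0.le
      calc K * min 1 (r ^ a) ≤ A * min 1 (r ^ a) := mul_le_mul_of_nonneg_right hKA m0
        _ ≤ A * r ^ a := mul_le_mul_of_nonneg_left m1 hA0
        _ ≤ A * Real.exp (II M s) * r ^ a :=
            mul_le_mul_of_nonneg_right (le_mul_of_one_le_right hA0 hexp) hra0.le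
    have hrate := rate (hc s (hsub s hs)) hr hσ hf0 hKf
    have hr1 : A * Real.exp (II M s) * (a * r ^ (a - 1)) = a * G / r := by
      rw [Real.rpow_sub_one hr.ne', hG]
      field_simp
    have hr2 : A * Real.exp (II M s) * (a * ((a - 1) * r ^ (a - 1 - 1))) = a * (a - 1) * G / r ^ 2 := by
      rw [Real.rpow_sub_one hr.ne', Real.rpow_sub_one hr.ne', hG]
      field_simp
    rw [hr1]
    rw [hr2] at h3
    have hM : M s ≤ CM := (le_abs_self _).trans (hCM s ⟨hs.1.le, hs.2⟩)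
    have hgt : A * (Real.exp (II M s) * M s) * r ^ a = M s * G := by rw [hG]; ring
    rw [hgt]
    have hF : 0 < f - G := sub_pos.2 hfg
    have hV : |v0| ≤ W := (norm_le_pi_norm (u s (pt r z)) 0).trans (hW s ⟨hs.1.le, hs.2⟩ _)
    have hV2 : v0 ^ 2 ≤ W ^ 2 := by
      rw [← sq_abs]
      exact pow_le_pow_left₀ (abs_nonneg _) hV 2
    have hfo : σ * cu (u s) (pt r z) 1 = f := rfl
    rw [hfo] at hrate
    -- the main computation
    have k1 : ν * (pd 0 (pd 0 (fo u σ s)) (pt r z) + pd 2 (pd 2 (fo u σ s)) (pt r z)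
          + a * G / r / r - f / r ^ 2)
        ≤ ν * (a * (a - 1) * G / r ^ 2 + 0 + a * G / r / r - f / r ^ 2) :=
      mul_le_mul_of_nonneg_left (by linarith) hν.le
    have k2 : ν * (a * (a - 1) * G / r ^ 2 + 0 + a * G / r / r - f / r ^ 2)
        - v0 * (a * G / r) - u s (pt r z) 2 * 0 + v0 / r * f
        + (ν * (1 - a ^ 2) / r ^ 2 + M s - (1 - a) * (v0 / r)) * f - M s * G
        = (-(ν * a ^ 2 / r ^ 2) + a * v0 / r + M s) * (f - G) := by
      field_simp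
      ring
    have k3 : -(ν * a ^ 2 / r ^ 2) + a * v0 / r ≤ W ^ 2 / (4 * ν) := by
      have e1 : W ^ 2 / (4 * ν) - (-(ν * a ^ 2 / r ^ 2) + a * v0 / r)
          = (W ^ 2 - v0 ^ 2) / (4 * ν) + (2 * ν * a / r - v0) ^ 2 / (4 * ν) := by
        field_simp
        ring
      have e2 : 0 ≤ (W ^ 2 - v0 ^ 2) / (4 * ν) := div_nonneg (by linarith) (by positivity)
      have e3 : 0 ≤ (2 * ν * a / r - v0) ^ 2 / (4 * ν) := by positivity
      linarith
    have k4 : (-(ν * a ^ 2 / r ^ 2) + a * v0 / r + M s) * (f - G)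
        ≤ (W ^ 2 / (4 * ν) + CM) * (f - G) :=
      mul_le_mul_of_nonneg_right (by linarith) hF.le
    linarith

end Pool.Agent.R210.Ax
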