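import Pool.Agent.R210.X6

/-!
The criterion for axisymmetric solutions: the bounds of the vorticity, the meridional velocity and
the azimuthal velocity.
-/

open MeasureTheory Set Metric Filter Topology
open scoped ContDiff
open H459R3.NS

namespace Pool.Agent.R210.Ax

variable {ν T E : ℝ} {u : ℝ → V → V} {p : ℝ → V → ℝ} {M : ℝ → ℝ}

theorem AxSol.mer (h : AxSol ν T E u p) {t : ℝ} (ht : t ∈ Ico 0 T) {B : ℝ} (hB0 : 0 ≤ B) {r : ℝ}
    (hr : 0 ≤ r) (hB : ∀ ρ z, 0 ≤ ρ → ρ ≤ r + 1 → |cu (u t) (pt ρ z) 1| ≤ B) (z : ℝ) :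
    |u t (pt r z) 0| ≤ 16 * BB * B + BB * (8 + E ^ 2) ∧
    |u t (pt r z) 2| ≤ 16 * BB * B + BB * (8 + E ^ 2) := by
  obtain ⟨C, hC0, hC⟩ := h.grad_bdd ht
  refine mer_le (C := C) (fun i => h.sm ht i) (h.divfree t ht) (h.axi_u t ht) ?_ (h.en_int t ht)
    (h.en t ht) hB0 hr hB z
  intro i x
  refine ContinuousLinearMap.opNorm_le_bound _ hC0 fun y => ?_
  rw [h.fderiv_comp ht i x y]
  refine (norm_le_pi_norm _ i).trans (((fderiv ℝ (u t) x).le_opNorm y).trans ?_)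
  exact mul_le_mul_of_nonneg_right (hC x) (norm_nonneg _)

/-- Step 2: the bound of the azimuthal vorticity. -/
theorem AxSol.step2 (h : AxSol ν T E u p) (hν : 0 < ν) {a K : ℝ} (ha0 : 0 ≤ a) (ha1 : a ≤ 1)
    (hM0 : ∀ t ∈ Ioo 0 T, 0 ≤ M t) (hMc : ContinuousOn M (Ico 0 T)) (hMi : IntegrableOn M (Ioo 0 T))
    (hc : ∀ t ∈ Ioo 0 T, Cond ν a K (M t) (u t)) {A B C' : ℝ} (hA0 : 0 ≤ A) (hKB : K ≤ B)
    (hAB : A ≤ B) (hC' : C' = 32 * BB * A + BB * (8 + E ^ 2))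
    (hA : ∀ t ∈ Ico 0 T, ∀ r, 0 ≤ r → ∀ z, |cu (u t) (pt r z) 1| ≤ A * r ^ a)
    (hB : ∀ r, 0 ≤ r → ∀ z, |cu (u 0) (pt r z) 1| ≤ B)
    {σ : ℝ} (hσ : σ ^ 2 = 1) {t : ℝ} (ht : t ∈ Ico 0 T) {r : ℝ} (hr : 0 ≤ r) (z : ℝ) :
    σ * cu (u t) (pt r z) 1 ≤ B * Real.exp (II M t + C' * t) := by
  have hBB := one_le_BB
  have hT : 0 < T := ht.1.trans_lt ht.2
  have hB0 : 0 ≤ B := hA0.trans hAB
  have hC'0 : 0 ≤ C' := by rw [hC']; positivity
  obtain ⟨hId, hIc, hIb⟩ := II_props hM0 hMc hMi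
  obtain ⟨CM, hCM⟩ := isCompact_Icc.exists_bound_of_continuousOn
    (hMc.mono fun s (hs : s ∈ Icc 0 t) => ⟨hs.1, hs.2.trans_lt ht.2⟩)
  have hsub : ∀ s ∈ Ioc 0 t, s ∈ Ioo 0 T := fun s hs => ⟨hs.1, hs.2.trans_lt ht.2⟩
  refine max_pr (S := t) (C := CM + C') (f := fo u σ)
    (ft := fun s x => ν * (pd 0 (pd 0 (fo u σ s)) x + pd 2 (pd 2 (fo u σ s)) x
          + pd 0 (fo u σ s) x / x 0 - fo u σ s x / x 0 ^ 2)
        - u s x 0 * pd 0 (fo u σ s) x
        - u s x 2 * pd 2 (fo u σ s) x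
        + u s x 0 / x 0 * fo u σ s x
        - 2 * (u s x 1 / x 0) * (σ * cu (u s) x 0))
    (g := fun s _ => B * Real.exp (II M s + C' * s))
    (gt := fun s _ => B * (Real.exp (II M s + C' * s) * (M s + C')))
    (gr := fun _ _ => 0) (grr := fun _ _ => 0)
    (h.fo_cont σ ht.2) ?_ ?_ (h.fo_dec hσ ht.2) ?_ ?_ (fun s hs => h.fo_sm σ ⟨hs.1.le, (hsub s hs).2⟩)
    (fun s _ r _ => hasDerivAt_const _ _) (fun s _ r _ => hasDerivAt_const _ _)
    (fun s hs r hr z => h.fo_eq σ (hsub s hs) hr z) ?_ ?_ t ⟨ht.1, le_rfl⟩ r hr z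
  · refine continuousOn_const.mul (Real.continuous_exp.comp_continuousOn ?_)
    refine (hIc.comp continuousOn_fst fun q hq => ⟨hq.1.1, hq.1.2.trans_lt ht.2⟩).add ?_
    exact (continuous_const.mul continuous_fst).continuousOn
  · intro s _ r hr
    positivity
  · intro s hs z
    have h1 := (h.axis (t := s) ⟨hs.1, hs.2.trans_lt ht.2⟩ z).1
    show σ * cu (u s) (pt 0 z) 1 ≤ _
    rw [h1, mul_zero]
    positivity
  · intro r hr z
    have e0 : II M 0 = 0 := by simp [II]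
    rw [e0, mul_zero, add_zero, Real.exp_zero, mul_one]
    refine (le_abs_self _).trans ?_
    show |σ * cu (u 0) (pt r z) 1| ≤ _
    rw [abs_sg hσ]
    exact hB r hr z
  · intro s hs r _
    have h1 : HasDerivAt (fun s => II M s + C' * s) (M s + C' * 1) s :=
      (hId s (hsub s hs)).add ((hasDerivAt_id' s).const_mul C')
    rw [mul_one] at h1
    exact h1.exp.const_mul B
  · intro s hs r hr z hfg h1 h2 h3 h4
    have e0 : pt r z 0 = r := rfl
    have hsT : s ∈ Ico 0 T := ⟨hs.1.le, (hsub s hs).2⟩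
    simp only [e0]
    rw [h1, h2]
    set f := fo u σ s (pt r z) with hf
    set v0 := u s (pt r z) 0 with hv0
    set G := B * Real.exp (II M s + C' * s) with hG
    have hII := (hIb s hsT).1
    have hexp : 1 ≤ Real.exp (II M s + C' * s) :=
      Real.one_le_exp (add_nonneg hII (mul_nonneg hC'0 hs.1.le))
    have hBG : B ≤ G := le_mul_of_one_le_right hB0 hexp
    have hG0 : 0 ≤ G := hB0.trans hBG
    have hf0 : 0 < f := lt_of_le_of_lt hG0 hfg
    have hra0 : 0 < r ^ a := Real.rpow_pos_of_pos hr a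
    have hfA : f ≤ A * r ^ a := by
      have := hA s hsT r hr.le z
      refine (le_abs_self _).trans ?_
      show |σ * cu (u s) (pt r z) 1| ≤ _
      rwa [abs_sg hσ]
    -- the radius is larger than one
    have hr1 : 1 < r := by
      by_contra hcon
      push Not at hcon
      have h5 : r ^ a ≤ 1 := Real.rpow_le_one hr.le hcon ha0
      have h6 : A * r ^ a ≤ A := mul_le_of_le_one_right hA0 h5
      linarith
    have hra1 : r ^ a ≤ r := by
      calc r ^ a ≤ r ^ (1 : ℝ) := Real.rpow_le_rpow_of_exponent_le hr1.le ha1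
        _ = r := Real.rpow_one r
    have hKf : K * min 1 (r ^ a) < f := by
      refine lt_of_le_of_lt ?_ hfg
      have m1 : min 1 (r ^ a) ≤ 1 := min_le_left _ _
      have m0 : 0 ≤ min 1 (r ^ a) := le_min zero_le_one hra0.le
      calc K * min 1 (r ^ a) ≤ B * min 1 (r ^ a) := mul_le_mul_of_nonneg_right hKB m0
        _ ≤ B * 1 := mul_le_mul_of_nonneg_left m1 hB0
        _ ≤ G := by rw [mul_one]; exact hBG
    have hrate := rate (hc s (hsub s hs)) hr hσ hf0 hKf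
    have hfo : σ * cu (u s) (pt r z) 1 = f := rfl
    rw [hfo] at hrate
    -- the radial velocity
    have hv : |v0| ≤ C' * r := by
      have h5 := (h.mer hsT (B := A * (r + 1)) (by positivity) hr.le (fun ρ ζ hρ hρr => by
        refine (hA s hsT ρ hρ ζ).trans (mul_le_mul_of_nonneg_left ?_ hA0)
        rcases le_total ρ 1 with h6 | h6
        · exact (Real.rpow_le_one hρ h6 ha0).trans (by linarith)
        · calc ρ ^ a ≤ ρ ^ (1 : ℝ) := Real.rpow_le_rpow_of_exponent_le h6 ha1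
            _ = ρ := Real.rpow_one ρ
            _ ≤ r + 1 := hρr) z).1
      refine h5.trans ?_
      rw [hC']
      have h6 : 16 * BB * (A * (r + 1)) ≤ 32 * BB * A * r := by
        have : 0 ≤ 16 * BB * A := by positivity
        nlinarith
      have h7 : BB * (8 + E ^ 2) ≤ BB * (8 + E ^ 2) * r :=
        le_mul_of_one_le_right (by positivity) hr1.le
      linarith
    have hv1 : v0 / r ≤ C' := by
      rw [div_le_iff₀ hr]
      exact (le_abs_self _).trans hv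
    have hM : M s ≤ CM := (le_abs_self _).trans (hCM s ⟨hs.1.le, hs.2⟩)
    have hMs := hM0 s (hsub s hs)
    have hgt : B * (Real.exp (II M s + C' * s) * (M s + C')) = (M s + C') * G := by rw [hG]; ring
    rw [hgt]
    have k1 : ν * (pd 0 (pd 0 (fo u σ s)) (pt r z) + pd 2 (pd 2 (fo u σ s)) (pt r z)
          + 0 / r - f / r ^ 2) ≤ ν * (0 + 0 + 0 / r - f / r ^ 2) :=
      mul_le_mul_of_nonneg_left (by linarith) hν.le
    have k2 : ν * (0 + 0 + 0 / r - f / r ^ 2) - v0 * 0 - u s (pt r z) 2 * 0 + v0 / r * f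
        + (ν * (1 - a ^ 2) / r ^ 2 + M s - (1 - a) * (v0 / r)) * f
        = (-(ν * a ^ 2 / r ^ 2) + a * (v0 / r) + M s) * f := by
      field_simp
      ring
    have k3 : -(ν * a ^ 2 / r ^ 2) + a * (v0 / r) + M s ≤ C' + M s := by
      have e1 : 0 ≤ ν * a ^ 2 / r ^ 2 := by positivity
      have e2 : a * (v0 / r) ≤ C' := by
        rcases le_total 0 (v0 / r) with h5 | h5
        · exact (mul_le_of_le_one_left h5 ha1).trans hv1
        · exact (mul_nonpos_of_nonneg_of_nonpos ha0 h5).trans hC'0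
      linarith
    have k4 : (-(ν * a ^ 2 / r ^ 2) + a * (v0 / r) + M s) * f ≤ (C' + M s) * f :=
      mul_le_mul_of_nonneg_right k3 hf0.le
    have k5 : (C' + M s) * (f - G) ≤ (CM + C') * (f - G) :=
      mul_le_mul_of_nonneg_right (by linarith) (by linarith)
    linarith

/-- Step 3: the azimuthal velocity. -/
theorem AxSol.step3 (h : AxSol ν T E u p) (hν : 0 < ν) {W D : ℝ} (hD0 : 0 ≤ D)
    (hW : ∀ t ∈ Ico 0 T, ∀ r, 0 < r → ∀ z, |u t (pt r z) 0| ≤ W)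
    (hD : ∀ r, 0 ≤ r → ∀ z, |u 0 (pt r z) 1| ≤ D)
    {σ : ℝ} (hσ : σ ^ 2 = 1) {t : ℝ} (ht : t ∈ Ico 0 T) {r : ℝ} (hr : 0 ≤ r) (z : ℝ) :
    σ * u t (pt r z) 1 ≤ D * Real.exp (W ^ 2 / (4 * ν) * t) := by
  have hT : 0 < T := ht.1.trans_lt ht.2
  have hsub : ∀ s ∈ Ioc 0 t, s ∈ Ioo 0 T := fun s hs => ⟨hs.1, hs.2.trans_lt ht.2⟩
  have hq0 : 0 ≤ W ^ 2 / (4 * ν) := by positivity
  refine max_pr (S := t) (C := W ^ 2 / (4 * ν)) (f := fu u σ)
    (ft := fun s x => ν * (pd 0 (pd 0 (fu u σ s)) x + pd 2 (pd 2 (fu u σ s)) x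
          + pd 0 (fu u σ s) x / x 0 - fu u σ s x / x 0 ^ 2)
        - u s x 0 * pd 0 (fu u σ s) x
        - u s x 2 * pd 2 (fu u σ s) x
        - u s x 0 / x 0 * fu u σ s x)
    (g := fun s _ => D * Real.exp (W ^ 2 / (4 * ν) * s))
    (gt := fun s _ => D * (Real.exp (W ^ 2 / (4 * ν) * s) * (W ^ 2 / (4 * ν))))
    (gr := fun _ _ => 0) (grr := fun _ _ => 0)
    (h.fu_cont σ ht.2) ?_ ?_ (h.fu_dec hσ ht.2) ?_ ?_ (fun s hs => h.fu_sm σ ⟨hs.1.le, (hsub s hs).2⟩)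
    (fun s _ r _ => hasDerivAt_const _ _) (fun s _ r _ => hasDerivAt_const _ _)
    (fun s hs r hr z => h.fu_eq σ (hsub s hs) hr z) ?_ ?_ t ⟨ht.1, le_rfl⟩ r hr z
  · exact (continuous_const.mul (Real.continuous_exp.comp
      (continuous_const.mul continuous_fst))).continuousOn
  · intro s _ r hr
    positivity
  · intro s hs z
    have h1 := (h.axis (t := s) ⟨hs.1, hs.2.trans_lt ht.2⟩ z).2
    show σ * u s (pt 0 z) 1 ≤ _
    rw [h1, mul_zero]
    positivity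
  · intro r hr z
    rw [mul_zero, Real.exp_zero, mul_one]
    refine (le_abs_self _).trans ?_
    show |σ * u 0 (pt r z) 1| ≤ _
    rw [abs_sg hσ]
    exact hD r hr z
  · intro s hs r _
    have h1 : HasDerivAt (fun s => W ^ 2 / (4 * ν) * s) (W ^ 2 / (4 * ν) * 1) s :=
      (hasDerivAt_id' s).const_mul _
    rw [mul_one] at h1
    exact h1.exp.const_mul D
  · intro s hs r hr z hfg h1 h2 h3 h4
    have e0 : pt r z 0 = r := rfl
    have hsT : s ∈ Ico 0 T := ⟨hs.1.le, (hsub s hs).2⟩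
    simp only [e0]
    rw [h1, h2]
    set f := fu u σ s (pt r z) with hf
    set v0 := u s (pt r z) 0 with hv0
    set G := D * Real.exp (W ^ 2 / (4 * ν) * s) with hG
    have hG0 : 0 ≤ G := by positivity
    have hf0 : 0 < f := lt_of_le_of_lt hG0 hfg
    have hV2 : v0 ^ 2 ≤ W ^ 2 := by
      rw [← sq_abs]
      exact pow_le_pow_left₀ (abs_nonneg _) (hW s hsT r hr z) 2
    have hgt : D * (Real.exp (W ^ 2 / (4 * ν) * s) * (W ^ 2 / (4 * ν))) = W ^ 2 / (4 * ν) * G := by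
      rw [hG]; ring
    rw [hgt]
    have k1 : ν * (pd 0 (pd 0 (fu u σ s)) (pt r z) + pd 2 (pd 2 (fu u σ s)) (pt r z)
          + 0 / r - f / r ^ 2) ≤ ν * (0 + 0 + 0 / r - f / r ^ 2) :=
      mul_le_mul_of_nonneg_left (by linarith) hν.le
    have k2 : ν * (0 + 0 + 0 / r - f / r ^ 2) - v0 * 0 - u s (pt r z) 2 * 0 - v0 / r * f
        = (-(ν / r ^ 2) - v0 / r) * f := by
      field_simp
      ring
    have k3 : -(ν / r ^ 2) - v0 / r ≤ W ^ 2 / (4 * ν) := by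
      have e1 : W ^ 2 / (4 * ν) - (-(ν / r ^ 2) - v0 / r)
          = (W ^ 2 - v0 ^ 2) / (4 * ν) + (2 * ν / r + v0) ^ 2 / (4 * ν) := by
        field_simp
        ring
      have e2 : 0 ≤ (W ^ 2 - v0 ^ 2) / (4 * ν) := div_nonneg (by linarith) (by positivity)
      have e3 : 0 ≤ (2 * ν / r + v0) ^ 2 / (4 * ν) := by positivity
      linarith
    have k4 : (-(ν / r ^ 2) - v0 / r) * f ≤ W ^ 2 / (4 * ν) * f :=
      mul_le_mul_of_nonneg_right k3 hf0.le
    linarith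

/-- The criterion. -/
theorem AxSol.criterion (h : AxSol ν T E u p) (hν : 0 < ν) {a K : ℝ} (ha0 : 0 ≤ a) (ha1 : a ≤ 1)
    (hM0 : ∀ t ∈ Ioo 0 T, 0 ≤ M t) (hMc : ContinuousOn M (Ico 0 T)) (hMi : IntegrableOn M (Ioo 0 T))
    (hc : ∀ t ∈ Ioo 0 T, Cond ν a K (M t) (u t)) :
    ∃ B : ℝ, ∀ t ∈ Ico 0 T, ∀ x, ‖u t x‖ ≤ B := by
  have hBB := one_le_BB
  rcases le_or_gt T 0 with hT | hT
  · exact ⟨0, fun t ht => absurd (ht.1.trans_lt ht.2) (not_lt.2 hT)⟩
  obtain ⟨hId, hIc, hIb⟩ := II_props hM0 hMc hMi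
  set I1 : ℝ := ∫ s in Ioo 0 T, M s with hI1
  obtain ⟨A0, hA00, hA0⟩ := h.init hT
  set A1 : ℝ := max A0 K with hA1
  have hA10 : 0 ≤ A1 := hA00.trans (le_max_left _ _)
  have hinit : ∀ r, 0 ≤ r → ∀ z, |cu (u 0) (pt r z) 1| ≤ A1 * r ^ a := by
    intro r hr z
    obtain ⟨h1, h2⟩ := hA0 r hr z
    rcases le_total r 1 with h3 | h3
    · rcases hr.eq_or_lt with h4 | h4
      · rw [← h4] at h1 ⊢
        rw [mul_zero] at h1
        exact h1.trans (mul_nonneg hA10 (Real.rpow_nonneg le_rfl a))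
      · have h5 : r ≤ r ^ a := by
          calc r = r ^ (1 : ℝ) := (Real.rpow_one r).symm
            _ ≤ r ^ a := Real.rpow_le_rpow_of_exponent_ge h4 h3 ha1
        calc _ ≤ A0 * r := h1
          _ ≤ A1 * r ^ a := mul_le_mul (le_max_left _ _) h5 hr hA10
    · have h5 : 1 ≤ r ^ a := Real.one_le_rpow h3 ha0
      calc _ ≤ A0 := h2
        _ ≤ A1 := le_max_left _ _
        _ ≤ A1 * r ^ a := le_mul_of_one_le_right hA10 h5
  set A : ℝ := A1 * Real.exp I1 with hAd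
  have hI10 : 0 ≤ I1 := (hIb 0 ⟨le_rfl, hT⟩).1.trans (hIb 0 ⟨le_rfl, hT⟩).2
  have hA : 0 ≤ A := by positivity
  have hexp1 : 1 ≤ Real.exp I1 := Real.one_le_exp hI10
  have hA1A : A1 ≤ A := le_mul_of_one_le_right hA10 hexp1
  have s1 : ∀ t ∈ Ico 0 T, ∀ r, 0 ≤ r → ∀ z, |cu (u t) (pt r z) 1| ≤ A * r ^ a := by
    intro t ht r hr z
    have hra := Real.rpow_nonneg hr a
    have e : A1 * Real.exp (II M t) * r ^ a ≤ A * r ^ a := by
      refine mul_le_mul_of_nonneg_right ?_ hra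
      exact mul_le_mul_of_nonneg_left (Real.exp_le_exp.2 (hIb t ht).2) hA10
    have h1 := h.step1 hν ha0 ha1 hM0 hMc hMi hc hA10 (le_max_right _ _) hinit (σ := 1) (by norm_num)
      ht hr z
    have h2 := h.step1 hν ha0 ha1 hM0 hMc hMi hc hA10 (le_max_right _ _) hinit (σ := -1) (by norm_num)
      ht hr z
    rw [abs_le]
    constructor <;> linarith
  obtain ⟨C', hC'⟩ : ∃ C', C' = 32 * BB * A + BB * (8 + E ^ 2) := ⟨_, rfl⟩
  have hC'0 : 0 ≤ C' := by rw [hC']; positivity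
  set B : ℝ := A * Real.exp (I1 + C' * T) with hBd
  have hB0 : 0 ≤ B := by positivity
  have s2 : ∀ t ∈ Ico 0 T, ∀ r, 0 ≤ r → ∀ z, |cu (u t) (pt r z) 1| ≤ B := by
    intro t ht r hr z
    have hin2 : ∀ r, 0 ≤ r → ∀ z, |cu (u 0) (pt r z) 1| ≤ A := fun r hr z =>
      ((hA0 r hr z).2.trans (le_max_left _ _)).trans hA1A
    have e : A * Real.exp (II M t + C' * t) ≤ B := by
      refine mul_le_mul_of_nonneg_left (Real.exp_le_exp.2 ?_) hA
      have := mul_le_mul_of_nonneg_left ht.2.le hC'0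
      linarith [(hIb t ht).2]
    have h1 := h.step2 hν ha0 ha1 hM0 hMc hMi hc hA ((le_max_right _ _).trans hA1A) le_rfl hC' s1 hin2
      (σ := 1) (by norm_num) ht hr z
    have h2 := h.step2 hν ha0 ha1 hM0 hMc hMi hc hA ((le_max_right _ _).trans hA1A) le_rfl hC' s1 hin2
      (σ := -1) (by norm_num) ht hr z
    rw [abs_le]
    constructor <;> linarith
  set W : ℝ := 16 * BB * B + BB * (8 + E ^ 2) with hW
  have hW0 : 0 ≤ W := by positivity
  have s3 : ∀ t ∈ Ico 0 T, ∀ r, 0 ≤ r → ∀ z, |u t (pt r z) 0| ≤ W ∧ |u t (pt r z) 2| ≤ W :=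
    fun t ht r hr z => h.mer ht hB0 hr (fun ρ ζ hρ _ => s2 t ht ρ hρ ζ) z
  obtain ⟨D, hD0, hD⟩ := h.bdd hT
  set D1 : ℝ := D * Real.exp (W ^ 2 / (4 * ν) * T) with hD1
  have hD10 : 0 ≤ D1 := by positivity
  have s4 : ∀ t ∈ Ico 0 T, ∀ r, 0 ≤ r → ∀ z, |u t (pt r z) 1| ≤ D1 := by
    intro t ht r hr z
    have hin2 : ∀ r, 0 ≤ r → ∀ z, |u 0 (pt r z) 1| ≤ D := fun r _ z =>
      (norm_le_pi_norm (u 0 (pt r z)) 1).trans (hD 0 ⟨le_rfl, le_rfl⟩ _)
    have hq0 : 0 ≤ W ^ 2 / (4 * ν) := by positivity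
    have e : D * Real.exp (W ^ 2 / (4 * ν) * t) ≤ D1 :=
      mul_le_mul_of_nonneg_left (Real.exp_le_exp.2 (mul_le_mul_of_nonneg_left ht.2.le hq0)) hD0
    have h1 := h.step3 hν hD0 (fun t ht r hr z => (s3 t ht r hr.le z).1) hin2 (σ := 1) (by norm_num)
      ht hr z
    have h2 := h.step3 hν hD0 (fun t ht r hr z => (s3 t ht r hr.le z).1) hin2 (σ := -1)
      (by norm_num) ht hr z
    rw [abs_le]
    constructor <;> linarith
  refine ⟨W + D1, fun t ht x => ?_⟩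
  obtain ⟨θ, ρ, hρ, -, hx⟩ := polar x
  have hu : u t x = rot θ (u t (pt ρ (x 2))) := by
    conv_lhs => rw [hx]
    exact h.axi_u t ht θ _
  obtain ⟨b0, b2⟩ := s3 t ht ρ hρ (x 2)
  have b1 := s4 t ht ρ hρ (x 2)
  have hcs := Real.abs_cos_le_one θ
  have hsn := Real.abs_sin_le_one θ
  rw [pi_norm_le_iff_of_nonneg (by positivity)]
  have g : ∀ y z : ℝ, |y| ≤ 1 → |y * z| ≤ |z| := fun y z hy => by
    rw [abs_mul]
    exact mul_le_of_le_one_left (abs_nonneg _) hy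
  intro i
  rw [hu, Real.norm_eq_abs]
  fin_cases i
  · show |Real.cos θ * u t (pt ρ (x 2)) 0 - Real.sin θ * u t (pt ρ (x 2)) 1| ≤ _
    refine (abs_sub _ _).trans ?_
    linarith [g _ (u t (pt ρ (x 2)) 0) hcs, g _ (u t (pt ρ (x 2)) 1) hsn]
  · show |Real.sin θ * u t (pt ρ (x 2)) 0 + Real.cos θ * u t (pt ρ (x 2)) 1| ≤ _
    refine (abs_add_le _ _).trans ?_
    linarith [g _ (u t (pt ρ (x 2)) 0) hsn, g _ (u t (pt ρ (x 2)) 1) hcs]
  · show |u t (pt ρ (x 2)) 2| ≤ _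
    linarith

end Pool.Agent.R210.Ax
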