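import Pool.Agent.R210.X7

/-!
The circulation `r u_θ` of axisymmetric solutions of the Navier-Stokes equations.
-/

open MeasureTheory Set Metric Filter Topology
open scoped ContDiff
open H459R3.NS

namespace Pool.Agent.R210.Ax

/-- The maximum principle, with the decay in the half plane only. -/
theorem max_pr2 {S C : ℝ} {f ft : ℝ → V → ℝ} {g gt gr grr : ℝ → ℝ → ℝ}
    (hf : ContinuousOn (fun q : ℝ × V => f q.1 q.2) (Icc 0 S ×ˢ univ))
    (hg : ContinuousOn (fun q : ℝ × ℝ => g q.1 q.2) (Icc 0 S ×ˢ Ici 0))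
    (hg0 : ∀ t ∈ Icc 0 S, ∀ r, 0 ≤ r → 0 ≤ g t r)
    (hdec : ∀ ε > 0, ∃ R : ℝ, ∀ t ∈ Icc 0 S, ∀ r, 0 ≤ r → ∀ z, R ≤ ‖pt r z‖ → f t (pt r z) ≤ ε)
    (hax : ∀ t ∈ Icc 0 S, ∀ z, f t (pt 0 z) ≤ g t 0)
    (hin : ∀ r, 0 ≤ r → ∀ z, f 0 (pt r z) ≤ g 0 r)
    (hsm : ∀ t ∈ Ioc 0 S, Sm (f t))
    (hgr : ∀ t ∈ Ioc 0 S, ∀ r, 0 < r → HasDerivAt (g t) (gr t r) r)
    (hgrr : ∀ t ∈ Ioc 0 S, ∀ r, 0 < r → HasDerivAt (gr t) (grr t r) r)
    (hft : ∀ t ∈ Ioc 0 S, ∀ r, 0 < r → ∀ z,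
      HasDerivAt (fun s => f s (pt r z)) (ft t (pt r z)) t)
    (hgt : ∀ t ∈ Ioc 0 S, ∀ r, 0 < r → HasDerivAt (fun s => g s r) (gt t r) t)
    (key : ∀ t ∈ Ioc 0 S, ∀ r, 0 < r → ∀ z, g t r < f t (pt r z) →
      pd 0 (f t) (pt r z) = gr t r → pd 2 (f t) (pt r z) = 0 →
      pd 0 (pd 0 (f t)) (pt r z) ≤ grr t r → pd 2 (pd 2 (f t)) (pt r z) ≤ 0 →
      ft t (pt r z) - gt t r ≤ C * (f t (pt r z) - g t r)) :
    ∀ t ∈ Icc 0 S, ∀ r, 0 ≤ r → ∀ z, f t (pt r z) ≤ g t r := by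
  intro t1 ht1 r1 hr1 z1
  by_contra hcon
  push Not at hcon
  set L : ℝ := |C| + 1 with hL
  have hL0 : 0 ≤ L := by positivity
  set Φ : ℝ × ℝ × ℝ → ℝ := fun q => Real.exp (-(L * q.1)) * (f q.1 (pt q.2.1 q.2.2) - g q.1 q.2.1)
    with hΦ
  set m : ℝ := Φ (t1, r1, z1) with hm
  have hm0 : 0 < m := mul_pos (Real.exp_pos _) (by linarith)
  obtain ⟨R, hR⟩ := hdec (m / 2) (by positivity)
  set R' : ℝ := max R (max |r1| |z1|) + 1 with hR'
  have hRR' : R ≤ R' := by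
    have := le_max_left R (max |r1| |z1|)
    linarith
  have hr1R : |r1| ≤ R' := by
    have h2 := le_max_right R (max |r1| |z1|)
    have h3 := le_max_left |r1| |z1|
    linarith
  have hz1R : |z1| ≤ R' := by
    have h2 := le_max_right R (max |r1| |z1|)
    have h3 := le_max_right |r1| |z1|
    linarith
  set K : Set (ℝ × ℝ × ℝ) := Icc 0 S ×ˢ (Icc 0 R' ×ˢ Icc (-R') R') with hK
  have hKc : IsCompact K := isCompact_Icc.prod (isCompact_Icc.prod isCompact_Icc)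
  have hΦc : ContinuousOn Φ K := by
    have c1 : ContinuousOn (fun q : ℝ × ℝ × ℝ => f q.1 (pt q.2.1 q.2.2)) K := by
      have c2 : Continuous fun q : ℝ × ℝ × ℝ => ((q.1, pt q.2.1 q.2.2) : ℝ × V) :=
        continuous_fst.prodMk (pt_cont.comp continuous_snd)
      exact hf.comp c2.continuousOn fun q hq => ⟨hq.1, mem_univ _⟩
    have c3 : ContinuousOn (fun q : ℝ × ℝ × ℝ => g q.1 q.2.1) K := by
      have c2 : Continuous fun q : ℝ × ℝ × ℝ => ((q.1, q.2.1) : ℝ × ℝ) :=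
        continuous_fst.prodMk (continuous_fst.comp continuous_snd)
      exact hg.comp c2.continuousOn fun q hq => ⟨hq.1, hq.2.1.1⟩
    have c4 : Continuous fun q : ℝ × ℝ × ℝ => Real.exp (-(L * q.1)) := by fun_prop
    exact c4.continuousOn.mul (c1.sub c3)
  have hp1 : (t1, r1, z1) ∈ K := by
    refine ⟨ht1, ⟨hr1, (le_abs_self _).trans hr1R⟩, ?_, (le_abs_self _).trans hz1R⟩
    exact (abs_le.1 hz1R).1
  obtain ⟨⟨t0, r0, z0⟩, hp0, hmax0⟩ := hKc.exists_isMaxOn ⟨_, hp1⟩ hΦc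
  have hm1 : m ≤ Φ (t0, r0, z0) := hmax0 hp1
  have hall : ∀ t ∈ Icc 0 S, ∀ r, 0 ≤ r → ∀ z, Φ (t, r, z) ≤ Φ (t0, r0, z0) := by
    intro t ht r hr z
    by_cases hin : (t, r, z) ∈ K
    · exact hmax0 hin
    · have hbig : R' ≤ ‖pt r z‖ := by
        by_contra hlt
        push Not at hlt
        obtain ⟨n1, n2⟩ := le_norm_pt r z
        exact hin ⟨ht, ⟨hr, ((le_abs_self _).trans n1).trans hlt.le⟩,
          (abs_le.1 (n2.trans hlt.le)).1, (abs_le.1 (n2.trans hlt.le)).2⟩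
      have h3 := hR t ht r hr z (hRR'.trans hbig)
      have h4 := hg0 t ht r hr
      have h5 : Real.exp (-(L * t)) ≤ 1 := Real.exp_le_one_iff.2 (by
        have := mul_nonneg hL0 ht.1
        linarith)
      have h6 : Φ (t, r, z) ≤ m / 2 := by
        show Real.exp (-(L * t)) * (f t (pt r z) - g t r) ≤ m / 2
        calc Real.exp (-(L * t)) * (f t (pt r z) - g t r) ≤ Real.exp (-(L * t)) * (m / 2) :=
              mul_le_mul_of_nonneg_left (by linarith) (Real.exp_pos _).le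
          _ ≤ 1 * (m / 2) := mul_le_mul_of_nonneg_right h5 (by positivity)
          _ = m / 2 := one_mul _
      linarith
  have ht0 : t0 ∈ Icc 0 S := hp0.1
  have hr0 : 0 ≤ r0 := hp0.2.1.1
  have hpos : 0 < f t0 (pt r0 z0) - g t0 r0 := by
    have h3 : 0 < Real.exp (-(L * t0)) * (f t0 (pt r0 z0) - g t0 r0) := lt_of_lt_of_le hm0 hm1
    exact (mul_pos_iff_of_pos_left (Real.exp_pos _)).1 h3
  have hr0' : 0 < r0 := by
    rcases hr0.eq_or_lt with h3 | h3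
    · exfalso
      rw [← h3] at hpos
      linarith [hax t0 ht0 z0]
    · exact h3
  have ht0' : 0 < t0 := by
    rcases ht0.1.eq_or_lt with h3 | h3
    · exfalso
      rw [← h3] at hpos
      linarith [hin r0 hr0 z0]
    · exact h3
  have hI : t0 ∈ Ioc 0 S := ⟨ht0', ht0.2⟩
  -- time
  have d1 : HasDerivAt (fun s => Real.exp (-(L * s)) * (f s (pt r0 z0) - g s r0))
      (Real.exp (-(L * t0)) * -L * (f t0 (pt r0 z0) - g t0 r0)
        + Real.exp (-(L * t0)) * (ft t0 (pt r0 z0) - gt t0 r0)) t0 := by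
    have e1 : HasDerivAt (fun s : ℝ => -(L * s)) (-L) t0 := by
      have e2 := ((hasDerivAt_id' t0).const_mul L).neg
      rw [mul_one] at e2
      exact e2
    exact e1.exp.mul ((hft t0 hI r0 hr0' z0).sub (hgt t0 hI r0 hr0'))
  have h7 := left_test d1 ht0' fun s hs => hall s ⟨hs.1.le, hs.2.le.trans ht0.2⟩ r0 hr0 z0
  have h8 : L * (f t0 (pt r0 z0) - g t0 r0) ≤ ft t0 (pt r0 z0) - gt t0 r0 := by
    have e := Real.exp_pos (-(L * t0))
    have h9 : 0 ≤ Real.exp (-(L * t0)) * ((ft t0 (pt r0 z0) - gt t0 r0)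
        - L * (f t0 (pt r0 z0) - g t0 r0)) := by
      calc (0 : ℝ) ≤ _ := h7
        _ = _ := by ring
    have := nonneg_of_mul_nonneg_right h9 e
    linarith
  -- space
  have hcmp : ∀ r, 0 ≤ r → ∀ z, f t0 (pt r z) - g t0 r ≤ f t0 (pt r0 z0) - g t0 r0 := by
    intro r hr z
    have h3 := hall t0 ht0 r hr z
    exact le_of_mul_le_mul_left h3 (Real.exp_pos (-(L * t0)))
  have s1 := snd_test (φ := fun r => f t0 (pt r z0) - g t0 r)
    (φ' := fun r => pd 0 (f t0) (pt r z0) - gr t0 r) (r := r0)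
    (a := pd 0 (pd 0 (f t0)) (pt r0 z0) - grr t0 r0)
    (by
      filter_upwards [Ioi_mem_nhds hr0'] with s hs
      exact (hasDerivAt_pt0 (hsm t0 hI) s z0).sub (hgr t0 hI s hs))
    ((hasDerivAt_pt0 ((hsm t0 hI).pd' 0) r0 z0).sub (hgrr t0 hI r0 hr0'))
    (by
      filter_upwards [Ioi_mem_nhds hr0'] with s hs
      exact hcmp s (le_of_lt hs) z0)
  have s2 := snd_test (φ := fun z => f t0 (pt r0 z) - g t0 r0)
    (φ' := fun z => pd 2 (f t0) (pt r0 z)) (r := z0)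
    (a := pd 2 (pd 2 (f t0)) (pt r0 z0))
    (Filter.Eventually.of_forall fun s =>
      (hasDerivAt_pt2 (hsm t0 hI) r0 s).sub_const _)
    (hasDerivAt_pt2 ((hsm t0 hI).pd' 2) r0 z0)
    (Filter.Eventually.of_forall fun s => hcmp r0 hr0 s)
  have h10 := key t0 hI r0 hr0' z0 (by linarith) (by linarith [s1.1]) s2.1 (by linarith [s1.2]) s2.2
  have h11 : C * (f t0 (pt r0 z0) - g t0 r0) < L * (f t0 (pt r0 z0) - g t0 r0) := by
    refine mul_lt_mul_of_pos_right ?_ hpos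
    have := le_abs_self C
    linarith
  linarith


variable {ν T E : ℝ} {u : ℝ → V → V} {p : ℝ → V → ℝ} {M : ℝ → ℝ}

/-- The circulation on the half plane `x₁ = 0`, `x₀ ≥ 0`. -/
noncomputable def ga (u : ℝ → V → V) (t : ℝ) (x : V) : ℝ := x 0 * u t x 1

theorem sm_x0 : Sm fun x : V => x 0 := contDiff_apply ℝ ℝ 0

theorem AxSol.ga_sm (h : AxSol ν T E u p) {t : ℝ} (ht : t ∈ Ico 0 T) : Sm (ga u t) :=
  sm_x0.mul (h.sm ht 1)

theorem pd_x0 (i : Fin 3) (x : V) : pd i (fun x : V => x 0) x = if i = 0 then 1 else 0 := by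
  unfold pd
  have h1 : HasFDerivAt (fun y : V => y 0) (ContinuousLinearMap.proj 0 : V →L[ℝ] ℝ) x :=
    (ContinuousLinearMap.proj (R := ℝ) 0 : V →L[ℝ] ℝ).hasFDerivAt
  rw [h1.fderiv]
  by_cases hi : i = 0
  · subst hi; simp
  · simp [hi, Pi.single_apply, Ne.symm hi]

theorem AxSol.ga_pd (h : AxSol ν T E u p) {t : ℝ} (ht : t ∈ Ico 0 T) (x : V) :
    pd 0 (ga u t) x = x 0 * pd 0 (fun y => u t y 1) x + u t x 1 ∧
    pd 2 (ga u t) x = x 0 * pd 2 (fun y => u t y 1) x ∧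
    pd 0 (pd 0 (ga u t)) x = x 0 * pd 0 (pd 0 fun y => u t y 1) x
      + 2 * pd 0 (fun y => u t y 1) x ∧
    pd 2 (pd 2 (ga u t)) x = x 0 * pd 2 (pd 2 fun y => u t y 1) x := by
  have hs : Sm fun y => u t y 1 := h.sm ht 1
  have e0 : pd 0 (ga u t) = fun x => x 0 * pd 0 (fun y => u t y 1) x + u t x 1 := by
    funext x
    show pd 0 (fun x => x 0 * u t x 1) x = _
    rw [s_mul sm_x0 hs, pd_x0, if_pos rfl]
    ring
  have e2 : pd 2 (ga u t) = fun x => x 0 * pd 2 (fun y => u t y 1) x := by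
    funext x
    show pd 2 (fun x => x 0 * u t x 1) x = _
    rw [s_mul sm_x0 hs, pd_x0, if_neg (by decide)]
    ring
  refine ⟨congrFun e0 x, congrFun e2 x, ?_, ?_⟩
  · rw [e0]
    have h1 : HasFDerivAt (fun x => x 0 * pd 0 (fun y => u t y 1) x + u t x 1)
        (fderiv ℝ (fun x => x 0 * pd 0 (fun y => u t y 1) x) x + fderiv ℝ (fun y => u t y 1) x) x :=
      (Sm.d (sm_x0.mul (hs.pd' 0)) x).hasFDerivAt.add (hs.d x).hasFDerivAt
    have h2 : pd 0 (fun x => x 0 * pd 0 (fun y => u t y 1) x + u t x 1) x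
        = pd 0 (fun x => x 0 * pd 0 (fun y => u t y 1) x) x + pd 0 (fun y => u t y 1) x := by
      show fderiv ℝ (fun x => x 0 * pd 0 (fun y => u t y 1) x + u t x 1) x (Pi.single 0 1) = _
      rw [h1.fderiv]
      rfl
    rw [h2, s_mul sm_x0 (hs.pd' 0), pd_x0, if_pos rfl]
    ring
  · rw [e2, s_mul sm_x0 (hs.pd' 2), pd_x0, if_neg (by decide)]
    ring

/-- The equation for the circulation. -/
theorem AxSol.ga_eq (h : AxSol ν T E u p) {t : ℝ} (ht : t ∈ Ioo 0 T) {r : ℝ} (hr : 0 < r)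
    (z : ℝ) : HasDerivAt (fun s => ga u s (pt r z))
      (ν * (pd 0 (pd 0 (ga u t)) (pt r z) + pd 2 (pd 2 (ga u t)) (pt r z)
          - pd 0 (ga u t) (pt r z) / r)
        - u t (pt r z) 0 * pd 0 (ga u t) (pt r z)
        - u t (pt r z) 2 * pd 2 (ga u t) (pt r z)) t := by
  obtain ⟨g0, g2, g00, g22⟩ := h.ga_pd (t := t) ⟨ht.1.le, ht.2⟩ (pt r z)
  have e0 : pt r z 0 = r := rfl
  rw [g0, g2, g00, g22, e0]
  refine ((h.u_eq ht hr z).const_mul r).congr_deriv ?_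
  field_simp
  ring

theorem AxSol.ga_cont (h : AxSol ν T E u p) {S : ℝ} (hS : S < T) :
    ContinuousOn (fun q : ℝ × V => ga u q.1 q.2) (Icc 0 S ×ˢ univ) := by
  have h1 : Continuous fun q : ℝ × V => q.2 0 := (continuous_apply 0).comp continuous_snd
  exact h1.continuousOn.mul ((h.smooth_c 1).continuousOn.mono fun q hq =>
    ⟨⟨hq.1.1, hq.1.2.trans_lt hS⟩, hq.2⟩)

theorem ga_pt (u : ℝ → V → V) (t r z : ℝ) : ga u t (pt r z) = r * u t (pt r z) 1 := rfl

/-- The circulation with the auxiliary barrier. -/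
theorem AxSol.ga_aux (h : AxSol ν T E u p) (hν : 0 < ν) {G ε W S : ℝ} (hε : 0 < ε) (hW0 : 0 ≤ W)
    (hS : S < T) (hW : ∀ t ∈ Icc 0 S, ∀ x, ‖u t x‖ ≤ W) (hG0 : 0 ≤ G)
    (hG : ∀ r, 0 ≤ r → ∀ z, |r * u 0 (pt r z) 1| ≤ G) {σ : ℝ} (hσ : σ ^ 2 = 1) {t : ℝ}
    (ht : t ∈ Icc 0 S) {r : ℝ} (hr : 0 ≤ r) (z : ℝ) :
    σ * ga u t (pt r z) ≤ G + ε * (r + W * t) := by
  have hsub : ∀ s ∈ Ioc 0 S, s ∈ Ioo 0 T := fun s hs => ⟨hs.1, hs.2.trans_lt hS⟩
  have hsm : ∀ s ∈ Ioc 0 S, Sm fun x => σ * ga u s x + -(ε * x 0) + -(G + ε * (W * s)) := by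
    intro s hs
    exact ((contDiff_const.mul (h.ga_sm ⟨hs.1.le, (hsub s hs).2⟩)).add
      (contDiff_const.mul sm_x0).neg).add contDiff_const
  have key := max_pr2 (S := S) (C := 0)
    (f := fun s x => σ * ga u s x + -(ε * x 0) + -(G + ε * (W * s)))
    (ft := fun s x => σ * (ν * (pd 0 (pd 0 (ga u s)) x + pd 2 (pd 2 (ga u s)) x
          - pd 0 (ga u s) x / x 0)
        - u s x 0 * pd 0 (ga u s) x
        - u s x 2 * pd 2 (ga u s) x) + -(ε * (W * 1)))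
    (g := fun _ _ => 0) (gt := fun _ _ => 0) (gr := fun _ _ => 0) (grr := fun _ _ => 0)
    ?_ continuousOn_const (fun _ _ _ _ => le_rfl) ?_ ?_ ?_ hsm
    (fun s _ r _ => hasDerivAt_const _ _) (fun s _ r _ => hasDerivAt_const _ _)
    ?_ (fun s _ r _ => hasDerivAt_const _ _) ?_ t ht r hr z
  · have h1 : σ * ga u t (pt r z) + -(ε * r) + -(G + ε * (W * t)) ≤ 0 := key
    linarith
  · have c1 : Continuous fun q : ℝ × V => -(ε * q.2 0) :=
      (continuous_const.mul ((continuous_apply 0).comp continuous_snd)).neg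
    have c2 : Continuous fun q : ℝ × V => -(G + ε * (W * q.1)) := by fun_prop
    exact ((continuousOn_const.mul (h.ga_cont hS)).add c1.continuousOn).add c2.continuousOn
  · intro ε' hε'
    obtain ⟨R, hR⟩ := h.decay S hS ε hε
    refine ⟨R, fun s hs r hr z hx => ?_⟩
    have h1 := (hR s hs (pt r z) hx).1
    have h2 : |u s (pt r z) 1| ≤ ε := (norm_le_pi_norm (u s (pt r z)) 1).trans h1
    have h3 : σ * ga u s (pt r z) ≤ r * ε := by
      refine (le_abs_self _).trans ?_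
      rw [abs_sg hσ, ga_pt, abs_mul, abs_of_nonneg hr]
      exact mul_le_mul_of_nonneg_left h2 hr
    have h4 : 0 ≤ ε * (W * s) := mul_nonneg hε.le (mul_nonneg hW0 hs.1)
    show σ * ga u s (pt r z) + -(ε * r) + -(G + ε * (W * s)) ≤ ε'
    linarith
  · intro s hs z
    have h4 : 0 ≤ ε * (W * s) := mul_nonneg hε.le (mul_nonneg hW0 hs.1)
    show σ * ga u s (pt 0 z) + -(ε * 0) + -(G + ε * (W * s)) ≤ 0
    rw [ga_pt]
    linarith
  · intro r hr z
    have h1 : σ * ga u 0 (pt r z) ≤ G := by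
      refine (le_abs_self _).trans ?_
      rw [abs_sg hσ, ga_pt]
      exact hG r hr z
    have h2 : 0 ≤ ε * r := mul_nonneg hε.le hr
    show σ * ga u 0 (pt r z) + -(ε * r) + -(G + ε * (W * 0)) ≤ 0
    linarith
  · intro s hs r hr z
    have h1 : HasDerivAt (fun s => -(G + ε * (W * s))) (-(ε * (W * 1))) s :=
      ((((hasDerivAt_id' s).const_mul W).const_mul ε).const_add G).neg
    exact (((h.ga_eq (hsub s hs) hr z).const_mul σ).add_const _).add h1
  · intro s hs r hr z _ h1 h2 h3 h4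
    have hga := h.ga_sm (t := s) ⟨hs.1.le, (hsub s hs).2⟩
    have e0 : pt r z 0 = r := rfl
    have d : ∀ i, pd i (fun x => σ * ga u s x + -(ε * x 0) + -(G + ε * (W * s)))
        = fun x => σ * pd i (ga u s) x + -(ε * (if i = 0 then 1 else 0)) := by
      intro i
      funext x
      have d1 : HasFDerivAt (fun x => σ * ga u s x + -(ε * x 0) + -(G + ε * (W * s)))
          (σ • fderiv ℝ (ga u s) x + -(ε • fderiv ℝ (fun x : V => x 0) x)) x :=
        (((hga.d x).hasFDerivAt.const_mul σ).add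
          (((sm_x0.d x).hasFDerivAt.const_mul ε).neg)).add_const _
      have d2 := pd_x0 i x
      unfold pd at d2 ⊢
      rw [d1.fderiv]
      simp only [add_apply, smul_apply, neg_apply, smul_eq_mul, d2]
    have dd : ∀ i, pd i (pd i (fun x => σ * ga u s x + -(ε * x 0) + -(G + ε * (W * s))))
        = fun x => σ * pd i (pd i (ga u s)) x := by
      intro i
      rw [d i]
      funext x
      have d1 : HasFDerivAt (fun x => σ * pd i (ga u s) x + -(ε * (if i = 0 then (1 : ℝ) else 0)))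
          (σ • fderiv ℝ (pd i (ga u s)) x) x :=
        (((hga.pd' i).d x).hasFDerivAt.const_mul σ).add_const _
      show fderiv ℝ (fun x => σ * pd i (ga u s) x + -(ε * (if i = 0 then (1 : ℝ) else 0))) x
        (Pi.single i 1) = _
      rw [d1.fderiv]
      rfl
    rw [d] at h1 h2
    rw [dd] at h3 h4
    simp only [if_true, if_neg (show ¬ ((2 : Fin 3) = 0) by decide), mul_one, mul_zero, neg_zero,
      add_zero] at h1 h2
    simp only [e0] at *
    have hV : |u s (pt r z) 0| ≤ W :=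
      (norm_le_pi_norm (u s (pt r z)) 0).trans (hW s ⟨hs.1.le, hs.2⟩ _)
    have hV1 := (abs_le.1 hV).1
    have g0 : σ * pd 0 (ga u s) (pt r z) = ε := by linarith
    have k : σ * (ν * (pd 0 (pd 0 (ga u s)) (pt r z) + pd 2 (pd 2 (ga u s)) (pt r z)
          - pd 0 (ga u s) (pt r z) / r)
        - u s (pt r z) 0 * pd 0 (ga u s) (pt r z)
        - u s (pt r z) 2 * pd 2 (ga u s) (pt r z))
        = ν * (σ * pd 0 (pd 0 (ga u s)) (pt r z)) + ν * (σ * pd 2 (pd 2 (ga u s)) (pt r z))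
          - ν * (σ * pd 0 (ga u s) (pt r z)) / r - u s (pt r z) 0 * (σ * pd 0 (ga u s) (pt r z))
          - u s (pt r z) 2 * (σ * pd 2 (ga u s) (pt r z)) := by ring
    have k1 : ν * (σ * pd 0 (pd 0 (ga u s)) (pt r z)) ≤ 0 :=
      mul_nonpos_of_nonneg_of_nonpos hν.le h3
    have k2 : ν * (σ * pd 2 (pd 2 (ga u s)) (pt r z)) ≤ 0 :=
      mul_nonpos_of_nonneg_of_nonpos hν.le h4
    have k3 : 0 ≤ ν * ε / r := by positivity
    have k4 : -(u s (pt r z) 0 * ε) ≤ W * ε := by nlinarith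
    rw [k, g0, h2]
    linarith

/-- The bound of the circulation. -/
theorem AxSol.ga_le (h : AxSol ν T E u p) (hν : 0 < ν) {G : ℝ} (hG0 : 0 ≤ G)
    (hG : ∀ r, 0 ≤ r → ∀ z, |r * u 0 (pt r z) 1| ≤ G) {t : ℝ}
    (ht : t ∈ Ico 0 T) {r : ℝ} (hr : 0 ≤ r) (z : ℝ) :
    |ga u t (pt r z)| ≤ G := by
  obtain ⟨W, hW0, hW⟩ := h.bdd ht.2
  have key : ∀ σ : ℝ, σ ^ 2 = 1 → σ * ga u t (pt r z) ≤ G := by
    intro σ hσ
    refine le_of_forall_pos_le_add fun δ hδ => ?_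
    have hd : 0 < r + W * t + 1 := by
      have := mul_nonneg hW0 ht.1
      linarith
    have h1 := h.ga_aux hν (ε := δ / (r + W * t + 1)) (by positivity) hW0 ht.2 hW hG0 hG hσ
      ⟨ht.1, le_rfl⟩ hr z
    refine h1.trans ?_
    have h2 : δ / (r + W * t + 1) * (r + W * t) ≤ δ := by
      rw [div_mul_eq_mul_div, div_le_iff₀ hd]
      nlinarith
    linarith
  rw [abs_le]
  constructor
  · have := key (-1) (by norm_num)
    linarith
  · have := key 1 (by norm_num)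
    linarith

end Pool.Agent.R210.Ax
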