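import Pool.Agent.R210.X8

/-!
The second criterion for axisymmetric solutions: a barrier which depends on the circulation.
-/

open MeasureTheory Set Metric Filter Topology
open scoped ContDiff
open H459R3.NS

namespace Pool.Agent.R210.Ax

variable {ν T E : ℝ} {u : ℝ → V → V} {p : ℝ → V → ℝ} {M : ℝ → ℝ}

theorem s_add {f g : V → ℝ} (hf : Sm f) (hg : Sm g) (i : Fin 3) (x : V) :
    pd i (fun y => f y + g y) x = pd i f x + pd i g x := by
  unfold pd
  have h := fderiv_fun_add (𝕜 := ℝ) (hf.d x) (hg.d x)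
  rw [h]; rfl

theorem s_const (c : ℝ) (i : Fin 3) (x : V) : pd i (fun _ : V => c) x = 0 := by
  unfold pd
  simp

/-- The derivatives of the barrier. -/
theorem pdF {f g : V → ℝ} (hf : Sm f) (hg : Sm g) (c q e : ℝ) (i : Fin 3) :
    (pd i fun x => f x + c * (q * (g x * g x) - e))
      = fun x => pd i f x + c * (q * (2 * (g x * pd i g x))) := by
  funext x
  have h1 : Sm fun x => g x * g x := hg.mul hg
  have h2 : Sm fun x => q * (g x * g x) := contDiff_const.mul h1
  have h3 : Sm fun x => q * (g x * g x) - e := h2.sub contDiff_const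
  rw [s_add hf (contDiff_const.mul h3), s_cmul c h3, s_sub h2 contDiff_const, s_const,
    s_cmul q h1, s_mul hg hg]
  ring

theorem pdpdF {f g : V → ℝ} (hf : Sm f) (hg : Sm g) (c q e : ℝ) (i : Fin 3) :
    (pd i (pd i fun x => f x + c * (q * (g x * g x) - e)))
      = fun x => pd i (pd i f) x
        + c * (q * (2 * (g x * pd i (pd i g) x + pd i g x * pd i g x))) := by
  rw [pdF hf hg]
  funext x
  have h1 : Sm fun x => g x * pd i g x := hg.mul (hg.pd' i)
  have h2 : Sm fun x => 2 * (g x * pd i g x) := contDiff_const.mul h1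
  have h3 : Sm fun x => q * (2 * (g x * pd i g x)) := contDiff_const.mul h2
  rw [s_add (hf.pd' i) (contDiff_const.mul h3), s_cmul c h3, s_cmul q h2, s_cmul 2 h1,
    s_mul hg (hg.pd' i)]

/-- The azimuthal vorticity is small near the axis, before the time `T`. -/
theorem AxSol.near_axis (h : AxSol ν T E u p) {S A : ℝ} (hS : S < T) (hA : 0 < A) :
    ∃ ρ : ℝ, 0 < ρ ∧ ∀ t ∈ Icc 0 S, ∀ r, 0 ≤ r → r < ρ → ∀ z, |cu (u t) (pt r z) 1| < A := by
  obtain ⟨R, hR⟩ := h.decay S hS (A / 4) (by positivity)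
  have hsub : ∀ t ∈ Icc 0 S, t ∈ Ico 0 T := fun t ht => ⟨ht.1, ht.2.trans_lt hS⟩
  have hc : ContinuousOn (fun q : ℝ × V => pd 0 (fun y => cu (u q.1) y 1) q.2) (Ico 0 T ×ˢ univ) :=
    (contDiffOn_pd (f := fun s y => cu (u s) y 1) (h.smooth_cu 1) 0).continuousOn
  have hK : IsCompact (Icc 0 S ×ˢ closedBall (0 : V) (|R| + 1)) :=
    isCompact_Icc.prod (isCompact_closedBall _ _)
  obtain ⟨C, hC⟩ := hK.exists_bound_of_continuousOn (hc.mono fun q hq =>
    ⟨hsub _ hq.1, mem_univ _⟩)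
  set C1 : ℝ := max C 1 with hC1
  have hC10 : 0 < C1 := lt_max_of_lt_right one_pos
  refine ⟨min 1 (A / C1), lt_min one_pos (by positivity), fun t ht r hr hrρ z => ?_⟩
  rcases le_or_gt R ‖pt r z‖ with h1 | h1
  · have h2 := (hR t ht _ h1).2
    have h3 := h.cu_le (hsub t ht) (pt r z)
    linarith
  · have hr1 : r < 1 := hrρ.trans_le (min_le_left _ _)
    have hz : |z| ≤ |R| + 1 := by
      have := (le_norm_pt r z).2
      have := le_abs_self R
      linarith
    have hd : ∀ s ∈ Icc 0 r, HasDerivWithinAt (fun s => cu (u t) (pt s z) 1)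
        (pd 0 (fun y => cu (u t) y 1) (pt s z)) (Icc 0 r) s := fun s _ =>
      (hasDerivAt_pt0 (h.sm_cu (hsub t ht) 1) s z).hasDerivWithinAt
    have hb : ∀ s ∈ Icc 0 r, ‖pd 0 (fun y => cu (u t) y 1) (pt s z)‖ ≤ C1 := by
      intro s hs
      refine (hC (t, pt s z) ⟨ht, ?_⟩).trans (le_max_left _ _)
      rw [mem_closedBall_zero_iff, pi_norm_le_iff_of_nonneg (by positivity)]
      intro i
      have ha := abs_nonneg R
      fin_cases i
      · show ‖s‖ ≤ |R| + 1
        rw [Real.norm_eq_abs, abs_of_nonneg hs.1]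
        linarith [hs.2]
      · show ‖(0 : ℝ)‖ ≤ |R| + 1
        rw [norm_zero]
        positivity
      · exact hz
    have h2 := Convex.norm_image_sub_le_of_norm_hasDerivWithin_le hd hb (convex_Icc _ _)
      (left_mem_Icc.2 hr) (right_mem_Icc.2 hr)
    rw [(h.axis (hsub t ht) z).1, sub_zero, sub_zero, Real.norm_eq_abs, Real.norm_eq_abs,
      abs_of_nonneg hr] at h2
    have h3 : r < A / C1 := hrρ.trans_le (min_le_right _ _)
    rw [lt_div_iff₀ hC10] at h3
    linarith

/-- The condition of the second theorem at one time. -/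
def CondB (ν η G K M : ℝ) (v : V → V) : Prop := ∀ r z : ℝ, 0 < r → K < |cu v (pt r z) 1| →
  r * v (pt r z) 0 + min (-(2 * (r * v (pt r z) 1) * (cu v (pt r z) 0 / cu v (pt r z) 1)))
      ((1 + η) / (2 * η * ν) * (G * v (pt r z) 1 / (r * cu v (pt r z) 1)) ^ 2)
    ≤ (1 - 2 * η) * ν + M * r ^ 2

/-- The bound of the azimuthal vorticity. -/
theorem AxSol.stepB (h : AxSol ν T E u p) (hν : 0 < ν) {η G K : ℝ} (hη : 0 < η) (hG0 : 0 < G)
    (hG : ∀ r, 0 ≤ r → ∀ z, |r * u 0 (pt r z) 1| ≤ G)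
    (hM0 : ∀ t ∈ Ioo 0 T, 0 ≤ M t) (hMc : ContinuousOn M (Ico 0 T)) (hMi : IntegrableOn M (Ioo 0 T))
    (hc : ∀ t ∈ Ioo 0 T, CondB ν η G K (M t) (u t)) {A : ℝ} (hA0 : 0 < A) (hKA : K ≤ A)
    (hA : ∀ r, 0 ≤ r → ∀ z, |cu (u 0) (pt r z) 1| ≤ A)
    {σ : ℝ} (hσ : σ ^ 2 = 1) {t : ℝ} (ht : t ∈ Ico 0 T) {r : ℝ} (hr : 0 ≤ r) (z : ℝ) :
    σ * cu (u t) (pt r z) 1 ≤ A * Real.exp (II M t) * (1 + η) := by
  have hT : 0 < T := ht.1.trans_lt ht.2
  obtain ⟨hId, hIc, hIb⟩ := II_props hM0 hMc hMi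
  obtain ⟨CM, hCM⟩ := isCompact_Icc.exists_bound_of_continuousOn
    (hMc.mono fun s (hs : s ∈ Icc 0 t) => ⟨hs.1, hs.2.trans_lt ht.2⟩)
  obtain ⟨ρ, hρ, hax⟩ := h.near_axis ht.2 hA0
  have hsub : ∀ s ∈ Ioc 0 t, s ∈ Ioo 0 T := fun s hs => ⟨hs.1, hs.2.trans_lt ht.2⟩
  have hsub' : ∀ s ∈ Icc 0 t, s ∈ Ico 0 T := fun s hs => ⟨hs.1, hs.2.trans_lt ht.2⟩
  set q : ℝ := η / G ^ 2 with hq
  have hq0 : 0 < q := by positivity
  have hga : ∀ s ∈ Icc 0 t, ∀ r, 0 ≤ r → ∀ z, q * (ga u s (pt r z) * ga u s (pt r z)) ≤ η := by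
    intro s hs r hr z
    have h1 := h.ga_le hν hG0.le hG (hsub' s hs) hr z
    have h2 : ga u s (pt r z) * ga u s (pt r z) ≤ G ^ 2 := by
      rw [← sq, ← sq_abs]
      exact pow_le_pow_left₀ (abs_nonneg _) h1 2
    calc q * (ga u s (pt r z) * ga u s (pt r z)) ≤ q * G ^ 2 := mul_le_mul_of_nonneg_left h2 hq0.le
      _ = η := by rw [hq]; field_simp
  set C : ℝ := G ^ 4 / (2 * ν * η * A ^ 2 * ρ ^ 6) + CM with hC
  have key := max_pr2 (S := t) (C := C)
    (f := fun s x => fo u σ s x + A * Real.exp (II M s) * (q * (ga u s x * ga u s x) - (1 + η)))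
    (ft := fun s x => (ν * (pd 0 (pd 0 (fo u σ s)) x + pd 2 (pd 2 (fo u σ s)) x
          + pd 0 (fo u σ s) x / x 0 - fo u σ s x / x 0 ^ 2)
        - u s x 0 * pd 0 (fo u σ s) x
        - u s x 2 * pd 2 (fo u σ s) x
        + u s x 0 / x 0 * fo u σ s x
        - 2 * (u s x 1 / x 0) * (σ * cu (u s) x 0))
        + (A * (Real.exp (II M s) * M s) * (q * (ga u s x * ga u s x) - (1 + η))
          + A * Real.exp (II M s) * (q * ((ν * (pd 0 (pd 0 (ga u s)) x + pd 2 (pd 2 (ga u s)) x
            - pd 0 (ga u s) x / x 0) - u s x 0 * pd 0 (ga u s) x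
            - u s x 2 * pd 2 (ga u s) x) * ga u s x
          + ga u s x * (ν * (pd 0 (pd 0 (ga u s)) x + pd 2 (pd 2 (ga u s)) x
            - pd 0 (ga u s) x / x 0) - u s x 0 * pd 0 (ga u s) x
            - u s x 2 * pd 2 (ga u s) x)))))
    (g := fun _ _ => 0) (gt := fun _ _ => 0) (gr := fun _ _ => 0) (grr := fun _ _ => 0)
    ?_ continuousOn_const (fun _ _ _ _ => le_rfl) ?_ ?_ ?_ ?_
    (fun s _ r _ => hasDerivAt_const _ _) (fun s _ r _ => hasDerivAt_const _ _)
    ?_ (fun s _ r _ => hasDerivAt_const _ _) ?_ t ⟨ht.1, le_rfl⟩ r hr z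
  · have h1 : fo u σ t (pt r z) + A * Real.exp (II M t)
        * (q * (ga u t (pt r z) * ga u t (pt r z)) - (1 + η)) ≤ 0 := key
    have h2 : 0 ≤ A * Real.exp (II M t) * (q * (ga u t (pt r z) * ga u t (pt r z))) := by
      have := mul_self_nonneg (ga u t (pt r z))
      positivity
    have h3 : fo u σ t (pt r z) = σ * cu (u t) (pt r z) 1 := rfl
    rw [h3] at h1
    linarith
  · have c1 : ContinuousOn (fun q : ℝ × V => A * Real.exp (II M q.1)) (Icc 0 t ×ˢ (univ : Set V)) :=
      continuousOn_const.mul (Real.continuous_exp.comp_continuousOn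
        (hIc.comp continuousOn_fst fun q hq => hsub' _ hq.1))
    have c2 := h.ga_cont ht.2
    exact (h.fo_cont σ ht.2).add (c1.mul ((continuousOn_const.mul (c2.mul c2)).sub continuousOn_const))
  · intro ε hε
    obtain ⟨R, hR⟩ := h.fo_dec hσ ht.2 ε hε
    refine ⟨R, fun s hs r hr z hx => ?_⟩
    have h1 := hR s hs (pt r z) hx
    have h2 := hga s hs r hr z
    have h3 : A * Real.exp (II M s) * (q * (ga u s (pt r z) * ga u s (pt r z)) - (1 + η)) ≤ 0 :=
      mul_nonpos_of_nonneg_of_nonpos (by positivity) (by linarith)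
    show fo u σ s (pt r z) + _ ≤ ε
    linarith
  · intro s hs z
    have h1 := (h.axis (hsub' s hs) z).1
    have h2 := hga s hs 0 le_rfl z
    have h3 : A * Real.exp (II M s) * (q * (ga u s (pt 0 z) * ga u s (pt 0 z)) - (1 + η)) ≤ 0 :=
      mul_nonpos_of_nonneg_of_nonpos (by positivity) (by linarith)
    show σ * cu (u s) (pt 0 z) 1 + _ ≤ 0
    rw [h1]
    linarith
  · intro r hr z
    have e0 : II M 0 = 0 := by simp [II]
    have h2 := hga 0 ⟨le_rfl, ht.1⟩ r hr z
    have h4 : σ * cu (u 0) (pt r z) 1 ≤ A := by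
      refine (le_abs_self _).trans ?_
      rw [abs_sg hσ]
      exact hA r hr z
    have h3 : A * Real.exp (II M 0) * (q * (ga u 0 (pt r z) * ga u 0 (pt r z)) - (1 + η)) ≤ -A := by
      rw [e0, Real.exp_zero, mul_one]
      have : q * (ga u 0 (pt r z) * ga u 0 (pt r z)) - (1 + η) ≤ -1 := by linarith
      nlinarith
    show σ * cu (u 0) (pt r z) 1 + _ ≤ 0
    linarith
  · intro s hs
    have g1 := h.ga_sm (t := s) ⟨hs.1.le, (hsub s hs).2⟩
    exact (h.fo_sm σ ⟨hs.1.le, (hsub s hs).2⟩).add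
      (contDiff_const.mul ((contDiff_const.mul (g1.mul g1)).sub contDiff_const))
  · intro s hs r hr z
    have d1 := h.fo_eq σ (hsub s hs) hr z
    have d2 := h.ga_eq (hsub s hs) hr z
    have d3 : HasDerivAt (fun s => A * Real.exp (II M s)) (A * (Real.exp (II M s) * M s)) s :=
      ((hId s (hsub s hs)).exp).const_mul A
    exact d1.add (d3.mul (((d2.mul d2).const_mul q).sub_const _))
  · intro s hs r hr z hpos h1 h2 h3 h4
    have e0 : pt r z 0 = r := rfl
    have hsT : s ∈ Ico 0 T := ⟨hs.1.le, (hsub s hs).2⟩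
    have hfs := h.fo_sm σ hsT
    have hgs := h.ga_sm hsT
    rw [pdF hfs hgs] at h1 h2
    rw [pdpdF hfs hgs] at h3 h4
    simp only [e0]
    -- the source
    have hw0 : cu (u s) (pt r z) 0 = -(pd 2 (ga u s) (pt r z) / r) := by
      have c0 : cu (u s) (pt r z) 0 = pd 1 (fun y => u s y 2) (pt r z)
        - pd 2 (fun y => u s y 1) (pt r z) := rfl
      rw [c0, (at_pt (fun i => h.sm hsT i) (h.axi_u s hsT) hr z).2.2, (h.ga_pd hsT (pt r z)).2.1, e0]
      field_simp
      ring
    have hu1 : u s (pt r z) 1 = ga u s (pt r z) / r := by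
      rw [ga_pt]; field_simp
    set f := fo u σ s (pt r z) with hf
    set g := ga u s (pt r z) with hg
    set a := A * Real.exp (II M s) with ha
    set gr := pd 0 (ga u s) (pt r z) with hgr
    set gz := pd 2 (ga u s) (pt r z) with hgz
    set grr := pd 0 (pd 0 (ga u s)) (pt r z) with hgrr
    set gzz := pd 2 (pd 2 (ga u s)) (pt r z) with hgzz
    set fr := pd 0 (fo u σ s) (pt r z) with hfr
    set fz := pd 2 (fo u σ s) (pt r z) with hfz
    set frr := pd 0 (pd 0 (fo u σ s)) (pt r z) with hfrr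
    set fzz := pd 2 (pd 2 (fo u σ s)) (pt r z) with hfzz
    set v0 := u s (pt r z) 0 with hv0
    set v2 := u s (pt r z) 2 with hv2
    have hexp : 1 ≤ Real.exp (II M s) := Real.one_le_exp (hIb s hsT).1
    have haA : A ≤ a := le_mul_of_one_le_right hA0.le hexp
    have ha0 : 0 < a := hA0.trans_le haA
    have hqg : q * (g * g) ≤ η := hga s ⟨hs.1.le, hs.2⟩ r hr.le z
    set F := f + a * (q * (g * g) - (1 + η)) with hF
    have hFpos : 0 < F := hpos
    have hfa : a < f := by
      have : a * (q * (g * g) - (1 + η)) ≤ a * (-1) := mul_le_mul_of_nonneg_left (by linarith) ha0.le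
      linarith
    have hf0 : 0 < f := ha0.trans hfa
    have hfF : f ≤ F + a * (1 + η) := by
      have : 0 ≤ a * (q * (g * g)) := by
        have := mul_self_nonneg g
        positivity
      rw [hF]
      linarith
    have hw1 : σ * cu (u s) (pt r z) 1 = f := rfl
    have hw1a : |cu (u s) (pt r z) 1| = f := by
      rw [← abs_sg hσ, hw1, abs_of_pos hf0]
    have hw1sq : cu (u s) (pt r z) 1 ^ 2 = f ^ 2 := by
      rw [← sq_abs, hw1a]
    have hrρ : ρ ≤ r := by
      by_contra hcon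
      push Not at hcon
      have := hax s ⟨hs.1.le, hs.2⟩ r hr.le hcon z
      rw [hw1a] at this
      linarith
    have hg2 : g ^ 2 ≤ G ^ 2 := by
      rw [← sq_abs]
      exact pow_le_pow_left₀ (abs_nonneg _) (h.ga_le hν hG0.le hG hsT hr.le z) 2
    -- the hypothesis
    have hcond := hc s (hsub s hs) r z hr (by rw [hw1a]; linarith)
    have hcases : (r * v0 - 2 * g * (-(gz / r) / cu (u s) (pt r z) 1)
          ≤ (1 - 2 * η) * ν + M s * r ^ 2) ∨
        v0 / r * f + (1 + η) * G ^ 2 * g ^ 2 / (2 * ν * η * r ^ 6 * f)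
          ≤ (ν * (1 - 2 * η) / r ^ 2 + M s) * f := by
      rcases min_le_iff.1 (le_refl (min (-(2 * (r * u s (pt r z) 1)
          * (cu (u s) (pt r z) 0 / cu (u s) (pt r z) 1)))
          ((1 + η) / (2 * η * ν) * (G * u s (pt r z) 1 / (r * cu (u s) (pt r z) 1)) ^ 2))) with hm | hm
      · left
        have e3 : r * u s (pt r z) 1 = g := rfl
        rw [e3, hw0] at hm
        have hcond' := hcond
        rw [e3, hw0] at hcond'
        have := hcond'
        linarith
      · right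
        have hcond2 : r * v0 + (1 + η) / (2 * η * ν)
            * (G * u s (pt r z) 1 / (r * cu (u s) (pt r z) 1)) ^ 2 ≤ (1 - 2 * η) * ν + M s * r ^ 2 := by
          linarith
        rw [div_pow, mul_pow, mul_pow, hw1sq, hu1] at hcond2
        have e1 : v0 / r * f + (1 + η) * G ^ 2 * g ^ 2 / (2 * ν * η * r ^ 6 * f)
            = f / r ^ 2 * (r * v0 + (1 + η) / (2 * η * ν)
              * (G ^ 2 * (g / r) ^ 2 / (r ^ 2 * f ^ 2))) := by
          field_simp
        have e2 : (ν * (1 - 2 * η) / r ^ 2 + M s) * f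
            = f / r ^ 2 * ((1 - 2 * η) * ν + M s * r ^ 2) := by
          field_simp
        rw [e1, e2]
        exact mul_le_mul_of_nonneg_left hcond2 (by positivity)
    have hM : M s ≤ CM := (le_abs_self _).trans (hCM s ⟨hs.1.le, hs.2⟩)
    have hMs := hM0 s (hsub s hs)
    -- the terms
    have hP : a * q * G ^ 2 = a * η := by rw [hq]; field_simp
    have hP0 : 0 < a * q := by positivity
    have k1 : ν * (frr + a * (q * (2 * (g * grr + gr * gr)))) ≤ 0 :=
      mul_nonpos_of_nonneg_of_nonpos hν.le h3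
    have k2 : ν * (fzz + a * (q * (2 * (g * gzz + gz * gz)))) ≤ 0 :=
      mul_nonpos_of_nonneg_of_nonpos hν.le h4
    have k3 : -(2 * ν * (a * q) * gr ^ 2) - 4 * ν * (a * q) * g * gr / r
        ≤ 2 * ν * η * f / r ^ 2 := by
      have e1 : -(2 * ν * (a * q) * gr ^ 2) - 4 * ν * (a * q) * g * gr / r
          = -(2 * ν * (a * q) * (gr + g / r) ^ 2) + 2 * ν * (a * (q * (g * g))) / r ^ 2 := by
        field_simp
        ring
      have e2 : 0 ≤ 2 * ν * (a * q) * (gr + g / r) ^ 2 := by positivity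
      have e3 : 2 * ν * (a * (q * (g * g))) / r ^ 2 ≤ 2 * ν * η * f / r ^ 2 := by
        refine div_le_div_of_nonneg_right ?_ (by positivity)
        have e4 : a * (q * (g * g)) ≤ a * η := mul_le_mul_of_nonneg_left hqg ha0.le
        have e5 : a * η ≤ f * η := mul_le_mul_of_nonneg_right hfa.le hη.le
        nlinarith
      linarith
    have k4 : -(2 * ν * (a * q) * gz ^ 2) + 2 * σ * g * gz / r ^ 3
        ≤ (1 + η) * G ^ 2 * g ^ 2 / (2 * ν * η * r ^ 6 * f)
          + G ^ 4 / (2 * ν * η * A ^ 2 * ρ ^ 6) * F := by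
      have e1 : -(2 * ν * (a * q) * gz ^ 2) + 2 * σ * g * gz / r ^ 3
          ≤ G ^ 2 * g ^ 2 / (2 * ν * η * r ^ 6 * a) := by
        have e2 : G ^ 2 * g ^ 2 / (2 * ν * η * r ^ 6 * a)
            = g ^ 2 / (2 * ν * (a * q) * r ^ 6) := by
          rw [hq]; field_simp
        rw [e2]
        have e3 : g ^ 2 / (2 * ν * (a * q) * r ^ 6)
            - (-(2 * ν * (a * q) * gz ^ 2) + 2 * σ * g * gz / r ^ 3)
            = (2 * ν * (a * q) * r ^ 3 * gz - σ * g) ^ 2 / (2 * ν * (a * q) * r ^ 6) := by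
          have e4 : (2 * ν * (a * q) * r ^ 3 * gz - σ * g) ^ 2
              = (2 * ν * (a * q) * r ^ 3 * gz) ^ 2 - 4 * ν * (a * q) * r ^ 3 * gz * (σ * g)
                + g ^ 2 := by
            linear_combination (g ^ 2) * hσ
          rw [e4]
          field_simp
          ring
        have e5 : 0 ≤ (2 * ν * (a * q) * r ^ 3 * gz - σ * g) ^ 2 / (2 * ν * (a * q) * r ^ 6) := by
          positivity
        linarith
      have e6 : G ^ 2 * g ^ 2 / (2 * ν * η * r ^ 6 * a)
          ≤ (1 + η) * G ^ 2 * g ^ 2 / (2 * ν * η * r ^ 6 * f)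
            + G ^ 2 * g ^ 2 / (2 * ν * η * r ^ 6 * (a * f)) * F := by
        have e7 : (1 + η) * G ^ 2 * g ^ 2 / (2 * ν * η * r ^ 6 * f)
            + G ^ 2 * g ^ 2 / (2 * ν * η * r ^ 6 * (a * f)) * F
            - G ^ 2 * g ^ 2 / (2 * ν * η * r ^ 6 * a)
            = G ^ 2 * g ^ 2 / (2 * ν * η * r ^ 6 * (a * f)) * (F + a * (1 + η) - f) := by
          field_simp
          ring
        have e8 : 0 ≤ G ^ 2 * g ^ 2 / (2 * ν * η * r ^ 6 * (a * f)) * (F + a * (1 + η) - f) :=
          mul_nonneg (by positivity) (by linarith)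
        linarith
      have e9 : G ^ 2 * g ^ 2 / (2 * ν * η * r ^ 6 * (a * f))
          ≤ G ^ 4 / (2 * ν * η * A ^ 2 * ρ ^ 6) := by
        refine div_le_div₀ (by positivity) ?_ (by positivity) ?_
        · calc G ^ 2 * g ^ 2 ≤ G ^ 2 * G ^ 2 := mul_le_mul_of_nonneg_left hg2 (by positivity)
            _ = G ^ 4 := by ring
        · have e10 : ρ ^ 6 ≤ r ^ 6 := pow_le_pow_left₀ hρ.le hrρ 6
          have e11 : A ^ 2 ≤ a * f := by
            rw [sq]
            exact mul_le_mul haA (haA.trans hfa.le) hA0.le ha0.le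
          calc 2 * ν * η * A ^ 2 * ρ ^ 6 = 2 * ν * η * ρ ^ 6 * A ^ 2 := by ring
            _ ≤ 2 * ν * η * r ^ 6 * (a * f) :=
                mul_le_mul (mul_le_mul_of_nonneg_left e10 (by positivity)) e11 (by positivity)
                  (by positivity)
      have e12 := mul_le_mul_of_nonneg_right e9 hFpos.le
      linarith
    have hX : -(2 * ν * (a * q) * gz ^ 2) + 2 * σ * g * gz / r ^ 3 + v0 / r * f
        ≤ (ν * (1 - 2 * η) / r ^ 2 + M s) * f + G ^ 4 / (2 * ν * η * A ^ 2 * ρ ^ 6) * F := by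
      rcases hcases with hA' | hB'
      · have hw1e : cu (u s) (pt r z) 1 = σ * f := by
          rw [← hw1]
          linear_combination (-(cu (u s) (pt r z) 1)) * hσ
        have hσ0 : σ ≠ 0 := by
          intro h0
          rw [h0] at hσ
          norm_num at hσ
        rw [hw1e] at hA'
        have e1 : 2 * σ * g * gz / r ^ 3 + v0 / r * f
            = f / r ^ 2 * (r * v0 - 2 * g * (-(gz / r) / (σ * f))) := by
          field_simp
          linear_combination (2 * g * gz) * hσ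
        have e2 : (ν * (1 - 2 * η) / r ^ 2 + M s) * f
            = f / r ^ 2 * ((1 - 2 * η) * ν + M s * r ^ 2) := by
          field_simp
        have e3 := mul_le_mul_of_nonneg_left hA' (by positivity : 0 ≤ f / r ^ 2)
        have e4 : 0 ≤ G ^ 4 / (2 * ν * η * A ^ 2 * ρ ^ 6) * F := by positivity
        have e5 : 0 ≤ 2 * ν * (a * q) * gz ^ 2 := by positivity
        rw [← e1, ← e2] at e3
        linarith
      · linarith
    -- the sum
    have tot : (ν * (frr + fzz + fr / r - f / r ^ 2) - v0 * fr - v2 * fz + v0 / r * f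
        - 2 * (u s (pt r z) 1 / r) * (σ * cu (u s) (pt r z) 0))
        + (A * (Real.exp (II M s) * M s) * (q * (g * g) - (1 + η))
          + a * (q * ((ν * (grr + gzz - gr / r) - v0 * gr - v2 * gz) * g
            + g * (ν * (grr + gzz - gr / r) - v0 * gr - v2 * gz))))
        = ν * (frr + a * (q * (2 * (g * grr + gr * gr))))
          + ν * (fzz + a * (q * (2 * (g * gzz + gz * gz))))
          + (-(2 * ν * (a * q) * gr ^ 2) - 4 * ν * (a * q) * g * gr / r)
          + (-(2 * ν * (a * q) * gz ^ 2) + 2 * σ * g * gz / r ^ 3)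
          + (ν / r - v0) * (fr + a * (q * (2 * (g * gr))))
          - v2 * (fz + a * (q * (2 * (g * gz))))
          - ν * f / r ^ 2 + v0 / r * f + M s * (F - f) := by
      rw [hw0, hu1, hF, ha]
      field_simp
      ring
    rw [tot, show fr + a * (q * (2 * (g * gr))) = 0 from h1,
      show fz + a * (q * (2 * (g * gz))) = 0 from h2]
    have fin : 2 * ν * η * f / r ^ 2 + (ν * (1 - 2 * η) / r ^ 2 + M s) * f - ν * f / r ^ 2
        + M s * (F - f) = M s * F := by
      field_simp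
      ring
    have hMF : M s * F ≤ CM * F := mul_le_mul_of_nonneg_right hM hFpos.le
    have hCF : C * F = G ^ 4 / (2 * ν * η * A ^ 2 * ρ ^ 6) * F + CM * F := by rw [hC]; ring
    simp only [sub_zero, mul_zero, add_zero]
    rw [hCF]
    linarith

end Pool.Agent.R210.Ax
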